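import Pool.Agent.P.MP_3be8c7_an.Int

open scoped ComplexOrder InnerProductSpace
open Filter Topology

noncomputable section

namespace Ulam

universe u v w

variable {A B : Type*} [NonUnitalCStarAlgebra A] [NonUnitalCStarAlgebra B] {φ : A → B} {ε : ℝ}

theorem EpsHom.nonneg (h : EpsHom φ ε) : 0 ≤ ε := by
  exact (norm_nonneg _).trans (h.star 0 (by simp))

theorem EpsHom.mono (h : EpsHom φ ε) {ε' : ℝ} (hε : ε ≤ ε') : EpsHom φ ε' := by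
  exact ⟨h.ball, fun a b ha hb => (h.add a b ha hb).trans hε,
    fun a b ha hb => (h.mul a b ha hb).trans hε, fun a ha => (h.star a ha).trans hε,
    fun c a hc ha => (h.smul c a hc ha).trans hε⟩

theorem EpsHom.norm_zero_le (h : EpsHom φ ε) : ‖φ 0‖ ≤ ε := by
  simpa using h.smul 0 0 (by simp) (by simp)

theorem EpsHom.smul_real (h : EpsHom φ ε) (t : ℝ) (ht : |t| ≤ 1) (a : A) (ha : ‖a‖ ≤ 1) :
    ‖φ (t • a) - t • φ a‖ ≤ ε := by
  have := h.smul (t : ℂ) a (by simpa using ht) ha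
  simpa only [Complex.coe_smul] using this

theorem EpsHom.norm_le (h : EpsHom φ ε) (a : A) (ha : ‖a‖ ≤ 1) : ‖φ a‖ ≤ ‖a‖ + ε := by
  rcases eq_or_ne a 0 with rfl | h0
  · simpa using h.norm_zero_le
  have hp : 0 < ‖a‖ := norm_pos_iff.2 h0
  have hu : ‖‖a‖⁻¹ • a‖ ≤ 1 := by
    rw [norm_smul, norm_inv, norm_norm, inv_mul_cancel₀ hp.ne']
  have h1 := h.smul_real ‖a‖ (by rwa [abs_norm]) _ hu
  rw [smul_inv_smul₀ hp.ne'] at h1
  have h2 : ‖‖a‖ • φ (‖a‖⁻¹ • a)‖ ≤ ‖a‖ := by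
    rw [norm_smul, norm_norm]
    exact mul_le_of_le_one_right hp.le (h.ball _ hu)
  have h3 := norm_le_norm_add_norm_sub' (φ a) (‖a‖ • φ (‖a‖⁻¹ • a))
  linarith

theorem EpsHom.lip (h : EpsHom φ ε) (a b : A) (ha : ‖a‖ ≤ 1) (hb : ‖b‖ ≤ 1) :
    ‖φ a - φ b‖ ≤ ‖a - b‖ + 4 * ε := by
  have hm : ‖(2 : ℝ)⁻¹ • (a + b)‖ ≤ 1 := by
    rw [norm_smul, norm_inv, Real.norm_two]
    linarith [norm_add_le a b]
  have hd' : ‖(2 : ℝ)⁻¹ • (a - b)‖ = 2⁻¹ * ‖a - b‖ := by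
    rw [norm_smul, norm_inv, Real.norm_two]
  have hd : ‖(2 : ℝ)⁻¹ • (a - b)‖ ≤ 1 := by
    rw [hd']
    linarith [norm_sub_le a b]
  have e1 : (2 : ℝ)⁻¹ • (a + b) + (2 : ℝ)⁻¹ • (a - b) = a := by module
  have e2 : (2 : ℝ)⁻¹ • (a + b) + -((2 : ℝ)⁻¹ • (a - b)) = b := by module
  have h1 := h.add _ _ hm hd
  have h2 := h.add _ (-((2 : ℝ)⁻¹ • (a - b))) hm (by rwa [norm_neg])
  have h3 := h.norm_le _ hd
  have h4 := h.norm_le (-((2 : ℝ)⁻¹ • (a - b))) (by rwa [norm_neg])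
  rw [e1] at h1
  rw [e2] at h2
  rw [norm_neg] at h4
  set m := φ ((2 : ℝ)⁻¹ • (a + b))
  set d := φ ((2 : ℝ)⁻¹ • (a - b))
  set d' := φ (-((2 : ℝ)⁻¹ • (a - b)))
  have e : φ a - φ b = (φ a - m - d) - (φ b - m - d') + (d - d') := by abel
  have h5 := norm_add_le ((φ a - m - d) - (φ b - m - d')) (d - d')
  have h6 := norm_sub_le (φ a - m - d) (φ b - m - d')
  have h7 := norm_sub_le d d'
  rw [e]
  linarith

theorem EpsHom.mid (h : EpsHom φ ε) (a b : A) (ha : ‖a‖ ≤ 1) (hb : ‖b‖ ≤ 1) :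
    ‖φ ((2 : ℝ)⁻¹ • (a + b)) - (2 : ℝ)⁻¹ • (φ a + φ b)‖ ≤ 3 * ε := by
  have h2 : |(2 : ℝ)⁻¹| ≤ 1 := by norm_num [abs_le]
  have hh : ∀ x : A, ‖x‖ ≤ 1 → ‖(2 : ℝ)⁻¹ • x‖ ≤ 1 := fun x hx => by
    rw [norm_smul, norm_inv, Real.norm_two]
    linarith
  have h1 := h.add _ _ (hh a ha) (hh b hb)
  have h3 := h.smul_real _ h2 a ha
  have h4 := h.smul_real _ h2 b hb
  rw [← smul_add] at h1
  have e : φ ((2 : ℝ)⁻¹ • (a + b)) - (2 : ℝ)⁻¹ • (φ a + φ b)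
      = (φ ((2 : ℝ)⁻¹ • (a + b)) - φ ((2 : ℝ)⁻¹ • a) - φ ((2 : ℝ)⁻¹ • b))
        + (φ ((2 : ℝ)⁻¹ • a) - (2 : ℝ)⁻¹ • φ a) + (φ ((2 : ℝ)⁻¹ • b) - (2 : ℝ)⁻¹ • φ b) := by
    rw [smul_add _ (φ a)]
    abel
  rw [e]
  exact (norm_add₃_le.trans (add_le_add (add_le_add h1 h3) h4)).trans_eq (by ring)

theorem EpsHom.sum (h : EpsHom φ ε) {ι : Type*} (s : Finset ι) (x : ι → A)
    (hx : ∀ t ⊆ s, ‖∑ i ∈ t, x i‖ ≤ 1) :
    ‖φ (∑ i ∈ s, x i) - ∑ i ∈ s, φ (x i)‖ ≤ (s.card + 1) * ε := by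
  classical
  induction s using Finset.induction_on with
  | empty => simpa using h.norm_zero_le
  | insert i s hi ih =>
    have h1 := ih fun t ht => hx t (ht.trans (Finset.subset_insert i s))
    have h2 := h.add (x i) (∑ j ∈ s, x j)
      (by simpa using hx {i} (by simp)) (hx s (Finset.subset_insert i s))
    rw [Finset.sum_insert hi, Finset.sum_insert hi, Finset.card_insert_of_notMem hi]
    have e : φ (x i + ∑ j ∈ s, x j) - (φ (x i) + ∑ j ∈ s, φ (x j))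
        = (φ (x i + ∑ j ∈ s, x j) - φ (x i) - φ (∑ j ∈ s, x j))
          + (φ (∑ j ∈ s, x j) - ∑ j ∈ s, φ (x j)) := by abel
    rw [e]
    refine ((norm_add_le _ _).trans (add_le_add h2 h1)).trans_eq ?_
    push_cast
    ring

theorem EpsHom.comb (h : EpsHom φ ε) {ι : Type*} [Fintype ι] (c : ι → ℂ) (x : ι → A)
    (hc : ∑ i, ‖c i‖ ≤ 1) (hx : ∀ i, ‖x i‖ ≤ 1) :
    ‖φ (∑ i, c i • x i) - ∑ i, c i • φ (x i)‖ ≤ (2 * Fintype.card ι + 1) * ε := by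
  have h1 := h.sum Finset.univ (fun i => c i • x i) fun t _ => by
    refine (norm_sum_le _ _).trans (le_trans ?_ hc)
    refine (Finset.sum_le_sum fun i _ => ?_).trans (Finset.sum_le_sum_of_subset_of_nonneg
      (Finset.subset_univ t) fun i _ _ => norm_nonneg (c i))
    rw [norm_smul]
    exact mul_le_of_le_one_right (norm_nonneg _) (hx i)
  have h2 : ‖∑ i, φ (c i • x i) - ∑ i, c i • φ (x i)‖ ≤ Fintype.card ι * ε := by
    rw [← Finset.sum_sub_distrib]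
    refine (norm_sum_le _ _).trans ((Finset.sum_le_sum fun i _ => h.smul (c i) (x i) ?_ (hx i)).trans_eq
      (by simp))
    exact (Finset.single_le_sum (fun j _ => norm_nonneg (c j)) (Finset.mem_univ i)).trans hc
  refine ((norm_sub_le_norm_sub_add_norm_sub _ _ _).trans (add_le_add h1 h2)).trans_eq ?_
  rw [Finset.card_univ]
  ring

theorem EpsHom.comb2 (h : EpsHom φ ε) {ι : Type*} [Fintype ι] (c : ι → ℂ) (x : ι → A)
    (hc : ∑ i, ‖c i‖ ≤ 2) (hx : ∀ i, ‖x i‖ ≤ 1) (hs : ‖∑ i, c i • x i‖ ≤ 1) :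
    ‖φ (∑ i, c i • x i) - ∑ i, c i • φ (x i)‖ ≤ (4 * Fintype.card ι + 4) * ε := by
  have h1 := h.comb (fun i => (2 : ℂ)⁻¹ * c i) x (by
    simp only [norm_mul, norm_inv, Complex.norm_two, ← Finset.mul_sum]
    linarith) hx
  have h2 := h.smul (2 : ℂ)⁻¹ _ (by norm_num) hs
  simp only [mul_smul, ← Finset.smul_sum] at h1
  have h3 := (norm_sub_le_norm_sub_add_norm_sub _ _ _).trans
    (add_le_add ((norm_sub_rev _ _).trans_le h2) h1)
  rw [← smul_sub, norm_smul, norm_inv, Complex.norm_two] at h3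
  linarith

theorem EpsHom.star_mul (h : EpsHom φ ε) (a b : A) (ha : ‖a‖ ≤ 1) (hb : ‖b‖ ≤ 1) :
    ‖φ (Star.star a * b) - Star.star (φ a) * φ b‖ ≤ 2 * ε := by
  have h1 := h.mul (Star.star a) b (by rwa [norm_star]) hb
  have h2 : ‖φ (Star.star a) * φ b - Star.star (φ a) * φ b‖ ≤ ε := by
    rw [← sub_mul]
    exact (norm_mul_le _ _).trans ((mul_le_of_le_one_right (norm_nonneg _) (h.ball b hb)).trans
      (h.star a ha))
  exact ((norm_sub_le_norm_sub_add_norm_sub _ _ _).trans (add_le_add h1 h2)).trans_eq (by ring)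

theorem EpsHom.sandwich (h : EpsHom φ ε) (c y : A) (hc : ‖c‖ ≤ 1) (hy : ‖y‖ ≤ 1) :
    ‖φ (Star.star c * y * c) - Star.star (φ c) * φ y * φ c‖ ≤ 3 * ε := by
  have h1 := h.mul (Star.star c * y) c ((norm_mul_le _ _).trans (by
    rw [norm_star]
    exact mul_le_one₀ hc (norm_nonneg _) hy)) hc
  have h2 : ‖φ (Star.star c * y) * φ c - Star.star (φ c) * φ y * φ c‖ ≤ 2 * ε := by
    rw [← sub_mul]
    exact (norm_mul_le _ _).trans ((mul_le_of_le_one_right (norm_nonneg _) (h.ball c hc)).trans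
      (h.star_mul c y hc hy))
  exact ((norm_sub_le_norm_sub_add_norm_sub _ _ _).trans (add_le_add h1 h2)).trans_eq (by ring)

/-- The exact case. -/
theorem zero_case (h : EpsHom φ 0) (M : Set B) (hM : ∀ (c : ℂ) x, x ∈ M → c • x ∈ M)
    (hφ : ∀ a, φ a ∈ M) :
    ∃ ψ : A →⋆ₙₐ[ℂ] B, (∀ a, ψ a ∈ M) ∧ ∀ a, ‖a‖ ≤ 1 → φ a = ψ a := by
  have hs : ∀ (c : ℂ) a, ‖c‖ ≤ 1 → ‖a‖ ≤ 1 → φ (c • a) = c • φ a := fun c a hc ha =>
    sub_eq_zero.1 (norm_le_zero_iff.1 (h.smul c a hc ha))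
  have hb : ∀ (t : ℝ) (a : A), 0 < t → ‖a‖ ≤ t → ‖(t : ℂ)⁻¹ • a‖ ≤ 1 := fun t a ht ha => by
    rw [norm_smul, norm_inv, Complex.norm_real, Real.norm_of_nonneg ht.le, inv_mul_le_iff₀ ht,
      mul_one]
    exact ha
  have hG : ∀ (s t : ℝ) (a : A), 0 < s → s ≤ t → ‖a‖ ≤ s →
      (t : ℂ) • φ ((t : ℂ)⁻¹ • a) = (s : ℂ) • φ ((s : ℂ)⁻¹ • a) := by
    intro s t a h0 hst ha
    have ht : 0 < t := h0.trans_le hst
    have hs0 : (s : ℂ) ≠ 0 := by exact_mod_cast h0.ne'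
    have ht0 : (t : ℂ) ≠ 0 := by exact_mod_cast ht.ne'
    have e : (t : ℂ)⁻¹ • a = ((t : ℂ)⁻¹ * s) • (s : ℂ)⁻¹ • a := by
      rw [mul_smul, smul_inv_smul₀ hs0]
    rw [e, hs _ _ _ (hb s a h0 ha), mul_smul, smul_inv_smul₀ ht0]
    rw [norm_mul, norm_inv, Complex.norm_real, Complex.norm_real, Real.norm_of_nonneg ht.le,
      Real.norm_of_nonneg h0.le, inv_mul_le_iff₀ ht, mul_one]
    exact hst
  obtain ⟨G, hG0⟩ : ∃ G : A → B, ∀ (t : ℝ) a, 0 < t → ‖a‖ ≤ t →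
      G a = (t : ℂ) • φ ((t : ℂ)⁻¹ • a) := by
    refine ⟨fun a => ((‖a‖ + 1 : ℝ) : ℂ) • φ (((‖a‖ + 1 : ℝ) : ℂ)⁻¹ • a), fun t a ht ha => ?_⟩
    rcases le_total t (‖a‖ + 1) with h1 | h1
    · exact hG _ _ a ht h1 ha
    · exact (hG _ _ a (by positivity) h1 (by linarith)).symm
  have p1 : ∀ a : A, 0 < ‖a‖ + 1 := fun a => by positivity
  have p2 : ∀ a : A, ‖a‖ ≤ ‖a‖ + 1 := fun a => by linarith
  have gs : ∀ (c : ℂ) a, G (c • a) = c • G a := by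
    intro c a
    have hu : 0 < ‖c‖ + 1 := by positivity
    have hu0 : ((‖c‖ + 1 : ℝ) : ℂ) ≠ 0 := by exact_mod_cast hu.ne'
    rw [hG0 ((‖c‖ + 1) * (‖a‖ + 1)) _ (mul_pos hu (p1 a)) (by
      rw [norm_smul]
      exact mul_le_mul (by linarith) (p2 a) (norm_nonneg _) hu.le), hG0 _ a (p1 a) (p2 a)]
    have e : (((‖c‖ + 1) * (‖a‖ + 1) : ℝ) : ℂ)⁻¹ • c • a
        = (((‖c‖ + 1 : ℝ) : ℂ)⁻¹ * c) • ((‖a‖ + 1 : ℝ) : ℂ)⁻¹ • a := by
      rw [smul_smul, smul_smul, Complex.ofReal_mul, mul_inv]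
      congr 1
      ring
    rw [e, hs _ _ _ (hb _ a (p1 a) (p2 a)), smul_smul, smul_smul, Complex.ofReal_mul]
    · congr 1
      field_simp
    · rw [norm_mul, norm_inv, Complex.norm_real, Real.norm_of_nonneg hu.le, inv_mul_le_iff₀ hu]
      linarith
  have ga : ∀ a b, G (a + b) = G a + G b := by
    intro a b
    have ht : 0 < ‖a‖ + ‖b‖ + 1 := by positivity
    have h1 : ‖a‖ ≤ ‖a‖ + ‖b‖ + 1 := by linarith [norm_nonneg b]
    have h2 : ‖b‖ ≤ ‖a‖ + ‖b‖ + 1 := by linarith [norm_nonneg a]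
    rw [hG0 _ _ ht (by linarith [norm_add_le a b]), hG0 _ a ht h1, hG0 _ b ht h2, ← smul_add,
      smul_add _ a b]
    congr 1
    have := norm_le_zero_iff.1 (h.add _ _ (hb _ a ht h1) (hb _ b ht h2))
    rwa [sub_sub, sub_eq_zero] at this
  have gm : ∀ a b, G (a * b) = G a * G b := by
    intro a b
    rw [hG0 ((‖a‖ + 1) * (‖b‖ + 1)) _ (mul_pos (p1 a) (p1 b)) ((norm_mul_le _ _).trans
      (mul_le_mul (p2 a) (p2 b) (norm_nonneg _) (p1 a).le)), hG0 _ a (p1 a) (p2 a),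
      hG0 _ b (p1 b) (p2 b), smul_mul_smul_comm, Complex.ofReal_mul, mul_inv,
      ← smul_mul_smul_comm]
    congr 1
    exact sub_eq_zero.1 (norm_le_zero_iff.1
      (h.mul _ _ (hb _ a (p1 a) (p2 a)) (hb _ b (p1 b) (p2 b))))
  have gt : ∀ a, G (star a) = star (G a) := by
    intro a
    have := sub_eq_zero.1 (norm_le_zero_iff.1 (h.star _ (hb _ a (p1 a) (p2 a))))
    rw [hG0 _ (star a) (p1 a) (by rw [norm_star]; exact p2 a), hG0 _ a (p1 a) (p2 a), star_smul,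
      ← this, star_smul, star_inv₀, Complex.star_def, Complex.conj_ofReal]
  refine ⟨{ toFun := G, map_smul' := gs, map_zero' := by simpa using gs 0 0, map_add' := ga,
            map_mul' := gm, map_star' := gt }, fun a => ?_, fun a ha => ?_⟩
  · show G a ∈ M
    rw [hG0 _ a (p1 a) (p2 a)]
    exact hM _ _ (hφ _)
  · show φ a = G a
    rw [hG0 1 a one_pos ha]
    simp

end Ulam
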