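import Pool.Agent.P.MP_3be8c7_an.Int

open scoped ComplexOrder InnerProductSpace
open Filter Topology

noncomputable section

namespace Ulam

universe u v w

section
variable {ι κ V W : Type*} [Fintype ι] [Fintype κ]

theorem av_add [AddCommMonoid V] [Module ℝ V] (x y : ι → V) :
    av (fun i => x i + y i) = av x + av y := by
  rw [av, av, av, Finset.sum_add_distrib, smul_add]

theorem av_sub [AddCommGroup V] [Module ℝ V] (x y : ι → V) :
    av (fun i => x i - y i) = av x - av y := by
  rw [av, av, av, Finset.sum_sub_distrib, smul_sub]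

theorem av_const [Nonempty ι] [AddCommMonoid V] [Module ℝ V] (c : V) :
    av (fun _ : ι => c) = c := by
  rw [av, Finset.sum_const, Finset.card_univ, ← Nat.cast_smul_eq_nsmul ℝ, smul_smul,
    inv_mul_cancel₀ (Nat.cast_ne_zero.2 Fintype.card_ne_zero), one_smul]

theorem av_real_smul [AddCommMonoid V] [Module ℝ V] (t : ℝ) (x : ι → V) :
    av (fun i => t • x i) = t • av x := by
  rw [av, av, ← Finset.smul_sum, smul_comm]

theorem av_smul [AddCommGroup V] [Module ℂ V] (c : ℂ) (x : ι → V) :
    av (fun i => c • x i) = c • av x := by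
  rw [av, av, ← Finset.smul_sum, ← Complex.coe_smul, ← Complex.coe_smul, smul_comm]

theorem av_sum [AddCommMonoid V] [Module ℝ V] {μ : Type*} (s : Finset μ) (x : ι → μ → V) :
    av (fun i => ∑ j ∈ s, x i j) = ∑ j ∈ s, av fun i => x i j := by
  simp only [av]
  rw [Finset.sum_comm, Finset.smul_sum]

theorem av_equiv [AddCommMonoid V] [Module ℝ V] (e : κ ≃ ι) (x : ι → V) :
    av (fun k => x (e k)) = av x := by
  rw [av, av, Equiv.sum_comp e x, Fintype.card_congr e]

theorem av_prod [AddCommMonoid V] [Module ℝ V] (x : ι × κ → V) :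
    av x = av fun i => av fun k => x (i, k) := by
  simp only [av]
  rw [← Finset.smul_sum, smul_smul, Fintype.sum_prod_type, Fintype.card_prod, Nat.cast_mul,
    mul_inv]

theorem av_fst [Nonempty κ] [AddCommMonoid V] [Module ℝ V] (x : ι → V) :
    av (fun p : ι × κ => x p.1) = av x := by
  rw [av_prod]
  simp only [av_const]

theorem av_snd [Nonempty ι] [AddCommMonoid V] [Module ℝ V] (x : κ → V) :
    av (fun p : ι × κ => x p.2) = av x := by
  rw [av_prod]
  exact av_const (av x)

/-- Midpoint of two uniform families as a uniform family. -/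
theorem av_mid [Nonempty ι] [Nonempty κ] [AddCommMonoid V] [Module ℝ V] (x : ι → V) (y : κ → V) :
    av (Sum.elim (fun p : ι × κ => x p.1) (fun p : ι × κ => y p.2)) =
      (2 : ℝ)⁻¹ • (av x + av y) := by
  rw [← av_fst (κ := κ) x, ← av_snd (ι := ι) y, av, av, av, Fintype.sum_sum_type,
    Fintype.card_sum, ← smul_add, smul_smul, ← mul_inv, two_mul, Nat.cast_add]
  rfl

theorem map_av [AddCommMonoid V] [Module ℝ V] [AddCommMonoid W] [Module ℝ W] (L : V →ₗ[ℝ] W)
    (x : ι → V) : L (av x) = av fun i => L (x i) := by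
  rw [av, av, map_smul, map_sum]

theorem map_av' [AddCommGroup V] [Module ℂ V] [AddCommGroup W] [Module ℂ W] {F : Type*}
    [FunLike F V W] [LinearMapClass F ℂ V W] (L : F) (x : ι → V) :
    L (av x) = av fun i => L (x i) := by
  rw [av, av, ← Complex.coe_smul, ← Complex.coe_smul, map_smul, map_sum]

theorem norm_av_le [SeminormedAddCommGroup V] [NormedSpace ℝ V] (x : ι → V) :
    ‖av x‖ ≤ av fun i => ‖x i‖ := by
  rw [av, av, norm_smul, Real.norm_of_nonneg (by positivity), smul_eq_mul]
  exact mul_le_mul_of_nonneg_left (norm_sum_le _ _) (by positivity)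

theorem norm_av_le_of_le [SeminormedAddCommGroup V] [NormedSpace ℝ V] (x : ι → V) {c : ℝ}
    (hc : 0 ≤ c) (h : ∀ i, ‖x i‖ ≤ c) : ‖av x‖ ≤ c := by
  refine (norm_av_le x).trans ?_
  rcases isEmpty_or_nonempty ι with h0 | h0
  · simpa [av] using hc
  · rw [← av_const (ι := ι) c]
    exact mul_le_mul_of_nonneg_left (Finset.sum_le_sum fun i _ => h i) (by positivity)

theorem av_le_av {x y : ι → ℝ} (h : ∀ i, x i ≤ y i) : av x ≤ av y := by
  exact mul_le_mul_of_nonneg_left (Finset.sum_le_sum fun i _ => h i) (by positivity)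

theorem av_nonneg {x : ι → ℝ} (h : ∀ i, 0 ≤ x i) : 0 ≤ av x := by
  exact mul_nonneg (by positivity) (Finset.sum_nonneg fun i _ => h i)

theorem av_sq_le (x : ι → ℝ) : av x ^ 2 ≤ av fun i => x i ^ 2 := by
  rcases isEmpty_or_nonempty ι with h0 | h0
  · simp [av]
  have hc : (0 : ℝ) < Fintype.card ι := Nat.cast_pos.2 Fintype.card_pos
  have h := sq_sum_le_card_mul_sum_sq (s := Finset.univ) (f := x)
  rw [Finset.card_univ] at h
  rw [av, av, smul_eq_mul, smul_eq_mul, mul_pow, sq, mul_assoc]
  exact mul_le_mul_of_nonneg_left ((inv_mul_le_iff₀ hc).2 h) (by positivity)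

theorem exists_le_av [Nonempty ι] (x : ι → ℝ) : ∃ i, x i ≤ av x := by
  obtain ⟨i, hi⟩ := Finite.exists_min x
  exact ⟨i, (av_const (ι := ι) (x i)).symm.trans_le (av_le_av hi)⟩

theorem re_av (x : ι → ℂ) : (av x).re = av fun i => (x i).re := by
  exact map_av Complex.reLm x

end

section
variable {R : Type w} [CStarAlgebra R] [PartialOrder R] [StarOrderedRing R]

variable {ι : Type*} [Fintype ι]

theorem av_mono {x y : ι → R} (h : ∀ i, x i ≤ y i) : av x ≤ av y := by
  exact smul_le_smul_of_nonneg_left (Finset.sum_le_sum fun i _ => h i) (by positivity)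

theorem av_nonneg' {x : ι → R} (h : ∀ i, 0 ≤ x i) : 0 ≤ av x := by
  exact smul_nonneg (by positivity) (Finset.sum_nonneg fun i _ => h i)

omit [PartialOrder R] [StarOrderedRing R] in
theorem star_av (x : ι → R) : star (av x) = av fun i => star (x i) := by
  rw [av, av, star_smul, star_sum, star_trivial (Fintype.card ι : ℝ)⁻¹]

omit [PartialOrder R] [StarOrderedRing R] in
theorem mul_av (a : R) (x : ι → R) : a * av x = av fun i => a * x i := by
  rw [av, av, mul_smul_comm, Finset.mul_sum]

omit [PartialOrder R] [StarOrderedRing R] in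
theorem av_mul (a : R) (x : ι → R) : av x * a = av fun i => x i * a := by
  rw [av, av, smul_mul_assoc, Finset.sum_mul]

end

variable {H : Type v} [NormedAddCommGroup H] [InnerProductSpace ℂ H] [CompleteSpace H]

theorem av_apply {ι : Type*} [Fintype ι] (x : ι → (H →L[ℂ] H)) (ξ : H) :
    av x ξ = av fun i => x i ξ := by
  rw [av, av, ContinuousLinearMap.smul_apply, ContinuousLinearMap.sum_apply]

theorem av_mem {ι : Type*} [Fintype ι] (N : VonNeumannAlgebra H) (x : ι → (H →L[ℂ] H))
    (h : ∀ i, x i ∈ N) : av x ∈ N := by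
  rw [av, ← Complex.coe_smul]
  exact N.toStarSubalgebra.smul_mem (N.toStarSubalgebra.sum_mem fun i _ => h i) _

end Ulam
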