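import Pool.Agent.P.MP_3be8c7_an.Int

open scoped ComplexOrder InnerProductSpace
open Filter Topology

noncomputable section

namespace Ulam

universe u v w

variable {H : Type v} [NormedAddCommGroup H] [InnerProductSpace ℂ H] [CompleteSpace H]

open MeasureTheory in
theorem exists_avg {G : Type*} [Group G] [TopologicalSpace G] [IsTopologicalGroup G]
    [CompactSpace G] [T2Space G] [SecondCountableTopology G] (σ : G →* (H →L[ℂ] H))
    (hσ : ∀ g, star (σ g) = σ g⁻¹) {Y : H →L[ℂ] H} (hY : 0 ≤ Y)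
    (hc : Continuous fun g => σ g * Y * star (σ g)) {ν : ℝ} (hν : ∀ g, ‖σ g * Y - Y * σ g‖ ≤ ν) :
    ∃ Z : H →L[ℂ] H, 0 ≤ Z ∧ ‖Z - Y‖ ≤ ν ∧ (∀ g, Commute (σ g) Z) ∧
      ∀ T, Commute T Y → (∀ g, Commute T (σ g)) → Commute T Z := by
  borelize G
  let μ : Measure G := Measure.haarMeasure ⊤
  have : IsProbabilityMeasure μ := ⟨by
    have := Measure.haarMeasure_self (G := G) (K₀ := ⊤)
    rwa [TopologicalSpace.PositiveCompacts.coe_top] at this⟩
  have hi : Integrable (fun g => σ g * Y * star (σ g)) μ :=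
    hc.integrable_of_hasCompactSupport (HasCompactSupport.of_compactSpace _)
  have h1 : ∀ g, σ g * star (σ g) = 1 := fun g => by rw [hσ, ← map_mul, mul_inv_cancel, map_one]
  have h2 : ∀ g, star (σ g) * σ g = 1 := fun g => by rw [hσ, ← map_mul, inv_mul_cancel, map_one]
  have hn : ∀ g, ‖star (σ g)‖ ≤ 1 := fun g => by
    have e := CStarRing.norm_star_mul_self (x := σ g)
    rw [h2] at e
    have e2 : ‖(1 : H →L[ℂ] H)‖ ≤ 1 := ContinuousLinearMap.norm_id_le
    rw [norm_star]
    nlinarith [norm_nonneg (σ g)]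
  have hLR : ∀ A B : H →L[ℂ] H, A * (∫ g, σ g * Y * star (σ g) ∂μ) * B =
      ∫ g, A * (σ g * Y * star (σ g)) * B ∂μ := fun A B =>
    ((ContinuousLinearMap.mulLeftRight ℂ (H →L[ℂ] H) A B).integral_comp_comm hi).symm
  refine ⟨∫ g, σ g * Y * star (σ g) ∂μ, ?_, ?_, fun h => ?_, fun T hTY hT => ?_⟩
  · exact integral_nonneg fun g => star_right_conjugate_nonneg hY (σ g)
  · have e : ∫ g, σ g * Y * star (σ g) ∂μ - Y = ∫ g, (σ g * Y * star (σ g) - Y) ∂μ := by
      rw [integral_sub hi (integrable_const Y), integral_const, probReal_univ, one_smul]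
    rw [e]
    refine (norm_integral_le_of_norm_le_const (C := ν) (Eventually.of_forall fun g => ?_)).trans
      (by rw [probReal_univ, mul_one])
    have e2 : σ g * Y * star (σ g) - Y = (σ g * Y - Y * σ g) * star (σ g) := by
      rw [sub_mul, mul_assoc Y, h1, mul_one]
    rw [e2]
    exact (norm_mul_le _ _).trans
      ((mul_le_of_le_one_right (norm_nonneg _) (hn g)).trans (hν g))
  · have e : σ h * (∫ g, σ g * Y * star (σ g) ∂μ) * star (σ h) = ∫ g, σ g * Y * star (σ g) ∂μ := by
      rw [hLR, ← integral_mul_left_eq_self (fun g => σ g * Y * star (σ g)) h]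
      simp only [map_mul, star_mul, mul_assoc]
    have e2 := congrArg (fun A => A * σ h) e
    simp only [mul_assoc, h2, mul_one] at e2
    change _ * _ = _ * _
    simpa only [mul_assoc] using e2
  · have e1 := hLR T 1
    have e2 := hLR 1 T
    simp only [mul_one, one_mul] at e1 e2
    change _ * _ = _ * _
    rw [e1, e2]
    congr 1
    ext1 g
    have h3 : Commute T (star (σ g)) := by rw [hσ]; exact hT _
    exact (((hT g).mul_right hTY).mul_right h3).eq

end Ulam
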