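import Pool.Agent.P.MP_3be8c7_an.SPEC

open scoped ComplexOrder InnerProductSpace
open Filter Topology

noncomputable section

namespace Ulam

universe u v w

variable {D : Type u} [CStarAlgebra D]
variable {H : Type v} [NormedAddCommGroup H] [InnerProductSpace ℂ H] [CompleteSpace H]

/-- The diagonal action on a finite power of the Hilbert space. -/
def diag_bic (ι : Type*) [Fintype ι] (T : H →L[ℂ] H) :
    PiLp 2 (fun _ : ι => H) →L[ℂ] PiLp 2 (fun _ : ι => H) :=
  ((PiLp.continuousLinearEquiv 2 ℂ (fun _ : ι => H)).symm :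
      (ι → H) →L[ℂ] PiLp 2 (fun _ : ι => H)).comp
    (ContinuousLinearMap.pi fun i => T.comp (PiLp.proj 2 (fun _ : ι => H) i))

omit [CompleteSpace H] in
theorem diag_apply_bic {ι : Type*} [Fintype ι] (T : H →L[ℂ] H) (w : PiLp 2 (fun _ : ι => H))
    (i : ι) : diag_bic ι T w i = T (w i) := rfl

theorem clo_bic (π : D →⋆ₐ[ℂ] (H →L[ℂ] H)) {x : H →L[ℂ] H}
    (hx : ∀ T, (∀ a, Commute T (π a)) → Commute T x) {ι : Type*} [Fintype ι]
    (ζ : PiLp 2 (fun _ : ι => H)) :
    diag_bic ι x ζ ∈ closure (Set.range fun a => diag_bic ι (π a) ζ) := by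
  classical
  let L : D →ₗ[ℂ] PiLp 2 (fun _ : ι => H) :=
    { toFun := fun a => diag_bic ι (π a) ζ
      map_add' := fun a b => by ext i; simp [diag_apply_bic]
      map_smul' := fun c a => by ext i; simp [diag_apply_bic] }
  let K : Submodule ℂ (PiLp 2 (fun _ : ι => H)) := (LinearMap.range L).topologicalClosure
  have hK : (K : Set (PiLp 2 (fun _ : ι => H))) =
      closure (Set.range fun a => diag_bic ι (π a) ζ) := rfl
  have : CompleteSpace K := (LinearMap.range L).isClosed_topologicalClosure.completeSpace_coe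
  have hinv : ∀ a, ∀ k ∈ K, diag_bic ι (π a) k ∈ K := by
    intro a k hk
    rw [← SetLike.mem_coe, hK] at hk ⊢
    refine map_mem_closure (diag_bic ι (π a)).continuous hk ?_
    rintro _ ⟨b, rfl⟩
    refine ⟨a * b, ?_⟩
    ext i
    simp [diag_apply_bic]
  have hcom : ∀ a w, K.starProjection (diag_bic ι (π a) w) =
      diag_bic ι (π a) (K.starProjection w) := by
    intro a w
    refine Submodule.eq_starProjection_of_mem_of_inner_eq_zero
      (hinv a _ (K.starProjection_apply_mem w)) fun k hk => ?_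
    rw [← map_sub, ← K.starProjection_inner_eq_zero w _ (hinv (star a) k hk), PiLp.inner_apply,
      PiLp.inner_apply]
    refine Finset.sum_congr rfl fun i _ => ?_
    rw [diag_apply_bic, diag_apply_bic, map_star, ContinuousLinearMap.star_eq_adjoint,
      ContinuousLinearMap.adjoint_inner_right]
  let S : ι → (H →L[ℂ] PiLp 2 (fun _ : ι => H)) := fun j =>
    ((PiLp.continuousLinearEquiv 2 ℂ (fun _ : ι => H)).symm :
      (ι → H) →L[ℂ] PiLp 2 (fun _ : ι => H)).comp (ContinuousLinearMap.single ℂ (fun _ : ι => H) j)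
  have hS : ∀ j v i, S j v i = (Pi.single j v : ι → H) i := fun _ _ _ => rfl
  have hSd : ∀ (T : H →L[ℂ] H) j v, S j (T v) = diag_bic ι T (S j v) := by
    intro T j v
    ext i
    rw [diag_apply_bic, hS, hS]
    by_cases h : i = j
    · subst h; simp
    · simp [Pi.single_eq_of_ne h]
  have hsum : ∀ w : PiLp 2 (fun _ : ι => H), ∑ j, S j (w j) = w := by
    intro w
    ext i
    rw [WithLp.ofLp_sum, Finset.sum_apply]
    simp [hS, Finset.sum_pi_single]
  have hent : ∀ i j v, K.starProjection (S j (x v)) i = x (K.starProjection (S j v) i) := by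
    intro i j v
    have := hx (((PiLp.proj 2 (fun _ : ι => H) i).comp K.starProjection).comp (S j)) fun a => by
      ext v
      change K.starProjection (S j (π a v)) i = π a (K.starProjection (S j v) i)
      rw [hSd, hcom, diag_apply_bic]
    exact congrArg (fun T : H →L[ℂ] H => T v) this.eq
  have hζ : ζ ∈ K := by
    rw [← SetLike.mem_coe, hK]
    refine subset_closure ⟨1, ?_⟩
    ext i
    simp [diag_apply_bic]
  rw [← hK, SetLike.mem_coe, ← Submodule.starProjection_eq_self_iff]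
  ext i
  have e1 : K.starProjection (diag_bic ι x ζ) i = ∑ j, K.starProjection (S j (x (ζ j))) i := by
    conv_lhs => rw [← hsum (diag_bic ι x ζ), map_sum, WithLp.ofLp_sum, Finset.sum_apply]
    rfl
  have e2 : ζ i = ∑ j, K.starProjection (S j (ζ j)) i := by
    conv_lhs => rw [← Submodule.starProjection_eq_self_iff.2 hζ, ← hsum ζ, map_sum,
      WithLp.ofLp_sum, Finset.sum_apply]
  rw [e1, diag_apply_bic, e2, map_sum]
  exact Finset.sum_congr rfl fun j _ => hent i j _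

/-- Bicommutant theorem, strong density. -/
theorem bic_strong (π : D →⋆ₐ[ℂ] (H →L[ℂ] H)) {x : H →L[ℂ] H}
    (hx : ∀ T, (∀ a, Commute T (π a)) → Commute T x) (F : Finset H) {η : ℝ} (hη : 0 < η) :
    ∃ a : D, ∀ ζ ∈ F, ‖(π a - x) ζ‖ ≤ η := by
  obtain ⟨_, ⟨a, rfl⟩, ha⟩ := Metric.mem_closure_iff.1
    (clo_bic π hx (WithLp.toLp 2 fun i : F => (i : H))) η hη
  refine ⟨a, fun ζ hζ => ?_⟩
  rw [dist_comm, dist_eq_norm] at ha
  exact (PiLp.norm_apply_le (diag_bic F (π a) (WithLp.toLp 2 fun i : F => (i : H)) -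
    diag_bic F x (WithLp.toLp 2 fun i : F => (i : H))) ⟨ζ, hζ⟩).trans ha.le

theorem weak_bic (π : D →⋆ₐ[ℂ] (H →L[ℂ] H)) {x : H →L[ℂ] H}
    (hx : ∀ T, (∀ a, Commute T (π a)) → Commute T x) {ι : Type*} [Fintype ι] (ξ ζ : ι → H)
    (h : ∀ a, ∑ i, ⟪ξ i, π a (ζ i)⟫_ℂ = 0) : ∑ i, ⟪ξ i, x (ζ i)⟫_ℂ = 0 := by
  have hc : IsClosed {w : PiLp 2 (fun _ : ι => H) | ⟪WithLp.toLp 2 ξ, w⟫_ℂ = 0} :=
    isClosed_eq (by fun_prop) continuous_const
  exact closure_minimal (by rintro _ ⟨a, rfl⟩; exact h a) hc (clo_bic π hx (WithLp.toLp 2 ζ))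

theorem sep_bic {κ : Type*} [Fintype κ] (t : Set (κ → H)) (ht : Convex ℝ t)
    (hs : ∀ (c : ℝ), ∀ b ∈ t, (c : ℂ) • b ∈ t) (h0 : (0 : κ → H) ∈ t) (v : κ → H)
    (h : ∀ ξ : κ → H, (∀ b ∈ t, (∑ k, ⟪ξ k, b k⟫_ℂ).re = 0) → (∑ k, ⟪ξ k, v k⟫_ℂ).re = 0) :
    v ∈ closure t := by
  classical
  by_contra hv
  obtain ⟨f, u, h1, h2⟩ := RCLike.geometric_hahn_banach_point_closed (𝕜 := ℂ) ht.closure
    isClosed_closure hv
  have hf : ∀ b : κ → H, ∑ k, ⟪(InnerProductSpace.toDual ℂ H).symm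
      (f.comp (ContinuousLinearMap.single ℂ (fun _ : κ => H) k)), b k⟫_ℂ = f b := by
    intro b
    simp_rw [InnerProductSpace.toDual_symm_apply]
    exact ContinuousLinearMap.sum_comp_single ℂ (fun _ : κ => H) f b
  have hu : u < 0 := by simpa using h2 0 (subset_closure h0)
  have hz : ∀ b ∈ t, (f b).re = 0 := by
    intro b hb
    by_contra hne
    have := h2 _ (subset_closure (hs (u / (f b).re) b hb))
    rw [map_smul, smul_eq_mul, RCLike.re_to_complex, Complex.re_ofReal_mul,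
      div_mul_cancel₀ _ hne] at this
    exact lt_irrefl _ this
  have := h _ fun b hb => by rw [hf]; exact hz b hb
  rw [hf] at this
  rw [RCLike.re_to_complex, this] at h1
  exact lt_asymm h1 hu

theorem star_bic (π : D →⋆ₐ[ℂ] (H →L[ℂ] H)) {x : H →L[ℂ] H}
    (hx : ∀ T, (∀ a, Commute T (π a)) → Commute T x) (F : Finset H) {η : ℝ} (hη : 0 < η) :
    ∃ a : D, ∀ ζ ∈ F, ‖(π a - x) ζ‖ ≤ η ∧ ‖(star (π a) - star x) ζ‖ ≤ η := by
  let Φ : (H →L[ℂ] H) → (F ⊕ F → H) := fun T =>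
    Sum.elim (fun i => T i) (fun i => (star T) i)
  have hre : ∀ (T : H →L[ℂ] H) (ξ : F ⊕ F → H), (∑ k, ⟪ξ k, Φ T k⟫_ℂ).re =
      (∑ k : F ⊕ F, ⟪Sum.elim (fun i => ξ (Sum.inl i)) (fun i : F => (i : H)) k,
        T (Sum.elim (fun i : F => (i : H)) (fun i => ξ (Sum.inr i)) k)⟫_ℂ).re := by
    intro T ξ
    simp only [Fintype.sum_sum_type, Φ, Sum.elim_inl, Sum.elim_inr, Complex.add_re, Complex.re_sum]
    congr 1
    refine Finset.sum_congr rfl fun i _ => ?_
    rw [ContinuousLinearMap.star_eq_adjoint, ContinuousLinearMap.adjoint_inner_right,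
      ← inner_conj_symm, Complex.conj_re]
  have hadd : ∀ S T, Φ (S + T) = Φ S + Φ T := by
    intro S T
    ext (i | i) <;> simp [Φ]
  have hsm : ∀ (c : ℝ) T, Φ ((c : ℂ) • T) = (c : ℂ) • Φ T := by
    intro c T
    ext (i | i) <;> simp [Φ]
  have hv : Φ x ∈ closure (Set.range fun a => Φ (π a)) := by
    refine sep_bic _ ?_ ?_ ?_ _ fun ξ hξ => ?_
    · rintro _ ⟨a, rfl⟩ _ ⟨b, rfl⟩ s t _ _ _
      refine ⟨(s : ℂ) • a + (t : ℂ) • b, ?_⟩
      simp only [map_add, map_smul, hadd, hsm]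
      simp
    · rintro c _ ⟨a, rfl⟩
      exact ⟨(c : ℂ) • a, by simp only [map_smul, hsm]⟩
    · refine ⟨0, ?_⟩
      ext (i | i) <;> simp [Φ]
    · rw [hre, weak_bic π hx, Complex.zero_re]
      intro a
      have h1 := hξ _ ⟨a, rfl⟩
      have h2 := hξ _ ⟨Complex.I • a, rfl⟩
      rw [hre] at h1 h2
      simp only [map_smul, smul_apply, inner_smul_right, ← Finset.mul_sum] at h2
      rw [Complex.I_mul_re, neg_eq_zero] at h2
      exact Complex.ext h1 h2
  obtain ⟨_, ⟨a, rfl⟩, ha⟩ := Metric.mem_closure_iff.1 hv η hη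
  refine ⟨a, fun ζ hζ => ?_⟩
  rw [dist_comm, dist_eq_norm] at ha
  exact ⟨(norm_le_pi_norm (Φ (π a) - Φ x) (Sum.inl ⟨ζ, hζ⟩)).trans ha.le,
    (norm_le_pi_norm (Φ (π a) - Φ x) (Sum.inr ⟨ζ, hζ⟩)).trans ha.le⟩

theorem bic (π : D →⋆ₐ[ℂ] (H →L[ℂ] H)) :
    ∃ N : VonNeumannAlgebra H, (∀ a, π a ∈ N) ∧ SDense π N := by
  have hst : star (Set.range π) ⊆ Set.range π := by
    rintro y ⟨a, ha⟩
    exact ⟨star a, by rw [map_star, ha, star_star]⟩
  have hc : (StarSubalgebra.centralizer ℂ (Set.range π) : Set (H →L[ℂ] H)) =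
      (Set.range π).centralizer := by
    rw [StarSubalgebra.coe_centralizer, Set.union_eq_left.2 hst]
  let M : VonNeumannAlgebra H := ⟨StarSubalgebra.centralizer ℂ (Set.range π), by
    change Set.centralizer (Set.centralizer
      (StarSubalgebra.centralizer ℂ (Set.range π) : Set (H →L[ℂ] H))) =
      (StarSubalgebra.centralizer ℂ (Set.range π) : Set (H →L[ℂ] H))
    rw [hc, Set.centralizer_centralizer_centralizer]⟩
  have hM : ∀ T, T ∈ M ↔ ∀ a, π a * T = T * π a := by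
    intro T
    change T ∈ (StarSubalgebra.centralizer ℂ (Set.range π) : Set (H →L[ℂ] H)) ↔ _
    rw [hc, Set.mem_centralizer_iff, Set.forall_mem_range]
  refine ⟨M.commutant, fun a => VonNeumannAlgebra.mem_commutant_iff.2 fun g hg =>
    ((hM g).1 hg a).symm, fun x hx F η hη => star_bic π (fun T hT => ?_) F hη⟩
  exact VonNeumannAlgebra.mem_commutant_iff.1 hx T ((hM T).2 fun a => (hT a).symm.eq)

end Ulam
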