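import Pool.Agent.P.MP_3be8c7_an.TM

open scoped ComplexOrder InnerProductSpace
open Filter Topology

noncomputable section

namespace Ulam

universe u v w

variable {I Λ : Type*} [Fintype I] [DecidableEq I] {τ : I → Λ}

instance blkAlg.continuousMul : ContinuousMul (blkAlg τ) :=
  inferInstanceAs (ContinuousMul (blkAlg τ).toSubalgebra.toSubsemiring)

instance blkAlg.continuousStar : ContinuousStar (blkAlg τ) where
  continuous_star := (continuous_star.comp continuous_subtype_val).subtype_mk _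

theorem emb_bub : Topology.IsEmbedding (BU.mat : BU τ → Matrix I I ℂ) :=
  Topology.IsEmbedding.subtypeVal.comp Topology.IsEmbedding.subtypeVal

theorem closed_bub : IsClosed {x : Matrix I I ℂ | Blk τ x} := by
  have e : {x : Matrix I I ℂ | Blk τ x} = ⋂ j, ⋂ k, ⋂ (_ : τ j ≠ τ k), {x | x j k = 0} := by
    ext x
    simp [Blk]
  rw [e]
  exact isClosed_iInter fun j => isClosed_iInter fun k => isClosed_iInter fun _ =>
    isClosed_eq (continuous_id.matrix_elem j k) continuous_const

theorem sms_bub (w : BU τ) : star w.mat * w.mat = 1 :=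
  congrArg Subtype.val (Unitary.coe_star_mul_self w)

theorem mk_bub {x : Matrix I I ℂ} (hx : Blk τ x) (h : star x * x = 1) :
    ∃ w : BU τ, w.mat = x :=
  ⟨⟨⟨x, hx⟩, Subtype.ext h, Subtype.ext (mul_eq_one_comm.1 h)⟩, rfl⟩

instance BU.secondCountable : SecondCountableTopology (BU τ) := by
  have : SecondCountableTopology (Matrix I I ℂ) :=
    inferInstanceAs (SecondCountableTopology (I → I → ℂ))
  exact emb_bub.secondCountableTopology

instance BU.compactSpace : CompactSpace (BU τ) := by
  have hK : IsCompact (Set.univ.pi fun _ : I => Set.univ.pi fun _ : I =>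
      Metric.closedBall (0 : ℂ) 1) :=
    isCompact_univ_pi fun _ => isCompact_univ_pi fun _ => isCompact_closedBall _ _
  have hr : Set.range (BU.mat : BU τ → Matrix I I ℂ) =
      {x | Blk τ x} ∩ {x | star x * x = 1} := by
    ext x
    constructor
    · rintro ⟨w, rfl⟩
      exact ⟨(w : blkAlg τ).2, sms_bub w⟩
    · exact fun h => mk_bub h.1 h.2
  have hc : IsClosed (Set.range (BU.mat : BU τ → Matrix I I ℂ)) := by
    rw [hr]
    exact closed_bub.inter (isClosed_eq (continuous_star.mul continuous_id) continuous_const)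
  have hK' : IsCompact (Set.range (BU.mat : BU τ → Matrix I I ℂ)) := by
    refine IsCompact.of_isClosed_subset (X := Matrix I I ℂ) hK hc ?_
    rintro _ ⟨w, rfl⟩ j - k -
    exact mem_closedBall_zero_iff.2 ((contr_of_unitary (sms_bub w)).norm_apply_le j k)
  refine ⟨emb_bub.isCompact_iff.2 ?_⟩
  rwa [Set.image_univ]

example : IsTopologicalGroup (BU τ) := inferInstance

theorem BU.continuous_mat : Continuous (BU.mat : BU τ → Matrix I I ℂ) := by
  exact emb_bub.continuous

@[simp] theorem BU.mat_one : (1 : BU τ).mat = 1 := rfl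

@[simp] theorem BU.mat_mul (w w' : BU τ) : (w * w').mat = w.mat * w'.mat := rfl

@[simp] theorem BU.mat_star (w : BU τ) : (star w).mat = star w.mat := rfl

theorem BU.star_eq_inv (w : BU τ) : star w = w⁻¹ := rfl

theorem BU.blk (w : BU τ) : Blk τ w.mat := (w : blkAlg τ).2

theorem BU.star_mul_self (w : BU τ) : star w.mat * w.mat = 1 := by
  exact sms_bub w

theorem BU.mul_star_self (w : BU τ) : w.mat * star w.mat = 1 := by
  exact mul_eq_one_comm.1 (sms_bub w)

theorem BU.contr (w : BU τ) : Contr w.mat := by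
  exact contr_of_unitary (sms_bub w)

theorem BU.exists_mk {x : Matrix I I ℂ} (hx : Blk τ x) (h : star x * x = 1) :
    ∃ w : BU τ, w.mat = x := by
  exact mk_bub hx h

open scoped Matrix.Norms.L2Operator in
theorem four_bub {x : Matrix I I ℂ} (hx : Blk τ x) (h : Contr x) :
    ∃ (w : Fin 4 → BU τ) (c : Fin 4 → ℂ), x = ∑ i, c i • (w i).mat ∧ ∀ i, ‖c i‖ ≤ 1 / 2 := by
  have hcl : IsClosed (blkAlg τ : Set (Matrix I I ℂ)) := closed_bub
  obtain ⟨u, c, h1, h2⟩ := CStarAlgebra.exists_sum_four_unitary (A := blkAlg τ) ⟨x, hx⟩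
  refine ⟨u, c, ?_, fun i => (h2 i).trans ?_⟩
  · have h3 := congrArg Subtype.val h1
    rw [AddSubmonoidClass.coe_finsetSum] at h3
    exact h3
  · have h3 : ‖x‖ ≤ 1 := contr_iff_tm.1 h
    exact div_le_div_of_nonneg_right h3 zero_le_two

/-- A block contraction is a combination of four block unitaries. -/
theorem exists_four {x : Matrix I I ℂ} (hx : Blk τ x) (h : Contr x) :
    ∃ (w : Fin 4 → BU τ) (c : Fin 4 → ℂ), x = ∑ i, c i • (w i).mat ∧ ∀ i, ‖c i‖ ≤ 1 / 2 := by
  exact four_bub hx h

/-- Linear relations with four terms among unitaries are preserved up to `δ`. -/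
def Rel4 {F R : Type*} [Ring F] [StarRing F] [Algebra ℂ F] [SeminormedAddCommGroup R] [Module ℂ R]
    (σ : unitary F → R) (δ : ℝ) : Prop :=
  ∀ (c : Fin 4 → ℂ) (w : Fin 4 → unitary F), ∑ i, ‖c i‖ ≤ 2 → ∑ i, c i • (w i : F) = 0 →
    ‖∑ i, c i • σ (w i)‖ ≤ δ

theorem BU.sum_eq_zero_iff (c : Fin 4 → ℂ) (w : Fin 4 → BU τ) :
    ∑ i, c i • (w i : blkAlg τ) = 0 ↔ ∑ i, c i • (w i).mat = 0 := by
  rw [Subtype.ext_iff, AddSubmonoidClass.coe_finsetSum]
  exact Iff.rfl

end Ulam
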