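import Pool.Agent.P.MP_3be8c7_an.TM

open scoped ComplexOrder InnerProductSpace
open Filter Topology

noncomputable section

namespace Ulam

universe u v w

section
variable {D : Type*} [AddCommMonoid D] [Module ℂ D]

/-- Amplification followed by compression. -/
def ampl {I I' J : Type*} [DecidableEq J] (θ : D →ₗ[ℂ] Matrix I I ℂ) (ι : I' → I) (m : I' → J) :
    D →ₗ[ℂ] Matrix I' I' ℂ where
  toFun a := Matrix.of fun p q => if m p = m q then θ a (ι p) (ι q) else 0
  map_add' a b := by ext p q; by_cases h : m p = m q <;> simp [h]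
  map_smul' c a := by ext p q; by_cases h : m p = m q <;> simp [h]

@[simp] theorem ampl_apply {I I' J : Type*} [DecidableEq J] (θ : D →ₗ[ℂ] Matrix I I ℂ) (ι : I' → I)
    (m : I' → J) (a : D) (p q : I') :
    ampl θ ι m a p q = if m p = m q then θ a (ι p) (ι q) else 0 := rfl

/-- Block diagonal sum. -/
def bsum {T : Type*} [DecidableEq T] {I : T → Type*} (θ : ∀ t, D →ₗ[ℂ] Matrix (I t) (I t) ℂ) :
    D →ₗ[ℂ] Matrix (Σ t, I t) (Σ t, I t) ℂ where
  toFun a := Matrix.blockDiagonal' fun t => θ t a
  map_add' a b := by rw [← Matrix.blockDiagonal'_add]; congr 1; ext t; simp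
  map_smul' c a := by rw [RingHom.id_apply, ← Matrix.blockDiagonal'_smul]; congr 1; ext t; simp

theorem bsum_apply {T : Type*} [DecidableEq T] {I : T → Type*}
    (θ : ∀ t, D →ₗ[ℂ] Matrix (I t) (I t) ℂ) (a : D) :
    bsum θ a = Matrix.blockDiagonal' fun t => θ t a := rfl

/-- Conjugation by a matrix. -/
def cnj {I : Type*} [Fintype I] (θ : D →ₗ[ℂ] Matrix I I ℂ) (W : Matrix I I ℂ) :
    D →ₗ[ℂ] Matrix I I ℂ where
  toFun a := star W * θ a * W
  map_add' a b := by simp [mul_add, add_mul]
  map_smul' c a := by simp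

@[simp] theorem cnj_apply {I : Type*} [Fintype I] (θ : D →ₗ[ℂ] Matrix I I ℂ) (W : Matrix I I ℂ)
    (a : D) : cnj θ W a = star W * θ a * W := rfl

end

section
variable {D I : Type*} [Mul D] [Star D]

theorem KPosM.sub {θ : D → Matrix I I ℂ} (h : KPosM θ) {ι : Type*} (a : ι → D) :
    (Matrix.of fun p q : ι × I => θ (star (a p.1) * a q.1) p.2 q.2).PosSemidef := by
  exact Matrix.PosSemidef.submatrix h fun p : ι × I => (a p.1, p.2)

theorem kposM_of_fin {θ : D → Matrix I I ℂ}
    (h : ∀ (m : ℕ) (a : Fin m → D),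
      (Matrix.of fun p q : Fin m × I => θ (star (a p.1) * a q.1) p.2 q.2).PosSemidef) :
    KPosM θ := by
  classical
  refine ⟨?_, fun x => ?_⟩
  · ext p q
    have := (h 2 ![p.1, q.1]).1.apply (0, p.2) (1, q.2)
    simpa using this
  · set s := x.support.image Prod.fst
    let e := s.equivFin.symm
    let g : Fin s.card × I → D × I := fun p => ((e p.1).1, p.2)
    have hg : Function.Injective g := by
      rintro ⟨i, j⟩ ⟨i', j'⟩ hh
      simp only [g, Prod.mk.injEq] at hh
      exact Prod.ext (e.injective (Subtype.ext hh.1)) hh.2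
    have hx : x = (x.comapDomain g hg.injOn).mapDomain g := by
      refine (Finsupp.mapDomain_comapDomain g hg x ?_).symm
      intro p hp
      exact ⟨(e.symm ⟨p.1, Finset.mem_image_of_mem _ hp⟩, p.2), by simp [g]⟩
    have := (h s.card fun i => (e i).1).2 (x.comapDomain g hg.injOn)
    rw [hx]
    simpa [Finsupp.sum_mapDomain_index, add_mul, mul_add, g] using this

/-- A kernel of Gram type is positive. -/
theorem kposM_of_gram {E : Type*} [NormedAddCommGroup E] [InnerProductSpace ℂ E]
    {θ : D → Matrix I I ℂ} (g : D → I → E)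
    (h : ∀ a b j k, θ (star a * b) j k = ⟪g a j, g b k⟫_ℂ) : KPosM θ := by
  refine ⟨?_, fun x => ?_⟩
  · ext p q
    simp [h]
  · have : (x.sum fun p xp => x.sum fun q xq => star xp *
        (Matrix.of fun p q : D × I => θ (star p.1 * q.1) p.2 q.2) p q * xq) =
        ⟪x.sum fun p xp => xp • g p.1 p.2, x.sum fun p xp => xp • g p.1 p.2⟫_ℂ := by
      simp only [Finsupp.sum, sum_inner, inner_sum, inner_smul_left, inner_smul_right,
        Matrix.of_apply, h, Finset.mul_sum]
      rw [Finset.sum_comm]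
      refine Finset.sum_congr rfl fun p _ => Finset.sum_congr rfl fun q _ => ?_
      simp only [RCLike.star_def]; ring
    rw [this, inner_self_eq_norm_sq_to_K]
    positivity

theorem KPosM.psd {θ : D → Matrix I I ℂ} (h : KPosM θ) (a : D) :
    (θ (star a * a)).PosSemidef := by
  exact Matrix.PosSemidef.submatrix h fun j : I => (a, j)

end

section
variable {D : Type*} [NonUnitalCStarAlgebra D]

theorem psd_ampl_kp {X Y J : Type*} [DecidableEq J] {M : Matrix X X ℂ} (h : M.PosSemidef)
    (ι : Y → X) (m : Y → J) :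
    (Matrix.of fun p q : Y => if m p = m q then M (ι p) (ι q) else 0).PosSemidef := by
  have := (h.submatrix ι).hadamard ((Matrix.PosSemidef.one (n := J) (R := ℂ)).submatrix m)
  have e : (Matrix.of fun p q : Y => if m p = m q then M (ι p) (ι q) else 0) =
      (M.submatrix ι ι).hadamard ((1 : Matrix J J ℂ).submatrix m m) := by
    ext p q
    by_cases hh : m p = m q <;> simp [hh, Matrix.one_apply]
  rw [e]
  exact this

theorem psd_blockDiagonal_kp {T : Type*} [DecidableEq T] {X : T → Type*}
    {M : ∀ t, Matrix (X t) (X t) ℂ} (h : ∀ t, (M t).PosSemidef) :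
    (Matrix.blockDiagonal' M).PosSemidef := by
  refine ⟨?_, fun x => ?_⟩
  · rw [Matrix.IsHermitian, Matrix.blockDiagonal'_conjTranspose]
    congr 1
    funext t
    exact (h t).1
  · simp only [Finsupp.sigma_sum]
    refine Finset.sum_nonneg fun t ht => ?_
    have : ((x.split t).sum fun i xi => ∑ t' ∈ x.splitSupport, (x.split t').sum fun j xj =>
        star xi * Matrix.blockDiagonal' M ⟨t, i⟩ ⟨t', j⟩ * xj) =
        (x.split t).sum fun i xi => (x.split t).sum fun j xj => star xi * M t i j * xj := by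
      refine Finsupp.sum_congr fun i _ => ?_
      rw [Finset.sum_eq_single t]
      · simp
      · intro t' _ hne
        simp [Matrix.blockDiagonal'_apply_ne _ _ _ (Ne.symm hne)]
      · intro hn
        exact absurd ht hn
    rw [this]
    exact (h t).2 _

theorem KPosM.ampl {I I' J : Type*} [DecidableEq J] {θ : D →ₗ[ℂ] Matrix I I ℂ} (h : KPosM θ)
    (ι : I' → I) (m : I' → J) : KPosM (ampl θ ι m) := by
  have := psd_ampl_kp (M := Matrix.of fun p q : D × I => θ (star p.1 * q.1) p.2 q.2) h
    (fun p : D × I' => (p.1, ι p.2)) (fun p => m p.2)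
  exact this

theorem KPosM.bsum {T : Type*} [DecidableEq T] {I : T → Type*}
    {θ : ∀ t, D →ₗ[ℂ] Matrix (I t) (I t) ℂ} (h : ∀ t, KPosM (θ t)) : KPosM (bsum θ) := by
  have := (psd_blockDiagonal_kp (X := fun t => D × I t)
    (M := fun t => Matrix.of fun p q : D × I t => θ t (star p.1 * q.1) p.2 q.2) h).submatrix
    fun p : D × (Σ t, I t) => ⟨p.2.1, (p.1, p.2.2)⟩
  unfold KPosM
  convert this using 1
  ext ⟨a, t, i⟩ ⟨b, t', j⟩
  by_cases hh : t = t'
  · subst hh
    simp [bsum_apply]
  · simp [bsum_apply, Matrix.blockDiagonal'_apply_ne _ _ _ hh]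

/-- The bound `θ a ≤ 1` passes to a compressed amplification. -/
theorem one_sub_ampl {I I' J : Type*} [Fintype I] [DecidableEq I] [Fintype I'] [DecidableEq I']
    [DecidableEq J] (θ : D →ₗ[ℂ] Matrix I I ℂ) (ι : I' → I) (m : I' → J)
    (hinj : Function.Injective fun p => (ι p, m p)) (a : D) (h : (1 - θ a).PosSemidef) :
    (1 - ampl θ ι m a).PosSemidef := by
  convert psd_ampl_kp h ι m using 1
  ext p q
  by_cases hm : m p = m q
  · by_cases hi : ι p = ι q
    · have : p = q := hinj (Prod.ext hi hm)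
      subst this
      simp
    · have : p ≠ q := fun e => hi (e ▸ rfl)
      simp [hm, Matrix.one_apply, hi, this]
  · have : p ≠ q := fun e => hm (e ▸ rfl)
    simp [hm, Matrix.one_apply, this]

end

section
variable {D : Type u} [CStarAlgebra D] [PartialOrder D] [StarOrderedRing D]

variable {I : Type*} [Fintype I] [DecidableEq I] {θ : D →ₗ[ℂ] Matrix I I ℂ}

theorem IsCCP.map_star (h : IsCCP θ) (a : D) : θ (star a) = star (θ a) := by
  ext j k
  have := h.pos.1.apply (a, j) (1, k)
  simpa using this.symm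

theorem IsCCP.psd (h : IsCCP θ) {a : D} (ha : 0 ≤ a) : (θ a).PosSemidef := by
  obtain ⟨c, rfl⟩ := CStarAlgebra.nonneg_iff_eq_star_mul_self.1 ha
  exact h.pos.psd c

/-- Kadison-Schwarz inequality. -/
theorem IsCCP.ks (h : IsCCP θ) (a : D) : (θ (star a * a) - star (θ a) * θ a).PosSemidef := by
  have h1 : (Matrix.fromBlocks (θ 1) (θ a) (θ (star a)) (θ (star a * a))).PosSemidef := by
    convert Matrix.PosSemidef.submatrix h.pos
      (Sum.elim (fun i : I => ((1 : D), i)) fun i : I => (a, i)) using 1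
    ext (p | p) (q | q) <;> simp
  have h2 := h1.conjTranspose_mul_mul_same (Matrix.fromRows (-θ a) 1)
  have h3 := h.one.conjTranspose_mul_mul_same (θ a)
  convert h2.add h3 using 1
  rw [Matrix.conjTranspose_fromRows_eq_fromCols_conjTranspose, Matrix.fromCols_mul_fromBlocks,
    Matrix.fromCols_mul_fromRows, h.map_star]
  simp only [Matrix.star_eq_conjTranspose, Matrix.conjTranspose_neg, Matrix.conjTranspose_one]
  noncomm_ring

theorem IsCCP.le_smul (h : IsCCP θ) {a : D} (ha : IsSelfAdjoint a) {t : ℝ} (ht : ‖a‖ ≤ t) :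
    (t • (1 : Matrix I I ℂ) - θ a).PosSemidef := by
  have h0 : 0 ≤ t := (norm_nonneg _).trans ht
  have h1 : a ≤ t • (1 : D) := by
    refine ha.le_algebraMap_norm_self.trans ?_
    rw [Algebra.algebraMap_eq_smul_one]
    exact smul_le_smul_of_nonneg_right ht zero_le_one
  have h2 := h.psd (sub_nonneg.2 h1)
  have h3 := h.one.smul h0
  convert h2.add h3 using 1
  rw [map_sub, LinearMap.map_smul_of_tower, smul_sub]
  abel

theorem IsCCP.contr (h : IsCCP θ) {a : D} (ha : ‖a‖ ≤ 1) : Contr (θ a) := by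
  have h1 := h.le_smul (IsSelfAdjoint.star_mul_self a) (t := 1)
    (by rw [CStarRing.norm_star_mul_self]; exact mul_le_one₀ ha (norm_nonneg _) ha)
  unfold Contr
  convert h1.add (h.ks a) using 1
  simp

theorem IsCCP.ampl {I' J : Type*} [Fintype I'] [DecidableEq I'] [DecidableEq J] (h : IsCCP θ)
    (ι : I' → I) (m : I' → J) (hinj : Function.Injective fun p => (ι p, m p)) :
    IsCCP (ampl θ ι m) := by
  exact ⟨h.pos.ampl ι m, one_sub_ampl θ ι m hinj 1 h.one⟩

theorem IsCCP.cnj (h : IsCCP θ) {W : Matrix I I ℂ} (hW : Contr W) : IsCCP (cnj θ W) := by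
  refine ⟨kposM_of_fin fun m a => ?_, ?_⟩
  · convert (h.pos.sub a).conjTranspose_mul_mul_same
      (Matrix.of fun p q : Fin m × I => if p.1 = q.1 then W p.2 q.2 else 0) using 1
    ext ⟨i, p⟩ ⟨j, q⟩
    simp [Matrix.mul_apply, Fintype.sum_prod_type, apply_ite]
  · have h3 := h.one.conjTranspose_mul_mul_same W
    convert Matrix.PosSemidef.add hW h3 using 1
    simp only [cnj_apply, Matrix.star_eq_conjTranspose]
    noncomm_ring

theorem IsCCP.bsum {T : Type*} [Fintype T] [DecidableEq T] {I : T → Type*} [∀ t, Fintype (I t)]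
    [∀ t, DecidableEq (I t)] {θ : ∀ t, D →ₗ[ℂ] Matrix (I t) (I t) ℂ} (h : ∀ t, IsCCP (θ t)) :
    IsCCP (bsum θ) := by
  refine ⟨KPosM.bsum fun t => (h t).pos, ?_⟩
  convert psd_blockDiagonal_kp (M := fun t => 1 - θ t 1) fun t => (h t).one using 1
  rw [bsum_apply, ← Matrix.blockDiagonal'_one, ← Matrix.blockDiagonal'_sub]
  rfl

end

end Ulam
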