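import Pool.Agent.P.MP_3be8c7_an.VB

open scoped ComplexOrder InnerProductSpace
open Filter Topology

noncomputable section

namespace Ulam

universe u v w

variable {H : Type v} [NormedAddCommGroup H] [InnerProductSpace ℂ H] [CompleteSpace H]

variable {α : Type*} {l : Filter α} {T T' : α → (H →L[ℂ] H)} {S S' : H →L[ℂ] H}

theorem ulim (l : Ultrafilter α) (T : α → (H →L[ℂ] H)) {C : ℝ} (h : ∀ᶠ a in l, ‖T a‖ ≤ C) :
    ∃ S : H →L[ℂ] H, ‖S‖ ≤ C ∧ WL l T S := by
  have hC : 0 ≤ C := by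
    obtain ⟨a, ha⟩ := h.exists
    exact (norm_nonneg _).trans ha
  have hb : ∀ ξ η : H, ∀ᶠ a in l, ‖⟪T a ξ, η⟫_ℂ‖ ≤ C * ‖ξ‖ * ‖η‖ := fun ξ η =>
    h.mono fun a ha => (norm_inner_le_norm _ _).trans
      (mul_le_mul_of_nonneg_right (((T a).le_opNorm ξ).trans
        (mul_le_mul_of_nonneg_right ha (norm_nonneg _))) (norm_nonneg _))
  have h1 : ∀ ξ η : H, ∃ z : ℂ, Tendsto (fun a => ⟪T a ξ, η⟫_ℂ) l (𝓝 z) := fun ξ η => by
    obtain ⟨z, -, hz⟩ := (isCompact_closedBall (0 : ℂ) (C * ‖ξ‖ * ‖η‖)).ultrafilter_le_nhds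
      (l.map fun a => ⟪T a ξ, η⟫_ℂ) (by
        rw [Ultrafilter.coe_map, le_principal_iff, mem_map]
        exact (hb ξ η).mono fun a ha => mem_closedBall_zero_iff.2 ha)
    exact ⟨z, hz⟩
  choose g hg using h1
  have hgb : ∀ ξ η, ‖g ξ η‖ ≤ C * ‖ξ‖ * ‖η‖ := fun ξ η => le_of_tendsto (hg ξ η).norm (hb ξ η)
  have h2 : ∀ ξ : H, ∃ ζ : H, ∀ η, ⟪ζ, η⟫_ℂ = g ξ η := fun ξ => by
    let φ : H →ₗ[ℂ] ℂ :=
      { toFun := g ξ
        map_add' := fun x y => tendsto_nhds_unique (hg ξ (x + y))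
          (by simpa only [inner_add_right] using (hg ξ x).add (hg ξ y))
        map_smul' := fun c x => tendsto_nhds_unique (hg ξ (c • x))
          (by simpa only [inner_smul_right, RingHom.id_apply, smul_eq_mul] using
            (hg ξ x).const_mul c) }
    exact ⟨(InnerProductSpace.toDual ℂ H).symm (φ.mkContinuous (C * ‖ξ‖) (hgb ξ)),
      fun η => InnerProductSpace.toDual_symm_apply⟩
  choose s hs using h2
  have hg' : ∀ ξ η, Tendsto (fun a => ⟪η, T a ξ⟫_ℂ) l (𝓝 ⟪η, s ξ⟫_ℂ) := fun ξ η => by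
    have h3 := ((Complex.continuous_conj.tendsto _).comp (hg ξ η))
    rw [← hs, inner_conj_symm] at h3
    exact h3.congr fun a => inner_conj_symm _ _
  have hsb : ∀ ξ, ‖s ξ‖ ≤ C * ‖ξ‖ := fun ξ => by
    have h3 := hgb ξ (s ξ)
    rw [← hs, inner_self_eq_norm_sq_to_K, norm_pow, RCLike.norm_ofReal, abs_norm, sq] at h3
    rcases (norm_nonneg (s ξ)).eq_or_lt with h4 | h4
    · rw [← h4]
      positivity
    · exact le_of_mul_le_mul_right h3 h4
  let S : H →ₗ[ℂ] H :=
    { toFun := s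
      map_add' := fun x y => ext_inner_left ℂ fun η => tendsto_nhds_unique (hg' (x + y) η)
        (by simpa only [map_add, inner_add_right] using (hg' x η).add (hg' y η))
      map_smul' := fun c x => ext_inner_left ℂ fun η => tendsto_nhds_unique (hg' (c • x) η)
        (by simpa only [map_smul, inner_smul_right, RingHom.id_apply] using
          (hg' x η).const_mul c) }
  exact ⟨S.mkContinuous C hsb, S.mkContinuous_norm_le hC hsb, hg'⟩

theorem WL.unique [l.NeBot] (h : WL l T S) (h' : WL l T S') : S = S' := by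
  ext ξ
  exact ext_inner_left ℂ fun η => tendsto_nhds_unique (h ξ η) (h' ξ η)

theorem WL.const (S : H →L[ℂ] H) : WL l (fun _ => S) S := by
  exact fun _ _ => tendsto_const_nhds

theorem WL.congr' (h : WL l T S) (he : ∀ᶠ a in l, T a = T' a) : WL l T' S := by
  exact fun ξ η => (h ξ η).congr' (he.mono fun a ha => by simp only [ha])

theorem WL.mono {l' : Filter α} (h : WL l T S) (hl : l' ≤ l) : WL l' T S := by
  exact fun ξ η => (h ξ η).mono_left hl

theorem WL.add (h : WL l T S) (h' : WL l T' S') : WL l (fun a => T a + T' a) (S + S') := by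
  intro ξ η
  simpa only [add_apply, inner_add_right] using (h ξ η).add (h' ξ η)

theorem WL.sub (h : WL l T S) (h' : WL l T' S') : WL l (fun a => T a - T' a) (S - S') := by
  intro ξ η
  simpa only [sub_apply, inner_sub_right] using (h ξ η).sub (h' ξ η)

theorem WL.smul (h : WL l T S) (c : ℂ) : WL l (fun a => c • T a) (c • S) := by
  intro ξ η
  simpa only [smul_apply, inner_smul_right] using (h ξ η).const_mul c

theorem WL.mul_left (h : WL l T S) (X : H →L[ℂ] H) : WL l (fun a => X * T a) (X * S) := by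
  intro ξ η
  simpa only [mul_apply_eq_comp, ContinuousLinearMap.adjoint_inner_left] using
    h ξ (ContinuousLinearMap.adjoint X η)

theorem WL.mul_right (h : WL l T S) (X : H →L[ℂ] H) : WL l (fun a => T a * X) (S * X) := by
  exact fun ξ η => h (X ξ) η

theorem WL.star (h : WL l T S) : WL l (fun a => star (T a)) (star S) := by
  intro ξ η
  have h3 := (Complex.continuous_conj.tendsto _).comp (h η ξ)
  rw [inner_conj_symm] at h3
  simp only [ContinuousLinearMap.star_eq_adjoint, ContinuousLinearMap.adjoint_inner_right]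
  exact h3.congr fun a => inner_conj_symm _ _

theorem WL.of_sot (h : ∀ ξ, Tendsto (fun a => T a ξ) l (𝓝 (S ξ))) : WL l T S := by
  exact fun ξ η => tendsto_const_nhds.inner (h ξ)

theorem WL.apply_eq [l.NeBot] (h : WL l T S) {ξ ζ : H} (hζ : Tendsto (fun a => T a ξ) l (𝓝 ζ)) :
    S ξ = ζ := by
  exact ext_inner_left ℂ fun η => tendsto_nhds_unique (h ξ η) (tendsto_const_nhds.inner hζ)

theorem WL.norm_sub_le [l.NeBot] (h : WL l T S) (X : H →L[ℂ] H) {c : ℝ}
    (hc : ∀ᶠ a in l, ‖T a - X‖ ≤ c) : ‖S - X‖ ≤ c := by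
  have hC : 0 ≤ c := by
    obtain ⟨a, ha⟩ := hc.exists
    exact (norm_nonneg _).trans ha
  refine ContinuousLinearMap.opNorm_le_bound _ hC fun ξ => ?_
  have h3 : ‖⟪(S - X) ξ, (S - X) ξ⟫_ℂ‖ ≤ ‖(S - X) ξ‖ * (c * ‖ξ‖) :=
    le_of_tendsto (h.sub (WL.const X) ξ ((S - X) ξ)).norm (hc.mono fun a ha =>
      (norm_inner_le_norm _ _).trans (mul_le_mul_of_nonneg_left (((T a - X).le_opNorm ξ).trans
        (mul_le_mul_of_nonneg_right ha (norm_nonneg _))) (norm_nonneg _)))
  rw [inner_self_eq_norm_sq_to_K, norm_pow, RCLike.norm_ofReal, abs_norm, sq] at h3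
  rcases (norm_nonneg ((S - X) ξ)).eq_or_lt with h4 | h4
  · rw [← h4]
    positivity
  · exact le_of_mul_le_mul_left h3 h4

theorem WL.commute [l.NeBot] (h : WL l T S) {X : H →L[ℂ] H} (hX : ∀ᶠ a in l, Commute X (T a)) :
    Commute X S := by
  exact ((h.mul_left X).congr' (hX.mono fun a ha => ha.eq)).unique (h.mul_right X)

theorem WL.mem [l.NeBot] (h : WL l T S) (N : VonNeumannAlgebra H) (hN : ∀ᶠ a in l, T a ∈ N) :
    S ∈ N := by
  exact vn_mem_of_commute N fun X hX => h.commute (hN.mono fun a ha => vn_commute N ha hX)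

theorem le_ulim {a b : H →L[ℂ] H} (ha : IsStarProjection (star a * a))
    (hb : IsStarProjection (star b * b)) (h : b * (star a * a) = a) :
    star b * b * (star a * a) = star a * a := by
  have h1 : star a * a * (star b * b) * (star a * a) = star a * a := by
    have h2 := congrArg star h
    rw [star_mul, ha.isSelfAdjoint.star_eq] at h2
    rw [← mul_assoc (star a * a) (star b), h2, mul_assoc (star a), h]
  have h3 : (1 - star b * b) * (star a * a) = 0 := by
    rw [← CStarRing.star_mul_self_eq_zero_iff, star_mul, ha.isSelfAdjoint.star_eq,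
      hb.one_sub.isSelfAdjoint.star_eq, mul_assoc (star a * a), ← mul_assoc (1 - star b * b),
      hb.one_sub.isIdempotentElem.eq, sub_mul, one_mul, mul_sub, ha.isIdempotentElem.eq,
      ← mul_assoc (star a * a), h1, sub_self]
  rw [sub_mul, one_mul, sub_eq_zero] at h3
  exact h3.symm

theorem trans_ulim {a b c : H →L[ℂ] H} (ha : IsStarProjection (star a * a))
    (hb : IsStarProjection (star b * b)) (h : b * (star a * a) = a)
    (h' : c * (star b * b) = b) : c * (star a * a) = a := by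
  rw [← le_ulim ha hb h, ← mul_assoc c, h', h]

theorem chain_ulim (C : Set (H →L[ℂ] H)) (hne : C.Nonempty)
    (hp : ∀ w ∈ C, IsStarProjection (star w * w))
    (hd : ∀ a ∈ C, ∀ b ∈ C, ∃ c ∈ C, c * (star a * a) = a ∧ c * (star b * b) = b) :
    ∃ (l : Filter (H →L[ℂ] H)) (_ : l.NeBot) (W : H →L[ℂ] H), (∀ᶠ w in l, w ∈ C) ∧
      (∀ ξ, Tendsto (fun w : H →L[ℂ] H => w ξ) l (𝓝 (W ξ))) ∧ IsStarProjection (star W * W) ∧
      ∀ a ∈ C, W * (star a * a) = a := by
  have := hne.to_subtype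
  have hf : (⨅ a : C, 𝓟 {w | w ∈ C ∧ w * (star a.1 * a.1) = a.1}).NeBot := by
    refine iInf_neBot_of_directed' (fun a b => ?_) fun a =>
      principal_neBot_iff.2 ⟨a, a.2, pi_mul (hp _ a.2)⟩
    obtain ⟨c, hc, h1, h2⟩ := hd a a.2 b b.2
    exact ⟨⟨c, hc⟩,
      principal_mono.2 fun w hw => ⟨hw.1, trans_ulim (hp _ a.2) (hp _ hc) h1 hw.2⟩,
      principal_mono.2 fun w hw => ⟨hw.1, trans_ulim (hp _ b.2) (hp _ hc) h2 hw.2⟩⟩
  obtain ⟨l, hl⟩ := Ultrafilter.exists_le
    (⨅ a : C, 𝓟 {w | w ∈ C ∧ w * (star a.1 * a.1) = a.1})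
  have hl' : ∀ a ∈ C, ∀ᶠ w in (l : Filter (H →L[ℂ] H)), w ∈ C ∧ w * (star a * a) = a :=
    fun a ha => le_principal_iff.1 (hl.trans (iInf_le _ (⟨a, ha⟩ : C)))
  have hC : ∀ᶠ w in (l : Filter (H →L[ℂ] H)), w ∈ C :=
    (hl' _ hne.some_mem).mono fun w hw => hw.1
  obtain ⟨W, -, hW⟩ := ulim l (fun w => w) (hC.mono fun w hw => pi_norm_le (hp w hw))
  obtain ⟨P, -, hP⟩ := ulim l (fun w => star w * w) (hC.mono fun w hw => (hp w hw).norm_le)
  have w1 : ∀ a ∈ C, W * (star a * a) = a := fun a ha =>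
    ((hW.mul_right _).congr' ((hl' a ha).mono fun w hw => hw.2)).unique (WL.const a)
  have p1 : ∀ a ∈ C, P * (star a * a) = star a * a := fun a ha =>
    ((hP.mul_right _).congr' ((hl' a ha).mono fun w hw =>
      le_ulim (hp a ha) (hp w hw.1) hw.2)).unique (WL.const _)
  have p2 : star P = P :=
    (hP.star.congr' (hC.mono fun w hw => (hp w hw).isSelfAdjoint.star_eq)).unique hP
  have p3 : ∀ a ∈ C, star a * a * P = star a * a := fun a ha => by
    have h1 := congrArg star (p1 a ha)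
    rwa [star_mul, p2, (hp a ha).isSelfAdjoint.star_eq] at h1
  have p4 : P * P = P := ((hP.mul_left P).congr' (hC.mono p1)).unique hP
  have w2 : W * P = W := ((hW.mul_right P).congr' (hC.mono fun w hw => by
    show w * P = w
    rw [← pi_mul (hp w hw), mul_assoc w, p3 w hw])).unique hW
  have p5 : ∀ ξ, Tendsto (fun w : H →L[ℂ] H => (star w * w) ξ) l (𝓝 (P ξ)) := fun ξ => by
    have h1 := ((WL.const P).sub hP ξ ξ).norm.sqrt
    rw [sub_self, zero_apply, inner_zero_right, norm_zero, Real.sqrt_zero] at h1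
    rw [tendsto_iff_norm_sub_tendsto_zero]
    refine h1.congr' (hC.mono fun w hw => ?_)
    have h2 : star (P - star w * w) * (P - star w * w) = P - star w * w := by
      rw [star_sub, p2, (hp w hw).isSelfAdjoint.star_eq, sub_mul, mul_sub, mul_sub, p4, p1 w hw,
        p3 w hw, (hp w hw).isIdempotentElem.eq, sub_self, sub_zero]
    show √‖⟪ξ, (P - star w * w) ξ⟫_ℂ‖ = ‖(star w * w) ξ - P ξ‖
    rw [← h2, mul_apply_eq_comp, ContinuousLinearMap.star_eq_adjoint (P - star w * w),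
      ContinuousLinearMap.adjoint_inner_right, inner_self_eq_norm_sq_to_K, norm_pow,
      RCLike.norm_ofReal, abs_norm, Real.sqrt_sq (norm_nonneg _), sub_apply, norm_sub_rev]
  have w3 : ∀ ξ, Tendsto (fun w : H →L[ℂ] H => w ξ) l (𝓝 (W ξ)) := fun ξ => by
    have h1 := (W.continuous.tendsto _).comp (p5 ξ)
    rw [← mul_apply_eq_comp, w2] at h1
    exact h1.congr' (hC.mono fun w hw => congrArg (fun X : H →L[ℂ] H => X ξ) (w1 w hw))
  have w4 : star W * W = P := by
    refine WL.unique (fun ξ η => ?_) hP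
    simpa only [mul_apply_eq_comp, ContinuousLinearMap.star_eq_adjoint,
      ContinuousLinearMap.adjoint_inner_right] using (w3 η).inner (𝕜 := ℂ) (w3 ξ)
  exact ⟨l, inferInstance, W, hC, w3, by rw [w4]; exact ⟨p4, p2⟩, w1⟩

/-- Maximal partial isometries for a strongly closed property. -/
theorem zorn_pi (Q : (H →L[ℂ] H) → Prop) (h0 : Q 0)
    (hcl : ∀ (l : Filter (H →L[ℂ] H)) [l.NeBot] (W : H →L[ℂ] H), (∀ᶠ w in l, Q w ∧ ‖w‖ ≤ 1) →
      (∀ ξ, Tendsto (fun w : H →L[ℂ] H => w ξ) l (𝓝 (W ξ))) → Q W) :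
    ∃ w, Q w ∧ IsStarProjection (star w * w) ∧
      ∀ w', Q w' → IsStarProjection (star w' * w') → w' * (star w * w) = w → w' = w := by
  obtain ⟨m, hm⟩ := exists_maximal_of_chains_bounded
    (α := {w : H →L[ℂ] H // Q w ∧ IsStarProjection (star w * w)})
    (r := fun a b => b.1 * (star a.1 * a.1) = a.1) (fun c hc => by
      rcases c.eq_empty_or_nonempty with rfl | hne
      · exact ⟨⟨0, h0, by simp⟩, fun a ha => ha.elim⟩
      obtain ⟨l, hl, W, w1, w2, w3, w4⟩ := chain_ulim (Subtype.val '' c) (hne.image _)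
        (by rintro _ ⟨a, -, rfl⟩; exact a.2.2) (by
          rintro _ ⟨a, ha, rfl⟩ _ ⟨b, hb, rfl⟩
          by_cases e : a = b
          · exact ⟨a, ⟨a, ha, rfl⟩, pi_mul a.2.2, e ▸ pi_mul a.2.2⟩
          rcases hc ha hb e with h | h
          · exact ⟨b, ⟨b, hb, rfl⟩, h, pi_mul b.2.2⟩
          · exact ⟨a, ⟨a, ha, rfl⟩, pi_mul a.2.2, h⟩)
      exact ⟨⟨W, hcl l W (w1.mono (by rintro _ ⟨a, -, rfl⟩; exact ⟨a.2.1, pi_norm_le a.2.2⟩)) w2,
        w3⟩, fun a ha => w4 a ⟨a, ha, rfl⟩⟩)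
    (fun {a b c} h1 h2 => trans_ulim a.2.2 b.2.2 h1 h2)
  refine ⟨m, m.2.1, m.2.2, fun w' q1 q2 q3 => ?_⟩
  have h1 : m.1 * (star w' * w') = w' := hm ⟨w', q1, q2⟩ q3
  have h2 := congrArg star (le_ulim q2 m.2.2 h1)
  have h3 := le_ulim m.2.2 q2 q3
  rw [star_mul, q2.isSelfAdjoint.star_eq, m.2.2.isSelfAdjoint.star_eq, h3] at h2
  rw [← h1, ← h2, pi_mul m.2.2]

end Ulam
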