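import Pool.Agent.P.MP_3be8c7_an.LG
import Pool.Agent.P.MP_3be8c7_an.ULIM
import Pool.Agent.P.MP_3be8c7_an.KP

open scoped ComplexOrder InnerProductSpace
open Filter Topology

noncomputable section

namespace Ulam

universe u v w

variable {D : Type u} [CStarAlgebra D] [PartialOrder D] [StarOrderedRing D]
variable {H : Type v} [NormedAddCommGroup H] [InnerProductSpace ℂ H] [CompleteSpace H]

theorem le_of_sq_comm {a b : ℝ} (h : a ^ 2 ≤ b ^ 2) (hb : 0 ≤ b) : a ≤ b :=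
  (le_abs_self a).trans (abs_le_of_sq_le_sq' h hb |> fun h => abs_le.2 h)

omit [CompleteSpace H] in
theorem cs_comm {I : Type*} [Fintype I] (a b : I → H) {A B : ℝ} (hA : 0 ≤ A) (hB : 0 ≤ B)
    (ha : ∑ i, ‖a i‖ ^ 2 ≤ A ^ 2) (hb : ∑ i, ‖b i‖ ^ 2 ≤ B ^ 2) :
    ‖∑ i, ⟪a i, b i⟫_ℂ‖ ≤ A * B := by
  have h1 : ‖∑ i, ⟪a i, b i⟫_ℂ‖ ≤ ∑ i, ‖a i‖ * ‖b i‖ :=
    (norm_sum_le _ _).trans (Finset.sum_le_sum fun i _ => norm_inner_le_norm _ _)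
  have h2 := Finset.sum_mul_sq_le_sq_mul_sq Finset.univ (fun i => ‖a i‖) (fun i => ‖b i‖)
  have h3 : (∑ i, ‖a i‖ * ‖b i‖) ^ 2 ≤ (A * B) ^ 2 := by
    refine h2.trans ?_
    rw [mul_pow]
    exact mul_le_mul ha hb (Finset.sum_nonneg fun i _ => by positivity) (by positivity)
  exact h1.trans (le_of_sq_comm h3 (by positivity))

theorem inner_star_comm (X : H →L[ℂ] H) (ζ ξ : H) : ⟪ζ, star X ξ⟫_ℂ = ⟪X ζ, ξ⟫_ℂ := by
  rw [ContinuousLinearMap.star_eq_adjoint, ContinuousLinearMap.adjoint_inner_right]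

theorem inner_psi_comm {I : Type*} [Fintype I] (B C : I → (H →L[ℂ] H)) (ζ ξ : H) :
    ⟪ζ, (∑ k, star (B k) * C k) ξ⟫_ℂ = ∑ k, ⟪B k ζ, C k ξ⟫_ℂ := by
  rw [sum_apply, inner_sum]
  refine Finset.sum_congr rfl fun k _ => ?_
  rw [mul_apply_eq_comp, inner_star_comm]

omit [CompleteSpace H] in
theorem sum_apply_comm {I : Type*} [Fintype I] (T : H →L[ℂ] H) (y : I → H) {A : ℝ}
    (hy : ∑ i, ‖y i‖ ^ 2 ≤ A ^ 2) : ∑ i, ‖T (y i)‖ ^ 2 ≤ (‖T‖ * A) ^ 2 := by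
  calc ∑ i, ‖T (y i)‖ ^ 2 ≤ ∑ i, ‖T‖ ^ 2 * ‖y i‖ ^ 2 := by
        refine Finset.sum_le_sum fun i _ => ?_
        rw [← mul_pow]
        exact pow_le_pow_left₀ (norm_nonneg _) (T.le_opNorm _) 2
    _ = ‖T‖ ^ 2 * ∑ i, ‖y i‖ ^ 2 := by rw [Finset.mul_sum]
    _ ≤ ‖T‖ ^ 2 * A ^ 2 := by gcongr
    _ = (‖T‖ * A) ^ 2 := by ring

theorem est_comm {I : Type*} [Fintype I] [DecidableEq I] (B : I → (H →L[ℂ] H))
    (hB : ‖∑ k, star (B k) * B k‖ ≤ 1) (T : H →L[ℂ] H) {x : Matrix I I ℂ} (hx : Contr x)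
    {w : H →L[ℂ] H} (hw : w ∈ unitary (H →L[ℂ] H)) {ε : ℝ} (hε : 0 ≤ ε) (ξ ζ : H)
    (h1 : ‖(w - tmap B x) ξ‖ ≤ ε) (h2 : ‖(star w - tmap B (star x)) ζ‖ ≤ ε) :
    ‖⟪ζ, ((∑ k, star (B k) * T * B k) * w - w * ∑ k, star (B k) * T * B k) ξ⟫_ℂ‖ ≤
      ‖ζ‖ * (‖T‖ * √(2 * ‖ξ‖ * ε)) + √(2 * ‖ζ‖ * ε) * (‖T‖ * ‖ξ‖) := by
  set y : I → H := fun j => ∑ k, x j k • B k ξ with hy
  set z : I → H := fun j => ∑ k, (star x) j k • B k ζ with hz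
  have e1 := zest B hB hx hw ξ
  have e2 := zest B hB hx.star (Unitary.star_mem hw) ζ
  have e1' : ∑ j, ‖y j - B j (w ξ)‖ ^ 2 ≤ √(2 * ‖ξ‖ * ε) ^ 2 := by
    rw [Real.sq_sqrt (by positivity)]
    exact e1.trans (by gcongr)
  have e2' : ∑ j, ‖z j - B j (star w ζ)‖ ^ 2 ≤ √(2 * ‖ζ‖ * ε) ^ 2 := by
    rw [Real.sq_sqrt (by positivity)]
    exact e2.trans (by gcongr)
  have c1 := cs_comm (fun j => B j ζ) (fun j => T (y j - B j (w ξ))) (norm_nonneg ζ)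
    (by positivity) (sum_norm_sq_le_of_col B hB ζ) (sum_apply_comm T _ e1')
  have c2 := cs_comm (fun j => z j - B j (star w ζ)) (fun j => T (B j ξ)) (Real.sqrt_nonneg _)
    (by positivity) e2' (sum_apply_comm T _ (sum_norm_sq_le_of_col B hB ξ))
  have hmid : ∑ j, ⟪B j ζ, T (y j)⟫_ℂ = ∑ j, ⟪z j, T (B j ξ)⟫_ℂ := by
    simp only [hy, hz, map_sum, map_smul, inner_sum, sum_inner, inner_smul_right, inner_smul_left,
      Matrix.star_apply, RCLike.star_def, Complex.conj_conj]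
    rw [Finset.sum_comm]
  have hA : ⟪ζ, ((∑ k, star (B k) * T * B k) * w) ξ⟫_ℂ = ∑ j, ⟪B j ζ, T (B j (w ξ))⟫_ℂ := by
    rw [mul_apply_eq_comp]
    simp only [mul_assoc]
    rw [inner_psi_comm]
    rfl
  have hC : ⟪ζ, (w * ∑ k, star (B k) * T * B k) ξ⟫_ℂ =
      ∑ j, ⟪B j (star w ζ), T (B j ξ)⟫_ℂ := by
    rw [mul_apply_eq_comp, ← star_star w, inner_star_comm, star_star]
    simp only [mul_assoc]
    rw [inner_psi_comm]
    rfl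
  have key : ⟪ζ, ((∑ k, star (B k) * T * B k) * w - w * ∑ k, star (B k) * T * B k) ξ⟫_ℂ =
      -(∑ j, ⟪B j ζ, T (y j - B j (w ξ))⟫_ℂ) + ∑ j, ⟪z j - B j (star w ζ), T (B j ξ)⟫_ℂ := by
    rw [sub_apply, inner_sub_right, hA, hC]
    simp only [map_sub, inner_sub_right, inner_sub_left, Finset.sum_sub_distrib, hmid]
    ring
  rw [key]
  refine (norm_add_le _ _).trans ?_
  rw [norm_neg]
  exact add_le_add c1 c2

theorem q_comm {I : Type*} [Fintype I] [DecidableEq I] (B : I → (H →L[ℂ] H))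
    (hB : ‖∑ k, star (B k) * B k‖ ≤ 1) {x : Matrix I I ℂ} (hx : (1 - x).PosSemidef) {ε : ℝ}
    (hε : 0 ≤ ε) (ζ : H) (h1 : ‖(1 - tmap B x) ζ‖ ≤ ε) :
    ‖(∑ k, star (B k) * B k) ζ - ζ‖ ≤ √(2 * ‖ζ‖ * ε) := by
  set Q : H →L[ℂ] H := ∑ k, star (B k) * B k with hQ
  have hp : 0 ≤ Q - tmap B x := by
    rw [hQ, ← tmap_one, ← tmap_sub]
    exact tmap_nonneg B hx
  have hp' : 0 ≤ (⟪(Q - tmap B x) ζ, ζ⟫_ℂ).re :=
    ((ContinuousLinearMap.nonneg_iff_isPositive _).1 hp).re_inner_nonneg_left ζ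
  have hq : ‖Q ζ‖ ≤ ‖ζ‖ := (Q.le_opNorm ζ).trans (by
    calc ‖Q‖ * ‖ζ‖ ≤ 1 * ‖ζ‖ := by gcongr
      _ = ‖ζ‖ := one_mul _)
  have h2 : (⟪(1 - tmap B x) ζ, ζ⟫_ℂ).re ≤ ε * ‖ζ‖ :=
    (Complex.re_le_norm _).trans ((norm_inner_le_norm _ _).trans (by gcongr))
  have h3 : (⟪ζ, ζ⟫_ℂ).re = ‖ζ‖ ^ 2 := by
    have := inner_self_eq_norm_sq (𝕜 := ℂ) ζ
    simpa using this
  rw [sub_apply, inner_sub_left, Complex.sub_re] at hp' h2
  rw [one_apply_eq_self, h3] at h2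
  refine Real.le_sqrt_of_sq_le ?_
  have h4 := norm_sub_sq (𝕜 := ℂ) (Q ζ) ζ
  have h5 : ‖Q ζ‖ ^ 2 ≤ ‖ζ‖ ^ 2 := pow_le_pow_left₀ (norm_nonneg _) hq 2
  rw [h4]
  simp only [RCLike.re_to_complex]
  nlinarith

theorem step_comm (hD : WNR D) (π : D →⋆ₐ[ℂ] (H →L[ℂ] H)) (T : H →L[ℂ] H) {ν : ℝ} (hν : 0 ≤ ν)
    (h : ∀ a, ‖T * π a - π a * T‖ ≤ ν * ‖a‖) (F : Finset D) (G : Finset H) {ε : ℝ}
    (hε : 0 < ε) :
    ∃ Ψ : H →L[ℂ] H, ‖Ψ‖ ≤ ‖T‖ ∧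
      (∀ u ∈ F, u ∈ unitary D → ∀ ξ ∈ G, ∀ ζ ∈ G, ‖⟪ζ, (Ψ * π u - π u * Ψ) ξ⟫_ℂ‖ ≤
        ‖ζ‖ * (‖T‖ * √(2 * ‖ξ‖ * ε)) + √(2 * ‖ζ‖ * ε) * (‖T‖ * ‖ξ‖)) ∧
      (∀ ζ ∈ G, ∀ ξ, ‖⟪ζ, (Ψ - T) ξ⟫_ℂ‖ ≤ ‖ζ‖ * (13 * ν * ‖ξ‖) + √(2 * ‖ζ‖ * ε) * ‖T ξ‖) ∧
      ∀ X, Commute X T → (∀ a, Commute X (π a)) → Commute X Ψ := by
  classical
  set F₁ : Finset D := F.filter (· ∈ unitary D) with hF₁
  set U : Finset D := insert 1 (F₁ ∪ F₁.image star) with hU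
  have hUu : ∀ u ∈ U, u ∈ unitary D := by
    intro u hu
    rcases Finset.mem_insert.1 hu with rfl | hu
    · exact one_mem _
    rcases Finset.mem_union.1 hu with hu | hu
    · exact (Finset.mem_filter.1 hu).2
    · obtain ⟨v, hv, rfl⟩ := Finset.mem_image.1 hu
      exact Unitary.star_mem (Finset.mem_filter.1 hv).2
  obtain ⟨I, _, _, θ, b, hθ, hcol, hrow, happ⟩ :=
    hD (vfun π (Subtype.val : G → H)) U hUu (ε ^ 2) (by positivity)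
  set B : I → (H →L[ℂ] H) := fun k => π (b k) with hBdef
  have hB : ‖∑ k, star (B k) * B k‖ ≤ 1 := (norm_col_map_le π b).trans hcol
  have hap : ∀ u ∈ U, ∀ ξ ∈ G, ‖(π u - tmap B (θ u)) ξ‖ ≤ ε := by
    intro u hu ξ hξ
    have h1 := happ u hu
    rw [vfun_apply, Complex.re_sum] at h1
    have h2 : ∀ i : G, (⟪(i : H), π (star (u - tmap b (θ u)) * (u - tmap b (θ u))) i⟫_ℂ).re =
        ‖(π u - tmap B (θ u)) i‖ ^ 2 := by
      intro i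
      rw [map_mul, map_star, mul_apply_eq_comp, inner_star_comm, map_sub, map_tmap]
      have := inner_self_eq_norm_sq (𝕜 := ℂ) ((π u - tmap B (θ u)) i)
      simpa using this
    simp only [h2] at h1
    have h3 : ‖(π u - tmap B (θ u)) ξ‖ ^ 2 ≤ ε ^ 2 :=
      (Finset.single_le_sum (f := fun i : G => ‖(π u - tmap B (θ u)) i‖ ^ 2)
        (fun i _ => by positivity) (Finset.mem_univ ⟨ξ, hξ⟩)).trans h1
    exact le_of_sq_comm h3 hε.le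
  refine ⟨∑ k, star (B k) * T * B k, ?_, ?_, ?_, ?_⟩
  · refine (norm_sum_sandwich_le B B T).trans ?_
    have h1 : √‖∑ k, star (B k) * B k‖ ≤ 1 := Real.sqrt_le_one.2 hB
    calc ‖T‖ * √‖∑ k, star (B k) * B k‖ * √‖∑ k, star (B k) * B k‖ ≤ ‖T‖ * 1 * 1 := by gcongr
      _ = ‖T‖ := by ring
  · intro u huF hu ξ hξ ζ hζ
    have hu1 : u ∈ F₁ := Finset.mem_filter.2 ⟨huF, hu⟩
    have hn : ‖u‖ ≤ 1 := by
      rcases subsingleton_or_nontrivial D with hs | hs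
      · rw [Subsingleton.elim u 0, norm_zero]
        exact zero_le_one
      · exact (CStarRing.norm_of_mem_unitary hu).le
    refine est_comm B hB T (hθ.contr hn) (Unitary.map_mem π hu) hε.le ξ ζ
      (hap u (Finset.mem_insert_of_mem (Finset.mem_union_left _ hu1)) ξ hξ) ?_
    rw [← map_star, ← hθ.map_star]
    exact hap (star u) (Finset.mem_insert_of_mem
      (Finset.mem_union_right _ (Finset.mem_image_of_mem _ hu1))) ζ hζ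
  · intro ζ hζ ξ
    have h1 := hap 1 (Finset.mem_insert_self _ _) ζ hζ
    rw [map_one] at h1
    have h2 := q_comm B hB hθ.one hε.le ζ h1
    have h3 := cs_comm (fun j => B j ζ) (fun j => (T * B j - B j * T) ξ) (norm_nonneg ζ)
      (by positivity) (sum_norm_sq_le_of_col B hB ζ) (lg π T hν h b hcol hrow ξ)
    have h4 : ⟪ζ, ((∑ k, star (B k) * T * B k) - T) ξ⟫_ℂ =
        (∑ j, ⟪B j ζ, (T * B j - B j * T) ξ⟫_ℂ) + ⟪(∑ k, star (B k) * B k) ζ - ζ, T ξ⟫_ℂ := by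
      have h5 : ⟪(∑ k, star (B k) * B k) ζ, T ξ⟫_ℂ = ∑ j, ⟪B j ζ, B j (T ξ)⟫_ℂ := by
        rw [← inner_star_comm, ← inner_psi_comm]
        congr 2
        simp [star_sum]
      rw [sub_apply, inner_sub_right, inner_sub_left, h5]
      simp only [mul_assoc]
      rw [inner_psi_comm]
      simp only [sub_apply, mul_apply_eq_comp, inner_sub_right,
        Finset.sum_sub_distrib]
      ring
    rw [h4]
    refine (norm_add_le _ _).trans (add_le_add h3 ((norm_inner_le_norm _ _).trans ?_))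
    gcongr
  · intro X hXT hX
    refine Commute.sum_right _ _ _ fun k _ => ?_
    refine Commute.mul_right (Commute.mul_right ?_ hXT) (hX _)
    rw [hBdef, ← map_star]
    exact hX _

theorem comm (hD : WNR D) (π : D →⋆ₐ[ℂ] (H →L[ℂ] H)) (T : H →L[ℂ] H) {ν : ℝ} (hν : 0 ≤ ν)
    (h : ∀ a, ‖T * π a - π a * T‖ ≤ ν * ‖a‖) :
    ∃ S : H →L[ℂ] H, (∀ a, Commute S (π a)) ∧ ‖S - T‖ ≤ 13 * ν ∧
      ∀ X, Commute X T → (∀ a, Commute X (π a)) → Commute X S := by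
  classical
  have hpos : ∀ n : ℕ, (0 : ℝ) < 1 / ((n : ℝ) + 1) := fun n => Nat.one_div_pos_of_nat
  choose Ψ hΨ1 hΨ2 hΨ3 hΨ4 using fun i : Finset D × Finset H × ℕ =>
    step_comm hD π T hν h i.1 i.2.1 (hpos i.2.2)
  set l : Ultrafilter (Finset D × Finset H × ℕ) := Ultrafilter.of atTop with hl
  have hle : (l : Filter (Finset D × Finset H × ℕ)) ≤ atTop := Ultrafilter.of_le _
  obtain ⟨S, -, hS⟩ := ulim l Ψ (Eventually.of_forall hΨ1)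
  have hev : ∀ (u : D) (ξ ζ : H), ∀ᶠ i : Finset D × Finset H × ℕ in l,
      u ∈ i.1 ∧ ξ ∈ i.2.1 ∧ ζ ∈ i.2.1 := by
    intro u ξ ζ
    refine hle ?_
    filter_upwards [eventually_ge_atTop (({u}, {ξ, ζ}, 0) : Finset D × Finset H × ℕ)] with i hi
    exact ⟨hi.1 (by simp), hi.2.1 (by simp), hi.2.1 (by simp)⟩
  have hsq : ∀ c : ℝ, Tendsto (fun i : Finset D × Finset H × ℕ =>
      √(c * (1 / ((i.2.2 : ℝ) + 1)))) l (𝓝 0) := by
    intro c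
    have h1 : Tendsto (fun i : Finset D × Finset H × ℕ => i.2.2) atTop atTop := by
      refine tendsto_atTop.2 fun n => ?_
      filter_upwards [eventually_ge_atTop ((∅, ∅, n) : Finset D × Finset H × ℕ)] with i hi
      exact hi.2.2
    have h2 := ((tendsto_one_div_add_atTop_nhds_zero_nat (𝕜 := ℝ)).comp h1).mono_left hle
    have h3 := (h2.const_mul c).sqrt
    simpa using h3
  refine ⟨S, ?_, ?_, fun X hXT hX => hS.commute (Eventually.of_forall fun i => hΨ4 i X hXT hX)⟩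
  · have hu : ∀ u ∈ unitary D, Commute S (π u) := by
      intro u hu
      have h1 := (hS.mul_right (π u)).sub (hS.mul_left (π u))
      have h2 : WL l (fun i => Ψ i * π u - π u * Ψ i) 0 := by
        intro ξ ζ
        rw [zero_apply, inner_zero_right]
        refine squeeze_zero_norm' ((hev u ξ ζ).mono fun i hi =>
          hΨ2 i u hi.1 hu ξ hi.2.1 ζ hi.2.2) ?_
        have h3 := (((hsq (2 * ‖ξ‖)).const_mul ‖T‖).const_mul ‖ζ‖).add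
          ((hsq (2 * ‖ζ‖)).mul_const (‖T‖ * ‖ξ‖))
        simpa using h3
      exact sub_eq_zero.1 (h1.unique h2)
    intro a
    obtain ⟨u, c, rfl, -⟩ := CStarAlgebra.exists_sum_four_unitary a
    rw [map_sum]
    refine Commute.sum_right _ _ _ fun i _ => ?_
    rw [map_smul]
    exact (hu _ (u i).2).smul_right _
  · have hin : ∀ ξ ζ : H, ‖⟪ζ, (S - T) ξ⟫_ℂ‖ ≤ ‖ζ‖ * (13 * ν * ‖ξ‖) := by
      intro ξ ζ
      have h1 := ((hS.sub (WL.const T)) ξ ζ).norm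
      have h2 := ((hsq (2 * ‖ζ‖)).mul_const ‖T ξ‖).const_add (‖ζ‖ * (13 * ν * ‖ξ‖))
      rw [zero_mul, add_zero] at h2
      exact le_of_tendsto_of_tendsto h1 h2
        ((hev 0 ξ ζ).mono fun i hi => hΨ3 i ζ hi.2.2 ξ)
    refine ContinuousLinearMap.opNorm_le_bound _ (by positivity) fun ξ => ?_
    have h1 := hin ξ ((S - T) ξ)
    rw [inner_self_eq_norm_sq_to_K] at h1
    have h2 : ‖(S - T) ξ‖ * ‖(S - T) ξ‖ ≤ ‖(S - T) ξ‖ * (13 * ν * ‖ξ‖) := by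
      simpa [sq] using h1
    rcases (norm_nonneg ((S - T) ξ)).eq_or_lt with h0 | h0
    · rw [← h0]
      positivity
    · exact le_of_mul_le_mul_left h2 h0

end Ulam
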