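import Pool.Agent.P.MP_3be8c7_an.VB

open scoped ComplexOrder InnerProductSpace
open Filter Topology

noncomputable section

namespace Ulam

universe u v w

variable {H : Type v} [NormedAddCommGroup H] [InnerProductSpace ℂ H] [CompleteSpace H]

/-- The projection onto the closed span of a set. -/
theorem exists_proj (S : Set H) : ∃ z : H →L[ℂ] H, IsStarProjection z ∧ (∀ s ∈ S, z s = s) ∧
    (∀ T : H →L[ℂ] H, (∀ s ∈ S, T s = 0) → T * z = 0) ∧
    (∀ T : H →L[ℂ] H, (∀ s ∈ S, z (T s) = T s) → (∀ s ∈ S, z (star T s) = star T s) →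
      Commute z T) ∧
    ∀ ζ, z ζ ∈ closure (Submodule.span ℂ S : Set H) := by
  let K := (Submodule.span ℂ S).topologicalClosure
  have hz : IsStarProjection K.starProjection := isStarProjection_starProjection
  have kill : ∀ T : H →L[ℂ] H, (∀ s ∈ S, T s = 0) → T * K.starProjection = 0 := fun T hT => by
    ext ζ
    exact Submodule.topologicalClosure_minimal _ (t := T.ker) (Submodule.span_le.2 hT)
      T.isClosed_ker (K.starProjection_apply_mem ζ)
  refine ⟨K.starProjection, hz, fun s hs => Submodule.starProjection_eq_self_iff.2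
    (Submodule.le_topologicalClosure _ (Submodule.subset_span hs)), kill, fun T h1 h2 => ?_,
    fun ζ => K.starProjection_apply_mem ζ⟩
  have a1 := kill (T - K.starProjection * T) fun s hs => sub_eq_zero.2 (h1 s hs).symm
  have a2 := congrArg star
    (kill (star T - K.starProjection * star T) fun s hs => sub_eq_zero.2 (h2 s hs).symm)
  simp only [star_mul, star_sub, star_star, star_zero, hz.isSelfAdjoint.star_eq] at a2
  rw [sub_mul, sub_eq_zero] at a1
  rw [mul_sub, sub_eq_zero, ← mul_assoc] at a2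
  exact a2.trans a1.symm

/-- Central cover. -/
theorem exists_ccov (N : VonNeumannAlgebra H) {e : H →L[ℂ] H} (he : e ∈ N) :
    ∃ z, CProj N z ∧ z * e = e ∧ ∀ y : H →L[ℂ] H, (∀ x ∈ N, y * x * e = 0) → y * z = 0 := by
  obtain ⟨z, h1, h2, h3, h4, -⟩ := exists_proj {ζ : H | ∃ x ∈ N, ∃ ξ, ζ = (x * e) ξ}
  have a1 : ∀ T ∈ N.commutant, ∀ s ∈ {ζ : H | ∃ x ∈ N, ∃ ξ, ζ = (x * e) ξ}, z (T s) = T s := by
    rintro T hT _ ⟨x, hx, ξ, rfl⟩
    exact h2 _ ⟨x, hx, T ξ, DFunLike.congr_fun (vn_commute N (mul_mem hx he) hT).eq ξ⟩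
  have a2 : ∀ y ∈ N, ∀ s ∈ {ζ : H | ∃ x ∈ N, ∃ ξ, ζ = (x * e) ξ}, z (y s) = y s := by
    rintro y hy _ ⟨x, hx, ξ, rfl⟩
    exact h2 _ ⟨y * x, mul_mem hy hx, ξ, rfl⟩
  refine ⟨z, ⟨h1, vn_mem_of_commute N fun T hT => (h4 T (a1 T hT) (a1 _ (star_mem hT))).symm,
    fun y hy => h4 y (a2 y hy) (a2 _ (star_mem hy))⟩, ?_, fun y hy => h3 y ?_⟩
  · ext ξ
    exact h2 _ ⟨1, one_mem N, ξ, rfl⟩
  · rintro _ ⟨x, hx, ξ, rfl⟩
    exact DFunLike.congr_fun (hy x hx) ξ

/-- Spectral projection. -/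
theorem exists_spec {a : H →L[ℂ] H} (ha : IsSelfAdjoint a) (c : ℝ) :
    ∃ p : H →L[ℂ] H, IsStarProjection p ∧ (∀ T, Commute T a → Commute T p) ∧
      cfc (fun t : ℝ => max (t - c) 0) a * (1 - p) = 0 ∧ cfc (fun t : ℝ => max (c - t) 0) a * p = 0 := by
  obtain ⟨p, h1, h2, h3, h4, -⟩ := exists_proj
    (Set.range (cfc (fun t : ℝ => max (t - c) 0) a : H →L[ℂ] H))
  have a1 : ∀ T, Commute T a → ∀ s ∈ Set.range (cfc (fun t : ℝ => max (t - c) 0) a : H →L[ℂ] H),
      p (T s) = T s := by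
    rintro T hT _ ⟨ξ, rfl⟩
    exact h2 _ ⟨T ξ, DFunLike.congr_fun (hT.symm.cfc_real _).eq ξ⟩
  refine ⟨p, h1, fun T hT => (h4 T (a1 T hT) (a1 _ ?_)).symm, ?_, h3 _ ?_⟩
  · simpa only [ha.star_eq] using hT.star_star
  · have e : p * cfc (fun t : ℝ => max (t - c) 0) a = cfc (fun t : ℝ => max (t - c) 0) a :=
      ContinuousLinearMap.ext fun ξ => h2 _ ⟨ξ, rfl⟩
    have e' := congrArg star e
    rw [star_mul, h1.isSelfAdjoint.star_eq, IsSelfAdjoint.cfc.star_eq] at e'
    rw [mul_sub, mul_one, e', sub_self]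
  · rintro _ ⟨ξ, rfl⟩
    have e : cfc (fun t : ℝ => max (c - t) 0) a * cfc (fun t : ℝ => max (t - c) 0) a = 0 := by
      rw [← cfc_mul .., ← cfc_zero ℝ a]
      refine cfc_congr fun t _ => ?_
      rcases le_total t c with h | h
      · simp [h]
      · simp [h]
    exact DFunLike.congr_fun e ξ

theorem norm_sub_spec {Y : H →L[ℂ] H} (hY : 0 ≤ Y) {t : ℝ} (ht : 0 ≤ t) :
    ‖Y - cfc (fun s : ℝ => max (s - t) 0) Y‖ ≤ t := by
  have hs := hY.isSelfAdjoint
  nth_rewrite 1 [← cfc_id' ℝ Y]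
  rw [← cfc_sub ..]
  refine norm_cfc_le ht fun s h => ?_
  have h0 : 0 ≤ s := spectrum_nonneg_of_nonneg hY h
  rw [Real.norm_eq_abs, abs_le]
  rcases le_total s t with h | h
  · rw [max_eq_right (sub_nonpos.2 h)]
    constructor <;> linarith
  · rw [max_eq_left (sub_nonneg.2 h)]
    constructor <;> linarith

theorem norm_sq_spec {p : H →L[ℂ] H} (hp : IsStarProjection p) (ζ : H) :
    (⟪ζ, p ζ⟫_ℂ).re = ‖p ζ‖ ^ 2 := by
  have e : star p * p = p := by rw [hp.isSelfAdjoint.star_eq, hp.isIdempotentElem.eq]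
  nth_rewrite 1 [← e]
  rw [mul_apply_eq_comp, ContinuousLinearMap.star_eq_adjoint,
    ContinuousLinearMap.adjoint_inner_right]
  exact inner_self_eq_norm_sq (𝕜 := ℂ) _

/-- Spectral cut of a positive operator. -/
theorem exists_cut {Y : H →L[ℂ] H} (hY : 0 ≤ Y) {t : ℝ} (ht : 0 < t) :
    ∃ p : H →L[ℂ] H, IsStarProjection p ∧ (∀ T, Commute T Y → Commute T p) ∧
      ‖(1 - p) * Y * (1 - p)‖ ≤ t ∧ (∀ ζ, t * ‖p ζ‖ ^ 2 ≤ (⟪ζ, Y ζ⟫_ℂ).re) ∧
      ∀ ζ, t * ‖p ζ‖ ≤ ‖Y ζ‖ := by
  have hs := hY.isSelfAdjoint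
  obtain ⟨p, h1, h2, h3, h4⟩ := exists_spec hs t
  have hc := h2 Y (Commute.refl Y)
  have h5 : ∀ ζ, t * ‖p ζ‖ ^ 2 ≤ (⟪ζ, Y ζ⟫_ℂ).re := fun ζ => by
    have e : Y = cfc (fun s : ℝ => max (s - t) 0) Y - cfc (fun s : ℝ => max (t - s) 0) Y +
        algebraMap ℝ _ t := by
      rw [← cfc_sub .., ← cfc_add_const ..]
      nth_rewrite 1 [← cfc_id' ℝ Y]
      refine cfc_congr fun s _ => ?_
      rcases le_total s t with h | h
      · simp [h]
      · simp [h]
    have hb : 0 ≤ cfc (fun s : ℝ => max (s - t) 0) Y := cfc_nonneg fun s _ => le_max_right _ _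
    rw [mul_sub, mul_one, sub_eq_zero] at h3
    have e1 : Y * p = cfc (fun s : ℝ => max (s - t) 0) Y + t • p := by
      nth_rewrite 1 [e]
      rw [add_mul, sub_mul, h4, ← h3, sub_zero, ← Algebra.smul_def]
    have e2 : star (1 - p) * Y * (1 - p) = Y - Y * p := by
      rw [h1.one_sub.isSelfAdjoint.star_eq, ← ((Commute.one_right Y).sub_right hc).eq, mul_assoc,
        h1.one_sub.isIdempotentElem.eq, mul_sub, mul_one]
    have h6 : 0 ≤ Y - t • p := by
      have := add_nonneg hb (star_left_conjugate_nonneg hY (1 - p))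
      rw [e2, e1] at this
      exact this.trans_eq (by abel)
    have h7 := ((ContinuousLinearMap.nonneg_iff_isPositive _).1 h6).re_inner_nonneg_right ζ
    rw [sub_apply, smul_apply, inner_sub_right,
      ← Complex.coe_smul, inner_smul_right, map_sub, RCLike.re_to_complex, RCLike.re_to_complex,
      Complex.re_ofReal_mul, norm_sq_spec h1] at h7
    exact sub_nonneg.1 h7
  refine ⟨p, h1, h2, ?_, h5, fun ζ => ?_⟩
  · have e : (1 - p) * Y * (1 - p) =
        (1 - p) * (Y - cfc (fun s : ℝ => max (s - t) 0) Y) * (1 - p) := by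
      rw [mul_assoc, mul_assoc, sub_mul Y, h3, sub_zero]
    have hq := h1.one_sub.norm_le
    rw [e]
    refine (norm_mul_le _ _).trans ((mul_le_of_le_one_right (norm_nonneg _) hq).trans
      ((norm_mul_le _ _).trans ((mul_le_of_le_one_left (norm_nonneg _) hq).trans ?_)))
    exact norm_sub_spec hY ht.le
  · have a1 := h5 (p ζ)
    have a2 : p (p ζ) = p ζ := DFunLike.congr_fun h1.isIdempotentElem.eq ζ
    have a3 : Y (p ζ) = p (Y ζ) := DFunLike.congr_fun hc.eq ζ
    rw [a2, a3] at a1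
    have a4 := a1.trans ((Complex.re_le_norm _).trans ((norm_inner_le_norm _ _).trans
      (mul_le_mul_of_nonneg_left (proj_norm_apply_le h1 (Y ζ)) (norm_nonneg _))))
    rcases (norm_nonneg (p ζ)).eq_or_lt with h0 | h0
    · rw [← h0, mul_zero]
      exact norm_nonneg _
    · exact le_of_mul_le_mul_left (a4.trans_eq' (by ring)) h0

/-- A non-zero element has a non-zero partial isometry as a multiple. -/
theorem exists_picut (N : VonNeumannAlgebra H) {x e f : H →L[ℂ] H} (hx : x ∈ N) (h0 : x ≠ 0)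
    (he : IsStarProjection e) (hf : f * x = x) (hxe : x * e = x) :
    ∃ w ∈ N, w ≠ 0 ∧ IsStarProjection (star w * w) ∧ f * w = w ∧ w * e = w := by
  have ha : 0 ≤ star x * x := star_mul_self_nonneg x
  have haN : star x * x ∈ N := mul_mem (star_mem hx) hx
  have hn : 0 < ‖star x * x‖ := norm_pos_iff.2 (CStarRing.star_mul_self_ne_zero_iff x |>.2 h0)
  have hae : star x * x * e = star x * x := by rw [mul_assoc, hxe]
  generalize hA : star x * x = a at ha haN hn hae
  have hs := ha.isSelfAdjoint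
  have hc : 0 < ‖a‖ / 2 := half_pos hn
  have hce : Commute e a := by
    have := congrArg star hae
    rw [star_mul, he.isSelfAdjoint.star_eq, hs.star_eq] at this
    exact this.trans hae.symm
  have hlt := half_lt_self hn
  generalize ‖a‖ / 2 = c at hc hlt
  obtain ⟨q, h1, h2, h3, h4⟩ := exists_spec hs c
  have hg : Continuous fun t : ℝ => (√(max t c))⁻¹ :=
    Continuous.inv₀ (by fun_prop) fun t => (Real.sqrt_pos.2 (lt_max_of_lt_right hc)).ne'
  set G := cfc (fun t : ℝ => (√(max t c))⁻¹) a with hG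
  have e1 : G * a * G = 1 - c⁻¹ • cfc (fun t : ℝ => max (c - t) 0) a := by
    rw [← cfc_smul .., ← cfc_const_one ℝ a, ← cfc_sub .., hG]
    nth_rewrite 2 [← cfc_id' ℝ a]
    rw [← cfc_mul _ _ a hg.continuousOn (continuousOn_id' _),
      ← cfc_mul _ _ a (hg.fun_mul continuous_id').continuousOn hg.continuousOn]
    refine cfc_congr fun t _ => ?_
    have h5 : 0 < max t c := lt_max_of_lt_right hc
    simp only [smul_eq_mul]
    rw [mul_right_comm, ← mul_inv, Real.mul_self_sqrt h5.le]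
    rcases le_total t c with h | h
    · rw [max_eq_right h, max_eq_left (sub_nonneg.2 h)]
      field_simp
      ring
    · rw [max_eq_left h, max_eq_right (sub_nonpos.2 h), inv_mul_cancel₀ (hc.trans_le h).ne']
      simp
  have e2 : star (x * G * q) * (x * G * q) = q := by
    have : star (x * G * q) * (x * G * q) = q * (G * a * G * q) := by
      have hG' : star G = G := (cfc_predicate _ a : IsSelfAdjoint G).star_eq
      clear_value G
      simp only [star_mul, h1.isSelfAdjoint.star_eq, hG', ← hA, mul_assoc]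
    rw [this, e1, sub_mul, smul_mul_assoc, h4, smul_zero, sub_zero, one_mul,
      h1.isIdempotentElem.eq]
  refine ⟨x * G * q, mul_mem (mul_mem hx (vn_cfc_mem N _ haN))
    (vn_mem_of_commute N fun T hT => h2 T (vn_commute N haN hT)), fun h => ?_, e2.symm ▸ h1,
    by rw [← mul_assoc, ← mul_assoc, hf], ?_⟩
  · rw [h, mul_zero] at e2
    have := norm_sub_spec ha hc.le
    rw [← e2, sub_zero, mul_one] at h3
    rw [h3, sub_zero] at this
    exact this.not_gt hlt
  · rw [mul_assoc, ← (h2 e hce).eq, ← mul_assoc, mul_assoc x, (hce.symm.cfc_real _).eq,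
      ← mul_assoc, hxe]

end Ulam
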