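import Pool.Agent.P.MP_3be8c7_an.ULIM
import Pool.Agent.P.MP_3be8c7_an.SPEC

open scoped ComplexOrder InnerProductSpace
open Filter Topology

noncomputable section

namespace Ulam

universe u v w

variable {H : Type v} [NormedAddCommGroup H] [InnerProductSpace ℂ H] [CompleteSpace H]

variable (N : VonNeumannAlgebra H)

theorem abel_comp {R : Type*} [Ring R] {e p y : R} (ee : e * e = e) (pp : p * p = p)
    (ep : e * p = p) (pe : p * e = p) (h : Commute (e * y * e) (e * p * e)) :
    (e - p) * y * p = 0 := by
  have h1 : (e - p) * e = e - p := by rw [sub_mul, ee, pe]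
  have h2 : (e - p) * p = 0 := by rw [sub_mul, ep, pp, sub_self]
  have h3 : e * p * e = p := by rw [ep, pe]
  rw [h3] at h
  calc (e - p) * y * p = (e - p) * e * y * (e * p) := by rw [h1, ep]
    _ = (e - p) * (e * y * e * p) := by simp only [mul_assoc]
    _ = 0 := by rw [h.eq, ← mul_assoc, h2, zero_mul]

theorem rel_comp {e f w : H →L[ℂ] H} (he : IsStarProjection e) (hf : IsStarProjection f)
    (hp : IsStarProjection (star w * w)) (hfw : f * w = w) (hwe : w * e = w) :
    star w * w * e = star w * w ∧ e * (star w * w) = star w * w ∧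
      f * (w * star w) = w * star w ∧ w * star w * f = w * star w ∧
      w * star w * w = w ∧ star w * w * star w = star w ∧ star w * f = star w := by
  have a1 : e * star w = star w := by
    have := congrArg star hwe
    rwa [star_mul, he.isSelfAdjoint.star_eq] at this
  have a2 : star w * f = star w := by
    have := congrArg star hfw
    rwa [star_mul, hf.isSelfAdjoint.star_eq] at this
  have a3 : star w * w * star w = star w := by
    have := congrArg star (pi_mul hp)
    rwa [star_mul, hp.isSelfAdjoint.star_eq] at this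
  refine ⟨by rw [mul_assoc, hwe], by rw [← mul_assoc, a1], by rw [← mul_assoc, hfw],
    by rw [mul_assoc, a2], by rw [mul_assoc, pi_mul hp], a3, a2⟩

theorem maxpi {e f : H →L[ℂ] H} (he : IsStarProjection e) (hf : IsStarProjection f) (heN : e ∈ N)
    (hfN : f ∈ N) : ∃ w ∈ N, IsStarProjection (star w * w) ∧ f * w = w ∧ w * e = w ∧
      ∀ x ∈ N, (f - w * star w) * x * (e - star w * w) = 0 := by
  obtain ⟨w, ⟨hN, hfw, hwe⟩, hp, hmax⟩ := zorn_pi (fun w => w ∈ N ∧ f * w = w ∧ w * e = w)
    ⟨zero_mem N, mul_zero f, zero_mul e⟩ (by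
      intro l _ W hev hlim
      have hW : WL l (fun w => w) W := WL.of_sot hlim
      exact ⟨hW.mem N (hev.mono fun a ha => ha.1.1),
        ((hW.mul_left f).congr' (hev.mono fun a ha => ha.1.2.1)).unique hW,
        ((hW.mul_right e).congr' (hev.mono fun a ha => ha.1.2.2)).unique hW⟩)
  refine ⟨w, hN, hp, hfw, hwe, fun x hx => ?_⟩
  by_contra h0
  obtain ⟨r1, r2, r3, r4, r5, r6, r7⟩ := rel_comp he hf hp hfw hwe
  have he' : IsStarProjection (e - star w * w) := hp.sub_of_mul_eq_left he r1
  have hf' : IsStarProjection (f - w * star w) := (pi_star hp).sub_of_mul_eq_left hf r4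
  obtain ⟨v, vN, v0, vp, fv, ve⟩ := exists_picut N (e := e - star w * w) (f := f - w * star w)
    (mul_mem (mul_mem (sub_mem hfN (mul_mem hN (star_mem hN))) hx)
      (sub_mem heN (mul_mem (star_mem hN) hN))) h0 he'
    (by rw [← mul_assoc, ← mul_assoc, hf'.isIdempotentElem.eq])
    (by rw [mul_assoc, he'.isIdempotentElem.eq])
  have s1 : star w * v = 0 := by
    rw [← fv, ← mul_assoc, mul_sub, r7, ← mul_assoc, r6, sub_self, zero_mul]
  have s2 : star v * w = 0 := by
    have := congrArg star s1
    rwa [star_mul, star_star, star_zero] at this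
  have s3 : v * (star w * w) = 0 := by
    rw [← ve, mul_assoc, sub_mul, r2, hp.isIdempotentElem.eq, sub_self, mul_zero]
  have s4 : f * v = v := by
    rw [← fv, ← mul_assoc, mul_sub, hf.isIdempotentElem.eq, r3]
  have s5 : v * e = v := by
    rw [← ve, mul_assoc, sub_mul, he.isIdempotentElem.eq, r1]
  have s6 : star (w + v) * (w + v) = star v * v + star w * w := by
    rw [star_add, add_mul, mul_add, mul_add, s1, s2, add_zero, zero_add, add_comm]
  have := hmax (w + v) ⟨add_mem hN vN, by rw [mul_add, hfw, s4], by rw [add_mul, hwe, s5]⟩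
    (by
      rw [s6]
      exact vp.add hp (by rw [mul_assoc, s3, mul_zero]))
    (by rw [add_mul, s3, add_zero, pi_mul hp])
  exact v0 (add_eq_left.1 this)

/-- Comparison of projections. -/
theorem comp {e f : H →L[ℂ] H} (he : IsStarProjection e) (hf : IsStarProjection f) (heN : e ∈ N)
    (hfN : f ∈ N) : ∃ z w, CProj N z ∧ w ∈ N ∧ IsStarProjection (star w * w) ∧ f * w = w ∧
      w * e = w ∧ z * e = z * (star w * w) ∧ (1 - z) * f = (1 - z) * (w * star w) := by
  obtain ⟨w, hN, hp, hfw, hwe, hmax⟩ := maxpi N he hf heN hfN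
  obtain ⟨z, hz, z1, z2⟩ := exists_ccov N (sub_mem heN (mul_mem (star_mem hN) hN))
  refine ⟨1 - z, w, hz.compl, hN, hp, hfw, hwe, ?_, ?_⟩
  · rw [← sub_eq_zero, ← mul_sub, sub_mul, one_mul, z1, sub_self]
  · rw [sub_sub_cancel, ← sub_eq_zero, ← mul_sub,
      (hz.2.2 _ (sub_mem hfN (mul_mem hN (star_mem hN)))).eq]
    exact z2 _ hmax

/-- Abelian projections with the same central cover are equivalent. -/
theorem cover {e f : H →L[ℂ] H} (he : Abel N e) (hf : Abel N f)
    (h1 : ∀ y ∈ N, (∀ x ∈ N, y * x * e = 0) → y * f = 0)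
    (h2 : ∀ y ∈ N, (∀ x ∈ N, y * x * f = 0) → y * e = 0) :
    ∃ w ∈ N, star w * w = e ∧ w * star w = f := by
  obtain ⟨w, hN, hp, hfw, hwe, hmax⟩ := maxpi N he.1 hf.1 he.2.1 hf.2.1
  obtain ⟨r1, r2, r3, r4, r5, r6, -⟩ := rel_comp he.1 hf.1 hp hfw hwe
  have pN := mul_mem (star_mem hN) hN
  have qN := mul_mem hN (star_mem hN)
  have hq := pi_star hp
  refine ⟨w, hN, ?_, ?_⟩
  · have := h2 (e - star w * w) (sub_mem he.2.1 pN) fun x hx => by
      have a1 := abel_comp he.1.isIdempotentElem.eq hp.isIdempotentElem.eq r2 r1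
        (he.2.2 _ (mul_mem hx hN) _ pN)
      have a2 : (e - star w * w) * x * (w * star w) = 0 := by
        calc _ = (e - star w * w) * (x * w) * (star w * w * star w) := by
              rw [r6]
              simp only [mul_assoc]
          _ = 0 := by rw [← mul_assoc, a1, zero_mul]
      have a3 := congrArg star (hmax _ (star_mem hx))
      rw [star_mul, star_mul, star_star, star_zero, star_sub, star_sub, he.1.isSelfAdjoint.star_eq,
        hf.1.isSelfAdjoint.star_eq, hp.isSelfAdjoint.star_eq, hq.isSelfAdjoint.star_eq,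
        ← mul_assoc, mul_sub, a2, sub_zero] at a3
      exact a3
    rw [sub_mul, he.1.isIdempotentElem.eq, r1] at this
    exact (sub_eq_zero.1 this).symm
  · have := h1 (f - w * star w) (sub_mem hf.2.1 qN) fun x hx => by
      have a1 := abel_comp hf.1.isIdempotentElem.eq hq.isIdempotentElem.eq r3 r4
        (hf.2.2 _ (mul_mem hx (star_mem hN)) _ qN)
      have a2 : (f - w * star w) * x * (star w * w) = 0 := by
        calc _ = (f - w * star w) * (x * star w) * (w * star w * w) := by
              rw [r5]
              simp only [mul_assoc]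
          _ = 0 := by rw [← mul_assoc, a1, zero_mul]
      have a3 := hmax _ hx
      rwa [mul_sub, a2, sub_zero] at a3
    rw [sub_mul, hf.1.isIdempotentElem.eq, r4] at this
    exact (sub_eq_zero.1 this).symm

end Ulam
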