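import Pool.Agent.P.MP_3be8c7_an.Int

open scoped ComplexOrder InnerProductSpace
open Filter Topology

noncomputable section

namespace Ulam

universe u v w

variable {D : Type u} [CStarAlgebra D] [PartialOrder D] [StarOrderedRing D]

lemma lin_cplx (t : D → ℝ) (hadd : ∀ a b, 0 ≤ a → 0 ≤ b → t (a + b) = t a + t b)
    (hsmul : ∀ (c : ℝ) a, 0 ≤ c → 0 ≤ a → t (c • a) = c * t a) :
    ∃ s : selfAdjoint D →ₗ[ℝ] ℝ, ∀ a : selfAdjoint D, 0 ≤ (a : D) → s a = t a := by
  let s : D → ℝ := fun a => t a⁺ - t a⁻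
  have hp : ∀ a : D, 0 ≤ a⁺ := fun a => CFC.posPart_nonneg a
  have hn : ∀ a : D, 0 ≤ a⁻ := fun a => CFC.negPart_nonneg a
  have key : ∀ a p q : D, 0 ≤ p → 0 ≤ q → a = p - q → s a = t p - t q := by
    intro a p q h1 h2 e
    have ha : IsSelfAdjoint a := e ▸ h1.isSelfAdjoint.sub h2.isSelfAdjoint
    have e1 : a⁺ + q = p + a⁻ := by
      have := CFC.posPart_sub_negPart a ha
      rw [← sub_eq_sub_iff_add_eq_add, this, e]
    have e2 := congrArg t e1
    rw [hadd _ _ (hp a) h2, hadd _ _ h1 (hn a)] at e2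
    simp only [s]
    linarith
  have h0 : t 0 = 0 := by
    have := hadd 0 0 le_rfl le_rfl
    rw [add_zero] at this
    linarith
  refine ⟨{ toFun := fun a => s a, map_add' := fun a b => ?_, map_smul' := fun c a => ?_ },
    fun a ha => ?_⟩
  · have ea := CFC.posPart_sub_negPart (a : D) a.2
    have eb := CFC.posPart_sub_negPart (b : D) b.2
    rw [key _ ((a : D)⁺ + (b : D)⁺) ((a : D)⁻ + (b : D)⁻) (add_nonneg (hp _) (hp _))
      (add_nonneg (hn _) (hn _)) (by rw [add_sub_add_comm, ea, eb]; rfl),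
      hadd _ _ (hp _) (hp _), hadd _ _ (hn _) (hn _)]
    simp only [s]
    ring
  · have ea := CFC.posPart_sub_negPart (a : D) a.2
    rcases le_total 0 c with hc | hc
    · rw [key _ (c • (a : D)⁺) (c • (a : D)⁻) (smul_nonneg hc (hp _)) (smul_nonneg hc (hn _))
        (by rw [← smul_sub, ea]; rfl), hsmul _ _ hc (hp _), hsmul _ _ hc (hn _)]
      simp only [s, RingHom.id_apply, smul_eq_mul]
      ring
    · have hc' : 0 ≤ -c := neg_nonneg.2 hc
      rw [key _ ((-c) • (a : D)⁻) ((-c) • (a : D)⁺) (smul_nonneg hc' (hn _))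
        (smul_nonneg hc' (hp _))
        (by rw [← smul_sub, ← neg_sub, ea, smul_neg, neg_smul, neg_neg]; rfl),
        hsmul _ _ hc' (hp _), hsmul _ _ hc' (hn _)]
      simp only [s, RingHom.id_apply, smul_eq_mul]
      ring
  · have := key a a 0 ha le_rfl (sub_zero _).symm
    rw [h0, sub_zero] at this
    exact this

theorem exists_pos_of_additive (t : D → ℝ) (hadd : ∀ a b, 0 ≤ a → 0 ≤ b → t (a + b) = t a + t b)
    (hsmul : ∀ (c : ℝ) a, 0 ≤ c → 0 ≤ a → t (c • a) = c * t a) (hpos : ∀ a, 0 ≤ a → 0 ≤ t a) :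
    ∃ ρ : D →ₚ[ℂ] ℂ, ∀ a, 0 ≤ a → ρ a = t a := by
  obtain ⟨s, hs⟩ := lin_cplx t hadd hsmul
  let L : D →ₗ[ℂ] ℂ :=
    { toFun := fun a => (s (realPart a) : ℂ) + Complex.I * (s (imaginaryPart a) : ℂ)
      map_add' := fun a b => by
        simp only [map_add, Complex.ofReal_add]
        ring
      map_smul' := fun z a => by
        simp only [realPart_smul, imaginaryPart_smul, map_add, map_sub, map_smul, smul_eq_mul,
          RingHom.id_apply]
        apply Complex.ext <;> simp }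
  have hL : ∀ a, 0 ≤ a → L a = t a := by
    intro a ha
    have h1 : ((realPart a : selfAdjoint D) : D) = a := ha.isSelfAdjoint.coe_realPart
    have h2 : imaginaryPart a = 0 := ha.isSelfAdjoint.imaginaryPart
    change (s (realPart a) : ℂ) + Complex.I * (s (imaginaryPart a) : ℂ) = _
    rw [h2, map_zero, hs _ (h1.symm ▸ ha), h1]
    simp
  exact ⟨PositiveLinearMap.mk₀ L fun a ha => by
    rw [hL a ha]
    exact Complex.zero_le_real.2 (hpos a ha), hL⟩

end Ulam
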