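import Pool.Agent.P.MP_3be8c7_an.SPEC

open scoped ComplexOrder InnerProductSpace
open Filter Topology

noncomputable section

namespace Ulam

universe u v w

variable {H : Type v} [NormedAddCommGroup H] [InnerProductSpace ℂ H] [CompleteSpace H]

/-- A finite partition of unity into projections. -/
def IsP_part {T : Type} [Fintype T] (z : T → (H →L[ℂ] H)) : Prop :=
  (∀ t, IsStarProjection (z t)) ∧ (∀ t t', t ≠ t' → z t * z t' = 0) ∧ ∑ t, z t = 1

theorem one_part : IsP_part (fun _ : Unit => (1 : H →L[ℂ] H)) :=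
  ⟨fun _ => IsStarProjection.one _, fun t t' h => absurd (Subsingleton.elim t t') h, by simp⟩

theorem bool_part {p : H →L[ℂ] H} (hp : IsStarProjection p) :
    IsP_part (fun b : Bool => if b then p else 1 - p) := by
  refine ⟨fun b => ?_, fun b b' h => ?_, by simp⟩
  · cases b
    · simpa using hp.one_sub
    · simpa using hp
  · cases b <;> cases b'
    · exact absurd rfl h
    · simpa using hp.one_sub_mul_self
    · simpa using hp.mul_one_sub_self
    · exact absurd rfl h

theorem refine_part {T S : Type} [Fintype T] [Fintype S] {z : T → (H →L[ℂ] H)}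
    {w : S → (H →L[ℂ] H)} (hz : IsP_part z) (hw : IsP_part w) (hc : ∀ t s, Commute (z t) (w s)) :
    IsP_part (fun x : T × S => z x.1 * w x.2) := by
  refine ⟨fun x => (hz.1 _).mul (hw.1 _) (hc _ _), fun x y h => ?_, ?_⟩
  · have e : z x.1 * w x.2 * (z y.1 * w y.2) = z x.1 * z y.1 * (w x.2 * w y.2) := by
      simp only [mul_assoc]
      rw [← mul_assoc (w x.2), ← (hc y.1 x.2).eq, mul_assoc]
    show z x.1 * w x.2 * (z y.1 * w y.2) = 0
    rw [e]
    by_cases h1 : x.1 = y.1
    · have h2 : x.2 ≠ y.2 := fun h2 => h (Prod.ext h1 h2)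
      rw [hw.2.1 _ _ h2, mul_zero]
    · rw [hz.2.1 _ _ h1, zero_mul]
  · rw [Fintype.sum_prod_type]
    simp only [← Finset.mul_sum, hw.2.2, mul_one, hz.2.2]

theorem nl_part {p : H →L[ℂ] H} (hp : IsStarProjection p) (y : H →L[ℂ] H) : ‖p * y‖ ≤ ‖y‖ :=
  (norm_mul_le _ _).trans (mul_le_of_le_one_left (norm_nonneg _) (hp.norm_le _))

theorem step_part {κ : ℝ} (hκ : 0 < κ) (n : ℕ) : ∀ (a : H →L[ℂ] H) (d : ℝ), IsSelfAdjoint a →
    (∀ t ∈ spectrum ℝ a, d ≤ t ∧ t ≤ d + n * κ) →
    ∃ (T : Type) (_ : Fintype T) (z : T → (H →L[ℂ] H)) (c : T → ℝ), IsP_part z ∧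
      (∀ X, Commute X a → ∀ t, Commute X (z t)) ∧
      ∀ t, ‖z t * (a - c t • (1 : H →L[ℂ] H))‖ ≤ κ := by
  induction n with
  | zero =>
    intro a d ha hs
    refine ⟨Unit, inferInstance, fun _ => 1, fun _ => d, one_part, fun X _ _ => Commute.one_right X,
      fun _ => ?_⟩
    have e : a - d • (1 : H →L[ℂ] H) = cfc (fun t : ℝ => t - d) a := by
      rw [cfc_sub _ _ a, cfc_id' ℝ a, cfc_const d a, Algebra.algebraMap_eq_smul_one]
    rw [one_mul, e]
    refine norm_cfc_le hκ.le fun t ht => ?_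
    obtain ⟨h1, h2⟩ := hs t ht
    rw [Real.norm_eq_abs, abs_le]
    simp only [Nat.cast_zero, zero_mul, add_zero] at h2
    constructor <;> linarith
  | succ n ih =>
    intro a d ha hs
    obtain ⟨p, hp, hpc, hp1, hp2⟩ := exists_spec ha (d + κ)
    set a' : H →L[ℂ] H := cfc (fun t : ℝ => max t (d + κ)) a with ha'
    have hs' : ∀ t ∈ spectrum ℝ a', d + κ ≤ t ∧ t ≤ d + κ + n * κ := by
      intro t ht
      rw [ha', cfc_map_spectrum (fun t : ℝ => max t (d + κ)) a] at ht
      obtain ⟨s, hs1, rfl⟩ := ht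
      obtain ⟨h1, h2⟩ := hs s hs1
      refine ⟨le_max_right _ _, max_le ?_ ?_⟩
      · push_cast at h2
        linarith
      · have : 0 ≤ (n : ℝ) * κ := by positivity
        linarith
    obtain ⟨T, hT, z, c, hz, hzc, hzn⟩ := ih a' (d + κ) (cfc_predicate _ _) hs'
    have hXa : ∀ X, Commute X a → Commute X a' := fun X hX => (hX.symm.cfc_real _).symm
    have hpa : Commute p a := (hpc a (Commute.refl a)).symm
    have hq : ∀ X, Commute X p → ∀ b : Bool, Commute X (if b then p else 1 - p) := by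
      intro X hX b
      cases b
      · simpa using (Commute.one_right X).sub_right hX
      · simpa using hX
    have hpz : ∀ t, Commute p (z t) := hzc p (hXa p hpa)
    set f : H →L[ℂ] H := cfc (fun t : ℝ => max (t - (d + κ)) 0) a with hf
    set g : H →L[ℂ] H := cfc (fun t : ℝ => max (d + κ - t) 0) a with hg
    have hpf : Commute p f := (hpa.symm.cfc_real _).symm
    have hpg : Commute p g := (hpa.symm.cfc_real _).symm
    have e1 : a' = a + g := by
      rw [ha', hg]
      conv_rhs => lhs; rw [← cfc_id' ℝ a]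
      rw [← cfc_add a _ _]
      refine cfc_congr fun t _ => ?_
      simp only [max_def]
      split_ifs <;> linarith
    have e2 : a - (d + κ) • (1 : H →L[ℂ] H) = f - g := by
      have e : a - (d + κ) • (1 : H →L[ℂ] H) = cfc (fun t : ℝ => t - (d + κ)) a := by
        rw [cfc_sub _ _ a, cfc_id' ℝ a, cfc_const (d + κ) a, Algebra.algebraMap_eq_smul_one]
      rw [e, hf, hg, ← cfc_sub _ _ a]
      refine cfc_congr fun t _ => ?_
      simp only [max_def]
      split_ifs <;> linarith
    have hgn : ‖g‖ ≤ κ := by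
      refine norm_cfc_le hκ.le fun t ht => ?_
      obtain ⟨h1, -⟩ := hs t ht
      rw [Real.norm_eq_abs, abs_of_nonneg (le_max_right _ _)]
      exact max_le (by linarith) hκ.le
    refine ⟨T × Bool, inferInstance, fun x => z x.1 * (if x.2 then p else 1 - p),
      fun x => if x.2 then c x.1 else d + κ,
      refine_part hz (bool_part hp) fun t b => hq _ (hpz t).symm b,
      fun X hX x => (hzc X (hXa X hX) _).mul_right (hq X (hpc X hX) _), ?_⟩
    rintro ⟨t, b⟩
    cases b
    · simp only [Bool.false_eq_true, if_false]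
      have e3 : (1 - p) * f = 0 := by
        rw [← hp1]
        exact ((Commute.one_left f).sub_left hpf).eq
      rw [e2, mul_assoc, mul_sub (1 - p), e3, zero_sub]
      refine (nl_part (hz.1 t) _).trans ?_
      rw [norm_neg]
      exact (nl_part hp.one_sub _).trans hgn
    · simp only [if_true]
      have e3 : p * g = 0 := by rw [hpg.eq, hp2]
      have e4 : p * (a - c t • (1 : H →L[ℂ] H)) = p * (a' - c t • (1 : H →L[ℂ] H)) := by
        rw [e1, mul_sub, mul_sub, mul_add, e3, add_zero]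
      rw [mul_assoc, e4, ← mul_assoc, ← (hpz t).eq, mul_assoc]
      exact (nl_part hp _).trans (hzn t)

theorem step2_part {a : H →L[ℂ] H} (ha : IsSelfAdjoint a) {κ : ℝ} (hκ : 0 < κ) :
    ∃ (T : Type) (_ : Fintype T) (z : T → (H →L[ℂ] H)) (c : T → ℝ), IsP_part z ∧
      (∀ X, Commute X a → ∀ t, Commute X (z t)) ∧
      ∀ t, ‖z t * (a - c t • (1 : H →L[ℂ] H))‖ ≤ κ := by
  set M : ℝ := ‖a‖ * ‖(1 : H →L[ℂ] H)‖ with hM
  obtain ⟨n, hn⟩ := exists_nat_ge (2 * M / κ)
  refine step_part hκ n a (-M) ha fun t ht => ?_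
  have h1 := spectrum.norm_le_norm_mul_of_mem ht
  rw [Real.norm_eq_abs, abs_le, ← hM] at h1
  rw [div_le_iff₀ hκ] at hn
  exact ⟨h1.1, by linarith [h1.2]⟩

theorem exists_step {a : H →L[ℂ] H} (ha : IsSelfAdjoint a) {κ : ℝ} (hκ : 0 < κ) :
    ∃ (n : ℕ) (z : Fin n → (H →L[ℂ] H)) (c : Fin n → ℝ), (∀ t, IsStarProjection (z t)) ∧
      (∀ t t', t ≠ t' → z t * z t' = 0) ∧ ∑ t, z t = 1 ∧ (∀ X, Commute X a → ∀ t, Commute X (z t)) ∧
      ∀ t, ‖z t * (a - c t • (1 : H →L[ℂ] H))‖ ≤ κ := by
  obtain ⟨T, hT, z, c, hz, hzc, hzn⟩ := step2_part ha hκ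
  set e := (Fintype.equivFin T).symm
  refine ⟨Fintype.card T, fun t => z (e t), fun t => c (e t), fun t => hz.1 _,
    fun t t' h => hz.2.1 _ _ fun h' => h (e.injective h'), ?_, fun X hX t => hzc X hX _,
    fun t => hzn _⟩
  rw [← hz.2.2]
  exact e.sum_comp z

theorem sa_part {ι : Type*} (a : ι → (H →L[ℂ] H)) (ha : ∀ i, IsSelfAdjoint (a i))
    (hc : ∀ i j, Commute (a i) (a j)) {κ : ℝ} (hκ : 0 < κ) (s : Finset ι) :
    ∃ (T : Type) (_ : Fintype T) (z : T → (H →L[ℂ] H)) (c : T → ι → ℝ), IsP_part z ∧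
      (∀ X, (∀ i, Commute X (a i)) → ∀ t, Commute X (z t)) ∧
      ∀ t, ∀ i ∈ s, ‖z t * (a i - c t i • (1 : H →L[ℂ] H))‖ ≤ κ := by
  classical
  induction s using Finset.induction_on with
  | empty =>
    exact ⟨Unit, inferInstance, fun _ => 1, fun _ _ => 0, one_part,
      fun X _ _ => Commute.one_right X, fun _ i hi => absurd hi (Finset.notMem_empty i)⟩
  | insert j s hj ih =>
    obtain ⟨T, hT, z, c, hz, hzc, hzn⟩ := ih
    obtain ⟨S, hS, w, d, hw, hwc, hwn⟩ := step2_part (ha j) hκ
    have hzw : ∀ t r, Commute (z t) (w r) := fun t r => hwc _ (hzc _ (hc j) t).symm r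
    refine ⟨T × S, inferInstance, fun x => z x.1 * w x.2,
      fun x i => if i = j then d x.2 else c x.1 i, refine_part hz hw hzw,
      fun X hX x => (hzc X hX _).mul_right (hwc X (hX j) _), fun x i hi => ?_⟩
    by_cases hij : i = j
    · subst hij
      simp only [if_true]
      rw [mul_assoc]
      exact (nl_part (hz.1 _) _).trans (hwn _)
    · simp only [if_neg hij]
      rw [(hzw _ _).eq, mul_assoc]
      exact (nl_part (hw.1 _) _).trans (hzn _ i ((Finset.mem_insert.1 hi).resolve_left hij))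

theorem exists_part {ι : Type*} [Fintype ι] (a : ι → (H →L[ℂ] H))
    (hc : ∀ i j, Commute (a i) (a j) ∧ Commute (a i) (star (a j))) {κ : ℝ} (hκ : 0 < κ) :
    ∃ (T : Type) (_ : Fintype T) (_ : DecidableEq T) (z : T → (H →L[ℂ] H)) (c : T → ι → ℂ),
      (∀ t, IsStarProjection (z t)) ∧ (∀ t t', t ≠ t' → z t * z t' = 0) ∧ ∑ t, z t = 1 ∧
      (∀ X, (∀ i, Commute X (a i) ∧ Commute X (star (a i))) → ∀ t, Commute X (z t)) ∧
      ∀ t i, ‖z t * (a i - c t i • (1 : H →L[ℂ] H))‖ ≤ κ := by
  classical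
  set b : ι × Bool → (H →L[ℂ] H) := fun x =>
    if x.2 then (realPart (a x.1) : H →L[ℂ] H) else (imaginaryPart (a x.1) : H →L[ℂ] H) with hb
  have hX : ∀ X, (∀ i, Commute X (a i) ∧ Commute X (star (a i))) → ∀ x, Commute X (b x) := by
    rintro X h ⟨i, β⟩
    cases β
    · simp only [hb, Bool.false_eq_true, if_false, imaginaryPart_apply_coe]
      exact (((h i).1.sub_right (h i).2).smul_right _).smul_right _
    · simp only [hb, if_true, realPart_apply_coe]
      exact ((h i).1.add_right (h i).2).smul_right _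
  have hsa : ∀ x, IsSelfAdjoint (b x) := by
    rintro ⟨i, β⟩
    cases β
    · exact (imaginaryPart (a i)).2
    · exact (realPart (a i)).2
  have hbb : ∀ x y, Commute (b x) (b y) := by
    intro x
    refine hX _ fun j => ⟨(hX _ (hc j) x).symm, (hX _ (fun i => ⟨(hc i j).2.symm, ?_⟩) x).symm⟩
    exact (hc j i).1.star_star
  obtain ⟨T, hT, z, c, hz, hzc, hzn⟩ := sa_part b hsa hbb (half_pos hκ) Finset.univ
  refine ⟨T, hT, inferInstance, z, fun t i => (c t (i, true) : ℂ) + Complex.I * c t (i, false),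
    hz.1, hz.2.1, hz.2.2, fun X h => hzc X (hX X h), fun t i => ?_⟩
  have e : a i - ((c t (i, true) : ℂ) + Complex.I * c t (i, false)) • (1 : H →L[ℂ] H) =
      (b (i, true) - c t (i, true) • (1 : H →L[ℂ] H)) +
        Complex.I • (b (i, false) - c t (i, false) • (1 : H →L[ℂ] H)) := by
    conv_lhs => rw [← realPart_add_I_smul_imaginaryPart (a i)]
    simp only [hb, Bool.false_eq_true, if_false, if_true, add_smul, mul_smul, smul_sub,
      Complex.coe_smul]
    abel
  rw [e, mul_add, mul_smul_comm]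
  refine (norm_add_le _ _).trans ?_
  rw [norm_smul, Complex.norm_I, one_mul]
  linarith [hzn t (i, true) (Finset.mem_univ _), hzn t (i, false) (Finset.mem_univ _)]

theorem exists_atoms {ι : Type*} [Fintype ι] (p : ι → (H →L[ℂ] H))
    (hp : ∀ i, IsStarProjection (p i)) (hc : ∀ i j, Commute (p i) (p j)) :
    ∃ (T : Type) (_ : Fintype T) (_ : DecidableEq T) (z : T → (H →L[ℂ] H)),
      (∀ t, IsStarProjection (z t)) ∧ (∀ t t', t ≠ t' → z t * z t' = 0) ∧ ∑ t, z t = 1 ∧
      (∀ X, (∀ i, Commute X (p i)) → ∀ t, Commute X (z t)) ∧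
      ∀ t i, z t * p i = 0 ∨ z t * p i = z t := by
  classical
  have hq : ∀ (X : H →L[ℂ] H) j, Commute X (p j) → ∀ b : Bool,
      Commute X (if b then p j else 1 - p j) := by
    intro X j hX b
    cases b
    · simpa using (Commute.one_right X).sub_right hX
    · simpa using hX
  have key : ∀ s : Finset ι, ∃ (T : Type) (_ : Fintype T) (z : T → (H →L[ℂ] H)), IsP_part z ∧
      (∀ X, (∀ i, Commute X (p i)) → ∀ t, Commute X (z t)) ∧
      ∀ t, ∀ i ∈ s, z t * p i = 0 ∨ z t * p i = z t := by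
    intro s
    induction s using Finset.induction_on with
    | empty =>
      exact ⟨Unit, inferInstance, fun _ => 1, one_part, fun X _ _ => Commute.one_right X,
        fun _ i hi => absurd hi (Finset.notMem_empty i)⟩
    | insert j s hj ih =>
      obtain ⟨T, hT, z, hz, hzc, hzn⟩ := ih
      have hzw : ∀ (b : Bool) t, Commute (if b then p j else 1 - p j) (z t) :=
        fun b t => (hq _ j (hzc _ (hc j) t).symm b).symm
      refine ⟨Bool × T, inferInstance, fun x => (if x.1 then p j else 1 - p j) * z x.2,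
        refine_part (bool_part (hp j)) hz hzw,
        fun X hX x => (hq X j (hX j) _).mul_right (hzc X hX _), fun x i hi => ?_⟩
      rcases Finset.mem_insert.1 hi with rfl | hi
      · obtain ⟨b, t⟩ := x
        simp only [(hzw _ _).eq, mul_assoc]
        cases b
        · left
          simp only [Bool.false_eq_true, if_false]
          rw [(hp i).one_sub_mul_self, mul_zero]
        · right
          simp only [if_true]
          rw [(hp i).isIdempotentElem.eq]
      · simp only [mul_assoc]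
        rcases hzn x.2 i hi with h | h
        · left
          rw [h, mul_zero]
        · right
          rw [h]
  obtain ⟨T, hT, z, hz, hzc, hzn⟩ := key Finset.univ
  exact ⟨T, hT, inferInstance, z, hz.1, hz.2.1, hz.2.2, hzc, fun t i => hzn t i (Finset.mem_univ _)⟩

end Ulam
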