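import Pool.Agent.P.MP_3be8c7_an.ULIM
import Pool.Agent.P.MP_3be8c7_an.PART

open scoped ComplexOrder InnerProductSpace
open Filter Topology

noncomputable section

namespace Ulam

universe u v w

variable {H : Type v} [NormedAddCommGroup H] [InnerProductSpace ℂ H] [CompleteSpace H]

theorem cl_half (N : VonNeumannAlgebra H) (p : H →L[ℂ] H) (l : Filter (H →L[ℂ] H)) [l.NeBot]
    (W : H →L[ℂ] H) (h : ∀ᶠ w in l, (w ∈ N ∧ p * w = w ∧ w * p = w ∧ w * w = 0) ∧ ‖w‖ ≤ 1)
    (ht : ∀ ξ, Tendsto (fun w : H →L[ℂ] H => w ξ) l (𝓝 (W ξ))) :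
    W ∈ N ∧ p * W = W ∧ W * p = W ∧ W * W = 0 := by
  have hw : WL l (fun w => w) W := WL.of_sot ht
  refine ⟨hw.mem N (h.mono fun w h => h.1.1),
    ((hw.mul_left p).congr' (h.mono fun w h => h.1.2.1)).unique hw,
    ((hw.mul_right p).congr' (h.mono fun w h => h.1.2.2.1)).unique hw, ?_⟩
  ext ξ
  have h1 : Tendsto (fun w : H →L[ℂ] H => ‖W ξ - w ξ‖) l (𝓝 ‖W ξ - W ξ‖) :=
    (tendsto_const_nhds.sub (ht ξ)).norm
  rw [sub_self, norm_zero] at h1
  refine norm_le_zero_iff.1 (le_of_tendsto_of_tendsto (ht (W ξ)).norm h1 (h.mono fun w hw => ?_))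
  have e : w (w ξ) = 0 := DFunLike.congr_fun hw.1.2.2.2 ξ
  have := (w.le_opNorm (W ξ - w ξ)).trans (mul_le_of_le_one_left (norm_nonneg _) hw.2)
  rwa [map_sub, e, sub_zero] at this

theorem alg_half {R : Type*} [Ring R] [StarRing R] {p w : R} (hp : IsStarProjection p)
    (h1 : p * w = w) (h2 : w * p = w) (h3 : w * w = 0) (h4 : w * (star w * w) = w) :
    IsStarProjection (p - star w * w - w * star w) ∧ (p - star w * w - w * star w) * w = 0 ∧
      w * (p - star w * w - w * star w) = 0 ∧
      p * (p - star w * w - w * star w) = p - star w * w - w * star w := by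
  have hs : star (p - star w * w - w * star w) = p - star w * w - w * star w := by
    simp only [star_sub, star_mul, star_star, hp.isSelfAdjoint.star_eq]
  have a1 : (p - star w * w - w * star w) * w = 0 := by
    rw [sub_mul, sub_mul, h1, mul_assoc, h3, mul_assoc, h4, mul_zero, sub_zero, sub_self]
  have a2 : w * (p - star w * w - w * star w) = 0 := by
    rw [mul_sub, mul_sub, h2, h4, ← mul_assoc, h3, zero_mul, sub_zero, sub_self]
  have a3 : p * star w = star w := by
    simpa only [star_mul, hp.isSelfAdjoint.star_eq] using congrArg star h2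
  have a4 : p * (p - star w * w - w * star w) = p - star w * w - w * star w := by
    rw [mul_sub, mul_sub, hp.isIdempotentElem.eq, ← mul_assoc, ← mul_assoc, a3, h1]
  have a5 : star w * (p - star w * w - w * star w) = 0 := by
    simpa only [star_mul (p - star w * w - w * star w), hs, star_zero] using congrArg star a1
  refine ⟨⟨?_, hs⟩, a1, a2, a4⟩
  rw [IsIdempotentElem, sub_mul, sub_mul, a4, mul_assoc, a2, mul_assoc, a5, mul_zero, mul_zero,
    sub_zero, sub_zero]

theorem add_half {R : Type*} [Ring R] [StarRing R] {p e q w v : R} (hp : IsStarProjection p)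
    (he : IsStarProjection e) (hq : IsStarProjection q) (hqe : q * e = q) (e1 : e * w = 0)
    (e2 : w * e = 0) (e3 : p * e = e) (h1 : p * w = w) (h2 : w * p = w) (h3 : w * w = 0)
    (h4 : w * (star w * w) = w) (hw : IsStarProjection (star w * w))
    (hv : IsStarProjection (star v * v)) (v1 : (e - q) * v = v) (v2 : v * q = v) :
    (p * (w + v) = w + v ∧ (w + v) * p = w + v ∧ (w + v) * (w + v) = 0) ∧
      IsStarProjection (star (w + v) * (w + v)) ∧ (w + v) * (star w * w) = w := by
  have s := he.isSelfAdjoint.star_eq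
  have heq : e * q = q := by
    simpa only [star_mul, s, hq.isSelfAdjoint.star_eq] using congrArg star hqe
  have e4 : e * p = e := by
    simpa only [star_mul, s, hp.isSelfAdjoint.star_eq] using congrArg star e3
  have a1 : e * v = v := by
    rw [← v1, ← mul_assoc, mul_sub, he.isIdempotentElem.eq, heq]
  have a2 : v * e = v := by rw [← v2, mul_assoc, hqe]
  have a3 : q * v = 0 := by
    rw [← v1, ← mul_assoc, mul_sub, hq.isIdempotentElem.eq, hqe, sub_self, zero_mul]
  have a4 : v * v = 0 := by
    have : v * q * v = 0 := by rw [mul_assoc, a3, mul_zero]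
    rwa [v2] at this
  have a5 : p * v = v := by rw [← a1, ← mul_assoc, e3]
  have a6 : v * p = v := by rw [← a2, mul_assoc, e4]
  have a7 : w * v = 0 := by rw [← a1, ← mul_assoc, e2, zero_mul]
  have a8 : v * w = 0 := by rw [← a2, mul_assoc, e1, mul_zero]
  have b1 : star w * e = 0 := by simpa only [star_mul, s, star_zero] using congrArg star e1
  have b2 : e * star w = 0 := by simpa only [star_mul, s, star_zero] using congrArg star e2
  have b3 : star w * v = 0 := by rw [← a1, ← mul_assoc, b1, zero_mul]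
  have b4 : star v * w = 0 := by simpa only [star_mul, star_star, star_zero] using congrArg star b3
  have b5 : v * star w = 0 := by rw [← a2, mul_assoc, b2, mul_zero]
  have b6 : w * star v = 0 := by simpa only [star_mul, star_star, star_zero] using congrArg star b5
  refine ⟨⟨by rw [mul_add, h1, a5], by rw [add_mul, h2, a6], ?_⟩, ?_, ?_⟩
  · rw [add_mul, mul_add, mul_add, h3, a4, a7, a8, add_zero, add_zero]
  · rw [star_add, add_mul, mul_add, mul_add, b3, b4, add_zero, zero_add]
    exact hw.add hv (by rw [mul_assoc, ← mul_assoc w, b6, zero_mul, mul_zero])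
  · rw [add_mul, h4, ← mul_assoc, b5, zero_mul, add_zero]

theorem sa_half (N : VonNeumannAlgebra H) {e a b : H →L[ℂ] H} (he : IsStarProjection e)
    (heN : e ∈ N) (ha : IsSelfAdjoint a) (haN : a ∈ N) (hea : Commute e a) (b1 : e * b = b)
    (b2 : b * e = b) (h : ∀ q ∈ N, IsStarProjection q → q * e = q → Commute q b) :
    Commute a b := by
  refine sub_eq_zero.1 (norm_le_zero_iff.1 (le_of_forall_pos_le_add fun ε hε => ?_))
  have hb := norm_nonneg b
  obtain ⟨n, z, c, z1, z2, z3, z4, z5⟩ := exists_step ha (κ := ε / (2 * ‖b‖ + 1)) (by positivity)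
  have hz : ∀ t, Commute (z t) b := by
    intro t
    have hc := (z4 e hea t).symm
    have := (h (z t * e) (mul_mem (vn_mem_of_commute N fun T hT => z4 T (vn_commute N haN hT) t)
      heN) ((z1 t).mul he hc) (by rw [mul_assoc, he.isIdempotentElem.eq])).eq
    rwa [mul_assoc, b1, hc.eq, ← mul_assoc, b2] at this
  have hza : ∀ t, Commute (z t) a := fun t => (z4 a (Commute.refl a) t).symm
  rw [zero_add]
  refine norm_le_of_partition z z1 z2 _ (by rw [z3, one_mul])
    (fun t => ((hza t).mul_right (hz t)).sub_right ((hz t).mul_right (hza t))) hε.le fun t => ?_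
  have e1 : z t * (a * b - b * a) =
      z t * (a - c t • (1 : H →L[ℂ] H)) * b - b * (z t * (a - c t • (1 : H →L[ℂ] H))) := by
    rw [← mul_assoc b, ← (hz t).eq, mul_assoc, mul_assoc, ← mul_sub, sub_mul, mul_sub b,
      smul_mul_assoc, mul_smul_comm, one_mul, mul_one, sub_sub_sub_cancel_right]
  have h1 := (norm_mul_le _ b).trans (mul_le_mul_of_nonneg_right (z5 t) hb)
  have h2 := (norm_mul_le b _).trans (mul_le_mul_of_nonneg_left (z5 t) hb)
  have h3 : ε / (2 * ‖b‖ + 1) * (2 * ‖b‖ + 1) = ε := div_mul_cancel₀ _ (by positivity)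
  have h4 : 0 < ε / (2 * ‖b‖ + 1) := by positivity
  rw [e1]
  refine (norm_sub_le _ _).trans ?_
  linarith

theorem half (N : VonNeumannAlgebra H) {p : H →L[ℂ] H} (hp : IsStarProjection p) (hN : p ∈ N) :
    ∃ w ∈ N, IsStarProjection (star w * w) ∧ p * w = w ∧ w * p = w ∧ w * w = 0 ∧
      Abel N (p - star w * w - w * star w) := by
  obtain ⟨w, ⟨hw, h1, h2, h3⟩, hpw, hmax⟩ := zorn_pi
    (fun w => w ∈ N ∧ p * w = w ∧ w * p = w ∧ w * w = 0) ⟨zero_mem N, by simp⟩ (cl_half N p)
  obtain ⟨he, e1, e2, e3⟩ := alg_half hp h1 h2 h3 (pi_mul hpw)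
  have heN : p - star w * w - w * star w ∈ N :=
    sub_mem (sub_mem hN (mul_mem (star_mem hw) hw)) (mul_mem hw (star_mem hw))
  refine ⟨w, hw, hpw, h1, h2, h3, he, heN, ?_⟩
  generalize p - star w * w - w * star w = e at *
  have s := he.isSelfAdjoint.star_eq
  have ee := he.isIdempotentElem.eq
  have key : ∀ q ∈ N, IsStarProjection q → q * e = q → ∀ x ∈ N, e * x * q = q * x * q := by
    intro q hqN hq hqe x hx
    have heq : e * q = q := by
      simpa only [star_mul, s, hq.isSelfAdjoint.star_eq] using congrArg star hqe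
    rw [← sub_eq_zero, ← sub_mul, ← sub_mul]
    by_contra h0
    obtain ⟨v, hv, v0, vp, v1, v2⟩ := exists_picut N (f := e - q)
      (mul_mem (mul_mem (sub_mem heN hqN) hx) hqN) h0 hq
      (by rw [← mul_assoc, ← mul_assoc, mul_sub, sub_mul e q e, sub_mul e q q, ee, hqe, heq,
        hq.isIdempotentElem.eq, sub_self, sub_zero])
      (by rw [mul_assoc, hq.isIdempotentElem.eq])
    obtain ⟨a, b, c⟩ := add_half hp he hq hqe e1 e2 e3 h1 h2 h3 (pi_mul hpw) hpw vp v1 v2
    exact v0 (add_eq_left.1 (hmax _ ⟨add_mem hw hv, a⟩ b c))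
  have sa : ∀ y ∈ N, IsSelfAdjoint y → ∀ x ∈ N, Commute (e * y * e) (e * x * e) := by
    intro y hy hy' x hx
    have l : ∀ x, e * (e * x * e) = e * x * e := fun x => by rw [← mul_assoc, ← mul_assoc, ee]
    have r : ∀ x, e * x * e * e = e * x * e := fun x => by rw [mul_assoc, ee]
    refine sa_half N he heN ?_ (mul_mem (mul_mem heN hy) heN) ((l y).trans (r y).symm) (l x) (r x)
      fun q hqN hq hqe => ?_
    · rw [IsSelfAdjoint, star_mul, star_mul, s, hy'.star_eq, mul_assoc]
    · have heq : e * q = q := by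
        simpa only [star_mul, s, hq.isSelfAdjoint.star_eq] using congrArg star hqe
      have k := congrArg star (key q hqN hq hqe _ (star_mem hx))
      simp only [star_mul, s, hq.isSelfAdjoint.star_eq, star_star, ← mul_assoc] at k
      rw [Commute, SemiconjBy, ← mul_assoc, ← mul_assoc, hqe, mul_assoc _ e q, heq, k,
        key q hqN hq hqe x hx]
  intro y hy x hx
  rw [← realPart_add_I_smul_imaginaryPart y, mul_add, add_mul, mul_smul_comm, smul_mul_assoc]
  refine (sa _ ?_ (realPart y).2 x hx).add_left ((sa _ ?_ (imaginaryPart y).2 x hx).smul_left _)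
  · rw [realPart_apply_coe]
    exact vn_real_smul_mem N _ (add_mem hy (star_mem hy))
  · rw [imaginaryPart_apply_coe]
    exact vn_smul_mem N _ (vn_real_smul_mem N _ (sub_mem hy (star_mem hy)))

end Ulam
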