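import Pool.Agent.P.MP_3be8c7_an.COMP
import Pool.Agent.P.MP_3be8c7_an.HALF

open scoped ComplexOrder InnerProductSpace
open Filter Topology

noncomputable section

namespace Ulam

universe u v w

variable {H : Type v} [NormedAddCommGroup H] [InnerProductSpace ℂ H] [CompleteSpace H]

/-- Repeated halving. -/
theorem halving (N : VonNeumannAlgebra H) (s : ℕ) :
    ∃ (p : H →L[ℂ] H) (f : Fin (2 ^ s) → (H →L[ℂ] H)) (Γ : Type) (_ : Fintype Γ)
      (q : Γ → (H →L[ℂ] H)), IsStarProjection p ∧ p ∈ N ∧ (∀ α, f α ∈ N) ∧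
      (∀ α β, star (f α) * f β = if α = β then p else 0) ∧ Fintype.card Γ ≤ 2 ^ s ∧
      (∀ γ, Abel N (q γ)) ∧ ∑ α, f α * star (f α) + ∑ γ, q γ = 1 := by
  induction s with
  | zero =>
    exact ⟨1, fun _ => 1, Empty, inferInstance, Empty.elim, .one _, one_mem _, fun _ => one_mem _,
      fun α β => by simp [Subsingleton.elim (α := Fin 1) α β], by simp, fun γ => γ.elim, by simp⟩
  | succ s ih =>
    obtain ⟨p, f, Γ, _, q, hp, hpN, hf, ho, hc, hq, hs⟩ := ih
    obtain ⟨w, hw, hP, h1, h2, h3, he⟩ := half N hp hpN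
    have h4 : star w * p = star w := by rw [← hp.isSelfAdjoint.star_eq, ← star_mul, h1]
    have h5 : ∀ α, star (f α) * f α = p := fun α => by rw [ho, if_pos rfl]
    have h6 : ∀ α, f α * p = f α := fun α => by
      rw [← h5 α]
      exact pi_mul (h5 α ▸ hp)
    have h7 : ∀ α β a b, star (f α * a) * (f β * b) = if α = β then star a * p * b else 0 :=
      fun α β a b => by
        rw [star_mul, mul_assoc, ← mul_assoc (star (f α)), ho, ← mul_assoc]
        split_ifs <;> simp
    have h8 : star w * w * p = star w * w := by rw [mul_assoc, h2]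
    let g : Fin (2 ^ s) ⊕ Fin (2 ^ s) → (H →L[ℂ] H) :=
      Sum.elim (fun α => f α * (star w * w)) fun α => f α * w
    have hg : ∀ a b, star (g a) * g b = if a = b then star w * w else 0 := by
      rintro (α | α) (β | β) <;> simp only [g, Sum.elim_inl, Sum.elim_inr, h7, h4, h8,
        hP.isSelfAdjoint.star_eq, Sum.inl.injEq, Sum.inr.injEq, reduceCtorEq, if_false]
      · rw [hP.isIdempotentElem.eq]
      · rw [mul_assoc, h3, mul_zero, ite_self]
      · rw [← mul_assoc, ← star_mul, h3, star_zero, zero_mul, ite_self]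
    let e : Fin (2 ^ s) ⊕ Fin (2 ^ s) ≃ Fin (2 ^ (s + 1)) :=
      Fintype.equivFinOfCardEq (by simp [pow_succ, mul_two])
    refine ⟨star w * w, fun α => g (e.symm α), Γ ⊕ Fin (2 ^ s), inferInstance,
      Sum.elim q fun α => f α * (p - star w * w - w * star w) * star (f α), hP,
      mul_mem (star_mem hw) hw, fun α => ?_, fun α β => by simp only [hg, e.symm.injective.eq_iff],
      by simp only [Fintype.card_sum, Fintype.card_fin]; omega, ?_, ?_⟩
    · beta_reduce
      rcases e.symm α with β | β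
      exacts [mul_mem (hf β) (mul_mem (star_mem hw) hw), mul_mem (hf β) hw]
    · rintro (γ | α)
      · exact hq γ
      · refine he.conj (hf α) ?_
        rw [h5, sub_mul, sub_mul, hp.isIdempotentElem.eq, h8, mul_assoc, h4]
    · rw [e.symm.sum_comp fun a => g a * star (g a), Fintype.sum_sum_type, Fintype.sum_sum_type,
        ← hs, ← add_assoc, add_right_comm, ← Finset.sum_add_distrib, ← Finset.sum_add_distrib]
      refine congrArg₂ _ (Finset.sum_congr rfl fun α _ => ?_) rfl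
      simp only [g, Sum.elim_inl, Sum.elim_inr]
      rw [star_mul (f α), star_mul (f α), hP.isSelfAdjoint.star_eq, mul_assoc (f α),
        ← mul_assoc (star w * w), hP.isIdempotentElem.eq, mul_sub, mul_sub, h6]
      noncomm_ring

theorem abel_iff_dich {N : VonNeumannAlgebra H} {u p : H →L[ℂ] H} (hu : CProj N u)
    (hp : IsStarProjection p) (hN : p ∈ N) : Abel N (u * p) ↔ ∀ x ∈ N, ∀ y ∈ N,
      u * (p * x * p * (p * y * p) - p * y * p * (p * x * p)) = 0 := by
  have h1 : ∀ a ∈ N, ∀ b, u * a * (u * b) = u * (a * b) := fun a ha b => by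
    rw [mul_assoc, ← mul_assoc a, ← (hu.2.2 a ha).eq, mul_assoc, ← mul_assoc u,
      hu.1.isIdempotentElem.eq]
  have h2 : ∀ x ∈ N, ∀ y ∈ N, u * p * x * (u * p) * (u * p * y * (u * p)) =
      u * (p * x * p * (p * y * p)) := fun x hx y hy => by
    rw [mul_assoc u p x, mul_assoc u p y, h1 _ (mul_mem hN hx), h1 _ (mul_mem hN hy),
      h1 _ (mul_mem (mul_mem hN hx) hN)]
  refine ⟨fun h x hx y hy => ?_, fun h => ⟨hu.1.mul hp (hu.2.2 p hN), mul_mem hu.2.1 hN,
    fun x hx y hy => ?_⟩⟩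
  · rw [mul_sub, ← h2 x hx y hy, ← h2 y hy x hx, (h.2.2 x hx y hy).eq, sub_self]
  · rw [Commute, SemiconjBy, h2 x hx y hy, h2 y hy x hx, ← sub_eq_zero, ← mul_sub, h x hx y hy]

theorem abel_pi_dich {N : VonNeumannAlgebra H} {q w : H →L[ℂ] H} (hq : Abel N q) (hw : w ∈ N)
    (hP : IsStarProjection (star w * w)) (h : w * q = w) : Abel N (w * star w) := by
  have h1 : q * star w = star w := by rw [← hq.1.isSelfAdjoint.star_eq, ← star_mul, h]
  have h2 : ∀ x, star w * w * x * (star w * w) = q * (star w * w * x * (star w * w)) * q :=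
    fun x => by simp only [mul_assoc, h, ← mul_assoc q, h1]
  have h3 := mul_mem (star_mem hw) hw
  have := Abel.conj (N := N) ⟨hP, h3, fun x hx y hy => by
    rw [h2 x, h2 y]
    exact hq.2.2 _ (mul_mem (mul_mem h3 hx) h3) _ (mul_mem (mul_mem h3 hy) h3)⟩ hw
    hP.isIdempotentElem.eq
  rwa [pi_mul hP] at this

theorem inf_dich {N : VonNeumannAlgebra H} {Γ : Type} {z : Γ → (H →L[ℂ] H)}
    (hz : ∀ γ, CProj N (z γ)) (S : Finset Γ) : ∃ Z, CProj N Z ∧ (∀ γ ∈ S, Z * z γ = Z) ∧
      ∀ X, (∀ γ ∈ S, z γ * X = X) → Z * X = X := by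
  classical
  induction S using Finset.induction_on with
  | empty => exact ⟨1, .one, by simp, fun X _ => one_mul X⟩
  | insert a S _ ih =>
    obtain ⟨Z, h1, h2, h3⟩ := ih
    refine ⟨Z * z a, h1.mul (hz a), fun γ hγ => ?_, fun X h => ?_⟩
    · rcases Finset.mem_insert.1 hγ with rfl | hγ
      · rw [mul_assoc, (hz γ).1.isIdempotentElem.eq]
      · rw [mul_assoc, ((hz a).2.2 _ (hz γ).2.1).eq, ← mul_assoc, h2 γ hγ]
    · rw [mul_assoc, h a (Finset.mem_insert_self _ _),
        h3 X fun γ hγ => h γ (Finset.mem_insert_of_mem hγ)]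

theorem dich (N : VonNeumannAlgebra H) (s : ℕ) :
    ∃ z, CProj N z ∧ Div N s z ∧
      ∃ (m : Type) (_ : Fintype m) (e : m → (H →L[ℂ] H)), (∀ i, Abel N (e i)) ∧
        ∑ i, e i = 1 - z := by
  obtain ⟨p, f, Γ, _, q, hp, hpN, hf, ho, hc, hq, hs⟩ := halving N s
  choose z w hz hw hP h1 h2 h3 h4 using fun γ => comp N (hq γ).1 hp (hq γ).2.1 hpN
  obtain ⟨Z, hZ, h5, h6⟩ := inf_dich hz Finset.univ
  have h7 : ∀ α, star (f α) * f α = p := fun α => by rw [ho, if_pos rfl]
  have h8 : ∀ α, f α * p = f α := fun α => by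
    rw [← h7 α]
    exact pi_mul (h7 α ▸ hp)
  have hA : Abel N ((1 - Z) * p) := (abel_iff_dich hZ.compl hp hpN).2 fun x hx y hy => by
    rw [sub_mul, one_mul, h6 _ fun γ _ => ?_, sub_self]
    have := (abel_iff_dich (hz γ).compl hp hpN).1
      (h4 γ ▸ (abel_pi_dich (hq γ) (hw γ) (hP γ) (h2 γ)).cmul (hz γ).compl) x hx y hy
    rwa [sub_mul, one_mul, sub_eq_zero, eq_comm] at this
  refine ⟨Z, hZ, ⟨p, f, Fin (2 ^ s) ⊕ Γ, inferInstance,
    Sum.elim (fun α => star (f α) * Z) fun γ => w γ * Z, hp, hpN, hf, ho,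
    by simp only [Fintype.card_sum, Fintype.card_fin]; omega, ?_, ?_, ?_⟩,
    Fin (2 ^ s) ⊕ Γ, inferInstance,
    Sum.elim (fun α => f α * ((1 - Z) * p) * star (f α)) fun γ => (1 - Z) * q γ, ?_, ?_⟩
  · rintro (α | γ)
    exacts [mul_mem (star_mem (hf α)) hZ.2.1, mul_mem (hw γ) hZ.2.1]
  · rintro (α | γ)
    · rw [Sum.elim_inl, ← mul_assoc, ← hp.isSelfAdjoint.star_eq, ← star_mul, h8]
    · rw [Sum.elim_inr, ← mul_assoc, h1]
  · have e : Z * (∑ α, f α * star (f α) + ∑ γ, q γ) * Z = Z := by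
      rw [hs, mul_one, hZ.1.isIdempotentElem.eq]
    rw [mul_add, add_mul, Finset.mul_sum, Finset.mul_sum, Finset.sum_mul, Finset.sum_mul] at e
    rw [Fintype.sum_sum_type]
    refine (congrArg₂ _ (Finset.sum_congr rfl fun α _ => ?_)
      (Finset.sum_congr rfl fun γ _ => ?_)).trans e
    · simp only [Sum.elim_inl, star_mul, star_star, hZ.1.isSelfAdjoint.star_eq, mul_assoc]
    · have : Z * q γ = Z * (star (w γ) * w γ) := by
        rw [← h5 γ (Finset.mem_univ _), mul_assoc, mul_assoc, h3]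
      simp only [Sum.elim_inr, star_mul, hZ.1.isSelfAdjoint.star_eq, this, mul_assoc]
  · rintro (α | γ)
    · exact hA.conj (hf α) (by rw [h7, mul_assoc, hp.isIdempotentElem.eq])
    · exact (hq γ).cmul hZ.compl
  · have e : (1 - Z) * (∑ α, f α * star (f α) + ∑ γ, q γ) = 1 - Z := by rw [hs, mul_one]
    rw [mul_add, Finset.mul_sum, Finset.mul_sum] at e
    rw [Fintype.sum_sum_type]
    refine (congrArg₂ _ (Finset.sum_congr rfl fun α _ => ?_) rfl).trans e
    rw [Sum.elim_inl, ← mul_assoc, ← (hZ.compl.2.2 _ (hf α)).eq, mul_assoc _ _ p, h8, mul_assoc]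

end Ulam
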