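import Pool.Agent.P.MP_3be8c7_an.EXT

open scoped ComplexOrder InnerProductSpace
open Filter Topology

noncomputable section

namespace Ulam

universe u v w

variable {H : Type v} [NormedAddCommGroup H] [InnerProductSpace ℂ H] [CompleteSpace H]

theorem eq_of_inner_dil {X K : Type*} [NormedAddCommGroup K] [InnerProductSpace ℂ K] (e : X → K)
    (hd : Dense (Submodule.span ℂ (Set.range e) : Set K)) {a b : K}
    (h : ∀ x, ⟪a, e x⟫_ℂ = ⟪b, e x⟫_ℂ) : a = b := by
  have h1 : innerSL ℂ a = innerSL ℂ b := ext_of_dense e hd fun x => by simpa using h x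
  refine ext_inner_right ℂ fun v => ?_
  have := congrArg (fun T : K →L[ℂ] ℂ => T v) h1
  simpa using this

omit [CompleteSpace H] in
theorem norm_sq_dil {S K : Type*} [Mul S] [Star S] [NormedAddCommGroup K]
    [InnerProductSpace ℂ K] (P : S → (H →L[ℂ] H)) (e : S × H → K)
    (he : ∀ p q : S × H, ⟪e p, e q⟫_ℂ = ⟪p.2, P (star p.1 * q.1) q.2⟫_ℂ)
    (m : ℕ) (c : Fin m → ℂ) (s : Fin m → S) (ξ : Fin m → H) :
    ‖∑ i, c i • e (s i, ξ i)‖ ^ 2 =
      (∑ i, ∑ j, ⟪c i • ξ i, P (star (s i) * s j) (c j • ξ j)⟫_ℂ).re := by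
  rw [@norm_sq_eq_re_inner ℂ, RCLike.re_to_complex]
  congr 1
  rw [sum_inner]
  refine Finset.sum_congr rfl fun i _ => ?_
  rw [inner_sum]
  refine Finset.sum_congr rfl fun j _ => ?_
  rw [inner_smul_left, inner_smul_right, he, map_smul, inner_smul_left, inner_smul_right]

theorem le_of_sq_dil {a b C : ℝ} (hb : 0 ≤ b) (h : a ^ 2 ≤ C * b ^ 2) :
    a ≤ Real.sqrt (max C 0) * b := by
  have h1 : a ^ 2 ≤ (Real.sqrt (max C 0) * b) ^ 2 := by
    rw [mul_pow, Real.sq_sqrt (le_max_right _ _)]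
    exact h.trans (mul_le_mul_of_nonneg_right (le_max_left _ _) (sq_nonneg _))
  exact le_trans (le_abs_self a) (abs_le_of_sq_le_sq h1 (by positivity))

theorem lift_bound_dil {S : Type*} [Monoid S] [StarMul S] {P : S → (H →L[ℂ] H)} (hP : KPos P)
    (T : H →L[ℂ] H) (hT : ∀ s, Commute T (P s)) (m : ℕ) (s : Fin m → S) (ξ : Fin m → H) :
    (∑ i, ∑ j, ⟪T (ξ i), P (star (s i) * s j) (T (ξ j))⟫_ℂ).re ≤
      ‖T‖ ^ 2 * (∑ i, ∑ j, ⟪ξ i, P (star (s i) * s j) (ξ j)⟫_ℂ).re := by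
  have hT' : ∀ a, Commute (star T) (P a) := by
    intro a
    have h1 := (hT (star a)).star_star
    rwa [hP.map_star, star_star] at h1
  set A : H →L[ℂ] H := algebraMap ℝ (H →L[ℂ] H) (‖T‖ ^ 2) - star T * T with hA
  have hA0 : 0 ≤ A := sub_nonneg.2 CStarAlgebra.star_mul_le_algebraMap_norm_sq
  have hAc : ∀ a, Commute A (P a) := fun a =>
    Commute.sub_left (Algebra.commutes _ _) ((hT' a).mul_left (hT a))
  set R : H →L[ℂ] H := CFC.sqrt A with hR
  have hRc : ∀ a, Commute R (P a) := fun a => by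
    rw [hR, CFC.sqrt_eq_cfc]
    exact (hAc a).cfc_nnreal _
  have hRs : star R = R := (IsSelfAdjoint.of_nonneg (CFC.sqrt_nonneg A)).star_eq
  have hRR : R * R = A := CFC.sqrt_mul_sqrt_self A hA0
  have key : ∀ (Q : H →L[ℂ] H) (a : S) (x y : H), Commute Q (P a) →
      ⟪Q x, P a (Q y)⟫_ℂ = ⟪x, (star Q * Q * P a) y⟫_ℂ := by
    intro Q a x y hQ
    rw [mul_assoc, hQ.eq, ContinuousLinearMap.star_eq_adjoint]
    simp only [mul_apply_eq_comp, ContinuousLinearMap.adjoint_inner_right]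
  have h0 := hP m s fun i => R (ξ i)
  have h1 : ∀ i j, ⟪R (ξ i), P (star (s i) * s j) (R (ξ j))⟫_ℂ =
      ((‖T‖ ^ 2 : ℝ) : ℂ) * ⟪ξ i, P (star (s i) * s j) (ξ j)⟫_ℂ -
        ⟪T (ξ i), P (star (s i) * s j) (T (ξ j))⟫_ℂ := by
    intro i j
    rw [key R _ _ _ (hRc _), key T _ _ _ (hT _), hRs, hRR, hA, sub_mul,
      sub_apply, inner_sub_right, ← Algebra.smul_def,
      smul_apply, ← Complex.coe_smul, inner_smul_right]
  simp only [h1, Finset.sum_sub_distrib, ← Finset.mul_sum] at h0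
  have h2 := (Complex.le_def.1 h0).1
  rw [Complex.zero_re, Complex.sub_re, Complex.re_ofReal_mul] at h2
  linarith

/-- Dilation of a positive kernel on a star-monoid, with lifts of commuting operators. -/
theorem dil {S : Type u} [Monoid S] [StarMul S] (P : S → (H →L[ℂ] H)) (hP : KPos P)
    (hb : ∀ a : S, ∃ C : ℝ, ∀ (m : ℕ) (s : Fin m → S) (ξ : Fin m → H),
      (∑ i, ∑ j, ⟪ξ i, P (star (a * s i) * (a * s j)) (ξ j)⟫_ℂ).re ≤
        C * (∑ i, ∑ j, ⟪ξ i, P (star (s i) * s j) (ξ j)⟫_ℂ).re) :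
    ∃ (K : Type (max u v)) (_ : NormedAddCommGroup K) (_ : InnerProductSpace ℂ K)
      (_ : CompleteSpace K) (σ : S →* (K →L[ℂ] K)) (W : H →L[ℂ] K),
      (∀ s, σ (star s) = star (σ s)) ∧
      (∀ s, P s = ContinuousLinearMap.adjoint W ∘L σ s ∘L W) ∧
      Dense (Submodule.span ℂ (Set.range fun p : S × H => σ p.1 (W p.2)) : Set K) ∧
      ∀ T : H →L[ℂ] H, (∀ s, Commute T (P s)) → ∃ T' : K →L[ℂ] K, (∀ s, Commute T' (σ s)) ∧
        T' ∘L W = W ∘L T ∧
        ContinuousLinearMap.adjoint W ∘L T' = T ∘L ContinuousLinearMap.adjoint W := by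
  obtain ⟨K, i1, i2, i3, e, he, hd⟩ :=
    kolm (X := S × H) (fun p q => ⟪p.2, P (star p.1 * q.1) q.2⟫_ℂ) (by
      intro m c x
      have h := hP m (fun i => (x i).1) (fun i => c i • (x i).2)
      refine h.trans_eq ?_
      refine Finset.sum_congr rfl fun i _ => Finset.sum_congr rfl fun j _ => ?_
      rw [map_smul, inner_smul_left, inner_smul_right, mul_assoc]
      rfl)
  have hn := norm_sq_dil P e he
  have hσ : ∀ a : S, ∃ T : K →L[ℂ] K, ∀ x : S × H, T (e x) = e (a * x.1, x.2) := by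
    intro a
    obtain ⟨C, hC⟩ := hb a
    obtain ⟨T, -, hT⟩ := exists_ext e (fun x : S × H => e (a * x.1, x.2)) hd
      (Real.sqrt_nonneg (max C 0)) (by
        intro m c x
        refine le_of_sq_dil (norm_nonneg _) ?_
        rw [hn m c (fun i => a * (x i).1) (fun i => (x i).2),
          hn m c (fun i => (x i).1) (fun i => (x i).2)]
        exact hC m _ _)
    exact ⟨T, hT⟩
  choose σ₀ hσ₀ using hσ
  let σ : S →* (K →L[ℂ] K) :=
    { toFun := σ₀
      map_one' := ext_of_dense e hd fun x => by rw [hσ₀, one_mul]; rfl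
      map_mul' := fun a b => ext_of_dense e hd fun x => by
        rw [mul_apply_eq_comp, hσ₀, hσ₀, hσ₀, mul_assoc] }
  have hσ : ∀ (a : S) (x : S × H), σ a (e x) = e (a * x.1, x.2) := hσ₀
  have hadj : ∀ s, σ (star s) = star (σ s) := by
    intro a
    refine ext_of_dense e hd fun x => eq_of_inner_dil e hd fun y => ?_
    rw [ContinuousLinearMap.star_eq_adjoint, ContinuousLinearMap.adjoint_inner_left, hσ, hσ,
      he, he]
    simp only [star_mul, star_star, mul_assoc]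
  let W₀ : H →ₗ[ℂ] K :=
    { toFun := fun ξ => e (1, ξ)
      map_add' := fun ξ η => eq_of_inner_dil e hd fun y => by
        rw [inner_add_left, he, he, he, inner_add_left]
      map_smul' := fun c ξ => eq_of_inner_dil e hd fun y => by
        rw [RingHom.id_apply, inner_smul_left, he, he, inner_smul_left] }
  have hW₀ : ∀ ξ, ‖W₀ ξ‖ ≤ Real.sqrt (max ‖P 1‖ 0) * ‖ξ‖ := by
    intro ξ
    refine le_of_sq_dil (norm_nonneg _) ?_
    change ‖e (1, ξ)‖ ^ 2 ≤ _
    rw [@norm_sq_eq_re_inner ℂ, he, star_one, one_mul]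
    refine (RCLike.re_le_norm _).trans ((norm_inner_le_norm _ _).trans ?_)
    have := (P 1).le_opNorm ξ
    calc ‖ξ‖ * ‖P 1 ξ‖ ≤ ‖ξ‖ * (‖P 1‖ * ‖ξ‖) := mul_le_mul_of_nonneg_left this (norm_nonneg _)
      _ = _ := by ring
  let W : H →L[ℂ] K := W₀.mkContinuous _ hW₀
  have hW : ∀ ξ, W ξ = e (1, ξ) := fun _ => rfl
  have hWa : ∀ x : S × H, ContinuousLinearMap.adjoint W (e x) = P x.1 x.2 := by
    intro x
    refine ext_inner_left ℂ fun η => ?_
    rw [ContinuousLinearMap.adjoint_inner_right, hW, he, star_one, one_mul]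
  refine ⟨K, i1, i2, i3, σ, W, hadj, fun s => ?_, ?_, fun T hT => ?_⟩
  · ext ξ
    rw [ContinuousLinearMap.comp_apply, ContinuousLinearMap.comp_apply, hW, hσ, hWa, mul_one]
  · have : (fun p : S × H => σ p.1 (W p.2)) = e := by
      funext p
      rw [hW, hσ, mul_one]
    rw [this]
    exact hd
  · obtain ⟨T', -, hT'⟩ := exists_ext e (fun x : S × H => e (x.1, T x.2)) hd
      (Real.sqrt_nonneg (max (‖T‖ ^ 2) 0)) (by
        intro m c x
        refine le_of_sq_dil (norm_nonneg _) ?_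
        rw [hn m c (fun i => (x i).1) (fun i => T (x i).2),
          hn m c (fun i => (x i).1) (fun i => (x i).2)]
        simp only [← map_smul T]
        exact lift_bound_dil hP T hT m _ _)
    refine ⟨T', fun s => ?_, ?_, ?_⟩
    · refine ext_of_dense e hd fun x => ?_
      rw [mul_apply_eq_comp, mul_apply_eq_comp, hσ, hT', hT', hσ]
    · ext ξ
      rw [ContinuousLinearMap.comp_apply, ContinuousLinearMap.comp_apply, hW, hW, hT']
    · refine ext_of_dense e hd fun x => ?_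
      rw [ContinuousLinearMap.comp_apply, ContinuousLinearMap.comp_apply, hT', hWa, hWa]
      exact (congrArg (fun Q : H →L[ℂ] H => Q x.2) (hT x.1).eq).symm

end Ulam
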