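import Pool.Agent.P.MP_3be8c7_an.ULIM
import Pool.Agent.P.MP_3be8c7_an.SPEC

open scoped ComplexOrder InnerProductSpace
open Filter Topology

noncomputable section

namespace Ulam

universe u v w

variable {H : Type v} [NormedAddCommGroup H] [InnerProductSpace ℂ H] [CompleteSpace H]

/-- Averages of unitary conjugates. -/
def orb_dix (N : VonNeumannAlgebra H) {ι : Type*} (y : ι → (H →L[ℂ] H)) :
    Set (ι → (H →L[ℂ] H)) :=
  {A | ∃ (R : Type) (_ : Fintype R) (_ : Nonempty R) (u : R → (H →L[ℂ] H)),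
    (∀ ρ, u ρ ∈ N) ∧ (∀ ρ, u ρ ∈ unitary (H →L[ℂ] H)) ∧
    ∀ i, A i = av fun ρ => u ρ * y i * star (u ρ)}

section
variable {N : VonNeumannAlgebra H} {ι : Type*} {y A A' : ι → (H →L[ℂ] H)}

theorem unit_norm_dix {u : H →L[ℂ] H} (hu : u ∈ unitary (H →L[ℂ] H)) : ‖u‖ ≤ 1 :=
  pi_norm_le (by rw [hu.1]; exact IsStarProjection.one _)

theorem mem_dix (hy : ∀ i, y i ∈ N) (h : A ∈ orb_dix N y) (i : ι) : A i ∈ N ∧ ‖A i‖ ≤ ‖y i‖ := by
  obtain ⟨R, _, _, u, h1, h2, h3⟩ := h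
  rw [h3 i]
  refine ⟨av_mem N _ fun ρ => mul_mem (mul_mem (h1 ρ) (hy i)) (star_mem (h1 ρ)),
    norm_av_le_of_le _ (norm_nonneg _) fun ρ => ?_⟩
  have := unit_norm_dix (h2 ρ)
  calc _ ≤ ‖u ρ‖ * ‖y i‖ * ‖star (u ρ)‖ := norm_mul₃_le
    _ ≤ 1 * ‖y i‖ * 1 := by rw [norm_star]; gcongr
    _ = _ := by ring

theorem mid_dix (h : A ∈ orb_dix N y) (h' : A' ∈ orb_dix N y) :
    (fun i => (2 : ℝ)⁻¹ • (A i + A' i)) ∈ orb_dix N y := by
  obtain ⟨R, _, _, u, h1, h2, h3⟩ := h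
  obtain ⟨R', _, _, u', h1', h2', h3'⟩ := h'
  refine ⟨(R × R') ⊕ (R × R'), inferInstance, inferInstance,
    Sum.elim (fun p => u p.1) fun p => u' p.2, ?_, ?_, fun i => ?_⟩
  · rintro (p | p)
    exacts [h1 _, h1' _]
  · rintro (p | p)
    exacts [h2 _, h2' _]
  · simp only
    rw [h3 i, h3' i, ← av_mid]
    congr 1
    funext p
    cases p <;> rfl

theorem conj_dix (h : A ∈ orb_dix N y) {w : H →L[ℂ] H} (hw : w ∈ N)
    (hw' : w ∈ unitary (H →L[ℂ] H)) : (fun i => w * A i * star w) ∈ orb_dix N y := by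
  obtain ⟨R, _, _, u, h1, h2, h3⟩ := h
  refine ⟨R, inferInstance, inferInstance, fun ρ => w * u ρ, fun ρ => mul_mem hw (h1 ρ),
    fun ρ => mul_mem hw' (h2 ρ), fun i => ?_⟩
  simp only
  rw [h3 i, mul_av, av_mul]
  simp only [star_mul, mul_assoc]

theorem sep_dix {ξ : H} (hξ : TrVec N ξ) : ∃ z ∈ N, (∀ x ∈ N, Commute z x) ∧ z ξ = ξ ∧
    ∀ Y ∈ N, Y ξ = 0 → Y * z = 0 := by
  obtain ⟨z, -, h1, h2, h3, -⟩ :=
    exists_proj {s : H | ∃ x ∈ N, ∃ x' ∈ N.commutant, s = x (x' ξ)}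
  refine ⟨z, vn_mem_of_commute N fun T hT => (h3 T ?_ ?_).symm, fun x hx => h3 x ?_ ?_,
    h1 ξ ⟨1, one_mem _, 1, one_mem _, rfl⟩, fun Y hY h0 => h2 Y ?_⟩
  · rintro _ ⟨x, hx, x', hx', rfl⟩
    exact h1 _ ⟨x, hx, T * x', mul_mem hT hx', DFunLike.congr_fun (vn_commute N hx hT).eq (x' ξ)⟩
  · rintro _ ⟨x, hx, x', hx', rfl⟩
    exact h1 _ ⟨x, hx, star T * x', mul_mem (star_mem hT) hx',
      DFunLike.congr_fun (vn_commute N hx (star_mem hT)).eq (x' ξ)⟩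
  · rintro _ ⟨x₁, hx₁, x', hx', rfl⟩
    exact h1 _ ⟨x * x₁, mul_mem hx hx₁, x', hx', rfl⟩
  · rintro _ ⟨x₁, hx₁, x', hx', rfl⟩
    exact h1 _ ⟨star x * x₁, mul_mem (star_mem hx) hx₁, x', hx', rfl⟩
  · rintro _ ⟨x, hx, x', hx', rfl⟩
    have e1 : (Y * x) ξ = 0 := norm_le_zero_iff.1 (by simpa [h0] using hξ.norm_mul_le hY hx)
    have e2 : (x' * (Y * x)) ξ = (Y * x * x') ξ :=
      DFunLike.congr_fun (vn_commute N (mul_mem hY hx) hx').eq ξ
    refine e2.symm.trans ?_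
    change x' ((Y * x) ξ) = 0
    rw [e1, map_zero]

end

theorem dix (N : VonNeumannAlgebra H) {ξ : H} (hξ : TrVec N ξ) {ι : Type*} [Fintype ι]
    (y : ι → (H →L[ℂ] H)) (hy : ∀ i, y i ∈ N) :
    ∃ h : ι → (H →L[ℂ] H), (∀ i, h i ∈ N) ∧ (∀ i, ∀ x ∈ N, Commute (h i) x) ∧
      ∀ ε : ℝ, 0 < ε → ∃ (R : Type) (_ : Fintype R) (_ : Nonempty R) (u : R → (H →L[ℂ] H)),
        (∀ ρ, u ρ ∈ N) ∧ (∀ ρ, u ρ ∈ unitary (H →L[ℂ] H)) ∧
        ∀ i, ‖(av (fun ρ => u ρ * y i * star (u ρ)) - h i) ξ‖ ≤ ε := by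
  let val : (ι → (H →L[ℂ] H)) → ℝ := fun A => ∑ i, ‖A i ξ‖ ^ 2
  have hb : BddBelow (val '' orb_dix N y) := ⟨0, by
    rintro _ ⟨A, -, rfl⟩
    positivity⟩
  have hne : (val '' orb_dix N y).Nonempty := ⟨_, fun i => av fun _ : Unit => 1 * y i * star 1,
    ⟨Unit, inferInstance, inferInstance, fun _ => 1, fun _ => one_mem _, fun _ => one_mem _,
      fun _ => rfl⟩, rfl⟩
  obtain ⟨s, s1, s2, s3⟩ := exists_seq_tendsto_sInf hne hb
  choose A hA hAs using s3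
  set m := sInf (val '' orb_dix N y)
  have par : ∀ B ∈ orb_dix N y, ∀ B' ∈ orb_dix N y, ∀ t, val B ≤ t → val B' ≤ t → ∀ i,
      ‖B i ξ - B' i ξ‖ ≤ √(4 * (t - m)) := by
    intro B hB B' hB' t h1 h2 i
    have h3 : m ≤ ∑ i, ‖((2 : ℝ)⁻¹ • (B i + B' i)) ξ‖ ^ 2 := csInf_le hb ⟨_, mid_dix hB hB', rfl⟩
    have h4 : ∑ i, ‖B i ξ - B' i ξ‖ ^ 2 + 4 * ∑ i, ‖((2 : ℝ)⁻¹ • (B i + B' i)) ξ‖ ^ 2 =
        2 * val B + 2 * val B' := by
      simp only [val, Finset.mul_sum, ← Finset.sum_add_distrib]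
      refine Finset.sum_congr rfl fun i _ => ?_
      have := parallelogram_law_with_norm ℂ (B i ξ) (B' i ξ)
      change _ + 4 * ‖(2 : ℝ)⁻¹ • (B i ξ + B' i ξ)‖ ^ 2 = _
      rw [norm_smul, norm_inv, Real.norm_two]
      linarith
    have h5 : ‖B i ξ - B' i ξ‖ ^ 2 ≤ ∑ i, ‖B i ξ - B' i ξ‖ ^ 2 :=
      Finset.single_le_sum (f := fun i => ‖B i ξ - B' i ξ‖ ^ 2) (fun _ _ => by positivity)
        (Finset.mem_univ i)
    exact Real.le_sqrt_of_sq_le (by linarith)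
  have hlim : Tendsto (fun n => √(4 * (s n - m))) atTop (𝓝 0) := by
    simpa using ((s2.sub_const m).const_mul 4).sqrt
  have hc : ∀ i, ∃ h' ∈ N, Tendsto (fun n => A n i ξ) atTop (𝓝 (h' ξ)) := fun i => by
    obtain ⟨ζ, hζ⟩ := cauchySeq_tendsto_of_complete (cauchySeq_of_le_tendsto_0
      (s := fun n => A n i ξ) _ (fun n k M hn hk => by
        rw [dist_eq_norm]
        exact par _ (hA n) _ (hA k) (s M) ((hAs n).trans_le (s1 hn)) ((hAs k).trans_le (s1 hk)) i)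
      hlim)
    obtain ⟨S, -, hS⟩ := ulim (hyperfilter ℕ) (fun n => A n i)
      (Eventually.of_forall fun n => (mem_dix hy (hA n) i).2)
    refine ⟨S, hS.mem N (Eventually.of_forall fun n => (mem_dix hy (hA n) i).1), ?_⟩
    rwa [hS.apply_eq (hζ.mono_left Nat.hyperfilter_le_atTop)]
  choose h' g1 g2 using hc
  have g3 : ∀ i, Tendsto (fun n => ‖(A n i - h' i) ξ‖) atTop (𝓝 0) := fun i =>
    tendsto_iff_norm_sub_tendsto_zero.1 (g2 i)
  obtain ⟨z, z1, z2, z3, z4⟩ := sep_dix hξ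
  refine ⟨fun i => h' i * z, fun i => mul_mem (g1 i) z1,
    fun i => vn_commute_of_unitary N fun w hw hw' => ?_, fun ε hε => ?_⟩
  · have e1 : (w * h' i * star w - h' i) ξ = 0 := by
      refine norm_le_zero_iff.1 (ge_of_tendsto' (by simpa using ((g3 i).add hlim).add (g3 i))
        fun n => ?_)
      have a1 := hξ.norm_conj (sub_mem (mem_dix hy (hA n) i).1 (g1 i)) hw hw'
      have a2 := par _ (conj_dix (hA n) hw hw') _ (hA n) (s n) (le_of_eq (by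
        rw [← hAs n]
        exact Finset.sum_congr rfl fun i _ => by
          rw [hξ.norm_conj (mem_dix hy (hA n) i).1 hw hw'])) (hAs n).le i
      have a3 : (w * h' i * star w - h' i) ξ = -(w * (A n i - h' i) * star w) ξ +
          ((w * A n i * star w) ξ - A n i ξ) + (A n i - h' i) ξ := by
        simp only [mul_sub, sub_mul, sub_apply]
        abel
      have a4 := norm_add₃_le (a := -(w * (A n i - h' i) * star w) ξ)
        (b := (w * A n i * star w) ξ - A n i ξ) (c := (A n i - h' i) ξ)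
      rw [← a3, norm_neg, a1] at a4
      exact a4.trans (by simpa using a2)
    have e2 := z4 _ (sub_mem (mul_mem (mul_mem hw (g1 i)) (star_mem hw)) (g1 i)) e1
    rw [sub_mul, sub_eq_zero] at e2
    change h' i * z * w = w * (h' i * z)
    rw [← e2, mul_assoc, (z2 w hw).eq, ← mul_assoc, mul_assoc (w * h' i), hw'.1, mul_one, mul_assoc,
      e2]
  · obtain ⟨n, hn⟩ := (eventually_all.2 fun i => (g3 i).eventually (ge_mem_nhds hε)).exists
    obtain ⟨R, _, _, u, h1, h2, h3⟩ := hA n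
    refine ⟨R, inferInstance, inferInstance, u, h1, h2, fun i => ?_⟩
    rw [← h3 i]
    change ‖A n i ξ - h' i (z ξ)‖ ≤ ε
    rw [z3]
    exact hn i

end Ulam
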