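import Mathlib

/-!
# Definitions for the Ulam stability statement
-/

open scoped CStarAlgebra ComplexOrder

namespace Ulam

/-- `φ` is an `ε`-star-homomorphism: it maps the unit ball into the unit ball and is additive,
multiplicative, star-preserving and homogeneous up to `ε` on the unit ball. -/
structure EpsHom {A B : Type*} [NonUnitalCStarAlgebra A] [NonUnitalCStarAlgebra B]
    (φ : A → B) (ε : ℝ) : Prop where
  ball : ∀ a, ‖a‖ ≤ 1 → ‖φ a‖ ≤ 1
  add : ∀ a b, ‖a‖ ≤ 1 → ‖b‖ ≤ 1 → ‖φ (a + b) - φ a - φ b‖ ≤ ε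
  mul : ∀ a b, ‖a‖ ≤ 1 → ‖b‖ ≤ 1 → ‖φ (a * b) - φ a * φ b‖ ≤ ε
  star : ∀ a, ‖a‖ ≤ 1 → ‖φ (star a) - star (φ a)‖ ≤ ε
  smul : ∀ (c : ℂ) a, ‖c‖ ≤ 1 → ‖a‖ ≤ 1 → ‖φ (c • a) - c • φ a‖ ≤ ε

/-- The identity map of `A` factors through `B`, up to `η` on the finite set `F`, by completely
positive contractions. -/
def FactorsThrough {A : Type*} [NonUnitalCStarAlgebra A] [PartialOrder A] [StarOrderedRing A]
    (B : Type*) [NonUnitalCStarAlgebra B] [PartialOrder B] [StarOrderedRing B]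
    (F : Finset A) (η : ℝ) : Prop :=
  ∃ (θ : A →CP B) (S : B →CP A),
    (∀ a, ‖θ a‖ ≤ ‖a‖) ∧ (∀ x, ‖S x‖ ≤ ‖x‖) ∧ ∀ a ∈ F, ‖S (θ a) - a‖ ≤ η

/-- `A` is nuclear: the identity map factors approximately, on every finite set, through a matrix
algebra `M_n(ℂ)` by completely positive contractions. -/
def IsNuclear (A : Type*) [NonUnitalCStarAlgebra A] [PartialOrder A] [StarOrderedRing A] : Prop :=
  ∀ (F : Finset A) (η : ℝ), 0 < η → ∃ n : ℕ, FactorsThrough (CStarMatrix (Fin n) (Fin n) ℂ) F η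

/-- `D` is hereditary in `A`: `0 ≤ x ≤ d` with `d ∈ D` implies `x ∈ D`. -/
def IsHereditary {A : Type*} [NonUnitalCStarAlgebra A] [PartialOrder A]
    (D : NonUnitalStarSubalgebra ℂ A) : Prop :=
  ∀ x d : A, 0 ≤ x → x ≤ d → d ∈ D → x ∈ D

/-- Every `ε`-star-homomorphism from `D` to `B` with values in `M` is within `f ε`, on the unit
ball, of a star-homomorphism from `D` to `B` with values in `M`. -/
def StableInto (f : ℝ → ℝ) (D : Type*) [NonUnitalCStarAlgebra D]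
    {B : Type*} [NonUnitalCStarAlgebra B] (M : Set B) : Prop :=
  ∀ ε : ℝ, 0 ≤ ε → ∀ φ : D → B, (∀ a, φ a ∈ M) → EpsHom φ ε →
    ∃ ψ : D →⋆ₙₐ[ℂ] B, (∀ a, ψ a ∈ M) ∧ ∀ a, ‖a‖ ≤ 1 → ‖φ a - ψ a‖ ≤ f ε

/-- `f` is a modulus of Ulam stability of the C⋆-algebra `D` with respect to von Neumann
algebras. -/
def StableWith.{u, v} (f : ℝ → ℝ) (D : Type u) [NonUnitalCStarAlgebra D] : Prop :=
  ∀ (H : Type v) [NormedAddCommGroup H] [InnerProductSpace ℂ H] [CompleteSpace H]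
    (M : VonNeumannAlgebra H), StableInto f D (M : Set (H →L[ℂ] H))

end Ulam
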