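import Pool.Agent.P.MP_3be8c7_an.Int

open scoped ComplexOrder InnerProductSpace
open Filter Topology

noncomputable section

namespace Ulam

universe u v w

/-- Two-dimensional discrete Fourier transform. -/
def ft_expd {n : ℕ} [NeZero n] (f : ZMod n × ZMod n → ℂ) (p : ZMod n × ZMod n) : ℂ :=
  ∑ l, f l * ZMod.stdAddChar (p.1 * l.1 + p.2 * l.2)

lemma orth_expd {n : ℕ} [NeZero n] (d : ZMod n × ZMod n) :
    ∑ p : ZMod n × ZMod n, (ZMod.stdAddChar (p.1 * d.1 + p.2 * d.2) : ℂ) =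
      if d = 0 then ((n : ℂ)) ^ 2 else 0 := by
  classical
  have h := fun b : ZMod n => AddChar.sum_mulShift b (ZMod.isPrimitive_stdAddChar n)
  rw [Fintype.sum_prod_type]
  simp only [AddChar.map_add_eq_mul]
  rw [← Finset.sum_mul_sum, h, h, ZMod.card]
  by_cases h1 : d.1 = 0
  · by_cases h2 : d.2 = 0
    · have : d = 0 := Prod.ext h1 h2
      simp [this, sq]
    · have : d ≠ 0 := fun h => h2 (by rw [h]; rfl)
      simp [h2, this]
  · have : d ≠ 0 := fun h => h1 (by rw [h]; rfl)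
    simp [h1, this]

lemma conj_expd {n : ℕ} [NeZero n] (x : ZMod n) :
    (starRingEnd ℂ) (ZMod.stdAddChar x) = ZMod.stdAddChar (-x) := by
  rw [AddChar.map_neg_eq_inv, ZMod.stdAddChar_apply, ← Circle.coe_inv_eq_conj, Circle.coe_inv]

lemma pars_expd {n : ℕ} [NeZero n] (f : ZMod n × ZMod n → ℂ) :
    ∑ p, ‖ft_expd f p‖ ^ 2 = (n : ℝ) ^ 2 * ∑ l, ‖f l‖ ^ 2 := by
  classical
  have key : ∑ p, ft_expd f p * (starRingEnd ℂ) (ft_expd f p) =
      (n : ℂ) ^ 2 * ∑ l, f l * (starRingEnd ℂ) (f l) := by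
    have h1 : ∀ p, ft_expd f p * (starRingEnd ℂ) (ft_expd f p) =
        ∑ l, ∑ m, f l * (starRingEnd ℂ) (f m) *
          ZMod.stdAddChar (p.1 * (l - m).1 + p.2 * (l - m).2) := by
      intro p
      unfold ft_expd
      rw [map_sum, Finset.sum_mul_sum]
      refine Finset.sum_congr rfl fun l _ => Finset.sum_congr rfl fun m _ => ?_
      rw [map_mul, conj_expd]
      have : p.1 * (l - m).1 + p.2 * (l - m).2 =
          (p.1 * l.1 + p.2 * l.2) + -(p.1 * m.1 + p.2 * m.2) := by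
        simp only [Prod.fst_sub, Prod.snd_sub]; ring
      rw [this, AddChar.map_add_eq_mul _ (p.1 * l.1 + p.2 * l.2)]
      ring
    simp only [h1]
    rw [Finset.sum_comm, Finset.mul_sum]
    refine Finset.sum_congr rfl fun l _ => ?_
    rw [Finset.sum_comm]
    simp only [← Finset.mul_sum, orth_expd, sub_eq_zero]
    simp only [mul_ite, mul_zero, Finset.sum_ite_eq, Finset.mem_univ, if_true]
    ring
  simp only [Complex.mul_conj, Complex.normSq_eq_norm_sq] at key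
  exact_mod_cast key

lemma ftsub_expd {n : ℕ} [NeZero n] (f g : ZMod n × ZMod n → ℂ) (p : ZMod n × ZMod n) :
    ft_expd (fun l => f l - g l) p = ft_expd f p - ft_expd g p := by
  unfold ft_expd
  rw [← Finset.sum_sub_distrib]
  exact Finset.sum_congr rfl fun l _ => by ring

/-- First shear. -/
def shA_expd (n : ℕ) : Equiv.Perm (ZMod n × ZMod n) where
  toFun l := (l.1 + l.2, l.2)
  invFun l := (l.1 - l.2, l.2)
  left_inv l := by simp
  right_inv l := by simp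

/-- Second shear. -/
def shB_expd (n : ℕ) : Equiv.Perm (ZMod n × ZMod n) where
  toFun l := (l.1, l.1 + l.2)
  invFun l := (l.1, l.2 - l.1)
  left_inv l := by simp
  right_inv l := by simp

lemma fttr_expd {n : ℕ} [NeZero n] (f : ZMod n × ZMod n → ℂ) (t p : ZMod n × ZMod n) :
    ft_expd (fun l => f (Equiv.addRight t l)) p =
      ZMod.stdAddChar (-(p.1 * t.1 + p.2 * t.2)) * ft_expd f p := by
  unfold ft_expd
  rw [Finset.mul_sum]
  refine Fintype.sum_equiv (Equiv.addRight t) _ _ fun l => ?_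
  have : p.1 * l.1 + p.2 * l.2 = -(p.1 * t.1 + p.2 * t.2) +
      (p.1 * (Equiv.addRight t l).1 + p.2 * (Equiv.addRight t l).2) := by
    simp only [Equiv.coe_addRight, Prod.fst_add, Prod.snd_add]; ring
  rw [this, AddChar.map_add_eq_mul _ (-(p.1 * t.1 + p.2 * t.2))]
  ring

lemma ftA_expd {n : ℕ} [NeZero n] (f : ZMod n × ZMod n → ℂ) (p : ZMod n × ZMod n) :
    ft_expd (fun l => f (shA_expd n l)) p = ft_expd f ((shB_expd n).symm p) := by
  unfold ft_expd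
  refine Fintype.sum_equiv (shA_expd n) _ _ fun l => ?_
  congr 2
  simp only [shA_expd, shB_expd, Equiv.coe_fn_mk, Equiv.coe_fn_symm_mk]
  ring

lemma ftB_expd {n : ℕ} [NeZero n] (f : ZMod n × ZMod n → ℂ) (p : ZMod n × ZMod n) :
    ft_expd (fun l => f (shB_expd n l)) p = ft_expd f ((shA_expd n).symm p) := by
  unfold ft_expd
  refine Fintype.sum_equiv (shB_expd n) _ _ fun l => ?_
  congr 2
  simp only [shA_expd, shB_expd, Equiv.coe_fn_mk, Equiv.coe_fn_symm_mk]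
  ring

lemma sq_expd (x y : ℂ) : ‖x‖ ^ 2 ≤ 3 / 2 * ‖y‖ ^ 2 + 3 * ‖x - y‖ ^ 2 := by
  have h : ‖x‖ ≤ ‖y‖ + ‖x - y‖ := by
    have := norm_add_le y (x - y)
    simpa using this
  have h2 : ‖x‖ ^ 2 ≤ (‖y‖ + ‖x - y‖) ^ 2 := pow_le_pow_left₀ (norm_nonneg _) h 2
  nlinarith [sq_nonneg (‖y‖ - 2 * ‖x - y‖)]

lemma ping_expd {G : Type*} [Fintype G] [DecidableEq G] (u : G → ℂ) (W T : Finset G)
    (g₁ g₂ : Equiv.Perm G) (h₁ : ∀ p ∈ W, g₁ p ∈ W ∪ T) (h₂ : ∀ p ∈ W, g₂ p ∈ W ∪ T)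
    (h₃ : ∀ p ∈ W, ∀ q ∈ W, g₁ p ≠ g₂ q) :
    ∑ p ∈ W, ‖u p‖ ^ 2 ≤ 3 * ∑ p ∈ T, ‖u p‖ ^ 2 +
      6 * (∑ p, ‖u p - u (g₁ p)‖ ^ 2 + ∑ p, ‖u p - u (g₂ p)‖ ^ 2) := by
  have hg : ∀ g : Equiv.Perm G, ∑ p ∈ W, ‖u p‖ ^ 2 ≤
      3 / 2 * ∑ p ∈ W.map g.toEmbedding, ‖u p‖ ^ 2 + 3 * ∑ p, ‖u p - u (g p)‖ ^ 2 := by
    intro g
    have a1 : ∑ p ∈ W, ‖u p - u (g p)‖ ^ 2 ≤ ∑ p, ‖u p - u (g p)‖ ^ 2 :=
      Finset.sum_le_sum_of_subset_of_nonneg (Finset.subset_univ _) fun _ _ _ => by positivity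
    have a2 : ∑ p ∈ W, ‖u p‖ ^ 2 ≤
        ∑ p ∈ W, (3 / 2 * ‖u (g p)‖ ^ 2 + 3 * ‖u p - u (g p)‖ ^ 2) :=
      Finset.sum_le_sum fun p _ => sq_expd _ _
    rw [Finset.sum_add_distrib, ← Finset.mul_sum, ← Finset.mul_sum] at a2
    rw [Finset.sum_map]
    simp only [Equiv.coe_toEmbedding]
    linarith
  have hd : Disjoint (W.map g₁.toEmbedding) (W.map g₂.toEmbedding) := by
    rw [Finset.disjoint_left]
    intro x hx hy
    obtain ⟨p, hp, rfl⟩ := Finset.mem_map.1 hx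
    obtain ⟨q, hq, e⟩ := Finset.mem_map.1 hy
    exact h₃ p hp q hq e.symm
  have hs : W.map g₁.toEmbedding ∪ W.map g₂.toEmbedding ⊆ W ∪ T := by
    intro x hx
    rcases Finset.mem_union.1 hx with hx | hx
    · obtain ⟨p, hp, rfl⟩ := Finset.mem_map.1 hx
      exact h₁ p hp
    · obtain ⟨p, hp, rfl⟩ := Finset.mem_map.1 hx
      exact h₂ p hp
  have b1 : ∑ p ∈ W.map g₁.toEmbedding ∪ W.map g₂.toEmbedding, ‖u p‖ ^ 2 ≤
      ∑ p ∈ W ∪ T, ‖u p‖ ^ 2 :=
    Finset.sum_le_sum_of_subset_of_nonneg hs fun _ _ _ => by positivity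
  rw [Finset.sum_union hd] at b1
  have b2 : ∑ p ∈ W ∪ T, ‖u p‖ ^ 2 ≤ ∑ p ∈ W, ‖u p‖ ^ 2 + ∑ p ∈ T, ‖u p‖ ^ 2 := by
    rw [← Finset.sum_union_inter]
    have : 0 ≤ ∑ p ∈ W ∩ T, ‖u p‖ ^ 2 := Finset.sum_nonneg fun _ _ => by positivity
    linarith
  have c1 := hg g₁
  have c2 := hg g₂
  linarith

lemma vadd_expd {n : ℕ} [NeZero n] (x y : ZMod n) (hx : 4 * |x.valMinAbs| < n)
    (hy : 4 * |y.valMinAbs| < n) : (x + y).valMinAbs = x.valMinAbs + y.valMinAbs := by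
  rw [ZMod.valMinAbs_spec]
  refine ⟨by simp, ?_, ?_⟩
  · have := neg_abs_le x.valMinAbs
    have := neg_abs_le y.valMinAbs
    omega
  · have := le_abs_self x.valMinAbs
    have := le_abs_self y.valMinAbs
    omega

lemma vsub_expd {n : ℕ} [NeZero n] (x y : ZMod n) (hx : 4 * |x.valMinAbs| < n)
    (hy : 4 * |y.valMinAbs| < n) : (x - y).valMinAbs = x.valMinAbs - y.valMinAbs := by
  rw [ZMod.valMinAbs_spec]
  refine ⟨by simp, ?_, ?_⟩
  · have := neg_abs_le x.valMinAbs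
    have := le_abs_self y.valMinAbs
    omega
  · have := le_abs_self x.valMinAbs
    have := neg_abs_le y.valMinAbs
    omega

lemma far_expd {n : ℕ} [NeZero n] (x : ZMod n) (hx : ¬ 4 * |x.valMinAbs| < n) :
    1 ≤ ‖(1 : ℂ) - ZMod.stdAddChar (-x)‖ := by
  have hn : (0 : ℝ) < n := by exact_mod_cast Nat.pos_of_ne_zero (NeZero.ne n)
  have e1 : (ZMod.stdAddChar (-x) : ℂ) =
      Complex.exp (((2 * Real.pi * ((-x.valMinAbs : ℤ) : ℝ) / n : ℝ) : ℂ) * Complex.I) := by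
    have : -x = ((-x.valMinAbs : ℤ) : ZMod n) := by simp
    rw [this, ZMod.stdAddChar_coe]
    congr 1
    push_cast
    ring
  have h2 : 2 * |x.valMinAbs| ≤ n := by
    have := ZMod.valMinAbs_mem_Ioc x
    rcases this with ⟨a, b⟩
    rcases abs_cases x.valMinAbs with h | h <;> omega
  have h3 : (n : ℝ) ≤ 4 * |(x.valMinAbs : ℝ)| := by exact_mod_cast not_lt.1 hx
  have h4 : 2 * |(x.valMinAbs : ℝ)| ≤ n := by exact_mod_cast h2
  have hc : Real.cos (2 * Real.pi * ((-x.valMinAbs : ℤ) : ℝ) / n) ≤ 0 := by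
    rw [← Real.cos_abs]
    have e2 : |2 * Real.pi * ((-x.valMinAbs : ℤ) : ℝ) / n| =
        2 * Real.pi * |(x.valMinAbs : ℝ)| / n := by
      rw [abs_div, abs_mul, abs_of_pos hn, abs_of_pos (by positivity : 0 < 2 * Real.pi)]
      simp
    rw [e2]
    apply Real.cos_nonpos_of_pi_div_two_le_of_le
    · rw [le_div_iff₀ hn]
      nlinarith [Real.pi_pos]
    · rw [div_le_iff₀ hn]
      nlinarith [Real.pi_pos]
  have h5 := Complex.re_le_norm ((1 : ℂ) - ZMod.stdAddChar (-x))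
  rw [Complex.sub_re, Complex.one_re] at h5
  have h6 : (ZMod.stdAddChar (-x) : ℂ).re ≤ 0 := by
    rw [e1, Complex.exp_ofReal_mul_I_re]
    exact hc
  linarith

lemma comb_expd {n : ℕ} [NeZero n] (u : ZMod n × ZMod n → ℂ) (h0 : u 0 = 0) :
    ∑ p, ‖u p‖ ^ 2 ≤
      7 * ∑ p ∈ Finset.univ.filter (fun p : ZMod n × ZMod n =>
        ¬ (4 * |p.1.valMinAbs| < n ∧ 4 * |p.2.valMinAbs| < n)), ‖u p‖ ^ 2 +
      12 * (∑ p, ‖u p - u ((shA_expd n).symm p)‖ ^ 2 +
        ∑ p, ‖u p - u ((shB_expd n).symm p)‖ ^ 2) := by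
  classical
  set T := Finset.univ.filter (fun p : ZMod n × ZMod n =>
        ¬ (4 * |p.1.valMinAbs| < n ∧ 4 * |p.2.valMinAbs| < n)) with hT
  set W := Finset.univ.filter (fun p : ZMod n × ZMod n =>
        (4 * |p.1.valMinAbs| < n ∧ 4 * |p.2.valMinAbs| < n) ∧
        ((0 < p.1.valMinAbs ∧ 0 ≤ p.2.valMinAbs) ∨ (p.1.valMinAbs < 0 ∧ p.2.valMinAbs ≤ 0)))
    with hW
  set V := Finset.univ.filter (fun p : ZMod n × ZMod n =>
        (4 * |p.1.valMinAbs| < n ∧ 4 * |p.2.valMinAbs| < n) ∧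
        ((p.1.valMinAbs ≤ 0 ∧ 0 < p.2.valMinAbs) ∨ (0 ≤ p.1.valMinAbs ∧ p.2.valMinAbs < 0)))
    with hV
  have rev : ∀ g : Equiv.Perm (ZMod n × ZMod n),
      ∑ p, ‖u p - u (g p)‖ ^ 2 = ∑ p, ‖u p - u (g.symm p)‖ ^ 2 := by
    intro g
    refine Fintype.sum_equiv g _ _ fun p => ?_
    rw [Equiv.symm_apply_apply, norm_sub_rev]
  have k1 := ping_expd u W T (shA_expd n) (shB_expd n) (by
      intro p hp
      simp only [hW, hT, Finset.mem_union, Finset.mem_filter, Finset.mem_univ, true_and,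
        shA_expd, Equiv.coe_fn_mk] at hp ⊢
      rw [vadd_expd _ _ hp.1.1 hp.1.2]
      by_cases hb : 4 * |p.1.valMinAbs + p.2.valMinAbs| < n ∧ 4 * |p.2.valMinAbs| < n
      · exact Or.inl ⟨hb, by omega⟩
      · exact Or.inr hb) (by
      intro p hp
      simp only [hW, hT, Finset.mem_union, Finset.mem_filter, Finset.mem_univ, true_and,
        shB_expd, Equiv.coe_fn_mk] at hp ⊢
      rw [vadd_expd _ _ hp.1.1 hp.1.2]
      by_cases hb : 4 * |p.1.valMinAbs| < n ∧ 4 * |p.1.valMinAbs + p.2.valMinAbs| < n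
      · exact Or.inl ⟨hb, by omega⟩
      · exact Or.inr hb) (by
      intro p hp q hq e
      simp only [hW, Finset.mem_filter, Finset.mem_univ, true_and] at hp hq
      simp only [shA_expd, shB_expd, Equiv.coe_fn_mk, Prod.mk.injEq] at e
      have e1 := congrArg ZMod.valMinAbs e.1
      have e2 := congrArg ZMod.valMinAbs e.2
      rw [vadd_expd _ _ hp.1.1 hp.1.2] at e1
      rw [vadd_expd _ _ hq.1.1 hq.1.2] at e2
      omega)
  have k2 := ping_expd u V T (shA_expd n).symm (shB_expd n).symm (by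
      intro p hp
      simp only [hV, hT, Finset.mem_union, Finset.mem_filter, Finset.mem_univ, true_and,
        shA_expd, Equiv.coe_fn_symm_mk] at hp ⊢
      rw [vsub_expd _ _ hp.1.1 hp.1.2]
      by_cases hb : 4 * |p.1.valMinAbs - p.2.valMinAbs| < n ∧ 4 * |p.2.valMinAbs| < n
      · exact Or.inl ⟨hb, by omega⟩
      · exact Or.inr hb) (by
      intro p hp
      simp only [hV, hT, Finset.mem_union, Finset.mem_filter, Finset.mem_univ, true_and,
        shB_expd, Equiv.coe_fn_symm_mk] at hp ⊢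
      rw [vsub_expd _ _ hp.1.2 hp.1.1]
      by_cases hb : 4 * |p.1.valMinAbs| < n ∧ 4 * |p.2.valMinAbs - p.1.valMinAbs| < n
      · exact Or.inl ⟨hb, by omega⟩
      · exact Or.inr hb) (by
      intro p hp q hq e
      simp only [hV, Finset.mem_filter, Finset.mem_univ, true_and] at hp hq
      simp only [shA_expd, shB_expd, Equiv.coe_fn_symm_mk, Prod.mk.injEq] at e
      have e1 := congrArg ZMod.valMinAbs e.1
      have e2 := congrArg ZMod.valMinAbs e.2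
      rw [vsub_expd _ _ hp.1.1 hp.1.2] at e1
      rw [vsub_expd _ _ hq.1.2 hq.1.1] at e2
      omega)
  rw [rev (shA_expd n), rev (shB_expd n)] at k1
  have k3 : ∑ p, ‖u p‖ ^ 2 ≤
      ∑ p ∈ T, ‖u p‖ ^ 2 + ∑ p ∈ W, ‖u p‖ ^ 2 + ∑ p ∈ V, ‖u p‖ ^ 2 := by
    rw [hT, hW, hV, Finset.sum_filter, Finset.sum_filter, Finset.sum_filter,
      ← Finset.sum_add_distrib, ← Finset.sum_add_distrib]
    refine Finset.sum_le_sum fun p _ => ?_
    have hp : 0 ≤ ‖u p‖ ^ 2 := by positivity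
    by_cases hz : p = 0
    · subst hz
      simp [h0]
    · have hz' : ¬ (p.1.valMinAbs = 0 ∧ p.2.valMinAbs = 0) := by
        rintro ⟨a, b⟩
        exact hz (Prod.ext ((ZMod.valMinAbs_eq_zero _).1 a) ((ZMod.valMinAbs_eq_zero _).1 b))
      split_ifs <;> first | linarith | (exfalso; omega)
  linarith

theorem expd : ∃ C : ℝ, 0 < C ∧ ∀ (n : ℕ) [NeZero n],
    ∃ σ : Fin 4 → Equiv.Perm (ZMod n × ZMod n), Poinc σ C := by
  refine ⟨12, by norm_num, fun n _ =>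
    ⟨![Equiv.addRight (1, 0), Equiv.addRight (0, 1), shA_expd n, shB_expd n], fun f hf => ?_⟩⟩
  have hn : (0 : ℝ) < (n : ℝ) ^ 2 := by
    have : (0 : ℝ) < n := by exact_mod_cast Nat.pos_of_ne_zero (NeZero.ne n)
    positivity
  have h0 : ft_expd f 0 = 0 := by
    unfold ft_expd
    simpa using hf
  have k := comb_expd (ft_expd f) h0
  have p0 := pars_expd f
  have p1 := pars_expd fun l => f l - f (Equiv.addRight (1, 0) l)
  have p2 := pars_expd fun l => f l - f (Equiv.addRight (0, 1) l)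
  have p3 := pars_expd fun l => f l - f (shA_expd n l)
  have p4 := pars_expd fun l => f l - f (shB_expd n l)
  simp only [ftsub_expd, fttr_expd, ftA_expd, ftB_expd, mul_one, mul_zero, add_zero, zero_add,
    ← one_sub_mul] at p1 p2 p3 p4
  have k2 : ∑ p ∈ Finset.univ.filter (fun p : ZMod n × ZMod n =>
        ¬ (4 * |p.1.valMinAbs| < n ∧ 4 * |p.2.valMinAbs| < n)), ‖ft_expd f p‖ ^ 2 ≤
      ∑ p : ZMod n × ZMod n, ‖(1 - ZMod.stdAddChar (-p.1)) * ft_expd f p‖ ^ 2 +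
      ∑ p : ZMod n × ZMod n, ‖(1 - ZMod.stdAddChar (-p.2)) * ft_expd f p‖ ^ 2 := by
    rw [Finset.sum_filter, ← Finset.sum_add_distrib]
    refine Finset.sum_le_sum fun p _ => ?_
    have hb : ∀ x : ZMod n, ¬ 4 * |x.valMinAbs| < n →
        ‖ft_expd f p‖ ^ 2 ≤ ‖(1 - ZMod.stdAddChar (-x)) * ft_expd f p‖ ^ 2 := by
      intro x hx
      refine pow_le_pow_left₀ (norm_nonneg _) ?_ 2
      rw [norm_mul]
      exact le_mul_of_one_le_left (norm_nonneg _) (far_expd x hx)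
    have n1 : 0 ≤ ‖(1 - ZMod.stdAddChar (-p.1)) * ft_expd f p‖ ^ 2 := by positivity
    have n2 : 0 ≤ ‖(1 - ZMod.stdAddChar (-p.2)) * ft_expd f p‖ ^ 2 := by positivity
    split_ifs with h
    · linarith
    · rcases not_and_or.1 h with h | h
      · linarith [hb _ h]
      · linarith [hb _ h]
  rw [Fin.sum_univ_four]
  simp only [Matrix.cons_val_zero, Matrix.cons_val_one, Matrix.cons_val]
  refine le_of_mul_le_mul_left ?_ hn
  have n1 : 0 ≤ ∑ p : ZMod n × ZMod n, ‖(1 - ZMod.stdAddChar (-p.1)) * ft_expd f p‖ ^ 2 :=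
    Finset.sum_nonneg fun _ _ => by positivity
  have n2 : 0 ≤ ∑ p : ZMod n × ZMod n, ‖(1 - ZMod.stdAddChar (-p.2)) * ft_expd f p‖ ^ 2 :=
    Finset.sum_nonneg fun _ _ => by positivity
  linarith

end Ulam
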