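import Pool.Agent.P.MP_3be8c7_an.KQ

open scoped ComplexOrder InnerProductSpace
open Filter Topology

noncomputable section

namespace Ulam

universe u v w

theorem exists_ext {X K K' : Type*} [NormedAddCommGroup K] [NormedSpace ℂ K]
    [NormedAddCommGroup K'] [NormedSpace ℂ K'] [CompleteSpace K'] (e : X → K) (f : X → K')
    (hd : Dense (Submodule.span ℂ (Set.range e) : Set K)) {C : ℝ} (hC : 0 ≤ C)
    (h : ∀ (m : ℕ) (c : Fin m → ℂ) (x : Fin m → X),
      ‖∑ i, c i • f (x i)‖ ≤ C * ‖∑ i, c i • e (x i)‖) :
    ∃ T : K →L[ℂ] K', ‖T‖ ≤ C ∧ ∀ x, T (e x) = f x := by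
  have hd' : DenseRange (Finsupp.linearCombination ℂ e) := by
    rw [DenseRange, ← LinearMap.coe_range, Finsupp.range_linearCombination]
    exact hd
  have hn : ∀ x : X →₀ ℂ, ‖Finsupp.linearCombination ℂ f x‖ ≤ C * ‖Finsupp.linearCombination ℂ e x‖ := by
    intro x
    have := h x.support.card (fun i => x (x.support.equivFin.symm i))
      fun i => (x.support.equivFin.symm i : X)
    rw [Equiv.sum_comp x.support.equivFin.symm fun a : x.support => x a • f a,
      Equiv.sum_comp x.support.equivFin.symm fun a : x.support => x a • e a,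
      Finset.sum_coe_sort x.support fun a => x a • f a,
      Finset.sum_coe_sort x.support fun a => x a • e a] at this
    simpa [Finsupp.linearCombination_apply, Finsupp.sum] using this
  refine ⟨(Finsupp.linearCombination ℂ f).extendOfNorm (Finsupp.linearCombination ℂ e),
    ContinuousLinearMap.opNorm_le_bound _ hC
      (LinearMap.norm_extendOfNorm_apply_le hd' C hn), fun x => ?_⟩
  simpa using LinearMap.extendOfNorm_eq hd' ⟨C, hn⟩ (Finsupp.single x 1)

theorem ext_of_dense {X K K' : Type*} [NormedAddCommGroup K] [NormedSpace ℂ K]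
    [NormedAddCommGroup K'] [NormedSpace ℂ K'] (e : X → K)
    (hd : Dense (Submodule.span ℂ (Set.range e) : Set K)) {T T' : K →L[ℂ] K'}
    (h : ∀ x, T (e x) = T' (e x)) : T = T' := by
  exact ContinuousLinearMap.ext_on hd (by rintro _ ⟨x, rfl⟩; exact h x)

/-- Kolmogorov decomposition of a scalar kernel. -/
theorem kolm {X : Type u} (k : X → X → ℂ)
    (hk : ∀ (m : ℕ) (c : Fin m → ℂ) (x : Fin m → X),
      0 ≤ ∑ i, ∑ j, star (c i) * c j * k (x i) (x j)) :
    ∃ (K : Type u) (_ : NormedAddCommGroup K) (_ : InnerProductSpace ℂ K) (_ : CompleteSpace K)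
      (e : X → K), (∀ x y, ⟪e x, e y⟫_ℂ = k x y) ∧
      Dense (Submodule.span ℂ (Set.range e) : Set K) := by
  have hpsd : (Matrix.of k).PosSemidef := by
    have hq : ∀ x : X →₀ ℂ, 0 ≤ x.sum fun i xi => x.sum fun j xj => star xi * k i j * xj := by
      intro x
      have := hk x.support.card (fun i => x (x.support.equivFin.symm i))
        fun i => (x.support.equivFin.symm i : X)
      rw [Equiv.sum_comp x.support.equivFin.symm fun a : x.support => ∑ j, star (x a) *
        x (x.support.equivFin.symm j) * k a (x.support.equivFin.symm j),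
        Finset.sum_coe_sort x.support fun a => ∑ j, star (x a) *
        x (x.support.equivFin.symm j) * k a (x.support.equivFin.symm j)] at this
      refine this.trans_eq (Finset.sum_congr rfl fun a _ => ?_)
      rw [Equiv.sum_comp x.support.equivFin.symm fun b : x.support => star (x a) * x b * k a b,
        Finset.sum_coe_sort x.support fun b => star (x a) * x b * k a b]
      exact Finset.sum_congr rfl fun b _ => by ring
    refine ⟨?_, hq⟩
    ext x y
    have h1 := (Complex.nonneg_iff.1 (hk 1 ![1] ![x])).2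
    have h2 := (Complex.nonneg_iff.1 (hk 1 ![1] ![y])).2
    have h3 := (Complex.nonneg_iff.1 (hk 2 ![1, 1] ![x, y])).2
    have h4 := (Complex.nonneg_iff.1 (hk 2 ![1, Complex.I] ![x, y])).2
    simp [Fin.sum_univ_two] at h1 h2 h3 h4
    simp only [Matrix.conjTranspose_apply, Matrix.of_apply, RCLike.star_def]
    apply Complex.ext <;> simp <;> linarith
  let K : Matrix X X (ℂ →L[ℂ] ℂ) := Matrix.of fun x y => k x y • (1 : ℂ →L[ℂ] ℂ)
  have hK : K.PosSemidef := by
    have htf : K.PosSemidef ↔ K.IsHermitian ∧ ∀ vv : X →₀ ℂ, 0 ≤ RCLike.re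
        (vv.sum fun x w ↦ vv.sum fun x' w' ↦ ⟪K x' x w, w'⟫_ℂ) :=
      (RKHS.posSemidef_tfae (K := K)).out 0 2
    refine htf.2 ⟨?_, fun vv => ?_⟩
    · ext x y
      have := hpsd.1.apply x y
      simp only [Matrix.of_apply] at this
      simp [K, ← this]
    · have h1 := (Complex.nonneg_iff.1 (hpsd.2 vv)).1
      refine h1.trans_eq ?_
      change Complex.re _ = Complex.re _
      congr 1
      refine Finsupp.sum_congr fun a _ => Finsupp.sum_congr fun b _ => ?_
      have := hpsd.1.apply a b
      simp only [Matrix.of_apply] at this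
      simp [K, ← this]
      ring
  haveI : Fact K.PosSemidef := ⟨hK⟩
  refine ⟨RKHS.OfKernel K, inferInstance, inferInstance, inferInstance,
    fun x => RKHS.kerFun (RKHS.OfKernel K) x 1, fun x y => ?_, ?_⟩
  · rw [← RKHS.kernel_inner, RKHS.OfKernel.kernel_ofKernel]
    have := hpsd.1.apply x y
    simp only [Matrix.of_apply] at this
    simp [K, ← this]
  · rw [Submodule.dense_iff_topologicalClosure_eq_top, eq_top_iff,
      ← RKHS.kerFun_dense (RKHS.OfKernel K)]
    refine Submodule.topologicalClosure_mono (Submodule.span_le.2 ?_)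
    rintro _ ⟨x, v, rfl⟩
    have : RKHS.kerFun (RKHS.OfKernel K) x v = v • RKHS.kerFun (RKHS.OfKernel K) x 1 := by
      rw [← map_smul]; simp
    rw [this]
    exact Submodule.smul_mem _ _ (Submodule.subset_span ⟨x, rfl⟩)

end Ulam
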