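import Pool.Agent.P.MP_3be8c7_an.OZB

open scoped ComplexOrder InnerProductSpace
open Filter Topology

noncomputable section

namespace Ulam

universe u v w

variable {D : Type u} [CStarAlgebra D] [PartialOrder D] [StarOrderedRing D]
variable {H : Type v} [NormedAddCommGroup H] [InnerProductSpace ℂ H] [CompleteSpace H]

variable {π : D →⋆ₐ[ℂ] (H →L[ℂ] H)} {N : VonNeumannAlgebra H} {U : Finset D}

lemma zs_sum {z x : H →L[ℂ] H} (hz : CProj N z) (hx : x ∈ N) : star (z * x) = z * star x := by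
  rw [star_mul, hz.1.isSelfAdjoint.star_eq, (hz.2.2 _ (star_mem hx)).eq]

lemma zsame_sum {z x : H →L[ℂ] H} (hz : CProj N z) (hx : x ∈ N) (y : H →L[ℂ] H) :
    z * x * (z * y) = z * (x * y) := by
  rw [mul_assoc z x, ← mul_assoc x z, ← (hz.2.2 _ hx).eq, mul_assoc z x, ← mul_assoc z z,
    hz.1.isIdempotentElem.eq]

lemma zdiff_sum {z z' x : H →L[ℂ] H} (hz : CProj N z) (hx : x ∈ N) (h : z * z' = 0)
    (y : H →L[ℂ] H) : z * x * (z' * y) = 0 := by
  rw [(hz.2.2 _ hx).eq, mul_assoc x z, ← mul_assoc z z', h, zero_mul, mul_zero]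

lemma zmul_sum {T : Type} [Fintype T] {z : T → (H →L[ℂ] H)} (hz : ∀ t, CProj N (z t))
    (ho : ∀ t t', t ≠ t' → z t * z t' = 0) (t : T) {x : H →L[ℂ] H} (hx : x ∈ N)
    (Y : T → (H →L[ℂ] H)) : z t * x * ∑ t', z t' * Y t' = z t * (x * Y t) := by
  rw [Finset.mul_sum, Finset.sum_eq_single t, zsame_sum (hz t) hx]
  · intro t' _ h
    exact zdiff_sum (hz t) hx (ho t t' (Ne.symm h)) _
  · intro h
    exact absurd (Finset.mem_univ t) h

lemma znorm_sum {T : Type} [Fintype T] {z : T → (H →L[ℂ] H)} (hz : ∀ t, CProj N (z t))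
    (ho : ∀ t t', t ≠ t' → z t * z t' = 0) (hs : ∑ t, z t = 1) (Y : T → (H →L[ℂ] H))
    (hY : ∀ t, Y t ∈ N) {c : ℝ} (h0 : 0 ≤ c) (hc : ∀ t, ‖Y t‖ ≤ c) : ‖∑ t, z t * Y t‖ ≤ c := by
  refine norm_le_of_partition z (fun t => (hz t).1) ho _ (by rw [hs, one_mul])
    (fun t => (hz t).2.2 _ (sum_mem fun t' _ => mul_mem (hz t').2.1 (hY t'))) h0 fun t => ?_
  have := zmul_sum hz ho t (one_mem N) Y
  rw [mul_one, one_mul] at this
  rw [this]
  exact (norm_mul_le _ _).trans
    ((mul_le_of_le_one_left (norm_nonneg _) (hz t).1.norm_le).trans (hc t))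

lemma psimem_sum {I : Type*} [Fintype I] {v : I → (H →L[ℂ] H)} (hv : ∀ j, v j ∈ N)
    (x : Matrix I I ℂ) : psi v x ∈ N :=
  sum_mem fun j _ => sum_mem fun k _ => vn_smul_mem N _ (mul_mem (hv j) (star_mem (hv k)))

lemma psi_sum {T : Type} [Fintype T] [DecidableEq T] {z : T → (H →L[ℂ] H)}
    (hz : ∀ t, CProj N (z t)) {I : T → Type} [∀ t, Fintype (I t)]
    (v : ∀ t, I t → (H →L[ℂ] H)) (hv : ∀ t j, v t j ∈ N) (x : ∀ t, Matrix (I t) (I t) ℂ) :
    psi (fun p : Σ t, I t => z p.1 * v p.1 p.2) (Matrix.blockDiagonal' x) =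
      ∑ t, z t * psi (v t) (x t) := by
  unfold psi
  rw [Fintype.sum_sigma]
  refine Finset.sum_congr rfl fun t _ => ?_
  rw [Finset.mul_sum]
  refine Finset.sum_congr rfl fun j _ => ?_
  rw [Fintype.sum_sigma, Finset.sum_eq_single t, Finset.mul_sum]
  · refine Finset.sum_congr rfl fun k _ => ?_
    rw [Matrix.blockDiagonal'_apply_eq, zs_sum (hz t) (hv t k), zsame_sum (hz t) (hv t j),
      mul_smul_comm]
  · intro t' _ h
    refine Finset.sum_eq_zero fun k _ => ?_
    rw [Matrix.blockDiagonal'_apply_ne _ _ _ (Ne.symm h), zero_smul]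
  · intro h
    exact absurd (Finset.mem_univ t) h

lemma hpsi_sum {T : Type} [Fintype T] [DecidableEq T] {z : T → (H →L[ℂ] H)}
    (hz : ∀ t, CProj N (z t)) (ho : ∀ t t', t ≠ t' → z t * z t' = 0) {I : T → Type}
    [∀ t, Fintype (I t)] [∀ t, DecidableEq (I t)]
    (v : ∀ t, I t → (H →L[ℂ] H)) (hv : ∀ t j, v t j ∈ N) (x : ∀ t, Matrix (I t) (I t) ℂ) :
    hpsi (fun p : Σ t, I t => z p.1 * v p.1 p.2) (Matrix.blockDiagonal' x) =
      ∑ t, z t * hpsi (v t) (x t) := by
  unfold hpsi
  rw [← Matrix.blockDiagonal'_one, psi_sum hz v hv, psi_sum hz v hv, Finset.sum_mul]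
  refine Finset.sum_congr rfl fun t _ => ?_
  rw [zmul_sum hz ho t (psimem_sum (hv t) _)]
  rfl

theorem good_sum (hπ : ∀ a, π a ∈ N) {T : Type} [Fintype T] [DecidableEq T]
    (z : T → (H →L[ℂ] H)) (hz : ∀ t, CProj N (z t)) (ho : ∀ t t', t ≠ t' → z t * z t' = 0)
    (hs : ∑ t, z t = 1) (ζ : H) (e : T → ℝ) (h : ∀ t, Good π N U (z t ζ) (e t)) :
    Good π N U ζ (∑ t, e t) := by
  choose s hin happ using h
  have hv : ∀ t j, (s t).v j ∈ N := fun t => (hin t).1
  have hc : ∀ t i, (s t).c i ∈ N := fun t => (hin t).2.2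
  let S : SData D (H →L[ℂ] H) :=
    { I := Σ t, (s t).I
      Λ := Σ t, (s t).Λ
      κ := Σ t, (s t).κ
      τ := fun p => ⟨p.1, (s p.1).τ p.2⟩
      θ := bsum fun t => (s t).θ
      v := fun p => z p.1 * (s p.1).v p.2
      c := fun p => z p.1 * (s p.1).c p.2
      oz :=
        { orth := by
            rintro ⟨t, j⟩ ⟨t', k⟩ hne
            rw [zs_sum (hz t) (hv t j)]
            by_cases ht : t = t'
            · subst ht
              rw [zsame_sum (hz t) (star_mem (hv t j)),
                (s t).oz.orth j k fun hjk => hne (by rw [hjk]), mul_zero]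
            · exact zdiff_sum (hz t) (star_mem (hv t j)) (ho t t' ht) _
          same := by
            rintro ⟨t, j⟩ ⟨t', k⟩ he
            obtain ⟨h1, h2⟩ := Sigma.mk.inj_iff.1 he
            dsimp only at h1 h2 ⊢
            subst h1
            rw [zs_sum (hz t) (hv t j), zs_sum (hz t) (hv t k),
              zsame_sum (hz t) (star_mem (hv t j)), zsame_sum (hz t) (star_mem (hv t k)),
              (s t).oz.same j k (eq_of_heq h2)]
          norm_le := fun p => (norm_mul_le _ _).trans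
            (mul_le_one₀ (hz p.1).1.norm_le (norm_nonneg _) ((s p.1).oz.norm_le p.2)) }
      ccp := IsCCP.bsum fun t => (s t).ccp
      blk := by
        rintro a ⟨t, j⟩ ⟨t', k⟩ hne
        rw [bsum_apply]
        by_cases ht : t = t'
        · subst ht
          rw [Matrix.blockDiagonal'_apply_eq]
          exact (s t).blk a j k fun hjk => hne (by dsimp only; rw [hjk])
        · exact Matrix.blockDiagonal'_apply_ne _ _ _ ht
      col := by
        have e1 : ∑ p : Σ t, (s t).κ, star (z p.1 * (s p.1).c p.2) * (z p.1 * (s p.1).c p.2) =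
            ∑ t, z t * ∑ i, star ((s t).c i) * (s t).c i := by
          rw [Fintype.sum_sigma]
          refine Finset.sum_congr rfl fun t _ => ?_
          rw [Finset.mul_sum]
          refine Finset.sum_congr rfl fun i _ => ?_
          rw [zs_sum (hz t) (hc t i), zsame_sum (hz t) (star_mem (hc t i))]
        rw [e1]
        exact znorm_sum hz ho hs _
          (fun t => sum_mem fun i _ => mul_mem (star_mem (hc t i)) (hc t i)) zero_le_one
          fun t => (s t).col
      row := by
        have e1 : ∑ p : Σ t, (s t).κ, z p.1 * (s p.1).c p.2 * star (z p.1 * (s p.1).c p.2) =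
            ∑ t, z t * ∑ i, (s t).c i * star ((s t).c i) := by
          rw [Fintype.sum_sigma]
          refine Finset.sum_congr rfl fun t _ => ?_
          rw [Finset.mul_sum]
          refine Finset.sum_congr rfl fun i _ => ?_
          rw [zs_sum (hz t) (hc t i), zsame_sum (hz t) (hc t i)]
        rw [e1]
        exact znorm_sum hz ho hs _
          (fun t => sum_mem fun i _ => mul_mem (hc t i) (star_mem (hc t i))) (by norm_num)
          fun t => (s t).row }
  have hev : ∀ a, S.ev a = ∑ t, z t * (s t).ev a := by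
    intro a
    change ∑ p : Σ t, (s t).κ, star (z p.1 * (s p.1).c p.2) *
      hpsi (fun p : Σ t, (s t).I => z p.1 * (s p.1).v p.2)
        (Matrix.blockDiagonal' fun t => (s t).θ a) * (z p.1 * (s p.1).c p.2) = _
    rw [hpsi_sum hz ho (fun t => (s t).v) hv, Fintype.sum_sigma]
    refine Finset.sum_congr rfl fun t _ => ?_
    unfold SData.ev
    rw [Finset.mul_sum]
    refine Finset.sum_congr rfl fun i _ => ?_
    rw [zs_sum (hz t) (hc t i), zmul_sum hz ho t (star_mem (hc t i))]
    exact zsame_sum (hz t)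
      (mul_mem (star_mem (hc t i)) (mul_mem (psimem_sum (hv t) _) (psimem_sum (hv t) _))) _
  refine ⟨S, ⟨fun p => mul_mem (hz p.1).2.1 (hv p.1 p.2), ?_,
    fun p => mul_mem (hz p.1).2.1 (hc p.1 p.2)⟩, fun u hu => ?_⟩
  · rintro ⟨t, j⟩
    change IsStarProjection (star (z t * (s t).v j) * (z t * (s t).v j))
    rw [zs_sum (hz t) (hv t j), zsame_sum (hz t) (star_mem (hv t j))]
    exact (hz t).1.mul ((hin t).2.1 j)
      ((hz t).2.2 _ (mul_mem (star_mem (hv t j)) (hv t j)))
  · rw [← sum_norm_sq_partition z (fun t => (hz t).1) ho hs, hev]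
    refine Finset.sum_le_sum fun t _ => ?_
    have e1 : z t * (π u - ∑ t, z t * (s t).ev u) = (π u - (s t).ev u) * z t := by
      have := zmul_sum hz ho t (one_mem N) fun t => (s t).ev u
      rw [mul_one, one_mul] at this
      rw [mul_sub, this, ← mul_sub,
        ((hz t).2.2 _ (sub_mem (hπ u) ((s t).ev_mem (hin t) u))).eq]
    have e2 := congrArg (fun A : H →L[ℂ] H => A ζ) e1
    simp only [mul_apply_eq_comp] at e2
    rw [e2]
    exact happ t u hu

theorem good_two (hπ : ∀ a, π a ∈ N) {z : H →L[ℂ] H} (hz : CProj N z) (ζ : H) {e e' : ℝ}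
    (h : Good π N U (z ζ) e) (h' : Good π N U ((1 - z) ζ) e') : Good π N U ζ (e + e') := by
  have := good_sum (U := U) hπ (T := Bool) (fun b => cond b z (1 - z))
    (fun b => by cases b; exacts [hz.compl, hz])
    (fun b b' hb => by
      cases b <;> cases b'
      · exact absurd rfl hb
      · simp [sub_mul, hz.1.isIdempotentElem.eq]
      · simp [mul_sub, hz.1.isIdempotentElem.eq]
      · exact absurd rfl hb)
    (by simp) ζ (fun b => cond b e e') (fun b => by cases b; exacts [h', h])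
  simpa using this

end Ulam
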