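import Pool.Agent.P.MP_3be8c7_an.HOM0
import Pool.Agent.P.MP_3be8c7_an.COMP
import Pool.Agent.P.MP_3be8c7_an.SUM
import Pool.Agent.P.MP_3be8c7_an.PART

open scoped ComplexOrder InnerProductSpace
open Filter Topology

noncomputable section

namespace Ulam

universe u v w

variable {D : Type u} [CStarAlgebra D] [PartialOrder D] [StarOrderedRing D]
variable {H : Type v} [NormedAddCommGroup H] [InnerProductSpace ℂ H] [CompleteSpace H]

theorem piece_hom (π : D →⋆ₐ[ℂ] (H →L[ℂ] H)) (N : VonNeumannAlgebra H) (hπ : ∀ a, π a ∈ N)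
    {S : Type} [Fintype S] (q : S → (H →L[ℂ] H)) (hq : ∀ i, Abel N (q i))
    (ho : ∀ i j, i ≠ j → q i * q j = 0)
    (hf : ∀ i j, ∀ y ∈ N, (∀ x ∈ N, y * x * q i = 0) → y * q j = 0)
    (hc : ∀ x ∈ N, Commute (∑ i, q i) x) (ζ : H) (hζ : (∑ i, q i) ζ = ζ) (U : Finset D) {e : ℝ}
    (he : 0 < e) : Good π N U ζ e := by
  classical
  rcases isEmpty_or_nonempty S with h | ⟨⟨i₀⟩⟩
  · rw [Finset.univ_eq_empty, Finset.sum_empty] at hζ
    rw [← hζ]
    exact Good.zero.mono he.le
  choose w hw w1 w2 using fun i => cover N (hq i₀) (hq i) (hf i₀ i) (hf i i₀)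
  have w3 : ∀ i, q i * w i = w i := fun i => by
    rw [← w2, mul_assoc]
    exact pi_mul (by rw [w1]; exact (hq i₀).1)
  refine good_hom0 π N hπ w hw (hq i₀) (fun i j => ?_) (by simpa only [w2] using hc) ζ
    (by simpa only [w2] using hζ) U he
  split_ifs with h
  · rw [← h, w1]
  · rw [← w3 i, ← w3 j, star_mul, (hq i).1.isSelfAdjoint.star_eq, mul_assoc, ← mul_assoc (q i),
      ho i j h, zero_mul, mul_zero]

theorem good_hom (π : D →⋆ₐ[ℂ] (H →L[ℂ] H)) (N : VonNeumannAlgebra H) (hπ : ∀ a, π a ∈ N)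
    {m : Type} [Fintype m] (q : m → (H →L[ℂ] H)) (hq : ∀ i, Abel N (q i)) {z : H →L[ℂ] H}
    (hz : CProj N z) (hs : ∑ i, q i = z) (ζ : H) (hζ : z ζ = ζ) (U : Finset D) {e : ℝ}
    (he : 0 < e) : Good π N U ζ e := by
  classical
  choose c c1 c2 c3 using fun i => exists_ccov N (hq i).2.1
  obtain ⟨T, _, _, y, y1, y2, y3, y4, y5⟩ := exists_atoms c (fun i => (c1 i).1)
    fun i j => (c1 i).2.2 _ (c1 j).2.1
  have hy : ∀ t, CProj N (y t) := fun t =>
    ⟨y1 t, vn_mem_of_commute N fun X hX => y4 X (fun i => vn_commute N (c1 i).2.1 hX) t,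
      fun x hx => (y4 x (fun i => ((c1 i).2.2 x hx).symm) t).symm⟩
  have ho : ∀ i j, i ≠ j → q i * q j = 0 := fun i j h =>
    orth_of_sum q (fun i => (hq i).1) (by rw [hs]; exact hz.1.norm_le _) h
  have hT : (0 : ℝ) < Fintype.card T + 1 := by positivity
  refine (good_sum hπ y hy y2 y3 ζ (fun _ => e / (Fintype.card T + 1)) fun t => ?_).mono ?_
  · have hsum : ∑ i : {i // y t * c i = y t}, y t * q i = y t * z := by
      rw [← hs, Finset.mul_sum, ← Fintype.sum_subtype_add_sum_subtype (fun i => y t * c i = y t),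
        left_eq_add]
      refine Finset.sum_eq_zero fun i _ => ?_
      rw [← c2, ← mul_assoc, (y5 t i).resolve_right i.2, zero_mul]
    refine piece_hom π N hπ (fun i : {i // y t * c i = y t} => y t * q i)
      (fun i => (hq i).cmul (hy t)) (fun i j h => ?_) (fun i j a _ h => ?_) ?_ _ ?_ U
      (div_pos he hT)
    · rw [mul_assoc, ← mul_assoc (q i), ← ((hy t).2.2 _ (hq i).2.1).eq, mul_assoc,
        ho i j fun e => h (Subtype.ext e), mul_zero, mul_zero]
    · have h1 := c3 i (a * y t) fun x hx => by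
        rw [mul_assoc a, ((hy t).2.2 x hx).eq, ← mul_assoc, mul_assoc]
        exact h x hx
      rw [mul_assoc, i.2] at h1
      rw [← mul_assoc, h1, zero_mul]
    · rw [hsum]
      exact ((hy t).mul hz).2.2
    · have h1 : y t * z * y t = y t * z := by
        rw [mul_assoc, (hz.2.2 _ (hy t).2.1).eq, ← mul_assoc, (y1 t).isIdempotentElem.eq]
      have h2 := DFunLike.congr_fun h1 ζ
      rw [hsum]
      simpa only [mul_apply_eq_comp, hζ] using h2
  · rw [Finset.sum_const, Finset.card_univ, nsmul_eq_mul, ← mul_div_assoc, div_le_iff₀ hT]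
    nlinarith

end Ulam
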