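import Pool.Agent.P.MP_3be8c7_an.Int

open scoped ComplexOrder InnerProductSpace
open Filter Topology

noncomputable section

namespace Ulam

universe u v w

/-- The contraction constant of the general repacking. -/
def c1 (C : ℝ) : ℝ := (10000 * C + 1) / (10000 * C + 2)

theorem half_le_c1 {C : ℝ} (hC : 0 < C) : 1 / 2 ≤ c1 C := by
  rw [c1, le_div_iff₀ (by positivity)]; linarith

theorem c1_lt_one {C : ℝ} (hC : 0 < C) : c1 C < 1 := by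
  rw [c1, div_lt_one (by positivity)]; linarith

/-- The repacking property. -/
def RP (D : Type u) [CStarAlgebra D] : Prop :=
  ∀ (L : Type) [Fintype L] [Nonempty L] (σ : Fin 4 → Equiv.Perm L) (C : ℝ), 0 < C → Poinc σ C →
    ∀ x : L × Fin 4 → D, (∀ e, ‖x e‖ ≤ 1) → ∀ η : ℝ, η ≤ 1 / 4 →
      ‖av fun e => star (x e) * x e‖ ≤ η → ∀ γ : ℝ, 0 < γ →
    ∃ a : L × Fin 4 → D, (∀ l, ‖vsum σ a (x - a) l‖ ≤ 2 * c1 C + γ) ∧
      ‖av (vsum σ a (x - a))‖ ≤ 4 * η + γ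

/-- Matrix approximation of `π` at the vector `ξ` with coefficients in `N`. -/
def AMS {D : Type u} [CStarAlgebra D]
    {H : Type v} [NormedAddCommGroup H] [InnerProductSpace ℂ H] [CompleteSpace H]
    (π : D →⋆ₐ[ℂ] (H →L[ℂ] H)) (N : VonNeumannAlgebra H) (ξ : H) : Prop :=
  ∀ U : Finset D, (∀ u ∈ U, u ∈ unitary D) → ∀ δ : ℝ, 0 < δ →
    ∃ (I : Type) (_ : Fintype I) (_ : DecidableEq I) (θ : D →ₗ[ℂ] Matrix I I ℂ)
      (b : I → (H →L[ℂ] H)), IsCCP θ ∧ (∀ k, b k ∈ N) ∧ ‖∑ k, star (b k) * b k‖ ≤ 1 ∧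
      ∀ u ∈ U, ‖(π u - tmap b (θ u)) ξ‖ ≤ δ

end Ulam
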