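import Pool.Agent.P.MP_3be8c7_an.PC1
import Pool.Agent.P.MP_3be8c7_an.DICH
import Pool.Agent.P.MP_3be8c7_an.HOM
import Pool.Agent.P.MP_3be8c7_an.DIX
import Pool.Agent.P.MP_3be8c7_an.RPD

open scoped ComplexOrder InnerProductSpace
open Filter Topology

noncomputable section

namespace Ulam

universe u v w

variable {D : Type u} [CStarAlgebra D] [PartialOrder D] [StarOrderedRing D]
variable {H : Type v} [NormedAddCommGroup H] [InnerProductSpace ℂ H] [CompleteSpace H]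

theorem cp_fin {N : VonNeumannAlgebra H} {w x : H →L[ℂ] H} (hw : CProj N w) (hx : x ∈ N) (ξ : H) :
    x (w ξ) = w (x ξ) :=
  (congrArg (fun T : H →L[ℂ] H => T ξ) (hw.2.2 x hx).eq).symm

theorem nrm_fin {ζ : H} (h0 : ζ ≠ 0) (x : H →L[ℂ] H) {t : ℝ} (h : ‖x ζ‖ ≤ t * ‖ζ‖) :
    ‖x (((‖ζ‖⁻¹ : ℝ) : ℂ) • ζ)‖ ≤ t := by
  rw [map_smul, norm_smul, Complex.norm_real, norm_inv, norm_norm,
    inv_mul_le_iff₀ (norm_pos_iff.2 h0), mul_comm]
  exact h

theorem good_fin' (π : D →⋆ₐ[ℂ] (H →L[ℂ] H)) (N : VonNeumannAlgebra H)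
    (hπ : ∀ a, π a ∈ N) {ξ : H} (hξ : TrVec N ξ) (hA : AMS π N ξ) (U : Finset D)
    (hU : ∀ u ∈ U, u ∈ unitary D) {e : ℝ} (he : 0 < e) : Good π N U ξ e := by
  classical
  obtain ⟨δ, hδ, hpc⟩ := pc1.{u, v} (e := e / 4 / (‖ξ‖ ^ 2 + 1)) (by positivity)
  obtain ⟨δ0, hδ0, hd⟩ : ∃ δ0 : ℝ, 0 < δ0 ∧ 4 / δ ^ 2 * (U.card * δ0 ^ 2) ≤ e / 4 := by
    refine ⟨√(e / 4 * (δ ^ 2 / 4) / (U.card + 1)), by positivity, ?_⟩
    rw [Real.sq_sqrt (by positivity)]
    have h1 : (U.card : ℝ) * (e / 4 * (δ ^ 2 / 4) / (U.card + 1)) ≤ e / 4 * (δ ^ 2 / 4) := by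
      rw [← mul_div_assoc, div_le_iff₀ (by positivity)]
      have : 0 ≤ e / 4 * (δ ^ 2 / 4) := by positivity
      linarith
    refine (mul_le_mul_of_nonneg_left h1 (by positivity)).trans_eq ?_
    field_simp
  obtain ⟨I, _, _, θ, b, hθ, hb, hcol, hy⟩ := hA U hU δ0 hδ0
  obtain ⟨s, κ, hκ, hpc⟩ := hpc I
  obtain ⟨z, hz, hdiv, m, _, q, hq, hqs⟩ := dich N s
  have hU1 : ∀ u ∈ U, ‖u‖ ≤ 1 := fun u hu => by
    have := (CStarAlgebra.norm_le_one_iff_of_nonneg (star u * u) (star_mul_self_nonneg u)).2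
      (hU u hu).1.le
    rw [CStarRing.norm_star_mul_self] at this
    nlinarith [norm_nonneg u]
  have g2 : Good π N U ((1 - z) ξ) (e / 2) :=
    good_hom π N hπ q hq hz.compl hqs _
      (congrArg (fun T : H →L[ℂ] H => T ξ) hz.compl.1.isIdempotentElem.eq) U (by positivity)
  refine (good_two hπ hz ξ (e := e / 2) ?_ g2).mono (by linarith)
  obtain ⟨h, hN, hc, hdx⟩ := dix N hξ (fun p : I × I => b p.1 * star (b p.2))
    fun p => mul_mem (hb _) (star_mem (hb _))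
  obtain ⟨T, _, _, z', c, p1, p2, p3, p4, p5⟩ := exists_part h
    (fun i j => ⟨hc i _ (hN j), hc i _ (star_mem (hN j))⟩) (half_pos hκ)
  have hz' : ∀ t, CProj N (z' t) := fun t => ⟨p1 t,
    vn_mem_of_commute N fun X hX => p4 X
      (fun i => ⟨vn_commute N (hN i) hX, vn_commute N (star_mem (hN i)) hX⟩) t,
    fun x hx => (p4 x (fun i => ⟨(hc i x hx).symm, by
      have := (hc i _ (star_mem hx)).star_star
      rw [star_star] at this
      exact this.symm⟩) t).symm⟩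
  have hyN : ∀ u, π u - tmap b (θ u) ∈ N := fun u => sub_mem (hπ u) (tmap_mem N b hb _)
  refine (good_sum hπ z' hz' p2 p3 (z ξ) (fun t => e / 4 / (‖ξ‖ ^ 2 + 1) * ‖z' t (z ξ)‖ ^ 2 +
    4 / δ ^ 2 * ∑ u ∈ U, ‖z' t (z ((π u - tmap b (θ u)) ξ))‖ ^ 2) fun t => ?_).mono ?_
  · have hS : 0 ≤ ∑ u ∈ U, ‖z' t (z ((π u - tmap b (θ u)) ξ))‖ ^ 2 := by positivity
    have hmv : ∀ x ∈ N, x (z' t (z ξ)) = z' t (z (x ξ)) := fun x hx => by
      rw [cp_fin (hz' t) hx, cp_fin hz hx]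
    by_cases h0 : z' t (z ξ) = 0
    · rw [h0]
      exact Good.zero.mono (by positivity)
    have hpos := norm_pos_iff.2 h0
    by_cases hg : ∀ u ∈ U, ‖(π u - tmap b (θ u)) (z' t (z ξ))‖ ≤ δ * ‖z' t (z ξ)‖
    · obtain ⟨R, _, _, w, w1, w2, w3⟩ := hdx (κ / 2 * ‖z' t (z ξ)‖) (by positivity)
      have g := (hpc D H π N hπ (((‖z' t (z ξ)‖⁻¹ : ℝ) : ℂ) • z' t (z ξ))
        (((hξ.cproj hz).cproj (hz' t)).smul _)
        (by rw [norm_smul, Complex.norm_real, norm_inv, norm_norm, inv_mul_cancel₀ hpos.ne'])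
        θ b hθ hb hcol U hU (fun u hu => nrm_fin h0 _ (hg u hu)) z hdiv hz.1.norm_le
        (by
          rw [map_smul, hmv z hz.2.1]
          exact congrArg (fun T : H →L[ℂ] H => _ • z' t (T ξ)) hz.1.isIdempotentElem.eq)
        R w w1 w2 (fun j k => c t (j, k)) fun j k => nrm_fin h0 _ ?_).smul
        ((‖z' t (z ξ)‖ : ℝ) : ℂ)
      · rw [smul_smul, ← Complex.ofReal_mul, mul_inv_cancel₀ hpos.ne', Complex.ofReal_one, one_smul,
          Complex.norm_real, norm_norm, mul_comm] at g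
        exact g.mono (le_add_of_nonneg_right (by positivity))
      · have a0 : av (fun ρ => w ρ * (b j * star (b k)) * star (w ρ)) - h (j, k) ∈ N :=
          sub_mem (av_mem N _ fun ρ => mul_mem (mul_mem (w1 ρ) (mul_mem (hb j) (star_mem (hb k))))
            (star_mem (w1 ρ))) (hN _)
        have a1 : ‖(av (fun ρ => w ρ * (b j * star (b k)) * star (w ρ)) - h (j, k))
            (z' t (z ξ))‖ ≤ κ / 2 * ‖z' t (z ξ)‖ := by
          rw [hmv _ a0]
          exact (proj_norm_apply_le (p1 t) _).trans ((proj_norm_apply_le hz.1 _).trans (w3 (j, k)))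
        have a2 : ‖(h (j, k) - c t (j, k) • (1 : H →L[ℂ] H)) (z' t (z ξ))‖ ≤
            κ / 2 * ‖z' t (z ξ)‖ := by
          have e1 : z' t (z' t (z ξ)) = z' t (z ξ) :=
            congrArg (fun T : H →L[ℂ] H => T (z ξ)) (p1 t).isIdempotentElem.eq
          have e2 := cp_fin (hz' t) (sub_mem (hN (j, k)) (vn_smul_mem N (c t (j, k)) (one_mem N)))
            (z' t (z ξ))
          rw [e1] at e2
          rw [e2]
          exact ((z' t * (h (j, k) - c t (j, k) • (1 : H →L[ℂ] H))).le_opNorm _).trans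
            (mul_le_mul_of_nonneg_right (p5 t (j, k)) (norm_nonneg _))
        rw [← sub_add_sub_cancel _ (h (j, k)), ContinuousLinearMap.add_apply]
        exact (norm_add_le _ _).trans (by linarith)
    · refine (Good.zero.dom (e' := 4 * ‖z' t (z ξ)‖ ^ 2) hπ hU1 fun y _ hy2 _ => ?_).mono ?_
      · have := (y.le_opNorm (z' t (z ξ))).trans (mul_le_mul_of_nonneg_right hy2 (norm_nonneg _))
        exact (pow_le_pow_left₀ (norm_nonneg _) this 2).trans_eq (by ring)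
      · obtain ⟨u, hu, hlt⟩ : ∃ u ∈ U, δ * ‖z' t (z ξ)‖ < ‖(π u - tmap b (θ u)) (z' t (z ξ))‖ := by
          simpa only [not_forall, not_le, exists_prop] using hg
        rw [hmv _ (hyN u)] at hlt
        have a1 := (pow_le_pow_left₀ (by positivity) hlt.le 2).trans (Finset.single_le_sum
          (f := fun u => ‖z' t (z ((π u - tmap b (θ u)) ξ))‖ ^ 2) (fun _ _ => sq_nonneg _) hu)
        refine le_add_of_nonneg_of_le (by positivity) (le_of_eq_of_le ?_
          (mul_le_mul_of_nonneg_left a1 (by positivity)))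
        field_simp
  · rw [Finset.sum_add_distrib, ← Finset.mul_sum, ← Finset.mul_sum, Finset.sum_comm,
      sum_norm_sq_partition z' p1 p2 p3]
    simp only [sum_norm_sq_partition z' p1 p2 p3]
    have a1 : e / 4 / (‖ξ‖ ^ 2 + 1) * ‖z ξ‖ ^ 2 ≤ e / 4 := by
      rw [div_mul_eq_mul_div, div_le_iff₀ (by positivity)]
      exact mul_le_mul_of_nonneg_left ((pow_le_pow_left₀ (norm_nonneg _)
        (proj_norm_apply_le hz.1 ξ) 2).trans (le_add_of_nonneg_right zero_le_one)) (by positivity)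
    have a2 := Finset.sum_le_card_nsmul U (fun u => ‖z ((π u - tmap b (θ u)) ξ)‖ ^ 2) (δ0 ^ 2)
      fun u hu => pow_le_pow_left₀ (norm_nonneg _) ((proj_norm_apply_le hz.1 _).trans (hy u hu)) 2
    rw [nsmul_eq_mul] at a2
    have a3 := mul_le_mul_of_nonneg_left a2 (show 0 ≤ 4 / δ ^ 2 by positivity)
    linarith

theorem ams_of_nuc (hD : Nuc D) (π : D →⋆ₐ[ℂ] (H →L[ℂ] H)) (N : VonNeumannAlgebra H)
    (hπ : ∀ a, π a ∈ N) (ξ : H) : AMS π N ξ := by
  intro U _ δ hδ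
  obtain ⟨I, _, _, θ, b, hθ, hb, h⟩ := hD U (δ / (‖ξ‖ + 1)) (by positivity)
  refine ⟨I, inferInstance, inferInstance, θ, fun k => π (b k), hθ, fun k => hπ _,
    (norm_col_map_le π b).trans hb, fun u hu => ?_⟩
  rw [← map_tmap, ← map_sub]
  refine ((π _).le_opNorm ξ).trans ((mul_le_mul_of_nonneg_right
    ((NonUnitalStarAlgHom.norm_apply_le π _).trans (h u hu)) (norm_nonneg _)).trans ?_)
  rw [div_mul_eq_mul_div, div_le_iff₀ (by positivity)]
  nlinarith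

theorem good_fin (hD : Nuc D) (π : D →⋆ₐ[ℂ] (H →L[ℂ] H)) (N : VonNeumannAlgebra H)
    (hπ : ∀ a, π a ∈ N) {ξ : H} (hξ : TrVec N ξ) (U : Finset D) (hU : ∀ u ∈ U, u ∈ unitary D)
    {e : ℝ} (he : 0 < e) : Good π N U ξ e :=
  good_fin' π N hπ hξ (ams_of_nuc hD π N hπ ξ) U hU he

end Ulam
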