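import Pool.Agent.P.MP_3be8c7_an.Int

open scoped ComplexOrder InnerProductSpace
open Filter Topology

noncomputable section

namespace Ulam

universe u v w

theorem proj_pert {A : Type*} [CStarAlgebra A] {a : A} (ha : IsSelfAdjoint a) {d : ℝ}
    (hd : d ≤ 1 / 8) (h : ‖a * a - a‖ ≤ d) :
    ∃ p : A, IsSelfAdjoint p ∧ p * p = p ∧ ‖p - a‖ ≤ 2 * d ∧ ∀ X, Commute X a → Commute X p := by
  have hd0 : 0 ≤ d := (norm_nonneg _).trans h
  let χ : ℝ → ℝ := fun t => max 0 (min 1 (2 * t - 1 / 2))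
  have hχ : Continuous χ := by fun_prop
  have hs : ∀ t ∈ spectrum ℝ a, (χ t = 0 ∧ |t| ≤ 2 * d) ∨ (χ t = 1 ∧ |1 - t| ≤ 2 * d) := by
    intro t ht
    have h1 := norm_apply_le_norm_cfc (fun t : ℝ => t * t - t) a ht
    rw [cfc_sub _ _ a, cfc_mul _ _ a, cfc_id' ℝ a, Real.norm_eq_abs] at h1
    have h2 := abs_le.1 (h1.trans h)
    rcases le_total t (1 / 2) with h3 | h3
    · have h4 : t ≤ 1 / 4 := by nlinarith
      refine Or.inl ⟨max_eq_left (min_le_of_right_le (by linarith)), abs_le.2 ⟨?_, ?_⟩⟩ <;> nlinarith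
    · have h4 : 3 / 4 ≤ t := by nlinarith
      refine Or.inr ⟨?_, abs_le.2 ⟨?_, ?_⟩⟩
      · simp only [χ]
        rw [min_eq_left (by linarith), max_eq_right zero_le_one]
      · nlinarith
      · nlinarith
  refine ⟨cfc χ a, cfc_predicate χ a, ?_, ?_, fun X hX => (hX.symm.cfc_real χ).symm⟩
  · rw [← cfc_mul χ χ a]
    refine cfc_congr fun t ht => ?_
    rcases hs t ht with h1 | h1 <;> simp [h1.1]
  · have e : cfc χ a - a = cfc (fun t => χ t - t) a := by rw [cfc_sub _ _ a, cfc_id' ℝ a]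
    rw [e]
    refine norm_cfc_le (by linarith) fun t ht => ?_
    rw [Real.norm_eq_abs]
    rcases hs t ht with h1 | h1
    · rw [h1.1, zero_sub, abs_neg]; exact h1.2
    · rw [h1.1]; exact h1.2

theorem isq_pert {A : Type*} [CStarAlgebra A] {b : A} (hb : IsSelfAdjoint b) {d : ℝ}
    (hd : d ≤ 1 / 2) (h : ‖b - 1‖ ≤ d) :
    ∃ r : A, IsSelfAdjoint r ∧ r * b * r = 1 ∧ ‖r - 1‖ ≤ 2 * d ∧
      ∀ X, Commute X b → Commute X r := by
  have hd0 : 0 ≤ d := (norm_nonneg _).trans h
  let f : ℝ → ℝ := fun t => (Real.sqrt (max t (1 / 2)))⁻¹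
  have hf : Continuous f := by
    refine Continuous.inv₀ (by fun_prop) fun t => ?_
    exact (Real.sqrt_pos.2 (lt_max_of_lt_right (by norm_num))).ne'
  have hs : ∀ t ∈ spectrum ℝ b, |t - 1| ≤ d ∧ 1 / 2 ≤ t := by
    intro t ht
    have h1 := norm_apply_le_norm_cfc (fun t : ℝ => t - 1) b ht
    rw [cfc_sub _ _ b, cfc_id' ℝ b, cfc_const_one ℝ b, Real.norm_eq_abs] at h1
    have h2 := abs_le.1 (h1.trans h)
    exact ⟨h1.trans h, by linarith⟩
  refine ⟨cfc f b, cfc_predicate f b, ?_, ?_, fun X hX => (hX.symm.cfc_real f).symm⟩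
  · have e : cfc f b * b * cfc f b = cfc (fun t => f t * t * f t) b := by
      rw [cfc_mul _ _ b, cfc_mul _ _ b, cfc_id' ℝ b]
    rw [e, ← cfc_const_one ℝ b]
    refine cfc_congr fun t ht => ?_
    have h1 := (hs t ht).2
    have h2 : 0 < Real.sqrt t := Real.sqrt_pos.2 (by linarith)
    have h3 := Real.mul_self_sqrt (show 0 ≤ t by linarith)
    simp only [f, max_eq_left h1]
    field_simp
    linarith
  · have e : cfc f b - 1 = cfc (fun t => f t - 1) b := by rw [cfc_sub _ _ b, cfc_const_one ℝ b]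
    rw [e]
    refine norm_cfc_le (by linarith) fun t ht => ?_
    obtain ⟨h0, h1⟩ := hs t ht
    have h3 := Real.mul_self_sqrt (show 0 ≤ t by linarith)
    have h4 : 1 / 2 ≤ Real.sqrt t := Real.le_sqrt_of_sq_le (by linarith)
    simp only [f, max_eq_left h1]
    set s := Real.sqrt t
    have h2 : 0 < s := by linarith
    have h5 := abs_le.1 h0
    have e1 : s⁻¹ - 1 = (1 - s) / s := by field_simp
    rw [Real.norm_eq_abs, e1, abs_div, abs_of_pos h2, div_le_iff₀ h2, abs_le]
    constructor <;> nlinarith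

theorem idem_pert {A : Type*} [NormedRing A] {r : A} (h : r * r = r) (h1 : ‖r‖ < 1) : r = 0 := by
  have h2 := norm_mul_le r r
  rw [h] at h2
  have h3 := norm_nonneg r
  exact norm_eq_zero.1 (by nlinarith)

theorem comp_pert {E F G : Type*} [NormedAddCommGroup E] [NormedSpace ℂ E] [NormedAddCommGroup F]
    [NormedSpace ℂ F] [NormedAddCommGroup G] [NormedSpace ℂ G] {f : F →L[ℂ] G} {g : E →L[ℂ] F}
    {a b : ℝ} (hf : ‖f‖ ≤ a) (hg : ‖g‖ ≤ b) : ‖f ∘L g‖ ≤ a * b :=
  (f.opNorm_comp_le g).trans (mul_le_mul hf hg (norm_nonneg _) ((norm_nonneg _).trans hf))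

open ContinuousLinearMap in
theorem pert {γ : ℝ} (hγ : 0 < γ) : ∃ δ : ℝ, 0 < δ ∧
    ∀ (H : Type v) [NormedAddCommGroup H] [InnerProductSpace ℂ H] [CompleteSpace H]
      (K : Type w) [NormedAddCommGroup K] [InnerProductSpace ℂ K] [CompleteSpace K]
      (V : H →L[ℂ] K) (S : K →L[ℂ] K), ‖adjoint V ∘L V - 1‖ ≤ δ → ‖S - V ∘L adjoint V‖ ≤ δ →
    ∃ U : H →L[ℂ] K, adjoint U ∘L U = 1 ∧ ‖U - V‖ ≤ γ ∧
      (∀ X, Commute X S → Commute X (star S) → Commute X (U ∘L adjoint U)) ∧
      ∀ (X : K →L[ℂ] K) (T : H →L[ℂ] H), Commute X S → Commute X (star S) → X ∘L V = V ∘L T →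
        adjoint V ∘L X = T ∘L adjoint V →
        X ∘L U = U ∘L T ∧ adjoint U ∘L X = T ∘L adjoint U := by
  refine ⟨min (1 / 10000) (γ / 2000), lt_min (by norm_num) (by positivity), ?_⟩
  intro H _ _ _ K _ _ _ V S h1 h2
  set δ := min (1 / 10000 : ℝ) (γ / 2000) with hδ
  have d1 : δ ≤ 1 / 10000 := min_le_left _ _
  have d2 : δ ≤ γ / 2000 := min_le_right _ _
  have d0 : 0 ≤ δ := (norm_nonneg _).trans h1
  have nA : ∀ {Y : H →L[ℂ] K} {c : ℝ}, ‖Y‖ ≤ c → ‖adjoint Y‖ ≤ c := fun h => by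
    rw [LinearIsometryEquiv.norm_map]; exact h
  set D : H →L[ℂ] H := adjoint V ∘L V - 1 with hD
  have hVV : adjoint V ∘L V = 1 + D := by rw [hD]; abel
  have n1 : ‖(1 : H →L[ℂ] H)‖ ≤ 1 := ContinuousLinearMap.norm_id_le
  have nV : ‖V‖ ≤ 2 := by
    have h3 := norm_adjoint_comp_self V
    have h4 := norm_add_le (1 : H →L[ℂ] H) D
    rw [hVV] at h3
    nlinarith [norm_nonneg V]
  set E : K →L[ℂ] K := V ∘L adjoint V with hE
  have sE : star E = E := by
    rw [hE, star_eq_adjoint, adjoint_comp, adjoint_adjoint]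
  have nE : ‖E‖ ≤ 4 := (comp_pert nV (nA nV)).trans (by norm_num)
  have hEV : E ∘L V = V + V ∘L D := by
    rw [hE, comp_assoc, hVV, comp_add]; rfl
  have hEE : ‖E * E - E‖ ≤ 4 * δ := by
    have e : E * E - E = (V ∘L D) ∘L adjoint V := by
      have : E * E = (E ∘L V) ∘L adjoint V := rfl
      rw [this, hEV, add_comp, ← hE]; abel
    rw [e]
    exact (comp_pert (comp_pert nV h1) (nA nV)).trans (by linarith)
  set a : K →L[ℂ] K := (1 / 2 : ℝ) • (S + star S) with ha
  have sa : IsSelfAdjoint a := (IsSelfAdjoint.all _).smul (IsSelfAdjoint.add_star_self S)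
  have haE : ‖a - E‖ ≤ δ := by
    have e : a - E = (1 / 2 : ℝ) • ((S - E) + star (S - E)) := by
      rw [star_sub, sE, ha]; module
    have h3 := norm_add_le (S - E) (star (S - E))
    rw [norm_star] at h3
    rw [e, norm_smul, Real.norm_of_nonneg (by norm_num)]
    linarith
  have haa : ‖a * a - a‖ ≤ 14 * δ := by
    have e : a * a - a = (a - E) * (a - E) + (a - E) * E + E * (a - E) + (E * E - E) - (a - E) := by
      noncomm_ring
    have b1 : ‖(a - E) * (a - E)‖ ≤ δ * δ := comp_pert haE haE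
    have b2 : ‖(a - E) * E‖ ≤ δ * 4 := comp_pert haE nE
    have b3 : ‖E * (a - E)‖ ≤ 4 * δ := comp_pert nE haE
    rw [e]
    refine (norm_sub_le_of_le (norm_add_le_of_le (norm_add_le_of_le (norm_add_le_of_le b1 b2) b3)
      hEE) haE).trans ?_
    nlinarith
  obtain ⟨p, sp, pp, hpa, cp⟩ := proj_pert sa (by linarith) haa
  have hpE : ‖p - E‖ ≤ 29 * δ := by
    have := norm_sub_le_norm_sub_add_norm_sub p a E
    linarith
  have ap : adjoint p = p := sp.star_eq
  set W : H →L[ℂ] K := p ∘L V with hW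
  have aW : adjoint W = adjoint V ∘L p := by rw [hW, adjoint_comp, ap]
  have pW : p ∘L W = W := by
    rw [hW, ← comp_assoc]
    exact congrArg (· ∘L V) pp
  have hWV : ‖W - V‖ ≤ 60 * δ := by
    have e : W - V = (p - E) ∘L V + V ∘L D := by
      rw [sub_comp, hEV, hW]; abel
    rw [e]
    exact (norm_add_le_of_le (comp_pert hpE nV) (comp_pert nV h1)).trans (by linarith)
  have nW : ‖W‖ ≤ 3 := by
    have := norm_le_norm_sub_add W V
    linarith
  set B : H →L[ℂ] H := adjoint W ∘L W with hB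
  have sB : IsSelfAdjoint B := by
    rw [IsSelfAdjoint, hB, star_eq_adjoint, adjoint_comp, adjoint_adjoint]
  have hB1 : ‖B - 1‖ ≤ 301 * δ := by
    have e : B - 1 = adjoint (W - V) ∘L W + adjoint V ∘L (W - V) + D := by
      rw [map_sub, sub_comp, comp_sub, hB, hD]; abel
    rw [e]
    exact (norm_add_le_of_le (norm_add_le_of_le (comp_pert (nA hWV) nW) (comp_pert (nA nV) hWV))
      h1).trans (by linarith)
  obtain ⟨R, sR, hR, nR, cR⟩ := isq_pert sB (by linarith) hB1
  have aR : adjoint R = R := sR.star_eq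
  set U : H →L[ℂ] K := W ∘L R with hU
  have aU : adjoint U = R ∘L adjoint W := by rw [hU, adjoint_comp, aR]
  have hUU : adjoint U ∘L U = 1 := by
    rw [aU, hU, ← hR, hB]; rfl
  have hUV : ‖U - V‖ ≤ 1866 * δ := by
    have e : U - V = W ∘L (R - 1) + (W - V) := by
      have : W ∘L (1 : H →L[ℂ] H) = W := rfl
      rw [comp_sub, this, hU]; abel
    rw [e]
    exact (norm_add_le_of_le (comp_pert nW nR) hWV).trans (by linarith)
  have nU : ‖U‖ ≤ 3 := by
    have := norm_le_norm_sub_add U V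
    linarith
  have pU : p ∘L U = U := by rw [hU, ← comp_assoc, pW]
  have Up : adjoint U ∘L p = adjoint U := by rw [← ap, ← adjoint_comp, pU]
  set q : K →L[ℂ] K := U ∘L adjoint U with hq
  have hqE : ‖q - E‖ ≤ 9330 * δ := by
    have e : q - E = (U - V) ∘L adjoint U + V ∘L adjoint (U - V) := by
      rw [map_sub, sub_comp, comp_sub, hq, hE]; abel
    rw [e]
    exact (norm_add_le_of_le (comp_pert hUV (nA nU)) (comp_pert nV (nA hUV))).trans (by linarith)
  have hpq : q = p := by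
    have e1 : p * q = q := by
      have : p * q = (p ∘L U) ∘L adjoint U := rfl
      rw [this, pU]
    have e2 : q * p = q := by
      have : q * p = U ∘L (adjoint U ∘L p) := rfl
      rw [this, Up]
    have e3 : q * q = q := by
      have : q * q = U ∘L ((adjoint U ∘L U) ∘L adjoint U) := rfl
      rw [this, hUU]; rfl
    have e4 : (p - q) * (p - q) = p - q := by
      rw [sub_mul, mul_sub, mul_sub, pp, e1, e2, e3]; abel
    have e5 : ‖p - q‖ < 1 := by
      have := norm_sub_le_norm_sub_add_norm_sub p E q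
      rw [norm_sub_rev E q] at this
      linarith
    exact (sub_eq_zero.1 (idem_pert e4 e5)).symm
  have cX : ∀ X, Commute X S → Commute X (star S) → Commute X p := fun X c1 c2 =>
    cp X ((c1.add_right c2).smul_right _)
  refine ⟨U, hUU, by linarith, fun X c1 c2 => ?_, fun X T c1 c2 c3 c4 => ?_⟩
  · rw [← hq, hpq]; exact cX X c1 c2
  · have c5 : X ∘L p = p ∘L X := (cX X c1 c2).eq
    have c6 : X ∘L W = W ∘L T := by
      rw [hW, ← comp_assoc, c5, comp_assoc, c3, comp_assoc]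
    have c7 : adjoint W ∘L X = T ∘L adjoint W := by
      rw [aW, comp_assoc, ← c5, ← comp_assoc, c4, comp_assoc]
    have c8 : Commute T B := by
      change T ∘L (adjoint W ∘L W) = (adjoint W ∘L W) ∘L T
      rw [← comp_assoc, ← c7, comp_assoc, c6]; rfl
    have c9 : T ∘L R = R ∘L T := (cR T c8).eq
    constructor
    · rw [hU, ← comp_assoc, c6, comp_assoc, c9]; rfl
    · rw [aU, comp_assoc, c7, ← comp_assoc, ← c9, comp_assoc]

end Ulam
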