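import Pool.Agent.P.MP_3be8c7_an.DIL

open scoped ComplexOrder InnerProductSpace
open Filter Topology

noncomputable section

namespace Ulam

universe u v w

variable {D : Type u} [CStarAlgebra D] [PartialOrder D] [StarOrderedRing D]
variable {H : Type v} [NormedAddCommGroup H] [InnerProductSpace ℂ H] [CompleteSpace H]

theorem bound_stine (L : D →ₗ[ℂ] (H →L[ℂ] H)) (hL : KPos L) (a : D) :
    ∃ C : ℝ, ∀ (m : ℕ) (s : Fin m → D) (ξ : Fin m → H),
      (∑ i, ∑ j, ⟪ξ i, L (star (a * s i) * (a * s j)) (ξ j)⟫_ℂ).re ≤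
        C * (∑ i, ∑ j, ⟪ξ i, L (star (s i) * s j) (ξ j)⟫_ℂ).re := by
  obtain ⟨d, hd⟩ := CStarAlgebra.nonneg_iff_eq_star_mul_self.1
    (sub_nonneg.2 (CStarAlgebra.star_mul_le_algebraMap_norm_sq (a := a)))
  refine ⟨‖a‖ ^ 2, fun m s ξ => ?_⟩
  have h1 : ∀ i j, star (a * s i) * (a * s j) =
      ((‖a‖ ^ 2 : ℝ) : ℂ) • (star (s i) * s j) - star (d * s i) * (d * s j) := by
    intro i j
    have e1 : star (d * s i) * (d * s j) = star (s i) * (star d * d) * s j := by
      simp only [star_mul, mul_assoc]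
    have e2 : star (a * s i) * (a * s j) = star (s i) * (star a * a) * s j := by
      simp only [star_mul, mul_assoc]
    rw [e1, e2, ← hd, Algebra.algebraMap_eq_smul_one, mul_sub, sub_mul, mul_smul_comm, mul_one,
      smul_mul_assoc, Complex.coe_smul, sub_sub_cancel]
  have h2 := (Complex.le_def.1 (hL m (fun i => d * s i) ξ)).1
  have h3 : ∑ i, ∑ j, ⟪ξ i, L (star (a * s i) * (a * s j)) (ξ j)⟫_ℂ =
      ((‖a‖ ^ 2 : ℝ) : ℂ) * ∑ i, ∑ j, ⟪ξ i, L (star (s i) * s j) (ξ j)⟫_ℂ -
        ∑ i, ∑ j, ⟪ξ i, L (star (d * s i) * (d * s j)) (ξ j)⟫_ℂ := by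
    simp only [h1, map_sub, map_smul, ContinuousLinearMap.sub_apply,
      ContinuousLinearMap.smul_apply, inner_sub_right, inner_smul_right, Finset.sum_sub_distrib,
      Finset.mul_sum]
  rw [h3, Complex.sub_re, Complex.re_ofReal_mul]
  rw [Complex.zero_re] at h2
  linarith

theorem ext_stine {K : Type w} [NormedAddCommGroup K] [InnerProductSpace ℂ K] {ι : Type*}
    {f : ι → K} (hf : Dense (Submodule.span ℂ (Set.range f) : Set K)) {A B : K →L[ℂ] K}
    (h : ∀ i j, ⟪f i, A (f j)⟫_ℂ = ⟪f i, B (f j)⟫_ℂ) : A = B := by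
  refine ContinuousLinearMap.ext_on hf ?_
  rintro _ ⟨j, rfl⟩
  have h1 : innerSL ℂ (A (f j)) = innerSL ℂ (B (f j)) := by
    refine ContinuousLinearMap.ext_on hf ?_
    rintro _ ⟨i, rfl⟩
    rw [innerSL_apply_apply, innerSL_apply_apply, ← inner_conj_symm, h, inner_conj_symm]
  refine ext_inner_right ℂ fun v => ?_
  rw [← innerSL_apply_apply ℂ, h1, innerSL_apply_apply]

theorem stine (L : D →ₗ[ℂ] (H →L[ℂ] H)) (hL : KPos L) :
    ∃ (K : Type (max u v)) (_ : NormedAddCommGroup K) (_ : InnerProductSpace ℂ K)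
      (_ : CompleteSpace K) (π : D →⋆ₐ[ℂ] (K →L[ℂ] K)) (V : H →L[ℂ] K),
      (∀ a, L a = ContinuousLinearMap.adjoint V ∘L π a ∘L V) ∧
      ∀ T : H →L[ℂ] H, (∀ a, Commute T (L a)) → ∃ T' : K →L[ℂ] K, (∀ a, Commute T' (π a)) ∧
        T' ∘L V = V ∘L T ∧
        ContinuousLinearMap.adjoint V ∘L T' = T ∘L ContinuousLinearMap.adjoint V := by
  obtain ⟨K, i1, i2, i3, σ, W, h1, h2, h3, h4⟩ := dil (S := D) L hL (bound_stine L hL)
  have key : ∀ (a : D) (p q : D × H), ⟪σ p.1 (W p.2), σ a (σ q.1 (W q.2))⟫_ℂ =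
      ⟪p.2, L (star p.1 * a * q.1) q.2⟫_ℂ := by
    intro a p q
    rw [h2, map_mul, map_mul, h1, ContinuousLinearMap.comp_apply, ContinuousLinearMap.comp_apply,
      ContinuousLinearMap.adjoint_inner_right, ContinuousLinearMap.mul_apply,
      ContinuousLinearMap.mul_apply, ContinuousLinearMap.star_eq_adjoint,
      ContinuousLinearMap.adjoint_inner_right]
  have hadd : ∀ a b, σ (a + b) = σ a + σ b := fun a b => ext_stine h3 fun p q => by
    rw [ContinuousLinearMap.add_apply, inner_add_right, key, key, key, mul_add, add_mul, map_add,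
      ContinuousLinearMap.add_apply, inner_add_right]
  have hsmul : ∀ (c : ℂ) a, σ (c • a) = c • σ a := fun c a => ext_stine h3 fun p q => by
    rw [ContinuousLinearMap.smul_apply, inner_smul_right, key, key, mul_smul_comm, smul_mul_assoc,
      map_smul, ContinuousLinearMap.smul_apply, inner_smul_right]
  refine ⟨K, i1, i2, i3,
    { toFun := σ
      map_one' := σ.map_one
      map_mul' := σ.map_mul
      map_zero' := by simpa using hsmul 0 0
      map_add' := hadd
      commutes' := fun c => by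
        rw [Algebra.algebraMap_eq_smul_one, Algebra.algebraMap_eq_smul_one, hsmul, map_one]
      map_star' := h1 }, W, h2, h4⟩

end Ulam
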