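import Pool.Agent.P.MP_3be8c7_an.COMM
import Pool.Agent.P.MP_3be8c7_an.PERT
import Pool.Agent.P.MP_3be8c7_an.STINE

open scoped ComplexOrder InnerProductSpace
open Filter Topology

noncomputable section

namespace Ulam

universe u v w

section

open ContinuousLinearMap

variable {D : Type u} [CStarAlgebra D]
  {H : Type v} [NormedAddCommGroup H] [InnerProductSpace ℂ H] [CompleteSpace H]
  {K : Type w} [NormedAddCommGroup K] [InnerProductSpace ℂ K] [CompleteSpace K]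

theorem adj_final {Y : H →L[ℂ] K} {c : ℝ} (h : ‖Y‖ ≤ c) : ‖adjoint Y‖ ≤ c := by
  rw [LinearIsometryEquiv.norm_map]
  exact h

theorem pi_final (π : D →⋆ₐ[ℂ] (K →L[ℂ] K)) {a : D} (ha : ‖a‖ ≤ 1) : ‖π a‖ ≤ 1 :=
  (NonUnitalStarAlgHom.norm_apply_le π a).trans ha

theorem off_final (π : D →⋆ₐ[ℂ] (K →L[ℂ] K)) (V : H →L[ℂ] K) (L : D → (H →L[ℂ] H))
    (hL : ∀ a, L a = adjoint V ∘L π a ∘L V) (hV : ‖V‖ ≤ 2) {δ s : ℝ} (hs : 0 ≤ s)
    (hδ : 17 * δ ≤ s ^ 2) (h1 : ‖adjoint V ∘L V - 1‖ ≤ δ)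
    (h2 : ∀ a b, ‖a‖ ≤ 1 → ‖b‖ ≤ 1 → ‖L (a * b) - L a * L b‖ ≤ δ) {a : D} (ha : ‖a‖ ≤ 1) :
    ‖(1 - V ∘L adjoint V) * π a * (V ∘L adjoint V)‖ ≤ s * 2 := by
  have ha' : ‖star a‖ ≤ 1 := by rwa [norm_star]
  have hb : ∀ b, ‖b‖ ≤ 1 → ‖L b‖ ≤ 4 := fun b hb => by
    rw [hL]
    exact (comp_pert (adj_final hV) (comp_pert (pi_final π hb) hV)).trans (by norm_num)
  set Y : H →L[ℂ] K := (1 - V ∘L adjoint V) ∘L π a ∘L V with hY
  have hE : adjoint (1 - V ∘L adjoint V) = 1 - V ∘L adjoint V := by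
    rw [map_sub, adjoint_comp, adjoint_adjoint, ← star_eq_adjoint, star_one]
  have hπ : adjoint (π a) = π (star a) := by rw [← star_eq_adjoint, map_star]
  have h3 : adjoint Y ∘L Y = (L (star a * a) - L (star a) * L a) +
      L (star a) * (adjoint V ∘L V - 1) * L a := by
    rw [hY, adjoint_comp, adjoint_comp, hE, hπ, hL, hL, hL, map_mul]
    ext ξ
    simp only [comp_apply, sub_apply, add_apply, mul_apply_eq_comp, one_apply_eq_self, map_sub]
    abel
  have h4 : ‖L (star a) * (adjoint V ∘L V - 1) * L a‖ ≤ 4 * δ * 4 :=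
    comp_pert (comp_pert (hb _ ha') h1) (hb _ ha)
  have h5 : ‖Y‖ * ‖Y‖ ≤ s ^ 2 := by
    rw [← norm_adjoint_comp_self, h3]
    refine (norm_add_le _ _).trans ?_
    linarith [h2 _ _ ha' ha]
  have h6 : ‖Y‖ ≤ s := le_of_sq_comm (by rwa [sq]) hs
  have h7 : (1 - V ∘L adjoint V) * π a * (V ∘L adjoint V) = Y ∘L adjoint V := rfl
  rw [h7]
  exact comp_pert h6 (adj_final hV)

theorem cmt_final (π : D →⋆ₐ[ℂ] (K →L[ℂ] K)) {E : K →L[ℂ] K} (hE : star E = E) {t : ℝ}
    (h : ∀ a, ‖a‖ ≤ 1 → ‖(1 - E) * π a * E‖ ≤ t) (a : D) :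
    ‖E * π a - π a * E‖ ≤ 2 * t * ‖a‖ := by
  have h1 : ∀ a, ‖a‖ ≤ 1 → ‖E * π a - π a * E‖ ≤ 2 * t := by
    intro a ha
    have e : E * π a - π a * E = star ((1 - E) * π (star a) * E) - (1 - E) * π a * E := by
      rw [star_mul, star_mul, star_sub, star_one, hE, ← map_star, star_star]
      noncomm_ring
    rw [e]
    refine (norm_sub_le _ _).trans ?_
    rw [norm_star]
    linarith [h a ha, h (star a) (by rwa [norm_star])]
  rcases eq_or_ne a 0 with rfl | ha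
  · simp
  have hn : 0 < ‖a‖ := norm_pos_iff.2 ha
  have h2 := h1 (((‖a‖⁻¹ : ℝ) : ℂ) • a) (by
    rw [norm_smul, Complex.norm_real, norm_inv, norm_norm, inv_mul_cancel₀ hn.ne'])
  rw [map_smul, mul_smul_comm, smul_mul_assoc, ← smul_sub, norm_smul, Complex.norm_real, norm_inv,
    norm_norm, inv_mul_le_iff₀ hn] at h2
  linarith

/-- The compression of a representation by an isometry with invariant range. -/
def cmp_final (π : D →⋆ₐ[ℂ] (K →L[ℂ] K)) (U : H →L[ℂ] K) (hU : adjoint U ∘L U = 1)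
    (hc : ∀ a, Commute (π a) (U ∘L adjoint U)) : D →⋆ₐ[ℂ] (H →L[ℂ] H) where
  toFun a := adjoint U ∘L π a ∘L U
  map_one' := by
    rw [map_one, ← hU]
    rfl
  map_mul' a b := by
    ext ξ
    have h1 := congrArg (fun T : K →L[ℂ] K => T (U ξ)) (hc b).eq
    have h2 := congrArg (fun T : H →L[ℂ] H => T ξ) hU
    simp only [comp_apply, mul_apply_eq_comp, one_apply_eq_self] at h1 h2
    simp only [map_mul, comp_apply, mul_apply_eq_comp]
    rw [← h1, h2]
  map_zero' := by simp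
  map_add' a b := by
    ext ξ
    simp
  commutes' c := by
    rw [Algebra.algebraMap_eq_smul_one, Algebra.algebraMap_eq_smul_one, map_smul, map_one, ← hU]
    ext ξ
    simp
  map_star' a := by
    rw [star_eq_adjoint, adjoint_comp, adjoint_comp, adjoint_adjoint, map_star, star_eq_adjoint]
    rfl

end

open ContinuousLinearMap in
theorem final {γ : ℝ} (hγ : 0 < γ) : ∃ δ : ℝ, 0 < δ ∧
    ∀ (D : Type u) [CStarAlgebra D] [PartialOrder D] [StarOrderedRing D], WNR D →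
    ∀ (H : Type v) [NormedAddCommGroup H] [InnerProductSpace ℂ H] [CompleteSpace H]
      (M : VonNeumannAlgebra H) (L : D →ₗ[ℂ] (H →L[ℂ] H)), KPos L → (∀ a, L a ∈ M) →
      ‖L 1 - 1‖ ≤ δ → (∀ a b, ‖a‖ ≤ 1 → ‖b‖ ≤ 1 → ‖L (a * b) - L a * L b‖ ≤ δ) →
    ∃ ψ : D →⋆ₐ[ℂ] (H →L[ℂ] H), (∀ a, ψ a ∈ M) ∧ ∀ a, ‖a‖ ≤ 1 → ‖L a - ψ a‖ ≤ γ := by
  obtain ⟨δ₁, hδ₁, hp⟩ := pert.{v, max u v} (γ := γ / 3) (by positivity)
  refine ⟨min (min δ₁ 1) ((δ₁ / 52) ^ 2 / 17), by positivity, ?_⟩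
  intro D _ _ _ hD H _ _ _ M L hL hM h1 h2
  set δ := min (min δ₁ 1) ((δ₁ / 52) ^ 2 / 17) with hδ
  have d1 : δ ≤ δ₁ := (min_le_left _ _).trans (min_le_left _ _)
  have d2 : δ ≤ 1 := (min_le_left _ _).trans (min_le_right _ _)
  have d3 : 17 * δ ≤ (δ₁ / 52) ^ 2 := by
    have := min_le_right (min δ₁ 1) ((δ₁ / 52) ^ 2 / 17)
    linarith
  obtain ⟨K, _, _, _, π, V, hV, hlift⟩ := stine L hL
  have hG : adjoint V ∘L V = L 1 := by
    rw [hV, map_one]
    rfl
  have n1 : ‖(1 : H →L[ℂ] H)‖ ≤ 1 := ContinuousLinearMap.norm_id_le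
  have nV : ‖V‖ ≤ 2 := by
    have h3 := norm_adjoint_comp_self V
    have h4 := norm_add_le (L 1 - 1) (1 : H →L[ℂ] H)
    rw [sub_add_cancel] at h4
    rw [hG] at h3
    nlinarith [norm_nonneg V]
  have sE : star (V ∘L adjoint V) = V ∘L adjoint V := by
    rw [star_eq_adjoint, adjoint_comp, adjoint_adjoint]
  have hc := cmt_final π sE (t := δ₁ / 52 * 2) fun a ha =>
    off_final π V L hV nV (by positivity) d3 (by rwa [hG]) h2 ha
  obtain ⟨S, s1, s2, s3⟩ := comm hD π _ (by positivity) hc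
  obtain ⟨U, u1, u2, u3, u4⟩ := hp H K V S (by rw [hG]; exact h1.trans d1) (by linarith)
  have hst : ∀ {X Y : K →L[ℂ] K}, Commute (star X) Y → Commute X (star Y) := fun {X Y} h => by
    have h' := h.star_star
    rwa [star_star] at h'
  have hπU : ∀ a, Commute (π a) (U ∘L adjoint U) := fun a =>
    u3 _ (s1 a).symm (hst (by rw [← map_star]; exact (s1 _).symm))
  refine ⟨cmp_final π U u1 hπU, fun a => ?_, fun a ha => ?_⟩
  · rw [← M.commutant_commutant, VonNeumannAlgebra.mem_commutant_iff]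
    intro T hT
    obtain ⟨T', t1, t2, t3⟩ := hlift T fun b =>
      (VonNeumannAlgebra.mem_commutant_iff.1 hT _ (hM b)).symm
    have hTE : Commute T' (V ∘L adjoint V) := by
      change T' ∘L (V ∘L adjoint V) = (V ∘L adjoint V) ∘L T'
      rw [← comp_assoc, t2, comp_assoc, comp_assoc, t3]
    have hTE' : Commute (star T') (V ∘L adjoint V) := by
      have h' := hTE.star_star
      rwa [sE] at h'
    have hTπ : ∀ b, Commute (star T') (π b) := fun b => by
      have h' := (t1 (star b)).star_star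
      rwa [← map_star, star_star] at h'
    obtain ⟨e1, e2⟩ := u4 T' T (s3 _ hTE t1) (hst (s3 _ hTE' hTπ)) t2 t3
    have e3 : T' ∘L π a = π a ∘L T' := (t1 a).eq
    change T ∘L (adjoint U ∘L π a ∘L U) = (adjoint U ∘L π a ∘L U) ∘L T
    rw [← comp_assoc, ← e2, comp_assoc, ← comp_assoc T', e3, comp_assoc, e1, comp_assoc,
      comp_assoc]
  · have nU : ‖U‖ ≤ 1 := by
      have h3 := norm_adjoint_comp_self U
      rw [u1] at h3
      nlinarith [norm_nonneg U]
    have e : L a - cmp_final π U u1 hπU a =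
        -(adjoint (U - V) ∘L π a ∘L V) - adjoint U ∘L π a ∘L (U - V) := by
      change L a - adjoint U ∘L π a ∘L U = _
      rw [hV, map_sub]
      ext ξ
      simp only [comp_apply, sub_apply, neg_apply, map_sub]
      abel
    rw [e]
    refine (norm_sub_le _ _).trans ?_
    rw [norm_neg]
    have h3 := comp_pert (adj_final u2) (comp_pert (pi_final π ha) nV)
    have h4 := comp_pert (adj_final nU) (comp_pert (pi_final π ha) u2)
    linarith

end Ulam
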