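import Pool.Agent.P.MP_3be8c7_an.VB

open scoped ComplexOrder InnerProductSpace
open Filter Topology

noncomputable section

namespace Ulam

universe u v w

theorem norm_one_gs {H : Type v} [NormedAddCommGroup H] [InnerProductSpace ℂ H] [CompleteSpace H]
    (N : VonNeumannAlgebra H) {q a : H →L[ℂ] H} (hq : IsStarProjection q) (hqN : q ∈ N)
    (haN : a ∈ N) (haq : a * q = a) (h : ‖star a * a - q‖ ≤ 1 / 2) :
    ∃ S ∈ N, ‖S‖ ≤ 2 ∧ star (a * S) * (a * S) = q := by
  set G : H →L[ℂ] H := star a * a + (1 - q) with hG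
  have sq := hq.isSelfAdjoint.star_eq
  have qq : q * q = q := hq.isIdempotentElem.eq
  have hGs : IsSelfAdjoint G :=
    (IsSelfAdjoint.star_mul_self a).add hq.one_sub.isSelfAdjoint
  have hqa : q * star a = star a := by
    have := congrArg star haq
    rwa [star_mul, sq] at this
  have e1 : G * q = star a * a := by
    rw [hG, add_mul, sub_mul, one_mul, qq, sub_self, add_zero, mul_assoc, haq]
  have e2 : q * G = star a * a := by
    rw [hG, mul_add, mul_sub, mul_one, qq, sub_self, add_zero, ← mul_assoc, hqa]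
  have hc : Commute G q := e1.trans e2.symm
  have hsp : ∀ t ∈ spectrum ℝ G, 1 / 2 ≤ t := by
    intro t ht
    have h1 : t - 1 ∈ spectrum ℝ (star a * a - q) := by
      rw [spectrum.mem_iff] at ht ⊢
      have e : algebraMap ℝ (H →L[ℂ] H) (t - 1) - (star a * a - q) =
          algebraMap ℝ (H →L[ℂ] H) t - G := by
        rw [map_sub, map_one, hG]
        abel
      rwa [e]
    have h2 := spectrum.norm_le_norm_mul_of_mem h1
    have h3 : ‖(1 : H →L[ℂ] H)‖ ≤ 1 := (IsStarProjection.one _).norm_le
    have h4 : ‖star a * a - q‖ * ‖(1 : H →L[ℂ] H)‖ ≤ 1 / 2 * 1 := by gcongr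
    rw [Real.norm_eq_abs] at h2
    have := (abs_le.1 (h2.trans h4)).1
    linarith
  set f : ℝ → ℝ := fun t => (√t)⁻¹ with hf
  have hfc : ContinuousOn f (spectrum ℝ G) := by
    refine ContinuousOn.inv₀ (by fun_prop) fun t ht => ?_
    exact (Real.sqrt_pos.2 (by linarith [hsp t ht])).ne'
  have hGN : G ∈ N := add_mem (mul_mem (star_mem haN) haN) (sub_mem (one_mem N) hqN)
  refine ⟨cfc f G, vn_cfc_mem N f hGN, ?_, ?_⟩
  · refine norm_cfc_le (by norm_num) fun t ht => ?_
    have h1 : (1 / 2 : ℝ) ≤ √t := Real.le_sqrt_of_sq_le (by linarith [hsp t ht])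
    rw [hf, norm_inv, Real.norm_eq_abs, abs_of_nonneg (Real.sqrt_nonneg t)]
    rw [inv_le_comm₀ (by linarith) (by norm_num)]
    linarith
  · have hS : star (cfc f G) = cfc f G := (cfc_predicate f G : IsSelfAdjoint _).star_eq
    have hSq : Commute (cfc f G) q := hc.cfc_real f
    have hSGS : cfc f G * G * cfc f G = 1 := by
      nth_rw 2 [← cfc_id' ℝ G]
      rw [← cfc_mul _ _ G hfc, ← cfc_mul (fun x => f x * x) _ G (hfc.mul continuousOn_id) hfc, ← cfc_one ℝ G]
      refine cfc_congr fun t ht => ?_
      have h0 : 0 < t := by linarith [hsp t ht]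
      have h1 : √t ≠ 0 := (Real.sqrt_pos.2 h0).ne'
      simp only [hf, Pi.one_apply]
      field_simp
      rw [Real.sq_sqrt h0.le]
    calc star (a * cfc f G) * (a * cfc f G) = cfc f G * (star a * a) * cfc f G := by
          rw [star_mul, hS]; noncomm_ring
      _ = cfc f G * G * (q * cfc f G) := by rw [← e1]; noncomm_ring
      _ = cfc f G * G * cfc f G * q := by rw [← hSq.eq]; noncomm_ring
      _ = q := by rw [hSGS, one_mul]

theorem fin_gs (n : ℕ) : ∃ κ : ℝ, 0 < κ ∧
    ∀ (H : Type v) [NormedAddCommGroup H] [InnerProductSpace ℂ H] [CompleteSpace H]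
      (N : VonNeumannAlgebra H) (q : H →L[ℂ] H) (a : Fin n → (H →L[ℂ] H)), IsStarProjection q →
      q ∈ N → (∀ j, a j ∈ N) → (∀ j, a j * q = a j) →
      (∀ j k, ‖star (a j) * a k - (if j = k then q else 0)‖ ≤ κ) →
      ∃ w : Fin n → (H →L[ℂ] H), (∀ j, w j ∈ N) ∧
        (∀ j k, star (w j) * w k = if j = k then q else 0) ∧
        ∀ T : H →L[ℂ] H, (∀ j, T * a j = 0) → ∀ j, T * w j = 0 := by
  induction n with
  | zero =>
    exact ⟨1, one_pos, fun H _ _ _ N q a _ _ _ _ _ =>
      ⟨a, fun j => j.elim0, fun j => j.elim0, fun _ _ j => j.elim0⟩⟩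
  | succ n ih =>
    obtain ⟨κ, hκ, ih⟩ := ih
    refine ⟨min (κ / 2) (1 / 8), by positivity, ?_⟩
    intro H _ _ _ N q a hq hqN haN haq h
    set δ : ℝ := min (κ / 2) (1 / 8) with hδ
    have hδ0 : 0 < δ := by positivity
    have hδ1 : δ ≤ κ / 2 := min_le_left _ _
    have hδ2 : δ ≤ 1 / 8 := min_le_right _ _
    obtain ⟨S, hSN, hS2, hS⟩ := norm_one_gs N hq hqN (haN 0) (haq 0) (by
      have := h 0 0
      rw [if_pos rfl] at this
      linarith)
    set w0 := a 0 * S with hw0
    have hw0N : w0 ∈ N := mul_mem (haN 0) hSN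
    have hp : w0 * (star w0 * w0) = w0 := pi_mul (hS ▸ hq)
    have hp' : star w0 * w0 * star w0 = star w0 := by
      have := congrArg star hp
      rwa [star_mul, star_mul, star_star] at this
    have hsm : ∀ j : Fin n, ‖star w0 * a j.succ‖ ≤ 2 * δ := by
      intro j
      have h1 := h 0 j.succ
      rw [if_neg (Fin.succ_ne_zero j).symm, sub_zero] at h1
      rw [hw0, star_mul, mul_assoc]
      refine (norm_mul_le _ _).trans ?_
      rw [norm_star]
      gcongr
    obtain ⟨w, hwN, hw, hwT⟩ := ih H N q (fun j => a j.succ - w0 * (star w0 * a j.succ)) hq hqN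
      (fun j => sub_mem (haN _) (mul_mem hw0N (mul_mem (star_mem hw0N) (haN _))))
      (fun j => by rw [sub_mul, mul_assoc w0, mul_assoc (star w0), haq]) (fun j k => by
        have e : star (a j.succ - w0 * (star w0 * a j.succ)) *
            (a k.succ - w0 * (star w0 * a k.succ)) - (if j = k then q else 0) =
            (star (a j.succ) * a k.succ - (if j = k then q else 0)) -
              star (star w0 * a j.succ) * (star w0 * a k.succ) := by
          have e0 : star (a j.succ) * (w0 * (star w0 * (w0 * (star w0 * a k.succ)))) =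
              star (a j.succ) * (w0 * (star w0 * a k.succ)) := by
            calc _ = star (a j.succ) * (w0 * (star w0 * w0)) * (star w0 * a k.succ) := by
                  noncomm_ring
              _ = _ := by rw [hp, mul_assoc]
          simp only [star_sub, star_mul, star_star, sub_mul, mul_sub, mul_assoc, e0]
          abel
        rw [e]
        refine (norm_sub_le _ _).trans ?_
        have h1 := h j.succ k.succ
        simp only [Fin.succ_inj] at h1
        have h2 : ‖star (star w0 * a j.succ) * (star w0 * a k.succ)‖ ≤ (2 * δ) * (2 * δ) := by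
          refine (norm_mul_le _ _).trans ?_
          rw [norm_star]
          gcongr
          exacts [hsm j, hsm k]
        nlinarith)
    have ho : ∀ j, star w0 * w j = 0 := hwT _ fun j => by
      rw [mul_sub, ← mul_assoc, ← mul_assoc, hp', sub_self]
    refine ⟨Fin.cons w0 w, ?_, ?_, ?_⟩
    · intro j
      refine Fin.cases ?_ (fun j => ?_) j
      · exact hw0N
      · exact hwN j
    · intro j k
      refine Fin.cases ?_ (fun j => ?_) j <;> refine Fin.cases ?_ (fun k => ?_) k
      · simpa using hS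
      · simpa [(Fin.succ_ne_zero k).symm] using ho k
      · have := congrArg star (ho j)
        simpa using this
      · simpa using hw j k
    · intro T hT j
      have h0 : T * w0 = 0 := by rw [hw0, ← mul_assoc, hT, zero_mul]
      refine Fin.cases ?_ (fun j => ?_) j
      · exact h0
      · exact hwT T (fun j => by rw [mul_sub, hT, ← mul_assoc, h0, zero_mul, sub_zero]) j

theorem gs (I : Type) [Fintype I] [DecidableEq I] : ∃ κ : ℝ, 0 < κ ∧
    ∀ (H : Type v) [NormedAddCommGroup H] [InnerProductSpace ℂ H] [CompleteSpace H]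
      (N : VonNeumannAlgebra H) (q : H →L[ℂ] H) (a : I → (H →L[ℂ] H)), IsStarProjection q → q ∈ N →
      (∀ j, a j ∈ N) → (∀ j, a j * q = a j) →
      (∀ j k, ‖star (a j) * a k - (if j = k then q else 0)‖ ≤ κ) →
      ∃ w : I → (H →L[ℂ] H), (∀ j, w j ∈ N) ∧
        ∀ j k, star (w j) * w k = if j = k then q else 0 := by
  obtain ⟨κ, hκ, h⟩ := fin_gs.{v} (Fintype.card I)
  refine ⟨κ, hκ, ?_⟩
  intro H _ _ _ N q a hq hqN haN haq ha
  set e := Fintype.equivFin I
  obtain ⟨w, hwN, hw, -⟩ := h H N q (fun j => a (e.symm j)) hq hqN (fun j => haN _)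
    (fun j => haq _) (fun j k => by simpa using ha (e.symm j) (e.symm k))
  exact ⟨fun j => w (e j), fun j => hwN _, fun j k => by simpa using hw (e j) (e k)⟩

end Ulam
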