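import Pool.Agent.P.MP_3be8c7_an.KP

open scoped ComplexOrder InnerProductSpace
open Filter Topology

noncomputable section

namespace Ulam

universe u v w

variable {H : Type v} [NormedAddCommGroup H] [InnerProductSpace ℂ H] [CompleteSpace H]

theorem KerPos.comp {I J : Type*} [Fintype I] [Fintype J] {r : I → I → (H →L[ℂ] H)} (h : KerPos r)
    (e : J → I) : KerPos fun j k => r (e j) (e k) := by
  classical
  intro ξ
  refine (h fun i => ∑ j with e j = i, ξ j).trans_eq ?_
  rw [← Finset.sum_fiberwise Finset.univ e]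
  refine Finset.sum_congr rfl fun i _ => ?_
  simp only [sum_inner]
  rw [Finset.sum_comm]
  refine Finset.sum_congr rfl fun j hj => ?_
  rw [← Finset.sum_fiberwise Finset.univ e]
  refine Finset.sum_congr rfl fun i' _ => ?_
  rw [map_sum, inner_sum]
  refine Finset.sum_congr rfl fun k hk => ?_
  rw [(Finset.mem_filter.1 hj).2, (Finset.mem_filter.1 hk).2]

theorem pair_kq {I : Type*} [Fintype I] {r : I → I → (H →L[ℂ] H)} (h : KerPos r) (j k : I)
    (x y : H) : 0 ≤ ⟪x, r j j x⟫_ℂ + ⟪x, r j k y⟫_ℂ + (⟪y, r k j x⟫_ℂ + ⟪y, r k k y⟫_ℂ) := by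
  simpa using h.comp ![j, k] ![x, y]

theorem diag_kq {I : Type*} [Fintype I] {r : I → I → (H →L[ℂ] H)} (h : KerPos r) (j : I)
    (x : H) : 0 ≤ ⟪x, r j j x⟫_ℂ := by
  simpa using pair_kq h j j x 0

theorem KerPos.star_eq {I : Type*} [Fintype I] {r : I → I → (H →L[ℂ] H)} (h : KerPos r) (j k : I) :
    star (r j k) = r k j := by
  have key : ∀ x y, (⟪x, r j k y⟫_ℂ).im + (⟪y, r k j x⟫_ℂ).im = 0 := fun x y => by
    have h1 := (Complex.nonneg_iff.1 (pair_kq h j k x y)).2
    have h2 := (Complex.nonneg_iff.1 (diag_kq h j x)).2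
    have h3 := (Complex.nonneg_iff.1 (diag_kq h k y)).2
    simp only [Complex.add_im] at h1
    linarith
  ext x
  refine ext_inner_left ℂ fun y => ?_
  have h1 := key x y
  have h2 := key x (Complex.I • y)
  rw [map_smul, inner_smul_right, inner_smul_left] at h2
  rw [ContinuousLinearMap.star_eq_adjoint, ContinuousLinearMap.adjoint_inner_right,
    ← inner_conj_symm]
  simp only [Complex.mul_im, Complex.I_re, Complex.I_im, Complex.conj_re, Complex.conj_im] at h2
  refine Complex.ext ?_ ?_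
  · rw [Complex.conj_re]
    linarith
  · rw [Complex.conj_im]
    linarith

theorem diag_nonneg_kq {I : Type*} [Fintype I] {r : I → I → (H →L[ℂ] H)} (h : KerPos r) (j : I) :
    0 ≤ r j j := by
  have hs : IsSelfAdjoint (r j j) := h.star_eq j j
  refine (ContinuousLinearMap.nonneg_iff_isPositive _).2
    ((ContinuousLinearMap.isPositive_iff' _).2 ⟨hs, fun x => ?_⟩)
  exact (diag_kq h j x).trans_eq (hs.isSymmetric x x).symm

theorem kerPos_of_gram {I J : Type*} [Fintype I] [Fintype J] {K : Type w} [NormedAddCommGroup K]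
    [InnerProductSpace ℂ K] [CompleteSpace K] (V : J → I → (H →L[ℂ] K)) :
    KerPos fun j k => ∑ l, (ContinuousLinearMap.adjoint (V l j)) ∘L V l k := by
  intro ξ
  have : 0 ≤ ∑ l, ⟪∑ j, V l j (ξ j), ∑ j, V l j (ξ j)⟫_ℂ := Finset.sum_nonneg fun l _ => by
    rw [inner_self_eq_norm_sq_to_K]
    exact pow_nonneg (Complex.zero_le_real.2 (norm_nonneg (∑ j, V l j (ξ j)))) 2
  refine this.trans_eq ?_
  simp only [ContinuousLinearMap.sum_apply, ContinuousLinearMap.comp_apply, sum_inner]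
  rw [Finset.sum_comm]
  refine Finset.sum_congr rfl fun j _ => ?_
  simp only [inner_sum, ContinuousLinearMap.adjoint_inner_right]
  exact Finset.sum_comm

theorem KPos.fintype {S : Type*} [Mul S] [Star S] {L : S → (H →L[ℂ] H)} (h : KPos L) {ι : Type*}
    [Fintype ι] (a : ι → S) : KerPos fun i j => L (star (a i) * a j) := by
  simpa using (h _ (a ∘ (Fintype.equivFin ι).symm)).comp (Fintype.equivFin ι)

theorem KPos.map_star {S : Type*} [Monoid S] [StarMul S] {L : S → (H →L[ℂ] H)} (h : KPos L)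
    (a : S) : L (star a) = star (L a) := by
  simpa using ((h 2 ![1, a]).star_eq 0 1).symm

theorem KPos.one_nonneg {S : Type*} [Monoid S] [StarMul S] {L : S → (H →L[ℂ] H)} (h : KPos L) :
    0 ≤ L 1 := by
  simpa using diag_nonneg_kq (h 1 fun _ => 1) 0

theorem KPos.sum {S ι : Type*} [Mul S] [Star S] (s : Finset ι) {L : ι → S → (H →L[ℂ] H)}
    (h : ∀ i ∈ s, KPos (L i)) : KPos fun a => ∑ i ∈ s, L i a := by
  intro m a ξ
  refine (Finset.sum_nonneg fun i hi => h i hi m a ξ).trans_eq ?_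
  simp only [ContinuousLinearMap.sum_apply, inner_sum]
  rw [Finset.sum_comm]
  exact Finset.sum_congr rfl fun j _ => Finset.sum_comm

theorem KPos.smul {S : Type*} [Mul S] [Star S] {L : S → (H →L[ℂ] H)} (h : KPos L) {t : ℝ}
    (ht : 0 ≤ t) : KPos fun a => t • L a := by
  intro m a ξ
  refine (mul_nonneg (Complex.zero_le_real.2 ht) (h m a ξ)).trans_eq ?_
  simp only [Finset.mul_sum, ContinuousLinearMap.smul_apply, ← Complex.coe_smul, inner_smul_right]

theorem KPos.sandwich {S : Type*} [Mul S] [Star S] {L : S → (H →L[ℂ] H)} (h : KPos L)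
    (C : H →L[ℂ] H) : KPos fun a => star C * L a * C := by
  intro m a ξ
  refine (h m a fun i => C (ξ i)).trans_eq ?_
  simp only [ContinuousLinearMap.mul_apply, ContinuousLinearMap.star_eq_adjoint,
    ContinuousLinearMap.adjoint_inner_right]

theorem KPos.of_wl {S α : Type*} [Mul S] [Star S] (l : Filter α) [l.NeBot]
    {L : α → S → (H →L[ℂ] H)} {L₀ : S → (H →L[ℂ] H)} (h : ∀ᶠ i in l, KPos (L i))
    (hl : ∀ a, WL l (fun i => L i a) (L₀ a)) : KPos L₀ := by
  intro m a ξ
  exact ge_of_tendsto (tendsto_finsetSum _ fun j _ => tendsto_finsetSum _ fun k _ =>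
    hl _ (ξ k) (ξ j)) (h.mono fun i hi => hi m a ξ)

/-- Pairing a matrix kernel with a positive operator matrix. -/
theorem kpos_pair {S I : Type*} [Mul S] [Star S] [Fintype I] {θ : S → Matrix I I ℂ} (hθ : KPosM θ)
    {r : I → I → (H →L[ℂ] H)} (hr : KerPos r) : KPos fun a => ∑ j, ∑ k, θ a j k • r j k := by
  intro m a ξ
  obtain ⟨n, v, hv⟩ := Matrix.posSemidef_iff_eq_sum_vecMulVec.1 (hθ.sub a)
  have h1 : ∀ i j i' k, θ (star (a i) * a i') j k = ∑ s, v s (i, j) * star (v s (i', k)) :=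
    fun i j i' k => by
      simpa [Matrix.sum_apply, Matrix.vecMulVec_apply] using congrFun (congrFun hv (i, j)) (i', k)
  refine (Finset.sum_nonneg fun s (_ : s ∈ Finset.univ) =>
    hr.comp (Prod.snd : Fin m × I → I) fun p => star (v s p) • ξ p.1).trans_eq ?_
  rw [Finset.sum_comm, Fintype.sum_prod_type]
  refine Finset.sum_congr rfl fun i _ => ?_
  simp only [ContinuousLinearMap.sum_apply, ContinuousLinearMap.smul_apply, inner_sum]
  rw [Finset.sum_comm (s := (Finset.univ : Finset (Fin m)))]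
  refine Finset.sum_congr rfl fun j _ => ?_
  rw [Finset.sum_comm, Fintype.sum_prod_type]
  refine Finset.sum_congr rfl fun i' _ => Finset.sum_congr rfl fun k _ => ?_
  rw [inner_smul_right, h1, Finset.sum_mul]
  refine Finset.sum_congr rfl fun s _ => ?_
  rw [map_smul, inner_smul_right, inner_smul_left, starRingEnd_apply, star_star]
  ring

variable {D : Type u} [CStarAlgebra D] [PartialOrder D] [StarOrderedRing D]

theorem KPos.nonneg {L : D →ₗ[ℂ] (H →L[ℂ] H)} (h : KPos L) {a : D} (ha : 0 ≤ a) : 0 ≤ L a := by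
  obtain ⟨c, rfl⟩ := CStarAlgebra.nonneg_iff_eq_star_mul_self.1 ha
  exact diag_nonneg_kq (h 1 fun _ => c) 0

theorem KPos.norm_le {L : D →ₗ[ℂ] (H →L[ℂ] H)} (h : KPos L) (a : D) : ‖L a‖ ≤ ‖L 1‖ * ‖a‖ := by
  have h1 : ‖L (star a * a)‖ ≤ ‖a‖ ^ 2 * ‖L 1‖ := by
    have h2 := h.nonneg (sub_nonneg.2 (CStarAlgebra.star_mul_le_algebraMap_norm_sq (a := a)))
    rw [map_sub, sub_nonneg, Algebra.algebraMap_eq_smul_one, LinearMap.map_smul_of_tower] at h2
    refine (CStarAlgebra.norm_le_norm_of_nonneg_of_le (h.nonneg (star_mul_self_nonneg a))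
      h2).trans_eq ?_
    rw [norm_smul, Real.norm_of_nonneg (sq_nonneg _)]
  have h2 : ∀ (T : H →L[ℂ] H) (x : H), (⟪x, T x⟫_ℂ).re ≤ ‖T‖ * ‖x‖ ^ 2 := fun T x => by
    refine (Complex.re_le_norm _).trans ((norm_inner_le_norm _ _).trans ?_)
    nlinarith [T.le_opNorm x, norm_nonneg x]
  refine ContinuousLinearMap.opNorm_le_bound _ (by positivity) fun y => ?_
  have h3 : ∀ t : ℝ, 0 ≤ ‖L 1‖ * ‖L a y‖ ^ 2 * (t * t) + 2 * ‖L a y‖ ^ 2 * t +
      ‖a‖ ^ 2 * ‖L 1‖ * ‖y‖ ^ 2 := fun t => by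
    have h4 := (Complex.nonneg_iff.1 (pair_kq (h 2 ![1, a]) 0 1 ((t : ℂ) • L a y) y)).1
    simp only [Matrix.cons_val_zero, Matrix.cons_val_one, star_one, mul_one, one_mul,
      Complex.add_re, h.map_star, ContinuousLinearMap.star_eq_adjoint,
      ContinuousLinearMap.adjoint_inner_right] at h4
    have h5 := h2 (L 1) ((t : ℂ) • L a y)
    have h6 := (h2 (L (star a * a)) y).trans (mul_le_mul_of_nonneg_right h1 (sq_nonneg _))
    have h7 : (⟪(t : ℂ) • L a y, L a y⟫_ℂ).re = t * ‖L a y‖ ^ 2 := by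
      rw [inner_smul_left, Complex.conj_ofReal, Complex.re_ofReal_mul]
      exact congrArg _ (inner_self_eq_norm_sq (𝕜 := ℂ) _)
    have h8 : (⟪L a y, (t : ℂ) • L a y⟫_ℂ).re = t * ‖L a y‖ ^ 2 := by
      rw [inner_smul_right, Complex.re_ofReal_mul]
      exact congrArg _ (inner_self_eq_norm_sq (𝕜 := ℂ) _)
    rw [norm_smul, mul_pow, Complex.norm_real, Real.norm_eq_abs, sq_abs] at h5
    linarith
  have h4 := discrim_le_zero h3
  rw [discrim] at h4
  rcases (norm_nonneg (L a y)).eq_or_lt with h0 | h0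
  · rw [← h0]
    positivity
  · refine le_of_sq_le_sq ?_ (by positivity)
    refine le_of_mul_le_mul_left ?_ (pow_pos h0 2)
    nlinarith

end Ulam
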