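import Pool.Agent.P.MP_3be8c7_an.AV

open scoped ComplexOrder InnerProductSpace
open Filter Topology

noncomputable section

namespace Ulam

universe u v w

section
variable {R : Type w} [CStarAlgebra R] [PartialOrder R] [StarOrderedRing R]

omit [PartialOrder R] [StarOrderedRing R] in
theorem pi_mul {w : R} (h : IsStarProjection (star w * w)) : w * (star w * w) = w := by
  have e := h.isIdempotentElem.eq
  have : star (w - w * (star w * w)) * (w - w * (star w * w)) = 0 := by
    have e2 : star (w - w * (star w * w)) * (w - w * (star w * w)) =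
        star w * w - star w * w * (star w * w) - star w * w * (star w * w) +
          star w * w * (star w * w) * (star w * w) := by
      simp only [star_sub, star_mul, star_star]
      noncomm_ring
    rw [e2, e, e]
    abel
  exact (sub_eq_zero.1 ((CStarRing.star_mul_self_eq_zero_iff _).1 this)).symm

omit [PartialOrder R] [StarOrderedRing R] in
theorem pi_star {w : R} (h : IsStarProjection (star w * w)) : IsStarProjection (w * star w) := by
  refine ⟨?_, IsSelfAdjoint.mul_star_self w⟩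
  calc w * star w * (w * star w) = w * (star w * w) * star w := by noncomm_ring
    _ = _ := by rw [pi_mul h]

omit [PartialOrder R] [StarOrderedRing R] in
theorem pi_norm_le {w : R} (h : IsStarProjection (star w * w)) : ‖w‖ ≤ 1 := by
  have h1 := h.norm_le
  rw [CStarRing.norm_star_mul_self] at h1
  nlinarith [norm_nonneg w]

/-- Projections with contractive sum are orthogonal. -/
theorem orth_of_sum {ι : Type*} [Fintype ι] (e : ι → R) (he : ∀ i, IsStarProjection (e i))
    (hs : ‖∑ i, e i‖ ≤ 1) {i j : ι} (hij : i ≠ j) : e i * e j = 0 := by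
  classical
  have h0 : 0 ≤ ∑ i, e i := Finset.sum_nonneg fun i _ => (he i).nonneg
  have h1 : ∑ i, e i ≤ 1 := (CStarAlgebra.norm_le_one_iff_of_nonneg _ h0).1 hs
  have h2 : e i + e j ≤ 1 := by
    refine le_trans ?_ h1
    rw [← Finset.sum_pair hij]
    exact Finset.sum_le_sum_of_subset_of_nonneg (Finset.subset_univ _) fun k _ _ => (he k).nonneg
  have h3 := star_left_conjugate_le_conjugate h2 (e j)
  have sj := (he j).isSelfAdjoint.star_eq
  have ij := (he j).isIdempotentElem.eq
  have h4 : star (e i * e j) * (e i * e j) = e j * e i * e j := by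
    rw [star_mul, sj, (he i).isSelfAdjoint.star_eq, mul_assoc, ← mul_assoc (e i),
      (he i).isIdempotentElem.eq, mul_assoc]
  rw [sj, mul_add, add_mul, mul_one, ij, ij, add_le_iff_nonpos_left, ← h4] at h3
  exact (CStarRing.star_mul_self_eq_zero_iff _).1 (le_antisymm h3 (star_mul_self_nonneg _))

omit [PartialOrder R] [StarOrderedRing R] in
theorem isStarProjection_sum {ι : Type*} (s : Finset ι) (e : ι → R)
    (he : ∀ i, IsStarProjection (e i)) (ho : ∀ i j, i ≠ j → e i * e j = 0) :
    IsStarProjection (∑ i ∈ s, e i) := by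
  classical
  induction s using Finset.induction_on with
  | empty => simp
  | insert a s ha ih =>
    rw [Finset.sum_insert ha]
    refine (he a).add ih ?_
    rw [Finset.mul_sum]
    exact Finset.sum_eq_zero fun k hk => ho a k fun e => ha (e ▸ hk)

/-- Norm of an operator that is diagonal for a partition of unity. -/
theorem norm_le_of_partition {T : Type*} [Fintype T] (z : T → R) (hz : ∀ t, IsStarProjection (z t))
    (ho : ∀ t t', t ≠ t' → z t * z t' = 0) (X : R) (hs : (∑ t, z t) * X = X)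
    (hc : ∀ t, Commute (z t) X) {c : ℝ} (h0 : 0 ≤ c) (h : ∀ t, ‖z t * X‖ ≤ c) : ‖X‖ ≤ c := by
  have hp := isStarProjection_sum Finset.univ z hz ho
  have h1 : ∀ t, star X * z t * X ≤ (c ^ 2) • z t := fun t => by
    have sz := (hz t).isSelfAdjoint.star_eq
    have iz := (hz t).isIdempotentElem.eq
    have c2 : z t * star X = star X * z t := by
      simpa [sz] using congrArg star (hc t).eq.symm
    have e : star X * z t * X = star (z t) * (star (z t * X) * (z t * X)) * z t := by
      rw [star_mul, sz]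
      calc star X * z t * X = star X * (z t * z t * z t * z t) * X := by rw [iz, iz, iz]
        _ = (star X * z t) * z t * z t * (z t * X) := by noncomm_ring
        _ = (z t * star X) * z t * z t * (X * z t) := by rw [c2, (hc t).eq]
        _ = _ := by noncomm_ring
    rw [e]
    refine (CStarAlgebra.star_left_conjugate_le_norm_smul (IsSelfAdjoint.star_mul_self _)).trans ?_
    rw [sz, iz, CStarRing.norm_star_mul_self]
    refine smul_le_smul_of_nonneg_right ?_ (hz t).nonneg
    nlinarith [h t, norm_nonneg (z t * X)]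
  have h2 : star X * X ≤ algebraMap ℝ R (c ^ 2) := by
    calc star X * X = ∑ t, star X * z t * X := by
          conv_lhs => rw [← congrArg (star X * ·) hs]
          simp only [Finset.sum_mul, Finset.mul_sum, mul_assoc]
      _ ≤ ∑ t, (c ^ 2) • z t := Finset.sum_le_sum fun t _ => h1 t
      _ = (c ^ 2) • ∑ t, z t := Finset.smul_sum.symm
      _ ≤ (c ^ 2) • (1 : R) := smul_le_smul_of_nonneg_left hp.le_one (sq_nonneg c)
      _ = _ := (Algebra.algebraMap_eq_smul_one _).symm
  have h3 := (CStarAlgebra.norm_le_iff_le_algebraMap _ (sq_nonneg c) (star_mul_self_nonneg X)).2 h2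
  rw [CStarRing.norm_star_mul_self] at h3
  exact abs_le_of_sq_le_sq' (by nlinarith) h0 |>.2

end

variable {H : Type v} [NormedAddCommGroup H] [InnerProductSpace ℂ H] [CompleteSpace H]

theorem sum_norm_sq_partition {T : Type*} [Fintype T] (z : T → (H →L[ℂ] H))
    (hz : ∀ t, IsStarProjection (z t)) (ho : ∀ t t', t ≠ t' → z t * z t' = 0) (hs : ∑ t, z t = 1)
    (ζ : H) : ∑ t, ‖z t ζ‖ ^ 2 = ‖ζ‖ ^ 2 := by
  have h1 : ∀ t, ((‖z t ζ‖ ^ 2 : ℝ) : ℂ) = ⟪ζ, z t ζ⟫_ℂ := fun t => by
    have := ContinuousLinearMap.adjoint_inner_right (z t) ζ (z t ζ)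
    rw [← ContinuousLinearMap.star_eq_adjoint, (hz t).isSelfAdjoint.star_eq,
      ← ContinuousLinearMap.mul_apply, (hz t).isIdempotentElem.eq, inner_self_eq_norm_sq_to_K]
      at this
    rw [this]
    norm_cast
  have h2 : ((∑ t, ‖z t ζ‖ ^ 2 : ℝ) : ℂ) = ((‖ζ‖ ^ 2 : ℝ) : ℂ) := by
    rw [Complex.ofReal_sum, Finset.sum_congr rfl fun t _ => h1 t, ← inner_sum,
      ← ContinuousLinearMap.sum_apply, hs, ContinuousLinearMap.one_apply,
      inner_self_eq_norm_sq_to_K]
    norm_cast
  exact_mod_cast h2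

theorem proj_norm_apply_le {p : H →L[ℂ] H} (hp : IsStarProjection p) (ζ : H) : ‖p ζ‖ ≤ ‖ζ‖ := by
  exact (p.le_opNorm ζ).trans (mul_le_of_le_one_left (norm_nonneg _) hp.norm_le)

variable (N : VonNeumannAlgebra H)

theorem vn_mem_of_commute {x : H →L[ℂ] H} (h : ∀ T ∈ N.commutant, Commute T x) : x ∈ N := by
  rw [← N.commutant_commutant]
  exact VonNeumannAlgebra.mem_commutant_iff.2 h

theorem vn_commute {x T : H →L[ℂ] H} (hx : x ∈ N) (hT : T ∈ N.commutant) : Commute T x := by
  exact (VonNeumannAlgebra.mem_commutant_iff.1 hT x hx).symm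

theorem vn_mem_commutant {T : H →L[ℂ] H} (h : ∀ x ∈ N, Commute T x) : T ∈ N.commutant := by
  exact VonNeumannAlgebra.mem_commutant_iff.2 fun x hx => (h x hx).symm

theorem vn_isClosed : IsClosed (N : Set (H →L[ℂ] H)) := by
  rw [← N.centralizer_centralizer]
  exact Set.isClosed_centralizer _

theorem vn_smul_mem (c : ℂ) {x : H →L[ℂ] H} (hx : x ∈ N) : c • x ∈ N := by
  exact N.toStarSubalgebra.smul_mem hx c

theorem vn_real_smul_mem (c : ℝ) {x : H →L[ℂ] H} (hx : x ∈ N) : c • x ∈ N := by
  exact vn_smul_mem N (c : ℂ) hx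

theorem vn_convex : Convex ℝ (N : Set (H →L[ℂ] H)) := by
  exact fun x hx y hy a b _ _ _ => add_mem (vn_real_smul_mem N a hx) (vn_real_smul_mem N b hy)

theorem vn_cfc_mem (f : ℝ → ℝ) {x : H →L[ℂ] H} (hx : x ∈ N) : cfc f x ∈ N := by
  exact vn_mem_of_commute N fun T hT => ((vn_commute N hx hT).symm.cfc_real f).symm

theorem vn_commute_of_unitary {T : H →L[ℂ] H}
    (h : ∀ u ∈ N, u ∈ unitary (H →L[ℂ] H) → Commute T u) : ∀ x ∈ N, Commute T x := by
  intro x hx
  haveI : IsClosed (N.toStarSubalgebra : Set (H →L[ℂ] H)) := vn_isClosed N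
  obtain ⟨u, c, e, -⟩ := CStarAlgebra.exists_sum_four_unitary (⟨x, hx⟩ : N.toStarSubalgebra)
  have e2 : x = ∑ i, c i • ((u i : N.toStarSubalgebra) : H →L[ℂ] H) := by
    simpa using congrArg (fun y : N.toStarSubalgebra => (y : H →L[ℂ] H)) e
  rw [e2]
  refine Commute.sum_right _ _ _ fun i _ => Commute.smul_right (h _ (u i).1.2 ⟨?_, ?_⟩) _
  · exact congrArg (fun y : N.toStarSubalgebra => (y : H →L[ℂ] H)) (u i).2.1
  · exact congrArg (fun y : N.toStarSubalgebra => (y : H →L[ℂ] H)) (u i).2.2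

variable {N}

theorem CProj.one : CProj N 1 := by
  exact ⟨.one _, one_mem N, fun x _ => Commute.one_left x⟩

theorem CProj.compl {z : H →L[ℂ] H} (h : CProj N z) : CProj N (1 - z) := by
  exact ⟨h.1.one_sub, sub_mem (one_mem N) h.2.1,
    fun x hx => (Commute.one_left x).sub_left (h.2.2 x hx)⟩

theorem CProj.mul {z z' : H →L[ℂ] H} (h : CProj N z) (h' : CProj N z') : CProj N (z * z') := by
  exact ⟨h.1.mul h'.1 (h.2.2 _ h'.2.1), mul_mem h.2.1 h'.2.1,
    fun x hx => (h.2.2 x hx).mul_left (h'.2.2 x hx)⟩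

theorem Abel.cmul {z e : H →L[ℂ] H} (he : Abel N e) (hz : CProj N z) : Abel N (z * e) := by
  have c := hz.2.2 e he.2.1
  have e1 : ∀ x, z * e * x * (z * e) = e * (z * x * z) * e := fun x => by
    calc z * e * x * (z * e) = (z * e) * x * z * e := by noncomm_ring
      _ = (e * z) * x * z * e := by rw [c.eq]
      _ = _ := by noncomm_ring
  refine ⟨hz.1.mul he.1 c, mul_mem hz.2.1 he.2.1, fun x hx y hy => ?_⟩
  rw [e1, e1]
  exact he.2.2 _ (mul_mem (mul_mem hz.2.1 hx) hz.2.1) _ (mul_mem (mul_mem hz.2.1 hy) hz.2.1)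

/-- A projection equivalent to an abelian projection is abelian. -/
theorem Abel.conj {e f : H →L[ℂ] H} (he : Abel N e) (hf : f ∈ N) (h : e * (star f * f) = e) :
    Abel N (f * e * star f) := by
  have e1 : ∀ x y, f * e * star f * x * (f * e * star f) * (f * e * star f * y * (f * e * star f)) =
      f * (e * (star f * x * f) * e * (e * (star f * y * f) * e)) * star f := fun x y => by
    calc _ = f * (e * (star f * x * f) * (e * (star f * f)) * (e * (star f * y * f) * e)) *
          star f := by noncomm_ring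
      _ = _ := by rw [h]
  refine ⟨⟨?_, he.1.isSelfAdjoint.conjugate f⟩, mul_mem (mul_mem hf he.2.1) (star_mem hf),
    fun x hx y hy => ?_⟩
  · calc f * e * star f * (f * e * star f) = f * (e * (star f * f) * e) * star f := by
          noncomm_ring
      _ = _ := by rw [h, he.1.isIdempotentElem.eq]
  · rw [commute_iff_eq, e1, e1, (he.2.2 _ (mul_mem (mul_mem (star_mem hf) hx) hf) _
      (mul_mem (mul_mem (star_mem hf) hy) hf)).eq]

theorem TrVec.inner_comm {ξ : H} (h : TrVec N ξ) {x y : H →L[ℂ] H} (hx : x ∈ N) (hy : y ∈ N) :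
    ⟪ξ, (x * y) ξ⟫_ℂ = ⟪ξ, (y * x) ξ⟫_ℂ := by
  have hx' := star_mem hx
  have a1 : ⟪ξ, (x * y) ξ⟫_ℂ = ⟪star x ξ, y ξ⟫_ℂ := by
    rw [ContinuousLinearMap.star_eq_adjoint, ContinuousLinearMap.adjoint_inner_left]
    rfl
  have a2 : ⟪ξ, (y * x) ξ⟫_ℂ = ⟪star y ξ, x ξ⟫_ℂ := by
    rw [ContinuousLinearMap.star_eq_adjoint, ContinuousLinearMap.adjoint_inner_left]
    rfl
  have b : ∀ c : ℂ, ‖c‖ = 1 → ‖star x ξ + c • y ξ‖ = ‖star y ξ + c • x ξ‖ := fun c hc => by
    have h1 := h _ (add_mem hx' (vn_smul_mem N c hy))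
    have h2 : c * star c = 1 := by
      rw [Complex.star_def, Complex.mul_conj, Complex.normSq_eq_norm_sq, hc]
      simp
    have h3 : star y ξ + c • x ξ = c • (star (star x + c • y) ξ) := by
      simp only [star_add, star_star, star_smul, ContinuousLinearMap.add_apply,
        ContinuousLinearMap.smul_apply, smul_add, smul_smul, h2, one_smul]
      exact add_comm _ _
    rw [h3, norm_smul, hc, one_mul, ← h1]
    rfl
  have b1 := b 1 norm_one
  have b2 := b (-1) (by simp)
  have b3 := b (-Complex.I) (by simp)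
  have b4 := b Complex.I (by simp)
  simp only [one_smul, neg_smul, ← sub_eq_add_neg] at b1 b2 b3
  rw [a1, a2, inner_eq_sum_norm_sq_div_four, inner_eq_sum_norm_sq_div_four]
  simp only [RCLike.I_to_complex]
  rw [b1, b2, b3, b4]

theorem TrVec.norm_mul_le {ξ : H} (h : TrVec N ξ) {x y : H →L[ℂ] H} (hx : x ∈ N) (hy : y ∈ N) :
    ‖(x * y) ξ‖ ≤ ‖y‖ * ‖x ξ‖ := by
  rw [h _ (mul_mem hx hy), h _ hx, star_mul, ← norm_star y]
  exact (star y).le_opNorm _

theorem TrVec.norm_conj {ξ : H} (h : TrVec N ξ) {x u : H →L[ℂ] H} (hx : x ∈ N) (hu : u ∈ N)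
    (hu' : u ∈ unitary (H →L[ℂ] H)) : ‖(u * x * star u) ξ‖ = ‖x ξ‖ := by
  have h1 : ∀ a : H →L[ℂ] H, ‖(u * a) ξ‖ = ‖a ξ‖ := fun a =>
    ContinuousLinearMap.norm_map_of_mem_unitary hu' _
  rw [mul_assoc, h1, h _ (mul_mem hx (star_mem hu)), star_mul, star_star, h1, ← h _ hx]

theorem TrVec.smul {ξ : H} (h : TrVec N ξ) (c : ℂ) : TrVec N (c • ξ) := by
  intro x hx
  rw [map_smul, map_smul, norm_smul, norm_smul, h x hx]

theorem TrVec.cproj {ξ : H} (h : TrVec N ξ) {z : H →L[ℂ] H} (hz : CProj N z) : TrVec N (z ξ) := by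
  intro x hx
  have := h _ (mul_mem hx hz.2.1)
  rw [star_mul, hz.1.isSelfAdjoint.star_eq, (hz.2.2 _ (star_mem hx)).eq] at this
  exact this

end Ulam
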