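import Pool.Agent.P.MP_3be8c7_an.KP
import Pool.Agent.P.MP_3be8c7_an.VB

open scoped ComplexOrder InnerProductSpace
open Filter Topology

noncomputable section

namespace Ulam

universe u v w

section
variable {R : Type w} [CStarAlgebra R] [PartialOrder R] [StarOrderedRing R]

variable {I Λ : Type*} [Fintype I] [DecidableEq I] {τ : I → Λ} {v : I → R}

omit [PartialOrder R] [StarOrderedRing R] [DecidableEq I] in
theorem psi_eq_tmap (v : I → R) (x : Matrix I I ℂ) : psi v x = tmap (fun j => star (v j)) x := by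
  simp only [psi, tmap, star_star]

omit [PartialOrder R] [StarOrderedRing R] [DecidableEq I] in
theorem psi_comb {ι : Type*} [Fintype ι] (v : I → R) (c : ι → ℂ) (x : ι → Matrix I I ℂ) :
    psi v (∑ i, c i • x i) = ∑ i, c i • psi v (x i) := by
  simp only [psi_eq_tmap, tmap_sum, tmap_smul]

omit [PartialOrder R] [StarOrderedRing R] in
theorem hpsi_comb {ι : Type*} [Fintype ι] (v : I → R) (c : ι → ℂ) (x : ι → Matrix I I ℂ) :
    hpsi v (∑ i, c i • x i) = ∑ i, c i • hpsi v (x i) := by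
  simp only [hpsi, psi_comb, Finset.mul_sum, mul_smul_comm]

omit [PartialOrder R] [StarOrderedRing R] [DecidableEq I] in
theorem star_psi (v : I → R) (x : Matrix I I ℂ) : star (psi v x) = psi v (star x) := by
  simp only [psi_eq_tmap, star_tmap]

omit [PartialOrder R] [StarOrderedRing R] [DecidableEq I] in
theorem continuous_psi (v : I → R) : Continuous (psi v) := by
  unfold psi
  fun_prop

omit [PartialOrder R] [StarOrderedRing R] in
theorem psi_one_ozb (v : I → R) : psi v 1 = ∑ j, v j * star (v j) := by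
  simp [psi, Matrix.one_apply]

omit [PartialOrder R] [StarOrderedRing R] [DecidableEq I] in
theorem IsOZ.star_mul_psi_ozb (h : IsOZ τ v) (x : Matrix I I ℂ) (l : I) :
    star (v l) * psi v x = ∑ k, x l k • (star (v l) * v l * star (v k)) := by
  rw [psi, Finset.mul_sum, Finset.sum_eq_single l (fun j _ e => ?_) (by simp), Finset.mul_sum]
  · simp only [mul_smul_comm, mul_assoc]
  · rw [Finset.mul_sum]
    refine Finset.sum_eq_zero fun k _ => ?_
    rw [mul_smul_comm, ← mul_assoc, h.orth l j e.symm, zero_mul, smul_zero]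

omit [PartialOrder R] [StarOrderedRing R] in
theorem IsOZ.hpsi_eq (h : IsOZ τ v) (x : Matrix I I ℂ) :
    hpsi v x = ∑ j, ∑ k, x j k • (v j * (star (v j) * v j) * star (v k)) := by
  rw [hpsi, psi_one_ozb, Finset.sum_mul]
  refine Finset.sum_congr rfl fun j _ => ?_
  rw [mul_assoc, h.star_mul_psi_ozb, Finset.mul_sum]
  simp only [mul_smul_comm, mul_assoc]

omit [PartialOrder R] [StarOrderedRing R] in
theorem IsOZ.hpsi_eq_psi (h : IsOZ τ v) (hp : ∀ j, IsStarProjection (star (v j) * v j))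
    (x : Matrix I I ℂ) : hpsi v x = psi v x := by
  rw [h.hpsi_eq, psi]
  simp only [pi_mul (hp _)]

omit [PartialOrder R] [StarOrderedRing R] in
theorem IsOZ.psi_mul (h : IsOZ τ v) {x : Matrix I I ℂ} (hx : Blk τ x) (y : Matrix I I ℂ) :
    psi v x * psi v y = hpsi v (x * y) := by
  rw [h.hpsi_eq]
  conv_lhs => rw [psi, Finset.sum_mul]
  refine Finset.sum_congr rfl fun j _ => ?_
  simp only [Matrix.mul_apply, Finset.sum_smul]
  rw [Finset.sum_comm, Finset.sum_mul]
  refine Finset.sum_congr rfl fun k _ => ?_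
  rw [smul_mul_assoc, mul_assoc, h.star_mul_psi_ozb, Finset.mul_sum, Finset.smul_sum]
  refine Finset.sum_congr rfl fun l _ => ?_
  by_cases e : τ j = τ k
  · rw [h.same j k e, mul_smul_comm, smul_smul, mul_assoc (v j)]
  · rw [hx j k e, zero_mul, zero_smul, zero_smul]

omit [PartialOrder R] [StarOrderedRing R] in
theorem IsOZ.commute (h : IsOZ τ v) {x : Matrix I I ℂ} (hx : Blk τ x) :
    Commute (psi v 1) (psi v x) := by
  have := h.psi_mul hx 1
  rw [mul_one] at this
  exact this.symm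

omit [PartialOrder R] [StarOrderedRing R] in
theorem IsOZ.hpsi_mul (h : IsOZ τ v) {x : Matrix I I ℂ} (hx : Blk τ x) (y : Matrix I I ℂ) :
    hpsi v x * hpsi v y = hpsi v 1 * hpsi v (x * y) := by
  have e : hpsi v x * hpsi v y = psi v 1 * (psi v x * psi v 1) * psi v y := by
    simp only [hpsi, mul_assoc]
  rw [e, ← (h.commute hx).eq, ← h.psi_mul hx y]
  simp only [hpsi, mul_assoc]

omit [PartialOrder R] [StarOrderedRing R] in
theorem IsOZ.commute_hpsi (h : IsOZ τ v) {x : Matrix I I ℂ} (hx : Blk τ x) :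
    Commute (hpsi v 1) (hpsi v x) := by
  exact ((Commute.refl _).mul_right (h.commute hx)).mul_left
    ((Commute.refl _).mul_right (h.commute hx))

theorem IsOZ.norm_sum_le (h : IsOZ τ v) : ‖∑ j, v j * star (v j)‖ ≤ 1 := by
  classical
  have h0 : 0 ≤ psi v 1 := by
    rw [psi_one_ozb]
    exact Finset.sum_nonneg fun j _ => mul_star_self_nonneg _
  have h1 : psi v 1 * psi v 1 ≤ psi v 1 := by
    have e : psi v 1 * psi v 1 = ∑ j, v j * (star (v j) * v j) * star (v j) := by
      rw [← hpsi, h.hpsi_eq]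
      simp [Matrix.one_apply]
    rw [e, psi_one_ozb]
    refine Finset.sum_le_sum fun j _ => ?_
    have a1 : star (v j) * v j ≤ 1 := by
      rw [← CStarAlgebra.norm_le_one_iff_of_nonneg _ (star_mul_self_nonneg _),
        CStarRing.norm_star_mul_self]
      exact mul_le_one₀ (h.norm_le j) (norm_nonneg _) (h.norm_le j)
    simpa using star_right_conjugate_le_conjugate a1 (v j)
  have h2 := CStarAlgebra.norm_le_norm_of_nonneg_of_le h0.isSelfAdjoint.mul_self_nonneg h1
  rw [h0.isSelfAdjoint.norm_mul_self] at h2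
  rw [← psi_one_ozb]
  nlinarith [norm_nonneg (psi v 1)]

theorem IsOZ.norm_psi_le (h : IsOZ τ v) {x : Matrix I I ℂ} (hx : Contr x) : ‖psi v x‖ ≤ 1 := by
  rw [psi_eq_tmap]
  exact norm_tmap_le _ (by simpa only [star_star] using h.norm_sum_le) hx

theorem IsOZ.norm_hpsi_le (h : IsOZ τ v) {x : Matrix I I ℂ} (hx : Contr x) : ‖hpsi v x‖ ≤ 1 := by
  exact (norm_mul_le _ _).trans (mul_le_one₀ (h.norm_psi_le (contr_of_unitary (by simp)))
    (norm_nonneg _) (h.norm_psi_le hx))

omit [PartialOrder R] [StarOrderedRing R] in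
theorem map_hpsi {S : Type*} [CStarAlgebra S] (π : R →⋆ₐ[ℂ] S) (v : I → R) (x : Matrix I I ℂ) :
    π (hpsi v x) = hpsi (fun j => π (v j)) x := by
  simp only [hpsi, psi, map_mul, map_sum, map_smul, map_star]

end

variable {D : Type u} [CStarAlgebra D] [PartialOrder D] [StarOrderedRing D]

theorem SData.norm_ev_le {R : Type w} [CStarAlgebra R] [PartialOrder R] [StarOrderedRing R]
    (s : SData D R) {a : D} (ha : ‖a‖ ≤ 1) : ‖s.ev a‖ ≤ 1 := by
  have h1 := s.oz.norm_hpsi_le (s.ccp.contr ha)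
  have h2 : √‖∑ i, star (s.c i) * s.c i‖ ≤ 1 := Real.sqrt_le_one.2 s.col
  exact (norm_sum_sandwich_le _ _ _).trans
    (mul_le_one₀ (mul_le_one₀ h1 (Real.sqrt_nonneg _) h2) (Real.sqrt_nonneg _) h2)

variable {H : Type v} [NormedAddCommGroup H] [InnerProductSpace ℂ H] [CompleteSpace H]

variable {π : D →⋆ₐ[ℂ] (H →L[ℂ] H)} {N : VonNeumannAlgebra H} {U : Finset D}

omit [PartialOrder D] [StarOrderedRing D] in
theorem SData.ev_mem (s : SData D (H →L[ℂ] H)) (hs : s.In N) (a : D) : s.ev a ∈ N := by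
  have h1 : ∀ x, psi s.v x ∈ N := fun x => by
    rw [psi_eq_tmap]
    exact tmap_mem N _ (fun k => star_mem (hs.1 k)) x
  exact sum_mem fun i _ => mul_mem (mul_mem (star_mem (hs.2.2 i)) (mul_mem (h1 _) (h1 _)))
    (hs.2.2 i)

omit [PartialOrder D] [StarOrderedRing D] in
theorem Good.mono {ζ : H} {e e' : ℝ} (h : Good π N U ζ e) (he : e ≤ e') : Good π N U ζ e' := by
  obtain ⟨s, h1, h2⟩ := h
  exact ⟨s, h1, fun u hu => (h2 u hu).trans he⟩

omit [PartialOrder D] [StarOrderedRing D] in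
theorem Good.smul {ζ : H} {e : ℝ} (h : Good π N U ζ e) (c : ℂ) :
    Good π N U (c • ζ) (‖c‖ ^ 2 * e) := by
  obtain ⟨s, h1, h2⟩ := h
  refine ⟨s, h1, fun u hu => ?_⟩
  rw [map_smul, norm_smul, mul_pow]
  exact mul_le_mul_of_nonneg_left (h2 u hu) (sq_nonneg _)

omit [PartialOrder D] [StarOrderedRing D] in
theorem Good.zero : Good π N U 0 0 := by
  refine ⟨{ I := Empty, Λ := Empty, κ := Empty, τ := id, θ := 0, v := fun j => j.elim,
            c := fun j => j.elim, oz := ⟨fun j => j.elim, fun j => j.elim, fun j => j.elim⟩,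
            ccp := ⟨?_, ?_⟩, blk := fun _ j => j.elim, col := by simp, row := by simp },
    ⟨fun j => j.elim, fun j => j.elim, fun j => j.elim⟩, fun u _ => by simp⟩
  · have : (Matrix.of fun p q : D × Empty =>
        (0 : D →ₗ[ℂ] Matrix Empty Empty ℂ) (star p.1 * q.1) p.2 q.2) = 0 :=
      Matrix.ext fun p _ => p.2.elim
    rw [KPosM, this]
    exact Matrix.PosSemidef.zero
  · rw [Subsingleton.elim (1 - _) 0]
    exact Matrix.PosSemidef.zero

/-- Transfer to a vector dominated by `ξ`. -/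
theorem Good.dom {ξ ζ : H} {e e' : ℝ} (h : Good π N U ξ e) (hπ : ∀ a, π a ∈ N)
    (hU : ∀ u ∈ U, ‖u‖ ≤ 1) (hd : ∀ y ∈ N, ‖y‖ ≤ 2 → ‖y ξ‖ ^ 2 ≤ e → ‖y ζ‖ ^ 2 ≤ e') :
    Good π N U ζ e' := by
  obtain ⟨s, h1, h2⟩ := h
  refine ⟨s, h1, fun u hu => hd _ (sub_mem (hπ u) (s.ev_mem h1 u)) ?_ (h2 u hu)⟩
  have a1 : ‖π u‖ ≤ 1 := (NonUnitalStarAlgHom.norm_apply_le π u).trans (hU u hu)
  have a2 := s.norm_ev_le (hU u hu)
  linarith [norm_sub_le (π u) (s.ev u)]

end Ulam
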