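import Pool.Agent.P.MP_3be8c7_an.BUB
import Pool.Agent.P.MP_3be8c7_an.OZB
import Pool.Agent.P.MP_3be8c7_an.APX
import Pool.Agent.P.MP_3be8c7_an.KQ

open scoped ComplexOrder InnerProductSpace
open Filter Topology

noncomputable section

namespace Ulam

universe u v w

variable {D : Type u} [CStarAlgebra D] [PartialOrder D] [StarOrderedRing D]
variable {H : Type v} [NormedAddCommGroup H] [InnerProductSpace ℂ H] [CompleteSpace H]

open MeasureTheory in
lemma avg_haar1 {G : Type*} [Group G] [TopologicalSpace G] [IsTopologicalGroup G]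
    [CompactSpace G] [SecondCountableTopology G] (Θ : G → (H →L[ℂ] H)) (hΘ : Continuous Θ) :
    ∃ P : G → (H →L[ℂ] H), Continuous P ∧
      (∀ (m : ℕ) (a : Fin m → G), KerPos fun i j => P ((a i)⁻¹ * a j)) ∧
      ∀ w, ∀ s : Set (H →L[ℂ] H), Convex ℝ s → IsClosed s →
        (∀ g, star (Θ g) * Θ (g * w) ∈ s) → P w ∈ s := by
  borelize G
  let μ : Measure G := Measure.haarMeasure ⊤
  have : IsProbabilityMeasure μ := ⟨by
    have := Measure.haarMeasure_self (G := G) (K₀ := ⊤)
    simpa using this⟩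
  have hint : ∀ {E : Type v} [NormedAddCommGroup E] (f : G → E), Continuous f → Integrable f μ :=
    fun f hf => hf.integrable_of_hasCompactSupport (HasCompactSupport.of_compactSpace f)
  have hintC : ∀ f : G → ℂ, Continuous f → Integrable f μ :=
    fun f hf => hf.integrable_of_hasCompactSupport (HasCompactSupport.of_compactSpace f)
  refine ⟨fun w => ∫ g, star (Θ g⁻¹) * Θ (g⁻¹ * w) ∂μ, ?_, ?_, ?_⟩
  · have := continuous_parametric_integral_of_continuous (μ := μ)
      (f := fun (w g : G) => star (Θ g⁻¹) * Θ (g⁻¹ * w)) (by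
        unfold Function.uncurry
        fun_prop) isCompact_univ
    simpa using this
  · intro m a ξ
    have e1 : ∀ i j, ⟪ξ i, (∫ g, star (Θ g⁻¹) * Θ (g⁻¹ * ((a i)⁻¹ * a j)) ∂μ) (ξ j)⟫_ℂ =
        ∫ g, ⟪Θ (g⁻¹ * a i) (ξ i), Θ (g⁻¹ * a j) (ξ j)⟫_ℂ ∂μ := by
      intro i j
      have e2 := integral_mul_left_eq_self (μ := μ)
        (fun g => star (Θ (g⁻¹ * a i)) * Θ (g⁻¹ * a j)) (a i)
      simp only [mul_inv_rev, mul_assoc, inv_mul_cancel, mul_one] at e2
      have c1 : Continuous fun g : G => star (Θ (g⁻¹ * a i)) * Θ (g⁻¹ * a j) := by fun_prop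
      rw [e2, ContinuousLinearMap.integral_apply (hint _ c1), ← integral_inner (hint _ (by
        exact c1.clm_apply continuous_const))]
      refine integral_congr_ae (Eventually.of_forall fun g => ?_)
      simp only [mul_apply_eq_comp, ContinuousLinearMap.star_eq_adjoint,
        ContinuousLinearMap.adjoint_inner_right]
    have c2 : ∀ i j, Continuous fun g : G => ⟪Θ (g⁻¹ * a i) (ξ i), Θ (g⁻¹ * a j) (ξ j)⟫_ℂ := by
      intro i j
      exact ((hΘ.comp (by fun_prop)).clm_apply continuous_const).inner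
        ((hΘ.comp (by fun_prop)).clm_apply continuous_const)
    simp only [e1]
    have e3 : ∑ i, ∑ j, ∫ g, ⟪Θ (g⁻¹ * a i) (ξ i), Θ (g⁻¹ * a j) (ξ j)⟫_ℂ ∂μ =
        ∫ g, ((‖∑ i, Θ (g⁻¹ * a i) (ξ i)‖ ^ 2 : ℝ) : ℂ) ∂μ := by
      simp only [← integral_finsetSum _ fun j _ => hintC _ (c2 _ j)]
      rw [← integral_finsetSum _ fun i _ => hintC _ (continuous_finsetSum _ fun j _ => c2 i j)]
      refine integral_congr_ae (Eventually.of_forall fun g => ?_)
      simp only [← inner_sum, ← sum_inner, inner_self_eq_norm_sq_to_K]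
      simp
    rw [e3, integral_complex_ofReal]
    exact Complex.zero_le_real.2 (integral_nonneg fun g => by positivity)
  · intro w s hs hc h
    exact hs.integral_mem hc (Eventually.of_forall fun g => h g⁻¹) (hint _ (by fun_prop))

theorem haar1 (M : VonNeumannAlgebra H) {φ : D → (H →L[ℂ] H)} {ε : ℝ} (hε : 0 < ε)
    (hφ : EpsHom φ ε) (hM : ∀ a, φ a ∈ M) {I Λ : Type} [Fintype I] [DecidableEq I] {τ : I → Λ}
    {v : I → D} (hv : IsOZ τ v) :
    ∃ P : BU τ → (H →L[ℂ] H), Continuous P ∧ KPos P ∧ (∀ w, P w ∈ M) ∧ (∀ w, ‖P w‖ ≤ 1) ∧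
      ∀ w, ‖P w - φ (hpsi v w.mat)‖ ≤ 12 * ε := by
  have hn : ∀ g : BU τ, ‖psi v g.mat‖ ≤ 1 := fun g => hv.norm_psi_le g.contr
  have hc : Continuous fun g : BU τ => psi v g.mat := (continuous_psi v).comp BU.continuous_mat
  obtain ⟨Θ, hΘ⟩ := exists_continuous_forall_mem_convex_of_local_const
    (t := fun g : BU τ => Metric.closedBall (φ (psi v g.mat)) (5 * ε) ∩
      ((M : Set (H →L[ℂ] H)) ∩ Metric.closedBall 0 1))
    (fun g => (convex_closedBall _ _).inter ((vn_convex M).inter (convex_closedBall _ _)))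
    (fun g₀ => ⟨φ (psi v g₀.mat), by
      have := hc.continuousAt (x := g₀) |>.eventually (Metric.ball_mem_nhds _ hε)
      filter_upwards [this] with g hg
      refine ⟨?_, hM _, ?_⟩
      · rw [mem_closedBall_iff_norm]
        have h1 := hφ.lip _ _ (hn g₀) (hn g)
        rw [dist_comm, dist_eq_norm] at hg
        linarith
      · rw [mem_closedBall_zero_iff]
        exact hφ.ball _ (hn g₀)⟩)
  have h1 : ∀ g, ‖Θ g - φ (psi v g.mat)‖ ≤ 5 * ε := fun g => mem_closedBall_iff_norm.1 (hΘ g).1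
  have h2 : ∀ g, Θ g ∈ M := fun g => (hΘ g).2.1
  have h3 : ∀ g, ‖Θ g‖ ≤ 1 := fun g => mem_closedBall_zero_iff.1 (hΘ g).2.2
  obtain ⟨P, hP, hK, hS⟩ := avg_haar1 Θ Θ.continuous
  refine ⟨P, hP, fun m a => hK m a, fun w => ?_, fun w => ?_, fun w => ?_⟩
  · exact hS w _ (vn_convex M) (vn_isClosed M) fun g => mul_mem (star_mem (h2 _)) (h2 _)
  · refine mem_closedBall_zero_iff.1 (hS w _ (convex_closedBall _ _) Metric.isClosed_closedBall
      fun g => mem_closedBall_zero_iff.2 ?_)
    refine (norm_mul_le _ _).trans ?_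
    rw [norm_star]
    exact mul_le_one₀ (h3 _) (norm_nonneg _) (h3 _)
  · refine mem_closedBall_iff_norm.1 (hS w _ (convex_closedBall _ _) Metric.isClosed_closedBall
      fun g => mem_closedBall_iff_norm.2 ?_)
    have e1 : hpsi v w.mat = star (psi v g.mat) * psi v (g * w).mat := by
      rw [star_psi, ← BU.mat_star, hv.psi_mul (star g).blk, BU.mat_star, BU.mat_mul, ← mul_assoc,
        BU.star_mul_self, one_mul]
    have k1 := hφ.star_mul _ _ (hn g) (hn (g * w))
    rw [← e1] at k1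
    set A := Θ g
    set B := Θ (g * w)
    set A' := φ (psi v g.mat)
    set B' := φ (psi v (g * w).mat)
    have e2 : star A * B - φ (hpsi v w.mat) =
        star (A - A') * B + star A' * (B - B') - (φ (hpsi v w.mat) - star A' * B') := by
      rw [star_sub]
      noncomm_ring
    have k2 : ‖star (A - A') * B‖ ≤ 5 * ε := by
      refine (norm_mul_le _ _).trans ?_
      rw [norm_star]
      exact (mul_le_of_le_one_right (norm_nonneg _) (h3 _)).trans (h1 _)
    have k3 : ‖star A' * (B - B')‖ ≤ 5 * ε := by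
      refine (norm_mul_le _ _).trans ?_
      rw [norm_star]
      exact (mul_le_of_le_one_left (norm_nonneg _) (hφ.ball _ (hn g))).trans (h1 _)
    rw [e2]
    refine (norm_sub_le _ _).trans ?_
    linarith [norm_add_le (star (A - A') * B) (star A' * (B - B'))]

end Ulam
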