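import Pool.Agent.P.MP_3be8c7_an.AV

open scoped ComplexOrder InnerProductSpace
open Filter Topology

noncomputable section

namespace Ulam

universe u v w

section
variable {I : Type*} [Fintype I]

open scoped MatrixOrder Matrix.Norms.L2Operator in
theorem psd_tm {x : Matrix I I ℂ} (h : x.PosSemidef) : ∃ B : Matrix I I ℂ, x = star B * B := by
  classical
  exact CStarAlgebra.nonneg_iff_eq_star_mul_self.1 h.nonneg

theorem qf_tm {E : Type*} [NormedAddCommGroup E] [InnerProductSpace ℂ E] (B : Matrix I I ℂ)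
    (ξ : I → E) : ∑ j, ((‖∑ k, B j k • ξ k‖ : ℂ)) ^ 2 =
      ∑ k, ∑ l, (star B * B) k l * ⟪ξ k, ξ l⟫_ℂ := by
  have e : ∀ j, ((‖∑ k, B j k • ξ k‖ : ℂ)) ^ 2 =
      ∑ k, ∑ l, star (B j k) * B j l * ⟪ξ k, ξ l⟫_ℂ := fun j => by
    have := inner_self_eq_norm_sq_to_K (𝕜 := ℂ) (∑ k, B j k • ξ k)
    refine this.symm.trans ?_
    simp only [sum_inner, inner_sum, inner_smul_left, inner_smul_right, Finset.mul_sum]
    rw [Finset.sum_comm]
    refine Finset.sum_congr rfl fun k _ => Finset.sum_congr rfl fun l _ => ?_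
    simp only [Complex.star_def]
    ring
  simp only [e, Matrix.mul_apply, Matrix.star_apply, Finset.sum_mul]
  rw [Finset.sum_comm]
  exact Finset.sum_congr rfl fun k _ => Finset.sum_comm

variable [DecidableEq I]

open scoped MatrixOrder Matrix.Norms.L2Operator in
theorem contr_iff_tm {x : Matrix I I ℂ} : Contr x ↔ ‖x‖ ≤ 1 := by
  unfold Contr
  rw [← Matrix.le_iff, ← CStarAlgebra.norm_le_one_iff_of_nonneg _ (star_mul_self_nonneg x),
    CStarRing.norm_star_mul_self]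
  constructor <;> intro h <;> nlinarith [norm_nonneg x]

open scoped Matrix.Norms.L2Operator in
theorem norm_star_tm (x : Matrix I I ℂ) : ‖star x‖ = ‖x‖ := norm_star x

open scoped Matrix.Norms.L2Operator in
theorem norm_mul_tm {x y : Matrix I I ℂ} (hx : ‖x‖ ≤ 1) (hy : ‖y‖ ≤ 1) : ‖x * y‖ ≤ 1 :=
  (norm_mul_le x y).trans (mul_le_one₀ hx (norm_nonneg _) hy)

theorem col_tm {x : Matrix I I ℂ} (h : Contr x) (k : I) : ∑ j, ‖x j k‖ ^ 2 ≤ 1 := by
  have h1 := (Matrix.PosSemidef.diag_nonneg h (i := k)).1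
  have e : ∀ j, (star (x j k) * x j k).re = ‖x j k‖ ^ 2 := fun j => by
    rw [Complex.star_def, Complex.conj_mul']
    norm_cast
  simp only [Matrix.sub_apply, Matrix.one_apply_eq, Matrix.mul_apply, Matrix.star_apply,
    Complex.sub_re, Complex.re_sum, Complex.one_re, Complex.zero_re, e] at h1
  linarith

end

section
variable {I : Type*} [Fintype I] [DecidableEq I]

theorem Contr.star {x : Matrix I I ℂ} (h : Contr x) : Contr (star x) := by
  rw [contr_iff_tm] at h ⊢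
  rwa [norm_star_tm]

theorem Contr.mul {x y : Matrix I I ℂ} (hx : Contr x) (hy : Contr y) : Contr (x * y) := by
  rw [contr_iff_tm] at hx hy ⊢
  exact norm_mul_tm hx hy

theorem Contr.norm_apply_le {x : Matrix I I ℂ} (h : Contr x) (j k : I) : ‖x j k‖ ≤ 1 := by
  have h1 := col_tm h k
  have h2 : ‖x j k‖ ^ 2 ≤ ∑ j, ‖x j k‖ ^ 2 :=
    Finset.single_le_sum (f := fun j => ‖x j k‖ ^ 2) (fun _ _ => by positivity) (Finset.mem_univ j)
  nlinarith [norm_nonneg (x j k)]

theorem Contr.sum_sq_le {x : Matrix I I ℂ} (h : Contr x) :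
    ∑ j, ∑ k, ‖x j k‖ ^ 2 ≤ Fintype.card I := by
  rw [Finset.sum_comm]
  calc ∑ k, ∑ j, ‖x j k‖ ^ 2 ≤ ∑ _k : I, (1 : ℝ) := Finset.sum_le_sum fun k _ => col_tm h k
    _ = _ := by simp

theorem contr_of_unitary {x : Matrix I I ℂ} (h : Star.star x * x = 1) : Contr x := by
  unfold Contr
  rw [h, sub_self]
  exact Matrix.PosSemidef.zero

/-- A contraction acts contractively on columns of vectors. -/
theorem Contr.sum_norm_sq_le {E : Type*} [NormedAddCommGroup E] [InnerProductSpace ℂ E]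
    {x : Matrix I I ℂ} (h : Contr x) (ξ : I → E) :
    ∑ j, ‖∑ k, x j k • ξ k‖ ^ 2 ≤ ∑ k, ‖ξ k‖ ^ 2 := by
  obtain ⟨B, hB⟩ := psd_tm h
  have h1 : (1 : Matrix I I ℂ) = Star.star x * x + Star.star B * B := by rw [← hB]; abel
  have h2 := qf_tm (1 : Matrix I I ℂ) ξ
  rw [star_one, one_mul] at h2
  have h3 : ∀ j, ∑ k, (1 : Matrix I I ℂ) j k • ξ k = ξ j := fun j => by
    simp [Matrix.one_apply, ite_smul]
  simp only [h3] at h2
  rw [h1] at h2
  simp only [Matrix.add_apply, add_mul, Finset.sum_add_distrib, ← qf_tm] at h2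
  have h4 : ∑ k, ‖ξ k‖ ^ 2 = ∑ j, ‖∑ k, x j k • ξ k‖ ^ 2 + ∑ j, ‖∑ k, B j k • ξ k‖ ^ 2 := by
    exact_mod_cast h2
  have h5 : 0 ≤ ∑ j, ‖∑ k, B j k • ξ k‖ ^ 2 := Finset.sum_nonneg fun _ _ => by positivity
  linarith

end

section
variable {I R : Type*} [Fintype I] [NonUnitalCStarAlgebra R]

theorem tmap_add (b : I → R) (x y : Matrix I I ℂ) : tmap b (x + y) = tmap b x + tmap b y := by
  simp [tmap, add_smul, Finset.sum_add_distrib]

theorem tmap_sub (b : I → R) (x y : Matrix I I ℂ) : tmap b (x - y) = tmap b x - tmap b y := by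
  simp [tmap, sub_smul, Finset.sum_sub_distrib]

theorem tmap_smul (b : I → R) (c : ℂ) (x : Matrix I I ℂ) : tmap b (c • x) = c • tmap b x := by
  simp [tmap, Finset.smul_sum, smul_smul]

theorem tmap_real_smul (b : I → R) (c : ℝ) (x : Matrix I I ℂ) :
    tmap b (c • x) = c • tmap b x := by
  rw [← Complex.coe_smul, tmap_smul, Complex.coe_smul]

theorem tmap_sum {ι : Type*} (s : Finset ι) (b : I → R) (x : ι → Matrix I I ℂ) :
    tmap b (∑ i ∈ s, x i) = ∑ i ∈ s, tmap b (x i) := by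
  classical
  induction s using Finset.induction_on with
  | empty => simp [tmap]
  | insert a s ha ih => rw [Finset.sum_insert ha, Finset.sum_insert ha, tmap_add, ih]

theorem tmap_av {ι : Type*} [Fintype ι] (b : I → R) (x : ι → Matrix I I ℂ) :
    tmap b (av x) = av fun i => tmap b (x i) := by
  unfold av
  rw [tmap_real_smul, tmap_sum]

theorem tmap_one [DecidableEq I] (b : I → R) : tmap b 1 = ∑ k, star (b k) * b k := by
  simp [tmap, Matrix.one_apply, ite_smul]

theorem star_tmap (b : I → R) (x : Matrix I I ℂ) : star (tmap b x) = tmap b (star x) := by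
  unfold tmap
  rw [Finset.sum_comm]
  simp [star_sum, star_smul, star_mul, Matrix.star_apply]

theorem tmap_eq_tm (b : I → R) (x : Matrix I I ℂ) :
    tmap b x = ∑ j, star (b j) * ∑ k, x j k • b k := by
  simp only [tmap, Finset.mul_sum, mul_smul_comm]

theorem tmap_star_mul_tm (b : I → R) (x : Matrix I I ℂ) :
    tmap b (star x * x) = ∑ j, star (∑ k, x j k • b k) * ∑ k, x j k • b k := by
  simp only [tmap, Matrix.mul_apply, Matrix.star_apply, Finset.sum_smul, star_sum, star_smul,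
    Finset.sum_mul, Finset.mul_sum, smul_mul_smul_comm]
  rw [Finset.sum_comm]
  refine Eq.trans (Finset.sum_congr rfl fun k _ => Finset.sum_comm) ?_
  exact Finset.sum_comm

end

section
variable {R : Type w} [CStarAlgebra R] [PartialOrder R] [StarOrderedRing R]

variable {I ι : Type*} [Fintype I] [Fintype ι]

theorem sq_le_col_tm (c : ι → R) (i : ι) : ‖c i‖ * ‖c i‖ ≤ ‖∑ i, star (c i) * c i‖ := by
  rw [← CStarRing.norm_star_mul_self]
  exact CStarAlgebra.norm_le_norm_of_nonneg_of_le (star_mul_self_nonneg _)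
    (Finset.single_le_sum (f := fun i => star (c i) * c i) (fun _ _ => star_mul_self_nonneg _)
      (Finset.mem_univ i))

/-- Column Cauchy-Schwarz inequality, order form. -/
theorem col_cs (b w : ι → R) (hb : ‖∑ i, star (b i) * b i‖ ≤ 1) :
    star (∑ i, star (b i) * w i) * (∑ i, star (b i) * w i) ≤ ∑ i, star (w i) * w i := by
  set s := ∑ i, star (b i) * w i with hs
  have h0 : 0 ≤ ∑ i, star (w i - b i * s) * (w i - b i * s) :=
    Finset.sum_nonneg fun i _ => star_mul_self_nonneg _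
  have h1 : ∑ i, star (w i) * b i = star s := by simp [hs, star_sum, star_mul]
  have h2 : ∑ i, star (w i - b i * s) * (w i - b i * s) =
      ∑ i, star (w i) * w i - star s * s - star s * s + star s * (∑ i, star (b i) * b i) * s := by
    have e : ∀ i, star (w i - b i * s) * (w i - b i * s) = star (w i) * w i -
        star (w i) * b i * s - star s * (star (b i) * w i) + star s * (star (b i) * b i) * s := by
      intro i
      simp only [star_sub, star_mul]
      noncomm_ring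
    simp only [e, Finset.sum_add_distrib, Finset.sum_sub_distrib, ← Finset.sum_mul,
      ← Finset.mul_sum, h1, ← hs]
  have h3 : ∑ i, star (b i) * b i ≤ 1 := (CStarAlgebra.norm_le_one_iff_of_nonneg _
    (Finset.sum_nonneg fun i _ => star_mul_self_nonneg _)).1 hb
  have h4 := star_left_conjugate_le_conjugate h3 s
  rw [mul_one] at h4
  rw [h2] at h0
  have h5 : ∑ i, star (w i) * w i - star s * s - star s * s + star s * (∑ i, star (b i) * b i) * s
      ≤ ∑ i, star (w i) * w i - star s * s - star s * s + star s * s := by gcongr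
  have h6 := h0.trans h5
  rwa [sub_add_cancel, sub_nonneg] at h6

/-- Column Cauchy-Schwarz inequality, norm form. -/
theorem norm_sum_sandwich_le (x y : ι → R) (T : R) :
    ‖∑ i, star (x i) * T * y i‖ ≤ ‖T‖ * √‖∑ i, star (x i) * x i‖ * √‖∑ i, star (y i) * y i‖ := by
  set a := ‖∑ i, star (x i) * x i‖ with ha
  rcases (norm_nonneg (∑ i, star (x i) * x i)).eq_or_lt with h0 | h0
  · have h1 : ∀ i, x i = 0 := fun i => by
      have := sq_le_col_tm x i
      rw [← h0] at this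
      exact norm_eq_zero.1 (by nlinarith [norm_nonneg (x i)])
    simp only [h1, star_zero, zero_mul, Finset.sum_const_zero, norm_zero]
    positivity
  · rw [← ha] at h0
    have hq : 0 < √a := Real.sqrt_pos.2 h0
    have hb : ‖∑ i, star ((√a)⁻¹ • x i) * ((√a)⁻¹ • x i)‖ ≤ 1 := by
      simp only [star_smul, star_trivial, smul_mul_smul_comm, ← Finset.smul_sum, norm_smul, ← ha]
      rw [← mul_inv, Real.mul_self_sqrt h0.le, Real.norm_of_nonneg (by positivity),
        inv_mul_cancel₀ h0.ne']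
    have h1 := col_cs (fun i => (√a)⁻¹ • x i) (fun i => T * y i) hb
    have h2 : ∑ i, star (T * y i) * (T * y i) ≤ (‖T‖ * ‖T‖) • ∑ i, star (y i) * y i := by
      rw [Finset.smul_sum]
      refine Finset.sum_le_sum fun i _ => ?_
      have := CStarAlgebra.star_left_conjugate_le_norm_smul (a := y i) (b := star T * T)
        (IsSelfAdjoint.star_mul_self T)
      rw [CStarRing.norm_star_mul_self] at this
      simpa only [star_mul, mul_assoc] using this
    have h3 := CStarAlgebra.norm_le_norm_of_nonneg_of_le (star_mul_self_nonneg _) (h1.trans h2)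
    simp only [star_smul, star_trivial, smul_mul_assoc, ← Finset.smul_sum, ← mul_assoc] at h3
    rw [mul_smul_comm, smul_smul, norm_smul, norm_smul, CStarRing.norm_star_mul_self, ← mul_inv,
      Real.mul_self_sqrt h0.le, Real.norm_of_nonneg (by positivity),
      Real.norm_of_nonneg (by positivity), inv_mul_le_iff₀ h0] at h3
    refine (abs_le_of_sq_le_sq' ?_ (by positivity)).2
    rw [mul_pow, mul_pow, Real.sq_sqrt h0.le, Real.sq_sqrt (norm_nonneg _)]
    nlinarith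

theorem norm_av_sandwich_le (x y : ι → R) (T : R) :
    ‖av fun i => star (x i) * T * y i‖ ≤
      ‖T‖ * √‖av fun i => star (x i) * x i‖ * √‖av fun i => star (y i) * y i‖ := by
  have h := norm_sum_sandwich_le x y T
  have hc : (0 : ℝ) ≤ (Fintype.card ι : ℝ)⁻¹ := by positivity
  simp only [av, norm_smul, Real.norm_of_nonneg hc, Real.sqrt_mul hc]
  calc _ ≤ (Fintype.card ι : ℝ)⁻¹ *
        (‖T‖ * √‖∑ i, star (x i) * x i‖ * √‖∑ i, star (y i) * y i‖) := by gcongr
    _ = (√(Fintype.card ι : ℝ)⁻¹ * √(Fintype.card ι : ℝ)⁻¹) *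
        (‖T‖ * √‖∑ i, star (x i) * x i‖ * √‖∑ i, star (y i) * y i‖) := by
      rw [Real.mul_self_sqrt hc]
    _ = _ := by ring

theorem norm_le_one_of_col (c : ι → R) (hc : ‖∑ i, star (c i) * c i‖ ≤ 1) (i : ι) : ‖c i‖ ≤ 1 := by
  have := sq_le_col_tm c i
  nlinarith [norm_nonneg (c i)]

theorem tmap_nonneg (b : I → R) {x : Matrix I I ℂ} (hx : x.PosSemidef) : 0 ≤ tmap b x := by
  obtain ⟨B, rfl⟩ := psd_tm hx
  rw [tmap_star_mul_tm]
  exact Finset.sum_nonneg fun i _ => star_mul_self_nonneg _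

/-- `x ≤ t` implies `tmap b x ≤ t`. -/
theorem tmap_le [DecidableEq I] (b : I → R) (hb : ‖∑ k, star (b k) * b k‖ ≤ 1) {x : Matrix I I ℂ}
    {t : ℝ} (ht : 0 ≤ t) (hx : (t • (1 : Matrix I I ℂ) - x).PosSemidef) :
    tmap b x ≤ t • (1 : R) := by
  have h1 := tmap_nonneg b hx
  rw [tmap_sub, tmap_real_smul, tmap_one, sub_nonneg] at h1
  have h3 : ∑ i, star (b i) * b i ≤ 1 := (CStarAlgebra.norm_le_one_iff_of_nonneg _
    (Finset.sum_nonneg fun i _ => star_mul_self_nonneg _)).1 hb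
  exact h1.trans (smul_le_smul_of_nonneg_left h3 ht)

/-- Kadison-Schwarz inequality. -/
theorem tmap_ks (b : I → R) (hb : ‖∑ k, star (b k) * b k‖ ≤ 1) (x : Matrix I I ℂ) :
    star (tmap b x) * tmap b x ≤ tmap b (star x * x) := by
  rw [tmap_star_mul_tm, tmap_eq_tm]
  exact col_cs b _ hb

theorem norm_tmap_le [DecidableEq I] (b : I → R) (hb : ‖∑ k, star (b k) * b k‖ ≤ 1)
    {x : Matrix I I ℂ} (hx : Contr x) : ‖tmap b x‖ ≤ 1 := by
  have h1 := (tmap_ks b hb x).trans (tmap_le b hb zero_le_one (x := star x * x)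
    (by rw [one_smul]; exact hx))
  rw [one_smul, ← CStarAlgebra.norm_le_one_iff_of_nonneg _ (star_mul_self_nonneg _),
    CStarRing.norm_star_mul_self] at h1
  nlinarith [norm_nonneg (tmap b x)]

omit [PartialOrder R] [StarOrderedRing R] in
theorem map_tmap {S : Type*} [CStarAlgebra S] (π : R →⋆ₐ[ℂ] S) (b : I → R) (x : Matrix I I ℂ) :
    π (tmap b x) = tmap (fun k => π (b k)) x := by
  simp [tmap, map_sum, map_star]

omit [PartialOrder R] [StarOrderedRing R] in
theorem norm_col_map_le {S : Type*} [CStarAlgebra S] (π : R →⋆ₐ[ℂ] S) (b : ι → R) :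
    ‖∑ k, star (π (b k)) * π (b k)‖ ≤ ‖∑ k, star (b k) * b k‖ := by
  have : ∑ k, star (π (b k)) * π (b k) = π (∑ k, star (b k) * b k) := by simp [map_sum, map_star]
  rw [this]
  exact NonUnitalStarAlgHom.norm_apply_le π _

/-- Cauchy-Schwarz for positive functionals. -/
theorem pos_cs (ρ : R →ₚ[ℂ] ℂ) (y : R) : ‖ρ y‖ ^ 2 ≤ (ρ 1).re * (ρ (star y * y)).re := by
  have h := norm_inner_le_norm (𝕜 := ℂ) (ρ.toPreGNS 1) (ρ.toPreGNS y)
  rw [PositiveLinearMap.preGNS_inner_def, PositiveLinearMap.preGNS_norm_def,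
    PositiveLinearMap.preGNS_norm_def] at h
  simp only [PositiveLinearMap.ofPreGNS_toPreGNS, star_one, one_mul] at h
  have h1 : 0 ≤ (ρ 1).re := (ρ.map_nonneg zero_le_one).1
  have h2 : 0 ≤ (ρ (star y * y)).re := (ρ.map_nonneg (star_mul_self_nonneg y)).1
  calc ‖ρ y‖ ^ 2 ≤ (√(ρ 1).re * √(ρ (star y * y)).re) ^ 2 := by gcongr
    _ = _ := by rw [mul_pow, Real.sq_sqrt h1, Real.sq_sqrt h2]

theorem pos_star (ρ : R →ₚ[ℂ] ℂ) (y : R) : ρ (star y) = star (ρ y) := by
  exact map_star ρ y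

theorem pos_re_le (ρ : R →ₚ[ℂ] ℂ) {a b : R} (h : a ≤ b) : (ρ a).re ≤ (ρ b).re := by
  exact (OrderHomClass.mono ρ h).1

theorem pos_re_le_norm (ρ : R →ₚ[ℂ] ℂ) (y : R) : (ρ y).re ≤ ‖y‖ * (ρ 1).re := by
  have h1 : 0 ≤ (ρ 1).re := (ρ.map_nonneg zero_le_one).1
  have h2 := pos_re_le ρ (CStarAlgebra.star_mul_le_algebraMap_norm_sq (a := y))
  rw [Algebra.algebraMap_eq_smul_one, ← Complex.coe_smul, map_smul, smul_eq_mul,
    Complex.re_ofReal_mul] at h2
  refine (Complex.re_le_norm _).trans (abs_le_of_sq_le_sq' ?_ (by positivity)).2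
  calc ‖ρ y‖ ^ 2 ≤ (ρ 1).re * (ρ (star y * y)).re := pos_cs ρ y
    _ ≤ (ρ 1).re * (‖y‖ ^ 2 * (ρ 1).re) := by gcongr
    _ = _ := by ring

end

variable {H : Type v} [NormedAddCommGroup H] [InnerProductSpace ℂ H] [CompleteSpace H]

theorem sum_norm_sq_le_of_col {ι : Type*} [Fintype ι] (b : ι → (H →L[ℂ] H))
    (hb : ‖∑ i, star (b i) * b i‖ ≤ 1) (ξ : H) : ∑ i, ‖b i ξ‖ ^ 2 ≤ ‖ξ‖ ^ 2 := by
  have h1 : ⟪ξ, (∑ i, star (b i) * b i) ξ⟫_ℂ = ((∑ i, ‖b i ξ‖ ^ 2 : ℝ) : ℂ) := by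
    simp [ContinuousLinearMap.star_eq_adjoint,
      ContinuousLinearMap.adjoint_inner_right, inner_self_eq_norm_sq_to_K]
  have h2 := norm_inner_le_norm (𝕜 := ℂ) ξ ((∑ i, star (b i) * b i) ξ)
  rw [h1, Complex.norm_real, Real.norm_of_nonneg (Finset.sum_nonneg fun _ _ => by positivity)]
    at h2
  have h3 := (∑ i, star (b i) * b i).le_opNorm ξ
  have h4 : ‖∑ i, star (b i) * b i‖ * ‖ξ‖ ≤ 1 * ‖ξ‖ := by gcongr
  nlinarith [norm_nonneg ξ]

theorem inner_tmap {I : Type*} [Fintype I] (b : I → (H →L[ℂ] H)) (x : Matrix I I ℂ) (ξ η : H) :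
    ⟪η, tmap b x ξ⟫_ℂ = ∑ j, ⟪b j η, ∑ k, x j k • b k ξ⟫_ℂ := by
  simp [tmap, ContinuousLinearMap.star_eq_adjoint,
    ContinuousLinearMap.adjoint_inner_right]

theorem tmap_mem {I : Type*} [Fintype I] (N : VonNeumannAlgebra H) (b : I → (H →L[ℂ] H))
    (hb : ∀ k, b k ∈ N) (x : Matrix I I ℂ) : tmap b x ∈ N := by
  unfold tmap
  exact sum_mem fun j _ => sum_mem fun k _ =>
    N.toStarSubalgebra.smul_mem (mul_mem (star_mem (hb j)) (hb k)) _

/-- If `tmap b x` is close to a unitary `w` at `ξ` then `x` intertwines the column `b`. -/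
theorem zest {I : Type*} [Fintype I] [DecidableEq I] (b : I → (H →L[ℂ] H))
    (hb : ‖∑ k, star (b k) * b k‖ ≤ 1) {x : Matrix I I ℂ} (hx : Contr x) {w : H →L[ℂ] H}
    (hw : w ∈ unitary (H →L[ℂ] H)) (ξ : H) :
    ∑ j, ‖∑ k, x j k • b k ξ - b j (w ξ)‖ ^ 2 ≤ 2 * ‖ξ‖ * ‖(w - tmap b x) ξ‖ := by
  have hw1 : ‖w ξ‖ = ‖ξ‖ := ContinuousLinearMap.norm_map_of_mem_unitary hw ξ
  have h1 := (hx.sum_norm_sq_le fun k => b k ξ).trans (sum_norm_sq_le_of_col b hb ξ)
  have h2 := sum_norm_sq_le_of_col b hb (w ξ)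
  have h3 := congrArg Complex.re (inner_tmap b x ξ (w ξ))
  rw [Complex.re_sum] at h3
  have h4 : ∀ j, ‖∑ k, x j k • b k ξ - b j (w ξ)‖ ^ 2 = ‖∑ k, x j k • b k ξ‖ ^ 2 -
      2 * (⟪b j (w ξ), ∑ k, x j k • b k ξ⟫_ℂ).re + ‖b j (w ξ)‖ ^ 2 := fun j => by
    rw [norm_sub_rev, @norm_sub_sq ℂ]
    simp only [RCLike.re_to_complex]
    ring
  simp only [h4, Finset.sum_add_distrib, Finset.sum_sub_distrib, ← Finset.mul_sum, ← h3]
  have h5 : (⟪w ξ, (w - tmap b x) ξ⟫_ℂ).re = ‖ξ‖ ^ 2 - (⟪w ξ, tmap b x ξ⟫_ℂ).re := by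
    rw [sub_apply, inner_sub_right, Complex.sub_re, inner_self_eq_norm_sq_to_K,
      hw1]
    norm_cast
  have h6 := (Complex.re_le_norm _).trans (norm_inner_le_norm (𝕜 := ℂ) (w ξ) ((w - tmap b x) ξ))
  rw [h5, hw1] at h6
  rw [hw1] at h2
  linarith

end Ulam
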