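import Pool.Agent.P.MP_3be8c7_an.CPLX
import Pool.Agent.P.MP_3be8c7_an.TM

open scoped ComplexOrder InnerProductSpace
open Filter Topology

noncomputable section

namespace Ulam

universe u v w

variable {D : Type u} [CStarAlgebra D] [PartialOrder D] [StarOrderedRing D]

theorem icc_subset_hbc {T : Set ℝ} (hc : IsClosed T) (h0 : (0 : ℝ) ∈ T) (h1 : (1 : ℝ) ∈ T)
    (hm : ∀ a ∈ T, ∀ b ∈ T, (a + b) / 2 ∈ T) {t : ℝ} (t0 : 0 ≤ t) (t1 : t ≤ 1) : t ∈ T := by
  have key : ∀ n : ℕ, ∃ a ∈ T, ∃ b ∈ T, a ≤ t ∧ t ≤ b ∧ b - a = (1 / 2) ^ n := by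
    intro n
    induction n with
    | zero => exact ⟨0, h0, 1, h1, t0, t1, by simp⟩
    | succ n ih =>
      obtain ⟨a, ha, b, hb, e1, e2, e3⟩ := ih
      rcases le_total t ((a + b) / 2) with e | e
      · exact ⟨a, ha, _, hm a ha b hb, e1, e, by rw [pow_succ, ← e3]; ring⟩
      · exact ⟨_, hm a ha b hb, b, hb, e, e2, by rw [pow_succ, ← e3]; ring⟩
  rw [← hc.closure_eq, Metric.mem_closure_iff]
  intro ε hε
  obtain ⟨n, hn⟩ := exists_pow_lt_of_lt_one hε (by norm_num : (1 / 2 : ℝ) < 1)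
  obtain ⟨a, ha, b, -, e1, e2, e3⟩ := key n
  refine ⟨a, ha, ?_⟩
  rw [Real.dist_eq, abs_of_nonneg (by linarith)]
  linarith

theorem convex_hbc {E : Type*} [NormedAddCommGroup E] [NormedSpace ℝ E] {K : Set E}
    (hc : IsClosed K) (hm : ∀ y ∈ K, ∀ z ∈ K, (2 : ℝ)⁻¹ • (y + z) ∈ K) : Convex ℝ K := by
  intro y hy z hz a b ha hb hab
  have hT : IsClosed {t : ℝ | (1 - t) • y + t • z ∈ K} := hc.preimage (by fun_prop)
  have := icc_subset_hbc hT (by simpa using hy) (by simpa using hz) (by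
    intro s hs t ht
    have h1 := hm _ hs _ ht
    have e : (2 : ℝ)⁻¹ • ((1 - s) • y + s • z + ((1 - t) • y + t • z)) =
        (1 - (s + t) / 2) • y + ((s + t) / 2) • z := by module
    rw [e] at h1
    exact h1) hb (by linarith)
  have e : a = 1 - b := by linarith
  rw [e]
  exact this

/-- The real part. -/
def re_hbc : D →ₗ[ℝ] D := (selfAdjoint.submodule ℝ D).subtype ∘ₗ realPart

omit [PartialOrder D] [StarOrderedRing D] in
theorem re_sa_hbc {a : D} (ha : IsSelfAdjoint a) : re_hbc a = a := ha.coe_realPart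

theorem re_le_hbc {a b : D} {e : ℝ} (h : ‖a - b‖ ≤ e) : re_hbc a ≤ re_hbc b + e • (1 : D) := by
  have h1 : re_hbc (a - b) ≤ ‖re_hbc (a - b)‖ • (1 : D) := by
    rw [← Algebra.algebraMap_eq_smul_one]
    exact IsSelfAdjoint.le_algebraMap_norm_self (realPart (a - b)).2
  have h2 : ‖re_hbc (a - b)‖ ≤ e := (realPart.norm_le (a - b)).trans h
  have h3 := h1.trans (smul_le_smul_of_nonneg_right h2 zero_le_one)
  rw [map_sub] at h3
  exact sub_le_iff_le_add'.1 h3

theorem hbc {ι X : Type*} [Fintype ι] (G : X → ι → D) (hsa : ∀ x i, IsSelfAdjoint (G x i))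
    (hmid : ∀ x x', ∃ x'', ∀ i, G x'' i ≤ (2 : ℝ)⁻¹ • (G x i + G x' i))
    (h : ∀ (ρ : ι → (D →ₚ[ℂ] ℂ)) (δ : ℝ), 0 < δ → ∃ x, ∑ i, (ρ i (G x i)).re ≤ δ)
    {γ : ℝ} (hγ : 0 < γ) : ∃ x, ∀ i, G x i ≤ γ • (1 : D) := by
  classical
  by_contra hno
  let K : Set (ι → D) := {y | ∀ ε > (0 : ℝ), ∃ x, ∀ i, G x i ≤ re_hbc (y i) + ε • (1 : D)}
  let O : Set (ι → D) := {y | ∃ g < γ, ∀ i, re_hbc (y i) ≤ g • (1 : D)}
  have hKc : IsClosed K := by
    refine isClosed_of_closure_subset fun y hy ε hε => ?_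
    obtain ⟨z, hz, hd⟩ := Metric.mem_closure_iff.1 hy (ε / 2) (half_pos hε)
    obtain ⟨x, hx⟩ := hz (ε / 2) (half_pos hε)
    refine ⟨x, fun i => (hx i).trans ?_⟩
    have h1 : ‖z i - y i‖ ≤ ε / 2 := by
      rw [← dist_eq_norm, dist_comm]
      exact (dist_le_pi_dist y z i).trans hd.le
    calc re_hbc (z i) + (ε / 2) • (1 : D)
        ≤ re_hbc (y i) + (ε / 2) • (1 : D) + (ε / 2) • (1 : D) := by
          gcongr
          exact re_le_hbc h1
      _ = _ := by rw [add_assoc, ← add_smul, add_halves]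
  have hK : Convex ℝ K := by
    refine convex_hbc hKc fun y hy z hz ε hε => ?_
    obtain ⟨x, hx⟩ := hy ε hε
    obtain ⟨x', hx'⟩ := hz ε hε
    obtain ⟨x'', h2⟩ := hmid x x'
    refine ⟨x'', fun i => (h2 i).trans ?_⟩
    refine (smul_le_smul_of_nonneg_left (add_le_add (hx i) (hx' i)) (by norm_num)).trans
      (le_of_eq ?_)
    simp only [Pi.smul_apply, Pi.add_apply, map_smul, map_add]
    module
  have hO : Convex ℝ O := by
    rintro y ⟨g, hg, hy⟩ z ⟨g', hg', hz⟩ a b ha hb hab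
    refine ⟨max g g', max_lt hg hg', fun i => ?_⟩
    have h1 := (hy i).trans (smul_le_smul_of_nonneg_right (le_max_left g g') zero_le_one)
    have h2 := (hz i).trans (smul_le_smul_of_nonneg_right (le_max_right g g') zero_le_one)
    simp only [Pi.smul_apply, Pi.add_apply, map_smul, map_add]
    refine (add_le_add (smul_le_smul_of_nonneg_left h1 ha)
      (smul_le_smul_of_nonneg_left h2 hb)).trans (le_of_eq ?_)
    rw [← add_smul, hab, one_smul]
  have hOo : IsOpen O := by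
    rw [Metric.isOpen_iff]
    rintro y ⟨g, hg, hy⟩
    refine ⟨(γ - g) / 2, by linarith, fun z hz => ⟨g + (γ - g) / 2, by linarith, fun i => ?_⟩⟩
    have h1 : ‖z i - y i‖ ≤ (γ - g) / 2 := by
      rw [← dist_eq_norm]
      exact (dist_le_pi_dist z y i).trans (Metric.mem_ball.1 hz).le
    refine (re_le_hbc h1).trans ?_
    rw [add_smul]
    gcongr
    exact hy i
  have hdis : Disjoint O K := by
    rw [Set.disjoint_left]
    rintro y ⟨g, hg, hy⟩ hk
    obtain ⟨x, hx⟩ := hk (γ - g) (by linarith)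
    refine hno ⟨x, fun i => (hx i).trans ?_⟩
    calc re_hbc (y i) + (γ - g) • (1 : D) ≤ g • (1 : D) + (γ - g) • (1 : D) := by
          gcongr
          exact hy i
      _ = _ := by rw [← add_smul, add_sub_cancel]
  obtain ⟨f, c, f1, f2⟩ := geometric_hahn_banach_open hO hOo hK hdis
  have hc : 0 < c := by
    have := f1 0 ⟨0, hγ, fun i => by simp⟩
    rwa [map_zero] at this
  have hpos : ∀ i (a : D), 0 ≤ a → 0 ≤ f (Pi.single i a) := by
    intro i a ha
    by_contra hneg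
    have hneg' := not_le.1 hneg
    have hs : c / f (Pi.single i a) ≤ 0 := div_nonpos_of_nonneg_of_nonpos hc.le hneg'.le
    have := f1 ((c / f (Pi.single i a)) • (Pi.single i a : ι → D)) ⟨0, hγ, fun j => by
      rw [Pi.smul_apply, map_smul, zero_smul]
      refine smul_nonpos_of_nonpos_of_nonneg hs ?_
      by_cases e : j = i
      · subst e
        rw [Pi.single_eq_same, re_sa_hbc (IsSelfAdjoint.of_nonneg ha)]
        exact ha
      · rw [Pi.single_eq_of_ne e, map_zero]⟩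
    rw [map_smul, smul_eq_mul, div_mul_cancel₀ _ hneg'.ne] at this
    exact lt_irrefl _ this
  have hex : ∀ i, ∃ ρ : D →ₚ[ℂ] ℂ, ∀ a, 0 ≤ a → ρ a = (f (Pi.single i a) : ℝ) := fun i =>
    exists_pos_of_additive (fun a => f (Pi.single i a))
      (fun a b _ _ => by rw [Pi.single_add, map_add])
      (fun r a _ _ => by rw [Pi.single_smul, map_smul, smul_eq_mul]) (hpos i)
  choose ρ hρ using hex
  have hre : ∀ i (a : D), IsSelfAdjoint a → (ρ i a).re = f (Pi.single i a) := by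
    intro i a ha
    rw [← CFC.posPart_sub_negPart a ha, map_sub, Pi.single_sub, map_sub,
      hρ i _ (CFC.posPart_nonneg a), hρ i _ (CFC.negPart_nonneg a)]
    simp
  obtain ⟨x, hx⟩ := h ρ (c / 2) (half_pos hc)
  have h1 := f2 (G x) fun ε hε => ⟨x, fun i => by
    rw [re_sa_hbc (hsa x i)]
    exact le_add_of_nonneg_right (smul_nonneg hε.le zero_le_one)⟩
  rw [← Finset.univ_sum_single (G x), map_sum] at h1
  rw [Finset.sum_congr rfl fun i _ => hre i _ (hsa x i)] at hx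
  linarith

end Ulam
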