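import Pool.Agent.P.MP_3be8c7_an.CPLX
import Pool.Agent.P.MP_3be8c7_an.TM

open scoped ComplexOrder InnerProductSpace
open Filter Topology

noncomputable section

namespace Ulam

universe u v w

variable {D : Type u} [CStarAlgebra D] [PartialOrder D] [StarOrderedRing D]

/-- The sum of the `y y*` over a list. -/
def pp_te (l : List D) : D := (l.map fun y => y * star y).sum

/-- The sum of the `f (y* y)` over a list. -/
def qq_te (f : D →ₗ[ℝ] ℝ) (l : List D) : ℝ := (l.map fun y => f (star y * y)).sum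

/-- The least trace above `f`. -/
def tt_te (f : D →ₗ[ℝ] ℝ) (a : D) : ℝ := sSup (qq_te f '' {l | pp_te l ≤ a})

omit [PartialOrder D] [StarOrderedRing D] in
theorem pp_mul_te (w : D) (l : List D) : pp_te (l.map (w * ·)) = w * pp_te l * star w := by
  induction l with
  | nil => simp [pp_te]
  | cons y l ih =>
    simp only [pp_te, List.map_cons, List.sum_cons] at ih ⊢
    rw [ih, star_mul]
    noncomm_ring

omit [PartialOrder D] [StarOrderedRing D] in
theorem qq_split_te (f : D →ₗ[ℝ] ℝ) {w₁ w₂ w₃ : D}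
    (hw : star w₁ * w₁ + star w₂ * w₂ + star w₃ * w₃ = 1) (l : List D) :
    qq_te f l = qq_te f (l.map (w₁ * ·)) + qq_te f (l.map (w₂ * ·)) + qq_te f (l.map (w₃ * ·)) := by
  induction l with
  | nil => simp [qq_te]
  | cons y l ih =>
    simp only [qq_te, List.map_cons, List.sum_cons] at ih ⊢
    have h1 : star y * y = star (w₁ * y) * (w₁ * y) + star (w₂ * y) * (w₂ * y) +
        star (w₃ * y) * (w₃ * y) := by
      calc star y * y = star y * (star w₁ * w₁ + star w₂ * w₂ + star w₃ * w₃) * y := by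
            rw [hw, mul_one]
        _ = _ := by simp only [star_mul]; noncomm_ring
    rw [ih, h1, map_add, map_add]
    ring

omit [PartialOrder D] [StarOrderedRing D] in
theorem pp_smul_te (c : ℝ) (l : List D) : pp_te (l.map (c • ·)) = (c * c) • pp_te l := by
  induction l with
  | nil => simp [pp_te]
  | cons y l ih =>
    simp only [pp_te, List.map_cons, List.sum_cons] at ih ⊢
    rw [ih, star_smul, star_trivial, smul_mul_smul_comm, smul_add]

omit [PartialOrder D] [StarOrderedRing D] in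
theorem qq_smul_te (f : D →ₗ[ℝ] ℝ) (c : ℝ) (l : List D) :
    qq_te f (l.map (c • ·)) = (c * c) * qq_te f l := by
  induction l with
  | nil => simp [qq_te]
  | cons y l ih =>
    simp only [qq_te, List.map_cons, List.sum_cons] at ih ⊢
    rw [ih, star_smul, star_trivial, smul_mul_smul_comm, map_smul, smul_eq_mul, mul_add]

theorem inv_sqrt_te {c : D} (hc : 0 ≤ c) {δ : ℝ} (hδ : 0 < δ) :
    ∃ s : D, star s = s ∧ s * (c + δ • (1 : D)) * s = 1 := by
  have h1 : IsStrictlyPositive (c + δ • (1 : D)) :=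
    IsStrictlyPositive.nonneg_add hc (IsStrictlyPositive.smul hδ isStrictlyPositive_one)
  obtain ⟨u, hu⟩ := h1.isUnit_cfcSqrt
  have h2 : (u : D) * u = c + δ • (1 : D) := by rw [hu, CFC.sqrt_mul_sqrt_self _ h1.nonneg]
  have h3 : star (u : D) = u := by rw [hu]; exact (CFC.sqrt_nonneg _).star_eq
  refine ⟨(u⁻¹ : Dˣ), ?_, ?_⟩
  · have h4 : star ((u⁻¹ : Dˣ) : D) * u = 1 := by
      rw [← h3, ← star_mul, Units.mul_inv, star_one]
    exact Units.eq_inv_of_mul_eq_one_right h4
  · rw [← h2, ← mul_assoc, Units.inv_mul, one_mul, Units.mul_inv]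

section
variable {f : D →ₗ[ℝ] ℝ} {ρ : D →ₚ[ℂ] ℂ} (h : ∀ x, f (star x * x) ≤ (ρ (x * star x)).re)
include h

omit [StarOrderedRing D] in
theorem qq_le_te {l : List D} {a : D} (hl : pp_te l ≤ a) : qq_te f l ≤ (ρ a).re := by
  have h1 : qq_te f l ≤ (ρ (pp_te l)).re := by
    clear hl
    induction l with
    | nil => simp [qq_te, pp_te]
    | cons y l ih =>
      simp only [qq_te, pp_te, List.map_cons, List.sum_cons, map_add, Complex.add_re] at ih ⊢
      exact add_le_add (h y) ih
  exact h1.trans (Complex.le_def.1 (ρ.monotone' hl)).1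

omit [StarOrderedRing D] in
theorem le_tt_te {l : List D} {a : D} (hl : pp_te l ≤ a) : qq_te f l ≤ tt_te f a :=
  le_csSup ⟨(ρ a).re, by rintro _ ⟨l', hl', rfl⟩; exact qq_le_te h hl'⟩ ⟨l, hl, rfl⟩

omit h [StarOrderedRing D] in
theorem tt_le_te {a : D} (ha : 0 ≤ a) {r : ℝ} (hr : ∀ l, pp_te l ≤ a → qq_te f l ≤ r) :
    tt_te f a ≤ r :=
  csSup_le ⟨_, [], by simpa [pp_te] using ha, rfl⟩ (by rintro _ ⟨l, hl, rfl⟩; exact hr l hl)

omit [StarOrderedRing D] in
theorem tt_nonneg_te {a : D} (ha : 0 ≤ a) : 0 ≤ tt_te f a := by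
  simpa [qq_te] using le_tt_te h (l := []) (by simpa [pp_te] using ha)

omit [StarOrderedRing D] in
theorem tt_zero_te : tt_te f 0 = 0 :=
  le_antisymm (tt_le_te le_rfl fun l hl => by simpa using qq_le_te h hl) (tt_nonneg_te h le_rfl)

theorem tt_super_te {a b : D} (ha : 0 ≤ a) (hb : 0 ≤ b) :
    tt_te f a + tt_te f b ≤ tt_te f (a + b) := by
  have h1 : ∀ l l', pp_te l ≤ a → pp_te l' ≤ b → qq_te f l + qq_te f l' ≤ tt_te f (a + b) := by
    intro l l' hl hl'
    have h2 : pp_te (l ++ l') ≤ a + b := by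
      simpa only [pp_te, List.map_append, List.sum_append] using add_le_add hl hl'
    simpa only [qq_te, List.map_append, List.sum_append] using le_tt_te h h2
  have h3 : ∀ l', pp_te l' ≤ b → qq_te f l' ≤ tt_te f (a + b) - tt_te f a := fun l' hl' => by
    have := tt_le_te (f := f) ha (r := tt_te f (a + b) - qq_te f l') fun l hl => by
      linarith [h1 l l' hl hl']
    linarith
  linarith [tt_le_te hb h3]

theorem tt_smul_le_te {c : ℝ} (hc : 0 < c) {a : D} (ha : 0 ≤ a) :
    c * tt_te f a ≤ tt_te f (c • a) := by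
  rw [← le_div_iff₀' hc]
  refine tt_le_te ha fun l hl => ?_
  have h1 : pp_te (l.map (√c • ·)) ≤ c • a := by
    rw [pp_smul_te, Real.mul_self_sqrt hc.le]
    exact smul_le_smul_of_nonneg_left hl hc.le
  have h2 := le_tt_te h h1
  rw [qq_smul_te, Real.mul_self_sqrt hc.le] at h2
  rwa [le_div_iff₀' hc]

theorem tt_smul_te (c : ℝ) (a : D) (hc : 0 ≤ c) (ha : 0 ≤ a) :
    tt_te f (c • a) = c * tt_te f a := by
  rcases hc.eq_or_lt with rfl | hc
  · rw [zero_smul, zero_mul, tt_zero_te h]
  refine le_antisymm ?_ (tt_smul_le_te h hc ha)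
  have h1 := tt_smul_le_te h (inv_pos.2 hc) (smul_nonneg hc.le ha)
  rw [smul_smul, inv_mul_cancel₀ hc.ne', one_smul, inv_mul_le_iff₀ hc] at h1
  exact h1

theorem tt_sub_te (x₁ x₂ : D) :
    tt_te f (x₁ * star x₁ + x₂ * star x₂) ≤ tt_te f (star x₁ * x₁) + tt_te f (star x₂ * x₂) := by
  set c := x₁ * star x₁ + x₂ * star x₂ with hcdef
  have hc : 0 ≤ c := add_nonneg (mul_star_self_nonneg _) (mul_star_self_nonneg _)
  refine tt_le_te hc fun l hl => ?_
  have key : ∀ δ : ℝ, 0 < δ →
      qq_te f l ≤ tt_te f (star x₁ * x₁) + tt_te f (star x₂ * x₂) + δ * tt_te f 1 := by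
    intro δ hδ
    obtain ⟨s, hs, hs1⟩ := inv_sqrt_te hc hδ
    have hs2 : s * c * s + δ • (star s * s) = 1 := by
      rw [← hs1, hs, mul_add s c, add_mul, mul_smul_comm, mul_one, smul_mul_assoc]
    have hs3 : s * pp_te l * s ≤ 1 := by
      have h1 := star_left_conjugate_le_conjugate hl s
      rw [hs] at h1
      refine h1.trans ?_
      rw [← hs2]
      exact le_add_of_nonneg_right (smul_nonneg hδ.le (star_mul_self_nonneg s))
    have hx : ∀ x : D, qq_te f (l.map (star x * s * ·)) ≤ tt_te f (star x * x) := fun x => by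
      refine le_tt_te h ?_
      have h1 := star_left_conjugate_le_conjugate hs3 x
      rw [mul_one] at h1
      rw [pp_mul_te, star_mul, star_star, hs]
      simpa only [mul_assoc] using h1
    have hw : star (star x₁ * s) * (star x₁ * s) + star (star x₂ * s) * (star x₂ * s) +
        star (star (√δ • (1 : D)) * s) * (star (√δ • (1 : D)) * s) = 1 := by
      refine Eq.trans ?_ hs2
      rw [hcdef]
      simp only [star_mul, star_star, hs, star_smul, star_trivial, star_one, smul_mul_assoc,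
        one_mul, mul_smul_comm, smul_smul, Real.mul_self_sqrt hδ.le]
      noncomm_ring
    have h3 := hx (√δ • (1 : D))
    rw [show star (√δ • (1 : D)) * (√δ • (1 : D)) = δ • (1 : D) by
      rw [star_smul, star_trivial, star_one, smul_mul_smul_comm, mul_one,
        Real.mul_self_sqrt hδ.le], tt_smul_te h δ 1 hδ.le zero_le_one] at h3
    rw [qq_split_te f hw l]
    exact add_le_add (add_le_add (hx x₁) (hx x₂)) h3
  refine le_of_forall_pos_le_add fun ε hε => ?_
  have h0 : 0 ≤ tt_te f (1 : D) := tt_nonneg_te h zero_le_one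
  refine (key (ε / (tt_te f (1 : D) + 1)) (by positivity)).trans (add_le_add le_rfl ?_)
  rw [div_mul_eq_mul_div, div_le_iff₀ (by positivity)]
  nlinarith

end

theorem exists_trace (f : D →ₗ[ℝ] ℝ) (ρ : D →ₚ[ℂ] ℂ)
    (h : ∀ x, f (star x * x) ≤ (ρ (x * star x)).re) :
    ∃ τ : D →ₚ[ℂ] ℂ, IsTr τ ∧ ∀ a, 0 ≤ a → f a ≤ (τ a).re := by
  have hsq : ∀ a : D, 0 ≤ a → star (CFC.sqrt a) * CFC.sqrt a = a ∧
      CFC.sqrt a * star (CFC.sqrt a) = a := fun a ha => by
    rw [(CFC.sqrt_nonneg a).star_eq, CFC.sqrt_mul_sqrt_self a ha]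
    exact ⟨rfl, rfl⟩
  obtain ⟨τ, hτ⟩ := exists_pos_of_additive (tt_te f) (fun a b ha hb => by
    refine le_antisymm ?_ (tt_super_te h ha hb)
    have h1 := tt_sub_te h (CFC.sqrt a) (CFC.sqrt b)
    rwa [(hsq a ha).1, (hsq a ha).2, (hsq b hb).1, (hsq b hb).2] at h1)
    (tt_smul_te h) fun a ha => tt_nonneg_te h ha
  have htr : ∀ x : D, tt_te f (x * star x) ≤ tt_te f (star x * x) := fun x => by
    simpa [tt_zero_te h] using tt_sub_te h x 0
  refine ⟨τ, fun x => ?_, fun a ha => ?_⟩
  · rw [hτ _ (star_mul_self_nonneg x), hτ _ (mul_star_self_nonneg x)]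
    congr 1
    refine le_antisymm ?_ (htr x)
    simpa only [star_star] using htr (star x)
  · rw [hτ a ha, Complex.ofReal_re]
    have h1 := le_tt_te h (l := [CFC.sqrt a]) (a := a) (by simp [pp_te, (hsq a ha).2])
    simpa [qq_te, (hsq a ha).1] using h1

end Ulam
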