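import Pool.Agent.P.MP_3be8c7_an.HBC
import Pool.Agent.P.MP_3be8c7_an.TE

open scoped ComplexOrder InnerProductSpace
open Filter Topology

noncomputable section

namespace Ulam

universe u v w

variable {D : Type u} [CStarAlgebra D] [PartialOrder D] [StarOrderedRing D]

theorem pos_re_nonneg_hbte (ρ : D →ₚ[ℂ] ℂ) {a : D} (ha : 0 ≤ a) : 0 ≤ (ρ a).re := by
  simpa using pos_re_le ρ ha

theorem hbte {ρ : D →ₚ[ℂ] ℂ} (h : Disj ρ) {η : ℝ} (hη : 0 < η) :
    ∃ (κ : Type) (_ : Fintype κ) (_ : DecidableEq κ) (x : κ → D), ‖∑ i, star (x i) * x i‖ ≤ 1 ∧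
      ‖∑ i, x i * star (x i)‖ ≤ η ∧ (ρ (1 - ∑ i, star (x i) * x i)).re ≤ η := by
  have hr : 0 ≤ (ρ 1).re := pos_re_nonneg_hbte ρ zero_le_one
  set e := η / 4 with he
  have he0 : 0 < e := by positivity
  let A : (Σ m : ℕ, Fin m → D) → D := fun x => ∑ i, star (x.2 i) * x.2 i
  let B : (Σ m : ℕ, Fin m → D) → D := fun x => ∑ i, x.2 i * star (x.2 i)
  have hA : ∀ x, 0 ≤ A x := fun x => Finset.sum_nonneg fun i _ => star_mul_self_nonneg _
  have hB : ∀ x, 0 ≤ B x := fun x => Finset.sum_nonneg fun i _ => mul_star_self_nonneg _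
  let G : (Σ m : ℕ, Fin m → D) → Fin 3 → D := fun x =>
    ![A x - 1, B x - e • (1 : D), ((ρ (1 - A x)).re - e) • (1 : D)]
  have hre : ∀ (σ : D →ₚ[ℂ] ℂ) (t : ℝ) (a : D), (σ (t • a)).re = t * (σ a).re := fun σ t a => by
    rw [← Complex.coe_smul, map_smul, smul_eq_mul, Complex.re_ofReal_mul]
  set γ := min (e / ((ρ 1).re + 1)) e with hγ
  have hγ0 : 0 < γ := by positivity
  have hγ1 : γ ≤ e := min_le_right _ _
  have hγ2 : γ * (ρ 1).re ≤ e := by
    have : γ ≤ e / ((ρ 1).re + 1) := min_le_left _ _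
    rw [le_div_iff₀ (by positivity)] at this
    nlinarith
  obtain ⟨x, hx⟩ := hbc G (fun x i => by
      fin_cases i
      · exact (IsSelfAdjoint.of_nonneg (hA x)).sub (.one D)
      · exact (IsSelfAdjoint.of_nonneg (hB x)).sub (IsSelfAdjoint.smul (.all e) (.one D))
      · exact IsSelfAdjoint.smul (.all _) (.one D))
    (fun x x' => by
      let t : ℝ := √(2⁻¹)
      have ht : t * t = 2⁻¹ := Real.mul_self_sqrt (by norm_num)
      let y : Σ m : ℕ, Fin m → D :=
        ⟨x.1 + x'.1, Fin.append (fun i => t • x.2 i) fun i => t • x'.2 i⟩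
      have h1 : A y = (2 : ℝ)⁻¹ • (A x + A x') := by
        simp [A, y, Fin.sum_univ_add, smul_smul, ht, Finset.smul_sum]
      have h2 : B y = (2 : ℝ)⁻¹ • (B x + B x') := by
        simp [B, y, Fin.sum_univ_add, smul_smul, ht, Finset.smul_sum]
      refine ⟨y, fun i => le_of_eq ?_⟩
      fin_cases i
      · simp only [G, h1, Fin.zero_eta, Matrix.cons_val_zero]
        module
      · simp only [G, h2, Fin.mk_one, Matrix.cons_val_one, Matrix.cons_val_zero]
        module
      · simp only [G, h1, Fin.reduceFinMk, Matrix.cons_val, map_sub, Complex.sub_re, hre, map_add,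
          Complex.add_re]
        module)
    (fun σ δ hδ => by
      by_contra hcon
      push Not at hcon
      set s := (σ 2 1).re with hs
      have hs0 : 0 ≤ s := pos_re_nonneg_hbte _ zero_le_one
      have hval : ∀ x, ∑ i, (σ i (G x i)).re = ((σ 0 (A x)).re + (σ 1 (B x)).re - s * (ρ (A x)).re) +
          (s * (ρ 1).re - (σ 0 1).re - e * (σ 1 1).re - e * s) := fun x => by
        simp only [Fin.sum_univ_three, G, Matrix.cons_val_zero, Matrix.cons_val_one,
          Matrix.cons_val, map_sub, Complex.sub_re, hre]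
        ring
      set c := s * (ρ 1).re - (σ 0 1).re - e * (σ 1 1).re - e * s with hc
      have h0 : δ < c := by
        have := hcon ⟨0, fun i => i.elim0⟩
        rw [hval] at this
        simpa [A, B] using this
      have h1 : ∀ y : D, s * (ρ (star y * y)).re - (σ 0 (star y * y)).re ≤ (σ 1 (y * star y)).re := by
        intro y
        by_contra hy
        push Not at hy
        set d := s * (ρ (star y * y)).re - (σ 0 (star y * y)).re - (σ 1 (y * star y)).re with hd
        have hd0 : 0 < d := by linarith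
        have hc0 : 0 ≤ c / d := by
          have : 0 < c := hδ.trans h0
          positivity
        have := hcon ⟨1, fun _ => √(c / d) • y⟩
        rw [hval] at this
        simp only [A, B, Finset.univ_unique, Finset.sum_singleton, star_smul, star_trivial,
          smul_mul_smul_comm, Real.mul_self_sqrt hc0, hre] at this
        have h2 : c / d * d = c := div_mul_cancel₀ _ hd0.ne'
        nlinarith
      let f : D →ₗ[ℝ] ℝ :=
        { toFun := fun a => s * (ρ a).re - (σ 0 a).re
          map_add' := fun a b => by simp only [map_add, Complex.add_re]; ring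
          map_smul' := fun t a => by simp only [hre, RingHom.id_apply, smul_eq_mul]; ring }
      obtain ⟨τ, hτ, hf⟩ := exists_trace f (σ 1) h1
      obtain ⟨a, ha0, ha1, h2, h3⟩ := h τ hτ (δ / (s + 1)) (by positivity)
      have h4 : s * (ρ a).re - (σ 0 a).re ≤ (τ a).re := hf a ha0
      have h5 := pos_re_le (σ 0) ha1
      have h6 : 0 ≤ (σ 1 1).re := pos_re_nonneg_hbte _ zero_le_one
      rw [map_sub, Complex.sub_re] at h2
      have h7 : δ / (s + 1) * (s + 1) = δ := div_mul_cancel₀ _ (by positivity)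
      have h8 := mul_le_mul_of_nonneg_left h2 hs0
      nlinarith [mul_nonneg he0.le h6, mul_nonneg he0.le hs0]) hγ0
  have x0 : A x - 1 ≤ γ • (1 : D) := hx 0
  have x1 : B x - e • (1 : D) ≤ γ • (1 : D) := hx 1
  have x2 : ((ρ (1 - A x)).re - e) • (1 : D) ≤ γ • (1 : D) := hx 2
  rcases subsingleton_or_nontrivial D with hD | hD
  · refine ⟨Fin 0, inferInstance, inferInstance, fun i => i.elim0, by simp, by simpa using hη.le, ?_⟩
    rw [Subsingleton.elim (1 - _ : D) 0]
    simpa using hη.le
  have x3 : (ρ (1 - A x)).re - e ≤ γ := by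
    by_contra hh
    push Not at hh
    have h1 : ((ρ (1 - A x)).re - e - γ) • (1 : D) ≤ 0 := by
      rw [sub_smul, sub_nonpos]; exact x2
    have h2 : 0 ≤ ((ρ (1 - A x)).re - e - γ) • (1 : D) := smul_nonneg (by linarith) zero_le_one
    have h3 := le_antisymm h1 h2
    rw [smul_eq_zero] at h3
    rcases h3 with h3 | h3
    · linarith
    · exact one_ne_zero h3
  set t : ℝ := √((1 + γ)⁻¹) with ht
  have htt : t * t = (1 + γ)⁻¹ := Real.mul_self_sqrt (by positivity)
  have hi1 : (1 + γ)⁻¹ ≤ 1 := inv_le_one_of_one_le₀ (by linarith)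
  have nA : ‖A x‖ ≤ 1 + γ := by
    refine (CStarAlgebra.norm_le_iff_le_algebraMap _ (by positivity) (hA x)).2 ?_
    rw [Algebra.algebraMap_eq_smul_one, add_smul, one_smul]
    exact sub_le_iff_le_add'.1 x0
  have nB : ‖B x‖ ≤ e + γ := by
    refine (CStarAlgebra.norm_le_iff_le_algebraMap _ (by positivity) (hB x)).2 ?_
    rw [Algebra.algebraMap_eq_smul_one, add_smul]
    exact sub_le_iff_le_add'.1 x1
  have eA : ∑ i, star (t • x.2 i) * (t • x.2 i) = (1 + γ)⁻¹ • A x := by
    simp [A, smul_smul, htt, Finset.smul_sum]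
  have eB : ∑ i, (t • x.2 i) * star (t • x.2 i) = (1 + γ)⁻¹ • B x := by
    simp [B, smul_smul, htt, Finset.smul_sum]
  refine ⟨Fin x.1, inferInstance, inferInstance, fun i => t • x.2 i, ?_, ?_, ?_⟩
  · rw [eA, norm_smul, Real.norm_of_nonneg (by positivity), inv_mul_le_iff₀ (by positivity)]
    linarith
  · rw [eB, norm_smul, Real.norm_of_nonneg (by positivity)]
    have := mul_le_of_le_one_left (norm_nonneg (B x)) hi1
    linarith
  · rw [eA, map_sub, Complex.sub_re, hre]
    rw [map_sub, Complex.sub_re] at x3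
    have h1 : (ρ (A x)).re ≤ (1 + γ) * (ρ 1).re :=
      (pos_re_le_norm ρ _).trans (mul_le_mul_of_nonneg_right nA hr)
    have h2 : (1 + γ)⁻¹ * (ρ (A x)).re ≤ (ρ 1).re := by
      rw [inv_mul_le_iff₀ (by positivity)]; exact h1
    have h3 : (ρ (A x)).re = (1 + γ) * ((1 + γ)⁻¹ * (ρ (A x)).re) := by field_simp
    nlinarith

end Ulam
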