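import Pool.Agent.P.MP_3be8c7_an.OZB
import Pool.Agent.P.MP_3be8c7_an.PART

open scoped ComplexOrder InnerProductSpace
open Filter Topology

noncomputable section

namespace Ulam

universe u v w

variable {D : Type u} [CStarAlgebra D] [PartialOrder D] [StarOrderedRing D]
variable {H : Type v} [NormedAddCommGroup H] [InnerProductSpace ℂ H] [CompleteSpace H]

theorem inner_hom0 (x : H →L[ℂ] H) (ξ η : H) : ⟪x ξ, η⟫_ℂ = ⟪ξ, star x η⟫_ℂ := by
  rw [ContinuousLinearMap.star_eq_adjoint, ContinuousLinearMap.adjoint_inner_right]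

theorem unit_hom0 {q : H →L[ℂ] H} (hq : IsStarProjection q) :
    ∃ η : H, q η = η ∧ ((q = 0 ∧ η = 0) ∨ ‖η‖ = 1) := by
  by_cases h : q = 0
  · exact ⟨0, map_zero _, .inl ⟨h, rfl⟩⟩
  · obtain ⟨ξ, hξ⟩ : ∃ ξ, q ξ ≠ 0 := by
      by_contra c
      push Not at c
      exact h (ContinuousLinearMap.ext c)
    refine ⟨(‖q ξ‖⁻¹ : ℂ) • q ξ, ?_, .inr (norm_smul_inv_norm hξ)⟩
    rw [map_smul, ← mul_apply_eq_comp, hq.isIdempotentElem.eq]

theorem est_hom0 {T : Type*} [Fintype T] {z : T → (H →L[ℂ] H)} (hz : ∀ t, IsStarProjection (z t))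
    (ho : ∀ t t', t ≠ t' → z t * z t' = 0) (hs : ∑ t, z t = 1) {p a : H →L[ℂ] H}
    (hp : IsStarProjection p) (hpz : ∀ t, Commute p (z t)) (hpa : p * a = a) (hap : a * p = a)
    (haz : ∀ t, Commute a (z t)) {c : T → ℂ} {κ : ℝ} (h0 : 0 ≤ κ)
    (hκ : ∀ t, ‖z t * (a - c t • (1 : H →L[ℂ] H))‖ ≤ κ) {η : T → H}
    (hη : ∀ t, (z t * p) (η t) = η t ∧ ((z t * p = 0 ∧ η t = 0) ∨ ‖η t‖ = 1)) :
    ‖a - ∑ t, ⟪η t, a (η t)⟫_ℂ • (z t * p)‖ ≤ 2 * κ := by
  classical
  have hzz : ∀ t t', Commute (z t) (z t') := fun t t' => by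
    by_cases h : t = t'
    · rw [h]
    · exact (ho t t' h).trans (ho t' t (Ne.symm h)).symm
  refine norm_le_of_partition z hz ho _ (by rw [hs, one_mul]) (fun t => (haz t).symm.sub_right
    (Commute.sum_right _ _ _ fun t' _ => ((hzz t t').mul_right (hpz t).symm).smul_right _))
    (by positivity) fun t => ?_
  have e1 : z t * (a - ∑ t, ⟪η t, a (η t)⟫_ℂ • (z t * p)) =
      z t * a - ⟪η t, a (η t)⟫_ℂ • (z t * p) := by
    rw [mul_sub, Finset.mul_sum, Finset.sum_eq_single t (fun t' _ h => by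
      rw [mul_smul_comm, ← mul_assoc, ho t t' (Ne.symm h), zero_mul, smul_zero]) (by simp),
      mul_smul_comm, ← mul_assoc, (hz t).isIdempotentElem.eq]
  rw [e1]
  obtain ⟨h1, ⟨h2, -⟩ | h2⟩ := hη t
  · rw [← hpa, ← mul_assoc, h2, zero_mul, smul_zero, sub_zero, norm_zero]
    positivity
  have h3 : z t (η t) = η t := by
    rw [← h1, ← mul_apply_eq_comp, ← mul_assoc, (hz t).isIdempotentElem.eq]
  have h4 : ⟪η t, a (η t)⟫_ℂ - c t = ⟪η t, (z t * (a - c t • (1 : H →L[ℂ] H))) (η t)⟫_ℂ := by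
    rw [mul_apply_eq_comp, ← (hz t).isSelfAdjoint.star_eq, ← inner_hom0, h3]
    simp [inner_self_eq_norm_sq_to_K, h2]
  have h5 : ‖⟪η t, a (η t)⟫_ℂ - c t‖ ≤ κ := by
    rw [h4]
    refine (norm_inner_le_norm _ _).trans ?_
    rw [h2, one_mul]
    refine (ContinuousLinearMap.le_opNorm _ _).trans ?_
    rw [h2, mul_one]
    exact hκ t
  have e2 : z t * a - ⟪η t, a (η t)⟫_ℂ • (z t * p) =
      z t * (a - c t • (1 : H →L[ℂ] H)) * p - (⟪η t, a (η t)⟫_ℂ - c t) • (z t * p) := by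
    rw [mul_assoc, sub_mul, hap, smul_mul_assoc, one_mul, mul_sub, mul_smul_comm, sub_smul]
    abel
  have h6 := hp.norm_le
  have h7 := ((hz t).mul hp (hpz t).symm).norm_le
  rw [e2, two_mul]
  refine (norm_sub_le _ _).trans (add_le_add ((norm_mul_le _ _).trans ?_) ?_)
  · exact (mul_le_of_le_one_right (norm_nonneg _) h6).trans (hκ t)
  · rw [norm_smul]
    exact (mul_le_of_le_one_right (norm_nonneg _) h7).trans h5

/-- The matrix valued vector state. -/
def th_hom0 (π : D →⋆ₐ[ℂ] (H →L[ℂ] H)) {S : Type} (w : S → (H →L[ℂ] H)) (η : H) :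
    D →ₗ[ℂ] Matrix S S ℂ where
  toFun a := Matrix.of fun i j => ⟪η, (star (w i) * π a * w j) η⟫_ℂ
  map_add' a b := by ext i j; simp
  map_smul' c a := by ext i j; simp

theorem ccp_hom0 (π : D →⋆ₐ[ℂ] (H →L[ℂ] H)) {S : Type} [Fintype S] [DecidableEq S]
    {w : S → (H →L[ℂ] H)} {p : H →L[ℂ] H}
    (hww : ∀ i j, star (w i) * w j = if i = j then p else 0) {η : H} (h1 : p η = η)
    (h2 : η = 0 ∨ ‖η‖ = 1) : IsCCP (th_hom0 π w η) := by
  refine ⟨kposM_of_gram (fun a j => π a (w j η)) fun a b j k => ?_, ?_⟩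
  · rw [inner_hom0, inner_hom0, ← map_star]
    simp [th_hom0]
  · rcases h2 with rfl | h2
    · have : th_hom0 π w 0 1 = 0 := by ext i j; simp [th_hom0]
      rw [this, sub_zero]
      exact Matrix.PosSemidef.one
    · have : th_hom0 π w η 1 = 1 := by
        ext i j
        change ⟪η, (star (w i) * π 1 * w j) η⟫_ℂ = _
        rw [map_one, mul_one, hww, Matrix.one_apply]
        split_ifs
        · simp [h1, inner_self_eq_norm_sq_to_K, h2]
        · simp
      rw [this, sub_self]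
      exact Matrix.PosSemidef.zero

theorem good_hom0 (π : D →⋆ₐ[ℂ] (H →L[ℂ] H)) (N : VonNeumannAlgebra H) (hπ : ∀ a, π a ∈ N)
    {S : Type} [Fintype S] [DecidableEq S] (w : S → (H →L[ℂ] H)) (hw : ∀ i, w i ∈ N)
    {p : H →L[ℂ] H} (hp : Abel N p) (hww : ∀ i j, star (w i) * w j = if i = j then p else 0)
    (hc : ∀ x ∈ N, Commute (∑ i, w i * star (w i)) x) (ζ : H)
    (hζ : (∑ i, w i * star (w i)) ζ = ζ) (U : Finset D) {e : ℝ} (he : 0 < e) :
    Good π N U ζ e := by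
  classical
  obtain ⟨κ, hκ, hκ'⟩ : ∃ κ : ℝ, 0 < κ ∧
      Fintype.card S * (Fintype.card S * (2 * κ * ‖ζ‖)) ≤ √e := by
    have h1 := Real.sqrt_pos.2 he
    have h2 : (0 : ℝ) ≤ Fintype.card S * (Fintype.card S * (2 * ‖ζ‖)) := by positivity
    refine ⟨√e / (Fintype.card S * (Fintype.card S * (2 * ‖ζ‖)) + 1), by positivity, ?_⟩
    refine le_trans (le_of_eq (by ring)) (mul_le_of_le_one_right h1.le
      (div_le_one_of_le₀ (le_add_of_nonneg_right (a := Fintype.card S *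
        (Fintype.card S * (2 * ‖ζ‖))) zero_le_one) (by positivity)))
  have hp1 := hp.1
  have hw1 : ∀ i, star (w i) * w i = p := fun i => by rw [hww, if_pos rfl]
  have hw2 : ∀ i, w i * p = w i := fun i => by rw [← hw1 i]; exact pi_mul (hw1 i ▸ hp1)
  have hw3 : ∀ i, p * star (w i) = star (w i) := fun i => by
    rw [← hp1.isSelfAdjoint.star_eq, ← star_mul, hw2]
  have hw4 : ∀ i, ‖w i‖ ≤ 1 := fun i => pi_norm_le (hw1 i ▸ hp1)
  obtain ⟨a, ha⟩ : ∃ a : U × S × S → (H →L[ℂ] H),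
      ∀ q, a q = star (w q.2.1) * π q.1 * w q.2.2 := ⟨_, fun _ => rfl⟩
  have a1 : ∀ q, a q ∈ N := fun q => ha q ▸ mul_mem (mul_mem (star_mem (hw _)) (hπ _)) (hw _)
  have a2 : ∀ q, p * a q = a q := fun q => by rw [ha, ← mul_assoc, ← mul_assoc, hw3]
  have a3 : ∀ q, a q * p = a q := fun q => by rw [ha, mul_assoc _ (w _), hw2]
  have a4 : ∀ q, p * star (a q) = star (a q) := fun q => by
    rw [← hp1.isSelfAdjoint.star_eq, ← star_mul, a3]
  have a5 : ∀ q, star (a q) * p = star (a q) := fun q => by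
    rw [← hp1.isSelfAdjoint.star_eq, ← star_mul, a2]
  have a6 : ∀ q q', Commute (a q) (a q') ∧ Commute (a q) (star (a q')) := fun q q' => by
    have b1 := hp.2.2 _ (a1 q) _ (a1 q')
    have b2 := hp.2.2 _ (a1 q) _ (star_mem (a1 q'))
    rw [a2, a3, a2, a3] at b1
    rw [a2, a3, a4, a5] at b2
    exact ⟨b1, b2⟩
  obtain ⟨T, _, _, z, c, z1, z2, z3, z4, z5⟩ := exists_part a a6 hκ
  have z6 : ∀ t, z t ∈ N := fun t => vn_mem_of_commute N fun X hX =>
    z4 X (fun q => ⟨vn_commute N (a1 q) hX, vn_commute N (star_mem (a1 q)) hX⟩) t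
  have z7 : ∀ t, Commute p (z t) :=
    z4 p fun q => ⟨(a2 q).trans (a3 q).symm, (a4 q).trans (a5 q).symm⟩
  have e1 : ∀ t, IsStarProjection (z t * p) := fun t => (z1 t).mul hp1 (z7 t).symm
  have e2 : ∀ t, p * (z t * p) = z t * p := fun t => by
    rw [← mul_assoc, (z7 t).eq, mul_assoc, hp1.isIdempotentElem.eq]
  choose η hη using fun t => unit_hom0 (e1 t)
  have v1 : ∀ t t' i j, star (w i * (z t * p)) * (w j * (z t' * p)) =
      if i = j then z t * p * (z t' * p) else 0 := fun t t' i j => by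
    rw [star_mul, (e1 t).isSelfAdjoint.star_eq, mul_assoc, ← mul_assoc (star (w i)), hww]
    split_ifs
    · rw [e2]
    · rw [zero_mul, mul_zero]
  have v2 : ∀ t i, star (w i * (z t * p)) * (w i * (z t * p)) = z t * p := fun t i => by
    rw [v1, if_pos rfl, (e1 t).isIdempotentElem.eq]
  have v3 : ∀ t i, IsStarProjection (star (w i * (z t * p)) * (w i * (z t * p))) := fun t i => by
    rw [v2]
    exact e1 t
  have oz : IsOZ (Sigma.fst : (Σ _ : T, S) → T) fun j => w j.2 * (z j.1 * p) := by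
    refine ⟨?_, fun j k h => by rw [v2, v2, h], fun j => pi_norm_le (v3 _ _)⟩
    rintro ⟨t, i⟩ ⟨t', j⟩ h
    rw [v1]
    split_ifs with h'
    · have : t ≠ t' := by
        rintro rfl
        exact h (congrArg (Sigma.mk t) h')
      rw [mul_assoc, e2, ← mul_assoc, z2 t t' this, zero_mul]
    · rfl
  have n1 : ‖∑ _ : Unit, star (1 : H →L[ℂ] H) * 1‖ ≤ 1 := by
    simpa using (IsStarProjection.one (H →L[ℂ] H)).norm_le
  have n2 : ‖∑ _ : Unit, (1 : H →L[ℂ] H) * star 1‖ ≤ 9 := by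
    have := (IsStarProjection.one (H →L[ℂ] H)).norm_le
    simpa using this.trans (by norm_num)
  refine ⟨⟨Σ _ : T, S, T, Unit, Sigma.fst, bsum fun t => th_hom0 π w (η t),
    fun j => w j.2 * (z j.1 * p), fun _ => 1, oz, IsCCP.bsum fun t => ccp_hom0 π hww
      (by rw [← (hη t).1, ← mul_apply_eq_comp, e2]) ((hη t).2.imp_left And.right),
    fun b j k h => Matrix.blockDiagonal'_apply_ne (fun t => th_hom0 π w (η t) b) j.2 k.2 h, n1, n2⟩,
    ⟨fun j => mul_mem (hw _) (mul_mem (z6 _) hp.2.1), fun j => v3 _ _, fun _ => one_mem _⟩,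
    fun u hu => ?_⟩
  have f1 : psi (fun j : Σ _ : T, S => w j.2 * (z j.1 * p)) (bsum (fun t => th_hom0 π w (η t)) u) =
      ∑ i, ∑ j, w i * (∑ t, ⟪η t, a (⟨u, hu⟩, i, j) (η t)⟫_ℂ • (z t * p)) * star (w j) := by
    simp only [psi, Fintype.sum_sigma, Finset.mul_sum, Finset.sum_mul]
    rw [Finset.sum_comm]
    refine Finset.sum_congr rfl fun i _ => ?_
    rw [Finset.sum_comm (s := Finset.univ (α := S))]
    refine Finset.sum_congr rfl fun t _ => ?_
    rw [Finset.sum_eq_single t (fun t' _ h => Finset.sum_eq_zero fun j _ => by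
      rw [bsum_apply, Matrix.blockDiagonal'_apply_ne _ _ _ (Ne.symm h), zero_smul]) (by simp)]
    refine Finset.sum_congr rfl fun j _ => ?_
    rw [bsum_apply, Matrix.blockDiagonal'_apply_eq, ha, star_mul, (e1 t).isSelfAdjoint.star_eq,
      mul_assoc (w i), ← mul_assoc (z t * p), (e1 t).isIdempotentElem.eq, mul_smul_comm,
      smul_mul_assoc, mul_assoc (w i)]
    rfl
  have f2 : π u ζ = (∑ i, ∑ j, w i * a (⟨u, hu⟩, i, j) * star (w j)) ζ := by
    have : ∑ i, ∑ j, w i * a (⟨u, hu⟩, i, j) * star (w j) =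
        (∑ i, w i * star (w i)) * π u * ∑ i, w i * star (w i) := by
      simp only [Finset.sum_mul, Finset.mul_sum, ha, mul_assoc]
      exact Finset.sum_comm
    rw [this, (hc _ (hπ u)).eq, mul_apply_eq_comp, mul_apply_eq_comp, hζ,
      hζ]
  simp only [SData.ev, Finset.univ_unique, Finset.sum_singleton, star_one, one_mul, mul_one]
  rw [oz.hpsi_eq_psi fun j => v3 _ _, f1, sub_apply, f2,
    ← sub_apply, ← Finset.sum_sub_distrib, ← Real.sq_sqrt he.le]
  refine pow_le_pow_left₀ (norm_nonneg _) (le_trans ?_ hκ') 2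
  rw [sum_apply, ← nsmul_eq_mul, ← Finset.card_univ]
  refine (norm_sum_le _ _).trans (Finset.sum_le_card_nsmul _ _ _ fun i _ => ?_)
  rw [← Finset.sum_sub_distrib, sum_apply, ← nsmul_eq_mul]
  refine (norm_sum_le _ _).trans (Finset.sum_le_card_nsmul _ _ _ fun j _ => ?_)
  rw [← sub_mul, ← mul_sub]
  refine (ContinuousLinearMap.le_opNorm _ _).trans (mul_le_mul_of_nonneg_right ?_ (norm_nonneg _))
  refine (norm_mul_le _ _).trans ((mul_le_of_le_one_right (norm_nonneg _)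
    ((norm_star _).trans_le (hw4 j))).trans ((norm_mul_le _ _).trans
      ((mul_le_of_le_one_left (norm_nonneg _) (hw4 i)).trans ?_)))
  exact est_hom0 z1 z2 z3 hp1 z7 (a2 _) (a3 _) (z4 _ (a6 _)) hκ.le (fun t => z5 t _) hη

end Ulam
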