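import Pool.Agent.P.MP_3be8c7_an.ISO
import Pool.Agent.P.MP_3be8c7_an.OZB

open scoped ComplexOrder InnerProductSpace
open Filter Topology

noncomputable section

namespace Ulam

universe u v w

variable {D : Type u} [CStarAlgebra D] [PartialOrder D] [StarOrderedRing D]
variable {H : Type v} [NormedAddCommGroup H] [InnerProductSpace ℂ H] [CompleteSpace H]

theorem ev_inf {R I : Type*} [CStarAlgebra R] [Fintype I] [DecidableEq I] {q : R}
    (hq : IsStarProjection q) {w : I → R} (hw : ∀ j k, star (w j) * w k = if j = k then q else 0)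
    (B : I → R) :
    star (∑ k, w k * B k) * (∑ k, w k * B k) = ∑ j, star (B j) * q * B j ∧
    ∀ x : Matrix I I ℂ, star (∑ k, w k * B k) * psi w x * (∑ k, w k * B k) =
      ∑ j, ∑ k, x j k • (star (B j) * (q * B k)) := by
  have h1 : ∀ j, star (w j) * ∑ k, w k * B k = q * B j := fun j => by
    simp [Finset.mul_sum, ← mul_assoc, hw]
  have h2 : ∀ j, star (∑ k, w k * B k) * w j = star (B j) * q := fun j => by
    simpa only [star_mul, star_star, hq.isSelfAdjoint.star_eq] using congrArg star (h1 j)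
  refine ⟨?_, fun x => ?_⟩
  · rw [Finset.mul_sum]
    exact Finset.sum_congr rfl fun j _ => by rw [← mul_assoc, h2]
  · generalize ∑ k, w k * B k = c at h1 h2
    simp only [psi, Finset.mul_sum, Finset.sum_mul, mul_smul_comm, smul_mul_assoc]
    refine Finset.sum_congr rfl fun j _ => Finset.sum_congr rfl fun k _ => ?_
    rw [← mul_assoc, mul_assoc, h1, h2, mul_assoc, ← mul_assoc q, hq.isIdempotentElem.eq]

theorem good_inf (hD : Nuc D) (π : D →⋆ₐ[ℂ] (H →L[ℂ] H)) (N : VonNeumannAlgebra H)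
    (hπ : ∀ a, π a ∈ N) (ζ : H)
    (h : ∀ (ι : Type) [Fintype ι] (b : ι → D), Disj (vfun π fun i => π (b i) ζ))
    (U : Finset D) (hU : ∀ u ∈ U, u ∈ unitary D) {e : ℝ} (he : 0 < e) : Good π N U ζ e := by
  have hδ := Real.sqrt_pos.2 he
  have hζ := norm_nonneg ζ
  obtain ⟨I, _, _, θ, b, hθ, hb, hab⟩ := hD U (√e / (2 * (‖ζ‖ + 1))) (by positivity)
  obtain ⟨q, w, hq, hqN, hwN, hw, hζq⟩ := iso π N hπ _ (h I b) I
    (η := √e / (2 * ((Fintype.card I : ℝ) * Fintype.card I + 1))) (by positivity)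
  obtain ⟨e1, e2⟩ := ev_inf hq hw fun k => π (b k)
  have hB := (norm_col_map_le π b).trans hb
  have hp : ∀ j, IsStarProjection (star (w j) * w j) := fun j => by rw [hw, if_pos rfl]; exact hq
  have oz : IsOZ (fun _ : I => ()) w := ⟨fun j k hjk => by rw [hw, if_neg hjk],
    fun j k _ => by rw [hw, hw, if_pos rfl, if_pos rfl], fun j => pi_norm_le (hp j)⟩
  have hc : ‖star (∑ k, w k * π (b k)) * ∑ k, w k * π (b k)‖ ≤ 1 := by
    have h2 := Real.sqrt_le_one.2 hB
    rw [e1]
    exact (norm_sum_sandwich_le _ _ _).trans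
      (mul_le_one₀ (mul_le_one₀ (hq.norm_le _) (Real.sqrt_nonneg _) h2) (Real.sqrt_nonneg _) h2)
  refine ⟨{ I := I, Λ := Unit, κ := Unit, τ := fun _ => (), θ := θ, v := w,
            c := fun _ => ∑ k, w k * π (b k), oz := oz, ccp := hθ,
            blk := fun _ _ _ h => absurd rfl h, col := by simpa using hc, row := ?_ },
    ⟨hwN, hp, fun _ => sum_mem fun k _ => mul_mem (hwN k) (hπ _)⟩, fun u hu => ?_⟩
  · rw [CStarRing.norm_star_mul_self] at hc
    rw [Fintype.sum_unique, CStarRing.norm_self_mul_star]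
    linarith
  · have hx := hθ.contr (a := u) (pi_norm_le (by
      rw [Unitary.star_mul_self_of_mem (hU u hu)]; exact IsStarProjection.one _))
    rw [SData.ev, Fintype.sum_unique, oz.hpsi_eq_psi hp, e2]
    have e3 : (π u - ∑ j, ∑ k, θ u j k • (star (π (b j)) * (q * π (b k)))) ζ =
        π (u - tmap b (θ u)) ζ +
          ∑ j, ∑ k, θ u j k • star (π (b j)) (π (b k) ζ - q (π (b k) ζ)) := by
      rw [map_sub, map_tmap, tmap]
      simp only [sub_apply, sum_apply, smul_apply, mul_apply_eq_comp, map_sub, smul_sub,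
        Finset.sum_sub_distrib, sub_add_sub_cancel]
    have n1 := ((π (u - tmap b (θ u))).le_opNorm ζ).trans (mul_le_mul_of_nonneg_right
      ((NonUnitalStarAlgHom.norm_apply_le π _).trans (hab u hu)) hζ)
    have n2 : ‖∑ j, ∑ k, θ u j k • star (π (b j)) (π (b k) ζ - q (π (b k) ζ))‖ ≤
        ∑ _j : I, ∑ _k : I, √e / (2 * ((Fintype.card I : ℝ) * Fintype.card I + 1)) := by
      refine norm_sum_le_of_le _ fun j _ => norm_sum_le_of_le _ fun k _ => ?_
      rw [norm_smul]
      refine (mul_le_of_le_one_left (norm_nonneg _) (hx.norm_apply_le j k)).trans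
        ((ContinuousLinearMap.le_opNorm _ _).trans ((mul_le_of_le_one_left (norm_nonneg _) ?_).trans
          (hζq k)))
      rw [norm_star]
      exact norm_le_one_of_col (fun k => π (b k)) hB j
    simp only [Finset.sum_const, Finset.card_univ, nsmul_eq_mul] at n2
    have k1 : ∀ t : ℝ, 0 ≤ t → √e / (2 * (t + 1)) * t ≤ √e / 2 := fun t ht => by
      rw [div_mul_eq_mul_div, div_le_div_iff₀ (by positivity) two_pos]
      nlinarith
    have k2 := k1 ((Fintype.card I : ℝ) * Fintype.card I) (by positivity)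
    rw [e3, ← Real.le_sqrt (norm_nonneg _) he.le]
    refine (norm_add_le _ _).trans ?_
    linarith [k1 _ hζ]

end Ulam
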