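import Pool.Agent.P.MP_3be8c7_an.TM

open scoped ComplexOrder InnerProductSpace
open Filter Topology

noncomputable section

namespace Ulam

universe u v w

theorem char_rand {κ : Type} [Fintype κ] [DecidableEq κ] (n : κ → ZMod 3) :
    av (fun o : κ → ZMod 3 => (ZMod.stdAddChar (∑ a, n a * o a) : ℂ)) = if n = 0 then 1 else 0 := by
  let f : (κ → ZMod 3) →+ ZMod 3 :=
    { toFun := fun o => ∑ a, n a * o a
      map_zero' := by simp
      map_add' := fun x y => by simp [mul_add, Finset.sum_add_distrib] }
  have h := AddChar.sum_eq_ite ((ZMod.stdAddChar (N := 3)).compAddMonoidHom f)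
  have h2 : (ZMod.stdAddChar (N := 3)).compAddMonoidHom f = 0 ↔ n = 0 := by
    refine ⟨fun h0 => funext fun i => ?_, fun h0 => ?_⟩
    · have := DFunLike.congr_fun h0 (Pi.single i 1)
      simp only [AddChar.compAddMonoidHom_apply, f, AddMonoidHom.coe_mk, ZeroHom.coe_mk,
        Pi.single_apply, mul_ite, mul_one, mul_zero, Finset.sum_ite_eq', Finset.mem_univ, if_true,
        AddChar.zero_apply] at this
      exact ZMod.injective_stdAddChar (by simpa using this)
    · ext o
      simp [f, h0]
  unfold av
  have h3 : ∑ o : κ → ZMod 3, (ZMod.stdAddChar (∑ a, n a * o a) : ℂ) =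
      if n = 0 then (Fintype.card (κ → ZMod 3) : ℂ) else 0 := by
    rw [← if_congr h2 rfl rfl]
    convert h
    rfl
  rw [h3]
  split_ifs
  · rw [Complex.real_smul, Complex.ofReal_inv, Complex.ofReal_natCast, inv_mul_cancel₀]
    exact_mod_cast Fintype.card_ne_zero
  · simp

theorem av_smul_const_rand {ι V : Type*} [Fintype ι] [AddCommGroup V] [Module ℂ V] (c : ι → ℂ)
    (x : V) : av (fun o => c o • x) = av c • x := by
  simp only [av, ← Finset.sum_smul, smul_assoc]

/-- The conjugate random variables. -/
def Rand.conj {κ : Type} [DecidableEq κ] (r : Rand κ) : Rand κ where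
  Ω := r.Ω
  ω o i := star (r.ω o i)
  m2 i j := by
    have := congrArg star (r.m2 i j)
    rw [star_av] at this
    simpa [apply_ite, mul_comm] using this
  m4 i j k l := by
    have := congrArg star (r.m4 i j k l)
    rw [star_av] at this
    simpa [apply_ite, mul_comm, mul_left_comm, mul_assoc] using this

theorem exists_rand (κ : Type) [Fintype κ] [DecidableEq κ] : Nonempty (Rand κ) := by
  refine ⟨⟨κ → ZMod 3, fun o i => ZMod.stdAddChar (o i), fun i j => ?_, fun i j k l => ?_⟩⟩
  · have := char_rand (-Pi.single i 1 + Pi.single j 1 : κ → ZMod 3)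
    simp only [Pi.add_apply, Pi.neg_apply, add_mul, neg_mul, Finset.sum_add_distrib,
      Finset.sum_neg_distrib, Pi.single_apply, ite_mul, one_mul, zero_mul, Finset.sum_ite_eq',
      Finset.mem_univ, if_true, AddChar.map_add_eq_mul, AddChar.map_neg_eq_conj] at this
    simp only [RCLike.star_def]
    rw [this]
    refine if_congr ⟨fun h => ?_, fun h => by simp [h]⟩ rfl rfl
    by_contra hij
    have := congrFun h i
    simp [hij] at this
  · have := char_rand
      (-Pi.single i 1 + Pi.single j 1 + -Pi.single k 1 + Pi.single l 1 : κ → ZMod 3)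
    simp only [Pi.add_apply, Pi.neg_apply, add_mul, neg_mul, Finset.sum_add_distrib,
      Finset.sum_neg_distrib, Pi.single_apply, ite_mul, one_mul, zero_mul, Finset.sum_ite_eq',
      Finset.mem_univ, if_true, AddChar.map_add_eq_mul, AddChar.map_neg_eq_conj] at this
    simp only [RCLike.star_def]
    rw [this]
    refine if_congr ⟨fun h => ?_, ?_⟩ rfl rfl
    · have hi := congrFun h i
      have hk := congrFun h k
      simp only [Pi.add_apply, Pi.neg_apply, Pi.single_apply, Pi.zero_apply] at hi hk
      by_cases h5 : i = k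
      · subst h5
        by_cases h1 : i = j <;> by_cases h2 : i = l
        · exact Or.inl ⟨h1, h2⟩
        all_goals
          exfalso
          simp only [if_true] at hi
          split_ifs at hi
          revert hi
          decide
      · have h6 : ¬ k = i := fun h => h5 h.symm
        by_cases h1 : i = j
        · subst h1
          by_cases h3 : k = l
          · exact Or.inl ⟨rfl, h3⟩
          · exfalso
            simp only [h6, h3, if_true, if_false] at hk
            revert hk
            decide
        · by_cases h2 : i = l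
          · subst h2
            by_cases h4 : k = j
            · exact Or.inr ⟨rfl, h4⟩
            · exfalso
              simp only [h6, h4, if_true, if_false] at hk
              revert hk
              decide
          · exfalso
            simp only [h1, h2, h5, if_true, if_false] at hi
            revert hi
            decide
    · rintro (⟨rfl, rfl⟩ | ⟨rfl, rfl⟩) <;> abel

variable {κ : Type} [Fintype κ] [DecidableEq κ] (r : Rand κ)

theorem Rand.av_norm_sq {E : Type*} [NormedAddCommGroup E] [InnerProductSpace ℂ E] (ξ : κ → E) :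
    av (fun o => ‖r.sum ξ o‖ ^ 2) = ∑ i, ‖ξ i‖ ^ 2 := by
  have h : ∀ o, ((‖r.sum ξ o‖ ^ 2 : ℝ) : ℂ) =
      ∑ i, ∑ j, (star (r.ω o i) * r.ω o j) • ⟪ξ i, ξ j⟫_ℂ := fun o => by
    rw [Complex.ofReal_pow, ← Complex.coe_algebraMap, ← inner_self_eq_norm_sq_to_K (𝕜 := ℂ)]
    simp only [Rand.sum, sum_inner, inner_sum, inner_smul_left, inner_smul_right, Finset.mul_sum]
    rw [Finset.sum_comm]
    refine Finset.sum_congr rfl fun i _ => Finset.sum_congr rfl fun j _ => ?_
    simp only [RCLike.star_def, smul_eq_mul]; ring
  have h2 : av (fun o => ((‖r.sum ξ o‖ ^ 2 : ℝ) : ℂ)) = ∑ i, ((‖ξ i‖ ^ 2 : ℝ) : ℂ) := by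
    simp only [h, av_sum, av_smul_const_rand, r.m2, ite_smul, one_smul, zero_smul,
      Finset.sum_ite_eq, Finset.mem_univ, if_true, inner_self_eq_norm_sq_to_K]
    simp
  have h3 := congrArg Complex.re h2
  rw [re_av] at h3
  simpa only [Complex.ofReal_re, Complex.re_sum] using h3

variable {R : Type w} [CStarAlgebra R] [PartialOrder R] [StarOrderedRing R]

omit [PartialOrder R] [StarOrderedRing R] in
theorem Rand.av_two (c d : κ → R) (y : R) :
    av (fun o => star (r.sum c o) * y * r.sum d o) = ∑ i, star (c i) * y * d i := by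
  simp only [Rand.sum, star_sum, star_smul, Finset.sum_mul, Finset.mul_sum, smul_mul_assoc,
    mul_smul_comm, Finset.smul_sum, smul_smul, av_sum, av_smul_const_rand]
  have h : ∀ i j, av (fun o => r.ω o j * star (r.ω o i)) = if i = j then 1 else 0 := fun i j => by
    simpa only [mul_comm] using r.m2 i j
  simp only [h, ite_smul, one_smul, zero_smul]
  simp

omit [PartialOrder R] [StarOrderedRing R] in
theorem Rand.conj_sum_rand (c : κ → R) (o : r.Ω) :
    r.conj.sum (fun i => star (c i)) o = star (r.sum c o) := by
  simp [Rand.sum, Rand.conj, star_sum]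

omit [PartialOrder R] [StarOrderedRing R] in
theorem Rand.av_two' (c d : κ → R) (y : R) :
    av (fun o => r.sum c o * y * star (r.sum d o)) = ∑ i, c i * y * star (d i) := by
  have := r.conj.av_two (fun i => star (c i)) (fun i => star (d i)) y
  simp only [r.conj_sum_rand, star_star] at this
  exact this

omit [PartialOrder R] [StarOrderedRing R] in
theorem Rand.av_four_rand (c₁ c₂ c₃ c₄ : κ → R) :
    av (fun o => star (r.sum c₁ o) * r.sum c₂ o * star (r.sum c₃ o) * r.sum c₄ o) =
      (∑ i, star (c₁ i) * c₂ i) * (∑ i, star (c₃ i) * c₄ i) +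
        ∑ i, star (c₁ i) * (∑ k, c₂ k * star (c₃ k)) * c₄ i -
        ∑ i, star (c₁ i) * c₂ i * star (c₃ i) * c₄ i := by
  have h : ∀ o, star (r.sum c₁ o) * r.sum c₂ o * star (r.sum c₃ o) * r.sum c₄ o =
      ∑ i, ∑ j, ∑ k, ∑ l, (star (r.ω o i) * r.ω o j * star (r.ω o k) * r.ω o l) •
        (star (c₁ i) * c₂ j * star (c₃ k) * c₄ l) := fun o => by
    simp only [Rand.sum, star_sum, star_smul]
    rw [Finset.sum_mul, Finset.sum_mul, Finset.sum_mul]
    refine Finset.sum_congr rfl fun i _ => ?_
    rw [Finset.mul_sum _ (fun j => r.ω o j • c₂ j), Finset.sum_mul, Finset.sum_mul]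
    refine Finset.sum_congr rfl fun j _ => ?_
    rw [Finset.mul_sum _ (fun k => star (r.ω o k) • star (c₃ k)), Finset.sum_mul]
    refine Finset.sum_congr rfl fun k _ => ?_
    rw [Finset.mul_sum]
    refine Finset.sum_congr rfl fun l _ => ?_
    simp only [smul_mul_assoc, mul_smul_comm, smul_smul]
    congr 1; ring
  have h2 : ∀ i j k l : κ, (if (i = j ∧ k = l) ∨ (i = l ∧ k = j) then (1 : ℂ) else 0) =
      (if j = i then if l = k then 1 else 0 else 0) + (if k = j then if l = i then 1 else 0 else 0) -
        (if j = i then if k = i then if l = i then 1 else 0 else 0 else 0) := by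
    intro i j k l
    by_cases h1 : j = i
    · subst h1
      by_cases h2 : l = k
      · subst h2
        by_cases h3 : l = j <;> simp [h3]
      · by_cases h3 : k = j
        · subst h3
          simp [h2, Ne.symm h2]
        · simp [h2, h3, Ne.symm h2]
    · by_cases h2 : k = j <;> by_cases h3 : i = l
      · subst h3; simp [h1, h2]
      · simp [h1, h2, h3, Ne.symm h1, Ne.symm h3]
      · subst h3; simp [h1, h2, Ne.symm h1]
      · simp [h1, h2, h3, Ne.symm h1]
  simp only [h, av_sum, av_smul_const_rand, r.m4, h2, sub_smul, add_smul, ite_smul, one_smul,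
    zero_smul, Finset.sum_sub_distrib, Finset.sum_add_distrib]
  congr 1
  · congr 1
    · simp [Finset.sum_mul_sum, mul_assoc]
    · simp [Finset.mul_sum, Finset.sum_mul, mul_assoc]
  · simp

theorem Rand.av_four_le (c d : κ → R) :
    av (fun o => star (r.sum c o) * r.sum d o * star (r.sum d o) * r.sum c o) ≤
      (∑ i, star (c i) * d i) * (∑ i, star (d i) * c i) +
        ‖∑ i, d i * star (d i)‖ • ∑ i, star (c i) * c i := by
  rw [r.av_four_rand c d d c]
  have h1 : 0 ≤ ∑ i, star (c i) * d i * star (d i) * c i := Finset.sum_nonneg fun i _ => by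
    simpa [mul_assoc] using star_mul_self_nonneg (star (d i) * c i)
  have h2 : ∑ i, star (c i) * (∑ k, d k * star (d k)) * c i ≤
      ‖∑ i, d i * star (d i)‖ • ∑ i, star (c i) * c i := by
    rw [Finset.smul_sum]
    exact Finset.sum_le_sum fun i _ => CStarAlgebra.star_left_conjugate_le_norm_smul
      (isSelfAdjoint_sum _ fun k _ => IsSelfAdjoint.mul_star_self (d k))
  exact (sub_le_self _ h1).trans (add_le_add le_rfl h2)

theorem Rand.av_four_le' (c : κ → R) :
    av (fun o => r.sum c o * star (r.sum c o) * r.sum c o * star (r.sum c o)) ≤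
      (∑ i, c i * star (c i)) * (∑ i, c i * star (c i)) +
        ‖∑ i, star (c i) * c i‖ • ∑ i, c i * star (c i) := by
  have := r.conj.av_four_le (fun i => star (c i)) (fun i => star (c i))
  simp only [r.conj_sum_rand, star_star] at this
  exact this

end Ulam
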