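import Pool.Agent.P.MP_3be8c7_an.HBTE
import Pool.Agent.P.MP_3be8c7_an.RAND
import Pool.Agent.P.MP_3be8c7_an.SPEC
import Pool.Agent.P.MP_3be8c7_an.GS

open scoped ComplexOrder InnerProductSpace
open Filter Topology

noncomputable section

namespace Ulam

universe u v w

variable {D : Type u} [CStarAlgebra D] [PartialOrder D] [StarOrderedRing D]
variable {H : Type v} [NormedAddCommGroup H] [InnerProductSpace ℂ H] [CompleteSpace H]

theorem rand_iso (ρ : D →ₚ[ℂ] ℂ) {κ : Type} [Fintype κ] [DecidableEq κ] (x : κ → D) {e : ℝ}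
    (h1 : ‖∑ i, star (x i) * x i‖ ≤ 1) (h2 : ‖∑ i, x i * star (x i)‖ ≤ e)
    (h3 : (ρ (1 - ∑ i, star (x i) * x i)).re ≤ e) (I : Type) [Fintype I] [DecidableEq I] :
    ∃ (a : I → D) (y : I × I → D),
      (∀ j k, y (j, k) = star (a j) * a k - if j = k then 1 else 0) ∧
      (ρ (∑ p, star (y p) * y p)).re ≤ Fintype.card (I × I) * ((2 + (ρ 1).re) * e) := by
  obtain ⟨r⟩ := exists_rand (I × κ)
  let c : I → I × κ → D := fun j p => if p.1 = j then x p.2 else 0
  have c1 : ∀ j k, ∑ p, star (c j p) * c k p = if j = k then ∑ i, star (x i) * x i else 0 := by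
    intro j k
    rw [Fintype.sum_prod_type, Finset.sum_eq_single j (fun l _ h => by simp [c, h]) (by simp)]
    split_ifs with h <;> simp [c, h]
  have c2 : ∀ j, ∑ p, c j p * star (c j p) = ∑ i, x i * star (x i) := fun j => by
    rw [Fintype.sum_prod_type, Finset.sum_eq_single j (fun l _ h => by simp [c, h]) (by simp)]
    simp [c]
  generalize ∑ i, star (x i) * x i = s at h1 h3 c1
  generalize ∑ i, x i * star (x i) = t at h2 c2
  have r0 : 0 ≤ (ρ 1).re := (Complex.nonneg_iff.1 (map_nonneg ρ zero_le_one)).1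
  have e0 := (norm_nonneg _).trans h2
  have r1 : (ρ (‖t‖ • s)).re ≤ e * (ρ 1).re := (pos_re_le_norm ρ _).trans
    (mul_le_mul_of_nonneg_right (by rw [norm_smul, norm_norm]; nlinarith [norm_nonneg t]) r0)
  have r2 : (ρ (s * s)).re ≤ (ρ 1).re := (pos_re_le_norm ρ _).trans
    (mul_le_of_le_one_left r0 ((norm_mul_le _ _).trans (mul_le_one₀ h1 (norm_nonneg _) h1)))
  let y : r.Ω → I × I → D := fun o p =>
    star (r.sum (c p.1) o) * r.sum (c p.2) o - if p.1 = p.2 then 1 else 0
  obtain ⟨o, ho⟩ := exists_le_av fun o => (ρ (∑ p, star (y o p) * y o p)).re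
  refine ⟨fun j => r.sum (c j) o, y o, fun _ _ => rfl, ho.trans ?_⟩
  rw [← re_av, ← map_av', av_sum, map_sum, Complex.re_sum, ← nsmul_eq_mul]
  refine Finset.sum_le_card_nsmul _ _ _ fun ⟨j, k⟩ _ => ?_
  have h4 := pos_re_le ρ (r.av_four_le (c k) (c j))
  rw [c1, c1, c1, c2, if_pos rfl, map_add, Complex.add_re] at h4
  by_cases h : j = k
  · subst h
    have h5 := r.av_two (c j) (c j) 1
    simp only [mul_one, c1, if_true] at h5
    have h6 : ∀ a : D, star (star a * a - 1) * (star a * a - 1) =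
        star a * a * star a * a - star a * a - star a * a + 1 := fun a => by
      rw [star_sub, star_mul, star_star, star_one]
      noncomm_ring
    simp only [y, if_true, h6] at h4 ⊢
    rw [av_add, av_sub, av_sub, av_const, h5]
    simp only [map_add, map_sub, Complex.add_re, Complex.sub_re] at h3 ⊢
    linarith
  · simp only [y, if_neg h, sub_zero, star_mul, star_star, ← mul_assoc, mul_zero, map_zero,
      Complex.zero_re] at h4 ⊢
    linarith

theorem iso (π : D →⋆ₐ[ℂ] (H →L[ℂ] H)) (N : VonNeumannAlgebra H) (hπ : ∀ a, π a ∈ N)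
    {ι : Type*} [Fintype ι] (ζ : ι → H) (h : Disj (vfun π ζ)) (I : Type) [Fintype I]
    [DecidableEq I] {η : ℝ} (hη : 0 < η) :
    ∃ (q : H →L[ℂ] H) (w : I → (H →L[ℂ] H)), IsStarProjection q ∧ q ∈ N ∧ (∀ j, w j ∈ N) ∧
      (∀ j k, star (w j) * w k = if j = k then q else 0) ∧ ∀ i, ‖ζ i - q (ζ i)‖ ≤ η := by
  obtain ⟨κ, k0, hk⟩ := gs.{v} I
  obtain ⟨C, hC⟩ : ∃ C : ℝ, C = Fintype.card (I × I) * (2 + (vfun π ζ 1).re) := ⟨_, rfl⟩
  have c0 : 0 ≤ C := by
    have := (Complex.nonneg_iff.1 (map_nonneg (vfun π ζ) zero_le_one)).1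
    rw [hC]
    positivity
  obtain ⟨μ, _, _, x, h1, h2, h3⟩ := hbte h (η := κ ^ 2 * η ^ 2 / (C + 1)) (by positivity)
  obtain ⟨a, y, h4, h5⟩ := rand_iso _ x h1 h2 h3 I
  rw [← mul_assoc, ← hC] at h5
  have h6 : ∀ p, 0 ≤ star (y p) * y p := fun p => star_mul_self_nonneg _
  obtain ⟨p, p1, p2, p3, p4, -⟩ := exists_cut
    (map_nonneg π (Finset.sum_nonneg fun p (_ : p ∈ Finset.univ) => h6 p)) (pow_pos k0 2)
  have q1 := p1.one_sub
  have q2 : 1 - p ∈ N :=
    sub_mem (one_mem _) (vn_mem_of_commute N fun T hT => p2 T (vn_commute N (hπ _) hT))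
  have q3 := q1.isSelfAdjoint.star_eq
  have q4 := q1.isIdempotentElem.eq
  obtain ⟨w, w1, w2⟩ := hk H N (1 - p) (fun j => π (a j) * (1 - p)) q1 q2
    (fun j => mul_mem (hπ _) q2) (fun j => by rw [mul_assoc, q4]) fun j k => by
      generalize 1 - p = q at p3 q1 q3 q4
      have e1 : star (π (a j) * q) * (π (a k) * q) - (if j = k then q else 0) =
          q * (π (y (j, k)) * q) := by
        rw [h4, map_sub, map_mul, map_star, star_mul, q3, sub_mul, mul_sub]
        split_ifs <;> simp [q4, mul_assoc]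
      have e2 : ‖π (y (j, k)) * q‖ ^ 2 ≤ κ ^ 2 := by
        rw [sq, ← CStarRing.norm_star_mul_self]
        refine (CStarAlgebra.norm_le_norm_of_nonneg_of_le (star_mul_self_nonneg _) ?_).trans p3
        have := star_left_conjugate_le_conjugate (OrderHomClass.mono π
          (Finset.single_le_sum (fun p _ => h6 p) (Finset.mem_univ (j, k)))) q
        simpa only [q3, star_mul, map_mul, map_star, mul_assoc] using this
      rw [e1]
      exact (norm_mul_le _ _).trans ((mul_le_of_le_one_left (norm_nonneg _) q1.norm_le).trans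
        ((sq_le_sq₀ (norm_nonneg _) k0.le).1 e2))
  refine ⟨1 - p, w, q1, q2, w1, w2, fun i => ?_⟩
  have h7 := (p4 (ζ i)).trans (Finset.single_le_sum (fun i _ => le_trans (by positivity) (p4 (ζ i)))
    (Finset.mem_univ i))
  rw [← Complex.re_sum, ← vfun_apply] at h7
  have h8 : C * (κ ^ 2 * η ^ 2 / (C + 1)) ≤ κ ^ 2 * η ^ 2 := by
    rw [← mul_div_assoc, div_le_iff₀ (by positivity)]
    nlinarith [mul_pos (pow_pos k0 2) (pow_pos hη 2)]
  simpa using (sq_le_sq₀ (norm_nonneg _) hη.le).1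
    (le_of_mul_le_mul_left ((h7.trans h5).trans h8) (pow_pos k0 2))

end Ulam
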