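import Pool.Agent.P.MP_3be8c7_an.Defs

/-!
# Internal definitions for the proof that nuclear C⋆-algebras are Ulam stable
-/

open scoped ComplexOrder InnerProductSpace
open Filter Topology

noncomputable section

namespace Ulam

universe u v w

/-- Uniform average of a finite family. -/
def av {ι V : Type*} [Fintype ι] [AddCommMonoid V] [Module ℝ V] (x : ι → V) : V :=
  (Fintype.card ι : ℝ)⁻¹ • ∑ i, x i

/-- The completely positive map `x ↦ ∑ x j k • (b j)⋆ b k`. -/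
def tmap {I R : Type*} [Fintype I] [NonUnitalNonAssocSemiring R] [Star R] [Module ℂ R]
    (b : I → R) (x : Matrix I I ℂ) : R :=
  ∑ j, ∑ k, x j k • (star (b j) * b k)

/-- A matrix is a contraction. -/
def Contr {I : Type*} [Fintype I] [DecidableEq I] (x : Matrix I I ℂ) : Prop :=
  (1 - star x * x).PosSemidef

/-- Block matrices for the labelling `τ`. -/
def Blk {I Λ : Type*} (τ : I → Λ) (x : Matrix I I ℂ) : Prop :=
  ∀ j k, τ j ≠ τ k → x j k = 0

/-- Positive kernel on a star-semigroup with matrix values. -/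
def KPosM {D I : Type*} [Mul D] [Star D] (θ : D → Matrix I I ℂ) : Prop :=
  (Matrix.of fun p q : D × I => θ (star p.1 * q.1) p.2 q.2).PosSemidef

/-- Completely positive contraction from a unital algebra to a matrix algebra. -/
structure IsCCP {D I : Type*} [Ring D] [StarRing D] [Algebra ℂ D] [Fintype I] [DecidableEq I]
    (θ : D →ₗ[ℂ] Matrix I I ℂ) : Prop where
  pos : KPosM θ
  one : (1 - θ 1).PosSemidef

section Hilbert

variable {H : Type v} [NormedAddCommGroup H] [InnerProductSpace ℂ H] [CompleteSpace H]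

/-- A finite operator matrix is positive. -/
def KerPos {I : Type*} [Fintype I] (r : I → I → (H →L[ℂ] H)) : Prop :=
  ∀ ξ : I → H, 0 ≤ ∑ j, ∑ k, ⟪ξ j, r j k (ξ k)⟫_ℂ

/-- Positive kernel on a star-semigroup with operator values. -/
def KPos {S : Type*} [Mul S] [Star S] (L : S → (H →L[ℂ] H)) : Prop :=
  ∀ (m : ℕ) (a : Fin m → S), KerPos fun i j => L (star (a i) * a j)

/-- Weak operator convergence. -/
def WL {α : Type*} (l : Filter α) (T : α → (H →L[ℂ] H)) (S : H →L[ℂ] H) : Prop :=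
  ∀ ξ η : H, Tendsto (fun a => ⟪η, T a ξ⟫_ℂ) l (𝓝 ⟪η, S ξ⟫_ℂ)

/-- Bounded strong-star convergence. -/
def SS {α : Type*} (l : Filter α) (x : α → (H →L[ℂ] H)) (y : H →L[ℂ] H) : Prop :=
  (∃ C : ℝ, ∀ᶠ a in l, ‖x a‖ ≤ C) ∧
    ∀ ξ : H, Tendsto (fun a => x a ξ) l (𝓝 (y ξ)) ∧
      Tendsto (fun a => star (x a) ξ) l (𝓝 (star y ξ))

/-- `ξ` is a trace vector for `N`. -/
def TrVec (N : VonNeumannAlgebra H) (ξ : H) : Prop :=
  ∀ x ∈ N, ‖x ξ‖ = ‖star x ξ‖

/-- Central projection of `N`. -/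
def CProj (N : VonNeumannAlgebra H) (z : H →L[ℂ] H) : Prop :=
  IsStarProjection z ∧ z ∈ N ∧ ∀ x ∈ N, Commute z x

/-- Abelian projection of `N`. -/
def Abel (N : VonNeumannAlgebra H) (e : H →L[ℂ] H) : Prop :=
  IsStarProjection e ∧ e ∈ N ∧ ∀ x ∈ N, ∀ y ∈ N, Commute (e * x * e) (e * y * e)

/-- `z` is covered by at most `2 ^ (s + 1)` pieces, each subequivalent to a projection `p` that
has `2 ^ s` orthogonal copies. -/
def Div (N : VonNeumannAlgebra H) (s : ℕ) (z : H →L[ℂ] H) : Prop :=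
  ∃ (p : H →L[ℂ] H) (f : Fin (2 ^ s) → (H →L[ℂ] H)) (Γ : Type) (_ : Fintype Γ)
    (y : Γ → (H →L[ℂ] H)), IsStarProjection p ∧ p ∈ N ∧ (∀ α, f α ∈ N) ∧
    (∀ α β, star (f α) * f β = if α = β then p else 0) ∧ Fintype.card Γ ≤ 2 ^ (s + 1) ∧
    (∀ γ, y γ ∈ N) ∧ (∀ γ, p * y γ = y γ) ∧ ∑ γ, star (y γ) * y γ = z

end Hilbert

/-- Nuclearity of a possibly non-unital algebra in Choi form. -/
def Nuc0 (D : Type u) [NonUnitalCStarAlgebra D] : Prop :=
  ∀ (F : Finset D) (η : ℝ), 0 < η → ∃ (I : Type) (_ : Fintype I) (_ : DecidableEq I)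
    (θ : D →ₗ[ℂ] Matrix I I ℂ) (b : I → D), KPosM θ ∧
    (∀ a, ‖a‖ ≤ 1 → (1 - θ (star a * a)).PosSemidef) ∧ ‖∑ k, star (b k) * b k‖ ≤ 1 ∧
    ∀ a ∈ F, ‖a - tmap b (θ a)‖ ≤ η

/-- Nuclearity of a unital algebra in Choi form. -/
def Nuc (D : Type u) [CStarAlgebra D] : Prop :=
  ∀ (F : Finset D) (η : ℝ), 0 < η → ∃ (I : Type) (_ : Fintype I) (_ : DecidableEq I)
    (θ : D →ₗ[ℂ] Matrix I I ℂ) (b : I → D), IsCCP θ ∧ ‖∑ k, star (b k) * b k‖ ≤ 1 ∧
    ∀ a ∈ F, ‖a - tmap b (θ a)‖ ≤ η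

/-- Weak nuclearity with a row bound. -/
def WNR (D : Type u) [CStarAlgebra D] [PartialOrder D] : Prop :=
  ∀ (ρ : D →ₚ[ℂ] ℂ) (U : Finset D), (∀ u ∈ U, u ∈ unitary D) → ∀ η : ℝ, 0 < η →
    ∃ (I : Type) (_ : Fintype I) (_ : DecidableEq I) (θ : D →ₗ[ℂ] Matrix I I ℂ) (b : I → D),
    IsCCP θ ∧ ‖∑ k, star (b k) * b k‖ ≤ 1 ∧ ‖∑ k, b k * star (b k)‖ ≤ 9 ∧
    ∀ u ∈ U, (ρ (star (u - tmap b (θ u)) * (u - tmap b (θ u)))).re ≤ η

/-- Order zero data: `x ↦ ∑ x j k • v j (v k)⋆` is order zero on block matrices. -/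
structure IsOZ {I Λ R : Type*} [CStarAlgebra R] (τ : I → Λ) (v : I → R) : Prop where
  orth : ∀ j k, j ≠ k → star (v j) * v k = 0
  same : ∀ j k, τ j = τ k → star (v j) * v j = star (v k) * v k
  norm_le : ∀ j, ‖v j‖ ≤ 1

/-- The order zero map. -/
def psi {I R : Type*} [Fintype I] [CStarAlgebra R] (v : I → R) (x : Matrix I I ℂ) : R :=
  ∑ j, ∑ k, x j k • (v j * star (v k))

/-- The order zero map multiplied by the image of the unit. -/
def hpsi {I R : Type*} [Fintype I] [DecidableEq I] [CStarAlgebra R] (v : I → R)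
    (x : Matrix I I ℂ) : R :=
  psi v 1 * psi v x

/-- Structure data: an order zero factorisation with a column and a row bound. -/
structure SData (D : Type u) (R : Type w) [CStarAlgebra D] [CStarAlgebra R] where
  I : Type
  Λ : Type
  κ : Type
  [fI : Fintype I]
  [dI : DecidableEq I]
  [fκ : Fintype κ]
  τ : I → Λ
  θ : D →ₗ[ℂ] Matrix I I ℂ
  v : I → R
  c : κ → R
  oz : IsOZ τ v
  ccp : IsCCP θ
  blk : ∀ a, Blk τ (θ a)
  col : ‖∑ i, star (c i) * c i‖ ≤ 1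
  row : ‖∑ i, c i * star (c i)‖ ≤ 9

attribute [instance] SData.fI SData.dI SData.fκ

/-- The map defined by structure data. -/
def SData.ev {D : Type u} {R : Type w} [CStarAlgebra D] [CStarAlgebra R] (s : SData D R) (a : D) :
    R :=
  ∑ i, star (s.c i) * hpsi s.v (s.θ a) * s.c i

/-- The structure property. -/
def STR (D : Type u) [CStarAlgebra D] [PartialOrder D] : Prop :=
  ∀ (ρ : D →ₚ[ℂ] ℂ) (U : Finset D), (∀ u ∈ U, u ∈ unitary D) → ∀ η : ℝ, 0 < η →
    ∃ s : SData D D, ∀ u ∈ U, (ρ (star (u - s.ev u) * (u - s.ev u))).re ≤ η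

/-- Tracial positive functional. -/
def IsTr {D : Type u} [CStarAlgebra D] [PartialOrder D] (τ : D →ₚ[ℂ] ℂ) : Prop :=
  ∀ x, τ (star x * x) = τ (x * star x)

/-- `ρ` is disjoint from all traces. -/
def Disj {D : Type u} [CStarAlgebra D] [PartialOrder D] (ρ : D →ₚ[ℂ] ℂ) : Prop :=
  ∀ τ : D →ₚ[ℂ] ℂ, IsTr τ → ∀ η : ℝ, 0 < η →
    ∃ a : D, 0 ≤ a ∧ a ≤ 1 ∧ (ρ (1 - a)).re ≤ η ∧ (τ a).re ≤ η

section Rep

variable {D : Type u} [CStarAlgebra D]
  {H : Type v} [NormedAddCommGroup H] [InnerProductSpace ℂ H] [CompleteSpace H]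

/-- Structure data in a von Neumann algebra, with partial isometries. -/
def SData.In (s : SData D (H →L[ℂ] H)) (N : VonNeumannAlgebra H) : Prop :=
  (∀ j, s.v j ∈ N) ∧ (∀ j, IsStarProjection (star (s.v j) * s.v j)) ∧ ∀ i, s.c i ∈ N

/-- Structure data in `N` approximating `π` on `U` at the vector `ζ` with squared error `e`. -/
def Good (π : D →⋆ₐ[ℂ] (H →L[ℂ] H)) (N : VonNeumannAlgebra H) (U : Finset D) (ζ : H) (e : ℝ) :
    Prop :=
  ∃ s : SData D (H →L[ℂ] H), s.In N ∧ ∀ u ∈ U, ‖(π u - s.ev u) ζ‖ ^ 2 ≤ e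

/-- Strong-star density of the range of `π` in `N`. -/
def SDense (π : D →⋆ₐ[ℂ] (H →L[ℂ] H)) (N : VonNeumannAlgebra H) : Prop :=
  ∀ x ∈ N, ∀ (F : Finset H) (η : ℝ), 0 < η → ∃ a : D, ∀ ζ ∈ F,
    ‖(π a - x) ζ‖ ≤ η ∧ ‖(star (π a) - star x) ζ‖ ≤ η

/-- Kaplansky density of the range of `π` in `N`. -/
def KDense (π : D →⋆ₐ[ℂ] (H →L[ℂ] H)) (N : VonNeumannAlgebra H) : Prop :=
  ∀ x ∈ N, ‖x‖ ≤ 1 → ∃ a : Finset H × ℕ → D, (∀ i, ‖a i‖ ≤ 1) ∧ SS atTop (fun i => π (a i)) x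

/-- The positive functional of a finite family of vectors. -/
def vfun [PartialOrder D] [StarOrderedRing D] (π : D →⋆ₐ[ℂ] (H →L[ℂ] H)) {ι : Type*} [Fintype ι]
    (ζ : ι → H) : D →ₚ[ℂ] ℂ :=
  PositiveLinearMap.mk₀
    { toFun := fun a => ∑ i, ⟪ζ i, π a (ζ i)⟫_ℂ
      map_add' := fun a b => by simp [Finset.sum_add_distrib]
      map_smul' := fun c a => by simp [Finset.mul_sum] }
    fun a ha => by
      have h : 0 ≤ π a := map_nonneg π ha
      exact Finset.sum_nonneg fun i _ =>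
        ((ContinuousLinearMap.nonneg_iff_isPositive _).1 h).inner_nonneg_right (ζ i)

@[simp] lemma vfun_apply [PartialOrder D] [StarOrderedRing D] (π : D →⋆ₐ[ℂ] (H →L[ℂ] H))
    {ι : Type*} [Fintype ι] (ζ : ι → H) (a : D) : vfun π ζ a = ∑ i, ⟪ζ i, π a (ζ i)⟫_ℂ := rfl

end Rep

/-- The star-subalgebra of block matrices. -/
def blkAlg {I Λ : Type*} [Fintype I] [DecidableEq I] (τ : I → Λ) :
    StarSubalgebra ℂ (Matrix I I ℂ) where
  carrier := {x | Blk τ x}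
  mul_mem' := by
    intro x y hx hy j k h
    rw [Matrix.mul_apply]
    refine Finset.sum_eq_zero fun l _ => ?_
    by_cases hl : τ j = τ l
    · rw [hy l k (hl ▸ h), mul_zero]
    · rw [hx j l hl, zero_mul]
  add_mem' := by
    intro x y hx hy j k h
    rw [Matrix.add_apply, hx j k h, hy j k h, add_zero]
  algebraMap_mem' := by
    intro c j k h
    have : j ≠ k := fun e => h (e ▸ rfl)
    simp [Matrix.algebraMap_eq_diagonal, Matrix.diagonal_apply_ne _ this]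
  star_mem' := by
    intro x hx j k h
    rw [Matrix.star_apply, hx k j (Ne.symm h), star_zero]

/-- The unitary group of the block matrices. -/
abbrev BU {I Λ : Type*} [Fintype I] [DecidableEq I] (τ : I → Λ) : Type _ := unitary (blkAlg τ)

/-- The matrix of a block unitary. -/
def BU.mat {I Λ : Type*} [Fintype I] [DecidableEq I] {τ : I → Λ} (w : BU τ) : Matrix I I ℂ :=
  ((w : blkAlg τ) : Matrix I I ℂ)

/-- Random signs: orthonormal variables with the fourth moments of independent phases. -/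
structure Rand (κ : Type) [DecidableEq κ] where
  Ω : Type
  [fΩ : Fintype Ω]
  [nΩ : Nonempty Ω]
  ω : Ω → κ → ℂ
  m2 : ∀ i j, av (fun o => star (ω o i) * ω o j) = if i = j then 1 else 0
  m4 : ∀ i j k l, av (fun o => star (ω o i) * ω o j * star (ω o k) * ω o l) =
    if (i = j ∧ k = l) ∨ (i = l ∧ k = j) then 1 else 0

attribute [instance] Rand.fΩ Rand.nΩ

/-- The random sum of a family. -/
def Rand.sum {κ : Type} [DecidableEq κ] [Fintype κ] (r : Rand κ) {R : Type*} [AddCommMonoid R]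
    [Module ℂ R] (c : κ → R) (o : r.Ω) : R :=
  ∑ i, r.ω o i • c i

/-- Poincaré inequality for the graph of four permutations. -/
def Poinc {L : Type*} [Fintype L] (σ : Fin 4 → Equiv.Perm L) (C : ℝ) : Prop :=
  ∀ f : L → ℂ, ∑ l, f l = 0 → ∑ l, ‖f l‖ ^ 2 ≤ C * ∑ s, ∑ l, ‖f l - f (σ s l)‖ ^ 2

/-- Vertex sums: the edge `(l, s)` gives `a` to its source `l` and `b` to its target `σ s l`. -/
def vsum {L R : Type*} [NonUnitalNonAssocSemiring R] [Star R] (σ : Fin 4 → Equiv.Perm L)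
    (a b : L × Fin 4 → R) (l : L) : R :=
  ∑ s, star (a (l, s)) * a (l, s) + ∑ s, star (b ((σ s).symm l, s)) * b ((σ s).symm l, s)

end Ulam
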