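import Pool.Agent.P.MP_3be8c7_an.SSF

open scoped ComplexOrder InnerProductSpace
open Filter Topology

noncomputable section

namespace Ulam

universe u v w

/-- `r` is the inverse of `1 + a⋆ a`. -/
def Inv_kap {R : Type*} [Ring R] [StarRing R] (a r : R) : Prop :=
  r * (1 + star a * a) = 1 ∧ (1 + star a * a) * r = 1

section Alg

variable {R : Type*} [Ring R] [StarRing R]

theorem sa_kap {a r : R} (h : Inv_kap a r) : star r = r := by
  have h1 := congrArg star h.1
  simp only [star_mul, star_add, star_one, star_star] at h1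
  calc star r = (r * (1 + star a * a)) * star r := by rw [h.1, one_mul]
    _ = r := by rw [mul_assoc, h1, mul_one]

theorem swap_kap {a r l : R} (h : Inv_kap a r) (h' : Inv_kap (star a) l) : l * a = a * r := by
  have h1 := h'.1
  rw [star_star] at h1
  calc l * a = l * a * ((1 + star a * a) * r) := by rw [h.2, mul_one]
    _ = (l * (1 + a * star a)) * (a * r) := by noncomm_ring
    _ = a * r := by rw [h1, one_mul]

theorem star_kap {a r l : R} (h : Inv_kap a r) (h' : Inv_kap (star a) l) :
    star (a * r) = star a * l := by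
  rw [← swap_kap h h', star_mul, sa_kap h']

theorem diff_kap {a r l y s : R} (h : Inv_kap a r) (h' : Inv_kap (star a) l) (hy : Inv_kap y s) :
    a * r - y * s = l * ((a - y) * s) - (a * r) * ((star a - star y) * (y * s)) := by
  have h1 := h'.1
  rw [star_star] at h1
  have e1 : l * a = l * a * ((1 + star y * y) * s) := by rw [hy.2, mul_one]
  have e2 : y * s = (l * (1 + a * star a)) * (y * s) := by rw [h1, one_mul]
  rw [← swap_kap h h']
  calc l * a - y * s
      = l * a * ((1 + star y * y) * s) - (l * (1 + a * star a)) * (y * s) := by rw [← e1, ← e2]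
    _ = _ := by noncomm_ring

end Alg

section CS

variable {R : Type*} [CStarAlgebra R] [PartialOrder R] [StarOrderedRing R]

theorem exists_kap (a : R) : ∃ r, Inv_kap a r := by
  have h : IsUnit (1 + star a * a) :=
    CStarAlgebra.isUnit_of_le (a := 1) (le_add_of_nonneg_right (star_mul_self_nonneg a))
      isStrictlyPositive_one
  obtain ⟨w, hw⟩ := h
  exact ⟨(w⁻¹ : Rˣ), by rw [← hw, Units.inv_mul], by rw [← hw, Units.mul_inv]⟩

theorem norm_of_kap {b : R} (h : star b * b ≤ 1) : ‖b‖ ≤ 1 := by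
  have h1 := (CStarAlgebra.norm_le_one_iff_of_nonneg _ (star_mul_self_nonneg b)).2 h
  rw [CStarRing.norm_star_mul_self] at h1
  nlinarith [norm_nonneg b]

theorem sq_kap {a r : R} (h : Inv_kap a r) : star (a * r) * (a * r) = r - r * r := by
  rw [star_mul, sa_kap h]
  calc r * star a * (a * r) = (r * (1 + star a * a)) * r - r * r := by noncomm_ring
    _ = r - r * r := by rw [h.1, one_mul]

theorem norm_inv_kap {a r : R} (h : Inv_kap a r) : ‖r‖ ≤ 1 := by
  refine norm_of_kap ?_
  have p1 : 0 ≤ r - r * r := sq_kap h ▸ star_mul_self_nonneg (a * r)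
  have p2 : 0 ≤ star (1 - r) * (1 - r) := star_mul_self_nonneg _
  rw [star_sub, star_one, sa_kap h] at p2
  rw [sa_kap h, ← sub_nonneg]
  have e : 1 - r * r = (1 - r) * (1 - r) + (r - r * r) + (r - r * r) := by noncomm_ring
  rw [e]
  exact add_nonneg (add_nonneg p2 p1) p1

theorem norm_two_kap {a r : R} (h : Inv_kap a r) : ‖a * r + a * r‖ ≤ 1 := by
  refine norm_of_kap ?_
  have p2 : 0 ≤ star (1 - (r + r)) * (1 - (r + r)) := star_mul_self_nonneg _
  rw [star_sub, star_one, star_add, sa_kap h] at p2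
  rw [← sub_nonneg, star_add]
  have e : 1 - (star (a * r) + star (a * r)) * (a * r + a * r) =
      1 - (star (a * r) * (a * r) + star (a * r) * (a * r) + star (a * r) * (a * r) +
        star (a * r) * (a * r)) := by noncomm_ring
  rw [e, sq_kap h]
  have e' : 1 - (r - r * r + (r - r * r) + (r - r * r) + (r - r * r)) =
      (1 - (r + r)) * (1 - (r + r)) := by noncomm_ring
  rw [e']
  exact p2

end CS

variable {D : Type u} [CStarAlgebra D] [PartialOrder D] [StarOrderedRing D]
variable {H : Type v} [NormedAddCommGroup H] [InnerProductSpace ℂ H] [CompleteSpace H]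

theorem est_kap {a r l y s : H →L[ℂ] H} (h : Inv_kap a r) (h' : Inv_kap (star a) l)
    (hy : Inv_kap y s) (ζ : H) {η : ℝ} (h1 : ‖(a - y) (s ζ)‖ ≤ η)
    (h2 : ‖(star a - star y) ((y * s) ζ)‖ ≤ η) :
    ‖((a * r + a * r) - (y * s + y * s)) ζ‖ ≤ 3 * η := by
  have e : (a * r + a * r) - (y * s + y * s) =
      l * ((a - y) * s) + l * ((a - y) * s) - (a * r + a * r) * ((star a - star y) * (y * s)) := by
    have := diff_kap h h' hy
    calc (a * r + a * r) - (y * s + y * s) = (a * r - y * s) + (a * r - y * s) := by abel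
      _ = _ := by rw [this]; noncomm_ring
  have n1 : ‖(l * ((a - y) * s)) ζ‖ ≤ η := by
    have := l.le_opNorm ((a - y) (s ζ))
    have b := mul_le_mul_of_nonneg_right (norm_inv_kap h') (norm_nonneg ((a - y) (s ζ)))
    change ‖l ((a - y) (s ζ))‖ ≤ η
    linarith
  have n2 : ‖((a * r + a * r) * ((star a - star y) * (y * s))) ζ‖ ≤ η := by
    have := (a * r + a * r).le_opNorm ((star a - star y) ((y * s) ζ))
    have b := mul_le_mul_of_nonneg_right (norm_two_kap h)
      (norm_nonneg ((star a - star y) ((y * s) ζ)))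
    change ‖(a * r + a * r) ((star a - star y) ((y * s) ζ))‖ ≤ η
    linarith
  rw [e, ContinuousLinearMap.sub_apply, ContinuousLinearMap.add_apply]
  have t1 := norm_sub_le ((l * ((a - y) * s)) ζ + (l * ((a - y) * s)) ζ)
    (((a * r + a * r) * ((star a - star y) * (y * s))) ζ)
  have t2 := norm_add_le ((l * ((a - y) * s)) ζ) ((l * ((a - y) * s)) ζ)
  linarith

theorem pre_kap {N : VonNeumannAlgebra H} {x : H →L[ℂ] H} (hx : x ∈ N) (hn : ‖x‖ ≤ 1) :
    ∃ y ∈ N, ∃ s, Inv_kap y s ∧ y * s + y * s = x := by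
  have hle : star x * x ≤ 1 := by
    refine (CStarAlgebra.norm_le_one_iff_of_nonneg _ (star_mul_self_nonneg x)).1 ?_
    rw [CStarRing.norm_star_mul_self]
    nlinarith [norm_nonneg x]
  set p : H →L[ℂ] H := 1 - star x * x with hp
  have p0 : 0 ≤ p := sub_nonneg.2 hle
  have psa : IsSelfAdjoint p := .of_nonneg p0
  have pN : p ∈ N := sub_mem (one_mem N) (mul_mem (star_mem hx) hx)
  have cg : Continuous fun t : ℝ => (1 + Real.sqrt t)⁻¹ :=
    Continuous.inv₀ (by fun_prop) fun t => by positivity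
  set s : H →L[ℂ] H := cfc Real.sqrt p with hs
  set G : H →L[ℂ] H := cfc (fun t : ℝ => (1 + Real.sqrt t)⁻¹) p with hG
  have ss : s * s = p := by
    rw [hs, ← cfc_mul _ _ p]
    calc _ = cfc (fun t : ℝ => t) p :=
          cfc_congr fun t ht => Real.mul_self_sqrt (spectrum_nonneg_of_nonneg p0 ht)
      _ = p := cfc_id' ℝ p
  have s1 : 1 + s = cfc (fun t : ℝ => 1 + Real.sqrt t) p := by
    rw [cfc_add p _ _, cfc_const_one ℝ p]
  have g1 : G * (1 + s) = 1 := by
    rw [s1, hG, ← cfc_mul _ _ p cg.continuousOn]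
    calc _ = cfc (fun _ : ℝ => (1 : ℝ)) p :=
          cfc_congr fun t _ => inv_mul_cancel₀ (by positivity)
      _ = 1 := cfc_const_one ℝ p
  have g2 : (1 + s) * G = 1 := by
    rw [s1, hG, ← cfc_mul _ _ p (by fun_prop) cg.continuousOn]
    calc _ = cfc (fun _ : ℝ => (1 : ℝ)) p :=
          cfc_congr fun t _ => mul_inv_cancel₀ (by positivity)
      _ = 1 := cfc_const_one ℝ p
  have Gsa : star G = G := (cfc_predicate _ p : IsSelfAdjoint G)
  have xx : star x * x = (1 + s) * (1 - s) := by
    have : (1 + s) * (1 - s) = 1 - s * s := by noncomm_ring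
    rw [this, ss, hp, sub_sub_cancel]
  have e : 1 + star (x * G) * (x * G) = G + G := by
    rw [star_mul, Gsa]
    calc 1 + G * star x * (x * G) = 1 + G * (star x * x) * G := by noncomm_ring
      _ = (1 + s) * G + (G * (1 + s)) * ((1 - s) * G) := by rw [xx, g2]; noncomm_ring
      _ = G + G := by rw [g1]; noncomm_ring
  have half : ∀ z : H →L[ℂ] H, (2⁻¹ : ℂ) • z + (2⁻¹ : ℂ) • z = z := fun z => by
    rw [← add_smul]; norm_num
  refine ⟨x * G, mul_mem hx (vn_cfc_mem N _ pN), (2⁻¹ : ℂ) • (1 + s), ⟨?_, ?_⟩, ?_⟩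
  · rw [e, smul_mul_assoc, mul_add, g2, smul_add, half]
  · rw [e, mul_smul_comm, add_mul, g1, smul_add, half]
  · rw [mul_smul_comm, mul_assoc, g1, mul_one, half]

theorem kap {π : D →⋆ₐ[ℂ] (H →L[ℂ] H)} {N : VonNeumannAlgebra H} (h : SDense π N) :
    KDense π N := by
  classical
  intro x hx hn
  obtain ⟨y, hy, s, hs, rfl⟩ := pre_kap hx hn
  obtain ⟨t, ht⟩ := exists_kap (star y)
  have key : ∀ i : Finset H × ℕ, ∃ b : D, ‖b‖ ≤ 1 ∧ ∀ ζ ∈ i.1,
      ‖(π b - (y * s + y * s)) ζ‖ ≤ 1 / ((i.2 : ℝ) + 1) ∧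
      ‖(star (π b) - star (y * s + y * s)) ζ‖ ≤ 1 / ((i.2 : ℝ) + 1) := by
    intro i
    obtain ⟨a, ha⟩ := h y hy (i.1.image s ∪ i.1.image (y * s) ∪ i.1.image t ∪
      i.1.image (star y * t)) (1 / ((i.2 : ℝ) + 1) / 3) (by positivity)
    obtain ⟨r, hr⟩ := exists_kap a
    obtain ⟨l, hl⟩ := exists_kap (star a)
    have map : ∀ {c d : D}, Inv_kap c d → Inv_kap (π c) (π d) := fun {c d} hc =>
      ⟨by rw [← map_star, ← map_mul, ← map_one π, ← map_add, ← map_mul, hc.1],
        by rw [← map_star, ← map_mul, ← map_one π, ← map_add, ← map_mul, hc.2]⟩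
    have r' := map hr
    have l' := map hl
    rw [map_star] at l'
    refine ⟨a * r + a * r, norm_two_kap hr, fun ζ hζ => ⟨?_, ?_⟩⟩
    · have := est_kap r' l' hs ζ (ha _ (by simp [Finset.mem_image_of_mem _ hζ])).1
        (ha _ (by simp only [Finset.mem_union, Finset.mem_image_of_mem _ hζ, true_or, or_true])).2
      rw [map_add, map_mul]
      linarith
    · have r'' : Inv_kap (star (star (π a))) (π r) := by rwa [star_star]
      have := est_kap l' r'' ht ζ
        (ha _ (by simp only [Finset.mem_union, Finset.mem_image_of_mem _ hζ, true_or, or_true])).2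
        (by
          rw [star_star, star_star]
          exact (ha _ (by
            simp only [Finset.mem_union, Finset.mem_image_of_mem _ hζ, or_true])).1)
      rw [map_add, map_mul, star_add, star_add, star_kap r' l', star_kap hs ht]
      linarith
  choose b hb using key
  refine ⟨b, fun i => (hb i).1, ss_of_approx _ _ 1 (fun i => ?_) fun i => (hb i).2⟩
  exact (NonUnitalStarAlgHom.norm_apply_le π (b i)).trans (hb i).1

end Ulam
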