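import Pool.Agent.P.MP_3be8c7_an.RPD
import Pool.Agent.P.MP_3be8c7_an.AV
import Pool.Agent.P.MP_3be8c7_an.TM
import Pool.Agent.P.MP_3be8c7_an.EXPD
import Pool.Agent.P.MP_3be8c7_an.APX

open scoped ComplexOrder InnerProductSpace
open Filter Topology

noncomputable section

namespace Ulam

universe u v w

section Aux

variable {D : Type u} [CStarAlgebra D]
  {H : Type v} [NormedAddCommGroup H] [InnerProductSpace ℂ H] [CompleteSpace H]
  {φ : D → (H →L[ℂ] H)} {ε : ℝ} {ξ : H}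

omit [CompleteSpace H] in
theorem app_kr1 (hξ : ‖ξ‖ ≤ 1) (T : H →L[ℂ] H) : ‖T ξ‖ ≤ ‖T‖ :=
  (T.le_opNorm ξ).trans (mul_le_of_le_one_right (norm_nonneg _) hξ)

omit [CompleteSpace H] in
theorem re_kr1 (hξ : ‖ξ‖ ≤ 1) (S T : H →L[ℂ] H) :
    (⟪ξ, S ξ⟫_ℂ).re ≤ (⟪ξ, T ξ⟫_ℂ).re + ‖S - T‖ := by
  have h1 : (⟪ξ, (S - T) ξ⟫_ℂ).re ≤ ‖S - T‖ :=
    (Complex.re_le_norm _).trans ((norm_inner_le_norm _ _).trans
      ((mul_le_of_le_one_left (norm_nonneg _) hξ).trans (app_kr1 hξ _)))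
  rw [sub_apply, inner_sub_right, Complex.sub_re] at h1
  linarith

theorem sq_kr1 (S : H →L[ℂ] H) : (⟪ξ, (star S * S) ξ⟫_ℂ).re = ‖S ξ‖ ^ 2 := by
  rw [ContinuousLinearMap.mul_apply, ContinuousLinearMap.star_eq_adjoint,
    ContinuousLinearMap.adjoint_inner_right, inner_self_eq_norm_sq_to_K]
  norm_cast

theorem vert_kr1 [PartialOrder D] [StarOrderedRing D] (h : EpsHom φ ε) (hξ : ‖ξ‖ ≤ 1)
    {ι : Type*} [Fintype ι] (z : ι → D) (w : D) (hw : star w * w = ∑ i, star (z i) * z i)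
    (h1 : ‖∑ i, star (z i) * z i‖ ≤ 1) :
    ∑ i, ‖φ (z i) ξ‖ ^ 2 ≤ ‖φ w ξ‖ ^ 2 + (3 * Fintype.card ι + 3) * ε := by
  have hz : ∀ i, ‖z i‖ ≤ 1 := fun i => by
    have := (sq_le_col_tm z i).trans h1
    nlinarith [norm_nonneg (z i)]
  have hw1 : ‖w‖ ≤ 1 := by
    rw [← hw, CStarRing.norm_star_mul_self] at h1
    nlinarith [norm_nonneg w]
  have a1 : ∀ i, ‖φ (z i) ξ‖ ^ 2 ≤ (⟪ξ, φ (star (z i) * z i) ξ⟫_ℂ).re + 2 * ε := fun i => by
    have := re_kr1 hξ (star (φ (z i)) * φ (z i)) (φ (star (z i) * z i))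
    rw [sq_kr1, norm_sub_rev] at this
    linarith [h.star_mul (z i) (z i) (hz i) (hz i)]
  have a2 : (⟪ξ, φ (star w * w) ξ⟫_ℂ).re ≤ ‖φ w ξ‖ ^ 2 + 2 * ε := by
    have := re_kr1 hξ (φ (star w * w)) (star (φ w) * φ w)
    rw [sq_kr1] at this
    linarith [h.star_mul w w hw1 hw1]
  have a3 := h.sum Finset.univ (fun i => star (z i) * z i) fun t ht =>
    (CStarAlgebra.norm_le_norm_of_nonneg_of_le
      (Finset.sum_nonneg fun i _ => star_mul_self_nonneg (z i))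
      (Finset.sum_le_sum_of_subset_of_nonneg ht fun i _ _ => star_mul_self_nonneg (z i))).trans h1
  have a4 := re_kr1 hξ (∑ i, φ (star (z i) * z i)) (φ (∑ i, star (z i) * z i))
  rw [norm_sub_rev, ContinuousLinearMap.sum_apply, inner_sum, Complex.re_sum, ← hw] at a4
  rw [← hw, Finset.card_univ] at a3
  have a5 := Finset.sum_le_sum fun i (_ : i ∈ Finset.univ) => a1 i
  rw [Finset.sum_add_distrib, Finset.sum_const, Finset.card_univ, nsmul_eq_mul] at a5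
  linarith

theorem edge_kr1 (h : EpsHom φ ε) (hε : ε ≤ 1) (hξ : ‖ξ‖ ≤ 1) {t : ℝ} (ht0 : 0 ≤ t) (ht : t ≤ 1)
    (x a b : D) (hx : ‖x‖ ≤ 1) (ha : ‖a‖ ≤ 1) (hb : ‖b‖ ≤ 1) (e : a + b = t • x) :
    t ^ 2 * ‖φ x ξ‖ ^ 2 ≤ 2 * (‖φ a ξ‖ ^ 2 + ‖φ b ξ‖ ^ 2) + 12 * ε := by
  have h0 := h.nonneg
  have h1 := (app_kr1 hξ _).trans (h.smul_real t (by rwa [abs_of_nonneg ht0]) x hx)
  have h2 := (app_kr1 hξ _).trans (h.add a b ha hb)
  have hA := (app_kr1 hξ _).trans (h.ball a ha)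
  have hB := (app_kr1 hξ _).trans (h.ball b hb)
  rw [e] at h2
  have h3 : t * ‖φ x ξ‖ ≤ ‖φ a ξ‖ + ‖φ b ξ‖ + 2 * ε := by
    have e1 : (t • φ x) ξ = φ a ξ + φ b ξ + (φ (t • x) - φ a - φ b) ξ -
        (φ (t • x) - t • φ x) ξ := by
      simp only [sub_apply]
      abel
    have e2 : ‖(t • φ x) ξ‖ = t * ‖φ x ξ‖ := by
      rw [smul_apply, norm_smul, Real.norm_of_nonneg ht0]
    rw [← e2, e1]
    refine (norm_sub_le _ _).trans ?_
    have := norm_add_le (φ a ξ + φ b ξ) ((φ (t • x) - φ a - φ b) ξ)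
    have := norm_add_le (φ a ξ) (φ b ξ)
    linarith
  have h4 := pow_le_pow_left₀ (mul_nonneg ht0 (norm_nonneg _)) h3 2
  rw [mul_pow] at h4
  nlinarith [sq_nonneg (‖φ a ξ‖ - ‖φ b ξ‖), mul_nonneg h0 (sub_nonneg.2 hA),
    mul_nonneg h0 (sub_nonneg.2 hB), mul_nonneg h0 (sub_nonneg.2 hε)]

end Aux

theorem kr1 : ∃ c C : ℝ, 0 ≤ c ∧ c < 1 ∧ 0 ≤ C ∧
    ∀ (D : Type u) [CStarAlgebra D] [PartialOrder D] [StarOrderedRing D], RP D →
    ∀ (H : Type v) [NormedAddCommGroup H] [InnerProductSpace ℂ H] [CompleteSpace H]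
      (φ : D → (H →L[ℂ] H)) (ε : ℝ), ε ≤ 1 → EpsHom φ ε → ∀ ξ : H, ‖ξ‖ ≤ 1 →
    ∀ η : ℝ, 0 < η → η ≤ 1 / 4 →
    ∀ (J : Type) [Fintype J] [Nonempty J] (x : J → D), (∀ j, ‖x j‖ ≤ 1) →
      ‖av fun j => star (x j) * x j‖ ≤ η →
    ∃ (J' : Type) (_ : Fintype J') (_ : Nonempty J') (w : J' → D), (∀ j, ‖w j‖ ≤ 1) ∧
      ‖av fun j => star (w j) * w j‖ ≤ 5 * η ∧
      av (fun j => ‖φ (x j) ξ‖ ^ 2) ≤ c * av (fun j => ‖φ (w j) ξ‖ ^ 2) + C * ε := by
  obtain ⟨C0, hC0, hexp⟩ := expd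
  have k1 := half_le_c1 hC0
  have k2 := c1_lt_one hC0
  refine ⟨(1 + c1 C0) / 2, 51, by linarith, by linarith, by norm_num, ?_⟩
  intro D _ _ _ hRP H _ _ _ φ ε hε h ξ hξ η hη hη4 J _ _ x hx hav
  have h0 := h.nonneg
  set C1 := 1 + c1 C0 with hC1
  have hC1p : 0 < C1 := by linarith
  have : NeZero (Fintype.card J) := ⟨Fintype.card_ne_zero⟩
  obtain ⟨σ, hσ⟩ := hexp (Fintype.card J)
  let e : ZMod (Fintype.card J) ≃ J := Fintype.equivOfCardEq (ZMod.card _)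
  let L := ZMod (Fintype.card J) × ZMod (Fintype.card J)
  let x' : L × Fin 4 → D := fun p => x (e p.1.1)
  have havx : ∀ {V : Type u} [AddCommMonoid V] [Module ℝ V] (f : J → V),
      av (fun p : L × Fin 4 => f (e p.1.1)) = av f := fun f => by
    rw [av_fst (fun l : L => f (e l.1)), av_fst (fun l => f (e l)), av_equiv e f]
  have havr : ∀ f : J → ℝ, av (fun p : L × Fin 4 => f (e p.1.1)) = av f := fun f => by
    rw [av_fst (fun l : L => f (e l.1)), av_fst (fun l => f (e l)), av_equiv e f]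
  obtain ⟨a, ha1, ha2⟩ := hRP L σ C0 hC0 hσ x' (fun p => hx _) η hη4
    (by rw [havx fun j => star (x j) * x j]; exact hav) (min η (1 - c1 C0))
    (lt_min hη (by linarith))
  set t := (√C1)⁻¹ with htd
  have ht0 : 0 ≤ t := by positivity
  have ht2 : t ^ 2 * C1 = 1 := by
    rw [htd, inv_pow, Real.sq_sqrt hC1p.le, inv_mul_cancel₀ hC1p.ne']
  have ht21 : t ^ 2 ≤ 1 := by nlinarith [sq_nonneg t]
  have ht1 : t ≤ 1 := by nlinarith
  let z : L → Fin 4 ⊕ Fin 4 → D := fun l =>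
    Sum.elim (fun s => t • a (l, s)) (fun s => t • (x' - a) ((σ s).symm l, s))
  have hz : ∀ l, ∑ i, star (z l i) * z l i = t ^ 2 • vsum σ a (x' - a) l := fun l => by
    simp only [z, vsum, Fintype.sum_sum_type, Sum.elim_inl, Sum.elim_inr, star_smul, star_trivial,
      smul_mul_smul_comm, smul_add, Finset.smul_sum, sq]
  have hz1 : ∀ l, ‖∑ i, star (z l i) * z l i‖ ≤ 1 := fun l => by
    rw [hz, norm_smul, Real.norm_of_nonneg (sq_nonneg t), ← ht2]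
    refine mul_le_mul_of_nonneg_left ((ha1 l).trans ?_) (sq_nonneg t)
    linarith [min_le_right η (1 - c1 C0)]
  have hzn : ∀ l i, ‖z l i‖ ≤ 1 := fun l i => by
    have := (sq_le_col_tm (z l) i).trans (hz1 l)
    nlinarith [norm_nonneg (z l i)]
  have hpos : ∀ l, 0 ≤ ∑ i, star (z l i) * z l i := fun l =>
    Finset.sum_nonneg fun i _ => star_mul_self_nonneg _
  let w : L → D := fun l => CFC.sqrt (∑ i, star (z l i) * z l i)
  have hw : ∀ l, star (w l) * w l = ∑ i, star (z l i) * z l i := fun l => by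
    rw [(CFC.sqrt_nonneg _).isSelfAdjoint.star_eq]
    exact CFC.sqrt_mul_sqrt_self _ (hpos l)
  refine ⟨L, inferInstance, inferInstance, w, fun l => ?_, ?_, ?_⟩
  · have := hz1 l
    rw [← hw, CStarRing.norm_star_mul_self] at this
    nlinarith [norm_nonneg (w l)]
  · simp only [hw, hz]
    rw [av_real_smul, norm_smul, Real.norm_of_nonneg (sq_nonneg t)]
    refine (mul_le_of_le_one_left (norm_nonneg _) ht21).trans (ha2.trans ?_)
    linarith [min_le_left η (1 - c1 C0)]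
  · rw [← havr fun j => ‖φ (x j) ξ‖ ^ 2]
    have e1 : ∀ p : L × Fin 4, ‖φ (x' p) ξ‖ ^ 2 ≤
        (2 * C1) • (‖φ (t • a p) ξ‖ ^ 2 + ‖φ (t • (x' - a) p) ξ‖ ^ 2) + 24 * ε := by
      rintro ⟨l, s⟩
      have hb := hzn (σ s l) (Sum.inr s)
      simp only [z, Sum.elim_inr, Equiv.symm_apply_apply] at hb
      have := edge_kr1 h hε hξ ht0 ht1 (x' (l, s)) (t • a (l, s)) (t • (x' - a) (l, s)) (hx _)
        (hzn l (Sum.inl s)) hb (by rw [← smul_add]; simp)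
      have h2 := mul_le_mul_of_nonneg_left this hC1p.le
      rw [← mul_assoc, mul_comm C1 (t ^ 2), ht2, one_mul] at h2
      rw [smul_eq_mul]
      nlinarith
    refine (av_le_av e1).trans ?_
    rw [av_add, av_const, av_real_smul, av_add,
      ← av_equiv (Equiv.prodCongrLeft fun s => (σ s).symm)
        (fun p : L × Fin 4 => ‖φ (t • (x' - a) p) ξ‖ ^ 2), ← av_add, av_prod]
    have e2 : ∀ l : L, (av fun s : Fin 4 => ‖φ (t • a (l, s)) ξ‖ ^ 2 +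
        ‖φ (t • (x' - a) ((Equiv.prodCongrLeft fun s => (σ s).symm) (l, s))) ξ‖ ^ 2) ≤
        (4 : ℝ)⁻¹ • (‖φ (w l) ξ‖ ^ 2) + 27 / 4 * ε := fun l => by
      have := vert_kr1 h hξ (z l) (w l) (hw l) (hz1 l)
      simp only [z, Fintype.sum_sum_type, Sum.elim_inl, Sum.elim_inr, Fintype.card_sum,
        Fintype.card_fin] at this
      simp only [av, Fintype.card_fin, Finset.sum_add_distrib, Equiv.prodCongrLeft_apply,
        smul_eq_mul]
      push_cast at this ⊢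
      linarith
    have e3 := av_le_av e2
    rw [av_add, av_const, av_real_smul] at e3
    have e4 := mul_le_mul_of_nonneg_left e3 (show 0 ≤ 2 * C1 by linarith)
    simp only [smul_eq_mul] at e4 ⊢
    nlinarith

end Ulam
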