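import Pool.Agent.P.MP_3be8c7_an.TRUNC

open scoped ComplexOrder InnerProductSpace
open Filter Topology

noncomputable section

namespace Ulam

universe u v w

variable {D : Type u} [CStarAlgebra D] [PartialOrder D] [StarOrderedRing D]
variable {H : Type v} [NormedAddCommGroup H] [InnerProductSpace ℂ H] [CompleteSpace H]

/-- `M` bounds the square sums of `d` over all admissible families. -/
def Bd_lg (d : D →ₗ[ℂ] H) (M : ℝ) : Prop :=
  ∀ (κ : Type) [Fintype κ] (y : κ → D), ‖∑ i, star (y i) * y i‖ ≤ 1 →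
    ‖∑ i, y i * star (y i)‖ ≤ 9 → ∑ i, ‖d (y i)‖ ^ 2 ≤ M

theorem sq_add_lg (p q : H) : ‖p + q‖ ^ 2 ≤ 2 * ‖p‖ ^ 2 + 2 * ‖q‖ ^ 2 := by
  nlinarith [norm_add_le p q, norm_nonneg (p + q), sq_nonneg (‖p‖ - ‖q‖)]

theorem step_lg {d : D →ₗ[ℂ] H} {c M : ℝ} (hc : 0 ≤ c) (hd : ∀ a, ‖d a‖ ≤ c * ‖a‖)
    (h : Bd_lg d M) : Bd_lg d ((13 * c) ^ 2 / 2 + M / 2) := by
  classical
  intro κ _ y hcol hrow
  obtain ⟨r⟩ := exists_rand κ
  obtain ⟨b, b1, -, b3, b4⟩ := exists_trunc r y (C := 9) (K := 13 / 2) (by norm_num) (by norm_num)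
    hcol hrow
  have n0 : (0 : ℝ) < Fintype.card r.Ω := by exact_mod_cast Fintype.card_pos
  obtain ⟨t, ht⟩ : ∃ t : ℝ, t * t = 4 * (Fintype.card r.Ω : ℝ)⁻¹ :=
    ⟨√_, Real.mul_self_sqrt (by positivity)⟩
  have h1 := h r.Ω (fun o => t • (r.sum y o - b o)) (by
    simp only [star_smul, star_trivial, smul_mul_smul_comm, ht, ← Finset.smul_sum, mul_smul]
    rw [norm_smul, Real.norm_ofNat]
    unfold av at b3
    linarith) (by
    simp only [star_smul, star_trivial, smul_mul_smul_comm, ht, ← Finset.smul_sum, mul_smul]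
    rw [norm_smul, Real.norm_ofNat]
    unfold av at b4
    linarith)
  simp only [LinearMap.map_smul_of_tower, norm_smul, mul_pow, Real.norm_eq_abs, sq_abs,
    ← Finset.mul_sum] at h1
  rw [sq, ht] at h1
  have h2 : ∀ o, ‖r.sum (fun i => d (y i)) o‖ ^ 2 ≤
      (13 * c) ^ 2 / 2 + 2 * ‖d (r.sum y o - b o)‖ ^ 2 := fun o => by
    have e : r.sum (fun i => d (y i)) o = d (b o) + d (r.sum y o - b o) := by
      simp [Rand.sum]
    have h3 := pow_le_pow_left₀ (norm_nonneg _)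
      ((hd (b o)).trans (mul_le_mul_of_nonneg_left (b1 o) hc)) 2
    rw [e]
    linarith [sq_add_lg (d (b o)) (d (r.sum y o - b o))]
  have h3 := Finset.sum_le_sum fun o (_ : o ∈ Finset.univ) => h2 o
  rw [Finset.sum_add_distrib, Finset.sum_const, Finset.card_univ, nsmul_eq_mul,
    ← Finset.mul_sum] at h3
  rw [← r.av_norm_sq, av, smul_eq_mul]
  refine (mul_le_mul_of_nonneg_left h3 (by positivity)).trans ?_
  rw [mul_add, inv_mul_cancel_left₀ n0.ne']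
  linarith

theorem lg (π : D →⋆ₐ[ℂ] (H →L[ℂ] H)) (T : H →L[ℂ] H) {ν : ℝ} (hν : 0 ≤ ν)
    (h : ∀ a, ‖T * π a - π a * T‖ ≤ ν * ‖a‖) {κ : Type} [Fintype κ] (y : κ → D)
    (hcol : ‖∑ i, star (y i) * y i‖ ≤ 1) (hrow : ‖∑ i, y i * star (y i)‖ ≤ 9) (ξ : H) :
    ∑ i, ‖(T * π (y i) - π (y i) * T) ξ‖ ^ 2 ≤ (13 * ν * ‖ξ‖) ^ 2 := by
  let d : D →ₗ[ℂ] H :=
    { toFun := fun a => (T * π a - π a * T) ξ
      map_add' := fun a b => by
        simp only [map_add, mul_add, add_mul, sub_apply, add_apply]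
        abel
      map_smul' := fun c a => by simp [smul_sub] }
  have hd : ∀ a, ‖d a‖ ≤ ν * ‖ξ‖ * ‖a‖ := fun a => by
    refine ((T * π a - π a * T).le_opNorm ξ).trans ?_
    rw [mul_right_comm]
    exact mul_le_mul_of_nonneg_right (h a) (norm_nonneg _)
  have h0 : Bd_lg d (2 * (‖T‖ ^ 2 * ‖ξ‖ ^ 2) + 2 * ‖T ξ‖ ^ 2) := by
    intro κ _ y hcol _
    have c1 := sum_norm_sq_le_of_col (fun i => π (y i)) ((norm_col_map_le π y).trans hcol)
    have c2 : ∀ i, ‖d (y i)‖ ^ 2 ≤ 2 * (‖T‖ ^ 2 * ‖π (y i) ξ‖ ^ 2) + 2 * ‖π (y i) (T ξ)‖ ^ 2 :=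
      fun i => by
        have e : d (y i) = T (π (y i) ξ) + -π (y i) (T ξ) := by simp [d, sub_eq_add_neg]
        have h3 := pow_le_pow_left₀ (norm_nonneg _) (T.le_opNorm (π (y i) ξ)) 2
        have h4 := sq_add_lg (T (π (y i) ξ)) (-π (y i) (T ξ))
        rw [norm_neg] at h4
        rw [e]
        linarith
    refine (Finset.sum_le_sum fun i _ => c2 i).trans ?_
    simp only [Finset.sum_add_distrib, ← Finset.mul_sum]
    gcongr
    exacts [c1 ξ, c1 (T ξ)]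
  have h1 : Bd_lg d (sInf {M | Bd_lg d M}) := fun κ _ y h1 h2 =>
    le_csInf ⟨_, h0⟩ fun M hM => hM κ y h1 h2
  have h2 := csInf_le (s := {M | Bd_lg d M})
    ⟨0, fun M hM => by simpa using hM Empty Empty.elim (by simp) (by simp)⟩
    (step_lg (by positivity) hd h1)
  refine (h1 κ y hcol hrow).trans ?_
  rw [mul_assoc]
  linarith

end Ulam
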