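import Pool.Agent.P.MP_3be8c7_an.LIN0
import Pool.Agent.P.MP_3be8c7_an.ULIM

open scoped ComplexOrder InnerProductSpace
open Filter Topology

noncomputable section

namespace Ulam

universe u v w

theorem lin {γ : ℝ} (hγ : 0 < γ) : ∃ ε : ℝ, 0 < ε ∧
    ∀ (D : Type u) [CStarAlgebra D] [PartialOrder D] [StarOrderedRing D], Nuc D → STR D →
    ∀ (H : Type v) [NormedAddCommGroup H] [InnerProductSpace ℂ H] [CompleteSpace H]
      (M : VonNeumannAlgebra H) (φ : D → (H →L[ℂ] H)), EpsHom φ ε → (∀ a, φ a ∈ M) →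
    ∃ L : D →ₗ[ℂ] (H →L[ℂ] H), KPos L ∧ (∀ a, L a ∈ M) ∧ ∀ a, ‖a‖ ≤ 1 → ‖L a - φ a‖ ≤ γ := by
  classical
  obtain ⟨ε, hε, h0⟩ := lin0.{u, v} (γ := γ / 4) (by positivity)
  refine ⟨min ε (γ / 40), by positivity, fun D _ _ _ hN hS H _ _ _ M φ hφ hM => ?_⟩
  have hu : ∀ x ∈ unitary D, ‖x‖ ≤ 1 := fun x hx => by
    rcases subsingleton_or_nontrivial D with h | h
    · simp [Subsingleton.elim x 0]
    · exact (CStarRing.norm_of_mem_unitary hx).le
  choose L L1 L2 L3 using fun F : Finset D => h0 D hN hS H M φ (hφ.mono (min_le_left _ _)) hM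
    (F.filter (· ∈ unitary D)) fun x hx => (Finset.mem_filter.1 hx).2
  let l : Ultrafilter (Finset D) := Ultrafilter.of atTop
  have h1 : ∀ x ∈ unitary D, ∀ᶠ F in l, ‖L F x - φ x‖ ≤ γ / 4 := fun x hx =>
    ((eventually_ge_atTop ({x} : Finset D)).filter_mono (Ultrafilter.of_le _)).mono fun F hF =>
      L3 F x (Finset.mem_filter.2 ⟨Finset.singleton_subset_iff.1 hF, hx⟩)
  have h2 : ∀ a, ∀ᶠ F in l, ‖L F a‖ ≤ (γ / 4 + 1) * ‖a‖ := fun a =>
    (h1 1 (one_mem _)).mono fun F hF => ((L1 F).norm_le a).trans (by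
      have := norm_le_insert' (L F 1) (φ 1)
      have := hφ.ball 1 (hu 1 (one_mem _))
      gcongr
      linarith)
  choose S _ hS using fun a => ulim l (fun F => L F a) (h2 a)
  let T : D →ₗ[ℂ] (H →L[ℂ] H) :=
    { toFun := S
      map_add' := fun a b => (hS (a + b)).unique (by simpa only [map_add] using (hS a).add (hS b))
      map_smul' := fun c a => (hS (c • a)).unique
        (by simpa only [map_smul, RingHom.id_apply] using (hS a).smul c) }
  refine ⟨T, KPos.of_wl l (L := fun F => L F) (Eventually.of_forall L1) hS,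
    fun a => (hS a).mem M (Eventually.of_forall fun F => L2 F a), fun a ha => ?_⟩
  obtain ⟨x, c, rfl, hc⟩ := CStarAlgebra.exists_sum_four_unitary a
  have h3 : ∑ i, ‖c i‖ ≤ 2 := (Finset.sum_le_sum fun i _ => hc i).trans (by
    simp only [Finset.sum_const, Finset.card_univ, Fintype.card_fin, nsmul_eq_mul, Nat.cast_ofNat]
    linarith)
  have h4 := (hφ.mono (min_le_right _ _)).comb2 c (fun i => (x i : D)) h3
    (fun i => hu _ (x i).2) ha
  have h5 : ‖T (∑ i, c i • (x i : D)) - ∑ i, c i • φ (x i)‖ ≤ (∑ i, ‖c i‖) * (γ / 4) := by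
    rw [map_sum, ← Finset.sum_sub_distrib, Finset.sum_mul]
    refine norm_sum_le_of_le _ fun i _ => ?_
    rw [map_smul, ← smul_sub, norm_smul]
    exact mul_le_mul_of_nonneg_left ((hS _).norm_sub_le _ (h1 _ (x i).2)) (norm_nonneg _)
  have h6 := norm_sub_le_norm_sub_add_norm_sub (T (∑ i, c i • (x i : D))) (∑ i, c i • φ (x i))
    (φ (∑ i, c i • (x i : D)))
  rw [norm_sub_rev, Fintype.card_fin, Nat.cast_ofNat] at h4
  nlinarith

end Ulam
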