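import Pool.Agent.P.MP_3be8c7_an.OZL1
import Pool.Agent.P.MP_3be8c7_an.HAAR1

open scoped ComplexOrder InnerProductSpace
open Filter Topology

noncomputable section

namespace Ulam

universe u v w

theorem comb_ozlin {E : Type*} [NormedAddCommGroup E] [NormedSpace ℂ E] (c : Fin 4 → ℂ)
    (x y : Fin 4 → E) {t : ℝ} (ht : 0 ≤ t) (hc : ∑ i, ‖c i‖ ≤ 2) (h : ∀ i, ‖x i - y i‖ ≤ t) :
    ‖∑ i, c i • x i - ∑ i, c i • y i‖ ≤ 2 * t := by
  rw [← Finset.sum_sub_distrib]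
  refine (norm_sum_le _ _).trans (le_trans (Finset.sum_le_sum fun i _ => ?_)
    ((Finset.sum_mul _ (fun i => ‖c i‖) t).symm.trans_le (mul_le_mul_of_nonneg_right hc ht)))
  rw [← smul_sub, norm_smul]
  exact mul_le_mul_of_nonneg_left (h i) (norm_nonneg _)

theorem tri_ozlin {E : Type*} [NormedAddCommGroup E] {a b c : E} {s t : ℝ} (h1 : ‖a - c‖ ≤ s)
    (h2 : ‖b - c‖ ≤ t) : ‖a - b‖ ≤ s + t := by
  rw [← sub_sub_sub_cancel_right a b c]
  exact (norm_sub_le _ _).trans (add_le_add h1 h2)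

theorem ozlin {γ : ℝ} (hγ : 0 < γ) : ∃ ε : ℝ, 0 < ε ∧
    ∀ (D : Type u) [CStarAlgebra D] [PartialOrder D] [StarOrderedRing D]
      (H : Type v) [NormedAddCommGroup H] [InnerProductSpace ℂ H] [CompleteSpace H]
      (M : VonNeumannAlgebra H) (φ : D → (H →L[ℂ] H)), EpsHom φ ε → (∀ a, φ a ∈ M) →
    ∀ (I Λ : Type) [Fintype I] [DecidableEq I] (τ : I → Λ) (v : I → D), IsOZ τ v →
    ∃ r : I → I → (H →L[ℂ] H), (∀ j k, r j k ∈ M) ∧ KerPos r ∧
      ∀ x, Blk τ x → Contr x → ‖φ (hpsi v x) - ∑ j, ∑ k, x j k • r j k‖ ≤ γ := by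
  obtain ⟨δ, hδ, hoz⟩ := ozl1.{v} (γ := γ / 4) (by positivity)
  have e1 : 50 * min (δ / 50) (γ / 100) ≤ δ := by linarith [min_le_left (δ / 50) (γ / 100)]
  have e2 : 100 * min (δ / 50) (γ / 100) ≤ γ := by linarith [min_le_right (δ / 50) (γ / 100)]
  have e0 : 0 < min (δ / 50) (γ / 100) := by positivity
  generalize min (δ / 50) (γ / 100) = ε at e0 e1 e2
  refine ⟨ε, e0, fun D _ _ _ H _ _ _ M φ hφ hM I Λ _ _ τ v hv => ?_⟩
  obtain ⟨P, p1, p2, p3, p4, p5⟩ := haar1 M e0 hφ hM hv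
  have n1 : ∀ w : BU τ, ‖hpsi v w.mat‖ ≤ 1 := fun w => hv.norm_hpsi_le w.contr
  have key : ∀ w w' : BU τ, ‖P w * P w' - φ (hpsi v w.mat * hpsi v w'.mat)‖ ≤ 25 * ε := by
    intro w w'
    have a1 := hφ.mul _ _ (n1 w) (n1 w')
    have a2 : ‖P w * P w' - φ (hpsi v w.mat) * φ (hpsi v w'.mat)‖ ≤ 24 * ε := by
      rw [show P w * P w' - φ (hpsi v w.mat) * φ (hpsi v w'.mat) =
        (P w - φ (hpsi v w.mat)) * P w' + φ (hpsi v w.mat) * (P w' - φ (hpsi v w'.mat)) by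
          noncomm_ring]
      have b1 := (norm_mul_le _ _).trans (mul_le_mul (p5 w) (p4 w') (norm_nonneg _) (by positivity))
      have b2 := (norm_mul_le _ _).trans
        (mul_le_mul (hφ.ball _ (n1 w)) (p5 w') (norm_nonneg _) zero_le_one)
      exact (norm_add_le _ _).trans (by linarith)
    exact (tri_ozlin a2 a1).trans (by linarith)
  have m1 : (1 : BU τ).mat = 1 := rfl
  have m2 : ∀ w w' : BU τ, (w * w').mat = w.mat * w'.mat := fun _ _ => rfl
  have cmb : ∀ (c : Fin 4 → ℂ) (w : Fin 4 → BU τ), ∑ i, ‖c i‖ ≤ 2 →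
      ‖hpsi v (∑ i, c i • (w i).mat)‖ ≤ 1 →
      ‖φ (hpsi v (∑ i, c i • (w i).mat)) - ∑ i, c i • P (w i)‖ ≤ 44 * ε := by
    intro c w hc hs
    rw [hpsi_comb] at hs ⊢
    have a1 := hφ.comb2 c (fun i => hpsi v (w i).mat) hc (fun i => n1 _) hs
    rw [Fintype.card_fin] at a1
    refine (tri_ozlin a1 (comb_ozlin c _ _ (by positivity) hc fun i => p5 (w i))).trans ?_
    push_cast
    linarith
  have h0 : hpsi v (0 : Matrix I I ℂ) = 0 := by simp [hpsi, psi]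
  obtain ⟨r, r1, r2, r3⟩ := hoz I Λ τ H M P p1 p2 p3 p4
    (fun w w' => by
      have a1 := key w w'
      have a2 := key 1 (w * w')
      rw [m1, m2, ← hv.hpsi_mul w.blk] at a2
      exact (tri_ozlin a1 a2).trans (by linarith))
    (fun w => by
      have a1 := key 1 w
      have a2 := key w 1
      rw [m1] at a1 a2
      rw [← (hv.commute_hpsi w.blk).eq] at a2
      exact (tri_ozlin a1 a2).trans (by linarith))
    (fun c w hc hs => by
      have a0 := (BU.sum_eq_zero_iff c w).1 hs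
      have a1 := cmb c w hc (by rw [a0, h0, norm_zero]; exact zero_le_one)
      rw [a0, h0, norm_sub_rev] at a1
      have a2 := norm_le_norm_sub_add (∑ i, c i • P (w i)) (φ 0)
      linarith [hφ.norm_zero_le])
  refine ⟨r, r1, r2, fun x hx hc => ?_⟩
  obtain ⟨w, c, rfl, hw⟩ := exists_four hx hc
  have hs : ∑ i, ‖c i‖ ≤ 2 := (Finset.sum_le_sum fun i _ => hw i).trans (by simp; norm_num)
  have a1 := cmb c w hs (hv.norm_hpsi_le hc)
  have a2 := comb_ozlin c _ _ (by positivity) hs fun i => r3 (w i)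
  have a3 : ∑ j, ∑ k, (∑ i, c i • (w i).mat) j k • r j k =
      ∑ i, c i • ∑ j, ∑ k, (w i).mat j k • r j k := by
    simp only [Matrix.sum_apply, Matrix.smul_apply, Finset.sum_smul, Finset.smul_sum, smul_assoc]
    exact (Finset.sum_congr rfl fun _ _ => Finset.sum_comm).trans Finset.sum_comm
  rw [norm_sub_rev] at a2
  rw [a3]
  exact (tri_ozlin a1 a2).trans (by linarith)

end Ulam
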