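import Pool.Agent.P.MP_3be8c7_an.REPM
import Pool.Agent.P.MP_3be8c7_an.KP
import Pool.Agent.P.MP_3be8c7_an.RPD

open scoped ComplexOrder InnerProductSpace
open Filter Topology

noncomputable section

namespace Ulam

universe u v w

variable {D : Type u} [CStarAlgebra D] [PartialOrder D] [StarOrderedRing D]

theorem psd_av_repd {ι I : Type*} [Fintype ι] [Fintype I] (y : ι → Matrix I I ℂ)
    (h : ∀ i, (y i).PosSemidef) : (av y).PosSemidef :=
  (Matrix.posSemidef_sum _ fun i _ => h i).smul (by positivity)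

theorem norm_le_repd {y : D} {t : ℝ} (ht : 0 ≤ t) (h0 : 0 ≤ y) (h : y ≤ t • (1 : D)) : ‖y‖ ≤ t := by
  rw [CStarAlgebra.norm_le_iff_le_algebraMap y ht h0, Algebra.algebraMap_eq_smul_one]
  exact h

theorem vsum_nonneg_repd {L : Type} (σ : Fin 4 → Equiv.Perm L) (a b : L × Fin 4 → D) (l : L) :
    0 ≤ vsum σ a b l :=
  add_nonneg (Finset.sum_nonneg fun _ _ => star_mul_self_nonneg _)
    (Finset.sum_nonneg fun _ _ => star_mul_self_nonneg _)

theorem vsum_tmap_repd {L I : Type} [Fintype I] (σ : Fin 4 → Equiv.Perm L) (b : I → D)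
    (hb : ‖∑ k, star (b k) * b k‖ ≤ 1) (α β : L × Fin 4 → Matrix I I ℂ) (l : L) :
    vsum σ (fun e => tmap b (α e)) (fun e => tmap b (β e)) l ≤ tmap b (vsum σ α β l) := by
  rw [vsum, vsum, tmap_add, tmap_sum, tmap_sum]
  exact add_le_add (Finset.sum_le_sum fun _ _ => tmap_ks b hb _)
    (Finset.sum_le_sum fun _ _ => tmap_ks b hb _)

theorem term_le_repd {L : Type} (σ : Fin 4 → Equiv.Perm L) (a b : L × Fin 4 → D)
    (e : L × Fin 4) : ‖b e‖ * ‖b e‖ ≤ ‖vsum σ a b (σ e.2 e.1)‖ := by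
  rw [← CStarRing.norm_star_mul_self]
  refine CStarAlgebra.norm_le_norm_of_nonneg_of_le (star_mul_self_nonneg _) ?_
  have h := Finset.single_le_sum (f := fun s => star (b ((σ s).symm (σ e.2 e.1), s)) *
    b ((σ s).symm (σ e.2 e.1), s)) (fun _ _ => star_mul_self_nonneg _) (Finset.mem_univ e.2)
  simp only [Equiv.symm_apply_apply] at h
  exact le_add_of_nonneg_of_le (Finset.sum_nonneg fun _ _ => star_mul_self_nonneg _) h

omit [PartialOrder D] [StarOrderedRing D] in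
theorem sq_diff_repd {y z : D} {t : ℝ} (ht : t ≤ 1) (hz : ‖z‖ ≤ 2) (h : ‖y - z‖ ≤ t) :
    ‖star y * y - star z * z‖ ≤ 5 * t := by
  have e : star y * y - star z * z =
      star (y - z) * (y - z) + star (y - z) * z + star z * (y - z) := by
    simp only [star_sub, sub_mul, mul_sub]
    abel
  have h0 := norm_nonneg (y - z)
  have h1 := norm_mul_le (star (y - z)) (y - z)
  have h2 := norm_mul_le (star (y - z)) z
  have h3 := norm_mul_le (star z) (y - z)
  rw [norm_star] at h1 h2 h3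
  rw [e]
  refine (norm_add₃_le).trans ?_
  nlinarith [norm_nonneg z]

omit [PartialOrder D] [StarOrderedRing D] in
theorem vsum_diff_repd {L : Type} (σ : Fin 4 → Equiv.Perm L) (a y z : L × Fin 4 → D) {t : ℝ}
    (ht : t ≤ 1) (hz : ∀ e, ‖z e‖ ≤ 2) (h : ∀ e, ‖y e - z e‖ ≤ t) (l : L) :
    ‖vsum σ a y l - vsum σ a z l‖ ≤ 20 * t := by
  rw [vsum, vsum, add_sub_add_left_eq_sub, ← Finset.sum_sub_distrib]
  refine (norm_sum_le _ _).trans ((Finset.sum_le_sum fun s _ =>
    sq_diff_repd ht (hz _) (h _)).trans ?_)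
  simp only [Finset.sum_const, Finset.card_univ, Fintype.card_fin, nsmul_eq_mul]
  push_cast
  linarith

theorem repd (hD : Nuc D) {L : Type} [Fintype L] [Nonempty L] {σ : Fin 4 → Equiv.Perm L} {C : ℝ} (hC : 0 < C)
    (hσ : Poinc σ C) (x : L × Fin 4 → D) (hx : ∀ e, ‖x e‖ ≤ 1) {η : ℝ}
    (h4 : η ≤ 1 / 4) (hη : ‖av fun e => star (x e) * x e‖ ≤ η) {γ : ℝ} (hγ : 0 < γ) :
    ∃ a : L × Fin 4 → D, (∀ l, ‖vsum σ a (x - a) l‖ ≤ 2 * c0 C + γ) ∧
      ‖av (vsum σ a (x - a))‖ ≤ 4 * η + γ := by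
  classical
  obtain ⟨g, hg0, hg1, hgγ⟩ : ∃ g : ℝ, 0 < g ∧ g ≤ 1 ∧ g ≤ γ :=
    ⟨min γ 1, lt_min hγ one_pos, min_le_right _ _, min_le_left _ _⟩
  have h0 : 0 ≤ η := (norm_nonneg _).trans hη
  obtain ⟨I, _, _, θ, b, hθ, hb, hF⟩ := hD (Finset.univ.image x) (g / 40) (by positivity)
  have hP : (η • (1 : Matrix I I ℂ) - av fun e => star (θ (x e)) * θ (x e)).PosSemidef := by
    have h1 := hθ.le_smul (IsSelfAdjoint.of_nonneg (av_nonneg' fun e =>
      star_mul_self_nonneg (x e))) hη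
    have h2 := psd_av_repd _ fun e => hθ.ks (x e)
    rw [av_sub, ← map_av' θ] at h2
    simpa using h1.add h2
  obtain ⟨α, h1, h2⟩ := repm hC hσ (fun e => θ (x e)) (fun e => hθ.contr (hx e)) h0 h4 hP
    (half_pos hg0)
  have hc0 := half_le_c0 hC
  have hc1 := c0_lt_one hC
  set β : L × Fin 4 → Matrix I I ℂ := (fun e => θ (x e)) - α with hβ
  set a : L × Fin 4 → D := fun e => tmap b (α e) with ha
  set z : L × Fin 4 → D := fun e => tmap b (β e) with hz
  have h3 : ∀ l, ‖vsum σ a z l‖ ≤ 2 * c0 C + g / 2 := fun l =>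
    norm_le_repd (by linarith) (vsum_nonneg_repd σ a z l)
      ((vsum_tmap_repd σ b hb α β l).trans (tmap_le b hb (by linarith) (h1 l)))
  have h5 : ‖av (vsum σ a z)‖ ≤ 4 * η + g / 2 := by
    refine norm_le_repd (by linarith) (av_nonneg' (vsum_nonneg_repd σ a z))
      ((av_mono (vsum_tmap_repd σ b hb α β)).trans ?_)
    rw [← tmap_av]
    exact tmap_le b hb (by linarith) h2
  have h6 : ∀ e, ‖z e‖ ≤ 2 := fun e => by
    have := (term_le_repd σ a z e).trans (h3 _)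
    nlinarith [norm_nonneg (z e)]
  have h7 : ∀ e, ‖(x - a) e - z e‖ ≤ g / 40 := fun e => by
    have h8 := hF (x e) (Finset.mem_image_of_mem x (Finset.mem_univ e))
    have e1 : (x - a) e - z e = x e - tmap b (θ (x e)) := by
      simp only [ha, hz, hβ, Pi.sub_apply, tmap_sub]
      abel
    rwa [e1]
  have h9 := vsum_diff_repd σ a (x - a) z (by linarith) h6 h7
  refine ⟨a, fun l => ?_, ?_⟩
  · have := norm_le_norm_add_norm_sub' (vsum σ a (x - a) l) (vsum σ a z l)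
    linarith [h3 l, h9 l]
  · have e1 := norm_le_norm_add_norm_sub' (av (vsum σ a (x - a))) (av (vsum σ a z))
    have e2 := norm_av_le_of_le _ (by positivity) h9
    rw [av_sub] at e2
    linarith

theorem c0_le_c1 {C : ℝ} (hC : 0 < C) : c0 C ≤ c1 C := by
  rw [c0, c1, div_le_div_iff₀ (by positivity) (by positivity)]; nlinarith

theorem rp_of_nuc (hD : Nuc D) : RP D := fun L _ _ σ C hC hσ x hx η h4 hη γ hγ => by
  obtain ⟨a, h1, h2⟩ := repd hD hC hσ x hx h4 hη hγ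
  exact ⟨a, fun l => (h1 l).trans (by linarith [c0_le_c1 hC]), h2⟩

end Ulam
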