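import Pool.Agent.P.MP_3be8c7_an.KR1

open scoped ComplexOrder InnerProductSpace
open Filter Topology

noncomputable section

namespace Ulam

universe u v w

theorem kr {γ : ℝ} (hγ : 0 < γ) : ∃ ε η : ℝ, 0 < ε ∧ 0 < η ∧
    ∀ (D : Type u) [CStarAlgebra D] [PartialOrder D] [StarOrderedRing D], RP D →
    ∀ (H : Type v) [NormedAddCommGroup H] [InnerProductSpace ℂ H] [CompleteSpace H]
      (φ : D → (H →L[ℂ] H)), EpsHom φ ε → ∀ ξ : H, ‖ξ‖ ≤ 1 →
    ∀ (J : Type) [Fintype J] [Nonempty J] (x : J → D), (∀ j, ‖x j‖ ≤ 1) →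
      ‖av fun j => star (x j) * x j‖ ≤ η → av (fun j => ‖φ (x j) ξ‖ ^ 2) ≤ γ := by
  obtain ⟨c, C, hc0, hc1, hC, hkr⟩ := kr1.{u, v}
  obtain ⟨k, hk⟩ := exists_pow_lt_of_lt_one (half_pos hγ) hc1
  have h1c : 0 < 1 - c := sub_pos.2 hc1
  refine ⟨min 1 (γ / 2 * (1 - c) / (C + 1)), (1 / 5) ^ k / 4, by positivity, by positivity, ?_⟩
  intro D _ _ _ hD H _ _ _ φ hφ ξ hξ
  set ε := min 1 (γ / 2 * (1 - c) / (C + 1)) with hε
  have hε0 : 0 ≤ ε := hφ.nonneg
  have key : ∀ (k : ℕ) (J : Type) [Fintype J] [Nonempty J] (x : J → D), (∀ j, ‖x j‖ ≤ 1) →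
      ‖av fun j => star (x j) * x j‖ ≤ (1 / 5) ^ k / 4 →
      av (fun j => ‖φ (x j) ξ‖ ^ 2) ≤ c ^ k + C * ε / (1 - c) := by
    intro k
    induction k with
    | zero =>
      intro J _ _ x hx _
      have h1 : av (fun j => ‖φ (x j) ξ‖ ^ 2) ≤ av fun _ : J => (1 : ℝ) := by
        refine av_le_av fun j => pow_le_one₀ (norm_nonneg _) (((φ (x j)).le_opNorm ξ).trans ?_)
        exact mul_le_one₀ (hφ.ball _ (hx j)) (norm_nonneg _) hξ
      rw [av_const] at h1
      rw [pow_zero]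
      exact h1.trans (le_add_of_nonneg_right (by positivity))
    | succ k ih =>
      intro J _ _ x hx hv
      have h5 : (1 / 5 : ℝ) ^ (k + 1) ≤ 1 := pow_le_one₀ (by norm_num) (by norm_num)
      obtain ⟨J', _, _, w, hw, hw', hle⟩ := hkr D hD H φ ε (min_le_left _ _) hφ ξ hξ
        ((1 / 5) ^ (k + 1) / 4) (by positivity) (by linarith) J x hx hv
      have h2 := ih J' w hw (hw'.trans (le_of_eq (by ring)))
      refine hle.trans ((add_le_add (mul_le_mul_of_nonneg_left h2 hc0) le_rfl).trans (le_of_eq ?_))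
      field_simp
      ring
  intro J _ _ x hx hv
  have h3 : C * ε / (1 - c) ≤ γ / 2 := by
    have h4 : ε ≤ γ / 2 * (1 - c) / (C + 1) := min_le_right _ _
    rw [le_div_iff₀ (by positivity)] at h4
    rw [div_le_iff₀ h1c]
    nlinarith
  linarith [key k J x hx hv]

theorem var_zlin {D : Type u} [CStarAlgebra D] {J : Type} [Fintype J] [Nonempty J] (d : J → D)
    (hd : av d = 0) :
    (av fun p : J × J => star ((2 : ℝ)⁻¹ • (d p.1 + d p.2)) * ((2 : ℝ)⁻¹ • (d p.1 + d p.2))) =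
      (2 : ℝ)⁻¹ • av fun j => star (d j) * d j := by
  have h1 : (av fun p : J × J => star (d p.1) * d p.2) = 0 := by
    rw [av_prod]
    simp only [← mul_av]
    simp only [show (av fun k => d k) = 0 from hd, mul_zero, av_const]
  have h2 : (av fun p : J × J => star (d p.2) * d p.1) = 0 := by
    rw [av_prod]
    simp only [← av_mul, ← star_av]
    simp only [show (av fun k => d k) = 0 from hd, star_zero, zero_mul, av_const]
  have h3 : ∀ p : J × J, star ((2 : ℝ)⁻¹ • (d p.1 + d p.2)) * ((2 : ℝ)⁻¹ • (d p.1 + d p.2)) =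
      ((2 : ℝ)⁻¹ * 2⁻¹) • (star (d p.1) * d p.1 + star (d p.1) * d p.2 +
        (star (d p.2) * d p.1 + star (d p.2) * d p.2)) := fun p => by
    rw [star_smul, star_trivial, smul_mul_smul_comm, star_add, add_mul, mul_add, mul_add]
  simp only [h3]
  rw [av_real_smul, av_add, av_add, av_add, h1, h2, av_fst fun j => star (d j) * d j,
    av_snd fun j => star (d j) * d j, add_zero, zero_add, ← two_smul ℝ, smul_smul]
  norm_num

theorem mid_norm_zlin {D : Type u} [CStarAlgebra D] {a b : D} (ha : ‖a‖ ≤ 1) (hb : ‖b‖ ≤ 1) :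
    ‖(2 : ℝ)⁻¹ • (a + b)‖ ≤ 1 := by
  rw [norm_smul, norm_inv, Real.norm_two]
  linarith [norm_add_le a b]

theorem dbl_zlin {D : Type u} {B : Type v} [CStarAlgebra D] [CStarAlgebra B] {φ : D → B} {ε : ℝ}
    (hφ : EpsHom φ ε) {J : Type} [Fintype J] [Nonempty J] (x : J → D) (hx : ∀ j, ‖x j‖ ≤ 1)
    (k : ℕ) : ∃ (J' : Type) (_ : Fintype J') (_ : Nonempty J') (y : J' → D), (∀ j, ‖y j‖ ≤ 1) ∧
      av y = av x ∧ ‖(av fun j => φ (y j)) - av fun j => φ (x j)‖ ≤ 3 * k * ε ∧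
      ‖av fun j => star (y j - av x) * (y j - av x)‖ ≤ 4 * (1 / 2) ^ k := by
  induction k with
  | zero =>
    refine ⟨J, inferInstance, inferInstance, x, hx, rfl, by simp, ?_⟩
    refine norm_av_le_of_le _ (by norm_num) fun j => ?_
    have h1 : ‖x j - av x‖ ≤ 2 := by
      linarith [norm_sub_le (x j) (av x), hx j, norm_av_le_of_le x zero_le_one hx]
    rw [CStarRing.norm_star_mul_self]
    nlinarith [norm_nonneg (x j - av x)]
  | succ k ih =>
    obtain ⟨J', _, _, y, hy, hm, h1, h2⟩ := ih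
    have hav : ∀ {V : Type v} [AddCommGroup V] [Module ℝ V] (z : J' → V),
        (av fun p : J' × J' => (2 : ℝ)⁻¹ • (z p.1 + z p.2)) = av z := fun z => by
      rw [av_real_smul, av_add, av_fst, av_snd, ← two_smul ℝ, smul_smul]
      norm_num
    refine ⟨J' × J', inferInstance, inferInstance, fun p => (2 : ℝ)⁻¹ • (y p.1 + y p.2),
      fun p => mid_norm_zlin (hy _) (hy _), ?_, ?_, ?_⟩
    · rw [av_real_smul, av_add, av_fst, av_snd, ← two_smul ℝ, smul_smul, hm]
      norm_num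
    · have h3 : ‖(av fun p : J' × J' => φ ((2 : ℝ)⁻¹ • (y p.1 + y p.2))) -
          av fun j => φ (y j)‖ ≤ 3 * ε := by
        rw [← hav fun j => φ (y j), ← av_sub]
        exact norm_av_le_of_le _ (by linarith [hφ.nonneg]) fun p => hφ.mid _ _ (hy _) (hy _)
      refine (norm_sub_le_norm_sub_add_norm_sub _ (av fun j => φ (y j)) _).trans ?_
      push_cast
      linarith
    · have h4 : ∀ p : J' × J', (2 : ℝ)⁻¹ • (y p.1 + y p.2) - av x =
          (2 : ℝ)⁻¹ • ((y p.1 - av x) + (y p.2 - av x)) := fun p => by module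
      simp only [h4]
      rw [var_zlin (fun j => y j - av x) (by rw [av_sub, av_const, hm, sub_self]), norm_smul,
        norm_inv, Real.norm_two, pow_succ]
      linarith

theorem zlin {γ : ℝ} (hγ : 0 < γ) : ∃ ε : ℝ, 0 < ε ∧
    ∀ (D : Type u) [CStarAlgebra D] [PartialOrder D] [StarOrderedRing D], RP D →
    ∀ (H : Type v) [NormedAddCommGroup H] [InnerProductSpace ℂ H] [CompleteSpace H]
      (φ : D → (H →L[ℂ] H)), EpsHom φ ε →
    ∀ (J : Type) [Fintype J] [Nonempty J] (x : J → D), (∀ j, ‖x j‖ ≤ 1) →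
      ‖φ (av x) - av fun j => φ (x j)‖ ≤ γ := by
  obtain ⟨ε₀, η, hε₀, hη, hkr⟩ := kr.{u, v} (γ := (γ / 8) ^ 2) (by positivity)
  obtain ⟨k, hk⟩ := exists_pow_lt_of_lt_one hη (show (1 / 2 : ℝ) < 1 by norm_num)
  refine ⟨min ε₀ (γ / 2 / (3 * k + 2)), by positivity, ?_⟩
  intro D _ _ _ hD H _ _ _ φ hφ J _ _ x hx
  set ε := min ε₀ (γ / 2 / (3 * k + 2)) with hε
  have hε1 : ε * (3 * k + 2) ≤ γ / 2 := (le_div_iff₀ (by positivity)).1 (min_le_right _ _)
  obtain ⟨J', _, _, y, hy, -, h1, h2⟩ := dbl_zlin hφ x hx k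
  have hm : ‖av x‖ ≤ 1 := norm_av_le_of_le x zero_le_one hx
  set m := av x with hmdef
  let d : J' → D := fun j => (2 : ℝ)⁻¹ • (y j - m)
  have hd : ∀ j, ‖d j‖ ≤ 1 := fun j => by
    have := mid_norm_zlin (hy j) ((norm_neg m).le.trans hm)
    rwa [← sub_eq_add_neg] at this
  have hdv : ‖av fun j => star (d j) * d j‖ ≤ η := by
    have h3 : ∀ j, star (d j) * d j = ((2 : ℝ)⁻¹ * 2⁻¹) • (star (y j - m) * (y j - m)) :=
      fun j => by rw [star_smul, star_trivial, smul_mul_smul_comm]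
    simp only [h3]
    rw [av_real_smul, norm_smul, Real.norm_of_nonneg (by norm_num)]
    linarith
  have h4 : ‖av fun j => φ (d j)‖ ≤ γ / 8 := by
    refine ContinuousLinearMap.opNorm_le_of_unit_norm (by positivity) fun ξ hξ => ?_
    rw [av_apply]
    refine (norm_av_le _).trans (le_of_sq_le_sq ((av_sq_le _).trans ?_) (by positivity))
    exact hkr D hD H φ (hφ.mono (min_le_left _ _)) ξ hξ.le J' d hd hdv
  have h5 : ‖av fun j => φ (y j) - φ m - (φ (d j) + φ (d j))‖ ≤ 2 * ε := by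
    refine norm_av_le_of_le _ (by linarith [hφ.nonneg]) fun j => ?_
    have e1 : m + d j = (2 : ℝ)⁻¹ • (m + y j) := by simp only [d]; module
    have e2 : m + d j + d j = y j := by simp only [d]; module
    have a1 := hφ.add (m + d j) (d j) (by rw [e1]; exact mid_norm_zlin hm (hy j)) (hd j)
    have a2 := hφ.add m (d j) hm (hd j)
    rw [e2] at a1
    have e3 : φ (y j) - φ m - (φ (d j) + φ (d j)) =
        (φ (y j) - φ (m + d j) - φ (d j)) + (φ (m + d j) - φ m - φ (d j)) := by abel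
    rw [e3]
    linarith [norm_add_le (φ (y j) - φ (m + d j) - φ (d j)) (φ (m + d j) - φ m - φ (d j))]
  rw [av_sub, av_sub, av_add, av_const] at h5
  set Y := av fun j => φ (y j)
  set X := av fun j => φ (x j)
  set Z := av fun j => φ (d j)
  have e4 : φ m - X = (Y - X) - (Y - φ m - (Z + Z)) - (Z + Z) := by abel
  rw [e4]
  linarith [norm_sub_le ((Y - X) - (Y - φ m - (Z + Z))) (Z + Z),
    norm_sub_le (Y - X) (Y - φ m - (Z + Z)), norm_add_le Z Z]

end Ulam
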