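import Pool.Agent.P.MP_3be8c7_an.STARK
import Pool.Agent.P.MP_3be8c7_an.ZLIN
import Pool.Agent.P.MP_3be8c7_an.REPD
import Pool.Agent.P.MP_3be8c7_an.OZLIN
import Pool.Agent.P.MP_3be8c7_an.APX
import Pool.Agent.P.MP_3be8c7_an.KQ
import Pool.Agent.P.MP_3be8c7_an.KP
import Pool.Agent.P.MP_3be8c7_an.AV
import Pool.Agent.P.MP_3be8c7_an.VB
import Pool.Agent.P.MP_3be8c7_an.OZB

open scoped ComplexOrder InnerProductSpace
open Filter Topology

noncomputable section

namespace Ulam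

universe u v w

/-- The linear map built from the pieces. -/
def map_lin0 {D R J : Type*} [AddCommGroup D] [Module ℂ D] [CStarAlgebra R] [Fintype J]
    {I : J → Type} [∀ j, Fintype (I j)] (θ : ∀ j, D →ₗ[ℂ] Matrix (I j) (I j) ℂ)
    (r : ∀ j, I j → I j → R) (C : J → R) (K : ℝ) : D →ₗ[ℂ] R where
  toFun a := K • av fun j => star (C j) * (∑ k, ∑ l, θ j a k l • r j k l) * C j
  map_add' a b := by
    rw [← smul_add, ← av_add]
    simp only [map_add, Matrix.add_apply, add_smul, Finset.sum_add_distrib, mul_add, add_mul]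
  map_smul' c a := by
    rw [RingHom.id_apply, smul_comm c K, ← av_smul]
    simp only [map_smul, Matrix.smul_apply, smul_eq_mul, mul_smul, ← Finset.smul_sum,
      mul_smul_comm, smul_mul_assoc]

theorem lin0 {γ : ℝ} (hγ : 0 < γ) : ∃ ε : ℝ, 0 < ε ∧
    ∀ (D : Type u) [CStarAlgebra D] [PartialOrder D] [StarOrderedRing D], Nuc D → STR D →
    ∀ (H : Type v) [NormedAddCommGroup H] [InnerProductSpace ℂ H] [CompleteSpace H]
      (M : VonNeumannAlgebra H) (φ : D → (H →L[ℂ] H)), EpsHom φ ε → (∀ a, φ a ∈ M) →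
    ∀ U : Finset D, (∀ u ∈ U, u ∈ unitary D) →
    ∃ L : D →ₗ[ℂ] (H →L[ℂ] H), KPos L ∧ (∀ a, L a ∈ M) ∧ ∀ u ∈ U, ‖L u - φ u‖ ≤ γ := by
  obtain ⟨K, hK, hst⟩ := stark.{u} (δ := γ / 4) (by positivity)
  have hK0 : 0 < K := by linarith
  obtain ⟨ε₁, h1, hz⟩ := zlin.{u, v} (γ := γ / (8 * K)) (by positivity)
  obtain ⟨ε₂, h2, ho⟩ := ozlin.{u, v} (γ := γ / (8 * K)) (by positivity)
  refine ⟨min (min ε₁ ε₂) (γ / (40 * K)), lt_min (lt_min h1 h2) (by positivity), ?_⟩
  intro D _ _ _ hN hS H _ _ _ M φ hφ hM U hU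
  have hφ1 := hφ.mono ((min_le_left _ _).trans (min_le_left _ _))
  have hφ2 := hφ.mono ((min_le_left _ _).trans (min_le_right _ _))
  have hφ3 := hφ.mono (min_le_right _ _)
  obtain ⟨J, _, _, s, c, hc, hs⟩ := hst D hS U hU
  choose r hrM hrP hr using fun j => ho D H M φ hφ2 hM _ _ (s j).τ (s j).v (s j).oz
  refine ⟨map_lin0 (fun j => (s j).θ) r (fun j => φ (c j)) K, ?_, fun a => ?_, fun u hu => ?_⟩
  · exact ((KPos.sum Finset.univ fun j _ =>
      (kpos_pair (s j).ccp.pos (hrP j)).sandwich (φ (c j))).smul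
        (t := (Fintype.card J : ℝ)⁻¹) (by positivity)).smul hK0.le
  · refine vn_real_smul_mem M K (av_mem M _ fun j => ?_)
    exact mul_mem (mul_mem (star_mem (hM _)) (sum_mem fun k _ => sum_mem fun l _ =>
      vn_smul_mem M _ (hrM j k l))) (hM _)
  have hu1 : ‖u‖ ≤ 1 := by
    rcases subsingleton_or_nontrivial D with h | h
    · simp [Subsingleton.elim u 0]
    · exact (CStarRing.norm_of_mem_unitary (hU u hu)).le
  have hC : ∀ j, Contr ((s j).θ u) := fun j => (s j).ccp.contr hu1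
  have hh : ∀ j, ‖hpsi (s j).v ((s j).θ u)‖ ≤ 1 := fun j => (s j).oz.norm_hpsi_le (hC j)
  set T : J → D := fun j => star (c j) * hpsi (s j).v ((s j).θ u) * c j with hT
  have hT1 : ∀ j, ‖T j‖ ≤ 1 := fun j =>
    (norm_mul_le _ _).trans (mul_le_one₀ ((norm_mul_le _ _).trans (mul_le_one₀
      (by rw [norm_star]; exact hc j) (norm_nonneg _) (hh j))) (norm_nonneg _) (hc j))
  have hy : ‖av T‖ ≤ 1 := norm_av_le_of_le T zero_le_one hT1
  have hKi : |K⁻¹| ≤ 1 := by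
    rw [abs_of_pos (inv_pos.2 hK0)]; exact inv_le_one_of_one_le₀ hK
  have hKu : ‖K⁻¹ • u‖ ≤ 1 := by
    rw [norm_smul, Real.norm_eq_abs]; exact mul_le_one₀ hKi (norm_nonneg _) hu1
  have e1 := hφ3.smul_real K⁻¹ hKi u hu1
  have e2 := hφ3.lip (K⁻¹ • u) (av T) hKu hy
  have e2' : ‖K⁻¹ • u - av T‖ ≤ γ / (4 * K) := by
    have : K⁻¹ • u - av T = K⁻¹ • (u - K • av T) := by
      rw [smul_sub, smul_smul, inv_mul_cancel₀ hK0.ne', one_smul]
    rw [this, norm_smul, Real.norm_eq_abs, abs_of_pos (inv_pos.2 hK0)]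
    calc K⁻¹ * ‖u - K • av T‖ ≤ K⁻¹ * (γ / 4) :=
          mul_le_mul_of_nonneg_left (hs u hu) (inv_pos.2 hK0).le
      _ = γ / (4 * K) := by field_simp
  have e3 := hz D (rp_of_nuc hN) H φ hφ1 J T hT1
  set P : J → (H →L[ℂ] H) :=
    fun j => star (φ (c j)) * (∑ k, ∑ l, (s j).θ u k l • r j k l) * φ (c j) with hP
  have e4 : ‖(av fun j => φ (T j)) - av P‖ ≤ 3 * (γ / (40 * K)) + γ / (8 * K) := by
    rw [← av_sub]
    refine norm_av_le_of_le _ (by positivity) fun j => ?_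
    have a1 := hφ3.sandwich (c j) _ (hc j) (hh j)
    have a2 := hr j _ ((s j).blk u) (hC j)
    have a3 := hφ.ball _ (hc j)
    have a4 : ‖star (φ (c j)) * φ (hpsi (s j).v ((s j).θ u)) * φ (c j) - P j‖ ≤ γ / (8 * K) := by
      rw [hP]
      simp only
      rw [← sub_mul, ← mul_sub]
      refine (norm_mul_le _ _).trans ((mul_le_of_le_one_right (norm_nonneg _) a3).trans ?_)
      refine (norm_mul_le _ _).trans ((mul_le_of_le_one_left (norm_nonneg _) ?_).trans a2)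
      rwa [norm_star]
    exact (norm_sub_le_norm_sub_add_norm_sub _ _ _).trans (add_le_add a1 a4)
  have e5 : ‖av P - K⁻¹ • φ u‖ ≤ γ / K := by
    have b1 := norm_sub_le_norm_sub_add_norm_sub (av P) (av fun j => φ (T j)) (K⁻¹ • φ u)
    have b2 := norm_sub_le_norm_sub_add_norm_sub (av fun j => φ (T j)) (φ (av T)) (K⁻¹ • φ u)
    have b3 := norm_sub_le_norm_sub_add_norm_sub (φ (av T)) (φ (K⁻¹ • u)) (K⁻¹ • φ u)
    rw [norm_sub_rev] at e2 e3 e4
    have b4 : γ / (40 * K) = (γ / K) / 40 := by field_simp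
    have b5 : γ / (8 * K) = (γ / K) / 8 := by field_simp
    have b6 : γ / (4 * K) = (γ / K) / 4 := by field_simp
    have b7 : 0 < γ / K := by positivity
    rw [b4] at e1 e2 e4
    rw [b5] at e3 e4
    rw [b6] at e2'
    linarith
  have e6 : map_lin0 (fun j => (s j).θ) r (fun j => φ (c j)) K u - φ u =
      K • (av P - K⁻¹ • φ u) := by
    rw [smul_sub, smul_smul, mul_inv_cancel₀ hK0.ne', one_smul]
    rfl
  rw [e6, norm_smul, Real.norm_eq_abs, abs_of_pos hK0]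
  calc K * ‖av P - K⁻¹ • φ u‖ ≤ K * (γ / K) := mul_le_mul_of_nonneg_left e5 hK0.le
    _ = γ := by field_simp

end Ulam
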