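import Pool.Agent.P.MP_3be8c7_an.TM

open scoped ComplexOrder InnerProductSpace
open Filter Topology

noncomputable section

namespace Ulam

universe u v w

section

open Matrix

variable {I : Type*} [Fintype I] [DecidableEq I]

theorem spec_lyap {H : Matrix I I ℂ} (hH : H.IsHermitian) : ∃ (U : Matrix I I ℂ) (d : I → ℝ),
    Uᴴ * U = 1 ∧ U * Uᴴ = 1 ∧ Uᴴ * H * U = diagonal fun i => (d i : ℂ) := by
  refine ⟨hH.eigenvectorUnitary, hH.eigenvalues, ?_, ?_, ?_⟩
  · exact Unitary.coe_star_mul_self hH.eigenvectorUnitary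
  · exact Unitary.coe_mul_star_self hH.eigenvectorUnitary
  · have h := hH.conjStarAlgAut_star_eigenvectorUnitary
    rw [Unitary.conjStarAlgAut_star_apply] at h
    exact h

theorem col_lyap {P : Matrix I I ℂ} (hP : P.PosSemidef) {i : I} (h : P i i = 0) (k : I) :
    P k i = 0 := by
  have h1 := (hP.dotProduct_mulVec_zero_iff (Pi.single i 1)).1 (by simp [h])
  simpa using congrFun h1 k

theorem both_lyap {a b : ℂ} (ha : 0 ≤ a) (hb : 0 ≤ b) (h : a + b = 0) : a = 0 ∧ b = 0 :=
  (add_eq_zero_iff_of_nonneg ha hb).1 h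

theorem conj_lyap {U : Matrix I I ℂ} (h : U * Uᴴ = 1) (P Q : Matrix I I ℂ) :
    Uᴴ * (P * Q) * U = (Uᴴ * P * U) * (Uᴴ * Q * U) := by
  calc Uᴴ * (P * Q) * U = Uᴴ * (P * (U * Uᴴ) * Q) * U := by rw [h, mul_one]
    _ = _ := by simp only [mul_assoc]

theorem back_lyap {U : Matrix I I ℂ} (h : U * Uᴴ = 1) (P : Matrix I I ℂ) :
    U * (Uᴴ * P * U) * Uᴴ = P := by
  calc U * (Uᴴ * P * U) * Uᴴ = (U * Uᴴ) * P * (U * Uᴴ) := by simp only [mul_assoc]
    _ = P := by rw [h, mul_one, one_mul]

theorem contr_lyap {A B X Y : Matrix I I ℂ} (hA : A.PosSemidef) (hB : B.PosSemidef)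
    (hX : X.IsHermitian) (hL : X * (A + B) + (A + B) * X = (A - B) + (A - B))
    (hY : X = Y * (A + B)) : Contr X := by
  obtain ⟨U, d, h1, h2, h3⟩ := spec_lyap hX
  have hA' := hA.conjTranspose_mul_mul_same U
  have hB' := hB.conjTranspose_mul_mul_same U
  have hS : Uᴴ * (A + B) * U = Uᴴ * A * U + Uᴴ * B * U := by rw [mul_add, add_mul]
  have hD : Uᴴ * (A - B) * U = Uᴴ * A * U - Uᴴ * B * U := by rw [mul_sub, sub_mul]
  have hL' := congrArg (fun Z => Uᴴ * Z * U) hL
  have hY' := congrArg (fun Z => Uᴴ * Z * U) hY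
  rw [mul_add Uᴴ (X * _), add_mul _ _ U, mul_add Uᴴ (A - B), add_mul _ _ U, conj_lyap h2 X,
    conj_lyap h2 (A + B), h3, hS, hD] at hL'
  rw [conj_lyap h2 Y, h3, hS] at hY'
  generalize Uᴴ * A * U = A' at hA' hL' hY'
  generalize Uᴴ * B * U = B' at hB' hL' hY'
  have hd : ∀ i, d i * d i ≤ 1 := by
    intro i
    have e := congrFun (congrFun hL' i) i
    simp only [Matrix.add_apply, Matrix.sub_apply, diagonal_mul, mul_diagonal] at e
    have a0 : 0 ≤ A' i i := hA'.diag_nonneg
    have b0 : 0 ≤ B' i i := hB'.diag_nonneg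
    by_cases h : A' i i + B' i i = 0
    · obtain ⟨ha, hb⟩ := both_lyap a0 b0 h
      have e2 := congrFun (congrFun hY' i) i
      rw [Matrix.mul_apply] at e2
      simp only [Matrix.add_apply, col_lyap hA' ha, col_lyap hB' hb, add_zero,
        mul_zero, Finset.sum_const_zero, diagonal_apply_eq, Complex.ofReal_eq_zero] at e2
      rw [e2]
      norm_num
    · obtain ⟨a1, a2⟩ := Complex.nonneg_iff.1 a0
      obtain ⟨b1, b2⟩ := Complex.nonneg_iff.1 b0
      have e1 := congrArg Complex.re e
      simp only [Complex.add_re, Complex.mul_re, Complex.ofReal_re, Complex.ofReal_im,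
        Complex.sub_re, zero_mul, mul_zero, sub_zero] at e1
      have hp : 0 < (A' i i).re + (B' i i).re := by
        refine lt_of_le_of_ne (by linarith) fun h0 => h (Complex.ext ?_ ?_)
        · simpa using h0.symm
        · simp [← a2, ← b2]
      have u1 : d i ≤ 1 := by nlinarith
      have u2 : -1 ≤ d i := by nlinarith
      nlinarith
  have h4 : Uᴴ * (1 - star X * X) * U = diagonal fun i => ((1 - d i * d i : ℝ) : ℂ) := by
    rw [star_eq_conjTranspose, hX.eq, mul_sub, sub_mul, conj_lyap h2, h3, mul_one, h1,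
      diagonal_mul_diagonal, ← diagonal_one, diagonal_sub]
    simp
  rw [Contr, ← back_lyap h2 (1 - star X * X), h4]
  refine PosSemidef.mul_mul_conjTranspose_same (posSemidef_diagonal_iff.2 fun i => ?_) U
  exact Complex.zero_le_real.2 (sub_nonneg.2 (hd i))

theorem diag_lyap {A B : Matrix I I ℂ} (hA : A.PosSemidef) (hB : B.PosSemidef) {s : I → ℝ}
    (hs : A + B = diagonal fun i => (s i : ℂ)) : ∃ X Y : Matrix I I ℂ, X.IsHermitian ∧
    X * (A + B) + (A + B) * X = (A - B) + (A - B) ∧ X = Y * (A + B) := by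
  have e : ∀ i, A i i + B i i = s i := fun i => by simpa using congrFun (congrFun hs i) i
  have s0 : ∀ i, 0 ≤ s i := fun i => by
    have : (0 : ℂ) ≤ s i := e i ▸ add_nonneg hA.diag_nonneg hB.diag_nonneg
    exact Complex.zero_le_real.1 this
  have z : ∀ i j, s j = 0 → A i j - B i j = 0 := fun i j h => by
    obtain ⟨ha, hb⟩ := both_lyap hA.diag_nonneg hB.diag_nonneg ((e j).trans (by simp [h]))
    rw [col_lyap hA ha, col_lyap hB hb, sub_zero]
  refine ⟨of fun i j => 2 * (A i j - B i j) / (s i + s j),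
    of fun i j => 2 * (A i j - B i j) / (s i + s j) / s j, ?_, ?_, ?_⟩
  · refine IsHermitian.ext fun i j => ?_
    simp only [of_apply, star_div₀, star_mul', star_sub, star_add, hA.1.apply, hB.1.apply,
      Complex.star_def, Complex.conj_ofReal, map_ofNat, add_comm (s j : ℂ)]
  · rw [hs]
    ext i j
    simp only [Matrix.add_apply, Matrix.sub_apply, diagonal_mul, mul_diagonal, of_apply]
    by_cases h : s i + s j = 0
    · rw [z i j (by linarith [s0 i, s0 j])]
      simp
    · have h' : (s i : ℂ) + s j ≠ 0 := by exact_mod_cast h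
      field_simp
      ring
  · rw [hs]
    ext i j
    simp only [mul_diagonal, of_apply]
    by_cases h : s j = 0
    · rw [z i j h]
      simp
    · have h' : (s j : ℂ) ≠ 0 := by exact_mod_cast h
      rw [div_mul_cancel₀ _ h']

theorem exists_lyap {A B : Matrix I I ℂ} (hA : A.PosSemidef) (hB : B.PosSemidef) :
    ∃ X Y : Matrix I I ℂ, X.IsHermitian ∧
    X * (A + B) + (A + B) * X = (A - B) + (A - B) ∧ X = Y * (A + B) := by
  obtain ⟨U, s, h1, h2, h3⟩ := spec_lyap (hA.add hB).1
  have hS : Uᴴ * (A + B) * U = Uᴴ * A * U + Uᴴ * B * U := by rw [mul_add, add_mul]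
  have hD : Uᴴ * (A - B) * U = Uᴴ * A * U - Uᴴ * B * U := by rw [mul_sub, sub_mul]
  obtain ⟨X, Y, k1, k2, k3⟩ := diag_lyap (hA.conjTranspose_mul_mul_same U)
    (hB.conjTranspose_mul_mul_same U) (hS.symm.trans h3)
  rw [← hS] at k3
  rw [← hS, ← hD] at k2
  have h1' : Uᴴ * Uᴴᴴ = 1 := by rw [conjTranspose_conjTranspose, h1]
  have cj : ∀ P Q : Matrix I I ℂ, U * (P * Q) * Uᴴ = (U * P * Uᴴ) * (U * Q * Uᴴ) := fun P Q => by
    simpa only [conjTranspose_conjTranspose] using conj_lyap h1' P Q
  refine ⟨U * X * Uᴴ, U * Y * Uᴴ, isHermitian_mul_mul_conjTranspose U k1, ?_, ?_⟩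
  · have := congrArg (fun Z => U * Z * Uᴴ) k2
    rwa [mul_add U (X * _), add_mul, mul_add U (Uᴴ * (A - B) * U), add_mul, cj X,
      cj (Uᴴ * (A + B) * U), back_lyap h2, back_lyap h2] at this
  · have := congrArg (fun Z => U * Z * Uᴴ) k3
    rwa [cj Y, back_lyap h2] at this

open scoped MatrixOrder in
theorem trace_lyap {P Q : Matrix I I ℂ} (hP : P.PosSemidef) (hQ : Q.PosSemidef) :
    0 ≤ (P * Q).trace.re := by
  obtain ⟨R, rfl⟩ := CStarAlgebra.nonneg_iff_eq_star_mul_self.mp hP.nonneg
  have h := (hQ.mul_mul_conjTranspose_same R).trace_nonneg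
  rw [trace_mul_comm, ← mul_assoc] at h
  exact (Complex.nonneg_iff.1 h).1

end

theorem lyap {I : Type*} [Fintype I] [DecidableEq I] {A B : Matrix I I ℂ} (hA : A.PosSemidef)
    (hB : B.PosSemidef) : ∃ X : Matrix I I ℂ, X.IsHermitian ∧ Contr X ∧
      (X * (A * A - B * B)).trace.re = ((A - B) * (A - B)).trace.re ∧
      (X * (A * A + B * B) * X).trace.re ≤ 3 / 2 * ((A - B) * (A - B)).trace.re := by
  obtain ⟨X, Y, hX, hL, hY⟩ := exists_lyap hA hB
  have hC := contr_lyap hA hB hX hL hY
  refine ⟨X, hX, hC, ?_, ?_⟩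
  · have e1 : X * (A * A - B * B) + X * (A * A - B * B) =
        X * (A + B) * (A - B) + X * (A - B) * (A + B) := by noncomm_ring
    have e2 := congrArg Matrix.trace e1
    rw [Matrix.trace_add, Matrix.trace_add, Matrix.trace_mul_comm (X * (A - B)), ← mul_assoc,
      ← Matrix.trace_add (X * (A + B) * _), ← add_mul, hL, add_mul, Matrix.trace_add] at e2
    have e3 := congrArg Complex.re e2
    simp only [Complex.add_re] at e3
    linarith
  · have hS := hA.add hB
    have hD : (A - B).IsHermitian := hA.1.sub hB.1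
    have e1 : X * (A * A + B * B) * X + X * (A * A + B * B) * X =
        X * (A + B) * ((A + B) * X) + X * (A - B) * ((A - B) * X) := by noncomm_ring
    generalize A + B = S at hL hS e1
    generalize A - B = D at hL hD e1 ⊢
    have e2 := congrArg (fun Z => (Matrix.trace Z).re) e1
    simp only [Matrix.trace_add, Complex.add_re] at e2
    have a1 := (Complex.nonneg_iff.1 (hC.conjTranspose_mul_mul_same D).trace_nonneg).1
    have a2 : D.conjTranspose * (1 - star X * X) * D = D * D - D * X * (X * D) := by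
      rw [Matrix.star_eq_conjTranspose, hX.eq, hD.eq]
      noncomm_ring
    rw [a2, Matrix.trace_sub, Complex.sub_re, Matrix.trace_mul_comm (D * X)] at a1
    have a3 := trace_lyap hS (hS.conjTranspose_mul_mul_same X)
    rw [hX.eq] at a3
    have a4 : (X * S + S * X) * (X * S + S * X) =
        X * (S * X * S) + X * S * (S * X) + S * X * (X * S) + S * (X * S * X) := by noncomm_ring
    have a5 : (D + D) * (D + D) = D * D + D * D + D * D + D * D := by noncomm_ring
    rw [hL, a5] at a4
    have a6 := congrArg (fun Z => (Matrix.trace Z).re) a4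
    simp only [Matrix.trace_add, Complex.add_re] at a6
    have a7 : (X * (S * X * S)).trace = (S * (X * S * X)).trace := by
      rw [Matrix.trace_mul_comm]
      simp only [mul_assoc]
    rw [a7, Matrix.trace_mul_comm (S * X)] at a6
    linarith

end Ulam
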