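import Pool.Agent.P.MP_3be8c7_an.NUC1

open scoped ComplexOrder InnerProductSpace
open Filter Topology Matrix

noncomputable section

namespace Ulam

universe u v w

theorem psd_lim_nuc2 {J : Type*} [Fintype J] (M : ℕ → Matrix J J ℂ) (N : Matrix J J ℂ)
    (hM : ∀ n, (M n).PosSemidef) (h : ∀ p q, Tendsto (fun n => M n p q) atTop (𝓝 (N p q))) :
    N.PosSemidef := by
  refine Matrix.PosSemidef.of_dotProduct_mulVec_nonneg ?_ ?_
  · ext p q
    have h1 : Tendsto (fun n => star (M n q p)) atTop (𝓝 (star (N q p))) := (h q p).star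
    have h2 : (fun n => star (M n q p)) = fun n => M n p q := by
      funext n
      have := congrFun (congrFun (hM n).isHermitian p) q
      simpa [Matrix.conjTranspose_apply] using this
    rw [h2] at h1
    rw [Matrix.conjTranspose_apply]
    exact tendsto_nhds_unique h1 (h p q)
  · intro x
    have h1 : Tendsto (fun n => star x ⬝ᵥ (M n *ᵥ x)) atTop (𝓝 (star x ⬝ᵥ (N *ᵥ x))) := by
      simp only [dotProduct, Matrix.mulVec]
      refine tendsto_finsetSum _ fun p _ => Tendsto.const_mul _ ?_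
      exact tendsto_finsetSum _ fun q _ => (h p q).mul_const _
    exact ge_of_tendsto' h1 fun n => (hM n).dotProduct_mulVec_nonneg x

theorem psd_ext_nuc2 {J J' : Type*} [Fintype J] [Fintype J'] [DecidableEq J] (M : Matrix J J ℂ)
    (hM : M.PosSemidef) (g : J' → Option J) (N : Matrix J' J' ℂ)
    (h : ∀ p q, N p q = (g p).elim 0 fun r => (g q).elim 0 fun s => M r s) : N.PosSemidef := by
  have e : N = (Matrix.of fun r p => if g p = some r then (1 : ℂ) else 0)ᴴ * M *
      Matrix.of fun r p => if g p = some r then (1 : ℂ) else 0 := by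
    ext p q
    rw [h]
    cases hp : g p <;> cases hq : g q <;>
      simp [Matrix.mul_apply, Matrix.conjTranspose_apply, hp, hq]
  rw [e]
  exact hM.conjTranspose_mul_mul_same _

theorem entry_le_nuc2 {J : Type*} [Fintype J] [DecidableEq J] {M : Matrix J J ℂ}
    (h0 : M.PosSemidef) (h1 : (1 - M).PosSemidef) (j k : J) : ‖M j k‖ ≤ 1 := by
  have hs : Mᴴ = M := h0.isHermitian
  have hs1 : (1 - M)ᴴ = 1 - M := h1.isHermitian
  have hc : Contr M := by
    unfold Contr
    have e : 1 - star M * M = (1 - M) + (Mᴴ * (1 - M) * M + (1 - M)ᴴ * M * (1 - M)) := by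
      rw [hs1, Matrix.star_eq_conjTranspose, hs]
      noncomm_ring
    rw [e]
    exact h1.add ((h1.conjTranspose_mul_mul_same _).add (h0.conjTranspose_mul_mul_same _))
  exact hc.norm_apply_le j k

theorem bound_nuc2 {A : Type u} [NonUnitalCStarAlgebra A] {I : Type*} [Fintype I] [DecidableEq I]
    (θ : A →ₗ[ℂ] Matrix I I ℂ) (h0 : KPosM θ)
    (h1 : ∀ a, ‖a‖ ≤ 1 → (1 - θ (star a * a)).PosSemidef) (y : A) (j k : I) :
    ‖θ y j k‖ ≤ 4 * ‖y‖ := by
  letI := CStarAlgebra.spectralOrder A
  haveI := CStarAlgebra.spectralOrderedRing A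
  have key : ∀ y : A, ‖y‖ ≤ 1 → ‖θ y j k‖ ≤ 4 := by
    intro y hy
    obtain ⟨x, hx0, hx1, hx⟩ := CStarAlgebra.exists_sum_four_nonneg y
    have hb : ∀ i, ‖θ (x i) j k‖ ≤ 1 := by
      intro i
      have e : star (CFC.sqrt (x i)) * CFC.sqrt (x i) = x i := by
        rw [(CFC.sqrt_nonneg (x i)).isSelfAdjoint.star_eq, CFC.sqrt_mul_sqrt_self _ (hx0 i)]
      have hn : ‖CFC.sqrt (x i)‖ ≤ 1 := by
        rw [CFC.norm_sqrt _ (hx0 i)]
        exact Real.sqrt_le_one.2 ((hx1 i).trans hy)
      have := entry_le_nuc2 (h0.psd (CFC.sqrt (x i))) (h1 _ hn) j k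
      rwa [e] at this
    rw [hx, map_sum, Matrix.sum_apply]
    refine (norm_sum_le _ _).trans ?_
    calc ∑ i : Fin 4, ‖θ (Complex.I ^ (i : ℕ) • x i) j k‖ ≤ ∑ _i : Fin 4, (1 : ℝ) := by
          refine Finset.sum_le_sum fun i _ => ?_
          rw [map_smul, Matrix.smul_apply, norm_smul, norm_pow, Complex.norm_I, one_pow, one_mul]
          exact hb i
      _ = 4 := by simp
  by_cases hy : y = 0
  · simp [hy]
  · have hp : 0 < ‖y‖ := norm_pos_iff.2 hy
    have := key (((‖y‖⁻¹ : ℝ) : ℂ) • y) (by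
      rw [norm_smul, Complex.norm_real, norm_inv, norm_norm, inv_mul_cancel₀ hp.ne'])
    rw [map_smul, Matrix.smul_apply, norm_smul, Complex.norm_real, norm_inv, norm_norm,
      inv_mul_le_iff₀ hp] at this
    linarith

/-- The unital extension. -/
def uext_nuc2 {A : Type u} [NonUnitalCStarAlgebra A] {I : Type*} [Fintype I] [DecidableEq I]
    (θ : A →ₗ[ℂ] Matrix I I ℂ) : Unitization ℂ A →ₗ[ℂ] Matrix I I ℂ where
  toFun x := x.fst • (1 : Matrix I I ℂ) + θ x.snd
  map_add' x y := by
    simp only [Unitization.fst_add, Unitization.snd_add, map_add, add_smul]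
    abel
  map_smul' c x := by
    simp only [Unitization.fst_smul, Unitization.snd_smul, map_smul, RingHom.id_apply, smul_add,
      smul_assoc]

theorem uext_pos_nuc2 {A : Type u} [NonUnitalCStarAlgebra A] {I : Type*} [Fintype I]
    [DecidableEq I] (θ : A →ₗ[ℂ] Matrix I I ℂ) (h0 : KPosM θ)
    (h1 : ∀ a, ‖a‖ ≤ 1 → (1 - θ (star a * a)).PosSemidef) : KPosM (uext_nuc2 θ) := by
  classical
  refine kposM_of_fin fun m x => ?_
  set y : Fin m → Fin m → A := fun i j => (star (x i) * x j).snd with hy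
  have hf : ∀ n : ℕ, ∃ f : A, IsSelfAdjoint f ∧ ‖f‖ ≤ 1 ∧
      ∀ i j, ‖f * y i j * f - y i j‖ ≤ 1 / ((n : ℝ) + 1) := by
    intro n
    obtain ⟨f, hf1, hf2, hf3⟩ := exists_approx_unit
      (Finset.univ.image fun p : Fin m × Fin m => y p.1 p.2) (η := 1 / ((n : ℝ) + 1))
      (by positivity)
    exact ⟨f, hf1, hf2, fun i j =>
      (hf3 _ (Finset.mem_image.2 ⟨(i, j), Finset.mem_univ _, rfl⟩)).1⟩
  choose f hf1 hf2 hf3 using hf
  set c : ℕ → Fin m → A := fun n i => (x i).fst • f n + (x i).snd * f n with hc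
  have hcc : ∀ n i j, star (c n i) * c n j =
      (star (x i).fst * (x j).fst) • (star (f n) * f n) + f n * y i j * f n := by
    intro n i j
    simp only [hc, hy, star_add, star_smul, star_mul, (hf1 n).star_eq, Unitization.snd_mul,
      Unitization.snd_star, Unitization.fst_star, add_mul, mul_add, smul_mul_assoc,
      mul_smul_comm, smul_smul, mul_assoc, smul_add]
    rw [mul_comm (x j).fst]
    abel
  refine psd_lim_nuc2 (fun n =>
    (Matrix.of fun p q : Fin m × I => θ (star (c n p.1) * c n q.1) p.2 q.2) +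
      (Matrix.diagonal fun p : Fin m × I => (x p.1).fst)ᴴ *
        (1 - θ (star (f n) * f n)).submatrix Prod.snd Prod.snd *
        Matrix.diagonal fun p : Fin m × I => (x p.1).fst) _ (fun n => ?_) (fun p q => ?_)
  · exact (h0.sub (c n)).add (((h1 _ (hf2 n)).submatrix _).conjTranspose_mul_mul_same _)
  · have e : ∀ n, ((Matrix.of fun p q : Fin m × I => θ (star (c n p.1) * c n q.1) p.2 q.2) +
      (Matrix.diagonal fun p : Fin m × I => (x p.1).fst)ᴴ *
        (1 - θ (star (f n) * f n)).submatrix Prod.snd Prod.snd *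
        (Matrix.diagonal fun p : Fin m × I => (x p.1).fst) : Matrix _ _ ℂ) p q =
        uext_nuc2 θ (star (x p.1) * x q.1) p.2 q.2 +
          θ (f n * y p.1 q.1 * f n - y p.1 q.1) p.2 q.2 := by
      intro n
      rw [Matrix.add_apply, Matrix.of_apply, hcc, Matrix.diagonal_conjTranspose,
        Matrix.mul_diagonal, Matrix.diagonal_mul]
      simp only [uext_nuc2, LinearMap.coe_mk, AddHom.coe_mk, map_add, map_smul, map_sub,
        Matrix.add_apply, Matrix.smul_apply, Matrix.sub_apply, Matrix.submatrix_apply,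
        Unitization.fst_mul, Unitization.fst_star, smul_eq_mul, Pi.star_apply, hy]
      ring
    simp only [e, Matrix.of_apply]
    have h2 : Tendsto (fun n => θ (f n * y p.1 q.1 * f n - y p.1 q.1) p.2 q.2) atTop (𝓝 0) := by
      refine squeeze_zero_norm (a := fun n : ℕ => 4 * (1 / ((n : ℝ) + 1))) (fun n => ?_) ?_
      · exact (bound_nuc2 θ h0 h1 _ _ _).trans (by gcongr; exact hf3 n _ _)
      · simpa using tendsto_one_div_add_atTop_nhds_zero_nat.const_mul (4 : ℝ)
    have h3 := h2.const_add (uext_nuc2 θ (star (x p.1) * x q.1) p.2 q.2)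
    rwa [add_zero] at h3

/-- Extension by zero to one more coordinate. -/
def oext_nuc2 {A : Type u} [NonUnitalCStarAlgebra A] {I : Type*}
    (θ : A →ₗ[ℂ] Matrix I I ℂ) : A →ₗ[ℂ] Matrix (Option I) (Option I) ℂ where
  toFun a := Matrix.of fun p q => p.elim 0 fun r => q.elim 0 fun s => θ a r s
  map_add' a b := by
    ext p q
    cases p <;> cases q <;> simp
  map_smul' c a := by
    ext p q
    cases p <;> cases q <;> simp

theorem nuc_unitization {A : Type u} [NonUnitalCStarAlgebra A] (hA : Nuc0 A) :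
    Nuc (Unitization ℂ A) := by
  classical
  intro F η hη
  obtain ⟨I, fI, dI, θ, b, h0, h1, hb, hF⟩ := hA (F.image fun x => x.snd) η hη
  letI := CStarAlgebra.spectralOrder A
  haveI := CStarAlgebra.spectralOrderedRing A
  have g0 : KPosM (oext_nuc2 θ) := by
    refine kposM_of_fin fun m a => ?_
    refine psd_ext_nuc2 _ (h0.sub a) (fun p => p.2.map fun r => (p.1, r)) _ ?_
    rintro ⟨i, p⟩ ⟨j, q⟩
    cases p <;> cases q <;> simp [oext_nuc2]
  have g1 : ∀ a, ‖a‖ ≤ 1 → (1 - oext_nuc2 θ (star a * a)).PosSemidef := by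
    intro a ha
    have e : 1 - oext_nuc2 θ (star a * a) =
        (Matrix.of fun p q : Option I =>
          p.elim 0 fun r => q.elim 0 fun s => (1 - θ (star a * a)) r s) +
        Matrix.diagonal fun p : Option I => p.elim (1 : ℂ) fun _ => 0 := by
      ext p q
      cases p <;> cases q <;> simp [oext_nuc2, Matrix.one_apply, Matrix.diagonal_apply]
    rw [e]
    refine (psd_ext_nuc2 _ (h1 a ha) id _ fun p q => rfl).add (Matrix.PosSemidef.diagonal ?_)
    intro p
    cases p <;> simp
  set T : A := ∑ k, star (b k) * b k with hT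
  have hT0 : 0 ≤ T := Finset.sum_nonneg fun k _ => star_mul_self_nonneg _
  have hT1 : (0 : Unitization ℂ A) ≤ 1 - (T : Unitization ℂ A) := by
    rw [sub_nonneg, ← CStarAlgebra.norm_le_one_iff_of_nonneg _ (by simpa using hT0),
      Unitization.norm_inr]
    exact hb
  set s : Unitization ℂ A := CFC.sqrt (1 - (T : Unitization ℂ A)) with hs
  have hss : star s * s = 1 - (T : Unitization ℂ A) := by
    rw [hs, (CFC.sqrt_nonneg _).isSelfAdjoint.star_eq, CFC.sqrt_mul_sqrt_self _ hT1]
  set b' : Option I → Unitization ℂ A := fun o => o.elim s fun k => (b k : Unitization ℂ A)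
    with hb'
  have hinr : ∀ g : I → A, ((∑ k, g k : A) : Unitization ℂ A) = ∑ k, (g k : Unitization ℂ A) :=
    fun g => map_sum (Unitization.inrHom ℂ ℂ A) g Finset.univ
  have hsum : ∑ o, star (b' o) * b' o = 1 := by
    rw [Fintype.sum_option]
    simp only [hb', Option.elim_none, Option.elim_some, hss, hT, hinr, Unitization.inr_mul,
      Unitization.inr_star]
    abel
  refine ⟨Option I, inferInstance, inferInstance, uext_nuc2 (oext_nuc2 θ), b',
    ⟨uext_pos_nuc2 _ g0 g1, ?_⟩, ?_, fun x hx => ?_⟩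
  · simpa [uext_nuc2] using Matrix.PosSemidef.zero
  · rw [hsum, norm_one]
  · have e1 : tmap b' (oext_nuc2 θ x.snd) = ((tmap b (θ x.snd) : A) : Unitization ℂ A) := by
      simp [tmap, Fintype.sum_option, oext_nuc2, hb', hinr, Unitization.inr_mul,
        Unitization.inr_star, Unitization.inr_smul]
    have e2 : tmap b' (uext_nuc2 (oext_nuc2 θ) x) =
        x.fst • (1 : Unitization ℂ A) + ((tmap b (θ x.snd) : A) : Unitization ℂ A) := by
      show tmap b' (x.fst • (1 : Matrix (Option I) (Option I) ℂ) + oext_nuc2 θ x.snd) = _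
      rw [tmap_add, tmap_smul, tmap_one, hsum, e1]
    have e3 : x - tmap b' (uext_nuc2 (oext_nuc2 θ) x) =
        ((x.snd - tmap b (θ x.snd) : A) : Unitization ℂ A) := by
      rw [e2, Unitization.inr_sub, sub_add_eq_sub_sub]
      congr 1
      rw [sub_eq_iff_eq_add']
      ext <;> simp
    rw [e3, Unitization.norm_inr]
    exact hF _ (Finset.mem_image.2 ⟨x, hx, rfl⟩)

end Ulam
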