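import Pool.Agent.P.MP_3be8c7_an.APX
import Pool.Agent.P.MP_3be8c7_an.VB

open scoped ComplexOrder InnerProductSpace
open Filter Topology

noncomputable section

namespace Ulam

universe u v w

theorem smul_le_unit {B : Type*} [NormedAddCommGroup B] [NormedSpace ℂ B] {c : ℂ} {x : B}
    {s t : ℝ} (hc : ‖c‖ ≤ s) (hx : ‖x‖ ≤ t) : ‖c • x‖ ≤ s * t := by
  rw [norm_smul]
  exact mul_le_mul hc hx (norm_nonneg _) ((norm_nonneg _).trans hc)

theorem mul_le_unit {B : Type*} [NonUnitalNormedRing B] {x y : B} {s t : ℝ} (hx : ‖x‖ ≤ s)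
    (hy : ‖y‖ ≤ t) : ‖x * y‖ ≤ s * t :=
  (norm_mul_le _ _).trans (mul_le_mul hx hy (norm_nonneg _) ((norm_nonneg _).trans hx))

theorem four_unit : ‖(4 : ℂ)‖ ≤ 4 := by simp

theorem quarter_unit : ‖(4 : ℂ)⁻¹‖ ≤ 1 / 4 := by simp

/-- Rescaling of a bounded approximate homomorphism. -/
theorem resc_unit {D B : Type*} [NonUnitalCStarAlgebra D] [NonUnitalCStarAlgebra B] {ψ : D → B}
    {δ : ℝ} (hδ : 0 ≤ δ) (hb : ∀ a, ‖a‖ ≤ 1 → ‖ψ a‖ ≤ 5)
    (ha : ∀ a b, ‖a‖ ≤ 1 → ‖b‖ ≤ 1 → ‖ψ (a + b) - ψ a - ψ b‖ ≤ δ)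
    (hm : ∀ a b, ‖a‖ ≤ 1 → ‖b‖ ≤ 1 → ‖ψ (a * b) - ψ a * ψ b‖ ≤ δ)
    (hs : ∀ a, ‖a‖ ≤ 1 → ‖ψ (star a) - star (ψ a)‖ ≤ δ)
    (hc : ∀ (c : ℂ) a, ‖c‖ ≤ 1 → ‖a‖ ≤ 1 → ‖ψ (c • a) - c • ψ a‖ ≤ δ) :
    ∃ t : ℂ, EpsHom (fun a => t • ψ a) (7 * δ) ∧ ∀ a, ‖a‖ ≤ 1 → ‖t • ψ a - ψ a‖ ≤ 6 * δ := by
  let S : Set ℝ := (fun a => ‖ψ a‖) '' {a | ‖a‖ ≤ 1}
  have hne : S.Nonempty := ⟨_, 0, by simp, rfl⟩
  have hle : ∀ a, ‖a‖ ≤ 1 → ‖ψ a‖ ≤ sSup S := fun a h =>
    le_csSup ⟨5, by rintro _ ⟨a, h, rfl⟩; exact hb a h⟩ ⟨a, h, rfl⟩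
  have hsq : ∀ a, ‖a‖ ≤ 1 → ‖ψ a‖ * ‖ψ a‖ ≤ sSup S + 6 * δ := fun a h => by
    have h1 : ‖star a‖ ≤ 1 := by rwa [norm_star]
    have h2 := hle (star a * a) (by simpa using mul_le_unit h1 h)
    have h3 := hm _ _ h1 h
    have h4 := mul_le_unit (hs a h) (hb a h)
    have e : star (ψ a) * ψ a = ψ (star a * a) - (ψ (star a * a) - ψ (star a) * ψ a) -
        (ψ (star a) - star (ψ a)) * ψ a := by
      rw [sub_mul]
      abel
    rw [← CStarRing.norm_star_mul_self, e]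
    refine (norm_sub_le _ _).trans ((add_le_add_left (norm_sub_le _ _) _).trans ?_)
    linarith
  have hK : ∀ a, ‖a‖ ≤ 1 → ‖ψ a‖ ≤ 1 + 6 * δ := fun a h => (hle a h).trans <| by
    have h0 : 0 ≤ sSup S := (norm_nonneg _).trans (hle a h)
    have h1 : sSup S ≤ √(sSup S + 6 * δ) := csSup_le hne <| by
      rintro _ ⟨a, h, rfl⟩
      exact Real.le_sqrt_of_sq_le (by rw [sq]; exact hsq a h)
    have h2 := (Real.le_sqrt h0 (by positivity)).1 h1
    by_contra h3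
    nlinarith
  obtain ⟨t, ht0, ht⟩ : ∃ t : ℝ, 0 < t ∧ t * (1 + 6 * δ) = 1 :=
    ⟨(1 + 6 * δ)⁻¹, by positivity, inv_mul_cancel₀ (by positivity)⟩
  have ht1 : t ≤ 1 := by nlinarith
  have n1 : ‖(t : ℂ)‖ ≤ t := by rw [Complex.norm_real, Real.norm_of_nonneg ht0.le]
  have n2 : ‖(t : ℂ) - 1‖ ≤ 1 - t := by
    rw [← Complex.ofReal_one, ← Complex.ofReal_sub, Complex.norm_real, Real.norm_of_nonpos
      (by linarith), neg_sub]
  have key : ∀ x : B, ‖x‖ ≤ δ → ‖(t : ℂ) • x‖ ≤ 7 * δ := fun x hx =>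
    (smul_le_unit (n1.trans ht1) hx).trans (by linarith)
  have cl : ∀ a, ‖a‖ ≤ 1 → ‖((t : ℂ) - 1) • ψ a‖ ≤ 6 * δ := fun a h =>
    (smul_le_unit n2 (hK a h)).trans (by nlinarith)
  refine ⟨t, ⟨fun a h => (smul_le_unit n1 (hK a h)).trans ht.le, fun a b h h' => ?_,
    fun a b h h' => ?_, fun a h => ?_, fun c a h h' => ?_⟩, fun a h => ?_⟩
  · rw [← smul_sub, ← smul_sub]
    exact key _ (ha a b h h')
  · have e : (t : ℂ) • ψ (a * b) - (t : ℂ) • ψ a * (t : ℂ) • ψ b =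
        (t : ℂ) • (ψ (a * b) - ψ a * ψ b) - ((t : ℂ) - 1) • ψ a * (t : ℂ) • ψ b := by
      simp only [smul_mul_assoc, mul_smul_comm]
      module
    have h1 := smul_le_unit (n1.trans ht1) (hm a b h h')
    have h2 := mul_le_unit (cl a h) ((smul_le_unit n1 (hK b h')).trans ht.le)
    rw [e]
    exact (norm_sub_le _ _).trans (by linarith)
  · rw [star_smul, Complex.star_def, Complex.conj_ofReal, ← smul_sub]
    exact key _ (hs a h)
  · rw [smul_comm c, ← smul_sub]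
    exact key _ (hc c a h h')
  · have h1 := cl a h
    rwa [sub_smul, one_smul] at h1

section

variable {A B : Type*} [NonUnitalCStarAlgebra A] [CStarAlgebra B] {φ : A → B} {ε : ℝ}

theorem fst_le_unit {x : Unitization ℂ A} (h : ‖x‖ ≤ 1) : ‖x.fst‖ ≤ 1 :=
  le_trans (by rw [Unitization.norm_eq_sup]; exact le_max_left _ _) h

theorem snd_le_unit {x : Unitization ℂ A} (h : ‖x‖ ≤ 1) : ‖(4 : ℂ)⁻¹ • x.snd‖ ≤ 1 / 2 := by
  have h1 : (x.snd : Unitization ℂ A) = x - x.fst • 1 := by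
    rw [eq_sub_iff_add_eq]
    ext <;> simp
  have h2 : ‖x.snd‖ ≤ 2 := by
    rw [← Unitization.norm_inr (𝕜 := ℂ), h1]
    have := smul_le_unit (fst_le_unit h) (norm_one (α := Unitization ℂ A)).le
    exact (norm_sub_le _ _).trans (by linarith)
  exact (smul_le_unit quarter_unit h2).trans (by norm_num)

theorem up_unit (h : EpsHom φ ε) {a : A} (ha : ‖a‖ ≤ 1) :
    ‖(4 : ℂ) • φ ((4 : ℂ)⁻¹ • a) - φ a‖ ≤ 4 * ε := by
  have h1 := smul_le_unit four_unit (h.smul _ a (quarter_unit.trans (by norm_num)) ha)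
  rwa [smul_sub, smul_inv_smul₀ (by norm_num)] at h1

theorem mul_unit (h : EpsHom φ ε) {l m : ℂ} {p q : A} (hl : ‖l‖ ≤ 1) (hm : ‖m‖ ≤ 1)
    (hp : ‖p‖ ≤ 1 / 2) (hq : ‖q‖ ≤ 1 / 2) :
    ‖φ (l • q + m • p + (4 : ℂ) • (p * q)) - (l • φ q + m • φ p + (4 : ℂ) • (φ p * φ q))‖ ≤
      12 * ε := by
  have a1 := smul_le_unit hl hq
  have a2 := smul_le_unit hm hp
  have a3 : ‖(4 : ℂ) • (p * q)‖ ≤ 1 :=
    (smul_le_unit four_unit (mul_le_unit hp hq)).trans (by norm_num)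
  have b1 := h.add (l • q + m • p) _ ((norm_add_le _ _).trans (by linarith)) a3
  have b2 := h.add (l • q) (m • p) (by linarith) (by linarith)
  have b3 := h.smul l q hl (by linarith)
  have b4 := h.smul m p hm (by linarith)
  have b5 := up_unit h a3
  rw [inv_smul_smul₀ (by norm_num)] at b5
  have b6 := smul_le_unit four_unit (h.mul p q (by linarith) (by linarith))
  have e : φ (l • q + m • p + (4 : ℂ) • (p * q)) - (l • φ q + m • φ p + (4 : ℂ) • (φ p * φ q)) =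
      (φ (l • q + m • p + (4 : ℂ) • (p * q)) - φ (l • q + m • p) - φ ((4 : ℂ) • (p * q))) +
      (φ (l • q + m • p) - φ (l • q) - φ (m • p)) + (φ (l • q) - l • φ q) + (φ (m • p) - m • φ p) -
      ((4 : ℂ) • φ (p * q) - φ ((4 : ℂ) • (p * q))) + (4 : ℂ) • (φ (p * q) - φ p * φ q) := by
    module
  rw [e]
  refine (norm_add_le_of_le (norm_sub_le_of_le (norm_add_le_of_le (norm_add_le_of_le
    (norm_add_le_of_le b1 b2) b3) b4) b5) b6).trans (by linarith)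

theorem ext_unit (h : EpsHom φ ε) : ∃ t : ℂ,
    EpsHom (fun x : Unitization ℂ A => t • (x.fst • (1 : B) + (4 : ℂ) • φ ((4 : ℂ)⁻¹ • x.snd)))
      (336 * ε) ∧ ∀ x : Unitization ℂ A, ‖x‖ ≤ 1 →
      ‖t • (x.fst • (1 : B) + (4 : ℂ) • φ ((4 : ℂ)⁻¹ • x.snd)) -
        (x.fst • (1 : B) + (4 : ℂ) • φ ((4 : ℂ)⁻¹ • x.snd))‖ ≤ 288 * ε := by
  have hε := h.nonneg
  have h1 : ∀ {x : Unitization ℂ A}, ‖x‖ ≤ 1 → ‖(4 : ℂ)⁻¹ • x.snd‖ ≤ 1 := fun hx =>
    (snd_le_unit hx).trans (by norm_num)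
  have key : ∀ {y : B}, ‖y‖ ≤ ε → ‖(4 : ℂ) • y‖ ≤ 48 * ε := fun hy =>
    (smul_le_unit four_unit hy).trans (by linarith)
  obtain ⟨t, a1, a2⟩ := resc_unit (δ := 48 * ε) (ψ := fun x : Unitization ℂ A =>
    x.fst • (1 : B) + (4 : ℂ) • φ ((4 : ℂ)⁻¹ • x.snd)) (by linarith)
    (fun x hx => (norm_add_le_of_le (smul_le_unit (fst_le_unit hx)
      (IsStarProjection.norm_le _ (IsStarProjection.one B)))
      (smul_le_unit four_unit (h.ball _ (h1 hx)))).trans (by norm_num))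
    (fun x y hx hy => by
      refine le_of_eq_of_le (congrArg norm ?_) (key (h.add _ _ (h1 hx) (h1 hy)))
      simp only [Unitization.fst_add, Unitization.snd_add, smul_add]
      module)
    (fun x y hx hy => by
      have h2 := smul_le_unit four_unit (mul_unit h (fst_le_unit hx) (fst_le_unit hy)
        (snd_le_unit hx) (snd_le_unit hy))
      have e : (4 : ℂ)⁻¹ • (x * y).snd = x.fst • (4 : ℂ)⁻¹ • y.snd + y.fst • (4 : ℂ)⁻¹ • x.snd +
          (4 : ℂ) • ((4 : ℂ)⁻¹ • x.snd * (4 : ℂ)⁻¹ • y.snd) := by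
        simp only [Unitization.snd_mul, smul_mul_assoc, mul_smul_comm]
        module
      refine le_of_eq_of_le (congrArg norm ?_) (h2.trans (by linarith))
      simp only [e, Unitization.fst_mul, add_mul, mul_add, smul_mul_assoc, mul_smul_comm, one_mul,
        mul_one]
      module)
    (fun x hx => by
      refine le_of_eq_of_le (congrArg norm ?_) (key (h.star _ (h1 hx)))
      simp only [Unitization.fst_star, Unitization.snd_star, star_add, star_smul, star_one,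
        star_inv₀, star_ofNat]
      module)
    (fun c x hc hx => by
      refine le_of_eq_of_le (congrArg norm ?_) (key (h.smul c _ hc (h1 hx)))
      simp only [Unitization.fst_smul, Unitization.snd_smul, smul_comm (4 : ℂ)⁻¹ c, smul_eq_mul]
      module)
  exact ⟨t, a1.mono (by linarith), fun x hx => (a2 x hx).trans (by linarith)⟩

end

theorem unit_ext {γ : ℝ} (hγ : 0 < γ) : ∃ ε : ℝ, 0 < ε ∧
    ∀ (A : Type u) [NonUnitalCStarAlgebra A]
      (H : Type v) [NormedAddCommGroup H] [InnerProductSpace ℂ H] [CompleteSpace H]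
      (M : VonNeumannAlgebra H) (φ : A → (H →L[ℂ] H)), EpsHom φ ε → (∀ a, φ a ∈ M) →
    ∃ φ' : Unitization ℂ A → (H →L[ℂ] H), EpsHom φ' γ ∧ (∀ x, φ' x ∈ M) ∧ ‖φ' 1 - 1‖ ≤ γ ∧
      ∀ a : A, ‖a‖ ≤ 1 → ‖φ' (a : Unitization ℂ A) - φ a‖ ≤ γ := by
  refine ⟨γ / 336, by positivity, fun A _ H _ _ _ M φ h hM => ?_⟩
  obtain ⟨t, a1, a2⟩ := ext_unit h
  refine ⟨_, a1.mono (by linarith), fun x => vn_smul_mem M _ (add_mem
    (vn_smul_mem M _ (one_mem M)) (vn_smul_mem M _ (hM _))), ?_, fun a ha => ?_⟩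
  · refine (norm_sub_le_norm_sub_add_norm_sub _ _ _).trans
      ((add_le_add (a2 1 norm_one.le) (?_ : _ ≤ 4 * (γ / 336))).trans (by linarith))
    rw [Unitization.fst_one, Unitization.snd_one, one_smul, smul_zero, add_sub_cancel_left]
    exact smul_le_unit four_unit h.norm_zero_le
  · refine (norm_sub_le_norm_sub_add_norm_sub _ _ _).trans
      ((add_le_add (a2 a (by rwa [Unitization.norm_inr])) (?_ : _ ≤ 4 * (γ / 336))).trans
        (by linarith))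
    rw [Unitization.fst_inr, Unitization.snd_inr, zero_smul, zero_add]
    exact up_unit h ha

end Ulam
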