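import Pool.Agent.P.MP_3be8c7_an.OZB
import Pool.Agent.P.MP_3be8c7_an.KP

open scoped ComplexOrder InnerProductSpace
open Filter Topology

noncomputable section

namespace Ulam

universe u v w

section

variable {I Λ R : Type*} [Fintype I] [DecidableEq Λ] [CStarAlgebra R]

/-- The normalised indicator function of the blocks. -/
def wt_wnrs (τ : I → Λ) (k l : I) : ℝ :=
  if τ l = τ k then (√((Finset.univ.filter fun j => τ j = τ k).card : ℝ))⁻¹ else 0

/-- The normalised transition elements. -/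
def tr_wnrs (τ : I → Λ) (v : I → R) (k l : I) : R := (wt_wnrs τ k l : ℂ) • (v l * star (v k))

theorem star_tr_wnrs (τ : I → Λ) (v : I → R) (k l : I) :
    star (tr_wnrs τ v k l) = tr_wnrs τ v l k := by
  have h : wt_wnrs τ k l = wt_wnrs τ l k := by
    unfold wt_wnrs
    by_cases e : τ l = τ k
    · rw [if_pos e, if_pos e.symm, e]
    · rw [if_neg e, if_neg (Ne.symm e)]
  simp [tr_wnrs, h]

theorem sum_tr_wnrs {τ : I → Λ} {v : I → R} (h : IsOZ τ v) {k k' : I} (e : τ k = τ k') :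
    ∑ l, star (tr_wnrs τ v k l) * tr_wnrs τ v k' l =
      v k * (star (v k) * v k) * star (v k') := by
  set n : ℕ := (Finset.univ.filter fun j => τ j = τ k).card with hn
  have n0 : (0 : ℝ) < n := by
    exact_mod_cast Finset.card_pos.2 ⟨k, by simp⟩
  have h1 : ∀ l, star (tr_wnrs τ v k l) * tr_wnrs τ v k' l = if τ l = τ k then
      (((n : ℝ)⁻¹ : ℝ) : ℂ) • (v k * (star (v k) * v k) * star (v k')) else 0 := by
    intro l
    rw [star_tr_wnrs]
    unfold tr_wnrs wt_wnrs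
    by_cases e' : τ l = τ k
    · rw [if_pos e'.symm, if_pos (e'.trans e), if_pos e', smul_mul_smul_comm, e', ← e, ← hn,
        ← Complex.ofReal_mul, ← mul_inv, Real.mul_self_sqrt n0.le, ← h.same l k e']
      simp only [mul_assoc]
    · rw [if_neg (Ne.symm e'), if_neg e']
      simp
  simp_rw [h1]
  rw [← Finset.sum_filter, Finset.sum_const, ← hn, ← Nat.cast_smul_eq_nsmul ℂ, smul_smul]
  have h2 : (n : ℂ) * (((n : ℝ)⁻¹ : ℝ) : ℂ) = 1 := by
    exact_mod_cast mul_inv_cancel₀ n0.ne'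
  rw [h2, one_smul]

variable [DecidableEq I] {κ : Type*} [Fintype κ] [DecidableEq κ]

theorem tmap_wnrs {τ : I → Λ} {v : I → R} (h : IsOZ τ v) (c : κ → R) {x : Matrix I I ℂ}
    (hx : Blk τ x) :
    tmap (fun p : I × (I × κ) => tr_wnrs τ v p.1 p.2.1 * c p.2.2)
        (Matrix.of fun p q => if p.2 = q.2 then x p.1 q.1 else 0) =
      ∑ i, star (c i) * hpsi v x * c i := by
  have h1 : ∀ k k', x k k' • (v k * (star (v k) * v k) * star (v k')) =
      ∑ l, x k k' • (star (tr_wnrs τ v k l) * tr_wnrs τ v k' l) := by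
    intro k k'
    by_cases e : τ k = τ k'
    · rw [← Finset.smul_sum, sum_tr_wnrs h e]
    · simp [hx k k' e]
  have h2 : ∀ p : I × (I × κ), ∑ q : I × (I × κ), (if p.2 = q.2 then x p.1 q.1 else 0) •
      (star (tr_wnrs τ v p.1 p.2.1 * c p.2.2) * (tr_wnrs τ v q.1 q.2.1 * c q.2.2)) =
      ∑ k', star (c p.2.2) * (x p.1 k' • (star (tr_wnrs τ v p.1 p.2.1) *
        tr_wnrs τ v k' p.2.1)) * c p.2.2 := by
    intro p
    rw [Fintype.sum_prod_type]
    refine Finset.sum_congr rfl fun k' _ => ?_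
    simp only [ite_smul, zero_smul, Finset.sum_ite_eq, Finset.mem_univ, if_true, star_mul,
      mul_smul_comm, smul_mul_assoc, mul_assoc]
  rw [h.hpsi_eq]
  simp only [tmap, Matrix.of_apply, h2, h1, Fintype.sum_prod_type, Finset.mul_sum,
    Finset.sum_mul]
  conv_rhs => rw [Finset.sum_comm]
  refine Finset.sum_congr rfl fun k _ => ?_
  rw [Finset.sum_comm]
  exact Finset.sum_congr rfl fun i _ => Finset.sum_comm

end

variable {D : Type u} [CStarAlgebra D] [PartialOrder D] [StarOrderedRing D]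

theorem wnr_of_str (h : STR D) : WNR D := by
  classical
  intro ρ U hU η hη
  obtain ⟨s, hs⟩ := h ρ U hU η hη
  have h1 : ‖hpsi s.v 1‖ ≤ 1 := s.oz.norm_hpsi_le (contr_of_unitary (by simp))
  refine ⟨s.I × (s.I × s.κ), inferInstance, inferInstance, ampl s.θ Prod.fst Prod.snd,
    fun p => tr_wnrs s.τ s.v p.1 p.2.1 * s.c p.2.2, s.ccp.ampl _ _ fun p q e => e, ?_, ?_,
    fun u hu => ?_⟩
  · have hb : Blk s.τ (1 : Matrix s.I s.I ℂ) := fun j k e =>
      Matrix.one_apply_ne fun e' => e (e' ▸ rfl)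
    have e : (1 : Matrix (s.I × (s.I × s.κ)) (s.I × (s.I × s.κ)) ℂ) =
        Matrix.of fun p q => if p.2 = q.2 then (1 : Matrix s.I s.I ℂ) p.1 q.1 else 0 := by
      ext p q
      simp only [Matrix.one_apply, Matrix.of_apply, Prod.ext_iff (x := p) (y := q)]
      by_cases e1 : p.1 = q.1 <;> by_cases e2 : p.2 = q.2 <;> simp [e1, e2]
    have h2 : √‖∑ i, star (s.c i) * s.c i‖ ≤ 1 := Real.sqrt_le_one.2 s.col
    rw [← tmap_one, e, tmap_wnrs s.oz s.c hb]
    exact (norm_sum_sandwich_le _ _ _).trans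
      (mul_le_one₀ (mul_le_one₀ h1 (Real.sqrt_nonneg _) h2) (Real.sqrt_nonneg _) h2)
  · have e1 : ∑ p : s.I × (s.I × s.κ), tr_wnrs s.τ s.v p.1 p.2.1 * s.c p.2.2 *
        star (tr_wnrs s.τ s.v p.1 p.2.1 * s.c p.2.2) =
        ∑ p : s.I × s.I, star (tr_wnrs s.τ s.v p.2 p.1) * (∑ i, s.c i * star (s.c i)) *
          tr_wnrs s.τ s.v p.2 p.1 := by
      simp only [Fintype.sum_prod_type, star_mul, star_tr_wnrs, Finset.mul_sum, Finset.sum_mul,
        mul_assoc]
    have e2 : ∑ p : s.I × s.I, star (tr_wnrs s.τ s.v p.2 p.1) * tr_wnrs s.τ s.v p.2 p.1 =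
        hpsi s.v 1 := by
      rw [Fintype.sum_prod_type_right, s.oz.hpsi_eq]
      refine Finset.sum_congr rfl fun k _ => ?_
      rw [sum_tr_wnrs s.oz rfl]
      simp [Matrix.one_apply]
    have h2 : √‖hpsi s.v 1‖ ≤ 1 := Real.sqrt_le_one.2 h1
    rw [e1]
    refine (norm_sum_sandwich_le _ _ _).trans ?_
    rw [e2]
    exact (mul_le_of_le_one_right (by positivity) h2).trans
      ((mul_le_of_le_one_right (norm_nonneg _) h2).trans s.row)
  · have e : tmap (fun p : s.I × (s.I × s.κ) => tr_wnrs s.τ s.v p.1 p.2.1 * s.c p.2.2)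
        (ampl s.θ Prod.fst Prod.snd u) = s.ev u := tmap_wnrs s.oz s.c (s.blk u)
    rw [e]
    exact hs u hu

end Ulam
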