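import Pool.Agent.P.MP_3be8c7_an.STRN
import Pool.Agent.P.MP_3be8c7_an.LIN
import Pool.Agent.P.MP_3be8c7_an.WNRS
import Pool.Agent.P.MP_3be8c7_an.FINAL
import Pool.Agent.P.MP_3be8c7_an.UNIT
import Pool.Agent.P.MP_3be8c7_an.NUC2

open scoped ComplexOrder InnerProductSpace
open Filter Topology

noncomputable section

namespace Ulam

universe u v w

theorem main_unital {γ : ℝ} (hγ : 0 < γ) : ∃ ε : ℝ, 0 < ε ∧
    ∀ (D : Type u) [CStarAlgebra D] [PartialOrder D] [StarOrderedRing D], Nuc D →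
    ∀ (H : Type v) [NormedAddCommGroup H] [InnerProductSpace ℂ H] [CompleteSpace H]
      (M : VonNeumannAlgebra H) (φ : D → (H →L[ℂ] H)), EpsHom φ ε → (∀ a, φ a ∈ M) →
      ‖φ 1 - 1‖ ≤ ε →
    ∃ ψ : D →⋆ₐ[ℂ] (H →L[ℂ] H), (∀ a, ψ a ∈ M) ∧ ∀ a, ‖a‖ ≤ 1 → ‖φ a - ψ a‖ ≤ γ := by
  obtain ⟨δ, hδ, hfin⟩ := final.{u, v} (γ := γ / 2) (by positivity)
  set g : ℝ := min (min (δ / 5) (γ / 2)) 1 with hg
  have hg0 : 0 < g := by positivity
  have hg1 : g ≤ δ / 5 := (min_le_left _ _).trans (min_le_left _ _)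
  have hg2 : g ≤ γ / 2 := (min_le_left _ _).trans (min_le_right _ _)
  have hg3 : g ≤ 1 := min_le_right _ _
  obtain ⟨ε, hε, hlin⟩ := lin.{u, v} hg0
  refine ⟨min ε g, by positivity, fun D _ _ _ hD H _ _ _ M φ hφ hM h1 => ?_⟩
  have hS := str_of_nuc hD
  obtain ⟨L, hL, hLM, hLφ⟩ := hlin D hD hS H M φ (hφ.mono (min_le_left _ _)) hM
  have hφ' := hφ.mono (min_le_right ε g)
  have h1' : ‖φ 1 - 1‖ ≤ g := h1.trans (min_le_right _ _)
  have hone : ‖(1 : D)‖ ≤ 1 := by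
    rcases subsingleton_or_nontrivial D with h | h
    · simp [Subsingleton.elim (1 : D) 0]
    · simp
  obtain ⟨ψ, hψM, hψ⟩ := hfin D (wnr_of_str hS) H M L hL hLM
    (by
      calc ‖L 1 - 1‖ = ‖(L 1 - φ 1) + (φ 1 - 1)‖ := by congr 1; abel
        _ ≤ g + g := (norm_add_le _ _).trans (add_le_add (hLφ 1 hone) h1')
        _ ≤ δ := by linarith)
    (fun a b ha hb => by
      have hab : ‖a * b‖ ≤ 1 := (norm_mul_le _ _).trans (mul_le_one₀ ha (norm_nonneg _) hb)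
      have e1 := hLφ _ hab
      have e2 := hφ'.mul a b ha hb
      have e3 := hLφ a ha
      have e4 := hLφ b hb
      have n1 := hφ.ball a ha
      have n2 : ‖L b‖ ≤ 2 := by
        calc ‖L b‖ = ‖(L b - φ b) + φ b‖ := by congr 1; abel
          _ ≤ g + 1 := (norm_add_le _ _).trans (add_le_add e4 (hφ.ball b hb))
          _ ≤ 2 := by linarith
      have e5 : ‖φ a * (φ b - L b)‖ ≤ g := by
        refine (norm_mul_le _ _).trans ?_
        rw [norm_sub_rev]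
        calc _ ≤ 1 * g := mul_le_mul n1 e4 (norm_nonneg _) zero_le_one
          _ = g := one_mul g
      have e6 : ‖(φ a - L a) * L b‖ ≤ g * 2 := by
        refine (norm_mul_le _ _).trans ?_
        rw [norm_sub_rev]
        exact mul_le_mul e3 n2 (norm_nonneg _) hg0.le
      calc ‖L (a * b) - L a * L b‖ = ‖(L (a * b) - φ (a * b)) + (φ (a * b) - φ a * φ b) +
            φ a * (φ b - L b) + (φ a - L a) * L b‖ := by congr 1; noncomm_ring
        _ ≤ g + g + g + g * 2 := (norm_add_le _ _).trans (add_le_add ((norm_add_le _ _).trans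
            (add_le_add ((norm_add_le _ _).trans (add_le_add e1 e2)) e5)) e6)
        _ ≤ δ := by linarith)
  refine ⟨ψ, hψM, fun a ha => ?_⟩
  calc ‖φ a - ψ a‖ = ‖(L a - ψ a) - (L a - φ a)‖ := by congr 1; abel
    _ ≤ γ / 2 + g := (norm_sub_le _ _).trans (add_le_add (hψ a ha) (hLφ a ha))
    _ ≤ γ := by linarith

/-- The property that every `ε`-star-homomorphism is `γ`-close to a star-homomorphism. -/
def Near (γ ε : ℝ) : Prop :=
  ∀ (A : Type u) [NonUnitalCStarAlgebra A], Nuc0 A →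
    ∀ (H : Type v) [NormedAddCommGroup H] [InnerProductSpace ℂ H] [CompleteSpace H]
      (M : VonNeumannAlgebra H) (φ : A → (H →L[ℂ] H)), (∀ a, φ a ∈ M) → EpsHom φ ε →
    ∃ ψ : A →⋆ₙₐ[ℂ] (H →L[ℂ] H), (∀ a, ψ a ∈ M) ∧ ∀ a, ‖a‖ ≤ 1 → ‖φ a - ψ a‖ ≤ γ

theorem Near.mono {γ γ' ε ε' : ℝ} (h : Near.{u, v} γ ε) (hγ : γ ≤ γ') (hε : ε' ≤ ε) :
    Near.{u, v} γ' ε' := fun A _ hA H _ _ _ M φ hM hφ => by
  obtain ⟨ψ, h1, h2⟩ := h A hA H M φ hM (hφ.mono hε)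
  exact ⟨ψ, h1, fun a ha => (h2 a ha).trans hγ⟩

theorem near_one' (ε : ℝ) : Near.{u, v} 1 ε := fun A _ _ H _ _ _ M φ _ hφ =>
  ⟨0, fun _ => zero_mem M, fun a ha => by simpa using hφ.ball a ha⟩

theorem near_zero : Near.{u, v} 0 0 := fun A _ _ H _ _ _ M φ hM hφ => by
  obtain ⟨ψ, h1, h2⟩ := zero_case hφ (M : Set (H →L[ℂ] H)) (fun c x hx => vn_smul_mem M c hx) hM
  exact ⟨ψ, h1, fun a ha => by simp [h2 a ha]⟩

theorem near_small {γ : ℝ} (hγ : 0 < γ) : ∃ ε : ℝ, 0 < ε ∧ Near.{u, v} γ ε := by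
  obtain ⟨ε₁, hε₁, h₁⟩ := main_unital.{u, v} (γ := γ / 2) (by positivity)
  obtain ⟨ε, hε, h₂⟩ := unit_ext.{u, v} (γ := min ε₁ (γ / 2)) (by positivity)
  refine ⟨ε, hε, fun A _ hA H _ _ _ M φ hM hφ => ?_⟩
  obtain ⟨φ', hφ', hM', h1, hc⟩ := h₂ A H M φ hφ hM
  letI := CStarAlgebra.spectralOrder (Unitization ℂ A)
  haveI := CStarAlgebra.spectralOrderedRing (Unitization ℂ A)
  obtain ⟨ψ, hψM, hψ⟩ := h₁ (Unitization ℂ A) (nuc_unitization hA) H M φ'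
    (hφ'.mono (min_le_left _ _)) hM' (h1.trans (min_le_left _ _))
  refine ⟨(ψ : Unitization ℂ A →⋆ₙₐ[ℂ] (H →L[ℂ] H)).comp (Unitization.inrNonUnitalStarAlgHom ℂ A),
    fun a => hψM _, fun a ha => ?_⟩
  have e1 := hψ (a : Unitization ℂ A) (by rwa [Unitization.norm_inr])
  have e2 := (hc a ha).trans (min_le_right _ _)
  change ‖φ a - ψ (a : Unitization ℂ A)‖ ≤ γ
  calc ‖φ a - ψ (a : Unitization ℂ A)‖
      = ‖(φ' (a : Unitization ℂ A) - ψ (a : Unitization ℂ A)) - (φ' (a : Unitization ℂ A) - φ a)‖ := by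
        congr 1; abel
    _ ≤ γ / 2 + γ / 2 := (norm_sub_le _ _).trans (add_le_add e1 e2)
    _ = γ := by ring

theorem exists_modulus : ∃ f : ℝ → ℝ, Tendsto f (𝓝[≥] 0) (𝓝 0) ∧
    ∀ ε, 0 ≤ ε → Near.{u, v} (f ε) ε := by
  let S : ℝ → Set ℝ := fun ε => {γ | 0 ≤ γ ∧ Near.{u, v} γ ε}
  have hne : ∀ ε, (S ε).Nonempty := fun ε => ⟨1, zero_le_one, near_one' ε⟩
  have hbd : ∀ ε, BddBelow (S ε) := fun ε => ⟨0, fun _ h => h.1⟩
  have h0 : ∀ ε, 0 ≤ sInf (S ε) := fun ε => le_csInf (hne ε) fun _ h => h.1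
  refine ⟨fun ε => sInf (S ε) + ε, ?_, fun ε hε => ?_⟩
  · rw [Metric.tendsto_nhdsWithin_nhds]
    intro γ hγ
    obtain ⟨ε₀, hε₀, h⟩ := near_small.{u, v} (γ := γ / 2) (by positivity)
    refine ⟨min ε₀ (γ / 2), by positivity, fun ε hε hd => ?_⟩
    have hε' : 0 ≤ ε := hε
    rw [Real.dist_eq, sub_zero, abs_of_nonneg hε'] at hd
    have h1 : sInf (S ε) ≤ γ / 2 :=
      csInf_le (hbd ε) ⟨by positivity, h.mono le_rfl (hd.le.trans (min_le_left _ _))⟩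
    have h2 : ε < γ / 2 := hd.trans_le (min_le_right _ _)
    rw [Real.dist_eq, sub_zero, abs_of_nonneg (add_nonneg (h0 ε) hε')]
    linarith
  · rcases hε.eq_or_lt with rfl | hε
    · exact near_zero.mono (by simpa using h0 0) le_rfl
    · obtain ⟨γ, hγ, hlt⟩ := exists_lt_of_csInf_lt (hne ε) (lt_add_of_pos_right _ hε)
      exact hγ.2.mono hlt.le le_rfl

theorem stable_of_nuclear : ∃ f : ℝ → ℝ, Tendsto f (𝓝[≥] 0) (𝓝 0) ∧
    ∀ (A : Type u) [NonUnitalCStarAlgebra A] [PartialOrder A] [StarOrderedRing A], IsNuclear A →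
    ∀ (D : NonUnitalStarSubalgebra ℂ A) [IsClosed (D : Set A)], IsHereditary D →
      StableWith.{u, v} f D := by
  obtain ⟨f, hf, h⟩ := exists_modulus.{u, v}
  exact ⟨f, hf, fun A _ _ _ hA D _ hD H _ _ _ M ε hε φ hM hφ =>
    h ε hε D (nuc0_of_nuclear hA D hD) H M φ hM hφ⟩

end Ulam
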