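import Pool.Agent.P.MP_3be8c7_an.LYAP

open scoped ComplexOrder InnerProductSpace
open Filter Topology

noncomputable section

namespace Ulam

universe u v w

section

open Matrix

variable {I : Type*} [Fintype I] [DecidableEq I]

omit [DecidableEq I] in
theorem tr_mps {P : Matrix I I ℂ} (hP : P.PosSemidef) : 0 ≤ P.trace.re :=
  (Complex.nonneg_iff.1 hP.trace_nonneg).1

theorem tr_mul_mps {P Q : Matrix I I ℂ} (hP : P.PosSemidef) (hQ : Q.PosSemidef) :
    0 ≤ (P * Q).trace.re := by
  obtain ⟨B, rfl⟩ := psd_tm hQ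
  rw [← mul_assoc, trace_mul_comm, ← mul_assoc]
  exact tr_mps (hP.mul_mul_conjTranspose_same B)

omit [DecidableEq I] in
theorem frob_mps (M : Matrix I I ℂ) : ∑ j, ∑ k, ‖M j k‖ ^ 2 = (star M * M).trace.re := by
  have e : ∀ j k, (star (M j k) * M j k).re = ‖M j k‖ ^ 2 := fun j k => by
    rw [Complex.star_def, Complex.conj_mul']
    norm_cast
  rw [Finset.sum_comm]
  simp only [trace, diag_apply, mul_apply, star_apply, Complex.re_sum, e]

theorem tr_le_mps {X P : Matrix I I ℂ} (hX : X.IsHermitian) (hc : Contr X) (hP : P.PosSemidef) :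
    (X * P).trace.re ≤ P.trace.re := by
  have hs : star X = X := hX
  have h1 := tr_mul_mps hc hP
  have h2 := tr_mul_mps (posSemidef_conjTranspose_mul_self (1 - X)) hP
  have e : (1 - star X * X) * P + (1 - X)ᴴ * (1 - X) * P = (P - X * P) + (P - X * P) := by
    rw [← star_eq_conjTranspose, star_sub, star_one, hs]
    noncomm_ring
  have h3 := congrArg (fun M : Matrix I I ℂ => M.trace.re) e
  simp only [trace_add, trace_sub, Complex.add_re, Complex.sub_re] at h3
  linarith

theorem core_mps {A x : Matrix I I ℂ} (hA : A.PosSemidef) (hx : Contr x) {δ : ℝ}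
    (h : ∀ X : Matrix I I ℂ, X.IsHermitian → Contr X →
      (X * (A * A - x * (A * A) * star x)).trace.re ≤ δ) :
    ∑ j, ∑ k, ‖(A * x - x * A) j k‖ ^ 2 ≤ 6 * δ := by
  have sA : star A = A := hA.1
  have hC : (1 - star x * x).PosSemidef := hx
  have hC' : (1 - x * star x).PosSemidef := by
    have h' : (1 - star (star x) * star x).PosSemidef := hx.star
    rwa [star_star] at h'
  set C := 1 - star x * x with hCd
  have sC : star C = C := hC.1
  have hA1 : (x * A * star x).PosSemidef := hA.mul_mul_conjTranspose_same x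
  set B := x * A * star x with hB
  have sB : star B = B := hA1.1
  have hQ : (A * C * A).PosSemidef := by
    have h' : (star A * C * A).PosSemidef := hC.conjTranspose_mul_mul_same A
    rwa [sA] at h'
  have hP : (x * (A * C * A) * star x).PosSemidef := hQ.mul_mul_conjTranspose_same x
  have q1 : (A * C * A).trace.re ≤ δ := by
    have h1 := h 1 isHermitian_one (contr_of_unitary (by simp))
    have e1 : A * C * A = A * A - (A * star x) * (x * A) := by
      rw [hCd]
      noncomm_ring
    have e2 : x * (A * A) * star x = (x * A) * (A * star x) := by noncomm_ring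
    rw [one_mul, trace_sub, e2, trace_mul_comm (x * A)] at h1
    rwa [e1, trace_sub]
  have q2 : (x * (A * C * A) * star x).trace.re ≤ δ := by
    have h1 := tr_mul_mps hC hQ
    have e1 : star x * (x * (A * C * A)) = A * C * A - C * (A * C * A) := by
      conv_rhs => rw [← one_sub_mul, hCd, sub_sub_cancel, ← hCd]
      noncomm_ring
    rw [trace_mul_comm, e1, trace_sub, Complex.sub_re]
    linarith
  have q3 : ((A - B) * (A - B)).trace.re ≤ 2 * δ := by
    obtain ⟨X, x1, x2, x3, -⟩ := lyap hA hA1
    have e1 : X * (A * A - B * B) =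
        X * (A * A - x * (A * A) * star x) + X * (x * (A * C * A) * star x) := by
      rw [hB, hCd]
      noncomm_ring
    rw [← x3, e1, trace_add, Complex.add_re]
    linarith [h X x1 x2, tr_le_mps x1 x2 hP]
  have q4 : ∑ j, ∑ k, ‖((A - B) * x) j k‖ ^ 2 ≤ 2 * δ := by
    have h0 : (star (A - B) * (A - B)).PosSemidef := posSemidef_conjTranspose_mul_self _
    rw [star_sub, sA, sB] at h0
    have h1 := tr_mul_mps h0 hC'
    have e1 : (A - B) * ((A - B) * x) * star x =
        (A - B) * (A - B) - (A - B) * (A - B) * (1 - x * star x) := by noncomm_ring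
    rw [frob_mps, star_mul, star_sub, sA, sB, mul_assoc, trace_mul_comm, e1, trace_sub,
      Complex.sub_re]
    linarith
  have q5 : ∑ j, ∑ k, ‖(x * A * C) j k‖ ^ 2 ≤ δ := by
    have h0 : (star (A * C) * C * (A * C)).PosSemidef := hC.conjTranspose_mul_mul_same _
    have h1 : (star (C * A) * (star x * x) * (C * A)).PosSemidef :=
      (posSemidef_conjTranspose_mul_self x).conjTranspose_mul_mul_same _
    have h2 : (star (star x * x * A) * C * (star x * x * A)).PosSemidef :=
      hC.conjTranspose_mul_mul_same _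
    have e1 : star (x * A * C) * (x * A * C) =
        (C * A) * (A * C) - star (A * C) * C * (A * C) := by
      simp only [star_mul, sA, sC]
      have e : star x * x = 1 - C := by rw [hCd, sub_sub_cancel]
      calc C * (A * star x) * (x * A * C) = C * A * (star x * x) * A * C := by noncomm_ring
        _ = _ := by
          rw [e]
          noncomm_ring
    have e2 : (A * C) * (C * A) = A * C * A - star (C * A) * (star x * x) * (C * A) -
        star (star x * x * A) * C * (star x * x * A) := by
      have e : star x * x = 1 - C := by rw [hCd, sub_sub_cancel]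
      rw [e]
      simp only [star_mul, star_sub, star_one, sA, sC]
      noncomm_ring
    rw [frob_mps, e1, trace_sub, trace_mul_comm (C * A), e2, trace_sub, trace_sub, Complex.sub_re,
      Complex.sub_re, Complex.sub_re]
    linarith [tr_mps h0, tr_mps h1, tr_mps h2]
  have e : A * x - x * A = (A - B) * x - x * A * C := by
    rw [hB, hCd]
    noncomm_ring
  calc ∑ j, ∑ k, ‖(A * x - x * A) j k‖ ^ 2
      ≤ ∑ j, ∑ k, (2 * ‖((A - B) * x) j k‖ ^ 2 + 2 * ‖(x * A * C) j k‖ ^ 2) := by
        refine Finset.sum_le_sum fun j _ => Finset.sum_le_sum fun k _ => ?_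
        rw [e, Matrix.sub_apply]
        have h1 := norm_sub_le (((A - B) * x) j k) ((x * A * C) j k)
        have h2 := pow_le_pow_left₀ (norm_nonneg _) h1 2
        nlinarith [sq_nonneg (‖((A - B) * x) j k‖ - ‖(x * A * C) j k‖)]
    _ = 2 * ∑ j, ∑ k, ‖((A - B) * x) j k‖ ^ 2 + 2 * ∑ j, ∑ k, ‖(x * A * C) j k‖ ^ 2 := by
        simp only [Finset.sum_add_distrib, Finset.mul_sum]
    _ ≤ 6 * δ := by linarith

end

theorem mps {I : Type*} [Fintype I] [DecidableEq I] (η : I → ℝ) (hη : ∀ k, 0 ≤ η k)
    {x : Matrix I I ℂ} (hx : Contr x) {δ : ℝ}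
    (h : ∀ X : Matrix I I ℂ, X.IsHermitian → Contr X →
      (X * (Matrix.diagonal (fun k => (η k : ℂ)) -
        x * Matrix.diagonal (fun k => (η k : ℂ)) * star x)).trace.re ≤ δ) :
    ∑ j, ∑ k, ‖x j k‖ ^ 2 * (√(η j) - √(η k)) ^ 2 ≤ 6 * δ := by
  have hA : (Matrix.diagonal fun k => ((√(η k) : ℝ) : ℂ)).PosSemidef :=
    Matrix.PosSemidef.diagonal fun k => Complex.zero_le_real.2 (Real.sqrt_nonneg _)
  have e : (Matrix.diagonal fun k => ((√(η k) : ℝ) : ℂ)) *
      (Matrix.diagonal fun k => ((√(η k) : ℝ) : ℂ)) = Matrix.diagonal fun k => (η k : ℂ) := by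
    rw [Matrix.diagonal_mul_diagonal]
    congr 1
    funext k
    rw [← Complex.ofReal_mul, Real.mul_self_sqrt (hη k)]
  refine le_trans (le_of_eq ?_) (core_mps hA hx (by rwa [e]))
  refine Finset.sum_congr rfl fun j _ => Finset.sum_congr rfl fun k _ => ?_
  rw [Matrix.sub_apply, Matrix.diagonal_mul, Matrix.mul_diagonal, mul_comm _ (x j k), ← mul_sub,
    norm_mul, mul_pow, ← Complex.ofReal_sub, Complex.norm_real, Real.norm_eq_abs, sq_abs]

end Ulam
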