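import Pool.Agent.P.MP_3be8c7_an.KP

open scoped ComplexOrder InnerProductSpace
open Filter Topology

noncomputable section

namespace Ulam

universe u v w

open scoped CStarAlgebra

variable {A : Type u} [NonUnitalCStarAlgebra A] [PartialOrder A] [StarOrderedRing A]

theorem IsHereditary.mul_mul_mem {D : NonUnitalStarSubalgebra ℂ A} (hD : IsHereditary D) {e : A}
    (he : e ∈ D) (h0 : 0 ≤ e) (y : A) : e * y * e ∈ D := by
  have hy : y ∈ Submodule.span ℂ {a : A | 0 ≤ a} := by
    rw [CStarAlgebra.span_nonneg]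
    trivial
  have hs : star e = e := (IsSelfAdjoint.of_nonneg h0).star_eq
  induction hy using Submodule.span_induction with
  | mem y hy =>
    have hy' : 0 ≤ y := hy
    have h1 := CStarAlgebra.star_left_conjugate_le_norm_smul (a := e) (IsSelfAdjoint.of_nonneg hy')
    rw [hs] at h1
    refine hD _ _ (conjugate_nonneg_of_nonneg hy' h0) h1 ?_
    rw [← Complex.coe_smul]
    exact SMulMemClass.smul_mem _ (mul_mem he he)
  | zero => simp
  | add y z _ _ hy hz =>
    rw [mul_add, add_mul]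
    exact add_mem hy hz
  | smul c y _ hy =>
    rw [mul_smul_comm, smul_mul_assoc]
    exact SMulMemClass.smul_mem _ hy

/-- The matrix units. -/
def unit_nucb {n : ℕ} (j k : Fin n) : CStarMatrix (Fin n) (Fin n) ℂ :=
  CStarMatrix.ofMatrix (Matrix.single j k 1)

theorem unit_mul_nucb {n : ℕ} (i j k : Fin n) :
    star (unit_nucb i j) * unit_nucb i k = unit_nucb j k := by
  have h : (Matrix.single i j (1 : ℂ)).conjTranspose * Matrix.single i k (1 : ℂ) =
      Matrix.single j k (1 : ℂ) := by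
    rw [Matrix.conjTranspose_single, Matrix.single_mul_single_same]
    simp
  exact h

theorem sum_unit_nucb {n : ℕ} (x : CStarMatrix (Fin n) (Fin n) ℂ) :
    x = ∑ j, ∑ k, x j k • unit_nucb j k := by
  have h : CStarMatrix.ofMatrix.symm x =
      ∑ j, ∑ k, x j k • Matrix.single j k (1 : ℂ) := by
    conv_lhs => rw [Matrix.matrix_eq_sum_single (CStarMatrix.ofMatrix.symm x)]
    simp only [Matrix.smul_single, smul_eq_mul, mul_one]
    rfl
  exact h

theorem choi_nonneg_nucb {n : ℕ} :
    (0 : CStarMatrix (Fin n) (Fin n) (CStarMatrix (Fin n) (Fin n) ℂ)) ≤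
      CStarMatrix.ofMatrix (Matrix.of fun j k => unit_nucb j k) := by
  rcases isEmpty_or_nonempty (Fin n) with h | ⟨⟨i₀⟩⟩
  · exact le_of_eq (CStarMatrix.ext fun i => h.elim i)
  · let R : CStarMatrix (Fin n) (Fin n) (CStarMatrix (Fin n) (Fin n) ℂ) :=
      CStarMatrix.ofMatrix (Matrix.of fun i k => if i = i₀ then unit_nucb i₀ k else 0)
    have h : star R * R = CStarMatrix.ofMatrix (Matrix.of fun j k => unit_nucb j k) := by
      refine CStarMatrix.ext fun j k => ?_
      rw [CStarMatrix.mul_apply, Finset.sum_eq_single i₀]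
      · rw [CStarMatrix.star_apply]
        change star (if i₀ = i₀ then unit_nucb i₀ j else 0) *
          (if i₀ = i₀ then unit_nucb i₀ k else 0) = unit_nucb j k
        rw [if_pos rfl, if_pos rfl, unit_mul_nucb]
      · intro i _ hi
        change _ * (if i = i₀ then unit_nucb i₀ k else 0) = 0
        rw [if_neg hi, mul_zero]
      · intro hi
        exact absurd (Finset.mem_univ _) hi
    rw [← h]
    exact star_mul_self_nonneg R

/-- The matrices with entries in a subalgebra. -/
def matSub_nucb (n : ℕ) (D : NonUnitalStarSubalgebra ℂ A) :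
    NonUnitalStarSubalgebra ℂ (CStarMatrix (Fin n) (Fin n) A) where
  carrier := {M | ∀ i j, M i j ∈ D}
  add_mem' := fun ha hb i j => add_mem (ha i j) (hb i j)
  zero_mem' := fun _ _ => zero_mem D
  mul_mem' := fun {a b} ha hb i j => by
    rw [CStarMatrix.mul_apply]
    exact sum_mem fun l _ => mul_mem (ha i l) (hb l j)
  smul_mem' := fun c _ ha i j => SMulMemClass.smul_mem c (ha i j)
  star_mem' := fun ha i j => star_mem (ha j i)

omit [PartialOrder A] [StarOrderedRing A] in
theorem isClosed_matSub_nucb (n : ℕ) {D : NonUnitalStarSubalgebra ℂ A}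
    (hc : IsClosed (D : Set A)) :
    IsClosed (matSub_nucb n D : Set (CStarMatrix (Fin n) (Fin n) A)) := by
  have h : (matSub_nucb n D : Set (CStarMatrix (Fin n) (Fin n) A)) =
      ⋂ i, ⋂ j, (fun M : CStarMatrix (Fin n) (Fin n) A => M i j) ⁻¹' (D : Set A) := by
    ext M
    simp only [Set.mem_iInter, Set.mem_preimage]
    rfl
  rw [h]
  refine isClosed_iInter fun i => isClosed_iInter fun j => hc.preimage ?_
  exact continuous_apply_apply (ρ := fun _ _ => A) i j

theorem exists_root_nucb {B : Type*} [NonUnitalCStarAlgebra B] [PartialOrder B]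
    [StarOrderedRing B] {E : NonUnitalStarSubalgebra ℂ B} (hc : IsClosed (E : Set B)) {b : B}
    (hb : 0 ≤ b) (hm : b ∈ E) : ∃ z ∈ E, star z * z = b := by
  refine ⟨CFC.sqrt b, ?_, ?_⟩
  · rw [CFC.sqrt_eq_real_sqrt b hb]
    exact cfcₙ_mem (𝕜' := ℂ) Real.sqrt hm
  · rw [(IsSelfAdjoint.of_nonneg (CFC.sqrt_nonneg b)).star_eq, CFC.sqrt_mul_sqrt_self b hb]

theorem nuc_choi {n : ℕ} (S : CStarMatrix (Fin n) (Fin n) ℂ →CP A) (hS : ∀ x, ‖S x‖ ≤ ‖x‖)
    {D : NonUnitalStarSubalgebra ℂ A} (hc : IsClosed (D : Set A)) (hD : IsHereditary D) {e : A}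
    (he : e ∈ D) (h0 : 0 ≤ e) (h1 : ‖e‖ ≤ 1) :
    ∃ Z : Fin n → Fin n → A, (∀ l j, Z l j ∈ D) ∧ ‖∑ l, ∑ j, star (Z l j) * Z l j‖ ≤ 1 ∧
      ∀ x : CStarMatrix (Fin n) (Fin n) ℂ,
        e * S x * e = ∑ l, ∑ j, ∑ k, x j k • (star (Z l j) * Z l k) := by
  have hs : star e = e := (IsSelfAdjoint.of_nonneg h0).star_eq
  have hP := S.map_cstarMatrix_nonneg _ (choi_nonneg_nucb (n := n))
  let Dg : CStarMatrix (Fin n) (Fin n) A := CStarMatrix.ofMatrix (Matrix.diagonal fun _ => e)
  let Ch : CStarMatrix (Fin n) (Fin n) A :=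
    CStarMatrix.ofMatrix (Matrix.of fun j k => e * S (unit_nucb j k) * e)
  have hCh : star Dg * (CStarMatrix.ofMatrix (Matrix.of fun j k => unit_nucb j k)).map S * Dg =
      Ch := by
    have h : (Matrix.diagonal fun _ : Fin n => e).conjTranspose *
        (Matrix.of fun j k => S (unit_nucb j k)) * (Matrix.diagonal fun _ : Fin n => e) =
        Matrix.of fun j k => e * S (unit_nucb j k) * e := by
      ext j k
      rw [Matrix.diagonal_conjTranspose, Matrix.mul_diagonal, Matrix.diagonal_mul]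
      simp [hs]
    exact h
  have hCh0 : 0 ≤ Ch := hCh ▸ star_left_conjugate_nonneg hP Dg
  have hmem : Ch ∈ matSub_nucb n D := fun j k => hD.mul_mul_mem he h0 _
  obtain ⟨Z, hZ, hZZ⟩ := exists_root_nucb (isClosed_matSub_nucb n hc) hCh0 hmem
  have hent : ∀ j k, ∑ l, star (Z l j) * Z l k =
      e * S (unit_nucb j k) * e := by
    intro j k
    have h := congrArg (fun M : CStarMatrix (Fin n) (Fin n) A => M j k) hZZ
    simp only [CStarMatrix.mul_apply, CStarMatrix.star_apply] at h
    exact h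
  have hmain : ∀ x : CStarMatrix (Fin n) (Fin n) ℂ, e * S x * e =
      ∑ l, ∑ j, ∑ k, x j k • (star (Z l j) * Z l k) := by
    intro x
    conv_lhs => rw [sum_unit_nucb x]
    conv_rhs => rw [Finset.sum_comm]
    simp only [map_sum, map_smul, Finset.mul_sum, Finset.sum_mul]
    refine Finset.sum_congr rfl fun j _ => ?_
    conv_rhs => rw [Finset.sum_comm]
    refine Finset.sum_congr rfl fun k _ => ?_
    rw [← Finset.smul_sum, hent, mul_smul_comm, smul_mul_assoc]
  refine ⟨fun l j => Z l j, hZ, ?_, hmain⟩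
  have h2 : ∑ l, ∑ j, star (Z l j) * Z l j = e * S 1 * e := by
    rw [hmain 1]
    refine Finset.sum_congr rfl fun l _ => Finset.sum_congr rfl fun j _ => ?_
    rw [Finset.sum_eq_single j]
    · rw [CStarMatrix.one_apply_eq, one_smul]
    · intro k _ hk
      rw [CStarMatrix.one_apply_ne' hk, zero_smul]
    · intro hj
      exact absurd (Finset.mem_univ _) hj
  have h3 : ‖(1 : CStarMatrix (Fin n) (Fin n) ℂ)‖ ≤ 1 := by
    rcases subsingleton_or_nontrivial (CStarMatrix (Fin n) (Fin n) ℂ) with h | h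
    · rw [Subsingleton.elim (1 : CStarMatrix (Fin n) (Fin n) ℂ) 0, norm_zero]
      exact zero_le_one
    · exact (CStarRing.norm_one).le
  rw [h2]
  have h4 : ‖S 1‖ ≤ 1 := (hS 1).trans h3
  calc ‖e * S 1 * e‖ ≤ ‖e‖ * ‖S 1‖ * ‖e‖ :=
        (norm_mul_le _ _).trans (mul_le_mul_of_nonneg_right (norm_mul_le _ _) (norm_nonneg _))
    _ ≤ 1 * 1 * 1 := by gcongr
    _ = 1 := by norm_num

end Ulam
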