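import Pool.Agent.P.MP_3be8c7_an.NUCA
import Pool.Agent.P.MP_3be8c7_an.NUCB

open scoped ComplexOrder InnerProductSpace
open Filter Topology

noncomputable section

namespace Ulam

universe u v w

theorem exists_approx_unit {A : Type u} [NonUnitalCStarAlgebra A] (F : Finset A) {η : ℝ}
    (hη : 0 < η) : ∃ f : A, IsSelfAdjoint f ∧ ‖f‖ ≤ 1 ∧
      ∀ a ∈ F, ‖f * a * f - a‖ ≤ η ∧ ‖(f * f) * a * (f * f) - a‖ ≤ η := by
  let := CStarAlgebra.spectralOrder A
  have := CStarAlgebra.spectralOrderedRing A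
  have hu := CStarAlgebra.increasingApproximateUnit A
  have h4 : 0 < η / 4 := by positivity
  have h1 : ∀ᶠ f in CStarAlgebra.approximateUnit A, ∀ a ∈ F,
      ‖f * a - a‖ ≤ η / 4 ∧ ‖a * f - a‖ ≤ η / 4 := by
    refine (Filter.eventually_all_finset F).2 fun a _ => Filter.Eventually.and ?_ ?_
    · filter_upwards [Metric.tendsto_nhds.1 (hu.tendsto_mul_right a) _ h4] with f hf
      rw [dist_eq_norm] at hf
      exact hf.le
    · filter_upwards [Metric.tendsto_nhds.1 (hu.tendsto_mul_left a) _ h4] with f hf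
      rw [dist_eq_norm] at hf
      exact hf.le
  obtain ⟨f, hf1, hf2, hf3⟩ := (hu.eventually_isSelfAdjoint.and (hu.eventually_norm.and h1)).exists
  have hl : ∀ x : A, ‖f * x‖ ≤ ‖x‖ := fun x =>
    (norm_mul_le _ _).trans (mul_le_of_le_one_left (norm_nonneg _) hf2)
  have hr : ∀ x : A, ‖x * f‖ ≤ ‖x‖ := fun x =>
    (norm_mul_le _ _).trans (mul_le_of_le_one_right (norm_nonneg _) hf2)
  refine ⟨f, hf1, hf2, fun a ha => ?_⟩
  have h2 : ‖f * a * f - a‖ ≤ η / 2 := by
    have e : f * a * f - a = f * (a * f - a) + (f * a - a) := by noncomm_ring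
    rw [e]
    linarith [norm_add_le (f * (a * f - a)) (f * a - a), hl (a * f - a), (hf3 a ha).1,
      (hf3 a ha).2]
  refine ⟨by linarith, ?_⟩
  have e : f * f * a * (f * f) - a = f * (f * a * f - a) * f + (f * a * f - a) := by noncomm_ring
  rw [e]
  linarith [norm_add_le (f * (f * a * f - a) * f) (f * a * f - a), hl (f * a * f - a),
    hr (f * (f * a * f - a))]

theorem nuc0_of_nuclear {A : Type u} [NonUnitalCStarAlgebra A] [PartialOrder A] [StarOrderedRing A]
    (hA : IsNuclear A) (D : NonUnitalStarSubalgebra ℂ A) [IsClosed (D : Set A)]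
    (hD : IsHereditary D) : Nuc0 D := by
  classical
  intro F η hη
  obtain ⟨f, hf1, hf2, hf3⟩ := exists_approx_unit F (half_pos hη)
  obtain ⟨n, θ, S, hθ, hS, hF⟩ := hA (F.image (↑)) (η / 2) (half_pos hη)
  obtain ⟨θ', h1, h2, h3⟩ := nuc_theta θ hθ
  have he0 : (0 : A) ≤ ((f * f : D) : A) := by
    have : ((f * f : D) : A) = star (f : A) * f := by
      change _ = ((star f * f : D) : A)
      rw [hf1.star_eq]
    rw [this]
    exact star_mul_self_nonneg _
  have he1 : ‖((f * f : D) : A)‖ ≤ 1 :=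
    (norm_mul_le f f).trans (mul_le_one₀ hf2 (norm_nonneg _) hf2)
  obtain ⟨Z, hZ, hZ1, hZ2⟩ := nuc_choi S hS ‹_› hD (f * f : D).2 he0 he1
  let ι : D →ₗ[ℂ] A :=
    { toFun := fun a => a, map_add' := fun _ _ => rfl, map_smul' := fun _ _ => rfl }
  let b : Fin n × Fin n → D := fun p => ⟨Z p.1 p.2, hZ _ _⟩
  have hk : KPosM (θ'.comp ι) := h2.sub fun a : D => (a : A)
  refine ⟨Fin n × Fin n, inferInstance, inferInstance, ampl (θ'.comp ι) Prod.snd Prod.fst, b,
    hk.ampl _ _, fun a ha => ?_, ?_, fun a ha => ?_⟩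
  · refine one_sub_ampl _ _ _ (fun p q h => ?_) _ (h3 a ha)
    exact Prod.ext (congrArg Prod.snd h) (congrArg Prod.fst h)
  · have : ((∑ k, star (b k) * b k : D) : A) = ∑ l, ∑ j, star (Z l j) * Z l j := by
      rw [AddSubmonoidClass.coe_finsetSum, Fintype.sum_prod_type]
      rfl
    change ‖((∑ k, star (b k) * b k : D) : A)‖ ≤ 1
    rwa [this]
  · have h4 : ((tmap b (ampl (θ'.comp ι) Prod.snd Prod.fst a) : D) : A) =
        ((f * f : D) : A) * S (θ a) * ((f * f : D) : A) := by
      rw [hZ2, tmap, AddSubmonoidClass.coe_finsetSum, Fintype.sum_prod_type]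
      refine Finset.sum_congr rfl fun l _ => Finset.sum_congr rfl fun j _ => ?_
      rw [AddSubmonoidClass.coe_finsetSum, Fintype.sum_prod_type, Finset.sum_eq_single l]
      · refine Finset.sum_congr rfl fun k _ => ?_
        rw [ampl_apply, if_pos rfl, ← h1]
        rfl
      · intro l' _ hl
        refine Finset.sum_eq_zero fun k _ => ?_
        rw [ampl_apply, if_neg hl.symm, zero_smul]
        rfl
      · simp
    have h5 : ‖((f * f : D) : A) * a * ((f * f : D) : A) - a‖ ≤ η / 2 := (hf3 a ha).2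
    have h6 := hF a (Finset.mem_image_of_mem _ ha)
    change ‖(a : A) - ((tmap b (ampl (θ'.comp ι) Prod.snd Prod.fst a) : D) : A)‖ ≤ η
    rw [h4]
    generalize ((f * f : D) : A) = e at he1 h5 ⊢
    have e1 : (a : A) - e * S (θ a) * e = -(e * a * e - a) - e * (S (θ a) - a) * e := by
      noncomm_ring
    have h7 : ‖e * (S (θ a) - a) * e‖ ≤ ‖S (θ a) - a‖ :=
      (norm_mul_le _ _).trans ((mul_le_of_le_one_right (norm_nonneg _) he1).trans
        ((norm_mul_le _ _).trans (mul_le_of_le_one_left (norm_nonneg _) he1)))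
    rw [e1]
    linarith [norm_sub_le (-(e * a * e - a)) (e * (S (θ a) - a) * e), norm_neg (e * a * e - a)]

end Ulam
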