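import Pool.Agent.P.MP_3be8c7_an.KP

open scoped ComplexOrder InnerProductSpace
open Filter Topology

noncomputable section

namespace Ulam

universe u v w

open scoped CStarAlgebra

variable {A : Type u} [NonUnitalCStarAlgebra A] [PartialOrder A] [StarOrderedRing A]

theorem exists_star_mul_nuca {x : A} (h : 0 ≤ x) : ∃ z : A, x = star z * z :=
  CStarAlgebra.nonneg_iff_eq_star_mul_self.1 h

theorem le_one_nuca {B : Type*} [CStarAlgebra B] [PartialOrder B] [StarOrderedRing B] {x : B}
    (h : 0 ≤ x) (h1 : ‖x‖ ≤ 1) : ∃ z : B, 1 - x = star z * z :=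
  CStarAlgebra.nonneg_iff_eq_star_mul_self.1
    (sub_nonneg.2 ((CStarAlgebra.norm_le_one_iff_of_nonneg _ h).1 h1))

theorem nuc_theta {n : ℕ} (θ : A →CP CStarMatrix (Fin n) (Fin n) ℂ) (hθ : ∀ a, ‖θ a‖ ≤ ‖a‖) :
    ∃ θ' : A →ₗ[ℂ] Matrix (Fin n) (Fin n) ℂ, (∀ a j k, θ' a j k = θ a j k) ∧ KPosM θ' ∧
      ∀ a, ‖a‖ ≤ 1 → (1 - θ' (star a * a)).PosSemidef := by
  let θ' : A →ₗ[ℂ] Matrix (Fin n) (Fin n) ℂ :=
    { toFun := fun a => Matrix.of fun j k => θ a j k
      map_add' := fun a b => by ext j k; simp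
      map_smul' := fun c a => by ext j k; simp }
  refine ⟨θ', fun _ _ _ => rfl, kposM_of_fin fun m a => ?_, fun a ha => ?_⟩
  · rcases Nat.eq_zero_or_pos m with rfl | hm
    · convert Matrix.PosSemidef.zero
      ext p
      exact p.1.elim0
    let i0 : Fin m := ⟨0, hm⟩
    let R : CStarMatrix (Fin m) (Fin m) A :=
      CStarMatrix.ofMatrix (Matrix.of fun l j => if l = i0 then a j else 0)
    have hR : ∀ i j, (star R * R) i j = star (a i) * a j := fun i j => by
      simp [R, CStarMatrix.mul_apply, CStarMatrix.star_apply, apply_ite]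
    obtain ⟨Z, hZ⟩ := exists_star_mul_nuca
      (θ.map_cstarMatrix_nonneg _ (star_mul_self_nonneg R))
    have h1 := Matrix.posSemidef_conjTranspose_mul_self
      (Matrix.of fun (l : Fin m × Fin n) (q : Fin m × Fin n) => Z l.1 q.1 l.2 q.2)
    convert h1 using 1
    ext ⟨i, p⟩ ⟨j, q⟩
    have h2 : θ (star (a i) * a j) = ∑ l, star (Z l i) * Z l j := by
      have := congrFun (congrFun hZ i) j
      rw [CStarMatrix.map_apply, hR] at this
      rw [this, CStarMatrix.mul_apply]
      rfl
    have h3 : θ (star (a i) * a j) p q = ∑ l, (star (Z l i) * Z l j) p q := by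
      rw [h2]
      exact Matrix.sum_apply p q Finset.univ fun l => star (Z l i) * Z l j
    simp only [θ', LinearMap.coe_mk, AddHom.coe_mk, Matrix.of_apply, h3, Matrix.mul_apply,
      Matrix.conjTranspose_apply, Fintype.sum_prod_type, CStarMatrix.mul_apply,
      CStarMatrix.star_apply]
  · have h0 : 0 ≤ θ (star a * a) := map_nonneg θ (star_mul_self_nonneg a)
    have h1 : ‖θ (star a * a)‖ ≤ 1 := by
      refine (hθ _).trans ?_
      rw [CStarRing.norm_star_mul_self]
      exact mul_le_one₀ ha (norm_nonneg _) ha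
    obtain ⟨Z, hZ⟩ := le_one_nuca h0 h1
    have h2 := Matrix.posSemidef_conjTranspose_mul_self (CStarMatrix.ofMatrix.symm Z)
    convert h2 using 1
    exact hZ

end Ulam
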