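import Pool.Agent.P.MP_3be8c7_an.VB

open scoped ComplexOrder InnerProductSpace
open Filter Topology

noncomputable section

namespace Ulam

universe u v w

variable {H : Type v} [NormedAddCommGroup H] [InnerProductSpace ℂ H] [CompleteSpace H]

variable {α : Type*} {l : Filter α} {x x' : α → (H →L[ℂ] H)} {y y' : H →L[ℂ] H}

instance neBot_index : (atTop : Filter (Finset H × ℕ)).NeBot := by
  classical
  infer_instance

theorem SS.const (y : H →L[ℂ] H) : SS l (fun _ => y) y := by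
  exact ⟨⟨‖y‖, Eventually.of_forall fun _ => le_rfl⟩, fun _ => ⟨tendsto_const_nhds, tendsto_const_nhds⟩⟩

theorem SS.congr' (h : SS l x y) (he : ∀ᶠ a in l, x a = x' a) : SS l x' y := by
  obtain ⟨⟨C, hC⟩, h⟩ := h
  refine ⟨⟨C, ?_⟩, fun ξ => ⟨(h ξ).1.congr' ?_, (h ξ).2.congr' ?_⟩⟩
  · filter_upwards [hC, he] with a h1 h2 using h2 ▸ h1
  · filter_upwards [he] with a h2 using by rw [h2]
  · filter_upwards [he] with a h2 using by rw [h2]

theorem SS.add (h : SS l x y) (h' : SS l x' y') : SS l (fun a => x a + x' a) (y + y') := by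
  obtain ⟨⟨C, hC⟩, h⟩ := h
  obtain ⟨⟨C', hC'⟩, h'⟩ := h'
  refine ⟨⟨C + C', ?_⟩, fun ξ => ⟨(h ξ).1.add (h' ξ).1, ?_⟩⟩
  · filter_upwards [hC, hC'] with a h1 h2 using (norm_add_le _ _).trans (add_le_add h1 h2)
  · simp only [star_add]
    exact (h ξ).2.add (h' ξ).2

theorem SS.sub (h : SS l x y) (h' : SS l x' y') : SS l (fun a => x a - x' a) (y - y') := by
  obtain ⟨⟨C, hC⟩, h⟩ := h
  obtain ⟨⟨C', hC'⟩, h'⟩ := h'
  refine ⟨⟨C + C', ?_⟩, fun ξ => ⟨(h ξ).1.sub (h' ξ).1, ?_⟩⟩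
  · filter_upwards [hC, hC'] with a h1 h2 using (norm_sub_le _ _).trans (add_le_add h1 h2)
  · simp only [star_sub]
    exact (h ξ).2.sub (h' ξ).2

theorem SS.smul (h : SS l x y) (c : ℂ) : SS l (fun a => c • x a) (c • y) := by
  obtain ⟨⟨C, hC⟩, h⟩ := h
  refine ⟨⟨‖c‖ * C, ?_⟩, fun ξ => ⟨(h ξ).1.const_smul c, ?_⟩⟩
  · filter_upwards [hC] with a h1
    rw [norm_smul]
    exact mul_le_mul_of_nonneg_left h1 (norm_nonneg _)
  · simp only [star_smul]
    exact (h ξ).2.const_smul _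

theorem SS.real_smul (h : SS l x y) (c : ℝ) : SS l (fun a => c • x a) (c • y) := by
  exact h.smul (c : ℂ)

omit [CompleteSpace H] in
theorem app_ssf {C : ℝ} (hC : ∀ᶠ a in l, ‖x a‖ ≤ C) {u : α → H} {v z : H}
    (h : Tendsto (fun a => x a v) l (𝓝 z)) (hu : Tendsto u l (𝓝 v)) :
    Tendsto (fun a => x a (u a)) l (𝓝 z) := by
  have h1 : Tendsto (fun a => x a (u a - v)) l (𝓝 0) := by
    refine squeeze_zero_norm' (a := fun a => C * ‖u a - v‖) ?_ ?_
    · filter_upwards [hC] with a ha using (x a).le_of_opNorm_le ha _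
    · simpa using (tendsto_iff_norm_sub_tendsto_zero.1 hu).const_mul C
  simpa using h1.add h

theorem SS.mul (h : SS l x y) (h' : SS l x' y') : SS l (fun a => x a * x' a) (y * y') := by
  obtain ⟨⟨C, hC⟩, h⟩ := h
  obtain ⟨⟨C', hC'⟩, h'⟩ := h'
  refine ⟨⟨C * C', ?_⟩, fun ξ => ⟨app_ssf hC (h _).1 (h' ξ).1, ?_⟩⟩
  · filter_upwards [hC, hC'] with a h1 h2
    exact (norm_mul_le _ _).trans (mul_le_mul h1 h2 (norm_nonneg _) ((norm_nonneg _).trans h1))
  · simp only [star_mul]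
    exact app_ssf (x := fun a => star (x' a)) (C := C') (by simpa only [norm_star] using hC')
      (h' _).2 (h ξ).2

theorem SS.star (h : SS l x y) : SS l (fun a => star (x a)) (star y) := by
  obtain ⟨⟨C, hC⟩, h⟩ := h
  refine ⟨⟨C, by simpa only [norm_star] using hC⟩, fun ξ => ⟨(h ξ).2, ?_⟩⟩
  simp only [star_star]
  exact (h ξ).1

theorem SS.sum {ι : Type*} (s : Finset ι) {x : α → ι → (H →L[ℂ] H)} {y : ι → (H →L[ℂ] H)}
    (h : ∀ i ∈ s, SS l (fun a => x a i) (y i)) :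
    SS l (fun a => ∑ i ∈ s, x a i) (∑ i ∈ s, y i) := by
  induction s using Finset.cons_induction with
  | empty => simpa using SS.const 0
  | cons i s hi ih =>
    simp only [Finset.sum_cons]
    exact (h i (Finset.mem_cons_self _ _)).add (ih fun j hj => h j (Finset.mem_cons_of_mem hj))

theorem SS.aeval_ssf (h : SS l x y) (q : Polynomial ℝ) :
    SS l (fun a => Polynomial.aeval (x a) q) (Polynomial.aeval y q) := by
  have hp : ∀ n : ℕ, SS l (fun a => x a ^ n) (y ^ n) := fun n => by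
    induction n with
    | zero => simpa only [pow_zero] using SS.const 1
    | succ n ih => simpa only [pow_succ] using ih.mul h
  induction q using Polynomial.induction_on' with
  | add p q hp hq => simpa only [map_add] using hp.add hq
  | monomial n c => simpa only [Polynomial.aeval_monomial] using (SS.const _).mul (hp n)

theorem near_ssf {z : H →L[ℂ] H} (hz : IsSelfAdjoint z) {R ε : ℝ} (hR : ‖z‖ ≤ R) {f : ℝ → ℝ}
    (hf : Continuous f) (hε : 0 < ε) {q : Polynomial ℝ}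
    (hq : ∀ t ∈ Set.Icc (-R) R, |q.eval t - f t| < ε) :
    ‖cfc f z - Polynomial.aeval z q‖ ≤ ε := by
  rw [← cfc_polynomial q z, ← cfc_sub f q.eval z]
  refine norm_cfc_le hε.le fun t ht => ?_
  have h1 : |t| ≤ R := (spectrum.norm_le_norm_mul_of_mem ht).trans
    ((mul_le_of_le_one_right (norm_nonneg _) ContinuousLinearMap.norm_id_le).trans hR)
  rw [Real.norm_eq_abs, abs_sub_comm]
  exact (hq t (abs_le.1 h1)).le

theorem SS.cfc (h : SS l x y) (hx : ∀ a, IsSelfAdjoint (x a)) (hy : IsSelfAdjoint y) (f : ℝ → ℝ)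
    (hf : Continuous f) : SS l (fun a => cfc f (x a)) (cfc f y) := by
  obtain ⟨C, hC⟩ := h.1
  have key : ∀ ε : ℝ, 0 < ε → ∃ q : Polynomial ℝ,
      (∀ᶠ a in l, ‖_root_.cfc f (x a) - Polynomial.aeval (x a) q‖ ≤ ε) ∧
        ‖_root_.cfc f y - Polynomial.aeval y q‖ ≤ ε := fun ε hε => by
    obtain ⟨q, hq⟩ := exists_polynomial_near_of_continuousOn (-max C ‖y‖) (max C ‖y‖) f
      hf.continuousOn ε hε
    exact ⟨q, hC.mono fun a ha => near_ssf (hx a) (ha.trans (le_max_left _ _)) hf hε hq,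
      near_ssf hy (le_max_right _ _) hf hε hq⟩
  have lim : ∀ ξ, Tendsto (fun a => _root_.cfc f (x a) ξ) l (𝓝 (_root_.cfc f y ξ)) := fun ξ => by
    refine Metric.tendsto_nhds.2 fun ε hε => ?_
    have hξ : 0 < 2 * ‖ξ‖ + 1 := by positivity
    obtain ⟨q, h1, h2⟩ := key (ε / (2 * ‖ξ‖ + 1)) (div_pos hε hξ)
    filter_upwards [h1, Metric.tendsto_nhds.1 ((h.aeval_ssf q).2 ξ).1 _ (div_pos hε hξ)]
      with a h3 h4
    have h5 := ContinuousLinearMap.le_of_opNorm_le _ h3 ξ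
    have h6 := ContinuousLinearMap.le_of_opNorm_le _ h2 ξ
    rw [sub_apply, ← dist_eq_norm] at h5 h6
    have h7 := dist_triangle4 (_root_.cfc f (x a) ξ) (Polynomial.aeval (x a) q ξ)
      (Polynomial.aeval y q ξ) (_root_.cfc f y ξ)
    rw [dist_comm] at h6
    have h8 := div_mul_cancel₀ ε hξ.ne'
    linarith
  obtain ⟨q, h1, -⟩ := key 1 one_pos
  obtain ⟨C', hC'⟩ := (h.aeval_ssf q).1
  refine ⟨⟨1 + C', ?_⟩, fun ξ => ⟨lim ξ, ?_⟩⟩
  · filter_upwards [h1, hC'] with a h2 h3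
    exact (norm_le_norm_sub_add _ _).trans (add_le_add h2 h3)
  · have e : ∀ z : H →L[ℂ] H, Star.star (_root_.cfc f z) = _root_.cfc f z :=
      fun z => (cfc_predicate f z).star_eq
    simp only [e]
    exact lim ξ

theorem SS.hpsi {I : Type*} [Fintype I] [DecidableEq I] {w : α → I → (H →L[ℂ] H)}
    {v : I → (H →L[ℂ] H)} (h : ∀ j, SS l (fun a => w a j) (v j)) (m : Matrix I I ℂ) :
    SS l (fun a => hpsi (w a) m) (hpsi v m) := by
  have hp : ∀ m : Matrix I I ℂ, SS l (fun a => psi (w a) m) (psi v m) := fun m =>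
    SS.sum _ fun j _ => SS.sum _ fun k _ => ((h j).mul (h k).star).smul _
  exact (hp 1).mul (hp m)

/-- For a finite family, an approximation at finitely many vectors holds eventually. -/
theorem SS.eventually_le (h : SS l x y) (F : Finset H) {η : ℝ} (hη : 0 < η) :
    ∀ᶠ a in l, ∀ ζ ∈ F, ‖(x a - y) ζ‖ ≤ η ∧ ‖(Star.star (x a) - Star.star y) ζ‖ ≤ η := by
  refine (eventually_all_finset F).2 fun ζ _ => ?_
  filter_upwards [Metric.tendsto_nhds.1 (h.2 ζ).1 η hη, Metric.tendsto_nhds.1 (h.2 ζ).2 η hη]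
    with a h1 h2
  rw [dist_eq_norm] at h1 h2
  exact ⟨h1.le, h2.le⟩

theorem ss_of_approx (x : Finset H × ℕ → (H →L[ℂ] H)) (y : H →L[ℂ] H) (C : ℝ)
    (hC : ∀ i, ‖x i‖ ≤ C)
    (h : ∀ i, ∀ ζ ∈ i.1, ‖(x i - y) ζ‖ ≤ 1 / ((i.2 : ℝ) + 1) ∧
      ‖(star (x i) - star y) ζ‖ ≤ 1 / ((i.2 : ℝ) + 1)) : SS atTop x y := by
  have h1 : Tendsto (fun i : Finset H × ℕ => 1 / ((i.2 : ℝ) + 1)) atTop (𝓝 0) :=
    tendsto_one_div_add_atTop_nhds_zero_nat.comp
      (tendsto_atTop.2 fun n => (eventually_ge_atTop (∅, n)).mono fun i hi => hi.2)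
  refine ⟨⟨C, Eventually.of_forall hC⟩, fun ξ => ?_⟩
  have h2 : ∀ᶠ i : Finset H × ℕ in atTop, ξ ∈ i.1 :=
    (eventually_ge_atTop ({ξ}, 0)).mono fun i hi => hi.1 (Finset.mem_singleton_self ξ)
  exact ⟨tendsto_sub_nhds_zero_iff.1 (squeeze_zero_norm' (h2.mono fun i hi => (h i ξ hi).1) h1),
    tendsto_sub_nhds_zero_iff.1 (squeeze_zero_norm' (h2.mono fun i hi => (h i ξ hi).2) h1)⟩

variable {D : Type u} [CStarAlgebra D] {π : D →⋆ₐ[ℂ] (H →L[ℂ] H)} {N : VonNeumannAlgebra H}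

theorem KDense.any (h : KDense π N) {y : H →L[ℂ] H} (hy : y ∈ N) :
    ∃ a : Finset H × ℕ → D, (∀ i, ‖a i‖ ≤ ‖y‖) ∧ SS atTop (fun i => π (a i)) y := by
  rcases eq_or_ne y 0 with rfl | h0
  · exact ⟨fun _ => 0, fun _ => by simp, by simpa only [map_zero] using SS.const 0⟩
  have h1 : ((‖y‖ : ℝ) : ℂ) ≠ 0 := by simpa using h0
  obtain ⟨a, ha, hs⟩ := h (((‖y‖ : ℝ) : ℂ)⁻¹ • y) (N.toStarSubalgebra.smul_mem hy _) (by
    rw [norm_smul, norm_inv, Complex.norm_real, norm_norm, inv_mul_cancel₀ (norm_ne_zero_iff.2 h0)])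
  refine ⟨fun i => ((‖y‖ : ℝ) : ℂ) • a i, fun i => ?_, ?_⟩
  · rw [norm_smul, Complex.norm_real, norm_norm]
    exact mul_le_of_le_one_right (norm_nonneg _) (ha i)
  · simpa only [map_smul, smul_inv_smul₀ h1] using hs.smul ((‖y‖ : ℝ) : ℂ)

theorem KDense.sa (h : KDense π N) {y : H →L[ℂ] H} (hy : y ∈ N) (hs : IsSelfAdjoint y) :
    ∃ a : Finset H × ℕ → D, (∀ i, IsSelfAdjoint (a i)) ∧ (∀ i, ‖a i‖ ≤ ‖y‖) ∧
      SS atTop (fun i => π (a i)) y := by
  obtain ⟨a, ha, hs'⟩ := h.any hy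
  refine ⟨fun i => (2⁻¹ : ℂ) • (a i + star (a i)), fun i => ?_, fun i => ?_, ?_⟩
  · exact IsSelfAdjoint.smul (by simp [IsSelfAdjoint]) (IsSelfAdjoint.add_star_self _)
  · have := norm_add_le (a i) (star (a i))
    rw [norm_star] at this
    rw [norm_smul, norm_inv, Complex.norm_two]
    linarith [ha i]
  · have := (hs'.add hs'.star).smul (2⁻¹ : ℂ)
    rw [hs.star_eq, ← two_smul ℂ y, inv_smul_smul₀ two_ne_zero] at this
    simpa only [map_smul, map_add, map_star] using this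

end Ulam
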