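import Pool.Agent.P.MP_3be8c7_an.PED
import Pool.Agent.P.MP_3be8c7_an.SSF
import Pool.Agent.P.MP_3be8c7_an.OZB

open scoped ComplexOrder InnerProductSpace
open Filter Topology

noncomputable section

namespace Ulam

universe u v w

/-- The functional calculus on an eigenvector. -/
theorem eig_ozap {R : Type*} [CStarAlgebra R] {a q : R} (ha : IsSelfAdjoint a) {l : ℝ}
    (h : a * q = l • q) {f : ℝ → ℝ} (hf : Continuous f) : cfc f a * q = f l • q := by
  by_cases hq : q = 0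
  · simp [hq]
  have hl : l ∈ spectrum ℝ a := spectrum.mem_iff.2 fun hu => hq (hu.mul_right_eq_zero.1 (by
    rw [sub_mul, h, ← Algebra.smul_def, sub_self]))
  rw [cfc_apply f a]
  suffices ∀ g : C(spectrum ℝ a, ℝ), cfcHom ha g * q = g ⟨l, hl⟩ • q from this _
  intro g
  open scoped ContinuousFunctionalCalculus in
  induction g using ContinuousMap.induction_on_of_compact with
  | const r =>
    have : ContinuousMap.const (spectrum ℝ a) r = algebraMap ℝ _ r := rfl
    rw [this, AlgHomClass.commutes, ← Algebra.smul_def]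
    rfl
  | id => rw [cfcHom_id ha, h]; rfl
  | star_id => rw [map_star, cfcHom_id, ha.star_eq, h]; rfl
  | add f g hf hg => rw [map_add, add_mul, hf, hg, ← add_smul]; rfl
  | mul f g hf hg => rw [map_mul, mul_assoc, hg, mul_smul_comm, hf, smul_smul, mul_comm]; rfl
  | frequently f hf =>
    have := cfcHom_continuous (R := ℝ) ha
    exact (isClosed_eq (f := fun g : C(spectrum ℝ a, ℝ) => cfcHom ha g * q)
      (g := fun g => g ⟨l, hl⟩ • q) (by fun_prop) (by fun_prop)).mem_of_frequently_of_tendsto hf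
      tendsto_id

/-- A tent function. -/
def tent_ozap (c s t : ℝ) : ℝ := max 0 (1 - |t - c| / s)

theorem cont_ozap (c s : ℝ) : Continuous (tent_ozap c s) := by
  unfold tent_ozap
  fun_prop

theorem top_ozap (c s : ℝ) : tent_ozap c s c = 1 := by simp [tent_ozap]

theorem supp_ozap {c s t : ℝ} (hs : 0 < s) (h : tent_ozap c s t ≠ 0) : |t - c| < s := by
  by_contra h'
  exact h (max_eq_left (sub_nonpos.2 ((one_le_div hs).2 (not_lt.1 h'))))

theorem norm_ozap {R : Type*} [CStarAlgebra R] (c : ℝ) {s : ℝ} (hs : 0 < s) (a : R) :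
    ‖cfc (tent_ozap c s) a‖ ≤ 1 :=
  norm_cfc_le zero_le_one fun t _ => by
    have : 0 ≤ |t - c| / s := by positivity
    rw [tent_ozap, Real.norm_of_nonneg (le_max_left _ _)]
    exact max_le zero_le_one (by linarith)

/-- The sum of the squared defects. -/
def dft_ozap {R I : Type*} [CStarAlgebra R] (S : Finset I) (y : I → R) : R :=
  ∑ k ∈ S, (1 - star (y k) * y k) * (1 - star (y k) * y k)

theorem sa1_ozap {R : Type*} [CStarAlgebra R] (y : R) : IsSelfAdjoint (1 - star y * y) :=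
  (IsSelfAdjoint.one R).sub (IsSelfAdjoint.star_mul_self y)

theorem sa2_ozap {R I : Type*} [CStarAlgebra R] (S : Finset I) (y : I → R) :
    IsSelfAdjoint (dft_ozap S y) := by
  simp only [IsSelfAdjoint, dft_ozap, star_sum, star_mul, (sa1_ozap _).star_eq]

variable {D : Type u} [CStarAlgebra D] [PartialOrder D] [StarOrderedRing D]

theorem amgm_ozap {b X : D} (hb : IsSelfAdjoint b) (hX : IsSelfAdjoint X) {κ : ℝ} (hκ : 0 < κ)
    (h : b * (X * X) * b ≤ κ ^ 2 • (b * b)) : b * X * b ≤ κ • (b * b) := by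
  have h1 := star_mul_self_nonneg (κ • b - X * b)
  rw [star_sub, star_smul, star_mul, hb.star_eq, hX.star_eq, star_trivial] at h1
  have h2 := add_nonneg h1 (sub_nonneg.2 h)
  have h3 : (κ • b - b * X) * (κ • b - X * b) + (κ ^ 2 • (b * b) - b * (X * X) * b) =
      (2 * κ) • (κ • (b * b) - b * X * b) := by
    simp only [sub_mul, mul_sub, smul_mul_assoc, mul_smul_comm, mul_assoc]
    module
  have h4 := smul_nonneg (show 0 ≤ (2 * κ)⁻¹ by positivity) (h3 ▸ h2)
  rwa [inv_smul_smul₀ (by positivity), sub_nonneg] at h4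

theorem cut_ozap {I : Type*} {S : Finset I} {y : I → D} {j : I} (hj : j ∈ S) (hy : ‖y j‖ ≤ 1)
    {κ : ℝ} (h0 : 0 < κ) (h1 : κ ≤ 1) {b : D} (hb : b = cfc (tent_ozap 0 (κ ^ 2)) (dft_ozap S y)) :
    ∃ w : D, star w * w = (1 - κ) • (b * b) ∧ (∀ z : D, z * (y j * b) = 0 → z * w = 0) ∧
      ‖w‖ ≤ 1 ∧ ‖w - y j * b‖ ^ 2 ≤ κ := by
  have hc := cont_ozap 0 (κ ^ 2)
  have hP := sa2_ozap S y
  have b1 : IsSelfAdjoint b := hb ▸ cfc_predicate _ _
  have b2 : ‖b‖ ≤ 1 := hb ▸ norm_ozap _ (by positivity) _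
  have b3 : 0 ≤ b * b := by simpa only [b1.star_eq] using star_mul_self_nonneg b
  have b4 : ‖b * b‖ ≤ 1 := (norm_mul_le _ _).trans (mul_le_one₀ b2 (norm_nonneg _) b2)
  have b5 : b * dft_ozap S y * b ≤ κ ^ 2 • (b * b) := by
    have := cfc_mono (f := fun t => tent_ozap 0 (κ ^ 2) t * t * tent_ozap 0 (κ ^ 2) t)
      (g := fun t => κ ^ 2 • (tent_ozap 0 (κ ^ 2) t * tent_ozap 0 (κ ^ 2) t)) (a := dft_ozap S y)
      fun t _ => by
        by_cases e : tent_ozap 0 (κ ^ 2) t = 0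
        · simp [e]
        · have := (abs_lt.1 (supp_ozap (by positivity) e)).2
          rw [smul_eq_mul]
          nlinarith [mul_self_nonneg (tent_ozap 0 (κ ^ 2) t)]
    rwa [cfc_mul _ _ _, cfc_mul _ _ _, cfc_id' ℝ _, cfc_smul _ _ _, cfc_mul _ _ _, ← hb] at this
  have b6 : (1 - star (y j) * y j) * (1 - star (y j) * y j) ≤ dft_ozap S y :=
    Finset.single_le_sum (f := fun k => (1 - star (y k) * y k) * (1 - star (y k) * y k))
      (fun k _ => by simpa only [(sa1_ozap _).star_eq] using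
        star_mul_self_nonneg (1 - star (y k) * y k)) hj
  have b7 := amgm_ozap b1 (sa1_ozap _) h0 ((b1.conjugate_le_conjugate b6).trans b5)
  have b8 : 0 ≤ b * (1 - star (y j) * y j) * b := by
    refine b1.conjugate_nonneg (sub_nonneg.2 ((CStarAlgebra.norm_le_one_iff_of_nonneg _
      (star_mul_self_nonneg _)).1 ?_))
    rw [CStarRing.norm_star_mul_self]
    exact mul_le_one₀ hy (norm_nonneg _) hy
  have b9 : star (y j * b) * (y j * b) - (1 - κ) • (b * b) =
      κ • (b * b) - b * (1 - star (y j) * y j) * b := by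
    simp only [star_mul, b1.star_eq, sub_mul, mul_sub, mul_assoc, one_mul]
    module
  obtain ⟨w, w1, w2, w3⟩ := ped (smul_nonneg (sub_nonneg.2 h1) b3)
    (sub_nonneg.1 (b9 ▸ sub_nonneg.2 b7))
  refine ⟨w, w1, w2, ?_, w3.trans ?_⟩
  · have : ‖w‖ * ‖w‖ ≤ 1 := by
      rw [← CStarRing.norm_star_mul_self, w1, norm_smul, Real.norm_of_nonneg (sub_nonneg.2 h1)]
      exact mul_le_one₀ (by linarith) (norm_nonneg _) b4
    nlinarith [norm_nonneg w]
  · rw [b9]
    refine (CStarAlgebra.norm_le_norm_of_nonneg_of_le (sub_nonneg.2 b7) (sub_le_self _ b8)).trans ?_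
    rw [norm_smul, Real.norm_of_nonneg h0.le]
    exact mul_le_of_le_one_right h0.le b4

variable {H : Type v} [NormedAddCommGroup H] [InnerProductSpace ℂ H] [CompleteSpace H]

variable {π : D →⋆ₐ[ℂ] (H →L[ℂ] H)} {N : VonNeumannAlgebra H}

omit [PartialOrder D] [StarOrderedRing D] in
theorem ss_ozap {α : Type*} {l : Filter α} {a : α → D} {A : H →L[ℂ] H}
    (h : SS l (fun i => π (a i)) A) (ha : ∀ i, IsSelfAdjoint (a i)) (hA : IsSelfAdjoint A)
    {f : ℝ → ℝ} (hf : Continuous f) : SS l (fun i => π (cfc f (a i))) (cfc f A) :=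
  (h.cfc (fun i => (ha i).map π) hA f hf).congr' (Eventually.of_forall fun i =>
    (π.map_cfc f (a i) hf.continuousOn (AddMonoidHomClass.continuous_of_bound π 1 fun x => by
      simpa only [one_mul] using NonUnitalStarAlgHom.norm_apply_le π x) (ha i)
      ((ha i).map π)).symm)

/-- Contractions with orthogonal ranges. -/
theorem ozap_orth (h : KDense π N) {I : Type} [Fintype I] (v : I → (H →L[ℂ] H))
    (hN : ∀ j, v j ∈ N) (hp : ∀ j, IsStarProjection (star (v j) * v j))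
    (ho : ∀ j k, j ≠ k → star (v j) * v k = 0) :
    ∃ y : Finset H × ℕ → I → D, (∀ i j, ‖y i j‖ ≤ 1) ∧
      (∀ i j k, j ≠ k → star (y i j) * y i k = 0) ∧ ∀ j, SS atTop (fun i => π (y i j)) (v j) := by
  obtain ⟨n, hn⟩ := exists_injective_nat I
  have hA : IsSelfAdjoint (∑ k, (n k : ℝ) • (v k * star (v k))) := by
    simp only [IsSelfAdjoint, star_sum, star_smul, star_mul, star_star, star_trivial]
  obtain ⟨a, a1, -, a2⟩ := h.sa (sum_mem fun k _ =>
    vn_real_smul_mem N (n k) (mul_mem (hN k) (star_mem (hN k)))) hA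
  choose x x1 x2 using fun j => h (v j) (hN j) (pi_norm_le (hp j))
  refine ⟨fun i j => cfc (tent_ozap (n j) (1 / 2)) (a i) * x j i, fun i j => ?_,
    fun i j k e => ?_, fun j => ?_⟩
  · exact (norm_mul_le _ _).trans (mul_le_one₀ (norm_ozap _ one_half_pos _) (norm_nonneg _) (x1 j i))
  · have : cfc (tent_ozap (n j) (1 / 2)) (a i) * cfc (tent_ozap (n k) (1 / 2)) (a i) = 0 := by
      rw [← cfc_mul _ _ _ (cont_ozap _ _).continuousOn (cont_ozap _ _).continuousOn,
        ← cfc_zero ℝ (a i)]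
      refine cfc_congr fun t _ => by_contra fun ht => e (hn ?_)
      have h1 := abs_lt.1 (supp_ozap one_half_pos (left_ne_zero_of_mul ht))
      have h2 := abs_lt.1 (supp_ozap one_half_pos (right_ne_zero_of_mul ht))
      have h3 : n j < n k + 1 := by exact_mod_cast (by linarith : (n j : ℝ) < n k + 1)
      have h4 : n k < n j + 1 := by exact_mod_cast (by linarith : (n k : ℝ) < n j + 1)
      omega
    have h5 : IsSelfAdjoint (cfc (tent_ozap (n j) (1 / 2)) (a i)) := cfc_predicate _ _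
    rw [star_mul, h5.star_eq, mul_assoc, ← mul_assoc (cfc _ _), this, zero_mul, mul_zero]
  · have h1 : (∑ k, (n k : ℝ) • (v k * star (v k))) * v j = (n j : ℝ) • v j := by
      rw [Finset.sum_mul, Finset.sum_eq_single j (fun k _ e => ?_) (by simp), smul_mul_assoc,
        mul_assoc, pi_mul (hp j)]
      rw [smul_mul_assoc, mul_assoc, ho k j e, mul_zero, smul_zero]
    have h2 := (ss_ozap a2 a1 hA (cont_ozap (n j) (1 / 2))).mul (x2 j)
    rw [eig_ozap hA h1 (cont_ozap _ _), top_ozap, one_smul] at h2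
    simpa only [map_mul] using h2

theorem step_ozap (h : KDense π N) {I Λ : Type} [Fintype I] {τ : I → Λ} {v : I → (H →L[ℂ] H)}
    (hv : IsOZ τ v) (hN : ∀ j, v j ∈ N) (hp : ∀ j, IsStarProjection (star (v j) * v j)) {δ : ℝ}
    (h0 : 0 < δ) (h1 : δ ≤ 1) : ∃ w u : Finset H × ℕ → I → D, (∀ i, IsOZ τ (w i)) ∧
      (∀ i j, ‖w i j - u i j‖ ≤ δ) ∧ ∀ j, SS atTop (fun i => π (u i j)) (v j) := by
  classical
  obtain ⟨y, y1, y2, y3⟩ := ozap_orth h v hN hp hv.orth
  choose w w1 w2 w3 w4 using fun i j => cut_ozap (S := Finset.univ.filter fun k => τ k = τ j)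
    (y := y i) (j := j) (by simp) (y1 i j) (pow_pos h0 2) (pow_le_one₀ h0.le h1) rfl
  refine ⟨w, _, fun i => ⟨fun j k e => ?_, fun j k e => ?_, w3 i⟩,
    fun i j => (pow_le_pow_iff_left₀ (norm_nonneg _) h0.le two_ne_zero).1 (w4 i j), fun j => ?_⟩
  · refine w2 i k _ (star_eq_zero.1 ?_)
    rw [star_mul, star_star]
    refine w2 i j _ ?_
    rw [star_mul, mul_assoc, ← mul_assoc (star (y i k)), y2 i k j e.symm, zero_mul, mul_zero]
  · rw [w1, w1, e]
  · have h2 : SS atTop (fun i => π (dft_ozap (Finset.univ.filter fun k => τ k = τ j) (y i)))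
        (dft_ozap (Finset.univ.filter fun k => τ k = τ j) v) := by
      simp only [dft_ozap, map_sum, map_mul, map_sub, map_one, map_star]
      exact SS.sum _ fun k _ => ((SS.const 1).sub ((y3 k).star.mul (y3 k))).mul
        ((SS.const 1).sub ((y3 k).star.mul (y3 k)))
    have h3 : dft_ozap (Finset.univ.filter fun k => τ k = τ j) v * star (v j) =
        (0 : ℝ) • star (v j) := by
      have := congrArg star (pi_mul (hp j))
      rw [star_mul, star_mul, star_star] at this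
      rw [zero_smul, dft_ozap, Finset.sum_mul]
      refine Finset.sum_eq_zero fun k hk => ?_
      rw [hv.same k j (Finset.mem_filter.1 hk).2, mul_assoc, sub_mul 1 _ (star (v j)), one_mul,
        this, sub_self, mul_zero]
    have h4 := congrArg star (eig_ozap (sa2_ozap _ _) h3 (cont_ozap 0 ((δ ^ 2) ^ 2)))
    have h5 : IsSelfAdjoint (cfc (tent_ozap 0 ((δ ^ 2) ^ 2))
      (dft_ozap (Finset.univ.filter fun k => τ k = τ j) v)) := cfc_predicate _ _
    rw [top_ozap, one_smul, star_mul, star_star, h5.star_eq] at h4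
    have h6 := (y3 j).mul (ss_ozap h2 (fun i => sa2_ozap _ _) (sa2_ozap _ _)
      (cont_ozap 0 ((δ ^ 2) ^ 2)))
    rw [h4] at h6
    simpa only [map_mul] using h6

theorem ozap (h : KDense π N) {I Λ : Type} [Fintype I] {τ : I → Λ} {v : I → (H →L[ℂ] H)}
    (hv : IsOZ τ v) (hN : ∀ j, v j ∈ N) (hp : ∀ j, IsStarProjection (star (v j) * v j)) :
    ∃ w : Finset H × ℕ → I → D, (∀ i, IsOZ τ (w i)) ∧ ∀ j, SS atTop (fun i => π (w i j)) (v j) := by
  have key : ∀ (F : Finset H) (η : ℝ), 0 < η → η ≤ 1 → ∃ w : I → D, IsOZ τ w ∧ ∀ j, ∀ ζ ∈ F,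
      ‖(π (w j) - v j) ζ‖ ≤ η ∧ ‖(star (π (w j)) - star (v j)) ζ‖ ≤ η := by
    intro F η h0 h1
    have m0 : 0 ≤ ∑ ζ ∈ F, ‖ζ‖ := Finset.sum_nonneg fun _ _ => norm_nonneg _
    obtain ⟨w, u, w1, w2, w3⟩ := step_ozap h hv hN hp (δ := η / 2 / (∑ ζ ∈ F, ‖ζ‖ + 1))
      (by positivity) (by rw [div_le_one (by positivity)]; linarith)
    obtain ⟨i, hi⟩ := (eventually_all.2 fun j => (w3 j).eventually_le F (half_pos h0)).exists
    have h2 : ∀ (A B C : H →L[ℂ] H), ‖A - B‖ ≤ η / 2 / (∑ ζ ∈ F, ‖ζ‖ + 1) → ∀ ζ ∈ F,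
        ‖(B - C) ζ‖ ≤ η / 2 → ‖(A - C) ζ‖ ≤ η := fun A B C e1 ζ hζ e2 => by
      have e3 : ‖ζ‖ ≤ ∑ ζ ∈ F, ‖ζ‖ + 1 :=
        (Finset.single_le_sum (f := fun ζ : H => ‖ζ‖) (fun _ _ => norm_nonneg _) hζ).trans
          (by linarith)
      have e4 := ((A - B).le_opNorm ζ).trans (mul_le_mul e1 e3 (norm_nonneg _) (by positivity))
      rw [div_mul_cancel₀ _ (by positivity)] at e4
      rw [← sub_add_sub_cancel A B C, add_apply]
      exact (norm_add_le _ _).trans (by linarith)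
    have h3 : ∀ j, ‖π (w i j) - π (u i j)‖ ≤ η / 2 / (∑ ζ ∈ F, ‖ζ‖ + 1) := fun j => by
      rw [← map_sub]
      exact (NonUnitalStarAlgHom.norm_apply_le π _).trans (w2 i j)
    exact ⟨w i, w1 i, fun j ζ hζ => ⟨h2 _ _ _ (h3 j) ζ hζ (hi j ζ hζ).1,
      h2 _ _ _ (by rw [← star_sub, norm_star]; exact h3 j) ζ hζ (hi j ζ hζ).2⟩⟩
  choose w w1 w2 using fun i : Finset H × ℕ => key i.1 (1 / ((i.2 : ℝ) + 1)) (by positivity)
    (by rw [div_le_one (by positivity)]; linarith [i.2.cast_nonneg (α := ℝ)])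
  exact ⟨w, w1, fun j => ss_of_approx _ _ 1
    (fun i => (NonUnitalStarAlgHom.norm_apply_le π _).trans ((w1 i).norm_le j)) fun i => w2 i j⟩

end Ulam
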