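import Pool.Agent.P.MP_3be8c7_an.RIG2
import Pool.Agent.P.MP_3be8c7_an.AVG
import Pool.Agent.P.MP_3be8c7_an.DIL
import Pool.Agent.P.MP_3be8c7_an.SPEC

open scoped ComplexOrder InnerProductSpace
open Filter Topology

noncomputable section

namespace Ulam

universe u v w

section alg_ozl1
variable {R : Type*} [CStarAlgebra R]

lemma norm_mul_left_ozl1 {a x : R} (ha : ‖a‖ ≤ 1) : ‖a * x‖ ≤ ‖x‖ :=
  (norm_mul_le _ _).trans (mul_le_of_le_one_left (norm_nonneg _) ha)

lemma norm_mul_right_ozl1 {a x : R} (ha : ‖a‖ ≤ 1) : ‖x * a‖ ≤ ‖x‖ :=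
  (norm_mul_le _ _).trans (mul_le_of_le_one_right (norm_nonneg _) ha)

lemma half_comm_ozl1 {A s : R} {ν : ℝ} (hν : 0 ≤ ν) (hA : star A = A) (hA1 : ‖A‖ ≤ 1)
    (hs : star s * s = 1) (hs1 : ‖s‖ ≤ 1)
    (h1 : ‖A * star s * A * s * A - A * A * A‖ ≤ ν ^ 2 / 16)
    (h2 : ‖A * A * s * A - A * s * A * A‖ ≤ ν ^ 2 / 16) :
    ‖s * (A * A) - A * s * A‖ ≤ ν / 2 := by
  have hs' : ‖star s‖ ≤ 1 := by rwa [norm_star]
  have e : star (s * (A * A) - A * s * A) * (s * (A * A) - A * s * A) =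
      A * (star s * (A * A * s * A - A * s * A * A)) - A * (A * star s * A * s * A - A * A * A) := by
    have : star (s * (A * A) - A * s * A) = A * A * star s - A * star s * A := by
      simp only [star_sub, star_mul, hA, mul_assoc]
    rw [this]
    have h3 : A * A * star s * (s * (A * A)) = A * A * (A * A) := by
      rw [mul_assoc (A * A), ← mul_assoc (star s), hs, one_mul]
    rw [sub_mul, mul_sub, mul_sub, h3]
    noncomm_ring
  have h4 : ‖s * (A * A) - A * s * A‖ ^ 2 ≤ (ν / 2) ^ 2 := by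
    rw [sq, ← CStarRing.norm_star_mul_self, e]
    refine (norm_sub_le _ _).trans ?_
    have a1 := (norm_mul_left_ozl1 (x := star s * (A * A * s * A - A * s * A * A)) hA1).trans
      ((norm_mul_left_ozl1 hs').trans h2)
    have a2 := (norm_mul_left_ozl1 (x := A * star s * A * s * A - A * A * A) hA1).trans h1
    nlinarith [sq_nonneg ν]
  exact (pow_le_pow_iff_left₀ (norm_nonneg _) (by positivity) two_ne_zero).1 h4

lemma cont_ozl1 {G : Type*} [Group G] [TopologicalSpace G] [IsTopologicalGroup G] (σ : G →* R)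
    (hσ : ∀ g, star (σ g) = σ g⁻¹) {A : R} (hA : star A = A)
    (hc : Continuous fun g => A * σ g * A) :
    Continuous fun g => σ g * (A * A) * star (σ g) := by
  have h1 : Continuous fun g => σ g * A := by
    rw [continuous_iff_continuousAt]
    intro h
    rw [ContinuousAt, tendsto_iff_norm_sub_tendsto_zero]
    have e : ∀ g, ‖σ g * A - σ h * A‖ =
        √‖A * A + A * A - A * σ (g⁻¹ * h) * A - A * σ (h⁻¹ * g) * A‖ := by
      intro g
      rw [← Real.sqrt_mul_self (norm_nonneg (σ g * A - σ h * A)), ← CStarRing.norm_star_mul_self]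
      congr 2
      have k : ∀ a b : G, star (σ a * A) * (σ b * A) = A * σ (a⁻¹ * b) * A := by
        intro a b
        rw [star_mul, hA, hσ, map_mul]
        simp only [mul_assoc]
      rw [star_sub, sub_mul, mul_sub, mul_sub, k, k, k, k]
      simp only [inv_mul_cancel, map_one, mul_one]
      abel
    simp_rw [e]
    have c1 : Continuous fun g : G =>
        √‖A * A + A * A - A * σ (g⁻¹ * h) * A - A * σ (h⁻¹ * g) * A‖ := by
      refine Real.continuous_sqrt.comp (Continuous.norm ?_)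
      exact (continuous_const.sub (hc.comp (continuous_inv.mul continuous_const))).sub
        (hc.comp (continuous_const.mul continuous_id))
    have := c1.tendsto h
    simpa using this
  have e : (fun g => σ g * (A * A) * star (σ g)) = fun g => (σ g * A) * star (σ g * A) := by
    funext g
    rw [star_mul, hA]
    simp only [mul_assoc]
  rw [e]
  exact h1.mul h1.star

end alg_ozl1

/-- The cut of an almost invariant positive contraction. -/
lemma cut_ozl1 {K : Type v} [NormedAddCommGroup K] [InnerProductSpace ℂ K] [CompleteSpace K]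
    {G : Type*} [Group G] [TopologicalSpace G] [IsTopologicalGroup G]
    [CompactSpace G] [T2Space G] [SecondCountableTopology G] (σ : G →* (K →L[ℂ] K))
    (hσ : ∀ g, star (σ g) = σ g⁻¹) {A : K →L[ℂ] K} (hA : star A = A) (hA1 : ‖A‖ ≤ 1)
    (hc : Continuous fun g => A * σ g * A) {ν κ : ℝ} (hν0 : 0 ≤ ν) (hν1 : ν ≤ 1) (hκ : 0 < κ)
    (hνκ : 14 * ν ≤ κ ^ 2) (hν : ∀ g, ‖σ g * (A * A) - A * A * σ g‖ ≤ ν) :
    ∃ p : K →L[ℂ] K, IsStarProjection p ∧ (∀ g, Commute (σ g) p) ∧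
      (∀ T, Commute T A → (∀ g, Commute T (σ g)) → Commute T p) ∧
      ‖A * (1 - p)‖ ^ 2 ≤ κ + ν ∧
      ∀ X, (∀ T, (∀ g, Commute (σ g) T) → Commute X T) → ‖X‖ ≤ 2 → ‖A * X * A‖ ≤ ν →
        ‖p * X‖ ≤ 1 / 2 := by
  have hY : 0 ≤ A * A := by
    have := star_mul_self_nonneg A
    rwa [hA] at this
  obtain ⟨Z, hZ0, hZ, hZσ, hZT⟩ := exists_avg σ hσ hY (cont_ozl1 σ hσ hA hc) hν
  obtain ⟨p, hp, hpT, hp1, -, hp2⟩ := exists_cut hZ0 hκ
  have hq1 : ‖1 - p‖ ≤ 1 := hp.one_sub.norm_le _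
  have hAA : ‖A * A‖ ≤ 1 := (norm_mul_left_ozl1 hA1).trans hA1
  refine ⟨p, hp, fun g => hpT _ (hZσ g), fun T h1 h2 => hpT _ (hZT T (h1.mul_right h1) h2), ?_, ?_⟩
  · rw [sq, ← CStarRing.norm_star_mul_self]
    have e : star (A * (1 - p)) * (A * (1 - p)) =
        (1 - p) * Z * (1 - p) - (1 - p) * (Z - A * A) * (1 - p) := by
      rw [star_mul, hA, hp.one_sub.isSelfAdjoint.star_eq]
      noncomm_ring
    rw [e]
    refine (norm_sub_le _ _).trans (add_le_add hp1 ?_)
    exact (norm_mul_right_ozl1 hq1).trans ((norm_mul_left_ozl1 hq1).trans hZ)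
  · intro X hX hX2 hXA
    have hZ1 : ‖Z‖ ≤ 2 := by
      have := norm_le_insert' Z (A * A)
      linarith
    have hXZ : Commute X Z := hX Z hZσ
    have hZp : Commute Z p := hpT _ (Commute.refl Z)
    have h1 : ‖Z * Z * X‖ ≤ 7 * ν := by
      have e : Z * Z * X = A * (A * X * A) * A + (Z - A * A) * X * Z +
          A * A * (X * (Z - A * A)) := by
        rw [mul_assoc Z Z X, ← hXZ.eq]
        noncomm_ring
      rw [e]
      have a1 : ‖A * (A * X * A) * A‖ ≤ ν :=
        (norm_mul_right_ozl1 hA1).trans ((norm_mul_left_ozl1 hA1).trans hXA)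
      have a2 : ‖(Z - A * A) * X * Z‖ ≤ ν * 2 * 2 :=
        (norm_mul_le _ _).trans (mul_le_mul ((norm_mul_le _ _).trans
          (mul_le_mul hZ hX2 (norm_nonneg _) hν0)) hZ1 (norm_nonneg _) (by positivity))
      have a3 : ‖A * A * (X * (Z - A * A))‖ ≤ 2 * ν :=
        (norm_mul_left_ozl1 hAA).trans ((norm_mul_le _ _).trans
          (mul_le_mul hX2 hZ (norm_nonneg _) (by positivity)))
      have := norm_add₃_le (a := A * (A * X * A) * A) (b := (Z - A * A) * X * Z)
        (c := A * A * (X * (Z - A * A)))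
      linarith
    refine ContinuousLinearMap.opNorm_le_bound _ (by norm_num) fun ξ => ?_
    have b1 := hp2 (p (X ξ))
    have b2 := hp2 (Z (X ξ))
    have e1 : p (p (X ξ)) = p (X ξ) := by
      rw [← mul_apply_eq_comp, hp.isIdempotentElem.eq]
    have e2 : Z (p (X ξ)) = p (Z (X ξ)) := by
      rw [← mul_apply_eq_comp, hZp.eq, mul_apply_eq_comp]
    rw [e1, e2] at b1
    have b3 : ‖Z (Z (X ξ))‖ ≤ 7 * ν * ‖ξ‖ :=
      ((Z * Z * X).le_opNorm ξ).trans (mul_le_mul_of_nonneg_right h1 (norm_nonneg _))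
    have b4 : κ ^ 2 * ‖p (X ξ)‖ ≤ κ ^ 2 * (1 / 2 * ‖ξ‖) := by
      have := mul_le_mul_of_nonneg_left b1 hκ.le
      have := mul_le_mul_of_nonneg_right hνκ (norm_nonneg ξ)
      nlinarith
    exact le_of_mul_le_mul_left b4 (by positivity)

theorem ozl1 {γ : ℝ} (hγ : 0 < γ) : ∃ δ : ℝ, 0 < δ ∧
    ∀ (I Λ : Type) [Fintype I] [DecidableEq I] (τ : I → Λ)
      (H : Type v) [NormedAddCommGroup H] [InnerProductSpace ℂ H] [CompleteSpace H]
      (M : VonNeumannAlgebra H) (P : BU τ → (H →L[ℂ] H)), Continuous P → KPos P → (∀ w, P w ∈ M) →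
      (∀ w, ‖P w‖ ≤ 1) → (∀ w w', ‖P w * P w' - P 1 * P (w * w')‖ ≤ δ) →
      (∀ w, ‖P 1 * P w - P w * P 1‖ ≤ δ) → Rel4 P δ →
    ∃ r : I → I → (H →L[ℂ] H), (∀ j k, r j k ∈ M) ∧ KerPos r ∧
      ∀ w, ‖P w - ∑ j, ∑ k, w.mat j k • r j k‖ ≤ γ := by
  obtain ⟨κ, hκ, hκγ⟩ : ∃ κ : ℝ, 0 < κ ∧ 2 * κ = γ ^ 4 := ⟨γ ^ 4 / 2, by positivity, by ring⟩
  obtain ⟨ν, hν0, hν1, hν2, hν3⟩ : ∃ ν : ℝ, 0 < ν ∧ ν ≤ 1 ∧ ν ≤ κ ∧ 14 * ν ≤ κ ^ 2 := by
    refine ⟨min 1 (min κ (κ ^ 2 / 14)), by positivity, min_le_left _ _,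
      (min_le_right _ _).trans (min_le_left _ _), ?_⟩
    have : min 1 (min κ (κ ^ 2 / 14)) ≤ κ ^ 2 / 14 := (min_le_right _ _).trans (min_le_right _ _)
    linarith
  refine ⟨ν ^ 2 / 16, by positivity, ?_⟩
  intro I Λ _ _ τ H _ _ _ M P hPc hP hPM hP1 hmul hcom hrel
  obtain ⟨K, _, _, _, σ, W, hst, hPW, -, hlift⟩ := dil P hP (fun a => ⟨1, fun m s ξ => by
    have : ∀ i j, star (a * s i) * (a * s j) = star (s i) * s j := by
      intro i j
      simp only [BU.star_eq_inv]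
      group
    simp only [this, one_mul, le_refl]⟩)
  obtain ⟨W', hW'⟩ : ∃ W', W' = ContinuousLinearMap.adjoint W := ⟨_, rfl⟩
  rw [← hW'] at hPW hlift
  have hσ : ∀ g, star (σ g) = σ g⁻¹ := fun g => by rw [← hst, BU.star_eq_inv]
  have hσu : ∀ g, star (σ g) * σ g = 1 := fun g => by rw [hσ, ← map_mul, inv_mul_cancel, map_one]
  have hσ1 : ∀ g, ‖σ g‖ ≤ 1 := fun g => by
    have h1 : ‖σ g‖ * ‖σ g‖ ≤ 1 := by
      rw [← CStarRing.norm_star_mul_self, hσu]
      exact ContinuousLinearMap.norm_id_le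
    nlinarith [norm_nonneg (σ g)]
  have hW1 : ‖W‖ ≤ 1 := by
    have h1 : ‖W‖ * ‖W‖ ≤ 1 := by
      rw [← ContinuousLinearMap.norm_adjoint_comp_self, ← hW']
      have := hP1 1
      rw [hPW, map_one] at this
      exact this
    nlinarith [norm_nonneg W]
  have hW'1 : ‖W'‖ ≤ 1 := by
    rw [hW', LinearIsometryEquiv.norm_map]
    exact hW1
  obtain ⟨A, hAd⟩ : ∃ A : K →L[ℂ] K, A = W ∘L W' := ⟨_, rfl⟩
  have hA : star A = A := by
    rw [hAd, hW', ContinuousLinearMap.star_eq_adjoint, ContinuousLinearMap.adjoint_comp,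
      ContinuousLinearMap.adjoint_adjoint]
  have hΦ : ∀ X : H →L[ℂ] H, ‖W ∘L X ∘L W'‖ ≤ ‖X‖ := fun X =>
    (ContinuousLinearMap.opNorm_comp_le _ _).trans
      ((mul_le_of_le_one_left (norm_nonneg _) hW1).trans
        ((ContinuousLinearMap.opNorm_comp_le _ _).trans
          (mul_le_of_le_one_right (norm_nonneg _) hW'1)))
  have hA1 : ‖A‖ ≤ 1 := by
    rw [hAd]
    exact (ContinuousLinearMap.opNorm_comp_le _ _).trans (mul_le_one₀ hW1 (norm_nonneg _) hW'1)
  have hc : Continuous fun g => A * σ g * A := by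
    have e : (fun g => A * σ g * A) = fun g => W ∘L P g ∘L W' := by
      funext g
      rw [hPW, hAd]
      rfl
    rw [e]
    exact continuous_const.clm_comp (hPc.clm_comp continuous_const)
  have hhalf : ∀ g, ‖σ g * (A * A) - A * σ g * A‖ ≤ ν / 2 := by
    intro g
    refine half_comm_ozl1 hν0.le hA hA1 (hσu g) (hσ1 g) ?_ ?_
    · refine le_trans (le_of_eq ?_) ((hΦ _).trans (hmul g⁻¹ g))
      congr 1
      rw [inv_mul_cancel, hPW, hPW, hPW, map_one, hσ, hAd]
      ext x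
      simp
    · refine le_trans (le_of_eq ?_) ((hΦ _).trans (hcom g))
      congr 1
      rw [hPW, hPW, map_one, hAd]
      ext x
      simp
  have hν : ∀ g, ‖σ g * (A * A) - A * A * σ g‖ ≤ ν := by
    intro g
    have a1 := hhalf g
    have a2 := hhalf g⁻¹
    rw [← norm_star, ← hσ] at a2
    simp only [star_sub, star_mul, star_star, hA] at a2
    have e : σ g * (A * A) - A * A * σ g =
        (σ g * (A * A) - A * σ g * A) - (A * A * σ g - A * (σ g * A)) := by noncomm_ring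
    rw [e]
    exact (norm_sub_le _ _).trans (by linarith)
  obtain ⟨p, hp, hpσ, hpT, hpA, hpX⟩ := cut_ozl1 σ hσ hA hA1 hc hν0.le hν1 hκ hν3 hν
  obtain ⟨E, V, hE, hEV, hEσ⟩ := rig2 (τ := τ) (fun g => p * σ g)
    (fun g h => by
      rw [map_mul, mul_assoc p, ← mul_assoc (σ g), (hpσ g).eq, mul_assoc p, ← mul_assoc p p,
        hp.isIdempotentElem.eq])
    (fun g => by rw [star_mul, hp.isSelfAdjoint.star_eq, ← hst, (hpσ _).eq])
    (by
      intro c u hc2 hu
      have e : ∑ i, c i • (p * σ (u i)) = p * ∑ i, c i • σ (u i) := by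
        simp only [Finset.mul_sum, mul_smul_comm]
      rw [e]
      refine hpX _ (fun T hT => Commute.sum_left _ _ _ fun i _ => (hT _).smul_left _) ?_ ?_
      · refine (norm_sum_le _ _).trans (le_trans (Finset.sum_le_sum fun i _ => ?_) hc2)
        rw [norm_smul]
        exact mul_le_of_le_one_right (norm_nonneg _) (hσ1 _)
      · refine le_trans (le_of_eq ?_) ((hΦ _).trans ((hrel c u hc2 hu).trans ?_))
        · congr 1
          simp only [hPW, hAd]
          ext x
          simp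
        · nlinarith)
  refine ⟨fun j k => W' ∘L E j k ∘L W, fun j k => ?_, ?_, fun g => ?_⟩
  · refine vn_mem_of_commute M fun T hT => ?_
    obtain ⟨T', h1, h2, h3⟩ := hlift T fun s => vn_commute M (hPM s) hT
    have h2' : ∀ x, T' (W x) = W (T x) := fun x => congrArg (fun S : H →L[ℂ] K => S x) h2
    have h3' : ∀ x, W' (T' x) = T (W' x) := fun x => congrArg (fun S : K →L[ℂ] H => S x) h3
    have h4 : Commute T' A := by
      rw [hAd]
      ext x
      simp [h2', h3']
    have h5 : Commute T' (E j k) := hE T' (fun g => (hpT T' h4 h1).mul_right (h1 g)) j k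
    have h5' : ∀ x, T' (E j k x) = E j k (T' x) := fun x =>
      congrArg (fun S : K →L[ℂ] K => S x) h5.eq
    ext x
    simp [← h2', ← h3', h5']
  · have e : (fun j k => W' ∘L E j k ∘L W) = fun j k =>
        ∑ l, ContinuousLinearMap.adjoint (V l j ∘L W) ∘L (V l k ∘L W) := by
      funext j k
      rw [hEV]
      ext x
      simp [ContinuousLinearMap.star_eq_adjoint, hW']
    rw [e]
    exact kerPos_of_gram fun l j => V l j ∘L W
  · have e : P g - ∑ j, ∑ k, g.mat j k • (W' ∘L E j k ∘L W) =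
        (W' ∘L (1 - p)) ∘L (σ g ∘L W) := by
      have h1 : ∀ y, p (σ g y) = ∑ j, ∑ k, g.mat j k • E j k y := fun y => by
        have := congrArg (fun S : K →L[ℂ] K => S y) (hEσ g)
        simpa using this
      rw [hPW]
      ext x
      simp [h1]
    rw [e]
    have hq1 : ‖1 - p‖ ≤ 1 := hp.one_sub.norm_le _
    have a1 : ‖W' ∘L (1 - p)‖ * ‖W' ∘L (1 - p)‖ ≤ ‖A * (1 - p)‖ := by
      rw [← ContinuousLinearMap.norm_adjoint_comp_self]
      refine le_trans (le_of_eq ?_) (norm_mul_left_ozl1 hq1)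
      congr 1
      rw [ContinuousLinearMap.adjoint_comp, hAd, hW', ContinuousLinearMap.adjoint_adjoint,
        ← ContinuousLinearMap.star_eq_adjoint, hp.one_sub.isSelfAdjoint.star_eq]
      rfl
    have a2 : ‖W' ∘L (1 - p)‖ ^ 4 ≤ γ ^ 4 := by
      have := pow_le_pow_left₀ (by positivity) a1 2
      nlinarith
    have a3 : ‖W' ∘L (1 - p)‖ ≤ γ :=
      (pow_le_pow_iff_left₀ (norm_nonneg _) hγ.le (by norm_num)).1 a2
    have a4 : ‖σ g ∘L W‖ ≤ 1 :=
      (ContinuousLinearMap.opNorm_comp_le _ _).trans (mul_le_one₀ (hσ1 g) (norm_nonneg _) hW1)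
    exact (ContinuousLinearMap.opNorm_comp_le _ _).trans
      ((mul_le_of_le_one_right (norm_nonneg _) a4).trans a3)

end Ulam
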