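import Pool.Agent.P.MP_3be8c7_an.PCA
import Pool.Agent.P.MP_3be8c7_an.SPEC

open scoped ComplexOrder InnerProductSpace
open Filter Topology

noncomputable section

namespace Ulam

universe u v w

section

variable {H : Type v} [NormedAddCommGroup H] [InnerProductSpace ℂ H] [CompleteSpace H]

theorem cut_pc0 (N : VonNeumannAlgebra H) {J : Type*} [Fintype J] (E : J → (H →L[ℂ] H))
    (hE : ∀ j, E j ∈ N) {c : ℝ} (hc : 0 < c) (ξ : H) :
    ∃ p ∈ N, IsStarProjection p ∧ (∀ j, ‖(1 - p) * E j * (1 - p)‖ ≤ c) ∧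
      c ^ 2 * ‖p ξ‖ ^ 2 ≤ ∑ j, ‖E j ξ‖ ^ 2 := by
  have hY : (0 : H →L[ℂ] H) ≤ ∑ j, star (E j) * E j :=
    Finset.sum_nonneg fun j _ => star_mul_self_nonneg _
  have hYN : ∑ j, star (E j) * E j ∈ N :=
    sum_mem fun j _ => mul_mem (star_mem (hE j)) (hE j)
  obtain ⟨p, hp, hpc, h1, h2, -⟩ := exists_cut hY (t := c ^ 2) (by positivity)
  refine ⟨p, vn_mem_of_commute N fun T hT => hpc T (vn_commute N hYN hT), hp, fun j => ?_, ?_⟩
  · have hr := hp.one_sub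
    have a1 : ‖(1 - p) * E j * (1 - p)‖ ≤ ‖E j * (1 - p)‖ := by
      rw [mul_assoc]
      exact (norm_mul_le _ _).trans (mul_le_of_le_one_left (norm_nonneg _) hr.norm_le)
    have a2 : star (E j * (1 - p)) * (E j * (1 - p)) ≤ (1 - p) * (∑ j, star (E j) * E j) * (1 - p) := by
      have := hr.isSelfAdjoint.conjugate_le_conjugate
        (Finset.single_le_sum (f := fun j => star (E j) * E j)
          (fun j _ => star_mul_self_nonneg (E j)) (Finset.mem_univ j))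
      rw [star_mul, hr.isSelfAdjoint.star_eq]
      simpa only [mul_assoc] using this
    have a3 := (CStarAlgebra.norm_le_norm_of_nonneg_of_le (star_mul_self_nonneg _) a2).trans h1
    rw [CStarRing.norm_star_mul_self] at a3
    refine a1.trans ?_
    exact le_of_sq_le_sq (by nlinarith) hc.le
  · refine (h2 ξ).trans (le_of_eq ?_)
    rw [_root_.sum_apply, inner_sum, Complex.re_sum]
    refine Finset.sum_congr rfl fun j _ => ?_
    rw [mul_apply_eq_comp, ContinuousLinearMap.star_eq_adjoint,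
      ContinuousLinearMap.adjoint_inner_right, inner_self_eq_norm_sq_to_K]
    norm_cast

theorem q_pc0 (N : VonNeumannAlgebra H) {ξ : H} (hξ : TrVec N ξ) {p z : H →L[ℂ] H} (hpN : p ∈ N)
    (hp : IsStarProjection p) (hzN : z ∈ N) (hz1 : ‖z‖ ≤ 1) (hz : z ξ = ξ) {R : Type} [Fintype R]
    [Nonempty R] (u : R → (H →L[ℂ] H)) (hu : ∀ ρ, u ρ ∈ N)
    (hu' : ∀ ρ, u ρ ∈ unitary (H →L[ℂ] H)) :
    ‖(1 - av fun ρ => star (u ρ) * ((1 - p) * z * (1 - p)) * u ρ) ξ‖ ≤ 2 * ‖p ξ‖ := by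
  have hr : 1 - p ∈ N := sub_mem (one_mem N) hpN
  have e : (1 - av fun ρ => star (u ρ) * ((1 - p) * z * (1 - p)) * u ρ) =
      av fun ρ => star (u ρ) * (1 - (1 - p) * z * (1 - p)) * star (star (u ρ)) := by
    nth_rw 1 [← av_const (ι := R) (1 : H →L[ℂ] H)]
    rw [← av_sub]
    congr 1
    funext ρ
    rw [star_star, mul_sub (star (u ρ)), mul_one, sub_mul (star (u ρ)),
      Unitary.star_mul_self_of_mem (hu' ρ)]
  rw [e, av_apply]
  refine norm_av_le_of_le _ (by positivity) fun ρ => ?_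
  rw [hξ.norm_conj (sub_mem (one_mem N) (mul_mem (mul_mem hr hzN) hr)) (star_mem (hu ρ))
    (Unitary.star_mem (hu' ρ))]
  have e2 : (1 - (1 - p) * z * (1 - p)) ξ = p ξ + (1 - p) (z (p ξ)) := by
    simp only [_root_.sub_apply, mul_apply_eq_comp, one_apply_eq_self,
      map_sub, hz]
    abel
  rw [e2]
  refine (norm_add_le _ _).trans ?_
  have a1 := proj_norm_apply_le hp.one_sub (z (p ξ))
  have a2 : ‖z (p ξ)‖ ≤ ‖p ξ‖ := (z.le_opNorm _).trans (mul_le_of_le_one_left (norm_nonneg _) hz1)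
  linarith

end

theorem schur_le_pc0 {I : Type*} [Fintype I] [DecidableEq I] (μ : I → ℕ) {x : Matrix I I ℂ}
    (hx : Contr x) (j k : I) : ‖schur μ x j k‖ ≤ 1 := by
  rw [schur, Matrix.of_apply, norm_mul, Complex.norm_real, Real.norm_of_nonneg (by positivity)]
  refine mul_le_one₀ (hx.norm_apply_le j k) (by positivity) ?_
  have := min_le_pca (μ j) (μ k)
  rwa [← mul_inv, ← Real.sqrt_mul (Nat.cast_nonneg _), ← div_eq_mul_inv] at this

theorem pc0 {e : ℝ} (he : 0 < e) : ∃ δ : ℝ, 0 < δ ∧ ∀ (I : Type) [Fintype I] [DecidableEq I],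
    ∃ (s : ℕ) (κ : ℝ), 0 < κ ∧
    ∀ (D : Type u) [CStarAlgebra D] [PartialOrder D] [StarOrderedRing D]
      (H : Type v) [NormedAddCommGroup H] [InnerProductSpace ℂ H] [CompleteSpace H]
      (π : D →⋆ₐ[ℂ] (H →L[ℂ] H)) (N : VonNeumannAlgebra H), (∀ a, π a ∈ N) →
    ∀ ξ : H, TrVec N ξ → ‖ξ‖ = 1 →
    ∀ (θ : D →ₗ[ℂ] Matrix I I ℂ) (b : I → (H →L[ℂ] H)), IsCCP θ → (∀ k, b k ∈ N) →
      ‖∑ k, star (b k) * b k‖ ≤ 1 →
    ∀ U : Finset D, (∀ u ∈ U, u ∈ unitary D) → (∀ u ∈ U, ‖(π u - tmap b (θ u)) ξ‖ ≤ δ) →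
    ∀ z : H →L[ℂ] H, Div N s z → ‖z‖ ≤ 1 → z ξ = ξ →
    ∀ (R : Type) [Fintype R] [Nonempty R] (u : R → (H →L[ℂ] H)), (∀ ρ, u ρ ∈ N) →
      (∀ ρ, u ρ ∈ unitary (H →L[ℂ] H)) →
    ∀ η : I → ℝ, (∀ j k, ⟪ξ, (b j * star (b k)) ξ⟫_ℂ = if j = k then (η j : ℂ) else 0) →
      (∀ j k, ‖(av (fun ρ => u ρ * (b j * star (b k)) * star (u ρ)) -
        (if j = k then (η j : ℂ) else 0) • (1 : H →L[ℂ] H)) ξ‖ ≤ κ) →
    Good π N U ξ e := by
  set m : ℝ := e / 300 with hm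
  have hm0 : 0 < m := by positivity
  set δ : ℝ := min (min 1 m) (m ^ 2 / 2) with hδ
  have hδ0 : 0 < δ := by positivity
  have hδ1 : δ ≤ 1 := (min_le_left _ _).trans (min_le_left _ _)
  have hδ2 : δ ≤ m := (min_le_left _ _).trans (min_le_right _ _)
  have hδ3 : √(2 * δ) ≤ m := by
    have : δ ≤ m ^ 2 / 2 := min_le_right _ _
    exact Real.sqrt_le_iff.2 ⟨hm0.le, by linarith⟩
  refine ⟨δ, hδ0, fun I _ _ => ?_⟩
  set n : ℝ := (Fintype.card I : ℝ) with hn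
  have hn0 : 0 ≤ n := Nat.cast_nonneg _
  obtain ⟨s, hs⟩ := pow_unbounded_of_one_lt (2 * n + 96 * n / e) (one_lt_two (α := ℝ))
  have hs0 : (0 : ℝ) < 2 ^ s := by positivity
  have hs1 : 2 * n ≤ 2 ^ s := by
    have : 0 ≤ 96 * n / e := by positivity
    linarith
  have hs2 : 96 * n ≤ 2 ^ s * e := by
    rw [← div_le_iff₀ he]
    linarith
  set K : ℝ := 2 ^ s / 4 with hK
  have hK0 : 0 < K := by positivity
  set κ' : ℝ := 1 / (2 ^ (s + 1) * (n ^ 2 + 1)) with hκ'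
  have hκ0 : 0 < κ' := by positivity
  set c : ℝ := min 1 (e / 48) with hc
  have hc0 : 0 < c := by positivity
  have hc1 : c ^ 2 ≤ e / 48 := by
    have h1 : c ≤ 1 := min_le_left _ _
    have h2 : c ≤ e / 48 := min_le_right _ _
    nlinarith
  refine ⟨s, κ' * (c / (n ^ 3 + 1)), by positivity, ?_⟩
  intro D _ _ _ H _ _ _ π N hπ ξ hξ h1 θ b hθ hb hcol U hU hUδ z hz hz1 hzξ R _ _ u hu hu' η hη hav
  have hηe : ∀ k, η k = ‖b k ξ‖ ^ 2 := by
    intro k
    have h := hη k k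
    rw [if_pos rfl, hξ.inner_comm (hb k) (star_mem (hb k)), mul_apply_eq_comp,
      ContinuousLinearMap.star_eq_adjoint, ContinuousLinearMap.adjoint_inner_right,
      inner_self_eq_norm_sq_to_K] at h
    have h' : ((‖b k ξ‖ ^ 2 : ℝ) : ℂ) = η k := by rw [← h]; simp
    exact (Complex.ofReal_injective h').symm
  have hη0 : ∀ k, 0 ≤ η k := fun k => by rw [hηe]; positivity
  have hη1 : ∑ k, η k ≤ 1 := by
    simpa [h1, hηe] using sum_norm_sq_le_of_col b hcol ξ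
  set μ : I → ℕ := fun k => ⌊K * η k⌋₊ + 1 with hμ
  have hμ0 : ∀ k, 1 ≤ μ k := fun k => Nat.le_add_left _ _
  have hμ1 : ∀ k, K * η k ≤ μ k := fun k => by
    simpa [hμ] using (Nat.lt_floor_add_one (K * η k)).le
  have hμ2 : ∀ k, μ k ≤ K * η k + 1 := fun k => by
    simpa [hμ] using Nat.floor_le (mul_nonneg hK0.le (hη0 k))
  clear_value μ
  have hμs : ∑ k, μ k ≤ 2 ^ s := by
    have a1 : ((∑ k, μ k : ℕ) : ℝ) ≤ ∑ k, (K * η k + 1) := by
      rw [Nat.cast_sum]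
      exact Finset.sum_le_sum fun k _ => hμ2 k
    rw [Finset.sum_add_distrib, ← Finset.mul_sum, Finset.sum_const, Finset.card_univ, nsmul_eq_mul,
      mul_one, ← hn] at a1
    have a2 : K * ∑ k, η k ≤ K := mul_le_of_le_one_right hK0.le hη1
    have a3 : ((∑ k, μ k : ℕ) : ℝ) ≤ ((2 ^ s : ℕ) : ℝ) := by
      rw [Nat.cast_pow, Nat.cast_ofNat]
      linarith
    exact_mod_cast a3
  obtain ⟨p, hpN, hp, hp1, hp2⟩ := cut_pc0 N (fun q : I × I =>
    av (fun ρ => u ρ * (b q.1 * star (b q.2)) * star (u ρ)) -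
      (if q.1 = q.2 then (η q.1 : ℂ) else 0) • (1 : H →L[ℂ] H))
    (fun q => sub_mem (av_mem N _ fun ρ => mul_mem (mul_mem (hu ρ)
      (mul_mem (hb _) (star_mem (hb _)))) (star_mem (hu ρ))) (vn_smul_mem N _ (one_mem N))) hκ0 ξ
  have hpξ : ‖p ξ‖ ≤ n * (c / (n ^ 3 + 1)) := by
    have a1 : κ' ^ 2 * ‖p ξ‖ ^ 2 ≤ ∑ _q : I × I, (κ' * (c / (n ^ 3 + 1))) ^ 2 :=
      hp2.trans (Finset.sum_le_sum fun q _ => pow_le_pow_left₀ (norm_nonneg _) (hav q.1 q.2) 2)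
    rw [Finset.sum_const, Finset.card_univ, Fintype.card_prod, nsmul_eq_mul, Nat.cast_mul,
      ← hn] at a1
    have a2 : κ' ^ 2 * ‖p ξ‖ ^ 2 ≤ κ' ^ 2 * (n * (c / (n ^ 3 + 1))) ^ 2 := by
      refine a1.trans (le_of_eq ?_)
      ring
    exact le_of_sq_le_sq (le_of_mul_le_mul_left a2 (by positivity)) (by positivity)
  have hzN : z ∈ N := by
    obtain ⟨_, _, _, _, y, -, -, -, -, -, hyN, -, hy⟩ := hz
    rw [← hy]
    exact sum_mem fun γ _ => mul_mem (star_mem (hyN γ)) (hyN γ)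
  have hr : 1 - p ∈ N := sub_mem (one_mem N) hpN
  obtain ⟨d, hd, hev⟩ := pca N hθ hz hz1 hp.one_sub hr u hu hu' b hb hcol μ hμ0 hμs η hη0
    (fun k => by
      have := hμ1 k
      rw [hK] at this
      rw [pow_succ]
      linarith) (κ := κ') (by
      rw [← hn, hκ', mul_one_div, div_le_one (by positivity)]
      gcongr
      linarith) (fun j k => hp1 (j, k))
  refine ⟨d, hd, fun a ha => ?_⟩
  set Q := av fun ρ => star (u ρ) * ((1 - p) * z * (1 - p)) * u ρ with hQ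
  have hQN : 1 - Q ∈ N := sub_mem (one_mem N) (av_mem N _ fun ρ =>
    mul_mem (mul_mem (star_mem (hu ρ)) (mul_mem (mul_mem hr hzN) hr)) (hu ρ))
  have hQξ : ‖(1 - Q) ξ‖ ≤ 2 * ‖p ξ‖ := q_pc0 N hξ hpN hp hzN hz1 hzξ u hu hu'
  have ha1 : ‖a‖ ≤ 1 := by
    have := CStarRing.norm_star_mul_self (x := a)
    rw [Unitary.star_mul_self_of_mem (hU a ha)] at this
    have h2 : ‖(1 : D)‖ ≤ 1 := (IsStarProjection.one _).norm_le
    nlinarith [norm_nonneg a]
  have hx : Contr (θ a) := hθ.contr ha1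
  have t1 := hUδ a ha
  have t2 := pcb N hξ h1 b hb hcol η hη hx (hπ a) (Unitary.map_mem π (hU a ha)) t1 hK0 μ hμ0 hμ1 hμ2
  have t3 : ‖(∑ j, ∑ k, schur μ (θ a) j k • (star (b j) * (1 - Q) * b k)) ξ‖ ≤ 2 * c := by
    have b1 : ∀ j k, ‖(schur μ (θ a) j k • (star (b j) * (1 - Q) * b k)) ξ‖ ≤ 2 * ‖p ξ‖ := by
      intro j k
      rw [_root_.smul_apply, norm_smul, mul_assoc, mul_apply_eq_comp]
      have c1 := schur_le_pc0 μ hx j k
      have c2 := norm_le_one_of_col b hcol j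
      have c3 := norm_le_one_of_col b hcol k
      have c4 := (star (b j)).le_opNorm (((1 - Q) * b k) ξ)
      rw [norm_star] at c4
      have c5 := hξ.norm_mul_le hQN (hb k)
      have c6 : ‖((1 - Q) * b k) ξ‖ ≤ 2 * ‖p ξ‖ :=
        c5.trans ((mul_le_of_le_one_left (norm_nonneg _) c3).trans hQξ)
      refine (mul_le_of_le_one_left (norm_nonneg _) c1).trans (c4.trans ?_)
      exact (mul_le_of_le_one_left (norm_nonneg _) c2).trans c6
    rw [_root_.sum_apply]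
    refine (norm_sum_le _ _).trans ?_
    calc ∑ j, ‖(∑ k, schur μ (θ a) j k • (star (b j) * (1 - Q) * b k)) ξ‖
        ≤ ∑ _j : I, ∑ _k : I, 2 * ‖p ξ‖ := by
          refine Finset.sum_le_sum fun j _ => ?_
          rw [_root_.sum_apply]
          exact (norm_sum_le _ _).trans (Finset.sum_le_sum fun k _ => b1 j k)
      _ = n * (n * (2 * ‖p ξ‖)) := by simp [hn]
      _ ≤ n * (n * (2 * (n * (c / (n ^ 3 + 1))))) := by gcongr
      _ = 2 * c * (n ^ 3 / (n ^ 3 + 1)) := by ring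
      _ ≤ 2 * c := mul_le_of_le_one_right (by positivity)
          (div_le_one_of_le₀ (by linarith) (by positivity))
  have e1 : π a - d.ev a = (π a - tmap b (θ a)) + tmap b (θ a - schur μ (θ a)) +
      ∑ j, ∑ k, schur μ (θ a) j k • (star (b j) * (1 - Q) * b k) := by
    rw [hev, tmap_sub]
    simp only [mul_sub, sub_mul, mul_one, smul_sub, Finset.sum_sub_distrib]
    rw [tmap.eq_1 b (schur μ (θ a))]
    abel
  have t4 : 2 * n / K ≤ e / 12 := by
    rw [div_le_iff₀ hK0, hK]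
    linarith
  rw [e1, _root_.add_apply, _root_.add_apply]
  set A := ‖(π a - tmap b (θ a)) ξ‖ with hA
  set B := ‖tmap b (θ a - schur μ (θ a)) ξ‖ with hB
  set C := ‖(∑ j, ∑ k, schur μ (θ a) j k • (star (b j) * (1 - Q) * b k)) ξ‖ with hC
  have hA0 : 0 ≤ A := norm_nonneg _
  have hC0 : 0 ≤ C := norm_nonneg _
  have t5 : A ^ 2 ≤ m := by nlinarith
  have t6 : C ^ 2 ≤ e / 12 := by nlinarith
  have t7 : B ^ 2 ≤ 24 * m + e / 12 := by linarith
  refine (pow_le_pow_left₀ (norm_nonneg _) norm_add₃_le 2).trans ?_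
  change (A + B + C) ^ 2 ≤ e
  nlinarith [sq_nonneg (A - B), sq_nonneg (A - C), sq_nonneg (B - C)]

end Ulam
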