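import Pool.Agent.P.MP_3be8c7_an.PC0

open scoped ComplexOrder InnerProductSpace
open Filter Topology

noncomputable section

namespace Ulam

universe u v w

theorem sum4_pc1 {I M : Type*} [Fintype I] [AddCommMonoid M] (f : I → I → I → I → M) :
    ∑ k, ∑ l, ∑ j', ∑ j, f k l j j' = ∑ j, ∑ j', ∑ l, ∑ k, f k l j j' := by
  rw [Finset.sum_comm]
  refine Eq.trans (Finset.sum_congr rfl fun l _ => Finset.sum_comm) (Finset.sum_comm.trans ?_)
  refine Eq.trans (Finset.sum_congr rfl fun j' _ => (Finset.sum_congr rfl fun l _ =>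
    Finset.sum_comm).trans Finset.sum_comm) Finset.sum_comm

theorem tmap_pc1 {I R : Type*} [Fintype I] [CStarAlgebra R] (b : I → R) (W y : Matrix I I ℂ) :
    tmap (fun k => ∑ j, star (W j k) • b j) y = tmap b (W * y * star W) := by
  simp only [tmap, star_sum, star_smul, star_star, Finset.sum_mul, Finset.mul_sum,
    smul_mul_smul_comm, Finset.smul_sum, smul_smul, Matrix.mul_apply, Matrix.star_apply,
    Finset.sum_smul]
  rw [sum4_pc1]
  simp only [mul_left_comm, mul_assoc]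

theorem near_pc1 {H : Type v} [NormedAddCommGroup H] [InnerProductSpace ℂ H] {ξ x : H}
    (hξ : ‖ξ‖ = 1) {c : ℂ} {κ : ℝ} (h : ‖x - c • ξ‖ ≤ κ) : ‖x - ⟪ξ, x⟫_ℂ • ξ‖ ≤ 2 * κ := by
  have h1 : x - ⟪ξ, x⟫_ℂ • ξ = (x - c • ξ) - ⟪ξ, x - c • ξ⟫_ℂ • ξ := by
    rw [inner_sub_right, inner_smul_right, inner_self_eq_norm_sq_to_K, hξ, sub_smul]
    simp
  have h2 := norm_inner_le_norm (𝕜 := ℂ) ξ (x - c • ξ)
  have h3 := norm_sub_le (x - c • ξ) (⟪ξ, x - c • ξ⟫_ℂ • ξ)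
  rw [norm_smul, ← h1] at h3
  rw [hξ] at h2 h3
  linarith

theorem pc1 {e : ℝ} (he : 0 < e) : ∃ δ : ℝ, 0 < δ ∧ ∀ (I : Type) [Fintype I] [DecidableEq I],
    ∃ (s : ℕ) (κ : ℝ), 0 < κ ∧
    ∀ (D : Type u) [CStarAlgebra D] [PartialOrder D] [StarOrderedRing D]
      (H : Type v) [NormedAddCommGroup H] [InnerProductSpace ℂ H] [CompleteSpace H]
      (π : D →⋆ₐ[ℂ] (H →L[ℂ] H)) (N : VonNeumannAlgebra H), (∀ a, π a ∈ N) →
    ∀ ξ : H, TrVec N ξ → ‖ξ‖ = 1 →
    ∀ (θ : D →ₗ[ℂ] Matrix I I ℂ) (b : I → (H →L[ℂ] H)), IsCCP θ → (∀ k, b k ∈ N) →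
      ‖∑ k, star (b k) * b k‖ ≤ 1 →
    ∀ U : Finset D, (∀ u ∈ U, u ∈ unitary D) → (∀ u ∈ U, ‖(π u - tmap b (θ u)) ξ‖ ≤ δ) →
    ∀ z : H →L[ℂ] H, Div N s z → ‖z‖ ≤ 1 → z ξ = ξ →
    ∀ (R : Type) [Fintype R] [Nonempty R] (u : R → (H →L[ℂ] H)), (∀ ρ, u ρ ∈ N) →
      (∀ ρ, u ρ ∈ unitary (H →L[ℂ] H)) →
    ∀ c : I → I → ℂ, (∀ j k, ‖(av (fun ρ => u ρ * (b j * star (b k)) * star (u ρ)) -
        c j k • (1 : H →L[ℂ] H)) ξ‖ ≤ κ) →
    Good π N U ξ e := by
  obtain ⟨δ, hδ, h0⟩ := pc0.{u, v} he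
  refine ⟨δ, hδ, fun I _ _ => ?_⟩
  obtain ⟨s, κ, hκ, h0⟩ := h0 I
  refine ⟨s, κ / (2 * (Fintype.card I : ℝ) ^ 2 + 1), by positivity, ?_⟩
  intro D _ _ _ H _ _ _ π N hπ ξ hξ h1 θ b hθ hb hcol U hU happ z hz z1 z2 R _ _ u u1 u2 c hc
  have hh : (Matrix.of fun j k => ⟪ξ, (b j * star (b k)) ξ⟫_ℂ).IsHermitian := by
    ext j k
    rw [Matrix.conjTranspose_apply, Matrix.of_apply, Matrix.of_apply, RCLike.star_def,
      inner_conj_symm, ← ContinuousLinearMap.adjoint_inner_right,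
      ← ContinuousLinearMap.star_eq_adjoint, star_mul, star_star]
  obtain ⟨W, η, w1, w2, hW⟩ : ∃ (W : Matrix I I ℂ) (η : I → ℝ), star W * W = 1 ∧ W * star W = 1 ∧
      star W * (Matrix.of fun j k => ⟪ξ, (b j * star (b k)) ξ⟫_ℂ) * W =
        Matrix.diagonal fun i => (η i : ℂ) :=
    ⟨hh.eigenvectorUnitary, hh.eigenvalues, Unitary.coe_star_mul_self _,
      Unitary.coe_mul_star_self _, by
        have := hh.conjStarAlgAut_star_eigenvectorUnitary
        rwa [Unitary.conjStarAlgAut_star_apply] at this⟩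
  have hW1 := contr_of_unitary w1
  have e1 : ∀ k l, (∑ j, star (W j k) • b j) * star (∑ j, star (W j l) • b j) =
      ∑ j', ∑ j, (star (W j k) * W j' l) • (b j * star (b j')) := fun k l => by
    simp only [star_sum, star_smul, star_star, Finset.sum_mul, Finset.mul_sum, smul_mul_smul_comm]
  have e2 : ∀ k l, ⟪ξ, ((∑ j, star (W j k) • b j) * star (∑ j, star (W j l) • b j)) ξ⟫_ℂ =
      if k = l then (η k : ℂ) else 0 := fun k l => by
    rw [e1, ← Matrix.diagonal_apply fun i => (η i : ℂ), ← hW]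
    simp only [sum_apply, smul_apply, inner_sum, inner_smul_right, Matrix.mul_apply,
      Matrix.star_apply, Matrix.of_apply, Finset.sum_mul, mul_right_comm]
  let E : (H →L[ℂ] H) →ₗ[ℂ] H :=
    { toFun := fun Y => (av fun ρ => u ρ * Y * star (u ρ)) ξ - ⟪ξ, Y ξ⟫_ℂ • ξ
      map_add' := fun Y Y' => by
        simp only [mul_add, add_mul, av_add, add_apply, inner_add_right, add_smul]
        abel
      map_smul' := fun a Y => by
        simp only [mul_smul_comm, smul_mul_assoc, av_smul, smul_apply, inner_smul_right, smul_sub,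
          smul_smul, RingHom.id_apply] }
  have e3 : ∀ j k, ‖E (b j * star (b k))‖ ≤ 2 * (κ / (2 * (Fintype.card I : ℝ) ^ 2 + 1)) := by
    intro j k
    have a1 : ⟪ξ, (av fun ρ => u ρ * (b j * star (b k)) * star (u ρ)) ξ⟫_ℂ =
        ⟪ξ, (b j * star (b k)) ξ⟫_ℂ := by
      rw [av_apply, ← innerSL_apply_apply, map_av', ← av_const (ι := R) ⟪ξ, _⟫_ℂ]
      refine congrArg av (funext fun ρ => ?_)
      rw [innerSL_apply_apply, hξ.inner_comm (mul_mem (u1 ρ) (mul_mem (hb j) (star_mem (hb k))))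
        (star_mem (u1 ρ)), ← mul_assoc, Unitary.star_mul_self_of_mem (u2 ρ), one_mul]
    have a2 := near_pc1 h1 (x := (av fun ρ => u ρ * (b j * star (b k)) * star (u ρ)) ξ) (hc j k)
    rwa [a1] at a2
  refine h0 D H π N hπ ξ hξ h1 (cnj θ W) (fun k => ∑ j, star (W j k) • b j) (hθ.cnj hW1)
    (fun k => sum_mem fun j _ => N.toStarSubalgebra.smul_mem (hb j) _) ?_ U hU (fun x hx => ?_)
    z hz z1 z2 R u u1 u2 η e2 fun k l => ?_
  · rwa [← tmap_one, tmap_pc1, mul_one, w2, tmap_one]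
  · rw [tmap_pc1, cnj_apply, ← mul_assoc, ← mul_assoc, w2, one_mul, mul_assoc, w2, mul_one]
    exact happ x hx
  · rw [← e2]
    change ‖E ((∑ j, star (W j k) • b j) * star (∑ j, star (W j l) • b j))‖ ≤ κ
    rw [e1]
    simp only [map_sum, map_smul]
    refine (norm_sum_le_of_le _ fun j' _ => norm_sum_le_of_le
      (n := fun _ => 2 * (κ / (2 * (Fintype.card I : ℝ) ^ 2 + 1))) _ fun j _ => ?_).trans ?_
    · rw [norm_smul, norm_mul, norm_star]
      exact (mul_le_of_le_one_left (norm_nonneg _) (mul_le_one₀ (hW1.norm_apply_le _ _)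
        (norm_nonneg _) (hW1.norm_apply_le _ _))).trans (e3 j j')
    · simp only [Finset.sum_const, Finset.card_univ, nsmul_eq_mul, ← mul_div_assoc]
      rw [div_le_iff₀ (by positivity)]
      nlinarith

end Ulam
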