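import Pool.Agent.P.MP_3be8c7_an.PCB
import Pool.Agent.P.MP_3be8c7_an.OZB

open scoped ComplexOrder InnerProductSpace
open Filter Topology

noncomputable section

namespace Ulam

universe u v w

section Aux

variable {A : Type*} [CStarAlgebra A] {J M : Type*} [Fintype J] [DecidableEq J] [Fintype M]
  [DecidableEq M] {F W : J → A} {p : A} {lev : J → M}

/-- The level sums. -/
def lsum_pca (F W : J → A) (lev : J → M) (m : M) : A :=
  ∑ q, if lev q = m then F q * W q else 0

omit [Fintype M] in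
theorem key_pca (hF : ∀ q q', star (F q) * F q' = if q = q' then p else 0)
    (hW : ∀ q, p * W q = W q) (m : M) (q : J) :
    star (F q) * lsum_pca F W lev m = if lev q = m then W q else 0 := by
  rw [lsum_pca, Finset.mul_sum, Finset.sum_eq_single q]
  · split_ifs
    · rw [← mul_assoc, hF, if_pos rfl, hW]
    · exact mul_zero _
  · intro q' _ h
    split_ifs
    · rw [← mul_assoc, hF, if_neg h.symm, zero_mul]
    · exact mul_zero _
  · simp

omit [Fintype J] [DecidableEq J] in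
theorem two_pca (a b : M) (X Y : A) :
    ∑ m, (if a = m then X else 0) * (if b = m then Y else 0) = if a = b then X * Y else 0 := by
  rw [Finset.sum_eq_single a]
  · by_cases h : a = b
    · simp [h]
    · simp [h, Ne.symm h]
  · intro m _ h
    simp [h.symm]
  · simp

theorem ev_pca (hF : ∀ q q', star (F q) * F q' = if q = q' then p else 0)
    (hW : ∀ q, p * W q = W q) (x : Matrix J J ℂ) :
    ∑ m, star (lsum_pca F W lev m) * psi F x * lsum_pca F W lev m =
      ∑ q, ∑ q', x q q' • if lev q = lev q' then star (W q) * W q' else 0 := by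
  have h : ∀ m, star (lsum_pca F W lev m) * psi F x * lsum_pca F W lev m = ∑ q, ∑ q',
      x q q' • ((if lev q = m then star (W q) else 0) * if lev q' = m then W q' else 0) := by
    intro m
    simp only [psi, Finset.mul_sum, Finset.sum_mul, mul_smul_comm, smul_mul_assoc]
    refine Finset.sum_congr rfl fun q _ => Finset.sum_congr rfl fun q' _ => ?_
    have h1 := congrArg star (key_pca (lev := lev) hF hW m q)
    rw [star_mul, star_star, apply_ite star, star_zero] at h1
    rw [← h1, ← key_pca hF hW m q']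
    simp only [mul_assoc]
  simp only [h]
  rw [Finset.sum_comm]
  refine Finset.sum_congr rfl fun q _ => ?_
  rw [Finset.sum_comm]
  refine Finset.sum_congr rfl fun q' _ => ?_
  rw [← Finset.smul_sum, two_pca]

theorem col_pca (hF : ∀ q q', star (F q) * F q' = if q = q' then p else 0)
    (hW : ∀ q, p * W q = W q) :
    ∑ m, star (lsum_pca F W lev m) * lsum_pca F W lev m = ∑ q, star (W q) * W q := by
  have h : ∀ m, star (lsum_pca F W lev m) * lsum_pca F W lev m = ∑ q,
      (if lev q = m then star (W q) else 0) * if lev q = m then W q else 0 := by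
    intro m
    nth_rewrite 1 [lsum_pca]
    rw [star_sum, Finset.sum_mul]
    refine Finset.sum_congr rfl fun q _ => ?_
    rw [← key_pca hF hW m q]
    split_ifs
    · rw [star_mul, mul_assoc]
    · simp
  simp only [h]
  rw [Finset.sum_comm]
  refine Finset.sum_congr rfl fun q _ => ?_
  rw [two_pca, if_pos rfl]

omit [DecidableEq J] in
theorem row_pca : ∑ m, lsum_pca F W lev m * star (lsum_pca F W lev m) =
    ∑ q, ∑ q', if lev q = lev q' then F q * (W q * star (W q')) * star (F q') else 0 := by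
  simp only [lsum_pca, star_sum, Finset.sum_mul_sum, apply_ite star, star_zero]
  rw [Finset.sum_comm]
  refine Finset.sum_congr rfl fun q _ => ?_
  rw [Finset.sum_comm]
  refine Finset.sum_congr rfl fun q' _ => ?_
  rw [two_pca, star_mul]
  simp only [mul_assoc]

theorem count_pca {V I : Type*} [AddCommMonoid V] [Fintype I] (μ : I → ℕ) (g : I → I → V) :
    ∑ q : Σ k, Fin (μ k), ∑ q' : Σ k, Fin (μ k), (if (q.2 : ℕ) = q'.2 then g q.1 q'.1 else 0) =
      ∑ j, ∑ k, min (μ j) (μ k) • g j k := by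
  simp only [Fintype.sum_sigma]
  refine Finset.sum_congr rfl fun j _ => ?_
  rw [Finset.sum_comm]
  refine Finset.sum_congr rfl fun k _ => ?_
  have h : ∀ a : ℕ, ∑ b : Fin (μ k), (if a = (b : ℕ) then g j k else 0) =
      if a ∈ Finset.range (μ k) then g j k else 0 := fun a => by
    rw [Fin.sum_univ_eq_sum_range (fun b => if a = b then g j k else 0), Finset.sum_ite_eq]
  simp only [h]
  rw [Fin.sum_univ_eq_sum_range (fun a => if a ∈ Finset.range (μ k) then g j k else 0),
    Finset.sum_ite_mem, Finset.range_inter_range, Finset.sum_const, Finset.card_range]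

theorem min_le_pca (m n : ℕ) : (min m n : ℕ) * ((√(m : ℝ))⁻¹ * (√(n : ℝ))⁻¹) ≤ 1 := by
  rw [← mul_inv, ← Real.sqrt_mul (Nat.cast_nonneg _), ← div_eq_mul_inv]
  refine div_le_one_of_le₀ (Real.le_sqrt_of_sq_le ?_) (Real.sqrt_nonneg _)
  rw [sq]
  exact mul_le_mul (by exact_mod_cast min_le_left m n) (by exact_mod_cast min_le_right m n)
    (Nat.cast_nonneg _) (Nat.cast_nonneg _)

variable {R Γ : Type*} [Fintype R] [Fintype Γ]

theorem gram_pca {r z : A} (hr : star r = r) (u : R → A) (y : Γ → A)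
    (hy : ∑ γ, star (y γ) * y γ = z) (b b' : A) (s s' : ℝ) :
    ∑ ω : R × Γ, star ((s * (√(Fintype.card R : ℝ))⁻¹) • (y ω.2 * r * u ω.1 * b)) *
      ((s' * (√(Fintype.card R : ℝ))⁻¹) • (y ω.2 * r * u ω.1 * b')) =
      (s * s') • (star b * av (fun ρ => star (u ρ) * (r * z * r) * u ρ) * b') := by
  have h : s * (√(Fintype.card R : ℝ))⁻¹ * (s' * (√(Fintype.card R : ℝ))⁻¹) =
      s * s' * (Fintype.card R : ℝ)⁻¹ := by
    rw [mul_mul_mul_comm, ← mul_inv, Real.mul_self_sqrt (Nat.cast_nonneg _)]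
  simp only [star_smul, star_trivial, smul_mul_smul_comm, h]
  simp only [av, ← hy, Fintype.sum_prod_type, mul_smul_comm, smul_mul_assoc, Finset.mul_sum, Finset.sum_mul, Finset.smul_sum, smul_smul,
    star_mul, hr, mul_assoc]

theorem cogram_pca {r : A} (hr : star r = r) (u : R → A) (y b b' : A) (s s' : ℝ) :
    ∑ ρ, ((s * (√(Fintype.card R : ℝ))⁻¹) • (y * r * u ρ * b)) *
      star ((s' * (√(Fintype.card R : ℝ))⁻¹) • (y * r * u ρ * b')) =
      (s * s') • (y * (r * av (fun ρ => u ρ * (b * star b') * star (u ρ)) * r) * star y) := by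
  have h : s * (√(Fintype.card R : ℝ))⁻¹ * (s' * (√(Fintype.card R : ℝ))⁻¹) =
      s * s' * (Fintype.card R : ℝ)⁻¹ := by
    rw [mul_mul_mul_comm, ← mul_inv, Real.mul_self_sqrt (Nat.cast_nonneg _)]
  simp only [star_smul, star_trivial, smul_mul_smul_comm, h]
  simp only [av, mul_smul_comm, smul_mul_assoc, Finset.mul_sum, Finset.sum_mul, Finset.smul_sum, smul_smul,
    star_mul, hr, mul_assoc]

theorem main_pca [PartialOrder A] [StarOrderedRing A] (hF : ∀ q q', q ≠ q' → star (F q) * F q' = 0) (hF1 : ∀ q, ‖F q‖ ≤ 1) (a : J → ℝ)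
    (h0 : ∀ q, 0 ≤ a q) (h1 : ∀ q, a q ≤ 1) (T : A) :
    ‖∑ q, a q • (F q * T * star (F q))‖ ≤ ‖T‖ := by
  have hoz : IsOZ (fun q : J => q) fun q => √(a q) • F q := by
    refine ⟨fun j k h => ?_, fun j k h => by rw [show j = k from h], fun j => ?_⟩
    · rw [star_smul, smul_mul_smul_comm, hF j k h, smul_zero]
    · rw [norm_smul, Real.norm_of_nonneg (Real.sqrt_nonneg _)]
      exact mul_le_one₀ (Real.sqrt_le_one.2 (h1 j)) (norm_nonneg _) (hF1 j)
  have h2 := norm_sum_sandwich_le (fun q => star (√(a q) • F q)) (fun q => star (√(a q) • F q)) T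
  simp only [star_star] at h2
  have h3 := Real.sqrt_le_one.2 hoz.norm_sum_le
  have h4 : ∀ q, √(a q) • F q * T * star (√(a q) • F q) = a q • (F q * T * star (F q)) := by
    intro q
    rw [star_smul, star_trivial, smul_mul_assoc, smul_mul_smul_comm, Real.mul_self_sqrt (h0 q)]
  simp only [h4] at h2
  refine h2.trans ?_
  rw [mul_assoc]
  exact mul_le_of_le_one_right (norm_nonneg _) (mul_le_one₀ h3 (Real.sqrt_nonneg _) h3)

theorem sand_pca {x T : A} {x' : A} {c : ℝ} (hx : ‖x‖ ≤ 1) (hx' : ‖x'‖ ≤ 1) (hT : ‖T‖ ≤ c) :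
    ‖x * T * star x'‖ ≤ c := by
  have h1 : ‖x * T‖ ≤ c :=
    (norm_mul_le _ _).trans ((mul_le_of_le_one_left (norm_nonneg _) hx).trans hT)
  refine (norm_mul_le _ _).trans ((mul_le_of_le_one_right (norm_nonneg _) ?_).trans h1)
  rwa [norm_star]

end Aux

variable {D : Type u} [CStarAlgebra D] [PartialOrder D] [StarOrderedRing D]
variable {H : Type v} [NormedAddCommGroup H] [InnerProductSpace ℂ H] [CompleteSpace H]

theorem pca (N : VonNeumannAlgebra H) {I : Type} [Fintype I] [DecidableEq I]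
    {θ : D →ₗ[ℂ] Matrix I I ℂ} (hθ : IsCCP θ) {s : ℕ} {z : H →L[ℂ] H} (hz : Div N s z)
    (hz1 : ‖z‖ ≤ 1) {r : H →L[ℂ] H} (hr : IsStarProjection r) (hrN : r ∈ N) {R : Type} [Fintype R]
    [Nonempty R] (u : R → (H →L[ℂ] H)) (hu : ∀ ρ, u ρ ∈ N) (hu' : ∀ ρ, u ρ ∈ unitary (H →L[ℂ] H))
    (b : I → (H →L[ℂ] H)) (hb : ∀ k, b k ∈ N) (hcol : ‖∑ k, star (b k) * b k‖ ≤ 1)
    (μ : I → ℕ) (hμ : ∀ k, 1 ≤ μ k) (hμs : ∑ k, μ k ≤ 2 ^ s) (η : I → ℝ) (hη : ∀ k, 0 ≤ η k)
    (hημ : ∀ k, 2 ^ (s + 1) * η k ≤ 8 * μ k) {κ : ℝ}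
    (hκ : 2 ^ (s + 1) * (Fintype.card I : ℝ) ^ 2 * κ ≤ 1)
    (hav : ∀ j k, ‖r * (av (fun ρ => u ρ * (b j * star (b k)) * star (u ρ)) -
      (if j = k then (η j : ℂ) else 0) • (1 : H →L[ℂ] H)) * r‖ ≤ κ) :
    ∃ d : SData D (H →L[ℂ] H), d.In N ∧ ∀ a, d.ev a = ∑ j, ∑ k, schur μ (θ a) j k •
      (star (b j) * av (fun ρ => star (u ρ) * (r * z * r) * u ρ) * b k) := by
  obtain ⟨p, f, Γ, _, y, hp, -, hfN, hf, hΓ, hyN, hpy, hy⟩ := hz
  obtain ⟨io⟩ : Nonempty ((Σ k, Fin (μ k)) ↪ Fin (2 ^ s)) :=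
    Function.Embedding.nonempty_of_card_le (by simpa using hμs)
  have hlt : ∀ q : Σ k, Fin (μ k), (q.2 : ℕ) < 2 ^ s := fun q => q.2.2.trans_le
    ((Finset.single_le_sum (fun k _ => Nat.zero_le (μ k)) (Finset.mem_univ q.1)).trans hμs)
  obtain ⟨lev, hlev⟩ : ∃ lev : (Σ k, Fin (μ k)) → Fin (2 ^ s),
      ∀ q q', lev q = lev q' ↔ (q.2 : ℕ) = q'.2 :=
    ⟨fun q => ⟨q.2, hlt q⟩, fun q q' => Fin.ext_iff⟩
  obtain ⟨F, hFN, hF⟩ : ∃ F : (Σ k, Fin (μ k)) → (H →L[ℂ] H), (∀ q, F q ∈ N) ∧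
      ∀ q q', star (F q) * F q' = if q = q' then p else 0 :=
    ⟨fun q => f (io q), fun q => hfN _, fun q q' => by simp only [hf, io.injective.eq_iff]⟩
  have hFp : ∀ q, star (F q) * F q = p := fun q => by rw [hF, if_pos rfl]
  have hF0 : ∀ q q', q ≠ q' → star (F q) * F q' = 0 := fun q q' h => by rw [hF, if_neg h]
  have hF1 : ∀ q, ‖F q‖ ≤ 1 := fun q => pi_norm_le (by rwa [hFp])
  have hy1 : ∀ γ, ‖y γ‖ ≤ 1 := norm_le_one_of_col y (by rwa [hy])
  have hr1 : ‖r‖ ≤ 1 := hr.norm_le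
  have hrs : star r = r := hr.isSelfAdjoint
  have hoz : IsOZ (fun _ => ()) F := ⟨hF0, fun j k _ => by rw [hFp, hFp], hF1⟩
  have hinj : Function.Injective fun q : Σ k, Fin (μ k) => (q.1, lev q) := by
    rintro ⟨j, a⟩ ⟨k, a'⟩ h
    obtain ⟨h1, h2⟩ := Prod.mk.inj h
    obtain rfl : j = k := h1
    rw [show a = a' from Fin.ext ((hlev ⟨j, a⟩ ⟨j, a'⟩).1 h2)]
  set t : I → ℝ := fun k => (√(μ k : ℝ))⁻¹ with ht
  have ht0 : ∀ k, 0 ≤ t k := fun k => by positivity
  have hμ0 : ∀ k, (0 : ℝ) < μ k := fun k => by exact_mod_cast hμ k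
  have htt : ∀ k, t k * t k = (μ k : ℝ)⁻¹ := fun k => by
    rw [ht, ← mul_inv, Real.mul_self_sqrt (hμ0 k).le]
  set W : R × Γ → (Σ k, Fin (μ k)) → (H →L[ℂ] H) := fun ω q =>
    (t q.1 * (√(Fintype.card R : ℝ))⁻¹) • (y ω.2 * r * u ω.1 * b q.1) with hWd
  have hW : ∀ ω q, p * W ω q = W ω q := fun ω q => by
    simp only [hWd, mul_smul_comm, ← mul_assoc, hpy]
  have hG := fun q q' : Σ k, Fin (μ k) => gram_pca hrs u y hy (b q.1) (b q'.1) (t q.1) (t q'.1)
  set Q := av fun ρ => star (u ρ) * (r * z * r) * u ρ with hQ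
  have hu1 : ∀ ρ, ‖star (u ρ)‖ ≤ 1 := fun ρ => by
    rw [norm_star]
    exact pi_norm_le (by rw [(hu' ρ).1]; exact IsStarProjection.one _)
  have hQ1 : ‖Q‖ ≤ 1 := norm_av_le_of_le _ one_pos.le fun ρ => by
    have := sand_pca (hu1 ρ) (hu1 ρ) (sand_pca hr1 hr1 hz1)
    rwa [star_star, hrs] at this
  have col : ‖∑ i : (R × Γ) × Fin (2 ^ s),
      star (lsum_pca F (W i.1) lev i.2) * lsum_pca F (W i.1) lev i.2‖ ≤ 1 := by
    rw [Fintype.sum_prod_type]
    simp only [col_pca hF (hW _)]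
    rw [Finset.sum_comm]
    simp only [hWd, hG, htt, Fintype.sum_sigma, Finset.sum_const, Finset.card_univ,
      Fintype.card_fin, ← Nat.cast_smul_eq_nsmul ℝ, smul_smul, mul_inv_cancel₀ (hμ0 _).ne',
      one_smul]
    have h3 := Real.sqrt_le_one.2 hcol
    refine (norm_sum_sandwich_le b b Q).trans ?_
    exact mul_le_one₀ (mul_le_one₀ hQ1 (Real.sqrt_nonneg _) h3) (Real.sqrt_nonneg _) h3
  have row : ‖∑ i : (R × Γ) × Fin (2 ^ s),
      lsum_pca F (W i.1) lev i.2 * star (lsum_pca F (W i.1) lev i.2)‖ ≤ 9 := by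
    obtain ⟨E, hE, hE'⟩ : ∃ E : I → I → (H →L[ℂ] H), (∀ j k, ‖E j k‖ ≤ κ) ∧ ∀ j k,
        r * av (fun ρ => u ρ * (b j * star (b k)) * star (u ρ)) * r =
          E j k + (if j = k then η j else 0) • r := by
      refine ⟨_, hav, fun j k => ?_⟩
      rw [mul_sub, sub_mul, mul_smul_comm, smul_mul_assoc, mul_one, hr.isIdempotentElem.eq]
      split_ifs <;> simp
    have h2 : (0 : ℝ) < 2 ^ (s + 1) := by positivity
    have hΓ' : (Fintype.card Γ : ℝ) ≤ 2 ^ (s + 1) := by exact_mod_cast hΓ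
    have e : ∑ i : (R × Γ) × Fin (2 ^ s),
        lsum_pca F (W i.1) lev i.2 * star (lsum_pca F (W i.1) lev i.2) = ∑ γ,
        ((∑ q, ∑ q', if lev q = lev q' then
          (t q.1 * t q'.1) • (F q * (y γ * E q.1 q'.1 * star (y γ)) * star (F q')) else 0) +
        (8 / 2 ^ (s + 1) : ℝ) • ∑ q, (2 ^ (s + 1) * η q.1 / (8 * μ q.1)) •
          (F q * (y γ * r * star (y γ)) * star (F q))) := by
      rw [Fintype.sum_prod_type]
      simp only [row_pca]
      rw [Fintype.sum_prod_type_right]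
      refine Finset.sum_congr rfl fun γ _ => ?_
      rw [Finset.smul_sum, ← Finset.sum_add_distrib, Finset.sum_comm]
      refine Finset.sum_congr rfl fun q _ => ?_
      rw [Finset.sum_comm, ← Finset.sum_ite_eq_of_mem Finset.univ q (fun q' =>
        (8 / 2 ^ (s + 1) : ℝ) • (2 ^ (s + 1) * η q.1 / (8 * μ q.1)) •
          (F q * (y γ * r * star (y γ)) * star (F q'))) (Finset.mem_univ q),
        ← Finset.sum_add_distrib]
      refine Finset.sum_congr rfl fun q' _ => ?_
      by_cases h : lev q = lev q'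
      · simp only [if_pos h]
        rw [← Finset.sum_mul, ← Finset.mul_sum]
        simp only [hWd]
        rw [cogram_pca hrs, hE']
        simp only [mul_add, add_mul, smul_add, mul_smul_comm, smul_mul_assoc, smul_smul]
        congr 1
        by_cases h' : q = q'
        · subst h'
          rw [if_pos rfl, if_pos rfl, htt]
          congr 1
          have := (hμ0 q.1).ne'
          field_simp
        · rw [if_neg h', if_neg fun h3 => h' (hinj (Prod.ext h3 h)), mul_zero, zero_smul]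
      · simp only [if_neg h, if_neg fun h3 : q = q' => h (h3 ▸ rfl), Finset.sum_const_zero,
          add_zero]
    have hκ' : (Fintype.card I : ℝ) ^ 2 * κ ≤ 1 / 2 ^ (s + 1) := by
      rw [le_div_iff₀ h2]
      linarith
    rw [e]
    refine (norm_sum_le_of_le _ (n := fun _ => 9 / 2 ^ (s + 1)) fun γ _ => ?_).trans ?_
    · refine (norm_add_le_of_le (r₁ := 1 / 2 ^ (s + 1)) (r₂ := 8 / 2 ^ (s + 1)) ?_ ?_).trans
        (by rw [← add_div]; norm_num)
      · refine (norm_sum_le_of_le _ (n := fun q => ∑ q',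
          if (q.2 : ℕ) = q'.2 then t q.1 * t q'.1 * κ else 0) fun q _ =>
            norm_sum_le_of_le _ fun q' _ => ?_).trans ?_
        · simp only [hlev]
          split_ifs
          · rw [norm_smul, Real.norm_of_nonneg (mul_nonneg (ht0 _) (ht0 _))]
            exact mul_le_mul_of_nonneg_left (sand_pca (hF1 _) (hF1 _)
              (sand_pca (hy1 _) (hy1 _) (hE _ _))) (mul_nonneg (ht0 _) (ht0 _))
          · exact norm_zero.le
        · rw [count_pca μ fun j k => t j * t k * κ]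
          refine le_trans ?_ hκ'
          refine (Finset.sum_le_sum (g := fun _ => ∑ _k : I, κ) fun j _ =>
            Finset.sum_le_sum fun k _ => ?_).trans (by simp [sq, mul_assoc])
          rw [nsmul_eq_mul, ← mul_assoc]
          exact mul_le_of_le_one_left ((norm_nonneg _).trans (hE j k)) (min_le_pca _ _)
      · rw [norm_smul, Real.norm_of_nonneg (by positivity)]
        refine mul_le_of_le_one_right (by positivity) ((main_pca hF0 hF1 _ (fun q => ?_)
          (fun q => ?_) _).trans (sand_pca (hy1 γ) (hy1 γ) hr1))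
        · have := hη q.1
          positivity
        · exact div_le_one_of_le₀ (hημ _) (by positivity)
    · rw [Finset.sum_const, Finset.card_univ, nsmul_eq_mul, mul_div_assoc', div_le_iff₀ h2]
      linarith
  refine ⟨SData.mk (Σ k, Fin (μ k)) Unit ((R × Γ) × Fin (2 ^ s)) (fun _ => ())
    (ampl θ (fun q => q.1) lev) F (fun i => lsum_pca F (W i.1) lev i.2) hoz (hθ.ampl _ _ hinj)
    (fun a j k h => absurd rfl h) col row, ⟨hFN, fun q => ?_, fun i => ?_⟩, fun a => ?_⟩
  · change IsStarProjection (star (F q) * F q)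
    rwa [hFp]
  · refine sum_mem fun q _ => ?_
    split_ifs
    · exact mul_mem (hFN q) (vn_real_smul_mem N _
        (mul_mem (mul_mem (mul_mem (hyN _) hrN) (hu _)) (hb _)))
    · exact zero_mem _
  · change ∑ i : (R × Γ) × Fin (2 ^ s), star (lsum_pca F (W i.1) lev i.2) *
      hpsi F (ampl θ (fun q => q.1) lev a) * lsum_pca F (W i.1) lev i.2 = _
    rw [hoz.hpsi_eq_psi (fun q => by rwa [hFp]), Fintype.sum_prod_type]
    simp only [ev_pca hF (hW _)]
    have e : ∀ j k, schur μ (θ a) j k • (star (b j) * Q * b k) =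
        min (μ j) (μ k) • θ a j k • (t j * t k) • (star (b j) * Q * b k) := fun j k => by
      rw [schur, Matrix.of_apply, mul_smul, Complex.coe_smul, ← Nat.cast_smul_eq_nsmul ℝ,
        smul_comm (_ : ℝ) (θ a j k), smul_smul, ht, ← mul_inv, ← Real.sqrt_mul (hμ0 j).le,
        div_eq_mul_inv]
    simp only [e]
    rw [← count_pca μ fun j k => θ a j k • (t j * t k) • (star (b j) * Q * b k), Finset.sum_comm]
    refine Finset.sum_congr rfl fun q _ => ?_
    rw [Finset.sum_comm]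
    refine Finset.sum_congr rfl fun q' _ => ?_
    rw [← Finset.smul_sum]
    change (if lev q = lev q' then θ a q.1 q'.1 else 0) • _ = _
    simp only [hlev]
    split_ifs
    · simp only [hWd, hG]
    · exact zero_smul _ _

end Ulam
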