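import Pool.Agent.P.MP_3be8c7_an.MPS
import Pool.Agent.P.MP_3be8c7_an.VB

open scoped ComplexOrder InnerProductSpace
open Filter Topology

noncomputable section

namespace Ulam

universe u v w

/-- The Schur multiplier of a multiplicity function. -/
def schur {I : Type*} (μ : I → ℕ) (x : Matrix I I ℂ) : Matrix I I ℂ :=
  Matrix.of fun j k => x j k * ((min (μ j) (μ k) : ℕ) / √((μ j : ℝ) * μ k) : ℝ)

theorem real_pcb {m n : ℕ} (hm : 1 ≤ m) (hn : 1 ≤ n) {K e f : ℝ} (hK : 0 < K) (he : 0 ≤ e)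
    (hf : 0 ≤ f) (m1 : K * e ≤ m) (m2 : m ≤ K * e + 1) (n1 : K * f ≤ n) (n2 : n ≤ K * f + 1) :
    (1 - (min m n : ℕ) / √((m : ℝ) * n)) ^ 2 * f ≤ 2 * (√e - √f) ^ 2 + 2 / K := by
  have hm0 : (0 : ℝ) < m := by exact_mod_cast hm
  have hn0 : (0 : ℝ) < n := by exact_mod_cast hn
  have key : ∀ {t g : ℝ}, 0 ≤ g → K * g ≤ t → t ≤ K * g + 1 →
      √K * √g ≤ √t ∧ √t ≤ √K * √g + 1 := by
    intro t g hg h1 h2
    rw [← Real.sqrt_mul hK.le]
    refine ⟨Real.sqrt_le_sqrt h1, Real.sqrt_le_iff.2 ⟨by positivity, ?_⟩⟩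
    nlinarith [Real.sq_sqrt (mul_nonneg hK.le hg), Real.sqrt_nonneg (K * g)]
  obtain ⟨a1, a2⟩ := key he m1 m2
  obtain ⟨c1, c2⟩ := key hf n1 n2
  have ha := Real.sqrt_pos.2 hm0
  have hc := Real.sqrt_pos.2 hn0
  have ea := Real.sq_sqrt hm0.le
  have ec := Real.sq_sqrt hn0.le
  have h1 : (1 - (min m n : ℕ) / √((m : ℝ) * n)) ^ 2 * n ≤ (√m - √n) ^ 2 := by
    rw [Real.sqrt_mul hm0.le]
    rcases le_total m n with h | h
    · rw [min_eq_left h]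
      generalize √(m : ℝ) = a at *
      generalize √(n : ℝ) = c at *
      rw [← ea, ← ec]
      exact le_of_eq (by field_simp; ring)
    · rw [min_eq_right h]
      have h' : (n : ℝ) ≤ m := by exact_mod_cast h
      generalize √(m : ℝ) = a at *
      generalize √(n : ℝ) = c at *
      refine (mul_le_mul_of_nonneg_left h' (sq_nonneg _)).trans (le_of_eq ?_)
      rw [← ea, ← ec]
      field_simp
  have h2 : (√(m : ℝ) - √n) ^ 2 ≤ 2 * (K * (√e - √f) ^ 2) + 2 := by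
    have e1 : K * (√e - √f) ^ 2 = (√K * √e - √K * √f) ^ 2 := by
      rw [← mul_sub, mul_pow, Real.sq_sqrt hK.le]
    rw [e1]
    generalize √K * √e = p at *
    generalize √K * √f = q at *
    have h3 : (√(m : ℝ) - p - (√n - q)) ^ 2 ≤ 1 := by
      rw [sq_le_one_iff_abs_le_one, abs_le]
      constructor <;> linarith
    nlinarith [sq_nonneg (p - q - (√(m : ℝ) - p - (√n - q)))]
  have h3 := mul_le_mul_of_nonneg_left n1 (sq_nonneg (1 - (min m n : ℕ) / √((m : ℝ) * n)))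
  refine le_of_mul_le_mul_left ?_ hK
  rw [mul_add, mul_div_cancel₀ _ hK.ne']
  linarith

section

variable {E : Type*} [NormedAddCommGroup E] [InnerProductSpace ℂ E] {I : Type*} [Fintype I]

theorem cs_pcb (A B : I → E) :
    (∑ j, ⟪A j, B j⟫_ℂ).re ≤ √(∑ j, ‖A j‖ ^ 2) * √(∑ j, ‖B j‖ ^ 2) := by
  refine le_trans ?_ (Real.sum_mul_le_sqrt_mul_sqrt Finset.univ (fun j => ‖A j‖) fun j => ‖B j‖)
  rw [Complex.re_sum]
  exact Finset.sum_le_sum fun j _ => (Complex.re_le_norm _).trans (norm_inner_le_norm _ _)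

variable [DecidableEq I]

theorem gram_pcb {v : I → E} {η : I → ℝ}
    (hv : ∀ j k, ⟪v j, v k⟫_ℂ = if k = j then (η k : ℂ) else 0) (a c : I → ℂ) :
    ⟪∑ k, a k • v k, ∑ k, c k • v k⟫_ℂ = ∑ k, star (a k) * (c k * η k) := by
  simp [hv, mul_comm, mul_assoc]

theorem form_pcb {X : Matrix I I ℂ} (hX : Contr X) (P Q : I → E) (hP : ∑ j, ‖P j‖ ^ 2 ≤ 1)
    (hQ : ∑ j, ‖Q j‖ ^ 2 ≤ 1) {d : ℝ} (hd : ∑ j, ‖P j - Q j‖ ^ 2 ≤ d) :
    (∑ j, ⟪Q j, ∑ k, X j k • Q k⟫_ℂ - ∑ j, ⟪P j, ∑ k, X j k • P k⟫_ℂ).re ≤ 2 * √d := by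
  have hd' : ∑ j, ‖Q j - P j‖ ^ 2 ≤ d := by simpa only [norm_sub_rev] using hd
  have e : ∑ j, ⟪Q j, ∑ k, X j k • Q k⟫_ℂ - ∑ j, ⟪P j, ∑ k, X j k • P k⟫_ℂ =
      ∑ j, ⟪Q j - P j, ∑ k, X j k • Q k⟫_ℂ + ∑ j, ⟪P j, ∑ k, X j k • (Q k - P k)⟫_ℂ := by
    simp only [smul_sub, Finset.sum_sub_distrib, inner_sub_left, inner_sub_right]
    ring
  have h1 := (cs_pcb (fun j => Q j - P j) fun j => ∑ k, X j k • Q k).trans (mul_le_mul
    (Real.sqrt_le_sqrt hd') (Real.sqrt_le_one.2 ((hX.sum_norm_sq_le Q).trans hQ))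
    (Real.sqrt_nonneg _) (Real.sqrt_nonneg _))
  have h2 := (cs_pcb P fun j => ∑ k, X j k • (Q k - P k)).trans (mul_le_mul
    (Real.sqrt_le_one.2 hP) (Real.sqrt_le_sqrt ((hX.sum_norm_sq_le fun k => Q k - P k).trans hd'))
    (Real.sqrt_nonneg _) zero_le_one)
  rw [e, Complex.add_re]
  linarith

theorem step_pcb {v Q : I → E} {η : I → ℝ}
    (hv : ∀ j k, ⟪v j, v k⟫_ℂ = if k = j then (η k : ℂ) else 0)
    (hQ : ∀ j k, ⟪Q j, Q k⟫_ℂ = if k = j then (η k : ℂ) else 0) (x X : Matrix I I ℂ) :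
    (X * (Matrix.diagonal (fun k => (η k : ℂ)) -
        x * Matrix.diagonal (fun k => (η k : ℂ)) * star x)).trace =
      ∑ j, ⟪Q j, ∑ k, X j k • Q k⟫_ℂ -
        ∑ j, ⟪∑ k, x j k • v k, ∑ k, X j k • ∑ l, x k l • v l⟫_ℂ := by
  have e : ∀ j, ∑ k, X j k • ∑ l, x k l • v l = ∑ l, (X * x) j l • v l := by
    intro j
    simp only [Finset.smul_sum, Matrix.mul_apply, Finset.sum_smul, mul_smul]
    exact Finset.sum_comm
  rw [Matrix.mul_sub, Matrix.trace_sub, ← Matrix.mul_assoc, ← Matrix.mul_assoc]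
  congr 1
  · simp [Matrix.trace, hQ]
  · refine Finset.sum_congr rfl fun j _ => ?_
    rw [e, gram_pcb hv, Matrix.diag_apply, Matrix.mul_apply]
    refine Finset.sum_congr rfl fun k _ => ?_
    rw [Matrix.mul_diagonal, Matrix.star_apply, mul_comm]

end

variable {H : Type v} [NormedAddCommGroup H] [InnerProductSpace ℂ H] [CompleteSpace H]

theorem pcb (N : VonNeumannAlgebra H) {ξ : H} (hξ : TrVec N ξ) (h1 : ‖ξ‖ = 1) {I : Type*}
    [Fintype I] [DecidableEq I] (b : I → (H →L[ℂ] H)) (hb : ∀ k, b k ∈ N)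
    (hcol : ‖∑ k, star (b k) * b k‖ ≤ 1) (η : I → ℝ)
    (hη : ∀ j k, ⟪ξ, (b j * star (b k)) ξ⟫_ℂ = if j = k then (η j : ℂ) else 0)
    {x : Matrix I I ℂ} (hx : Contr x) {w : H →L[ℂ] H} (hw : w ∈ N)
    (hw' : w ∈ unitary (H →L[ℂ] H)) {δ : ℝ} (hδ : ‖(w - tmap b x) ξ‖ ≤ δ) {K : ℝ} (hK : 0 < K)
    (μ : I → ℕ) (hμ : ∀ k, 1 ≤ μ k) (hμ1 : ∀ k, K * η k ≤ μ k) (hμ2 : ∀ k, μ k ≤ K * η k + 1) :
    ‖tmap b (x - schur μ x) ξ‖ ^ 2 ≤ 24 * √(2 * δ) + 2 * Fintype.card I / K := by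
  have hv : ∀ j k, ⟪b j ξ, b k ξ⟫_ℂ = if k = j then (η k : ℂ) else 0 := by
    intro j k
    rw [← hη, hξ.inner_comm (hb k) (star_mem (hb j)), mul_apply_eq_comp,
      ContinuousLinearMap.star_eq_adjoint, ContinuousLinearMap.adjoint_inner_right]
  have hQ : ∀ j k, ⟪b j (w ξ), b k (w ξ)⟫_ℂ = if k = j then (η k : ℂ) else 0 := by
    intro j k
    have h := hξ.inner_comm (star_mem hw) (mul_mem (mul_mem (star_mem (hb j)) (hb k)) hw)
    rw [mul_assoc _ w, Unitary.mul_star_self_of_mem hw', mul_one] at h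
    simp only [mul_apply_eq_comp, ContinuousLinearMap.star_eq_adjoint,
      ContinuousLinearMap.adjoint_inner_right] at h
    rw [h, hv]
  have hη0 : ∀ k, 0 ≤ η k := by
    intro k
    have h := hv k k
    rw [if_pos rfl, inner_self_eq_norm_sq_to_K] at h
    have h' : ((‖b k ξ‖ ^ 2 : ℝ) : ℂ) = η k := by rw [← h]; simp
    rw [← Complex.ofReal_injective h']
    positivity
  have c1 : ∑ k, ‖b k ξ‖ ^ 2 ≤ 1 := by simpa [h1] using sum_norm_sq_le_of_col b hcol ξ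
  have c2 : ∑ k, ‖b k (w ξ)‖ ^ 2 ≤ 1 := by
    simpa [ContinuousLinearMap.norm_map_of_mem_unitary hw', h1] using
      sum_norm_sq_le_of_col b hcol (w ξ)
  have c3 := zest b hcol hx hw' ξ
  rw [h1, mul_one] at c3
  have hm := mps η hη0 hx (δ := 2 * √(2 * δ)) fun X _ hX => by
    rw [step_pcb hv hQ]
    exact form_pcb hX _ _ ((hx.sum_norm_sq_le _).trans c1) c2 (c3.trans (by linarith))
  have s1 : ∀ y : Matrix I I ℂ, ‖tmap b y ξ‖ ^ 2 ≤ ∑ j, ∑ k, ‖y j k‖ ^ 2 * η k := by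
    intro y
    have e : ∀ j, ‖∑ k, y j k • b k ξ‖ ^ 2 = ∑ k, ‖y j k‖ ^ 2 * η k := by
      intro j
      apply Complex.ofReal_injective
      have h := gram_pcb hv (y j) (y j)
      rw [inner_self_eq_norm_sq_to_K] at h
      push_cast
      refine h.trans (Finset.sum_congr rfl fun k _ => ?_)
      rw [← mul_assoc, ← Complex.conj_mul']
      rfl
    have h := cs_pcb (fun j => b j (tmap b y ξ)) fun j => ∑ k, y j k • b k ξ
    have h0 : (⟪tmap b y ξ, tmap b y ξ⟫_ℂ).re = ‖tmap b y ξ‖ ^ 2 := inner_self_eq_norm_sq (𝕜 := ℂ) _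
    rw [← inner_tmap, h0] at h
    simp only [e] at h
    have h2 := Real.sqrt_le_sqrt (sum_norm_sq_le_of_col b hcol (tmap b y ξ))
    rw [Real.sqrt_sq (norm_nonneg _)] at h2
    have h3 : 0 ≤ ∑ j, ∑ k, ‖y j k‖ ^ 2 * η k :=
      Finset.sum_nonneg fun j _ => Finset.sum_nonneg fun k _ => mul_nonneg (sq_nonneg _) (hη0 k)
    have h4 := h.trans (mul_le_mul_of_nonneg_right h2 (Real.sqrt_nonneg _))
    nlinarith [Real.sq_sqrt h3, sq_nonneg (‖tmap b y ξ‖ - √(∑ j, ∑ k, ‖y j k‖ ^ 2 * η k))]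
  refine (s1 _).trans ?_
  have s2 : ∀ j k, ‖(x - schur μ x) j k‖ ^ 2 * η k ≤
      2 * (‖x j k‖ ^ 2 * (√(η j) - √(η k)) ^ 2) + 2 / K * ‖x j k‖ ^ 2 := by
    intro j k
    have e : (x - schur μ x) j k =
        x j k * ((1 - (min (μ j) (μ k) : ℕ) / √((μ j : ℝ) * μ k) : ℝ) : ℂ) := by
      rw [Matrix.sub_apply, schur, Matrix.of_apply, Complex.ofReal_sub, mul_sub,
        Complex.ofReal_one, mul_one]
    have h := mul_le_mul_of_nonneg_left (real_pcb (hμ j) (hμ k) hK (hη0 j) (hη0 k) (hμ1 j) (hμ2 j)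
      (hμ1 k) (hμ2 k)) (sq_nonneg ‖x j k‖)
    rw [e, norm_mul, Complex.norm_real, mul_pow, Real.norm_eq_abs, sq_abs]
    linarith
  refine (Finset.sum_le_sum fun j _ => Finset.sum_le_sum fun k _ => s2 j k).trans ?_
  simp only [Finset.sum_add_distrib, ← Finset.mul_sum]
  have h := mul_le_mul_of_nonneg_left hx.sum_sq_le (show 0 ≤ 2 / K by positivity)
  have e : 2 * (Fintype.card I : ℝ) / K = 2 / K * Fintype.card I := by ring
  linarith

end Ulam
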