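import Pool.Agent.P.MP_3be8c7_an.Int

open scoped ComplexOrder InnerProductSpace
open Filter Topology

noncomputable section

namespace Ulam

universe u v w

variable {D : Type u} [CStarAlgebra D] [PartialOrder D] [StarOrderedRing D]

theorem left_ped {r q : D} (h : star r * r ≤ star q * q) (x : D) : ‖r * x‖ ≤ ‖q * x‖ := by
  have h1 := CStarAlgebra.norm_le_norm_of_nonneg_of_le
    (star_left_conjugate_nonneg (star_mul_self_nonneg r) x) (star_left_conjugate_le_conjugate h x)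
  have e : ∀ r : D, star x * (star r * r) * x = star (r * x) * (r * x) := fun r => by
    simp only [star_mul, mul_assoc]
  rw [e, e, CStarRing.norm_star_mul_self, CStarRing.norm_star_mul_self] at h1
  exact (mul_self_le_mul_self_iff (norm_nonneg _) (norm_nonneg _)).2 h1

theorem sqrt_ped {g a : D} (hg : 0 ≤ g) (h : g ≤ a) :
    ‖CFC.sqrt g - CFC.sqrt a‖ ^ 2 ≤ ‖a - g‖ := by
  have hr := CFC.sqrt_nonneg g
  have hd : (0 : D) ≤ algebraMap ℝ D √‖a - g‖ := by
    rw [Algebra.algebraMap_eq_smul_one]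
    exact smul_nonneg (Real.sqrt_nonneg _) zero_le_one
  have h1 : a ≤ (CFC.sqrt g + algebraMap ℝ D √‖a - g‖) * (CFC.sqrt g + algebraMap ℝ D √‖a - g‖) := by
    have h2 : a - g ≤ algebraMap ℝ D ‖a - g‖ :=
      IsSelfAdjoint.le_algebraMap_norm_self (.of_nonneg (sub_nonneg.2 h))
    have h3 : 0 ≤ √‖a - g‖ • CFC.sqrt g := smul_nonneg (Real.sqrt_nonneg _) hr
    rw [add_mul, mul_add, mul_add, CFC.sqrt_mul_sqrt_self g, ← map_mul,
      Real.mul_self_sqrt (norm_nonneg _), ← Algebra.commutes, ← Algebra.smul_def]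
    calc a ≤ g + algebraMap ℝ D ‖a - g‖ := sub_le_iff_le_add'.1 h2
      _ ≤ _ := add_le_add (le_add_of_nonneg_right h3) (le_add_of_nonneg_left h3)
  have h2 := CFC.sqrt_le_sqrt _ _ h1
  rw [CFC.sqrt_mul_self _ (add_nonneg hr hd)] at h2
  have h3 := (CStarAlgebra.norm_le_iff_le_algebraMap _ (Real.sqrt_nonneg _)
    (sub_nonneg.2 (CFC.sqrt_le_sqrt _ _ h))).2 (sub_le_iff_le_add'.2 h2)
  rw [norm_sub_rev]
  exact (Real.le_sqrt (norm_nonneg _) (norm_nonneg _)).1 h3

theorem approx_ped {q : D} (hq : 0 ≤ q) {e : ℝ} (he : 0 < e) :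
    ∃ s : D, ‖(q * s - 1) * q‖ ≤ e := by
  have h0 : ∀ t ∈ spectrum ℝ q, 0 ≤ t := fun t ht => spectrum_nonneg_of_nonneg hq ht
  have hc : ContinuousOn (fun t : ℝ => (t + e)⁻¹) (spectrum ℝ q) :=
    ContinuousOn.inv₀ (by fun_prop) fun t ht => by linarith [h0 t ht]
  refine ⟨cfc (fun t : ℝ => (t + e)⁻¹) q, ?_⟩
  have e1 : (q * cfc (fun t : ℝ => (t + e)⁻¹) q - 1) * q =
      cfc (fun t : ℝ => (t * (t + e)⁻¹ - 1) * t) q := by
    rw [cfc_mul _ _ q, cfc_sub _ _ q, cfc_mul _ _ q, cfc_id' ℝ q, cfc_const_one ℝ q]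
  rw [e1]
  refine norm_cfc_le he.le fun t ht => ?_
  have h1 : 0 < t + e := by linarith [h0 t ht]
  have h2 : (t * (t + e)⁻¹ - 1) * t = -(e * (t / (t + e))) := by
    field_simp
    ring
  rw [h2, norm_neg, Real.norm_of_nonneg (mul_nonneg he.le (div_nonneg (h0 t ht) h1.le))]
  exact mul_le_of_le_one_right he.le ((div_le_one h1).2 (by linarith))

theorem ped {g y : D} (hg : 0 ≤ g) (h : g ≤ star y * y) :
    ∃ v : D, star v * v = g ∧ (∀ z : D, z * y = 0 → z * v = 0) ∧
      ‖v - y‖ ^ 2 ≤ ‖star y * y - g‖ := by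
  have hs := sqrt_ped hg h
  have hq0 := CFC.sqrt_nonneg (star y * y)
  have hq1 := (IsSelfAdjoint.of_nonneg hq0).star_eq
  have hr1 := (IsSelfAdjoint.of_nonneg (CFC.sqrt_nonneg g)).star_eq
  have hq2 := CFC.sqrt_mul_sqrt_self (star y * y) (star_mul_self_nonneg y)
  have hr2 := CFC.sqrt_mul_sqrt_self g hg
  generalize CFC.sqrt (star y * y) = q at *
  generalize CFC.sqrt g = r at *
  have hy : ∀ x, ‖y * x‖ = ‖q * x‖ := fun x =>
    le_antisymm (left_ped (by rw [hq1, hq2]) x) (left_ped (by rw [hq1, hq2]) x)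
  choose s hs' using fun n : ℕ => approx_ped hq0 (Nat.one_div_pos_of_nat (n := n))
  have hw : Tendsto (fun n => q * (s n * r)) atTop (𝓝 r) := by
    refine tendsto_iff_norm_sub_tendsto_zero.2 (squeeze_zero (fun _ => norm_nonneg _) (fun n => ?_)
      tendsto_one_div_add_atTop_nhds_zero_nat)
    have h1 := left_ped (r := r) (q := q) (by rwa [hq1, hr1, hq2, hr2]) (star (q * s n - 1))
    rw [← norm_star, ← norm_star (q * _), star_mul, star_mul, star_star, hq1, hr1] at h1
    refine le_trans (le_of_eq ?_) (h1.trans (hs' n))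
    rw [sub_mul, one_mul, mul_assoc]
  have hc : CauchySeq fun n => y * (s n * r) := by
    have h1 := hw.cauchySeq
    rw [Metric.cauchySeq_iff] at h1 ⊢
    simpa only [dist_eq_norm, ← mul_sub, hy] using h1
  obtain ⟨v, hv⟩ := cauchySeq_tendsto_of_complete hc
  refine ⟨v, tendsto_nhds_unique (hv.star.mul hv) ?_, fun z hz => tendsto_nhds_unique
    (hv.const_mul z) ?_, le_trans (le_of_eq ?_) hs⟩
  · have h1 := hw.star.mul hw
    rw [hr1, hr2] at h1
    refine h1.congr fun n => ?_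
    rw [star_mul q, star_mul y, hq1, mul_assoc, mul_assoc _ (star y), ← mul_assoc q, hq2,
      mul_assoc (star y)]
  · simp only [← mul_assoc, hz, zero_mul]
    exact tendsto_const_nhds
  · refine congrArg (· ^ 2) (tendsto_nhds_unique (hv.sub_const y).norm
      ((hw.sub_const q).norm.congr fun n => ?_))
    rw [← mul_sub_one, ← mul_sub_one, hy]

end Ulam
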