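import Pool.Agent.P.MP_3be8c7_an.QL2B
import Pool.Agent.P.MP_3be8c7_an.COMM

open scoped ComplexOrder InnerProductSpace
open Filter Topology
open ContinuousLinearMap (adjoint)

noncomputable section

namespace Ulam

universe u v w

variable {H : Type v} [NormedAddCommGroup H] [InnerProductSpace ℂ H] [CompleteSpace H]
variable {K : Type w} [NormedAddCommGroup K] [InnerProductSpace ℂ K] [CompleteSpace K]
variable {I : Type*} [Fintype I] {R R' : I → I → (H →L[ℂ] H)} {c c' : ℝ}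

theorem ent_inner_qmb (ε : I → (H →L[ℂ] K)) (X : K →L[ℂ] K) (η ζ : I → H) :
    ∑ i, ∑ j, ⟪η i, ent ε X i j (ζ j)⟫_ℂ = ⟪∑ i, ε i (η i), X (∑ j, ε j (ζ j))⟫_ℂ := by
  rw [sum_inner, map_sum]
  refine Finset.sum_congr rfl fun i _ => ?_
  rw [inner_sum]
  refine Finset.sum_congr rfl fun j _ => ?_
  rw [ent, ContinuousLinearMap.comp_apply, ContinuousLinearMap.adjoint_inner_right,
    ContinuousLinearMap.comp_apply]

omit [CompleteSpace H] in
theorem mono_qmb (h : MB R c) (hc : c ≤ c') : MB R c' := fun η ζ =>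
  (h η ζ).trans (by gcongr)

omit [CompleteSpace H] in
theorem sqrt_sum_qmb (X : H →L[ℂ] H) (ζ : I → H) :
    √(∑ i, ‖X (ζ i)‖ ^ 2) ≤ ‖X‖ * √(∑ i, ‖ζ i‖ ^ 2) := by
  rw [← Real.sqrt_sq (norm_nonneg X), ← Real.sqrt_mul (sq_nonneg _), Finset.mul_sum]
  refine Real.sqrt_le_sqrt (Finset.sum_le_sum fun i _ => ?_)
  rw [← mul_pow]
  exact pow_le_pow_left₀ (norm_nonneg _) (X.le_opNorm _) 2

theorem MB.of_ent {ε : I → (H →L[ℂ] K)} (h : IsL2 ε) (X : K →L[ℂ] K) : MB (ent ε X) ‖X‖ := by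
  intro η ζ
  rw [ent_inner_qmb, ← h.norm_sum_sq, ← h.norm_sum_sq, Real.sqrt_sq (norm_nonneg _),
    Real.sqrt_sq (norm_nonneg _), mul_comm ‖X‖, mul_assoc]
  exact (norm_inner_le_norm _ _).trans
    (mul_le_mul_of_nonneg_left (X.le_opNorm _) (norm_nonneg _))

theorem MB.norm_le {ε : I → (H →L[ℂ] K)} (h : IsL2 ε) {X : K →L[ℂ] K} (hc : 0 ≤ c)
    (hX : MB (ent ε X) c) : ‖X‖ ≤ c := by
  have e1 : ∀ ζ, ∑ i, ε i (adjoint (ε i) ζ) = ζ := fun ζ => (hasSum_fintype _).unique (h.total ζ)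
  have e2 : ∀ ζ, ∑ i, ‖adjoint (ε i) ζ‖ ^ 2 = ‖ζ‖ ^ 2 := fun ζ =>
    (hasSum_fintype _).unique (h.hasSum_norm_sq ζ)
  refine X.opNorm_le_bound hc fun ζ => ?_
  have := hX (fun i => adjoint (ε i) (X ζ)) fun i => adjoint (ε i) ζ
  rw [ent_inner_qmb, e1, e1, e2, e2, Real.sqrt_sq (norm_nonneg _), Real.sqrt_sq (norm_nonneg _),
    inner_self_eq_norm_sq_to_K, norm_pow, RCLike.norm_ofReal, abs_norm] at this
  rcases (norm_nonneg (X ζ)).eq_or_lt with e | e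
  · rw [← e]
    positivity
  · refine le_of_mul_le_mul_left ?_ e
    nlinarith

theorem mproj_iff {ε : I → (H →L[ℂ] K)} (h : IsL2 ε) (X : K →L[ℂ] K) :
    MProj (ent ε X) ↔ IsStarProjection X := by
  constructor
  · rintro ⟨h1, h2⟩
    refine ⟨h.ext_ent fun i j => ?_, h.ext_ent fun i j => ?_⟩
    · rw [h.ent_mul, h2]
    · rw [← ent_star, h1]
  · rintro ⟨h1, h2⟩
    refine ⟨fun i j => ?_, fun i j => ?_⟩
    · rw [ent_star, h2.star_eq]
    · rw [← h.ent_mul, h1.eq]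

theorem MProj.mb (h : MProj R) : MB R 1 := by
  obtain ⟨K, _, _, _, ε, hε⟩ := exists_l2 I H
  obtain ⟨X, hX⟩ := hε.exists_of_matrix R
  obtain rfl : ent ε X = R := funext fun i => funext fun j => hX i j
  exact mono_qmb (MB.of_ent hε X) ((mproj_iff hε X).1 h).norm_le

omit [CompleteSpace H] in
theorem MB.mono (h : MB R c) (hc : c ≤ c') : MB R c' := by
  exact mono_qmb h hc

omit [CompleteSpace H] in
theorem MB.sub (h : MB R c) (h' : MB R' c') : MB (fun i j => R i j - R' i j) (c + c') := by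
  intro η ζ
  simp only [sub_apply, inner_sub_right, Finset.sum_sub_distrib]
  refine (norm_sub_le _ _).trans ((add_le_add (h η ζ) (h' η ζ)).trans (le_of_eq ?_))
  ring

theorem MB.mul_left (h : MB R c) (hc : 0 ≤ c) (X : H →L[ℂ] H) :
    MB (fun i j => X * R i j) (‖X‖ * c) := by
  intro η ζ
  have h1 := h (fun i => adjoint X (η i)) ζ
  have h2 := sqrt_sum_qmb (adjoint X) η
  rw [LinearIsometryEquiv.norm_map] at h2
  simp only [ContinuousLinearMap.adjoint_inner_left] at h1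
  refine h1.trans ?_
  rw [mul_comm ‖X‖, mul_assoc c ‖X‖]
  gcongr

omit [CompleteSpace H] in
theorem MB.mul_right (h : MB R c) (hc : 0 ≤ c) (X : H →L[ℂ] H) :
    MB (fun i j => R i j * X) (‖X‖ * c) := by
  intro η ζ
  refine (h η fun j => X (ζ j)).trans ?_
  have h2 := sqrt_sum_qmb X ζ
  calc c * √(∑ i, ‖η i‖ ^ 2) * √(∑ i, ‖X (ζ i)‖ ^ 2)
      ≤ c * √(∑ i, ‖η i‖ ^ 2) * (‖X‖ * √(∑ i, ‖ζ i‖ ^ 2)) := by gcongr
    _ = _ := by ring

theorem MB.amp {ι : Type*} {ε : ι → (H →L[ℂ] K)} (hε : IsL2 ε)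
    {Θ : (H →L[ℂ] H) →⋆ₐ[ℂ] (K →L[ℂ] K)} (hΘ : ∀ i, Itw Θ (ε i)) (h : MB R c) (hc : 0 ≤ c) :
    MB (fun i j => Θ (R i j)) c := by
  intro η ζ
  have hs : HasSum (fun a => ∑ i, ∑ j, ⟪adjoint (ε a) (η i), R i j (adjoint (ε a) (ζ j))⟫_ℂ)
      (∑ i, ∑ j, ⟪η i, Θ (R i j) (ζ j)⟫_ℂ) := by
    refine hasSum_sum fun i _ => hasSum_sum fun j _ => ?_
    have := hε.hasSum_inner (η i) (Θ (R i j) (ζ j))
    have e : ∀ a, adjoint (ε a) (Θ (R i j) (ζ j)) = R i j (adjoint (ε a) (ζ j)) := fun a =>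
      DFunLike.congr_fun ((hΘ a).adj (R i j)) (ζ j)
    simpa only [e] using this
  have hb : ∀ (s : Finset ι) (ξ : I → K),
      √(∑ a ∈ s, ∑ i, ‖adjoint (ε a) (ξ i)‖ ^ 2) ≤ √(∑ i, ‖ξ i‖ ^ 2) := fun s ξ => by
    rw [Finset.sum_comm]
    exact Real.sqrt_le_sqrt (Finset.sum_le_sum fun i _ => hε.sum_le s _)
  refine le_of_tendsto' (Tendsto.norm hs) fun s => ?_
  refine (norm_sum_le_of_le s fun a _ => h _ _).trans ?_
  simp only [mul_assoc]
  rw [← Finset.mul_sum]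
  refine mul_le_mul_of_nonneg_left ?_ hc
  refine (Real.sum_sqrt_mul_sqrt_le s (fun a => by positivity) fun a => by positivity).trans ?_
  exact mul_le_mul (hb s η) (hb s ζ) (Real.sqrt_nonneg _) (Real.sqrt_nonneg _)

end Ulam
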