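import Pool.Agent.P.MP_3be8c7_an.QARV
import Pool.Agent.P.MP_3be8c7_an.QMB

open scoped ComplexOrder InnerProductSpace
open Filter Topology
open ContinuousLinearMap (adjoint)

noncomputable section

namespace Ulam

universe u v w

variable {D : Type u} [CStarAlgebra D]
variable {H : Type u} [NormedAddCommGroup H] [InnerProductSpace ℂ H] [CompleteSpace H]

theorem nearInc_of_dk {c : ℝ} (hc : 0 ≤ c) (hD : DK.{u, u} D c) (π : D →⋆ₐ[ℂ] (H →L[ℂ] H))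
    (M : VonNeumannAlgebra H) {δ : ℝ} (h0 : 0 ≤ δ) (h : ∀ a, ∃ m ∈ M, ‖π a - m‖ ≤ δ * ‖a‖) :
    NearInc (Set.range π) M (4 * c * δ) := by
  intro I K _ _ _ ε hε ρ hρ
  obtain ⟨Θ, hΘ⟩ := hε.exists_amp
  obtain ⟨M', hM1, hM2⟩ := hε.exists_vn hΘ M
  suffices h1 : ∃ S ∈ M', ‖ρ - S‖ ≤ 4 * c * δ * ‖ρ‖ by
    obtain ⟨S, hS, h2⟩ := h1
    exact ⟨S, (hM1 S).1 hS, h2⟩
  refine arv M' ρ (by positivity) fun m x hx hxM => ?_
  choose T hT hxT using fun i j => hM2 _ (hxM i j)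
  rcases isEmpty_or_nonempty I with hI | ⟨⟨i₀⟩⟩
  · intro η ζ
    have h1 : ∀ i, η i = 0 := fun i => hε.ext_vec fun a => hI.elim a
    simp only [h1, inner_zero_left, Finset.sum_const_zero, norm_zero]
    positivity
  have hinj : ∀ S S', Θ S = Θ S' → S = S' := fun S S' e => by
    have h1 : ∀ S, ent ε (Θ S) i₀ i₀ = S := fun S => by
      rw [ent, hΘ i₀ S, ← ContinuousLinearMap.comp_assoc, hε.self]
      rfl
    rw [← h1 S, e, h1]
  have hp : MProj T := ⟨fun i j => hinj _ _ (by rw [map_star, ← hxT, ← hxT, hx.1]),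
    fun i j => hinj _ _ (by simp only [map_sum, map_mul, ← hxT, hx.2])⟩
  obtain ⟨K₁, _, _, _, ε₁, hε₁⟩ := exists_l2 (Fin m) H
  obtain ⟨Θ₁, hΘ₁⟩ := hε₁.exists_amp
  obtain ⟨X, hX⟩ := hε₁.exists_of_matrix T
  obtain rfl : ent ε₁ X = T := funext fun i => funext fun j => hX i j
  have hX1 : ‖X‖ ≤ 1 := ((mproj_iff hε₁ X).1 hp).norm_le
  obtain ⟨S, hS, hS1⟩ := hD K₁ (Θ₁.comp π) X (2 * δ) (by positivity) fun a => by
    obtain ⟨b, hb, h1⟩ := h a
    have h2 : Commute (Θ₁ b) X := (hε₁.commute_iff hΘ₁ X b).2 fun i j =>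
      (VonNeumannAlgebra.mem_commutant_iff.1 (hT i j)) b hb
    have h3 : X * (Θ₁.comp π) a - (Θ₁.comp π) a * X = X * Θ₁ (π a - b) - Θ₁ (π a - b) * X := by
      rw [map_sub, mul_sub, sub_mul, h2.eq, StarAlgHom.comp_apply]
      abel
    have h4 : ‖Θ₁ (π a - b)‖ ≤ δ * ‖a‖ := (NonUnitalStarAlgHom.norm_apply_le Θ₁ _).trans h1
    rw [h3]
    refine (norm_sub_le _ _).trans ?_
    rw [show 2 * δ * ‖a‖ = 1 * (δ * ‖a‖) + δ * ‖a‖ * 1 by ring]
    refine add_le_add ((norm_mul_le _ _).trans ?_) ((norm_mul_le _ _).trans ?_) <;> gcongr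
  have h1 : ∀ i j, Commute (Θ (ent ε₁ S i j)) ρ := fun i j =>
    (hε.commute_iff hΘ ρ _).2 (hρ _ (by
      rintro _ ⟨a, rfl⟩
      exact ((hε₁.commute_iff hΘ₁ S (π a)).1 (hS a).symm i j).symm))
  have h2 : ∀ i j, ent ε₁ (X - S) i j = ent ε₁ X i j - ent ε₁ S i j := fun i j => by
    simp only [ent, ContinuousLinearMap.sub_comp, ContinuousLinearMap.comp_sub]
  have h3 : MB (fun i j => Θ (ent ε₁ (X - S) i j)) (c * (2 * δ)) :=
    ((MB.of_ent hε₁ (X - S)).mono ((norm_sub_rev _ _).trans_le hS1)).amp hε hΘ (by positivity)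
  have h4 := (h3.mul_left (by positivity) ρ).sub (h3.mul_right (by positivity) ρ)
  have h5 : (fun i j => ρ * x i j - x i j * ρ) =
      fun i j => ρ * Θ (ent ε₁ (X - S) i j) - Θ (ent ε₁ (X - S) i j) * ρ := by
    funext i j
    rw [h2, map_sub, ← hxT, mul_sub, sub_mul, (h1 i j).eq]
    abel
  rw [h5]
  exact h4.mono (le_of_eq (by ring))

end Ulam
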