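import Pool.Agent.P.MP_3be8c7_an.QARV0
import Pool.Agent.P.MP_3be8c7_an.QMB
import Pool.Agent.P.MP_3be8c7_an.SPEC

open scoped ComplexOrder InnerProductSpace
open Filter Topology
open ContinuousLinearMap (adjoint)

noncomputable section

namespace Ulam

universe u v w

variable {H : Type v} [NormedAddCommGroup H] [InnerProductSpace ℂ H] [CompleteSpace H]

theorem inner_qarv {K : Type w} [NormedAddCommGroup K] [InnerProductSpace ℂ K] [CompleteSpace K]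
    {I : Type*} [Fintype I] (ε : I → (H →L[ℂ] K)) (X : K →L[ℂ] K) (η ζ : I → H) :
    ⟪∑ i, ε i (η i), X (∑ j, ε j (ζ j))⟫_ℂ = ∑ i, ∑ j, ⟪η i, ent ε X i j (ζ j)⟫_ℂ := by
  rw [sum_inner, map_sum]
  refine Finset.sum_congr rfl fun i _ => ?_
  rw [inner_sum]
  exact Finset.sum_congr rfl fun j _ => (ContinuousLinearMap.adjoint_inner_right _ _ _).symm

/-- Distance formula of Arveson. -/
theorem arv (N : VonNeumannAlgebra H) (T : H →L[ℂ] H) {c : ℝ} (hc : 0 ≤ c)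
    (h : ∀ (m : ℕ) (x : Fin m → Fin m → (H →L[ℂ] H)), MProj x → (∀ i j, x i j ∈ N.commutant) →
      MB (fun i j => T * x i j - x i j * T) c) :
    ∃ S ∈ N, ‖T - S‖ ≤ c := by
  refine arv0 N T hc fun m η ζ h0 => ?_
  obtain ⟨K, _, _, _, ε, hε⟩ := exists_l2 (Fin m) H
  obtain ⟨Θ, hΘ⟩ := hε.exists_amp
  have e1 : ∀ S, ⟪∑ i, ε i (η i), Θ S (∑ j, ε j (ζ j))⟫_ℂ = ∑ i, ⟪η i, S (ζ i)⟫_ℂ := fun S => by
    rw [inner_qarv]
    refine Finset.sum_congr rfl fun i _ => ?_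
    rw [Finset.sum_eq_single i (fun j _ hj => ?_) (by simp)]
    · rw [ent, hΘ i S, ← ContinuousLinearMap.comp_assoc, hε.self]
      rfl
    · rw [ent, hΘ j S, ← ContinuousLinearMap.comp_assoc, hε.ne i j hj.symm]
      simp
  obtain ⟨p, p1, p2, -, p4, p5⟩ := exists_proj {z | ∃ S ∈ N, Θ S (∑ j, ε j (ζ j)) = z}
  have p6 : ∀ S ∈ N, ∀ z ∈ {z | ∃ S ∈ N, Θ S (∑ j, ε j (ζ j)) = z}, p (Θ S z) = Θ S z := by
    rintro S hS _ ⟨S', hS', rfl⟩
    exact p2 _ ⟨S * S', mul_mem hS hS', by rw [map_mul]; rfl⟩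
  have e2 : ∀ z, ⟪∑ i, ε i (η i), p z⟫_ℂ = 0 := fun z => by
    refine closure_minimal (t := (innerSL ℂ (∑ i, ε i (η i))).ker) (Submodule.span_le.2 ?_)
      (ContinuousLinearMap.isClosed_ker _) (p5 z)
    rintro _ ⟨S, hS, rfl⟩
    exact (e1 S).trans (h0 S hS)
  have e3 : p (∑ j, ε j (ζ j)) = ∑ j, ε j (ζ j) := p2 _ ⟨1, one_mem N, by rw [map_one]; rfl⟩
  have e4 : ∀ i j, ent ε (Θ T * p - p * Θ T) i j = T * ent ε p i j - ent ε p i j * T := by
    intro i j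
    ext z
    have a1 := congrArg (fun A : K →L[ℂ] H => A (p (ε j z))) ((hΘ i).adj T)
    have a2 := congrArg (fun A : H →L[ℂ] K => adjoint (ε i) (p (A z))) (hΘ j T)
    exact (map_sub (adjoint (ε i)) _ _).trans (congrArg₂ (· - ·) a1 a2)
  have e5 := h m (ent ε p) ((mproj_iff hε p).2 p1) (fun i j => vn_mem_commutant N fun S hS =>
    ((hε.commute_iff hΘ p S).1 (p4 _ (p6 S hS) (map_star Θ S ▸ p6 _ (star_mem hS))).symm i j).symm)
    η ζ
  simp only [← e4] at e5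
  rw [← inner_qarv] at e5
  have e6 : (Θ T * p - p * Θ T) (∑ j, ε j (ζ j)) =
      Θ T (p (∑ j, ε j (ζ j))) - p (Θ T (∑ j, ε j (ζ j))) := rfl
  rwa [e6, inner_sub_right, e2, sub_zero, e3, e1] at e5

end Ulam
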