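import Pool.Agent.P.MP_3be8c7_an.QD
import Pool.Agent.P.MP_3be8c7_an.VB

open scoped ComplexOrder InnerProductSpace
open Filter Topology
open ContinuousLinearMap (adjoint)

noncomputable section

namespace Ulam

universe u v w

variable {H : Type v} [NormedAddCommGroup H] [InnerProductSpace ℂ H] [CompleteSpace H]

omit [CompleteSpace H] in
theorem bal_qarv0 (η ζ : H) : ∃ η' ζ' : H, ‖η'‖ ^ 2 = ‖η‖ * ‖ζ‖ ∧ ‖ζ'‖ ^ 2 = ‖η‖ * ‖ζ‖ ∧
    ∀ Y : H →L[ℂ] H, ⟪η', Y ζ'⟫_ℂ = ⟪η, Y ζ⟫_ℂ := by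
  by_cases h : η = 0 ∨ ζ = 0
  · refine ⟨0, 0, ?_, ?_, fun Y => ?_⟩ <;> rcases h with h | h <;> simp [h]
  push Not at h
  have h1 := norm_pos_iff.2 h.1
  have h2 := norm_pos_iff.2 h.2
  have h3 : 0 < √(‖ζ‖ / ‖η‖) := Real.sqrt_pos.2 (div_pos h2 h1)
  have h4 := Real.sq_sqrt (div_pos h2 h1).le
  refine ⟨((√(‖ζ‖ / ‖η‖) : ℝ) : ℂ) • η, (((√(‖ζ‖ / ‖η‖))⁻¹ : ℝ) : ℂ) • ζ, ?_, ?_, fun Y => ?_⟩
  · rw [norm_smul, Complex.norm_real, Real.norm_of_nonneg h3.le, mul_pow, h4]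
    field_simp
  · rw [norm_smul, Complex.norm_real, Real.norm_of_nonneg (inv_pos.2 h3).le, mul_pow, inv_pow, h4]
    field_simp
  · rw [map_smul, inner_smul_left, inner_smul_right, Complex.conj_ofReal, ← mul_assoc,
      ← Complex.ofReal_mul, mul_inv_cancel₀ h3.ne', Complex.ofReal_one, one_mul]

/-- Evaluation of a formal sum of pairs of vectors at an operator. -/
def ev_qarv0 (Y : H →L[ℂ] H) : ((H × H) →₀ ℂ) →ₗ[ℂ] ℂ :=
  Finsupp.linearCombination ℂ fun a => ⟪a.1, Y a.2⟫_ℂ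

omit [CompleteSpace H] in
theorem ev_one_qarv0 (Y : H →L[ℂ] H) (η ζ : H) :
    ev_qarv0 Y (Finsupp.single (η, ζ) 1) = ⟪η, Y ζ⟫_ℂ := by
  rw [ev_qarv0, Finsupp.linearCombination_single, one_smul]

/-- The weighted sum of the moduli of the coefficients. -/
def sn_qarv0 {α : Type*} (w : α → ℝ) (hw : ∀ a, 0 ≤ w a) : Seminorm ℂ (α →₀ ℂ) :=
  Seminorm.ofSMulLE (fun x => x.sum fun a z => ‖z‖ * w a) Finsupp.sum_zero_index
    (fun x y => by
      classical
      rw [Finsupp.sum_of_support_subset _ Finsupp.support_add _ (by simp),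
        Finsupp.sum_of_support_subset x Finset.subset_union_left _ (by simp),
        Finsupp.sum_of_support_subset y Finset.subset_union_right _ (by simp),
        ← Finset.sum_add_distrib]
      refine Finset.sum_le_sum fun a _ => ?_
      rw [← add_mul]
      exact mul_le_mul_of_nonneg_right (norm_add_le _ _) (hw a))
    fun r x => by
      rw [Finsupp.sum_smul_index (by simp), Finsupp.mul_sum]
      simp only [norm_mul, mul_assoc, le_refl]

/-- Hahn-Banach part of the distance formula of Arveson. -/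
theorem arv0 (N : VonNeumannAlgebra H) (T : H →L[ℂ] H) {c : ℝ} (hc : 0 ≤ c)
    (h : ∀ (m : ℕ) (η ζ : Fin m → H), (∀ S ∈ N, ∑ i, ⟪η i, S (ζ i)⟫_ℂ = 0) →
      ‖∑ i, ⟪η i, T (ζ i)⟫_ℂ‖ ≤ c * √(∑ i, ‖η i‖ ^ 2) * √(∑ i, ‖ζ i‖ ^ 2)) :
    ∃ S ∈ N, ‖T - S‖ ≤ c := by
  have h1 : ∀ x : (H × H) →₀ ℂ, (∀ S ∈ N, ev_qarv0 S x = 0) →
      ‖ev_qarv0 T x‖ ≤ x.sum fun a z => ‖z‖ * (c * ‖a.1‖ * ‖a.2‖) := by
    intro x hx
    choose η ζ h2 h3 h4 using fun a : H × H => bal_qarv0 a.1 (x a • a.2)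
    have e : ∀ {M : Type} [AddCommMonoid M] (f : H × H → M),
        ∑ i, f (x.support.equivFin.symm i) = ∑ a ∈ x.support, f a := fun f =>
      (x.support.equivFin.symm.sum_comp fun a => f a).trans (Finset.sum_coe_sort _ f)
    have e2 : ∀ Y : H →L[ℂ] H, ∑ a ∈ x.support, ⟪η a, Y (ζ a)⟫_ℂ = ev_qarv0 Y x := fun Y =>
      Finset.sum_congr rfl fun a _ => by
        rw [h4, map_smul, inner_smul_right]
        rfl
    have h5 := h _ (fun i => η (x.support.equivFin.symm i)) (fun i => ζ (x.support.equivFin.symm i))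
      fun S hS => by rw [e fun a => ⟪η a, S (ζ a)⟫_ℂ, e2, hx S hS]
    rw [e fun a => ⟪η a, T (ζ a)⟫_ℂ, e fun a => ‖η a‖ ^ 2, e fun a => ‖ζ a‖ ^ 2, e2] at h5
    simp only [h2, h3] at h5
    rw [mul_assoc, Real.mul_self_sqrt (Finset.sum_nonneg fun _ _ => by positivity),
      Finset.mul_sum] at h5
    refine h5.trans_eq (Finset.sum_congr rfl fun a _ => ?_)
    rw [norm_smul]
    ring
  obtain ⟨G, g1, g2⟩ := Module.Dual.exists_extension_of_le_seminorm
    (⨅ S ∈ N, LinearMap.ker (ev_qarv0 S)) ((ev_qarv0 T).domRestrict _)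
    (p := sn_qarv0 (fun a : H × H => c * ‖a.1‖ * ‖a.2‖) fun a => by positivity)
    fun x => h1 x (by simpa only [Submodule.mem_iInf, LinearMap.mem_ker] using x.2)
  have g3 : ∀ x, (∀ S ∈ N, ev_qarv0 S x = 0) → G x = ev_qarv0 T x := fun x hx =>
    g1 ⟨x, by simpa using hx⟩
  have g4 : ∀ x y, (∀ S, ev_qarv0 S x = ev_qarv0 S y) → G x = G y := fun x y hx => by
    rw [← sub_eq_zero, ← map_sub, g3 _ fun S _ => by rw [map_sub, hx, sub_self], map_sub, hx,
      sub_self]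
  have g5 : ∀ η ζ : H, ‖G (Finsupp.single (η, ζ) 1)‖ ≤ c * ‖η‖ * ‖ζ‖ := fun η ζ =>
    (g2 _).trans_eq ((Finsupp.sum_single_index
      (h := fun (a : H × H) (z : ℂ) => ‖z‖ * (c * ‖a.1‖ * ‖a.2‖)) (by simp)).trans (by simp))
  let B : H →ₗ⋆[ℂ] H →ₗ[ℂ] ℂ := LinearMap.mk₂'ₛₗ _ _ (fun η ζ => G (Finsupp.single (η, ζ) 1))
    (fun _ _ _ => (g4 _ _ fun S => by
      simp only [map_add, ev_one_qarv0, inner_add_left]).trans (map_add G _ _))
    (fun _ _ _ => (g4 _ _ fun S => by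
      simp only [map_smul, ev_one_qarv0, inner_smul_left, smul_eq_mul]).trans (map_smul G _ _))
    (fun _ _ _ => (g4 _ _ fun S => by
      simp only [map_add, ev_one_qarv0, inner_add_right]).trans (map_add G _ _))
    fun _ _ _ => (g4 _ _ fun S => by
      simp only [map_smul, ev_one_qarv0, inner_smul_right, smul_eq_mul, RingHom.id_apply]).trans
        (map_smul G _ _)
  obtain ⟨R, hR⟩ : ∃ R : H →L[ℂ] H, ∀ η ζ, ⟪η, R ζ⟫_ℂ = G (Finsupp.single (η, ζ) 1) :=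
    ⟨adjoint (InnerProductSpace.continuousLinearMapOfBilin (B.mkContinuous₂ c g5)), fun η ζ => by
      rw [ContinuousLinearMap.adjoint_inner_right,
        InnerProductSpace.continuousLinearMapOfBilin_apply]
      rfl⟩
  refine ⟨T - R, vn_mem_of_commute N fun a ha => ?_, ?_⟩
  · refine ContinuousLinearMap.ext fun ζ => ext_inner_left ℂ fun η => ?_
    have g6 := g3 (Finsupp.single (adjoint a η, ζ) 1 - Finsupp.single (η, a ζ) 1) fun S hS => by
      rw [map_sub, ev_one_qarv0, ev_one_qarv0, ContinuousLinearMap.adjoint_inner_left, sub_eq_zero]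
      exact congrArg (fun X : H →L[ℂ] H => ⟪η, X ζ⟫_ℂ) (vn_commute N hS ha).eq
    rw [map_sub, map_sub, ev_one_qarv0, ev_one_qarv0, ← hR, ← hR,
      ContinuousLinearMap.adjoint_inner_left, ContinuousLinearMap.adjoint_inner_left] at g6
    change ⟪η, a (T ζ - R ζ)⟫_ℂ = ⟪η, T (a ζ) - R (a ζ)⟫_ℂ
    rw [map_sub, inner_sub_right, inner_sub_right]
    linear_combination -g6
  · rw [sub_sub_cancel]
    refine ContinuousLinearMap.opNorm_le_bound _ hc fun ζ => ?_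
    have h3 := g5 (R ζ) ζ
    rw [← hR, inner_self_eq_norm_sq_to_K, norm_pow, RCLike.norm_ofReal, abs_norm, sq,
      mul_right_comm] at h3
    rcases (norm_nonneg (R ζ)).eq_or_lt with h4 | h4
    · rw [← h4]
      positivity
    · exact le_of_mul_le_mul_right h3 h4

end Ulam
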