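import Pool.Agent.P.MP_3be8c7_an.QD
import Pool.Agent.P.MP_3be8c7_an.AV
import Pool.Agent.P.MP_3be8c7_an.SPEC

open scoped ComplexOrder InnerProductSpace
open Filter Topology
open ContinuousLinearMap (adjoint)

noncomputable section

namespace Ulam

universe u v w

variable {H : Type v} [NormedAddCommGroup H] [InnerProductSpace ℂ H] [CompleteSpace H]
variable {Γ : Type*}

theorem exists_fix (c : Γ → (H →L[ℂ] H)) : ∃ E, IsFix c E := by
  obtain ⟨z, h0, h1, h2, -⟩ := exists_proj {ζ : H | ∀ g, c g ζ = ζ}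
  refine ⟨z, h0, fun g => ?_, fun ζ hζ => h1 ζ hζ⟩
  have := h2 (c g - 1) fun s hs => sub_eq_zero.2 (hs g)
  rwa [sub_mul, one_mul, sub_eq_zero] at this

theorem IsFix.apply {c : Γ → (H →L[ℂ] H)} {E : H →L[ℂ] H} (h : IsFix c E) (g : Γ) (ζ : H) :
    c g (E ζ) = E ζ :=
  DFunLike.congr_fun (h.fix g) ζ

theorem IsFix.commute_of_maps {c : Γ → (H →L[ℂ] H)} {E T : H →L[ℂ] H} (h : IsFix c E)
    (h1 : ∀ ζ, (∀ g, c g ζ = ζ) → ∀ g, c g (T ζ) = T ζ)
    (h2 : ∀ ζ, (∀ g, c g ζ = ζ) → ∀ g, c g (star T ζ) = star T ζ) : Commute T E := by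
  have e1 : E * (T * E) = T * E :=
    ContinuousLinearMap.ext fun ζ => h.max _ (h1 _ fun g => h.apply g ζ)
  have e2 : E * (star T * E) = star T * E :=
    ContinuousLinearMap.ext fun ζ => h.max _ (h2 _ fun g => h.apply g ζ)
  have e3 := congrArg star e2
  simp only [star_mul, star_star, h.proj.isSelfAdjoint.star_eq] at e3
  change T * E = E * T
  rw [← e1, ← e3, mul_assoc]

variable [Group Γ] {c c' : Γ →* (H →L[ℂ] H)} {E E' : H →L[ℂ] H}

theorem URep.mem (h : URep c) (g : Γ) : c g ∈ unitary (H →L[ℂ] H) := by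
  refine ⟨?_, ?_⟩ <;> rw [h g, ← map_mul] <;> simp

theorem URep.norm_apply (h : URep c) (g : Γ) (ζ : H) : ‖c g ζ‖ = ‖ζ‖ :=
  ContinuousLinearMap.norm_map_of_mem_unitary (h.mem g) ζ

theorem URep.norm_le (h : URep c) (g : Γ) : ‖c g‖ ≤ 1 :=
  ContinuousLinearMap.opNorm_le_bound _ zero_le_one fun ζ => by rw [h.norm_apply, one_mul]

theorem IsFix.mul_eq (h : IsFix c E) (hc : URep c) (g : Γ) : E * c g = E := by
  have e := congrArg star (h.fix g⁻¹)
  rwa [star_mul, h.proj.isSelfAdjoint.star_eq, hc, inv_inv] at e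

theorem IsFix.commute (h : IsFix c E) (hc : URep c) {T : H →L[ℂ] H}
    (hT : ∀ g, Commute T (c g)) : Commute T E := by
  have hT' : ∀ g, Commute (star T) (c g) := fun g => by
    have e := (hT g⁻¹).star_star
    rwa [hc, inv_inv] at e
  refine h.commute_of_maps (fun ζ hζ g => ?_) fun ζ hζ g => ?_
  · have e : T (c g ζ) = c g (T ζ) := DFunLike.congr_fun (hT g).eq ζ
    rw [← e, hζ]
  · have e : star T (c g ζ) = c g (star T ζ) := DFunLike.congr_fun (hT' g).eq ζ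
    rw [← e, hζ]

/-- Averages along the orbit. -/
def orb_qfix (c : Γ →* (H →L[ℂ] H)) (ζ : H) : Set H :=
  {x | ∃ (R : Type) (_ : Fintype R) (_ : Nonempty R) (g : R → Γ), x = av fun ρ => c (g ρ) ζ}

theorem mid_qfix {ζ x y : H} (h : x ∈ orb_qfix c ζ) (h' : y ∈ orb_qfix c ζ) :
    (2 : ℝ)⁻¹ • (x + y) ∈ orb_qfix c ζ := by
  obtain ⟨R, _, _, g, rfl⟩ := h
  obtain ⟨R', _, _, g', rfl⟩ := h'
  refine ⟨(R × R') ⊕ (R × R'), inferInstance, inferInstance,
    Sum.elim (fun p => g p.1) fun p => g' p.2, ?_⟩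
  rw [← av_mid]
  congr 1
  funext p
  cases p <;> rfl

theorem act_qfix {ζ x : H} (h : x ∈ orb_qfix c ζ) (a : Γ) : c a x ∈ orb_qfix c ζ := by
  obtain ⟨R, _, _, g, rfl⟩ := h
  refine ⟨R, inferInstance, inferInstance, fun ρ => a * g ρ, ?_⟩
  rw [map_av']
  simp only [map_mul]
  rfl

theorem proj_qfix (h : IsFix c E) (hc : URep c) {ζ x : H} (hx : x ∈ orb_qfix c ζ) :
    E x = E ζ := by
  obtain ⟨R, _, _, g, rfl⟩ := hx
  rw [map_av', ← av_const (ι := R) (E ζ)]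
  congr 1
  funext ρ
  exact DFunLike.congr_fun (h.mul_eq hc (g ρ)) ζ

/-- Mean ergodic theorem of Alaoglu and Birkhoff. -/
theorem IsFix.approx (h : IsFix c E) (hc : URep c) (ζ : H) {δ : ℝ} (hδ : 0 < δ) :
    ∃ (R : Type) (_ : Fintype R) (_ : Nonempty R) (g : R → Γ),
      ‖av (fun ρ => c (g ρ) ζ) - E ζ‖ ≤ δ := by
  let val : H → ℝ := fun x => ‖x‖ ^ 2
  have hb : BddBelow (val '' orb_qfix c ζ) := ⟨0, by
    rintro _ ⟨A, -, rfl⟩
    positivity⟩
  have hne : (val '' orb_qfix c ζ).Nonempty := ⟨_, av fun _ : Unit => c 1 ζ,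
    ⟨Unit, inferInstance, inferInstance, fun _ => 1, rfl⟩, rfl⟩
  obtain ⟨s, s1, s2, s3⟩ := exists_seq_tendsto_sInf hne hb
  choose A hA hAs using s3
  set m := sInf (val '' orb_qfix c ζ)
  have par : ∀ B ∈ orb_qfix c ζ, ∀ B' ∈ orb_qfix c ζ, ∀ t, val B ≤ t → val B' ≤ t →
      ‖B - B'‖ ≤ √(4 * (t - m)) := by
    intro B hB B' hB' t h1 h2
    have h3 : m ≤ ‖(2 : ℝ)⁻¹ • (B + B')‖ ^ 2 := csInf_le hb ⟨_, mid_qfix hB hB', rfl⟩
    have h4 := parallelogram_law_with_norm ℂ B B'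
    rw [norm_smul, norm_inv, Real.norm_two] at h3
    simp only [val] at h1 h2
    exact Real.le_sqrt_of_sq_le (by nlinarith)
  have hlim : Tendsto (fun n => √(4 * (s n - m))) atTop (𝓝 0) := by
    simpa using ((s2.sub_const m).const_mul 4).sqrt
  obtain ⟨z, hz⟩ := cauchySeq_tendsto_of_complete (cauchySeq_of_le_tendsto_0 (s := A) _
    (fun n k M hn hk => by
      rw [dist_eq_norm]
      exact par _ (hA n) _ (hA k) (s M) ((hAs n).trans_le (s1 hn)) ((hAs k).trans_le (s1 hk)))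
    hlim)
  have hfix : ∀ g, c g z = z := fun g => by
    have t1 : Tendsto (fun n => ‖c g (A n) - A n‖) atTop (𝓝 ‖c g z - z‖) :=
      ((((c g).continuous.tendsto z).comp hz).sub hz).norm
    refine sub_eq_zero.1 (norm_le_zero_iff.1 (le_of_tendsto_of_tendsto' t1 hlim fun n => ?_))
    refine par _ (act_qfix (hA n) g) _ (hA n) _ (le_of_eq ?_) (hAs n).le
    rw [← hAs n]
    simp only [val, hc.norm_apply]
  have hE : z = E ζ := by
    have t1 : Tendsto (fun n => E (A n)) atTop (𝓝 (E z)) := (E.continuous.tendsto z).comp hz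
    simp only [fun n => proj_qfix h hc (hA n)] at t1
    rw [tendsto_nhds_unique tendsto_const_nhds t1, h.max z hfix]
  obtain ⟨n, hn⟩ := ((tendsto_iff_norm_sub_tendsto_zero.1 hz).eventually (ge_mem_nhds hδ)).exists
  obtain ⟨R, _, _, g, hg⟩ := hA n
  exact ⟨R, inferInstance, inferInstance, g, by rwa [← hg, ← hE]⟩

theorem half_qfix (h : IsFix c E) (h' : IsFix c' E') (hc' : URep c') {δ : ℝ}
    (hδ : ∀ g, ‖c g - c' g‖ ≤ δ) : ‖E - E' * E‖ ≤ δ := by
  have h0 : 0 ≤ δ := (norm_nonneg _).trans (hδ 1)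
  refine ContinuousLinearMap.opNorm_le_bound _ h0 fun ζ => le_of_forall_pos_le_add fun ε hε => ?_
  obtain ⟨R, _, _, g, hg⟩ := h'.approx hc' (E ζ) hε
  have e1 : ‖E ζ‖ ≤ ‖ζ‖ := by
    simpa using E.le_of_opNorm_le h.proj.norm_le ζ
  have e2 : ‖E ζ - av (fun ρ => c' (g ρ) (E ζ))‖ ≤ δ * ‖ζ‖ := by
    rw [← av_const (ι := R) (E ζ), ← av_sub, av_const]
    refine norm_av_le_of_le _ (by positivity) fun ρ => ?_
    calc _ = ‖(c (g ρ) - c' (g ρ)) (E ζ)‖ := by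
          change _ = ‖c (g ρ) (E ζ) - c' (g ρ) (E ζ)‖
          rw [h.apply]
      _ ≤ δ * ‖E ζ‖ := (c (g ρ) - c' (g ρ)).le_of_opNorm_le (hδ _) _
      _ ≤ _ := by gcongr
  change ‖E ζ - E' (E ζ)‖ ≤ _
  exact (norm_sub_le_norm_sub_add_norm_sub _ _ _).trans (add_le_add e2 hg)

theorem IsFix.close (h : IsFix c E) (h' : IsFix c' E') (hc : URep c) (hc' : URep c') {δ : ℝ}
    (hδ : ∀ g, ‖c g - c' g‖ ≤ δ) : ‖E - E'‖ ≤ 2 * δ := by
  have e1 := half_qfix h h' hc' hδ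
  have e2 := half_qfix h' h hc fun g => by rw [norm_sub_rev]; exact hδ g
  rw [← norm_star, star_sub, star_mul, h.proj.isSelfAdjoint.star_eq,
    h'.proj.isSelfAdjoint.star_eq, norm_sub_rev] at e2
  exact (norm_sub_le_norm_sub_add_norm_sub _ (E' * E) _).trans (by linarith)

end Ulam
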