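import Pool.Agent.P.MP_3be8c7_an.QEX
import Pool.Agent.P.MP_3be8c7_an.EXT
import Pool.Agent.P.MP_3be8c7_an.QFIX

open scoped ComplexOrder InnerProductSpace
open Filter Topology
open ContinuousLinearMap (adjoint)

noncomputable section

namespace Ulam

universe u v w

section

variable {E R : Type} [Fintype R] [Nonempty R]

theorem mapc_qber {V W : Type*} [AddCommGroup V] [Module ℂ V] [AddCommGroup W] [Module ℂ W]
    (L : V →ₗ[ℂ] W) {g : (E → R) → V} (h : Loc g) : L (ex g) = ex fun x => L (g x) :=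
  map_ex (L.restrictScalars ℝ) h

theorem exmul_qber (c : ℂ) {g : (E → R) → ℂ} (h : Loc g) :
    ex (fun x => c * g x) = c * ex g :=
  (map_ex (LinearMap.mulLeft ℝ c) h).symm

theorem exnn_qber {g : (E → R) → ℝ} (h : Loc g) (h0 : ∀ x, 0 ≤ g x) : 0 ≤ ex g :=
  (ex_const (E := E) (R := R) (0 : ℝ)).symm.trans_le (ex_mono (Loc.const 0) h h0)

variable {H : Type v} [NormedAddCommGroup H] [InnerProductSpace ℂ H]

theorem exself_qber {g : (E → R) → H} (h : Loc g) :
    ex (fun x => ⟪g x, g x⟫_ℂ) = ((ex fun x => ‖g x‖ ^ 2 : ℝ) : ℂ) := by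
  have := map_ex Complex.ofRealCLM.toLinearMap (h.comp fun z => ‖z‖ ^ 2)
  refine Eq.trans ?_ this.symm
  congr 1
  funext x
  rw [inner_self_eq_norm_sq_to_K]
  simp

omit [Fintype R] [Nonempty R] in
theorem locsum_qber {ι : Type*} [Fintype ι] (c : ι → ℂ) {g : ι → (E → R) → H}
    (h : ∀ i, Loc (g i)) : Loc fun x => ∑ i, c i • g i x :=
  (Loc.pi h).comp fun y => ∑ i, c i • y i

omit [Fintype R] [Nonempty R] in
theorem locin_qber {g g' : (E → R) → H} (h : Loc g) (h' : Loc g') :
    Loc fun x => ⟪g x, g' x⟫_ℂ := h.map₂ h' fun a b => ⟪a, b⟫_ℂ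

end

/-- The completion of the local functions. -/
structure Sp_qber (E R : Type) [Fintype R] [Nonempty R]
    (H : Type v) [NormedAddCommGroup H] [InnerProductSpace ℂ H]
    (K : Type w) [NormedAddCommGroup K] [InnerProductSpace ℂ K] where
  e : ((E → R) → H) → K
  inn : ∀ g g', Loc g → Loc g' → ⟪e g, e g'⟫_ℂ = ex fun x => ⟪g x, g' x⟫_ℂ
  dense : Dense (Submodule.span ℂ (Set.range fun g : {g : (E → R) → H // Loc g} => e g.1) : Set K)

theorem sp_qber (E R : Type) [Fintype R] [Nonempty R]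
    (H : Type v) [NormedAddCommGroup H] [InnerProductSpace ℂ H] :
    ∃ (K : Type v) (_ : NormedAddCommGroup K) (_ : InnerProductSpace ℂ K)
      (_ : CompleteSpace K), Nonempty (Sp_qber E R H K) := by
  classical
  obtain ⟨K, i1, i2, i3, e, h1, h2⟩ := kolm (X := {g : (E → R) → H // Loc g})
    (fun g g' => ex fun x => ⟪g.1 x, g'.1 x⟫_ℂ) (by
      intro m c g
      have hG := locsum_qber c fun i => (g i).2
      have e1 : ∑ i, ∑ j, star (c i) * c j * ex (fun x => ⟪(g i).1 x, (g j).1 x⟫_ℂ) =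
          ex fun x => ⟪∑ i, c i • (g i).1 x, ∑ i, c i • (g i).1 x⟫_ℂ := by
        have hl : ∀ i j, Loc fun x => star (c i) * c j * ⟪(g i).1 x, (g j).1 x⟫_ℂ := fun i j =>
          (locin_qber (g i).2 (g j).2).comp fun z => star (c i) * c j * z
        have e2 : ∀ i, ∑ j, star (c i) * c j * ex (fun x => ⟪(g i).1 x, (g j).1 x⟫_ℂ) =
            ex fun x => ∑ j, star (c i) * c j * ⟪(g i).1 x, (g j).1 x⟫_ℂ := fun i => by
          rw [ex_sum _ (hl i)]
          exact Finset.sum_congr rfl fun j _ =>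
            (exmul_qber _ (locin_qber (g i).2 (g j).2)).symm
        simp only [e2]
        rw [← ex_sum _ fun i => (Loc.pi (hl i)).comp fun y => ∑ j, y j]
        congr 1
        funext x
        simp only [sum_inner, inner_sum, inner_smul_left, inner_smul_right]
        rw [Finset.sum_comm]
        refine Finset.sum_congr rfl fun i _ => ?_
        rw [Finset.mul_sum]
        refine Finset.sum_congr rfl fun j _ => ?_
        rw [RCLike.star_def]
        ring
      rw [e1, exself_qber hG]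
      exact Complex.zero_le_real.2 (exnn_qber (hG.comp fun z => ‖z‖ ^ 2) fun x => by positivity))
  refine ⟨K, i1, i2, i3, ⟨⟨fun g => if h : Loc g then e ⟨g, h⟩ else 0, fun g g' h h' => ?_, ?_⟩⟩⟩
  · rw [dif_pos h, dif_pos h', h1]
  · have : (fun g : {g : (E → R) → H // Loc g} => if h : Loc g.1 then e ⟨g.1, h⟩ else 0) = e :=
      funext fun g => dif_pos g.2
    rwa [this]

namespace Sp_qber

variable {E R : Type} [Fintype R] [Nonempty R]
  {H : Type v} [NormedAddCommGroup H] [InnerProductSpace ℂ H]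
  {K : Type w} [NormedAddCommGroup K] [InnerProductSpace ℂ K] (S : Sp_qber E R H K)

theorem ext {K' : Type*} [NormedAddCommGroup K'] [NormedSpace ℂ K'] {T T' : K →L[ℂ] K'}
    (h : ∀ g, Loc g → T (S.e g) = T' (S.e g)) : T = T' :=
  ext_of_dense _ S.dense fun g => h g.1 g.2

theorem vext {ζ ζ' : K} (h : ∀ g, Loc g → ⟪S.e g, ζ⟫_ℂ = ⟪S.e g, ζ'⟫_ℂ) : ζ = ζ' := by
  have : innerSL ℂ ζ = innerSL ℂ ζ' := S.ext fun g hg => by
    rw [innerSL_apply_apply, innerSL_apply_apply, ← inner_conj_symm, h g hg, inner_conj_symm]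
  exact ext_inner_right ℂ fun η => DFunLike.congr_fun this η

theorem e_sum {ι : Type*} [Fintype ι] (c : ι → ℂ) {g : ι → (E → R) → H} (h : ∀ i, Loc (g i)) :
    S.e (fun x => ∑ i, c i • g i x) = ∑ i, c i • S.e (g i) := by
  refine S.vext fun f hf => ?_
  rw [S.inn _ _ hf (locsum_qber c h)]
  simp only [inner_sum, inner_smul_right]
  rw [ex_sum _ fun i => (locin_qber hf (h i)).comp fun z => c i * z]
  exact Finset.sum_congr rfl fun i _ => by
    rw [exmul_qber _ (locin_qber hf (h i)), S.inn _ _ hf (h i)]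

theorem e_add {g g' : (E → R) → H} (h : Loc g) (h' : Loc g') :
    S.e (fun x => g x + g' x) = S.e g + S.e g' := by
  refine S.vext fun f hf => ?_
  rw [S.inn _ _ hf (h.map₂ h' fun a b => a + b)]
  simp only [inner_add_right]
  rw [ex_add (locin_qber hf h) (locin_qber hf h'), S.inn _ _ hf h, S.inn _ _ hf h']

theorem e_smul (c : ℂ) {g : (E → R) → H} (h : Loc g) :
    S.e (fun x => c • g x) = c • S.e g := by
  simpa using S.e_sum (fun _ : Unit => c) (g := fun _ => g) fun _ => h

theorem norm_e {g : (E → R) → H} (h : Loc g) : ‖S.e g‖ ^ 2 = ex fun x => ‖g x‖ ^ 2 := by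
  have := S.inn g g h h
  rw [exself_qber h] at this
  have h2 := congrArg Complex.re this
  rwa [Complex.ofReal_re, ← RCLike.re_to_complex, inner_self_eq_norm_sq] at h2

theorem approx (ζ : K) {δ : ℝ} (hδ : 0 < δ) : ∃ g, Loc g ∧ ‖ζ - S.e g‖ ≤ δ := by
  obtain ⟨η, h1, h2⟩ := S.dense.exists_dist_lt ζ hδ
  have : ∃ g, Loc g ∧ S.e g = η := by
    refine Submodule.span_induction (p := fun η _ => ∃ g, Loc g ∧ S.e g = η) ?_ ?_ ?_ ?_ h1
    · rintro _ ⟨g, rfl⟩
      exact ⟨g.1, g.2, rfl⟩
    · exact ⟨fun _ => (0 : ℂ) • 0, Loc.const _, by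
        rw [S.e_smul 0 (Loc.const 0), zero_smul]⟩
    · rintro _ _ - - ⟨g, hg, rfl⟩ ⟨g', hg', rfl⟩
      exact ⟨_, hg.map₂ hg' fun a b => a + b, S.e_add hg hg'⟩
    · rintro c _ - ⟨g, hg, rfl⟩
      exact ⟨_, hg.comp fun a => c • a, S.e_smul c hg⟩
  obtain ⟨g, hg, rfl⟩ := this
  exact ⟨g, hg, by rw [← dist_eq_norm]; exact h2.le⟩

variable [CompleteSpace K]

theorem adj {A B : K →L[ℂ] K}
    (h : ∀ g g', Loc g → Loc g' → ⟪S.e g', A (S.e g)⟫_ℂ = ⟪B (S.e g'), S.e g⟫_ℂ) : A = star B :=
  S.ext fun g hg => S.vext fun g' hg' => by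
    rw [h g g' hg hg', ContinuousLinearMap.star_eq_adjoint, ContinuousLinearMap.adjoint_inner_right]

theorem op (F : ((E → R) → H) →ₗ[ℂ] ((E → R) → H)) (hF : ∀ g, Loc g → Loc (F g)) {C : ℝ}
    (hC : 0 ≤ C)
    (h : ∀ g, Loc g → ex (fun x => ‖F g x‖ ^ 2) ≤ C ^ 2 * ex fun x => ‖g x‖ ^ 2) :
    ∃ O : K →L[ℂ] K, ‖O‖ ≤ C ∧ ∀ g, Loc g → O (S.e g) = S.e (F g) := by
  obtain ⟨O, h1, h2⟩ := exists_ext (fun g : {g : (E → R) → H // Loc g} => S.e g.1)
    (fun g => S.e (F g.1)) S.dense hC (by
      intro m c g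
      have hG := locsum_qber c fun i => (g i).2
      rw [← S.e_sum c fun i => (g i).2, ← S.e_sum c fun i => hF _ (g i).2]
      have e1 : (fun x => ∑ i, c i • F (g i).1 x) = F fun x => ∑ i, c i • (g i).1 x := by
        have e2 : (fun x => ∑ i, c i • (g i).1 x) = ∑ i, c i • (g i).1 := by
          funext x
          simp
        rw [e2, map_sum]
        funext x
        simp
      rw [e1]
      refine (pow_le_pow_iff_left₀ (norm_nonneg _) (by positivity) two_ne_zero).1 ?_
      rw [mul_pow, S.norm_e hG, S.norm_e (hF _ hG)]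
      exact h _ hG)
  exact ⟨O, h1, fun g hg => h2 ⟨g, hg⟩⟩

theorem opM {T : (E → R) → (H →L[ℂ] H)} (hT : Loc T) {c : ℝ} (hc : 0 ≤ c) (h : ∀ x, ‖T x‖ ≤ c) :
    ∃ O : K →L[ℂ] K, ‖O‖ ≤ c ∧ ∀ g, Loc g → O (S.e g) = S.e fun x => T x (g x) := by
  refine S.op ⟨⟨fun g x => T x (g x), fun g g' => funext fun x => map_add _ _ _⟩,
    fun a g => funext fun x => map_smul _ _ _⟩ (fun g hg => hT.map₂ hg fun a b => a b) hc
    fun g hg => ?_
  have e1 := map_ex (LinearMap.mulLeft ℝ (c ^ 2)) (hg.comp fun z => ‖z‖ ^ 2)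
  refine le_trans ?_ e1.symm.le
  refine ex_mono (hT.map₂ hg fun a b => ‖a b‖ ^ 2) (hg.comp fun z => c ^ 2 * ‖z‖ ^ 2) fun x => ?_
  change ‖T x (g x)‖ ^ 2 ≤ c ^ 2 * ‖g x‖ ^ 2
  rw [← mul_pow]
  exact pow_le_pow_left₀ (norm_nonneg _) ((T x).le_of_opNorm_le (h x) _) 2

theorem exM : ∃ M : ((E → R) → (H →L[ℂ] H)) → (K →L[ℂ] K),
    ∀ T, Loc T → ∀ g, Loc g → M T (S.e g) = S.e fun x => T x (g x) := by
  have : ∀ T : (E → R) → (H →L[ℂ] H), ∃ O : K →L[ℂ] K,
      Loc T → ∀ g, Loc g → O (S.e g) = S.e fun x => T x (g x) := fun T => by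
    by_cases hT : Loc T
    · obtain ⟨c, hc⟩ := ((hT.comp fun a => ‖a‖).finite_range).bddAbove
      obtain ⟨O, -, hO⟩ := S.opM hT (le_max_right c 0) fun x =>
        (hc ⟨x, rfl⟩).trans (le_max_left c 0)
      exact ⟨O, fun _ => hO⟩
    · exact ⟨0, fun h => absurd h hT⟩
  choose M hM using this
  exact ⟨M, hM⟩

theorem exW : ∃ w : Equiv.Perm E →* (K →L[ℂ] K),
    ∀ γ g, Loc g → w γ (S.e g) = S.e fun x => g (x ∘ γ) := by
  have : ∀ γ : Equiv.Perm E, ∃ O : K →L[ℂ] K,
      ∀ g, Loc g → O (S.e g) = S.e fun x => g (x ∘ γ) := fun γ => by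
    obtain ⟨O, -, hO⟩ := S.op (LinearMap.funLeft ℂ H fun x : E → R => x ∘ γ)
      (fun g hg => hg.perm γ) zero_le_one fun g hg => by
        rw [one_pow, one_mul]
        exact (ex_perm (hg.comp fun z => ‖z‖ ^ 2) γ).le
    exact ⟨O, hO⟩
  choose w hw using this
  refine ⟨⟨⟨w, S.ext fun g hg => hw 1 g hg⟩, fun γ γ' => S.ext fun g hg => ?_⟩, hw⟩
  change w (γ * γ') (S.e g) = w γ (w γ' (S.e g))
  rw [hw _ _ hg, hw _ _ hg, hw _ _ (hg.perm γ')]
  rfl

omit [CompleteSpace K] in
theorem exI : ∃ ι : H →L[ℂ] K, ∀ z, ι z = S.e fun _ => z := by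
  refine ⟨LinearMap.mkContinuous ⟨⟨fun z => S.e fun _ => z, fun a b =>
    S.e_add (Loc.const a) (Loc.const b)⟩, fun c a => S.e_smul c (Loc.const a)⟩ 1 fun z => ?_,
    fun z => rfl⟩
  refine (pow_le_pow_iff_left₀ (norm_nonneg _) (by positivity) two_ne_zero).1 ?_
  rw [one_mul]
  exact ((S.norm_e (Loc.const z)).trans (ex_const _)).le

variable [DecidableEq E]

omit [Nonempty R] in
theorem locP {V : Type*} [AddCommMonoid V] [Module ℝ V] {g : (E → R) → V} (hg : Loc g) (a : E) :
    Loc fun x => av fun ρ => g (Function.update x a ρ) :=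
  (Loc.pi fun ρ => hg.update a ρ).comp av

theorem exP : ∃ P : E → (K →L[ℂ] K), (∀ a, IsStarProjection (P a)) ∧
    ∀ a g, Loc g → P a (S.e g) = S.e fun x => av fun ρ => g (Function.update x a ρ) := by
  have : ∀ a : E, ∃ O : K →L[ℂ] K,
      ∀ g, Loc g → O (S.e g) = S.e fun x => av fun ρ => g (Function.update x a ρ) := fun a => by
    obtain ⟨O, -, hO⟩ := S.op ⟨⟨fun g x => av fun ρ => g (Function.update x a ρ),
      fun g g' => funext fun x => av_add _ _⟩, fun c g => funext fun x => av_smul _ _⟩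
      (fun g hg => locP hg a) zero_le_one fun g hg => by
        rw [one_pow, one_mul, ← ex_resample (hg.comp fun z => ‖z‖ ^ 2) a]
        refine ex_mono ((locP hg a).comp fun z => ‖z‖ ^ 2) (locP (hg.comp fun z => ‖z‖ ^ 2) a)
          fun x => ?_
        exact (pow_le_pow_left₀ (norm_nonneg _) (norm_av_le _) 2).trans (av_sq_le _)
    exact ⟨O, hO⟩
  choose P hP using this
  refine ⟨P, fun a => ?_, hP⟩
  have h1 : star (P a) * P a = star (P a) := by
    refine S.ext fun g hg => S.vext fun g' hg' => ?_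
    change ⟪S.e g', adjoint (P a) (P a (S.e g))⟫_ℂ = ⟪S.e g', adjoint (P a) (S.e g)⟫_ℂ
    rw [ContinuousLinearMap.adjoint_inner_right, ContinuousLinearMap.adjoint_inner_right,
      hP _ _ hg, hP _ _ hg', S.inn _ _ (locP hg' a) hg, S.inn _ _ (locP hg' a) (locP hg a),
      ← ex_resample (locin_qber (locP hg' a) hg) a]
    congr 1
    funext x
    simp only [Function.update_idem]
    exact map_av' (innerSL ℂ (av fun ρ => g' (Function.update x a ρ))) _
  have h2 : star (P a) = P a := by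
    have h3 := congrArg star h1
    rw [star_mul, star_star] at h3
    exact h1.symm.trans h3
  rw [h2] at h1
  exact ⟨h1, h2⟩

end Sp_qber

theorem exists_bern (E R : Type) [Fintype R] [Nonempty R] [DecidableEq E] (H : Type v) [NormedAddCommGroup H] [InnerProductSpace ℂ H] [CompleteSpace H] :
    ∃ (K : Type v) (_ : NormedAddCommGroup K) (_ : InnerProductSpace ℂ K)
      (_ : CompleteSpace K), Nonempty (Bern E R H K) := by
  obtain ⟨K, i1, i2, i3, ⟨S⟩⟩ := sp_qber E R H
  obtain ⟨M, hM⟩ := S.exM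
  obtain ⟨w, hw⟩ := S.exW
  obtain ⟨ι, hι⟩ := S.exI
  obtain ⟨P, hP0, hP⟩ := S.exP
  have happ : ∀ {T : (E → R) → (H →L[ℂ] H)} {g : (E → R) → H}, Loc T → Loc g →
      Loc fun x => T x (g x) := fun hT hg => hT.map₂ hg fun a b => a b
  have hmul : ∀ A T, Loc A → Loc T → M (A * T) = M A * M T := fun A T hA hT =>
    S.ext fun g hg => by
      change _ = M A (M T (S.e g))
      rw [hM (A * T) (hA.map₂ hT fun a b => a * b) _ hg, hM _ hT _ hg, hM _ hA _ (happ hT hg)]
      rfl
  have hadd : ∀ A T, Loc A → Loc T → M (A + T) = M A + M T := fun A T hA hT =>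
    S.ext fun g hg => by
      change _ = M A (S.e g) + M T (S.e g)
      rw [hM (A + T) (hA.map₂ hT fun a b => a + b) _ hg, hM _ hT _ hg, hM _ hA _ hg,
        ← S.e_add (happ hA hg) (happ hT hg)]
      rfl
  have hstar : ∀ T, Loc T → M (star T) = star (M T) := fun T hT =>
    S.adj fun g g' hg hg' => by
      have hT' : Loc (star T) := hT.comp star
      rw [hM _ hT' _ hg, hM _ hT _ hg', S.inn _ _ hg' (happ hT' hg), S.inn _ _ (happ hT hg') hg]
      congr 1
      funext x
      exact ContinuousLinearMap.adjoint_inner_right _ _ _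
  have hsm : ∀ c : ℂ, M (fun _ => c • 1) = c • 1 := fun c => S.ext fun g hg => by
    rw [hM _ (Loc.const _) _ hg]
    exact S.e_smul c hg
  let C : (H →L[ℂ] H) →⋆ₐ[ℂ] (K →L[ℂ] K) :=
    { toFun := fun T => M fun _ => T
      map_one' := by simpa using hsm 1
      map_mul' := fun A T => hmul _ _ (Loc.const A) (Loc.const T)
      map_zero' := by simpa using hsm 0
      map_add' := fun A T => hadd _ _ (Loc.const A) (Loc.const T)
      commutes' := fun c => by
        rw [Algebra.algebraMap_eq_smul_one, Algebra.algebraMap_eq_smul_one]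
        exact hsm c
      map_star' := fun T => hstar _ (Loc.const T) }
  have hι' : ∀ g, Loc g → adjoint ι (S.e g) = ex g := fun g hg =>
    ext_inner_left ℂ fun z => by
      rw [ContinuousLinearMap.adjoint_inner_right, hι, S.inn _ _ (Loc.const z) hg]
      exact (mapc_qber (innerSL ℂ z).toLinearMap hg).symm
  refine ⟨K, i1, i2, i3, ⟨
    { M := M, C := C, w := w, ι := ι, P := P, const := fun _ => rfl, mul := hmul, add := hadd
      star := hstar, norm_le := fun T c hT hc h => ?_, urep := fun γ => ?_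
      cov := fun γ T hT => ?_, iso := ?_, itw := fun T => ?_, wι := fun γ => ?_
      exp := fun T hT => ?_, total := fun ζ hζ => ?_, Pp := hP0, PM := fun a T hT h => ?_
      wP := fun γ a => ?_, Plim := fun ζ δ hδ => ?_, erg := fun ζ hζ => ?_ }⟩⟩
  · obtain ⟨O, h1, h2⟩ := S.opM hT hc h
    rwa [S.ext (T := M T) (T' := O) fun g hg => by rw [hM _ hT _ hg, h2 _ hg]]
  · refine (S.adj fun g g' hg hg' => ?_).symm
    rw [hw _ _ hg, hw _ _ hg', S.inn _ _ hg' (hg.perm _), S.inn _ _ (hg'.perm _) hg,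
      ← ex_perm (locin_qber hg' (hg.perm γ⁻¹)) γ]
    congr 1
    funext x
    congr 2
    funext a
    simp
  · refine S.ext fun g hg => ?_
    change w γ (M T (S.e g)) = M _ (w γ (S.e g))
    rw [hM _ hT _ hg, hw _ _ (happ hT hg), hw _ _ hg, hM _ (hT.perm γ) _ (hg.perm γ)]
  · ext z
    change adjoint ι (ι z) = z
    rw [hι, hι' _ (Loc.const z), ex_const]
  · ext z
    change M (fun _ => T) (ι z) = ι (T z)
    rw [hι, hι, hM _ (Loc.const T) _ (Loc.const z)]
  · ext z
    change w γ (ι z) = ι z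
    rw [hι, hw _ _ (Loc.const z)]
  · ext z
    change adjoint ι (M T (ι z)) = ex T z
    rw [hι, hM _ hT _ (Loc.const z), hι' _ (happ hT (Loc.const z))]
    exact (mapc_qber (ContinuousLinearMap.apply ℂ H z).toLinearMap hT).symm
  · classical
    refine S.vext fun g hg => ?_
    have := hg.finite_range.fintype
    let t : Set.range g → (E → R) → ℂ := fun z x => if g x = z.1 then 1 else 0
    have ht : ∀ z, Loc (t z) := fun z => hg.comp fun y => if y = z.1 then (1 : ℂ) else 0
    have e1 : g = fun x => ∑ z : Set.range g, (1 : ℂ) • (t z x • z.1) := by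
      funext x
      rw [Finset.sum_eq_single (⟨g x, x, rfl⟩ : Set.range g)]
      · simp [t]
      · intro z _ hz
        have : g x ≠ z.1 := fun h => hz (Subtype.ext h.symm)
        simp [t, this]
      · simp
    rw [inner_zero_right, e1, S.e_sum _ fun z => (ht z).comp fun c => c • z.1, sum_inner]
    refine Finset.sum_eq_zero fun z _ => ?_
    have hT : Loc fun x => t z x • (1 : H →L[ℂ] H) := (ht z).comp fun c => c • 1
    have e2 : S.e (fun x => t z x • z.1) = M (fun x => t z x • (1 : H →L[ℂ] H)) (ι z.1) := by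
      rw [hι, hM _ hT _ (Loc.const _)]
      rfl
    have e3 : star (fun x => t z x • (1 : H →L[ℂ] H)) = fun x => star (t z x) • 1 := by
      funext x
      simp
    rw [one_smul, e2, ← ContinuousLinearMap.adjoint_inner_right,
      ← ContinuousLinearMap.star_eq_adjoint, ← hstar _ hT, e3,
      ← ContinuousLinearMap.adjoint_inner_right, hζ _ ((ht z).comp star), inner_zero_right]
  · refine S.ext fun g hg => ?_
    change P a (M T (S.e g)) = M T (P a (S.e g))
    rw [hM _ hT _ hg, hP _ _ (happ hT hg), hP _ _ hg, hM _ hT _ (Sp_qber.locP hg a)]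
    congr 1
    funext x
    simp only [h]
    exact (map_av' (T x) _).symm
  · refine S.ext fun g hg => ?_
    change w γ (P a (S.e g)) = P (γ a) (w γ (S.e g))
    rw [hP _ _ hg, hw _ _ (Sp_qber.locP hg a), hw _ _ hg, hP _ _ (hg.perm γ)]
    simp only [Function.update_comp_eq_of_injective _ γ.injective]
  · obtain ⟨g, hg, h1⟩ := S.approx ζ (half_pos hδ)
    obtain ⟨s, hs⟩ := id hg
    refine ⟨s, fun a ha => ?_⟩
    have e1 : P a (S.e g) = S.e g := by
      rw [hP _ _ hg]
      congr 1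
      funext x
      rw [← av_const (ι := R) (g x)]
      congr 1
      funext ρ
      exact hs fun b hb => Function.update_of_ne (ne_of_mem_of_not_mem (Finset.mem_coe.1 hb) ha) _ _
    have e2 : P a ζ - ζ = P a (ζ - S.e g) - (ζ - S.e g) := by
      rw [map_sub, e1]
      abel
    have h2 := (P a).le_of_opNorm_le (hP0 a).norm_le (ζ - S.e g)
    rw [e2]
    exact (norm_sub_le _ _).trans (by linarith)
  · have key : ∀ (s : Finset E) (g : (E → R) → H), DependsOn g (s : Set E) →
        ⟪S.e g, ζ⟫_ℂ = ⟪S.e fun _ => ex g, ζ⟫_ℂ := by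
      intro s
      induction s using Finset.induction_on with
      | empty =>
        intro g hs
        have e1 : g = fun _ => g fun _ => Classical.arbitrary R :=
          funext fun x => hs fun b hb => by simp at hb
        rw [e1, ex_const]
      | insert a s _ ih =>
        intro g hs
        have hg : Loc g := ⟨_, hs⟩
        have h1 : DependsOn (fun x => av fun ρ => g (Function.update x a ρ)) (s : Set E) := by
          intro x y hxy
          refine congrArg av (funext fun ρ => hs fun b hb => ?_)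
          by_cases hba : b = a
          · subst hba
            simp
          · rw [Function.update_of_ne hba, Function.update_of_ne hba]
            exact hxy b (by simpa [hba] using hb)
        rw [← ex_resample hg a, ← ih _ h1, ← hP _ _ hg, ← ContinuousLinearMap.adjoint_inner_right,
          ← ContinuousLinearMap.star_eq_adjoint, (hP0 a).isSelfAdjoint.star_eq, hζ]
    refine S.vext fun g hg => ?_
    obtain ⟨s, hs⟩ := id hg
    rw [key s g hs, ← ContinuousLinearMap.adjoint_inner_left, hι' _ hg,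
      ContinuousLinearMap.adjoint_inner_right, hι]

end Ulam
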