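import Pool.Agent.P.MP_3be8c7_an.QRNL
import Pool.Agent.P.MP_3be8c7_an.VB
import Pool.Agent.P.MP_3be8c7_an.SPEC

open scoped ComplexOrder InnerProductSpace
open Filter Topology
open ContinuousLinearMap (adjoint)

noncomputable section

namespace Ulam

universe u v w

variable {H : Type v} [NormedAddCommGroup H] [InnerProductSpace ℂ H] [CompleteSpace H]
variable {D : Type u} [CStarAlgebra D]

theorem left_qbu1 (a : H →L[ℂ] H) (x y : H) : ⟪a x, y⟫_ℂ = ⟪x, star a y⟫_ℂ := by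
  rw [ContinuousLinearMap.star_eq_adjoint, ContinuousLinearMap.adjoint_inner_right]

omit [CompleteSpace H] in
theorem re_qbu1 (x y : H) : (⟪x, y⟫_ℂ).re = (⟪y, x⟫_ℂ).re := inner_re_symm (𝕜 := ℂ) x y

theorem sqrt_qbu1 {a : H →L[ℂ] H} (ha : 0 ≤ a) : ∃ s : H →L[ℂ] H, star s = s ∧ s * s = a ∧
    (∀ T, Commute T a → Commute T s) ∧ ∀ x y, ⟪s x, s y⟫_ℂ = ⟪x, a y⟫_ℂ := by
  have h1 : star (cfc Real.sqrt a) = cfc Real.sqrt a := IsSelfAdjoint.cfc.star_eq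
  have h2 : cfc Real.sqrt a * cfc Real.sqrt a = a := by
    rw [← cfc_mul ..]
    nth_rewrite 2 [← cfc_id' ℝ a]
    exact cfc_congr fun t ht => Real.mul_self_sqrt (spectrum_nonneg_of_nonneg ha ht)
  refine ⟨_, h1, h2, fun T hT => (hT.symm.cfc_real _).symm, fun x y => ?_⟩
  rw [left_qbu1, h1, ← mul_apply_eq_comp, h2]

theorem sum_qbu1 {a : H →L[ℂ] H} (ha : 0 ≤ a) {L : Type*} [Fintype L] (ξ : L → H) :
    (⟪∑ l, ξ l, a (∑ l, ξ l)⟫_ℂ).re ≤ Fintype.card L * ∑ l, (⟪ξ l, a (ξ l)⟫_ℂ).re := by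
  obtain ⟨s, -, -, -, h⟩ := sqrt_qbu1 ha
  have e : ∀ x, (⟪x, a x⟫_ℂ).re = ‖s x‖ ^ 2 := fun x => by
    rw [← h]; exact inner_self_eq_norm_sq (𝕜 := ℂ) _
  simp only [e, map_sum s]
  exact (pow_le_pow_left₀ (norm_nonneg _) (norm_sum_le _ _) 2).trans sq_sum_le_card_mul_sum_sq

/-- the density of the state of a sum -/
theorem dens_qbu1 (N : VonNeumannAlgebra H) {L : Type*} [Fintype L] (ξ : L → H) :
    ∃ T ∈ N, 0 ≤ T ∧ ∀ y ∈ N, IsSelfAdjoint y →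
      (⟪∑ l, ξ l, y (∑ l, ξ l)⟫_ℂ).re = (∑ l, ⟪y (ξ l), T (ξ l)⟫_ℂ).re := by
  have hV : (0 : ℝ) ≤ Fintype.card L := Nat.cast_nonneg _
  have : Nonempty {y : H →L[ℂ] H // y ∈ N ∧ IsSelfAdjoint y} := ⟨⟨0, zero_mem N, .zero _⟩⟩
  refine (rnl N ξ hV (Z := {y : H →L[ℂ] H // y ∈ N ∧ IsSelfAdjoint y})
    (fun z l => z.1 (ξ l)) (fun z => (⟪∑ l, ξ l, z.1 (∑ l, ξ l)⟫_ℂ).re) (fun z z' t _ _ => ?_)
    fun z δ hδ => ?_).imp fun T ⟨hT, h0, _, h⟩ => ?_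
  rotate_right
  · refine ⟨hT, h0, fun y hy hs => le_antisymm (h ⟨y, hy, hs⟩) ?_⟩
    have := h ⟨-y, neg_mem hy, hs.neg⟩
    simp only [neg_apply, inner_neg_right, inner_neg_left,
      Finset.sum_neg_distrib, Complex.neg_re] at this
    exact neg_le_neg_iff.1 this
  · refine ⟨⟨t • z.1 + (1 - t) • z'.1, add_mem (vn_real_smul_mem N _ z.2.1)
      (vn_real_smul_mem N _ z'.2.1), ((IsSelfAdjoint.all t).smul z.2.2).add
        ((IsSelfAdjoint.all _).smul z'.2.2)⟩, rfl, le_of_eq ?_⟩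
    simp only [add_apply, smul_apply, inner_add_right,
      ← Complex.coe_smul, inner_smul_right, Complex.add_re, Complex.re_ofReal_mul]
  · obtain ⟨y, hy, hs⟩ := z
    obtain ⟨p, h1, h2, h3, h4⟩ := exists_spec hs 0
    have a0 : 0 ≤ cfc (fun t : ℝ => max (t - 0) 0) y := cfc_nonneg fun s _ => le_max_right _ _
    have b0 : 0 ≤ cfc (fun t : ℝ => max (0 - t) 0) y := cfc_nonneg fun s _ => le_max_right _ _
    have e : y = cfc (fun t : ℝ => max (t - 0) 0) y - cfc (fun t : ℝ => max (0 - t) 0) y := by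
      rw [← cfc_sub ..]
      nth_rewrite 1 [← cfc_id' ℝ y]
      refine cfc_congr fun s _ => ?_
      rcases le_total s 0 with h | h <;> simp [h]
    generalize cfc (fun t : ℝ => max (t - 0) 0) y = a at a0 e h3
    generalize cfc (fun t : ℝ => max (0 - t) 0) y = b at b0 e h4
    rw [mul_sub, mul_one, sub_eq_zero] at h3
    have e1 : y * p = a := by rw [e, sub_mul, h4, ← h3, sub_zero]
    refine ⟨(Fintype.card L : ℝ) • p, vn_real_smul_mem N _ (vn_mem_of_commute N fun T hT =>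
      h2 T (vn_commute N hy hT)), smul_nonneg hV h1.nonneg,
      smul_le_smul_of_nonneg_left h1.le_one hV, ?_⟩
    have k1 := sum_qbu1 a0 ξ
    have k2 := ((ContinuousLinearMap.nonneg_iff_isPositive _).1 b0).re_inner_nonneg_right
      (∑ l, ξ l)
    have k3 : ∀ l, (⟪y (ξ l), ((Fintype.card L : ℝ) • p) (ξ l)⟫_ℂ).re =
        Fintype.card L * (⟪ξ l, a (ξ l)⟫_ℂ).re := fun l => by
      rw [smul_apply, ← Complex.coe_smul, inner_smul_right,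
        Complex.re_ofReal_mul, left_qbu1, hs.star_eq, ← mul_apply_eq_comp, e1]
    have k4 : (⟪∑ l, ξ l, y (∑ l, ξ l)⟫_ℂ).re = (⟪∑ l, ξ l, a (∑ l, ξ l)⟫_ℂ).re -
        (⟪∑ l, ξ l, b (∑ l, ξ l)⟫_ℂ).re := by
      rw [e, sub_apply, inner_sub_right, Complex.sub_re]
    simp only [Complex.re_sum, k3, k4, ← Finset.mul_sum]
    rw [RCLike.re_to_complex] at k2
    linarith

theorem bu1 (π : D →⋆ₐ[ℂ] (H →L[ℂ] H)) {L : Type*} [Fintype L] (E : L → (H →L[ℂ] H))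
    (hE : ∀ l, IsStarProjection (E l)) (hEπ : ∀ l a, Commute (E l) (π a))
    (ho : ∀ l l', l ≠ l' → E l * E l' = 0) (ξ : L → H) (hξ : ∀ l, E l (ξ l) = ξ l) :
    ∃ A : L → H, (∀ l a, ⟪A l, π a (A l)⟫_ℂ = ⟪ξ l, π a (ξ l)⟫_ℂ) ∧
      ∀ l l' (w : H →L[ℂ] H), (∀ a, Commute w (π a)) → ‖w‖ ≤ 1 →
        ‖A l - A l'‖ ^ 2 ≤ 2 * (‖ξ l‖ ^ 2 + ‖ξ l'‖ ^ 2 - 2 * (⟪ξ l, w (ξ l')⟫_ℂ).re) := by
  have hm : ∀ T, T ∈ vnC (Set.range π) ↔ ∀ a, Commute T (π a) := fun T => by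
    rw [mem_vnC]
    refine ⟨fun h a => (h _ ⟨a, rfl⟩).1.symm, ?_⟩
    rintro h _ ⟨a, rfl⟩
    exact ⟨(h a).symm, by rw [← map_star]; exact (h _).symm⟩
  obtain ⟨T, hT, h0, h⟩ := dens_qbu1 (vnC (Set.range π)) ξ
  obtain ⟨s, s1, s2, s3, s4⟩ := sqrt_qbu1 h0
  have sE : ∀ l, star (E l) = E l := fun l => (hE l).isSelfAdjoint.star_eq
  have mv : ∀ l x y, ⟪E l x, y⟫_ℂ = ⟪x, E l y⟫_ℂ := fun l x y => by rw [left_qbu1, sE]
  have z0 : ∀ l m, m ≠ l → E l (ξ m) = 0 := fun l m hn => by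
    rw [← hξ m, ← mul_apply_eq_comp, ho l m hn.symm, zero_apply]
  have ex : ∀ l, E l (∑ m, ξ m) = ξ l := fun l => by
    rw [map_sum, Finset.sum_eq_single l (fun m _ hn => z0 l m hn) (by simp), hξ]
  have ey : ∀ l l' (w : H →L[ℂ] H), ∑ m, ⟪E l (w (E l' (ξ m))), T (ξ m)⟫_ℂ =
      ⟪w (ξ l'), E l (T (ξ l'))⟫_ℂ := fun l l' w => by
    rw [Finset.sum_eq_single l' (fun m _ hn => by simp [z0 l' m hn]) (by simp), hξ, mv]
  have key : ∀ l l', ∀ w ∈ vnC (Set.range π), 2 * (⟪ξ l, w (ξ l')⟫_ℂ).re =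
      (⟪w (ξ l'), E l (T (ξ l'))⟫_ℂ).re + (⟪star w (ξ l), E l' (T (ξ l))⟫_ℂ).re :=
    fun l l' w hw => by
      have a : E l * w * E l' ∈ vnC (Set.range π) :=
        mul_mem (mul_mem ((hm _).2 (hEπ l)) hw) ((hm _).2 (hEπ l'))
      have k := h _ (add_mem a (star_mem a)) (IsSelfAdjoint.add_star_self _)
      simp only [star_mul, sE, add_apply, mul_apply_eq_comp,
        inner_add_right, inner_add_left, Finset.sum_add_distrib, ey, ex, ← mv,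
        Complex.add_re] at k
      simp only [← mv]
      rw [← k, ← left_qbu1, re_qbu1 (w (ξ l')), two_mul]
  have sT : star T = T := h0.isSelfAdjoint.star_eq
  have dg : ∀ l, E l (T (ξ l)) = ξ l := fun l => by
    have k := key l l _ (sub_mem hT (one_mem _))
    have k2 := norm_sq_spec (hE l) ((T - 1) (ξ l))
    rw [star_sub, sT, star_one, re_qbu1] at k
    have e : E l ((T - 1) (ξ l)) = E l (T (ξ l)) - ξ l := by
      rw [sub_apply, map_sub, one_apply_eq_self, hξ]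
    rw [e, inner_sub_right, Complex.sub_re] at k2
    exact sub_eq_zero.1 (norm_eq_zero.1 (pow_eq_zero_iff two_ne_zero |>.1 (by linarith)))
  have st : ∀ l a, ⟪s (ξ l), π a (s (ξ l))⟫_ℂ = ⟪ξ l, π a (ξ l)⟫_ℂ := fun l a => by
    have c := ((hm T).1 hT a).symm
    have e1 : π a (s (ξ l)) = s (π a (ξ l)) := DFunLike.congr_fun (s3 _ c).eq _
    have e2 : T (π a (ξ l)) = π a (T (ξ l)) := DFunLike.congr_fun c.eq.symm _
    have e3 : E l (π a (T (ξ l))) = π a (E l (T (ξ l))) := DFunLike.congr_fun (hEπ l a).eq _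
    rw [e1, s4, e2, ← hξ l, mv, hξ, e3, dg]
  refine ⟨fun l => s (ξ l), st, fun l l' w hw hn => ?_⟩
  have nw : ∀ x, ‖w x‖ ≤ ‖x‖ := fun x =>
    (w.le_opNorm x).trans (mul_le_of_le_one_left (norm_nonneg _) hn)
  have nw' : ∀ x, ‖star w x‖ ≤ ‖x‖ := fun x =>
    ((star w).le_opNorm x).trans (mul_le_of_le_one_left (norm_nonneg _) (by rwa [norm_star]))
  have cs : ∀ x y z : H, ‖x‖ ≤ ‖z‖ → (⟪x, y⟫_ℂ).re ≤ ‖z‖ * ‖y‖ := fun x y z hz =>
    (Complex.re_le_norm _).trans ((norm_inner_le_norm _ _).trans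
      (mul_le_mul_of_nonneg_right hz (norm_nonneg _)))
  have n1 : ∀ l, ‖s (ξ l)‖ ^ 2 = ‖ξ l‖ ^ 2 := fun l => by
    have := congrArg Complex.re (st l 1)
    rw [map_one, one_apply_eq_self, one_apply_eq_self] at this
    exact (inner_self_eq_norm_sq (𝕜 := ℂ) _).symm.trans
      (this.trans (inner_self_eq_norm_sq (𝕜 := ℂ) _))
  have k1 := key l l' T hT
  rw [sT, norm_sq_spec (hE l), norm_sq_spec (hE l')] at k1
  have k2 := key l l' w ((hm w).2 hw)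
  have k3 := cs _ (E l (T (ξ l'))) _ (nw (ξ l'))
  have k4 := cs _ (E l' (T (ξ l))) _ (nw' (ξ l))
  rw [@norm_sub_sq ℂ, n1, n1, s4, RCLike.re_to_complex]
  nlinarith [sq_nonneg (‖ξ l'‖ - ‖E l (T (ξ l'))‖), sq_nonneg (‖ξ l‖ - ‖E l' (T (ξ l))‖)]

end Ulam
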