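import Pool.Agent.P.MP_3be8c7_an.EXT

open scoped ComplexOrder InnerProductSpace
open Filter Topology

noncomputable section

namespace Ulam

universe u v w

section Aux

variable {D : Type u} [CStarAlgebra D] [PartialOrder D] [StarOrderedRing D]

open Classical in
/-- The kernel of the universal representation, with a middle element. -/
def ker_univ (m : D) (p q : (D →ₚ[ℂ] ℂ) × D) : ℂ :=
  if p.1 = q.1 then p.1 (star p.2 * m * q.2) else 0

theorem pos_univ {m : D} (hm : 0 ≤ m) (n : ℕ) (c : Fin n → ℂ) (x : Fin n → (D →ₚ[ℂ] ℂ) × D) :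
    0 ≤ ∑ i, ∑ j, star (c i) * c j * ker_univ m (x i) (x j) := by
  classical
  let y : (D →ₚ[ℂ] ℂ) → D := fun ρ => ∑ i, if (x i).1 = ρ then c i • (x i).2 else 0
  have e : ∑ i, ∑ j, star (c i) * c j * ker_univ m (x i) (x j) =
      ∑ ρ ∈ Finset.univ.image fun i => (x i).1, ρ (star (y ρ) * m * y ρ) := by
    have e1 : ∀ ρ : D →ₚ[ℂ] ℂ, ρ (star (y ρ) * m * y ρ) = ∑ i, ∑ j,
        if (x i).1 = ρ then star (c i) * c j * ker_univ m (x i) (x j) else 0 := by
      intro ρ
      simp only [y, star_sum, Finset.sum_mul, Finset.mul_sum, map_sum]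
      rw [Finset.sum_comm]
      refine Finset.sum_congr rfl fun i _ => Finset.sum_congr rfl fun j _ => ?_
      by_cases h1 : (x i).1 = ρ
      · by_cases h2 : (x j).1 = ρ
        · simp [ker_univ, h1, h2, mul_assoc, mul_left_comm]
        · simp [ker_univ, h1, h2, Ne.symm h2]
      · simp [h1]
    simp only [e1]
    rw [Finset.sum_comm (s := Finset.univ.image fun i => (x i).1)]
    refine Finset.sum_congr rfl fun i _ => ?_
    rw [Finset.sum_comm (s := Finset.univ.image fun i => (x i).1)]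
    refine Finset.sum_congr rfl fun j _ => ?_
    rw [Finset.sum_ite_eq, if_pos (Finset.mem_image_of_mem _ (Finset.mem_univ i))]
  rw [e]
  exact Finset.sum_nonneg fun ρ _ => map_nonneg ρ (star_left_conjugate_nonneg hm _)

theorem nsq_univ {K : Type*} [NormedAddCommGroup K] [InnerProductSpace ℂ K] {n : ℕ}
    (c : Fin n → ℂ) (v : Fin n → K) :
    ‖∑ i, c i • v i‖ ^ 2 = (∑ i, ∑ j, star (c i) * c j * ⟪v i, v j⟫_ℂ).re := by
  rw [← inner_self_eq_norm_sq (𝕜 := ℂ), sum_inner, RCLike.re_to_complex]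
  congr 1
  refine Finset.sum_congr rfl fun i _ => ?_
  rw [inner_sum]
  refine Finset.sum_congr rfl fun j _ => ?_
  rw [inner_smul_left, inner_smul_right, mul_assoc]
  rfl

end Aux

theorem univ_rep (D : Type u) [CStarAlgebra D] [PartialOrder D] [StarOrderedRing D] :
    ∃ (H : Type u) (_ : NormedAddCommGroup H) (_ : InnerProductSpace ℂ H) (_ : CompleteSpace H)
      (π : D →⋆ₐ[ℂ] (H →L[ℂ] H)), ∀ ρ : D →ₚ[ℂ] ℂ, ∃ ξ : H, ∀ a, ρ a = ⟪ξ, π a ξ⟫_ℂ := by
  obtain ⟨K, i1, i2, i3, e, he, hd⟩ := kolm (ker_univ (1 : D)) (pos_univ zero_le_one)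
  have huniq : ∀ v w : K, (∀ p, ⟪v, e p⟫_ℂ = ⟪w, e p⟫_ℂ) → v = w := fun v w h => by
    have := ext_of_dense e hd (T := innerSL ℂ v) (T' := innerSL ℂ w) h
    exact ext_inner_right ℂ fun z => congrArg (fun T : K →L[ℂ] ℂ => T z) this
  have hex : ∀ a : D, ∃ T : K →L[ℂ] K, ‖T‖ ≤ ‖a‖ ∧ ∀ p, T (e p) = e (p.1, a * p.2) := by
    intro a
    refine exists_ext e _ hd (norm_nonneg a) fun n c x => ?_
    have hm : 0 ≤ ((‖a‖ ^ 2 : ℝ) : ℂ) • (1 : D) - star a * a := by
      rw [sub_nonneg, Complex.coe_smul, ← Algebra.algebraMap_eq_smul_one]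
      exact CStarAlgebra.star_mul_le_algebraMap_norm_sq
    have h1 := (Complex.le_def.1 (pos_univ hm n c x)).1
    have e1 : ∀ p q, ker_univ (((‖a‖ ^ 2 : ℝ) : ℂ) • (1 : D) - star a * a) p q =
        ((‖a‖ ^ 2 : ℝ) : ℂ) * ⟪e p, e q⟫_ℂ - ⟪e (p.1, a * p.2), e (q.1, a * q.2)⟫_ℂ := by
      intro p q
      rw [he, he]
      unfold ker_univ
      by_cases h : p.1 = q.1
      · simp only [if_pos h, mul_sub, sub_mul, map_sub, mul_smul_comm, smul_mul_assoc, map_smul,
          smul_eq_mul, star_mul, mul_assoc, mul_one, one_mul]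
      · simp [h]
    refine (pow_le_pow_iff_left₀ (norm_nonneg _) (by positivity) two_ne_zero).1 ?_
    rw [mul_pow, nsq_univ, nsq_univ, ← Complex.re_ofReal_mul, ← sub_nonneg, ← Complex.sub_re]
    refine h1.trans (le_of_eq ?_)
    congr 1
    simp only [e1, Finset.mul_sum, ← Finset.sum_sub_distrib]
    refine Finset.sum_congr rfl fun i _ => Finset.sum_congr rfl fun j _ => ?_
    ring
  choose T _ hT using hex
  have hadd : ∀ ρ a b, e (ρ, a + b) = e (ρ, a) + e (ρ, b) := fun ρ a b =>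
    huniq _ _ fun p => by
      rw [inner_add_left, he, he, he]
      unfold ker_univ
      by_cases h : ρ = p.1
      · simp only [if_pos h, star_add, add_mul, map_add]
      · simp [h]
  have hsm : ∀ ρ (c : ℂ) a, e (ρ, c • a) = c • e (ρ, a) := fun ρ c a =>
    huniq _ _ fun p => by
      rw [inner_smul_left, he, he]
      unfold ker_univ
      by_cases h : ρ = p.1
      · simp only [if_pos h, star_smul, smul_mul_assoc, map_smul, smul_eq_mul]
        rfl
      · simp [h]
  have hstar : ∀ a, T (star a) = star (T a) := fun a => by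
    refine ext_of_dense e hd fun p => huniq _ _ fun q => ?_
    rw [ContinuousLinearMap.star_eq_adjoint, ContinuousLinearMap.adjoint_inner_left, hT, hT, he, he]
    unfold ker_univ
    simp only [star_mul, star_star, mul_assoc, mul_one, one_mul]
  let πl : D →ₗ[ℂ] (K →L[ℂ] K) :=
    { toFun := T
      map_add' := fun a b => ext_of_dense e hd fun p => by
        rw [add_apply, hT, hT, hT, add_mul, hadd]
      map_smul' := fun c a => ext_of_dense e hd fun p => by
        rw [smul_apply, hT, hT, smul_mul_assoc, hsm]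
        rfl }
  let πa : D →ₐ[ℂ] (K →L[ℂ] K) := AlgHom.ofLinearMap πl
    (ext_of_dense e hd fun p => by
      change T 1 (e p) = e p
      rw [hT, one_mul])
    fun a b => ext_of_dense e hd fun p => by
      change T (a * b) (e p) = T a (T b (e p))
      rw [hT, hT, hT, mul_assoc]
  refine ⟨K, i1, i2, i3, { πa with map_star' := hstar }, fun ρ => ⟨e (ρ, 1), fun a => ?_⟩⟩
  change ρ a = ⟪e (ρ, 1), T a (e (ρ, 1))⟫_ℂ
  rw [hT, he]
  simp [ker_univ]

end Ulam
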