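import Pool.Agent.P.MP_3be8c7_an.QINTW
import Pool.Agent.P.MP_3be8c7_an.UNIV
import Pool.Agent.P.MP_3be8c7_an.TM

open scoped ComplexOrder InnerProductSpace
open Filter Topology
open ContinuousLinearMap (adjoint)

noncomputable section

namespace Ulam

universe u v w

variable {D : Type u} [CStarAlgebra D] [PartialOrder D] [StarOrderedRing D]
variable {H : Type v} [NormedAddCommGroup H] [InnerProductSpace ℂ H] [CompleteSpace H]

theorem riesz_qbu2 {V K : Type*} [AddCommGroup V] [Module ℝ V] [NormedAddCommGroup K]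
    [InnerProductSpace ℝ K] [CompleteSpace K] (A : V →ₗ[ℝ] K) (g : V →ₗ[ℝ] ℝ) {γ : ℝ}
    (h : ∀ x, 2 * g x - ‖A x‖ ^ 2 ≤ γ) : ∃ ζ, ‖ζ‖ ^ 2 ≤ γ ∧ ∀ x, ⟪ζ, A x⟫_ℝ = g x := by
  have h0 : 0 ≤ γ := by simpa using h 0
  have h1 : ∀ x, ‖g x‖ ≤ √γ * ‖A x‖ := fun x => by
    have := discrim_le_zero (a := ‖A x‖ ^ 2) (b := -(2 * g x)) (c := γ) fun t => by
      have := h (t • x)
      rw [map_smul, map_smul, norm_smul, mul_pow, Real.norm_eq_abs, sq_abs, smul_eq_mul] at this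
      linarith
    rw [← Real.sqrt_sq (norm_nonneg (A x)), ← Real.sqrt_mul h0]
    exact Real.abs_le_sqrt (by rw [discrim] at this; linarith)
  obtain ⟨R, hR⟩ := A.rangeRestrict.exists_rightInverse_of_surjective A.range_rangeRestrict
  have h2 : ∀ y, A (R y) = y := fun y => congrArg Subtype.val (LinearMap.congr_fun hR y)
  have h3 : ∀ y, ‖(g ∘ₗ R) y‖ ≤ √γ * ‖y‖ := fun y => (h1 _).trans_eq (by rw [h2]; rfl)
  obtain ⟨F, f1, f2⟩ := exists_extension_norm_eq _ ((g ∘ₗ R).mkContinuous _ h3)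
  refine ⟨(InnerProductSpace.toDual ℝ K).symm F, ?_, fun x => ?_⟩
  · rw [← Real.le_sqrt (norm_nonneg _) h0, LinearIsometryEquiv.norm_map, f2]
    exact LinearMap.mkContinuous_norm_le _ (Real.sqrt_nonneg _) _
  · have := h1 (R ⟨A x, x, rfl⟩ - x)
    rw [map_sub A, h2, sub_self, norm_zero, mul_zero, norm_le_zero_iff, map_sub, sub_eq_zero]
      at this
    exact InnerProductSpace.toDual_symm_apply.trans ((f1 ⟨A x, x, rfl⟩).trans this)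

omit [PartialOrder D] [StarOrderedRing D] in
theorem inner_qbu2 (π : D →⋆ₐ[ℂ] (H →L[ℂ] H)) (a : D) (x y : H) :
    ⟪x, π (star a * a) y⟫_ℂ = ⟪π a x, π a y⟫_ℂ := by
  rw [map_mul, map_star, ContinuousLinearMap.star_eq_adjoint, mul_apply_eq_comp,
    ContinuousLinearMap.adjoint_inner_right]

omit [PartialOrder D] [StarOrderedRing D] in
theorem half_qbu2 {K : Type w} [NormedAddCommGroup K] [InnerProductSpace ℂ K] [CompleteSpace K]
    (σ : D →⋆ₐ[ℂ] (K →L[ℂ] K)) (π : D →⋆ₐ[ℂ] (H →L[ℂ] H)) (Om ζ : K) (ξ : H)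
    (h : ∀ a, ‖π a ξ‖ ^ 2 = ‖σ a Om‖ ^ 2 + 2 * (⟪σ a ζ, σ a Om⟫_ℂ).re) :
    ∃ c : K →L[ℂ] H, ‖c‖ ≤ 1 ∧ (∀ a, c ∘L σ a = π a ∘L c) ∧ ‖ζ + Om - adjoint c ξ‖ ≤ ‖ζ‖ ∧
      ‖ξ‖ ^ 2 - ‖ζ‖ ^ 2 ≤ ‖adjoint c ξ‖ ^ 2 := by
  have h1 : ∀ a, ‖σ a (ζ + Om)‖ ^ 2 = ‖π a ξ‖ ^ 2 + ‖σ a ζ‖ ^ 2 := fun a => by
    rw [map_add, norm_add_sq (𝕜 := ℂ), h, RCLike.re_to_complex]
    ring
  obtain ⟨c, c1, c2, c3⟩ := intw σ π (ζ + Om) ξ fun a =>
    abs_le_of_sq_le_sq' (by rw [h1]; exact le_add_of_nonneg_right (sq_nonneg _)) (norm_nonneg _) |>.2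
  have h2 := h1 1
  simp only [map_one, one_apply_eq_self] at h2
  have h3 := norm_sub_sq (𝕜 := ℂ) (ζ + Om) (adjoint c ξ)
  rw [ContinuousLinearMap.adjoint_inner_right, c2, inner_self_eq_norm_sq] at h3
  have h4 : ‖adjoint c ξ‖ ≤ ‖ξ‖ := ((adjoint c).le_opNorm ξ).trans
    (mul_le_of_le_one_left (norm_nonneg _) (by rwa [LinearIsometryEquiv.norm_map]))
  have h5 := pow_le_pow_left₀ (norm_nonneg _) h4 2
  exact ⟨c, c1, c3, (abs_le_of_sq_le_sq' (by linarith) (norm_nonneg _)).2,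
    by linarith [sq_nonneg ‖ζ + Om - adjoint c ξ‖]⟩

theorem bu2 (s s' : D →ₚ[ℂ] ℂ) {γ : ℝ}
    (hγ : ∀ X : D, IsSelfAdjoint X →
      2 * ((s X).re - (s' X).re) - ((s (X * X)).re + (s' (X * X)).re) ≤ γ)
    (π : D →⋆ₐ[ℂ] (H →L[ℂ] H)) (ξ ξ' : H) (hξ : ∀ a, s a = ⟪ξ, π a ξ⟫_ℂ)
    (hξ' : ∀ a, s' a = ⟪ξ', π a ξ'⟫_ℂ) :
    ∃ w : H →L[ℂ] H, (∀ a, Commute w (π a)) ∧ ‖w‖ ≤ 1 ∧
      ‖ξ‖ ^ 2 + ‖ξ'‖ ^ 2 - 2 * (⟪ξ, w ξ'⟫_ℂ).re ≤ 9 / 4 * γ := by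
  obtain ⟨K, _, _, _, σ, hσ⟩ := univ_rep D
  obtain ⟨Om, hO⟩ := hσ (.mk₀ ((2⁻¹ : ℂ) • (s + s').toLinearMap) fun x hx =>
    mul_nonneg (a := 2⁻¹) (inv_nonneg.2 zero_le_two) ((s + s').map_nonneg hx))
  have h1 : ∀ a, ‖σ a Om‖ ^ 2 = ((s (star a * a)).re + (s' (star a * a)).re) / 2 := fun a => by
    rw [← inner_self_eq_norm_sq (𝕜 := ℂ), ← inner_qbu2, ← hO]
    change ((2⁻¹ : ℂ) * (s _ + s' _)).re = _
    simp
    ring
  let _ := InnerProductSpace.rclikeToReal ℂ K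
  obtain ⟨ζ, z1, z2⟩ := riesz_qbu2 (V := selfAdjoint D) (γ := γ / 8)
    ⟨⟨fun X => σ X Om, fun X Y => by simp⟩, fun t X => by
      change σ (t • (X : D)) Om = (t : ℂ) • σ X Om
      rw [← Complex.coe_smul, map_smul]
      rfl⟩
    ⟨⟨fun X => ((s X).re - (s' X).re) / 4, fun X Y => by simp; ring⟩, fun t X => by
      simp
      ring⟩ fun X => by
      have := hγ (X + X) (X.2.add X.2)
      simp only [add_mul, mul_add, map_add, Complex.add_re] at this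
      change 2 * (_ / 4) - ‖σ X Om‖ ^ 2 ≤ _
      rw [h1, X.2.star_eq]
      linarith
  have h2 : ∀ a, (⟪σ a ζ, σ a Om⟫_ℂ).re = ((s (star a * a)).re - (s' (star a * a)).re) / 4 :=
    fun a => by
      rw [← inner_qbu2]
      exact z2 ⟨_, IsSelfAdjoint.star_mul_self a⟩
  obtain ⟨c, c1, c2, c3, c4⟩ := half_qbu2 σ π Om ζ ξ fun a => by
    rw [h1, h2, ← inner_self_eq_norm_sq (𝕜 := ℂ), ← inner_qbu2, ← hξ, RCLike.re_to_complex]
    ring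
  obtain ⟨d, d1, d2, d3, d4⟩ := half_qbu2 σ π Om (-ζ) ξ' fun a => by
    rw [map_neg, inner_neg_left, Complex.neg_re, h1, h2, ← inner_self_eq_norm_sq (𝕜 := ℂ),
      ← inner_qbu2, ← hξ', RCLike.re_to_complex]
    ring
  rw [norm_neg] at d3 d4
  refine ⟨c ∘L adjoint d, fun a => ?_, ((c.opNorm_comp_le _).trans (mul_le_one₀ c1 (norm_nonneg _)
    (by rwa [LinearIsometryEquiv.norm_map]))), ?_⟩
  · have := congrArg adjoint (d2 (star a))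
    simp only [ContinuousLinearMap.adjoint_comp, ← ContinuousLinearMap.star_eq_adjoint, map_star,
      star_star] at this
    change (c ∘L adjoint d) ∘L π a = π a ∘L c ∘L adjoint d
    rw [ContinuousLinearMap.comp_assoc, ← this, ← ContinuousLinearMap.comp_assoc, c2,
      ContinuousLinearMap.comp_assoc]
  · have h3 := norm_sub_sq (𝕜 := ℂ) (adjoint c ξ) (adjoint d ξ')
    have h4 : ‖adjoint c ξ - adjoint d ξ'‖ ≤ 4 * ‖ζ‖ := by
      rw [show adjoint c ξ - adjoint d ξ' =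
        -ζ + Om - adjoint d ξ' - (ζ + Om - adjoint c ξ) + ζ + ζ by abel]
      linarith [norm_add₃_le (a := -ζ + Om - adjoint d ξ' - (ζ + Om - adjoint c ξ)) (b := ζ) (c := ζ),
        norm_sub_le (-ζ + Om - adjoint d ξ') (ζ + Om - adjoint c ξ)]
    have h5 := pow_le_pow_left₀ (norm_nonneg _) h4 2
    rw [ContinuousLinearMap.adjoint_inner_left, RCLike.re_to_complex] at h3
    rw [ContinuousLinearMap.comp_apply]
    linarith

end Ulam
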