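import Pool.Agent.P.MP_3be8c7_an.QL2
import Pool.Agent.P.MP_3be8c7_an.SSF

open scoped ComplexOrder InnerProductSpace
open Filter Topology
open ContinuousLinearMap (adjoint)

noncomputable section

namespace Ulam

universe u v w

variable {H : Type v} [NormedAddCommGroup H] [InnerProductSpace ℂ H] [CompleteSpace H]
variable {K : Type w} [NormedAddCommGroup K] [InnerProductSpace ℂ K] [CompleteSpace K]
variable {K' : Type*} [NormedAddCommGroup K'] [InnerProductSpace ℂ K'] [CompleteSpace K']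
variable {ι : Type*} {ε : ι → (H →L[ℂ] K)} {Θ : (H →L[ℂ] H) →⋆ₐ[ℂ] (K →L[ℂ] K)}

theorem IsL2.exists_amp (h : IsL2 ε) :
    ∃ Θ : (H →L[ℂ] H) →⋆ₐ[ℂ] (K →L[ℂ] K), ∀ i, Itw Θ (ε i) := by
  choose X _ h2 h3 using fun T : H →L[ℂ] H =>
    h.diag h (Equiv.refl ι) (fun _ => T) (norm_nonneg T) fun _ => le_rfl
  have h4 : ∀ T i ξ, X T (ε i ξ) = ε i (T ξ) := fun T i ξ => congr($(h2 T i) ξ)
  refine ⟨⟨⟨⟨⟨⟨X, ?_⟩, fun S T => ?_⟩, ?_, fun S T => ?_⟩, fun c => ?_⟩, fun T => ?_⟩,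
    fun i T => h2 T i⟩
  · exact h.ext_right fun i => by ext ξ; simp [h4]
  · exact h.ext_right fun i => by ext ξ; simp [h4]
  · exact h.ext_right fun i => by ext ξ; simp [h4]
  · exact h.ext_right fun i => by ext ξ; simp [h4]
  · exact h.ext_right fun i => by ext ξ; simp [h4, Algebra.algebraMap_eq_smul_one]
  · refine h.ext_right fun i => (h2 _ i).trans ?_
    have := congrArg adjoint (h3 T i)
    simp only [ContinuousLinearMap.adjoint_comp, ContinuousLinearMap.adjoint_adjoint] at this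
    exact this.symm

theorem Itw.adj {y : H →L[ℂ] K} (h : Itw Θ y) (T : H →L[ℂ] H) :
    adjoint y ∘L Θ T = T ∘L adjoint y := by
  have := congrArg adjoint (h (star T))
  rwa [ContinuousLinearMap.adjoint_comp, ContinuousLinearMap.adjoint_comp,
    ← ContinuousLinearMap.star_eq_adjoint (Θ _), ← map_star,
    ← ContinuousLinearMap.star_eq_adjoint (star T), star_star] at this

theorem IsL2.isAmp (h : IsL2 ε) (hΘ : ∀ i, Itw Θ (ε i)) : IsAmp Θ := by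
  exact fun ζ hζ => h.ext_vec fun i => by rw [hζ _ (hΘ i), map_zero]

theorem Itw.comp {Θ' : (K →L[ℂ] K) →⋆ₐ[ℂ] (K' →L[ℂ] K')} {y : H →L[ℂ] K} {y' : K →L[ℂ] K'}
    (h : Itw Θ y) (h' : Itw Θ' y') : Itw (Θ'.comp Θ) (y' ∘L y) := by
  intro T
  rw [StarAlgHom.comp_apply, ← ContinuousLinearMap.comp_assoc, h', ContinuousLinearMap.comp_assoc,
    h, ContinuousLinearMap.comp_assoc]

theorem IsAmp.comp {Θ' : (K →L[ℂ] K) →⋆ₐ[ℂ] (K' →L[ℂ] K')} (h : IsAmp Θ) (h' : IsAmp Θ') :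
    IsAmp (Θ'.comp Θ) := by
  refine fun ζ hζ => h' ζ fun y' hy' => h _ fun y hy => ?_
  have := hζ _ (hy.comp hy')
  rwa [ContinuousLinearMap.adjoint_comp] at this

theorem IsAmp.so_ql2b (h : IsAmp Θ) {α : Type*} {l : Filter α} {x : α → (H →L[ℂ] H)}
    {y : H →L[ℂ] H} {C : ℝ} (hC : ∀ᶠ a in l, ‖x a‖ ≤ C)
    (hx : ∀ ξ, Tendsto (fun a => x a ξ) l (𝓝 (y ξ))) (ζ : K) :
    Tendsto (fun a => Θ (x a) ζ) l (𝓝 (Θ y ζ)) := by
  let S : Submodule ℂ K :=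
    { carrier := {ζ | Tendsto (fun a => Θ (x a) ζ) l (𝓝 (Θ y ζ))}
      add_mem' := fun h1 h2 => by simpa only [Set.mem_ofPred_eq, map_add] using h1.add h2
      zero_mem' := by simpa only [Set.mem_ofPred_eq, map_zero] using tendsto_const_nhds
      smul_mem' := fun c _ h1 => by
        simpa only [Set.mem_ofPred_eq, map_smul] using h1.const_smul c }
  have hd : Dense (S : Set K) := by
    rw [Submodule.dense_iff_topologicalClosure_eq_top, Submodule.topologicalClosure_eq_top_iff,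
      eq_bot_iff]
    refine fun η hη => h η fun w hw => ext_inner_left ℂ fun ξ => ?_
    rw [ContinuousLinearMap.adjoint_inner_right, inner_zero_right]
    have e : ∀ T, Θ T (w ξ) = w (T ξ) := fun T => congr($(hw T) ξ)
    refine hη (w ξ) ?_
    change Tendsto _ _ _
    simp only [e]
    exact (w.continuous.tendsto _).comp (hx ξ)
  refine Metric.tendsto_nhds.2 fun δ hδ => ?_
  have hp : 0 < |C| + ‖y‖ + 1 := by positivity
  obtain ⟨η, hη, hl⟩ := hd.exists_dist_lt ζ (div_pos hδ hp)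
  filter_upwards [hC, Metric.tendsto_nhds.1 hη _ (div_pos hδ hp)] with a h1 h2
  rw [dist_eq_norm] at hl h2 ⊢
  have e : Θ (x a) ζ - Θ y ζ = Θ (x a) (ζ - η) + (Θ (x a) η - Θ y η) - Θ y (ζ - η) := by
    simp only [map_sub]; abel
  have b1 := (Θ (x a)).le_of_opNorm_le
    (((NonUnitalStarAlgHom.norm_apply_le Θ _).trans h1).trans (le_abs_self C)) (ζ - η)
  have b2 := (Θ y).le_of_opNorm_le (NonUnitalStarAlgHom.norm_apply_le Θ y) (ζ - η)
  have b3 := mul_le_mul_of_nonneg_left hl.le (add_nonneg (abs_nonneg C) (norm_nonneg y))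
  have b4 := mul_div_cancel₀ δ hp.ne'
  rw [e]
  linarith [norm_sub_le (Θ (x a) (ζ - η) + (Θ (x a) η - Θ y η)) (Θ y (ζ - η)),
    norm_add_le (Θ (x a) (ζ - η)) (Θ (x a) η - Θ y η)]

theorem IsAmp.ss (h : IsAmp Θ) {α : Type*} {l : Filter α} {x : α → (H →L[ℂ] H)} {y : H →L[ℂ] H}
    (hx : SS l x y) : SS l (fun a => Θ (x a)) (Θ y) := by
  obtain ⟨⟨C, hC⟩, hx⟩ := hx
  refine ⟨⟨C, hC.mono fun a ha => (NonUnitalStarAlgHom.norm_apply_le Θ _).trans ha⟩, fun ζ =>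
    ⟨h.so_ql2b hC (fun ξ => (hx ξ).1) ζ, ?_⟩⟩
  simp only [← map_star]
  exact h.so_ql2b (C := C) (by simpa only [norm_star] using hC) (fun ξ => (hx ξ).2) ζ

theorem ent_l_ql2b (hΘ : ∀ i, Itw Θ (ε i)) (X : K →L[ℂ] K) (T : H →L[ℂ] H) (i j : ι) :
    ent ε (Θ T * X) i j = T * ent ε X i j := by
  ext ξ
  exact congr($((hΘ i).adj T) (X (ε j ξ)))

theorem ent_r_ql2b (hΘ : ∀ i, Itw Θ (ε i)) (X : K →L[ℂ] K) (T : H →L[ℂ] H) (i j : ι) :
    ent ε (X * Θ T) i j = ent ε X i j * T := by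
  ext ξ
  exact congr(adjoint (ε i) (X ($(hΘ j T) ξ)))

theorem IsL2.commute_iff (h : IsL2 ε) (hΘ : ∀ i, Itw Θ (ε i)) (X : K →L[ℂ] K) (T : H →L[ℂ] H) :
    Commute (Θ T) X ↔ ∀ i j, Commute T (ent ε X i j) := by
  refine ⟨fun hc i j => ?_, fun hc => h.ext_ent fun i j => ?_⟩
  · rw [Commute, SemiconjBy, ← ent_l_ql2b hΘ, ← ent_r_ql2b hΘ, hc.eq]
  · rw [ent_l_ql2b hΘ, ent_r_ql2b hΘ, (hc i j).eq]

theorem IsL2.eq_amp (h : IsL2 ε) (hΘ : ∀ i, Itw Θ (ε i)) {X : K →L[ℂ] K} (i₀ : ι)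
    (hX : ∀ i j, Commute X (ε i ∘L adjoint (ε j))) : X = Θ (ent ε X i₀ i₀) := by
  refine h.ext_right fun j => ?_
  rw [hΘ j]
  ext ξ
  have e1 : adjoint (ε i₀) (ε i₀ ξ) = ξ := congr($(h.self i₀) ξ)
  have e2 := congr($((hX j i₀).eq) (ε i₀ ξ))
  simpa [ent, e1] using e2

/-- The operators with entries in `M` form a von Neumann algebra. -/
theorem IsL2.exists_vn (h : IsL2 ε) (hΘ : ∀ i, Itw Θ (ε i)) (M : VonNeumannAlgebra H) :
    ∃ M' : VonNeumannAlgebra K, (∀ X, X ∈ M' ↔ ∀ i j, ent ε X i j ∈ M) ∧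
      ∀ X ∈ M'.commutant, ∃ T ∈ M.commutant, X = Θ T := by
  have h01 : ∀ i j, adjoint (ε i) ∘L ε j ∈ M := fun i j => by
    by_cases e : i = j
    · rw [e, h.self]; exact one_mem M
    · rw [h.ne i j e]; exact zero_mem M
  have hm : ∀ X, X ∈ vnC (Θ '' M.commutant) ↔ ∀ i j, ent ε X i j ∈ M := fun X => by
    rw [mem_vnC]
    refine ⟨fun hX i j => vn_mem_of_commute M fun T hT =>
      (h.commute_iff hΘ X T).1 (hX _ ⟨T, hT, rfl⟩).1 i j, ?_⟩
    rintro hX _ ⟨T, hT, rfl⟩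
    rw [← map_star]
    exact ⟨(h.commute_iff hΘ X T).2 fun i j => vn_commute M (hX i j) hT,
      (h.commute_iff hΘ X _).2 fun i j => vn_commute M (hX i j) (star_mem hT)⟩
  refine ⟨_, hm, fun X hX => ?_⟩
  rcases isEmpty_or_nonempty ι with hι | ⟨⟨i₀⟩⟩
  · exact ⟨0, zero_mem _, h.ext_right fun i => isEmptyElim i⟩
  refine ⟨ent ε X i₀ i₀, VonNeumannAlgebra.mem_commutant_iff.2 fun m hm' => ?_,
    h.eq_amp hΘ i₀ fun i j => vn_commute _ ((hm _).2 fun k l => ?_) hX⟩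
  · refine ((h.commute_iff hΘ X m).1 (vn_commute _ ((hm _).2 fun k l => ?_) hX).symm i₀ i₀).eq
    have e : ent ε (Θ m) k l = (adjoint (ε k) ∘L ε l) * m := by rw [ent, hΘ l]; rfl
    exact e ▸ mul_mem (h01 k l) hm'
  · have e : ent ε (ε i ∘L adjoint (ε j)) k l =
        (adjoint (ε k) ∘L ε i) * (adjoint (ε j) ∘L ε l) := rfl
    exact e ▸ mul_mem (h01 k i) (h01 j l)

theorem IsFix.amp {Γ : Type*} {c : Γ → (H →L[ℂ] H)} {E : H →L[ℂ] H} (hE : IsFix c E)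
    (h : IsAmp Θ) : IsFix (fun g => Θ (c g)) (Θ E) := by
  refine ⟨⟨?_, ?_⟩, fun g => by rw [← map_mul, hE.fix], fun ζ hζ => ?_⟩
  · rw [IsIdempotentElem, ← map_mul, hE.proj.isIdempotentElem.eq]
  · rw [IsSelfAdjoint, ← map_star, hE.proj.isSelfAdjoint.star_eq]
  refine sub_eq_zero.1 (h _ fun y hy => ?_)
  have e : ∀ T, adjoint y (Θ T ζ) = T (adjoint y ζ) := fun T => congr($(hy.adj T) ζ)
  rw [map_sub, e, hE.max _ fun g => by rw [← e, hζ], sub_self]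

end Ulam
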