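import Pool.Agent.P.MP_3be8c7_an.QBU1
import Pool.Agent.P.MP_3be8c7_an.QBU2
import Pool.Agent.P.MP_3be8c7_an.QL2B

open scoped ComplexOrder InnerProductSpace
open Filter Topology
open ContinuousLinearMap (adjoint)

noncomputable section

namespace Ulam

universe u v w

variable {D : Type u} [CStarAlgebra D] [PartialOrder D] [StarOrderedRing D]

theorem bd_qbur (s : D →ₚ[ℂ] ℂ) {X : D} (h : IsSelfAdjoint X) :
    2 * (s X).re ≤ (s 1).re + (s (X * X)).re := by
  have := (Complex.nonneg_iff.1 (map_nonneg s (star_mul_self_nonneg (1 - X)))).1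
  rw [star_sub, star_one, h.star_eq, show (1 - X) * (1 - X) = 1 - X - X + X * X by noncomm_ring]
    at this
  simp only [map_add, map_sub, Complex.add_re, Complex.sub_re] at this
  linarith

/-- Simultaneous vector representatives with controlled distances. -/
theorem bur {L : Type} [Fintype L] (s : L → (D →ₚ[ℂ] ℂ)) :
    ∃ (K : Type u) (_ : NormedAddCommGroup K) (_ : InnerProductSpace ℂ K)
      (_ : CompleteSpace K) (π : D →⋆ₐ[ℂ] (K →L[ℂ] K)) (A : L → K),
      (∀ l a, s l a = ⟪A l, π a (A l)⟫_ℂ) ∧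
      ∀ l l' (δ : ℝ), 0 < δ → ∃ X : D, IsSelfAdjoint X ∧ ‖A l - A l'‖ ^ 2 ≤
        5 * (2 * ((s l X).re - (s l' X).re) - ((s l (X * X)).re + (s l' (X * X)).re)) + δ := by
  obtain ⟨H, _, _, _, π, h0⟩ := univ_rep D
  choose Ω hΩ using fun l => h0 (s l)
  obtain ⟨K, i1, i2, i3, ε, hε⟩ := exists_l2 L H
  obtain ⟨Θ, hΘ⟩ := hε.exists_amp
  have e1 : ∀ l v, adjoint (ε l) (ε l v) = v := fun l v => congr($(hε.self l) v)
  have e2 : ∀ l T v, Θ T (ε l v) = ε l (T v) := fun l T v => congr($(hΘ l T) v)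
  have h1 : ∀ l a, s l a = ⟪ε l (Ω l), (Θ.comp π) a (ε l (Ω l))⟫_ℂ := fun l a => by
    rw [StarAlgHom.comp_apply, e2, ← ContinuousLinearMap.adjoint_inner_left, e1, hΩ]
  obtain ⟨A, a1, a2⟩ := bu1 (Θ.comp π) (fun l => ε l ∘L adjoint (ε l))
    (fun l => ⟨ContinuousLinearMap.ext fun v => congrArg (ε l) (e1 l _), by
      rw [IsSelfAdjoint, ContinuousLinearMap.star_eq_adjoint, ContinuousLinearMap.adjoint_comp,
        ContinuousLinearMap.adjoint_adjoint]⟩)
    (fun l a => ContinuousLinearMap.ext fun v =>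
      (congrArg (ε l) congr($((hΘ l).adj (π a)) v)).trans (e2 l _ _).symm)
    (fun l l' h => ContinuousLinearMap.ext fun v =>
      (congrArg (ε l) congr($(hε.ne l l' h) (adjoint (ε l') v))).trans (map_zero _))
    (fun l => ε l (Ω l)) fun l => congrArg (ε l) (e1 l _)
  refine ⟨K, i1, i2, i3, Θ.comp π, A, fun l a => (h1 l a).trans (a1 l a).symm, fun l l' δ hδ => ?_⟩
  let f : selfAdjoint D → ℝ := fun X =>
    2 * ((s l X).re - (s l' X).re) - ((s l (X * X)).re + (s l' (X * X)).re)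
  have b1 : BddAbove (Set.range f) := ⟨(s l 1).re + (s l' 1).re, by
    rintro _ ⟨X, rfl⟩
    have := bd_qbur (s l') X.2.neg
    rw [neg_mul_neg, map_neg, Complex.neg_re] at this
    linarith [bd_qbur (s l) X.2]⟩
  have b2 : 0 ≤ ⨆ X, f X := le_trans (by simp [f]) (le_ciSup b1 0)
  obtain ⟨w, w1, w2, w3⟩ := bu2 (s l) (s l') (fun X hX => le_ciSup b1 ⟨X, hX⟩) _ _ _ (h1 l) (h1 l')
  obtain ⟨X, hX⟩ := exists_lt_of_lt_ciSup (f := f) (sub_lt_self _ (half_pos (half_pos (half_pos hδ))))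
  exact ⟨X, X.2, by linarith [a2 l l' w w1 w2]⟩

end Ulam
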