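import Pool.Agent.P.MP_3be8c7_an.QL2B

open scoped ComplexOrder InnerProductSpace
open Filter Topology
open ContinuousLinearMap (adjoint)

noncomputable section

namespace Ulam

universe u v w

section

variable {H : Type v} [NormedAddCommGroup H] [InnerProductSpace ℂ H] [CompleteSpace H]
variable {K : Type w} [NormedAddCommGroup K] [InnerProductSpace ℂ K] [CompleteSpace K]
variable {G : Type} [Fintype G] [AddCommGroup G] {y : G → (H →L[ℂ] K)}

/-- A weighted shift. -/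
def mo_qclk (y : G → (H →L[ℂ] K)) (c : G → ℂ) (n : G) : K →L[ℂ] K :=
  ∑ k, c k • (y (k + n) ∘L adjoint (y k))

theorem mo_apply_qclk (h1 : ∀ k, adjoint (y k) ∘L y k = 1)
    (h0 : ∀ k l, k ≠ l → adjoint (y k) ∘L y l = 0) (c : G → ℂ) (n l : G) (ζ : H) :
    mo_qclk y c n (y l ζ) = c l • y (l + n) ζ := by
  have e1 : adjoint (y l) (y l ζ) = ζ := congr($(h1 l) ζ)
  have e0 : ∀ k, k ≠ l → adjoint (y k) (y l ζ) = 0 := fun k hk => congr($(h0 k l hk) ζ)
  rw [mo_qclk, ContinuousLinearMap.sum_apply, Finset.sum_eq_single l (fun k _ hk => by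
    simp [e0 k hk]) (by simp)]
  simp [e1]

theorem mo_mul_qclk (h1 : ∀ k, adjoint (y k) ∘L y k = 1)
    (h0 : ∀ k l, k ≠ l → adjoint (y k) ∘L y l = 0) (c d : G → ℂ) (n m : G) :
    mo_qclk y c n * mo_qclk y d m = mo_qclk y (fun k => c (k + m) * d k) (m + n) := by
  ext ζ
  conv_lhs => rw [ContinuousLinearMap.mul_apply, mo_qclk.eq_1 y d]
  simp only [ContinuousLinearMap.sum_apply, map_sum, ContinuousLinearMap.smul_apply, map_smul,
    ContinuousLinearMap.comp_apply, mo_apply_qclk h1 h0]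
  simp only [mo_qclk, ContinuousLinearMap.sum_apply, ContinuousLinearMap.smul_apply,
    ContinuousLinearMap.comp_apply, smul_smul, mul_comm, add_assoc]

theorem mo_star_qclk (c : G → ℂ) (n : G) :
    star (mo_qclk y c n) = mo_qclk y (fun k => star (c (k - n))) (-n) := by
  rw [mo_qclk, mo_qclk, star_sum]
  conv_rhs => rw [← Equiv.sum_comp (Equiv.addRight n)]
  refine Finset.sum_congr rfl fun k _ => ?_
  rw [star_smul, ContinuousLinearMap.star_eq_adjoint, ContinuousLinearMap.adjoint_comp,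
    ContinuousLinearMap.adjoint_adjoint]
  simp

theorem mo_unit_qclk (h1 : ∀ k, adjoint (y k) ∘L y k = 1)
    (h0 : ∀ k l, k ≠ l → adjoint (y k) ∘L y l = 0) {c : G → ℂ} (hc : ∀ k, ‖c k‖ = 1) (n : G) :
    star (mo_qclk y c n) * mo_qclk y c n = ∑ k, y k ∘L adjoint (y k) ∧
      mo_qclk y c n * star (mo_qclk y c n) = ∑ k, y k ∘L adjoint (y k) := by
  rw [mo_star_qclk, mo_mul_qclk h1 h0, mo_mul_qclk h1 h0]
  simp [mo_qclk, Complex.conj_mul', Complex.mul_conj', hc, ← sub_eq_add_neg]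

theorem mo_commute_qclk {Θ : (H →L[ℂ] H) →⋆ₐ[ℂ] (K →L[ℂ] K)} (h : ∀ k, Itw Θ (y k)) (c : G → ℂ)
    (n : G) (T : H →L[ℂ] H) : Commute (mo_qclk y c n) (Θ T) := by
  refine Commute.sum_left _ _ _ fun k _ => Commute.smul_left ?_ _
  ext ζ
  exact (congrArg (y (k + n)) congr($((h k).adj T) ζ)).trans congr($((h (k + n) T).symm) _)

variable {ε : G × G → (H →L[ℂ] K)}

/-- A vector in the column `k`. -/
def wv_qclk (ε : G × G → (H →L[ℂ] K)) (k : G) (g : G → ℂ) : H →L[ℂ] K := ∑ a, g a • ε (a, k)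

theorem wv_norm_qclk (h : IsL2 ε) (n : G) (g : G → G → ℂ) (ζ : G → H) :
    ‖∑ k, wv_qclk ε (k + n) (g k) (ζ k)‖ ^ 2 = ∑ k, (∑ a, ‖g k a‖ ^ 2) * ‖ζ k‖ ^ 2 := by
  have := h.norm_sum_sq Finset.univ fun p => g (p.2 - n) p.1 • ζ (p.2 - n)
  rw [Fintype.sum_prod_type_right, Fintype.sum_prod_type_right,
    ← Equiv.sum_comp (Equiv.addRight n),
    ← Equiv.sum_comp (Equiv.addRight n) fun k => ∑ a, ‖g (k - n) a • ζ (k - n)‖ ^ 2] at this
  simpa [wv_qclk, norm_smul, mul_pow, Finset.sum_mul] using this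

omit [AddCommGroup G] in
theorem wv_adj_qclk [DecidableEq G] (h : IsL2 ε) (k l : G) (g g' : G → ℂ) (ζ : H) :
    adjoint (wv_qclk ε k g) (wv_qclk ε l g' ζ) =
      if k = l then (∑ a, star (g a) * g' a) • ζ else 0 := by
  have e : ∀ a, adjoint (ε (a, k)) (wv_qclk ε l g' ζ) = if k = l then g' a • ζ else 0 := fun a => by
    rw [wv_qclk, ContinuousLinearMap.sum_apply, map_sum, Finset.sum_eq_single a (fun b _ hb => by
      rw [ContinuousLinearMap.smul_apply, map_smul, h.ne_ql2 (by simp [hb.symm]), smul_zero])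
      (by simp), ContinuousLinearMap.smul_apply, map_smul]
    split_ifs with hk
    · rw [hk, h.self_ql2]
    · rw [h.ne_ql2 (by simp [hk]), smul_zero]
  rw [wv_qclk.eq_1 ε k, map_sum, ContinuousLinearMap.sum_apply]
  simp only [LinearIsometryEquiv.map_smulₛₗ, ContinuousLinearMap.smul_apply, e]
  split_ifs
  · simp [Finset.sum_smul, smul_smul]
  · simp

theorem bound_qclk (h : IsL2 ε) (f g : G → G → ℂ) (hf : ∀ k, ∑ a, ‖f k a‖ ^ 2 = 1) {θ : ℝ}
    (hθ : 0 ≤ θ) (hg : ∀ k, ∑ a, ‖g k a‖ ^ 2 ≤ θ ^ 2) (n : G)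
    (hr : ‖∑ k, wv_qclk ε k (f k) ∘L adjoint (wv_qclk ε k (f k))‖ ≤ 1) :
    ‖∑ k, wv_qclk ε (k + n) (g k) ∘L adjoint (wv_qclk ε k (f k))‖ ≤ θ := by
  refine ContinuousLinearMap.opNorm_le_bound _ hθ fun ζ => ?_
  have h1 := wv_norm_qclk h 0 f fun k => adjoint (wv_qclk ε k (f k)) ζ
  have h2 := (ContinuousLinearMap.le_of_opNorm_le _ hr ζ)
  simp only [add_zero, hf, one_mul] at h1
  simp only [ContinuousLinearMap.sum_apply, ContinuousLinearMap.comp_apply, one_mul] at h2 ⊢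
  refine (pow_le_pow_iff_left₀ (norm_nonneg _) (by positivity) two_ne_zero).1 ?_
  rw [wv_norm_qclk h, mul_pow]
  refine (Finset.sum_le_sum fun k _ => mul_le_mul_of_nonneg_right (hg k) (sq_nonneg _)).trans ?_
  rw [← Finset.mul_sum, ← h1]
  gcongr

end

theorem scal_qclk {θ : ℝ} (hθ : 0 < θ) : ∃ (N : ℕ) (_ : NeZero N) (χ : AddChar (ZMod N) ℂ)
    (f : ZMod N → ℂ), χ 1 ≠ 1 ∧ (∀ a, ‖χ a‖ = 1) ∧ ∑ a, ‖f a‖ ^ 2 = 1 ∧
    ∑ a, ‖(χ a - 1) * f a‖ ^ 2 ≤ θ ^ 2 ∧ ∑ a, ‖f a - f (a - 1)‖ ^ 2 ≤ θ ^ 2 := by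
  obtain ⟨L, hL⟩ := exists_nat_gt (2 / θ ^ 2)
  have hL0 : (0 : ℝ) < L := lt_trans (by positivity) hL
  obtain ⟨M, hM⟩ := exists_nat_gt (2 * Real.pi * L / θ)
  obtain ⟨N, hN1, hN2, hN3⟩ : ∃ N : ℕ, 1 < N ∧ L < N ∧ M ≤ N := ⟨M + L + 2, by omega, by omega,
    by omega⟩
  have : NeZero N := ⟨by omega⟩
  have : Fact (1 < N) := ⟨hN1⟩
  have hN0 : (0 : ℝ) < N := by exact_mod_cast (show 0 < N by omega)
  obtain ⟨s, hs⟩ : ∃ s : ℂ, ‖s‖ ^ 2 = (L : ℝ)⁻¹ := ⟨(√((L : ℝ)⁻¹) : ℝ), by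
    rw [Complex.norm_real, Real.norm_eq_abs, sq_abs, Real.sq_sqrt (by positivity)]⟩
  have hf : ∑ a : ZMod N, ‖if a.val < L then s else 0‖ ^ 2 = 1 := by
    have hc : (Finset.univ.filter fun a : ZMod N => a.val < L).card = L := by
      conv_rhs => rw [← Finset.card_range L]
      refine Finset.card_bij (fun a _ => a.val) (by simp) (fun a _ b _ h => ZMod.val_injective N h)
        fun b hb => ?_
      have hb' := Finset.mem_range.1 hb
      have e := ZMod.val_cast_of_lt (hb'.trans hN2)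
      exact ⟨b, by simp [e, hb'], e⟩
    simp only [apply_ite (fun z : ℂ => ‖z‖ ^ 2), hs, norm_zero, zero_pow two_ne_zero]
    rw [← Finset.sum_filter, Finset.sum_const, hc, nsmul_eq_mul, mul_inv_cancel₀ hL0.ne']
  refine ⟨N, inferInstance, ZMod.stdAddChar, fun a => if a.val < L then s else 0, fun h => ?_,
    fun a => Circle.norm_coe _, hf, ?_, ?_⟩
  · exact one_ne_zero (ZMod.injective_stdAddChar (h.trans (AddChar.map_zero_eq_one _).symm))
  · rw [← mul_one (θ ^ 2), ← hf, Finset.mul_sum]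
    refine Finset.sum_le_sum fun a _ => ?_
    beta_reduce
    split_ifs with ha
    · rw [norm_mul, mul_pow]
      gcongr
      have e : ZMod.stdAddChar a = Complex.exp (Complex.I * (2 * Real.pi * a.val / N : ℝ)) := by
        rw [ZMod.stdAddChar_apply, ZMod.toCircle_apply]
        congr 1
        push_cast
        ring
      rw [e]
      refine Real.norm_exp_I_mul_ofReal_sub_one_le.trans ?_
      rw [Real.norm_eq_abs, abs_of_nonneg (by positivity), div_le_iff₀ hN0]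
      rw [div_lt_iff₀ hθ] at hM
      have h1 : (a.val : ℝ) ≤ L := by exact_mod_cast ha.le
      have h2 : (M : ℝ) ≤ N := by exact_mod_cast hN3
      nlinarith [Real.pi_pos]
    · simp
  · have e : ∀ a : ZMod N, ‖(if a.val < L then s else 0) - if (a - 1).val < L then s else 0‖ ^ 2 ≤
        (if a = 0 then (L : ℝ)⁻¹ else 0) + if a = (L : ZMod N) then (L : ℝ)⁻¹ else 0 := fun a => by
      have h1 : ‖(if a.val < L then s else 0) - if (a - 1).val < L then s else 0‖ ^ 2 ≤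
          (L : ℝ)⁻¹ := by
        split_ifs <;> simp [hs]
      have h2 : (0 : ℝ) ≤ (L : ℝ)⁻¹ := by positivity
      by_cases h3 : a = 0
      · rw [if_pos h3]
        exact h1.trans (le_add_of_nonneg_right (by split_ifs <;> simp))
      by_cases h4 : a = L
      · rw [if_neg h3, if_pos h4, zero_add]
        exact h1
      have h5 := ZMod.val_pos.2 h3
      have h6 : a.val ≠ L := fun h => h4 (by rw [← h, ZMod.natCast_zmod_val])
      have h7 : (a - 1).val = a.val - 1 := by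
        rw [ZMod.val_sub (by rw [ZMod.val_one]; exact h5), ZMod.val_one]
      have h8 : (a - 1).val < L ↔ a.val < L := by omega
      simp [h8, h3, h4]
    refine (Finset.sum_le_sum fun a _ => e a).trans ?_
    rw [Finset.sum_add_distrib, Finset.sum_ite_eq', Finset.sum_ite_eq', if_pos (Finset.mem_univ _),
      if_pos (Finset.mem_univ _), ← two_mul, ← div_eq_mul_inv, div_le_iff₀ hL0, mul_comm]
    exact ((div_lt_iff₀ (by positivity)).1 hL).le

theorem clk {θ : ℝ} (hθ : 0 < θ) (H : Type v) [NormedAddCommGroup H] [InnerProductSpace ℂ H] [CompleteSpace H] :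
    ∃ (K : Type v) (_ : NormedAddCommGroup K) (_ : InnerProductSpace ℂ K)
      (_ : CompleteSpace K) (Θ : (H →L[ℂ] H) →⋆ₐ[ℂ] (K →L[ℂ] K)) (t : Twist Θ) (U V : K →L[ℂ] K),
      IsAmp Θ ∧ U ∈ unitary (K →L[ℂ] K) ∧ V ∈ unitary (K →L[ℂ] K) ∧ Commute U V ∧
      (∀ T, Commute U (Θ T)) ∧ (∀ T, Commute V (Θ T)) ∧ ‖U * t.r - t.u‖ ≤ θ ∧ ‖V * t.r - t.v‖ ≤ θ := by
  obtain ⟨N, _, χ, f, hχ, hχ1, hf, hf1, hf2⟩ := scal_qclk hθ
  obtain ⟨K, _, _, _, ε, h⟩ := exists_l2 (ZMod N × ZMod N) H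
  obtain ⟨Θ, hΘ⟩ := h.exists_amp
  have sh : ∀ (k : ZMod N) (g : ZMod N → ℝ), ∑ a, g (a - k) = ∑ a, g a := fun k g =>
    (Equiv.subRight k).sum_comp g
  have hF : ∀ k : ZMod N, ∑ a, ‖f (a - k)‖ ^ 2 = 1 := fun k =>
    (sh k fun a => ‖f a‖ ^ 2).trans hf
  let y : ZMod N → (H →L[ℂ] K) := fun k => wv_qclk ε k fun a => f (a - k)
  have y1 : ∀ k, adjoint (y k) ∘L y k = 1 := fun k => by
    ext ζ
    refine (wv_adj_qclk h k k _ _ ζ).trans ?_
    have := congrArg ((↑) : ℝ → ℂ) (hF k)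
    push_cast at this
    simp [Complex.conj_mul', this]
  have y0 : ∀ k l, k ≠ l → adjoint (y k) ∘L y l = 0 := fun k l hk => by
    ext ζ
    exact (wv_adj_qclk h k l _ _ ζ).trans (if_neg hk)
  have yi : ∀ k, Itw Θ (y k) := fun k T => by
    ext ζ
    have e : ∀ i ξ, Θ T (ε i ξ) = ε i (T ξ) := fun i ξ => congr($(hΘ i T) ξ)
    simp [y, wv_qclk, e]
  have u1 := mo_unit_qclk y1 y0 hχ1 0
  have v1 := mo_unit_qclk y1 y0 (c := fun _ => 1) (by simp) 1
  have U1 := mo_unit_qclk h.self h.ne (c := fun p => χ p.1) (fun p => hχ1 p.1) 0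
  have V1 := mo_unit_qclk h.self h.ne (c := fun _ => 1) (by simp) (0, 1)
  rw [h.sum_eq_one] at U1 V1
  have hr : ‖∑ k, y k ∘L adjoint (y k)‖ ≤ 1 := by
    have e : ∑ k, y k ∘L adjoint (y k) = mo_qclk y (fun _ => 1) 0 := by simp [mo_qclk]
    have e' : star (mo_qclk y (fun _ => 1) 0) = mo_qclk y (fun _ => 1) 0 := by simp [mo_star_qclk]
    have := (mo_unit_qclk y1 y0 (c := fun _ => 1) (by simp) 0).1
    rw [e, e'] at this
    rw [e]
    exact IsStarProjection.norm_le _ ⟨this, e'⟩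
  refine ⟨K, _, _, inferInstance, Θ,
    { Λ := ZMod N, ι := y, r := ∑ k, y k ∘L adjoint (y k), u := mo_qclk y χ 0
      v := mo_qclk y (fun _ => 1) 1, ω := χ 1, itw := yi, self := y1, ne := y0, sum := rfl
      uc := mo_commute_qclk yi _ _, vc := mo_commute_qclk yi _ _, u1 := u1.1, u2 := u1.2
      v1 := v1.1, v2 := v1.2, rel := ?_, ω0 := fun e => by simpa [e] using hχ1 1, ω1 := hχ },
    mo_qclk ε (fun p => χ p.1) 0, mo_qclk ε (fun _ => 1) (0, 1), h.isAmp hΘ, U1, V1, ?_,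
    mo_commute_qclk hΘ _ _, mo_commute_qclk hΘ _ _, ?_, ?_⟩
  · rw [mo_mul_qclk y1 y0, mo_mul_qclk y1 y0]
    simp [mo_qclk, Finset.smul_sum, smul_smul, AddChar.map_add_eq_mul, mul_comm]
  · rw [Commute, SemiconjBy, mo_mul_qclk h.self h.ne, mo_mul_qclk h.self h.ne]
    simp
  · refine le_trans (le_of_eq (congrArg _ ?_)) (bound_qclk h (fun k a => f (a - k))
      (fun k a => χ k * ((χ (a - k) - 1) * f (a - k))) hF hθ.le (fun k => ?_) 0 hr)
    · change _ * (∑ k, y k ∘L adjoint (y k)) - mo_qclk y χ 0 = _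
      ext ζ
      have e : ∀ k a, χ k * ((χ (a - k) - 1) * f (a - k)) = f (a - k) * χ a - χ k * f (a - k) :=
        fun k a => by
          have := χ.map_add_eq_mul k (a - k)
          rw [add_sub_cancel] at this
          rw [this]
          ring
      conv_lhs => rw [ContinuousLinearMap.sub_apply, mo_qclk.eq_1 y]
      simp only [ContinuousLinearMap.mul_apply, ContinuousLinearMap.sum_apply, map_sum,
        ContinuousLinearMap.comp_apply, ContinuousLinearMap.smul_apply, ← Finset.sum_sub_distrib]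
      refine Finset.sum_congr rfl fun k _ => ?_
      change _ = wv_qclk ε (k + 0) _ (adjoint (y k) ζ)
      generalize adjoint (y k) ζ = ξ
      simp [y, wv_qclk, mo_apply_qclk h.self h.ne, e, sub_smul, Finset.smul_sum, smul_smul]
    · simp only [norm_mul (χ k), hχ1, one_mul]
      exact (sh k fun a => ‖(χ a - 1) * f a‖ ^ 2).trans_le hf1
  · refine le_trans (le_of_eq (congrArg _ ?_)) (bound_qclk h (fun k a => f (a - k))
      (fun k a => f (a - k) - f (a - k - 1)) hF hθ.le (fun k => ?_) 1 hr)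
    · change _ * (∑ k, y k ∘L adjoint (y k)) - mo_qclk y (fun _ => 1) 1 = _
      ext ζ
      conv_lhs => rw [ContinuousLinearMap.sub_apply, mo_qclk.eq_1 y]
      simp only [ContinuousLinearMap.mul_apply, ContinuousLinearMap.sum_apply, map_sum,
        ContinuousLinearMap.comp_apply, ContinuousLinearMap.smul_apply, ← Finset.sum_sub_distrib]
      refine Finset.sum_congr rfl fun k _ => ?_
      change _ = wv_qclk ε (k + 1) _ (adjoint (y k) ζ)
      generalize adjoint (y k) ζ = ξ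
      simp [y, wv_qclk, mo_apply_qclk h.self h.ne, sub_smul, sub_sub]
    · exact (sh k fun a => ‖f a - f (a - 1)‖ ^ 2).trans_le hf2

end Ulam
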