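import Pool.Agent.P.MP_3be8c7_an.QD
import Pool.Agent.P.MP_3be8c7_an.SPEC
import Pool.Agent.P.MP_3be8c7_an.NUC1

open scoped ComplexOrder InnerProductSpace
open Filter Topology
open ContinuousLinearMap (adjoint)

noncomputable section

namespace Ulam

universe u v w

variable {H : Type v} [NormedAddCommGroup H] [InnerProductSpace ℂ H] [CompleteSpace H]
variable {K : Type w} [NormedAddCommGroup K] [InnerProductSpace ℂ K] [CompleteSpace K]

theorem isqrt_qcmp {b : K →L[ℂ] K} (hb : IsSelfAdjoint b) {c : ℝ} (h0 : 0 ≤ c) (h1 : c ≤ 1 / 4)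
    (h : ‖b‖ ≤ c) : ∃ g : K →L[ℂ] K, IsSelfAdjoint g ∧ g * (1 - b) * g = 1 ∧ ‖g - 1‖ ≤ c ∧
      ∀ T, Commute b T → Commute g T := by
  have hs : ∀ t ∈ spectrum ℝ b, |t| ≤ c := fun t ht =>
    (spectrum.norm_le_norm_mul_of_mem ht).trans
      ((mul_le_of_le_one_right (norm_nonneg _) ContinuousLinearMap.norm_id_le).trans h)
  have hp : ∀ t ∈ spectrum ℝ b, 0 < 1 - t := fun t ht => by linarith [(abs_le.1 (hs t ht)).2]
  have hc : ContinuousOn (fun t : ℝ => (√(1 - t))⁻¹) (spectrum ℝ b) :=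
    ContinuousOn.inv₀ (by fun_prop) fun t ht => (Real.sqrt_pos.2 (hp t ht)).ne'
  refine ⟨cfc (fun t : ℝ => (√(1 - t))⁻¹) b, IsSelfAdjoint.cfc, ?_, ?_,
    fun T hT => hT.cfc_real _⟩
  · have e : 1 - b = cfc (fun t : ℝ => 1 - t) b := by
      rw [cfc_sub _ _ b, cfc_const_one ℝ b, cfc_id' ℝ b]
    rw [e, ← cfc_mul _ _ b, ← cfc_mul _ _ b, ← cfc_const_one ℝ b]
    refine cfc_congr fun t ht => ?_
    have h2 := Real.sqrt_pos.2 (hp t ht)
    have h3 := Real.mul_self_sqrt (hp t ht).le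
    field_simp
    linarith
  · rw [← cfc_const_one ℝ b, ← cfc_sub _ _ b]
    refine norm_cfc_le h0 fun t ht => ?_
    have h2 := Real.sqrt_pos.2 (hp t ht)
    have h3 := Real.mul_self_sqrt (hp t ht).le
    obtain ⟨h4, h5⟩ := abs_le.1 (hs t ht)
    have h6 : 4 / 5 ≤ √(1 - t) := Real.le_sqrt_of_sq_le (by linarith)
    have h7 := mul_inv_cancel₀ h2.ne'
    have h8 := inv_pos.2 h2
    rw [Real.norm_eq_abs, abs_le]
    constructor
    · by_contra hn
      have : √(1 - t) * (√(1 - t))⁻¹ < √(1 - t) * (1 - c) := by gcongr; linarith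
      have h9 : √(1 - t) ≤ 1 + c := Real.sqrt_le_iff.2 ⟨by linarith, by nlinarith⟩
      nlinarith
    · by_contra hn
      have : √(1 - t) * (1 + c) < √(1 - t) * (√(1 - t))⁻¹ := by gcongr; linarith
      have h9 : 1 - c * (3 / 4) ≤ √(1 - t) := Real.le_sqrt_of_sq_le (by nlinarith)
      nlinarith

theorem range_qcmp {D : Type u} [NonUnitalCStarAlgebra D] (Ψ : D →⋆ₙₐ[ℂ] (K →L[ℂ] K))
    (F : K →L[ℂ] K) {δ : ℝ} (h : ∀ f, ‖f‖ ≤ 1 → ‖F * Ψ f‖ ≤ δ) {η : K}
    (hη : η ∈ closure (Submodule.span ℂ {s | ∃ d ζ, s = Ψ d ζ} : Set K)) : ‖F η‖ ≤ δ * ‖η‖ := by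
  let := CStarAlgebra.spectralOrder D
  have := CStarAlgebra.spectralOrderedRing D
  have hu := CStarAlgebra.increasingApproximateUnit D
  have := hu.neBot
  refine closure_minimal (t := {η | ‖F η‖ ≤ δ * ‖η‖}) (fun η hη => ?_)
    (isClosed_le (by fun_prop) (by fun_prop)) hη
  have h1 : Tendsto (fun f => Ψ f η) (CStarAlgebra.approximateUnit D) (𝓝 η) := by
    induction hη using Submodule.span_induction with
    | mem s hs =>
      obtain ⟨d, ζ, rfl⟩ := hs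
      have hc : Continuous fun d => Ψ d ζ := (map_continuous Ψ).clm_apply continuous_const
      simpa [Function.comp_def] using (hc.tendsto d).comp (hu.tendsto_mul_right d)
    | zero => simp
    | add a b _ _ ha hb => simpa only [map_add] using ha.add hb
    | smul c a _ ha => simpa only [map_smul] using ha.const_smul c
  refine le_of_tendsto ((F.continuous.tendsto η).comp h1).norm ?_
  filter_upwards [hu.eventually_norm] with f hf
  exact (F * Ψ f).le_of_opNorm_le (h f hf) η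

theorem cmp {D : Type u} [NonUnitalCStarAlgebra D] (π : D →⋆ₙₐ[ℂ] (H →L[ℂ] H))
    (Ψ : D →⋆ₙₐ[ℂ] (K →L[ℂ] K)) (y : H →L[ℂ] K) (hy : adjoint y ∘L y = 1) {δ : ℝ} (h0 : 0 ≤ δ)
    (h1 : δ ≤ 1 / 2) (h : ∀ d, ‖Ψ d - y ∘L π d ∘L adjoint y‖ ≤ δ * ‖d‖) :
    ∃ ψ : D →⋆ₙₐ[ℂ] (H →L[ℂ] H), (∀ d, ‖π d - ψ d‖ ≤ 4 * δ * ‖d‖) ∧
      ∀ (T : H →L[ℂ] H) (T' : K →L[ℂ] K), T' ∘L y = y ∘L T → adjoint y ∘L T' = T ∘L adjoint y →
        (∀ d, Commute T' (Ψ d)) → ∀ d, Commute T (ψ d) := by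
  have hyy : ∀ ξ, adjoint y (y ξ) = ξ := fun ξ => congr($hy ξ)
  have ny : ‖y‖ ≤ 1 := by
    have := y.norm_adjoint_comp_self
    rw [hy] at this
    have h2 : ‖(1 : H →L[ℂ] H)‖ ≤ 1 := ContinuousLinearMap.norm_id_le
    nlinarith [norm_nonneg y]
  have cmp_le : ∀ X : K →L[ℂ] K, ‖adjoint y ∘L X ∘L y‖ ≤ ‖X‖ := fun X =>
    ((adjoint y).opNorm_comp_le _).trans <| (mul_le_of_le_one_left (norm_nonneg _)
      (by rwa [LinearIsometryEquiv.norm_map])).trans <| (X.opNorm_comp_le y).trans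
        (mul_le_of_le_one_right (norm_nonneg _) ny)
  obtain ⟨E, hE⟩ : ∃ E, E = y ∘L adjoint y := ⟨_, rfl⟩
  have pE : IsStarProjection E := ⟨by ext ζ; simp [hE, hyy], by
    simp [IsSelfAdjoint, hE, ContinuousLinearMap.star_eq_adjoint]⟩
  obtain ⟨Q, pQ, q1, -, q3, q4⟩ := exists_proj {s | ∃ d ζ, s = Ψ d ζ}
  have QΨ : ∀ d, Q * Ψ d = Ψ d := fun d => by ext ζ; exact q1 _ ⟨d, ζ, rfl⟩
  have ΨQ : ∀ d, Ψ d * Q = Ψ d := fun d => by
    simpa [map_star, pQ.isSelfAdjoint.star_eq] using congrArg star (QΨ (star d))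
  have nFQ : ‖(1 - E) * Q‖ ≤ δ := ContinuousLinearMap.opNorm_le_bound _ h0 fun ζ => by
    refine (range_qcmp Ψ (1 - E) (fun f hf => ?_) (q4 ζ)).trans (mul_le_mul_of_nonneg_left
      ((Q.le_of_opNorm_le pQ.norm_le ζ).trans_eq (one_mul _)) h0)
    have e : (1 - E) * Ψ f = (1 - E) * (Ψ f - y ∘L π f ∘L adjoint y) := by
      ext ζ; simp [hE, hyy]
    rw [e]
    exact (norm_mul_le _ _).trans ((mul_le_of_le_one_left (norm_nonneg _)
      pE.one_sub.norm_le).trans ((h f).trans (mul_le_of_le_one_right h0 hf)))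
  have eb : star ((1 - E) * Q) * ((1 - E) * Q) = Q - Q * E * Q := by
    rw [star_mul, pQ.isSelfAdjoint.star_eq, pE.one_sub.isSelfAdjoint.star_eq, mul_assoc,
      ← mul_assoc (1 - E), pE.one_sub.isIdempotentElem.eq, sub_mul, mul_sub, one_mul,
      pQ.isIdempotentElem.eq, mul_assoc]
  obtain ⟨g, sg, g1, g2, g3⟩ := isqrt_qcmp (b := Q - Q * E * Q) (c := δ ^ 2)
    (eb ▸ IsSelfAdjoint.star_mul_self _) (sq_nonneg δ) (by nlinarith) (by
      rw [← eb, CStarRing.norm_star_mul_self, sq]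
      exact mul_le_mul nFQ nFQ (norm_nonneg _) h0)
  have gQ : g * Q = Q * g := (g3 Q ((Commute.refl Q).sub_left (by
    rw [Commute, SemiconjBy, mul_assoc, ← mul_assoc Q, ← mul_assoc Q, pQ.isIdempotentElem.eq]))).eq
  have key : Q * (g * E * g) * Q = Q := by
    have e : Q * E * Q = Q * (1 - (Q - Q * E * Q)) := by
      simp only [mul_sub, mul_one, ← mul_assoc, pQ.isIdempotentElem.eq, sub_sub_cancel]
    calc Q * (g * E * g) * Q = g * (Q * E * Q) * g := by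
          simp only [← mul_assoc, ← gQ]
          simp only [mul_assoc, gQ]
      _ = Q * (g * (1 - (Q - Q * E * Q)) * g) := by
          conv_lhs => rw [e]
          simp only [← mul_assoc, gQ]
      _ = Q := by rw [g1, mul_one]
  refine ⟨⟨⟨⟨⟨fun d => adjoint y ∘L (g * Ψ d * g) ∘L y, fun c d => ?_⟩, ?_, fun d d' => ?_⟩,
    fun d d' => ?_⟩, fun d => ?_⟩, fun d => ?_, fun T T' t1 t2 t3 d => ?_⟩
  · ext ξ; simp
  · ext ξ; simp
  · ext ξ; simp
  · have e : g * Ψ (d * d') * g = g * Ψ d * g * E * (g * Ψ d' * g) := by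
      have e1 : Ψ d * (Q * (g * E * g) * Q) * Ψ d' = Ψ d * Q * (g * E * g) * (Q * Ψ d') := by
        simp only [mul_assoc]
      rw [key, ΨQ, QΨ] at e1
      rw [map_mul, e1]
      simp only [mul_assoc]
    simp only [e, hE]
    rfl
  · simp only [map_star, ContinuousLinearMap.star_eq_adjoint (adjoint y ∘L _),
      ContinuousLinearMap.adjoint_comp, ContinuousLinearMap.adjoint_adjoint]
    rw [← ContinuousLinearMap.star_eq_adjoint (g * Ψ d * g), star_mul, star_mul, sg.star_eq,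
      ← mul_assoc, ContinuousLinearMap.comp_assoc]
  · have e : π d - adjoint y ∘L (g * Ψ d * g) ∘L y = -(adjoint y ∘L
        ((Ψ d - y ∘L π d ∘L adjoint y) + ((g - 1) * Ψ d + Ψ d * (g - 1) +
          (g - 1) * Ψ d * (g - 1))) ∘L y) := by
      have e1 : (g - 1) * Ψ d + Ψ d * (g - 1) + (g - 1) * Ψ d * (g - 1) =
          g * Ψ d * g - Ψ d := by noncomm_ring
      rw [e1]
      ext ξ; simp [hyy]
    have nΨ := NonUnitalStarAlgHom.norm_apply_le Ψ d
    have n1 : ‖(g - 1) * Ψ d‖ ≤ δ ^ 2 * ‖d‖ :=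
      (norm_mul_le _ _).trans (mul_le_mul g2 nΨ (norm_nonneg _) (sq_nonneg δ))
    have n2 : ‖Ψ d * (g - 1)‖ ≤ ‖d‖ * δ ^ 2 :=
      (norm_mul_le _ _).trans (mul_le_mul nΨ g2 (norm_nonneg _) (norm_nonneg d))
    have n3 : ‖(g - 1) * Ψ d * (g - 1)‖ ≤ δ ^ 2 * ‖d‖ * 1 := (norm_mul_le _ _).trans
      (mul_le_mul n1 (g2.trans (by nlinarith)) (norm_nonneg _) (by positivity))
    have n4 : δ ^ 2 * ‖d‖ ≤ δ * ‖d‖ := mul_le_mul_of_nonneg_right (by nlinarith) (norm_nonneg d)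
    change ‖π d - adjoint y ∘L (g * Ψ d * g) ∘L y‖ ≤ _
    rw [e, norm_neg]
    refine (cmp_le _).trans ((norm_add_le_of_le (h d) (norm_add₃_le.trans
      (add_le_add (add_le_add n1 n2) n3))).trans ?_)
    linarith
  · have t4 : ∀ d, Commute (star T') (Ψ d) := fun d => by
      simpa [map_star] using (t3 (star d)).star_star
    have cQ : Commute Q T' := by
      refine q3 T' ?_ ?_ <;> rintro _ ⟨d, ζ, rfl⟩
      · exact q1 _ ⟨d, T' ζ, congr($((t3 d).eq) ζ)⟩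
      · exact q1 _ ⟨d, star T' ζ, congr($((t4 d).eq) ζ)⟩
    have cE : Commute E T' := by
      change E ∘L T' = T' ∘L E
      rw [hE, ContinuousLinearMap.comp_assoc, t2, ← ContinuousLinearMap.comp_assoc, ← t1,
        ContinuousLinearMap.comp_assoc]
    have cg := g3 T' (cQ.sub_left ((cQ.mul_left cE).mul_left cQ))
    have c : (g * Ψ d * g) ∘L T' = T' ∘L (g * Ψ d * g) :=
      ((cg.mul_left (t3 d).symm).mul_left cg).eq
    change T ∘L adjoint y ∘L (g * Ψ d * g) ∘L y = (adjoint y ∘L (g * Ψ d * g) ∘L y) ∘L T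
    rw [← ContinuousLinearMap.comp_assoc, ← t2, ContinuousLinearMap.comp_assoc,
      ← ContinuousLinearMap.comp_assoc T', ← c, ContinuousLinearMap.comp_assoc, t1]
    rfl

end Ulam
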