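import Pool.Agent.P.MP_3be8c7_an.QD

open scoped ComplexOrder InnerProductSpace
open Filter Topology
open ContinuousLinearMap (adjoint)

noncomputable section

namespace Ulam

universe u v w

variable {ι : Type} [DecidableEq ι]

open FreeGroup (of)

/-- A generator or the inverse of a generator. -/
def Letter (a : FreeGroup ι) : Prop := ∃ i, a = of i ∨ a = (of i)⁻¹

omit [DecidableEq ι] in
theorem letter_iff_qfg {a : FreeGroup ι} : Letter a ↔ ∃ s, a = FreeGroup.mk [s] :=
  ⟨fun ⟨i, h⟩ => h.elim (fun h => ⟨(i, true), h⟩) fun h => ⟨(i, false), h⟩,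
    fun ⟨⟨i, b⟩, h⟩ => ⟨i, by cases b; exacts [Or.inr h, Or.inl h]⟩⟩

theorem norm_mk_qfg {L : List (ι × Bool)} (h : FreeGroup.IsReduced L) :
    FreeGroup.norm (FreeGroup.mk L) = L.length := by
  rw [FreeGroup.norm, FreeGroup.toWord_mk, h.reduce_eq]

theorem cons_qfg (s : ι × Bool) (y : FreeGroup ι) :
    (FreeGroup.mk [s] * y).toWord = s :: y.toWord ∨
      y.toWord = (s.1, !s.2) :: (FreeGroup.mk [s] * y).toWord := by
  rw [FreeGroup.toWord_mul, FreeGroup.toWord_mk, FreeGroup.reduce_singleton, List.singleton_append,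
    FreeGroup.reduce.cons, FreeGroup.reduce_toWord]
  rcases y.toWord with _ | ⟨t, T⟩
  · exact Or.inl rfl
  · by_cases h : s.1 = t.1 ∧ s.2 = !t.2 <;> simp [h]

theorem Letter.norm_eq {a : FreeGroup ι} (h : Letter a) : FreeGroup.norm a = 1 := by
  obtain ⟨i, rfl | rfl⟩ := h <;> simp

theorem exists_letter_left {f : FreeGroup ι} {n : ℕ} (h : FreeGroup.norm f = n + 1) :
    ∃ a f', Letter a ∧ f = a * f' ∧ FreeGroup.norm f' = n := by
  obtain ⟨s, L, e⟩ := List.exists_cons_of_length_eq_add_one h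
  have h1 := FreeGroup.isReduced_toWord (x := f)
  rw [FreeGroup.norm, e] at h
  rw [e] at h1
  exact ⟨_, .mk L, letter_iff_qfg.2 ⟨s, rfl⟩, FreeGroup.mk_toWord.symm.trans (congrArg _ e),
    (norm_mk_qfg (List.IsChain.tail h1)).trans (Nat.succ.inj h)⟩

theorem exists_letter_right {f : FreeGroup ι} {n : ℕ} (h : FreeGroup.norm f = n + 1) :
    ∃ a f', Letter a ∧ f = f' * a ∧ FreeGroup.norm f' = n := by
  obtain ⟨a, g, ⟨i, h1⟩, h2, h3⟩ := exists_letter_left (FreeGroup.norm_inv_eq.trans h)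
  exact ⟨a⁻¹, g⁻¹, ⟨i, h1.symm.imp (by simp +contextual) (by simp +contextual)⟩,
    by rw [← mul_inv_rev, ← h2, inv_inv], FreeGroup.norm_inv_eq.trans h3⟩

theorem Letter.norm_mul {a : FreeGroup ι} (h : Letter a) (y : FreeGroup ι) :
    FreeGroup.norm (a * y) = FreeGroup.norm y + 1 ∨ FreeGroup.norm (a * y) + 1 = FreeGroup.norm y := by
  obtain ⟨s, rfl⟩ := letter_iff_qfg.1 h
  exact (cons_qfg s y).imp (congrArg List.length) fun e => by simp [FreeGroup.norm, e]

theorem Letter.unique {a b : FreeGroup ι} (ha : Letter a) (hb : Letter b) {y : FreeGroup ι}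
    (h1 : FreeGroup.norm (a * y) < FreeGroup.norm y) (h2 : FreeGroup.norm (b * y) < FreeGroup.norm y) : a = b := by
  obtain ⟨s, rfl⟩ := letter_iff_qfg.1 ha
  obtain ⟨t, rfl⟩ := letter_iff_qfg.1 hb
  have e : ∀ s : ι × Bool, FreeGroup.norm (FreeGroup.mk [s] * y) < FreeGroup.norm y →
      y.toWord = (s.1, !s.2) :: (FreeGroup.mk [s] * y).toWord := fun s h =>
    (cons_qfg s y).resolve_left fun e => by simp [FreeGroup.norm, e] at h
  have h3 := (List.cons.inj ((e s h1).symm.trans (e t h2))).1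
  simp only [Prod.mk.injEq, Bool.not_inj_iff] at h3
  rw [Prod.ext h3.1 h3.2]

theorem summable_pow_norm [Fintype ι] {η : ℝ} (h0 : 0 ≤ η) (h : 2 * Fintype.card ι * η < 1) :
    Summable fun f : FreeGroup ι => η ^ FreeGroup.norm f := by
  have h1 : Summable fun x : Σ n, Fin n → ι × Bool => η ^ x.1 := by
    refine (summable_sigma_of_nonneg fun _ => pow_nonneg h0 _).2 ⟨fun _ => .of_finite, ?_⟩
    refine (summable_geometric_of_lt_one (by positivity) h).congr fun n => ?_
    simp [mul_pow, mul_comm]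
  refine (h1.comp_injective (List.equivSigmaTuple.injective.comp
    FreeGroup.toWord_injective)).congr fun f => ?_
  simp [List.equivSigmaTuple, FreeGroup.norm]

theorem escape_qfg {i j : ι} (hij : i ≠ j) {s : ι × Bool} {T : List (ι × Bool)}
    (h : FreeGroup.IsReduced (s :: T)) (hs : s ≠ (j, true)) (m : ℕ) :
    m ≤ FreeGroup.norm ((of i * of j * (of i)⁻¹ * (of j)⁻¹) ^ (m + 1)) ∧
      FreeGroup.norm ((of i * of j * (of i)⁻¹ * (of j)⁻¹) ^ (m + 1)) <
        FreeGroup.norm ((of i * of j * (of i)⁻¹ * (of j)⁻¹) ^ (m + 1) * .mk (s :: T)) := by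
  have e : of i * of j * (of i)⁻¹ * (of j)⁻¹ =
    FreeGroup.mk [(i, true), (j, true), (i, false), (j, false)] := rfl
  have h1 : FreeGroup.IsCyclicallyReduced [(i, true), (j, true), (i, false), (j, false)] := by
    simp [FreeGroup.IsCyclicallyReduced, FreeGroup.IsReduced, hij, hij.symm]
  have h2 : FreeGroup.IsReduced ([] ++ [(i, true), (j, true), (i, false), (j, false)] ++ s :: T) := by
    obtain ⟨k, b⟩ := s
    simp only [List.nil_append, List.cons_append, FreeGroup.isReduced_cons_cons, h, hij, hij.symm]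
    cases b <;> simp_all [eq_comm]
  have h3 := FreeGroup.IsReduced.append_flatten_replicate_append (n := m + 1) h1 h2 (by simp)
  rw [List.nil_append] at h3
  rw [e, FreeGroup.pow_mk, FreeGroup.mul_mk, norm_mk_qfg (h1.flatten_replicate _).isReduced,
    norm_mk_qfg h3]
  simp
  omega

theorem exists_escape {i j : ι} (hij : i ≠ j) {h : FreeGroup ι} (h1 : h ≠ 1) (m : ℕ) :
    ∃ k : ℤ, m ≤ FreeGroup.norm ((of i * of j * (of i)⁻¹ * (of j)⁻¹) ^ k) ∧
      FreeGroup.norm ((of i * of j * (of i)⁻¹ * (of j)⁻¹) ^ k) <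
        FreeGroup.norm ((of i * of j * (of i)⁻¹ * (of j)⁻¹) ^ k * h) := by
  obtain ⟨s, T, e⟩ := List.exists_cons_of_ne_nil (FreeGroup.toWord_eq_nil_iff.not.2 h1)
  have h2 := FreeGroup.isReduced_toWord (x := h)
  rw [e] at h2
  obtain rfl : FreeGroup.mk (s :: T) = h := e ▸ FreeGroup.mk_toWord
  by_cases hs : s = (j, true)
  · refine ⟨-(m + 1 : ℕ), ?_⟩
    rw [zpow_neg, zpow_natCast, ← inv_pow, show (of i * of j * (of i)⁻¹ * (of j)⁻¹)⁻¹ =
      of j * of i * (of j)⁻¹ * (of i)⁻¹ by group]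
    exact escape_qfg hij.symm h2 (by simp [hs, hij.symm]) m
  · exact ⟨(m + 1 : ℕ), escape_qfg hij h2 hs m⟩

end Ulam
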