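import Pool.Agent.P.MP_3be8c7_an.QD
import Pool.Agent.P.MP_3be8c7_an.EXT
import Pool.Agent.P.MP_3be8c7_an.AV

open scoped ComplexOrder InnerProductSpace
open Filter Topology
open ContinuousLinearMap (adjoint)

noncomputable section

namespace Ulam

universe u v w

variable {H : Type v} [NormedAddCommGroup H] [InnerProductSpace ℂ H] [CompleteSpace H]

theorem map_wrd {R G G' F : Type*} [Monoid G] [Monoid G'] [FunLike F G G'] [MonoidHomClass F G G']
    (f : F) (s : R → G) {n : ℕ} (ρ : Fin n → R) : f (wrd s ρ) = wrd (fun r => f (s r)) ρ := by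
  rw [wrd, wrd, map_list_prod, List.map_ofFn]
  rfl

theorem av_wrd_succ {R G V : Type*} [Fintype R] [Monoid G] [AddCommMonoid V] [Module ℝ V]
    (s : R → G) (n : ℕ) (g : G → V) :
    av (fun ρ : Fin (n + 1) → R => g (wrd s ρ)) =
      av fun ρ : Fin n → R => av fun r : R => g (wrd s ρ * s r) := by
  rw [← av_equiv ((Equiv.prodComm _ _).trans (Fin.snocEquiv fun _ => R)), av_prod]
  congr 1
  funext ρ
  congr 1
  funext r
  congr 1
  simp [wrd, List.ofFn_succ', Fin.snocEquiv, -List.ofFn_succ]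

theorem av_wrd_pow {R B : Type*} [Fintype R] [Ring B] [Algebra ℝ B] (s : R → B) (n : ℕ) :
    av (fun ρ : Fin n → R => wrd s ρ) = av s ^ n := by
  induction n with
  | zero => simp [wrd, av]
  | succ n ih =>
    have h := av_wrd_succ s n fun x => x
    rw [h, pow_succ, ← ih]
    have h1 : ∀ x : B, (av fun r => x * s r) = x * av s := fun x =>
      (map_av (LinearMap.mulLeft ℝ x) s).symm
    simp only [h1]
    exact (map_av (LinearMap.mulRight ℝ (av s)) _).symm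

theorem comm4_qten {I J : Type*} [Fintype I] [Fintype J] (F : I → I → J → J → ℂ) :
    ∑ i, ∑ j, ∑ l, ∑ k, F i j l k = ∑ l, ∑ k, ∑ i, ∑ j, F i j l k := by
  have h := Finset.sum_comm (s := (Finset.univ : Finset (I × I)))
    (t := (Finset.univ : Finset (J × J))) (f := fun p q => F p.1 p.2 q.1 q.2)
  simpa only [Fintype.sum_prod_type] using h

omit [CompleteSpace H] in
theorem expand0_qten {I J : Type*} [Fintype I] [Fintype J] (c : I → ℂ) (b : I → H) (β : J → H)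
    (α : I → J → ℂ) (w : H →L[ℂ] H) :
    ∑ i, ∑ j, star (c i) * c j *
        (⟪∑ l, α i l • β l, w (∑ k, α j k • β k)⟫_ℂ * ⟪w (b j), b i⟫_ℂ) =
      ∑ l, ∑ k, ⟪β l, w (β k)⟫_ℂ *
        ⟪w (∑ j, star (c j * α j k) • b j), ∑ i, star (c i * α i l) • b i⟫_ℂ := by
  have h1 : ∀ i j, ⟪∑ l, α i l • β l, w (∑ k, α j k • β k)⟫_ℂ =
      ∑ l, ∑ k, star (α i l) * α j k * ⟪β l, w (β k)⟫_ℂ := fun i j => by
    rw [sum_inner]
    refine Finset.sum_congr rfl fun l _ => ?_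
    rw [map_sum, inner_sum]
    refine Finset.sum_congr rfl fun k _ => ?_
    rw [map_smul, inner_smul_left, inner_smul_right, mul_assoc]
    rfl
  have h2 : ∀ l k, ⟪w (∑ j, star (c j * α j k) • b j), ∑ i, star (c i * α i l) • b i⟫_ℂ =
      ∑ i, ∑ j, star (c i * α i l) * (c j * α j k) * ⟪w (b j), b i⟫_ℂ := fun l k => by
    rw [inner_sum]
    refine Finset.sum_congr rfl fun i _ => ?_
    rw [map_sum, sum_inner]
    refine Finset.sum_congr rfl fun j _ => ?_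
    rw [map_smul, inner_smul_left, inner_smul_right, starRingEnd_apply, star_star]
    ring
  simp only [h1, h2, Finset.mul_sum, Finset.sum_mul]
  rw [comm4_qten]
  refine Finset.sum_congr rfl fun l _ => Finset.sum_congr rfl fun k _ =>
    Finset.sum_congr rfl fun i _ => Finset.sum_congr rfl fun j _ => ?_
  rw [star_mul']
  ring

omit [CompleteSpace H] in
theorem expand_qten {m : ℕ} (c : Fin m → ℂ) (x : Fin m → H × H) :
    ∃ (n : ℕ) (β ζ : Fin n → H), Orthonormal ℂ β ∧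
      ∑ i, ∑ j, star (c i) * c j * (⟪(x i).1, (x j).1⟫_ℂ * ⟪(x j).2, (x i).2⟫_ℂ) =
        ((∑ k, ‖ζ k‖ ^ 2 : ℝ) : ℂ) ∧ ∀ w : H →L[ℂ] H,
      ∑ i, ∑ j, star (c i) * c j * (⟪(x i).1, w (x j).1⟫_ℂ * ⟪w (x j).2, (x i).2⟫_ℂ) =
        ∑ l, ∑ k, ⟪β l, w (β k)⟫_ℂ * ⟪w (ζ k), ζ l⟫_ℂ := by
  let V := Submodule.span ℂ (Set.range fun i => (x i).1)
  have : FiniteDimensional ℂ V := FiniteDimensional.span_of_finite ℂ (Set.finite_range _)
  let b := stdOrthonormalBasis ℂ V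
  let a : Fin m → V := fun i => ⟨(x i).1, Submodule.subset_span ⟨i, rfl⟩⟩
  have h1 : ∀ i, (x i).1 = ∑ k, b.repr (a i) k • (b k : H) := fun i => by
    simpa using congrArg V.subtype (b.sum_repr (a i)).symm
  have ho : Orthonormal ℂ fun k => (b k : H) := b.orthonormal.comp_linearIsometry V.subtypeₗᵢ
  have h2 := fun w : H →L[ℂ] H =>
    expand0_qten c (fun i => (x i).2) (fun k => (b k : H)) (fun i k => b.repr (a i) k) w
  simp only [← h1] at h2
  refine ⟨_, fun k => b k, _, ho, ?_, h2⟩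
  have h3 := h2 1
  simp only [one_apply_eq_self, orthonormal_iff_ite.1 ho, ite_mul, one_mul, zero_mul,
    Finset.sum_ite_eq, Finset.mem_univ, if_true, inner_self_eq_norm_sq_to_K] at h3
  rw [h3]
  push_cast
  rfl

theorem tens_qten : ∃ (T : Type v) (_ : NormedAddCommGroup T) (_ : InnerProductSpace ℂ T)
    (_ : CompleteSpace T) (e : H × H → T) (t : unitary (H →L[ℂ] H) →* (T →L[ℂ] T)),
    (∀ x y, ⟪e x, e y⟫_ℂ = ⟪x.1, y.1⟫_ℂ * ⟪y.2, x.2⟫_ℂ) ∧
    Dense (Submodule.span ℂ (Set.range e) : Set T) ∧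
    (∀ w x, t w (e x) = e ((w : H →L[ℂ] H) x.1, (w : H →L[ℂ] H) x.2)) ∧
    (∀ w, ‖t w‖ ≤ 1) ∧ ∀ w, star (t w) = t w⁻¹ := by
  obtain ⟨T, _, _, _, e, he, hd⟩ := kolm (fun x y : H × H => ⟪x.1, y.1⟫_ℂ * ⟪y.2, x.2⟫_ℂ)
    fun m c x => by
      obtain ⟨n, β, ζ, -, h1, -⟩ := expand_qten c x
      rw [h1]
      exact Complex.zero_le_real.2 (by positivity)
  have h1 : ∀ w : unitary (H →L[ℂ] H), ∃ t : T →L[ℂ] T, ‖t‖ ≤ 1 ∧
      ∀ x, t (e x) = e ((w : H →L[ℂ] H) x.1, (w : H →L[ℂ] H) x.2) := fun w =>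
    exists_ext e _ hd zero_le_one fun m c x => by
      rw [one_mul, norm_eq_sqrt_re_inner (𝕜 := ℂ), norm_eq_sqrt_re_inner (𝕜 := ℂ)]
      simp only [sum_inner, inner_sum, inner_smul_left, inner_smul_right, he,
        ContinuousLinearMap.inner_map_map_of_mem_unitary w.2, le_refl]
  choose t ht1 ht2 using h1
  let t' : unitary (H →L[ℂ] H) →* (T →L[ℂ] T) :=
    { toFun := t
      map_one' := ext_of_dense e hd fun x => by simp [ht2]
      map_mul' := fun w w' => ext_of_dense e hd fun x => by simp [ht2] }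
  refine ⟨T, inferInstance, inferInstance, inferInstance, e, t', he, hd, ht2, ht1, fun w => ?_⟩
  have h2 : t' w⁻¹ * t' w = 1 := by rw [← map_mul, inv_mul_cancel, map_one]
  have h3 : t' w * t' w⁻¹ = 1 := by rw [← map_mul, mul_inv_cancel, map_one]
  have h4 : star (t' w) * t' w = 1 := by
    refine (ContinuousLinearMap.norm_map_iff_adjoint_comp_self _).1 fun y => le_antisymm ?_ ?_
    · exact ((t w).le_of_opNorm_le (ht1 w) y).trans_eq (one_mul _)
    · have h5 := (t w⁻¹).le_of_opNorm_le (ht1 _) (t' w y)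
      have h6 : t w⁻¹ (t' w y) = y := congrArg (fun S : T →L[ℂ] T => S y) h2
      rwa [h6, one_mul] at h5
  rw [← mul_one (star _), ← h3, ← mul_assoc, h4, one_mul]

omit [CompleteSpace H] in
theorem half_qten (A : H →L[ℂ] H) {c : ℝ} (hc : c ≤ 1) (hA : ‖A‖ ≤ 1)
    (h : ∀ x, (⟪x, A x⟫_ℂ).re ≤ (1 - c) * ‖x‖ ^ 2) :
    ‖(2 : ℝ)⁻¹ • (1 + A)‖ ^ 2 ≤ 1 - c / 2 := by
  have h0 : 0 ≤ 1 - c / 2 := by linarith
  rw [← Real.le_sqrt (norm_nonneg _) h0]
  refine ContinuousLinearMap.opNorm_le_bound _ (Real.sqrt_nonneg _) fun x => ?_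
  refine le_of_sq_le_sq (a := _) ?_ (by positivity)
  have h1 := norm_add_sq (𝕜 := ℂ) x (A x)
  have h2 : ‖A x‖ ≤ ‖x‖ := by simpa using A.le_of_opNorm_le hA x
  have h3 := h x
  have h4 : ‖A x‖ ^ 2 ≤ ‖x‖ ^ 2 := by gcongr
  rw [mul_pow, Real.sq_sqrt h0, smul_apply, norm_smul, mul_pow,
    add_apply, one_apply_eq_self, h1]
  simp only [RCLike.re_to_complex, norm_inv, Real.norm_ofNat]
  nlinarith

omit [CompleteSpace H] in
theorem norm_pow_le_qten (B : H →L[ℂ] H) (m : ℕ) : ‖B ^ m‖ ≤ ‖B‖ ^ m := by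
  rcases m.eq_zero_or_pos with rfl | hm
  · rw [pow_zero, pow_zero]
    exact ContinuousLinearMap.norm_id_le
  · exact norm_pow_le' B hm

theorem gapw_of_gap1 (N : VonNeumannAlgebra H) {R : Type} [Fintype R] [Nonempty R]
    (s : R → (H →L[ℂ] H)) (hs : ∀ ρ, s ρ ∈ N ∧ s ρ ∈ unitary (H →L[ℂ] H)) {c : ℝ} (hc : 0 < c)
    (h : Gap1 s c) {η : ℝ} (hη : 0 < η) :
    ∃ (R' : Type) (_ : Fintype R') (_ : Nonempty R') (s' : R' → unitary (H →L[ℂ] H)),
      (∀ ρ, (s' ρ : H →L[ℂ] H) ∈ N) ∧ Sym s' ∧ GapW (fun ρ => (s' ρ : H →L[ℂ] H)) η := by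
  obtain ⟨T, _, _, _, e, t, he, hd, ht, hn, hst⟩ := tens_qten (H := H)
  let s₀ : R → unitary (H →L[ℂ] H) := fun ρ => ⟨s ρ, (hs ρ).2⟩
  let A : T →L[ℂ] T := av fun ρ => t (s₀ ρ)
  have hA : ‖A‖ ≤ 1 := norm_av_le_of_le _ zero_le_one fun ρ => hn _
  have hin : ∀ {ι : Type} [Fintype ι] (B : ι → (T →L[ℂ] T)) (x y : T),
      (⟪x, av B y⟫_ℂ).re = av fun ρ => (⟪x, B ρ y⟫_ℂ).re := fun B x y => by
    rw [av_apply, ← re_av]
    exact congrArg Complex.re (map_av' (innerSL ℂ x) fun ρ => B ρ y)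
  have h1 : ∀ x, (⟪x, A x⟫_ℂ).re ≤ (1 - min c 1) * ‖x‖ ^ 2 := by
    intro x
    refine Dense.induction (P := fun x => (⟪x, A x⟫_ℂ).re ≤ (1 - min c 1) * ‖x‖ ^ 2) hd ?_ ?_ x
    · intro y hy
      obtain ⟨m, f, g, rfl⟩ := Submodule.mem_span_set'.1 hy
      choose x hx using fun i => (g i).2
      simp only [← hx]
      obtain ⟨n, β, ζ, ho, h2, h3⟩ := expand_qten f x
      have h4 : ‖∑ i, f i • e (x i)‖ ^ 2 = ∑ k, ‖ζ k‖ ^ 2 := by
        rw [← inner_self_eq_norm_sq (𝕜 := ℂ), ← Complex.ofReal_re (∑ k, ‖ζ k‖ ^ 2), ← h2]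
        simp only [sum_inner, inner_sum, inner_smul_left, inner_smul_right, he, Finset.mul_sum]
        rw [Finset.sum_comm]
        exact congrArg Complex.re (Finset.sum_congr rfl fun i _ =>
          Finset.sum_congr rfl fun j _ => by rw [starRingEnd_apply]; ring)
      have h5 : ∀ ρ, ⟪∑ i, f i • e (x i), t (s₀ ρ) (∑ i, f i • e (x i))⟫_ℂ =
          ∑ l, ∑ k, ⟪β l, s ρ (β k)⟫_ℂ * ⟪s ρ (ζ k), ζ l⟫_ℂ := fun ρ => by
        rw [← h3]
        simp only [map_sum, map_smul, ht, sum_inner, inner_sum, inner_smul_left, inner_smul_right,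
          he, Finset.mul_sum]
        rw [Finset.sum_comm]
        exact Finset.sum_congr rfl fun i _ =>
          Finset.sum_congr rfl fun j _ => by rw [starRingEnd_apply]; ring
      rw [hin, h4]
      simp only [h5]
      refine (h _ β ζ ho).trans (mul_le_mul_of_nonneg_right ?_ (by positivity))
      linarith [min_le_left c 1]
    · exact isClosed_le (by fun_prop) (by fun_prop)
  have h2 := half_qten A (min_le_right c 1) hA h1
  obtain ⟨m, hm⟩ := exists_pow_lt_of_lt_one hη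
    (show 1 - min c 1 / 2 < 1 by linarith [lt_min hc one_pos])
  let s₁ : R ⊕ R → unitary (H →L[ℂ] H) := Sum.elim (fun _ => 1) s₀
  have h3 : av (fun ρ => t (s₁ ρ)) = (2 : ℝ)⁻¹ • (1 + A) := by
    rw [← av_const (ι := R) (1 : T →L[ℂ] T)]
    simp only [A, av]
    rw [Fintype.sum_sum_type, Fintype.card_sum, ← smul_add, smul_smul, ← mul_inv, two_mul,
      Nat.cast_add]
    simp [s₁]
  set B := (2 : ℝ)⁻¹ • (1 + A) with hB
  have h4 : (av fun ρ : Fin m → R ⊕ R => t (wrd s₁ ρ)) = B ^ m := by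
    simp only [map_wrd t]
    rw [av_wrd_pow, h3]
  let s₂ : (Fin m → R ⊕ R) × (Fin m → R ⊕ R) → unitary (H →L[ℂ] H) := fun p =>
    (wrd s₁ p.1)⁻¹ * wrd s₁ p.2
  have h5 : av (fun p => t (s₂ p)) = star (B ^ m) * B ^ m := by
    rw [av_prod, ← h4, star_av, av_mul]
    simp only [mul_av, s₂, map_mul, hst]
  have h6 : ‖av fun p => t (s₂ p)‖ ≤ η := by
    rw [h5, CStarRing.norm_star_mul_self]
    have h7 : ‖B ^ m‖ ≤ ‖B‖ ^ m := norm_pow_le_qten B m
    calc ‖B ^ m‖ * ‖B ^ m‖ ≤ ‖B‖ ^ m * ‖B‖ ^ m := by gcongr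
      _ = (‖B‖ ^ 2) ^ m := by ring
      _ ≤ (1 - min c 1 / 2) ^ m := by gcongr
      _ ≤ η := hm.le
  have hN : ∀ ρ : Fin m → R ⊕ R, ((wrd s₁ ρ : unitary (H →L[ℂ] H)) : H →L[ℂ] H) ∈ N := fun ρ => by
    have h7 := map_wrd (unitary (H →L[ℂ] H)).subtype s₁ ρ
    rw [Submonoid.subtype_apply] at h7
    rw [h7]
    refine list_prod_mem fun x hx => ?_
    obtain ⟨i, rfl⟩ := (List.mem_ofFn' _ _).1 hx
    change (s₁ (ρ i) : H →L[ℂ] H) ∈ N
    rcases ρ i with r | r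
    · exact one_mem N
    · exact (hs r).1
  refine ⟨_, inferInstance, inferInstance, s₂, fun p => mul_mem (star_mem (hN p.1)) (hN p.2),
    ⟨⟨Equiv.prodComm _ _, fun p => by simp [s₂]⟩,
      (Classical.arbitrary _, Classical.arbitrary _), inv_mul_cancel _⟩, fun n ζ ζ' => ?_⟩
  have h7 : ∀ ζ : H, ‖e (ζ, ζ)‖ = ‖ζ‖ ^ 2 := fun ζ => by
    refine (sq_eq_sq₀ (norm_nonneg _) (by positivity)).1 ?_
    rw [← inner_self_eq_norm_sq (𝕜 := ℂ), he, inner_self_eq_norm_sq_to_K]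
    norm_cast
    simp
    ring
  have h8 : ∀ ρ : Fin n → _, ‖⟪ζ, wrd (fun p => (s₂ p : H →L[ℂ] H)) ρ ζ'⟫_ℂ‖ ^ 2 =
      (⟪e (ζ, ζ), wrd (fun p => t (s₂ p)) ρ (e (ζ', ζ'))⟫_ℂ).re := fun ρ => by
    have h9 := map_wrd (unitary (H →L[ℂ] H)).subtype s₂ ρ
    simp only [Submonoid.subtype_apply] at h9
    rw [← map_wrd t, ht, he, ← h9, ← inner_conj_symm (_ : H) ζ, Complex.mul_conj,
      Complex.ofReal_re, Complex.normSq_eq_norm_sq]
  simp only [h8]
  rw [← hin, av_wrd_pow]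
  refine (Complex.re_le_norm _).trans ((norm_inner_le_norm _ _).trans ?_)
  have h9 := ((av fun p => t (s₂ p)) ^ n).le_of_opNorm_le
    ((norm_pow_le_qten _ n).trans (pow_le_pow_left₀ (norm_nonneg _) h6 n)) (e (ζ', ζ'))
  rw [h7] at h9
  rw [h7]
  calc _ ≤ ‖ζ‖ ^ 2 * (η ^ n * ‖ζ'‖ ^ 2) := by gcongr
    _ = _ := by ring

end Ulam
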