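import Pool.Agent.P.MP_3be8c7_an.QEX
import Pool.Agent.P.MP_3be8c7_an.QFG
import Pool.Agent.P.MP_3be8c7_an.QTEN

open scoped ComplexOrder InnerProductSpace
open Filter Topology
open ContinuousLinearMap (adjoint)

noncomputable section

namespace Ulam

universe u v w

variable {ι R : Type} {G : Type*} [Group G] {s : R → G}
  {ω : FreeGroup ι → (FreeGroup ι × ι → R) → G}

/-- Translation of functions of the labels. -/
def act_qcoc (ι R : Type) (G : Type*) [Group G] :
    FreeGroup ι →* MulAut ((FreeGroup ι × ι → R) → G) where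
  toFun f :=
    { toFun := fun y x => y (x ∘ lft f)
      invFun := fun y x => y (x ∘ lft f⁻¹)
      left_inv := fun y => funext fun x => congrArg y (funext fun p => by simp [-map_inv])
      right_inv := fun y => funext fun x => congrArg y (funext fun p => by simp)
      map_mul' := fun _ _ => rfl }
  map_one' := MulEquiv.ext fun y => funext fun x => congrArg y (funext fun p => by simp)
  map_mul' f g := MulEquiv.ext fun y => funext fun x => congrArg y (funext fun p => by simp)

theorem exists_coc (s : R → G) : ∃ ω : FreeGroup ι → (FreeGroup ι × ι → R) → G, IsCoc s ω := by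
  let L : FreeGroup ι →* SemidirectProduct _ _ (act_qcoc ι R G) :=
    FreeGroup.lift fun i => ⟨fun x => s (x (1, i)), FreeGroup.of i⟩
  have hr : SemidirectProduct.rightHom.comp L = MonoidHom.id _ := by
    ext i; simp [L]
  refine ⟨fun f => (L f).left, fun f f' x => ?_, fun i x => by simp [L]⟩
  have : (L f).right = f := DFunLike.congr_fun hr f
  rw [map_mul, SemidirectProduct.mul_left, this]
  rfl

theorem IsCoc.one (h : IsCoc s ω) (x : FreeGroup ι × ι → R) : ω 1 x = 1 := by
  have := h.mul 1 1 x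
  rw [one_mul, map_one] at this
  exact left_eq_mul.1 this

theorem IsCoc.inv (h : IsCoc s ω) (f : FreeGroup ι) (x : FreeGroup ι × ι → R) :
    ω f⁻¹ x = (ω f (x ∘ lft f⁻¹))⁻¹ := by
  have := h.mul f⁻¹ f x
  rw [inv_mul_cancel, h.one] at this
  exact eq_inv_of_mul_eq_one_left this.symm

theorem IsCoc.loc (h : IsCoc s ω) (f : FreeGroup ι) : Loc (ω f) := by
  induction f using FreeGroup.induction_on with
  | C1 => exact (funext h.one : ω 1 = fun _ => 1) ▸ Loc.const 1
  | of i => exact (funext (h.gen i) : ω _ = _) ▸ (Loc.apply (1, i)).comp s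
  | inv_of i ih => exact (funext (h.inv _) : ω _ = _) ▸ (ih.perm _).comp Inv.inv
  | mul f g hf hg => exact (funext (h.mul f g) : ω _ = _) ▸ hf.map₂ (hg.perm _) (· * ·)

variable [DecidableEq ι]

omit [DecidableEq ι] in
theorem IsCoc.step_qcoc (h : IsCoc s ω) (f : FreeGroup ι) {a : FreeGroup ι} (ha : Letter a) :
    ∃ e : FreeGroup ι × ι, ((e.1 = f ∧ e.1 * FreeGroup.of e.2 = f * a) ∨
      (e.1 = f * a ∧ e.1 * FreeGroup.of e.2 = f)) ∧
      ∃ t : G → G, (t = id ∨ t = Inv.inv) ∧ ∀ x, ω (f * a) x = ω f x * t (s (x e)) := by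
  obtain ⟨i, rfl | rfl⟩ := ha
  · exact ⟨(f, i), Or.inl ⟨rfl, rfl⟩, id, Or.inl rfl, fun x => by simp [h.mul, h.gen]⟩
  · exact ⟨(f * (FreeGroup.of i)⁻¹, i), Or.inr ⟨rfl, by simp⟩, Inv.inv, Or.inr rfl, fun x => by
      simp [h.mul, h.inv, h.gen, -map_inv]⟩

theorem IsCoc.indep (h : IsCoc s ω) (f : FreeGroup ι) (a : FreeGroup ι × ι)
    (ha : f.norm < a.1.norm ∨ f.norm < (a.1 * FreeGroup.of a.2).norm)
    (x : FreeGroup ι × ι → R) (ρ : R) : ω f (Function.update x a ρ) = ω f x := by
  induction hn : f.norm generalizing f with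
  | zero => rw [FreeGroup.norm_eq_zero.1 hn, h.one, h.one]
  | succ n ih =>
    obtain ⟨b, f', hb, rfl, hf⟩ := exists_letter_right hn
    obtain ⟨e, he, t, -, ht⟩ := h.step_qcoc f' hb
    have hne : e ≠ a := by
      rintro rfl
      rcases he with ⟨e1, e2⟩ | ⟨e1, e2⟩ <;> rw [e2, e1] at ha <;> omega
    rw [ht, ht, ih f' (by omega) hf, Function.update_of_ne hne]

theorem IsCoc.ex_eq [Fintype R] [Nonempty R] (h : IsCoc s ω) (hs : Sym s) {V : Type*}
    [AddCommGroup V] [Module ℝ V] (f : FreeGroup ι) (g : G → V) :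
    ex (fun x => g (ω f x)) = av fun ρ : Fin f.norm → R => g (wrd s ρ) := by
  suffices H : ∀ (n : ℕ) (f : FreeGroup ι), f.norm = n → ∀ g : G → V,
      ex (fun x => g (ω f x)) = av fun ρ : Fin n → R => g (wrd s ρ) from H _ f rfl g
  intro n
  induction n with
  | zero =>
    intro f hn g
    rw [FreeGroup.norm_eq_zero.1 hn]
    simp only [h.one, wrd, List.ofFn_zero, List.prod_nil, ex_const, av_const]
  | succ n ih =>
    intro f hn g
    obtain ⟨b, f', hb, rfl, hf⟩ := exists_letter_right hn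
    obtain ⟨e, he, t, h1, ht⟩ := h.step_qcoc f' hb
    rw [av_wrd_succ, ← ih f' hf fun y => av fun r : R => g (y * s r),
      ← ex_resample ((h.loc (f' * b)).comp g) e]
    refine congrArg ex (funext fun x => ?_)
    have h2 : ∀ ρ, ω f' (Function.update x e ρ) = ω f' x := h.indep f' e (by
      rcases he with ⟨e1, e2⟩ | ⟨e1, e2⟩ <;> rw [e2, e1] <;> omega) x
    simp only [ht, h2, Function.update_self]
    rcases h1 with rfl | rfl
    · rfl
    · obtain ⟨σ, hσ⟩ := hs.1
      simp only [← hσ]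
      exact av_equiv σ fun r => g (ω f' x * s r)

end Ulam
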