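import Pool.Agent.P.MP_3be8c7_an.QSTZ
import Pool.Agent.P.MP_3be8c7_an.COMM

open scoped ComplexOrder InnerProductSpace
open Filter Topology
open ContinuousLinearMap (adjoint)

noncomputable section

namespace Ulam

universe u v w

variable {D : Type u} [CStarAlgebra D] [PartialOrder D] [StarOrderedRing D]
variable {H : Type v} [NormedAddCommGroup H] [InnerProductSpace ℂ H] [CompleteSpace H]

theorem inner_left_qcomz {z X : H →L[ℂ] H} (hz : IsStarProjection z) (h1 : z * X = X) (ζ ξ : H) :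
    ⟪ζ, X ξ⟫_ℂ = ⟪z ζ, X ξ⟫_ℂ := by
  rw [← inner_star_comm, hz.isSelfAdjoint.star_eq, ← mul_apply_eq_comp, h1]

theorem norm_proj_qcomz {z : H →L[ℂ] H} (hz : IsStarProjection z) (ζ : H) : ‖z ζ‖ ≤ ‖ζ‖ :=
  (z.le_opNorm ζ).trans (by
    calc ‖z‖ * ‖ζ‖ ≤ 1 * ‖ζ‖ := by
          gcongr
          exact hz.norm_le
      _ = ‖ζ‖ := one_mul _)

theorem step_qcomz (π : D →⋆ₐ[ℂ] (H →L[ℂ] H)) {z : H →L[ℂ] H} (hz : IsStarProjection z)
    (hzπ : ∀ a, Commute z (π a))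
    (hs : ∀ (G : Finset H) (U : Finset D), (∀ u ∈ U, u ∈ unitary D) → ∀ η : ℝ, 0 < η →
      ∃ s : SData D D, ∀ u ∈ U, ∀ ζ ∈ G, ‖π (u - s.ev u) (z ζ)‖ ≤ η)
    (T : H →L[ℂ] H) (hT1 : z * T = T) (hT2 : T * z = T) {ν : ℝ} (hν : 0 ≤ ν)
    (h : ∀ a, ‖T * π a - π a * T‖ ≤ ν * ‖a‖) (F : Finset D) (G : Finset H) {ε : ℝ}
    (hε : 0 < ε) :
    ∃ Ψ : H →L[ℂ] H, ‖Ψ‖ ≤ ‖T‖ ∧
      (∀ u ∈ F, u ∈ unitary D → ∀ ξ ∈ G, ∀ ζ ∈ G, ‖⟪ζ, (Ψ * π u - π u * Ψ) ξ⟫_ℂ‖ ≤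
        ‖z ζ‖ * (‖T‖ * √(2 * ‖z ξ‖ * ε)) + √(2 * ‖z ζ‖ * ε) * (‖T‖ * ‖z ξ‖)) ∧
      (∀ ζ ∈ G, ∀ ξ, ‖⟪ζ, (Ψ - T) ξ⟫_ℂ‖ ≤
        ‖z ζ‖ * (13 * ν * ‖ξ‖) + √(2 * ‖z ζ‖ * ε) * ‖T ξ‖) := by
  classical
  set F₁ : Finset D := F.filter (· ∈ unitary D) with hF₁
  set U : Finset D := insert 1 (F₁ ∪ F₁.image star) with hU
  have hUu : ∀ u ∈ U, u ∈ unitary D := by
    intro u hu
    rcases Finset.mem_insert.1 hu with rfl | hu
    · exact one_mem _
    rcases Finset.mem_union.1 hu with hu | hu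
    · exact (Finset.mem_filter.1 hu).2
    · obtain ⟨v, hv, rfl⟩ := Finset.mem_image.1 hu
      exact Unitary.star_mem (Finset.mem_filter.1 hv).2
  obtain ⟨s, happ⟩ := hs G U hUu ε hε
  obtain ⟨I, _, _, θ, b, hθ, hcol, hrow, hev⟩ := s.exists_wnr
  set B : I → (H →L[ℂ] H) := fun k => π (b k) with hBdef
  have hB : ‖∑ k, star (B k) * B k‖ ≤ 1 := (norm_col_map_le π b).trans hcol
  have hap : ∀ u ∈ U, ∀ ξ ∈ G, ‖(π u - tmap B (θ u)) (z ξ)‖ ≤ ε := by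
    intro u hu ξ hξ
    have h1 := happ u hu ξ hξ
    rwa [← hev, map_sub, map_tmap] at h1
  have hzB : ∀ k, Commute z (B k) := fun k => hzπ _
  have hzB' : ∀ k, Commute z (star (B k)) := fun k => by
    have := hzπ (star (b k))
    rwa [map_star] at this
  have hΨ1 : z * ∑ k, star (B k) * T * B k = ∑ k, star (B k) * T * B k := by
    rw [Finset.mul_sum]
    refine Finset.sum_congr rfl fun k _ => ?_
    rw [← mul_assoc, ← mul_assoc, (hzB' k).eq, mul_assoc (star (B k)), hT1]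
  have hΨ2 : (∑ k, star (B k) * T * B k) * z = ∑ k, star (B k) * T * B k := by
    rw [Finset.sum_mul]
    refine Finset.sum_congr rfl fun k _ => ?_
    rw [mul_assoc, ← (hzB k).eq, ← mul_assoc, mul_assoc (star (B k)), hT2]
  refine ⟨∑ k, star (B k) * T * B k, ?_, ?_, ?_⟩
  · refine (norm_sum_sandwich_le B B T).trans ?_
    have h1 : √‖∑ k, star (B k) * B k‖ ≤ 1 := Real.sqrt_le_one.2 hB
    calc ‖T‖ * √‖∑ k, star (B k) * B k‖ * √‖∑ k, star (B k) * B k‖ ≤ ‖T‖ * 1 * 1 := by gcongr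
      _ = ‖T‖ := by ring
  · intro u huF hu ξ hξ ζ hζ
    have hu1 : u ∈ F₁ := Finset.mem_filter.2 ⟨huF, hu⟩
    have hn : ‖u‖ ≤ 1 := by
      rcases subsingleton_or_nontrivial D with hs | hs
      · rw [Subsingleton.elim u 0, norm_zero]
        exact zero_le_one
      · exact (CStarRing.norm_of_mem_unitary hu).le
    have e1 : z * ((∑ k, star (B k) * T * B k) * π u - π u * ∑ k, star (B k) * T * B k) =
        (∑ k, star (B k) * T * B k) * π u - π u * ∑ k, star (B k) * T * B k := by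
      rw [mul_sub, ← mul_assoc, hΨ1, ← mul_assoc, (hzπ u).eq, mul_assoc, hΨ1]
    have e2 : ((∑ k, star (B k) * T * B k) * π u - π u * ∑ k, star (B k) * T * B k) * z =
        (∑ k, star (B k) * T * B k) * π u - π u * ∑ k, star (B k) * T * B k := by
      rw [sub_mul, mul_assoc, ← (hzπ u).eq, ← mul_assoc, hΨ2, mul_assoc, hΨ2]
    have e3 : ((∑ k, star (B k) * T * B k) * π u - π u * ∑ k, star (B k) * T * B k) ξ =
        ((∑ k, star (B k) * T * B k) * π u - π u * ∑ k, star (B k) * T * B k) (z ξ) := by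
      rw [← mul_apply_eq_comp, e2]
    rw [inner_left_qcomz hz e1, e3]
    refine est_comm B hB T (hθ.contr hn) (Unitary.map_mem π hu) hε.le (z ξ) (z ζ)
      (hap u (Finset.mem_insert_of_mem (Finset.mem_union_left _ hu1)) ξ hξ) ?_
    rw [← map_star, ← hθ.map_star]
    exact hap (star u) (Finset.mem_insert_of_mem
      (Finset.mem_union_right _ (Finset.mem_image_of_mem _ hu1))) ζ hζ
  · intro ζ hζ ξ
    have e1 : z * ((∑ k, star (B k) * T * B k) - T) = (∑ k, star (B k) * T * B k) - T := by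
      rw [mul_sub, hΨ1, hT1]
    rw [inner_left_qcomz hz e1]
    have h1 := hap 1 (Finset.mem_insert_self _ _) ζ hζ
    rw [map_one] at h1
    have h2 := q_comm B hB hθ.one hε.le (z ζ) h1
    have h3 := cs_comm (fun j => B j (z ζ)) (fun j => (T * B j - B j * T) ξ) (norm_nonneg (z ζ))
      (by positivity) (sum_norm_sq_le_of_col B hB (z ζ)) (lg π T hν h b hcol hrow ξ)
    have h4 : ⟪z ζ, ((∑ k, star (B k) * T * B k) - T) ξ⟫_ℂ =
        (∑ j, ⟪B j (z ζ), (T * B j - B j * T) ξ⟫_ℂ) +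
          ⟪(∑ k, star (B k) * B k) (z ζ) - z ζ, T ξ⟫_ℂ := by
      have h5 : ⟪(∑ k, star (B k) * B k) (z ζ), T ξ⟫_ℂ = ∑ j, ⟪B j (z ζ), B j (T ξ)⟫_ℂ := by
        rw [← inner_star_comm, ← inner_psi_comm]
        congr 2
        simp [star_sum]
      rw [sub_apply, inner_sub_right, inner_sub_left, h5]
      simp only [mul_assoc]
      rw [inner_psi_comm]
      simp only [sub_apply, mul_apply_eq_comp, inner_sub_right,
        Finset.sum_sub_distrib]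
      ring
    rw [h4]
    refine (norm_add_le _ _).trans (add_le_add h3 ((norm_inner_le_norm _ _).trans ?_))
    gcongr

theorem commz (π : D →⋆ₐ[ℂ] (H →L[ℂ] H)) {z : H →L[ℂ] H} (hz : IsStarProjection z)
    (hzπ : ∀ a, Commute z (π a))
    (hs : ∀ (G : Finset H) (U : Finset D), (∀ u ∈ U, u ∈ unitary D) → ∀ η : ℝ, 0 < η →
      ∃ s : SData D D, ∀ u ∈ U, ∀ ζ ∈ G, ‖π (u - s.ev u) (z ζ)‖ ≤ η)
    (T : H →L[ℂ] H) (h1 : z * T = T) (h2 : T * z = T) {ν : ℝ} (hν : 0 ≤ ν)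
    (h : ∀ a, ‖T * π a - π a * T‖ ≤ ν * ‖a‖) :
    ∃ S : H →L[ℂ] H, (∀ a, Commute S (π a)) ∧ ‖S - T‖ ≤ 13 * ν := by
  classical
  have hpos : ∀ n : ℕ, (0 : ℝ) < 1 / ((n : ℝ) + 1) := fun n => Nat.one_div_pos_of_nat
  choose Ψ hΨ1 hΨ2 hΨ3 using fun i : Finset D × Finset H × ℕ =>
    step_qcomz π hz hzπ hs T h1 h2 hν h i.1 i.2.1 (hpos i.2.2)
  set l : Ultrafilter (Finset D × Finset H × ℕ) := Ultrafilter.of atTop with hl
  have hle : (l : Filter (Finset D × Finset H × ℕ)) ≤ atTop := Ultrafilter.of_le _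
  obtain ⟨S, -, hS⟩ := ulim l Ψ (Eventually.of_forall hΨ1)
  have hev : ∀ (u : D) (ξ ζ : H), ∀ᶠ i : Finset D × Finset H × ℕ in l,
      u ∈ i.1 ∧ ξ ∈ i.2.1 ∧ ζ ∈ i.2.1 := by
    intro u ξ ζ
    refine hle ?_
    filter_upwards [eventually_ge_atTop (({u}, {ξ, ζ}, 0) : Finset D × Finset H × ℕ)] with i hi
    exact ⟨hi.1 (by simp), hi.2.1 (by simp), hi.2.1 (by simp)⟩
  have hsq : ∀ c : ℝ, Tendsto (fun i : Finset D × Finset H × ℕ =>
      √(c * (1 / ((i.2.2 : ℝ) + 1)))) l (𝓝 0) := by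
    intro c
    have h1 : Tendsto (fun i : Finset D × Finset H × ℕ => i.2.2) atTop atTop := by
      refine tendsto_atTop.2 fun n => ?_
      filter_upwards [eventually_ge_atTop ((∅, ∅, n) : Finset D × Finset H × ℕ)] with i hi
      exact hi.2.2
    have h2 := ((tendsto_one_div_add_atTop_nhds_zero_nat (𝕜 := ℝ)).comp h1).mono_left hle
    have h3 := (h2.const_mul c).sqrt
    simpa using h3
  refine ⟨S, ?_, ?_⟩
  · have hu : ∀ u ∈ unitary D, Commute S (π u) := by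
      intro u hu
      have h1 := (hS.mul_right (π u)).sub (hS.mul_left (π u))
      have h2 : WL l (fun i => Ψ i * π u - π u * Ψ i) 0 := by
        intro ξ ζ
        rw [zero_apply, inner_zero_right]
        refine squeeze_zero_norm' ((hev u ξ ζ).mono fun i hi =>
          hΨ2 i u hi.1 hu ξ hi.2.1 ζ hi.2.2) ?_
        have h3 := (((hsq (2 * ‖z ξ‖)).const_mul ‖T‖).const_mul ‖z ζ‖).add
          ((hsq (2 * ‖z ζ‖)).mul_const (‖T‖ * ‖z ξ‖))
        simpa using h3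
      exact sub_eq_zero.1 (h1.unique h2)
    intro a
    obtain ⟨u, c, rfl, -⟩ := CStarAlgebra.exists_sum_four_unitary a
    rw [map_sum]
    refine Commute.sum_right _ _ _ fun i _ => ?_
    rw [map_smul]
    exact (hu _ (u i).2).smul_right _
  · have hin : ∀ ξ ζ : H, ‖⟪ζ, (S - T) ξ⟫_ℂ‖ ≤ ‖ζ‖ * (13 * ν * ‖ξ‖) := by
      intro ξ ζ
      have h1 := ((hS.sub (WL.const T)) ξ ζ).norm
      have h2 := ((hsq (2 * ‖z ζ‖)).mul_const ‖T ξ‖).const_add (‖z ζ‖ * (13 * ν * ‖ξ‖))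
      rw [zero_mul, add_zero] at h2
      refine (le_of_tendsto_of_tendsto h1 h2
        ((hev 0 ξ ζ).mono fun i hi => hΨ3 i ζ hi.2.2 ξ)).trans ?_
      gcongr
      exact norm_proj_qcomz hz ζ
    refine ContinuousLinearMap.opNorm_le_bound _ (by positivity) fun ξ => ?_
    have h1 := hin ξ ((S - T) ξ)
    rw [inner_self_eq_norm_sq_to_K] at h1
    have h2 : ‖(S - T) ξ‖ * ‖(S - T) ξ‖ ≤ ‖(S - T) ξ‖ * (13 * ν * ‖ξ‖) := by
      simpa [sq] using h1
    rcases (norm_nonneg ((S - T) ξ)).eq_or_lt with h0 | h0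
    · rw [← h0]
      positivity
    · exact le_of_mul_le_mul_left h2 h0

end Ulam
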