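import Pool.Agent.P.MP_3be8c7_an.QJ
import Pool.Agent.P.MP_3be8c7_an.QFIX
import Pool.Agent.P.MP_3be8c7_an.QTEN

open scoped ComplexOrder InnerProductSpace
open Filter Topology
open ContinuousLinearMap (adjoint)

noncomputable section

namespace Ulam

universe u v w

variable {H : Type v} [NormedAddCommGroup H] [InnerProductSpace ℂ H] [CompleteSpace H]

theorem exists_gd (N : VonNeumannAlgebra H) {ξ : H} (h1 : ‖ξ‖ = 1) (hξ : TrVec N ξ) (hc : Cyc N ξ)
    {R : Type} [Fintype R] (s : R → unitary (H →L[ℂ] H)) (hs : ∀ ρ, (s ρ : H →L[ℂ] H) ∈ N)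
    (hS : Sym s) {η : ℝ} (hη : GapW (fun ρ => (s ρ : H →L[ℂ] H)) η) :
    ∃ (g : GD H) (s' : R → g.G), g.N = N ∧ g.ξ = ξ ∧ Sym s' ∧
      Subgroup.closure (Set.range s') = ⊤ ∧ GapW (fun ρ => g.l (s' ρ)) η := by
  obtain ⟨j, hj⟩ := exists_j hc hξ
  let G := Subgroup.closure (Set.range s)
  let l : G →* (H →L[ℂ] H) := (unitary (H →L[ℂ] H)).subtype.comp G.subtype
  have hl : ∀ g, l g ∈ N := fun g => by
    obtain ⟨u, hu⟩ := g
    change (u : H →L[ℂ] H) ∈ N
    induction hu using Subgroup.closure_induction with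
    | mem x hx =>
      obtain ⟨ρ, rfl⟩ := hx
      exact hs ρ
    | one => exact one_mem N
    | mul x y _ _ hx hy => exact mul_mem hx hy
    | inv x _ hx => exact star_mem hx
  let rr : G →* (H →L[ℂ] H) :=
    { toFun := fun g => j (l g)
      map_one' := by rw [map_one, hj.one hc]
      map_mul' := fun a b => by rw [map_mul, hj.mul hc (hl a) (hl b)] }
  let c : G →* (H →L[ℂ] H) :=
    { toFun := fun g => l g * rr g
      map_one' := by rw [map_one, map_one, mul_one]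
      map_mul' := fun a b => by
        rw [map_mul, map_mul]
        exact ((hj.commute hc (hl a) (hl b)).symm.mul_mul_mul_comm _ _) }
  obtain ⟨e, he⟩ := exists_fix c
  let s' : R → G := fun ρ => ⟨s ρ, Subgroup.subset_closure ⟨ρ, rfl⟩⟩
  refine ⟨⟨N, ξ, j, G, l, rr, c, e, h1, hξ, hc, hj, fun g => rfl, hl, fun _ => rfl, fun _ => rfl,
    he⟩, s', rfl, rfl, ?_, ?_, hη⟩
  · obtain ⟨⟨σ, h2⟩, ρ, h3⟩ := hS
    exact ⟨⟨σ, fun r => Subtype.ext (h2 r)⟩, ρ, Subtype.ext h3⟩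
  · refine top_le_iff.1 ((Subgroup.closure_closure_coe_preimage (k := Set.range s)).ge.trans
      (Subgroup.closure_mono ?_))
    rintro x ⟨ρ, hρ⟩
    exact ⟨ρ, Subtype.ext hρ⟩

end Ulam
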