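import Pool.Agent.P.MP_3be8c7_an.QSIG
import Pool.Agent.P.MP_3be8c7_an.AV
import Pool.Agent.P.MP_3be8c7_an.SPEC

open scoped ComplexOrder InnerProductSpace
open Filter Topology
open ContinuousLinearMap (adjoint)

noncomputable section

namespace Ulam

universe u v w

variable {H : Type v} [NormedAddCommGroup H] [InnerProductSpace ℂ H] [CompleteSpace H]
variable {K : Type w} [NormedAddCommGroup K] [InnerProductSpace ℂ K] [CompleteSpace K]

theorem row_qsav {I : Type*} [Fintype I] (p a : I → (K →L[ℂ] K)) (hp : ∀ i, IsStarProjection (p i))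
    (ho : ∀ i j, i ≠ j → p i * p j = 0) (ha : ∀ i, ‖a i‖ ≤ 1) :
    ‖∑ i, a i * p i‖ ≤ √(Fintype.card I : ℝ) := by
  refine ContinuousLinearMap.opNorm_le_bound _ (Real.sqrt_nonneg _) fun ζ => ?_
  have hq := isStarProjection_sum Finset.univ p hp ho
  have h1 : ∑ i, ‖p i ζ‖ ^ 2 ≤ ‖ζ‖ ^ 2 := by
    refine le_trans (le_of_eq ?_) (pow_le_pow_left₀ (norm_nonneg _) (proj_norm_apply_le hq ζ) 2)
    rw [← norm_sq_spec hq, sum_apply, inner_sum, Complex.re_sum]
    exact Finset.sum_congr rfl fun i _ => (norm_sq_spec (hp i) ζ).symm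
  have h2 : ‖(∑ i, a i * p i) ζ‖ ≤ ∑ i, ‖p i ζ‖ := by
    rw [sum_apply]
    exact norm_sum_le_of_le _ fun i _ => ((a i).le_of_opNorm_le (ha i) _).trans_eq (one_mul _)
  refine h2.trans (le_of_sq_le_sq (sq_sum_le_card_mul_sum_sq.trans ?_) (by positivity))
  rw [mul_pow, Real.sq_sqrt (Nat.cast_nonneg _)]
  exact mul_le_mul_of_nonneg_left h1 (Nat.cast_nonneg _)

theorem col_qsav {I : Type*} [Fintype I] (p a : I → (K →L[ℂ] K)) (hp : ∀ i, IsStarProjection (p i))
    (ho : ∀ i j, i ≠ j → p i * p j = 0) (ha : ∀ i, ‖a i‖ ≤ 1) :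
    ‖∑ i, p i * a i‖ ≤ √(Fintype.card I : ℝ) := by
  rw [← norm_star, star_sum]
  simp only [star_mul, fun i => (hp i).isSelfAdjoint.star_eq]
  exact row_qsav p _ hp ho fun i => by rw [norm_star]; exact ha i

theorem proj_qsav {I : Type*} {ε : I → (H →L[ℂ] K)} (h : IsL2 ε) :
    ∃ P : Set I → (K →L[ℂ] K), (∀ A, IsStarProjection (P A)) ∧
      (∀ A y ξ, y ∈ A → P A (ε y ξ) = ε y ξ) ∧ (∀ A y ξ, y ∉ A → P A (ε y ξ) = 0) ∧
      ∀ A B, Disjoint A B → P A * P B = 0 := by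
  classical
  choose P _ h2 h3 using fun A : Set I => h.diag h (Equiv.refl I)
    (fun y => if y ∈ A then 1 else 0) zero_le_one fun y => by
      split_ifs
      exacts [ContinuousLinearMap.norm_id_le, by simp]
  have a1 : ∀ A y ξ, y ∈ A → P A (ε y ξ) = ε y ξ := fun A y ξ hy => by
    simpa [hy] using congr($(h2 A y) ξ)
  have a2 : ∀ A y ξ, y ∉ A → P A (ε y ξ) = 0 := fun A y ξ hy => by
    simpa [hy] using congr($(h2 A y) ξ)
  refine ⟨P, fun A => ⟨h.ext_right fun y => ?_, h.ext_right fun y => ?_⟩, a1, a2,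
    fun A B hd => h.ext_right fun y => ?_⟩
  · ext ξ
    by_cases hy : y ∈ A <;> simp [a1, a2, hy]
  · have := congrArg adjoint (h3 A y)
    simp only [ContinuousLinearMap.adjoint_comp, ContinuousLinearMap.adjoint_adjoint,
      Equiv.refl_apply] at this
    rw [ContinuousLinearMap.star_eq_adjoint, this, h2]
    by_cases hy : y ∈ A <;> simp [hy]
  · ext ξ
    by_cases hy : y ∈ B
    · simp [a1 B y ξ hy, a2 A y ξ (Set.disjoint_right.1 hd hy)]
    · simp [a2 B y ξ hy]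

variable {ι : Type} [DecidableEq ι] {ε : FreeGroup ι → (H →L[ℂ] K)} {u : H →L[ℂ] H}

open FreeGroup (of) in
theorem IsSig.av_le [Fintype ι] [Nonempty ι] {σ : FreeGroup ι →* (K →L[ℂ] K)} (hσ : IsSig ε u σ)
    (h : IsL2 ε) :
    ‖av (fun i => σ (FreeGroup.of i)) - (3 / 5 : ℂ) • (ε 1 ∘L u ∘L adjoint (ε 1))‖ ≤
      3 / √(Fintype.card ι : ℝ) := by
  obtain ⟨P, p1, p2, p3, p4⟩ := proj_qsav h
  let A : FreeGroup ι → Set (FreeGroup ι) := fun a => {y | (a * y).norm < y.norm}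
  have l1 : ∀ i : ι, Letter (of i) := fun i => ⟨i, Or.inl rfl⟩
  have l2 : ∀ i : ι, Letter (of i)⁻¹ := fun i => ⟨i, Or.inr rfl⟩
  have dA : ∀ {a b}, Letter a → Letter b → a ≠ b → P (A a) * P (A b) = 0 := fun ha hb hn =>
    p4 _ _ (Set.disjoint_left.2 fun y h1 h2 => hn (ha.unique hb h1 h2))
  have ns : ∀ g, ‖σ g‖ ≤ 1 := fun g => by
    have := CStarRing.norm_star_mul_self (x := σ g)
    rw [hσ.urep, ← map_mul, inv_mul_cancel, map_one] at this
    have h1 : ‖(1 : K →L[ℂ] K)‖ ≤ 1 := ContinuousLinearMap.norm_id_le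
    nlinarith [norm_nonneg (σ g)]
  have key : ∀ i, σ (of i) - (3 / 5 : ℂ) • (ε 1 ∘L u ∘L adjoint (ε 1)) =
      σ (of i) * P (A (of i)) + P (A (of i)⁻¹) * (σ (of i) * P (insert 1 (A (of i)))ᶜ) +
        P {of i} * ((4 / 5 : ℂ) • (ε (of i) ∘L adjoint (ε 1))) := fun i => by
    refine h.ext_right fun y => ?_
    ext ξ
    have n1 : (1 : FreeGroup ι) ∉ A (of i) := Nat.not_lt_zero _
    by_cases y1 : y = 1
    · subst y1
      have e : σ (of i) (ε 1 ξ) = (4 / 5 : ℂ) • ε (of i) ξ + (3 / 5 : ℂ) • ε 1 (u ξ) :=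
        congr($(hσ.root i) ξ)
      simp [e, h.self_ql2, p3 _ _ ξ n1, p3 (insert 1 (A (of i)))ᶜ 1 ξ (by simp),
        p2 {of i} (of i) ξ rfl]
    have e0 := h.ne_ql2 (Ne.symm y1) ξ
    by_cases y2 : y ∈ A (of i)
    · simp [e0, p2 _ _ ξ y2, p3 (insert 1 (A (of i)))ᶜ y ξ (by simp [y2])]
    · have y3 : y ≠ (of i)⁻¹ := by
        rintro rfl
        exact y2 (by simp [A])
      have e : σ (of i) (ε y ξ) = ε (of i * y) ξ := congr($(hσ.other i y y1 y3) ξ)
      have y4 : of i * y ∈ A (of i)⁻¹ := by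
        have := (l1 i).norm_mul y
        simp only [A, Set.mem_ofPred_eq, inv_mul_cancel_left] at y2 ⊢
        omega
      simp [e0, e, p3 _ _ ξ y2, p2 (insert 1 (A (of i)))ᶜ y ξ (by simp [y1, y2]), p2 _ _ ξ y4]
  have k1 := row_qsav (fun i => P (A (of i))) (fun i => σ (of i)) (fun _ => p1 _)
    (fun i j hn => dA (l1 i) (l1 j) (FreeGroup.of_injective.ne hn)) fun _ => ns _
  have k2 := col_qsav (fun i => P (A (of i)⁻¹)) (fun i => σ (of i) * P (insert 1 (A (of i)))ᶜ)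
    (fun _ => p1 _) (fun i j hn => dA (l2 i) (l2 j)
      (inv_injective.ne (FreeGroup.of_injective.ne hn)))
    fun _ => (norm_mul_le _ _).trans (mul_le_one₀ (ns _) (norm_nonneg _) (p1 _).norm_le)
  have k3 := col_qsav (fun i => P {of i}) (fun i => (4 / 5 : ℂ) • (ε (of i) ∘L adjoint (ε 1)))
    (fun _ => p1 _) (fun i j hn => p4 _ _ (Set.disjoint_singleton.2
      (FreeGroup.of_injective.ne hn))) fun i => by
      rw [norm_smul]
      refine mul_le_one₀ (by norm_num) (norm_nonneg _) ((ContinuousLinearMap.opNorm_comp_le _ _).trans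
        (mul_le_one₀ (h.norm_le _) (norm_nonneg _) ?_))
      rw [LinearIsometryEquiv.norm_map]
      exact h.norm_le _
  have hn : (0 : ℝ) < Fintype.card ι := Nat.cast_pos.2 Fintype.card_pos
  have hs := Real.sqrt_pos.2 hn
  rw [← av_const (ι := ι) ((3 / 5 : ℂ) • _), ← av_sub]
  simp only [key]
  rw [av, norm_smul, Real.norm_of_nonneg (inv_pos.2 hn).le, inv_mul_le_iff₀ hn,
    Finset.sum_add_distrib, Finset.sum_add_distrib]
  refine (norm_add₃_le.trans (add_le_add (add_le_add k1 k2) k3)).trans_eq ?_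
  rw [mul_div_assoc', eq_div_iff hs.ne']
  nlinarith [Real.mul_self_sqrt hn.le]

end Ulam
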