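import Pool.Agent.P.MP_3be8c7_an.QSIG

open scoped ComplexOrder InnerProductSpace
open Filter Topology
open ContinuousLinearMap (adjoint)

noncomputable section

namespace Ulam

universe u v w

variable {H : Type v} [NormedAddCommGroup H] [InnerProductSpace ℂ H] [CompleteSpace H]
variable {K : Type w} [NormedAddCommGroup K] [InnerProductSpace ℂ K] [CompleteSpace K]
variable {ι : Type} [DecidableEq ι] {ε : FreeGroup ι → (H →L[ℂ] K)} {u : H →L[ℂ] H}

theorem off_qslp {σ : FreeGroup ι →* (K →L[ℂ] K)} (hσ : IsSig ε u σ) (h : IsL2 ε)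
    (hu : u ∈ unitary (H →L[ℂ] H)) (n : ℕ) : ∀ g : FreeGroup ι, g.norm = n → ∀ y : FreeGroup ι,
    y.norm + (y⁻¹ * g).norm ≠ n → ∀ z, adjoint (ε y) (σ g z) = adjoint (ε (g⁻¹ * y)) z := by
  induction n with
  | zero =>
    intro g hg y _ z
    rw [FreeGroup.norm_eq_zero.1 hg, map_one, inv_one, one_mul]
    rfl
  | succ n ih =>
    intro g hg y hy z
    obtain ⟨a, g₁, ha, rfl, h1⟩ := exists_letter_left hg
    obtain ⟨w, -, -, -, h4⟩ := hσ.letter h hu ha
    have e1 : y ≠ 1 := by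
      rintro rfl
      rw [FreeGroup.norm_one, inv_one, one_mul, zero_add] at hy
      exact hy hg
    have e2 : y ≠ a := by
      rintro rfl
      rw [ha.norm_eq, inv_mul_cancel_left, h1, add_comm] at hy
      exact hy rfl
    rw [map_mul, mul_apply_eq_comp, h4 y e1 e2, ih g₁ h1, mul_inv_rev, mul_assoc]
    have a1 := FreeGroup.norm_mul_le a (a⁻¹ * y)
    have a2 := FreeGroup.norm_mul_le y (y⁻¹ * (a * g₁))
    rw [mul_inv_cancel_left] at a1 a2
    rw [mul_inv_rev, inv_inv, mul_assoc]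
    have := ha.norm_eq
    omega

theorem arith_qslp {ν p e z X1 Xa E N S : ℝ} (h0 : 0 ≤ ν) (h1 : 0 ≤ X1) (h2 : 0 ≤ Xa) (h3 : 0 ≤ E)
    (a1 : X1 ≤ 3 / 5 * (p + ν * e)) (a2 : Xa ≤ 4 / 5 * p + 3 / 5 * (ν * z))
    (a3 : E ≤ 4 / 5 * z + 3 / 5 * e) (ih : N + 4 * p ^ 2 + 13 * ν ^ 2 * e ^ 2 ≤ 18 * ν ^ 2 * S) :
    N + (X1 ^ 2 - 0 + (Xa ^ 2 - p ^ 2)) + 4 * X1 ^ 2 + 13 * ν ^ 2 * E ^ 2 ≤
      18 * ν ^ 2 * (z ^ 2 + S) := by
  have b1 := pow_le_pow_left₀ h1 a1 2
  have b2 := pow_le_pow_left₀ h2 a2 2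
  have b3 := pow_le_pow_left₀ (mul_nonneg h0 h3) (mul_le_mul_of_nonneg_left a3 h0) 2
  nlinarith [sq_nonneg (p - ν * e), sq_nonneg (4 / 5 * p - 3 / 5 * (ν * z)),
    sq_nonneg (4 / 5 * (ν * z) - 3 / 5 * (ν * e)), sq_nonneg p, sq_nonneg (ν * e),
    sq_nonneg (ν * z)]

/-- Uniform commutator bound. -/
theorem IsSig.lip {σ : FreeGroup ι →* (K →L[ℂ] K)} (hσ : IsSig ε u σ) (h : IsL2 ε)
    (hu : u ∈ unitary (H →L[ℂ] H)) (T : H →L[ℂ] H) (T' : K →L[ℂ] K)
    (hT : ∀ y, T' ∘L ε y = ε y ∘L T) {ν : ℝ} (hν : ‖T * u - u * T‖ ≤ ν) (g : FreeGroup ι) :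
    ‖σ g * T' - T' * σ g‖ ≤ 5 * ν := by
  classical
  have hν0 : 0 ≤ ν := (norm_nonneg _).trans hν
  have hc : ∀ y z, adjoint (ε y) (T' z) = T (adjoint (ε y) z) := fun y z => by
    have : adjoint (ε y) ∘L T' = T ∘L adjoint (ε y) := h.ext_right fun j => by
      ext v
      have e : T' (ε j v) = ε j (T v) := congr($(hT j) v)
      simp only [ContinuousLinearMap.comp_apply, e]
      by_cases hj : y = j
      · rw [hj, h.self_ql2, h.self_ql2]
      · rw [h.ne_ql2 hj, h.ne_ql2 hj, map_zero]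
    exact congr($this z)
  have hν' : ‖T * star u - star u * T‖ ≤ ν := by
    have e : T * star u - star u * T = star u * (u * T - T * u) * star u := by
      rw [mul_sub, sub_mul, ← mul_assoc, Unitary.star_mul_self_of_mem hu, one_mul, mul_assoc,
        mul_assoc, Unitary.mul_star_self_of_mem hu, mul_one]
    rw [e, CStarRing.norm_mul_mem_unitary _ (Unitary.star_mem hu),
      CStarRing.norm_mem_unitary_mul _ (Unitary.star_mem hu), norm_sub_rev]
    exact hν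
  have hw : ∀ w : H →L[ℂ] H, w = u ∨ w = star u → (∀ v, ‖w v‖ = ‖v‖) ∧
      (∀ v, ‖T (w v) - w (T v)‖ ≤ ν * ‖v‖) ∧ ∀ v, ‖T (star w v) - star w (T v)‖ ≤ ν * ‖v‖ := by
    have k1 : ∀ v, ‖T (u v) - u (T v)‖ ≤ ν * ‖v‖ := fun v =>
      (T * u - u * T).le_of_opNorm_le hν v
    have k2 : ∀ v, ‖T (star u v) - star u (T v)‖ ≤ ν * ‖v‖ := fun v =>
      (T * star u - star u * T).le_of_opNorm_le hν' v
    rintro w (rfl | rfl)
    · exact ⟨ContinuousLinearMap.norm_map_of_mem_unitary hu, k1, k2⟩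
    · rw [star_star]
      exact ⟨ContinuousLinearMap.norm_map_of_mem_unitary (Unitary.star_mem hu), k2, k1⟩
  have n3 : ‖(3 / 5 : ℂ)‖ = 3 / 5 := by simp
  have n4 : ‖(4 / 5 : ℂ)‖ = 4 / 5 := by simp
  refine ContinuousLinearMap.opNorm_le_bound _ (by positivity) fun ζ => ?_
  have key : ∀ (n : ℕ) (g : FreeGroup ι), g.norm = n → ∃ s : Finset (FreeGroup ι),
      (∀ y ∈ s, y.norm ≤ n) ∧ ‖σ g (T' ζ) - T' (σ g ζ)‖ ^ 2 +
        4 * ‖adjoint (ε 1) (σ g (T' ζ) - T' (σ g ζ))‖ ^ 2 +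
        13 * ν ^ 2 * ‖adjoint (ε 1) (σ g ζ)‖ ^ 2 ≤
        18 * ν ^ 2 * ∑ y ∈ s, ‖adjoint (ε y) ζ‖ ^ 2 := by
    intro n
    induction n with
    | zero =>
      intro g hg
      refine ⟨{1}, fun y hy => by rw [Finset.mem_singleton.1 hy, FreeGroup.norm_one], ?_⟩
      rw [FreeGroup.norm_eq_zero.1 hg, map_one, one_apply_eq_self,
        one_apply_eq_self, sub_self, map_zero, norm_zero, norm_zero,
        Finset.sum_singleton]
      nlinarith [mul_nonneg (sq_nonneg ν) (sq_nonneg ‖adjoint (ε 1) ζ‖)]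
    | succ n ih =>
      intro g hg
      obtain ⟨a, g₁, ha, rfl, h1⟩ := exists_letter_left hg
      obtain ⟨s, s1, s2⟩ := ih g₁ h1
      obtain ⟨w, w0, w1, w2, w3⟩ := hσ.letter h hu ha
      obtain ⟨v1, v2, v3⟩ := hw w w0
      have hn : (a * g₁)⁻¹ ∉ s := fun e => by
        have := s1 _ e
        rw [FreeGroup.norm_inv_eq, hg] at this
        omega
      refine ⟨insert (a * g₁)⁻¹ s, fun y hy => ?_, ?_⟩
      · rcases Finset.mem_insert.1 hy with rfl | hy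
        · rw [FreeGroup.norm_inv_eq, hg]
        · exact (s1 y hy).trans n.le_succ
      have ho : ∀ z, adjoint (ε a⁻¹) (σ g₁ z) = adjoint (ε (a * g₁)⁻¹) z := fun z => by
        rw [off_qslp hσ h hu n g₁ h1 a⁻¹ _ z, mul_inv_rev]
        rw [inv_inv, hg]
        omega
      have a1 : a ≠ 1 := fun e => by
        have := ha.norm_eq
        rw [e, FreeGroup.norm_one] at this
        omega
      rw [Finset.sum_insert hn, map_mul, mul_apply_eq_comp,
        mul_apply_eq_comp]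
      have x0 : adjoint (ε a⁻¹) (σ g₁ (T' ζ) - T' (σ g₁ ζ)) = 0 := by
        rw [map_sub, hc, ho, ho, hc, sub_self]
      have x1 : adjoint (ε 1) (σ a (σ g₁ (T' ζ)) - T' (σ a (σ g₁ ζ))) =
          (3 / 5 : ℂ) • (w (adjoint (ε 1) (σ g₁ (T' ζ) - T' (σ g₁ ζ))) -
            (T (w (adjoint (ε 1) (σ g₁ ζ))) - w (T (adjoint (ε 1) (σ g₁ ζ))))) := by
        simp only [map_sub, hc, w1, ho, map_add, map_smul]
        module
      have x2 : adjoint (ε a) (σ a (σ g₁ (T' ζ)) - T' (σ a (σ g₁ ζ))) =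
          (4 / 5 : ℂ) • adjoint (ε 1) (σ g₁ (T' ζ) - T' (σ g₁ ζ)) +
            (3 / 5 : ℂ) • (T (star w (adjoint (ε (a * g₁)⁻¹) ζ)) -
              star w (T (adjoint (ε (a * g₁)⁻¹) ζ))) := by
        simp only [map_sub, hc, w2, ho, map_smul]
        module
      have x3 := ((h.hasSum_norm_sq (σ a (σ g₁ (T' ζ)) - T' (σ a (σ g₁ ζ)))).sub
        ((Equiv.mulLeft a⁻¹).hasSum_iff.2
          (h.hasSum_norm_sq (σ g₁ (T' ζ) - T' (σ g₁ ζ))))).unique
        (hasSum_sum_of_ne_finset_zero (s := {1, a}) fun y hy => by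
          rw [Finset.mem_insert, Finset.mem_singleton, not_or] at hy
          simp only [Function.comp_apply, Equiv.coe_mulLeft, map_sub, hc, w3 y hy.1 hy.2, sub_self])
      rw [Finset.sum_pair a1.symm, sub_eq_iff_eq_add'] at x3
      simp only [Function.comp_apply, Equiv.coe_mulLeft, mul_one, inv_mul_cancel, x0, norm_zero,
        zero_pow two_ne_zero] at x3
      rw [x3]
      refine arith_qslp hν0 (norm_nonneg _) (norm_nonneg _) (norm_nonneg _) ?_ ?_ ?_ s2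
      · rw [x1, norm_smul, n3]
        exact mul_le_mul_of_nonneg_left ((norm_sub_le _ _).trans (add_le_add (v1 _).le (v2 _)))
          (by norm_num)
      · rw [x2]
        refine (norm_add_le _ _).trans ?_
        rw [norm_smul, norm_smul, n3, n4]
        exact add_le_add le_rfl (mul_le_mul_of_nonneg_left (v3 _) (by norm_num))
      · rw [w1, ho]
        refine (norm_add_le _ _).trans_eq ?_
        rw [norm_smul, norm_smul, n3, n4, v1]
  obtain ⟨s, -, hs⟩ := key _ g rfl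
  have e1 := mul_le_mul_of_nonneg_left (h.sum_le s ζ) (sq_nonneg ν)
  refine (pow_le_pow_iff_left₀ (norm_nonneg _) (by positivity) two_ne_zero).1 ?_
  change ‖σ g (T' ζ) - T' (σ g ζ)‖ ^ 2 ≤ _
  nlinarith [sq_nonneg ‖adjoint (ε 1) (σ g (T' ζ) - T' (σ g ζ))‖,
    mul_nonneg (sq_nonneg ν) (sq_nonneg ‖adjoint (ε 1) (σ g ζ)‖),
    mul_nonneg (sq_nonneg ν) (sq_nonneg ‖ζ‖)]

end Ulam
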