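import Pool.Agent.P.MP_3be8c7_an.QCLK
import Pool.Agent.P.MP_3be8c7_an.QSLP
import Pool.Agent.P.MP_3be8c7_an.QSAV

open scoped ComplexOrder InnerProductSpace
open Filter Topology
open ContinuousLinearMap (adjoint)

noncomputable section

namespace Ulam

universe u v w

section Alg

variable {R : Type*} [CStarAlgebra R]

theorem norm_le_qmod {w : R} (h : IsStarProjection (star w * w)) : ‖w‖ ≤ 1 := by
  have h1 := IsStarProjection.norm_le _ h
  rw [CStarRing.norm_star_mul_self] at h1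
  nlinarith [norm_nonneg w]

theorem mul_le_qmod {a b : R} {t : ℝ} (ha : ‖a‖ ≤ 1) (hb : ‖b‖ ≤ t) : ‖a * b‖ ≤ t :=
  (norm_mul_le _ _).trans ((mul_le_of_le_one_left (norm_nonneg _) ha).trans hb)

theorem pi_qmod {w : R} (h : IsStarProjection (star w * w)) : w * (star w * w) = w := by
  have e := h.isIdempotentElem.eq
  have : star (w - w * (star w * w)) * (w - w * (star w * w)) = 0 := by
    have e2 : star (w - w * (star w * w)) * (w - w * (star w * w)) =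
        star w * w - star w * w * (star w * w) - star w * w * (star w * w) +
          star w * w * (star w * w) * (star w * w) := by
      simp only [star_sub, star_mul, star_star]
      noncomm_ring
    rw [e2, e, e]
    abel
  exact (sub_eq_zero.1 ((CStarRing.star_mul_self_eq_zero_iff _).1 this)).symm

theorem near_qmod {r u U : R} {t : ℝ} (hr : IsStarProjection r) (h1 : star u * u = r)
    (h2 : u * star u = r) (hU : U ∈ unitary R) (h : ‖U * r - u‖ ≤ t) :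
    ‖r * U - U * r‖ ≤ 2 * t ∧ ‖r * U * r - u‖ ≤ t := by
  have hp : IsStarProjection (star u * u) := h1 ▸ hr
  have a1 : u * r = u := h1 ▸ pi_qmod hp
  have a2 : r * u = u := by rw [← h2, mul_assoc, h1, a1]
  have a3 : ‖star U‖ ≤ 1 := norm_le_qmod (by
    rw [star_star, hU.2]
    exact IsStarProjection.one _)
  have a4 : r * U - u = u * star (star U * (u - U * r)) := by
    rw [mul_sub, ← mul_assoc, hU.1, one_mul, star_sub, star_mul, star_star,
      hr.isSelfAdjoint.star_eq, mul_sub, ← mul_assoc, h2, a1]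
  have a5 : ‖r * U - u‖ ≤ t := by
    rw [a4]
    refine mul_le_qmod (norm_le_qmod hp) ?_
    rw [norm_star]
    exact mul_le_qmod a3 (by rwa [norm_sub_rev])
  refine ⟨?_, ?_⟩
  · have a6 : r * U - U * r = (r * U - u) - (U * r - u) := by abel
    rw [a6]
    linarith [norm_sub_le (r * U - u) (U * r - u)]
  · have a6 : r * U * r - u = r * (U * r - u) := by rw [mul_sub, a2, mul_assoc]
    rw [a6]
    exact mul_le_qmod (IsStarProjection.norm_le _ hr) h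

theorem comm_mul_qmod {x z e : R} {s : ℝ} (hx : ‖x‖ ≤ 1) (hz : ‖z‖ ≤ 1)
    (h1 : ‖x * e - e * x‖ ≤ s) (h2 : ‖z * e - e * z‖ ≤ s) :
    ‖x * z * e - e * (x * z)‖ ≤ 2 * s := by
  have a1 : x * z * e - e * (x * z) = x * (z * e - e * z) + (x * e - e * x) * z := by noncomm_ring
  have a2 := mul_le_qmod hx h2
  have a3 := (norm_mul_le (x * e - e * x) z).trans
    ((mul_le_of_le_one_right (norm_nonneg _) hz).trans h1)
  rw [a1]
  linarith [norm_add_le (x * (z * e - e * z)) ((x * e - e * x) * z)]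

theorem av_qmod {x A : R} {s θ : ℝ} (h : ‖x - (3 / 5 : ℂ) • A‖ ≤ 3 / s) (hs : 5 / s ≤ θ) :
    ‖(5 / 3 : ℝ) • x - A‖ ≤ θ := by
  have a1 : (5 / 3 : ℝ) • x - A = (5 / 3 : ℝ) • (x - (3 / 5 : ℂ) • A) := by
    rw [smul_sub, ← smul_assoc]
    norm_num
  rw [a1, norm_smul, Real.norm_of_nonneg (by norm_num)]
  have a2 : 5 / s = 5 / 3 * (3 / s) := by ring
  linarith

end Alg

section Hil

variable {H : Type u} [NormedAddCommGroup H] [InnerProductSpace ℂ H] [CompleteSpace H]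
variable {K : Type v} [NormedAddCommGroup K] [InnerProductSpace ℂ K] [CompleteSpace K]
variable {L : Type w} [NormedAddCommGroup L] [InnerProductSpace ℂ L] [CompleteSpace L]

/-- Conjugation by an isometry. -/
def cj_qmod (y : K →L[ℂ] L) (hy : adjoint y ∘L y = 1) : (K →L[ℂ] K) →⋆ₙₐ[ℂ] (L →L[ℂ] L) where
  toFun x := y ∘L x ∘L adjoint y
  map_smul' c x := by
    ext ζ
    simp
  map_zero' := by simp
  map_add' x z := by
    ext ζ
    simp
  map_mul' x z := by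
    have h : ∀ ζ, adjoint y (y ζ) = ζ := DFunLike.congr_fun hy
    ext ζ
    simp [h]
  map_star' x := by
    rw [ContinuousLinearMap.star_eq_adjoint, ContinuousLinearMap.star_eq_adjoint,
      ContinuousLinearMap.adjoint_comp, ContinuousLinearMap.adjoint_comp,
      ContinuousLinearMap.adjoint_adjoint, ContinuousLinearMap.comp_assoc]

variable {Θ' : (K →L[ℂ] K) →⋆ₐ[ℂ] (L →L[ℂ] L)} {y : K →L[ℂ] L} {hy : adjoint y ∘L y = 1}

theorem mul_cj_qmod (hi : Itw Θ' y) (T X : K →L[ℂ] K) :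
    Θ' T * cj_qmod y hy X = cj_qmod y hy (T * X) := by
  change Θ' T ∘L y ∘L X ∘L adjoint y = y ∘L (T ∘L X) ∘L adjoint y
  rw [← ContinuousLinearMap.comp_assoc, hi T]
  rfl

theorem cj_mul_qmod (hi : Itw Θ' y) (T X : K →L[ℂ] K) :
    cj_qmod y hy X * Θ' T = cj_qmod y hy (X * T) := by
  change y ∘L X ∘L (adjoint y ∘L Θ' T) = y ∘L (X ∘L T) ∘L adjoint y
  rw [hi.adj T]
  rfl

theorem cj_comm_qmod (hi : Itw Θ' y) {T X : K →L[ℂ] K} (h : Commute X T) :
    Commute (cj_qmod y hy X) (Θ' T) := by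
  rw [Commute, SemiconjBy, mul_cj_qmod hi, cj_mul_qmod hi, h.eq]

variable {Θ : (H →L[ℂ] H) →⋆ₐ[ℂ] (K →L[ℂ] K)}

theorem Twist.proj_qmod (t : Twist Θ) : IsStarProjection t.r := by
  classical
  refine ⟨?_, t.u1 ▸ IsSelfAdjoint.star_mul_self _⟩
  rw [IsIdempotentElem, ← t.sum, Finset.sum_mul_sum]
  refine Finset.sum_congr rfl fun k _ => ?_
  have h : ∀ l, (t.ι k ∘L adjoint (t.ι k)) * (t.ι l ∘L adjoint (t.ι l)) =
      t.ι k ∘L (adjoint (t.ι k) ∘L t.ι l) ∘L adjoint (t.ι l) := fun l => rfl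
  rw [Finset.sum_eq_single k (fun l _ hl => by rw [h, t.ne k l hl.symm]; simp) (by simp), h,
    t.self]
  rfl

theorem Twist.comm_qmod (t : Twist Θ) (T : H →L[ℂ] H) : Commute t.r (Θ T) := by
  rw [← t.u1]
  refine Commute.mul_left ?_ (t.uc T)
  simpa only [map_star, star_star] using (t.uc (star T)).star_star

/-- Transport of a twist along an isometric intertwiner. -/
def Twist.push_qmod (t : Twist Θ) (hy : adjoint y ∘L y = 1) (hi : Itw Θ' y) :
    Twist (Θ'.comp Θ) where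
  Λ := t.Λ
  ι k := y ∘L t.ι k
  r := cj_qmod y hy t.r
  u := cj_qmod y hy t.u
  v := cj_qmod y hy t.v
  ω := t.ω
  itw k := (t.itw k).comp hi
  self k := by
    rw [ContinuousLinearMap.adjoint_comp, ContinuousLinearMap.comp_assoc,
      ← ContinuousLinearMap.comp_assoc (adjoint y), hy]
    exact t.self k
  ne k l h := by
    rw [ContinuousLinearMap.adjoint_comp, ContinuousLinearMap.comp_assoc,
      ← ContinuousLinearMap.comp_assoc (adjoint y), hy]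
    exact t.ne k l h
  sum := by
    rw [← t.sum, map_sum]
    refine Finset.sum_congr rfl fun k _ => ?_
    rw [ContinuousLinearMap.adjoint_comp]
    rfl
  uc T := cj_comm_qmod hi (t.uc T)
  vc T := cj_comm_qmod hi (t.vc T)
  u1 := by rw [← map_star, ← map_mul, t.u1]
  u2 := by rw [← map_star, ← map_mul, t.u2]
  v1 := by rw [← map_star, ← map_mul, t.v1]
  v2 := by rw [← map_star, ← map_mul, t.v2]
  rel := by rw [← map_mul, ← map_mul, t.rel, map_smul]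
  ω0 := t.ω0
  ω1 := t.ω1

theorem URep.norm_qmod {Γ : Type*} [Group Γ] {c : Γ →* (K →L[ℂ] K)} (h : URep c) (g : Γ) :
    ‖c g‖ ≤ 1 := norm_le_qmod (by
  rw [h g, ← map_mul, inv_mul_cancel, map_one]
  exact IsStarProjection.one _)

theorem map_le_qmod {T X : K →L[ℂ] K} {s : ℝ} (h : ‖T * X - X * T‖ ≤ s) :
    ‖Θ' T * Θ' X - Θ' X * Θ' T‖ ≤ s := by
  rw [← map_mul, ← map_mul, ← map_sub]
  exact (NonUnitalStarAlgHom.norm_apply_le Θ' _).trans h

theorem IsSig.comm_qmod {ι : Type} [DecidableEq ι] {ε : FreeGroup ι → (K →L[ℂ] L)}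
    {U : K →L[ℂ] K} {σ : FreeGroup ι →* (L →L[ℂ] L)} (hσ : IsSig ε U σ) (h : IsL2 ε)
    (hU : U ∈ unitary (K →L[ℂ] K)) (hi : ∀ g, Itw Θ' (ε g)) {T : K →L[ℂ] K} (hT : Commute T U)
    (g : FreeGroup ι) : Commute (σ g) (Θ' T) := by
  have h1 := hσ.lip h hU T (Θ' T) (fun g => hi g T) (ν := 0) (by rw [hT.eq, sub_self, norm_zero]) g
  rw [mul_zero, norm_le_zero_iff, sub_eq_zero] at h1
  exact h1

end Hil

theorem exists_model {θ : ℝ} (hθ : 0 < θ) : ∃ n : ℕ, 0 < n ∧ ∀ (H : Type v) [NormedAddCommGroup H] [InnerProductSpace ℂ H] [CompleteSpace H],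
    ∃ (K : Type v) (_ : NormedAddCommGroup K) (_ : InnerProductSpace ℂ K)
      (_ : CompleteSpace K) (Θ : (H →L[ℂ] H) →⋆ₐ[ℂ] (K →L[ℂ] K)), Nonempty (Model n θ Θ) := by
  obtain ⟨n, hn⟩ := exists_nat_gt ((5 / θ) ^ 2)
  have hn0 : 0 < n := by exact_mod_cast (sq_nonneg _).trans_lt hn
  have hs : 5 / √(Fintype.card (Fin n) : ℝ) ≤ θ := by
    rw [Fintype.card_fin, div_le_comm₀ (Real.sqrt_pos.2 (by exact_mod_cast hn0)) hθ]
    exact Real.le_sqrt_of_sq_le hn.le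
  have : Nonempty (Fin n) := Fin.pos_iff_nonempty.1 hn0
  refine ⟨n, hn0, fun H _ _ _ => ?_⟩
  obtain ⟨K₀, _, _, _, Θ₀, t, U, V, amp, hU, hV, hUV, hUc, hVc, hu, hv⟩ :=
    clk (θ := θ / 20) (by positivity) H
  obtain ⟨K₁, _, _, _, ε₁, l₁⟩ := exists_l2 (FreeGroup (Fin n)) K₀
  obtain ⟨Θ₁, i₁⟩ := l₁.exists_amp
  obtain ⟨K, _, _, _, ε, l₂⟩ := exists_l2 (FreeGroup (Fin n)) K₁
  obtain ⟨Θ₂, i₂⟩ := l₂.exists_amp
  have hU' : Θ₁ U ∈ unitary (K₁ →L[ℂ] K₁) := Unitary.map_mem Θ₁ hU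
  obtain ⟨b, hb⟩ := exists_sig l₁ hV
  obtain ⟨a, ha⟩ := exists_sig l₂ hU'
  have hab : ∀ g h, Commute (a g) (Θ₂ (b h)) := fun g h =>
    ha.comm_qmod l₂ hU' i₂ (hb.comm_qmod l₁ hV i₁ hUV h) g
  let q₁ : FG n →* FreeGroup (Fin n) := FreeGroup.lift (Sum.elim FreeGroup.of 1)
  let q₂ : FG n →* FreeGroup (Fin n) := FreeGroup.lift (Sum.elim 1 FreeGroup.of)
  let m : FG n →* (K →L[ℂ] K) :=
    (a.noncommCoprod ((Θ₂ : (K₁ →L[ℂ] K₁) →* (K →L[ℂ] K)).comp b) hab).comp (q₁.prod q₂)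
  have hm : ∀ f, m f = a (q₁ f) * Θ₂ (b (q₂ f)) := fun f => rfl
  have hm1 : ∀ i, m (FreeGroup.of (Sum.inl i)) = a (FreeGroup.of i) := fun i => by
    simp [hm, q₁, q₂]
  have hm2 : ∀ i, m (FreeGroup.of (Sum.inr i)) = Θ₂ (b (FreeGroup.of i)) := fun i => by
    simp [hm, q₁, q₂]
  obtain ⟨nu1, nu2⟩ := near_qmod t.proj_qmod t.u1 t.u2 hU hu
  obtain ⟨nv1, nv2⟩ := near_qmod t.proj_qmod t.v1 t.v2 hV hv
  let c₁ := cj_qmod (ε₁ 1) (l₁.self 1)
  let c₂ := cj_qmod (ε 1) (l₂.self 1)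
  have hA : star (c₂ (Θ₁ U)) * c₂ (Θ₁ U) = c₂ 1 := by rw [← map_star, ← map_mul, hU'.1]
  have hB : star (Θ₂ (c₁ V)) * Θ₂ (c₁ V) = Θ₂ (c₁ 1) := by
    rw [← map_star, ← map_mul, ← map_star, ← map_mul, hV.1]
  have hc : ∀ X, ‖c₂ (c₁ X)‖ ≤ ‖X‖ := fun X =>
    (NonUnitalStarAlgHom.norm_apply_le c₂ _).trans (NonUnitalStarAlgHom.norm_apply_le c₁ _)
  refine ⟨K, inferInstance, inferInstance, inferInstance, Θ₂.comp (Θ₁.comp Θ₀), ⟨{
    toTwist := (t.push_qmod (l₁.self 1) (i₁ 1)).push_qmod (l₂.self 1) (i₂ 1)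
    m := m
    e := Θ₂ (Θ₁ t.r)
    A := c₂ (Θ₁ U)
    B := Θ₂ (c₁ V)
    amp := (amp.comp (l₁.isAmp i₁)).comp (l₂.isAmp i₂)
    urep := fun f => ?_
    mc := fun f T => ?_
    mxy := fun i j => ?_
    ep := (t.proj_qmod.map Θ₁).map Θ₂
    ec := fun T => ((t.comm_qmod T).map Θ₁).map Θ₂
    me := fun f => ?_
    Ac := fun T => cj_comm_qmod (i₂ 1) ((hUc T).map Θ₁)
    Bc := fun T => (cj_comm_qmod (i₁ 1) (hVc T)).map Θ₂
    Ap := hA ▸ (IsStarProjection.one _).map c₂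
    Bp := hB ▸ ((IsStarProjection.one _).map c₁).map Θ₂
    eA := hA ▸ (cj_comm_qmod (i₂ 1) (Commute.one_left _)).symm
    eB := hB ▸ (cj_comm_qmod (i₁ 1) (Commute.one_left _)).symm.map Θ₂
    AB := hA ▸ hB ▸ cj_comm_qmod (i₂ 1) (Commute.one_left _)
    req := ?_
    avA := ?_
    avB := ?_
    Au := ?_
    Bv := ?_ }⟩⟩
  · rw [hm, hm, star_mul, ← map_star, ha.urep, hb.urep, map_inv q₁, map_inv q₂,
      (hab _ _).eq]
  · rw [hm]
    exact (ha.comm_qmod l₂ hU' i₂ ((hUc T).symm.map Θ₁) _).mul_left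
      ((hb.comm_qmod l₁ hV i₁ (hVc T).symm _).map Θ₂)
  · rw [hm1, hm2]
    exact hab _ _
  · rw [hm]
    refine (comm_mul_qmod (ha.urep.norm_qmod _)
      ((NonUnitalStarAlgHom.norm_apply_le Θ₂ _).trans (hb.urep.norm_qmod _))
      (ha.lip l₂ hU' _ _ (fun g => i₂ g _) (map_le_qmod nu1) _)
      (map_le_qmod (hb.lip l₁ hV _ _ (fun g => i₁ g _) nv1 _))).trans (le_of_eq (by ring))
  · rw [hA, hB, mul_cj_qmod (i₂ 1), cj_mul_qmod (i₂ 1), mul_one, mul_cj_qmod (i₁ 1), mul_one]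
    rfl
  · simp only [hm1]
    exact av_qmod (ha.av_le l₂) hs
  · simp only [hm2]
    rw [← map_av' Θ₂]
    refine av_qmod ?_ hs
    rw [← map_smul, ← map_sub]
    exact (NonUnitalStarAlgHom.norm_apply_le Θ₂ _).trans (hb.av_le l₁)
  · change ‖c₂ (c₁ t.r) * c₂ (Θ₁ U) * c₂ (c₁ t.r) - c₂ (c₁ t.u)‖ ≤ θ
    rw [← map_mul, cj_mul_qmod (i₁ 1), ← map_mul, ← map_mul, ← map_sub, ← map_sub]
    exact (hc _).trans (nu2.trans (by linarith))
  · change ‖c₂ (c₁ t.r) * Θ₂ (c₁ V) * c₂ (c₁ t.r) - c₂ (c₁ t.v)‖ ≤ θ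
    rw [cj_mul_qmod (i₂ 1), ← map_mul, ← map_mul, ← map_mul, ← map_sub, ← map_sub]
    exact (hc _).trans (nv2.trans (by linarith))

end Ulam
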