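import Pool.Agent.P.MP_3be8c7_an.QD

open scoped ComplexOrder InnerProductSpace
open Filter Topology
open ContinuousLinearMap (adjoint)

noncomputable section

namespace Ulam

universe u v w

theorem exists_dsum (H₁ : Type v) [NormedAddCommGroup H₁] [InnerProductSpace ℂ H₁] [CompleteSpace H₁]
    (H₂ : Type w) [NormedAddCommGroup H₂] [InnerProductSpace ℂ H₂] [CompleteSpace H₂] :
    ∃ (K : Type (max v w)) (_ : NormedAddCommGroup K) (_ : InnerProductSpace ℂ K)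
      (_ : CompleteSpace K) (ι₁ : H₁ →L[ℂ] K) (ι₂ : H₂ →L[ℂ] K),
      adjoint ι₁ ∘L ι₁ = 1 ∧ adjoint ι₂ ∘L ι₂ = 1 ∧ adjoint ι₁ ∘L ι₂ = 0 ∧ adjoint ι₂ ∘L ι₁ = 0 ∧
      ι₁ ∘L adjoint ι₁ + ι₂ ∘L adjoint ι₂ = 1 ∧
      (∀ (X : H₁ →L[ℂ] H₁) (Y : H₂ →L[ℂ] H₂) (c : ℝ), 0 ≤ c → ‖X‖ ≤ c → ‖Y‖ ≤ c →
        ‖ι₁ ∘L X ∘L adjoint ι₁ + ι₂ ∘L Y ∘L adjoint ι₂‖ ≤ c) ∧
      ∀ (D : Type u) [CStarAlgebra D] (π₁ : D →⋆ₐ[ℂ] (H₁ →L[ℂ] H₁))
        (π₂ : D →⋆ₐ[ℂ] (H₂ →L[ℂ] H₂)), ∃ π : D →⋆ₐ[ℂ] (K →L[ℂ] K),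
        ∀ a, π a = ι₁ ∘L π₁ a ∘L adjoint ι₁ + ι₂ ∘L π₂ a ∘L adjoint ι₂ := by
  let e := WithLp.prodContinuousLinearEquiv 2 ℂ H₁ H₂
  let ι₁ : H₁ →L[ℂ] WithLp 2 (H₁ × H₂) := e.symm.toContinuousLinearMap ∘L .inl ℂ H₁ H₂
  let ι₂ : H₂ →L[ℂ] WithLp 2 (H₁ × H₂) := e.symm.toContinuousLinearMap ∘L .inr ℂ H₁ H₂
  have a1 : ∀ x, adjoint ι₁ x = x.fst := fun x => ext_inner_left ℂ fun y => by
    rw [ContinuousLinearMap.adjoint_inner_right]
    simp [ι₁, e]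
  have a2 : ∀ x, adjoint ι₂ x = x.snd := fun x => ext_inner_left ℂ fun y => by
    rw [ContinuousLinearMap.adjoint_inner_right]
    simp [ι₂, e]
  have b : ∀ (X : H₁ →L[ℂ] H₁) (Y : H₂ →L[ℂ] H₂) x,
      (ι₁ ∘L X ∘L adjoint ι₁ + ι₂ ∘L Y ∘L adjoint ι₂) x = WithLp.toLp 2 (X x.fst, Y x.snd) :=
    fun X Y x => by
      simp only [add_apply, ContinuousLinearMap.comp_apply, a1, a2]
      simp [ι₁, ι₂, e, ← WithLp.toLp_add]
  refine ⟨WithLp 2 (H₁ × H₂), inferInstance, inferInstance, inferInstance, ι₁, ι₂, ?_, ?_, ?_, ?_,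
    ?_, fun X Y c hc hX hY => ?_, fun D _ π₁ π₂ => ?_⟩
  · exact ContinuousLinearMap.ext fun x => a1 _
  · exact ContinuousLinearMap.ext fun x => a2 _
  · exact ContinuousLinearMap.ext fun x => a1 _
  · exact ContinuousLinearMap.ext fun x => a2 _
  · exact ContinuousLinearMap.ext fun x => b 1 1 x
  · refine ContinuousLinearMap.opNorm_le_bound _ hc fun x => ?_
    rw [b]
    refine (pow_le_pow_iff_left₀ (norm_nonneg _) (mul_nonneg hc (norm_nonneg _)) two_ne_zero).1 ?_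
    rw [mul_pow, WithLp.prod_norm_sq_eq_of_L2, WithLp.prod_norm_sq_eq_of_L2, mul_add, ← mul_pow,
      ← mul_pow]
    exact add_le_add (pow_le_pow_left₀ (norm_nonneg _) (X.le_of_opNorm_le hX _) 2)
      (pow_le_pow_left₀ (norm_nonneg _) (Y.le_of_opNorm_le hY _) 2)
  · refine ⟨{ toFun := fun a => ι₁ ∘L π₁ a ∘L adjoint ι₁ + ι₂ ∘L π₂ a ∘L adjoint ι₂
              map_one' := ContinuousLinearMap.ext fun x => ?_
              map_mul' := fun a a' => ContinuousLinearMap.ext fun x => ?_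
              map_zero' := by simp
              map_add' := fun a a' => ContinuousLinearMap.ext fun x => ?_
              commutes' := fun c => ContinuousLinearMap.ext fun x => ?_
              map_star' := fun a => ?_ }, fun _ => rfl⟩
    · rw [b, map_one, map_one]; rfl
    · rw [mul_apply_eq_comp, b, b, b, map_mul, map_mul]; rfl
    · rw [add_apply (_ + _), b, b, b, map_add, map_add]; rfl
    · rw [b, AlgHomClass.commutes, AlgHomClass.commutes]; rfl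
    · simp only [map_star, ContinuousLinearMap.star_eq_adjoint, map_add,
        ContinuousLinearMap.adjoint_comp, ContinuousLinearMap.adjoint_adjoint,
        ContinuousLinearMap.comp_assoc]

end Ulam
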