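import Pool.Agent.P.MP_3be8c7_an.QL2B
import Pool.Agent.P.MP_3be8c7_an.QDS
import Pool.Agent.P.MP_3be8c7_an.BIC
import Pool.Agent.P.MP_3be8c7_an.KAP
import Pool.Agent.P.MP_3be8c7_an.ULIM

open scoped ComplexOrder InnerProductSpace
open Filter Topology
open ContinuousLinearMap (adjoint)

noncomputable section

namespace Ulam

universe u v w

variable {D : Type u} [CStarAlgebra D] [PartialOrder D] [StarOrderedRing D]
variable {H : Type v} [NormedAddCommGroup H] [InnerProductSpace ℂ H] [CompleteSpace H]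
variable {K : Type w} [NormedAddCommGroup K] [InnerProductSpace ℂ K] [CompleteSpace K]
variable {π : D →⋆ₐ[ℂ] (H →L[ℂ] H)} {N : VonNeumannAlgebra H}

/-- Normal extension of a close representation. -/
theorem nex (hπ : ∀ a, π a ∈ N) (hK : KDense π N) {Θ : (H →L[ℂ] H) →⋆ₐ[ℂ] (K →L[ℂ] K)}
    (hΘ : IsAmp Θ) (ψ : D →⋆ₐ[ℂ] (K →L[ℂ] K)) (M : VonNeumannAlgebra K) (hM : ∀ a, ψ a ∈ M)
    {δ : ℝ} (h0 : 0 ≤ δ) (h1 : δ < 1) (h : ∀ a, ‖Θ (π a) - ψ a‖ ≤ δ * ‖a‖) :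
    ∃ Ψ : (H →L[ℂ] H) → (K →L[ℂ] K), (∀ x ∈ N, Ψ x ∈ M ∧ ‖Θ x - Ψ x‖ ≤ δ * ‖x‖) ∧
      (∀ x ∈ N, ∀ y ∈ N, Ψ (x * y) = Ψ x * Ψ y) ∧ (∀ x ∈ N, Ψ (star x) = star (Ψ x)) ∧
      Ψ 1 = 1 := by
  obtain ⟨L, _, _, _, ι₁, ι₂, e11, e22, e12, e21, -, hn, hrep⟩ := exists_dsum K K
  obtain ⟨Δ, hΔ⟩ := hrep ((K →L[ℂ] K) × (K →L[ℂ] K)) (StarAlgHom.fst ℂ _ _) (StarAlgHom.snd ℂ _ _)
  have hΔ' : ∀ X Y, Δ (X, Y) = ι₁ ∘L X ∘L adjoint ι₁ + ι₂ ∘L Y ∘L adjoint ι₂ := fun X Y => hΔ (X, Y)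
  have v11 : ∀ z, adjoint ι₁ (ι₁ z) = z := fun z => congr($e11 z)
  have v22 : ∀ z, adjoint ι₂ (ι₂ z) = z := fun z => congr($e22 z)
  have v12 : ∀ z, adjoint ι₁ (ι₂ z) = 0 := fun z => congr($e12 z)
  have v21 : ∀ z, adjoint ι₂ (ι₁ z) = 0 := fun z => congr($e21 z)
  have c1 : ∀ X Y z, adjoint ι₁ (Δ (X, Y) (ι₁ z)) = X z := fun X Y z => by
    simp [hΔ', v11, v12]
  have c2 : ∀ X Y z, adjoint ι₂ (Δ (X, Y) (ι₂ z)) = Y z := fun X Y z => by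
    simp [hΔ', v22, v21]
  let ρ : D →⋆ₐ[ℂ] (L →L[ℂ] L) := Δ.comp ((Θ.comp π).prod ψ)
  have hρ : ∀ a, ρ a = Δ (Θ (π a), ψ a) := fun a => rfl
  obtain ⟨N1, hN1, hs⟩ := bic ρ
  have hk := kap hs
  have uq0 : ∀ Y, Δ (0, Y) ∈ N1 → Y = 0 := fun Y hY => by
    obtain ⟨a, ha, hss⟩ := hk.any hY
    have hb : ‖Δ (0, Y)‖ ≤ ‖Y‖ := by
      rw [hΔ']
      exact hn 0 Y _ (norm_nonneg _) (by simp) le_rfl
    have hY' : ‖Y‖ ≤ δ * ‖Y‖ := by
      refine ContinuousLinearMap.opNorm_le_bound _ (by positivity) fun z => ?_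
      have t1 := ((adjoint ι₁).continuous.tendsto _).comp (hss.2 (ι₁ z)).1
      have t2 := ((adjoint ι₂).continuous.tendsto _).comp (hss.2 (ι₂ z)).1
      simp only [Function.comp_def, hρ, c1, c2] at t1 t2
      have t3 := (t1.sub t2).norm
      rw [zero_apply, zero_sub, norm_neg] at t3
      refine le_of_tendsto' t3 fun i => ?_
      exact (Θ (π (a i)) - ψ (a i)).le_of_opNorm_le
        ((h _).trans (mul_le_mul_of_nonneg_left ((ha i).trans hb) h0)) z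
    exact norm_eq_zero.1 (le_antisymm (by nlinarith [norm_nonneg Y]) (norm_nonneg _))
  have uq : ∀ X Y Y', Δ (X, Y) ∈ N1 → Δ (X, Y') ∈ N1 → Y = Y' := fun X Y Y' h1 h2 => by
    refine sub_eq_zero.1 (uq0 _ ?_)
    have := sub_mem h1 h2
    rwa [← map_sub, Prod.mk_sub_mk, sub_self] at this
  have ex : ∀ x, ∃ Y, x ∈ N → Y ∈ M ∧ ‖Θ x - Y‖ ≤ δ * ‖x‖ ∧ Δ (Θ x, Y) ∈ N1 := fun x => by
    by_cases hx : x ∈ N
    swap
    · exact ⟨0, fun h' => absurd h' hx⟩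
    classical
    obtain ⟨a, ha, hss⟩ := hK.any hx
    let U : Ultrafilter (Finset H × ℕ) := Ultrafilter.of atTop
    obtain ⟨Y, -, hY⟩ := ulim U (fun i => ψ (a i)) (C := ‖x‖)
      (Eventually.of_forall fun i => (NonUnitalStarAlgHom.norm_apply_le ψ _).trans (ha i))
    have hX : WL U (fun i => Θ (π (a i))) (Θ x) :=
      (WL.of_sot fun ξ => ((hΘ.ss hss).2 ξ).1).mono (Ultrafilter.of_le _)
    refine ⟨Y, fun _ => ⟨hY.mem M (Eventually.of_forall fun i => hM _), ?_, ?_⟩⟩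
    · have := (hX.sub hY).norm_sub_le 0 (c := δ * ‖x‖) (Eventually.of_forall fun i => by
        rw [sub_zero]
        exact (h _).trans (mul_le_mul_of_nonneg_left (ha i) h0))
      rwa [sub_zero] at this
    · have hw : WL U (fun i => ρ (a i)) (Δ (Θ x, Y)) := fun ξ η => by
        have := (hX (adjoint ι₁ ξ) (adjoint ι₁ η)).add (hY (adjoint ι₂ ξ) (adjoint ι₂ η))
        simpa only [hρ, hΔ', add_apply, ContinuousLinearMap.comp_apply,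
          inner_add_right, ContinuousLinearMap.adjoint_inner_left] using this
      exact hw.mem N1 (Eventually.of_forall fun i => hN1 _)
  choose Ψ hΨ using ex
  refine ⟨Ψ, fun x hx => ⟨(hΨ x hx).1, (hΨ x hx).2.1⟩, fun x hx y hy => ?_, fun x hx => ?_, ?_⟩
  · refine uq _ _ _ (hΨ _ (mul_mem hx hy)).2.2 ?_
    have := mul_mem (hΨ x hx).2.2 (hΨ y hy).2.2
    rwa [← map_mul, Prod.mk_mul_mk, ← map_mul] at this
  · refine uq _ _ _ (hΨ _ (star_mem hx)).2.2 ?_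
    have := star_mem (hΨ x hx).2.2
    rwa [← map_star, Prod.star_def, ← map_star] at this
  · refine uq _ _ _ (hΨ _ (one_mem N)).2.2 ?_
    rw [map_one, Prod.mk_one_one, map_one]
    exact one_mem N1

end Ulam
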