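import Pool.Agent.P.MP_3be8c7_an.QL2B

open scoped ComplexOrder InnerProductSpace
open Filter Topology
open ContinuousLinearMap (adjoint)

noncomputable section

namespace Ulam

universe u v w

variable {H : Type v} [NormedAddCommGroup H] [InnerProductSpace ℂ H] [CompleteSpace H]

theorem nearInc_proj (S G : Set (H →L[ℂ] H)) (hG : ∀ g ∈ G, star g ∈ G)
    (hGS : ∀ g ∈ G, ∀ s ∈ S, Commute g s) {e p : H →L[ℂ] H} (hp : IsStarProjection p)
    (heS : ∀ s ∈ S, Commute e s) (hpG : ∀ g ∈ G, Commute g p) {t : ℝ} (ht : ‖p - e‖ ≤ t) :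
    NearInc S (vnC (insert p G)) (4 * t) := by
  intro I K _ _ _ ε hε ρ hρ
  obtain ⟨Θ, hΘ⟩ := hε.exists_amp
  have hP : IsStarProjection (Θ p) := hp.map Θ
  have hi : Θ p * Θ p = Θ p := hP.isIdempotentElem.eq
  have he : Commute (Θ e) ρ := (hε.commute_iff hΘ ρ e).2 (hρ e heS)
  have hg : ∀ g ∈ G, Commute (Θ g) (Θ p * ρ * Θ p + (1 - Θ p) * ρ * (1 - Θ p)) := fun g hg => by
    have a1 : Commute (Θ g) ρ := (hε.commute_iff hΘ ρ g).2 (hρ g (hGS g hg))
    have a2 : Commute (Θ g) (Θ p) := (hpG g hg).map Θ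
    have a3 : Commute (Θ g) (1 - Θ p) := (Commute.one_right _).sub_right a2
    exact ((a2.mul_right a1).mul_right a2).add_right ((a3.mul_right a1).mul_right a3)
  have h1 : Θ p * (1 - Θ p) = 0 := by rw [mul_sub, mul_one, hi, sub_self]
  have h2 : (1 - Θ p) * Θ p = 0 := by rw [sub_mul, one_mul, hi, sub_self]
  have hq : Commute (Θ p) (Θ p * ρ * Θ p + (1 - Θ p) * ρ * (1 - Θ p)) := by
    rw [Commute, SemiconjBy, mul_add, add_mul]
    simp only [← mul_assoc, h1, hi, zero_mul]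
    simp only [mul_assoc, h2, hi, mul_zero]
  refine ⟨Θ p * ρ * Θ p + (1 - Θ p) * ρ * (1 - Θ p), fun i j => mem_vnC.2 fun s hs => ?_, ?_⟩
  · rcases hs with rfl | hs
    · rw [hp.isSelfAdjoint.star_eq, and_self]
      exact (hε.commute_iff hΘ _ _).1 hq i j
    · exact ⟨(hε.commute_iff hΘ _ _).1 (hg s hs) i j,
        (hε.commute_iff hΘ _ _).1 (hg _ (hG s hs)) i j⟩
  · have b1 : ‖Θ p - Θ e‖ ≤ t := by
      rw [← map_sub]
      exact (NonUnitalStarAlgHom.norm_apply_le Θ _).trans ht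
    have b2 : ‖1 - Θ p‖ ≤ 1 := hP.one_sub.norm_le _
    obtain ⟨C, hC⟩ : ∃ C, C = Θ p * ρ - ρ * Θ p := ⟨_, rfl⟩
    have b3 : ‖C‖ ≤ 2 * t * ‖ρ‖ := by
      have e1 : C = (Θ p - Θ e) * ρ - ρ * (Θ p - Θ e) := by
        rw [hC, sub_mul, mul_sub, he.eq]
        abel
      have e2 := norm_sub_le ((Θ p - Θ e) * ρ) (ρ * (Θ p - Θ e))
      have e3 := (norm_mul_le (Θ p - Θ e) ρ).trans (mul_le_mul_of_nonneg_right b1 (norm_nonneg ρ))
      have e4 := (norm_mul_le ρ (Θ p - Θ e)).trans (mul_le_mul_of_nonneg_left b1 (norm_nonneg ρ))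
      rw [e1]
      linarith
    have b4 : ρ - (Θ p * ρ * Θ p + (1 - Θ p) * ρ * (1 - Θ p)) =
        C * (1 - Θ p) - (1 - Θ p) * C := by
      rw [hC, sub_mul (Θ p * ρ), mul_sub (1 - Θ p) (Θ p * ρ), mul_assoc ρ, h1, ← mul_assoc (1 - Θ p),
        h2]
      noncomm_ring
    have b5 := (norm_mul_le C (1 - Θ p)).trans (mul_le_of_le_one_right (norm_nonneg C) b2)
    have b6 := (norm_mul_le (1 - Θ p) C).trans (mul_le_of_le_one_left (norm_nonneg C) b2)
    rw [b4]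
    linarith [norm_sub_le (C * (1 - Θ p)) ((1 - Θ p) * C)]

end Ulam
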