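import Pool.Agent.P.MP_3be8c7_an.QTW
import Pool.Agent.P.MP_3be8c7_an.QFG

open scoped ComplexOrder InnerProductSpace
open Filter Topology
open ContinuousLinearMap (adjoint)

noncomputable section

namespace Ulam

universe u v w

variable {H : Type v} [NormedAddCommGroup H] [InnerProductSpace ℂ H] [CompleteSpace H]
variable {K : Type w} [NormedAddCommGroup K] [InnerProductSpace ℂ K] [CompleteSpace K]
variable {ι R : Type} [DecidableEq ι] [Fintype R] [Nonempty R] {G : Type*} [Group G] {s : R → G}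
  {ω : FreeGroup ι → (FreeGroup ι × ι → R) → G}

omit [CompleteSpace H] in
theorem eq_of_av_qmix {T : Type*} [Fintype T] {v : T → H} {z : H} (h : av v = z)
    (hv : ∀ t, ‖v t‖ = ‖z‖) (t : T) : v t = z := by
  have : Nonempty T := ⟨t⟩
  let L : H →ₗ[ℝ] ℝ := Complex.reLm ∘ₗ ((innerSL ℂ z).toLinearMap.restrictScalars ℝ)
  have hL : ∀ y, L y = RCLike.re ⟪z, y⟫_ℂ := fun y => rfl
  have h1 : av (fun t => ‖z - v t‖ ^ 2) = 0 := by
    have e : ∀ t, ‖z - v t‖ ^ 2 = (2 : ℝ) • (‖z‖ ^ 2 - L (v t)) := fun t => by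
      rw [@norm_sub_sq ℂ, hv, hL, smul_eq_mul]
      ring
    simp only [e]
    rw [av_real_smul, av_sub, av_const, ← map_av, h, hL, inner_self_eq_norm_sq, sub_self,
      smul_zero]
  have hc : (Fintype.card T : ℝ)⁻¹ ≠ 0 := inv_ne_zero (Nat.cast_ne_zero.2 Fintype.card_ne_zero)
  have h2 := (Finset.sum_eq_zero_iff_of_nonneg fun t _ => sq_nonneg _).1
    ((smul_eq_zero.1 h1).resolve_left hc) t (Finset.mem_univ t)
  exact (sub_eq_zero.1 (norm_eq_zero.1 (pow_eq_zero_iff two_ne_zero |>.1 h2))).symm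

theorem wrd_qmix {G R : Type*} [Monoid G] (s : R → G) {n : ℕ} (hn : 0 < n) (ρ ρ₁ : R)
    (h : s ρ₁ = 1) : ∃ τ : Fin n → R, wrd s τ = s ρ := by
  obtain ⟨n, rfl⟩ := Nat.exists_eq_succ_of_ne_zero hn.ne'
  refine ⟨Fin.cons ρ fun _ => ρ₁, ?_⟩
  simp [wrd, List.ofFn_succ, h]

theorem mix (b : Bern (FreeGroup ι × ι) R H K) (hω : IsCoc s ω) (hs : Sym s)
    (hgen : Subgroup.closure (Set.range s) = ⊤) (c : G →* (H →L[ℂ] H)) (hc : URep c)
    {e : H →L[ℂ] H} (he : IsFix c e) (μ : FreeGroup ι →* (K →L[ℂ] K)) (hμ : URep μ)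
    (hμ' : ∀ f, μ f = b.M (fun x => c (ω f x)) * b.w (lft f)) {i j : ι} (hij : i ≠ j)
    (S : Subgroup (FreeGroup ι))
    (hS : FreeGroup.of i * FreeGroup.of j * (FreeGroup.of i)⁻¹ * (FreeGroup.of j)⁻¹ ∈ S) :
    IsFix (μ.comp S.subtype) (b.ι ∘L e ∘L adjoint b.ι) ∧
      ∀ f, μ f * (b.ι ∘L e ∘L adjoint b.ι) = b.ι ∘L e ∘L adjoint b.ι := by
  set W := FreeGroup.of i * FreeGroup.of j * (FreeGroup.of i)⁻¹ * (FreeGroup.of j)⁻¹ with hW
  have hloc : ∀ f, Loc fun x => c (ω f x) := fun f => (hω.loc f).comp c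
  have iso : ∀ ξ, adjoint b.ι (b.ι ξ) = ξ := fun ξ => congr($(b.iso) ξ)
  have itw : ∀ T ξ, b.C T (b.ι ξ) = b.ι (T ξ) := fun T ξ => congr($(b.itw T) ξ)
  have hμι : ∀ f ξ, μ f (b.ι ξ) = b.M (fun x => c (ω f x)) (b.ι ξ) := fun f ξ => by
    rw [hμ', mul_apply_eq_comp]
    exact congr(b.M _ ($(b.wι (lft f)) ξ))
  have h2 : ∀ f, μ f * (b.ι ∘L e ∘L adjoint b.ι) = b.ι ∘L e ∘L adjoint b.ι := fun f => by
    ext ζ
    have e1 : b.M (fun x => c (ω f x)) * b.C e = b.C e := by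
      rw [← b.const, ← b.mul _ _ (hloc f) (Loc.const e)]
      exact congrArg b.M (funext fun x => he.fix _)
    change μ f (b.ι (e (adjoint b.ι ζ))) = b.ι (e (adjoint b.ι ζ))
    rw [hμι, ← itw]
    exact congr($e1 (b.ι (adjoint b.ι ζ)))
  refine ⟨⟨⟨?_, ?_⟩, fun g => h2 g, fun ζ hζ => ?_⟩, h2⟩
  · ext ζ
    change b.ι (e (adjoint b.ι (b.ι (e (adjoint b.ι ζ))))) = b.ι (e (adjoint b.ι ζ))
    rw [iso]
    exact congr(b.ι ($(he.proj.isIdempotentElem.eq) (adjoint b.ι ζ)))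
  · rw [IsSelfAdjoint, ContinuousLinearMap.star_eq_adjoint, ContinuousLinearMap.adjoint_comp,
      ContinuousLinearMap.adjoint_comp, ContinuousLinearMap.adjoint_adjoint,
      ← ContinuousLinearMap.star_eq_adjoint e, he.proj.isSelfAdjoint.star_eq,
      ContinuousLinearMap.comp_assoc]
  have hk : ∀ k : ℤ, μ (W ^ k) ζ = ζ := fun k => hζ ⟨W ^ k, S.zpow_mem hS k⟩
  have hP : ∀ a, b.P a ζ = ζ := fun a => by
    refine sub_eq_zero.1 (norm_le_zero_iff.1 (le_of_forall_pos_le_add fun δ hδ => ?_))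
    obtain ⟨F, hF⟩ := b.Plim ζ δ hδ
    obtain ⟨f, f1, f2, f3⟩ : ∃ f, μ f ζ = ζ ∧ (F.sup fun p => p.1.norm) + a.1.norm < f.norm ∧
        (f.norm < (f * a.1).norm ∨ f.norm < (f * a.1 * FreeGroup.of a.2).norm) := by
      by_cases h1 : a.1 = 1
      · obtain ⟨k, k1, k2⟩ := exists_escape hij (FreeGroup.of_ne_one a.2)
          ((F.sup fun p => p.1.norm) + a.1.norm + 1)
        exact ⟨_, hk k, k1, Or.inr (by rwa [h1, mul_one])⟩
      · obtain ⟨k, k1, k2⟩ := exists_escape hij h1 ((F.sup fun p => p.1.norm) + a.1.norm + 1)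
        exact ⟨_, hk k, k1, Or.inl k2⟩
    have h3 : lft f a ∉ F := fun h => by
      have e1 : (f * a.1).norm ≤ F.sup fun p => p.1.norm :=
        Finset.le_sup (f := fun p : FreeGroup ι × ι => p.1.norm) h
      have e2 := FreeGroup.norm_mul_le (f * a.1) a.1⁻¹
      rw [mul_inv_cancel_right, FreeGroup.norm_inv_eq] at e2
      omega
    have h4 : μ f * b.P a = b.P (lft f a) * μ f := by
      rw [hμ', mul_assoc, b.wP, ← mul_assoc, ← mul_assoc,
        (b.PM (lft f a) _ (hloc f) fun x ρ => by rw [hω.indep f (lft f a) f3]).eq]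
    have h5 : μ f (b.P a ζ) = b.P (lft f a) (μ f ζ) := congr($h4 ζ)
    rw [← hμ.norm_apply f, map_sub, h5, f1, zero_add]
    exact hF _ h3
  have hz := b.erg ζ hP
  set z := adjoint b.ι ζ with hzd
  obtain ⟨k, k1, -⟩ := exists_escape hij (FreeGroup.of_ne_one i) 1
  have h6 : av (fun ρ : Fin (W ^ k).norm → R => c (wrd s ρ) z) = z := by
    rw [← av_apply, ← hω.ex_eq hs (W ^ k) c, ← b.exp _ (hloc _)]
    change adjoint b.ι (b.M _ (b.ι z)) = z
    rw [← hμι, hz, hk]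
  have h7 := eq_of_av_qmix h6 fun ρ => hc.norm_apply _ _
  obtain ⟨ρ₁, hρ₁⟩ := hs.2
  have h8 : ∀ g, c g z = z := fun g => by
    have hg : g ∈ Subgroup.closure (Set.range s) := hgen ▸ Subgroup.mem_top g
    induction hg using Subgroup.closure_induction with
    | mem x hx =>
      obtain ⟨ρ, rfl⟩ := hx
      obtain ⟨τ, hτ⟩ := wrd_qmix s k1 ρ ρ₁ hρ₁
      exact hτ ▸ h7 τ
    | one => rw [map_one, one_apply_eq_self]
    | mul x y _ _ hx hy => rw [map_mul, mul_apply_eq_comp, hy, hx]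
    | inv x _ hx =>
      conv_lhs => rw [← hx]
      rw [← mul_apply_eq_comp, ← map_mul, inv_mul_cancel, map_one, one_apply_eq_self]
  change b.ι (e z) = ζ
  rw [he.max z h8, hz]

end Ulam
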