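import Pool.Agent.P.MP_3be8c7_an.QJ
import Pool.Agent.P.MP_3be8c7_an.QFIX
import Pool.Agent.P.MP_3be8c7_an.ULIM

open scoped ComplexOrder InnerProductSpace
open Filter Topology
open ContinuousLinearMap (adjoint)

noncomputable section

namespace Ulam

universe u v w

variable {H : Type v} [NormedAddCommGroup H] [InnerProductSpace ℂ H] [CompleteSpace H]
variable (g : GD H)

theorem GD.rrep : URep g.rr := by
  intro x
  rw [g.rr_eq, g.rr_eq, ← g.isJ.star g.cyc g.tr (g.lmem x), g.lrep x]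

theorem GD.crep : URep g.c := by
  intro x
  rw [g.c_eq, g.c_eq, star_mul, g.rrep x, g.lrep x, g.rr_eq]
  exact (g.isJ.commute g.cyc (g.lmem _) (g.lmem _)).eq

theorem GD.e_xi : g.e g.ξ = g.ξ := by
  refine g.fix.max _ fun x => ?_
  rw [g.c_eq, g.rr_eq, ContinuousLinearMap.mul_apply, g.isJ.apply (g.lmem x), g.lrep x,
    ← ContinuousLinearMap.mul_apply, ← map_mul, mul_inv_cancel, map_one,
    ContinuousLinearMap.one_apply]

theorem GD.c_apply (x : g.G) {a : H →L[ℂ] H} (ha : a ∈ g.N) :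
    g.c x (a g.ξ) = (g.l x * a * star (g.l x)) g.ξ := by
  rw [g.c_eq, g.rr_eq, ContinuousLinearMap.mul_apply, g.isJ _ (g.lmem x) a ha]
  rfl

theorem GD.star_mem {b : H →L[ℂ] H} (hb : b ∈ g.PS) : star b ∈ g.PS := by
  refine ⟨StarMemClass.star_mem hb.1, fun x => ?_⟩
  have := (hb.2 x⁻¹).star_star
  rwa [g.lrep, inv_inv] at this

theorem GD.ps_fix {b : H →L[ℂ] H} (hb : b ∈ g.PS) : g.e (b g.ξ) = b g.ξ := by
  refine g.fix.max _ fun x => ?_
  rw [g.c_apply x hb.1, ← (hb.2 x).eq, mul_assoc, g.lrep x, ← map_mul, mul_inv_cancel, map_one,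
    mul_one]

theorem GD.commute_left {b : H →L[ℂ] H} (hb : b ∈ g.PS) : Commute b g.e := by
  refine g.fix.commute g.crep fun x => ?_
  rw [g.c_eq, g.rr_eq]
  exact (hb.2 x).mul_right (g.isJ.commute g.cyc (g.lmem x) hb.1).symm

theorem GD.commute_rr {b : H →L[ℂ] H} (hb : b ∈ g.PS) (x : g.G) : Commute (g.j b) (g.rr x) := by
  rw [g.rr_eq, Commute, SemiconjBy, ← g.isJ.mul g.cyc hb.1 (g.lmem x),
    ← g.isJ.mul g.cyc (g.lmem x) hb.1, (hb.2 x).eq]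

theorem GD.commute_right {b : H →L[ℂ] H} (hb : b ∈ g.PS) : Commute (g.j b) g.e := by
  refine g.fix.commute g.crep fun x => ?_
  rw [g.c_eq]
  exact (g.isJ.commute g.cyc hb.1 (g.lmem x)).mul_right (g.commute_rr hb x)

theorem GD.hmap {a : H →L[ℂ] H} (ha : a ∈ g.N) : ∃ h ∈ g.PS, h g.ξ = g.e (a g.ξ) ∧
    ∀ T, Commute T a → (∀ x, Commute T (g.l x)) → Commute T h := by
  have h1 : ∀ n : ℕ, ∃ A ∈ g.N, ‖A‖ ≤ ‖a‖ ∧ ‖A g.ξ - g.e (a g.ξ)‖ ≤ 1 / ((n : ℝ) + 1) ∧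
      ∀ T, Commute T a → (∀ x, Commute T (g.l x)) → Commute T A := fun n => by
    obtain ⟨R, _, _, s, hs⟩ := g.fix.approx g.crep (a g.ξ) (Nat.one_div_pos_of_nat (n := n))
    refine ⟨av fun ρ => g.l (s ρ) * a * star (g.l (s ρ)), av_mem _ _ fun ρ =>
      mul_mem (mul_mem (g.lmem _) ha) (StarMemClass.star_mem (g.lmem _)),
      norm_av_le_of_le _ (norm_nonneg a) fun ρ => ?_, ?_, fun T hT hT' => ?_⟩
    · rw [g.lrep, CStarRing.norm_mul_mem_unitary _ (g.lrep.mem _),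
        CStarRing.norm_mem_unitary_mul _ (g.lrep.mem _)]
    · rw [av_apply]
      simpa only [g.c_apply _ ha] using hs
    · refine Commute.smul_right (Commute.sum_right _ _ _ fun ρ _ => ?_) _
      rw [g.lrep]
      exact ((hT' _).mul_right hT).mul_right (hT' _)
  choose A hA h2 h3 h4 using h1
  obtain ⟨h, -, hw⟩ := ulim (hyperfilter ℕ) A (Eventually.of_forall h2)
  have h5 : h ∈ g.N := hw.mem _ (Eventually.of_forall hA)
  have h6 : h g.ξ = g.e (a g.ξ) := hw.apply_eq ((tendsto_iff_norm_sub_tendsto_zero.2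
    (squeeze_zero (fun _ => norm_nonneg _) h3 tendsto_one_div_add_atTop_nhds_zero_nat)).mono_left
      Nat.hyperfilter_le_atTop)
  refine ⟨h, ⟨h5, fun x => ?_⟩, h6, fun T hT hT' =>
    hw.commute (Eventually.of_forall fun n => h4 n T hT hT')⟩
  have h7 : g.l x * h * star (g.l x) - h = 0 := g.cyc.sep g.tr
    (sub_mem (mul_mem (mul_mem (g.lmem _) h5) (StarMemClass.star_mem (g.lmem _))) h5) (by
      rw [ContinuousLinearMap.sub_apply, ← g.c_apply x h5, h6, g.fix.apply, sub_self])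
  rw [Commute, SemiconjBy]
  conv_lhs => rw [← sub_eq_zero.1 h7, mul_assoc, g.lrep, ← map_mul, inv_mul_cancel, map_one,
    mul_one]

theorem GD.ps_dense (ζ : H) {δ : ℝ} (hδ : 0 < δ) : ∃ b ∈ g.PS, ‖g.e ζ - b g.ξ‖ ≤ δ := by
  obtain ⟨a, ha, h1⟩ := g.cyc.dense ζ hδ
  obtain ⟨b, hb, h2, -⟩ := g.hmap ha
  refine ⟨b, hb, ?_⟩
  rw [h2, ← map_sub, norm_sub_rev] at *
  exact (g.e.le_of_opNorm_le g.fix.proj.norm_le _).trans (by rwa [one_mul])

theorem GD.key_qps {b T : H →L[ℂ] H} (hb : b ∈ g.N) (hT : Commute (g.j (star b)) T) :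
    ⟪star T g.ξ, b g.ξ⟫_ℂ = ⟪star b g.ξ, T g.ξ⟫_ℂ := by
  have h1 := g.isJ.apply (StarMemClass.star_mem hb)
  rw [star_star] at h1
  rw [ContinuousLinearMap.star_eq_adjoint, ContinuousLinearMap.adjoint_inner_left, ← h1,
    ← ContinuousLinearMap.mul_apply, ← hT.eq, ContinuousLinearMap.mul_apply,
    g.isJ.star g.cyc g.tr hb, ContinuousLinearMap.star_eq_adjoint,
    ContinuousLinearMap.adjoint_inner_right, g.isJ.apply hb]

theorem GD.fix_qps {T : H →L[ℂ] H} (h : g.e * T * g.e = T) : g.e (T g.ξ) = T g.ξ := by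
  conv_rhs => rw [← h, ContinuousLinearMap.mul_apply, g.e_xi, ContinuousLinearMap.mul_apply]

theorem GD.star_le_qps {T b : H →L[ℂ] H} (h : g.e * T * g.e = T)
    (hT : ∀ b ∈ g.PS, Commute (g.j b) T) (hb : b ∈ g.PS) :
    ‖star b g.ξ - star T g.ξ‖ ≤ ‖b g.ξ - T g.ξ‖ := by
  have h1 : g.e * star T * g.e = star T := by
    conv_rhs => rw [← h, star_mul, star_mul, g.fix.proj.isSelfAdjoint.star_eq, ← mul_assoc]
  set w := star b g.ξ - star T g.ξ with hw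
  have h2 : g.e w = w := by rw [hw, map_sub, g.fix_qps h1, g.ps_fix (g.star_mem hb)]
  have h3 : w ∈ closure ((fun a : H →L[ℂ] H => a g.ξ) '' g.PS) :=
    Metric.mem_closure_iff.2 fun ε hε => by
      obtain ⟨a, ha, h4⟩ := g.ps_dense w (half_pos hε)
      rw [h2] at h4
      exact ⟨_, ⟨a, ha, rfl⟩, (dist_eq_norm _ _).trans_lt (h4.trans_lt (half_lt_self hε))⟩
  have h4 : closure ((fun a : H →L[ℂ] H => a g.ξ) '' g.PS) ⊆
      {ζ | ‖⟪w, ζ⟫_ℂ‖ ≤ ‖ζ‖ * ‖b g.ξ - T g.ξ‖} := by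
    refine closure_minimal ?_ (isClosed_le (by fun_prop) (by fun_prop))
    rintro _ ⟨a, ha, rfl⟩
    rw [Set.mem_setOf_eq, hw, inner_sub_left, g.key_qps ha.1 (hT _ (g.star_mem ha)),
      g.key_qps ha.1 (g.isJ.commute g.cyc (StarMemClass.star_mem ha.1) hb.1), ← inner_sub_right,
      g.tr a ha.1]
    exact norm_inner_le_norm _ _
  have h5 : ‖⟪w, w⟫_ℂ‖ ≤ ‖w‖ * ‖b g.ξ - T g.ξ‖ := h4 h3
  rw [← inner_self_re_eq_norm, inner_self_eq_norm_mul_norm] at h5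
  rcases (norm_nonneg w).eq_or_lt with h6 | h6
  · exact h6 ▸ norm_nonneg _
  · exact le_of_mul_le_mul_left h5 h6

/-- The vector `ξ` is tracial on the commutant of the right action of the relative commutant. -/
theorem GD.trace {T T' : H →L[ℂ] H} (h : g.e * T * g.e = T) (h' : g.e * T' * g.e = T')
    (hT : ∀ b ∈ g.PS, Commute (g.j b) T) (hT' : ∀ b ∈ g.PS, Commute (g.j b) T') :
    ⟪g.ξ, (T * T') g.ξ⟫_ℂ = ⟪g.ξ, (T' * T) g.ξ⟫_ℂ := by
  have hx : ∀ S : H →L[ℂ] H, ⟪g.ξ, (S * T) g.ξ⟫_ℂ = ⟪star S g.ξ, T g.ξ⟫_ℂ := fun S =>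
    (ContinuousLinearMap.adjoint_inner_left S _ _).symm
  rw [hx T', show ⟪g.ξ, (T * T') g.ξ⟫_ℂ = ⟪star T g.ξ, T' g.ξ⟫_ℂ from
    (ContinuousLinearMap.adjoint_inner_left T _ _).symm]
  refine eq_of_forall_dist_le fun ε hε => ?_
  have hC : 0 < ‖star T g.ξ‖ + ‖T g.ξ‖ + 1 := by positivity
  obtain ⟨b, hb, h1⟩ := g.ps_dense (T' g.ξ) (div_pos hε hC)
  rw [g.fix_qps h'] at h1
  have h2 := (g.star_le_qps h' hT' hb).trans ((norm_sub_rev _ _).trans_le h1)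
  have h3 : ⟪star T g.ξ, T' g.ξ⟫_ℂ - ⟪star T' g.ξ, T g.ξ⟫_ℂ =
      ⟪star T g.ξ, T' g.ξ - b g.ξ⟫_ℂ + ⟪star b g.ξ - star T' g.ξ, T g.ξ⟫_ℂ := by
    rw [inner_sub_left, inner_sub_right, g.key_qps hb.1 (hT _ (g.star_mem hb))]
    ring
  rw [dist_eq_norm, h3]
  refine (norm_add_le_of_le ((norm_inner_le_norm _ _).trans
    (mul_le_mul_of_nonneg_left h1 (norm_nonneg _))) ((norm_inner_le_norm _ _).trans
    (mul_le_mul_of_nonneg_right h2 (norm_nonneg _)))).trans ?_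
  have h4 := mul_div_cancel₀ ε hC.ne'
  have h5 := div_pos hε hC
  nlinarith

end Ulam
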