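import Pool.Agent.P.MP_3be8c7_an.QEND
import Pool.Agent.P.MP_3be8c7_an.QMIX
import Pool.Agent.P.MP_3be8c7_an.QPS
import Pool.Agent.P.MP_3be8c7_an.QL2B

open scoped ComplexOrder InnerProductSpace
open Filter Topology
open ContinuousLinearMap (adjoint)

noncomputable section

namespace Ulam

universe u v w

section Aux

variable {H : Type v} [NormedAddCommGroup H] [InnerProductSpace ℂ H] [CompleteSpace H]
variable {K : Type w} [NormedAddCommGroup K] [InnerProductSpace ℂ K] [CompleteSpace K]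

theorem trace_qs2 (g : GD H) {Λ : Type} [Fintype Λ] (y : Λ → (H →L[ℂ] K))
    (Th : (H →L[ℂ] H) →⋆ₐ[ℂ] (K →L[ℂ] K)) (hy : ∀ k, Itw Th (y k))
    (h1 : ∀ k, adjoint (y k) ∘L y k = 1) (h2 : ∀ k l, k ≠ l → adjoint (y k) ∘L y l = 0)
    {r : K →L[ℂ] K} (hr : r = ∑ k, y k ∘L g.e ∘L adjoint (y k)) :
    ∃ τ : (K →L[ℂ] K) →L[ℂ] ℂ, τ r = Fintype.card Λ ∧ ∀ x x' : K →L[ℂ] K,
      (∀ a ∈ g.PS, Commute (Th (g.j a)) x) → (∀ a ∈ g.PS, Commute (Th (g.j a)) x') →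
      τ (r * x * r * x' * r) = τ (r * x' * r * x * r) := by
  classical
  let τ : (K →L[ℂ] K) →L[ℂ] ℂ :=
    ∑ k, innerSL ℂ (y k g.ξ) ∘L ContinuousLinearMap.apply ℂ K (y k g.ξ)
  have hτ : ∀ T, τ T = ∑ k, ⟪g.ξ, adjoint (y k) (T (y k g.ξ))⟫_ℂ := fun T => by
    simp only [τ, sum_apply, ContinuousLinearMap.comp_apply,
      ContinuousLinearMap.apply_apply, innerSL_apply_apply,
      ContinuousLinearMap.adjoint_inner_right]
  have hδ : ∀ k l ζ, adjoint (y k) (y l ζ) = if k = l then ζ else 0 := fun k l ζ => by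
    split_ifs with h
    · subst h
      exact congr($(h1 k) ζ)
    · exact congr($(h2 k l h) ζ)
  have hrv : ∀ η, r η = ∑ k, y k (g.e (adjoint (y k) η)) := fun η => by
    rw [hr, sum_apply]
    rfl
  have hry : ∀ k ζ, r (y k ζ) = y k (g.e ζ) := fun k ζ => by
    rw [hrv, Finset.sum_eq_single k]
    · rw [hδ, if_pos rfl]
    · intro l _ hl
      rw [hδ, if_neg hl, map_zero, map_zero]
    · simp
  have hyr : ∀ k η, adjoint (y k) (r η) = g.e (adjoint (y k) η) := fun k η => by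
    rw [hrv, map_sum, Finset.sum_eq_single k]
    · rw [hδ, if_pos rfl]
    · intro l _ hl
      rw [hδ, if_neg hl.symm]
    · simp
  have hee : g.e * g.e = g.e := g.fix.proj.isIdempotentElem.eq
  have hee' : ∀ ζ, g.e (g.e ζ) = g.e ζ := fun ζ => congr($hee ζ)
  have key : ∀ x x' : K →L[ℂ] K, τ (r * x * r * x' * r) =
      ∑ k, ∑ l, ⟪g.ξ, ((g.e * ent y x k l * g.e) * (g.e * ent y x' l k * g.e)) g.ξ⟫_ℂ := by
    intro x x'
    rw [hτ]
    refine Finset.sum_congr rfl fun k _ => ?_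
    simp only [mul_apply_eq_comp]
    rw [hyr, hry, hrv, map_sum, map_sum, map_sum, inner_sum]
    refine Finset.sum_congr rfl fun l _ => ?_
    rw [hee']
    rfl
  have hc : ∀ x : K →L[ℂ] K, (∀ a ∈ g.PS, Commute (Th (g.j a)) x) → ∀ k l, ∀ a ∈ g.PS,
      Commute (g.j a) (g.e * ent y x k l * g.e) := by
    intro x hx k l a ha
    refine ((g.commute_right ha).mul_right ?_).mul_right (g.commute_right ha)
    rw [Commute, SemiconjBy, ← ent_l_ql2b hy, ← ent_r_ql2b hy, (hx a ha).eq]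
  have hs : ∀ T : H →L[ℂ] H, g.e * (g.e * T * g.e) * g.e = g.e * T * g.e := fun T => by
    rw [← mul_assoc, ← mul_assoc, hee, mul_assoc, hee]
  refine ⟨τ, ?_, fun x x' hx hx' => ?_⟩
  · rw [hτ]
    simp only [hry, hδ, if_true, g.e_xi, inner_self_eq_norm_sq_to_K, g.norm_ξ]
    simp
  · rw [key, key, Finset.sum_comm]
    refine Finset.sum_congr rfl fun k _ => Finset.sum_congr rfl fun l _ => ?_
    exact g.trace (hs _) (hs _) (hc x hx _ _) (hc x' hx' _ _)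

theorem inv_qs2 {Γ M : Type*} [Group Γ] [Monoid M] (m : Γ →* M) {a : M} {f : Γ}
    (h : Commute a (m f)) : Commute a (m f⁻¹) := by
  have e1 : m f⁻¹ * m f = 1 := by rw [← map_mul, inv_mul_cancel, map_one]
  have e2 : m f * m f⁻¹ = 1 := by rw [← map_mul, mul_inv_cancel, map_one]
  calc a * m f⁻¹ = m f⁻¹ * m f * a * m f⁻¹ := by rw [e1, one_mul]
    _ = m f⁻¹ * a * (m f * m f⁻¹) := by rw [mul_assoc (m f⁻¹), ← h.eq]; simp only [mul_assoc]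
    _ = m f⁻¹ * a := by rw [e2, mul_one]

theorem ker_qs2 {Γ M : Type*} [Group Γ] [Monoid M] (m : Γ →* M) {f f' : Γ}
    (h : Commute (m f) (m f')) : f * f' * f⁻¹ * f'⁻¹ ∈ m.ker := by
  rw [MonoidHom.mem_ker, map_mul, map_mul, map_mul, h.eq, ← map_mul, ← map_mul, ← map_mul]
  simp

theorem fix_qs2 {Γ M : Type*} [Group Γ] [Monoid M] (m : Γ →* M) (ψ : Γ →* (K →L[ℂ] K))
    (hψ : URep ψ) {E : K →L[ℂ] K} (hE : IsFix (ψ.comp m.ker.subtype) E) :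
    (∀ f, Commute (ψ f) E) ∧
      ∀ f f', Commute (m f) (m f') → Commute (ψ f * E) (ψ f' * E) := by
  have h0 : ∀ f ζ, (∀ s : m.ker, (ψ.comp m.ker.subtype) s ζ = ζ) →
      ∀ s : m.ker, (ψ.comp m.ker.subtype) s (ψ f ζ) = ψ f ζ := by
    intro f ζ hζ s
    have hm : f⁻¹ * s * f⁻¹⁻¹ ∈ m.ker := m.normal_ker.conj_mem _ s.2 f⁻¹
    have h1 : ψ (f⁻¹ * s * f⁻¹⁻¹) ζ = ζ := hζ ⟨_, hm⟩
    have h2 : ψ s * ψ f = ψ f * ψ (f⁻¹ * s * f⁻¹⁻¹) := by
      rw [← map_mul, ← map_mul]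
      congr 1
      group
    have h3 : ψ s (ψ f ζ) = ψ f (ψ (f⁻¹ * s * f⁻¹⁻¹) ζ) := congr($h2 ζ)
    rw [h1] at h3
    exact h3
  have h1 : ∀ f, Commute (ψ f) E := fun f =>
    hE.commute_of_maps (h0 f) (by rw [hψ f]; exact h0 f⁻¹)
  have hEE : E * E = E := hE.proj.isIdempotentElem.eq
  have h2 : ∀ f f', ψ f * E * (ψ f' * E) = ψ (f * f') * E := fun f f' => by
    rw [mul_assoc, ← mul_assoc E, ← (h1 f').eq, mul_assoc, hEE, ← mul_assoc, ← map_mul]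
  refine ⟨h1, fun f f' h => ?_⟩
  have h3 : ψ (f⁻¹ * f'⁻¹ * f⁻¹⁻¹ * f'⁻¹⁻¹) * E = E :=
    hE.fix ⟨_, ker_qs2 m (inv_qs2 m (inv_qs2 m h).symm).symm⟩
  change ψ f * E * (ψ f' * E) = ψ f' * E * (ψ f * E)
  rw [h2, h2, show f * f' = f' * f * (f⁻¹ * f'⁻¹ * f⁻¹⁻¹ * f'⁻¹⁻¹) by group, map_mul, mul_assoc,
    h3]

theorem cav_qs2 {B : Type*} [CStarAlgebra B] {ι : Type} [Fintype ι] {x : ι → B} {T : B} (c : ℝ)
    (h : ∀ i, Commute T (x i)) : Commute T (c • av x) :=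
  ((Commute.sum_right _ _ _ fun i _ => h i).smul_right _).smul_right _

theorem est_qs2 {ι : Type} [Fintype ι] (C : (H →L[ℂ] H) →⋆ₐ[ℂ] (K →L[ℂ] K)) {E₀ : K →L[ℂ] K}
    (hE : ‖E₀‖ ≤ 1) (x : ι → (K →L[ℂ] K)) (m : ι → (H →L[ℂ] H)) (A : H →L[ℂ] H) {δ θ : ℝ}
    (hδ : 0 ≤ δ) (h : ∀ i, ‖x i - C (m i) * E₀‖ ≤ 3 * δ) (hA : ‖(5 / 3 : ℝ) • av m - A‖ ≤ θ) :
    ‖(5 / 3 : ℝ) • av x - C A * E₀‖ ≤ 5 * δ + θ := by
  have e0 : ∀ X, C ((5 / 3 : ℝ) • X) = (5 / 3 : ℝ) • C X := fun X => by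
    rw [← Complex.coe_smul, map_smul, Complex.coe_smul]
  have e1 : (5 / 3 : ℝ) • av x - C A * E₀ =
      (5 / 3 : ℝ) • av (fun i => x i - C (m i) * E₀) + C ((5 / 3 : ℝ) • av m - A) * E₀ := by
    rw [av_sub, ← av_mul, map_sub, e0, map_av' C, sub_mul, smul_mul_assoc, smul_sub]
    abel
  have e2 : ‖(5 / 3 : ℝ) • av (fun i => x i - C (m i) * E₀)‖ ≤ 5 * δ := by
    rw [norm_smul, Real.norm_of_nonneg (by norm_num)]
    linarith [norm_av_le_of_le _ (by positivity) h]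
  have e3 : ‖C ((5 / 3 : ℝ) • av m - A) * E₀‖ ≤ θ :=
    (norm_mul_le _ _).trans ((mul_le_of_le_one_right (norm_nonneg _) hE).trans
      ((NonUnitalStarAlgHom.norm_apply_le C _).trans hA))
  rw [e1]
  exact (norm_add_le _ _).trans (add_le_add e2 e3)

end Aux

theorem stage2 : ∃ θ₀ : ℝ, 0 < θ₀ ∧
    ∀ (H : Type v) [NormedAddCommGroup H] [InnerProductSpace ℂ H] [CompleteSpace H]
      (H₁ : Type v) [NormedAddCommGroup H₁] [InnerProductSpace ℂ H₁] [CompleteSpace H₁]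
      (K : Type v) [NormedAddCommGroup K] [InnerProductSpace ℂ K] [CompleteSpace K]
      (g : GD H) (R : Type) [Fintype R] [Nonempty R] (s : R → g.G), Sym s →
      Subgroup.closure (Set.range s) = ⊤ → ∀ n : ℕ, 0 < n →
    ∀ (Θ : (H →L[ℂ] H) →⋆ₐ[ℂ] (H₁ →L[ℂ] H₁)) (θ : ℝ), θ ≤ θ₀ → ∀ (md : Model n θ Θ)
      (b : Bern (FG n × (Fin n ⊕ Fin n)) R H₁ K) (ω : FG n → (FG n × (Fin n ⊕ Fin n) → R) → g.G),
      IsCoc s ω → ∀ ψ : FG n →* (K →L[ℂ] K), URep ψ →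
      (∀ f, ‖ψ f - b.M (fun x => Θ (g.c (ω f x))) * b.w (lft f) * b.C (md.m f)‖ ≤ θ₀) →
    ∀ p : K →L[ℂ] K, IsStarProjection p → ‖p - b.C md.e‖ ≤ θ₀ → (∀ f, Commute p (ψ f)) →
      (∀ a ∈ g.PS, Commute (b.C (Θ (g.j a))) p ∧ ∀ f, Commute (b.C (Θ (g.j a))) (ψ f)) → False := by
  obtain ⟨θE, hθE, hend⟩ := end_lemma.{v}
  refine ⟨θE / 6, by positivity, ?_⟩
  intro H _ _ _ H₁ _ _ _ K _ _ _ g R _ _ s hs hgen n hn Θ θ hθ md b ω hω ψ hψ hψμ p hp hpe hpψ hj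
  let c₁ : g.G →* (H₁ →L[ℂ] H₁) := (Θ : (H →L[ℂ] H) →* (H₁ →L[ℂ] H₁)).comp g.c
  have hc₁ : URep c₁ := fun x => by
    change star (Θ (g.c x)) = Θ (g.c x⁻¹)
    rw [← map_star, g.crep x]
  have he₁ : IsFix c₁ (Θ g.e) := g.fix.amp md.amp
  obtain ⟨μ, hμ, hμ'⟩ := exists_tw b hω c₁ hc₁
  obtain ⟨hE₀, hμE⟩ := mix b hω hs hgen c₁ hc₁ he₁ μ hμ hμ'
    (i := Sum.inl ⟨0, hn⟩) (j := Sum.inr ⟨0, hn⟩) (by simp) md.m.ker (ker_qs2 md.m (md.mxy _ _))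
  set E₀ : K →L[ℂ] K := b.ι ∘L Θ g.e ∘L adjoint b.ι with hE₀def
  obtain ⟨E, hE⟩ := exists_fix (ψ.comp md.m.ker.subtype)
  have hψμ' : ∀ f, ‖ψ f - μ f * b.C (md.m f)‖ ≤ θE / 6 := fun f => by
    rw [hμ']
    exact hψμ f
  have hψS : URep (ψ.comp md.m.ker.subtype) := fun f => hψ f
  have hEE : ‖E - E₀‖ ≤ 2 * (θE / 6) := by
    refine hE.close hE₀ hψS (fun f => hμ f) fun f => ?_
    have h1 := hψμ' f
    rwa [MonoidHom.mem_ker.1 f.2, map_one, mul_one] at h1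
  obtain ⟨hψE, hcomm⟩ := fix_qs2 md.m ψ hψ hE
  have hCE : ∀ T, Commute T (Θ g.e) → Commute (b.C T) E₀ := fun T hT => by
    ext ζ
    have e1 : ∀ η, b.C T (b.ι η) = b.ι (T η) := fun η => congr($(b.itw T) η)
    have e2 : adjoint b.ι (b.C T ζ) = T (adjoint b.ι ζ) := congr($(b.itw.adj T) ζ)
    have e3 : ∀ η, T (Θ g.e η) = Θ g.e (T η) := fun η => congr($(hT.eq) η)
    change b.C T (b.ι (Θ g.e (adjoint b.ι ζ))) = b.ι (Θ g.e (adjoint b.ι (b.C T ζ)))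
    rw [e1, e2, e3]
  have hCμ : ∀ T, (∀ X, Commute T (Θ X)) → ∀ f, Commute (b.C T) (μ f) := fun T hT f => by
    rw [hμ']
    refine Commute.mul_right ?_ (b.commute_w _ _).symm
    rw [← b.const]
    exact b.commute_M (Loc.const _) ((hω.loc f).comp fun x => c₁ x) fun x => hT _
  have hE₀n : ‖E₀‖ ≤ 1 := hE₀.proj.norm_le
  have hE₀2 : E₀ * E₀ = E₀ := hE₀.proj.isIdempotentElem.eq
  have hψm : ∀ f, ‖ψ f * E - b.C (md.m f) * E₀‖ ≤ 3 * (θE / 6) := fun f => by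
    have e1 : μ f * b.C (md.m f) * E₀ = b.C (md.m f) * E₀ := by
      rw [← (hCμ _ (md.mc f) f).eq, mul_assoc, hμE]
    have e2 : ψ f * E - b.C (md.m f) * E₀ =
        ψ f * (E - E₀) + (ψ f - μ f * b.C (md.m f)) * E₀ := by
      rw [sub_mul, e1, mul_sub]
      abel
    have e3 : ‖ψ f * (E - E₀)‖ ≤ 2 * (θE / 6) :=
      (norm_mul_le _ _).trans ((mul_le_of_le_one_left (norm_nonneg _) (hψ.norm_le f)).trans hEE)
    have e4 : ‖(ψ f - μ f * b.C (md.m f)) * E₀‖ ≤ θE / 6 :=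
      (norm_mul_le _ _).trans ((mul_le_of_le_one_right (norm_nonneg _) hE₀n).trans (hψμ' f))
    rw [e2]
    linarith [norm_add_le (ψ f * (E - E₀)) ((ψ f - μ f * b.C (md.m f)) * E₀)]
  -- the commutant of the range of `Θ`
  have hst : ∀ {T : H₁ →L[ℂ] H₁}, (∀ X, Commute T (Θ X)) → ∀ X, Commute (star T) (Θ X) := by
    intro T hT X
    have := (hT (star X)).star_star
    rwa [← map_star, star_star] at this
  have hAA : ∀ X, Commute (star md.A * md.A) (Θ X) := fun X => (hst md.Ac X).mul_left (md.Ac X)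
  have hBB : ∀ X, Commute (star md.B * md.B) (Θ X) := fun X => (hst md.Bc X).mul_left (md.Bc X)
  have hrc : ∀ X, Commute md.r (Θ X) := fun X => by
    rw [md.req]
    exact ((md.ec X).mul_left (hAA X)).mul_left (hBB X)
  have hmul : ∀ (X : H₁ →L[ℂ] H₁) {Y : H₁ →L[ℂ] H₁}, (∀ T, Commute Y (Θ T)) →
      b.C X * E₀ * (b.C Y * E₀) = b.C (X * Y) * E₀ := fun X Y hY => by
    rw [mul_assoc, ← mul_assoc E₀, ← (hCE Y (hY _)).eq, mul_assoc, hE₀2, ← mul_assoc, map_mul]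
  have hstar : ∀ {X : H₁ →L[ℂ] H₁}, (∀ T, Commute X (Θ T)) →
      star (b.C X * E₀) = b.C (star X) * E₀ := fun {X} hX => by
    rw [star_mul, hE₀.proj.isSelfAdjoint.star_eq, ← map_star, (hCE _ (hst hX _)).eq]
  have hCp : ∀ {X : H₁ →L[ℂ] H₁}, IsStarProjection X → IsStarProjection (b.C X) := fun {X} hX =>
    ⟨by rw [IsIdempotentElem, ← map_mul, hX.isIdempotentElem.eq],
      by rw [IsSelfAdjoint, ← map_star, hX.isSelfAdjoint.star_eq]⟩
  have hss : ∀ {X : H₁ →L[ℂ] H₁}, (∀ T, Commute X (Θ T)) →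
      star (b.C X * E₀) * (b.C X * E₀) = b.C (star X * X) * E₀ := fun {X} hX => by
    rw [hstar hX, hmul _ hX]
  have hss' : ∀ {X : H₁ →L[ℂ] H₁}, (∀ T, Commute X (Θ T)) →
      (b.C X * E₀) * star (b.C X * E₀) = b.C (X * star X) * E₀ := fun {X} hX => by
    rw [hstar hX, hmul _ (hst hX)]
  have hnorm : ∀ {X Y : H₁ →L[ℂ] H₁}, (∀ T, Commute X (Θ T)) → ‖md.r * X * md.r - Y‖ ≤ θ →
      ‖b.C md.r * E₀ * (b.C X * E₀) * (b.C md.r * E₀) - b.C Y * E₀‖ ≤ θE := by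
    intro X Y hX h
    rw [hmul _ hX, hmul _ hrc, ← sub_mul, ← map_sub]
    refine (norm_mul_le _ _).trans ((mul_le_of_le_one_right (norm_nonneg _) hE₀n).trans
      ((NonUnitalStarAlgHom.norm_apply_le b.C _).trans (h.trans ?_)))
    linarith
  -- the subalgebra
  let N := vnC ((fun a => b.C (Θ (g.j a))) '' g.PS)
  have hN : ∀ x, x ∈ N.toStarSubalgebra ↔ ∀ a ∈ g.PS, Commute (b.C (Θ (g.j a))) x := by
    intro x
    refine mem_vnC.trans ⟨fun h a ha => (h _ ⟨a, ha, rfl⟩).1, ?_⟩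
    rintro h _ ⟨a, ha, rfl⟩
    refine ⟨h a ha, ?_⟩
    have := h _ (g.star_mem ha)
    rwa [g.isJ.star g.cyc g.tr ha.1, map_star, map_star] at this
  have hNC : ∀ {X : H₁ →L[ℂ] H₁}, (∀ T, Commute X (Θ T)) → b.C X ∈ N.toStarSubalgebra :=
    fun {X} hX => (hN _).2 fun a _ => (hX _).symm.map b.C
  have hNE₀ : E₀ ∈ N.toStarSubalgebra :=
    (hN _).2 fun a ha => hCE _ ((g.commute_right ha).map Θ)
  have hNa : ∀ f : Fin n → FG n, (5 / 3 : ℝ) • av (fun i => ψ (f i) * E) ∈ N.toStarSubalgebra :=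
    fun f => (hN _).2 fun a ha => cav_qs2 _ fun i =>
      ((hj a ha).2 _).mul_right (hE.commute hψS fun x => (hj a ha).2 _)
  have hpa : ∀ f : Fin n → FG n, Commute p ((5 / 3 : ℝ) • av (fun i => ψ (f i) * E)) :=
    fun f => cav_qs2 _ fun i => (hpψ _).mul_right (hE.commute hψS fun x => hpψ _)
  have hest : ∀ (f : Fin n → FG n) (A : H₁ →L[ℂ] H₁),
      ‖(5 / 3 : ℝ) • av (fun i => md.m (f i)) - A‖ ≤ θ →
      ‖(5 / 3 : ℝ) • av (fun i => ψ (f i) * E) - b.C A * E₀‖ ≤ θE := fun f A h => by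
    have := est_qs2 b.C hE₀n (fun i => ψ (f i) * E) (fun i => md.m (f i)) A (by positivity)
      (fun i => hψm _) h
    linarith
  -- the trace
  obtain ⟨τ, hτr, hτ⟩ := trace_qs2 g (fun k => b.ι ∘L md.ι k) (b.C.comp Θ)
    (fun k => (md.itw k).comp b.itw) (r := b.C md.r * E₀)
    (fun k => by
      rw [ContinuousLinearMap.adjoint_comp, ContinuousLinearMap.comp_assoc,
        ← ContinuousLinearMap.comp_assoc (adjoint b.ι), b.iso]
      exact md.self k)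
    (fun k l h => by
      rw [ContinuousLinearMap.adjoint_comp, ContinuousLinearMap.comp_assoc,
        ← ContinuousLinearMap.comp_assoc (adjoint b.ι), b.iso]
      exact md.ne k l h)
    (by
      ext ζ
      have e1 : ∀ η, b.C md.r (b.ι η) = b.ι (md.r η) := fun η => congr($(b.itw md.r) η)
      change b.C md.r (b.ι (Θ g.e (adjoint b.ι ζ))) = _
      rw [e1, ← md.sum, sum_apply, sum_apply, map_sum]
      refine Finset.sum_congr rfl fun k _ => ?_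
      have e2 : adjoint (md.ι k) (Θ g.e (adjoint b.ι ζ)) = g.e (adjoint (md.ι k) (adjoint b.ι ζ)) :=
        congr($((md.itw k).adj g.e) (adjoint b.ι ζ))
      rw [ContinuousLinearMap.adjoint_comp]
      change b.ι (md.ι k (adjoint (md.ι k) (Θ g.e (adjoint b.ι ζ)))) = _
      rw [e2]
      rfl)
  refine hend (K →L[ℂ] K) N.toStarSubalgebra (vn_isClosed N) τ
    ((5 / 3 : ℝ) • av fun i => ψ (FreeGroup.of (Sum.inl i)) * E)
    ((5 / 3 : ℝ) • av fun i => ψ (FreeGroup.of (Sum.inr i)) * E) p (b.C md.A * E₀) (b.C md.B * E₀)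
    (b.C md.e) (b.C md.r * E₀) (b.C md.u * E₀) (b.C md.v * E₀) md.ω (hNa _) (hNa _)
    ((hN _).2 fun a ha => (hj a ha).1) (mul_mem (hNC md.Ac) hNE₀) (mul_mem (hNC md.Bc) hNE₀)
    (hNC md.ec) (mul_mem (hNC md.uc) hNE₀) (mul_mem (hNC md.vc) hNE₀)
    (fun x hx y hy => hτ x y ((hN x).1 hx) ((hN y).1 hy))
    (by rw [hτr]; exact Nat.cast_ne_zero.2 Fintype.card_ne_zero) hp (hCp md.ep) ?_ ?_ ?_ ?_ ?_ ?_
    ?_ ?_ (hpa _) (hpa _) (by linarith) (hest _ _ md.avA) (hest _ _ md.avB)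
    (by rw [hss md.uc, md.u1]) (by rw [hss' md.uc, md.u2]) (by rw [hss md.vc, md.v1])
    (by rw [hss' md.vc, md.v2]) ?_ md.ω0 md.ω1 (hnorm md.Ac md.Au) (hnorm md.Bc md.Bv)
  · rw [hss md.Ac]
    exact (hCp md.Ap).mul hE₀.proj (hCE _ (hAA _))
  · rw [hss md.Bc]
    exact (hCp md.Bp).mul hE₀.proj (hCE _ (hBB _))
  · rw [hss md.Ac]
    exact (md.eA.map b.C).mul_right (hCE _ (md.ec _))
  · rw [hss md.Bc]
    exact (md.eB.map b.C).mul_right (hCE _ (md.ec _))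
  · rw [hss md.Ac, hss md.Bc]
    change _ * _ = _ * _
    rw [hmul _ hBB, hmul _ hAA, md.AB.eq]
  · rw [hss md.Ac, hss md.Bc, mul_assoc, hmul _ hBB, ← mul_assoc, ← map_mul, ← mul_assoc,
      ← md.req]
  · exact cav_qs2 _ fun j => (cav_qs2 _ fun i => (hcomm _ _ (md.mxy i j)).symm).symm
  · rw [star_smul, star_trivial, star_av]
    refine cav_qs2 _ fun j => (cav_qs2 _ fun i => ?_).symm
    rw [star_mul, hE.proj.isSelfAdjoint.star_eq, hψ, ← (hψE _).eq]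
    exact (hcomm _ _ (inv_qs2 md.m (md.mxy i j))).symm
  · rw [hmul _ md.vc, hmul _ md.uc, md.rel, map_smul, smul_mul_assoc]

end Ulam
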