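import Pool.Agent.P.MP_3be8c7_an.QS1
import Pool.Agent.P.MP_3be8c7_an.QS2
import Pool.Agent.P.MP_3be8c7_an.QNEX
import Pool.Agent.P.MP_3be8c7_an.QNI
import Pool.Agent.P.MP_3be8c7_an.QMOD
import Pool.Agent.P.MP_3be8c7_an.QBER
import Pool.Agent.P.MP_3be8c7_an.QGDE

open scoped ComplexOrder InnerProductSpace
open Filter Topology
open ContinuousLinearMap (adjoint)

noncomputable section

namespace Ulam

universe u v w

section

variable {H : Type v} [NormedAddCommGroup H] [InnerProductSpace ℂ H] [CompleteSpace H]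
variable {K : Type v} [NormedAddCommGroup K] [InnerProductSpace ℂ K] [CompleteSpace K]

theorem mono_qcore {S : Set (H →L[ℂ] H)} {M : VonNeumannAlgebra H} {a b : ℝ} (h : NearInc S M a)
    (hab : a ≤ b) : NearInc S M b := by
  intro I K _ _ _ ε hε ρ hρ
  obtain ⟨ρ', h1, h2⟩ := h I K ε hε ρ hρ
  exact ⟨ρ', h1, h2.trans (mul_le_mul_of_nonneg_right hab (norm_nonneg _))⟩

theorem scal_qcore {E R : Type} [Fintype R] [Nonempty R] [DecidableEq E] (b : Bern E R H K)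
    {t : (E → R) → ℂ} (ht : Loc t) {T : (E → R) → (H →L[ℂ] H)} (hT : Loc T) :
    Commute (b.M T) (b.M fun x => t x • (1 : H →L[ℂ] H)) :=
  b.commute_M hT (ht.comp fun z => z • (1 : H →L[ℂ] H)) fun _ =>
    (Commute.one_right _).smul_right _

theorem scalC_qcore {E R : Type} [Fintype R] [Nonempty R] [DecidableEq E] (b : Bern E R H K)
    {t : (E → R) → ℂ} (ht : Loc t) (T : H →L[ℂ] H) :
    Commute (b.C T) (b.M fun x => t x • (1 : H →L[ℂ] H)) :=
  b.const T ▸ scal_qcore b ht (Loc.const T)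

/-- The product of two commuting homomorphisms. -/
def pr_qcore {G B : Type*} [Monoid G] [Monoid B] (a c : G →* B)
    (h : ∀ f f', Commute (a f) (c f')) : G →* B where
  toFun f := a f * c f
  map_one' := by rw [map_one, map_one, mul_one]
  map_mul' f f' := by rw [map_mul, map_mul, (h f' f).mul_mul_mul_comm]

end

variable {D : Type u} [CStarAlgebra D] [PartialOrder D] [StarOrderedRing D]
variable {H : Type u} [NormedAddCommGroup H] [InnerProductSpace ℂ H] [CompleteSpace H]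

theorem core (hD : INDP D) (π : D →⋆ₐ[ℂ] (H →L[ℂ] H)) (N : VonNeumannAlgebra H)
    (hπ : ∀ a, π a ∈ N) (hK : KDense π N) {ξ : H} (h1 : ‖ξ‖ = 1) (hξ : TrVec N ξ) (hc : Cyc N ξ)
    {R : Type} [Fintype R] [Nonempty R] (s : R → (H →L[ℂ] H))
    (hs : ∀ ρ, s ρ ∈ N ∧ s ρ ∈ unitary (H →L[ℂ] H)) {c : ℝ} (h0 : 0 < c) (hg : Gap1 s c) :
    False := by
  obtain ⟨θ₀, hθ₀, st2⟩ := stage2.{u}
  have hγ : 0 < min θ₀ (1 / 2) := lt_min hθ₀ (by norm_num)
  obtain ⟨δ, hδ, hI⟩ := hD _ hγ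
  obtain ⟨θ, hθ, t1, t2, t3⟩ : ∃ θ : ℝ, 0 < θ ∧ θ ≤ θ₀ / 2 ∧ θ ≤ δ / 8 ∧ θ ≤ 1 / 4 :=
    ⟨min (θ₀ / 2) (min (δ / 8) (1 / 4)), by positivity, min_le_left _ _,
      (min_le_right _ _).trans (min_le_left _ _), (min_le_right _ _).trans (min_le_right _ _)⟩
  obtain ⟨n, hn, hmod⟩ := exists_model.{u} hθ
  have hη : (0 : ℝ) < 1 / (4 * n + 1) := by positivity
  obtain ⟨R', _, _, s', a1, a2, a3⟩ := gapw_of_gap1 N s hs h0 hg hη
  obtain ⟨g, s2, rfl, rfl, b1, b2, b3⟩ := exists_gd N h1 hξ hc s' a1 a2 a3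
  obtain ⟨H1, _, _, _, Θ, ⟨md⟩⟩ := hmod H
  obtain ⟨K, _, _, _, ⟨b⟩⟩ := exists_bern (FG n × (Fin n ⊕ Fin n)) R' H1
  obtain ⟨ω, hω⟩ := exists_coc (ι := Fin n ⊕ Fin n) s2
  obtain ⟨κ, hκ, hκ'⟩ := exists_tw b hω (Θ.toAlgHom.toRingHom.toMonoidHom.comp g.rr)
    fun x => (map_star Θ _).symm.trans (congrArg Θ (g.rrep x))
  replace hκ' : ∀ f, κ f = b.M (fun x => Θ (g.rr (ω f x))) * b.w (lft f) := hκ'
  obtain ⟨p, p1, p2, p3, p4, p5⟩ := stage1 g s2 b1 hη.le b3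
    (by rw [mul_one_div, div_lt_one (by positivity)]; linarith) (by linarith) md b hω κ hκ hκ'
  have lr : ∀ f, Loc fun x => Θ (g.rr (ω f x)) := fun f => (hω.loc f).comp fun y => Θ (g.rr y)
  have kc : ∀ f T, (∀ x, Commute (Θ (g.rr x)) T) → Commute (κ f) (b.C T) := fun f T h => by
    rw [hκ']
    exact Commute.mul_left (b.const T ▸ b.commute_M (lr f) (Loc.const T) fun x => h _)
      (b.commute_w _ T)
  let k1 : FG n →* (K →L[ℂ] K) := pr_qcore κ (b.C.toAlgHom.toRingHom.toMonoidHom.comp md.m)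
    fun f f' => kc f _ fun x => (md.mc f' _).symm
  have e1 : ∀ f, k1 f = κ f * b.C (md.m f) := fun _ => rfl
  have hk1 : URep k1 := fun f => by
    rw [e1, e1, star_mul, ← map_star, hκ f, md.urep f]
    exact (kc _ _ fun x => (md.mc _ _).symm).eq.symm
  have k1c : ∀ f T, (∀ x, Commute (g.rr x) T) → Commute (k1 f) (b.C (Θ T)) := fun f T h =>
    (kc f _ fun x => (h x).map Θ).mul_left ((md.mc f T).map b.C)
  let G : Set (K →L[ℂ] K) := {T | (∃ f, T = k1 f) ∨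
    (∃ t : (FG n × (Fin n ⊕ Fin n) → R') → ℂ, Loc t ∧
      T = b.M fun x => t x • (1 : H1 →L[ℂ] H1)) ∨ ∃ a ∈ g.PS, T = b.C (Θ (g.j a))}
  have hN : NearInc (Set.range ((b.C.comp Θ).comp π)) (vnC (insert p G)) δ := by
    refine mono_qcore (nearInc_proj _ G ?_ ?_ p1 ?_ ?_ p2) (by linarith)
    · rintro _ (⟨f, rfl⟩ | ⟨t, ht, rfl⟩ | ⟨a, ha, rfl⟩)
      · exact Or.inl ⟨_, hk1 f⟩
      · refine Or.inr (Or.inl ⟨fun x => star (t x), ht.comp star, ?_⟩)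
        rw [← b.star _ (ht.comp fun z => z • (1 : H1 →L[ℂ] H1))]
        congr 1
        funext x
        rw [Pi.star_apply, star_smul, star_one]
      · refine Or.inr (Or.inr ⟨star a, g.star_mem ha, ?_⟩)
        rw [← map_star, ← map_star, g.isJ.star g.cyc g.tr ha.1]
    · rintro _ (⟨f, rfl⟩ | ⟨t, ht, rfl⟩ | ⟨a, ha, rfl⟩) _ ⟨d, rfl⟩
      · exact k1c f _ fun x => g.rr_eq x ▸ g.isJ.commute g.cyc (g.lmem x) (hπ d)
      · exact (scalC_qcore b ht _).symm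
      · exact ((g.isJ.commute g.cyc ha.1 (hπ d)).map Θ).map b.C
    · rintro _ ⟨d, rfl⟩
      exact (md.ec _).map b.C
    · rintro _ (⟨f, rfl⟩ | ⟨t, ht, rfl⟩ | ⟨a, ha, rfl⟩)
      exacts [p3 f, p4 t ht, p5 a ha]
  obtain ⟨ψ0, c1, c2⟩ := hI K _ _ hN
  obtain ⟨Ψ, q1, q2, q3, q4⟩ := nex hπ hK (md.amp.comp b.isAmp) ψ0 _ c1 hγ.le
    ((min_le_right _ _).trans_lt (by norm_num)) c2
  let Ψ' : g.G →* (K →L[ℂ] K) :=
    { toFun := fun x => Ψ (g.l x)
      map_one' := by rw [map_one, q4]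
      map_mul' := fun x y => by rw [map_mul, q2 _ (g.lmem x) _ (g.lmem y)] }
  have hΨ : URep Ψ' := fun x => (q3 _ (g.lmem x)).symm.trans (congrArg Ψ (g.lrep x))
  have hm : ∀ x, ∀ T ∈ insert p G, Commute T (Ψ' x) := fun x T hT =>
    (mem_vnC.1 (q1 _ (g.lmem x)).1 T hT).1
  obtain ⟨ψ, d1, d2, d3⟩ := exists_tw' b hω k1 hk1 (fun f t ht => by
      have h2 : Loc fun x => t (x ∘ lft f) := ht.perm _
      rw [e1, hκ', mul_assoc, (scalC_qcore b ht _).eq, ← mul_assoc, mul_assoc _ (b.w _),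
        b.cov _ _ (ht.comp fun z => z • (1 : H1 →L[ℂ] H1)), ← mul_assoc,
        (scal_qcore b h2 (lr f)).eq]
      simp only [mul_assoc]) Ψ' hΨ
    (fun x f => (hm x _ (Or.inr (Or.inl ⟨f, rfl⟩))).symm)
    (fun x t ht => (hm x _ (Or.inr (Or.inr (Or.inl ⟨t, ht, rfl⟩)))).symm)
    (fun x => Θ (g.l x)) hγ.le (fun x => by
      rw [norm_sub_rev]
      exact (q1 _ (g.lmem x)).2.trans (mul_le_of_le_one_right hγ.le (g.lrep.norm_le x)))
  refine st2 H H1 K g R' s2 b1 b2 n hn Θ θ (by linarith) md b ω hω ψ d1 (fun f => ?_) p p1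
    (by linarith) (d3 p (fun f => (p3 f).symm) (fun x => hm x p (Or.inl rfl))
      fun t ht => (p4 t ht).symm) fun a ha => ⟨p5 a ha, d3 _
        (fun f => (k1c f _ fun x => (g.commute_rr ha x).symm).symm)
        (fun x => hm x _ (Or.inr (Or.inr (Or.inr ⟨a, ha, rfl⟩)))) fun t ht => scalC_qcore b ht _⟩
  refine le_trans (le_of_eq ?_) ((d2 f).trans (min_le_left _ _))
  have e2 : (fun x => Θ (g.c (ω f x))) = (fun x => Θ (g.l (ω f x))) * fun x => Θ (g.rr (ω f x)) :=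
    funext fun x => by rw [g.c_eq, map_mul, Pi.mul_apply]
  rw [e1, hκ', e2, b.mul _ _ ((hω.loc f).comp fun y => Θ (g.l y)) (lr f)]
  simp only [mul_assoc]

end Ulam
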