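import Pool.Agent.P.MP_3be8c7_an.REP0
import Pool.Agent.P.MP_3be8c7_an.HBC

open scoped ComplexOrder InnerProductSpace
open Filter Topology

noncomputable section

namespace Ulam

universe u v w

section
variable {R : Type w} [CStarAlgebra R] [PartialOrder R] [StarOrderedRing R]

theorem mid_repm (p q : R) : star ((2 : ℝ)⁻¹ • (p + q)) * ((2 : ℝ)⁻¹ • (p + q)) ≤
    (2 : ℝ)⁻¹ • (star p * p + star q * q) := by
  rw [← sub_nonneg]
  refine (star_mul_self_nonneg ((2 : ℝ)⁻¹ • (p - q))).trans_eq ?_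
  simp only [star_smul, star_trivial, star_add, star_sub, smul_mul_assoc, mul_smul_comm, add_mul,
    mul_add, sub_mul, mul_sub]
  module

theorem vsum_mid_repm {L : Type} (σ : Fin 4 → Equiv.Perm L) (x a a' : L × Fin 4 → R) (l : L) :
    vsum σ ((2 : ℝ)⁻¹ • (a + a')) (x - (2 : ℝ)⁻¹ • (a + a')) l ≤
      (2 : ℝ)⁻¹ • (vsum σ a (x - a) l + vsum σ a' (x - a') l) := by
  have e : x - (2 : ℝ)⁻¹ • (a + a') = (2 : ℝ)⁻¹ • ((x - a) + (x - a')) := by module
  rw [e, vsum, vsum, vsum]
  refine (add_le_add (Finset.sum_le_sum fun s _ => mid_repm _ _)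
    (Finset.sum_le_sum fun s _ => mid_repm _ _)).trans_eq ?_
  simp only [← Finset.smul_sum, Finset.sum_add_distrib]
  module

theorem vsum_nonneg_repm {L : Type} (σ : Fin 4 → Equiv.Perm L) (a b : L × Fin 4 → R) (l : L) :
    0 ≤ vsum σ a b l :=
  add_nonneg (Finset.sum_nonneg fun _ _ => star_mul_self_nonneg _)
    (Finset.sum_nonneg fun _ _ => star_mul_self_nonneg _)

end

open scoped MatrixOrder Matrix.Norms.L2Operator in
theorem dens_repm {I : Type} [Fintype I] [DecidableEq I] (ρ : Matrix I I ℂ →ₚ[ℂ] ℂ) :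
    ∃ T : Matrix I I ℂ, T.PosSemidef ∧ ∀ y, ρ y = (T * y).trace := by
  have h : ∀ y : Matrix I I ℂ,
      ρ y = ((Matrix.of fun k j => ρ (Matrix.single j k 1)) * y).trace := fun y => by
    nth_rewrite 1 [Matrix.matrix_eq_sum_single y]
    simp only [map_sum, Matrix.trace, Matrix.diag, Matrix.mul_apply, Matrix.of_apply]
    rw [Finset.sum_comm]
    refine Finset.sum_congr rfl fun j _ => Finset.sum_congr rfl fun k _ => ?_
    rw [mul_comm, ← smul_eq_mul, ← map_smul, Matrix.smul_single, smul_eq_mul, mul_one]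
  refine ⟨_, Matrix.posSemidef_iff_dotProduct_mulVec.2 ⟨?_, fun v => ?_⟩, h⟩
  · ext j k
    rw [Matrix.conjTranspose_apply, Matrix.of_apply, Matrix.of_apply, ← map_star,
      Matrix.star_eq_conjTranspose, Matrix.conjTranspose_single, star_one]
  · have := map_nonneg ρ (Matrix.posSemidef_vecMulVec_self_star v).nonneg
    rw [h, Matrix.mul_vecMulVec, Matrix.trace_vecMulVec, dotProduct_comm] at this
    exact this

open scoped MatrixOrder Matrix.Norms.L2Operator in
theorem repm {L : Type} [Fintype L] [Nonempty L] {σ : Fin 4 → Equiv.Perm L} {C : ℝ} (hC : 0 < C)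
    (hσ : Poinc σ C) {I : Type} [Fintype I] [DecidableEq I] (x : L × Fin 4 → Matrix I I ℂ)
    (hx : ∀ e, Contr (x e)) {η : ℝ} (h0 : 0 ≤ η) (h4 : η ≤ 1 / 4)
    (hη : (η • (1 : Matrix I I ℂ) - av fun e => star (x e) * x e).PosSemidef)
    {γ : ℝ} (hγ : 0 < γ) :
    ∃ a : L × Fin 4 → Matrix I I ℂ,
      (∀ l, ((2 * c0 C + γ) • (1 : Matrix I I ℂ) - vsum σ a (x - a) l).PosSemidef) ∧
      ((4 * η + γ) • (1 : Matrix I I ℂ) - av (vsum σ a (x - a))).PosSemidef := by
  have hs : ∀ t : ℝ, IsSelfAdjoint (t • (1 : Matrix I I ℂ)) := fun t =>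
    (IsSelfAdjoint.all t).smul (IsSelfAdjoint.one _)
  obtain ⟨a, ha⟩ := hbc (D := Matrix I I ℂ) (fun (a : L × Fin 4 → Matrix I I ℂ) (i : Option L) =>
    i.elim (av (vsum σ a (x - a)) - (4 * η) • 1) fun l => vsum σ a (x - a) l - (2 * c0 C) • 1)
    (by
      rintro a (_ | l)
      · exact (av_nonneg' (vsum_nonneg_repm σ _ _)).isSelfAdjoint.sub (hs _)
      · exact (vsum_nonneg_repm σ _ _ l).isSelfAdjoint.sub (hs _))
    (fun a a' => ⟨(2 : ℝ)⁻¹ • (a + a'), by
      rintro (_ | l)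
      · have := av_mono (vsum_mid_repm σ x a a')
        rw [av_real_smul, av_add] at this
        exact (sub_le_sub_right this _).trans_eq (by simp only [Option.elim]; module)
      · exact (sub_le_sub_right (vsum_mid_repm σ x a a' l) _).trans_eq
          (by simp only [Option.elim]; module)⟩)
    (fun ρ δ hδ => by
      choose T hT hρ using fun i => dens_repm (ρ i)
      obtain ⟨a, ha⟩ := rep0 hC hσ x hx h0 h4 hη (fun l => T (some l)) (fun l => hT _) (T none)
        (hT _)
      refine ⟨a, le_trans ?_ hδ.le⟩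
      simp only [Fintype.sum_option, Option.elim, hρ, mul_sub, Matrix.mul_smul, mul_one,
        Matrix.trace_sub, Matrix.trace_smul, Complex.sub_re, Complex.smul_re, smul_eq_mul,
        Finset.sum_sub_distrib, ← Finset.mul_sum]
      linarith) hγ
  refine ⟨a, fun l => Matrix.le_iff.1 ?_, Matrix.le_iff.1 ?_⟩
  · rw [add_smul]
    exact sub_le_iff_le_add'.1 (ha (some l))
  · rw [add_smul]
    exact sub_le_iff_le_add'.1 (ha none)

end Ulam
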