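import Pool.Agent.P.MP_3be8c7_an.RAND

open scoped ComplexOrder InnerProductSpace
open Filter Topology

noncomputable section

namespace Ulam

universe u v w

variable {R : Type w} [CStarAlgebra R] [PartialOrder R] [StarOrderedRing R]

theorem num_trunc {K t : ℝ} (hK : 0 < K) (ht : 0 ≤ t) :
    K / max K √t * t * (K / max K √t) ≤ K ^ 2 ∧ K / max K √t * t * (K / max K √t) ≤ t ∧
      (1 - K / max K √t) * (1 - K / max K √t) ≤ (K ^ 2)⁻¹ * t := by
  have h0 : 0 < max K √t := lt_max_of_lt_left hK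
  have h1 : K / max K √t ≤ 1 := (div_le_one h0).2 (le_max_left _ _)
  have h2 : 0 ≤ K / max K √t := by positivity
  have h3 : K / max K √t * √t ≤ K := by
    rw [div_mul_eq_mul_div, div_le_iff₀ h0]
    exact mul_le_mul_of_nonneg_left (le_max_right _ _) hK.le
  refine ⟨?_, ?_, ?_⟩
  · have := pow_le_pow_left₀ (by positivity) h3 2
    rw [mul_pow, Real.sq_sqrt ht] at this
    linarith
  · exact (mul_le_of_le_one_right (by positivity) h1).trans (mul_le_of_le_one_left ht h1)
  · rcases le_total (√t) K with h | h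
    · rw [max_eq_left h, div_self hK.ne', sub_self, mul_zero]
      positivity
    · have h4 : 1 ≤ (K ^ 2)⁻¹ * t := by
        rw [le_inv_mul_iff₀ (by positivity), mul_one]
        exact (Real.le_sqrt hK.le ht).1 h
      nlinarith

theorem pt_trunc {K : ℝ} (hK : 0 < K) (a : R) : ∃ b : R, ‖b‖ ≤ K ∧ star b * b ≤ star a * a ∧
    star (a - b) * (a - b) ≤ (K ^ 2)⁻¹ • (star a * a * star a * a) ∧
    (a - b) * star (a - b) ≤ (K ^ 2)⁻¹ • (a * star a * a * star a) := by
  have hh : 0 ≤ star a * a := star_mul_self_nonneg a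
  have hs : IsSelfAdjoint (star a * a) := .of_nonneg hh
  have sp : ∀ t ∈ spectrum ℝ (star a * a), 0 ≤ t := fun t ht => spectrum_nonneg_of_nonneg hh ht
  have cf : Continuous fun t : ℝ => K / max K √t :=
    continuous_const.div (by fun_prop) fun t => (lt_max_of_lt_left hK).ne'
  have key : ∀ g : ℝ → ℝ, Continuous g →
      star (a * cfc g (star a * a)) * (a * cfc g (star a * a)) =
        cfc (fun t => g t * t * g t) (star a * a) := fun g hg => by
    rw [cfc_mul _ _ _ (by fun_prop) (by fun_prop), cfc_mul _ _ _ (by fun_prop) (by fun_prop),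
      cfc_id' ℝ (star a * a), star_mul, (cfc_predicate g (star a * a) : IsSelfAdjoint _).star_eq]
    simp only [mul_assoc]
  have e : a - a * cfc (fun t : ℝ => K / max K √t) (star a * a) =
      a * cfc (fun t : ℝ => 1 - K / max K √t) (star a * a) := by
    rw [cfc_sub _ _ _ (by fun_prop) cf.continuousOn, cfc_const_one ℝ (star a * a), mul_sub, mul_one]
  have ck : Continuous fun t : ℝ => 1 - K / max K √t := continuous_const.sub cf
  have hk : cfc (fun t : ℝ => 1 - K / max K √t) (star a * a) *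
      cfc (fun t : ℝ => 1 - K / max K √t) (star a * a) ≤ (K ^ 2)⁻¹ • (star a * a) := by
    rw [← cfc_mul _ _ _ ck.continuousOn ck.continuousOn, ← cfc_const_mul_id (K ^ 2)⁻¹ (star a * a)]
    exact cfc_mono (fun t ht => (num_trunc hK (sp t ht)).2.2) (ck.mul ck).continuousOn
  refine ⟨a * cfc (fun t : ℝ => K / max K √t) (star a * a), ?_, ?_, ?_, ?_⟩
  · refine (pow_le_pow_iff_left₀ (norm_nonneg _) hK.le two_ne_zero).1 ?_
    rw [sq, ← CStarRing.norm_star_mul_self, key _ cf]
    refine norm_cfc_le (by positivity) fun t ht => ?_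
    have := sp t ht
    rw [Real.norm_of_nonneg (by positivity)]
    exact (num_trunc hK this).1
  · rw [key _ cf]
    refine le_of_le_of_eq (cfc_mono (fun t ht => (num_trunc hK (sp t ht)).2.1)
      ((cf.mul continuous_id).mul cf).continuousOn) (cfc_id' ℝ (star a * a))
  · rw [e, key _ ck, mul_assoc (star a * a), ← cfc_id' ℝ (a := star a * a)]
    rw [← cfc_mul _ _ _ (by fun_prop) (by fun_prop), ← cfc_const_mul _ _ _ (by fun_prop),
      cfc_id' ℝ (a := star a * a)]
    refine cfc_mono (fun t ht => ?_) ((ck.mul continuous_id).mul ck).continuousOn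
    have h1 := mul_le_mul_of_nonneg_right (num_trunc hK (sp t ht)).2.2 (sp t ht)
    linarith
  · have h1 := star_right_conjugate_le_conjugate hk a
    rw [e, star_mul, (cfc_predicate (fun t : ℝ => 1 - K / max K √t) (star a * a) :
      IsSelfAdjoint _).star_eq]
    simpa only [mul_assoc, mul_smul_comm, smul_mul_assoc] using h1

theorem nrm_trunc {x y s : R} {t u : ℝ} (ht : 0 ≤ t) (hx : 0 ≤ x) (hs : 0 ≤ s)
    (h : x ≤ t • y) (hy : y ≤ s * s + u • s) (hu : 0 ≤ u) :
    ‖x‖ ≤ t * (‖s‖ * ‖s‖ + u * ‖s‖) := by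
  refine (CStarAlgebra.norm_le_norm_of_nonneg_of_le hx
    (h.trans (smul_le_smul_of_nonneg_left hy ht))).trans ?_
  rw [norm_smul, Real.norm_of_nonneg ht]
  refine mul_le_mul_of_nonneg_left ((norm_add_le _ _).trans (add_le_add (norm_mul_le _ _) ?_)) ht
  rw [norm_smul, Real.norm_of_nonneg hu]

theorem exists_trunc {κ : Type} [Fintype κ] [DecidableEq κ] (r : Rand κ) (c : κ → R) {C K : ℝ}
    (hC : 0 ≤ C) (hK : 0 < K) (hcol : ‖∑ i, star (c i) * c i‖ ≤ 1)
    (hrow : ‖∑ i, c i * star (c i)‖ ≤ C) :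
    ∃ b : r.Ω → R, (∀ o, ‖b o‖ ≤ K) ∧ ‖av fun o => star (b o) * b o‖ ≤ 1 ∧
      ‖av fun o => star (r.sum c o - b o) * (r.sum c o - b o)‖ ≤ (1 + C) / K ^ 2 ∧
      ‖av fun o => (r.sum c o - b o) * star (r.sum c o - b o)‖ ≤ C * (1 + C) / K ^ 2 := by
  choose b b1 b2 b3 b4 using fun o => pt_trunc hK (r.sum c o)
  have hK2 : 0 ≤ (K ^ 2)⁻¹ := by positivity
  refine ⟨b, b1, ?_, ?_, ?_⟩
  · have h := r.av_two c c 1
    simp only [mul_one] at h
    exact (CStarAlgebra.norm_le_norm_of_nonneg_of_le (av_nonneg' fun o => star_mul_self_nonneg _)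
      ((av_mono b2).trans_eq h)).trans hcol
  · refine (nrm_trunc hK2 (av_nonneg' fun o => star_mul_self_nonneg _)
      (Finset.sum_nonneg fun i _ => star_mul_self_nonneg _)
      ((av_mono b3).trans_eq (av_real_smul _ _)) (r.av_four_le c c) (norm_nonneg _)).trans ?_
    rw [div_eq_inv_mul]
    refine mul_le_mul_of_nonneg_left ?_ hK2
    have h1 := mul_le_mul hcol hcol (norm_nonneg _) zero_le_one
    have h2 := mul_le_mul hrow hcol (norm_nonneg _) hC
    linarith
  · refine (nrm_trunc hK2 (av_nonneg' fun o => mul_star_self_nonneg _)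
      (Finset.sum_nonneg fun i _ => mul_star_self_nonneg _)
      ((av_mono b4).trans_eq (av_real_smul _ _)) (r.av_four_le' c) (norm_nonneg _)).trans ?_
    rw [div_eq_inv_mul]
    refine mul_le_mul_of_nonneg_left ?_ hK2
    have h1 := mul_le_mul hrow hrow (norm_nonneg _) hC
    have h2 := mul_le_mul hcol hrow (norm_nonneg _) zero_le_one
    linarith

end Ulam
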