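import Pool.Agent.P.MP_3be8c7_an.HBC
import Pool.Agent.P.MP_3be8c7_an.TRUNC
import Pool.Agent.P.MP_3be8c7_an.OZB

open scoped ComplexOrder InnerProductSpace
open Filter Topology

noncomputable section

namespace Ulam

universe u v w

/-- Finite families of structure data with a contraction. -/
structure Fam_stark (D : Type u) [CStarAlgebra D] where
  J : Type
  [fJ : Fintype J]
  [nJ : Nonempty J]
  s : J → SData D D
  c : J → D
  hc : ∀ j, ‖c j‖ ≤ 1

attribute [instance] Fam_stark.fJ Fam_stark.nJ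

section

variable {D : Type u} [CStarAlgebra D]

/-- The map of a family. -/
def mp_stark (x : Fam_stark D) (a : D) : D :=
  av fun j => star (x.c j) * hpsi (x.s j).v ((x.s j).θ a) * x.c j

theorem mid_stark (x x' : Fam_stark D) :
    ∃ y : Fam_stark D, ∀ a, mp_stark y a = (2 : ℝ)⁻¹ • (mp_stark x a + mp_stark x' a) := by
  refine ⟨{ J := (x.J × x'.J) ⊕ (x.J × x'.J)
            s := Sum.elim (fun p => x.s p.1) fun p => x'.s p.2
            c := Sum.elim (fun p => x.c p.1) fun p => x'.c p.2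
            hc := ?_ }, fun a => ?_⟩
  · rintro (p | p)
    · exact x.hc _
    · exact x'.hc _
  · unfold mp_stark
    rw [← av_mid]
    refine congrArg av (funext ?_)
    rintro (p | p) <;> rfl

/-- The real part of `e • z`. -/
def hm_stark (e : ℂ) (z : D) : D := (2 : ℝ)⁻¹ • (e • z + star (e • z))

theorem hm_sa_stark (e : ℂ) (z : D) : IsSelfAdjoint (hm_stark e z) := by
  unfold hm_stark
  rw [IsSelfAdjoint, star_smul, star_add, star_star, star_trivial, add_comm]

theorem hm_mid_stark (e : ℂ) (z z' : D) :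
    hm_stark e ((2 : ℝ)⁻¹ • (z + z')) = (2 : ℝ)⁻¹ • (hm_stark e z + hm_stark e z') := by
  unfold hm_stark
  rw [smul_comm e, star_smul, star_trivial, smul_add e, star_add]
  module

theorem hm_neg_stark (e : ℂ) (z : D) : hm_stark (-e) z = -hm_stark e z := by
  unfold hm_stark
  rw [neg_smul, star_neg]
  module

theorem hm_dec_stark (z : D) : z = hm_stark 1 z + Complex.I • hm_stark (-Complex.I) z := by
  unfold hm_stark
  rw [smul_comm Complex.I, one_smul, star_smul, smul_add Complex.I, smul_smul, smul_smul]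
  simp only [mul_neg, Complex.I_mul_I, neg_neg, one_smul, star_neg, Complex.star_def,
    Complex.conj_I, neg_smul]
  module

variable [PartialOrder D] [StarOrderedRing D]

theorem norm_sa_stark {a : D} {t : ℝ} (ht : 0 ≤ t) (h1 : a ≤ t • (1 : D))
    (h2 : -a ≤ t • (1 : D)) : ‖a‖ ≤ 3 * t := by
  have h3 : 0 ≤ a + t • (1 : D) := neg_le_iff_add_nonneg'.1 h2
  have h4 : ‖a + t • (1 : D)‖ ≤ 2 * t := by
    rw [CStarAlgebra.norm_le_iff_le_algebraMap _ (by positivity) h3,
      Algebra.algebraMap_eq_smul_one, two_mul, add_smul]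
    exact add_le_add_left h1 _
  have h5 : ‖t • (1 : D)‖ ≤ t := by
    rw [norm_smul, Real.norm_of_nonneg ht]
    exact mul_le_of_le_one_right ht ((CStarAlgebra.norm_le_one_iff_of_nonneg _ zero_le_one).2 le_rfl)
  have h6 := norm_sub_le (a + t • (1 : D)) (t • (1 : D))
  rw [add_sub_cancel_right] at h6
  linarith

theorem hm_re_stark (ρ : D →ₚ[ℂ] ℂ) (e : ℂ) (z : D) :
    (ρ (hm_stark e z)).re = (ρ (e • z)).re := by
  unfold hm_stark
  rw [← Complex.coe_smul, map_smul, map_add, pos_star]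
  simp
  ring

theorem est_stark (s : SData D D) {K : ℝ} (hK : 0 < K) : ∃ x : Fam_stark D, ∀ a : D, ‖a‖ ≤ 1 →
    ‖s.ev a - (K ^ 2) • mp_stark x a‖ ≤ 8 / K := by
  classical
  obtain ⟨r⟩ := exists_rand s.κ
  obtain ⟨b, b1, b2, b3, -⟩ := exists_trunc r s.c (C := 9) (by norm_num) hK s.col s.row
  refine ⟨{ J := r.Ω, s := fun _ => s, c := fun o => K⁻¹ • b o, hc := fun o => ?_ },
    fun a ha => ?_⟩
  · rw [norm_smul, norm_inv, Real.norm_of_nonneg hK.le]
    exact inv_mul_le_one_of_le₀ (b1 o) hK.le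
  have hy : ‖hpsi s.v (s.θ a)‖ ≤ 1 := s.oz.norm_hpsi_le (s.ccp.contr ha)
  have e0 : ‖av fun o => star (r.sum s.c o) * r.sum s.c o‖ ≤ 1 := by
    have := r.av_two s.c s.c 1
    simp only [mul_one] at this
    rw [this]
    exact s.col
  have e1 : √‖av fun o => star (r.sum s.c o - b o) * (r.sum s.c o - b o)‖ ≤ 4 / K := by
    refine Real.sqrt_le_iff.2 ⟨by positivity, b3.trans ?_⟩
    rw [div_pow]
    gcongr
    norm_num
  have e2 := norm_av_sandwich_le (fun o => r.sum s.c o - b o) (r.sum s.c) (hpsi s.v (s.θ a))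
  have e3 := norm_av_sandwich_le b (fun o => r.sum s.c o - b o) (hpsi s.v (s.θ a))
  have e4 : s.ev a - (K ^ 2) • av (fun o => star (K⁻¹ • b o) * hpsi s.v (s.θ a) * (K⁻¹ • b o)) =
      av (fun o => star (r.sum s.c o - b o) * hpsi s.v (s.θ a) * r.sum s.c o) +
        av fun o => star (b o) * hpsi s.v (s.θ a) * (r.sum s.c o - b o) := by
    rw [SData.ev, ← r.av_two, ← av_real_smul, ← av_sub, ← av_add]
    refine congrArg av (funext fun o => ?_)
    rw [star_smul, star_trivial K⁻¹, smul_mul_assoc, smul_mul_assoc, mul_smul_comm, smul_smul,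
      smul_smul, show K ^ 2 * K⁻¹ * K⁻¹ = 1 by field_simp, one_smul, star_sub]
    noncomm_ring
  have e5 := Real.sqrt_le_one.2 e0
  have e6 := Real.sqrt_le_one.2 b2
  refine (congrArg norm e4).trans_le ((norm_add_le _ _).trans ?_)
  have e7 : (8 : ℝ) / K = 1 * (4 / K) * 1 + 1 * 1 * (4 / K) := by ring
  rw [e7]
  refine add_le_add (e2.trans ?_) (e3.trans ?_) <;> gcongr

end

theorem stark {δ : ℝ} (hδ : 0 < δ) : ∃ K : ℝ, 1 ≤ K ∧
    ∀ (D : Type u) [CStarAlgebra D] [PartialOrder D] [StarOrderedRing D], STR D →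
    ∀ U : Finset D, (∀ u ∈ U, u ∈ unitary D) →
    ∃ (J : Type) (_ : Fintype J) (_ : Nonempty J) (s : J → SData D D) (c : J → D),
      (∀ j, ‖c j‖ ≤ 1) ∧
      ∀ u ∈ U, ‖u - K • av fun j => star (c j) * hpsi (s j).v ((s j).θ u) * c j‖ ≤ δ := by
  have hK1 : 1 ≤ 96 / δ + 1 := le_add_of_nonneg_left (by positivity)
  have hK2 : 8 / (96 / δ + 1) ≤ δ / 12 := by
    rw [div_le_div_iff₀ (by positivity) (by positivity), mul_add, mul_div_cancel₀ _ hδ.ne']
    linarith
  generalize 96 / δ + 1 = K at hK1 hK2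
  refine ⟨K ^ 2, one_le_pow₀ hK1, fun D _ _ _ hD U hU => ?_⟩
  let e : Fin 4 → ℂ := ![1, -1, -Complex.I, -(-Complex.I)]
  have he : ∀ i, ‖e i‖ = 1 := fun i => by fin_cases i <;> simp [e]
  obtain ⟨x, hx⟩ := hbc (ι := U × Fin 4) (X := Fam_stark D)
    (fun x i => hm_stark (e i.2) (i.1.1 - (K ^ 2) • mp_stark x i.1.1) - (δ / 12) • (1 : D))
    (fun x i => (hm_sa_stark _ _).sub ((IsSelfAdjoint.all _).smul (IsSelfAdjoint.one D)))
    (fun x x' => by
      obtain ⟨y, hy⟩ := mid_stark x x'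
      refine ⟨y, fun i => le_of_eq ?_⟩
      rw [hy, show i.1.1 - (K ^ 2) • (2 : ℝ)⁻¹ • (mp_stark x i.1.1 + mp_stark x' i.1.1) =
        (2 : ℝ)⁻¹ • ((i.1.1 - (K ^ 2) • mp_stark x i.1.1) +
          (i.1.1 - (K ^ 2) • mp_stark x' i.1.1)) by module, hm_mid_stark]
      module)
    (fun ρ δ' hδ' => by
      let σ : D →ₚ[ℂ] ℂ := PositiveLinearMap.mk₀
        { toFun := fun a => ∑ i, ρ i a
          map_add' := fun a b => by simp [Finset.sum_add_distrib]
          map_smul' := fun c a => by simp [Finset.mul_sum] }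
        fun a ha => Finset.sum_nonneg fun i _ => map_nonneg (ρ i) ha
      have h0 : ∀ i, ∀ a : D, 0 ≤ a → 0 ≤ (ρ i a).re := fun i a ha =>
        (Complex.nonneg_iff.1 (map_nonneg (ρ i) ha)).1
      have h1 : ∀ i, ∀ a : D, 0 ≤ a → (ρ i a).re ≤ (σ a).re := fun i a ha => by
        change _ ≤ (∑ i, ρ i a).re
        rw [Complex.re_sum]
        exact Finset.single_le_sum (fun j _ => h0 j a ha) (Finset.mem_univ i)
      have hM : 0 ≤ (σ 1).re := (Complex.nonneg_iff.1 (map_nonneg σ zero_le_one)).1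
      obtain ⟨t, ht, hN⟩ : ∃ t : ℝ, 0 < t ∧ (Fintype.card (U × Fin 4) : ℝ) * t ≤ δ' := by
        refine ⟨δ' / (Fintype.card (U × Fin 4) + 1), by positivity, ?_⟩
        rw [← mul_div_assoc, div_le_iff₀ (by positivity)]
        linarith
      obtain ⟨s, hs⟩ := hD σ U hU (t ^ 2 / ((σ 1).re + 1)) (by positivity)
      obtain ⟨x, hx⟩ := est_stark s (zero_lt_one.trans_le hK1)
      refine ⟨x, le_trans ?_ hN⟩
      rw [← nsmul_eq_mul, ← Finset.card_univ]
      refine Finset.sum_le_card_nsmul _ _ _ fun i _ => ?_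
      obtain ⟨⟨u, hu⟩, i'⟩ := i
      have hu1 : ‖u‖ ≤ 1 := by
        have := (CStarAlgebra.norm_le_one_iff_of_nonneg (star u * u) (star_mul_self_nonneg u)).2
          (hU u hu).1.le
        rw [CStarRing.norm_star_mul_self] at this
        nlinarith [norm_nonneg u]
      have a1 : ‖ρ (⟨u, hu⟩, i') (u - s.ev u)‖ ≤ t := by
        refine (pow_le_pow_iff_left₀ (norm_nonneg _) ht.le two_ne_zero).1 ((pos_cs _ _).trans ?_)
        refine (mul_le_mul (h1 _ 1 zero_le_one) ((h1 _ _ (star_mul_self_nonneg _)).trans (hs u hu))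
          (h0 _ _ (star_mul_self_nonneg _)) hM).trans ?_
        rw [← mul_div_assoc, div_le_iff₀ (by positivity)]
        nlinarith [sq_nonneg t]
      have a2 := pos_re_le_norm (ρ (⟨u, hu⟩, i')) (e i' • (s.ev u - (K ^ 2) • mp_stark x u))
      rw [norm_smul, he, one_mul] at a2
      have a3 := mul_le_mul_of_nonneg_right ((hx u hu1).trans hK2) (h0 (⟨u, hu⟩, i') 1 zero_le_one)
      have a4 : (ρ (⟨u, hu⟩, i') (e i' • (u - s.ev u))).re ≤ t := by
        refine (Complex.re_le_norm _).trans ?_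
        rwa [map_smul, norm_smul, he, one_mul]
      rw [map_sub, Complex.sub_re, hm_re_stark, ← sub_add_sub_cancel u (s.ev u), smul_add, map_add,
        Complex.add_re, ← Complex.coe_smul (δ / 12), map_smul _ ((δ / 12 : ℝ) : ℂ), smul_eq_mul,
        Complex.re_ofReal_mul]
      linarith)
    (show 0 < δ / 12 by positivity)
  refine ⟨x.J, inferInstance, inferInstance, x.s, x.c, x.hc, fun u hu => ?_⟩
  have hz : ∀ i, hm_stark (e i) (u - (K ^ 2) • mp_stark x u) ≤ (δ / 6) • (1 : D) := fun i => by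
    have := sub_le_iff_le_add.1 (hx (⟨u, hu⟩, i))
    rwa [← add_smul, show δ / 12 + δ / 12 = δ / 6 by ring] at this
  have b1 := norm_sa_stark (by positivity) (hz 0) ((hm_neg_stark 1 _).symm.trans_le (hz 1))
  have b2 := norm_sa_stark (by positivity) (hz 2)
    ((hm_neg_stark (-Complex.I) _).symm.trans_le (hz 3))
  change ‖u - (K ^ 2) • mp_stark x u‖ ≤ δ
  rw [hm_dec_stark (u - (K ^ 2) • mp_stark x u)]
  refine (norm_add_le _ _).trans ?_
  rw [norm_smul, Complex.norm_I, one_mul]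
  exact (add_le_add b1 b2).trans_eq (by ring)

end Ulam
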