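import Pool.Agent.P.MP_3be8c7_an.QTB
import Pool.Agent.P.MP_3be8c7_an.HBC
import Pool.Agent.P.MP_3be8c7_an.REPM
import Pool.Agent.P.MP_3be8c7_an.KP
import Pool.Agent.P.MP_3be8c7_an.KQ
import Pool.Agent.P.MP_3be8c7_an.STARK
import Pool.Agent.P.MP_3be8c7_an.UNIV

open scoped ComplexOrder InnerProductSpace
open Filter Topology
open ContinuousLinearMap (adjoint)

noncomputable section

namespace Ulam

universe u v w

/-- The projection onto the span of an orthonormal family. -/
def prj {H : Type v} [NormedAddCommGroup H] [InnerProductSpace ℂ H] {I : Type*} [Fintype I]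
    (β : I → H) : H →L[ℂ] H := ∑ k, InnerProductSpace.rankOne ℂ (β k) (β k)

open scoped Matrix.Norms.L2Operator in
theorem proj_qcpx {J I : Type*} [Fintype J] [DecidableEq J] [Fintype I] (a : Matrix J I ℂ) :
    ∃ q : Matrix I J ℂ, Contr (a * q) ∧ a * q * a = a := by
  classical
  obtain ⟨R, hR⟩ := (Matrix.toEuclideanLin a).rangeRestrict.exists_rightInverse_of_surjective
    (LinearMap.range_rangeRestrict _)
  obtain ⟨q, hq⟩ := Matrix.toEuclideanLin.surjective
    (R ∘ₗ (LinearMap.range (Matrix.toEuclideanLin a)).orthogonalProjectionOnto.toLinearMap)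
  have h : ∀ y, Matrix.toEuclideanLin (a * q) y =
      (LinearMap.range (Matrix.toEuclideanLin a)).starProjection y := fun y => by
    rw [Matrix.toLpLin_mul_same, hq]
    exact congrArg Subtype.val (LinearMap.congr_fun hR _)
  refine ⟨q, contr_iff_tm.2 ?_, Matrix.toEuclideanLin.injective (LinearMap.ext fun y => ?_)⟩
  · rw [← Matrix.l2_opNorm_toEuclideanCLM]
    exact (congrArg norm (ContinuousLinearMap.ext h)).trans_le (Submodule.starProjection_norm_le _)
  · rw [Matrix.toLpLin_mul_same, LinearMap.comp_apply, h]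
    exact Submodule.starProjection_eq_self_iff.2 ⟨y, rfl⟩

theorem mul_qcpx {J I K V : Type*} [Fintype I] [Fintype K] [AddCommGroup V] [Module ℂ V]
    (a : Matrix J I ℂ) (b : Matrix I K ℂ) (d : K → V) (j : J) :
    ∑ k, (a * b) j k • d k = ∑ l, a j l • ∑ k, b l k • d k := by
  simp only [Matrix.mul_apply, Finset.sum_smul, Finset.smul_sum, smul_smul]
  exact Finset.sum_comm

theorem ext_qcpx {A J M V W : Type*} [Fintype A] [Fintype J] [AddCommMonoid M] [Zero V] [Zero W]
    (f : A ↪ J) (a : A → V) (x : A → W) (F : V → W → M) (hF : F 0 0 = 0) :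
    ∑ j, F (Function.extend f a 0 j) (Function.extend f x 0 j) = ∑ s, F (a s) (x s) :=
  (Fintype.sum_of_injective f f.injective _ _
    (fun j hj => by rwa [Function.extend_apply' _ _ _ hj, Function.extend_apply' _ _ _ hj])
    fun s => by rw [f.injective.extend_apply, f.injective.extend_apply]).symm

theorem test_qcpx {γ : ℝ} (hγ : 0 < γ) : ∃ ε : ℝ, 0 < ε ∧
    ∀ (D : Type u) [CStarAlgebra D] [PartialOrder D] [StarOrderedRing D]
      (H : Type v) [NormedAddCommGroup H] [InnerProductSpace ℂ H] [CompleteSpace H]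
      (φ : D → (H →L[ℂ] H)), EpsHom φ ε →
    ∀ (J : Type) [Fintype J] (v : J → D) (h : D), OZH v h →
    ∀ (A : Type u) (I : Type) [Fintype A] [Fintype I], Fintype.card A < Fintype.card J →
    ∀ (x : A → D), (∀ s, ‖x s‖ ≤ 1) → ∀ a : A → I → ℂ,
      (∀ d : I → D, 0 ≤ (∑ s, star (∑ k, a s k • d k) * x s * ∑ k, a s k • d k) +
        star (∑ s, star (∑ k, a s k • d k) * x s * ∑ k, a s k • d k)) →
    ∀ β : I → H, -(γ * ∑ s, ‖∑ k, a s k • β k‖ ^ 2) ≤
      (∑ s, ⟪∑ k, a s k • β k, φ (h * x s * h) (∑ k, a s k • β k)⟫_ℂ).re := by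
  obtain ⟨ε, hε, H0⟩ := testb.{u, v} hγ
  refine ⟨ε, hε, fun D _ _ _ H _ _ _ φ hφ J _ v h hv A I _ _ hc x hx a ha β => ?_⟩
  classical
  obtain ⟨f⟩ := Function.Embedding.nonempty_of_card_le hc.le
  have : Nonempty J := Fintype.card_pos_iff.1 (zero_le.trans_lt hc)
  obtain ⟨q, q1, q2⟩ := proj_qcpx (Matrix.of (Function.extend f a 0))
  have := H0 D H φ hφ J v h hv (Function.extend f x 0) (fun j => ?_) _ q1 (fun d => ?_)
    fun j => ∑ k, Matrix.of (Function.extend f a 0) j k • β k
  · simp only [← mul_qcpx, q2] at this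
    rwa [← ext_qcpx f a x (fun r _ => ‖∑ k, r k • β k‖ ^ 2) (by simp), ← ext_qcpx f a x
      (fun r y => ⟪∑ k, r k • β k, φ (h * y * h) (∑ k, r k • β k)⟫_ℂ) (by simp)]
  · by_cases hj : ∃ s, f s = j
    · obtain ⟨s, rfl⟩ := hj
      rw [f.injective.extend_apply]
      exact hx s
    · simp [Function.extend_apply' _ _ _ hj]
  · have := ha fun l => ∑ k, q l k • d k
    rw [← ext_qcpx f a x (fun r y => star (∑ l, r l • ∑ k, q l k • d k) * y *
      ∑ l, r l • ∑ k, q l k • d k) (by simp)] at this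
    simp only [mul_qcpx]
    exact this

theorem sep_qcpx {D : Type u} [CStarAlgebra D] [PartialOrder D] [StarOrderedRing D] {z : D}
    (h : ∀ σ : D →ₚ[ℂ] ℂ, 0 ≤ (σ z).re) : 0 ≤ z + star z := by
  have h1 : Tendsto (fun t : ℝ => t • (1 : D)) (𝓝[>] 0) (𝓝 0) :=
    ((continuous_id.smul continuous_const).tendsto' 0 0 (zero_smul _ _)).mono_left
      nhdsWithin_le_nhds
  refine neg_nonpos.1 (ge_of_tendsto h1 (eventually_mem_nhdsWithin.mono fun t ht => ?_))
  obtain ⟨_, h2⟩ := hbc (fun (_ _ : Unit) => -(z + star z))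
    (fun _ _ => (IsSelfAdjoint.add_star_self z).neg) (fun _ _ => ⟨(), fun _ => le_of_eq (by module)⟩)
    (fun ρ δ hδ => ⟨(), by
      have := h (ρ ())
      simp [pos_star]
      linarith⟩) ht
  exact h2 ()

open scoped MatrixOrder Matrix.Norms.L2Operator in
theorem dens_qcpx {I : Type} [Fintype I] [DecidableEq I] (ρ : Matrix I I ℂ →ₚ[ℂ] ℂ) :
    ∃ B : Matrix I I ℂ, ∀ y, ρ y = ∑ m, ∑ k, ∑ l, star (B m k) * B m l * y k l := by
  obtain ⟨T, hT, h⟩ := dens_repm ρ
  obtain ⟨B, hB⟩ := psd_tm hT.transpose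
  refine ⟨B, fun y => ?_⟩
  have h1 : ∀ k l, T l k = ∑ m, star (B m k) * B m l := fun k l => congrFun (congrFun hB k) l
  simp only [h, Matrix.trace, Matrix.diag, Matrix.mul_apply, h1, Finset.sum_mul]
  rw [Finset.sum_comm, Finset.sum_comm_cycle, Finset.sum_comm_cycle]

section

variable {H : Type v} [NormedAddCommGroup H] [InnerProductSpace ℂ H] [CompleteSpace H]
  {I : Type} [Fintype I] {β : I → H}

/-- Matrices act on the span of an orthonormal family. -/
def rk_qcpx (hβ : Orthonormal ℂ β) : Matrix I I ℂ →⋆ₙₐ[ℂ] (H →L[ℂ] H) where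
  toFun y := ∑ k, ∑ l, y k l • InnerProductSpace.rankOne ℂ (β k) (β l)
  map_smul' c y := by simp [Finset.smul_sum, smul_smul]
  map_zero' := by simp
  map_add' y z := by simp [add_smul, Finset.sum_add_distrib]
  map_mul' y z := by
    ext ξ
    simp only [mul_apply_eq_comp, sum_apply, smul_apply, InnerProductSpace.rankOne_apply,
      smul_smul, ← Finset.sum_smul, hβ.inner_right_fintype, Matrix.mul_apply]
    simp only [Finset.sum_mul, Finset.mul_sum, mul_assoc]
    exact Finset.sum_congr rfl fun k _ => congrArg (· • β k) Finset.sum_comm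
  map_star' y := by
    rw [Finset.sum_comm]
    simp [star_sum, ContinuousLinearMap.star_eq_adjoint]

/-- The matrix of an operator. -/
def mat_qcpx (β : I → H) : (H →L[ℂ] H) →ₗ[ℂ] Matrix I I ℂ where
  toFun T := Matrix.of fun k l => ⟪β k, T (β l)⟫_ℂ
  map_add' S T := by ext; simp
  map_smul' c T := by ext; simp

theorem rk_mat_qcpx (hβ : Orthonormal ℂ β) (T : H →L[ℂ] H) :
    rk_qcpx hβ (mat_qcpx β T) = prj β * T * prj β := by
  ext ξ
  change (∑ k, ∑ l, ⟪β k, T (β l)⟫_ℂ • InnerProductSpace.rankOne ℂ (β k) (β l)) ξ = _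
  simp only [prj, mul_apply_eq_comp, sum_apply, smul_apply, InnerProductSpace.rankOne_apply,
    map_sum, map_smul, smul_smul, mul_comm, Finset.smul_sum]
  exact Finset.sum_comm

omit [CompleteSpace H] in
theorem kerPos_qcpx (β : I → H) : KerPos fun k l => InnerProductSpace.rankOne ℂ (β k) (β l) :=
  fun ξ => by
  refine (star_mul_self_nonneg (∑ k, ⟪β k, ξ k⟫_ℂ)).trans_eq ?_
  rw [mul_comm, Finset.sum_comm]
  simp [Finset.sum_mul_sum]

end

open scoped MatrixOrder Matrix.Norms.L2Operator in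
theorem cpx {γ : ℝ} (hγ : 0 < γ) : ∃ ε : ℝ, 0 < ε ∧
    ∀ (D : Type u) [CStarAlgebra D] [PartialOrder D] [StarOrderedRing D]
      (H : Type v) [NormedAddCommGroup H] [InnerProductSpace ℂ H] [CompleteSpace H]
      (φ : D → (H →L[ℂ] H)), EpsHom φ ε →
    ∀ U : Finset D, (∀ u ∈ U, ‖u‖ ≤ 1) → ∀ (I : Type) [Fintype I] (β : I → H), Orthonormal ℂ β →
    ∀ (J : Type) [Fintype J] (v : J → D) (h : D), 4 * U.card * Fintype.card I < Fintype.card J →
      OZH v h →
    ∃ L : D →ₗ[ℂ] (H →L[ℂ] H), KPos L ∧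
      ∀ u ∈ U, ‖L u - prj β * φ (h * u * h) * prj β‖ ≤ γ := by
  have hg : 0 < γ / 24 := by positivity
  obtain ⟨ε, hε, H0⟩ := test_qcpx.{u, v} hg
  refine ⟨min ε (γ / 24), lt_min hε hg, fun D _ _ _ H _ _ _ φ hφ U hU I _ β hβ J _ v h hc hv => ?_⟩
  classical
  let e : Fin 4 → ℂ := ![1, -1, -Complex.I, -(-Complex.I)]
  have he : ∀ i, ‖e i‖ = 1 := fun i => by fin_cases i <;> simp [e]
  obtain ⟨⟨θ, hθ⟩, hx⟩ := hbc (ι := U × Fin 4) (X := {θ : D →ₗ[ℂ] Matrix I I ℂ // KPosM θ})
    (fun θ i => hm_stark (e i.2) (θ.1 i.1 - mat_qcpx β (φ (h * i.1 * h))) - (γ / 12) • 1)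
    (fun x i => (hm_sa_stark _ _).sub ((IsSelfAdjoint.all _).smul (IsSelfAdjoint.one _)))
    (fun x x' => ⟨⟨(2 : ℝ)⁻¹ • (x.1 + x'.1), (Matrix.PosSemidef.add x.2 x'.2).smul
      (show (0 : ℝ) ≤ 2⁻¹ by norm_num)⟩,
      fun i => le_of_eq (by
        rw [show ((2 : ℝ)⁻¹ • (x.1 + x'.1)) i.1 - mat_qcpx β (φ (h * i.1 * h)) = (2 : ℝ)⁻¹ •
          ((x.1 i.1 - mat_qcpx β (φ (h * i.1 * h))) + (x'.1 i.1 - mat_qcpx β (φ (h * i.1 * h)))) by
            rw [LinearMap.smul_apply, LinearMap.add_apply]; module, hm_mid_stark]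
        module)⟩)
    (fun ρ δ hδ => by
      have e1 : ∀ θ : D →ₗ[ℂ] Matrix I I ℂ, ∑ i : U × Fin 4, (ρ i (hm_stark (e i.2)
          (θ i.1 - mat_qcpx β (φ (h * i.1 * h))) - (γ / 12) • 1)).re =
          ∑ i : U × Fin 4, (ρ i (θ (e i.2 • i.1.1))).re - ∑ i : U × Fin 4,
            ((ρ i (mat_qcpx β (e i.2 • φ (h * i.1 * h)))).re + γ / 12 * (ρ i 1).re) := fun θ => by
        rw [← Finset.sum_sub_distrib]
        refine Finset.sum_congr rfl fun i _ => ?_
        rw [map_sub, Complex.sub_re, hm_re_stark, smul_sub, map_sub, Complex.sub_re, map_smul θ,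
          map_smul (mat_qcpx β), ← Complex.coe_smul, map_smul _ ((γ / 12 : ℝ) : ℂ), smul_eq_mul,
          Complex.re_ofReal_mul, sub_sub]
      simp only [e1]
      generalize hK : ∑ i : U × Fin 4,
        ((ρ i (mat_qcpx β (e i.2 • φ (h * i.1 * h)))).re + γ / 12 * (ρ i 1).re) = K
      by_cases hA : ∀ θ : D →ₗ[ℂ] Matrix I I ℂ, KPosM θ →
        0 ≤ ∑ i : U × Fin 4, (ρ i (θ (e i.2 • i.1.1))).re
      swap
      · push Not at hA
        obtain ⟨θ, h1, h2⟩ := hA
        generalize hV : ∑ i : U × Fin 4, (ρ i (θ (e i.2 • i.1.1))).re = V at h2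
        refine ⟨⟨(|K| / -V) • θ, Matrix.PosSemidef.smul h1
          (div_nonneg (abs_nonneg _) (neg_pos.2 h2).le)⟩, ?_⟩
        simp only [LinearMap.smul_apply, PositiveLinearMap.map_smul_of_tower, Complex.smul_re,
          smul_eq_mul, ← Finset.mul_sum, hV]
        rw [div_neg, neg_mul, div_mul_cancel₀ _ h2.ne]
        linarith [neg_abs_le K]
      refine ⟨⟨0, Matrix.PosSemidef.zero⟩, ?_⟩
      choose B hB using fun i => dens_qcpx (ρ i)
      have e2 : ∀ i T, ρ i (mat_qcpx β T) =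
          ∑ m, ⟪∑ k, B i m k • β k, T (∑ k, B i m k • β k)⟫_ℂ := fun i T => by
        rw [hB]
        refine Finset.sum_congr rfl fun m _ => ?_
        simp only [map_sum, map_smul, sum_inner, inner_sum, inner_smul_left, inner_smul_right,
          Finset.mul_sum]
        rw [Finset.sum_comm]
        exact Finset.sum_congr rfl fun k _ => Finset.sum_congr rfl fun l _ => by
          rw [mul_left_comm, ← mul_assoc]; rfl
      have e3 : ∀ i, (ρ i 1).re = ∑ m, ‖∑ k, B i m k • β k‖ ^ 2 := fun i => by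
        rw [show 1 = mat_qcpx β 1 from Matrix.ext fun k l => (orthonormal_iff_ite.1 hβ k l).symm,
          e2, Complex.re_sum]
        exact Finset.sum_congr rfl fun m _ => inner_self_eq_norm_sq (𝕜 := ℂ) _
      have := H0 D H φ (hφ.mono (min_le_left _ _)) J v h hv ((U × Fin 4) × I) I
        (by simpa [mul_comm] using hc) (fun s => e s.1.2 • s.1.1.1)
        (fun s => by rw [norm_smul, he, one_mul]; exact hU _ s.1.1.2) (fun s => B s.1 s.2)
        (fun d => sep_qcpx fun σ => ?_) β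
      · rw [Fintype.sum_prod_type, Fintype.sum_prod_type (α₂ := I), Complex.re_sum] at this
        simp only [← e2, ← e3] at this
        have e4 : ∀ i : U × Fin 4, (ρ i (mat_qcpx β (φ (h * (e i.2 • i.1.1) * h)))).re ≤
            (ρ i (mat_qcpx β (e i.2 • φ (h * i.1 * h)))).re + γ / 24 * (ρ i 1).re := fun i => by
          rw [← sub_le_iff_le_add', ← Complex.sub_re, ← map_sub, ← map_sub, e2, e3, Complex.re_sum,
            Finset.mul_sum, mul_smul_comm, smul_mul_assoc]
          refine Finset.sum_le_sum fun m _ => (Complex.re_le_norm _).trans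
            ((norm_inner_le_norm _ _).trans ?_)
          rw [mul_comm, sq, ← mul_assoc]
          refine mul_le_mul_of_nonneg_right (ContinuousLinearMap.le_of_opNorm_le _
            ((hφ.smul _ _ (he _).le ?_).trans (min_le_right _ _)) _) (norm_nonneg _)
          exact (norm_mul_le _ _).trans (mul_le_one₀ ((norm_mul_le _ _).trans
            (mul_le_one₀ hv.norm_le (norm_nonneg _) (hU _ i.1.2))) (norm_nonneg _) hv.norm_le)
        have e5 := this.trans (Finset.sum_le_sum fun i _ => e4 i)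
        rw [← hK]
        simp only [Finset.sum_add_distrib, ← Finset.mul_sum, LinearMap.zero_apply, map_zero,
          Complex.zero_re, Finset.sum_const_zero] at e5 ⊢
        linarith
      · obtain ⟨K, _, _, _, π, hπ⟩ := univ_rep D
        obtain ⟨ξ, hξ⟩ := hπ σ
        refine (hA ⟨⟨fun y => Matrix.of fun k l => σ (star (d k) * y * d l), fun y z => ?_⟩,
          fun c y => ?_⟩ (kposM_of_gram (fun a k => π (a * d k) ξ) fun a b k l => ?_)).trans_eq ?_
        · ext
          simp [mul_add, add_mul]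
        · ext
          simp
        · rw [← ContinuousLinearMap.adjoint_inner_right, ← ContinuousLinearMap.star_eq_adjoint,
            ← map_star, ← mul_apply_eq_comp, ← map_mul, ← hξ, star_mul]
          exact congrArg σ (by simp only [mul_assoc])
        · rw [← Complex.re_sum, Fintype.sum_prod_type (α₂ := I), map_sum]
          refine congrArg _ (Finset.sum_congr rfl fun i _ => ?_)
          simp only [hB, star_sum, star_smul, Finset.sum_mul, Finset.mul_sum, map_sum,
            smul_mul_assoc, mul_smul_comm (B _ _ _), map_smul σ (B _ _ _),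
            map_smul σ (star (B _ _ _)), smul_eq_mul]
          refine Finset.sum_congr rfl fun m _ => Finset.sum_comm.trans ?_
          exact Finset.sum_congr rfl fun k _ => Finset.sum_congr rfl fun l _ => by
            rw [mul_left_comm, ← mul_assoc]; rfl)
    (show 0 < γ / 12 by positivity)
  refine ⟨⟨⟨fun a => rk_qcpx hβ (θ a), by simp⟩, by simp⟩, kpos_pair hθ (kerPos_qcpx β),
    fun u hu => ?_⟩
  have hz : ∀ i, hm_stark (e i) (θ u - mat_qcpx β (φ (h * u * h))) ≤ (γ / 6) • 1 := fun i => by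
    have := sub_le_iff_le_add.1 (hx (⟨u, hu⟩, i))
    rwa [← add_smul, show γ / 12 + γ / 12 = γ / 6 by ring] at this
  have b1 := norm_sa_stark (by positivity) (hz 0) ((hm_neg_stark 1 _).symm.trans_le (hz 1))
  have b2 := norm_sa_stark (by positivity) (hz 2)
    ((hm_neg_stark (-Complex.I) _).symm.trans_le (hz 3))
  change ‖rk_qcpx hβ (θ u) - _‖ ≤ γ
  rw [← rk_mat_qcpx hβ, ← map_sub]
  refine (NonUnitalStarAlgHom.norm_apply_le _ _).trans ?_
  rw [hm_dec_stark (θ u - _)]
  refine (norm_add_le _ _).trans ?_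
  rw [norm_smul, Complex.norm_I, one_mul]
  exact (add_le_add b1 b2).trans_eq (by ring)

end Ulam
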