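import Pool.Agent.P.MP_3be8c7_an.SPEC
import Pool.Agent.P.MP_3be8c7_an.SSF
import Pool.Agent.P.MP_3be8c7_an.TM

open scoped ComplexOrder InnerProductSpace
open Filter Topology

noncomputable section

namespace Ulam

universe u v w

variable {H : Type v} [NormedAddCommGroup H] [InnerProductSpace ℂ H] [CompleteSpace H]

omit [CompleteSpace H] in
theorem inner_self_zf (v : H) : (⟪v, v⟫_ℂ).re = ‖v‖ ^ 2 := by
  simpa using inner_self_eq_norm_sq (𝕜 := ℂ) v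

theorem inner_star_mul_zf (x : H →L[ℂ] H) (v : H) : (⟪v, (star x * x) v⟫_ℂ).re = ‖x v‖ ^ 2 := by
  rw [ContinuousLinearMap.mul_apply, ContinuousLinearMap.star_eq_adjoint,
    ContinuousLinearMap.adjoint_inner_right, inner_self_zf]

theorem span_zf (N : VonNeumannAlgebra H) {v : H} (hv : v ∈ Submodule.span ℂ
    {v : H | ∃ x ∈ N, ∃ x' ∈ N.commutant, ∃ ξ, TrVec N ξ ∧ v = x (x' ξ)}) :
    ∃ (m : ℕ) (ξ : Fin m → H) (C : ℝ), (∀ i, TrVec N (ξ i)) ∧ 0 ≤ C ∧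
      ∀ y ∈ N, ‖y v‖ ≤ C * ∑ i, ‖y (ξ i)‖ := by
  induction hv using Submodule.span_induction with
  | mem v hv =>
    obtain ⟨x, hx, x', hx', ξ, hξ, rfl⟩ := hv
    refine ⟨1, fun _ => ξ, ‖x'‖ * ‖x‖, fun _ => hξ, by positivity, fun y hy => ?_⟩
    have h1 : y (x (x' ξ)) = x' ((y * x) ξ) := by
      have := (vn_commute N (mul_mem hy hx) hx').eq
      rw [← ContinuousLinearMap.mul_apply x', this]
      rfl
    rw [h1, Fin.sum_univ_one, mul_assoc]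
    exact (x'.le_opNorm _).trans (mul_le_mul_of_nonneg_left (hξ.norm_mul_le hy hx) (norm_nonneg _))
  | zero => exact ⟨0, Fin.elim0, 0, fun i => i.elim0, le_rfl, fun y _ => by simp⟩
  | add v w _ _ hv hw =>
    obtain ⟨m, ξ, C, h1, h2, h3⟩ := hv
    obtain ⟨m', ξ', C', h1', h2', h3'⟩ := hw
    refine ⟨m + m', Fin.append ξ ξ', C + C', fun i => ?_, by positivity, fun y hy => ?_⟩
    · refine Fin.addCases (fun i => ?_) (fun i => ?_) i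
      · rw [Fin.append_left]; exact h1 i
      · rw [Fin.append_right]; exact h1' i
    · rw [map_add, Fin.sum_univ_add]
      simp only [Fin.append_left, Fin.append_right]
      have a1 : 0 ≤ ∑ i, ‖y (ξ i)‖ := Finset.sum_nonneg fun _ _ => norm_nonneg _
      have a2 : 0 ≤ ∑ i, ‖y (ξ' i)‖ := Finset.sum_nonneg fun _ _ => norm_nonneg _
      nlinarith [norm_add_le (y v) (y w), h3 y hy, h3' y hy, mul_nonneg h2 a2, mul_nonneg h2' a1]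
  | smul c v _ hv =>
    obtain ⟨m, ξ, C, h1, h2, h3⟩ := hv
    refine ⟨m, ξ, ‖c‖ * C, h1, by positivity, fun y hy => ?_⟩
    rw [map_smul, norm_smul, mul_assoc]
    exact mul_le_mul_of_nonneg_left (h3 y hy) (norm_nonneg _)

/-- The central projection generated by the trace vectors. -/
theorem exists_zf (N : VonNeumannAlgebra H) : ∃ z, CProj N z ∧ (∀ ξ, TrVec N ξ → z ξ = ξ) ∧
    ∀ (Ω : H) (η : ℝ), 0 < η → ∃ (m : ℕ) (ξ : Fin m → H) (C : ℝ), (∀ i, TrVec N (ξ i)) ∧ 0 ≤ C ∧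
      ∀ y ∈ N, ‖y (z Ω)‖ ≤ η * ‖y‖ + C * ∑ i, ‖y (ξ i)‖ := by
  obtain ⟨z, hz, h1, -, h2, h3⟩ := exists_proj
    {v : H | ∃ x ∈ N, ∃ x' ∈ N.commutant, ∃ ξ, TrVec N ξ ∧ v = x (x' ξ)}
  have hN : ∀ T ∈ N, ∀ s ∈ {v : H | ∃ x ∈ N, ∃ x' ∈ N.commutant, ∃ ξ, TrVec N ξ ∧ v = x (x' ξ)},
      z (T s) = T s := by
    rintro T hT _ ⟨x, hx, x', hx', ξ, hξ, rfl⟩
    exact h1 _ ⟨T * x, mul_mem hT hx, x', hx', ξ, hξ, rfl⟩
  have hN' : ∀ T ∈ N.commutant,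
      ∀ s ∈ {v : H | ∃ x ∈ N, ∃ x' ∈ N.commutant, ∃ ξ, TrVec N ξ ∧ v = x (x' ξ)},
      z (T s) = T s := by
    rintro T hT _ ⟨x, hx, x', hx', ξ, hξ, rfl⟩
    refine h1 _ ⟨x, hx, T * x', mul_mem hT hx', ξ, hξ, ?_⟩
    rw [← ContinuousLinearMap.mul_apply T, (vn_commute N hx hT).eq]
    rfl
  refine ⟨z, ⟨hz, vn_mem_of_commute N fun T hT => (h2 T (hN' T hT) (hN' _ (star_mem hT))).symm,
    fun T hT => h2 T (hN T hT) (hN _ (star_mem hT))⟩,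
    fun ξ hξ => h1 ξ ⟨1, one_mem _, 1, one_mem _, ξ, hξ, rfl⟩, fun Ω η hη => ?_⟩
  obtain ⟨v, hv, hd⟩ := Metric.mem_closure_iff.1 (h3 Ω) η hη
  obtain ⟨m, ξ, C, a1, a2, a3⟩ := span_zf N hv
  refine ⟨m, ξ, C, a1, a2, fun y hy => ?_⟩
  rw [dist_eq_norm] at hd
  calc ‖y (z Ω)‖ = ‖y (z Ω - v) + y v‖ := by rw [map_sub, sub_add_cancel]
    _ ≤ ‖y (z Ω - v)‖ + ‖y v‖ := norm_add_le _ _
    _ ≤ η * ‖y‖ + C * ∑ i, ‖y (ξ i)‖ := by
      refine add_le_add ((y.le_opNorm _).trans ?_) (a3 y hy)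
      rw [mul_comm]
      exact mul_le_mul_of_nonneg_right hd.le (norm_nonneg _)

variable {D : Type u} [CStarAlgebra D] [PartialOrder D] [StarOrderedRing D]

variable {π : D →⋆ₐ[ℂ] (H →L[ℂ] H)} {N : VonNeumannAlgebra H}

omit [PartialOrder D] [StarOrderedRing D] in
theorem norm_sq_eq_of_kdense (h : KDense π N) {ι : Type*} [Fintype ι] {ξ₀ : H} {ξ : ι → H}
    (he : ∀ a, ⟪ξ₀, π a ξ₀⟫_ℂ = ∑ i, ⟪ξ i, π a (ξ i)⟫_ℂ) {y : H →L[ℂ] H} (hy : y ∈ N) :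
    ‖y ξ₀‖ ^ 2 = ∑ i, ‖y (ξ i)‖ ^ 2 := by
  obtain ⟨a, -, ha⟩ := h.any hy
  have h1 : ∀ i, ‖π (a i) ξ₀‖ ^ 2 = ∑ k, ‖π (a i) (ξ k)‖ ^ 2 := fun i => by
    have h2 := congrArg Complex.re (he (star (a i) * a i))
    simpa only [map_mul, map_star, Complex.re_sum, inner_star_mul_zf] using h2
  refine tendsto_nhds_unique ((ha.2 ξ₀).1.norm.pow 2) ?_
  simp only [h1]
  exact tendsto_finsetSum _ fun k _ => (ha.2 (ξ k)).1.norm.pow 2

omit [StarOrderedRing D] in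
theorem trVec_of_isTr (h : KDense π N) {τ : D →ₚ[ℂ] ℂ} (hτ : IsTr τ) {ξ : H}
    (he : ∀ a, τ a = ⟪ξ, π a ξ⟫_ℂ) : TrVec N ξ := by
  intro y hy
  obtain ⟨a, -, ha⟩ := h.any hy
  have h1 : ∀ i, ‖π (a i) ξ‖ = ‖star (π (a i)) ξ‖ := fun i => by
    have h2 := congrArg Complex.re (hτ (a i))
    rw [he, he, map_mul, map_mul, map_star, inner_star_mul_zf] at h2
    have h3 := inner_star_mul_zf (star (π (a i))) ξ
    rw [star_star, ← h2] at h3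
    exact (pow_left_inj₀ (norm_nonneg _) (norm_nonneg _) two_ne_zero).1 h3
  refine tendsto_nhds_unique (ha.2 ξ).1.norm ?_
  simp only [h1]
  exact (ha.2 ξ).2.norm

theorem disj_of_orth (h : KDense π N) (hu : ∀ ρ : D →ₚ[ℂ] ℂ, ∃ ξ : H, ∀ a, ρ a = ⟪ξ, π a ξ⟫_ℂ)
    {z : H →L[ℂ] H} (hz : CProj N z) (ht : ∀ ξ, TrVec N ξ → z ξ = ξ) {ι : Type*} [Fintype ι]
    (ζ : ι → H) (hζ : ∀ i, z (ζ i) = 0) : Disj (vfun π ζ) := by
  intro τ hτ η hη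
  obtain ⟨ξ, hξ⟩ := hu τ
  have hzξ := ht ξ (trVec_of_isTr h hτ hξ)
  have hc := hz.compl
  obtain ⟨a, ha1, ha⟩ := h (1 - z) hc.2.1 hc.1.norm_le
  have e1 : ∀ i, (τ (star (a i) * a i)).re = ‖π (a i) ξ‖ ^ 2 := fun i => by
    rw [hξ, map_mul, map_star, inner_star_mul_zf]
  have e2 : ∀ i, (vfun π ζ (1 - star (a i) * a i)).re =
      ∑ k, (‖ζ k‖ ^ 2 - ‖π (a i) (ζ k)‖ ^ 2) := fun i => by
    rw [vfun_apply, Complex.re_sum]
    refine Finset.sum_congr rfl fun k _ => ?_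
    rw [map_sub, map_one, map_mul, map_star, ContinuousLinearMap.sub_apply, inner_sub_right,
      Complex.sub_re, inner_star_mul_zf, ContinuousLinearMap.one_apply, inner_self_zf]
  have t1 : Tendsto (fun i => ‖π (a i) ξ‖ ^ 2) atTop (𝓝 0) := by
    simpa [hzξ] using (ha.2 ξ).1.norm.pow 2
  have t2 : Tendsto (fun i => ∑ k, (‖ζ k‖ ^ 2 - ‖π (a i) (ζ k)‖ ^ 2)) atTop (𝓝 0) := by
    have := tendsto_finsetSum Finset.univ fun k _ =>
      ((ha.2 (ζ k)).1.norm.pow 2).const_sub (‖ζ k‖ ^ 2)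
    simpa [hζ] using this
  obtain ⟨i, h1, h2⟩ := ((t1.eventually (eventually_le_nhds hη)).and
    (t2.eventually (eventually_le_nhds hη))).exists
  refine ⟨star (a i) * a i, star_mul_self_nonneg _, ?_, by rwa [e2], by rwa [e1]⟩
  rw [← CStarAlgebra.norm_le_one_iff_of_nonneg _ (star_mul_self_nonneg _),
    CStarRing.norm_star_mul_self]
  exact mul_le_one₀ (ha1 i) (norm_nonneg _) (ha1 i)

end Ulam
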