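import Pool.Agent.P.MP_3be8c7_an.QGAP
import Pool.Agent.P.MP_3be8c7_an.BIC
import Pool.Agent.P.MP_3be8c7_an.KAP
import Pool.Agent.P.MP_3be8c7_an.ZF
import Pool.Agent.P.MP_3be8c7_an.ULIM

open scoped ComplexOrder InnerProductSpace
open Filter Topology
open ContinuousLinearMap (adjoint)

noncomputable section

namespace Ulam

universe u v w

variable {D : Type u} [CStarAlgebra D] [PartialOrder D] [StarOrderedRing D]
variable {H : Type v} [NormedAddCommGroup H] [InnerProductSpace ℂ H] [CompleteSpace H]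
variable {π : D →⋆ₐ[ℂ] (H →L[ℂ] H)} {N : VonNeumannAlgebra H}

/-- The cyclic subspace generated by a vector. -/
theorem sub_qcyc (N : VonNeumannAlgebra H) (ξ : H) :
    ∃ (K : Type v) (_ : NormedAddCommGroup K) (_ : InnerProductSpace ℂ K) (_ : CompleteSpace K)
      (i : K →L[ℂ] H) (ζ : K), (∀ k, adjoint i (i k) = k) ∧
      (∀ x ∈ N, ∀ k, i (adjoint i (x (i k))) = x (i k)) ∧ i ζ = ξ ∧
      DenseRange fun x : N => adjoint i (x.1 (i ζ)) := by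
  let V : Submodule ℂ H :=
    { carrier := {v | ∃ x ∈ N, x ξ = v}
      add_mem' := by
        rintro _ _ ⟨x, hx, rfl⟩ ⟨y, hy, rfl⟩
        exact ⟨x + y, add_mem hx hy, rfl⟩
      zero_mem' := ⟨0, zero_mem N, rfl⟩
      smul_mem' := by
        rintro c _ ⟨x, hx, rfl⟩
        exact ⟨c • x, vn_smul_mem N c hx, rfl⟩ }
  have h1 : ∀ k : V.topologicalClosure, adjoint V.topologicalClosure.subtypeL k = k := fun k => by
    rw [Submodule.adjoint_subtypeL, Submodule.orthogonalProjectionOnto_mem_subspace_eq_self]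
  have h2 : ∀ x ∈ N, ∀ v ∈ V.topologicalClosure, x v ∈ V.topologicalClosure := fun x hx v hv =>
    map_mem_closure (s := (V : Set H)) (t := (V : Set H)) x.continuous hv (by
      rintro _ ⟨y, hy, rfl⟩
      exact ⟨x * y, mul_mem hx hy, rfl⟩)
  have h3 : ∀ x ∈ N, ∀ k : V.topologicalClosure,
      (adjoint V.topologicalClosure.subtypeL (x k) : H) = x k := fun x hx k =>
    congrArg Subtype.val (h1 ⟨x k, h2 x hx _ k.2⟩)
  let ζ : V.topologicalClosure := ⟨ξ, V.le_topologicalClosure ⟨1, one_mem N, rfl⟩⟩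
  refine ⟨V.topologicalClosure, inferInstance, inferInstance, inferInstance,
    V.topologicalClosure.subtypeL, ζ, h1, h3, rfl, Subtype.dense_iff.2 (closure_mono ?_)⟩
  rintro _ ⟨x, hx, rfl⟩
  exact ⟨_, ⟨⟨x, hx⟩, rfl⟩, h3 x hx ζ⟩

section Res

variable {K : Type v} [NormedAddCommGroup K] [InnerProductSpace ℂ K] [CompleteSpace K]

/-- Compression to a subspace. -/
def res_qcyc (i : K →L[ℂ] H) (x : H →L[ℂ] H) : K →L[ℂ] K := adjoint i ∘L x ∘L i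

theorem star_qcyc (i : K →L[ℂ] H) (x : H →L[ℂ] H) : star (res_qcyc i x) = res_qcyc i (star x) := by
  simp only [res_qcyc, ContinuousLinearMap.star_eq_adjoint, ContinuousLinearMap.adjoint_comp,
    ContinuousLinearMap.adjoint_adjoint, ContinuousLinearMap.comp_assoc]

theorem one_qcyc {i : K →L[ℂ] H} (h1 : ∀ k, adjoint i (i k) = k) : res_qcyc i 1 = 1 :=
  ContinuousLinearMap.ext h1

theorem mul_qcyc {i : K →L[ℂ] H} (h2 : ∀ x ∈ N, ∀ k, i (adjoint i (x (i k))) = x (i k))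
    (x : H →L[ℂ] H) {y : H →L[ℂ] H} (hy : y ∈ N) :
    res_qcyc i (x * y) = res_qcyc i x * res_qcyc i y :=
  ContinuousLinearMap.ext fun k => congrArg (fun v => adjoint i (x v)) (h2 y hy k).symm

theorem inner_qcyc {i : K →L[ℂ] H} (h1 : ∀ k, adjoint i (i k) = k) (a b : K) :
    ⟪i a, i b⟫_ℂ = ⟪a, b⟫_ℂ := by
  rw [← ContinuousLinearMap.adjoint_inner_right, h1]

theorem norm_qcyc {i : K →L[ℂ] H} (h1 : ∀ k, adjoint i (i k) = k) (a : K) : ‖i a‖ = ‖a‖ := by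
  rw [@norm_eq_sqrt_re_inner ℂ, @norm_eq_sqrt_re_inner ℂ, inner_qcyc h1]

omit [PartialOrder D] [StarOrderedRing D] in
theorem rep_qcyc (hπ : ∀ a, π a ∈ N) {i : K →L[ℂ] H} (h1 : ∀ k, adjoint i (i k) = k)
    (h2 : ∀ x ∈ N, ∀ k, i (adjoint i (x (i k))) = x (i k)) :
    ∃ σ : D →⋆ₐ[ℂ] (K →L[ℂ] K), ∀ a, σ a = res_qcyc i (π a) :=
  ⟨{ toFun := fun a => res_qcyc i (π a)
     map_one' := by rw [map_one, one_qcyc h1]
     map_mul' := fun a b => by rw [map_mul, mul_qcyc h2 _ (hπ b)]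
     map_zero' := by simp [res_qcyc]
     map_add' := fun a b => by simp [res_qcyc]
     commutes' := fun c => by
       ext k
       simp [res_qcyc, Algebra.algebraMap_eq_smul_one, h1]
     map_star' := fun a => by rw [map_star, star_qcyc] }, fun _ => rfl⟩

theorem left_qcyc (i : K →L[ℂ] H) (x : H →L[ℂ] H) (a b : K) :
    ⟪res_qcyc i x a, b⟫_ℂ = ⟪x (i a), i b⟫_ℂ :=
  ContinuousLinearMap.adjoint_inner_left i b (x (i a))

theorem right_qcyc (i : K →L[ℂ] H) (x : H →L[ℂ] H) (a b : K) :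
    ⟪a, res_qcyc i x b⟫_ℂ = ⟪i a, x (i b)⟫_ℂ :=
  ContinuousLinearMap.adjoint_inner_right i a (x (i b))

omit [CompleteSpace K] in
theorem closed_qcyc {R I : Type} [Fintype R] [Fintype I] (s : R → (K →L[ℂ] K)) (c : ℝ)
    (m : R → I → I → ℂ) : IsClosed {ζ : I → K |
      av (fun ρ => (∑ j, ∑ k, m ρ j k * ⟪s ρ (ζ k), ζ j⟫_ℂ).re) ≤ c * ∑ k, ‖ζ k‖ ^ 2} := by
  unfold av
  exact isClosed_le (by fun_prop) (by fun_prop)

theorem tr_qcyc {ξ : H} (hξ : TrVec N ξ) {s a b : H →L[ℂ] H} (hs : s ∈ N) (ha : a ∈ N)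
    (hb : b ∈ N) : ⟪s ξ, (star (star a) * star b) ξ⟫_ℂ = ⟪s (b ξ), a ξ⟫_ℂ := by
  have h1 : ∀ (x : H →L[ℂ] H) (v w : H), ⟪x v, w⟫_ℂ = ⟪v, star x w⟫_ℂ := fun x v w =>
    (ContinuousLinearMap.adjoint_inner_right _ _ _).symm
  rw [star_star, h1, h1, h1]
  exact hξ.inner_comm (mul_mem (star_mem hs) ha) (star_mem hb)

theorem gap_qcyc {ξ : H} (hξ : TrVec N ξ) {z : H →L[ℂ] H} (hz : CProj N z) {i : K →L[ℂ] H}
    (i1 : ∀ k, adjoint i (i k) = k) (i2 : ∀ x ∈ N, ∀ k, i (adjoint i (x (i k))) = x (i k))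
    {ζ : K} {t : ℂ} (i3 : i ζ = t • z ξ) (i4 : DenseRange fun x : N => adjoint i (x.1 (i ζ)))
    {R : Type} [Fintype R] {s : R → (H →L[ℂ] H)} (hs : ∀ ρ, s ρ ∈ N) {c : ℝ}
    (hg : ∀ (I : Type) [Fintype I] (β : I → H) (b : I → (H →L[ℂ] H)), Orthonormal ℂ β →
      (∀ k, b k ∈ N) → (∀ k, b k * z = b k) →
      av (fun ρ => (∑ j, ∑ k, ⟪β j, s ρ (β k)⟫_ℂ * ⟪s ρ ξ, (star (b j) * b k) ξ⟫_ℂ).re) ≤
        (1 - c) * ∑ k, ‖b k ξ‖ ^ 2) : Gap1 (fun ρ => res_qcyc i (s ρ)) c := by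
  intro I _ β ζ' hβ
  refine (DenseRange.piMap fun _ : I => i4).induction_on ζ'
    (closed_qcyc (fun ρ => res_qcyc i (s ρ)) (1 - c)
      fun ρ j k => ⟪β j, res_qcyc i (s ρ) (β k)⟫_ℂ) fun x => ?_
  obtain ⟨b, hb⟩ : ∃ b : I → (H →L[ℂ] H), ∀ k, b k = t • ((x k).1 * z) := ⟨_, fun _ => rfl⟩
  have hN : ∀ k, b k ∈ N := fun k => hb k ▸ vn_smul_mem N t (mul_mem (x k).2 hz.2.1)
  have e1 : ∀ k, i (adjoint i ((x k).1 (i ζ))) = b k ξ := fun k => by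
    rw [i2 _ (x k).2, i3, map_smul, hb]
    rfl
  have h3 := hg I (fun k => i (β k)) (fun k => star (b k))
    ⟨fun k => (norm_qcyc i1 _).trans (hβ.1 k), fun j k hjk => (inner_qcyc i1 _ _).trans (hβ.2 hjk)⟩
    (fun k => star_mem (hN k)) fun k => by
      rw [← (hz.2.2 _ (star_mem (hN k))).eq, hb, star_smul, star_mul, hz.1.isSelfAdjoint.star_eq,
        mul_smul_comm, ← mul_assoc, hz.1.isIdempotentElem.eq]
  simp only [tr_qcyc hξ (hs _) (hN _) (hN _), ← hξ _ (hN _)] at h3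
  simp only [Pi.map_apply, left_qcyc, right_qcyc, e1, ← norm_qcyc i1 (adjoint i _)]
  exact h3

end Res

theorem cyc_gap (hπ : ∀ a, π a ∈ N) (hK : KDense π N) {ξ : H} (hξ : TrVec N ξ) (h1 : ‖ξ‖ = 1)
    (h : ¬ AMS π N ξ) :
    ∃ (K : Type v) (_ : NormedAddCommGroup K) (_ : InnerProductSpace ℂ K)
      (_ : CompleteSpace K) (σ : D →⋆ₐ[ℂ] (K →L[ℂ] K)) (M : VonNeumannAlgebra K) (ζ : K)
      (R : Type) (_ : Fintype R) (_ : Nonempty R) (s : R → (K →L[ℂ] K)) (c : ℝ),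
      (∀ a, σ a ∈ M) ∧ KDense σ M ∧ ‖ζ‖ = 1 ∧ TrVec M ζ ∧ Cyc M ζ ∧
      (∀ ρ, s ρ ∈ M ∧ s ρ ∈ unitary (K →L[ℂ] K)) ∧ 0 < c ∧ Gap1 s c := by
  obtain ⟨z, hz, hz0, R, _, _, s, c, hc, hs, hg⟩ := gap_of_not_ams hπ hξ h1 h
  obtain ⟨t, ht⟩ : ∃ t : ℂ, ‖t • z ξ‖ = 1 := ⟨((‖z ξ‖⁻¹ : ℝ) : ℂ), by
    rw [norm_smul, Complex.norm_real, norm_inv, norm_norm, inv_mul_cancel₀ (norm_ne_zero_iff.2 hz0)]⟩
  have htr : TrVec N (t • z ξ) := (hξ.cproj hz).smul t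
  obtain ⟨K, _, _, _, i, ζ, i1, i2, i3, i4⟩ := sub_qcyc N (t • z ξ)
  obtain ⟨σ, hσ⟩ := rep_qcyc hπ i1 i2
  obtain ⟨M, hM, hS⟩ := bic σ
  have hres : ∀ x ∈ N, res_qcyc i x ∈ M := fun x hx => by
    obtain ⟨a, -, ha⟩ := hK.any hx
    refine WL.mem (l := atTop) (T := fun n => σ (a n)) (WL.of_sot fun k => ?_) M
      (.of_forall fun n => hM _)
    simp only [hσ]
    exact ((adjoint i).continuous.tendsto _).comp (ha.2 (i k)).1
  refine ⟨K, inferInstance, inferInstance, inferInstance, σ, M, ζ, R, inferInstance, inferInstance,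
    fun ρ => res_qcyc i (s ρ), c, hM, kap hS, by rw [← norm_qcyc i1, i3, ht], ?_, ?_,
    fun ρ => ⟨hres _ (hs ρ).1, ?_⟩, hc, ?_⟩
  · refine trVec_of_isTr (kap hS) (τ := vfun σ fun _ : Unit => ζ) (fun x => ?_) fun a => by simp
    simp only [vfun_apply, hσ, right_qcyc, i3, map_mul π]
    rw [htr.inner_comm (hπ _) (hπ _)]
  · intro k hk
    have h2 : ∀ a, ⟪a, k⟫_ℂ = 0 := fun a =>
      i4.induction_on (p := fun a => ⟪a, k⟫_ℂ = 0) a (isClosed_eq (by fun_prop) continuous_const)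
        fun x => hk _ (hres _ x.2)
    exact inner_self_eq_zero.1 (h2 k)
  · rw [Unitary.mem_iff, star_qcyc, ← mul_qcyc i2 _ (hs ρ).1, ← mul_qcyc i2 _ (star_mem (hs ρ).1),
      Unitary.star_mul_self_of_mem (hs ρ).2, Unitary.mul_star_self_of_mem (hs ρ).2, one_qcyc i1]
    exact ⟨rfl, rfl⟩
  · exact gap_qcyc hξ hz i1 i2 i3 i4 (fun ρ => (hs ρ).1) hg

end Ulam
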