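import Pool.Agent.P.MP_3be8c7_an.RPD

/-!
# Definitions for the proof that Ulam stability passes to hereditary subalgebras
-/

open scoped ComplexOrder InnerProductSpace
open Filter Topology
open ContinuousLinearMap (adjoint)

noncomputable section

namespace Ulam

universe u v w

section Hilbert

variable {H : Type v} [NormedAddCommGroup H] [InnerProductSpace ℂ H] [CompleteSpace H]
variable {K : Type w} [NormedAddCommGroup K] [InnerProductSpace ℂ K] [CompleteSpace K]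

/-- `K` is the Hilbert sum of copies of `H`, with coordinate isometries `ε i`. -/
structure IsL2 {ι : Type*} (ε : ι → (H →L[ℂ] K)) : Prop where
  self : ∀ i, adjoint (ε i) ∘L ε i = 1
  ne : ∀ i j, i ≠ j → adjoint (ε i) ∘L ε j = 0
  total : ∀ ζ, HasSum (fun i => ε i (adjoint (ε i) ζ)) ζ

/-- The matrix entry of an operator. -/
def ent {ι : Type*} (ε : ι → (H →L[ℂ] K)) (X : K →L[ℂ] K) (i j : ι) : H →L[ℂ] H :=
  adjoint (ε i) ∘L X ∘L ε j

/-- `ι` intertwines the identity representation and `Θ`. -/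
def Itw (Θ : (H →L[ℂ] H) → (K →L[ℂ] K)) (ι : H →L[ℂ] K) : Prop :=
  ∀ T, Θ T ∘L ι = ι ∘L T

/-- `Θ` is an amplification: the intertwiners are total. -/
def IsAmp (Θ : (H →L[ℂ] H) →⋆ₐ[ℂ] (K →L[ℂ] K)) : Prop :=
  ∀ ζ : K, (∀ ι : H →L[ℂ] K, Itw Θ ι → adjoint ι ζ = 0) → ζ = 0

/-- The commutant of a set and its adjoints. -/
def vnC (S : Set (H →L[ℂ] H)) : VonNeumannAlgebra H where
  toStarSubalgebra := StarSubalgebra.centralizer ℂ S
  centralizer_centralizer' := by simp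

theorem mem_vnC {S : Set (H →L[ℂ] H)} {T : H →L[ℂ] H} :
    T ∈ vnC S ↔ ∀ s ∈ S, Commute s T ∧ Commute (star s) T :=
  StarSubalgebra.mem_centralizer_iff (R := ℂ) (s := S) (z := T)

/-- Norm bound for a finite operator matrix. -/
def MB {I : Type*} [Fintype I] (R : I → I → (H →L[ℂ] H)) (c : ℝ) : Prop :=
  ∀ η ζ : I → H, ‖∑ i, ∑ j, ⟪η i, R i j (ζ j)⟫_ℂ‖ ≤ c * √(∑ i, ‖η i‖ ^ 2) * √(∑ i, ‖ζ i‖ ^ 2)

/-- A finite operator matrix is a projection. -/
def MProj {I : Type*} [Fintype I] (x : I → I → (H →L[ℂ] H)) : Prop :=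
  (∀ i j, star (x i j) = x j i) ∧ ∀ i j, ∑ l, x i l * x l j = x i j

/-- Unitary representation. -/
def URep {Γ : Type*} [Group Γ] (c : Γ →* (H →L[ℂ] H)) : Prop := ∀ g, star (c g) = c g⁻¹

/-- `E` is the projection onto the vectors fixed by the family `c`. -/
structure IsFix {Γ : Type*} (c : Γ → (H →L[ℂ] H)) (E : H →L[ℂ] H) : Prop where
  proj : IsStarProjection E
  fix : ∀ g, c g * E = E
  max : ∀ ζ, (∀ g, c g ζ = ζ) → E ζ = ζ

/-- Complete near inclusion of the bicommutant of `S` in `M`. -/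
def NearInc (S : Set (H →L[ℂ] H)) (M : VonNeumannAlgebra H) (δ : ℝ) : Prop :=
  ∀ (I : Type v) (K : Type v) [NormedAddCommGroup K] [InnerProductSpace ℂ K] [CompleteSpace K]
    (ε : I → (H →L[ℂ] K)), IsL2 ε → ∀ ρ : K →L[ℂ] K,
    (∀ T, (∀ s ∈ S, Commute T s) → ∀ i j, Commute T (ent ε ρ i j)) →
    ∃ ρ' : K →L[ℂ] K, (∀ i j, ent ε ρ' i j ∈ M) ∧ ‖ρ - ρ'‖ ≤ δ * ‖ρ‖

/-- `ξ` is cyclic for `N`. -/
def Cyc (N : VonNeumannAlgebra H) (ξ : H) : Prop :=
  ∀ ζ : H, (∀ x ∈ N, ⟪x ξ, ζ⟫_ℂ = 0) → ζ = 0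

/-- `j x` is right multiplication by the adjoint of `x`. -/
def IsJ (N : VonNeumannAlgebra H) (ξ : H) (j : (H →L[ℂ] H) → (H →L[ℂ] H)) : Prop :=
  ∀ x ∈ N, ∀ y ∈ N, j x (y ξ) = (y * star x) ξ

/-- The product along a word. -/
def wrd {R G : Type*} [Monoid G] (s : R → G) {n : ℕ} (ρ : Fin n → R) : G :=
  (List.ofFn fun i => s (ρ i)).prod

/-- A symmetric family which contains the unit. -/
def Sym {R G : Type*} [Group G] (s : R → G) : Prop :=
  (∃ σ : R ≃ R, ∀ ρ, s (σ ρ) = (s ρ)⁻¹) ∧ ∃ ρ, s ρ = 1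

/-- Spectral gap on the tensor product with the conjugate space. -/
def Gap1 {R : Type} [Fintype R] (s : R → (H →L[ℂ] H)) (c : ℝ) : Prop :=
  ∀ (I : Type) [Fintype I] (β ζ : I → H), Orthonormal ℂ β →
    av (fun ρ => (∑ j, ∑ k, ⟪β j, s ρ (β k)⟫_ℂ * ⟪s ρ (ζ k), ζ j⟫_ℂ).re) ≤ (1 - c) * ∑ k, ‖ζ k‖ ^ 2

/-- Decay of matrix coefficients along random words. -/
def GapW {R : Type} [Fintype R] (s : R → (H →L[ℂ] H)) (η : ℝ) : Prop :=
  ∀ (n : ℕ) (ζ ζ' : H),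
    av (fun ρ : Fin n → R => ‖⟪ζ, wrd s ρ ζ'⟫_ℂ‖ ^ 2) ≤ η ^ n * (‖ζ‖ ^ 2 * ‖ζ'‖ ^ 2)

/-- The deformation of the regular representation of a free group given by a unitary `u`. -/
structure IsSig {ι : Type} (ε : FreeGroup ι → (H →L[ℂ] K)) (u : H →L[ℂ] H)
    (σ : FreeGroup ι →* (K →L[ℂ] K)) : Prop where
  urep : URep σ
  root : ∀ i, σ (FreeGroup.of i) ∘L ε 1 =
    (4 / 5 : ℂ) • ε (FreeGroup.of i) + (3 / 5 : ℂ) • (ε 1 ∘L u)
  back : ∀ i, σ (FreeGroup.of i) ∘L ε (FreeGroup.of i)⁻¹ =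
    (4 / 5 : ℂ) • ε 1 - (3 / 5 : ℂ) • (ε (FreeGroup.of i) ∘L star u)
  other : ∀ i y, y ≠ 1 → y ≠ (FreeGroup.of i)⁻¹ →
    σ (FreeGroup.of i) ∘L ε y = ε (FreeGroup.of i * y)

/-- A pair of twisted commuting unitaries in the corner `r`, which is a finite multiple of `H`. -/
structure Twist (Θ : (H →L[ℂ] H) →⋆ₐ[ℂ] (K →L[ℂ] K)) where
  Λ : Type
  [fΛ : Fintype Λ]
  [nΛ : Nonempty Λ]
  ι : Λ → (H →L[ℂ] K)
  r : K →L[ℂ] K
  u : K →L[ℂ] K
  v : K →L[ℂ] K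
  ω : ℂ
  itw : ∀ k, Itw Θ (ι k)
  self : ∀ k, adjoint (ι k) ∘L ι k = 1
  ne : ∀ k l, k ≠ l → adjoint (ι k) ∘L ι l = 0
  sum : ∑ k, ι k ∘L adjoint (ι k) = r
  uc : ∀ T, Commute u (Θ T)
  vc : ∀ T, Commute v (Θ T)
  u1 : star u * u = r
  u2 : u * star u = r
  v1 : star v * v = r
  v2 : v * star v = r
  rel : u * v = ω • (v * u)
  ω0 : ω ≠ 0
  ω1 : ω ≠ 1

attribute [instance] Twist.fΛ Twist.nΛ

/-- The free group on two families of `n` generators. -/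
abbrev FG (n : ℕ) : Type := FreeGroup (Fin n ⊕ Fin n)

/-- The model: a representation of a product of two free groups which almost commutes with a
projection, uniformly on the group. -/
structure Model (n : ℕ) (θ : ℝ) (Θ : (H →L[ℂ] H) →⋆ₐ[ℂ] (K →L[ℂ] K)) extends Twist Θ where
  m : FG n →* (K →L[ℂ] K)
  e : K →L[ℂ] K
  A : K →L[ℂ] K
  B : K →L[ℂ] K
  amp : IsAmp Θ
  urep : URep m
  mc : ∀ f T, Commute (m f) (Θ T)
  mxy : ∀ i j, Commute (m (FreeGroup.of (Sum.inl i))) (m (FreeGroup.of (Sum.inr j)))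
  ep : IsStarProjection e
  ec : ∀ T, Commute e (Θ T)
  me : ∀ f, ‖m f * e - e * m f‖ ≤ θ
  Ac : ∀ T, Commute A (Θ T)
  Bc : ∀ T, Commute B (Θ T)
  Ap : IsStarProjection (star A * A)
  Bp : IsStarProjection (star B * B)
  eA : Commute e (star A * A)
  eB : Commute e (star B * B)
  AB : Commute (star A * A) (star B * B)
  req : r = e * (star A * A) * (star B * B)
  avA : ‖(5 / 3 : ℝ) • av (fun i => m (FreeGroup.of (Sum.inl i))) - A‖ ≤ θ
  avB : ‖(5 / 3 : ℝ) • av (fun i => m (FreeGroup.of (Sum.inr i))) - B‖ ≤ θ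
  Au : ‖r * A * r - u‖ ≤ θ
  Bv : ‖r * B * r - v‖ ≤ θ

end Hilbert

section Local

variable {E R : Type}

/-- A function of finitely many coordinates. -/
def Loc {V : Type*} (g : (E → R) → V) : Prop := ∃ s : Finset E, DependsOn g (s : Set E)

open Classical in
/-- The average over the coordinates in `s`. -/
def avOn [Fintype R] [Nonempty R] {V : Type*} [AddCommMonoid V] [Module ℝ V] (s : Finset E)
    (g : (E → R) → V) : V :=
  av fun y : s → R => g fun a => if h : a ∈ s then y ⟨a, h⟩ else Classical.arbitrary R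

open Classical in
/-- The expectation of a function of finitely many coordinates. -/
def ex [Fintype R] [Nonempty R] {V : Type*} [AddCommMonoid V] [Module ℝ V] (g : (E → R) → V) : V :=
  if h : Loc g then avOn h.choose g else 0

/-- Left translation of the edges of the tree. -/
def lft {ι : Type} : FreeGroup ι →* Equiv.Perm (FreeGroup ι × ι) where
  toFun f := Equiv.prodCongr (Equiv.mulLeft f) (Equiv.refl ι)
  map_one' := by ext p <;> simp
  map_mul' f g := by ext p <;> simp [mul_assoc]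

@[simp] theorem lft_apply {ι : Type} (f : FreeGroup ι) (p : FreeGroup ι × ι) :
    lft f p = (f * p.1, p.2) := rfl

/-- The product of the labels along a geodesic. -/
structure IsCoc {G : Type*} [Group G] {ι : Type} (s : R → G)
    (ω : FreeGroup ι → (FreeGroup ι × ι → R) → G) : Prop where
  mul : ∀ f f' x, ω (f * f') x = ω f x * ω f' (x ∘ lft f)
  gen : ∀ i x, ω (FreeGroup.of i) x = s (x (1, i))

variable {H : Type v} [NormedAddCommGroup H] [InnerProductSpace ℂ H] [CompleteSpace H]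

/-- The Hilbert space of square integrable functions on a Bernoulli space. -/
structure Bern (E R : Type) [Fintype R] [Nonempty R] [DecidableEq E]
    (H : Type v) [NormedAddCommGroup H] [InnerProductSpace ℂ H] [CompleteSpace H]
    (K : Type w) [NormedAddCommGroup K] [InnerProductSpace ℂ K] [CompleteSpace K] where
  M : ((E → R) → (H →L[ℂ] H)) → (K →L[ℂ] K)
  C : (H →L[ℂ] H) →⋆ₐ[ℂ] (K →L[ℂ] K)
  w : Equiv.Perm E →* (K →L[ℂ] K)
  ι : H →L[ℂ] K
  P : E → (K →L[ℂ] K)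
  const : ∀ T, M (fun _ => T) = C T
  mul : ∀ S T, Loc S → Loc T → M (S * T) = M S * M T
  add : ∀ S T, Loc S → Loc T → M (S + T) = M S + M T
  star : ∀ T, Loc T → M (star T) = star (M T)
  norm_le : ∀ T (c : ℝ), Loc T → 0 ≤ c → (∀ x, ‖T x‖ ≤ c) → ‖M T‖ ≤ c
  urep : URep w
  cov : ∀ γ T, Loc T → w γ * M T = M (fun x => T (x ∘ γ)) * w γ
  iso : adjoint ι ∘L ι = 1
  itw : Itw C ι
  wι : ∀ γ, w γ ∘L ι = ι
  exp : ∀ T, Loc T → adjoint ι ∘L M T ∘L ι = ex T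
  total : ∀ ζ, (∀ (t : (E → R) → ℂ), Loc t →
    adjoint ι (M (fun x => t x • (1 : H →L[ℂ] H)) ζ) = 0) → ζ = 0
  Pp : ∀ a, IsStarProjection (P a)
  PM : ∀ a T, Loc T → (∀ x ρ, T (Function.update x a ρ) = T x) → Commute (P a) (M T)
  wP : ∀ γ a, w γ * P a = P (γ a) * w γ
  Plim : ∀ ζ (δ : ℝ), 0 < δ → ∃ s : Finset E, ∀ a ∉ s, ‖P a ζ - ζ‖ ≤ δ
  erg : ∀ ζ, (∀ a, P a ζ = ζ) → ι (adjoint ι ζ) = ζ

end Local

section Alg

variable (D : Type u) [CStarAlgebra D]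

/-- The structure property for traces. -/
def STRF [PartialOrder D] : Prop :=
  ∀ τ : D →ₚ[ℂ] ℂ, IsTr τ → ∀ U : Finset D, (∀ u ∈ U, u ∈ unitary D) → ∀ η : ℝ, 0 < η →
    ∃ s : SData D D, ∀ u ∈ U, (τ (star (u - s.ev u) * (u - s.ev u))).re ≤ η

variable {D} in
/-- Order zero data which act as a unit on `h`. -/
structure OZH {J : Type*} (v : J → D) (h : D) : Prop where
  oz : IsOZ (fun _ => ()) v
  sa : IsSelfAdjoint h
  norm_le : ‖h‖ ≤ 1
  unit : ∀ j, star (v j) * v j * h = h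

/-- The general structure property. -/
def STRG [PartialOrder D] : Prop :=
  ∀ (ρ : D →ₚ[ℂ] ℂ) (U : Finset D), (∀ u ∈ U, u ∈ unitary D) → ∀ η : ℝ, 0 < η →
    ∀ (J : Type) [Fintype J] [Nonempty J], ∃ (s : SData D D) (v : J → D) (h : D), OZH v h ∧
      ∀ u ∈ U, (ρ (star (u - s.ev u - h * u * h) * (u - s.ev u - h * u * h))).re ≤ η

/-- The distance property. -/
def DK (c : ℝ) : Prop :=
  ∀ (H : Type v) [NormedAddCommGroup H] [InnerProductSpace ℂ H] [CompleteSpace H]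
    (π : D →⋆ₐ[ℂ] (H →L[ℂ] H)) (T : H →L[ℂ] H) (ν : ℝ), 0 ≤ ν →
    (∀ a, ‖T * π a - π a * T‖ ≤ ν * ‖a‖) →
    ∃ S : H →L[ℂ] H, (∀ a, Commute S (π a)) ∧ ‖S - T‖ ≤ c * ν

/-- Completely near inclusions of representations can be corrected. -/
def INDP : Prop :=
  ∀ γ : ℝ, 0 < γ → ∃ δ : ℝ, 0 < δ ∧
    ∀ (H : Type u) [NormedAddCommGroup H] [InnerProductSpace ℂ H] [CompleteSpace H]
      (π : D →⋆ₐ[ℂ] (H →L[ℂ] H)) (M : VonNeumannAlgebra H), NearInc (Set.range π) M δ →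
      ∃ ψ : D →⋆ₐ[ℂ] (H →L[ℂ] H), (∀ a, ψ a ∈ M) ∧ ∀ a, ‖π a - ψ a‖ ≤ γ * ‖a‖

end Alg

/-- Standard form data with a family of unitaries. -/
structure GD (H : Type v) [NormedAddCommGroup H] [InnerProductSpace ℂ H] [CompleteSpace H] where
  N : VonNeumannAlgebra H
  ξ : H
  j : (H →L[ℂ] H) → (H →L[ℂ] H)
  G : Type v
  [gG : Group G]
  l : G →* (H →L[ℂ] H)
  rr : G →* (H →L[ℂ] H)
  c : G →* (H →L[ℂ] H)
  e : H →L[ℂ] H
  norm_ξ : ‖ξ‖ = 1
  tr : TrVec N ξ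
  cyc : Cyc N ξ
  isJ : IsJ N ξ j
  lrep : URep l
  lmem : ∀ g, l g ∈ N
  rr_eq : ∀ g, rr g = j (l g)
  c_eq : ∀ g, c g = l g * rr g
  fix : IsFix c e

attribute [instance] GD.gG

/-- The relative commutant of the group. -/
def GD.PS {H : Type v} [NormedAddCommGroup H] [InnerProductSpace ℂ H] [CompleteSpace H]
    (g : GD H) : Set (H →L[ℂ] H) := {b | b ∈ g.N ∧ ∀ x, Commute b (g.l x)}

end Ulam
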