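import Pool.Agent.P.MP_3be8c7_an.QDKI
import Pool.Agent.P.MP_3be8c7_an.QCOMZ
import Pool.Agent.P.MP_3be8c7_an.QDS
import Pool.Agent.P.MP_3be8c7_an.UNIV
import Pool.Agent.P.MP_3be8c7_an.BIC
import Pool.Agent.P.MP_3be8c7_an.KAP

open scoped ComplexOrder InnerProductSpace
open Filter Topology
open ContinuousLinearMap (adjoint)

noncomputable section

namespace Ulam

universe u v w

variable {D : Type u} [CStarAlgebra D] [PartialOrder D] [StarOrderedRing D]

section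

variable {H : Type v} [NormedAddCommGroup H] [InnerProductSpace ℂ H] [CompleteSpace H]

omit [PartialOrder D] [StarOrderedRing D] in
theorem der_qdk {π : D →⋆ₐ[ℂ] (H →L[ℂ] H)} {N : VonNeumannAlgebra H} (hK : KDense π N)
    {T : H →L[ℂ] H} {ν : ℝ} (hν : 0 ≤ ν) (h : ∀ a, ‖T * π a - π a * T‖ ≤ ν * ‖a‖)
    {y : H →L[ℂ] H} (hy : y ∈ N) : ‖T * y - y * T‖ ≤ ν * ‖y‖ := by
  classical
  obtain ⟨a, h1, h2⟩ := hK.any hy
  refine ContinuousLinearMap.opNorm_le_bound _ (by positivity) fun ξ => ?_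
  have h3 : Tendsto (fun i => (T * π (a i) - π (a i) * T) ξ) atTop (𝓝 ((T * y - y * T) ξ)) :=
    ((T.continuous.tendsto _).comp (h2.2 ξ).1).sub (h2.2 (T ξ)).1
  refine le_of_tendsto' h3.norm fun i => (ContinuousLinearMap.le_opNorm _ _).trans ?_
  exact mul_le_mul_of_nonneg_right ((h _).trans (mul_le_mul_of_nonneg_left (h1 i) hν))
    (norm_nonneg _)

theorem pm_qdk {p : H →L[ℂ] H} (hp : IsStarProjection p) (X : H →L[ℂ] H) : ‖p * X‖ ≤ ‖X‖ :=
  (norm_mul_le _ _).trans (mul_le_of_le_one_left (norm_nonneg _) hp.norm_le)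

omit [PartialOrder D] [StarOrderedRing D] in
theorem cut_qdk {π : D →⋆ₐ[ℂ] (H →L[ℂ] H)} {p : H →L[ℂ] H} (hp : IsStarProjection p)
    (hc : ∀ a, Commute p (π a)) {T : H →L[ℂ] H} {ν : ℝ}
    (h : ∀ a, ‖T * π a - π a * T‖ ≤ ν * ‖a‖) (a : D) :
    ‖p * T * p * π a - π a * (p * T * p)‖ ≤ ν * ‖a‖ := by
  have e : p * T * p * π a - π a * (p * T * p) = p * ((T * π a - π a * T) * p) := by
    rw [mul_assoc _ p, (hc a).eq, ← mul_assoc (π a), ← mul_assoc (π a), ← (hc a).eq, (hc a).eq]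
    rw [sub_mul, mul_sub, mul_assoc (π a) T p, ← mul_assoc p (π a), (hc a).eq]
    simp only [mul_assoc]
  rw [e]
  exact (pm_qdk hp _).trans (((norm_mul_le _ _).trans
    (mul_le_of_le_one_right (norm_nonneg _) hp.norm_le)).trans (h a))

theorem univ_qdk (hD : STRF D) (π : D →⋆ₐ[ℂ] (H →L[ℂ] H))
    (hu : ∀ ρ : D →ₚ[ℂ] ℂ, ∃ ξ : H, ∀ a, ρ a = ⟪ξ, π a ξ⟫_ℂ) (T : H →L[ℂ] H) {ν : ℝ} (hν : 0 ≤ ν)
    (h : ∀ a, ‖T * π a - π a * T‖ ≤ ν * ‖a‖) :
    ∃ S : H →L[ℂ] H, (∀ a, Commute S (π a)) ∧ ‖S - T‖ ≤ 40 * ν := by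
  obtain ⟨N, hπ, hS⟩ := bic π
  have hK := kap hS
  obtain ⟨z, hz, z1, z2⟩ := exists_zf N
  have hc : ∀ a, Commute z (π a) := fun a => hz.2.2 _ (hπ a)
  have iz := hz.1.isIdempotentElem.eq
  obtain ⟨S1, a1, a2⟩ := commz π hz.1 hc (fun G U hU η hη => strz hD π N hπ z2 G U hU hη)
    (z * T * z) (by rw [← mul_assoc, ← mul_assoc, iz]) (by rw [mul_assoc, iz]) hν
    (cut_qdk hz.1 hc h)
  obtain ⟨S2, b1, b2⟩ := dk_inf hπ hK hz (fun ι _ ζ hζ => disj_of_orth hK hu hz z1 ζ hζ)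
    ((1 - z) * T * (1 - z)) (by rw [← mul_assoc, ← mul_assoc, mul_sub z 1 z, iz]; simp)
    (by rw [mul_assoc, sub_mul 1 z z, iz]; simp) hν
    (cut_qdk hz.1.one_sub (fun a => (Commute.one_left _).sub_left (hc a)) h)
  refine ⟨S1 + S2, fun a => (a1 a).add_left (b1 a), ?_⟩
  have e : S1 + S2 - T = (S1 - z * T * z) + (S2 - (1 - z) * T * (1 - z)) +
      (z * (T * z - z * T) - (1 - z) * (T * z - z * T)) := by
    have : z * (z * T) = z * T := by rw [← mul_assoc, iz]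
    simp only [mul_sub, sub_mul, one_mul, mul_one, this, mul_assoc]
    abel
  have h1 : ‖T * z - z * T‖ ≤ ν :=
    (der_qdk hK hν h hz.2.1).trans (mul_le_of_le_one_right hν hz.1.norm_le)
  have h2 := pm_qdk hz.1 (T * z - z * T)
  have h3 := pm_qdk hz.1.one_sub (T * z - z * T)
  rw [e]
  refine (norm_add₃_le.trans (add_le_add le_rfl (norm_sub_le _ _))).trans ?_
  linarith

end

theorem dk_of_strf (hD : STRF D) : DK.{u, v} D 40 := by
  intro H _ _ _ σ T ν hν h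
  obtain ⟨H', _, _, _, π', hu⟩ := univ_rep D
  obtain ⟨K, _, _, _, i, j, ii, jj, ij, ji, -, hn, hπ⟩ := exists_dsum.{u, v, u} H H'
  obtain ⟨π, hπ⟩ := hπ D σ π'
  have ii' : ∀ x, adjoint i (i x) = x := fun x => congrArg (fun A : H →L[ℂ] H => A x) ii
  have jj' : ∀ x, adjoint j (j x) = x := fun x => congrArg (fun A : H' →L[ℂ] H' => A x) jj
  have ij' : ∀ x, adjoint i (j x) = 0 := fun x => congrArg (fun A : H' →L[ℂ] H => A x) ij
  have ji' : ∀ x, adjoint j (i x) = 0 := fun x => congrArg (fun A : H →L[ℂ] H' => A x) ji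
  have p0 : ∀ a x, π a x = i (σ a (adjoint i x)) + j (π' a (adjoint j x)) := fun a x => by
    rw [hπ]; rfl
  have p1 : ∀ a x, π a (i x) = i (σ a x) := fun a x => by
    rw [p0, ii', ji', map_zero, map_zero, add_zero]
  have p2 : ∀ a x, adjoint i (π a x) = σ a (adjoint i x) := fun a x => by
    rw [p0, map_add, ii', ij', add_zero]
  obtain ⟨S, s1, s2⟩ := univ_qdk hD π (fun ρ => by
    obtain ⟨ξ, hξ⟩ := hu ρ
    refine ⟨j ξ, fun a => ?_⟩
    rw [hξ, p0, ij', jj', map_zero, map_zero, zero_add, ← ContinuousLinearMap.adjoint_inner_right,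
      jj']) (i ∘L T ∘L adjoint i) hν (fun a => by
    refine le_trans (le_of_eq (congrArg _ ?_)) (hn (T * σ a - σ a * T) 0 _ (by positivity) (h a)
      (by rw [norm_zero]; positivity))
    ext x
    simp [p1, p2])
  have hi : ‖i‖ ≤ 1 := by
    have h3 := ContinuousLinearMap.norm_adjoint_comp_self i
    rw [ii] at h3
    have h4 : ‖(1 : H →L[ℂ] H)‖ ≤ 1 := ContinuousLinearMap.norm_id_le
    nlinarith [norm_nonneg i]
  refine ⟨adjoint i ∘L S ∘L i, fun a => ?_, ?_⟩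
  · ext x
    have := congrArg (fun A : K →L[ℂ] K => A (i x)) (s1 a).eq
    simp only [mul_apply_eq_comp, p1] at this
    simp only [mul_apply_eq_comp, ContinuousLinearMap.comp_apply, this, p2]
  · have e : adjoint i ∘L S ∘L i - T = adjoint i ∘L (S - i ∘L T ∘L adjoint i) ∘L i := by
      ext x
      simp [ii']
    rw [e]
    refine (ContinuousLinearMap.opNorm_comp_le _ _).trans ?_
    rw [LinearIsometryEquiv.norm_map]
    refine (mul_le_of_le_one_left (norm_nonneg _) hi).trans ?_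
    exact ((ContinuousLinearMap.opNorm_comp_le _ _).trans
      (mul_le_of_le_one_right (norm_nonneg _) hi)).trans s2

end Ulam
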