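import Pool.Agent.P.MP_3be8c7_an.QROW
import Pool.Agent.P.MP_3be8c7_an.QARV
import Pool.Agent.P.MP_3be8c7_an.ISO
import Pool.Agent.P.MP_3be8c7_an.SSF

open scoped ComplexOrder InnerProductSpace
open Filter Topology
open ContinuousLinearMap (adjoint)

noncomputable section

namespace Ulam

universe u v w

variable {D : Type u} [CStarAlgebra D] [PartialOrder D] [StarOrderedRing D]
variable {H : Type v} [NormedAddCommGroup H] [InnerProductSpace ℂ H] [CompleteSpace H]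
variable {π : D →⋆ₐ[ℂ] (H →L[ℂ] H)} {N : VonNeumannAlgebra H}

omit [PartialOrder D] [StarOrderedRing D] in
theorem ext_qdki (hK : KDense π N) (T : H →L[ℂ] H) {ν : ℝ} (hν : 0 ≤ ν)
    (h : ∀ a, ‖T * π a - π a * T‖ ≤ ν * ‖a‖) : ∀ y ∈ N, ‖T * y - y * T‖ ≤ ν * ‖y‖ := by
  intro y hy
  obtain ⟨a, ha, hs⟩ := hK.any hy
  have h1 := ((SS.const T).mul hs).sub (hs.mul (SS.const T))
  refine ContinuousLinearMap.opNorm_le_bound _ (by positivity) fun ξ => ?_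
  refine le_of_tendsto' (h1.2 ξ).1.norm fun i => (ContinuousLinearMap.le_opNorm _ _).trans ?_
  exact mul_le_mul_of_nonneg_right ((h _).trans (mul_le_mul_of_nonneg_left (ha i) hν))
    (norm_nonneg _)

theorem star_qdki {T : H →L[ℂ] H} {ν : ℝ} (h : ∀ y ∈ N, ‖T * y - y * T‖ ≤ ν * ‖y‖) :
    ∀ y ∈ N, ‖star T * y - y * star T‖ ≤ ν * ‖y‖ := by
  intro y hy
  have := h _ (star_mem hy)
  rw [← norm_star, star_sub, star_mul, star_mul, star_star, norm_sub_rev, norm_star] at this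
  exact this

section Core

variable {I : Type} [Fintype I] [DecidableEq I] {w : I → (H →L[ℂ] H)} {q : H →L[ℂ] H}

theorem adj_qdki (hww : ∀ j k, star (w j) * w k = if j = k then q else 0) (a : I → H) (i : I) :
    star (w i) (∑ j, w j (a j)) = q (a i) := by
  rw [map_sum, Finset.sum_eq_single i]
  · have := DFunLike.congr_fun (hww i i) (a i)
    rwa [if_pos rfl] at this
  · intro j _ hj
    have := DFunLike.congr_fun (hww i j) (a j)
    rwa [if_neg hj.symm] at this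
  · simp

theorem inner_qdki (A : H →L[ℂ] H) (u v : H) : ⟪star A u, v⟫_ℂ = ⟪u, A v⟫_ℂ :=
  ContinuousLinearMap.adjoint_inner_left A v u

theorem inner'_qdki (A : H →L[ℂ] H) (u v : H) : ⟪A u, v⟫_ℂ = ⟪u, star A v⟫_ℂ :=
  (ContinuousLinearMap.adjoint_inner_right A u v).symm

omit [InnerProductSpace ℂ H] [CompleteSpace H] in
theorem cancel_qdki {a b : ℝ} (ha : 0 ≤ a) (hb : 0 ≤ b) (h : a ^ 2 ≤ a * b) : a ≤ b := by
  rcases ha.eq_or_lt with e | e
  · rw [← e]; exact hb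
  · exact le_of_mul_le_mul_left (by nlinarith) e

omit [CompleteSpace H] [DecidableEq I] in
theorem cs_qdki (a b : I → H) :
    ‖∑ i, ⟪a i, b i⟫_ℂ‖ ≤ √(∑ i, ‖a i‖ ^ 2) * √(∑ i, ‖b i‖ ^ 2) := by
  refine (norm_sum_le_of_le _ fun i _ => norm_inner_le_norm (𝕜 := ℂ) (a i) (b i)).trans ?_
  exact Real.sum_mul_le_sqrt_mul_sqrt _ _ _

omit [DecidableEq I] in
theorem proj_qdki (hq : IsStarProjection q) (a : I → H) :
    √(∑ i, ‖q (a i)‖ ^ 2) ≤ √(∑ i, ‖a i‖ ^ 2) :=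
  (sqrt_sum_qmb q a).trans (mul_le_of_le_one_left (Real.sqrt_nonneg _) hq.norm_le)

theorem row_qdki (hq : IsStarProjection q)
    (hww : ∀ j k, star (w j) * w k = if j = k then q else 0) (a : I → H) :
    ‖∑ j, w j (a j)‖ ≤ √(∑ i, ‖a i‖ ^ 2) := by
  have h1 : ⟪∑ j, w j (a j), ∑ j, w j (a j)⟫_ℂ = ∑ i, ⟪a i, q (a i)⟫_ℂ := by
    rw [sum_inner]
    exact Finset.sum_congr rfl fun i _ => by rw [inner'_qdki, adj_qdki hww]
  have h2 := (cs_qdki a fun i => q (a i)).trans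
    (mul_le_mul_of_nonneg_left (proj_qdki hq a) (Real.sqrt_nonneg _))
  rw [← h1, inner_self_eq_norm_sq_to_K, norm_pow, RCLike.norm_ofReal, abs_norm, ← sq] at h2
  exact le_of_sq_le_sq h2 (Real.sqrt_nonneg _)

theorem col_qdki (hq : IsStarProjection q)
    (hww : ∀ j k, star (w j) * w k = if j = k then q else 0) (u : H) :
    √(∑ i, ‖star (w i) u‖ ^ 2) ≤ ‖u‖ := by
  refine cancel_qdki (Real.sqrt_nonneg _) (norm_nonneg _) ?_
  have h1 : ⟪∑ i, w i (star (w i) u), u⟫_ℂ = ((∑ i, ‖star (w i) u‖ ^ 2 : ℝ) : ℂ) := by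
    rw [sum_inner]
    push_cast
    exact Finset.sum_congr rfl fun i _ => by rw [inner'_qdki, inner_self_eq_norm_sq_to_K]; rfl
  have h2 := (norm_inner_le_norm (𝕜 := ℂ) (∑ i, w i (star (w i) u)) u).trans
    (mul_le_mul_of_nonneg_right (row_qdki hq hww _) (norm_nonneg _))
  rw [h1, Complex.norm_real, Real.norm_of_nonneg (by positivity)] at h2
  rwa [Real.sq_sqrt (by positivity)]

theorem core_qdki {T : H →L[ℂ] H} {ν : ℝ} (hν : 0 ≤ ν)
    (h : ∀ y ∈ N, ‖T * y - y * T‖ ≤ ν * ‖y‖) {x : I → I → (H →L[ℂ] H)} (hx : MB x 1)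
    (hxN : ∀ i j, x i j ∈ N) (hw : ∀ j, w j ∈ N) (hq : IsStarProjection q)
    (hww : ∀ j k, star (w j) * w k = if j = k then q else 0) (η ζ : I → H) :
    ‖∑ i, ∑ j, ⟪q (star T (η i)), x i j (q (ζ j))⟫_ℂ - ∑ i, ∑ j, ⟪q (η i), x i j (q (T (ζ j)))⟫_ℂ‖ ≤
      21 * ν * √(∑ i, ‖η i‖ ^ 2) * √(∑ i, ‖ζ i‖ ^ 2) := by
  obtain ⟨X, hX⟩ : ∃ X, X = ∑ i, ∑ j, w i * x i j * star (w j) := ⟨_, rfl⟩
  have hXN : X ∈ N := hX ▸ sum_mem fun i _ => sum_mem fun j _ =>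
    mul_mem (mul_mem (hw i) (hxN i j)) (star_mem (hw j))
  have e1 : ∀ u v, ⟪u, X v⟫_ℂ = ∑ i, ∑ j, ⟪star (w i) u, x i j (star (w j) v)⟫_ℂ := by
    intro u v
    rw [hX, ContinuousLinearMap.sum_apply, inner_sum]
    refine Finset.sum_congr rfl fun i _ => ?_
    rw [ContinuousLinearMap.sum_apply, inner_sum]
    exact Finset.sum_congr rfl fun j _ => (inner_qdki (w i) u (x i j (star (w j) v))).symm
  have e2 : ∀ u v, ‖⟪u, X v⟫_ℂ‖ ≤ ‖u‖ * ‖v‖ := by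
    intro u v
    rw [e1]
    refine (hx _ _).trans ?_
    rw [one_mul]
    exact mul_le_mul (col_qdki hq hww u) (col_qdki hq hww v) (Real.sqrt_nonneg _) (norm_nonneg _)
  have e3 : ‖X‖ ≤ 1 := ContinuousLinearMap.opNorm_le_bound _ zero_le_one fun v => by
    have := e2 (X v) v
    rw [inner_self_eq_norm_sq_to_K, norm_pow, RCLike.norm_ofReal, abs_norm] at this
    rw [one_mul]
    exact cancel_qdki (norm_nonneg _) (norm_nonneg _) this
  have e4 : ∀ a b : I → H, ∑ i, ∑ j, ⟪q (a i), x i j (q (b j))⟫_ℂ =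
      ⟪∑ i, w i (a i), X (∑ j, w j (b j))⟫_ℂ := fun a b => by
    simp only [e1, adj_qdki hww]
  have e5 : ∀ (S : H →L[ℂ] H) (a : I → H), ∑ i, w i (S (a i)) =
      S (∑ i, w i (a i)) - ∑ i, (S * w i - w i * S) (a i) := fun S a => by
    rw [map_sum, ← Finset.sum_sub_distrib]
    exact Finset.sum_congr rfl fun i _ => by simp
  have r1 := row_bound N (star T) hν (star_qdki h) w hw hq hww η
  have r2 := row_bound N T hν h w hw hq hww ζ
  have r3 := row_qdki hq hww η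
  have r4 := row_qdki hq hww ζ
  rw [e4, e4, e5, e5]
  generalize ∑ i, (star T * w i - w i * star T) (η i) = R1 at r1
  generalize ∑ i, (T * w i - w i * T) (ζ i) = R2 at r2
  generalize ∑ i, w i (η i) = u at r3
  generalize ∑ i, w i (ζ i) = v at r4
  generalize √(∑ i, ‖η i‖ ^ 2) = A at r1 r3
  generalize √(∑ i, ‖ζ i‖ ^ 2) = B at r2 r4
  have e6 : ⟪star T u - R1, X v⟫_ℂ - ⟪u, X (T v - R2)⟫_ℂ =
      ⟪u, (T * X - X * T) v⟫_ℂ - ⟪R1, X v⟫_ℂ + ⟪u, X R2⟫_ℂ := by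
    rw [inner_sub_left, inner_qdki, map_sub, inner_sub_right, ContinuousLinearMap.sub_apply,
      inner_sub_right, ContinuousLinearMap.mul_apply, ContinuousLinearMap.mul_apply]
    ring
  have hA := (norm_nonneg _).trans r3
  have hB := (norm_nonneg _).trans r4
  have b1 : ‖⟪u, (T * X - X * T) v⟫_ℂ‖ ≤ A * (ν * B) :=
    (norm_inner_le_norm _ _).trans (mul_le_mul r3 ((ContinuousLinearMap.le_opNorm _ _).trans
      (mul_le_mul ((h X hXN).trans (mul_le_of_le_one_right hν e3)) r4 (norm_nonneg _) hν))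
      (norm_nonneg _) hA)
  have b2 : ‖⟪R1, X v⟫_ℂ‖ ≤ 10 * ν * A * B :=
    (e2 _ _).trans (mul_le_mul r1 r4 (norm_nonneg _) (by positivity))
  have b3 : ‖⟪u, X R2⟫_ℂ‖ ≤ A * (10 * ν * B) :=
    (e2 _ _).trans (mul_le_mul r3 r2 (norm_nonneg _) hA)
  rw [e6]
  refine (norm_add_le _ _).trans ((add_le_add (norm_sub_le _ _) le_rfl).trans ?_)
  linarith

omit [DecidableEq I] in
theorem cut_qdki {x : I → I → (H →L[ℂ] H)} (hx : MB x 1) (hq : IsStarProjection q) {δ : ℝ}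
    (hδ : 0 ≤ δ) (a b : I → H) (ha : ∀ i, ‖a i - q (a i)‖ ≤ δ) (hb : ∀ i, ‖b i - q (b i)‖ ≤ δ) :
    ‖∑ i, ∑ j, ⟪a i, x i j (b j)⟫_ℂ - ∑ i, ∑ j, ⟪q (a i), x i j (q (b j))⟫_ℂ‖ ≤
      √(Fintype.card I) * (√(∑ i, ‖a i‖ ^ 2) + √(∑ i, ‖b i‖ ^ 2)) * δ := by
  have e1 : ∀ c : I → H, (∀ i, ‖c i - q (c i)‖ ≤ δ) →
      √(∑ i, ‖c i - q (c i)‖ ^ 2) ≤ √(Fintype.card I) * δ := fun c hc => by
    rw [← Real.sqrt_sq hδ, ← Real.sqrt_mul (Nat.cast_nonneg _)]
    refine Real.sqrt_le_sqrt ((Finset.sum_le_card_nsmul _ _ (δ ^ 2) fun i _ =>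
      pow_le_pow_left₀ (norm_nonneg _) (hc i) 2).trans (le_of_eq ?_))
    simp
  have e2 : ∑ i, ∑ j, ⟪a i, x i j (b j)⟫_ℂ - ∑ i, ∑ j, ⟪q (a i), x i j (q (b j))⟫_ℂ =
      ∑ i, ∑ j, ⟪a i - q (a i), x i j (b j)⟫_ℂ + ∑ i, ∑ j, ⟪q (a i), x i j (b j - q (b j))⟫_ℂ := by
    simp only [inner_sub_left, map_sub, inner_sub_right, Finset.sum_sub_distrib]
    ring
  have b1 := hx (fun i => a i - q (a i)) b
  have b2 := hx (fun i => q (a i)) fun j => b j - q (b j)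
  rw [one_mul] at b1 b2
  have b3 := mul_le_mul_of_nonneg_right (e1 a ha) (Real.sqrt_nonneg (∑ i, ‖b i‖ ^ 2))
  have b4 := mul_le_mul (proj_qdki hq a) (e1 b hb) (Real.sqrt_nonneg _) (Real.sqrt_nonneg _)
  rw [e2]
  refine (norm_add_le _ _).trans ?_
  linarith

end Core

theorem dk_inf (hπ : ∀ a, π a ∈ N) (hK : KDense π N) {z : H →L[ℂ] H} (hz : CProj N z)
    (hd : ∀ (ι : Type) [Fintype ι] (ζ : ι → H), (∀ i, z (ζ i) = 0) → Disj (vfun π ζ))
    (T : H →L[ℂ] H) (h1 : z * T = 0) (h2 : T * z = 0) {ν : ℝ} (hν : 0 ≤ ν)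
    (h : ∀ a, ‖T * π a - π a * T‖ ≤ ν * ‖a‖) :
    ∃ S : H →L[ℂ] H, (∀ a, Commute S (π a)) ∧ ‖S - T‖ ≤ 21 * ν := by
  have hN := ext_qdki hK T hν h
  suffices key : ∃ S ∈ N.commutant, ‖T - S‖ ≤ 21 * ν by
    obtain ⟨S, hS, h3⟩ := key
    exact ⟨S, fun a => vn_commute N (hπ a) hS, by rwa [norm_sub_rev]⟩
  refine arv _ T (by positivity) fun m x hx hxN => ?_
  rw [N.commutant_commutant] at hxN
  have hx1 := hx.mb
  have main : ∀ η ζ : Fin m → H, (∀ i, z (η i) = 0) → (∀ i, z (ζ i) = 0) →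
      ‖∑ i, ∑ j, ⟪η i, (T * x i j - x i j * T) (ζ j)⟫_ℂ‖ ≤
        21 * ν * √(∑ i, ‖η i‖ ^ 2) * √(∑ i, ‖ζ i‖ ^ 2) := by
    intro η ζ hη hζ
    have h3 : z * star T = 0 := by
      have := congrArg star h2
      rwa [star_mul, hz.1.isSelfAdjoint.star_eq, star_zero] at this
    obtain ⟨C, hC⟩ : ∃ C, C = √(Fintype.card (Fin m)) * (√(∑ i, ‖star T (η i)‖ ^ 2) +
      √(∑ i, ‖ζ i‖ ^ 2)) + √(Fintype.card (Fin m)) * (√(∑ i, ‖η i‖ ^ 2) +
      √(∑ i, ‖T (ζ i)‖ ^ 2)) := ⟨_, rfl⟩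
    have hC0 : 0 ≤ C := by rw [hC]; positivity
    refine le_of_forall_pos_le_add fun ε hε => ?_
    have hδ : 0 < ε / (C + 1) := by positivity
    obtain ⟨q, w, hq, -, hw, hww, ha⟩ := iso π N hπ
      (Sum.elim (Sum.elim η ζ) (Sum.elim (fun i => star T (η i)) fun i => T (ζ i)))
      (hd _ _ (by
        rintro ((i | i) | (i | i))
        · exact hη i
        · exact hζ i
        · exact DFunLike.congr_fun h3 (η i)
        · exact DFunLike.congr_fun h1 (ζ i))) (Fin m) hδ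
    have c1 := core_qdki hν hN hx1 hxN hw hq hww η ζ
    have c2 := cut_qdki hx1 hq hδ.le (fun i => star T (η i)) ζ (fun i => ha (.inr (.inl i)))
      fun i => ha (.inl (.inr i))
    have c3 := cut_qdki hx1 hq hδ.le η (fun i => T (ζ i)) (fun i => ha (.inl (.inl i)))
      fun i => ha (.inr (.inr i))
    have e1 : ∑ i, ∑ j, ⟪η i, (T * x i j - x i j * T) (ζ j)⟫_ℂ =
        ∑ i, ∑ j, ⟪star T (η i), x i j (ζ j)⟫_ℂ - ∑ i, ∑ j, ⟪η i, x i j (T (ζ j))⟫_ℂ := by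
      simp only [inner_qdki, ContinuousLinearMap.sub_apply, inner_sub_right,
        Finset.sum_sub_distrib, ContinuousLinearMap.mul_apply]
    have e2 : C * (ε / (C + 1)) ≤ ε := by
      rw [mul_div_assoc', div_le_iff₀ (by positivity)]
      nlinarith
    have e3 : ∀ a b a' b' : ℂ, ‖a - b‖ ≤ ‖a' - b'‖ + ‖a - a'‖ + ‖b - b'‖ := fun a b a' b' => by
      rw [show a - b = a' - b' + (a - a') - (b - b') by ring]
      exact (norm_sub_le _ _).trans (add_le_add (norm_add_le _ _) le_rfl)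
    rw [e1]
    refine (e3 _ _ _ _).trans ((add_le_add (add_le_add c1 c2) c3).trans ?_)
    rw [hC] at e2
    rw [hC]
    linarith
  intro η ζ
  have hp := hz.1.one_sub
  have z0 : ∀ ξ, z ((1 - z) ξ) = 0 := fun ξ => DFunLike.congr_fun hz.1.mul_one_sub_self ξ
  have e1 : ∀ i j, ⟪η i, (T * x i j - x i j * T) (ζ j)⟫_ℂ =
      ⟪(1 - z) (η i), (T * x i j - x i j * T) ((1 - z) (ζ j))⟫_ℂ := fun i j => by
    have c := (hz.2.2 _ (hxN i j)).eq
    have a1 : z * (T * x i j - x i j * T) = 0 := by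
      rw [mul_sub, ← mul_assoc, h1, zero_mul, ← mul_assoc, c, mul_assoc, h1, mul_zero, sub_zero]
    have a2 : (T * x i j - x i j * T) * z = 0 := by
      rw [sub_mul, mul_assoc, ← c, ← mul_assoc, h2, zero_mul, mul_assoc, h2, mul_zero, sub_zero]
    have a3 : (1 - z) * (T * x i j - x i j * T) * (1 - z) = T * x i j - x i j * T := by
      rw [sub_mul, one_mul, a1, sub_zero, mul_sub _ 1, mul_one, a2, sub_zero]
    rw [inner'_qdki, hp.isSelfAdjoint.star_eq]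
    exact congrArg _ (DFunLike.congr_fun a3 (ζ j)).symm
  simp only [e1]
  refine (main _ _ (fun i => z0 _) fun i => z0 _).trans ?_
  exact mul_le_mul (mul_le_mul_of_nonneg_left (proj_qdki hp η) (by positivity)) (proj_qdki hp ζ)
    (Real.sqrt_nonneg _) (by positivity)

end Ulam
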