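import Pool.Agent.P.MP_3be8c7_an.QRNL
import Pool.Agent.P.MP_3be8c7_an.KP
import Pool.Agent.P.MP_3be8c7_an.TM
import Pool.Agent.P.MP_3be8c7_an.AV
import Pool.Agent.P.MP_3be8c7_an.SPEC

open scoped ComplexOrder InnerProductSpace
open Filter Topology
open ContinuousLinearMap (adjoint)

noncomputable section

namespace Ulam

universe u v w

variable {D : Type u} [CStarAlgebra D] [PartialOrder D] [StarOrderedRing D]
variable {H : Type v} [NormedAddCommGroup H] [InnerProductSpace ℂ H] [CompleteSpace H]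
variable {π : D →⋆ₐ[ℂ] (H →L[ℂ] H)} {N : VonNeumannAlgebra H}

/-- Data of a matrix approximation. -/
structure Dat_qdua (D : Type u) [CStarAlgebra D] (N : VonNeumannAlgebra H) where
  I : Type
  [fI : Fintype I]
  [dI : DecidableEq I]
  θ : D →ₗ[ℂ] Matrix I I ℂ
  b : I → (H →L[ℂ] H)
  ccp : IsCCP θ
  mem : ∀ k, b k ∈ N

attribute [instance] Dat_qdua.fI Dat_qdua.dI

theorem comb_qdua (s s' : Dat_qdua D N) {α β : ℝ} (hα : 0 ≤ α) (hβ : 0 ≤ β) :
    ∃ s2 : Dat_qdua D N, ∑ k, star (s2.b k) * s2.b k =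
      α • ∑ k, star (s.b k) * s.b k + β • ∑ k, star (s'.b k) * s'.b k ∧
      ∀ a, tmap s2.b (s2.θ a) = α • tmap s.b (s.θ a) + β • tmap s'.b (s'.θ a) := by
  have key : ∀ (f : Bool → Dat_qdua D N) (w : Bool → ℝ), (∀ t, 0 ≤ w t) →
      ∃ s2 : Dat_qdua D N, ∑ k, star (s2.b k) * s2.b k =
        ∑ t, w t • ∑ k, star ((f t).b k) * (f t).b k ∧
        ∀ a, tmap s2.b (s2.θ a) = ∑ t, w t • tmap (f t).b ((f t).θ a) := fun f w hw => by
    have e : ∀ t (x y : H →L[ℂ] H), star (√(w t) • x) * (√(w t) • y) = w t • (star x * y) :=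
      fun t x y => by
        rw [star_smul, star_trivial, smul_mul_smul_comm, Real.mul_self_sqrt (hw t)]
    refine ⟨⟨Σ t, (f t).I, bsum fun t => (f t).θ, fun p => √(w p.1) • (f p.1).b p.2,
      IsCCP.bsum fun t => (f t).ccp, fun p => vn_real_smul_mem N _ ((f p.1).mem _)⟩, ?_,
      fun a => ?_⟩
    · simp only [Fintype.sum_sigma, e, Finset.smul_sum]
    · simp only [tmap, Fintype.sum_sigma, Finset.smul_sum]
      refine Finset.sum_congr rfl fun t _ => Finset.sum_congr rfl fun j _ => ?_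
      rw [Finset.sum_eq_single t (fun t' _ h => Finset.sum_eq_zero fun k _ => by
        rw [bsum_apply, Matrix.blockDiagonal'_apply_ne _ _ _ (Ne.symm h), zero_smul]) (by simp)]
      refine Finset.sum_congr rfl fun k _ => ?_
      rw [bsum_apply, Matrix.blockDiagonal'_apply_eq, e, smul_comm]
  obtain ⟨s2, h1, h2⟩ := key (fun t => cond t s s') (fun t => cond t α β)
    (fun t => by cases t <;> assumption)
  refine ⟨s2, ?_, fun a => ?_⟩
  · rw [h1, Fintype.sum_bool]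
    rfl
  · rw [h2, Fintype.sum_bool]
    rfl

theorem bil_qdua {I : Type*} [Fintype I] [DecidableEq I] {x : Matrix I I ℂ} (hx : Contr x)
    (v w : I → H) {ε : ℝ} (hε : 0 < ε) :
    (∑ j, ⟪v j, ∑ k, x j k • w k⟫_ℂ).re ≤
      ε / 2 * ∑ j, ‖v j‖ ^ 2 + 1 / (2 * ε) * ∑ k, ‖w k‖ ^ 2 := by
  have h1 : ∀ a b : H, (⟪a, b⟫_ℂ).re ≤ ε / 2 * ‖a‖ ^ 2 + 1 / (2 * ε) * ‖b‖ ^ 2 := fun a b => by
    refine ((Complex.re_le_norm _).trans (norm_inner_le_norm _ _)).trans ?_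
    have e : ε / 2 * ‖a‖ ^ 2 + 1 / (2 * ε) * ‖b‖ ^ 2 - ‖a‖ * ‖b‖ =
        1 / (2 * ε) * (ε * ‖a‖ - ‖b‖) ^ 2 := by
      field_simp
      ring
    have : 0 ≤ 1 / (2 * ε) * (ε * ‖a‖ - ‖b‖) ^ 2 := by positivity
    linarith
  rw [Complex.re_sum]
  refine (Finset.sum_le_sum fun j _ => h1 _ _).trans ?_
  rw [Finset.sum_add_distrib, ← Finset.mul_sum, ← Finset.mul_sum]
  exact add_le_add le_rfl (mul_le_mul_of_nonneg_left (hx.sum_norm_sq_le w) (by positivity))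

theorem col_qdua {I : Type*} [Fintype I] (b : I → (H →L[ℂ] H)) (ζ : H) :
    (⟪ζ, (∑ k, star (b k) * b k) ζ⟫_ℂ).re = ∑ k, ‖b k ζ‖ ^ 2 := by
  have h1 : ⟪ζ, (∑ i, star (b i) * b i) ζ⟫_ℂ = ((∑ i, ‖b i ζ‖ ^ 2 : ℝ) : ℂ) := by
    simp [ContinuousLinearMap.star_eq_adjoint,
      ContinuousLinearMap.adjoint_inner_right, inner_self_eq_norm_sq_to_K]
  rw [h1, Complex.ofReal_re]

theorem mono_qdua {S T : H →L[ℂ] H} (h : S ≤ T) (ζ : H) :
    (⟪ζ, S ζ⟫_ℂ).re ≤ (⟪ζ, T ζ⟫_ℂ).re := by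
  have h7 := ((ContinuousLinearMap.nonneg_iff_isPositive _).1
    (sub_nonneg.2 h)).re_inner_nonneg_right ζ
  rw [ContinuousLinearMap.sub_apply, inner_sub_right, map_sub, RCLike.re_to_complex,
    RCLike.re_to_complex] at h7
  exact sub_nonneg.1 h7

theorem cut_qdua {h : H →L[ℂ] H} (hN : h ∈ N) (h0 : 0 ≤ h) :
    ∃ g ∈ N, ∃ p ∈ N, IsStarProjection p ∧ ‖star g * h * g‖ ≤ 1 ∧
      star (1 - g) * h * (1 - g) ≤ (h - 1) * p ∧ h ≤ 1 + (h - 1) * p ∧ 0 ≤ (h - 1) * p := by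
  have hs := h0.isSelfAdjoint
  obtain ⟨p, h1, h2, h3, h4⟩ := exists_spec hs 1
  have hγ : Continuous fun t : ℝ => (√(max t 1))⁻¹ :=
    Continuous.inv₀ (by fun_prop) fun t =>
      (Real.sqrt_pos.2 (lt_of_lt_of_le one_pos (le_max_right _ _))).ne'
  have e0 : ∀ f : ℝ → ℝ, Continuous f →
      star (cfc f h) * h * cfc f h = cfc (fun t => f t * t * f t) h := fun f hf => by
    rw [cfc_mul (fun t => f t * t) f h (by fun_prop) (by fun_prop),
      cfc_mul f (fun t => t) h (by fun_prop) (by fun_prop), cfc_id' ℝ h,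
      (cfc_predicate f h : IsSelfAdjoint _).star_eq]
  have e1 : h - 1 = cfc (fun t : ℝ => max (t - 1) 0) h - cfc (fun t : ℝ => max (1 - t) 0) h := by
    rw [← cfc_sub .., ← cfc_one ℝ h]
    nth_rewrite 1 [← cfc_id' ℝ h]
    rw [← cfc_sub ..]
    refine cfc_congr fun s _ => ?_
    rcases le_total s 1 with h | h
    · simp [h]
    · simp [h]
  have e2 : (h - 1) * p = cfc (fun t : ℝ => max (t - 1) 0) h := by
    rw [mul_sub, mul_one, sub_eq_zero] at h3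
    rw [e1, sub_mul, h4, sub_zero, ← h3]
  have e3 : 1 - cfc (fun t : ℝ => (√(max t 1))⁻¹) h = cfc (fun t : ℝ => 1 - (√(max t 1))⁻¹) h := by
    rw [cfc_sub (fun _ => 1) _ h (by fun_prop) hγ.continuousOn, cfc_const_one ℝ h]
  refine ⟨_, vn_cfc_mem N (fun t : ℝ => (√(max t 1))⁻¹) hN, p,
    vn_mem_of_commute N fun T hT => h2 T (vn_commute N hN hT), h1, ?_, ?_, ?_, ?_⟩
  · rw [e0 _ hγ]
    refine norm_cfc_le zero_le_one fun t ht => ?_
    have t0 : 0 ≤ t := spectrum_nonneg_of_nonneg h0 ht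
    have t1 : 0 < max t 1 := lt_of_lt_of_le one_pos (le_max_right _ _)
    rw [Real.norm_of_nonneg (by positivity), mul_right_comm, ← mul_inv, Real.mul_self_sqrt t1.le,
      inv_mul_le_iff₀ t1, mul_one]
    exact le_max_left _ _
  · have hγ' : Continuous fun t : ℝ => 1 - (√(max t 1))⁻¹ := continuous_const.sub hγ
    rw [e3, e0 _ hγ', e2]
    refine cfc_mono (fun t _ => ?_) ((hγ'.mul continuous_id).mul hγ').continuousOn (by fun_prop)
    rcases le_total t 1 with h | h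
    · simp [h]
    · have a1 : 1 ≤ √t := Real.one_le_sqrt.2 h
      have a2 : √t * √t = t := Real.mul_self_sqrt (by linarith)
      have a3 : (1 - (√t)⁻¹) * t * (1 - (√t)⁻¹) = (√t - 1) ^ 2 := by
        nth_rewrite 2 [← a2]
        field_simp
      rw [max_eq_left h, max_eq_left (sub_nonneg.2 h), a3]
      nlinarith
  · rw [e2, ← sub_le_iff_le_add', e1]
    exact sub_le_self _ (cfc_nonneg fun s _ => le_max_right _ _)
  · rw [e2]
    exact cfc_nonneg fun s _ => le_max_right _ _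

omit [PartialOrder D] [StarOrderedRing D] in
theorem unit_qdua {a : D} (ha : a ∈ unitary D) : ‖π a‖ ≤ 1 ∧ ‖a‖ ≤ 1 := by
  have h1 : ‖a‖ ≤ 1 := by
    rcases subsingleton_or_nontrivial D with h | h
    · rw [Subsingleton.elim a 0, norm_zero]
      exact zero_le_one
    · exact (CStarRing.norm_of_mem_unitary ha).le
  exact ⟨(NonUnitalStarAlgHom.norm_apply_le π a).trans h1, h1⟩

theorem split_qdua {ξ : H} (hξ : TrVec N ξ) (h1 : ‖ξ‖ = 1) {I : Type*} [Fintype I] [DecidableEq I]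
    {x : Matrix I I ℂ} (hx : Contr x) {b : I → (H →L[ℂ] H)} (hb : ∀ k, b k ∈ N)
    {v g : H →L[ℂ] H} (hv : v ∈ N) (hv1 : ‖v‖ ≤ 1) (hg : g ∈ N) {r ε : ℝ} (hε : 0 < ε)
    (r1 : ∑ k, ‖b k ξ‖ ^ 2 ≤ 1 + r) (r2 : ∑ k, ‖(b k * g) ξ‖ ^ 2 ≤ 1)
    (r3 : ∑ k, ‖(b k * (1 - g)) ξ‖ ^ 2 ≤ r) :
    (⟪v ξ, tmap b x ξ⟫_ℂ).re ≤ 1 + r ∧ (⟪v ξ, tmap b x ξ⟫_ℂ).re ≤
      (⟪v ξ, tmap (fun k => b k * g) x ξ⟫_ℂ).re + (ε * (1 + r / 2) + r / ε) := by
  have tr : ∀ c : I → (H →L[ℂ] H), (∀ k, c k ∈ N) →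
      ∑ k, ‖c k (v ξ)‖ ^ 2 ≤ ∑ k, ‖c k ξ‖ ^ 2 := fun c hc =>
    Finset.sum_le_sum fun k _ => pow_le_pow_left₀ (norm_nonneg _)
      ((hξ.norm_mul_le (hc k) hv).trans (mul_le_of_le_one_left (norm_nonneg _) hv1)) 2
  have t1 := (tr b hb).trans r1
  have t3 := (tr _ fun k => mul_mem (hb k) (sub_mem (one_mem N) hg)).trans r3
  constructor
  · have := bil_qdua hx (fun j => b j (v ξ)) (fun k => b k ξ) one_pos
    rw [inner_tmap]
    linarith
  · have a1 := bil_qdua hx (fun j => b j (v ξ)) (fun k => (b k * (1 - g)) ξ) hε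
    have a2 := bil_qdua hx (fun j => (b j * (1 - g)) (v ξ)) (fun k => (b k * g) ξ)
      (inv_pos.2 hε)
    have e : ∀ k ζ, b k ζ = (b k * g) ζ + (b k * (1 - g)) ζ := fun k ζ => by
      rw [← ContinuousLinearMap.add_apply, ← mul_add, add_sub_cancel, mul_one]
    have e1 : ⟪v ξ, tmap b x ξ⟫_ℂ = ⟪v ξ, tmap (fun k => b k * g) x ξ⟫_ℂ +
        ∑ j, ⟪(b j * (1 - g)) (v ξ), ∑ k, x j k • (b k * g) ξ⟫_ℂ +
        ∑ j, ⟪b j (v ξ), ∑ k, x j k • (b k * (1 - g)) ξ⟫_ℂ := by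
      rw [inner_tmap, inner_tmap, ← Finset.sum_add_distrib, ← Finset.sum_add_distrib]
      refine Finset.sum_congr rfl fun j _ => ?_
      rw [← inner_add_left, ← e, ← inner_add_right, ← Finset.sum_add_distrib]
      simp only [← smul_add, ← e]
    have b1 := mul_le_mul_of_nonneg_left t1 (half_pos hε).le
    have b2 := mul_le_mul_of_nonneg_left r3 (show 0 ≤ 1 / (2 * ε) by positivity)
    have b3 := mul_le_mul_of_nonneg_left t3 (show 0 ≤ ε⁻¹ / 2 by positivity)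
    have b4 := mul_le_mul_of_nonneg_left r2 (show 0 ≤ 1 / (2 * ε⁻¹) by positivity)
    have e2 : ε * (1 + r / 2) + r / ε =
        ε / 2 * (1 + r) + 1 / (2 * ε) * r + ε⁻¹ / 2 * r + 1 / (2 * ε⁻¹) * 1 := by
      field_simp
      ring
    rw [e1, Complex.add_re, Complex.add_re, e2]
    linarith

/-- Duality: failure of the matrix approximation gives a majorant. -/
theorem dual_of_not_ams (hπ : ∀ a, π a ∈ N) {ξ : H} (hξ : TrVec N ξ) (h1 : ‖ξ‖ = 1)
    (h : ¬ AMS π N ξ) :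
    ∃ (m : ℕ) (u : Fin (m + 1) → D) (c : ℝ) (y : H →L[ℂ] H), (∀ i, u i ∈ unitary D) ∧ 0 < c ∧
      y ∈ N ∧ 0 ≤ y ∧ ‖y‖ ≤ 2 ∧ (⟪ξ, y ξ⟫_ℂ).re ≤ 1 - c ∧
      ∀ (I : Type) [Fintype I] [DecidableEq I] (θ : D →ₗ[ℂ] Matrix I I ℂ) (b : I → (H →L[ℂ] H)),
        IsCCP θ → (∀ k, b k ∈ N) →
        av (fun i => (⟪π (u i) ξ, tmap b (θ (u i)) ξ⟫_ℂ).re) ≤
          (⟪y ξ, (∑ k, star (b k) * b k) ξ⟫_ℂ).re := by
  classical
  unfold AMS at h
  simp only [not_forall] at h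
  obtain ⟨U, hU, δ, hδ, h⟩ := h
  set u : Fin (U.card + 1) → D := Fin.cons 1 fun i => (U.equivFin.symm i : D) with hu
  have hu1 : ∀ i, u i ∈ unitary D := fun i => by
    refine Fin.cases (one_mem _) (fun i => ?_) i
    exact hU _ (U.equivFin.symm i).2
  have hu2 : ∀ a ∈ U, ∃ i, u i = a := fun a ha => ⟨(U.equivFin ⟨a, ha⟩).succ, by simp [hu]⟩
  set A : Dat_qdua D N → ℝ := fun s =>
    av (fun i => (⟪π (u i) ξ, tmap s.b (s.θ (u i)) ξ⟫_ℂ).re) with hA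
  set C : Dat_qdua D N → (H →L[ℂ] H) := fun s => ∑ k, star (s.b k) * s.b k with hC
  have hn : (0 : ℝ) < Fintype.card (Fin (U.card + 1)) := Nat.cast_pos.2 Fintype.card_pos
  set c0 : ℝ := (Fintype.card (Fin (U.card + 1)) : ℝ)⁻¹ * (δ ^ 2 / 2) with hc0
  have hc0' : 0 < c0 := by positivity
  have hξξ : (⟪ξ, ξ⟫_ℂ).re = 1 := by
    rw [← RCLike.re_to_complex, inner_self_eq_norm_sq, h1, one_pow]
  have s1 : ∀ s, ‖C s‖ ≤ 1 → A s ≤ 1 - c0 := fun s hs => by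
    have h2 : ∃ a ∈ U, δ < ‖(π a - tmap s.b (s.θ a)) ξ‖ := by
      by_contra h3
      exact h ⟨s.I, s.fI, s.dI, s.θ, s.b, s.ccp, s.mem, hs, fun a ha =>
        not_lt.1 fun h4 => h3 ⟨a, ha, h4⟩⟩
    obtain ⟨a, ha, h2⟩ := h2
    obtain ⟨i0, rfl⟩ := hu2 a ha
    have h3 : ∀ i, ‖(π (u i) - tmap s.b (s.θ (u i))) ξ‖ ^ 2 / 2 ≤
        1 - (⟪π (u i) ξ, tmap s.b (s.θ (u i)) ξ⟫_ℂ).re := fun i => by
      obtain ⟨n1, n2⟩ := unit_qdua (π := π) (hu1 i)
      have n3 := ((π (u i)).le_opNorm ξ).trans (mul_le_mul_of_nonneg_right n1 (norm_nonneg _))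
      have n4 := ((tmap s.b (s.θ (u i))).le_opNorm ξ).trans (mul_le_mul_of_nonneg_right
        (norm_tmap_le s.b hs (s.ccp.contr n2)) (norm_nonneg _))
      rw [h1, mul_one] at n3 n4
      rw [ContinuousLinearMap.sub_apply, norm_sub_sq (𝕜 := ℂ), RCLike.re_to_complex]
      nlinarith [norm_nonneg (π (u i) ξ), norm_nonneg (tmap s.b (s.θ (u i)) ξ)]
    have h4 : δ ^ 2 / 2 ≤ ∑ i, (1 - (⟪π (u i) ξ, tmap s.b (s.θ (u i)) ξ⟫_ℂ).re) :=
      le_trans (le_trans (by gcongr) (h3 i0)) (Finset.single_le_sum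
        (f := fun i => 1 - (⟪π (u i) ξ, tmap s.b (s.θ (u i)) ξ⟫_ℂ).re)
        (fun i _ => le_trans (by positivity) (h3 i)) (Finset.mem_univ i0))
    have h5 : c0 ≤ av fun i => (1 - (⟪π (u i) ξ, tmap s.b (s.θ (u i)) ξ⟫_ℂ).re) :=
      mul_le_mul_of_nonneg_left h4 (by positivity)
    rw [av_sub, av_const] at h5
    exact le_sub_comm.1 h5
  set ε : ℝ := min (c0 / 4) 1 with hε
  have ε0 : 0 < ε := lt_min (by positivity) one_pos
  have ε1 : ε ≤ 1 := min_le_right _ _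
  have ε2 : ε ≤ c0 / 4 := min_le_left _ _
  have C0 : ∀ s, 0 ≤ C s := fun s => Finset.sum_nonneg fun k _ => star_mul_self_nonneg _
  have CN : ∀ s, C s ∈ N := fun s => sum_mem fun k _ => mul_mem (star_mem (s.mem k)) (s.mem k)
  have cA : ∀ s s' s2 : Dat_qdua D N, ∀ α β : ℝ,
      (∀ a, tmap s2.b (s2.θ a) = α • tmap s.b (s.θ a) + β • tmap s'.b (s'.θ a)) →
      A s2 = α * A s + β * A s' := fun s s' s2 α β h2 => by
    simp only [hA, h2, ContinuousLinearMap.add_apply, ContinuousLinearMap.smul_apply,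
      inner_add_right, Complex.add_re, ← Complex.coe_smul, inner_smul_right,
      Complex.re_ofReal_mul]
    rw [av_add, ← smul_eq_mul α, ← smul_eq_mul β, ← av_real_smul, ← av_real_smul]
    rfl
  have z0 : Dat_qdua D N := ⟨Unit, 0, fun _ => 0, ⟨Matrix.PosSemidef.zero, by
    rw [LinearMap.zero_apply, sub_zero]
    exact Matrix.PosSemidef.one⟩, fun _ => zero_mem N⟩
  haveI : Nonempty (Dat_qdua D N) := ⟨z0⟩
  obtain ⟨y, yN, y0, y2, hy⟩ := rnl N (fun _ : Unit => ξ) (V := 2) zero_le_two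
    (fun (s : Dat_qdua D N) _ => (C s - 1) ξ) (fun s => ε ^ 2 - 1 + A s)
    (fun s s' t t0 t1 => by
      obtain ⟨s2, e1, e2⟩ := comb_qdua s s' t0 (sub_nonneg.2 t1)
      refine ⟨s2, funext fun _ => ?_, ?_⟩
      · have e3 : C s2 - 1 = t • (C s - 1) + (1 - t) • (C s' - 1) := by
          rw [show C s2 = t • C s + (1 - t) • C s' from e1]
          module
        rw [e3]
        rfl
      · rw [cA s s' s2 _ _ e2]
        exact le_of_eq (by ring))
    (fun s δ' hδ' => by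
      obtain ⟨g, gN, p, pN, hp, g1, g2, g3, g4⟩ := cut_qdua (CN s) (C0 s)
      refine ⟨(2 : ℝ) • p, vn_real_smul_mem N _ pN, smul_nonneg zero_le_two hp.nonneg,
        smul_le_smul_of_nonneg_left hp.le_one zero_le_two, ?_⟩
      set r : ℝ := (⟪ξ, ((C s - 1) * p) ξ⟫_ℂ).re with hr
      have r0 : 0 ≤ r := by
        have := mono_qdua g4 ξ
        rwa [ContinuousLinearMap.zero_apply, inner_zero_right, Complex.zero_re] at this
      have cg : ∀ g : H →L[ℂ] H, ∑ k, star (s.b k * g) * (s.b k * g) = star g * C s * g :=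
        fun g => by simp only [hC, star_mul, Finset.mul_sum, Finset.sum_mul, mul_assoc]
      have r1 : ∑ k, ‖s.b k ξ‖ ^ 2 ≤ 1 + r := by
        have := mono_qdua g3 ξ
        rwa [col_qdua, ContinuousLinearMap.add_apply, inner_add_right, Complex.add_re,
          ContinuousLinearMap.one_apply, hξξ] at this
      have r2 : ∑ k, ‖(s.b k * g) ξ‖ ^ 2 ≤ 1 := by
        have := sum_norm_sq_le_of_col (fun k => s.b k * g) (by rwa [cg]) ξ
        rwa [h1, one_pow] at this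
      have r3 : ∑ k, ‖(s.b k * (1 - g)) ξ‖ ^ 2 ≤ r := by
        have := mono_qdua g2 ξ
        rwa [← cg, col_qdua] at this
      have k := fun i => split_qdua hξ h1 (s.ccp.contr (unit_qdua (π := π) (hu1 i)).2) s.mem
        (hπ (u i)) (unit_qdua (π := π) (hu1 i)).1 gN ε0 r1 r2 r3
      have k1 : A s ≤ 1 + r := (av_le_av fun i => (k i).1).trans_eq (av_const _)
      have k2 := av_le_av fun i => (k i).2
      rw [av_add, av_const] at k2
      have k3 := s1 ⟨s.I, s.θ, fun k => s.b k * g, s.ccp, fun k => mul_mem (s.mem k) gN⟩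
        ((congrArg norm (cg g)).trans_le g1)
      have k4 : A s ≤ 1 - c0 + (ε * (1 + r / 2) + r / ε) := k2.trans (add_le_add k3 le_rfl)
      have e4 : (∑ _i : Unit, ⟪(C s - 1) ξ, ((2 : ℝ) • p) ξ⟫_ℂ).re = 2 * r := by
        have sa : adjoint (C s - 1) = C s - 1 :=
          ((C0 s).isSelfAdjoint.sub (IsSelfAdjoint.one _)).adjoint_eq
        rw [Fintype.sum_unique, ContinuousLinearMap.smul_apply, ← Complex.coe_smul,
          inner_smul_right, Complex.re_ofReal_mul, ← ContinuousLinearMap.adjoint_inner_right, sa]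
        rfl
      rw [e4]
      rcases le_total r (ε ^ 2) with h2 | h2
      · have : r / ε ≤ ε := by
          rw [div_le_iff₀ ε0]
          linarith
        nlinarith
      · linarith)
  have y0' : 0 ≤ (⟪ξ, y ξ⟫_ℂ).re := by simpa using mono_qdua y0 ξ
  have hy' : ∀ (s : Dat_qdua D N) (t : ℝ), 0 ≤ t →
      ε ^ 2 - 1 + t * A s ≤ t * (⟪y ξ, C s ξ⟫_ℂ).re - (⟪ξ, y ξ⟫_ℂ).re := fun s t ht => by
    obtain ⟨s2, e1, e2⟩ := comb_qdua s s ht le_rfl
    have := hy s2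
    rw [cA s s s2 _ _ e2, show C s2 = t • C s + (0 : ℝ) • C s from e1, zero_smul, add_zero,
      zero_mul, add_zero, Fintype.sum_unique, ContinuousLinearMap.sub_apply, inner_sub_left,
      Complex.sub_re, ContinuousLinearMap.one_apply, ContinuousLinearMap.smul_apply,
      ← Complex.coe_smul, inner_smul_left, Complex.conj_ofReal, Complex.re_ofReal_mul] at this
    have e3 : (⟪y ξ, C s ξ⟫_ℂ).re = (⟪C s ξ, y ξ⟫_ℂ).re := inner_re_symm (𝕜 := ℂ) _ _
    rwa [e3]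
  refine ⟨U.card, u, ε ^ 2, y, hu1, by positivity, yN, y0, ?_, ?_, fun I _ _ θ b hθ hb => ?_⟩
  · refine (CStarAlgebra.norm_le_norm_of_nonneg_of_le y0 y2).trans ?_
    rw [norm_smul, Real.norm_two]
    exact mul_le_of_le_one_right zero_le_two ContinuousLinearMap.norm_id_le
  · have := hy' z0 0 le_rfl
    linarith
  · set s : Dat_qdua D N := ⟨I, θ, b, hθ, hb⟩ with hs
    change A s ≤ (⟪y ξ, C s ξ⟫_ℂ).re
    by_contra h2
    have h3 := sub_pos.2 (not_le.1 h2)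
    have h4 := hy' s (A s - (⟪y ξ, C s ξ⟫_ℂ).re)⁻¹ (inv_pos.2 h3).le
    have h5 := inv_mul_cancel₀ h3.ne'
    rw [mul_sub] at h5
    have : 0 < ε ^ 2 := by positivity
    linarith

end Ulam
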