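import Pool.Agent.P.MP_3be8c7_an.QMONO
import Pool.Agent.P.MP_3be8c7_an.QD

open scoped ComplexOrder InnerProductSpace
open Filter Topology
open ContinuousLinearMap (adjoint)

noncomputable section

namespace Ulam

universe u v w

variable {H : Type v} [NormedAddCommGroup H] [InnerProductSpace ℂ H] [CompleteSpace H]
variable {K : Type w} [NormedAddCommGroup K] [InnerProductSpace ℂ K] [CompleteSpace K]

theorem nonneg_qemb (V : K →L[ℂ] H) : 0 ≤ adjoint V ∘L V :=
  (ContinuousLinearMap.nonneg_iff_isPositive _).2 (ContinuousLinearMap.isPositive_adjoint_comp_self V)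

/-- The adjoint of an intertwiner of unitaries is an intertwiner. -/
theorem adj_qemb {a : K →L[ℂ] K} {b : H →L[ℂ] H} (ha : a ∈ unitary (K →L[ℂ] K))
    (hb : b ∈ unitary (H →L[ℂ] H)) {V : K →L[ℂ] H} (h : V ∘L a = b ∘L V) :
    a ∘L adjoint V = adjoint V ∘L b := by
  have h1 : adjoint a ∘L adjoint V = adjoint V ∘L adjoint b := by
    rw [← ContinuousLinearMap.adjoint_comp, ← ContinuousLinearMap.adjoint_comp, h]
  have h2 : a ∘L adjoint a = 1 := ha.2
  have h3 : adjoint b ∘L b = 1 := hb.1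
  calc a ∘L adjoint V = a ∘L (adjoint V ∘L (adjoint b ∘L b)) := by
        rw [h3]; rfl
    _ = a ∘L ((adjoint a ∘L adjoint V) ∘L b) := by rw [h1]; rfl
    _ = (a ∘L adjoint a) ∘L (adjoint V ∘L b) := rfl
    _ = adjoint V ∘L b := by rw [h2]; rfl

theorem le_qemb {D : K →L[ℂ] K} (h0 : 0 ≤ D) (h1 : D ≤ 1) {t : H →L[ℂ] K} (ht : ‖t‖ ≤ 1) :
    adjoint (adjoint t ∘L D) ∘L (adjoint t ∘L D) ≤ D := by
  have hs : IsSelfAdjoint D := IsSelfAdjoint.of_nonneg h0
  have h2 : 0 ≤ t ∘L adjoint t := by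
    simpa using nonneg_qemb (adjoint t)
  have h3 : t ∘L adjoint t ≤ 1 := by
    rw [← CStarAlgebra.norm_le_one_iff_of_nonneg _ h2]
    refine (ContinuousLinearMap.opNorm_comp_le _ _).trans ?_
    rw [LinearIsometryEquiv.norm_map]
    exact mul_le_one₀ ht (norm_nonneg _) ht
  have h4 := hs.conjugate_le_conjugate h3
  have h5 : D ^ 2 ≤ D ^ 1 := CStarAlgebra.pow_antitone h0 h1 (by norm_num : 1 ≤ 2)
  rw [mul_one] at h4
  rw [pow_one, sq] at h5
  refine le_trans (le_of_eq ?_) (h4.trans h5)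
  rw [ContinuousLinearMap.adjoint_comp, ContinuousLinearMap.adjoint_adjoint,
    ← ContinuousLinearMap.star_eq_adjoint D, hs.star_eq]
  rfl

theorem emb {X : Type*} (α : X → (K →L[ℂ] K)) (β : X → (H →L[ℂ] H))
    (hα : ∀ x, α x ∈ unitary (K →L[ℂ] K)) (hβ : ∀ x, β x ∈ unitary (H →L[ℂ] H))
    (htot : ∀ ζ : K, (∀ t : H →L[ℂ] K, (∀ x, α x ∘L t = t ∘L β x) → adjoint t ζ = 0) → ζ = 0)
    {q : K →L[ℂ] K} (hq : IsStarProjection q) (hqα : ∀ x, Commute q (α x)) :
    ∃ (I : Type (max v w)) (V : I → (K →L[ℂ] H)), (∀ i x, V i ∘L α x = β x ∘L V i) ∧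
      ∀ ζ, HasSum (fun i => adjoint (V i) (V i ζ)) (q ζ) := by
  classical
  obtain ⟨S, hS⟩ := zorn_subset {S : Set (K →L[ℂ] H) |
      (∀ V ∈ S, ∀ x, V ∘L α x = β x ∘L V) ∧
        ∀ s : Finset (K →L[ℂ] H), ↑s ⊆ S → ∑ V ∈ s, adjoint V ∘L V ≤ q} (by
    intro c hc hch
    refine ⟨⋃ i ∈ c, i, ⟨fun V hV => ?_, fun s hs => ?_⟩, fun s hs => Set.subset_biUnion_of_mem
      (u := fun i => i) hs⟩
    · obtain ⟨i, hi, hV⟩ := Set.mem_iUnion₂.1 hV
      exact (hc hi).1 V hV
    · rcases c.eq_empty_or_nonempty with rfl | hn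
      · have : s = ∅ := by simpa using hs
        rw [this, Finset.sum_empty]
        exact hq.nonneg
      · obtain ⟨i, hi, hsi⟩ := DirectedOn.exists_mem_subset_of_finset_subset_biUnion
          (f := fun i => i) hn hch.directedOn hs
        exact (hc hi).2 s hsi)
  obtain ⟨hS1, hS2⟩ := hS.prop
  set T : S → (K →L[ℂ] K) := fun V => adjoint V.1 ∘L V.1 with hT
  have hT0 : ∀ V, 0 ≤ T V := fun V => nonneg_qemb _
  have hTq : ∀ s : Finset S, ∑ V ∈ s, T V ≤ q := fun s => by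
    have := hS2 (s.map (Function.Embedding.subtype _)) (by
      intro V hV
      obtain ⟨W, -, rfl⟩ := Finset.mem_map.1 (Finset.mem_coe.1 hV)
      exact W.2)
    rwa [Finset.sum_map] at this
  obtain ⟨G, -, -, hG⟩ := mono_sum T hT0 (C := ‖q‖) fun s =>
    CStarAlgebra.norm_le_norm_of_nonneg_of_le (Finset.sum_nonneg fun V _ => hT0 V) (hTq s)
  have hW : WL atTop (fun s : Finset S => ∑ V ∈ s, T V) G := WL.of_sot fun ξ => by
    simp only [sum_apply]
    exact hG ξ
  have hD0 : 0 ≤ q - G := ((WL.const q).sub hW).nonneg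
    (Eventually.of_forall fun s => sub_nonneg.2 (hTq s))
  have hle : ∀ s : Finset S, ∑ V ∈ s, T V ≤ G := fun s => sub_nonneg.1
    ((hW.sub (WL.const _)).nonneg ((eventually_ge_atTop s).mono fun t ht => sub_nonneg.2
      (Finset.sum_le_sum_of_subset_of_nonneg ht fun V _ _ => hT0 V)))
  have hD1 : q - G ≤ 1 := (sub_le_self _ (by simpa using hle ∅)).trans hq.le_one
  have hGα : ∀ x, Commute (α x) G := fun x => hW.commute (Eventually.of_forall fun s =>
    Commute.sum_right _ _ _ fun V _ => by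
      have h1 := hS1 V V.2 x
      have h2 := adj_qemb (hα x) (hβ x) h1
      calc α x * T V = (α x ∘L adjoint V.1) ∘L V.1 := rfl
        _ = adjoint V.1 ∘L (β x ∘L V.1) := by rw [h2]; rfl
        _ = T V * α x := by rw [← h1]; rfl)
  have hDα : ∀ x, Commute (α x) (q - G) := fun x => (hqα x).symm.sub_right (hGα x)
  have hadd : ∀ W : K →L[ℂ] H, (∀ x, W ∘L α x = β x ∘L W) → adjoint W ∘L W ≤ q - G → W ∈ S := by
    intro W hW1 hW2
    refine hS.le_of_ge (y := insert W S) ⟨?_, fun s hs => ?_⟩ (Set.subset_insert _ _)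
      (Set.mem_insert _ _)
    · rintro V (rfl | hV)
      · exact hW1
      · exact hS1 V hV
    · have h1 : ∀ V ∈ s.erase W, V ∈ S := fun V hV =>
        (hs (Finset.mem_of_mem_erase hV)).resolve_left (Finset.ne_of_mem_erase hV)
      have h2 := hle ((s.erase W).subtype (· ∈ S))
      rw [hT, Finset.sum_subtype_of_mem (fun V : K →L[ℂ] H => adjoint V ∘L V) h1] at h2
      calc ∑ V ∈ s, adjoint V ∘L V ≤ ∑ V ∈ insert W (s.erase W), adjoint V ∘L V :=
            Finset.sum_le_sum_of_subset_of_nonneg (Finset.insert_erase_subset W s)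
              fun V _ _ => nonneg_qemb V
        _ = adjoint W ∘L W + ∑ V ∈ s.erase W, adjoint V ∘L V :=
            Finset.sum_insert (Finset.notMem_erase W s)
        _ ≤ (q - G) + G := add_le_add hW2 h2
        _ = q := sub_add_cancel _ _
  have hz : q - G = 0 := by
    ext ζ
    refine htot _ fun t ht => ?_
    by_contra hne
    have ht0 : 0 < ‖t‖ := norm_pos_iff.2 (by rintro rfl; simp at hne)
    set V : ℝ → (K →L[ℂ] H) := fun c => adjoint ((c : ℂ) • t) ∘L (q - G) with hV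
    have hVc : ∀ c : ℝ, V c = (c : ℂ) • V 1 := fun c => by
      simp only [hV, map_smulₛₗ, Complex.conj_ofReal, Complex.ofReal_one, one_smul,
        ContinuousLinearMap.smul_comp]
    have hV1 : V 1 ζ ≠ 0 := by simpa [hV] using hne
    have hmem : ∀ c ∈ Set.Icc (‖t‖⁻¹ / 2) ‖t‖⁻¹, V c ∈ S := fun c hc => by
      have hc0 : 0 ≤ c := le_trans (by positivity) hc.1
      refine hadd _ (fun x => ?_) (le_qemb hD0 hD1 ?_)
      · have h1 : ((c : ℂ) • t) ∘L β x = α x ∘L ((c : ℂ) • t) := by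
          rw [ContinuousLinearMap.smul_comp, ContinuousLinearMap.comp_smul, ht]
        have h2 := adj_qemb (hβ x) (hα x) h1
        calc V c ∘L α x = adjoint ((c : ℂ) • t) ∘L ((q - G) * α x) := rfl
          _ = (adjoint ((c : ℂ) • t) ∘L α x) ∘L (q - G) := by rw [← (hDα x).eq]; rfl
          _ = β x ∘L V c := by rw [← h2]; rfl
      · rw [norm_smul, Complex.norm_real, Real.norm_of_nonneg hc0]
        calc c * ‖t‖ ≤ ‖t‖⁻¹ * ‖t‖ := mul_le_mul_of_nonneg_right hc.2 ht0.le
          _ = 1 := inv_mul_cancel₀ ht0.ne'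
    have hlim : Tendsto (fun W : S => (⟪ζ, T W ζ⟫_ℂ).re) cofinite (𝓝 0) := by
      have h1 := (hG ζ).summable.tendsto_cofinite_zero
      have h2 := (Complex.continuous_re.tendsto _).comp
        ((tendsto_const_nhds (x := ζ)).inner (𝕜 := ℂ) h1)
      rw [inner_zero_right, Complex.zero_re] at h2
      exact h2
    have hpos : 0 < (‖t‖⁻¹ / 2 * ‖V 1 ζ‖) ^ 2 := by
      have := norm_pos_iff.2 hV1
      positivity
    have hfin := (eventually_cofinite.1 (hlim.eventually (gt_mem_nhds hpos))).image Subtype.val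
    have hinf : (V '' Set.Icc (‖t‖⁻¹ / 2) ‖t‖⁻¹).Infinite := by
      refine (Set.Icc_infinite (half_lt_self (inv_pos.2 ht0))).image fun a _ b _ hab => ?_
      have h1 : (a : ℂ) • V 1 ζ = (b : ℂ) • V 1 ζ := by
        have := congrArg (fun W : K →L[ℂ] H => W ζ) hab
        simpa only [hVc a, hVc b, smul_apply] using this
      exact Complex.ofReal_injective (smul_left_injective ℂ hV1 h1)
    refine hinf (hfin.subset ?_)
    rintro _ ⟨c, hc, rfl⟩
    refine ⟨⟨V c, hmem c hc⟩, ?_, rfl⟩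
    have hc0 : 0 ≤ c := le_trans (by positivity) hc.1
    have h1 : (⟪ζ, T ⟨V c, hmem c hc⟩ ζ⟫_ℂ).re = ‖V c ζ‖ ^ 2 := by
      simp only [hT, ContinuousLinearMap.comp_apply, ContinuousLinearMap.adjoint_inner_right]
      exact inner_self_eq_norm_sq (𝕜 := ℂ) _
    simp only [Set.mem_ofPred_eq, not_lt, h1]
    rw [hVc c, smul_apply, norm_smul, Complex.norm_real,
      Real.norm_of_nonneg hc0]
    exact pow_le_pow_left₀ (by positivity) (mul_le_mul_of_nonneg_right hc.1 (norm_nonneg _)) 2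
  refine ⟨S, Subtype.val, fun V => hS1 V V.2, fun ζ => ?_⟩
  rw [sub_eq_zero.1 hz]
  exact hG ζ

end Ulam
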