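import Pool.Agent.P.MP_3be8c7_an.QD

open scoped ComplexOrder InnerProductSpace
open Filter Topology
open ContinuousLinearMap (adjoint)

noncomputable section

namespace Ulam

universe u v w

theorem norm_comb_qpp {R : Type*} [CStarAlgebra R] [Nontrivial R] {e : R}
    (he : IsStarProjection e) (a b : ℝ) : ‖a • e + b • (1 - e)‖ ≤ max |a| |b| := by
  have h1 : IsSelfAdjoint (e - (1 - e)) := he.isSelfAdjoint.sub he.one_sub.isSelfAdjoint
  have h2 : (e - (1 - e)) * (e - (1 - e)) = 1 := by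
    simp only [sub_mul, mul_sub, he.isIdempotentElem.eq, one_mul, mul_one]
    abel
  have h3 : ‖e - (1 - e)‖ = 1 := CStarRing.norm_of_mem_unitary
    ⟨by rw [h1.star_eq, h2], by rw [h1.star_eq, h2]⟩
  have h4 : a • e + b • (1 - e) = ((a + b) / 2) • (1 : R) + ((a - b) / 2) • (e - (1 - e)) := by
    module
  rw [h4]
  refine (norm_add_le _ _).trans ?_
  rw [norm_smul, norm_smul, h3, norm_one, mul_one, mul_one, Real.norm_eq_abs, Real.norm_eq_abs]
  have a1 := le_max_left |a| |b|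
  have a2 := le_max_right |a| |b|
  have a3 := le_abs_self a
  have a4 := neg_abs_le a
  have a5 := le_abs_self b
  have a6 := neg_abs_le b
  rcases abs_cases ((a + b) / 2) with c | c <;> rcases abs_cases ((a - b) / 2) with d | d <;>
    linarith [c.1, d.1]

theorem spec_qpp {R : Type*} [CStarAlgebra R] [Nontrivial R] {y e : R}
    (he : IsStarProjection e) {θ : ℝ} (h : ‖y - e‖ ≤ θ) {t : ℝ} (ht : t ∈ spectrum ℝ y) :
    |t| ≤ θ ∨ |t - 1| ≤ θ := by
  by_contra hc
  rw [not_or, not_le, not_le] at hc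
  have h0 : 0 ≤ θ := (norm_nonneg _).trans h
  have t0 : 0 < |t| := h0.trans_lt hc.1
  have t1 : 0 < |t - 1| := h0.trans_lt hc.2
  set w : R := (t - 1)⁻¹ • e + t⁻¹ • (1 - e) with hw
  set x : R := (t - 1) • e + t • (1 - e) with hx
  have key : ∀ a b a' b' : ℝ, a * a' = 1 → b * b' = 1 →
      (a • e + b • (1 - e)) * (a' • e + b' • (1 - e)) = 1 := fun a b a' b' h1 h2 => by
    simp only [add_mul, mul_add, smul_mul_smul_comm, he.isIdempotentElem.eq,
      he.one_sub.isIdempotentElem.eq, he.isIdempotentElem.mul_one_sub_self,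
      he.isIdempotentElem.one_sub_mul_self, smul_zero, add_zero, zero_add, h1, h2, one_smul,
      add_sub_cancel]
  have e1 : x * w = 1 := key _ _ _ _ (mul_inv_cancel₀ (abs_pos.1 t1)) (mul_inv_cancel₀ (abs_pos.1 t0))
  have e2 : w * x = 1 := key _ _ _ _ (inv_mul_cancel₀ (abs_pos.1 t1)) (inv_mul_cancel₀ (abs_pos.1 t0))
  have h3 : ‖w * (y - e)‖ < 1 := by
    refine (norm_mul_le _ _).trans_lt ((mul_le_mul (norm_comb_qpp he _ _) h (norm_nonneg _)
      (le_max_of_le_left (abs_nonneg _))).trans_lt ?_)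
    rcases max_cases |(t - 1)⁻¹| |t⁻¹| with c | c <;> rw [c.1, abs_inv, inv_mul_lt_one₀ ‹_›]
    exacts [hc.2, hc.1]
  have h4 : IsUnit (x * (1 - w * (y - e))) :=
    IsUnit.mul ⟨⟨x, w, e1, e2⟩, rfl⟩ (Units.oneSub _ h3).isUnit
  refine ht (spectrum.mem_resolventSet_iff.2 ?_)
  rw [mul_sub, mul_one, ← mul_assoc, e1, one_mul] at h4
  rw [Algebra.algebraMap_eq_smul_one, show t • (1 : R) - y = x - (y - e) by rw [hx]; module]
  exact h4

theorem proj_near {R : Type*} [CStarAlgebra R] {y e : R} (hy : IsSelfAdjoint y)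
    (he : IsStarProjection e) {θ : ℝ} (hθ : θ < 1 / 2) (h : ‖y - e‖ ≤ θ) :
    ∃ p : R, IsStarProjection p ∧ ‖p - e‖ ≤ 2 * θ ∧ ∀ T, Commute T y → Commute T p := by
  have h0 : 0 ≤ θ := (norm_nonneg _).trans h
  rcases subsingleton_or_nontrivial R with hR | hR
  · exact ⟨e, he, by rw [sub_self, norm_zero]; linarith, fun T _ => Subsingleton.elim _ _⟩
  let f : ℝ → ℝ := fun t => max 0 (min 1 ((t - θ) / (1 - 2 * θ)))
  have hf : Continuous f := by fun_prop
  have h1 : ∀ t ∈ spectrum ℝ y, (f t = 0 ∧ |t| ≤ θ) ∨ (f t = 1 ∧ |t - 1| ≤ θ) := fun t ht => by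
    refine (spec_qpp he h ht).imp (fun a => ⟨max_eq_left (min_le_of_right_le ?_), a⟩)
      fun a => ⟨?_, a⟩
    · exact div_nonpos_of_nonpos_of_nonneg (by linarith [(abs_le.1 a).2]) (by linarith)
    · have : 1 ≤ (t - θ) / (1 - 2 * θ) := by
        rw [le_div_iff₀ (by linarith)]
        linarith [(abs_le.1 a).1]
      simp only [f, min_eq_left this, max_eq_right zero_le_one]
  refine ⟨cfc f y, ⟨?_, cfc_predicate f y⟩, ?_, fun T hT => (hT.symm.cfc_real f).symm⟩
  · rw [IsIdempotentElem, ← cfc_mul f f y]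
    refine cfc_congr fun t ht => ?_
    rcases h1 t ht with a | a <;> simp only [a.1, mul_zero, mul_one]
  · have h2 : ‖cfc f y - y‖ ≤ θ := by
      have e1 : cfc (fun t => f t - t) y = cfc f y - y := by
        rw [cfc_sub f (fun t => t) y, cfc_id' ℝ y]
      rw [← e1]
      refine norm_cfc_le h0 fun t ht => ?_
      rcases h1 t ht with a | a
      · rw [a.1, zero_sub, norm_neg]; exact a.2
      · rw [a.1, norm_sub_rev]; exact a.2
    linarith [norm_sub_le_norm_sub_add_norm_sub (cfc f y) y e]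

end Ulam
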