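import Pool.Agent.P.MP_3be8c7_an.QTRL
import Pool.Agent.P.MP_3be8c7_an.QPP

open scoped ComplexOrder InnerProductSpace
open Filter Topology
open ContinuousLinearMap (adjoint)

noncomputable section

namespace Ulam

universe u v w

section Banach

variable {B : Type*} [NormedRing B]

theorem n3_qend {x y z x' y' z' : B} {ε : ℝ} (hx : ‖x - x'‖ ≤ ε) (hy : ‖y - y'‖ ≤ ε)
    (hz : ‖z - z'‖ ≤ ε) (h1 : ‖y‖ ≤ 2) (h2 : ‖z‖ ≤ 2) (h3 : ‖x'‖ ≤ 2) (h4 : ‖y'‖ ≤ 2) :
    ‖x * y * z - x' * y' * z'‖ ≤ 12 * ε := by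
  have e0 : 0 ≤ ε := (norm_nonneg _).trans hx
  have e : x * y * z - x' * y' * z' =
      (x - x') * y * z + x' * (y - y') * z + x' * y' * (z - z') := by noncomm_ring
  have a1 : ‖(x - x') * y * z‖ ≤ ε * 2 * 2 := norm_mul₃_le.trans (by gcongr)
  have a2 : ‖x' * (y - y') * z‖ ≤ 2 * ε * 2 := norm_mul₃_le.trans (by gcongr)
  have a3 : ‖x' * y' * (z - z')‖ ≤ 2 * 2 * ε := norm_mul₃_le.trans (by gcongr)
  rw [e]
  linarith [norm_add₃_le (a := (x - x') * y * z) (b := x' * (y - y') * z) (c := x' * y' * (z - z'))]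

theorem n1_qend {x y z : B} {ε : ℝ} (hx : ‖x‖ ≤ 1) (hy : ‖y‖ ≤ ε) (hz : ‖z‖ ≤ 1) :
    ‖x * y * z‖ ≤ ε := by
  have e0 : 0 ≤ ε := (norm_nonneg _).trans hy
  have a1 : ‖x * y * z‖ ≤ 1 * ε * 1 := norm_mul₃_le.trans (by gcongr)
  linarith

/-- elements of the corner -/
def Cr_qend (r z : B) : Prop := r * z = z ∧ z * r = z

theorem Cr_qend.mul {r z w : B} (hz : Cr_qend r z) (hw : Cr_qend r w) : Cr_qend r (z * w) :=
  ⟨by rw [← mul_assoc, hz.1], by rw [mul_assoc, hw.2]⟩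

theorem Cr_qend.mm {r z w : B} (hr : r * r = r) (hz : Cr_qend r z) (hw : Cr_qend r w) :
    (1 - r + z) * (1 - r + w) = 1 - r + z * w := by
  simp only [add_mul, mul_add, sub_mul, mul_sub, one_mul, mul_one, hr, hz.2, hw.1]
  abel

variable [NormedAlgebra ℂ B] [CompleteSpace B]

theorem fin1_qend (τ : B →L[ℂ] ℂ) (hτ : ∀ a b, τ (a * b) = τ (b * a)) {r u u' v v' a b : B} {w : ℂ}
    (hr : r * r = r) (cu : Cr_qend r u) (cu' : Cr_qend r u') (cv : Cr_qend r v)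
    (cv' : Cr_qend r v') (ca : Cr_qend r a) (cb : Cr_qend r b) (u1 : u' * u = r) (u2 : u * u' = r)
    (v1 : v' * v = r) (v2 : v * v' = r) (hab : a * b = b * a) (hw : v' * u' = w • (u' * v'))
    (hw1 : w ≠ 1) (n1 : ‖u' * a - r‖ ≤ 1 / 20) (n2 : ‖v' * b - r‖ ≤ 1 / 20)
    (n3 : ‖v' * (u' * a - r) * v‖ ≤ 1 / 20) (n4 : ‖u' * (v' * b - r) * u‖ ≤ 1 / 20) : τ r = 0 := by
  have un : ∀ {z z' : B}, Cr_qend r z → Cr_qend r z' → z * z' = r →
      (1 - r + z) * (1 - r + z') = 1 := fun h h' e => by rw [h.mm hr h', e, sub_add_cancel]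
  have cj : ∀ {z z' c : B}, Cr_qend r z → Cr_qend r z' → Cr_qend r c →
      (1 - r + z') * (c - r) * (1 - r + z) = z' * (c - r) * z := fun h h' hc => by
    simp only [add_mul, mul_add, sub_mul, mul_sub, one_mul, mul_one, hr, hc.1, hc.2, mul_assoc,
      h'.2, h.1]
    abel
  have c1 := cu'.mul ca
  have c2 := cv'.mul cb
  have key := trl τ hτ ⟨1 - r + u, 1 - r + u', un cu cu' u2, un cu' cu u1⟩
    ⟨1 - r + v, 1 - r + v', un cv cv' v2, un cv' cv v1⟩ (u' * a - r) (v' * b - r) r (1 - w) n1 n2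
    ((congrArg norm (cj cv cv' c1)).trans_le n3) ((congrArg norm (cj cu cu' c2)).trans_le n4) hr (by
      change (1 + (1 - r + v') * (u' * a - r) * (1 - r + v)) * _ =
        _ * ((1 + (1 - r + u') * (v' * b - r) * (1 - r + u)) * _)
      have e1 : 1 + v' * (u' * a - r) * v = 1 - r + v' * (u' * a) * v := by
        rw [mul_sub, sub_mul, cv'.2, v1]; abel
      have e2 : 1 + u' * (v' * b - r) * u = 1 - r + u' * (v' * b) * u := by
        rw [mul_sub, sub_mul, cu'.2, u1]; abel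
      have e3 : ∀ z : B, 1 + (z - r) = 1 - r + z := fun z => by abel
      have e4 : 1 - (1 - w) • r = 1 - r + w • r := by rw [sub_smul, one_smul]; abel
      have c3 : Cr_qend r (w • r) := ⟨by rw [mul_smul_comm, hr], by rw [smul_mul_assoc, hr]⟩
      have c4 := (cu'.mul c2).mul cu
      rw [cj cv cv' c1, cj cu cu' c2, e1, e2, e3, e3, e4, ((cv'.mul c1).mul cv).mm hr c2,
        c4.mm hr c1, c3.mm hr (c4.mul c1), smul_mul_assoc, (c4.mul c1).1]
      congr 1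
      calc v' * (u' * a) * v * (v' * b) = v' * u' * (a * (v * v' * b)) := by noncomm_ring
        _ = w • (u' * v' * (b * (u * u' * a))) := by
          rw [v2, u2, cb.1, ca.1, hab, hw, smul_mul_assoc]
        _ = _ := by congr 1; noncomm_ring)
  exact (mul_eq_zero.1 key).resolve_left (sub_ne_zero.2 hw1.symm)

theorem fin2_qend (τ : B →L[ℂ] ℂ) {r u u' v v' a b : B} {w : ℂ}
    (hτ : ∀ x y, τ (r * x * r * y * r) = τ (r * y * r * x * r))
    (hr : r * r = r) (cu : Cr_qend r u) (cu' : Cr_qend r u') (cv : Cr_qend r v)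
    (cv' : Cr_qend r v') (ca : Cr_qend r a) (cb : Cr_qend r b) (u1 : u' * u = r) (u2 : u * u' = r)
    (v1 : v' * v = r) (v2 : v * v' = r) (hab : a * b = b * a) (hw : v' * u' = w • (u' * v'))
    (hw1 : w ≠ 1) (n1 : ‖u' * a - r‖ ≤ 1 / 20) (n2 : ‖v' * b - r‖ ≤ 1 / 20)
    (n3 : ‖v' * (u' * a - r) * v‖ ≤ 1 / 20) (n4 : ‖u' * (v' * b - r) * u‖ ≤ 1 / 20) : τ r = 0 := by
  let C : Subalgebra ℂ B := Subalgebra.centralizer ℂ {r}
  haveI : CompleteSpace C := (Set.isClosed_centralizer ({r} : Set B)).completeSpace_coe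
  have mem : ∀ {z : B}, Cr_qend r z → z ∈ C := fun h => by
    rintro _ rfl
    exact h.1.trans h.2.symm
  have cm : ∀ z : C, r * z = z * r := fun z => z.2 r rfl
  have e : ∀ z z' : C, r * z * r * z' * r = r * (z * z') := fun z z' => by
    rw [mul_assoc r, ← cm z, ← mul_assoc, hr, mul_assoc, ← cm z', ← mul_assoc, mul_assoc r, ← cm z,
      ← mul_assoc, hr, mul_assoc]
  let τ' : C →L[ℂ] ℂ :=
    τ ∘L ContinuousLinearMap.mul ℂ B r ∘L ⟨C.val.toLinearMap, continuous_subtype_val⟩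
  have cr : ∀ {z : B} (h : Cr_qend r z), Cr_qend (⟨r, mem ⟨hr, hr⟩⟩ : C) ⟨z, mem h⟩ := fun h =>
    ⟨Subtype.ext h.1, Subtype.ext h.2⟩
  have key := fin1_qend τ' (fun z z' => by
      change τ (r * (z * z')) = τ (r * (z' * z))
      rw [← e, ← e, hτ]) (w := w) (Subtype.ext hr) (cr cu) (cr cu') (cr cv) (cr cv') (cr ca) (cr cb)
    (Subtype.ext u1) (Subtype.ext u2) (Subtype.ext v1) (Subtype.ext v2) (Subtype.ext hab)
    (Subtype.ext hw) hw1 n1 n2 n3 n4
  rw [← hr]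
  exact key

end Banach

section CStar

variable {B : Type*} [CStarAlgebra B]

theorem le1_qend {a : B} (h : IsStarProjection (star a * a)) : ‖a‖ ≤ 1 := by
  have := h.norm_le
  rw [CStarRing.norm_star_mul_self] at this
  nlinarith [norm_nonneg a]

theorem near_qend {a a₀ : B} {θ : ℝ} (h0 : IsStarProjection (star a₀ * a₀)) (h : ‖a - a₀‖ ≤ θ)
    (hθ : θ ≤ 1 / 100) : ‖a‖ ≤ 2 ∧ ∃ q, IsStarProjection q ∧ ‖q - star a₀ * a₀‖ ≤ 24 * θ ∧
      ∀ T, Commute T a → Commute T (star a) → Commute T q := by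
  have h1 := le1_qend h0
  have h2 : ‖a‖ ≤ 2 := by linarith [norm_le_norm_add_norm_sub' a a₀]
  have h3 := (IsStarProjection.one B).norm_le
  have h4 := n3_qend (x := 1) (x' := 1) (y := star a) (y' := star a₀) (z := a) (z' := a₀) (ε := θ)
    (by rw [sub_self, norm_zero]; exact (norm_nonneg _).trans h) (by rwa [← star_sub, norm_star]) h
    (by rwa [norm_star]) h2 (by linarith) (by rw [norm_star]; linarith)
  rw [one_mul, one_mul] at h4
  obtain ⟨q, q1, q2, q3⟩ := proj_near (IsSelfAdjoint.star_mul_self a) h0 (by linarith) h4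
  exact ⟨h2, q, q1, by linarith, fun T t1 t2 => q3 T (t2.mul_right t1)⟩

theorem cnj_qend {q r g h a a₀ u : B} {ε : ℝ} (hq : IsStarProjection q) (hr : IsStarProjection r)
    (e1 : g * r = q * g) (e2 : r * h = h * q) (n1 : ‖q - r‖ ≤ ε) (n2 : ‖g - 1‖ ≤ 12 * ε)
    (n3 : ‖h - 1‖ ≤ 12 * ε) (n4 : ‖a - a₀‖ ≤ ε) (n5 : ‖a‖ ≤ 2) (n6 : ‖a₀‖ ≤ 1)
    (n7 : ‖r * a₀ * r - u‖ ≤ ε) (hε : ε ≤ 1 / 3000) (u1 : star u * u = r) :
    Cr_qend r (h * (q * a * q) * g) ∧ ‖star u * (h * (q * a * q) * g) - r‖ ≤ 1 / 20 := by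
  have q1 := hq.norm_le
  have r1 := hr.norm_le
  have o1 := (IsStarProjection.one B).norm_le
  have a1 := n3_qend n1 n4 n1 n5 (by linarith) (by linarith) (by linarith)
  have a2 := n3_qend n3 a1 n2 (n1_qend q1 n5 q1)
    (by linarith [norm_le_norm_add_norm_sub' g 1]) (by linarith)
    (by linarith [n1_qend r1 n6 r1])
  rw [one_mul, mul_one] at a2
  refine ⟨⟨?_, ?_⟩, ?_⟩
  · simp only [← mul_assoc]
    rw [e2, mul_assoc h q q, hq.isIdempotentElem.eq]
  · simp only [mul_assoc]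
    rw [e1, ← mul_assoc q q g, hq.isIdempotentElem.eq]
  · have u2 : ‖star u‖ ≤ 1 := by rw [norm_star]; exact le1_qend (u1 ▸ hr)
    have a3 := norm_sub_le_norm_sub_add_norm_sub (h * (q * a * q) * g) (r * a₀ * r) u
    have a4 := n1_qend u2 (a3.trans (add_le_add a2 n7)) o1
    rw [mul_one, mul_sub, u1] at a4
    linarith

theorem cr_qend {u r : B} (hr : IsStarProjection r) (u1 : star u * u = r) (u2 : u * star u = r) :
    Cr_qend r u ∧ Cr_qend r (star u) := by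
  have h1 : u * r = u := by
    refine sub_eq_zero.1 ((CStarRing.star_mul_self_eq_zero_iff _).1 ?_)
    rw [star_sub, star_mul, hr.isSelfAdjoint.star_eq]
    simp only [sub_mul, mul_sub, mul_assoc, u1]
    simp only [← mul_assoc, u1]
    simp only [mul_assoc, u1, hr.isIdempotentElem.eq, sub_self]
  have h2 : r * u = u := by rw [← u2, mul_assoc, u1, h1]
  refine ⟨⟨h2, h1⟩, ?_, ?_⟩
  · simpa only [star_mul, hr.isSelfAdjoint.star_eq] using congrArg star h1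
  · simpa only [star_mul, hr.isSelfAdjoint.star_eq] using congrArg star h2

theorem core_qend (τ : B →L[ℂ] ℂ) {a b p a₀ b₀ p₀ r u v : B} {ω : ℂ} {θ : ℝ}
    (hθ : θ ≤ 1 / 10 ^ 6) (hτ : ∀ x y, τ (r * x * r * y * r) = τ (r * y * r * x * r))
    (hp : IsStarProjection p) (hp₀ : IsStarProjection p₀) (ha₀ : IsStarProjection (star a₀ * a₀))
    (hb₀ : IsStarProjection (star b₀ * b₀)) (c1 : Commute p₀ (star a₀ * a₀))
    (c2 : Commute p₀ (star b₀ * b₀)) (c3 : Commute (star a₀ * a₀) (star b₀ * b₀))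
    (er : r = p₀ * (star a₀ * a₀) * (star b₀ * b₀)) (ab : Commute a b) (ab' : Commute a (star b))
    (pa : Commute p a) (pb : Commute p b) (np : ‖p - p₀‖ ≤ θ) (na : ‖a - a₀‖ ≤ θ)
    (nb : ‖b - b₀‖ ≤ θ) (u1 : star u * u = r) (u2 : u * star u = r) (v1 : star v * v = r)
    (v2 : v * star v = r) (uv : u * v = ω • (v * u)) (ω1 : ω ≠ 1) (nu : ‖r * a₀ * r - u‖ ≤ θ)
    (nv : ‖r * b₀ * r - v‖ ≤ θ) : τ r = 0 := by
  have θ0 : 0 ≤ θ := (norm_nonneg _).trans np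
  have hr : IsStarProjection r := er ▸ (hp₀.mul ha₀ c1).mul hb₀ (c2.mul_left c3)
  have st : ∀ {q c : B}, IsStarProjection q → Commute q c → Commute q (star c) := fun h k => by
    simpa only [h.isSelfAdjoint.star_eq] using k.star_star
  obtain ⟨a2, s, s1, s2, s3⟩ := near_qend ha₀ na (by linarith)
  obtain ⟨b2, t, t1, t2, t3⟩ := near_qend hb₀ nb (by linarith)
  have bs : Commute b s := s3 b ab.symm (by simpa only [star_star] using ab'.star_star.symm)
  have ps : Commute p s := s3 p pa (st hp pa)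
  have at' : Commute a t := t3 a ab ab'
  have pt : Commute p t := t3 p pb (st hp pb)
  have ts : Commute s t := t3 s bs.symm (st s1 bs.symm)
  have hq : IsStarProjection (p * s * t) := (hp.mul s1 ps).mul t1 (pt.mul_left ts)
  have nq : ‖p * s * t - r‖ ≤ 12 * (24 * θ) := er ▸ n3_qend (by linarith) s2 t2
    (by linarith [s1.norm_le]) (by linarith [t1.norm_le]) (by linarith [hp₀.norm_le])
    (by linarith [ha₀.norm_le])
  have f1 : p * s * t = p * t * s := by rw [mul_assoc, ts.eq, mul_assoc]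
  have f2 : p * s * t = s * (p * t) := by rw [ps.eq, mul_assoc]
  have hpt := (hp.mul t1 pt).isIdempotentElem.eq
  have g1 : p * s * t * (p * t) = p * s * t := by rw [f2, mul_assoc, hpt]
  have g2 : p * t * (p * s * t) = p * s * t := by rw [f1, ← mul_assoc, hpt]
  have g3 : p * s * t * s = p * s * t := by rw [f1, mul_assoc, s1.isIdempotentElem.eq]
  have g4 : s * (p * s * t) = p * s * t := by rw [f2, ← mul_assoc, s1.isIdempotentElem.eq]
  have k1 : a * (p * s * t) * b = p * t * (a * b) * s := by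
    rw [f1, ← mul_assoc a, ← (pa.mul_left at'.symm).eq]
    simp only [mul_assoc, bs.eq]
  have k2 : b * (p * s * t) * a = s * (a * b) * (p * t) := by
    rw [f2, ← mul_assoc b, bs.eq, ab.eq]
    simp only [mul_assoc]
    rw [← (pa.mul_left at'.symm).eq, mul_assoc]
  generalize p * s * t = q at hq nq g1 g2 g3 g4 k1 k2
  have qq := hq.isIdempotentElem.eq
  have rr := hr.isIdempotentElem.eq
  have cq : q * a * q * (q * b * q) = q * b * q * (q * a * q) :=
    calc q * a * q * (q * b * q) = q * (a * (q * q) * b) * q := by noncomm_ring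
      _ = q * (p * t) * (a * b) * (s * q) := by rw [qq, k1]; noncomm_ring
      _ = q * s * (a * b) * (p * t * q) := by rw [g1, g2, g3, g4]
      _ = q * (b * (q * q) * a) * q := by rw [qq, k2]; noncomm_ring
      _ = _ := by noncomm_ring
  have o1 := (IsStarProjection.one B).norm_le
  have m1 : ‖(r - q) * (r - (1 - r))‖ ≤ 12 * (24 * θ) * 2 := (norm_mul_le _ _).trans
    (mul_le_mul (by rwa [norm_sub_rev]) (by
      linarith [norm_sub_le r (1 - r), hr.norm_le, hr.one_sub.norm_le]) (norm_nonneg _)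
      (by positivity))
  let G := Units.oneSub _ (m1.trans_lt (by linarith))
  have m2 : ‖(G : B) - 1‖ ≤ 576 * θ := by
    rw [Units.val_oneSub, sub_sub_cancel_left, norm_neg]; linarith
  have m3 : ‖(↑G⁻¹ : B) - 1‖ ≤ 1152 * θ := by
    have e : (↑G⁻¹ : B) - 1 = -(↑G⁻¹ * (G - 1)) := by rw [mul_sub, G.inv_mul, mul_one, neg_sub]
    have i1 := norm_le_norm_add_norm_sub' (↑G⁻¹ : B) 1
    have i2 : ‖(↑G⁻¹ : B) - 1‖ ≤ ‖(↑G⁻¹ : B)‖ * (576 * θ) := by
      rw [e, norm_neg]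
      exact (norm_mul_le _ _).trans (mul_le_mul_of_nonneg_left m2 (norm_nonneg _))
    nlinarith [norm_nonneg ((↑G⁻¹ : B) - 1)]
  have e1 : (G : B) * r = q * G := by
    simp only [G, Units.val_oneSub, sub_mul, mul_sub, one_mul, mul_one, mul_assoc, rr]
    simp only [← mul_assoc, qq]
    abel
  have e2 : r * (↑G⁻¹ : B) = ↑G⁻¹ * q := by
    rw [Units.mul_inv_eq_iff_eq_mul, mul_assoc, ← e1, Units.inv_mul_cancel_left]
  obtain ⟨ca, xa⟩ := cnj_qend hq hr e1 e2 nq (by linarith) (by linarith) (by linarith) a2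
    (le1_qend ha₀) (nu.trans (by linarith)) (by linarith) u1
  obtain ⟨cb, xb⟩ := cnj_qend hq hr e1 e2 nq (by linarith) (by linarith) (by linarith) b2
    (le1_qend hb₀) (nv.trans (by linarith)) (by linarith) v1
  have lu := le1_qend (u1 ▸ hr)
  have lv := le1_qend (v1 ▸ hr)
  refine fin2_qend τ (w := star ω) hτ rr (cr_qend hr u1 u2).1 (cr_qend hr u1 u2).2
    (cr_qend hr v1 v2).1 (cr_qend hr v1 v2).2 ca cb u1 u2 v1 v2 ?_ ?_ (fun e => ω1 ?_) xa xb
    (n1_qend (by rwa [norm_star]) xa lv) (n1_qend (by rwa [norm_star]) xb lu)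
  · have e : ∀ x y : B, ↑G⁻¹ * x * G * (↑G⁻¹ * y * G) = ↑G⁻¹ * (x * y) * G := fun x y => by
      simp only [mul_assoc, Units.mul_inv_cancel_left]
    rw [e, e, cq]
  · rw [← star_mul, uv, star_smul, star_mul]
  · rw [← star_star ω, e, star_one]

end CStar

theorem end_lemma : ∃ θ : ℝ, 0 < θ ∧ ∀ (B : Type u) [CStarAlgebra B] (S : StarSubalgebra ℂ B),
    IsClosed (S : Set B) → ∀ (τ : B →L[ℂ] ℂ) (a b p a₀ b₀ p₀ r u v : B) (ω : ℂ),
    a ∈ S → b ∈ S → p ∈ S → a₀ ∈ S → b₀ ∈ S → p₀ ∈ S → u ∈ S → v ∈ S →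
    (∀ x ∈ S, ∀ y ∈ S, τ (r * x * r * y * r) = τ (r * y * r * x * r)) → τ r ≠ 0 →
    IsStarProjection p → IsStarProjection p₀ → IsStarProjection (star a₀ * a₀) →
    IsStarProjection (star b₀ * b₀) → Commute p₀ (star a₀ * a₀) → Commute p₀ (star b₀ * b₀) →
    Commute (star a₀ * a₀) (star b₀ * b₀) → r = p₀ * (star a₀ * a₀) * (star b₀ * b₀) →
    Commute a b → Commute a (star b) → Commute p a → Commute p b →
    ‖p - p₀‖ ≤ θ → ‖a - a₀‖ ≤ θ → ‖b - b₀‖ ≤ θ →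
    star u * u = r → u * star u = r → star v * v = r → v * star v = r →
    u * v = ω • (v * u) → ω ≠ 0 → ω ≠ 1 → ‖r * a₀ * r - u‖ ≤ θ → ‖r * b₀ * r - v‖ ≤ θ → False := by
  refine ⟨1 / 10 ^ 6, by norm_num, fun B _ S hS τ a b p a₀ b₀ p₀ r u v ω ma mb mp ma₀ mb₀ mp₀ mu mv
    hτ h0 hp hp₀ ha₀ hb₀ c1 c2 c3 er ab ab' pa pb np na nb u1 u2 v1 v2 uv _ ω1 nu nv => h0 ?_⟩
  have mr : r ∈ S := u1 ▸ mul_mem (star_mem mu) mu
  have pr : ∀ z : S, IsStarProjection (z : B) → IsStarProjection z := fun z h =>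
    ⟨Subtype.ext h.isIdempotentElem.eq, Subtype.ext h.isSelfAdjoint.star_eq⟩
  exact core_qend (τ ∘L ⟨S.subtype.toLinearMap, continuous_subtype_val⟩) (a := ⟨a, ma⟩)
    (b := ⟨b, mb⟩) (p := ⟨p, mp⟩) (a₀ := ⟨a₀, ma₀⟩) (b₀ := ⟨b₀, mb₀⟩) (p₀ := ⟨p₀, mp₀⟩)
    (r := ⟨r, mr⟩) (u := ⟨u, mu⟩) (v := ⟨v, mv⟩) (ω := ω) le_rfl (fun x y => hτ x x.2 y y.2)
    (pr _ hp) (pr _ hp₀) (pr _ ha₀) (pr _ hb₀) (Subtype.ext c1.eq) (Subtype.ext c2.eq)
    (Subtype.ext c3.eq) (Subtype.ext er) (Subtype.ext ab.eq) (Subtype.ext ab'.eq)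
    (Subtype.ext pa.eq) (Subtype.ext pb.eq) np na nb (Subtype.ext u1) (Subtype.ext u2)
    (Subtype.ext v1) (Subtype.ext v2) (Subtype.ext uv) ω1 nu nv

end Ulam
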