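import Pool.Agent.P.MP_3be8c7_an.QPS
import Pool.Agent.P.MP_3be8c7_an.PART
import Pool.Agent.P.MP_3be8c7_an.AV
import Pool.Agent.P.MP_3be8c7_an.KP

open scoped ComplexOrder InnerProductSpace
open Filter Topology
open ContinuousLinearMap (adjoint)

noncomputable section

namespace Ulam

universe u v w

section

variable {E : Type*} [NormedAddCommGroup E] [InnerProductSpace ℂ E] {Ω : Type*} [Fintype Ω]

theorem scal_qesb {x : Ω → E} {T : ℝ} (hT : 0 ≤ T)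
    (h : ∀ ζ, ∑ o, ‖⟪ζ, x o⟫_ℂ‖ ^ 2 ≤ T * ‖ζ‖ ^ 2) (a : Ω → ℂ) :
    ‖∑ o, a o • x o‖ ^ 2 ≤ T * ∑ o, ‖a o‖ ^ 2 := by
  set y := ∑ o, a o • x o with hy
  have h1 : ‖y‖ ^ 2 ≤ ∑ o, ‖a o‖ * ‖⟪y, x o⟫_ℂ‖ := by
    calc ‖y‖ ^ 2 = ‖⟪y, ∑ o, a o • x o⟫_ℂ‖ := by
          rw [← hy, inner_self_eq_norm_sq_to_K]
          simp
      _ ≤ _ := by
          rw [inner_sum]
          exact norm_sum_le_of_le _ fun o _ => by rw [inner_smul_right, norm_mul]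
  have h2 := Finset.sum_mul_sq_le_sq_mul_sq Finset.univ (fun o => ‖a o‖) fun o => ‖⟪y, x o⟫_ℂ‖
  have h0 : 0 ≤ ∑ o, ‖a o‖ ^ 2 := by positivity
  rcases (sq_nonneg ‖y‖).eq_or_lt with h3 | h3
  · rw [← h3]
    positivity
  refine le_of_mul_le_mul_right ?_ h3
  calc ‖y‖ ^ 2 * ‖y‖ ^ 2 ≤ (∑ o, ‖a o‖ * ‖⟪y, x o⟫_ℂ‖) ^ 2 := by
        rw [← sq]
        exact pow_le_pow_left₀ h3.le h1 2
    _ ≤ (∑ o, ‖a o‖ ^ 2) * (T * ‖y‖ ^ 2) := h2.trans (mul_le_mul_of_nonneg_left (h y) h0)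
    _ = _ := by ring

theorem schur_qesb {x : Ω → E} {T : ℝ} (hT : 0 ≤ T)
    (h : ∀ ζ, ∑ o, ‖⟪ζ, x o⟫_ℂ‖ ^ 2 ≤ T * ‖ζ‖ ^ 2) (v : Ω → E) :
    (∑ o', ∑ o, ⟪v o', v o⟫_ℂ * ⟪x o', x o⟫_ℂ).re ≤ T * ∑ o, ‖v o‖ ^ 2 := by
  classical
  obtain ⟨B, hB⟩ := psd_tm (Matrix.posSemidef_gram ℂ v)
  have h1 := qf_tm B x
  rw [← hB] at h1
  simp only [Matrix.gram_apply] at h1
  have h2 : ∀ o, ‖v o‖ ^ 2 = ∑ j, ‖B j o‖ ^ 2 := fun o => by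
    have h3 := congrFun (congrFun hB o) o
    rw [Matrix.gram_apply, inner_self_eq_norm_sq_to_K, Matrix.mul_apply] at h3
    simp only [Matrix.star_apply, RCLike.star_def, Complex.conj_mul'] at h3
    refine Complex.ofReal_injective ?_
    push_cast
    exact h3
  rw [← h1]
  norm_cast
  simp only [h2]
  rw [Finset.sum_comm, Finset.mul_sum]
  exact Finset.sum_le_sum fun j _ => scal_qesb hT h _

theorem pert_qesb {x : Ω → E} {T κ : ℝ} (hT : 0 ≤ T) (hκ : 0 ≤ κ)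
    (h : ∀ ζ, ∑ o, ‖⟪ζ, x o⟫_ℂ‖ ^ 2 ≤ T * ‖ζ‖ ^ 2) (v w : Ω → E) (c : Ω → Ω → ℂ)
    (h1 : ∀ o' o, ‖⟪w o', w o⟫_ℂ - c o' o * ⟪v o', v o⟫_ℂ‖ ≤ κ * (‖v o'‖ * ‖v o‖))
    (h2 : ∀ o' o, ‖⟪x o', x o⟫_ℂ - c o' o‖ ≤ κ) :
    ‖∑ o, w o‖ ^ 2 ≤ (T + κ * (2 * Fintype.card Ω)) * ∑ o, ‖v o‖ ^ 2 := by
  have e1 : ‖∑ o, w o‖ ^ 2 = (∑ o', ∑ o, ⟪w o', w o⟫_ℂ).re := by
    simp only [← inner_sum, ← sum_inner, inner_self_eq_norm_sq_to_K]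
    norm_cast
  have e2 : ∀ o' o, ‖⟪w o', w o⟫_ℂ - ⟪v o', v o⟫_ℂ * ⟪x o', x o⟫_ℂ‖ ≤
      2 * κ * (‖v o'‖ * ‖v o‖) := fun o' o => by
    have a1 : ‖⟪v o', v o⟫_ℂ * (⟪x o', x o⟫_ℂ - c o' o)‖ ≤ ‖v o'‖ * ‖v o‖ * κ := by
      rw [norm_mul]
      exact mul_le_mul (norm_inner_le_norm _ _) (h2 o' o) (norm_nonneg _) (by positivity)
    have a2 := norm_sub_le_of_le (h1 o' o) a1
    rw [mul_sub, mul_comm _ (c o' o), sub_sub, add_sub_cancel] at a2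
    linarith
  have e3 : ‖∑ o', ∑ o, (⟪w o', w o⟫_ℂ - ⟪v o', v o⟫_ℂ * ⟪x o', x o⟫_ℂ)‖ ≤
      2 * κ * (∑ o, ‖v o‖) ^ 2 := by
    rw [sq, Finset.sum_mul_sum, Finset.mul_sum]
    refine norm_sum_le_of_le _ fun o' _ => ?_
    rw [Finset.mul_sum]
    exact norm_sum_le_of_le _ fun o _ => e2 o' o
  have e4 := (Complex.re_le_norm _).trans e3
  simp only [Finset.sum_sub_distrib, Complex.sub_re] at e4
  have e5 := mul_le_mul_of_nonneg_left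
    (sq_sum_le_card_mul_sum_sq (s := Finset.univ) (f := fun o => ‖v o‖)) hκ
  rw [Finset.card_univ] at e5
  have e6 := schur_qesb hT h v
  linarith

end

variable {H : Type v} [NormedAddCommGroup H] [InnerProductSpace ℂ H] [CompleteSpace H]

theorem adj_qesb (a : H →L[ℂ] H) (ζ η : H) : ⟪ζ, star a η⟫_ℂ = ⟪a ζ, η⟫_ℂ :=
  ContinuousLinearMap.adjoint_inner_right a ζ η

theorem tr_qesb (g : GD H) {a b b' : H →L[ℂ] H} (ha : a ∈ g.N) (hb : b ∈ g.N) (hb' : b' ∈ g.N) :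
    ⟪b' g.ξ, a (b g.ξ)⟫_ℂ = ⟪(b' * star b) g.ξ, a g.ξ⟫_ℂ := by
  rw [← adj_qesb, ← adj_qesb, star_mul, star_star]
  exact g.tr.inner_comm (mul_mem (star_mem hb') ha) hb

theorem mul_qesb {g : GD H} {b b' : H →L[ℂ] H} (hb : b ∈ g.PS) (hb' : b' ∈ g.PS) : b * b' ∈ g.PS :=
  ⟨mul_mem hb.1 hb'.1, fun x => (hb.2 x).mul_left (hb'.2 x)⟩

theorem key_qesb {g : GD H} {a h b b' : H →L[ℂ] H} (ha : a ∈ g.N) (hh : h ∈ g.N)
    (e : h g.ξ = g.e (a g.ξ)) (hb : b ∈ g.PS) (hb' : b' ∈ g.PS) :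
    ⟪b' g.ξ, a (b g.ξ)⟫_ℂ = ⟪b' g.ξ, h (b g.ξ)⟫_ℂ := by
  rw [tr_qesb g ha hb.1 hb'.1, tr_qesb g hh hb.1 hb'.1, e, ← g.fix.proj.isSelfAdjoint.star_eq,
    adj_qesb, g.ps_fix (mul_qesb hb' (g.star_mem hb))]

theorem near_qesb {z h : H →L[ℂ] H} (hz : IsStarProjection z) {c : ℂ} {κ : ℝ}
    (hc : ‖z * (h - c • (1 : H →L[ℂ] H))‖ ≤ κ) (ζ η : H) :
    ‖⟪z ζ, h η⟫_ℂ - c * ⟪z ζ, η⟫_ℂ‖ ≤ κ * (‖z ζ‖ * ‖η‖) := by
  have e1 : ⟪z ζ, h η⟫_ℂ - c * ⟪z ζ, η⟫_ℂ = ⟪z ζ, (z * (h - c • (1 : H →L[ℂ] H))) η⟫_ℂ := by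
    have e2 : z (z ζ) = z ζ := DFunLike.congr_fun hz.isIdempotentElem.eq ζ
    have e3 := adj_qesb z (z ζ) (h η - c • η)
    rw [hz.isSelfAdjoint.star_eq, e2, inner_sub_right, inner_smul_right] at e3
    exact e3.symm
  rw [e1, mul_left_comm]
  exact (norm_inner_le_norm _ _).trans
    (mul_le_mul_of_nonneg_left (ContinuousLinearMap.le_of_opNorm_le _ hc η) (norm_nonneg _))

theorem claim_qesb (g : GD H) {Ω : Type} [Fintype Ω] (ω : Ω → g.G) {T : ℝ} (hT : 0 ≤ T)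
    (h : ∀ ζ ζ' : H, ∑ o, ‖⟪ζ, g.l (ω o) ζ'⟫_ℂ‖ ^ 2 ≤ T * (‖ζ‖ ^ 2 * ‖ζ'‖ ^ 2))
    (b : Ω → (H →L[ℂ] H)) (hb : ∀ o, b o ∈ g.PS) :
    ‖∑ o, g.l (ω o) (b o g.ξ)‖ ^ 2 ≤ T * ∑ o, ‖b o g.ξ‖ ^ 2 := by
  choose k k1 k2 k3 using fun p : Ω × Ω => g.hmap (g.lmem ((ω p.1)⁻¹ * ω p.2))
  have k4 : ∀ X ∈ g.PS, ∀ p, Commute X (k p) := fun X hX p => k3 p X (hX.2 _) hX.2
  have k5 : ∀ {a a'}, a ∈ g.PS → a' ∈ g.PS → ∀ o' o, ⟪g.l (ω o') (a' g.ξ), g.l (ω o) (a g.ξ)⟫_ℂ =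
      ⟪a' g.ξ, k (o', o) (a g.ξ)⟫_ℂ := fun ha ha' o' o => by
    rw [← key_qesb (g.lmem _) (k1 _).1 (k2 _) ha ha', ← adj_qesb, g.lrep, map_mul]
    rfl
  refine le_of_forall_pos_le_add fun ε hε => ?_
  set S := ∑ o, ‖b o g.ξ‖ ^ 2 with hS
  have hS0 : 0 ≤ 2 * Fintype.card Ω * S := by positivity
  obtain ⟨I, _, _, z, c, z1, z2, z3, z4, z5⟩ := exists_part k
    (fun p q => ⟨k4 _ (k1 p) q, (k4 _ (g.star_mem (k1 q)) p).symm⟩)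
    (κ := ε / (2 * Fintype.card Ω * S + 1)) (by positivity)
  set κ := ε / (2 * Fintype.card Ω * S + 1) with hκ
  have hκ0 : 0 ≤ κ := by positivity
  have z6 : ∀ i, z i ∈ g.PS := fun i => ⟨vn_mem_of_commute _ fun X hX => z4 X (fun p =>
    ⟨vn_commute _ (k1 p).1 hX, vn_commute _ (star_mem (k1 p).1) hX⟩) i, fun x =>
    (z4 _ (fun p => ⟨((k1 p).2 x).symm, ((g.star_mem (k1 p)).2 x).symm⟩) i).symm⟩
  have z7 : ∀ o i, Commute (b o) (z i) := fun o => z4 _ fun p => ⟨k4 _ (hb o) p, by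
    simpa using (k4 _ (g.star_mem (hb o)) p).star_star⟩
  have main : ∀ i, ‖z i (∑ o, g.l (ω o) (b o g.ξ))‖ ^ 2 ≤
      (T + κ * (2 * Fintype.card Ω)) * ∑ o, ‖z i (b o g.ξ)‖ ^ 2 := fun i => by
    have e1 : z i (∑ o, g.l (ω o) (b o g.ξ)) = ∑ o, g.l (ω o) (z i (b o g.ξ)) := by
      rw [map_sum]
      exact Finset.sum_congr rfl fun o _ => DFunLike.congr_fun ((z6 i).2 (ω o)).eq _
    rw [e1]
    by_cases h0 : z i g.ξ = 0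
    · have e2 : ∀ o, z i (b o g.ξ) = 0 := fun o =>
        (DFunLike.congr_fun (z7 o i).eq g.ξ).symm.trans (by
          change b o (z i g.ξ) = 0
          rw [h0, map_zero])
      simp [e2]
    have n0 : 0 < ‖z i g.ξ‖ := norm_pos_iff.2 h0
    refine pert_qesb (x := fun o => g.l (ω o) (((‖z i g.ξ‖⁻¹ : ℝ) : ℂ) • z i g.ξ)) hT hκ0
      (fun ζ => (h ζ _).trans_eq ?_) _ _ (fun o' o => c i (o', o)) (fun o' o => ?_) fun o' o => ?_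
    · rw [norm_smul, Complex.norm_real, norm_inv, norm_norm, inv_mul_cancel₀ n0.ne', one_pow,
        mul_one]
    · have e2 := k5 (mul_qesb (z6 i) (hb o)) (mul_qesb (z6 i) (hb o')) o' o
      exact e2 ▸ near_qesb (z1 i) (z5 i (o', o)) (b o' g.ξ) (z i (b o g.ξ))
    · have e2 := near_qesb (z1 i) (z5 i (o', o)) g.ξ (z i g.ξ)
      have e3 : (‖z i g.ξ‖ : ℂ) ≠ 0 := by exact_mod_cast n0.ne'
      rw [← k5 (z6 i) (z6 i), inner_self_eq_norm_sq_to_K] at e2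
      refine le_of_mul_le_mul_right (le_trans (le_of_eq ?_) e2) (mul_pos n0 n0)
      rw [map_smul, map_smul, inner_smul_left, inner_smul_right, Complex.conj_ofReal, ← sq,
        ← Complex.norm_of_nonneg (sq_nonneg ‖z i g.ξ‖), ← norm_mul]
      congr 1
      push_cast
      field_simp
      rw [mul_comm (c i (o', o))]
      rfl
  rw [← sum_norm_sq_partition z z1 z2 z3]
  refine (Finset.sum_le_sum fun i _ => main i).trans ?_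
  rw [← Finset.mul_sum, Finset.sum_comm]
  simp only [sum_norm_sq_partition z z1 z2 z3]
  have e : κ * (2 * Fintype.card Ω * S + 1) = ε := by rw [hκ]; field_simp
  rw [← hS]
  linarith

theorem GD.esb (g : GD H) {Ω : Type} [Fintype Ω] [Nonempty Ω] (ω : Ω → g.G) {t : ℝ} (ht : 0 ≤ t)
    (h : ∀ ζ ζ' : H, av (fun o => ‖⟪ζ, g.l (ω o) ζ'⟫_ℂ‖ ^ 2) ≤ t * (‖ζ‖ ^ 2 * ‖ζ'‖ ^ 2)) :
    ‖av fun o => g.rr (ω o) * g.e * star (g.rr (ω o))‖ ≤ t := by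
  have n0 : (0 : ℝ) < Fintype.card Ω := by exact_mod_cast Fintype.card_pos
  have hT : 0 ≤ Fintype.card Ω * t := by positivity
  have h1 := claim_qesb g (fun o => (ω o)⁻¹) hT fun ζ ζ' => by
    have h2 := h ζ' ζ
    rw [av, smul_eq_mul, inv_mul_le_iff₀ n0, mul_comm (‖ζ'‖ ^ 2), ← mul_assoc] at h2
    refine le_trans (le_of_eq (Finset.sum_congr rfl fun o _ => ?_)) h2
    rw [← g.lrep, adj_qesb, norm_inner_symm]
  have h2 : ∀ ζ : Ω → H, ‖∑ o, g.rr (ω o) (g.e (ζ o))‖ ^ 2 ≤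
      Fintype.card Ω * t * ∑ o, ‖g.e (ζ o)‖ ^ 2 := fun ζ => by
    have hc : IsClosed {y : Ω → H | ‖∑ o, g.rr (ω o) (y o)‖ ^ 2 ≤
        Fintype.card Ω * t * ∑ o, ‖y o‖ ^ 2} := isClosed_le (by fun_prop) (by fun_prop)
    refine hc.closure_subset (a := fun o => g.e (ζ o)) (Metric.mem_closure_iff.2 fun ε hε => ?_)
    choose b hb hb' using fun o => g.ps_dense (ζ o) (half_pos hε)
    refine ⟨fun o => b o g.ξ, le_trans (le_of_eq ?_) (h1 b hb),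
      ((dist_pi_le_iff (half_pos hε).le).2 fun o => (dist_eq_norm _ _).trans_le (hb' o)).trans_lt
        (half_lt_self hε)⟩
    congr 2
    refine Finset.sum_congr rfl fun o _ => ?_
    rw [g.rr_eq, g.isJ _ (g.lmem _) _ (hb o).1, g.lrep, ((hb o).2 _).eq]
    rfl
  rw [av, norm_smul, norm_inv, Real.norm_natCast, inv_mul_le_iff₀ n0]
  refine ContinuousLinearMap.opNorm_le_bound _ hT fun ζ => ?_
  set Y := ∑ o, g.rr (ω o) * g.e * star (g.rr (ω o)) with hY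
  have e1 : Y ζ = ∑ o, g.rr (ω o) (g.e (star (g.rr (ω o)) ζ)) := by
    rw [hY, sum_apply]
    rfl
  have e2 : ∑ o, ‖g.e (star (g.rr (ω o)) ζ)‖ ^ 2 = (⟪ζ, Y ζ⟫_ℂ).re := by
    rw [e1, inner_sum, Complex.re_sum]
    refine Finset.sum_congr rfl fun o _ => ?_
    rw [← norm_sq_spec g.fix.proj, ← adj_qesb, star_star]
  have e3 := h2 fun o => star (g.rr (ω o)) ζ
  rw [← e1, e2] at e3
  have e4 := mul_le_mul_of_nonneg_left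
    ((Complex.re_le_norm _).trans (norm_inner_le_norm (𝕜 := ℂ) ζ (Y ζ))) hT
  rcases (norm_nonneg (Y ζ)).eq_or_lt with h0 | h0
  · rw [← h0]
    positivity
  · exact le_of_mul_le_mul_right (by linarith) h0

end Ulam
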