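import Pool.Agent.P.MP_3be8c7_an.QD
import Pool.Agent.P.MP_3be8c7_an.AV

open scoped ComplexOrder InnerProductSpace
open Filter Topology
open ContinuousLinearMap (adjoint)

noncomputable section

namespace Ulam

universe u v w

variable {E R : Type} {V W : Type*}

theorem Loc.const (c : V) : Loc fun _ : E → R => c := by
  exact ⟨∅, fun _ _ _ => rfl⟩

theorem Loc.apply (a : E) : Loc fun x : E → R => x a := by
  exact ⟨{a}, fun _ _ h => h a (by simp)⟩

theorem Loc.comp {g : (E → R) → V} (h : Loc g) (φ : V → W) : Loc fun x => φ (g x) := by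
  obtain ⟨s, hs⟩ := h
  exact ⟨s, fun _ _ h => congrArg φ (hs h)⟩

theorem Loc.map₂ {W' : Type*} {g : (E → R) → V} {g' : (E → R) → W} (h : Loc g) (h' : Loc g')
    (φ : V → W → W') : Loc fun x => φ (g x) (g' x) := by
  classical
  obtain ⟨s, hs⟩ := h
  obtain ⟨t, ht⟩ := h'
  exact ⟨s ∪ t, fun _ _ h => congrArg₂ φ (hs fun i hi => h i (by simp [Finset.mem_coe.1 hi]))
    (ht fun i hi => h i (by simp [Finset.mem_coe.1 hi]))⟩

theorem Loc.pi {ι : Type*} [Finite ι] {g : ι → (E → R) → V} (h : ∀ i, Loc (g i)) :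
    Loc fun x i => g i x := by
  classical
  have := Fintype.ofFinite ι
  choose s hs using h
  exact ⟨Finset.univ.biUnion s, fun _ _ h => funext fun i => hs i fun a ha =>
    h a (Finset.mem_coe.2 (Finset.mem_biUnion.2 ⟨i, Finset.mem_univ i, ha⟩))⟩

theorem Loc.perm {g : (E → R) → V} (h : Loc g) (γ : Equiv.Perm E) : Loc fun x => g (x ∘ γ) := by
  obtain ⟨s, hs⟩ := h
  exact ⟨s.map γ.toEmbedding, fun _ _ h => hs fun a ha =>
    h (γ a) (Finset.mem_coe.2 (Finset.mem_map_of_mem γ.toEmbedding ha))⟩

theorem Loc.update [DecidableEq E] {g : (E → R) → V} (h : Loc g) (a : E) (ρ : R) :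
    Loc fun x => g (Function.update x a ρ) := by
  obtain ⟨s, hs⟩ := h
  refine ⟨s, fun x y h => hs fun b hb => ?_⟩
  by_cases e : b = a
  · rw [e, Function.update_self, Function.update_self]
  · rw [Function.update_of_ne e, Function.update_of_ne e, h b hb]

theorem Loc.finite_range [Finite R] {g : (E → R) → V} (h : Loc g) : (Set.range g).Finite := by
  rcases isEmpty_or_nonempty (E → R) with h0 | h0
  · exact Set.finite_range g
  obtain ⟨s, hs⟩ := h
  have : Nonempty V := ⟨g h0.some⟩
  obtain ⟨φ, rfl⟩ := dependsOn_iff_exists_comp.1 hs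
  exact (Set.finite_range φ).subset (Set.range_comp_subset_range _ _)

variable [Fintype R] [Nonempty R] [AddCommGroup V] [Module ℝ V] [AddCommGroup W] [Module ℝ W]

theorem av_comp_qex {A B : Type} [Fintype A] [Fintype B] [DecidableEq A] [DecidableEq B]
    (f : A → B) (hf : Function.Injective f) (φ : (A → R) → V) :
    av (fun y : B → R => φ (y ∘ f)) = av φ := by
  classical
  let e : A ⊕ ((Set.range f)ᶜ : Set B) ≃ B :=
    (Equiv.sumCongr (Equiv.ofInjective f hf) (Equiv.refl _)).trans (Equiv.Set.sumCompl _)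
  rw [← av_fst (κ := ((Set.range f)ᶜ : Set B) → R) φ,
    ← av_equiv ((Equiv.arrowCongr e.symm (Equiv.refl R)).trans
      (Equiv.sumArrowEquivProdArrow _ _ R))]
  rfl

theorem av_update_qex {A : Type} {_ : Fintype (A → R)} [DecidableEq A] (a : A) (φ : (A → R) → V) :
    av (fun y : A → R => av fun ρ : R => φ (Function.update y a ρ)) = av φ := by
  let e : (A → R) × R ≃ (A → R) × R :=
    Function.Involutive.toPerm (fun p => (Function.update p.1 a p.2, p.1 a)) fun p => by simp
  rw [← av_fst (κ := R) φ, ← av_equiv e, av_prod]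
  rfl

theorem avOn_mono_qex {g : (E → R) → V} {s t : Finset E} (h : DependsOn g (s : Set E))
    (hst : s ⊆ t) : avOn t g = avOn s g := by
  classical
  rw [avOn, avOn, ← av_comp_qex (fun a : s => (⟨a.1, hst a.2⟩ : t))
    fun a b e => Subtype.ext (congrArg Subtype.val e :)]
  congr 1
  funext y
  refine h fun a ha => ?_
  rw [dif_pos (hst ha), dif_pos (Finset.mem_coe.1 ha)]
  rfl

theorem ex_eq {g : (E → R) → V} {s : Finset E} (h : DependsOn g (s : Set E)) : ex g = avOn s g := by
  classical
  have hl : Loc g := ⟨s, h⟩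
  rw [ex, dif_pos hl, ← avOn_mono_qex hl.choose_spec (Finset.subset_union_left (s₂ := s)),
    avOn_mono_qex h Finset.subset_union_right]

theorem ex_const (c : V) : ex (fun _ : E → R => c) = c := by
  rw [ex_eq (s := ∅) fun _ _ _ => rfl, avOn, av_const]

omit [Fintype R] [Nonempty R] [AddCommGroup V] [Module ℝ V] [AddCommGroup W] [Module ℝ W] in
theorem both_qex {g : (E → R) → V} {g' : (E → R) → W} (h : Loc g) (h' : Loc g') :
    ∃ s : Finset E, DependsOn g (s : Set E) ∧ DependsOn g' (s : Set E) := by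
  obtain ⟨s, hs⟩ := h.map₂ h' Prod.mk
  exact ⟨s, fun _ _ e => congrArg Prod.fst (hs e), fun _ _ e => congrArg Prod.snd (hs e)⟩

theorem ex_add {g g' : (E → R) → V} (h : Loc g) (h' : Loc g') :
    ex (fun x => g x + g' x) = ex g + ex g' := by
  classical
  obtain ⟨s, h1, h2⟩ := both_qex h h'
  rw [ex_eq h1, ex_eq h2, ex_eq (s := s) fun _ _ e => congrArg₂ (· + ·) (h1 e) (h2 e), avOn, avOn,
    avOn, av_add]

theorem map_ex (L : V →ₗ[ℝ] W) {g : (E → R) → V} (h : Loc g) : L (ex g) = ex fun x => L (g x) := by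
  classical
  obtain ⟨s, hs⟩ := h
  rw [ex_eq hs, ex_eq (s := s) fun _ _ e => congrArg L (hs e), avOn, avOn, map_av]

theorem ex_sum {ι : Type*} (s : Finset ι) {g : ι → (E → R) → V} (h : ∀ i, Loc (g i)) :
    ex (fun x => ∑ i ∈ s, g i x) = ∑ i ∈ s, ex (g i) := by
  classical
  induction s using Finset.induction_on with
  | empty => simp only [Finset.sum_empty, ex_const]
  | insert a s ha ih =>
    have h1 : Loc fun x => ∑ i ∈ s, g i x := by
      have := (Loc.pi fun i : s => h i.1).comp fun y => ∑ i, y i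
      convert this using 2 with x
      exact (Finset.sum_coe_sort s fun i => g i x).symm
    simp only [Finset.sum_insert ha]
    rw [ex_add (h a) h1, ih]

theorem ex_perm {g : (E → R) → V} (h : Loc g) (γ : Equiv.Perm E) :
    ex (fun x => g (x ∘ γ)) = ex g := by
  classical
  obtain ⟨s, hs⟩ := h
  have hm : ∀ a ∈ s, γ a ∈ s.map γ.toEmbedding := fun a ha => Finset.mem_map_of_mem _ ha
  have h1 : DependsOn (fun x => g (x ∘ γ)) (s.map γ.toEmbedding : Finset E) :=
    fun _ _ h => hs fun a ha => h (γ a) (hm a ha)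
  rw [ex_eq hs, ex_eq h1, avOn, avOn, ← av_comp_qex (fun a : s => (⟨γ a.1, hm _ a.2⟩ : s.map γ.toEmbedding))
      fun a b e => Subtype.ext (γ.injective (congrArg Subtype.val e :))]
  congr 1
  funext y
  refine hs fun a ha => ?_
  rw [Function.comp_apply, dif_pos (hm a ha), dif_pos (Finset.mem_coe.1 ha)]
  rfl

theorem ex_resample [DecidableEq E] {g : (E → R) → V} (h : Loc g) (a : E) :
    ex (fun x => av fun ρ : R => g (Function.update x a ρ)) = ex g := by
  obtain ⟨s, hs⟩ := h
  have h1 : DependsOn g (insert a s : Finset E) := hs.mono (by simp)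
  have h2 : DependsOn (fun x => av fun ρ : R => g (Function.update x a ρ))
      (insert a s : Finset E) := fun x y h => by
    refine congrArg av (funext fun ρ => h1 fun b hb => ?_)
    by_cases e : b = a
    · rw [e, Function.update_self, Function.update_self]
    · rw [Function.update_of_ne e, Function.update_of_ne e, h b hb]
  rw [ex_eq h1, ex_eq h2, avOn, avOn]
  refine Eq.trans ?_ (av_update_qex (⟨a, Finset.mem_insert_self a s⟩ : (insert a s : Finset E)) _)
  refine congrArg _ (funext fun y => ?_)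
  refine congrArg av (funext fun ρ => h1 fun b hb => ?_)
  have hb' := Finset.mem_coe.1 hb
  rw [dif_pos hb']
  by_cases e : b = a
  · subst e
    rw [Function.update_self, Function.update_self]
  · rw [Function.update_of_ne e, Function.update_of_ne (fun h => e (congrArg Subtype.val h)),
      dif_pos hb']

theorem ex_mono {g g' : (E → R) → ℝ} (h : Loc g) (h' : Loc g') (hle : ∀ x, g x ≤ g' x) :
    ex g ≤ ex g' := by
  classical
  obtain ⟨s, h1, h2⟩ := both_qex h h'
  rw [ex_eq h1, ex_eq h2]
  exact av_le_av fun _ => hle _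

end Ulam
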