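import Pool.Agent.P.MP_3be8c7_an.QD
import Pool.Agent.P.MP_3be8c7_an.FINAL

open scoped ComplexOrder InnerProductSpace
open Filter Topology
open ContinuousLinearMap (adjoint)

noncomputable section

namespace Ulam

universe u v w

theorem finalb {γ : ℝ} (hγ : 0 < γ) : ∃ δ : ℝ, 0 < δ ∧
    ∀ (D : Type u) [CStarAlgebra D] [PartialOrder D] [StarOrderedRing D], DK.{u, max u v} D 40 →
    ∀ (H : Type v) [NormedAddCommGroup H] [InnerProductSpace ℂ H] [CompleteSpace H]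
      (L : D →ₗ[ℂ] (H →L[ℂ] H)), KPos L →
      ‖L 1 - 1‖ ≤ δ → (∀ a b, ‖a‖ ≤ 1 → ‖b‖ ≤ 1 → ‖L (a * b) - L a * L b‖ ≤ δ) →
    ∃ ψ : D →⋆ₐ[ℂ] (H →L[ℂ] H), ∀ a, ‖a‖ ≤ 1 → ‖L a - ψ a‖ ≤ γ := by
  obtain ⟨δ₁, hδ₁, hp⟩ := pert.{v, max u v} (γ := γ / 3) (by positivity)
  refine ⟨min (min δ₁ 1) ((δ₁ / 160) ^ 2 / 17), by positivity, ?_⟩
  intro D _ _ _ hD H _ _ _ L hL h1 h2
  set δ := min (min δ₁ 1) ((δ₁ / 160) ^ 2 / 17) with hδ
  have d1 : δ ≤ δ₁ := (min_le_left _ _).trans (min_le_left _ _)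
  have d2 : δ ≤ 1 := (min_le_left _ _).trans (min_le_right _ _)
  have d3 : 17 * δ ≤ (δ₁ / 160) ^ 2 := by
    have := min_le_right (min δ₁ 1) ((δ₁ / 160) ^ 2 / 17)
    linarith
  obtain ⟨K, _, _, _, π, V, hV, -⟩ := stine L hL
  have hG : adjoint V ∘L V = L 1 := by
    rw [hV, map_one]
    rfl
  have n1 : ‖(1 : H →L[ℂ] H)‖ ≤ 1 := ContinuousLinearMap.norm_id_le
  have nV : ‖V‖ ≤ 2 := by
    have h3 := ContinuousLinearMap.norm_adjoint_comp_self V
    have h4 := norm_add_le (L 1 - 1) (1 : H →L[ℂ] H)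
    rw [sub_add_cancel] at h4
    rw [hG] at h3
    nlinarith [norm_nonneg V]
  have sE : star (V ∘L adjoint V) = V ∘L adjoint V := by
    rw [ContinuousLinearMap.star_eq_adjoint, ContinuousLinearMap.adjoint_comp,
      ContinuousLinearMap.adjoint_adjoint]
  have hc := cmt_final π sE (t := δ₁ / 160 * 2) fun a ha =>
    off_final π V L hV nV (by positivity) d3 (by rwa [hG]) h2 ha
  obtain ⟨S, s1, s2⟩ := hD K π _ _ (by positivity) hc
  obtain ⟨U, u1, u2, u3, -⟩ := hp H K V S (by rw [hG]; exact h1.trans d1) (by linarith)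
  have hst : ∀ {X Y : K →L[ℂ] K}, Commute (star X) Y → Commute X (star Y) := fun {X Y} h => by
    have h' := h.star_star
    rwa [star_star] at h'
  have hπU : ∀ a, Commute (π a) (U ∘L adjoint U) := fun a =>
    u3 _ (s1 a).symm (hst (by rw [← map_star]; exact (s1 _).symm))
  refine ⟨cmp_final π U u1 hπU, fun a ha => ?_⟩
  have nU : ‖U‖ ≤ 1 := by
    have h3 := ContinuousLinearMap.norm_adjoint_comp_self U
    rw [u1] at h3
    nlinarith [norm_nonneg U]
  have e : L a - cmp_final π U u1 hπU a =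
      -(adjoint (U - V) ∘L π a ∘L V) - adjoint U ∘L π a ∘L (U - V) := by
    change L a - adjoint U ∘L π a ∘L U = _
    rw [hV, map_sub]
    ext ξ
    simp only [ContinuousLinearMap.comp_apply, sub_apply,
      neg_apply, map_sub]
    abel
  rw [e]
  refine (norm_sub_le _ _).trans ?_
  rw [norm_neg]
  have h3 := comp_pert (adj_final u2) (comp_pert (pi_final π ha) nV)
  have h4 := comp_pert (adj_final nU) (comp_pert (pi_final π ha) u2)
  linarith

end Ulam
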