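import Pool.Agent.P.MP_3be8c7_an.QD
import Pool.Agent.P.MP_3be8c7_an.COMP
import Pool.Agent.P.MP_3be8c7_an.VB

open scoped ComplexOrder InnerProductSpace
open Filter Topology
open ContinuousLinearMap (adjoint)

noncomputable section

namespace Ulam

universe u v w

variable {H : Type v} [NormedAddCommGroup H] [InnerProductSpace ℂ H] [CompleteSpace H]

theorem flip_qort {R : Type*} [Ring R] {a b : R} (aa : a * a = 0) (bb : b * b = 0)
    (aba : a * (b * a) = a) (bab : b * (a * b) = b) :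
    (a + b + (1 - b * a - a * b)) * (a + b + (1 - b * a - a * b)) = 1 ∧
      (a + b + (1 - b * a - a * b)) * (b * a) * (a + b + (1 - b * a - a * b)) = a * b := by
  have aa' : ∀ x, a * (a * x) = 0 := fun x => by rw [← mul_assoc, aa, zero_mul]
  have bb' : ∀ x, b * (b * x) = 0 := fun x => by rw [← mul_assoc, bb, zero_mul]
  have aba' : ∀ x, a * (b * (a * x)) = a * x := fun x => by
    rw [← mul_assoc b, ← mul_assoc, aba]
  have bab' : ∀ x, b * (a * (b * x)) = b * x := fun x => by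
    rw [← mul_assoc a, ← mul_assoc, bab]
  constructor <;>
    simp only [add_mul, mul_add, sub_mul, mul_sub, mul_assoc, one_mul, mul_one, aa, bb, aba, bab,
      aa', bb', aba', bab', mul_zero] <;> abel

theorem re_proj_qort (ξ : H) {P : H →L[ℂ] H} (hP : IsStarProjection P) :
    (⟪ξ, P ξ⟫_ℂ).re = ‖P ξ‖ ^ 2 := by
  have h : ⟪ξ, P ξ⟫_ℂ = ⟪P ξ, P ξ⟫_ℂ := by
    have h1 := ContinuousLinearMap.adjoint_inner_right P ξ (P ξ)
    rw [← ContinuousLinearMap.star_eq_adjoint, hP.isSelfAdjoint.star_eq,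
      ← mul_apply_eq_comp, hP.isIdempotentElem.eq] at h1
    exact h1
  rw [h, inner_self_eq_norm_sq_to_K]
  norm_cast

theorem re_mul_qort (ξ : H) {c P : H →L[ℂ] H} (hc : IsStarProjection c) (hP : IsStarProjection P)
    (h : Commute c P) : (⟪ξ, (c * P) ξ⟫_ℂ).re ≤ ‖P ξ‖ ^ 2 := by
  rw [re_proj_qort ξ (hc.mul hP h)]
  exact pow_le_pow_left₀ (norm_nonneg _) (proj_norm_apply_le hc _) 2

theorem conj_qort {y P : H →L[ℂ] H} (hy : y ∈ unitary (H →L[ℂ] H)) (hP : IsStarProjection P) :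
    IsStarProjection (y * P * star y) := by
  refine ⟨?_, hP.isSelfAdjoint.conjugate y⟩
  calc y * P * star y * (y * P * star y) = y * (P * (star y * y) * P) * star y := by
        simp only [mul_assoc]
    _ = _ := by rw [Unitary.star_mul_self_of_mem hy, mul_one, hP.isIdempotentElem.eq]

theorem succ_qort (N : VonNeumannAlgebra H) {ξ : H} (hξ : TrVec N ξ) {p : H →L[ℂ] H}
    (hp : IsStarProjection p) (hN : p ∈ N) (k : ℕ) :
    ∃ z, CProj N z ∧ ‖(1 - z) ξ‖ ^ 2 ≤ ((k : ℝ) + 1) ^ 2 * ‖p ξ‖ ^ 2 ∧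
      ∃ y : Fin (k + 1) → (H →L[ℂ] H), (∀ i, y i ∈ N ∧ y i ∈ unitary (H →L[ℂ] H)) ∧
        ∀ i j, i ≠ j → (y i * (p * z) * star (y i)) * (y j * (p * z) * star (y j)) = 0 := by
  induction k with
  | zero =>
    refine ⟨1, CProj.one, by simp, fun _ => 1, fun _ => ⟨one_mem _, one_mem _⟩,
      fun i j h => absurd (Subsingleton.elim (α := Fin 1) i j) h⟩
  | succ k ih =>
    obtain ⟨z, hz, hzn, y, hy, ho⟩ := ih
    have hpz : IsStarProjection (p * z) := hp.mul hz.1 (hz.2.2 p hN).symm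
    have hpzN : p * z ∈ N := mul_mem hN hz.2.1
    obtain ⟨q, hq⟩ : ∃ q : Fin (k + 1) → (H →L[ℂ] H), ∀ i, q i = y i * (p * z) * star (y i) :=
      ⟨_, fun _ => rfl⟩
    simp only [← hq] at ho
    have hqp : ∀ i, IsStarProjection (q i) := fun i => hq i ▸ conj_qort (hy i).2 hpz
    have hqN : ∀ i, q i ∈ N := fun i =>
      hq i ▸ mul_mem (mul_mem (hy i).1 hpzN) (star_mem (hy i).1)
    have hqn : ∀ i, ‖q i ξ‖ ^ 2 ≤ ‖p ξ‖ ^ 2 := fun i => by
      rw [hq, hξ.norm_conj hpzN (hy i).1 (hy i).2, ← (hz.2.2 p hN).eq]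
      exact pow_le_pow_left₀ (norm_nonneg _) (proj_norm_apply_le hz.1 _) 2
    obtain ⟨f, hf⟩ : ∃ f : H →L[ℂ] H, f = 1 - ∑ i, q i := ⟨_, rfl⟩
    have hfp : IsStarProjection f := hf ▸ (isStarProjection_sum _ q hqp ho).one_sub
    have hfN : f ∈ N := hf ▸ sub_mem (one_mem _) (sum_mem fun i _ => hqN i)
    have hqf : ∀ i, q i * f = 0 := fun i => by
      rw [hf, mul_sub, mul_one, Finset.mul_sum, Finset.sum_eq_single i
        (fun j _ hj => ho i j hj.symm) (by simp), (hqp i).isIdempotentElem.eq, sub_self]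
    have hfq : ∀ i, f * q i = 0 := fun i => by
      have := congrArg star (hqf i)
      rwa [star_mul, hfp.isSelfAdjoint.star_eq, (hqp i).isSelfAdjoint.star_eq, star_zero] at this
    obtain ⟨z1, w, hz1, hwN, hw, hfw, hwe, h1, h2⟩ := comp N (hqp 0) hfp (hqN 0) hfN
    have hc := hz1.compl
    have hww : star w * w ∈ N := mul_mem (star_mem hwN) hwN
    -- the trace estimate
    have t1 : (⟪ξ, ((1 - z1) * f) ξ⟫_ℂ).re ≤ ‖p ξ‖ ^ 2 := by
      rw [h2]
      refine (re_mul_qort ξ hc.1 (pi_star hw)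
        (hc.2.2 _ (mul_mem hwN (star_mem hwN)))).trans ?_
      rw [← re_proj_qort ξ (pi_star hw), hξ.inner_comm hwN (star_mem hwN), re_proj_qort ξ hw,
        ← (rel_comp (hqp 0) hfp hw hfw hwe).1]
      exact (pow_le_pow_left₀ (norm_nonneg _) (proj_norm_apply_le hw _) 2).trans (hqn 0)
    have t2 : ‖(1 - z1) ξ‖ ^ 2 ≤ ((k : ℝ) + 1 + 1) * ‖p ξ‖ ^ 2 := by
      have e : 1 - z1 = (1 - z1) * f + ∑ i, (1 - z1) * q i := by
        rw [← Finset.mul_sum, ← mul_add, hf, sub_add_cancel, mul_one]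
      rw [← re_proj_qort ξ hc.1, e, add_apply, inner_add_right, Complex.add_re,
        sum_apply, inner_sum, Complex.re_sum]
      have := Finset.sum_le_card_nsmul Finset.univ (fun i => (⟪ξ, ((1 - z1) * q i) ξ⟫_ℂ).re) _
        fun i _ => (re_mul_qort ξ hc.1 (hqp i) (hc.2.2 _ (hqN i))).trans (hqn i)
      rw [Finset.card_univ, Fintype.card_fin, nsmul_eq_mul, Nat.cast_succ] at this
      linarith
    -- the new unitary
    obtain ⟨a, ha⟩ : ∃ a : H →L[ℂ] H, a = w * z1 := ⟨_, rfl⟩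
    have haN : a ∈ N := ha ▸ mul_mem hwN hz1.2.1
    have hba : star a * a = q 0 * z1 := by
      rw [ha, star_mul, hz1.1.isSelfAdjoint.star_eq, mul_assoc, ← mul_assoc (star w),
        ← (hz1.2.2 _ hww).eq, ← mul_assoc, hz1.1.isIdempotentElem.eq, ← h1,
        (hz1.2.2 _ (hqN 0)).eq]
    have hap : IsStarProjection (star a * a) :=
      hba ▸ (hqp 0).mul hz1.1 (hz1.2.2 _ (hqN 0)).symm
    have hfa : f * a = a := by rw [ha, ← mul_assoc, hfw]
    have hae : a * q 0 = a := by rw [ha, mul_assoc, (hz1.2.2 _ (hqN 0)).eq, ← mul_assoc, hwe]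
    have haa : a * a = 0 := by
      calc a * a = a * q 0 * (f * a) := by rw [hae, hfa]
        _ = 0 := by rw [mul_assoc, ← mul_assoc (q 0), hqf, zero_mul, mul_zero]
    have hbb : star a * star a = 0 := by rw [← star_mul, haa, star_zero]
    have hbab : star a * (a * star a) = star a := by
      have := congrArg star (pi_mul hap)
      rwa [star_mul, star_mul, star_star, mul_assoc] at this
    obtain ⟨s1, s2⟩ := flip_qort haa hbb (pi_mul hap) hbab
    obtain ⟨s, hs⟩ : ∃ s : H →L[ℂ] H, s = a + star a + (1 - star a * a - a * star a) := ⟨_, rfl⟩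
    have hss : star s = s := by
      rw [hs]
      simp only [star_add, star_sub, star_mul, star_star, star_one]
      abel
    have hsN : s ∈ N := hs ▸ add_mem (add_mem haN (star_mem haN)) (sub_mem (sub_mem (one_mem _)
      (mul_mem (star_mem haN) haN)) (mul_mem haN (star_mem haN)))
    rw [← hs] at s1 s2
    have hsu : s ∈ unitary (H →L[ℂ] H) := ⟨by rw [hss, s1], by rw [hss, s1]⟩
    have e1 : ∀ i, y i * (p * (z * z1)) * star (y i) = q i * z1 := fun i => by
      rw [hq, ← mul_assoc p, ← mul_assoc (y i), mul_assoc _ z1,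
        (hz1.2.2 _ (star_mem (hy i).1)).eq, ← mul_assoc]
    have e2 : s * y 0 * (p * (z * z1)) * star (s * y 0) = a * star a := by
      rw [← s2, hba, ← e1, star_mul, hss]
      simp only [mul_assoc]
    have hbf : star a * f = star a := by
      have := congrArg star hfa
      rwa [star_mul, hfp.isSelfAdjoint.star_eq] at this
    refine ⟨z * z1, hz.mul hz1, ?_, Fin.cons (s * y 0) y, fun i => ?_, fun i j hij => ?_⟩
    · have e : 1 - z * z1 = (1 - z) + z * (1 - z1) := by rw [mul_sub, mul_one]; abel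
      rw [← re_proj_qort ξ (hz.mul hz1).compl.1, e, add_apply, inner_add_right,
        Complex.add_re, re_proj_qort ξ hz.compl.1]
      have t3 := re_mul_qort ξ hz.1 hc.1 (hz.2.2 _ hc.2.1)
      have t4 : 0 ≤ ‖p ξ‖ ^ 2 := by positivity
      have t5 : (0 : ℝ) ≤ k := Nat.cast_nonneg k
      rw [Nat.cast_succ]
      nlinarith [mul_nonneg t5 t4]
    · refine Fin.cases ?_ (fun i => hy i) i
      exact ⟨mul_mem hsN (hy 0).1, mul_mem hsu (hy 0).2⟩
    · induction i using Fin.cases <;> induction j using Fin.cases <;>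
        simp only [Fin.cons_zero, Fin.cons_succ, e1, e2]
      · exact absurd rfl hij
      · rw [← hbf, mul_assoc, mul_assoc, ← mul_assoc f, hfq, zero_mul, mul_zero, mul_zero]
      · rw [← (hz1.2.2 _ (hqN _)).eq, ← hfa, mul_assoc, mul_assoc, ← mul_assoc (q _), hqf,
          zero_mul, mul_zero]
      · rw [mul_assoc, ← mul_assoc z1, (hz1.2.2 _ (hqN _)).eq, ← mul_assoc, ← mul_assoc,
          ho _ _ fun h => hij (congrArg _ h), zero_mul, zero_mul]

theorem ort (N : VonNeumannAlgebra H) {ξ : H} (hξ : TrVec N ξ) {p : H →L[ℂ] H}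
    (hp : IsStarProjection p) (hN : p ∈ N) (k : ℕ) :
    ∃ z, CProj N z ∧ ‖(1 - z) ξ‖ ^ 2 ≤ (k : ℝ) ^ 2 * ‖p ξ‖ ^ 2 ∧
      ∃ y : Fin k → (H →L[ℂ] H), (∀ i, y i ∈ N ∧ y i ∈ unitary (H →L[ℂ] H)) ∧
        ∀ i j, i ≠ j → (y i * (p * z) * star (y i)) * (y j * (p * z) * star (y j)) = 0 := by
  cases k with
  | zero => exact ⟨1, CProj.one, by simp, Fin.elim0, fun i => i.elim0, fun i => i.elim0⟩
  | succ k =>
    rw [Nat.cast_succ]
    exact succ_qort N hξ hp hN k

end Ulam
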