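import Pool.Agent.P.MP_3be8c7_an.QDUA
import Pool.Agent.P.MP_3be8c7_an.QORT
import Pool.Agent.P.MP_3be8c7_an.DIX
import Pool.Agent.P.MP_3be8c7_an.SPEC

open scoped ComplexOrder InnerProductSpace
open Filter Topology
open ContinuousLinearMap (adjoint)

noncomputable section

namespace Ulam

universe u v w

variable {D : Type u} [CStarAlgebra D] [PartialOrder D] [StarOrderedRing D]
variable {H : Type v} [NormedAddCommGroup H] [InnerProductSpace ℂ H] [CompleteSpace H]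
variable {π : D →⋆ₐ[ℂ] (H →L[ℂ] H)} {N : VonNeumannAlgebra H}

theorem spec_qgap {a : H →L[ℂ] H} (ha : IsSelfAdjoint a) (t : ℝ) :
    ∃ p : H →L[ℂ] H, IsStarProjection p ∧ (∀ T, Commute T a → Commute T p) ∧
      (∀ ζ, p ζ = 0 → (⟪ζ, a ζ⟫_ℂ).re ≤ t * ‖ζ‖ ^ 2) ∧
      ∀ ζ, p ζ = ζ → t * ‖ζ‖ ^ 2 ≤ (⟪ζ, a ζ⟫_ℂ).re := by
  obtain ⟨p, h1, h2, h3, h4⟩ := exists_spec ha t
  have e : cfc (fun s : ℝ => max (s - t) 0) a - cfc (fun s : ℝ => max (t - s) 0) a =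
      a - algebraMap ℝ _ t := by
    rw [← cfc_sub .., ← cfc_const t a, eq_sub_iff_add_eq, ← cfc_add ..]
    refine Eq.trans (cfc_congr fun s _ => ?_) (cfc_id' ℝ a)
    rcases le_total s t with h | h <;> simp [h]
  have e' : ∀ ζ, (⟪ζ, cfc (fun s : ℝ => max (s - t) 0) a ζ⟫_ℂ).re -
      (⟪ζ, cfc (fun s : ℝ => max (t - s) 0) a ζ⟫_ℂ).re = (⟪ζ, a ζ⟫_ℂ).re - t * ‖ζ‖ ^ 2 := fun ζ => by
    have h5 := congrArg (fun T : H →L[ℂ] H => (⟪ζ, T ζ⟫_ℂ).re) e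
    have h6 : (⟪ζ, ζ⟫_ℂ).re = ‖ζ‖ ^ 2 := inner_self_eq_norm_sq (𝕜 := ℂ) ζ
    simpa only [sub_apply, inner_sub_right, Complex.sub_re, Algebra.algebraMap_eq_smul_one,
      ← Complex.coe_smul, smul_apply, inner_smul_right, Complex.re_ofReal_mul, one_apply_eq_self,
      h6] using h5
  have h0 : ∀ (f : ℝ → ℝ) (ζ : H), (∀ s, 0 ≤ f s) → 0 ≤ (⟪ζ, cfc f a ζ⟫_ℂ).re := fun f ζ hf =>
    ((ContinuousLinearMap.nonneg_iff_isPositive (cfc f a)).1
      (cfc_nonneg fun s _ => hf s)).re_inner_nonneg_right ζ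
  refine ⟨p, h1, h2, fun ζ h => ?_, fun ζ h => ?_⟩
  · have h5 : cfc (fun s : ℝ => max (s - t) 0) a ζ = 0 := by simpa [h] using congr($h3 ζ)
    have h6 := e' ζ
    rw [h5, inner_zero_right, Complex.zero_re] at h6
    linarith [h0 (fun s : ℝ => max (t - s) 0) ζ fun s => le_max_right _ _]
  · have h5 : cfc (fun s : ℝ => max (t - s) 0) a ζ = 0 := by simpa [h] using congr($h4 ζ)
    have h6 := e' ζ
    rw [h5, inner_zero_right, Complex.zero_re] at h6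
    linarith [h0 (fun s : ℝ => max (s - t) 0) ζ fun s => le_max_right _ _]

theorem inner_qgap (g T : H →L[ℂ] H) (ζ : H) :
    ⟪ζ, (g * T * star g) ζ⟫_ℂ = ⟪star g ζ, T (star g ζ)⟫_ℂ :=
  (ContinuousLinearMap.adjoint_inner_left g _ ζ).symm

omit [CompleteSpace H] in
theorem re_le_qgap (ζ η : H) : (⟪ζ, η⟫_ℂ).re ≤ ‖ζ‖ * ‖η‖ :=
  (Complex.re_le_norm _).trans (norm_inner_le_norm _ _)

theorem cut_qgap {w : H →L[ℂ] H} (hw : IsSelfAdjoint w) {t : ℝ} (ht : 0 ≤ t) :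
    ∃ p : H →L[ℂ] H, IsStarProjection p ∧ (∀ T, Commute T w → Commute T p) ∧
      (∀ ζ, t * ‖p ζ‖ ≤ ‖w ζ‖) ∧ ∀ ζ, (⟪ζ, w ζ⟫_ℂ).re ≤ t * ‖ζ‖ ^ 2 + ‖w‖ * ‖p ζ‖ ^ 2 := by
  obtain ⟨p, h1, h2, h3, h4⟩ := spec_qgap hw t
  have hc := (h2 w rfl).eq
  have hp : ∀ ζ, p (p ζ) = p ζ := fun ζ => congr($(h1.isIdempotentElem.eq) ζ)
  refine ⟨p, h1, h2, fun ζ => ?_, fun ζ => ?_⟩
  · have h5 := (h4 _ (hp ζ)).trans (re_le_qgap _ _)
    have h6 : ‖w (p ζ)‖ ≤ ‖w ζ‖ := (congr(‖$hc ζ‖)).trans_le (proj_norm_apply_le h1 _)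
    rcases (norm_nonneg (p ζ)).eq_or_lt with h | h
    · rw [← h, mul_zero]
      exact norm_nonneg _
    · nlinarith
  · have e : w = p * w * star p + (1 - p) * w * star (1 - p) := by
      rw [h1.isSelfAdjoint.star_eq, h1.one_sub.isSelfAdjoint.star_eq, mul_assoc, mul_assoc, mul_sub,
        hc, mul_one, sub_mul, mul_sub, mul_sub, ← mul_assoc, h1.isIdempotentElem.eq, one_mul,
        one_mul]
      abel
    have h5 := congrArg (fun T : H →L[ℂ] H => (⟪ζ, T ζ⟫_ℂ).re) e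
    simp only [add_apply, inner_add_right, Complex.add_re, inner_qgap] at h5
    rw [h1.isSelfAdjoint.star_eq, h1.one_sub.isSelfAdjoint.star_eq] at h5
    have h6 := h3 ((1 - p) ζ) (by simp [hp])
    have h7 := (re_le_qgap (p ζ) (w (p ζ))).trans
      (mul_le_mul_of_nonneg_left (w.le_opNorm _) (norm_nonneg _))
    have h8 : t * ‖(1 - p) ζ‖ ^ 2 ≤ t * ‖ζ‖ ^ 2 := by
      gcongr
      exact proj_norm_apply_le h1.one_sub ζ
    linarith

theorem dix_qgap {ξ : H} (hξ : TrVec N ξ) {y : H →L[ℂ] H} (hy : y ∈ N) (hs : IsSelfAdjoint y) :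
    ∃ h ∈ N, IsSelfAdjoint h ∧ (∀ x ∈ N, Commute h x) ∧
      ∀ ε : ℝ, 0 < ε → ∃ (R : Type) (_ : Fintype R) (_ : Nonempty R) (u : R → (H →L[ℂ] H)),
        (∀ ρ, u ρ ∈ N) ∧ (∀ ρ, u ρ ∈ unitary (H →L[ℂ] H)) ∧
        IsSelfAdjoint (av fun ρ => u ρ * y * star (u ρ)) ∧
        ‖(av (fun ρ => u ρ * y * star (u ρ)) - h) ξ‖ ≤ ε := by
  obtain ⟨h, h1, h2, h3⟩ := dix N hξ (fun _ : Unit => y) fun _ => hy
  refine ⟨(2 : ℝ)⁻¹ • (h () + star (h ())), vn_real_smul_mem N _ (add_mem (h1 _) (star_mem (h1 _))),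
    (IsSelfAdjoint.all _).smul (IsSelfAdjoint.add_star_self _), fun x hx =>
      ((h2 _ x hx).add_left (by simpa using (h2 () _ (star_mem hx)).star_star)).smul_left _,
    fun ε hε => ?_⟩
  obtain ⟨R, _, _, u, h4, h5, h6⟩ := h3 ε hε
  have h7 : IsSelfAdjoint (av fun ρ => u ρ * y * star (u ρ)) := by
    rw [IsSelfAdjoint, star_av]
    simp only [star_mul, star_star, hs.star_eq, mul_assoc]
  refine ⟨R, inferInstance, inferInstance, u, h4, h5, h7, ?_⟩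
  have h8 := hξ _ (sub_mem (av_mem N _ fun ρ => mul_mem (mul_mem (h4 ρ) hy) (star_mem (h4 ρ)))
    (h1 ()))
  rw [star_sub, h7.star_eq] at h8
  have h9 := h6 ()
  generalize av (fun ρ => u ρ * y * star (u ρ)) = Y at h8 h9 ⊢
  rw [show Y - (2 : ℝ)⁻¹ • (h () + star (h ())) = (2 : ℝ)⁻¹ • ((Y - h ()) + (Y - star (h ()))) by
    module, smul_apply, norm_smul, add_apply, Real.norm_of_nonneg (by norm_num)]
  linarith [norm_add_le ((Y - h ()) ξ) ((Y - star (h ())) ξ)]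

theorem av_inner_qgap {R : Type} [Fintype R] (T : R → (H →L[ℂ] H)) (ζ : H) :
    (⟪ζ, av T ζ⟫_ℂ).re = av fun ρ => (⟪ζ, T ρ ζ⟫_ℂ).re := by
  rw [av_apply, ← re_av]
  exact congrArg _ (map_av' (innerSL ℂ ζ) _)

theorem cen_qgap {ξ : H} (hξ : TrVec N ξ) (h1 : ‖ξ‖ = 1) {y : H →L[ℂ] H} (hy : y ∈ N)
    (hs : IsSelfAdjoint y) {c : ℝ} (hc : 0 < c) (h2 : (⟪ξ, y ξ⟫_ℂ).re ≤ 1 - c) :
    ∃ z, CProj N z ∧ z ξ ≠ 0 ∧ ∃ (R : Type) (_ : Fintype R) (_ : Nonempty R)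
      (g : R → (H →L[ℂ] H)), (∀ ρ, g ρ ∈ N ∧ g ρ ∈ unitary (H →L[ℂ] H)) ∧ ∀ ζ, z ζ = ζ →
        av (fun ρ => (⟪ζ, (g ρ * y * star (g ρ)) ζ⟫_ℂ).re) ≤ (1 - c / 4) * ‖ζ‖ ^ 2 := by
  obtain ⟨h, hN, hsa, hcm, hd⟩ := dix_qgap hξ hy hs
  obtain ⟨p₀, a1, a2, a3, a4⟩ := spec_qgap hsa (1 - c / 2)
  have hz₀ : CProj N (1 - p₀) := CProj.compl ⟨a1, vn_mem_of_commute N fun T hT =>
    a2 T (vn_commute N hN hT), fun x hx => (a2 x (hcm x hx).symm).symm⟩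
  have hne : (1 - p₀) ξ ≠ 0 := fun h0 => by
    have h3 := a4 ξ (sub_eq_zero.1 h0).symm
    obtain ⟨R, _, _, u, h4, h5, -, h6⟩ := hd (c / 4) (by positivity)
    have h7 := neg_le_of_abs_le ((Complex.abs_re_le_norm _).trans ((norm_inner_le_norm (𝕜 := ℂ)
      ξ _).trans (mul_le_mul_of_nonneg_left h6 (norm_nonneg _))))
    have h8 : ∀ ρ, ⟪ξ, (u ρ * y * star (u ρ)) ξ⟫_ℂ = ⟪ξ, y ξ⟫_ℂ := fun ρ => by
      rw [hξ.inner_comm (mul_mem (h4 ρ) hy) (star_mem (h4 ρ)), ← mul_assoc, (h5 ρ).1, one_mul]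
    simp only [sub_apply, inner_sub_right, Complex.sub_re, av_inner_qgap, h8, av_const, h1] at h3 h7
    linarith
  obtain ⟨k, hk⟩ := exists_nat_ge (8 * (‖y‖ + ‖h‖) / c)
  have hm := norm_pos_iff.2 hne
  obtain ⟨R, _, _, u, h4, h5, h6, h7⟩ := hd (c / 8 * (‖(1 - p₀) ξ‖ / (k + 2))) (by positivity)
  have hY : av (fun ρ => u ρ * y * star (u ρ)) ∈ N :=
    av_mem N _ fun ρ => mul_mem (mul_mem (h4 ρ) hy) (star_mem (h4 ρ))
  have hYn : ‖av (fun ρ => u ρ * y * star (u ρ))‖ ≤ ‖y‖ :=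
    norm_av_le_of_le _ (norm_nonneg _) fun ρ => by
      rw [CStarRing.norm_mul_mem_unitary _ (Unitary.star_mem (h5 ρ)),
        CStarRing.norm_mem_unitary_mul _ (h5 ρ)]
  obtain ⟨p, b1, b2, b3, b4⟩ := cut_qgap (h6.sub hsa) (t := c / 8) (by positivity)
  obtain ⟨z₁, c1, c2, v, c3, c4⟩ := ort N hξ b1
    (vn_mem_of_commute N fun T hT => b2 T (vn_commute N (sub_mem hY hN) hT)) (k + 1)
  refine ⟨(1 - p₀) * z₁, hz₀.mul c1, fun h0 => ?_, Fin (k + 1) × R, inferInstance, inferInstance,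
    fun ρ => v ρ.1 * u ρ.2, fun ρ => ⟨mul_mem (c3 _).1 (h4 _), mul_mem (c3 _).2 (h5 _)⟩,
    fun ζ hζ => ?_⟩
  · have d1 : ‖p ξ‖ ≤ ‖(1 - p₀) ξ‖ / (k + 2) :=
      le_of_mul_le_mul_left ((b3 ξ).trans h7) (by positivity)
    have d2 : (1 - p₀) ξ = (1 - p₀) ((1 - z₁) ξ) := by
      rw [sub_apply 1 z₁, map_sub, show (1 - p₀) (z₁ ξ) = 0 from h0, sub_zero]
      rfl
    have d3 : ‖(1 - p₀) ξ‖ ≤ ‖(1 - z₁) ξ‖ := d2 ▸ proj_norm_apply_le hz₀.1 _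
    rw [← mul_pow, sq_le_sq₀ (norm_nonneg _) (by positivity)] at c2
    rw [le_div_iff₀ (by positivity)] at d1
    rw [Nat.cast_succ] at c2
    have d4 := norm_nonneg (p ξ)
    rcases d4.eq_or_lt with h' | h'
    · rw [← h'] at c2
      linarith
    · linarith
  have d0 : ∀ i, p₀ (star (v i) ζ) = 0 := fun i => by
    have e : p₀ * star (v i) * ((1 - p₀) * z₁) = 0 := by
      rw [← (a2 _ (hcm _ (star_mem (c3 i).1)).symm).eq, mul_assoc, ← mul_assoc p₀, mul_sub,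
        a1.isIdempotentElem.eq, mul_one, sub_self, zero_mul, mul_zero]
    rw [← hζ]
    exact congr($e ζ)
  have d1 : ∀ i, z₁ (star (v i) ζ) = star (v i) ζ := fun i => by
    have e : z₁ * star (v i) * ((1 - p₀) * z₁) = star (v i) * ((1 - p₀) * z₁) := by
      rw [(c1.2.2 _ (star_mem (c3 i).1)).eq, mul_assoc, ← mul_assoc z₁, (c1.2.2 _ hz₀.2.1).eq,
        mul_assoc, c1.1.isIdempotentElem.eq]
    rw [← hζ]
    exact congr($e ζ)
  have d2 : ∀ i, ‖star (v i) ζ‖ = ‖ζ‖ := fun i =>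
    Unitary.norm_map ⟨_, Unitary.star_mem (c3 i).2⟩ ζ
  have d3 : ∀ i, IsStarProjection (v i * (p * z₁) * star (v i)) := fun i => by
    have e := b1.mul c1.1 (c1.2.2 _ (vn_mem_of_commute N fun T hT =>
      b2 T (vn_commute N (sub_mem hY hN) hT))).symm
    refine ⟨?_, e.isSelfAdjoint.conjugate _⟩
    calc _ = v i * (p * z₁ * (star (v i) * v i) * (p * z₁)) * star (v i) := by
          simp only [mul_assoc]
      _ = _ := by rw [(c3 i).2.1, mul_one, e.isIdempotentElem.eq]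
  have d4 : ∑ i, ‖p (star (v i) ζ)‖ ^ 2 ≤ ‖ζ‖ ^ 2 := by
    have e := isStarProjection_sum Finset.univ _ d3 c4
    refine le_trans (le_of_eq ?_) ((norm_sq_spec e ζ).trans_le
      (pow_le_pow_left₀ (norm_nonneg _) (proj_norm_apply_le e ζ) 2))
    rw [sum_apply, inner_sum, Complex.re_sum]
    refine Finset.sum_congr rfl fun i _ => ?_
    rw [inner_qgap, ← norm_sq_spec b1]
    exact congr((⟪_, p $(d1 i)⟫_ℂ).re).symm
  have d5 : ∀ i, av (fun ρ => (⟪ζ, (v i * u ρ * y * star (v i * u ρ)) ζ⟫_ℂ).re) ≤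
      (1 - c / 2 + c / 8) * ‖ζ‖ ^ 2 + (‖y‖ + ‖h‖) * ‖p (star (v i) ζ)‖ ^ 2 := fun i => by
    have e : ∀ ρ, ⟪ζ, (v i * u ρ * y * star (v i * u ρ)) ζ⟫_ℂ =
        ⟪star (v i) ζ, (u ρ * y * star (u ρ)) (star (v i) ζ)⟫_ℂ := fun ρ => by
      rw [← inner_qgap, star_mul]
      simp only [mul_assoc]
    have e1 := a3 _ (d0 i)
    have e2 := b4 (star (v i) ζ)
    have e3 := mul_le_mul_of_nonneg_right ((norm_sub_le _ h).trans (add_le_add_left hYn _))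
      (sq_nonneg ‖p (star (v i) ζ)‖)
    rw [sub_apply, inner_sub_right, Complex.sub_re, av_inner_qgap] at e2
    rw [d2] at e1 e2
    simp only [e]
    linarith
  rw [av_prod]
  refine (av_le_av d5).trans ?_
  rw [av_add, av_const, av, ← Finset.mul_sum, Fintype.card_fin, smul_eq_mul, Nat.cast_succ,
    ← mul_assoc]
  have d6 : ((k : ℝ) + 1)⁻¹ * (‖y‖ + ‖h‖) ≤ c / 8 := by
    rw [div_le_iff₀ hc] at hk
    rw [inv_mul_le_iff₀ (by positivity)]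
    linarith
  have d7 := mul_le_mul d6 d4 (Finset.sum_nonneg fun _ _ => sq_nonneg _) (by positivity)
  linarith

theorem tr_qgap {ξ : H} (hξ : TrVec N ξ) {x g X : H →L[ℂ] H} (hx : x ∈ N) (hg : g ∈ N)
    (hX : X ∈ N) : ⟪x ξ, (star g * X * g) ξ⟫_ℂ = ⟪(g * x * star g) ξ, X ξ⟫_ℂ := by
  have h := hξ.inner_comm (mul_mem (mul_mem (star_mem hx) (star_mem hg)) hX) hg
  rw [← ContinuousLinearMap.adjoint_inner_right, ← ContinuousLinearMap.adjoint_inner_right,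
    ← ContinuousLinearMap.star_eq_adjoint, ← ContinuousLinearMap.star_eq_adjoint, star_mul,
    star_mul, star_star]
  exact h

theorem gap_of_not_ams (hπ : ∀ a, π a ∈ N) {ξ : H} (hξ : TrVec N ξ) (h1 : ‖ξ‖ = 1)
    (h : ¬ AMS π N ξ) :
    ∃ z, CProj N z ∧ z ξ ≠ 0 ∧ ∃ (R : Type) (_ : Fintype R) (_ : Nonempty R)
      (s : R → (H →L[ℂ] H)) (c : ℝ), 0 < c ∧ (∀ ρ, s ρ ∈ N ∧ s ρ ∈ unitary (H →L[ℂ] H)) ∧
      ∀ (I : Type) [Fintype I] (β : I → H) (b : I → (H →L[ℂ] H)), Orthonormal ℂ β →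
        (∀ k, b k ∈ N) → (∀ k, b k * z = b k) →
        av (fun ρ => (∑ j, ∑ k, ⟪β j, s ρ (β k)⟫_ℂ * ⟪s ρ ξ, (star (b j) * b k) ξ⟫_ℂ).re) ≤
          (1 - c) * ∑ k, ‖b k ξ‖ ^ 2 := by
  classical
  obtain ⟨m, u, c, y, hu, hc, hy, hy0, -, h2, h3⟩ := dual_of_not_ams hπ hξ h1 h
  have hs := IsSelfAdjoint.of_nonneg hy0
  obtain ⟨z, hz, hz0, R, _, _, g, hg, h4⟩ := cen_qgap hξ h1 hy hs hc h2
  refine ⟨z, hz, hz0, R × Fin (m + 1), inferInstance, inferInstance,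
    fun ρ => g ρ.1 * π (u ρ.2) * star (g ρ.1), c / 4, by positivity, fun ρ =>
      ⟨mul_mem (mul_mem (hg _).1 (hπ _)) (star_mem (hg _).1), mul_mem (mul_mem (hg _).2
        (Unitary.map_mem π (hu _))) (Unitary.star_mem (hg _).2)⟩, fun I _ β b hβ hb hbz => ?_⟩
  have h5 : ∀ ρ, av (fun i => (∑ j, ∑ k, ⟪β j, (g ρ * π (u i) * star (g ρ)) (β k)⟫_ℂ *
      ⟪(g ρ * π (u i) * star (g ρ)) ξ, (star (b j) * b k) ξ⟫_ℂ).re) ≤
      ∑ k, (⟪star (b k) ξ, (g ρ * y * star (g ρ)) (star (b k) ξ)⟫_ℂ).re := fun ρ => by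
    let θ : D →ₗ[ℂ] Matrix I I ℂ :=
      { toFun := fun a => Matrix.of fun j k => ⟪β j, (g ρ * π a * star (g ρ)) (β k)⟫_ℂ
        map_add' := fun a a' => by
          ext j k
          simp
        map_smul' := fun t a => by
          ext j k
          simp }
    have hθ : IsCCP θ := by
      refine ⟨kposM_of_gram (fun a j => π a (star (g ρ) (β j))) fun a a' j k => ?_, ?_⟩
      · rw [← ContinuousLinearMap.adjoint_inner_right, ← ContinuousLinearMap.star_eq_adjoint,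
          ← map_star, ← ContinuousLinearMap.adjoint_inner_right,
          ← ContinuousLinearMap.star_eq_adjoint, star_star]
        change ⟪β j, (g ρ * π (star a * a') * star (g ρ)) (β k)⟫_ℂ = _
        rw [map_mul]
        rfl
      · have e : θ 1 = 1 := by
          ext j k
          change ⟪β j, (g ρ * π 1 * star (g ρ)) (β k)⟫_ℂ = _
          rw [map_one, mul_one, (hg ρ).2.2, Matrix.one_apply]
          exact orthonormal_iff_ite.1 hβ j k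
        rw [e, sub_self]
        exact Matrix.PosSemidef.zero
    have e : ∀ j k, star (b j * g ρ) * (b k * g ρ) = star (g ρ) * (star (b j) * b k) * g ρ :=
      fun j k => by simp only [star_mul, mul_assoc]
    have e' : ∀ x ∈ N, ∀ j k, ⟪x ξ, (star (b j * g ρ) * (b k * g ρ)) ξ⟫_ℂ =
        ⟪(g ρ * x * star (g ρ)) ξ, (star (b j) * b k) ξ⟫_ℂ := fun x hx j k => by
      rw [e, tr_qgap hξ hx (hg ρ).1 (mul_mem (star_mem (hb j)) (hb k))]
    have h6 := h3 I θ (fun k => b k * g ρ) hθ fun k => mul_mem (hb k) (hg ρ).1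
    simp only [tmap, sum_apply, smul_apply, inner_sum, inner_smul_right, e' _ (hπ _),
      e' _ hy] at h6
    refine h6.trans_eq ?_
    rw [Complex.re_sum]
    refine Finset.sum_congr rfl fun k _ => congrArg _ ?_
    have h7 := hξ.inner_comm (mul_mem (mul_mem (mul_mem (hg ρ).1 hy) (star_mem (hg ρ).1))
      (star_mem (hb k))) (hb k)
    rw [← inner_qgap, mul_assoc (b k), ← h7, ← ContinuousLinearMap.adjoint_inner_right,
      ← ContinuousLinearMap.star_eq_adjoint, (hs.conjugate _).star_eq]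
    rfl
  rw [av_prod]
  refine (av_le_av h5).trans ?_
  rw [av_sum, Finset.mul_sum]
  refine Finset.sum_le_sum fun k _ => ?_
  rw [hξ _ (hb k)]
  refine h4 _ ?_
  have e := congrArg star (hbz k)
  rw [star_mul, hz.1.isSelfAdjoint.star_eq] at e
  exact congr($e ξ)

end Ulam
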