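import Pool.Agent.P.MP_3be8c7_an.QKPD
import Pool.Agent.P.MP_3be8c7_an.EXT
import Pool.Agent.P.MP_3be8c7_an.KQ

open scoped ComplexOrder InnerProductSpace
open Filter Topology
open ContinuousLinearMap (adjoint)

noncomputable section

namespace Ulam

universe u v w

variable {A : Type u} [NonUnitalCStarAlgebra A] [PartialOrder A] [StarOrderedRing A]
variable {H : Type v} [NormedAddCommGroup H] [InnerProductSpace ℂ H] [CompleteSpace H]

theorem IsHereditary.add_left {D : NonUnitalStarSubalgebra ℂ A} (hD : IsHereditary D) {a b : A}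
    (ha : star a * a ∈ D) (hb : star b * b ∈ D) : star (a + b) * (a + b) ∈ D := by
  refine hD _ _ (star_mul_self_nonneg _) ?_ (add_mem (add_mem ha ha) (add_mem hb hb))
  rw [← sub_nonneg]
  refine (star_mul_self_nonneg (a - b)).trans_eq ?_
  simp only [star_add, star_sub, add_mul, mul_add, sub_mul, mul_sub]
  abel

theorem IsHereditary.mul_left {D : NonUnitalStarSubalgebra ℂ A} (hD : IsHereditary D) (x : A) {a : A}
    (ha : star a * a ∈ D) : star (x * a) * (x * a) ∈ D := by
  refine hD _ (‖star x * x‖ • (star a * a)) (star_mul_self_nonneg _) ?_ ?_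
  · rw [star_mul, mul_assoc, ← mul_assoc (star x), ← mul_assoc]
    exact CStarAlgebra.star_left_conjugate_le_norm_smul (.star_mul_self x)
  · rw [← Complex.coe_smul]
    exact SMulMemClass.smul_mem _ ha

omit [PartialOrder A] [StarOrderedRing A] in
theorem smul_qid1 {D : NonUnitalStarSubalgebra ℂ A} (c : ℂ) {a : A} (ha : star a * a ∈ D) :
    star (c • a) * (c • a) ∈ D := by
  rw [star_smul, smul_mul_smul_comm]
  exact SMulMemClass.smul_mem _ ha

theorem IsHereditary.star_mul_mem {D : NonUnitalStarSubalgebra ℂ A} (hD : IsHereditary D) {a b : A}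
    (ha : star a * a ∈ D) (hb : star b * b ∈ D) : star a * b ∈ D := by
  have h1 := sub_mem (sub_mem (hD.add_left ha hb) ha) hb
  have h2 := sub_mem (sub_mem (hD.add_left ha (smul_qid1 Complex.I hb)) ha)
    (smul_qid1 Complex.I hb)
  have h3 := SMulMemClass.smul_mem (1 / 2 : ℂ) (sub_mem h1 (SMulMemClass.smul_mem Complex.I h2))
  refine (congrArg (· ∈ D) ?_).mp h3
  simp only [star_add, add_mul, mul_add, star_smul, smul_mul_assoc, mul_smul_comm, smul_add,
    smul_sub, smul_smul, RCLike.star_def, Complex.conj_I]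
  match_scalars <;> ring_nf <;> simp only [Complex.I_sq] <;> ring_nf

/-- The left ideal of a hereditary subalgebra. -/
def L_qid1 {D : NonUnitalStarSubalgebra ℂ A} (hD : IsHereditary D) : Submodule ℂ A where
  carrier := {a | star a * a ∈ D}
  add_mem' := hD.add_left
  zero_mem' := by simp
  smul_mem' c _ ha := smul_qid1 c ha

/-- The inner product with values in the subalgebra. -/
def ip_qid1 {D : NonUnitalStarSubalgebra ℂ A} (hD : IsHereditary D) (a b : L_qid1 hD) : D :=
  ⟨star (a : A) * b, hD.star_mul_mem a.2 b.2⟩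

theorem pos_qid1 {D : NonUnitalStarSubalgebra ℂ A} [IsClosed (D : Set A)]
    (π : D →⋆ₙₐ[ℂ] (H →L[ℂ] H)) {I : Type*} [Fintype I] (G : I → I → D)
    (hsa : ∀ i j, star (G i j) = G j i)
    (h : ∀ d : I → D, 0 ≤ ∑ i, ∑ j, star (d i : A) * G i j * d j) :
    KerPos fun i j => π (G i j) := by
  refine kerPos_map π G hsa fun d => ?_
  set y := ∑ i, ∑ j, star (d i) * G i j * d j with hy
  have h1 : 0 ≤ (y : A) := (h d).trans_eq (by simp [hy])
  refine ⟨⟨cfcₙ Real.sqrt (y : A), cfcₙ_mem (𝕜' := ℂ) _ y.2⟩, Subtype.ext ?_⟩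
  change (y : A) = star (cfcₙ Real.sqrt (y : A)) * cfcₙ Real.sqrt (y : A)
  rw [(cfcₙ_predicate _ _ : IsSelfAdjoint _).star_eq, ← cfcₙ_mul _ _ _]
  refine (cfcₙ_id' ℝ (y : A) h1.isSelfAdjoint).symm.trans (cfcₙ_congr fun r hr => ?_)
  exact (Real.mul_self_sqrt (quasispectrum_nonneg_of_nonneg _ h1 r hr)).symm

/-- The induced representation. -/
theorem idr1 (D : NonUnitalStarSubalgebra ℂ A) [IsClosed (D : Set A)] (hD : IsHereditary D)
    (π : D →⋆ₙₐ[ℂ] (H →L[ℂ] H)) :
    ∃ (K : Type (max u v)) (_ : NormedAddCommGroup K) (_ : InnerProductSpace ℂ K)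
      (_ : CompleteSpace K) (σ : A →⋆ₙₐ[ℂ] (K →L[ℂ] K)) (t : A → (H →L[ℂ] K))
      (α : (H →L[ℂ] H) → (K →L[ℂ] K)),
      (∀ (a b : A) (d : D), star a * a ∈ D → star b * b ∈ D → (d : A) = star a * b →
        adjoint (t a) ∘L t b = π d) ∧
      (∀ ζ : K, (∀ a, star a * a ∈ D → adjoint (t a) ζ = 0) → ζ = 0) ∧
      (∀ x a, star a * a ∈ D → σ x ∘L t a = t (x * a)) ∧
      ∀ w ∈ unitary (H →L[ℂ] H), (∀ d, Commute w (π d)) → α w ∈ unitary (K →L[ℂ] K) ∧
        (∀ x, Commute (α w) (σ x)) ∧ ∀ a, star a * a ∈ D → α w ∘L t a = t a ∘L w := by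
  classical
  obtain ⟨K, _, _, _, e, he, hd⟩ := kolm (X := L_qid1 hD × H)
    (fun x y => ⟪x.2, π (ip_qid1 hD x.1 y.1) y.2⟫_ℂ) fun m c x => by
      refine (pos_qid1 π (fun i j => ip_qid1 hD (x i).1 (x j).1) (fun i j => Subtype.ext (by
        simp [ip_qid1])) (fun d => ?_) fun i => c i • (x i).2).trans_eq ?_
      · refine (star_mul_self_nonneg (∑ i, ((x i).1 : A) * d i)).trans_eq ?_
        simp only [star_sum, Finset.sum_mul_sum, ip_qid1, star_mul, mul_assoc]
      · simp only [map_smul, inner_smul_left, inner_smul_right, RCLike.star_def]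
        exact Finset.sum_congr rfl fun _ _ => Finset.sum_congr rfl fun _ _ => by ring
  have hx : ∀ ζ ζ' : K, (∀ y, ⟪ζ, e y⟫_ℂ = ⟪ζ', e y⟫_ℂ) → ζ = ζ' := fun ζ ζ' h =>
    ext_inner_right ℂ fun y => DFunLike.congr_fun
      (ext_of_dense e hd (T := innerSL ℂ ζ) (T' := innerSL ℂ ζ') h) y
  have hadj : ∀ T T' : K →L[ℂ] K, (∀ x y, ⟪T' (e x), e y⟫_ℂ = ⟪e x, T (e y)⟫_ℂ) → T' = star T :=
    fun T T' h => ext_of_dense e hd fun x => hx _ _ fun y => by
      rw [h, ContinuousLinearMap.star_eq_adjoint, ContinuousLinearMap.adjoint_inner_left]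
  have hs : ∀ (m : ℕ) (c : Fin m → ℂ) (x : Fin m → L_qid1 hD × H),
      ((‖∑ i, c i • e (x i)‖ ^ 2 : ℝ) : ℂ) =
        ∑ i, ∑ j, ⟪c i • (x i).2, π (ip_qid1 hD (x i).1 (x j).1) (c j • (x j).2)⟫_ℂ := by
    intro m c x
    rw [Complex.ofReal_pow, ← Complex.coe_algebraMap, ← inner_self_eq_norm_sq_to_K, sum_inner]
    simp only [inner_sum, inner_smul_left, inner_smul_right, he, map_smul]
  have e1 : ∀ a b ξ, e (a + b, ξ) = e (a, ξ) + e (b, ξ) := fun a b ξ => hx _ _ fun y => by
    rw [inner_add_left, he, he, he, ← inner_add_right, ← add_apply, ← map_add]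
    congr 3
    exact Subtype.ext (by simp [ip_qid1, add_mul])
  have e2 : ∀ (c : ℂ) a ξ, e (c • a, ξ) = c • e (a, ξ) := fun c a ξ => hx _ _ fun y => by
    rw [inner_smul_left, he, he, ← inner_smul_right, ← smul_apply, ← map_smul]
    congr 3
    exact Subtype.ext (by simp [ip_qid1, smul_mul_assoc])
  have ht : ∀ a : L_qid1 hD, ∃ T : H →L[ℂ] K, ∀ ξ, T ξ = e (a, ξ) := fun a => by
    let T : H →ₗ[ℂ] K :=
      { toFun := fun ξ => e (a, ξ)
        map_add' := fun ξ η => hx _ _ fun y => by rw [inner_add_left, he, he, he, inner_add_left]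
        map_smul' := fun c ξ => hx _ _ fun y => by
          rw [inner_smul_left, he, he, inner_smul_left, RingHom.id_apply] }
    refine ⟨T.mkContinuous √‖π (ip_qid1 hD a a)‖ fun ξ => le_of_sq_le_sq ?_ (by positivity),
      fun _ => rfl⟩
    have h1 : ‖⟪e (a, ξ), e (a, ξ)⟫_ℂ‖ ≤ ‖ξ‖ * (‖π (ip_qid1 hD a a)‖ * ‖ξ‖) := by
      rw [he]
      exact (norm_inner_le_norm _ _).trans (mul_le_mul_of_nonneg_left
        (ContinuousLinearMap.le_opNorm _ _) (norm_nonneg _))
    rw [inner_self_eq_norm_sq_to_K, norm_pow, RCLike.norm_ofReal, abs_norm] at h1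
    rw [mul_pow, Real.sq_sqrt (norm_nonneg _)]
    exact h1.trans_eq (by ring)
  choose t ht using ht
  let ml : A → L_qid1 hD → L_qid1 hD := fun x a => ⟨x * a, hD.mul_left x a.2⟩
  have hσ : ∀ x : A, ∃ T : K →L[ℂ] K, ∀ y, T (e y) = e (ml x y.1, y.2) := fun x => by
    refine (exists_ext e (fun y => e (ml x y.1, y.2)) hd (Real.sqrt_nonneg ‖star x * x‖)
      fun m c y => le_of_sq_le_sq ?_ (by positivity)).imp fun _ h => h.2
    have h1 := pos_qid1 π (fun i j => ((‖star x * x‖ : ℝ) : ℂ) • ip_qid1 hD (y i).1 (y j).1 -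
      ip_qid1 hD (ml x (y i).1) (ml x (y j).1)) (fun i j => Subtype.ext (by
        simp [ip_qid1])) (fun d => by
      refine (sub_nonneg.2 (CStarAlgebra.star_left_conjugate_le_norm_smul
        (a := ∑ i, ((y i).1 : A) * d i) (.star_mul_self x))).trans_eq ?_
      simp [star_sum, Finset.sum_mul, Finset.mul_sum, Finset.smul_sum, ip_qid1, ml, mul_assoc,
        mul_sub, sub_mul]
      simp only [smul_mul_assoc, mul_smul_comm, mul_assoc]
      congr 1 <;> exact Finset.sum_comm)
      fun i => c i • (y i).2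
    simp only [map_sub, map_smul π, sub_apply, smul_apply, inner_sub_right,
      inner_smul_right (r := ((‖star x * x‖ : ℝ) : ℂ)), Finset.sum_sub_distrib,
      ← Finset.mul_sum] at h1
    rw [← hs, ← hs m c fun i => (ml x (y i).1, (y i).2), sub_nonneg] at h1
    rw [mul_pow, Real.sq_sqrt (norm_nonneg _)]
    exact_mod_cast h1
  choose σ hσ using hσ
  have hw : ∀ w ∈ unitary (H →L[ℂ] H), (∀ d, Commute w (π d)) → ∀ ξ d η,
      ⟪w ξ, π d η⟫_ℂ = ⟪ξ, π d (star w η)⟫_ℂ := fun w _ h2 ξ d η => by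
    have h3 := (h2 (star d)).star_star
    rw [← map_star, star_star] at h3
    rw [← mul_apply_eq_comp (π d), ← h3.eq, mul_apply_eq_comp, ContinuousLinearMap.star_eq_adjoint,
      ContinuousLinearMap.adjoint_inner_right]
  have hα : ∀ w : H →L[ℂ] H, ∃ T : K →L[ℂ] K, w ∈ unitary (H →L[ℂ] H) →
      (∀ d, Commute w (π d)) → ∀ y, T (e y) = e (y.1, w y.2) := fun w => by
    by_cases h : w ∈ unitary (H →L[ℂ] H) ∧ ∀ d, Commute w (π d)
    · refine (exists_ext e (fun y => e (y.1, w y.2)) hd zero_le_one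
        fun m c y => le_of_sq_le_sq (le_of_eq ?_) (by positivity)).imp fun _ h _ _ => h.2
      rw [one_mul, ← Complex.ofReal_inj, hs m c fun i => ((y i).1, w (y i).2), hs]
      refine Finset.sum_congr rfl fun i _ => Finset.sum_congr rfl fun j _ => ?_
      rw [← map_smul, ← map_smul, hw w h.1 h.2, ← mul_apply_eq_comp (star w), h.1.1, one_apply_eq_self]
    · exact ⟨0, fun h1 h2 => absurd ⟨h1, h2⟩ h⟩
  choose α hα using hα
  refine ⟨K, inferInstance, inferInstance, inferInstance,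
    { toFun := σ
      map_smul' := fun c x => ext_of_dense e hd fun y => ?_
      map_zero' := ext_of_dense e hd fun y => ?_
      map_add' := fun x x' => ext_of_dense e hd fun y => ?_
      map_mul' := fun x x' => ext_of_dense e hd fun y => ?_
      map_star' := fun x => hadj _ _ fun y z => ?_ },
    fun a => if h : star a * a ∈ D then t ⟨a, h⟩ else 0, α, fun a b d ha hb e3 => ?_,
    fun ζ h => hx _ _ fun y => ?_, fun x a ha => ?_, fun w h1 h2 => ⟨?_, fun x => ?_, fun a ha => ?_⟩⟩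
  · rw [MonoidHom.id_apply, smul_apply, hσ, hσ, ← e2]
    congr 2
    exact Subtype.ext (smul_mul_assoc _ _ _)
  · rw [hσ, show ml 0 y.1 = (0 : ℂ) • y.1 from Subtype.ext (by simp [ml]), e2, zero_smul, zero_apply]
  · rw [add_apply, hσ, hσ, hσ, ← e1]
    congr 2
    exact Subtype.ext (add_mul _ _ _)
  · rw [mul_apply_eq_comp, hσ, hσ, hσ]
    congr 2
    exact Subtype.ext (mul_assoc _ _ _)
  · rw [hσ, hσ, he, he]
    congr 3
    exact Subtype.ext (by simp [ip_qid1, ml, mul_assoc])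
  · ext η
    refine ext_inner_left ℂ fun ξ => ?_
    beta_reduce
    rw [dif_pos ha, dif_pos hb, ContinuousLinearMap.comp_apply,
      ContinuousLinearMap.adjoint_inner_right, ht, ht, he]
    congr 3
    exact Subtype.ext e3.symm
  · have h1 := h y.1 y.1.2
    beta_reduce at h1
    rw [dif_pos (show star (y.1 : A) * y.1 ∈ D from y.1.2)] at h1
    rw [inner_zero_left, ← (ht y.1 y.2 : _ = e y), ← ContinuousLinearMap.adjoint_inner_left]
    exact (congrArg (⟪·, y.2⟫_ℂ) h1).trans (inner_zero_left _)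
  · ext ξ
    beta_reduce
    rw [dif_pos ha, dif_pos (hD.mul_left x ha), ContinuousLinearMap.comp_apply, ht, ht]
    exact hσ x _
  · have h3 : ∀ d, Commute (star w) (π d) := fun d => by
      have := (h2 (star d)).star_star
      rwa [← map_star, star_star] at this
    have h4 := hα _ (Unitary.star_mem h1) h3
    have h5 := hα _ h1 h2
    have h6 : α (star w) = star (α w) := hadj _ _ fun y z => by
      rw [h4, h5, he, he, hw _ (Unitary.star_mem h1) h3, star_star]
    rw [Unitary.mem_iff, ← h6]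
    refine ⟨ext_of_dense e hd fun y => ?_, ext_of_dense e hd fun y => ?_⟩
    · rw [mul_apply_eq_comp, h5, h4, ← mul_apply_eq_comp (star w), h1.1]; rfl
    · rw [mul_apply_eq_comp, h4, h5, ← mul_apply_eq_comp w, h1.2]; rfl
  · refine ext_of_dense e hd fun y => ?_
    change α w (σ x (e y)) = σ x (α w (e y))
    rw [hσ, hα w h1 h2, hα w h1 h2, hσ]
  · ext ξ
    beta_reduce
    rw [dif_pos ha, ContinuousLinearMap.comp_apply, ContinuousLinearMap.comp_apply, ht, ht,
      hα w h1 h2]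

end Ulam
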