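import Pool.Agent.P.MP_3be8c7_an.QID1
import Pool.Agent.P.MP_3be8c7_an.EXT

open scoped ComplexOrder InnerProductSpace
open Filter Topology
open ContinuousLinearMap (adjoint)

noncomputable section

namespace Ulam

universe u v w

variable {A : Type u} [NonUnitalCStarAlgebra A] [PartialOrder A] [StarOrderedRing A]
variable {H : Type v} [NormedAddCommGroup H] [InnerProductSpace ℂ H] [CompleteSpace H]
variable {K : Type w} [NormedAddCommGroup K] [InnerProductSpace ℂ K] [CompleteSpace K]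

theorem idr2 (D : NonUnitalStarSubalgebra ℂ A) [IsClosed (D : Set A)] (hD : IsHereditary D)
    (π : D →⋆ₙₐ[ℂ] (H →L[ℂ] H)) (σ : A →⋆ₙₐ[ℂ] (K →L[ℂ] K)) (t : A → (H →L[ℂ] K))
    (h1 : ∀ (a b : A) (d : D), star a * a ∈ D → star b * b ∈ D → (d : A) = star a * b →
      adjoint (t a) ∘L t b = π d)
    (h2 : ∀ ζ : K, (∀ a, star a * a ∈ D → adjoint (t a) ζ = 0) → ζ = 0)
    (h3 : ∀ x a, star a * a ∈ D → σ x ∘L t a = t (x * a)) :
    ∃ y : H →L[ℂ] K, IsStarProjection (y ∘L adjoint y) ∧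
      (∀ d : D, σ d = y ∘L π d ∘L adjoint y) ∧ (∀ d : D, adjoint y ∘L y ∘L π d = π d) ∧
      ∀ w ∈ unitary (H →L[ℂ] H), (∀ d, Commute w (π d)) → ∀ w' : K →L[ℂ] K,
        (∀ a, star a * a ∈ D → w' ∘L t a = t a ∘L w) → w' ∘L y = y ∘L w := by
  have mD : ∀ d : D, star (d : A) * d ∈ D := fun d => mul_mem (star_mem d.2) d.2
  have pa : ∀ (d : D) (ξ ζ : H), ⟪π d ξ, ζ⟫_ℂ = ⟪ξ, π (star d) ζ⟫_ℂ := fun d ξ ζ => by
    rw [map_star, ContinuousLinearMap.star_eq_adjoint, ContinuousLinearMap.adjoint_inner_right]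
  have pm : ∀ (d d' : D) (ξ : H), π (d * d') ξ = π d (π d' ξ) := fun d d' ξ => by
    rw [map_mul]; rfl
  have hin : ∀ (d d' : D) (ξ ξ' : H), ⟪t d ξ, t d' ξ'⟫_ℂ = ⟪π d ξ, π d' ξ'⟫_ℂ := fun d d' ξ ξ' => by
    rw [← ContinuousLinearMap.adjoint_inner_right, ← ContinuousLinearMap.comp_apply,
      h1 d d' (star d * d') (mD d) (mD d') rfl, pm, pa]
  let X := (D × H) × {z : H // ∀ d, π d z = 0}
  let e : X → H := fun x => π x.1.1 x.1.2 + x.2
  let f : X → K := fun x => t x.1.1 x.1.2
  let o : {z : H // ∀ d, π d z = 0} := ⟨0, fun _ => map_zero _⟩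
  have tot : ∀ v, (∀ x, ⟪e x, v⟫_ℂ = 0) → v = 0 := fun v hv => by
    have h4 : ∀ d, π d v = 0 := fun d => by
      have := hv ((star d, π d v), o)
      simp only [e, o, add_zero] at this
      rw [pa, star_star] at this
      exact inner_self_eq_zero.1 this
    simpa [e] using hv ((0, 0), ⟨v, h4⟩)
  have hd : Dense (Submodule.span ℂ (Set.range e) : Set H) := by
    rw [Submodule.dense_iff_topologicalClosure_eq_top, Submodule.topologicalClosure_eq_top_iff,
      Submodule.eq_bot_iff]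
    exact fun v hv => tot v fun x =>
      (Submodule.mem_orthogonal _ _).1 hv _ (Submodule.subset_span ⟨x, rfl⟩)
  obtain ⟨y, -, hy⟩ := exists_ext e f hd zero_le_one fun m c x => by
    have e2 : ∑ i, c i • e (x i) =
        ∑ i, c i • π (x i).1.1 (x i).1.2 + ∑ i, c i • ((x i).2 : H) := by
      simp only [e, smul_add, Finset.sum_add_distrib]
    have e3 : ⟪∑ i, c i • π (x i).1.1 (x i).1.2, ∑ i, c i • ((x i).2 : H)⟫_ℂ = 0 := by
      simp only [sum_inner, inner_sum, inner_smul_left, inner_smul_right, pa, (x _).2.2 _,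
        inner_zero_right, mul_zero, Finset.sum_const_zero]
    have e4 := norm_add_sq_eq_norm_sq_add_norm_sq_of_inner_eq_zero _ _ e3
    have e5 : ‖∑ i, c i • f (x i)‖ = ‖∑ i, c i • π (x i).1.1 (x i).1.2‖ := by
      rw [norm_eq_sqrt_re_inner (𝕜 := ℂ), norm_eq_sqrt_re_inner (𝕜 := ℂ)]
      simp only [f, sum_inner, inner_sum, inner_smul_left, inner_smul_right, hin]
    rw [e2, one_mul, e5]
    refine (abs_le_of_sq_le_sq' ?_ (norm_nonneg _)).2
    nlinarith [mul_self_nonneg ‖∑ i, c i • ((x i).2 : H)‖]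
  have y1 : ∀ (d : D) ξ, y (π d ξ) = t d ξ := fun d ξ => by simpa [e, f, o] using hy ((d, ξ), o)
  have y2 : ∀ z, (∀ d, π d z = 0) → y z = 0 := fun z hz => by
    simpa [e, f] using hy ((0, 0), ⟨z, hz⟩)
  have y3 : ∀ (d : D) ξ, adjoint y (t d ξ) = π d ξ := fun d ξ => by
    refine sub_eq_zero.1 (tot _ fun x => ?_)
    have : ⟪(x.2 : H), π d ξ⟫_ℂ = 0 := by
      rw [← inner_conj_symm, pa, x.2.2, inner_zero_right, map_zero]
    rw [inner_sub_right, ContinuousLinearMap.adjoint_inner_right, hy, hin, inner_add_left, this,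
      add_zero, sub_self]
  have y4 : y ∘L adjoint y ∘L y = y := ext_of_dense e hd fun x => by
    simp only [ContinuousLinearMap.comp_apply, hy, f, y3, y1]
  have mL : ∀ (a : A) (d : D), star a * a ∈ D → star (a * d) * (a * d) ∈ D := fun a d ha => by
    have := mul_mem (mul_mem (star_mem d.2) ha) d.2
    simpa only [star_mul, mul_assoc] using this
  have tp : ∀ a (d : D) ξ, star a * a ∈ D → t a (π d ξ) = t (a * d) ξ := fun a d ξ ha => by
    refine sub_eq_zero.1 (h2 _ fun b hb => ?_)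
    have k1 := h1 b a ⟨_, hD.star_mul_mem hb ha⟩ hb ha rfl
    have k2 := h1 b (a * d) (⟨_, hD.star_mul_mem hb ha⟩ * d) hb (mL a d ha) (mul_assoc _ _ _)
    rw [map_sub, ← ContinuousLinearMap.comp_apply, k1, ← ContinuousLinearMap.comp_apply (adjoint _),
      k2, pm, sub_self]
  let ψ : D → (K →L[ℂ] K) := fun d => y ∘L π d ∘L adjoint y
  have s1 : ∀ d, star (ψ d) = ψ (star d) := fun d => by
    simp only [ψ, ContinuousLinearMap.star_eq_adjoint, ContinuousLinearMap.adjoint_comp,
      ContinuousLinearMap.adjoint_adjoint, map_star, ContinuousLinearMap.comp_assoc]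
  have s2 : ∀ d d', ψ d * ψ d' = ψ (d * d') := fun d d' => by
    ext ζ
    change y (π d (adjoint y (y (π d' (adjoint y ζ))))) = y (π (d * d') (adjoint y ζ))
    rw [y1 d', y3, pm]
  have s3 : ∀ d d' : D, σ d * ψ d' = ψ (d * d') := fun d d' => by
    ext ζ
    change σ d (y (π d' (adjoint y ζ))) = y (π (d * d') (adjoint y ζ))
    rw [y1, y1, ← ContinuousLinearMap.comp_apply, h3 d d' (mD d')]
    rfl
  have s4 : ∀ d d' : D, ψ d * σ d' = ψ (d * d') := fun d d' => by
    have := congrArg star (s3 (star d') (star d))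
    rw [star_mul, s1, s1, ← map_star, star_mul, star_star, star_star] at this
    simpa using this
  have s5 : ∀ d : D, σ (d * star (d : A)) = ψ (d * star d) := fun d => by
    refine sub_eq_zero.1 (star_eq_zero.1 ?_)
    ext ζ
    refine h2 _ fun a ha => ?_
    have k0 : (σ (d * star (d : A)) - ψ (d * star d)) ∘L t a = 0 := by
      ext ξ
      have k1 := h1 d a ⟨_, hD.star_mul_mem (mD d) ha⟩ (mD d) ha rfl
      have k2 : π (star d) ∘L adjoint y = adjoint (t d) := by
        rw [show t d = y ∘L π d from ContinuousLinearMap.ext fun ξ => (y1 _ ξ).symm,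
          ContinuousLinearMap.adjoint_comp, map_star, ContinuousLinearMap.star_eq_adjoint]
      change (σ (d * star (d : A)) ∘L t a) ξ - y (π (d * star d) (adjoint y (t a ξ))) = 0
      rw [h3 _ a ha, pm, y1, ← ContinuousLinearMap.comp_apply (π (star d)), k2,
        ← ContinuousLinearMap.comp_apply (adjoint _), k1, tp _ _ _ (mD d), mul_assoc, sub_self]
    have k3 := congrArg (fun T => adjoint T ζ) k0
    simpa [ContinuousLinearMap.star_eq_adjoint] using k3
  refine ⟨y, ⟨?_, ?_⟩, fun d => ?_, fun d => ?_, fun w _ hw w' hw' => ext_of_dense e hd fun x => ?_⟩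
  · ext ζ
    exact congrArg (fun T : H →L[ℂ] K => T (adjoint y ζ)) y4
  · simp only [IsSelfAdjoint, ContinuousLinearMap.star_eq_adjoint,
      ContinuousLinearMap.adjoint_comp, ContinuousLinearMap.adjoint_adjoint]
  · refine sub_eq_zero.1 ((CStarRing.star_mul_self_eq_zero_iff (σ d - ψ d)).1 ?_)
    have k1 := s3 (star d) d
    have k2 := s5 (star d)
    simp only [StarMemClass.coe_star, star_star] at k1 k2
    rw [star_sub, s1, ← map_star, sub_mul, mul_sub, mul_sub, s2, s4, ← map_mul, k2, k1, sub_self]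
  · ext ξ
    change adjoint y (y (π d ξ)) = π d ξ
    rw [y1, y3]
  · have k1 : ∀ (d : D) ξ, w (π d ξ) = π d (w ξ) := fun d ξ =>
      congrArg (fun T : H →L[ℂ] H => T ξ) (hw d).eq
    have k2 := congrArg (fun T : H →L[ℂ] K => T x.1.2) (hw' x.1.1 (mD _))
    simp only [ContinuousLinearMap.comp_apply] at k2 ⊢
    rw [hy, k2, map_add, map_add, k1, y1, y2 (w x.2) fun d => by rw [← k1, x.2.2, map_zero],
      add_zero]

end Ulam
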