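import Pool.Agent.P.MP_3be8c7_an.QRHO
import Pool.Agent.P.MP_3be8c7_an.QCMP
import Pool.Agent.P.MP_3be8c7_an.APX

open scoped ComplexOrder InnerProductSpace
open Filter Topology
open ContinuousLinearMap (adjoint)

noncomputable section

namespace Ulam

universe u v w

theorem scale_qind {A B : Type*} [NonUnitalCStarAlgebra A] [NonUnitalCStarAlgebra B]
    (Ψ ρ : A →⋆ₙₐ[ℂ] B) {c : ℝ} (h : ∀ a, ‖a‖ ≤ 1 → ‖Ψ a - ρ a‖ ≤ c) (a : A) :
    ‖Ψ a - ρ a‖ ≤ c * ‖a‖ := by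
  rcases eq_or_ne a 0 with rfl | h0
  · simp
  have hp : 0 < ‖a‖ := norm_pos_iff.2 h0
  have h1 := h (((‖a‖⁻¹ : ℝ) : ℂ) • a) (by
    rw [norm_smul, Complex.norm_real, norm_inv, norm_norm, inv_mul_cancel₀ hp.ne'])
  rw [map_smul, map_smul, ← smul_sub, norm_smul, Complex.norm_real, norm_inv, norm_norm,
    inv_mul_le_iff₀ hp] at h1
  rwa [mul_comm]

theorem eps_qind {A B : Type*} [NonUnitalCStarAlgebra A] [NonUnitalCStarAlgebra B]
    (ρ : A →⋆ₙₐ[ℂ] B) (φ : A → B) {η : ℝ} (h0 : 0 ≤ η) (h1 : ∀ a, ‖φ a‖ ≤ ‖a‖)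
    (h2 : ∀ a, ‖φ a - ρ a‖ ≤ η * ‖a‖) : EpsHom φ (5 * η) := by
  have h3 : ∀ a, ‖a‖ ≤ 1 → ‖φ a - ρ a‖ ≤ η := fun a ha =>
    (h2 a).trans (mul_le_of_le_one_right h0 ha)
  refine ⟨fun a ha => (h1 a).trans ha, fun a b ha hb => ?_, fun a b ha hb => ?_, fun a ha => ?_,
    fun c a hc ha => ?_⟩
  · have e : φ (a + b) - φ a - φ b = (φ (a + b) - ρ (a + b)) - (φ a - ρ a) - (φ b - ρ b) := by
      rw [map_add]; abel
    have h4 : η * ‖a + b‖ ≤ η * 2 :=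
      mul_le_mul_of_nonneg_left ((norm_add_le _ _).trans (by linarith)) h0
    rw [e]
    have h5 := norm_sub_le (φ (a + b) - ρ (a + b) - (φ a - ρ a)) (φ b - ρ b)
    have h6 := norm_sub_le (φ (a + b) - ρ (a + b)) (φ a - ρ a)
    linarith [h2 (a + b), h3 a ha, h3 b hb]
  · have e : φ (a * b) - φ a * φ b =
        (φ (a * b) - ρ (a * b)) - (φ a - ρ a) * φ b - ρ a * (φ b - ρ b) := by
      rw [map_mul, sub_mul, mul_sub]; abel
    have h4 := h3 (a * b) ((norm_mul_le _ _).trans (mul_le_one₀ ha (norm_nonneg _) hb))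
    have h5 : ‖(φ a - ρ a) * φ b‖ ≤ η * 1 :=
      (norm_mul_le _ _).trans (mul_le_mul (h3 a ha) ((h1 b).trans hb) (norm_nonneg _) h0)
    have h6 : ‖ρ a * (φ b - ρ b)‖ ≤ 1 * η :=
      (norm_mul_le _ _).trans (mul_le_mul ((NonUnitalStarAlgHom.norm_apply_le ρ a).trans ha)
        (h3 b hb) (norm_nonneg _) zero_le_one)
    rw [e]
    have h7 := norm_sub_le (φ (a * b) - ρ (a * b) - (φ a - ρ a) * φ b) (ρ a * (φ b - ρ b))
    have h8 := norm_sub_le (φ (a * b) - ρ (a * b)) ((φ a - ρ a) * φ b)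
    linarith
  · have e : φ (star a) - star (φ a) = (φ (star a) - ρ (star a)) - star (φ a - ρ a) := by
      rw [map_star, star_sub]; abel
    have h4 := h3 (star a) (by rwa [norm_star])
    have h5 := norm_sub_le (φ (star a) - ρ (star a)) (star (φ a - ρ a))
    rw [norm_star] at h5
    rw [e]
    linarith [h3 a ha]
  · have e : φ (c • a) - c • φ a = (φ (c • a) - ρ (c • a)) - c • (φ a - ρ a) := by
      rw [map_smul, smul_sub]; abel
    have h4 := h3 (c • a) (by rw [norm_smul]; exact mul_le_one₀ hc (norm_nonneg _) ha)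
    have h5 := norm_sub_le (φ (c • a) - ρ (c • a)) (c • (φ a - ρ a))
    have h6 : ‖c • (φ a - ρ a)‖ ≤ 1 * η := by
      rw [norm_smul]; exact mul_le_mul hc (h3 a ha) (norm_nonneg _) zero_le_one
    rw [e]
    linarith

theorem shrink_qind {B : Type*} [NormedAddCommGroup B] [NormedSpace ℝ B] {x y : B} {δ c : ℝ}
    (h0 : 0 ≤ δ) (hx : ‖x‖ ≤ c) (h : ‖x - y‖ ≤ δ * ‖x‖) :
    ‖(1 + δ)⁻¹ • y‖ ≤ c ∧ ‖(1 + δ)⁻¹ • y - x‖ ≤ 2 * δ * c := by
  have hp : 0 < 1 + δ := by linarith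
  have h1 : δ * ‖x‖ ≤ δ * c := mul_le_mul_of_nonneg_left hx h0
  have hc : 0 ≤ c := (norm_nonneg _).trans hx
  constructor
  · rw [norm_smul, norm_inv, Real.norm_of_nonneg hp.le, inv_mul_le_iff₀ hp]
    have := norm_sub_le x (x - y)
    rw [sub_sub_cancel] at this
    nlinarith
  · have e : (1 + δ)⁻¹ • y - x = (1 + δ)⁻¹ • (-(x - y) - δ • x) := by
      have : x = (1 + δ)⁻¹ • ((1 + δ) • x) := (inv_smul_smul₀ hp.ne' x).symm
      rw [neg_sub, sub_sub, smul_sub]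
      congr 1
      rw [add_smul, one_smul] at this
      exact this
    rw [e, norm_smul, norm_inv, Real.norm_of_nonneg hp.le, inv_mul_le_iff₀ hp]
    have h2 := norm_sub_le (-(x - y)) (δ • x)
    rw [norm_neg, norm_smul, Real.norm_of_nonneg h0] at h2
    nlinarith [mul_nonneg h0 hc, mul_nonneg h0 (mul_nonneg h0 hc)]

theorem snd_qind {A : Type*} [NonUnitalCStarAlgebra A] (x : Unitization ℂ A) :
    ‖x.snd‖ ≤ 2 * ‖x‖ := by
  have h1 : (x.snd : Unitization ℂ A) = x - x.fst • 1 := by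
    rw [eq_sub_iff_add_eq]
    ext <;> simp
  have h2 : ‖x.fst‖ ≤ ‖x‖ := by rw [Unitization.norm_eq_sup]; exact le_max_left _ _
  rw [← Unitization.norm_inr (𝕜 := ℂ), h1]
  have h3 := norm_sub_le x (x.fst • 1)
  rw [norm_smul, norm_one, mul_one] at h3
  linarith

variable {A : Type u} [NonUnitalCStarAlgebra A] [PartialOrder A] [StarOrderedRing A]

theorem ind {f : ℝ → ℝ} (hA : StableWith.{u, u} f A) (D : NonUnitalStarSubalgebra ℂ A)
    [IsClosed (D : Set A)] (hD : IsHereditary D)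
    {H : Type u} [NormedAddCommGroup H] [InnerProductSpace ℂ H] [CompleteSpace H]
    (π : D →⋆ₙₐ[ℂ] (H →L[ℂ] H)) (M : VonNeumannAlgebra H) {δ : ℝ} (h0 : 0 ≤ δ)
    (hN : NearInc (Set.range π) M δ) (hf : f (10 * δ) + 2 * δ ≤ 1 / 2) :
    ∃ ψ : D →⋆ₙₐ[ℂ] (H →L[ℂ] H), (∀ d, ψ d ∈ M) ∧
      ∀ d, ‖π d - ψ d‖ ≤ 4 * (f (10 * δ) + 2 * δ) * ‖d‖ := by
  obtain ⟨I, K, _, _, _, ε, i₀, ρ, hε, h1, h2⟩ := exists_rho D hD π
  obtain ⟨Θ, hΘ⟩ := hε.exists_amp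
  obtain ⟨M', hM, -⟩ := hε.exists_vn hΘ M
  choose ρ' k1 k2 using fun x : A => hN I K ε hε (ρ x) fun T hT =>
    h1 x T fun d => hT _ ⟨d, rfl⟩
  have k3 := fun x : A => shrink_qind h0 (NonUnitalStarAlgHom.norm_apply_le ρ x) (k2 x)
  have k4 := eps_qind ρ (fun x => (1 + δ)⁻¹ • ρ' x) (η := 2 * δ) (by linarith)
    (fun x => (k3 x).1) fun x => (k3 x).2
  rw [show 5 * (2 * δ) = 10 * δ by ring] at k4
  obtain ⟨Ψ, l1, l2⟩ := hA K M' (10 * δ) (by linarith) _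
    (fun x => vn_real_smul_mem M' _ ((hM _).2 (k1 x))) k4
  have f0 : 0 ≤ f (10 * δ) := (norm_nonneg _).trans (l2 0 (by simp))
  have l3 := scale_qind Ψ ρ (c := f (10 * δ) + 2 * δ) fun a ha => by
    have e1 := l2 a ha
    have e2 := (k3 a).2
    have e3 := norm_sub_le ((1 + δ)⁻¹ • ρ' a - ρ a) ((1 + δ)⁻¹ • ρ' a - Ψ a)
    rw [sub_sub_sub_cancel_left] at e3
    nlinarith
  obtain ⟨ψ, m1, m2⟩ := cmp π (Ψ.comp (NonUnitalStarSubalgebraClass.subtype D)) (ε i₀)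
    (hε.self i₀) (δ := f (10 * δ) + 2 * δ) (by linarith) hf fun d => by
      rw [← h2 d]
      exact l3 d
  refine ⟨ψ, fun d => vn_mem_of_commute M fun T hT => ?_, m1⟩
  exact m2 T (Θ T) (hΘ i₀ T) ((hΘ i₀).adj T) (fun d => (hε.commute_iff hΘ _ T).2 fun i j =>
    vn_commute M ((hM _).1 (l1 d) i j) hT) d

theorem indp_of_stable {f : ℝ → ℝ} (hf : Tendsto f (𝓝[≥] 0) (𝓝 0)) (hA : StableWith.{u, u} f A)
    (D : NonUnitalStarSubalgebra ℂ A) [IsClosed (D : Set A)] (hD : IsHereditary D) :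
    INDP (Unitization ℂ D) := by
  intro γ hγ
  have t1 : Tendsto (fun δ : ℝ => 10 * δ) (𝓝[>] 0) (𝓝[≥] 0) := by
    refine tendsto_nhdsWithin_iff.2 ⟨?_, ?_⟩
    · have : Tendsto (fun δ : ℝ => 10 * δ) (𝓝 0) (𝓝 (10 * 0)) := tendsto_id.const_mul 10
      rw [mul_zero] at this
      exact this.mono_left nhdsWithin_le_nhds
    · filter_upwards [self_mem_nhdsWithin] with δ hδ
      exact Set.mem_Ici.2 (mul_nonneg (by norm_num) (Set.mem_Ioi.1 hδ).le)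
  have t2 : Tendsto (fun δ : ℝ => f (10 * δ) + 2 * δ) (𝓝[>] 0) (𝓝 (0 + 2 * 0)) :=
    (hf.comp t1).add ((tendsto_id.const_mul 2).mono_left nhdsWithin_le_nhds)
  rw [mul_zero, add_zero] at t2
  obtain ⟨δ, d1, d2⟩ := ((t2.eventually_le_const (u := min (1 / 2) (γ / 8))
    (lt_min (by norm_num) (by linarith))).and self_mem_nhdsWithin).exists
  refine ⟨δ, d2, fun H _ _ _ π M hN => ?_⟩
  have e : ∀ (σ : Unitization ℂ D →⋆ₐ[ℂ] (H →L[ℂ] H)) (x : Unitization ℂ D),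
      σ x = x.fst • 1 + σ x.snd := fun σ x => by
    conv_lhs => rw [← Unitization.inl_fst_add_inr_snd_eq x]
    rw [map_add, ← Unitization.algebraMap_eq_inl, AlgHomClass.commutes,
      Algebra.algebraMap_eq_smul_one]
  obtain ⟨ψ, h1, h2⟩ := ind hA D hD (Unitization.starLift.symm π) M (le_of_lt d2)
    (fun I K _ _ _ ε hε ρ hρ => hN I K ε hε ρ fun T hT => hρ T (by
      rintro _ ⟨d, rfl⟩
      exact hT _ ⟨d, rfl⟩)) (d1.trans (min_le_left _ _))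
  have e2 : ∀ d : D, Unitization.starLift ψ (d : Unitization ℂ D) = ψ d := fun d => by
    rw [← Unitization.starLift_symm_apply_apply, Equiv.symm_apply_apply]
  refine ⟨Unitization.starLift ψ, fun x => ?_, fun x => ?_⟩
  · rw [e, e2]
    exact add_mem (vn_smul_mem M _ (one_mem M)) (h1 _)
  · rw [e π, e (Unitization.starLift ψ), e2, add_sub_add_left_eq_sub]
    have h3 := h2 x.snd
    have h4 := snd_qind x
    have h5 := d1.trans (min_le_right _ _)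
    rw [Unitization.starLift_symm_apply_apply] at h3
    refine h3.trans ?_
    calc 4 * (f (10 * δ) + 2 * δ) * ‖x.snd‖ ≤ 4 * (γ / 8) * ‖x.snd‖ := by gcongr
      _ ≤ 4 * (γ / 8) * (2 * ‖x‖) := by gcongr
      _ = γ * ‖x‖ := by ring

end Ulam
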