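import Pool.Agent.P.MP_3be8c7_an.QD
import Pool.Agent.P.MP_3be8c7_an.EXT
import Pool.Agent.P.MP_3be8c7_an.SPEC

open scoped ComplexOrder InnerProductSpace
open Filter Topology
open ContinuousLinearMap (adjoint)

noncomputable section

namespace Ulam

universe u v w

variable {H : Type v} [NormedAddCommGroup H] [InnerProductSpace ℂ H] [CompleteSpace H]
variable {K : Type w} [NormedAddCommGroup K] [InnerProductSpace ℂ K] [CompleteSpace K]
variable {D : Type u} [CStarAlgebra D]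

theorem intw (π : D →⋆ₐ[ℂ] (H →L[ℂ] H)) (σ : D →⋆ₐ[ℂ] (K →L[ℂ] K)) (η : H) (ξ : K)
    (h : ∀ a, ‖σ a ξ‖ ≤ ‖π a η‖) :
    ∃ c : H →L[ℂ] K, ‖c‖ ≤ 1 ∧ c η = ξ ∧ ∀ a, c ∘L π a = σ a ∘L c := by
  let X := D × {v : H // ∀ a, ⟪π a η, v⟫_ℂ = 0}
  let e : X → H := fun x => π x.1 η + x.2
  let f : X → K := fun x => σ x.1 ξ
  let o : {v : H // ∀ a, ⟪π a η, v⟫_ℂ = 0} := ⟨0, fun _ => inner_zero_right _⟩
  have hd : Dense (Submodule.span ℂ (Set.range e) : Set H) := by
    rw [Submodule.dense_iff_topologicalClosure_eq_top, Submodule.topologicalClosure_eq_top_iff,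
      Submodule.eq_bot_iff]
    intro v hv
    have h1 : ∀ x, ⟪e x, v⟫_ℂ = 0 := fun x =>
      (Submodule.mem_orthogonal _ _).1 hv _ (Submodule.subset_span ⟨x, rfl⟩)
    have h2 : ∀ a, ⟪π a η, v⟫_ℂ = 0 := fun a => by simpa [e, o] using h1 (a, o)
    simpa [e] using h1 (0, ⟨v, h2⟩)
  obtain ⟨c, hc, hce⟩ := exists_ext e f hd zero_le_one fun m c x => by
    have e1 : ∑ i, c i • f (x i) = σ (∑ i, c i • (x i).1) ξ := by
      simp [f, map_sum]
    have e2 : ∑ i, c i • e (x i) = π (∑ i, c i • (x i).1) η + ∑ i, c i • ((x i).2 : H) := by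
      simp [e, map_sum, Finset.sum_add_distrib]
    have e3 : ⟪π (∑ i, c i • (x i).1) η, ∑ i, c i • ((x i).2 : H)⟫_ℂ = 0 := by
      rw [inner_sum]
      exact Finset.sum_eq_zero fun i _ => by rw [inner_smul_right, (x i).2.2, mul_zero]
    have e4 := norm_add_sq_eq_norm_sq_add_norm_sq_of_inner_eq_zero _ _ e3
    rw [e1, e2, one_mul]
    refine (h _).trans (abs_le_of_sq_le_sq' ?_ (norm_nonneg _)).2
    nlinarith [mul_self_nonneg ‖∑ i, c i • ((x i).2 : H)‖]
  refine ⟨c, hc, by simpa [e, f, o] using hce (1, o), fun a => ext_of_dense e hd fun x => ?_⟩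
  have h1 : ∀ b, ⟪π b η, π a x.2⟫_ℂ = 0 := fun b => by
    rw [← ContinuousLinearMap.adjoint_inner_left, ← ContinuousLinearMap.star_eq_adjoint,
      ← map_star, ← ContinuousLinearMap.mul_apply, ← map_mul]
    exact x.2.2 _
  have h2 := hce (a * x.1, ⟨π a x.2, h1⟩)
  rw [ContinuousLinearMap.comp_apply, ContinuousLinearMap.comp_apply, hce]
  simpa [e, f] using h2

end Ulam
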