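import Pool.Agent.P.MP_3be8c7_an.QMONO
import Pool.Agent.P.MP_3be8c7_an.QPP
import Pool.Agent.P.MP_3be8c7_an.QFIX

open scoped ComplexOrder InnerProductSpace
open Filter Topology
open ContinuousLinearMap (adjoint)

noncomputable section

namespace Ulam

universe u v w

variable {H : Type v} [NormedAddCommGroup H] [InnerProductSpace ℂ H] [CompleteSpace H]

theorem le_alg_qinv {x : H →L[ℂ] H} (hx : IsSelfAdjoint x) {θ : ℝ} (h : ‖x‖ ≤ θ) :
    0 ≤ algebraMap ℝ (H →L[ℂ] H) θ - x :=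
  sub_nonneg.2 (hx.le_algebraMap_norm_self.trans (algebraMap_mono _ h))

theorem norm_le_qinv {x : H →L[ℂ] H} {θ : ℝ} (hθ : 0 ≤ θ)
    (h1 : 0 ≤ algebraMap ℝ (H →L[ℂ] H) θ - x) (h2 : 0 ≤ algebraMap ℝ (H →L[ℂ] H) θ + x)
    (hx : IsSelfAdjoint x) : ‖x‖ ≤ θ := by
  set A := algebraMap ℝ (H →L[ℂ] H) θ with hA
  have hc : Commute A x := Algebra.commutes θ x
  have h3 := Commute.mul_nonneg h1 h2
    (((Commute.refl A).add_right hc).sub_left (hc.symm.add_right (Commute.refl x)))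
  have h4 : (A - x) * (A + x) = algebraMap ℝ (H →L[ℂ] H) (θ * θ) - x * x := by
    rw [map_mul, ← hA, sub_mul, mul_add, mul_add, hc.eq]; abel
  rw [h4, sub_nonneg, ← CStarAlgebra.norm_le_iff_le_algebraMap _ (mul_nonneg hθ hθ)
    hx.mul_self_nonneg, hx.norm_mul_self, ← sq] at h3
  exact (pow_le_pow_iff_left₀ (norm_nonneg _) hθ two_ne_zero).1 h3

theorem wl_qinv {F : Type*} {T : F → (H →L[ℂ] H)} {S : H →L[ℂ] H}
    (h : ∀ ζ, HasSum (fun f => T f ζ) (S ζ)) :
    WL atTop (fun s : Finset F => ∑ f ∈ s, T f) S := WL.of_sot fun ξ => by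
  simp only [sum_apply]
  exact h ξ

theorem exists_inv {F : Type*} [Group F] (κ m : F →* (H →L[ℂ] H)) (hκ : URep κ) (hm : URep m)
    (hκm : ∀ f g, Commute (κ f) (m g)) {Q : H →L[ℂ] H} (hQ : 0 ≤ Q)
    (hs : ∀ ζ, HasSum (fun f => (κ f * Q * κ f⁻¹) ζ) ζ) (hQm : ∀ f, Commute Q (m f))
    {e : H →L[ℂ] H} (he : IsStarProjection e) (hQe : Commute Q e) (hκe : ∀ f, Commute (κ f) e)
    {θ : ℝ} (hθ : θ < 1 / 2) (hme : ∀ f, ‖m f * e - e * m f‖ ≤ θ) :
    ∃ p, IsStarProjection p ∧ ‖p - e‖ ≤ 2 * θ ∧ (∀ f, Commute (κ f * m f) p) ∧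
      ∀ T, (∀ f, Commute T (m f)) → Commute T e → (∀ f, Commute T (κ f * Q * κ f⁻¹)) →
        Commute T p := by
  classical
  have hθ0 : 0 ≤ θ := (norm_nonneg _).trans (hme 1)
  set q : F → (H →L[ℂ] H) := fun f => κ f * Q * κ f⁻¹ with hq
  set p : F → (H →L[ℂ] H) := fun f => m f * e * m f⁻¹ with hp
  have hmi : ∀ f, m f⁻¹ * m f = 1 := fun f => by rw [← map_mul, inv_mul_cancel, map_one]
  have hmi' : ∀ f, m f * m f⁻¹ = 1 := fun f => by rw [← map_mul, mul_inv_cancel, map_one]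
  have hq0 : ∀ f, 0 ≤ q f := fun f => by
    have := star_right_conjugate_nonneg hQ (κ f)
    rwa [hκ f] at this
  have hpp : ∀ f, IsStarProjection (p f) := fun f => by
    refine ⟨?_, ?_⟩
    · change m f * e * m f⁻¹ * (m f * e * m f⁻¹) = m f * e * m f⁻¹
      calc m f * e * m f⁻¹ * (m f * e * m f⁻¹) = m f * (e * (m f⁻¹ * m f) * e) * m f⁻¹ := by
            simp only [mul_assoc]
        _ = _ := by rw [hmi, mul_one, he.isIdempotentElem.eq]
    · have := he.isSelfAdjoint.conjugate (m f)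
      rwa [hm f] at this
  have hqm : ∀ f g, Commute (q f) (m g) := fun f g =>
    ((hκm f g).mul_left (hQm g)).mul_left (hκm _ g)
  have hqe : ∀ f, Commute (q f) e := fun f => ((hκe f).mul_left hQe).mul_left (hκe _)
  have hqp : ∀ f, Commute (q f) (p f) := fun f =>
    ((hqm f f).mul_right (hqe f)).mul_right (hqm f _)
  have hpe : ∀ f, ‖p f - e‖ ≤ θ := fun f => by
    have h1 : p f - e = (m f * e - e * m f) * m f⁻¹ := by
      rw [sub_mul, mul_assoc e, hmi', mul_one]
    rw [h1]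
    exact (norm_mul_le _ _).trans ((mul_le_mul (hme f) (hm.norm_le _) (norm_nonneg _) hθ0).trans
      (mul_one θ).le)
  have hT0 : ∀ f, 0 ≤ q f * p f := fun f => Commute.mul_nonneg (hq0 f) (hpp f).nonneg (hqp f)
  have hT1 : ∀ f, q f * p f ≤ q f := fun f => by
    have := Commute.mul_nonneg (hq0 f) (hpp f).one_sub.nonneg
      ((Commute.one_right _).sub_right (hqp f))
    rwa [mul_sub, mul_one, sub_nonneg] at this
  have hW1 : WL atTop (fun s : Finset F => ∑ f ∈ s, q f) 1 := wl_qinv hs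
  have hle : ∀ s : Finset F, ∑ f ∈ s, q f ≤ 1 := fun s => sub_nonneg.1
    ((hW1.sub (WL.const _)).nonneg ((eventually_ge_atTop s).mono fun t ht => sub_nonneg.2
      (Finset.sum_le_sum_of_subset_of_nonneg ht fun f _ _ => hq0 f)))
  obtain ⟨Y, hY0, -, hY⟩ := mono_sum (fun f => q f * p f) hT0 (C := 1) fun s =>
    (CStarAlgebra.norm_le_one_iff_of_nonneg _ (Finset.sum_nonneg fun f _ => hT0 f)).2
      ((Finset.sum_le_sum fun f _ => hT1 f).trans (hle s))
  have hW2 := wl_qinv hY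
  have hYs : IsSelfAdjoint Y := IsSelfAdjoint.of_nonneg hY0
  set A := algebraMap ℝ (H →L[ℂ] H) θ with hA
  have hqA : ∀ f, Commute (q f) A := fun f => (Algebra.commutes θ (q f)).symm
  have hsa : ∀ f, IsSelfAdjoint (p f - e) := fun f =>
    (hpp f).isSelfAdjoint.sub he.isSelfAdjoint
  have hW3 := hW2.sub (hW1.mul_right e)
  have hW4 := hW1.mul_right A
  rw [one_mul] at hW3 hW4
  have hYe : ‖Y - e‖ ≤ θ := by
    refine norm_le_qinv hθ0 ((hW4.sub hW3).nonneg (Eventually.of_forall fun s => ?_))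
      ((hW4.add hW3).nonneg (Eventually.of_forall fun s => ?_)) (hYs.sub he.isSelfAdjoint)
    · rw [Finset.sum_mul, Finset.sum_mul, ← Finset.sum_sub_distrib, ← Finset.sum_sub_distrib]
      refine Finset.sum_nonneg fun f _ => ?_
      rw [← mul_sub, ← mul_sub]
      exact Commute.mul_nonneg (hq0 f) (le_alg_qinv (hsa f) (hpe f))
        ((hqA f).sub_right ((hqp f).sub_right (hqe f)))
    · rw [Finset.sum_mul, Finset.sum_mul, ← Finset.sum_sub_distrib, ← Finset.sum_add_distrib]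
      refine Finset.sum_nonneg fun f _ => ?_
      rw [← mul_sub, ← mul_add]
      refine Commute.mul_nonneg (hq0 f) ?_ ((hqA f).add_right ((hqp f).sub_right (hqe f)))
      have := le_alg_qinv (hsa f).neg ((norm_neg _).trans_le (hpe f))
      rwa [sub_neg_eq_add] at this
  obtain ⟨P, hP, hPe, hPc⟩ := proj_near hYs he hθ hYe
  refine ⟨P, hP, hPe, fun h => hPc _ ?_, fun T hTm hTe hTq => hPc _ (hW2.commute
    (Eventually.of_forall fun s => Commute.sum_right _ _ _ fun f _ =>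
      (hTq f).mul_right (((hTm f).mul_right hTe).mul_right (hTm _))))⟩
  have hκi : κ h⁻¹ * κ h = 1 := by rw [← map_mul, inv_mul_cancel, map_one]
  have h1 : ∀ f, κ h * q f = q (h * f) * κ h := fun f => by
    simp only [hq, mul_inv_rev, map_mul, mul_assoc, hκi, mul_one]
  have h2 : ∀ f, m h * p f = p (h * f) * m h := fun f => by
    simp only [hp, mul_inv_rev, map_mul, mul_assoc, hmi, mul_one]
  have h3 : ∀ f, Commute (κ h) (p f) := fun f =>
    ((hκm h f).mul_right (hκe h)).mul_right (hκm h _)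
  have h4 : ∀ f, κ h * m h * (q f * p f) = q (h * f) * p (h * f) * (κ h * m h) := fun f => by
    calc κ h * m h * (q f * p f) = κ h * (m h * q f) * p f := by simp only [mul_assoc]
      _ = (κ h * q f) * (m h * p f) := by rw [← (hqm f h).eq]; simp only [mul_assoc]
      _ = q (h * f) * (κ h * p (h * f)) * m h := by rw [h1, h2]; simp only [mul_assoc]
      _ = _ := by rw [(h3 _).eq]; simp only [mul_assoc]
  ext ζ
  have h5 := (κ h * m h).hasSum (hY ζ)
  have h6 := (Equiv.mulLeft h).hasSum_iff.2 (hY ((κ h * m h) ζ))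
  refine h5.unique (h6.congr_fun fun f => ?_)
  exact DFunLike.congr_fun (h4 f) ζ

end Ulam
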