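import Pool.Agent.P.MP_3be8c7_an.QD
import Pool.Agent.P.MP_3be8c7_an.EXT
import Pool.Agent.P.MP_3be8c7_an.VB

open scoped ComplexOrder InnerProductSpace
open Filter Topology
open ContinuousLinearMap (adjoint)

noncomputable section

namespace Ulam

universe u v w

variable {H : Type v} [NormedAddCommGroup H] [InnerProductSpace ℂ H] [CompleteSpace H]
variable {N : VonNeumannAlgebra H} {ξ : H} {j : (H →L[ℂ] H) → (H →L[ℂ] H)} {x y : H →L[ℂ] H}

theorem span_dense_qj (h : Cyc N ξ) :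
    Dense (Submodule.span ℂ (Set.range fun x : N => (x : H →L[ℂ] H) ξ) : Set H) := by
  rw [Submodule.dense_iff_topologicalClosure_eq_top, Submodule.topologicalClosure_eq_top_iff,
    Submodule.eq_bot_iff]
  intro ζ hζ
  refine h ζ fun x hx => Submodule.inner_right_of_mem_orthogonal ?_ hζ
  exact Submodule.subset_span ⟨⟨x, hx⟩, rfl⟩

theorem span_mem_qj {η : H}
    (hη : η ∈ Submodule.span ℂ (Set.range fun x : N => (x : H →L[ℂ] H) ξ)) :
    ∃ x ∈ N, x ξ = η := by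
  induction hη using Submodule.span_induction with
  | mem η hη => obtain ⟨x, rfl⟩ := hη; exact ⟨x, x.2, rfl⟩
  | zero => exact ⟨0, zero_mem N, rfl⟩
  | add a b _ _ ha hb =>
    obtain ⟨x, hx, rfl⟩ := ha
    obtain ⟨y, hy, rfl⟩ := hb
    exact ⟨x + y, add_mem hx hy, rfl⟩
  | smul c a _ ha =>
    obtain ⟨x, hx, rfl⟩ := ha
    exact ⟨c • x, vn_smul_mem N c hx, rfl⟩

theorem Cyc.dense (h : Cyc N ξ) (ζ : H) {δ : ℝ} (hδ : 0 < δ) : ∃ x ∈ N, ‖x ξ - ζ‖ ≤ δ := by
  obtain ⟨η, hη, hd⟩ := (span_dense_qj h).exists_dist_lt ζ hδ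
  obtain ⟨x, hx, rfl⟩ := span_mem_qj hη
  refine ⟨x, hx, ?_⟩
  rw [dist_comm, dist_eq_norm] at hd
  exact hd.le

theorem Cyc.ext {K : Type*} [NormedAddCommGroup K] [NormedSpace ℂ K] (h : Cyc N ξ)
    {T T' : H →L[ℂ] K} (he : ∀ x ∈ N, T (x ξ) = T' (x ξ)) : T = T' :=
  ext_of_dense _ (span_dense_qj h) fun x => he x x.2

theorem Cyc.sep (h : Cyc N ξ) (hξ : TrVec N ξ) (hx : x ∈ N) (h0 : x ξ = 0) : x = 0 := by
  refine h.ext fun y hy => ?_
  have := TrVec.norm_mul_le hξ hx hy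
  rw [h0, norm_zero, mul_zero] at this
  exact norm_le_zero_iff.1 this

theorem exists_j (h : Cyc N ξ) (hξ : TrVec N ξ) : ∃ j, IsJ N ξ j := by
  have key : ∀ x : H →L[ℂ] H, ∃ T : H →L[ℂ] H, x ∈ N → ∀ y ∈ N, T (y ξ) = (y * star x) ξ := by
    intro x
    by_cases hx : x ∈ N
    · obtain ⟨T, -, hT⟩ := exists_ext (fun y : N => (y : H →L[ℂ] H) ξ)
        (fun y : N => ((y : H →L[ℂ] H) * star x) ξ) (span_dense_qj h) (norm_nonneg (star x))
        fun m c y => by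
          have hm : ∑ i, c i • (y i : H →L[ℂ] H) ∈ N :=
            sum_mem fun i _ => vn_smul_mem N _ (y i).2
          have := TrVec.norm_mul_le hξ hm (star_mem hx)
          simpa [Finset.sum_mul, sum_apply] using this
      exact ⟨T, fun _ y hy => hT ⟨y, hy⟩⟩
    · exact ⟨0, fun h' => absurd h' hx⟩
  choose j hj using key
  exact ⟨j, hj⟩

theorem IsJ.apply (hj : IsJ N ξ j) (hx : x ∈ N) : j x ξ = star x ξ := by
  simpa using hj x hx 1 (one_mem N)

theorem IsJ.commute (hj : IsJ N ξ j) (h : Cyc N ξ) (hx : x ∈ N) (hy : y ∈ N) : Commute (j x) y := by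
  refine h.ext fun z hz => ?_
  have h1 := hj x hx _ (mul_mem hy hz)
  have h2 := hj x hx _ hz
  change j x ((y * z) ξ) = y (j x (z ξ))
  rw [h1, h2, mul_assoc]
  rfl

theorem IsJ.mul (hj : IsJ N ξ j) (h : Cyc N ξ) (hx : x ∈ N) (hy : y ∈ N) :
    j (x * y) = j x * j y := by
  refine h.ext fun z hz => ?_
  change j (x * y) (z ξ) = j x (j y (z ξ))
  rw [hj _ (mul_mem hx hy) _ hz, hj _ hy _ hz, hj _ hx _ (mul_mem hz (star_mem hy)), star_mul,
    mul_assoc]

theorem IsJ.one (hj : IsJ N ξ j) (h : Cyc N ξ) : j 1 = 1 := by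
  refine h.ext fun z hz => ?_
  rw [hj _ (one_mem N) _ hz, star_one, mul_one]
  rfl

theorem inner_eq_qj (a b : H →L[ℂ] H) : ⟪a ξ, b ξ⟫_ℂ = ⟪ξ, (star a * b) ξ⟫_ℂ := by
  rw [ContinuousLinearMap.star_eq_adjoint, ← ContinuousLinearMap.adjoint_inner_right]
  rfl

theorem IsJ.star (hj : IsJ N ξ j) (h : Cyc N ξ) (hξ : TrVec N ξ) (hx : x ∈ N) :
    j (star x) = star (j x) := by
  refine h.ext fun b hb => ?_
  rw [← sub_eq_zero]
  refine h _ fun a ha => ?_
  rw [inner_sub_right, sub_eq_zero, hj _ (star_mem hx) _ hb, star_star,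
    ContinuousLinearMap.star_eq_adjoint, ContinuousLinearMap.adjoint_inner_right, hj _ hx _ ha,
    inner_eq_qj, inner_eq_qj, star_mul, star_star, ← mul_assoc,
    TrVec.inner_comm hξ (mul_mem (star_mem ha) hb) hx, mul_assoc]

end Ulam
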