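import Pool.Agent.P.MP_3be8c7_an.QL2B
import Pool.Agent.P.MP_3be8c7_an.QMB

open scoped ComplexOrder InnerProductSpace
open Filter Topology
open ContinuousLinearMap (adjoint)

noncomputable section

namespace Ulam

universe u v w

variable {H : Type v} [NormedAddCommGroup H] [InnerProductSpace ℂ H] [CompleteSpace H]

variable {K : Type w} [NormedAddCommGroup K] [InnerProductSpace ℂ K] [CompleteSpace K]

/-- The operators whose entries lie in a closed subalgebra. -/
def matAlg_qkpd {I : Type*} [Fintype I] {ε : I → (H →L[ℂ] K)} (hε : IsL2 ε)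
    (A : NonUnitalStarSubalgebra ℂ (H →L[ℂ] H)) : NonUnitalStarSubalgebra ℂ (K →L[ℂ] K) where
  carrier := {Y | ∀ i j, ent ε Y i j ∈ A}
  add_mem' {X Y} hX hY i j := by
    have : ent ε (X + Y) i j = ent ε X i j + ent ε Y i j := by
      simp only [ent, ContinuousLinearMap.add_comp, ContinuousLinearMap.comp_add]
    rw [this]
    exact add_mem (hX i j) (hY i j)
  zero_mem' i j := by
    have : ent ε (0 : K →L[ℂ] K) i j = 0 := by
      simp only [ent, ContinuousLinearMap.zero_comp, ContinuousLinearMap.comp_zero]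
    rw [this]
    exact zero_mem A
  mul_mem' {X Y} hX hY i j := by
    rw [hε.ent_mul]
    exact sum_mem fun l _ => mul_mem (hX i l) (hY l j)
  smul_mem' c {X} hX i j := by
    have : ent ε (c • X) i j = c • ent ε X i j := by
      simp only [ent, ContinuousLinearMap.smul_comp, ContinuousLinearMap.comp_smul]
    rw [this]
    exact SMulMemClass.smul_mem c (hX i j)
  star_mem' {X} hX i j := by
    rw [← ent_star]
    exact star_mem (hX j i)

theorem closed_qkpd {I : Type*} [Fintype I] {ε : I → (H →L[ℂ] K)} (hε : IsL2 ε)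
    (A : NonUnitalStarSubalgebra ℂ (H →L[ℂ] H)) (hA : IsClosed (A : Set (H →L[ℂ] H))) :
    IsClosed (matAlg_qkpd hε A : Set (K →L[ℂ] K)) := by
  have : (matAlg_qkpd hε A : Set (K →L[ℂ] K)) =
      ⋂ i, ⋂ j, (fun Y => ent ε Y i j) ⁻¹' (A : Set (H →L[ℂ] H)) := by
    ext Y
    simp only [Set.mem_iInter]
    rfl
  rw [this]
  refine isClosed_iInter fun i => isClosed_iInter fun j => hA.preimage ?_
  unfold ent
  fun_prop

theorem zero_qkpd {I : Type*} {ε : I → (H →L[ℂ] K)} (hε : IsL2 ε) {T : K →L[ℂ] K} (hT : 0 ≤ T)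
    (h : ∀ j, ent ε T j j ≤ 0) : T = 0 := by
  obtain ⟨Z, rfl⟩ := CStarAlgebra.nonneg_iff_eq_star_mul_self.1 hT
  have : Z = 0 := hε.ext_right fun j => by
    have e : ent ε (star Z * Z) j j = adjoint (Z ∘L ε j) ∘L (Z ∘L ε j) := by
      rw [ContinuousLinearMap.adjoint_comp]
      rfl
    rw [ContinuousLinearMap.zero_comp, ← ContinuousLinearMap.adjoint_comp_self_eq_zero_iff]
    refine le_antisymm (e ▸ h j) ?_
    exact (ContinuousLinearMap.nonneg_iff_isPositive _).2
      (ContinuousLinearMap.isPositive_adjoint_comp_self _)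
  rw [this, mul_zero]

theorem kerPos_map {D : Type u} [NonUnitalCStarAlgebra D] (π : D →⋆ₙₐ[ℂ] (H →L[ℂ] H))
    {I : Type*} [Fintype I] (G : I → I → D) (hsa : ∀ i j, star (G i j) = G j i)
    (h : ∀ d : I → D, ∃ y : D, ∑ i, ∑ j, star (d i) * G i j * d j = star y * y) :
    KerPos fun i j => π (G i j) := by
  obtain ⟨K, _, _, _, ε, hε⟩ := exists_l2 I H
  obtain ⟨X, hX⟩ := hε.exists_of_matrix fun i j => π (G i j)
  have hXs : IsSelfAdjoint X := hε.ext_ent fun i j => by
    rw [← ent_star, hX, hX, ← map_star, hsa]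
  set A := (NonUnitalStarAlgHom.range π).topologicalClosure with hA
  have hc : IsClosed (matAlg_qkpd hε A : Set (K →L[ℂ] K)) :=
    closed_qkpd hε A (NonUnitalStarSubalgebra.isClosed_topologicalClosure _)
  have hXm : X ∈ matAlg_qkpd hε A := fun i j => by
    rw [hX]
    exact NonUnitalStarSubalgebra.le_topologicalClosure _ ⟨G i j, rfl⟩
  have hN : X⁻ ∈ matAlg_qkpd hε A := by
    rw [CFC.negPart_def]
    exact cfcₙ_mem (𝕜' := ℂ) (hs := hc) _ hXm
  have hpos : ∀ y : I → (H →L[ℂ] H), (∀ i, y i ∈ A) →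
      0 ≤ ∑ i, ∑ k, star (y i) * π (G i k) * y k := by
    intro y hy
    have h1 : y ∈ closure (Set.pi Set.univ fun _ : I => Set.range π) := by
      rw [closure_pi_set]
      exact fun i _ => hy i
    have h2 : IsClosed {y : I → (H →L[ℂ] H) | 0 ≤ ∑ i, ∑ k, star (y i) * π (G i k) * y k} :=
      isClosed_le continuous_const (by fun_prop)
    refine h2.closure_subset_iff.2 (fun z hz => ?_) h1
    choose d hd using fun i => hz i (Set.mem_univ i)
    obtain ⟨w, hw⟩ := h d
    have h3 := congrArg π hw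
    simp only [map_sum, map_mul, map_star, hd] at h3
    show 0 ≤ ∑ i, ∑ k, star (z i) * π (G i k) * z k
    rw [h3]
    exact star_mul_self_nonneg _
  have hNs : IsSelfAdjoint X⁻ := (CFC.negPart_nonneg X).isSelfAdjoint
  have h3 : X⁻ * X⁻ * X⁻ = 0 := by
    refine zero_qkpd hε (by simpa [hNs.star_eq] using
      star_left_conjugate_nonneg (CFC.negPart_nonneg X) X⁻) fun j => ?_
    have e1 : X⁻ * X⁻ * X⁻ = -(star X⁻ * X * X⁻) := by
      rw [hNs.star_eq]
      nth_rw 5 [← CFC.posPart_sub_negPart X hXs]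
      rw [mul_sub, CFC.negPart_mul_posPart, zero_sub, neg_mul, neg_neg]
    have e2 : ent ε (-(star X⁻ * X * X⁻)) j j = -ent ε (star X⁻ * X * X⁻) j j := by
      simp only [ent, ContinuousLinearMap.neg_comp, ContinuousLinearMap.comp_neg]
    rw [e1, e2, neg_nonpos]
    have := hpos (fun i => ent ε X⁻ i j) fun i => hN i j
    rw [Finset.sum_comm] at this
    simpa only [hε.ent_mul, Finset.sum_mul, ent_star, hX] using this
  have h4 : X⁻ = 0 := by
    have := hNs.nnnorm_pow_two_pow 2
    rw [show X⁻ ^ 2 ^ 2 = X⁻ * X⁻ * X⁻ * X⁻ by noncomm_ring, h3, zero_mul, nnnorm_zero] at this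
    exact nnnorm_eq_zero.1 (eq_zero_of_pow_eq_zero this.symm)
  have h5 : 0 ≤ X := by
    rw [← CFC.posPart_sub_negPart X hXs, h4, sub_zero]
    exact CFC.posPart_nonneg X
  intro ξ
  simp only [← hX, ent_inner_qmb]
  exact ((ContinuousLinearMap.nonneg_iff_isPositive X).1 h5).inner_nonneg_right _

end Ulam
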