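import Pool.Agent.P.MP_3be8c7_an.QD
import Pool.Agent.P.MP_3be8c7_an.EXT

open scoped ComplexOrder InnerProductSpace
open Filter Topology
open ContinuousLinearMap (adjoint)

noncomputable section

namespace Ulam

universe u v w

variable {H : Type v} [NormedAddCommGroup H] [InnerProductSpace ℂ H] [CompleteSpace H]
variable {K : Type w} [NormedAddCommGroup K] [InnerProductSpace ℂ K] [CompleteSpace K]
variable {K' : Type*} [NormedAddCommGroup K'] [InnerProductSpace ℂ K'] [CompleteSpace K']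
variable {H' : Type*} [NormedAddCommGroup H'] [InnerProductSpace ℂ H'] [CompleteSpace H']
variable {ι : Type*} {ε : ι → (H →L[ℂ] K)}

theorem exists_l2 (ι : Type u) (H : Type v) [NormedAddCommGroup H] [InnerProductSpace ℂ H] [CompleteSpace H] :
    ∃ (K : Type (max u v)) (_ : NormedAddCommGroup K) (_ : InnerProductSpace ℂ K)
      (_ : CompleteSpace K) (ε : ι → (H →L[ℂ] K)), IsL2 ε := by
  classical
  have ha : ∀ (i : ι) (f : lp (fun _ : ι => H) 2),
      adjoint (lp.singleContinuousLinearMap ℂ (fun _ : ι => H) 2 i) f = f i := fun i f =>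
    ext_inner_left ℂ fun a => by
      rw [ContinuousLinearMap.adjoint_inner_right, lp.singleContinuousLinearMap_apply,
        lp.inner_single_left]
  refine ⟨lp (fun _ : ι => H) 2, inferInstance, inferInstance, inferInstance,
    lp.singleContinuousLinearMap ℂ (fun _ : ι => H) 2, fun i => ?_, fun i j hij => ?_, fun f => ?_⟩
  · ext a
    rw [ContinuousLinearMap.comp_apply, ha, lp.singleContinuousLinearMap_apply,
      lp.single_apply_self]
    rfl
  · ext a
    rw [ContinuousLinearMap.comp_apply, ha, lp.singleContinuousLinearMap_apply,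
      lp.single_apply_ne _ _ _ hij]
    rfl
  · simp only [ha, lp.singleContinuousLinearMap_apply]
    exact lp.hasSum_single (by simp) f

theorem IsL2.self_ql2 (h : IsL2 ε) (i : ι) (a : H) : adjoint (ε i) (ε i a) = a :=
  DFunLike.congr_fun (h.self i) a

theorem IsL2.ne_ql2 (h : IsL2 ε) {i j : ι} (hij : i ≠ j) (a : H) : adjoint (ε i) (ε j a) = 0 :=
  DFunLike.congr_fun (h.ne i j hij) a

theorem IsL2.hasSum_inner (h : IsL2 ε) (η ζ : K) :
    HasSum (fun i => ⟪adjoint (ε i) η, adjoint (ε i) ζ⟫_ℂ) ⟪η, ζ⟫_ℂ := by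
  have := (h.total ζ).mapL (innerSL ℂ η)
  simpa only [innerSL_apply_apply, ContinuousLinearMap.adjoint_inner_left] using this

theorem IsL2.hasSum_norm_sq (h : IsL2 ε) (ζ : K) :
    HasSum (fun i => ‖adjoint (ε i) ζ‖ ^ 2) (‖ζ‖ ^ 2) := by
  have := (h.hasSum_inner ζ ζ).mapL (RCLike.reCLM (K := ℂ))
  simpa only [RCLike.reCLM_apply, inner_self_eq_norm_sq] using this

theorem IsL2.sum_le (h : IsL2 ε) (s : Finset ι) (ζ : K) :
    ∑ i ∈ s, ‖adjoint (ε i) ζ‖ ^ 2 ≤ ‖ζ‖ ^ 2 := by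
  exact sum_le_hasSum s (fun _ _ => sq_nonneg _) (h.hasSum_norm_sq ζ)

theorem IsL2.norm_sum_sq (h : IsL2 ε) (s : Finset ι) (ζ : ι → H) :
    ‖∑ i ∈ s, ε i (ζ i)‖ ^ 2 = ∑ i ∈ s, ‖ζ i‖ ^ 2 := by
  classical
  refine (h.hasSum_norm_sq _).unique ?_
  have h1 : ∀ j, adjoint (ε j) (∑ i ∈ s, ε i (ζ i)) = if j ∈ s then ζ j else 0 := fun j => by
    rw [map_sum, ← Finset.sum_ite_eq]
    refine Finset.sum_congr rfl fun i _ => ?_
    split_ifs with e
    · rw [e, h.self_ql2]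
    · exact h.ne_ql2 e _
  rw [show ∑ i ∈ s, ‖ζ i‖ ^ 2 = ∑ j ∈ s, ‖adjoint (ε j) (∑ i ∈ s, ε i (ζ i))‖ ^ 2 from
    Finset.sum_congr rfl fun j hj => by rw [h1, if_pos hj]]
  exact hasSum_sum_of_ne_finset_zero fun j hj => by rw [h1, if_neg hj]; simp

theorem IsL2.norm_apply (h : IsL2 ε) (i : ι) (ζ : H) : ‖ε i ζ‖ = ‖ζ‖ := by
  have := h.norm_sum_sq {i} fun _ => ζ
  rw [Finset.sum_singleton, Finset.sum_singleton] at this
  exact (pow_left_inj₀ (norm_nonneg _) (norm_nonneg _) two_ne_zero).1 this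

theorem IsL2.norm_le (h : IsL2 ε) (i : ι) : ‖ε i‖ ≤ 1 := by
  exact ContinuousLinearMap.opNorm_le_bound _ zero_le_one fun ζ => by rw [h.norm_apply, one_mul]

theorem IsL2.ext_vec (h : IsL2 ε) {η ζ : K} (he : ∀ i, adjoint (ε i) η = adjoint (ε i) ζ) :
    η = ζ := by
  refine (h.total η).unique ?_
  simp only [he]
  exact h.total ζ

theorem IsL2.ext_left (h : IsL2 ε) {T T' : K' →L[ℂ] K}
    (he : ∀ i, adjoint (ε i) ∘L T = adjoint (ε i) ∘L T') : T = T' := by
  exact ContinuousLinearMap.ext fun ζ => h.ext_vec fun i => DFunLike.congr_fun (he i) ζ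

theorem IsL2.ext_right (h : IsL2 ε) {T T' : K →L[ℂ] K'} (he : ∀ i, T ∘L ε i = T' ∘L ε i) :
    T = T' := by
  refine ContinuousLinearMap.ext fun ζ => ((h.total ζ).mapL T).unique ?_
  have : ∀ i a, T (ε i a) = T' (ε i a) := fun i a => DFunLike.congr_fun (he i) a
  simp only [this]
  exact (h.total ζ).mapL T'

theorem IsL2.ext_ent (h : IsL2 ε) {X Y : K →L[ℂ] K} (he : ∀ i j, ent ε X i j = ent ε Y i j) :
    X = Y := by
  exact h.ext_right fun j => h.ext_left fun i => he i j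

/-- Column operators. -/
theorem IsL2.col (h : IsL2 ε) (y : ι → (K' →L[ℂ] H)) {C : ℝ} (hC : 0 ≤ C)
    (hy : ∀ (s : Finset ι) ζ, ∑ i ∈ s, ‖y i ζ‖ ^ 2 ≤ (C * ‖ζ‖) ^ 2) :
    ∃ V : K' →L[ℂ] K, ‖V‖ ≤ C ∧ ∀ i, adjoint (ε i) ∘L V = y i := by
  have hs : ∀ ζ, Summable fun i => ε i (y i ζ) := fun ζ => by
    have h1 := summable_of_sum_le (fun i => sq_nonneg ‖y i ζ‖) fun s => hy s ζ
    rw [summable_iff_vanishing_norm] at h1 ⊢
    intro δ hδ
    obtain ⟨s, hs⟩ := h1 (δ ^ 2) (by positivity)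
    refine ⟨s, fun t ht => lt_of_pow_lt_pow_left₀ 2 hδ.le ?_⟩
    rw [h.norm_sum_sq]
    exact (le_abs_self _).trans_lt (hs t ht)
  have ha : ∀ i ζ, adjoint (ε i) (∑' j, ε j (y j ζ)) = y i ζ := fun i ζ => by
    refine ((hs ζ).hasSum.mapL (adjoint (ε i))).unique ?_
    rw [← h.self_ql2 i (y i ζ)]
    exact hasSum_single i fun j hj => h.ne_ql2 hj.symm _
  let V : K' →ₗ[ℂ] K :=
    { toFun := fun ζ => ∑' j, ε j (y j ζ)
      map_add' := fun a b => h.ext_vec fun i => by rw [map_add, ha, ha, ha, map_add]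
      map_smul' := fun c a => h.ext_vec fun i => by
        rw [map_smul, ha, ha, map_smul, RingHom.id_apply] }
  have hV : ∀ ζ, ‖V ζ‖ ≤ C * ‖ζ‖ := fun ζ => by
    refine le_of_sq_le_sq ?_ (by positivity)
    refine hasSum_le_of_sum_le (h.hasSum_norm_sq (V ζ)) fun s => ?_
    exact (Finset.sum_congr rfl fun i _ => by rw [show adjoint (ε i) (V ζ) = _ from ha i ζ]).trans_le
      (hy s ζ)
  exact ⟨V.mkContinuous C hV, V.mkContinuous_norm_le hC hV,
    fun i => ContinuousLinearMap.ext fun ζ => ha i ζ⟩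

/-- Weighted permutation operators. -/
theorem IsL2.diag (h : IsL2 ε) {ι' : Type*} {ε' : ι' → (H' →L[ℂ] K')} (h' : IsL2 ε') (e : ι ≃ ι')
    (T : ι → (H →L[ℂ] H')) {C : ℝ} (hC : 0 ≤ C) (hT : ∀ i, ‖T i‖ ≤ C) :
    ∃ X : K →L[ℂ] K', ‖X‖ ≤ C ∧ (∀ i, X ∘L ε i = ε' (e i) ∘L T i) ∧
      ∀ i, adjoint (ε' (e i)) ∘L X = T i ∘L adjoint (ε i) := by
  obtain ⟨X, h1, h2⟩ := h'.col (fun i => T (e.symm i) ∘L adjoint (ε (e.symm i))) hC fun s ζ => by
    have h3 := h.sum_le (s.map e.symm.toEmbedding) ζ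
    rw [Finset.sum_map] at h3
    rw [mul_pow]
    refine le_trans ?_ (mul_le_mul_of_nonneg_left h3 (sq_nonneg C))
    rw [Finset.mul_sum]
    refine Finset.sum_le_sum fun i _ => ?_
    rw [← mul_pow]
    exact pow_le_pow_left₀ (norm_nonneg _) ((T _).le_of_opNorm_le (hT _) _) 2
  refine ⟨X, h1, fun i => h'.ext_left fun j => ContinuousLinearMap.ext fun a => ?_,
    fun i => by rw [h2, e.symm_apply_apply]⟩
  obtain ⟨j, rfl⟩ := e.surjective j
  have h4 : adjoint (ε' (e j)) (X (ε i a)) = T j (adjoint (ε j) (ε i a)) := by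
    have := DFunLike.congr_fun (h2 (e j)) (ε i a)
    rwa [e.symm_apply_apply] at this
  refine h4.trans ?_
  change _ = adjoint (ε' (e j)) (ε' (e i) (T i a))
  by_cases hij : j = i
  · rw [hij, h.self_ql2, h'.self_ql2]
  · rw [h.ne_ql2 hij, h'.ne_ql2 (e.injective.ne hij), map_zero]

theorem IsL2.sum_eq_one [Fintype ι] (h : IsL2 ε) : ∑ i, ε i ∘L adjoint (ε i) = 1 := by
  refine ContinuousLinearMap.ext fun ζ => ?_
  rw [ContinuousLinearMap.sum_apply]
  exact (hasSum_fintype _).unique (h.total ζ)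

theorem ent_star (ε : ι → (H →L[ℂ] K)) (X : K →L[ℂ] K) (i j : ι) :
    star (ent ε X i j) = ent ε (star X) j i := by
  simp only [ent, ContinuousLinearMap.star_eq_adjoint, ContinuousLinearMap.adjoint_comp,
    ContinuousLinearMap.adjoint_adjoint, ContinuousLinearMap.comp_assoc]

theorem IsL2.ent_mul [Fintype ι] (h : IsL2 ε) (X Y : K →L[ℂ] K) (i j : ι) :
    ent ε (X * Y) i j = ∑ l, ent ε X i l * ent ε Y l j := by
  refine ContinuousLinearMap.ext fun a => ?_
  rw [ContinuousLinearMap.sum_apply]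
  exact (((h.total (Y (ε j a))).mapL X).mapL (adjoint (ε i))).unique (hasSum_fintype _)

theorem IsL2.exists_of_matrix [Fintype ι] (h : IsL2 ε) (R : ι → ι → (H →L[ℂ] H)) :
    ∃ X : K →L[ℂ] K, ∀ i j, ent ε X i j = R i j := by
  refine ⟨∑ k, ∑ l, ε k ∘L R k l ∘L adjoint (ε l), fun i j => ContinuousLinearMap.ext fun a => ?_⟩
  simp only [ent, ContinuousLinearMap.comp_apply, ContinuousLinearMap.sum_apply, map_sum]
  rw [Finset.sum_eq_single i (fun k _ hk => Finset.sum_eq_zero fun l _ => h.ne_ql2 hk.symm _)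
    (by simp), Finset.sum_eq_single j (fun l _ hl => by rw [h.ne_ql2 hl, map_zero, map_zero,
      map_zero]) (by simp), h.self_ql2, h.self_ql2]

end Ulam
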