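import Pool.Agent.P.MP_3be8c7_an.QLB0
import Pool.Agent.P.MP_3be8c7_an.LIN
import Pool.Agent.P.MP_3be8c7_an.ULIM

open scoped ComplexOrder InnerProductSpace
open Filter Topology
open ContinuousLinearMap (adjoint)

noncomputable section

namespace Ulam

universe u v w

theorem basis_qlb {H : Type v} [NormedAddCommGroup H] [InnerProductSpace ℂ H] [CompleteSpace H]
    (G : Finset H) : ∃ (n : ℕ) (β : Fin n → H), Orthonormal ℂ β ∧ IsStarProjection (prj β) ∧
      ∀ ζ ∈ G, prj β ζ = ζ := by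
  let U : Submodule ℂ H := Submodule.span ℂ (G : Set H)
  have : FiniteDimensional ℂ U := FiniteDimensional.span_finset ℂ G
  let b := stdOrthonormalBasis ℂ U
  have h1 : prj (fun i => (b i : H)) = U.starProjection := (b.starProjection_eq_sum_rankOne).symm
  refine ⟨_, fun i => (b i : H), b.orthonormal.comp_linearIsometry U.subtypeₗᵢ, ?_, fun ζ hζ => ?_⟩
  · rw [h1]
    exact isStarProjection_starProjection
  · rw [h1]
    exact Submodule.starProjection_eq_self_iff.2 (Submodule.subset_span hζ)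

theorem norm_le_qlb {H : Type v} [NormedAddCommGroup H] [InnerProductSpace ℂ H]
    (X : H →L[ℂ] H) {c : ℝ} (hC : 0 ≤ c) (h : ∀ ξ η : H, ‖⟪η, X ξ⟫_ℂ‖ ≤ ‖η‖ * (c * ‖ξ‖)) :
    ‖X‖ ≤ c := by
  refine ContinuousLinearMap.opNorm_le_bound _ hC fun ξ => ?_
  have h3 := h ξ (X ξ)
  rw [inner_self_eq_norm_sq_to_K, norm_pow, RCLike.norm_ofReal, abs_norm, sq] at h3
  rcases (norm_nonneg (X ξ)).eq_or_lt with h4 | h4
  · rw [← h4]
    positivity
  · exact le_of_mul_le_mul_left h3 h4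

theorem linb {γ : ℝ} (hγ : 0 < γ) : ∃ ε : ℝ, 0 < ε ∧
    ∀ (D : Type u) [CStarAlgebra D] [PartialOrder D] [StarOrderedRing D], RP D → STRG D →
    ∀ (H : Type v) [NormedAddCommGroup H] [InnerProductSpace ℂ H] [CompleteSpace H]
      (φ : D → (H →L[ℂ] H)), EpsHom φ ε →
    ∃ L : D →ₗ[ℂ] (H →L[ℂ] H), KPos L ∧ ∀ a, ‖a‖ ≤ 1 → ‖L a - φ a‖ ≤ γ := by
  classical
  obtain ⟨ε, hε, h0⟩ := linb0.{u, v} (γ := γ / 4) (by positivity)
  refine ⟨min ε (γ / 40), by positivity, fun D _ _ _ hN hS H _ _ _ φ hφ => ?_⟩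
  have hu : ∀ x ∈ unitary D, ‖x‖ ≤ 1 := fun x hx => by
    rcases subsingleton_or_nontrivial D with h | h
    · simp [Subsingleton.elim x 0]
    · exact (CStarRing.norm_of_mem_unitary hx).le
  choose n β b1 b2 b3 using fun G : Finset H => basis_qlb G
  choose L L1 L3 using fun F : Finset D × Finset H => h0 D hN hS H φ (hφ.mono (min_le_left _ _))
    (F.1.filter (· ∈ unitary D)) (fun x hx => (Finset.mem_filter.1 hx).2) (Fin (n F.2)) (β F.2)
    (b1 F.2)
  let l : Ultrafilter (Finset D × Finset H) := Ultrafilter.of atTop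
  have h1 : ∀ x ∈ unitary D, ∀ᶠ F in l,
      ‖L F x - prj (β F.2) * φ x * prj (β F.2)‖ ≤ γ / 4 := fun x hx =>
    ((eventually_ge_atTop (({x}, ∅) : Finset D × Finset H)).filter_mono
      (Ultrafilter.of_le _)).mono fun F hF =>
      L3 F x (Finset.mem_filter.2 ⟨Finset.singleton_subset_iff.1 hF.1, hx⟩)
  have h1' : ∀ ζ : H, ∀ᶠ F : Finset D × Finset H in l, prj (β F.2) ζ = ζ := fun ζ =>
    ((eventually_ge_atTop ((∅, {ζ}) : Finset D × Finset H)).filter_mono
      (Ultrafilter.of_le _)).mono fun F hF => b3 F.2 ζ (Finset.singleton_subset_iff.1 hF.2)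
  have h2 : ∀ a, ∀ᶠ F in l, ‖L F a‖ ≤ (γ / 4 + 1) * ‖a‖ := fun a =>
    (h1 1 (one_mem _)).mono fun F hF => ((L1 F).norm_le a).trans (by
      have e1 := norm_le_insert' (L F 1) (prj (β F.2) * φ 1 * prj (β F.2))
      have e2 := hφ.ball 1 (hu 1 (one_mem _))
      have e3 := (b2 F.2).norm_le
      have e4 : ‖prj (β F.2) * φ 1 * prj (β F.2)‖ ≤ 1 :=
        (norm_mul_le _ _).trans (mul_le_one₀ ((norm_mul_le _ _).trans
          (mul_le_one₀ e3 (norm_nonneg _) e2)) (norm_nonneg _) e3)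
      gcongr
      linarith)
  choose S _ hS using fun a => ulim l (fun F => L F a) (h2 a)
  let T : D →ₗ[ℂ] (H →L[ℂ] H) :=
    { toFun := S
      map_add' := fun a b => (hS (a + b)).unique (by simpa only [map_add] using (hS a).add (hS b))
      map_smul' := fun c a => (hS (c • a)).unique
        (by simpa only [map_smul, RingHom.id_apply] using (hS a).smul c) }
  have h7 : ∀ x ∈ unitary D, ‖S x - φ x‖ ≤ γ / 4 := fun x hx => by
    refine norm_le_qlb _ (by positivity) fun ξ η => ?_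
    refine le_of_tendsto ((hS x).sub (WL.const (φ x)) ξ η).norm ?_
    filter_upwards [h1 x hx, h1' ξ, h1' η] with F e1 e2 e3
    have e4 : ⟪η, (L F x - φ x) ξ⟫_ℂ = ⟪η, (L F x - prj (β F.2) * φ x * prj (β F.2)) ξ⟫_ℂ := by
      have e5 : adjoint (prj (β F.2)) = prj (β F.2) := (b2 F.2).isSelfAdjoint.star_eq
      simp only [sub_apply, inner_sub_right, mul_apply_eq_comp]
      rw [e2, ← ContinuousLinearMap.adjoint_inner_left (prj (β F.2)), e5, e3]
    rw [e4]
    exact (norm_inner_le_norm _ _).trans (mul_le_mul_of_nonneg_left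
      ((ContinuousLinearMap.le_opNorm _ ξ).trans
        (mul_le_mul_of_nonneg_right e1 (norm_nonneg _))) (norm_nonneg _))
  refine ⟨T, KPos.of_wl l (L := fun F => L F) (Eventually.of_forall L1) hS, fun a ha => ?_⟩
  obtain ⟨x, c, rfl, hc⟩ := CStarAlgebra.exists_sum_four_unitary a
  have h3 : ∑ i, ‖c i‖ ≤ 2 := (Finset.sum_le_sum fun i _ => hc i).trans (by
    simp only [Finset.sum_const, Finset.card_univ, Fintype.card_fin, nsmul_eq_mul, Nat.cast_ofNat]
    linarith)
  have h4 := (hφ.mono (min_le_right _ _)).comb2 c (fun i => (x i : D)) h3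
    (fun i => hu _ (x i).2) ha
  have h5 : ‖T (∑ i, c i • (x i : D)) - ∑ i, c i • φ (x i)‖ ≤ (∑ i, ‖c i‖) * (γ / 4) := by
    rw [map_sum, ← Finset.sum_sub_distrib, Finset.sum_mul]
    refine norm_sum_le_of_le _ fun i _ => ?_
    rw [map_smul, ← smul_sub, norm_smul]
    exact mul_le_mul_of_nonneg_left (h7 _ (x i).2) (norm_nonneg _)
  have h6 := norm_sub_le_norm_sub_add_norm_sub (T (∑ i, c i • (x i : D))) (∑ i, c i • φ (x i))
    (φ (∑ i, c i • (x i : D)))
  rw [norm_sub_rev, Fintype.card_fin, Nat.cast_ofNat] at h4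
  nlinarith

end Ulam
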