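import Pool.Agent.P.MP_3be8c7_an.QD
import Pool.Agent.P.MP_3be8c7_an.STARK

open scoped ComplexOrder InnerProductSpace
open Filter Topology
open ContinuousLinearMap (adjoint)

noncomputable section

namespace Ulam

universe u v w

/-- Finite families of structure data with a contraction and order zero data. -/
structure Fam_qstk (D : Type u) [CStarAlgebra D] (J : Type) where
  x : Fam_stark D
  v : x.J → J → D
  h : x.J → D
  hv : ∀ l, OZH (v l) (h l)

section

variable {D : Type u} [CStarAlgebra D] {J : Type}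

/-- The map of a family. -/
def mp_qstk (K : ℝ) (x : Fam_qstk D J) (a : D) : D :=
  K • mp_stark x.x a + av fun l => x.h l * a * x.h l

theorem mid_qstk (K : ℝ) (x x' : Fam_qstk D J) :
    ∃ y : Fam_qstk D J, ∀ a, mp_qstk K y a = (2 : ℝ)⁻¹ • (mp_qstk K x a + mp_qstk K x' a) := by
  let y : Fam_stark D :=
    { J := (x.x.J × x'.x.J) ⊕ (x.x.J × x'.x.J)
      s := Sum.elim (fun p => x.x.s p.1) fun p => x'.x.s p.2
      c := Sum.elim (fun p => x.x.c p.1) fun p => x'.x.c p.2
      hc := by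
        rintro (p | p)
        · exact x.x.hc _
        · exact x'.x.hc _ }
  have hy : ∀ a, mp_stark y a = (2 : ℝ)⁻¹ • (mp_stark x.x a + mp_stark x'.x a) := fun a => by
    unfold mp_stark
    rw [← av_mid]
    refine congrArg av (funext ?_)
    rintro (p | p) <;> rfl
  refine ⟨{ x := y
            v := Sum.elim (fun p => x.v p.1) fun p => x'.v p.2
            h := Sum.elim (fun p => x.h p.1) fun p => x'.h p.2
            hv := ?_ }, fun a => ?_⟩
  · rintro (p | p)
    · exact x.hv _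
    · exact x'.hv _
  · have h2 : (av fun l : y.J => (Sum.elim (fun p => x.h p.1) (fun p => x'.h p.2) l : D) * a *
        Sum.elim (fun p => x.h p.1) (fun p => x'.h p.2) l) = (2 : ℝ)⁻¹ •
          ((av fun l => x.h l * a * x.h l) + av fun l => x'.h l * a * x'.h l) := by
      rw [← av_mid]
      refine congrArg av (funext ?_)
      rintro (p | p) <;> rfl
    unfold mp_qstk
    rw [hy, h2]
    module

end

theorem stark_g {δ : ℝ} (hδ : 0 < δ) : ∃ K : ℝ, 1 ≤ K ∧
    ∀ (D : Type u) [CStarAlgebra D] [PartialOrder D] [StarOrderedRing D], STRG D →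
    ∀ U : Finset D, (∀ u ∈ U, u ∈ unitary D) → ∀ (J : Type) [Fintype J] [Nonempty J],
    ∃ (L : Type) (_ : Fintype L) (_ : Nonempty L) (s : L → SData D D) (c : L → D)
      (v : L → J → D) (h : L → D), (∀ l, ‖c l‖ ≤ 1) ∧ (∀ l, OZH (v l) (h l)) ∧
      ∀ u ∈ U, ‖u - (K • av fun l => star (c l) * hpsi (s l).v ((s l).θ u) * c l) -
        av (fun l => h l * u * h l)‖ ≤ δ := by
  have hK1 : 1 ≤ 96 / δ + 1 := le_add_of_nonneg_left (by positivity)
  have hK2 : 8 / (96 / δ + 1) ≤ δ / 12 := by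
    rw [div_le_div_iff₀ (by positivity) (by positivity), mul_add, mul_div_cancel₀ _ hδ.ne']
    linarith
  generalize 96 / δ + 1 = K at hK1 hK2
  refine ⟨K ^ 2, one_le_pow₀ hK1, fun D _ _ _ hD U hU J _ _ => ?_⟩
  let e : Fin 4 → ℂ := ![1, -1, -Complex.I, -(-Complex.I)]
  have he : ∀ i, ‖e i‖ = 1 := fun i => by fin_cases i <;> simp [e]
  obtain ⟨x, hx⟩ := hbc (ι := U × Fin 4) (X := Fam_qstk D J)
    (fun x i => hm_stark (e i.2) (i.1.1 - mp_qstk (K ^ 2) x i.1.1) - (δ / 12) • (1 : D))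
    (fun x i => (hm_sa_stark _ _).sub ((IsSelfAdjoint.all _).smul (IsSelfAdjoint.one D)))
    (fun x x' => by
      obtain ⟨y, hy⟩ := mid_qstk (K ^ 2) x x'
      refine ⟨y, fun i => le_of_eq ?_⟩
      rw [hy, show i.1.1 - (2 : ℝ)⁻¹ • (mp_qstk (K ^ 2) x i.1.1 + mp_qstk (K ^ 2) x' i.1.1) =
        (2 : ℝ)⁻¹ • ((i.1.1 - mp_qstk (K ^ 2) x i.1.1) +
          (i.1.1 - mp_qstk (K ^ 2) x' i.1.1)) by module, hm_mid_stark]
      module)
    (fun ρ δ' hδ' => by
      let σ : D →ₚ[ℂ] ℂ := PositiveLinearMap.mk₀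
        { toFun := fun a => ∑ i, ρ i a
          map_add' := fun a b => by simp [Finset.sum_add_distrib]
          map_smul' := fun c a => by simp [Finset.mul_sum] }
        fun a ha => Finset.sum_nonneg fun i _ => map_nonneg (ρ i) ha
      have h0 : ∀ i, ∀ a : D, 0 ≤ a → 0 ≤ (ρ i a).re := fun i a ha =>
        (Complex.nonneg_iff.1 (map_nonneg (ρ i) ha)).1
      have h1 : ∀ i, ∀ a : D, 0 ≤ a → (ρ i a).re ≤ (σ a).re := fun i a ha => by
        change _ ≤ (∑ i, ρ i a).re
        rw [Complex.re_sum]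
        exact Finset.single_le_sum (fun j _ => h0 j a ha) (Finset.mem_univ i)
      have hM : 0 ≤ (σ 1).re := (Complex.nonneg_iff.1 (map_nonneg σ zero_le_one)).1
      obtain ⟨t, ht, hN⟩ : ∃ t : ℝ, 0 < t ∧ (Fintype.card (U × Fin 4) : ℝ) * t ≤ δ' := by
        refine ⟨δ' / (Fintype.card (U × Fin 4) + 1), by positivity, ?_⟩
        rw [← mul_div_assoc, div_le_iff₀ (by positivity)]
        linarith
      obtain ⟨s, v, h, hvh, hs⟩ := hD σ U hU (t ^ 2 / ((σ 1).re + 1)) (by positivity) J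
      obtain ⟨x, hx⟩ := est_stark s (zero_lt_one.trans_le hK1)
      refine ⟨⟨x, fun _ => v, fun _ => h, fun _ => hvh⟩, le_trans ?_ hN⟩
      rw [← nsmul_eq_mul, ← Finset.card_univ]
      refine Finset.sum_le_card_nsmul _ _ _ fun i _ => ?_
      obtain ⟨⟨u, hu⟩, i'⟩ := i
      have hu1 : ‖u‖ ≤ 1 := by
        have := (CStarAlgebra.norm_le_one_iff_of_nonneg (star u * u) (star_mul_self_nonneg u)).2
          (hU u hu).1.le
        rw [CStarRing.norm_star_mul_self] at this
        nlinarith [norm_nonneg u]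
      have a1 : ‖ρ (⟨u, hu⟩, i') (u - s.ev u - h * u * h)‖ ≤ t := by
        refine (pow_le_pow_iff_left₀ (norm_nonneg _) ht.le two_ne_zero).1 ((pos_cs _ _).trans ?_)
        refine (mul_le_mul (h1 _ 1 zero_le_one) ((h1 _ _ (star_mul_self_nonneg _)).trans (hs u hu))
          (h0 _ _ (star_mul_self_nonneg _)) hM).trans ?_
        rw [← mul_div_assoc, div_le_iff₀ (by positivity)]
        nlinarith [sq_nonneg t]
      have a2 := pos_re_le_norm (ρ (⟨u, hu⟩, i')) (e i' • (s.ev u - (K ^ 2) • mp_stark x u))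
      rw [norm_smul, he, one_mul] at a2
      have a3 := mul_le_mul_of_nonneg_right ((hx u hu1).trans hK2) (h0 (⟨u, hu⟩, i') 1 zero_le_one)
      have a4 : (ρ (⟨u, hu⟩, i') (e i' • (u - s.ev u - h * u * h))).re ≤ t := by
        refine (Complex.re_le_norm _).trans ?_
        rwa [map_smul, norm_smul, he, one_mul]
      have a5 : u - mp_qstk (K ^ 2) ⟨x, fun _ => v, fun _ => h, fun _ => hvh⟩ u =
          (u - s.ev u - h * u * h) + (s.ev u - (K ^ 2) • mp_stark x u) := by
        change u - ((K ^ 2) • mp_stark x u + av fun _ : x.J => h * u * h) = _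
        rw [av_const]
        abel
      rw [map_sub, Complex.sub_re, hm_re_stark, a5, smul_add, map_add,
        Complex.add_re, ← Complex.coe_smul (δ / 12), map_smul _ ((δ / 12 : ℝ) : ℂ), smul_eq_mul,
        Complex.re_ofReal_mul]
      linarith)
    (show 0 < δ / 12 by positivity)
  refine ⟨x.x.J, inferInstance, inferInstance, x.x.s, x.x.c, x.v, x.h, x.x.hc, x.hv,
    fun u hu => ?_⟩
  have hz : ∀ i, hm_stark (e i) (u - mp_qstk (K ^ 2) x u) ≤ (δ / 6) • (1 : D) := fun i => by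
    have := sub_le_iff_le_add.1 (hx (⟨u, hu⟩, i))
    rwa [← add_smul, show δ / 12 + δ / 12 = δ / 6 by ring] at this
  have b1 := norm_sa_stark (by positivity) (hz 0) ((hm_neg_stark 1 _).symm.trans_le (hz 1))
  have b2 := norm_sa_stark (by positivity) (hz 2)
    ((hm_neg_stark (-Complex.I) _).symm.trans_le (hz 3))
  rw [sub_sub]
  change ‖u - mp_qstk (K ^ 2) x u‖ ≤ δ
  rw [hm_dec_stark (u - mp_qstk (K ^ 2) x u)]
  refine (norm_add_le _ _).trans ?_
  rw [norm_smul, Complex.norm_I, one_mul]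
  exact (add_le_add b1 b2).trans_eq (by ring)

end Ulam
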