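import Pool.Agent.P.MP_3be8c7_an.QCPX
import Pool.Agent.P.MP_3be8c7_an.QSTK
import Pool.Agent.P.MP_3be8c7_an.ZLIN
import Pool.Agent.P.MP_3be8c7_an.LIN0

open scoped ComplexOrder InnerProductSpace
open Filter Topology
open ContinuousLinearMap (adjoint)

noncomputable section

namespace Ulam

universe u v w

theorem prj_proj_qlb0 {H : Type v} [NormedAddCommGroup H] [InnerProductSpace ℂ H] [CompleteSpace H]
    {I : Type*} [Fintype I] {β : I → H} (h : Orthonormal ℂ β) : IsStarProjection (prj β) := by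
  refine isStarProjection_sum _ _
    (fun i => InnerProductSpace.isStarProjection_rankOne_self (h.1 i)) fun i j hij => ?_
  ext ζ
  simp [inner_smul_right, h.2 hij]

theorem kpos_add_qlb0 {H : Type v} [NormedAddCommGroup H] [InnerProductSpace ℂ H] [CompleteSpace H]
    {S : Type*} [Mul S] [Star S] {L L' : S → (H →L[ℂ] H)} (h : KPos L) (h' : KPos L') :
    KPos fun a => L a + L' a := by
  intro m a ξ
  refine (add_nonneg (h m a ξ) (h' m a ξ)).trans_eq ?_
  simp only [ContinuousLinearMap.add_apply, inner_add_right, Finset.sum_add_distrib]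

theorem norm_mul3_qlb0 {R : Type*} [NormedRing R] {a b c : R} {x : ℝ} (ha : ‖a‖ ≤ 1) (hb : ‖b‖ ≤ x)
    (hc : ‖c‖ ≤ 1) : ‖a * b * c‖ ≤ x :=
  (norm_mul_le _ _).trans ((mul_le_of_le_one_right (norm_nonneg _) hc).trans
    ((norm_mul_le _ _).trans ((mul_le_of_le_one_left (norm_nonneg _) ha).trans hb)))

theorem split_qlb0 {A B : Type*} [NonUnitalCStarAlgebra A] [NonUnitalCStarAlgebra B] {φ : A → B}
    {ε δ K : ℝ} (h : EpsHom φ ε) (hK : 0 < K) {u y z : A} (hu : ‖u‖ ≤ 1) (hy : ‖y‖ ≤ 1)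
    (hz : ‖z‖ ≤ 1) (hd : ‖u - K • y - z‖ ≤ δ) :
    ‖φ u - K • φ y - φ z‖ ≤ δ + 8 * (K + 1) * ε := by
  have hK1 : 0 < K + 1 := by linarith
  obtain ⟨t, ht, e⟩ : ∃ t : ℝ, 0 < t ∧ (K + 1) * t = 1 :=
    ⟨(K + 1)⁻¹, inv_pos.2 hK1, mul_inv_cancel₀ hK1.ne'⟩
  have hKt : 0 < K * t := mul_pos hK ht
  have n : ∀ (s : ℝ) (a : A), 0 < s → ‖a‖ ≤ 1 → ‖s • a‖ ≤ s := fun s a hs ha => by
    rw [norm_smul, Real.norm_eq_abs, abs_of_pos hs]
    exact mul_le_of_le_one_right hs.le ha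
  have t1 : t ≤ 1 := by linarith
  have t2 : K * t ≤ 1 := by linarith
  have e1 := h.smul_real t (by rwa [abs_of_pos ht]) u hu
  have e4 := h.smul_real (K * t) (by rwa [abs_of_pos hKt]) y hy
  have e5 := h.smul_real t (by rwa [abs_of_pos ht]) z hz
  have e3 := h.add _ _ ((n _ y hKt hy).trans t2) ((n _ z ht hz).trans t1)
  have e2 := h.lip (t • u) ((K * t) • y + t • z) ((n _ u ht hu).trans t1)
    ((norm_add_le _ _).trans (by linarith [n _ y hKt hy, n _ z ht hz]))
  have e6 : ‖t • u - ((K * t) • y + t • z)‖ ≤ t * δ := by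
    rw [show t • u - ((K * t) • y + t • z) = t • (u - K • y - z) by module, norm_smul,
      Real.norm_eq_abs, abs_of_pos ht]
    exact mul_le_mul_of_nonneg_left hd ht.le
  have e7 : ‖t • (φ u - K • φ y - φ z)‖ ≤ t * δ + 8 * ε := by
    rw [show t • (φ u - K • φ y - φ z) = (φ (t • u) - φ ((K * t) • y + t • z)) +
      (φ ((K * t) • y + t • z) - φ ((K * t) • y) - φ (t • z)) + (φ ((K * t) • y) - (K * t) • φ y) +
      (φ (t • z) - t • φ z) - (φ (t • u) - t • φ u) by module]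
    refine (norm_sub_le _ _).trans ?_
    refine (add_le_add_left ((norm_add_le _ _).trans (add_le_add_left ((norm_add_le _ _).trans
      (add_le_add_left (norm_add_le _ _) _)) _)) _).trans ?_
    linarith
  rw [norm_smul, Real.norm_eq_abs, abs_of_pos ht] at e7
  have := mul_le_mul_of_nonneg_left e7 hK1.le
  rw [← mul_assoc, mul_add, ← mul_assoc, e, one_mul, one_mul] at this
  linarith

theorem linb0 {γ : ℝ} (hγ : 0 < γ) : ∃ ε : ℝ, 0 < ε ∧
    ∀ (D : Type u) [CStarAlgebra D] [PartialOrder D] [StarOrderedRing D], RP D → STRG D →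
    ∀ (H : Type v) [NormedAddCommGroup H] [InnerProductSpace ℂ H] [CompleteSpace H]
      (φ : D → (H →L[ℂ] H)), EpsHom φ ε →
    ∀ U : Finset D, (∀ u ∈ U, u ∈ unitary D) →
    ∀ (I : Type) [Fintype I] (β : I → H), Orthonormal ℂ β →
    ∃ L : D →ₗ[ℂ] (H →L[ℂ] H), KPos L ∧ ∀ u ∈ U, ‖L u - prj β * φ u * prj β‖ ≤ γ := by
  obtain ⟨K, hK, hst⟩ := stark_g.{u} (δ := γ / 4) (by positivity)
  have hK0 : 0 < K := by linarith
  obtain ⟨x, hx, ex⟩ : ∃ x : ℝ, 0 < x ∧ K * x = γ := ⟨γ / K, by positivity, by field_simp⟩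
  obtain ⟨ε₁, h1, hz⟩ := zlin.{u, v} (γ := x / 12) (by positivity)
  obtain ⟨ε₂, h2, ho⟩ := ozlin.{u, v} (γ := x / 12) (by positivity)
  obtain ⟨ε₃, h3, hp⟩ := cpx.{u, v} (γ := γ / 4) (by positivity)
  refine ⟨min (min ε₁ ε₂) (min ε₃ (x / 76)), by positivity, ?_⟩
  intro D _ _ _ hN hS H _ _ _ φ hφ U hU I _ β hβ
  have hφ1 := hφ.mono ((min_le_left _ _).trans (min_le_left _ _))
  have hφ2 := hφ.mono ((min_le_left _ _).trans (min_le_right _ _))
  have hφ4 := hφ.mono ((min_le_right _ _).trans (min_le_left _ _))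
  have hφ3 := hφ.mono ((min_le_right _ _).trans (min_le_right _ _))
  have hU1 : ∀ u ∈ U, ‖u‖ ≤ 1 := fun u hu => by
    rcases subsingleton_or_nontrivial D with h | h
    · simp [Subsingleton.elim u 0]
    · exact (CStarRing.norm_of_mem_unitary (hU u hu)).le
  obtain ⟨J, _, _, s, c, w, h, hc, hw, hs⟩ :=
    hst D hS U hU (Fin (4 * U.card * Fintype.card I + 1))
  choose r _ hrP hr using fun j => ho D H (vnC ∅) φ hφ2 (fun a => mem_vnC.2 (by simp)) _ _
    (s j).τ (s j).v (s j).oz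
  choose L hL hLu using fun j => hp D H φ hφ4 U hU1 I β hβ _ (w j) (h j) (by simp) (hw j)
  have hP := prj_proj_qlb0 hβ
  have hP1 : ‖prj β‖ ≤ 1 := hP.norm_le
  let L₀ : D →ₗ[ℂ] (H →L[ℂ] H) := map_lin0 (fun j => (s j).θ) r (fun j => φ (c j)) K
  have k0 : KPos L₀ := ((KPos.sum Finset.univ fun j _ =>
    (kpos_pair (s j).ccp.pos (hrP j)).sandwich (φ (c j))).smul
      (t := (Fintype.card J : ℝ)⁻¹) (by positivity)).smul hK0.le
  let L₁ : D →ₗ[ℂ] (H →L[ℂ] H) :=
    { toFun := fun a => star (prj β) * L₀ a * prj β + av fun j => L j a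
      map_add' := fun a b => by
        simp only [map_add, av_add, mul_add, add_mul]
        abel
      map_smul' := fun c a => by
        simp only [map_smul, av_smul, mul_smul_comm, smul_mul_assoc, RingHom.id_apply, smul_add] }
  refine ⟨L₁, kpos_add_qlb0 (k0.sandwich _) ((KPos.sum Finset.univ fun j _ => hL j).smul
    (t := (Fintype.card J : ℝ)⁻¹) (by positivity)), fun u hu => ?_⟩
  have hu1 := hU1 u hu
  have hC : ∀ j, Contr ((s j).θ u) := fun j => (s j).ccp.contr hu1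
  have hh : ∀ j, ‖hpsi (s j).v ((s j).θ u)‖ ≤ 1 := fun j => (s j).oz.norm_hpsi_le (hC j)
  set T : J → D := fun j => star (c j) * hpsi (s j).v ((s j).θ u) * c j with hT
  have hT1 : ∀ j, ‖T j‖ ≤ 1 := fun j => norm_mul3_qlb0 (by rw [norm_star]; exact hc j) (hh j) (hc j)
  set S : J → D := fun j => h j * u * h j with hS'
  have hS1 : ∀ j, ‖S j‖ ≤ 1 := fun j => norm_mul3_qlb0 (hw j).norm_le hu1 (hw j).norm_le
  have e1 := split_qlb0 hφ3 hK0 hu1 (norm_av_le_of_le T zero_le_one hT1)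
    (norm_av_le_of_le S zero_le_one hS1) (hs u hu)
  have e3 := hz D hN H φ hφ1 J T hT1
  have e3' := hz D hN H φ hφ1 J S hS1
  set P : J → (H →L[ℂ] H) :=
    fun j => star (φ (c j)) * (∑ k, ∑ l, (s j).θ u k l • r j k l) * φ (c j) with hP'
  have e4 : ‖(av fun j => φ (T j)) - av P‖ ≤ 3 * (x / 76) + x / 12 := by
    rw [← av_sub]
    refine norm_av_le_of_le _ (by positivity) fun j => ?_
    have a1 := hφ3.sandwich (c j) _ (hc j) (hh j)
    have a3 := hφ.ball _ (hc j)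
    have a4 : ‖star (φ (c j)) * φ (hpsi (s j).v ((s j).θ u)) * φ (c j) - P j‖ ≤ x / 12 := by
      rw [hP']
      simp only
      rw [← sub_mul, ← mul_sub]
      exact norm_mul3_qlb0 (by rwa [norm_star]) (hr j _ ((s j).blk u) (hC j)) a3
    exact (norm_sub_le_norm_sub_add_norm_sub _ _ _).trans (add_le_add a1 a4)
  have e5 : ‖K • (φ (av T) - av P)‖ ≤ K * (x / 12 + (3 * (x / 76) + x / 12)) := by
    rw [norm_smul, Real.norm_eq_abs, abs_of_pos hK0]
    exact mul_le_mul_of_nonneg_left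
      ((norm_sub_le_norm_sub_add_norm_sub _ _ _).trans (add_le_add e3 e4)) hK0.le
  have e6 : ‖(av fun j => L j u) - prj β * (av fun j => φ (S j)) * prj β‖ ≤ γ / 4 := by
    rw [mul_av, av_mul, ← av_sub]
    exact norm_av_le_of_le _ (by positivity) fun j => hLu j u hu
  have e7 : ‖prj β * ((φ u - K • φ (av T) - φ (av S)) + K • (φ (av T) - av P) +
      (φ (av S) - av fun j => φ (S j))) * prj β‖ ≤ _ :=
    norm_mul3_qlb0 hP1 (norm_add₃_le.trans (add_le_add_three e1 e5 e3')) hP1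
  have e8 : L₁ u - prj β * φ u * prj β =
      ((av fun j => L j u) - prj β * (av fun j => φ (S j)) * prj β) -
      prj β * ((φ u - K • φ (av T) - φ (av S)) + K • (φ (av T) - av P) +
        (φ (av S) - av fun j => φ (S j))) * prj β := by
    change star (prj β) * (K • av P) * prj β + (av fun j => L j u) - _ = _
    rw [hP.isSelfAdjoint.star_eq]
    simp only [smul_sub, mul_add, add_mul, mul_sub, sub_mul]
    abel
  rw [e8]
  refine (norm_sub_le _ _).trans ((add_le_add e6 e7).trans ?_)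
  nlinarith

end Ulam
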