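import Pool.Agent.P.MP_3be8c7_an.OZAP

open scoped ComplexOrder InnerProductSpace
open Filter Topology

noncomputable section

namespace Ulam

universe u v w

variable {D : Type u} [CStarAlgebra D] [PartialOrder D] [StarOrderedRing D]
variable {H : Type v} [NormedAddCommGroup H] [InnerProductSpace ℂ H] [CompleteSpace H]

variable {π : D →⋆ₐ[ℂ] (H →L[ℂ] H)} {N : VonNeumannAlgebra H}

/-- The damping function. -/
def f_trans (m t : ℝ) : ℝ := √(m / max m t)

theorem cont_trans {m : ℝ} (hm : 0 < m) : Continuous (f_trans m) :=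
  (continuous_const.div (by fun_prop) fun _ => (lt_max_of_lt_left hm).ne').sqrt

omit [PartialOrder D] [StarOrderedRing D] in
theorem le_trans_trans {m : ℝ} (hm : 0 < m) (a : D) : ‖cfc (f_trans m) a‖ ≤ 1 :=
  norm_cfc_le zero_le_one fun t _ => by
    rw [f_trans, Real.norm_of_nonneg (Real.sqrt_nonneg _), Real.sqrt_le_one,
      div_le_one (lt_max_of_lt_left hm)]
    exact le_max_left _ _

omit [PartialOrder D] [StarOrderedRing D] in
theorem one_trans {m : ℝ} (hm : 0 < m) {a : D} (ha : IsSelfAdjoint a) (h : ‖a‖ ≤ m) :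
    cfc (f_trans m) a = 1 := by
  nontriviality D
  rw [← cfc_one ℝ a]
  refine cfc_congr fun t ht => ?_
  rw [f_trans, max_eq_left (((le_abs_self t).trans (spectrum.norm_le_norm_of_mem ht)).trans h),
    div_self hm.ne', Real.sqrt_one, Pi.one_apply]

theorem col_trans {m : ℝ} (hm : 0 < m) {κ : Type} [Fintype κ] (y : κ → D) {g f : D} (hg : ‖g‖ ≤ 1)
    (hf : f = cfc (f_trans m) (∑ k, star (y k) * y k)) :
    ‖∑ k, star (g * y k * f) * (g * y k * f)‖ ≤ m := by
  have h0 : 0 ≤ ∑ k, star (y k) * y k := Finset.sum_nonneg fun k _ => star_mul_self_nonneg _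
  have h1 : star f = f := hf ▸ IsSelfAdjoint.cfc
  have h2 : star g * g ≤ 1 := (CStarAlgebra.norm_le_one_iff_of_nonneg _
    (star_mul_self_nonneg g)).1 (by rw [CStarRing.norm_star_mul_self]; nlinarith [norm_nonneg g])
  have h3 : ∑ k, star (g * y k * f) * (g * y k * f) ≤ f * (∑ k, star (y k) * y k) * f := by
    rw [Finset.mul_sum, Finset.sum_mul]
    refine Finset.sum_le_sum fun k _ => ?_
    simpa only [star_mul, h1, mul_assoc, one_mul] using
      star_left_conjugate_le_conjugate h2 (y k * f)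
  refine (CStarAlgebra.norm_le_norm_of_nonneg_of_le
    (Finset.sum_nonneg fun k _ => star_mul_self_nonneg _) h3).trans ?_
  generalize ∑ k, star (y k) * y k = a at h0 hf
  have hc := (cont_trans hm).continuousOn (s := spectrum ℝ a)
  nth_rw 1 [← cfc_id' ℝ a]
  rw [hf, ← cfc_mul .., ← cfc_mul ..]
  refine norm_cfc_le hm.le fun t ht => ?_
  have h4 := lt_max_of_lt_left (c := t) hm
  rw [mul_right_comm, f_trans, Real.mul_self_sqrt (by positivity), Real.norm_of_nonneg
    (mul_nonneg (by positivity) (spectrum_nonneg_of_nonneg h0 ht)), div_mul_eq_mul_div,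
    div_le_iff₀ h4]
  exact mul_le_mul_of_nonneg_left (le_max_right _ _) hm.le

theorem row_trans {κ : Type} [Fintype κ] (y : κ → D) {g f : D} (hg : ‖g‖ ≤ 1)
    (h1 : IsSelfAdjoint g) (hf : f = cfc (f_trans 9) (∑ k, y k * star (y k))) :
    ‖∑ k, f * y k * g * star (f * y k * g)‖ ≤ 9 := by
  have h2 : star f = f := hf ▸ IsSelfAdjoint.cfc
  have := col_trans (m := 9) (f := f) (by norm_num) (fun k => star (y k)) hg
    (by simp only [star_star, hf])
  simpa only [star_mul, star_star, h1.star_eq, h2, mul_assoc] using this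

theorem trans_col (h : KDense π N) {κ : Type} [Fintype κ] (c : κ → (H →L[ℂ] H))
    (hN : ∀ k, c k ∈ N) (hcol : ‖∑ k, star (c k) * c k‖ ≤ 1) (hrow : ‖∑ k, c k * star (c k)‖ ≤ 9) :
    ∃ d : Finset H × ℕ → κ → D, (∀ i, ‖∑ k, star (d i k) * d i k‖ ≤ 1) ∧
      (∀ i, ‖∑ k, d i k * star (d i k)‖ ≤ 9) ∧ ∀ k, SS atTop (fun i => π (d i k)) (c k) := by
  choose y h1 h2 using fun k => h.any (hN k)
  refine ⟨fun i k => cfc (f_trans 9) (∑ k, y k i * star (y k i)) * y k i *
    cfc (f_trans 1) (∑ k, star (y k i) * y k i),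
    fun i => col_trans one_pos _ (le_trans_trans (by norm_num) _) rfl,
    fun i => row_trans _ (le_trans_trans one_pos _) IsSelfAdjoint.cfc rfl, fun k => ?_⟩
  have a1 := ss_ozap (π := π) (a := fun i => ∑ k, star (y k i) * y k i)
    ((SS.sum Finset.univ fun k _ => (h2 k).star.mul (h2 k)).congr' (.of_forall fun i => by
      simp only [map_sum, map_mul, map_star]))
    (fun i => isSelfAdjoint_sum _ fun k _ => .star_mul_self _)
    (isSelfAdjoint_sum _ fun k _ => .star_mul_self _) (cont_trans one_pos)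
  have a2 := ss_ozap (π := π) (a := fun i => ∑ k, y k i * star (y k i))
    ((SS.sum Finset.univ fun k _ => (h2 k).mul (h2 k).star).congr' (.of_forall fun i => by
      simp only [map_sum, map_mul, map_star]))
    (fun i => isSelfAdjoint_sum _ fun k _ => .mul_star_self _)
    (isSelfAdjoint_sum _ fun k _ => .mul_star_self _) (cont_trans (m := 9) (by norm_num))
  rw [one_trans one_pos (isSelfAdjoint_sum _ fun k _ => .star_mul_self _) hcol] at a1
  rw [one_trans (by norm_num) (isSelfAdjoint_sum _ fun k _ => .mul_star_self _) hrow] at a2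
  have a3 := (a2.mul (h2 k)).mul a1
  rw [one_mul, mul_one] at a3
  exact a3.congr' (.of_forall fun i => by simp only [map_mul])

theorem transfer (h : KDense π N) {U : Finset D} {ζ : H} {e e' : ℝ} (hg : Good π N U ζ e)
    (he : e < e') : ∃ s : SData D D, ∀ u ∈ U, ‖π (u - s.ev u) ζ‖ ^ 2 ≤ e' := by
  obtain ⟨s, ⟨h1, h2, h3⟩, h4⟩ := hg
  obtain ⟨w, w1, w2⟩ := ozap h s.oz h1 h2
  obtain ⟨d, d1, d2, d3⟩ := trans_col h s.c h3 s.col s.row
  let t : Finset H × ℕ → SData D D := fun i =>
    { s with v := w i, c := d i, oz := w1 i, col := d1 i, row := d2 i }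
  have key : ∀ u, SS atTop (fun i => π (u - (t i).ev u)) (π u - s.ev u) := fun u => by
    refine ((SS.const (π u)).sub (SS.sum Finset.univ fun k _ =>
      ((d3 k).star.mul (SS.hpsi w2 (s.θ u))).mul (d3 k))).congr' (.of_forall fun i => ?_)
    change _ = π (u - ∑ k, star (d i k) * hpsi (w i) (s.θ u) * d i k)
    simp only [map_sub, map_sum, map_mul, map_star, map_hpsi]
  obtain ⟨i, hi⟩ := ((Finset.eventually_all U).2 fun u hu =>
    (((key u).2 ζ).1.norm.pow 2).eventually (eventually_le_nhds ((h4 u hu).trans_lt he))).exists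
  exact ⟨t i, hi⟩

end Ulam
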