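import Pool.Agent.P.MP_3be8c7_an.QCORE
import Pool.Agent.P.MP_3be8c7_an.QCYC
import Pool.Agent.P.MP_3be8c7_an.FIN
import Pool.Agent.P.MP_3be8c7_an.TRANS
import Pool.Agent.P.MP_3be8c7_an.UNIV

open scoped ComplexOrder InnerProductSpace
open Filter Topology
open ContinuousLinearMap (adjoint)

noncomputable section

namespace Ulam

universe u v w

variable {D : Type u} [CStarAlgebra D] [PartialOrder D] [StarOrderedRing D]

omit [PartialOrder D] [StarOrderedRing D] in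
theorem smul_qtha {H : Type v} [NormedAddCommGroup H] [InnerProductSpace ℂ H] [CompleteSpace H]
    {π : D →⋆ₐ[ℂ] (H →L[ℂ] H)} {N : VonNeumannAlgebra H} {ξ : H} (h : AMS π N ξ) (c : ℂ) :
    AMS π N (c • ξ) := by
  intro U hU δ hδ
  obtain ⟨I, _, _, θ, b, h1, h2, h3, h4⟩ := h U hU (δ / (‖c‖ + 1)) (by positivity)
  refine ⟨I, inferInstance, inferInstance, θ, b, h1, h2, h3, fun u hu => ?_⟩
  rw [map_smul, norm_smul]
  refine (mul_le_mul_of_nonneg_left (h4 u hu) (norm_nonneg c)).trans ?_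
  rw [← mul_div_assoc, div_le_iff₀ (by positivity)]
  nlinarith

omit [PartialOrder D] [StarOrderedRing D] in
theorem zero_qtha {H : Type v} [NormedAddCommGroup H] [InnerProductSpace ℂ H] [CompleteSpace H]
    (π : D →⋆ₐ[ℂ] (H →L[ℂ] H)) (N : VonNeumannAlgebra H) : AMS π N (0 : H) := by
  intro U _ δ hδ
  refine ⟨Empty, inferInstance, inferInstance, 0, fun k => k.elim, ⟨?_, ?_⟩, fun k => k.elim,
    by simp, fun u _ => by simpa using hδ.le⟩
  · unfold KPosM
    have e : (Matrix.of fun p q : D × Empty =>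
        (0 : D →ₗ[ℂ] Matrix Empty Empty ℂ) (star p.1 * q.1) p.2 q.2) = 0 := by
      ext p q
      exact p.2.elim
    rw [e]
    exact Matrix.PosSemidef.zero
  · rw [Subsingleton.elim (1 - (0 : D →ₗ[ℂ] Matrix Empty Empty ℂ) 1) 0]
    exact Matrix.PosSemidef.zero

theorem ams_qtha (hD : INDP D) {H : Type u} [NormedAddCommGroup H] [InnerProductSpace ℂ H]
    [CompleteSpace H] {π : D →⋆ₐ[ℂ] (H →L[ℂ] H)} {N : VonNeumannAlgebra H} (hπ : ∀ a, π a ∈ N)
    (hK : KDense π N) {ξ : H} (hξ : TrVec N ξ) : AMS π N ξ := by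
  by_cases h0 : ξ = 0
  · rw [h0]
    exact zero_qtha π N
  have hpos := norm_pos_iff.2 h0
  have h1 : AMS π N (((‖ξ‖⁻¹ : ℝ) : ℂ) • ξ) := by
    by_contra hn
    obtain ⟨K, _, _, _, σ, M, ζ, R, _, _, s, c, a1, a2, a3, a4, a5, a6, a7, a8⟩ :=
      cyc_gap hπ hK (hξ.smul _)
        (by rw [norm_smul, Complex.norm_real, norm_inv, norm_norm, inv_mul_cancel₀ hpos.ne']) hn
    exact core hD σ M a1 a2 a3 a4 a5 s a6 a7 a8
  have h2 := smul_qtha h1 ((‖ξ‖ : ℝ) : ℂ)
  rwa [smul_smul, ← Complex.ofReal_mul, mul_inv_cancel₀ hpos.ne', Complex.ofReal_one,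
    one_smul] at h2

theorem strf_of_indp (hD : INDP D) : STRF D := by
  intro τ hτ U hU η hη
  obtain ⟨H, _, _, _, π, hu⟩ := univ_rep D
  obtain ⟨N, hπ, hS⟩ := bic π
  have hK : KDense π N := kap hS
  obtain ⟨Ω, hΩ⟩ := hu τ
  have htr : TrVec N Ω := trVec_of_isTr hK hτ hΩ
  obtain ⟨s, hs⟩ := transfer hK (good_fin' π N hπ htr (ams_qtha hD hπ hK htr) U hU (half_pos hη))
    (e' := η) (by linarith)
  refine ⟨s, fun u hu' => ?_⟩
  have h1 := hs u hu'
  rw [hΩ, map_mul, map_star, ContinuousLinearMap.mul_apply, ContinuousLinearMap.star_eq_adjoint,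
    ContinuousLinearMap.adjoint_inner_right, inner_self_eq_norm_sq_to_K]
  norm_cast

end Ulam
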