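import Pool.Agent.P.MP_3be8c7_an.QNR
import Pool.Agent.P.MP_3be8c7_an.QTHA
import Pool.Agent.P.MP_3be8c7_an.QIND
import Pool.Agent.P.MP_3be8c7_an.QARI
import Pool.Agent.P.MP_3be8c7_an.UNIT

open scoped ComplexOrder InnerProductSpace
open Filter Topology

noncomputable section

namespace Ulam

universe u

/-- Every `ε`-star-homomorphism on `D` is `γ`-close to a star-homomorphism. -/
def NearD (D : Type u) [NonUnitalCStarAlgebra D] (γ ε : ℝ) : Prop :=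
  ∀ (H : Type u) [NormedAddCommGroup H] [InnerProductSpace ℂ H] [CompleteSpace H]
    (M : VonNeumannAlgebra H) (φ : D → (H →L[ℂ] H)), (∀ a, φ a ∈ M) → EpsHom φ ε →
    ∃ ψ : D →⋆ₙₐ[ℂ] (H →L[ℂ] H), (∀ a, ψ a ∈ M) ∧ ∀ a, ‖a‖ ≤ 1 → ‖φ a - ψ a‖ ≤ γ

variable {D : Type u} [NonUnitalCStarAlgebra D]

theorem NearD.mono {γ γ' ε ε' : ℝ} (h : NearD D γ ε) (hγ : γ ≤ γ') (hε : ε' ≤ ε) :
    NearD D γ' ε' := fun H _ _ _ M φ hM hφ => by
  obtain ⟨ψ, h1, h2⟩ := h H M φ hM (hφ.mono hε)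
  exact ⟨ψ, h1, fun a ha => (h2 a ha).trans hγ⟩

theorem nearD_one (ε : ℝ) : NearD D 1 ε := fun H _ _ _ M φ _ hφ =>
  ⟨0, fun _ => zero_mem M, fun a ha => by simpa using hφ.ball a ha⟩

theorem nearD_zero : NearD D 0 0 := fun H _ _ _ M φ hM hφ => by
  obtain ⟨ψ, h1, h2⟩ := zero_case hφ (M : Set (H →L[ℂ] H)) (fun c x hx => vn_smul_mem M c hx) hM
  exact ⟨ψ, h1, fun a ha => by simp [h2 a ha]⟩

theorem nearD_small (hI : INDP (Unitization ℂ D)) {γ : ℝ} (hγ : 0 < γ) :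
    ∃ ε : ℝ, 0 < ε ∧ NearD D γ ε := by
  let _ := CStarAlgebra.spectralOrder (Unitization ℂ D)
  have _ := CStarAlgebra.spectralOrderedRing (Unitization ℂ D)
  have hS : STRF (Unitization ℂ D) := strf_of_indp hI
  have hK : DK.{u, u} (Unitization ℂ D) 40 := dk_of_strf hS
  obtain ⟨δ, hδ, hind⟩ := hI (γ / 3) (by positivity)
  set g : ℝ := min (δ / 160) (γ / 3) with hg
  have hg0 : 0 < g := by positivity
  obtain ⟨ε₁, hε₁, h₁⟩ := near_rep.{u, u} hg0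
  obtain ⟨ε, hε, h₂⟩ := unit_ext.{u, u} (γ := min ε₁ (γ / 3)) (by positivity)
  refine ⟨ε, hε, fun H _ _ _ M φ hM hφ => ?_⟩
  obtain ⟨φ', hφ', hM', h1, hc⟩ := h₂ D H M φ hφ hM
  obtain ⟨π, hπ⟩ := h₁ (Unitization ℂ D) hS H φ' (hφ'.mono (min_le_left _ _))
    (h1.trans (min_le_left _ _))
  have hnear : ∀ a, ∃ m ∈ M, ‖π a - m‖ ≤ g * ‖a‖ := by
    intro a
    rcases eq_or_ne a 0 with rfl | ha
    · exact ⟨0, zero_mem M, by simp⟩
    have hn : 0 < ‖a‖ := norm_pos_iff.2 ha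
    have hb : ‖((‖a‖⁻¹ : ℝ) : ℂ) • a‖ ≤ 1 := by
      rw [norm_smul, Complex.norm_real, norm_inv, norm_norm, inv_mul_cancel₀ hn.ne']
    refine ⟨(‖a‖ : ℂ) • φ' (((‖a‖⁻¹ : ℝ) : ℂ) • a), vn_smul_mem M _ (hM' _), ?_⟩
    have e : π a = (‖a‖ : ℂ) • π (((‖a‖⁻¹ : ℝ) : ℂ) • a) := by
      rw [map_smul, smul_smul, ← Complex.ofReal_mul, mul_inv_cancel₀ hn.ne', Complex.ofReal_one,
        one_smul]
    rw [e, ← smul_sub, norm_smul, Complex.norm_real, norm_norm, mul_comm, norm_sub_rev]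
    exact mul_le_mul_of_nonneg_right (hπ _ hb) hn.le
  have hN := nearInc_of_dk (by norm_num) hK π M hg0.le hnear
  have hN' : NearInc (Set.range π) M δ := fun I K _ _ _ e he ρ hρ => by
    obtain ⟨ρ', h1, h2⟩ := hN I K e he ρ hρ
    refine ⟨ρ', h1, h2.trans (mul_le_mul_of_nonneg_right ?_ (norm_nonneg _))⟩
    have : g ≤ δ / 160 := min_le_left _ _
    linarith
  obtain ⟨ψ, hψM, hψ⟩ := hind H π M hN'
  refine ⟨(ψ : Unitization ℂ D →⋆ₙₐ[ℂ] (H →L[ℂ] H)).comp (Unitization.inrNonUnitalStarAlgHom ℂ D),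
    fun a => hψM _, fun a ha => ?_⟩
  have ha' : ‖(a : Unitization ℂ D)‖ ≤ 1 := by rwa [Unitization.norm_inr]
  have e1 := (hπ _ ha').trans (min_le_right _ _)
  have e2 := (hc a ha).trans (min_le_right _ _)
  have e3 : ‖π (a : Unitization ℂ D) - ψ (a : Unitization ℂ D)‖ ≤ γ / 3 :=
    (hψ _).trans (mul_le_of_le_one_right (by positivity) ha')
  change ‖φ a - ψ (a : Unitization ℂ D)‖ ≤ γ
  calc ‖φ a - ψ (a : Unitization ℂ D)‖
      = ‖(φ' (a : Unitization ℂ D) - π (a : Unitization ℂ D)) +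
          (π (a : Unitization ℂ D) - ψ (a : Unitization ℂ D)) -
          (φ' (a : Unitization ℂ D) - φ a)‖ := by congr 1; abel
    _ ≤ γ / 3 + γ / 3 + γ / 3 :=
        (norm_sub_le _ _).trans (add_le_add ((norm_add_le _ _).trans (add_le_add e1 e3)) e2)
    _ = γ := by ring

theorem exists_modulusD (hI : INDP (Unitization ℂ D)) :
    ∃ g : ℝ → ℝ, Tendsto g (𝓝[≥] 0) (𝓝 0) ∧ StableWith.{u, u} g D := by
  let S : ℝ → Set ℝ := fun ε => {γ | 0 ≤ γ ∧ NearD D γ ε}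
  have hne : ∀ ε, (S ε).Nonempty := fun ε => ⟨1, zero_le_one, nearD_one ε⟩
  have hbd : ∀ ε, BddBelow (S ε) := fun ε => ⟨0, fun _ h => h.1⟩
  have h0 : ∀ ε, 0 ≤ sInf (S ε) := fun ε => le_csInf (hne ε) fun _ h => h.1
  refine ⟨fun ε => sInf (S ε) + ε, ?_, fun H _ _ _ M ε hε φ hM hφ => ?_⟩
  · rw [Metric.tendsto_nhdsWithin_nhds]
    intro γ hγ
    obtain ⟨ε₀, hε₀, h⟩ := nearD_small hI (γ := γ / 2) (by positivity)
    refine ⟨min ε₀ (γ / 2), by positivity, fun ε hε hd => ?_⟩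
    have hε' : 0 ≤ ε := hε
    rw [Real.dist_eq, sub_zero, abs_of_nonneg hε'] at hd
    have h1 : sInf (S ε) ≤ γ / 2 :=
      csInf_le (hbd ε) ⟨by positivity, h.mono le_rfl (hd.le.trans (min_le_left _ _))⟩
    have h2 : ε < γ / 2 := hd.trans_le (min_le_right _ _)
    rw [Real.dist_eq, sub_zero, abs_of_nonneg (add_nonneg (h0 ε) hε')]
    linarith
  · have h : NearD D (sInf (S ε) + ε) ε := by
      rcases hε.eq_or_lt with rfl | hε
      · exact nearD_zero.mono (by simpa using h0 0) le_rfl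
      · obtain ⟨γ, hγ, hlt⟩ := exists_lt_of_csInf_lt (hne ε) (lt_add_of_pos_right _ hε)
        exact hγ.2.mono hlt.le le_rfl
    exact h H M φ hM hφ

/-- Ulam stability with respect to von Neumann algebras passes to hereditary subalgebras. -/
theorem stable_hereditary {A : Type u} [NonUnitalCStarAlgebra A] [PartialOrder A]
    [StarOrderedRing A] {f : ℝ → ℝ} (hf : Tendsto f (𝓝[>] 0) (𝓝 0)) (hA : StableWith.{u, u} f A)
    (D : NonUnitalStarSubalgebra ℂ A) [IsClosed (D : Set A)] (hD : IsHereditary D) :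
    ∃ g : ℝ → ℝ, Tendsto g (𝓝[≥] 0) (𝓝 0) ∧ StableWith.{u, u} g D := by
  have hf' : Tendsto (Function.update f 0 0) (𝓝[≥] 0) (𝓝 0) := by
    rw [← nhdsGT_sup_nhdsWithin_singleton, tendsto_sup]
    refine ⟨hf.congr' ?_, ?_⟩
    · filter_upwards [self_mem_nhdsWithin] with t ht
      exact (Function.update_of_ne (ne_of_gt ht) _ _).symm
    · rw [nhdsWithin_singleton, tendsto_pure_left]
      intro s hs
      simpa using mem_of_mem_nhds hs
  have hA' : StableWith.{u, u} (Function.update f 0 0) A := fun H _ _ _ M ε hε φ hM hφ => by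
    rcases hε.eq_or_lt with rfl | hε'
    · simpa using nearD_zero H M φ hM hφ
    · rw [Function.update_of_ne hε'.ne']
      exact hA H M ε hε φ hM hφ
  exact exists_modulusD (indp_of_stable hf' hA' D hD)

end Ulam
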