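import Pool.Agent.P.MP_3be8c7_an.QD

open scoped ComplexOrder InnerProductSpace
open Filter Topology
open ContinuousLinearMap (adjoint)

noncomputable section

namespace Ulam

universe u v w

/-- Mazur-Orlicz theorem. -/
theorem mo {E : Type*} [AddCommGroup E] [Module ℝ E] (p : E → ℝ)
    (hadd : ∀ x y, p (x + y) ≤ p x + p y) (hsmul : ∀ (c : ℝ) x, 0 < c → p (c • x) = c * p x)
    (S : Set E) (hS : Convex ℝ S) (hne : S.Nonempty) {c : ℝ} (hc : ∀ k ∈ S, c ≤ p k) :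
    ∃ f : E →ₗ[ℝ] ℝ, (∀ x, f x ≤ p x) ∧ ∀ k ∈ S, c ≤ f k := by
  have p0 : p 0 = 0 := by
    have := hsmul 2 0 two_pos
    rw [smul_zero] at this
    linarith
  let T := {z : E × ℝ // ∃ t : ℝ, 0 ≤ t ∧ ∃ k ∈ S, z = (t • k, t * c)}
  obtain ⟨k0, hk0⟩ := hne
  let z0 : T := ⟨(0, 0), 0, le_rfl, k0, hk0, by simp⟩
  have : Nonempty T := ⟨z0⟩
  have hT : ∀ z : T, z.1.2 ≤ p z.1.1 := by
    rintro ⟨z, t, ht, k, hk, rfl⟩
    rcases ht.eq_or_lt with rfl | ht
    · simp [p0]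
    · show t * c ≤ p (t • k)
      rw [hsmul t k ht]
      exact mul_le_mul_of_nonneg_left (hc k hk) ht.le
  have hA : ∀ z w : T, ∃ u : T, u.1 = z.1 + w.1 := by
    rintro ⟨z, t, ht, k, hk, rfl⟩ ⟨w, s, hs, l, hl, rfl⟩
    rcases (add_nonneg ht hs).eq_or_lt with h | h
    · have h1 : t = 0 := by linarith
      have h2 : s = 0 := by linarith
      exact ⟨z0, by simp [z0, h1, h2]⟩
    · refine ⟨⟨_, t + s, h.le, (t / (t + s)) • k + (s / (t + s)) • l,
        hS hk hl (div_nonneg ht h.le) (div_nonneg hs h.le) (by field_simp), rfl⟩, ?_⟩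
      simp only [Prod.mk_add_mk, smul_add, smul_smul, mul_div_cancel₀ _ h.ne', add_mul]
  have hM : ∀ (a : ℝ), 0 < a → ∀ z : T, ∃ u : T, u.1 = a • z.1 := by
    rintro a ha ⟨z, t, ht, k, hk, rfl⟩
    exact ⟨⟨_, a * t, mul_nonneg ha.le ht, k, hk, rfl⟩, by simp [smul_smul, mul_assoc]⟩
  let q : E → ℝ := fun x => ⨅ z : T, (p (x + z.1.1) - z.1.2)
  have bd : ∀ x, BddBelow (Set.range fun z : T => p (x + z.1.1) - z.1.2) := fun x =>
    ⟨-p (-x), by
      rintro _ ⟨z, rfl⟩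
      have := hadd (x + z.1.1) (-x)
      rw [add_neg_cancel_comm] at this
      linarith [hT z]⟩
  have ql : ∀ x (z : T), q x ≤ p (x + z.1.1) - z.1.2 := fun x z => ciInf_le (bd x) z
  have qs : ∀ (a : ℝ), 0 < a → ∀ x, q (a • x) ≤ a * q x := fun a ha x => by
    rw [← div_le_iff₀' ha]
    refine le_ciInf fun z => ?_
    obtain ⟨u, hu⟩ := hM a ha z
    have := ql (a • x) u
    rw [hu, Prod.smul_fst, Prod.smul_snd, ← smul_add, hsmul a _ ha, smul_eq_mul, ← mul_sub] at this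
    rwa [div_le_iff₀' ha]
  have qh : ∀ (a : ℝ), 0 < a → ∀ x, q (a • x) = a * q x := fun a ha x => by
    refine le_antisymm (qs a ha x) ?_
    have := qs a⁻¹ (inv_pos.2 ha) (a • x)
    rw [inv_smul_smul₀ ha.ne'] at this
    rwa [← le_inv_mul_iff₀ ha]
  have qa : ∀ x y, q (x + y) ≤ q x + q y := fun x y => by
    refine le_ciInf_add_ciInf fun z w => ?_
    obtain ⟨u, hu⟩ := hA z w
    have h1 := ql (x + y) u
    rw [hu, Prod.fst_add, Prod.snd_add, add_add_add_comm] at h1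
    linarith [hadd (x + z.1.1) (y + w.1.1)]
  have q0 : 0 ≤ q 0 := le_ciInf fun z => by rw [zero_add]; linarith [hT z]
  obtain ⟨f, -, hf⟩ := exists_extension_of_le_sublinear (⟨⊥, 0⟩ : E →ₗ.[ℝ] ℝ) q qh qa (by
    rintro ⟨x, hx⟩
    obtain rfl : x = 0 := hx
    simpa using q0)
  refine ⟨f, fun x => (hf x).trans (by simpa [z0] using ql x z0), fun k hk => ?_⟩
  have h1 := (hf (-k)).trans (ql (-k) ⟨_, 1, zero_le_one, k, hk, rfl⟩)
  simp only [one_smul, neg_add_cancel, p0, one_mul, map_neg] at h1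
  linarith

end Ulam
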