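import Pool.Agent.P.MP_3be8c7_an.QD
import Pool.Agent.P.MP_3be8c7_an.ULIM

open scoped ComplexOrder InnerProductSpace
open Filter Topology
open ContinuousLinearMap (adjoint)

noncomputable section

namespace Ulam

universe u v w

variable {H : Type v} [NormedAddCommGroup H] [InnerProductSpace ℂ H] [CompleteSpace H]

theorem WL.nonneg {α : Type*} {l : Filter α} [l.NeBot] {T : α → (H →L[ℂ] H)} {S : H →L[ℂ] H}
    (h : WL l T S) (h0 : ∀ᶠ a in l, 0 ≤ T a) : 0 ≤ S := by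
  have hs : IsSelfAdjoint S :=
    (h.star.congr' (h0.mono fun a ha => (IsSelfAdjoint.of_nonneg ha).star_eq)).unique h
  rw [ContinuousLinearMap.nonneg_iff_isPositive, ContinuousLinearMap.isPositive_iff']
  refine ⟨hs, fun x => ?_⟩
  rw [hs.isSymmetric.apply_clm x x]
  exact ge_of_tendsto (h x x) (h0.mono fun a ha =>
    ((ContinuousLinearMap.nonneg_iff_isPositive _).1 ha).inner_nonneg_right x)

theorem sq_le_qmono {X : H →L[ℂ] H} (h : 0 ≤ X) (z : H) :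
    ‖X z‖ ^ 2 ≤ ‖X‖ * (⟪z, X z⟫_ℂ).re := by
  obtain ⟨b, rfl⟩ := CStarAlgebra.nonneg_iff_eq_star_mul_self.1 h
  have h1 : (⟪z, (star b * b) z⟫_ℂ).re = ‖b z‖ ^ 2 := by
    rw [mul_apply_eq_comp, ContinuousLinearMap.star_eq_adjoint,
      ContinuousLinearMap.adjoint_inner_right]
    exact inner_self_eq_norm_sq (𝕜 := ℂ) _
  have h2 : ‖(star b * b) z‖ ≤ ‖b‖ * ‖b z‖ := by
    rw [mul_apply_eq_comp, ← norm_star b]
    exact (star b).le_opNorm _
  rw [h1, CStarRing.norm_star_mul_self, ← sq, ← mul_pow]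
  exact pow_le_pow_left₀ (norm_nonneg _) h2 2

omit [CompleteSpace H] in
theorem re_mono_qmono {X Y : H →L[ℂ] H} (h : X ≤ Y) (z : H) :
    (⟪z, X z⟫_ℂ).re ≤ (⟪z, Y z⟫_ℂ).re := by
  have h1 := ((ContinuousLinearMap.le_def X Y).1 h).re_inner_nonneg_right z
  rw [sub_apply, inner_sub_right, map_sub] at h1
  exact sub_nonneg.1 h1

/-- A decreasing net of positive operators converges strongly. -/
theorem anti_lim {α : Type*} [SemilatticeSup α] [Nonempty α] (T : α → (H →L[ℂ] H))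
    (h0 : ∀ a, 0 ≤ T a) (hT : Antitone T) :
    ∃ ρ : H →L[ℂ] H, 0 ≤ ρ ∧ (∀ a, ρ ≤ T a) ∧ ∀ ζ, Tendsto (fun a => T a ζ) atTop (𝓝 (ρ ζ)) := by
  obtain ⟨a0⟩ := ‹Nonempty α›
  set l : Ultrafilter α := Ultrafilter.of atTop with hl
  have hle : (l : Filter α) ≤ atTop := Ultrafilter.of_le _
  obtain ⟨ρ, -, hρ⟩ := ulim l T (C := ‖T a0‖) (((eventually_ge_atTop a0).filter_mono hle).mono
    fun a ha => CStarAlgebra.norm_le_norm_of_nonneg_of_le (h0 a) (hT ha))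
  have h1 : 0 ≤ ρ := hρ.nonneg (Eventually.of_forall h0)
  have h2 : ∀ a, ρ ≤ T a := fun a => sub_nonneg.1 (((WL.const (T a)).sub hρ).nonneg
    (((eventually_ge_atTop a).filter_mono hle).mono fun b hb => sub_nonneg.2 (hT hb)))
  refine ⟨ρ, h1, h2, fun ζ => ?_⟩
  have h3 : Tendsto (fun a => (⟪ζ, (T a - ρ) ζ⟫_ℂ).re) l (𝓝 0) := by
    have := (Complex.continuous_re.tendsto _).comp (hρ.sub (WL.const ρ) ζ ζ)
    rw [sub_self, zero_apply, inner_zero_right, Complex.zero_re] at this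
    exact this
  have h4 : Antitone fun a => (⟪ζ, (T a - ρ) ζ⟫_ℂ).re := fun a b hab =>
    re_mono_qmono (sub_le_sub_right (hT hab) ρ) ζ
  have h5 : ∀ a, 0 ≤ (⟪ζ, (T a - ρ) ζ⟫_ℂ).re := fun a => by
    simpa using re_mono_qmono (sub_nonneg.2 (h2 a)) ζ
  have h6 : Tendsto (fun a => (⟪ζ, (T a - ρ) ζ⟫_ℂ).re) atTop (𝓝 0) := by
    have h7 := tendsto_atTop_ciInf h4 ⟨0, by rintro _ ⟨a, rfl⟩; exact h5 a⟩
    rwa [tendsto_nhds_unique (h7.mono_left hle) h3] at h7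
  rw [tendsto_iff_norm_sub_tendsto_zero]
  have h8 := (h6.const_mul ‖T a0‖).sqrt
  rw [mul_zero, Real.sqrt_zero] at h8
  refine squeeze_zero' (Eventually.of_forall fun a => norm_nonneg _)
    ((eventually_ge_atTop a0).mono fun a ha => Real.le_sqrt_of_sq_le ?_) h8
  refine (sq_le_qmono (sub_nonneg.2 (h2 a)) ζ).trans (mul_le_mul_of_nonneg_right ?_ (h5 a))
  exact CStarAlgebra.norm_le_norm_of_nonneg_of_le (sub_nonneg.2 (h2 a))
    ((sub_le_self _ h1).trans (hT ha))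

/-- A family of positive operators with bounded finite sums is strongly summable. -/
theorem mono_sum {ι : Type*} (T : ι → (H →L[ℂ] H)) (h0 : ∀ i, 0 ≤ T i) {C : ℝ}
    (hC : ∀ s : Finset ι, ‖∑ i ∈ s, T i‖ ≤ C) :
    ∃ G : H →L[ℂ] H, 0 ≤ G ∧ ‖G‖ ≤ C ∧ ∀ ζ, HasSum (fun i => T i ζ) (G ζ) := by
  classical
  have hC0 : 0 ≤ C := (norm_nonneg _).trans (hC ∅)
  obtain ⟨ρ, h1, h2, h3⟩ := anti_lim
    (fun s : Finset ι => algebraMap ℝ (H →L[ℂ] H) C - ∑ i ∈ s, T i)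
    (fun s => sub_nonneg.2 ((CStarAlgebra.norm_le_iff_le_algebraMap _ hC0
      (Finset.sum_nonneg fun i _ => h0 i)).1 (hC s)))
    fun s t hst => sub_le_sub_left
      (Finset.sum_le_sum_of_subset_of_nonneg hst fun i _ _ => h0 i) _
  have h4 : 0 ≤ algebraMap ℝ (H →L[ℂ] H) C - ρ := by
    simpa using h2 ∅
  refine ⟨algebraMap ℝ (H →L[ℂ] H) C - ρ, h4,
    (CStarAlgebra.norm_le_iff_le_algebraMap _ hC0 h4).2 (sub_le_self _ h1), fun ζ => ?_⟩
  have h5 := (h3 ζ).const_sub (algebraMap ℝ (H →L[ℂ] H) C ζ)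
  simp only [sub_apply, sub_sub_cancel, sum_apply] at h5
  exact h5

end Ulam
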