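import Pool.Agent.P.MP_3be8c7_an.QBUR
import Pool.Agent.P.MP_3be8c7_an.HBC
import Pool.Agent.P.MP_3be8c7_an.AV
import Pool.Agent.P.MP_3be8c7_an.TM
import Pool.Agent.P.MP_3be8c7_an.REPM

open scoped ComplexOrder InnerProductSpace
open Filter Topology
open ContinuousLinearMap (adjoint)

noncomputable section

namespace Ulam

universe u v w

variable {D : Type u} [CStarAlgebra D] [PartialOrder D] [StarOrderedRing D]

/-- The real part of a positive functional. -/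
def rl_qrpa (ρ : D →ₚ[ℂ] ℂ) : D →ₗ[ℝ] ℝ where
  toFun a := (ρ a).re
  map_add' a b := by rw [map_add, Complex.add_re]
  map_smul' c a := by
    rw [← Complex.coe_smul, map_smul, smul_eq_mul, Complex.re_ofReal_mul]
    rfl

theorem rl_eq_qrpa (ρ : D →ₚ[ℂ] ℂ) (a : D) : (ρ a).re = rl_qrpa ρ a := rfl

theorem rl_nonneg_qrpa (ρ : D →ₚ[ℂ] ℂ) {a : D} (ha : 0 ≤ a) : 0 ≤ rl_qrpa ρ a :=
  (Complex.nonneg_iff.1 (map_nonneg ρ ha)).1

theorem sq_le_qrpa {x : D} (hx : ‖x‖ ≤ 1) : 0 ≤ 1 - star x * x :=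
  sub_nonneg.2 ((CStarAlgebra.norm_le_one_iff_of_nonneg _ (star_mul_self_nonneg x)).1 (by
    rw [CStarRing.norm_star_mul_self]; exact mul_le_one₀ hx (norm_nonneg _) hx))

/-- The bound for an edge in the first option. -/
theorem one_qrpa (f f' t : D →ₗ[ℝ] ℝ) (hf : ∀ a, 0 ≤ a → 0 ≤ f a) (hf' : ∀ a, 0 ≤ a → 0 ≤ f' a)
    (ht : ∀ a, 0 ≤ a → 0 ≤ t a) {x X : D} (hx : ‖x‖ ≤ 1) (hX : IsSelfAdjoint X) :
    ∃ a : D, (f + t) (star a * a) + (f' + t) (star (x - a) * (x - a)) ≤ (f 1 + f' 1) / 4 -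
      (2 * ((f + t) X - (f' + t) X) - ((f + t) (X * X) + (f' + t) (X * X))) / 4 +
      t (star x * x) / 2 := by
  have hQ := sq_le_qrpa hx
  have p1 := hf _ (star_left_conjugate_nonneg hQ (1 - X))
  have p2 := hf' _ (star_left_conjugate_nonneg hQ (1 + X))
  have p3 := ht _ (star_left_conjugate_nonneg hQ X)
  refine ⟨(2 : ℝ)⁻¹ • (x * (1 - X)), ?_⟩
  have e : x - (2 : ℝ)⁻¹ • (x * (1 - X)) = (2 : ℝ)⁻¹ • (x * (1 + X)) := by
    rw [mul_sub, mul_add, mul_one]
    module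
  rw [e]
  generalize hP : star x * x = P at *
  have hP' : ∀ y : D, star x * (x * y) = P * y := fun y => by rw [← mul_assoc, hP]
  simp only [star_smul, star_trivial, star_mul, star_sub, star_add, star_one, hX.star_eq,
    smul_mul_assoc, mul_smul_comm, mul_assoc, hP', hP, mul_sub, sub_mul, mul_add, add_mul, mul_one,
    one_mul, map_smul, map_add, map_sub, smul_eq_mul, LinearMap.add_apply] at p1 p2 p3 ⊢
  linarith

section
variable {K : Type v} [NormedAddCommGroup K] [InnerProductSpace ℂ K] [CompleteSpace K]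
variable {L : Type} [Fintype L] {σ : Fin 4 → Equiv.Perm L}

theorem poinc_qrpa {C : ℝ} (hσ : Poinc σ C) (B : L → K) (hB : ∑ l, B l = 0) :
    ∑ l, ‖B l‖ ^ 2 ≤ C * ∑ l, ∑ s, ‖B l - B (σ s l)‖ ^ 2 := by
  obtain ⟨w, b, -⟩ := exists_hilbertBasis ℂ K
  have h : ∀ z : K, HasSum (fun i => ‖⟪b i, z⟫_ℂ‖ ^ 2) (‖z‖ ^ 2) := fun z => by
    have := (b.hasSum_inner_mul_inner z z).mapL (RCLike.reCLM (K := ℂ))
    simp only [RCLike.reCLM_apply, inner_self_eq_norm_sq] at this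
    refine this.congr_fun fun i => ?_
    rw [← inner_conj_symm z, RCLike.conj_mul]
    norm_cast
  rw [Finset.sum_comm]
  refine hasSum_le (fun i => ?_) (hasSum_sum fun l _ => h (B l))
    ((hasSum_sum fun s _ => hasSum_sum fun l _ => h (B l - B (σ s l))).mul_left C)
  simpa only [inner_sub_right] using hσ (fun l => ⟪b i, B l⟫_ℂ) (by
    rw [← inner_sum, hB, inner_zero_right])

theorem var_qrpa [Nonempty L] (A : L → K) :
    Fintype.card L * ‖av A‖ ^ 2 ≤ ∑ l, ‖A l‖ ^ 2 := by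
  have hN : (0 : ℝ) < Fintype.card L := by exact_mod_cast Fintype.card_pos
  have h := (pow_le_pow_left₀ (norm_nonneg _) (norm_av_le A) 2).trans (av_sq_le fun l => ‖A l‖)
  rwa [av.eq_1 (fun l => ‖A l‖ ^ 2), smul_eq_mul, le_inv_mul_iff₀ hN] at h

theorem nsq_qrpa (π : D →⋆ₐ[ℂ] (K →L[ℂ] K)) (x : D) (z : K) :
    (⟪z, π (star x * x) z⟫_ℂ).re = ‖π x z‖ ^ 2 := by
  rw [map_mul, map_star, ContinuousLinearMap.mul_apply, ContinuousLinearMap.star_eq_adjoint,
    ContinuousLinearMap.adjoint_inner_right, inner_self_eq_norm_sq_to_K]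
  norm_cast

theorem two_qrpa (π : D →⋆ₐ[ℂ] (K →L[ℂ] K)) {x : D} (hx : ‖x‖ ≤ 1) (z y : K) :
    ‖π x z‖ ^ 2 ≤ 2 * ‖π x y‖ ^ 2 + 2 * ‖z - y‖ ^ 2 := by
  have h1 : ‖π x z‖ ≤ ‖π x y‖ + ‖z - y‖ := by
    have e : π x z = π x y + π x (z - y) := by rw [map_sub]; abel
    rw [e]
    refine (norm_add_le _ _).trans (add_le_add_right ?_ _)
    exact ((π x).le_opNorm _).trans (mul_le_of_le_one_left (norm_nonneg _)
      ((NonUnitalStarAlgHom.norm_apply_le π x).trans hx))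
  nlinarith [sq_nonneg (‖π x y‖ - ‖z - y‖), norm_nonneg (π x z), norm_nonneg (π x y),
    norm_nonneg (z - y)]

end

section
variable {L : Type} [Fintype L] {σ : Fin 4 → Equiv.Perm L}

theorem cost_qrpa (a b : L × Fin 4 → D) (f : L → D →ₗ[ℝ] ℝ) (g : D →ₗ[ℝ] ℝ) :
    ∑ l, f l (vsum σ a b l) + g (av (vsum σ a b)) =
      ∑ l, ∑ s, ((f l + (Fintype.card L : ℝ)⁻¹ • g) (star (a (l, s)) * a (l, s)) +
        (f (σ s l) + (Fintype.card L : ℝ)⁻¹ • g) (star (b (l, s)) * b (l, s))) := by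
  have h1 : ∑ l, f l (vsum σ a b l) + g (av (vsum σ a b)) =
      ∑ l, (f l + (Fintype.card L : ℝ)⁻¹ • g) (vsum σ a b l) := by
    simp only [av, map_smul, map_sum, LinearMap.add_apply, LinearMap.smul_apply,
      Finset.sum_add_distrib, Finset.smul_sum]
  rw [h1]
  simp only [vsum, map_add, map_sum, Finset.sum_add_distrib]
  congr 1
  rw [Finset.sum_comm, Finset.sum_comm (s := Finset.univ (α := L))]
  refine Finset.sum_congr rfl fun s _ => ?_
  rw [← Equiv.sum_comp (σ s)]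
  simp only [Equiv.symm_apply_apply]

theorem rep_qrpa [Nonempty L] {C : ℝ} (hC : 0 < C) (hσ : Poinc σ C) (x : L × Fin 4 → D)
    (hx : ∀ e, ‖x e‖ ≤ 1) {η : ℝ} (h4 : η ≤ 1 / 4) (hη : ‖av fun e => star (x e) * x e‖ ≤ η)
    (ρ : L → (D →ₚ[ℂ] ℂ)) (τ : D →ₚ[ℂ] ℂ) {δ : ℝ} (hδ : 0 < δ) :
    ∃ a : L × Fin 4 → D, ∑ l, rl_qrpa (ρ l) (vsum σ a (x - a) l) +
      rl_qrpa τ (av (vsum σ a (x - a))) ≤
        2 * c1 C * ∑ l, rl_qrpa (ρ l) 1 + 4 * η * rl_qrpa τ 1 + δ := by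
  have hN : (0 : ℝ) < Fintype.card L := by exact_mod_cast Fintype.card_pos
  have h0 : 0 ≤ η := (norm_nonneg _).trans hη
  set r : ℝ := (Fintype.card L : ℝ)⁻¹ with hr
  have hr0 : 0 ≤ r := by positivity
  have hrN : r * Fintype.card L = 1 := inv_mul_cancel₀ hN.ne'
  let t : D →ₚ[ℂ] ℂ := PositiveLinearMap.mk₀ ((r : ℂ) • τ.toLinearMap) fun a ha =>
    mul_nonneg (by exact_mod_cast hr0) (map_nonneg τ ha)
  have hs : ∀ l a, ((ρ l + t) a).re = (rl_qrpa (ρ l) + r • rl_qrpa τ) a := fun l a => by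
    change (ρ l a + (r : ℂ) * τ a).re = (ρ l a).re + r * (τ a).re
    rw [Complex.add_re, Complex.re_ofReal_mul]
  obtain ⟨K, _, _, _, π, A, hA, hX⟩ := bur fun l => ρ l + t
  choose X sX hX using fun e : L × Fin 4 => hX e.1 (σ e.2 e.1) (r * δ) (by positivity)
  simp only [hs] at hX
  have hA' : ∀ l y, (rl_qrpa (ρ l) + r • rl_qrpa τ) (star y * y) = ‖π y (A l)‖ ^ 2 := fun l y => by
    rw [← hs, hA, nsq_qrpa]
  have hP : ∀ g : D →ₗ[ℝ] ℝ, (∀ a, 0 ≤ a → 0 ≤ g a) →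
      ∑ l, ∑ s, g (star (x (l, s)) * x (l, s)) ≤ 4 * Fintype.card L * η * g 1 := fun g hg => by
    have h := hg _ (sub_nonneg.2 ((CStarAlgebra.norm_le_iff_le_algebraMap _ h0
      (av_nonneg' fun e => star_mul_self_nonneg (x e))).1 hη))
    rw [map_sub, Algebra.algebraMap_eq_smul_one, map_smul, av, map_smul, map_sum,
      Fintype.sum_prod_type, Fintype.card_prod, Fintype.card_fin,
      smul_eq_mul, smul_eq_mul, sub_nonneg, inv_mul_le_iff₀ (by positivity)] at h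
    push_cast at h
    linarith
  have hG : ∑ l, ‖A l‖ ^ 2 = ∑ l, rl_qrpa (ρ l) 1 + rl_qrpa τ 1 := by
    have h : ∀ l, ‖A l‖ ^ 2 = rl_qrpa (ρ l) 1 + r * rl_qrpa τ 1 := fun l => by
      have := hA' l 1
      rw [star_one, mul_one, map_one π] at this
      exact this.symm
    simp only [h, Finset.sum_add_distrib, Finset.sum_const, Finset.card_univ, nsmul_eq_mul]
    rw [← mul_assoc, mul_comm _ r, hrN, one_mul]
  have hW := poinc_qrpa hσ (fun l => A l - av A) (by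
    rw [Finset.sum_sub_distrib, Finset.sum_const, Finset.card_univ, ← Nat.cast_smul_eq_nsmul ℝ, av,
      smul_smul, mul_comm, hrN, one_smul, sub_self])
  simp only [sub_sub_sub_cancel_right] at hW
  have hV := var_qrpa A
  choose a ha using fun e : L × Fin 4 =>
    one_qrpa (rl_qrpa (ρ e.1)) (rl_qrpa (ρ (σ e.2 e.1))) (r • rl_qrpa τ)
      (fun _ => rl_nonneg_qrpa _) (fun _ => rl_nonneg_qrpa _)
      (fun _ h => mul_nonneg hr0 (rl_nonneg_qrpa _ h)) (hx e) (sX e)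
  have k1 := cost_qrpa (σ := σ) a (x - a) (fun l => rl_qrpa (ρ l)) (rl_qrpa τ)
  have k2 := cost_qrpa (σ := σ) ((1 / 2 : ℝ) • x) (x - (1 / 2 : ℝ) • x) (fun l => rl_qrpa (ρ l))
    (rl_qrpa τ)
  rw [← hr] at k1 k2
  have b0 : ∀ l s, (rl_qrpa (ρ l) + r • rl_qrpa τ) (star (a (l, s)) * a (l, s)) +
      (rl_qrpa (ρ (σ s l)) + r • rl_qrpa τ) (star ((x - a) (l, s)) * (x - a) (l, s)) ≤
      rl_qrpa (ρ l) 1 / 4 + rl_qrpa (ρ (σ s l)) 1 / 4 - ‖A l - A (σ s l)‖ ^ 2 / 20 + r * δ / 20 +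
        r / 2 * rl_qrpa τ (star (x (l, s)) * x (l, s)) := fun l s => by
    have h1 := ha (l, s)
    have h2 := hX (l, s)
    rw [LinearMap.smul_apply _ _ (star (x _) * _), smul_eq_mul] at h1
    rw [Pi.sub_apply]
    linarith
  have b1 := Finset.sum_le_sum (s := Finset.univ) fun l _ =>
    Finset.sum_le_sum (s := Finset.univ) fun s _ => b0 l s
  let g : D →ₗ[ℝ] ℝ :=
    { toFun := fun y => (⟪av A, π y (av A)⟫_ℂ).re
      map_add' := fun y y' => by rw [map_add, add_apply, inner_add_right, Complex.add_re]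
      map_smul' := fun c y => by
        rw [← Complex.coe_smul, map_smul, smul_apply, inner_smul_right, Complex.re_ofReal_mul]
        rfl }
  have hg : ∀ y, g (star y * y) = ‖π y (av A)‖ ^ 2 := fun y => nsq_qrpa π y _
  have b2 : ∀ l s, (rl_qrpa (ρ l) + r • rl_qrpa τ)
      (star (((1 / 2 : ℝ) • x) (l, s)) * ((1 / 2 : ℝ) • x) (l, s)) +
      (rl_qrpa (ρ (σ s l)) + r • rl_qrpa τ)
        (star ((x - (1 / 2 : ℝ) • x) (l, s)) * (x - (1 / 2 : ℝ) • x) (l, s)) ≤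
      g (star (x (l, s)) * x (l, s)) + ‖A l - av A‖ ^ 2 / 2 + ‖A (σ s l) - av A‖ ^ 2 / 2 :=
    fun l s => by
    have e : x - (1 / 2 : ℝ) • x = (1 / 2 : ℝ) • x := by module
    have h1 := two_qrpa π (hx (l, s)) (A l) (av A)
    have h2 := two_qrpa π (hx (l, s)) (A (σ s l)) (av A)
    rw [e]
    simp only [Pi.smul_apply, star_smul, star_trivial, mul_smul_comm, smul_mul_assoc, map_smul,
      smul_eq_mul, hA', hg]
    linarith
  have b3 := Finset.sum_le_sum (s := Finset.univ) fun l _ =>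
    Finset.sum_le_sum (s := Finset.univ) fun s _ => b2 l s
  rw [← k2] at b3
  rw [← k1] at b1
  have e1 := edge_rep0 (σ := σ) fun l => rl_qrpa (ρ l) 1
  have e2 := edge_rep0 (σ := σ) fun l => ‖A l - av A‖ ^ 2
  simp only [Finset.sum_add_distrib, Finset.sum_sub_distrib, ← Finset.sum_div, ← Finset.mul_sum,
    e1, e2, Finset.sum_const, Finset.card_univ, Fintype.card_fin, nsmul_eq_mul,
    Nat.cast_ofNat] at b1 b3
  have p1 := hP (rl_qrpa τ) fun _ => rl_nonneg_qrpa _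
  have p2 := hP g fun y hy => by
    obtain ⟨z, rfl⟩ := CStarAlgebra.nonneg_iff_eq_star_mul_self.1 hy
    rw [hg]
    positivity
  have hg1 : g 1 = ‖av A‖ ^ 2 := by
    have := hg 1
    rwa [star_one, mul_one, map_one π] at this
  have g0 : 0 ≤ ∑ l, rl_qrpa (ρ l) 1 :=
    Finset.sum_nonneg fun l _ => rl_nonneg_qrpa _ zero_le_one
  have s0 := rl_nonneg_qrpa τ (zero_le_one (α := D))
  set G := ∑ l, rl_qrpa (ρ l) 1
  set s := rl_qrpa τ 1
  have p3 : r / 2 * ∑ l, ∑ s, rl_qrpa τ (star (x (l, s)) * x (l, s)) ≤ 2 * η * s := by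
    refine (mul_le_mul_of_nonneg_left p1 (by positivity)).trans (le_of_eq ?_)
    linear_combination 2 * η * s * hrN
  have p4 : 4 * Fintype.card L * η * g 1 ≤ 4 * η * (G + s) := by
    rw [← hG, hg1]
    nlinarith
  have p5 : r * (4 * ((Fintype.card L : ℝ) * δ)) / 20 = δ / 5 := by
    linear_combination δ / 5 * hrN
  have hc : 160 * C + 1 ≤ (80 * C + 1) * (2 * c1 C) := by
    rw [c1, ← mul_div_assoc, ← mul_div_assoc, le_div_iff₀ (by positivity)]
    nlinarith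
  by_contra hn
  simp only [not_exists, not_le] at hn
  rw [p5] at b1
  have n1 := mul_lt_mul_of_pos_left ((hn a).trans_le b1) (show 0 < 80 * C by positivity)
  have n2 := (hn _).trans_le b3
  have n3 := mul_le_mul_of_nonneg_right hc g0
  have n4 := mul_le_mul_of_nonneg_left p3 hC.le
  have n5 := mul_nonneg hC.le (mul_nonneg h0 s0)
  have n6 := mul_le_mul_of_nonneg_right h4 g0
  have n7 := mul_pos hC hδ
  nlinarith

end

/-- The repacking property holds in every unital C⋆-algebra. -/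
theorem rp_all (D : Type u) [CStarAlgebra D] [PartialOrder D] [StarOrderedRing D] : RP D := by
  intro L _ _ σ C hC hσ x hx η h4 hη γ hγ
  have h0 : 0 ≤ η := (norm_nonneg _).trans hη
  have hs : ∀ t : ℝ, IsSelfAdjoint (t • (1 : D)) := fun t =>
    (IsSelfAdjoint.all t).smul (IsSelfAdjoint.one _)
  obtain ⟨a, ha⟩ := hbc (D := D) (fun (a : L × Fin 4 → D) (i : Option L) =>
    i.elim (av (vsum σ a (x - a)) - (4 * η) • 1) fun l => vsum σ a (x - a) l - (2 * c1 C) • 1)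
    (by
      rintro a (_ | l)
      · exact (IsSelfAdjoint.of_nonneg (av_nonneg' (vsum_nonneg_repm σ _ _))).sub (hs _)
      · exact (IsSelfAdjoint.of_nonneg (vsum_nonneg_repm σ _ _ l)).sub (hs _))
    (fun a a' => ⟨(2 : ℝ)⁻¹ • (a + a'), by
      rintro (_ | l)
      · have := av_mono (vsum_mid_repm σ x a a')
        rw [av_real_smul, av_add] at this
        exact (sub_le_sub_right this _).trans_eq (by simp only [Option.elim]; module)
      · exact (sub_le_sub_right (vsum_mid_repm σ x a a' l) _).trans_eq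
          (by simp only [Option.elim]; module)⟩)
    (fun ρ δ hδ => by
      obtain ⟨a, ha⟩ := rep_qrpa hC hσ x hx h4 hη (fun l => ρ (some l)) (ρ none) hδ
      refine ⟨a, ?_⟩
      simp only [Fintype.sum_option, Option.elim, rl_eq_qrpa, map_sub, map_smul, smul_eq_mul,
        Finset.sum_sub_distrib, ← Finset.mul_sum]
      linarith) hγ
  have hc := half_le_c1 hC
  refine ⟨a, fun l => ?_, ?_⟩
  · rw [CStarAlgebra.norm_le_iff_le_algebraMap _ (by linarith) (vsum_nonneg_repm σ _ _ l),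
      Algebra.algebraMap_eq_smul_one, add_smul]
    exact sub_le_iff_le_add'.1 (ha (some l))
  · rw [CStarAlgebra.norm_le_iff_le_algebraMap _ (by linarith)
      (av_nonneg' (vsum_nonneg_repm σ _ _)), Algebra.algebraMap_eq_smul_one, add_smul]
    exact sub_le_iff_le_add'.1 (ha none)

end Ulam
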