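import Pool.Agent.P.MP_3be8c7_an.QSTZ
import Pool.Agent.P.MP_3be8c7_an.ISO
import Pool.Agent.P.MP_3be8c7_an.OZAP
import Pool.Agent.P.MP_3be8c7_an.UNIV
import Pool.Agent.P.MP_3be8c7_an.BIC
import Pool.Agent.P.MP_3be8c7_an.KAP
import Pool.Agent.P.MP_3be8c7_an.SSF
import Pool.Agent.P.MP_3be8c7_an.SUM

open scoped ComplexOrder InnerProductSpace
open Filter Topology
open ContinuousLinearMap (adjoint)

noncomputable section

namespace Ulam

universe u v w

variable {D : Type u} [CStarAlgebra D] [PartialOrder D] [StarOrderedRing D]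

theorem conj_qstg (s : SData D D) {k : D} (hk : ‖k‖ ≤ 1) :
    ∃ t : SData D D, ∀ u, t.ev u = star k * s.ev u * k := by
  have h1 : ‖∑ i, star (s.c i * k) * (s.c i * k)‖ ≤ 1 := by
    have e : ∑ i, star (s.c i * k) * (s.c i * k) = star k * (∑ i, star (s.c i) * s.c i) * k := by
      simp only [Finset.mul_sum, Finset.sum_mul, star_mul, mul_assoc]
    rw [e]
    refine (norm_mul_le _ _).trans (mul_le_one₀ ((norm_mul_le _ _).trans
      (mul_le_one₀ (by rwa [norm_star]) (norm_nonneg _) s.col)) (norm_nonneg _) hk)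
  have h2 : ‖∑ i, s.c i * k * star (s.c i * k)‖ ≤ 9 := by
    have h3 : k * star k ≤ 1 := (CStarAlgebra.norm_le_one_iff_of_nonneg _
      (mul_star_self_nonneg k)).1 (by
        rw [CStarRing.norm_self_mul_star]; nlinarith [norm_nonneg k])
    refine (CStarAlgebra.norm_le_norm_of_nonneg_of_le
      (Finset.sum_nonneg fun i _ => mul_star_self_nonneg _)
      (Finset.sum_le_sum fun i _ => ?_)).trans s.row
    simpa only [star_mul, mul_assoc, one_mul] using star_right_conjugate_le_conjugate h3 (s.c i)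
  refine ⟨{ s with c := fun i => s.c i * k, col := h1, row := h2 }, fun u => ?_⟩
  change ∑ i, star (s.c i * k) * hpsi s.v (s.θ u) * (s.c i * k) = _
  simp only [SData.ev, Finset.mul_sum, Finset.sum_mul, star_mul, mul_assoc]

/-- The normalising function. -/
def f_qstg (t : ℝ) : ℝ := √((max (1 / 2) t)⁻¹)

theorem cont_qstg : Continuous f_qstg :=
  (Continuous.inv₀ (by fun_prop) fun _ => (lt_max_of_lt_left (by norm_num)).ne').sqrt

theorem sq_qstg (t : ℝ) : f_qstg t * t * f_qstg t = t / max (1 / 2) t := by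
  have : 0 < max (1 / 2) t := lt_max_of_lt_left (by norm_num)
  rw [mul_right_comm, f_qstg, Real.mul_self_sqrt (by positivity), div_eq_inv_mul t]

theorem ozh_qstg {J : Type*} {v : J → D} (hv : IsOZ (fun _ => ()) v) (j₀ : J) :
    ∃ v' : J → D, OZH v' (cfc (tent_ozap 1 (1 / 2)) (star (v j₀) * v j₀)) := by
  have h0 : 0 ≤ star (v j₀) * v j₀ := star_mul_self_nonneg _
  have hs : ∀ j, star (v j) * v j = star (v j₀) * v j₀ := fun j => hv.same j j₀ rfl
  generalize star (v j₀) * v j₀ = g at h0 hs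
  have hc := cont_qstg.continuousOn (s := spectrum ℝ g)
  have hc' := (cont_ozap 1 (1 / 2)).continuousOn (s := spectrum ℝ g)
  have h1 : star (cfc f_qstg g) = cfc f_qstg g := IsSelfAdjoint.cfc
  have h2 : ∀ j, star (v j * cfc f_qstg g) * (v j * cfc f_qstg g) =
      cfc (fun t => f_qstg t * t * f_qstg t) g := fun j => by
    rw [star_mul, h1, mul_assoc, ← mul_assoc (star (v j)), hs, ← mul_assoc, cfc_mul ..,
      cfc_mul .., cfc_id' ℝ g]
  refine ⟨fun j => v j * cfc f_qstg g, ⟨fun j k hjk => ?_, fun j k _ => by rw [h2, h2],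
    fun j => ?_⟩, IsSelfAdjoint.cfc, norm_ozap _ (by norm_num) _, fun j => ?_⟩
  · rw [star_mul, mul_assoc, ← mul_assoc (star (v j)), hv.orth j k hjk, zero_mul, mul_zero]
  · have h3 : ‖star (v j * cfc f_qstg g) * (v j * cfc f_qstg g)‖ ≤ 1 := by
      rw [h2]
      refine norm_cfc_le zero_le_one fun t ht => ?_
      have h4 : 0 < max (1 / 2) t := lt_max_of_lt_left (by norm_num)
      have h5 := spectrum_nonneg_of_nonneg h0 ht
      rw [sq_qstg, Real.norm_of_nonneg (by positivity), div_le_one h4]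
      exact le_max_right _ _
    rw [CStarRing.norm_star_mul_self] at h3
    nlinarith [norm_nonneg (v j * cfc f_qstg g)]
  · rw [h2, ← cfc_mul ..]
    refine cfc_congr fun t _ => ?_
    by_cases ht : tent_ozap 1 (1 / 2) t = 0
    · simp only [ht, mul_zero]
    · have h4 := (abs_lt.1 (supp_ozap (by norm_num) ht)).1
      simp only [sq_qstg]
      rw [max_eq_right (by linarith), div_self (by linarith : (0 : ℝ) < t).ne', one_mul]

theorem tent_qstg {R : Type*} [CStarAlgebra R] {q : R} (hq : IsStarProjection q) :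
    cfc (tent_ozap 1 (1 / 2)) q = q := by
  have h1 := eig_ozap (q := q) (l := 1) hq.isSelfAdjoint
    (by rw [hq.isIdempotentElem.eq, one_smul]) (cont_ozap 1 (1 / 2))
  have h2 := eig_ozap (q := 1 - q) (l := 0) hq.isSelfAdjoint
    (by rw [mul_sub, mul_one, hq.isIdempotentElem.eq, sub_self, zero_smul]) (cont_ozap 1 (1 / 2))
  have h3 : tent_ozap 1 (1 / 2) 0 = 0 := by norm_num [tent_ozap]
  rw [top_ozap, one_smul] at h1
  rw [h3, zero_smul, mul_sub, mul_one, h1, sub_eq_zero] at h2
  exact h2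

theorem strg_of_strf (hD : STRF D) : STRG D := by
  classical
  intro ρ U hU η hη J _ _
  obtain ⟨H, _, _, _, π, hu⟩ := univ_rep D
  obtain ⟨N, hπ, hS⟩ := bic π
  have hK : KDense π N := kap hS
  obtain ⟨Ω, hΩ⟩ := hu ρ
  obtain ⟨z, hz, hzt, hdom⟩ := exists_zf N
  have hc := hz.compl
  obtain ⟨j₀⟩ := ‹Nonempty J›
  have he : 0 < √η / 4 := by positivity
  have hU1 : ∀ u ∈ U, ‖π u‖ ≤ 1 := fun u hu' => pi_norm_le (by
    rw [← map_star, ← map_mul, Unitary.star_mul_self_of_mem (hU u hu'), map_one]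
    exact IsStarProjection.one _)
  obtain ⟨s, hs⟩ := strz hD π N hπ hdom {Ω} U hU he
  obtain ⟨a, a1, a2⟩ := hK z hz.2.1 hz.1.norm_le
  choose t ht using fun i => conj_qstg s (a1 i)
  let b : Option U → D := fun o => o.elim 1 (↑)
  obtain ⟨q, w, hq, hqN, hwN, hw, hζ⟩ := iso π N hπ (fun o => π (b o) ((1 - z) Ω))
    (disj_of_orth hK hu hz hzt _ fun i => by
      have h1 : z * π (b i) * (1 - z) = 0 := by
        rw [(hz.2.2 _ (hπ (b i))).eq, mul_assoc, mul_sub, mul_one, hz.1.isIdempotentElem.eq,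
          sub_self, mul_zero]
      simpa using congrArg (fun T : H →L[ℂ] H => T Ω) h1) J he
  obtain ⟨z', hz'⟩ : ∃ z', z' = 1 - z := ⟨_, rfl⟩
  rw [← hz'] at hc hζ
  have hq' : IsStarProjection (z' * q) := hc.1.mul hq (hc.2.2 _ hqN)
  have hw' : ∀ j k, star (z' * w j) * (z' * w k) = if j = k then z' * q else 0 := fun j k => by
    rw [zs_sum hc (hwN j), zsame_sum hc (star_mem (hwN j)), hw]
    split_ifs <;> simp
  have hp : ∀ j, IsStarProjection (star (z' * w j) * (z' * w j)) := fun j => by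
    rw [hw', if_pos rfl]; exact hq'
  obtain ⟨v, v1, v2⟩ := ozap (τ := fun _ : J => ()) (v := fun j => z' * w j) hK
    ⟨fun j k hjk => by rw [hw', if_neg hjk], fun j k _ => by rw [hw', hw', if_pos rfl, if_pos rfl],
      fun j => pi_norm_le (hp j)⟩ (fun j => mul_mem hc.2.1 (hwN j)) hp
  choose v' hv' using fun i => ozh_qstg (v1 i) j₀
  have l1 := ss_ozap (π := π) (a := fun i => star (v i j₀) * v i j₀)
    (((v2 j₀).star.mul (v2 j₀)).congr' (.of_forall fun i => by simp only [map_mul, map_star]))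
    (fun i => .star_mul_self _) (.star_mul_self _) (cont_ozap 1 (1 / 2))
  rw [hw', if_pos rfl, tent_qstg hq'] at l1
  generalize hh : (fun i => cfc (tent_ozap 1 (1 / 2)) (star (v i j₀) * v i j₀)) = h
  have hh' : ∀ i, cfc (tent_ozap 1 (1 / 2)) (star (v i j₀) * v i j₀) = h i := congrFun hh
  simp only [hh'] at hv' l1
  have key : ∀ u, SS atTop (fun i => π (u - (t i).ev u - h i * u * h i))
      (π u - star z * π (s.ev u) * z - z' * q * π u * (z' * q)) := fun u =>
    (((SS.const (π u)).sub ((a2.star.mul (SS.const _)).mul a2)).sub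
      ((l1.mul (SS.const _)).mul l1)).congr' (.of_forall fun i => by
        simp only [ht, map_sub, map_mul, map_star])
  have est : ∀ u ∈ U,
      ‖(π u - star z * π (s.ev u) * z - z' * q * π u * (z' * q)) Ω‖ ^ 2 < η := fun u hu' => by
    have e1 : π u - star z * π (s.ev u) * z - z' * q * π u * (z' * q) =
        z * (π (u - s.ev u) * z) + z' * ((1 - q) * π u * z') + z' * (q * π u * ((1 - q) * z')) := by
      have c1 : z * (π u * z) = π u * z := by
        rw [← (hz.2.2 _ (hπ u)).eq, ← mul_assoc, hz.1.isIdempotentElem.eq]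
      have c2 : z' * (π u * z') = π u * z' := by
        rw [← (hc.2.2 _ (hπ u)).eq, ← mul_assoc, hc.1.isIdempotentElem.eq]
      have c3 : π u = π u * z + π u * z' := by rw [hz', ← mul_add, add_sub_cancel, mul_one]
      rw [hz.1.isSelfAdjoint.star_eq, map_sub, (hc.2.2 _ hqN).eq]
      simp only [sub_mul, mul_sub, one_mul, mul_assoc, c1, c2]
      rw [← mul_assoc q z', ← (hc.2.2 _ hqN).eq, mul_assoc z' q]
      nth_rw 1 [c3]
      abel
    have n1 : ∀ (p : H →L[ℂ] H) (x : H), ‖p‖ ≤ 1 → ‖x‖ ≤ √η / 4 → ‖p x‖ ≤ √η / 4 :=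
      fun p x h1 h2 => (p.le_opNorm x).trans ((mul_le_of_le_one_left (norm_nonneg _) h1).trans h2)
    have n2 := n1 z _ hz.1.norm_le (hs u hu' Ω (Finset.mem_singleton_self _))
    have n3 := n1 z' _ hc.1.norm_le (hζ (some ⟨u, hu'⟩))
    have n4 := n1 z' _ hc.1.norm_le (n1 q _ hq.norm_le (n1 _ _ (hU1 u hu') (hζ none)))
    have n5 : ‖(π u - star z * π (s.ev u) * z - z' * q * π u * (z' * q)) Ω‖ ≤
        √η / 4 + √η / 4 + √η / 4 := by
      rw [e1]
      refine norm_add₃_le.trans (add_le_add (add_le_add n2 ?_) ?_)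
      · simpa [b] using n3
      · simpa [b] using n4
    have n6 := Real.sq_sqrt hη.le
    have n7 := pow_le_pow_left₀ (norm_nonneg _) n5 2
    nlinarith
  obtain ⟨i, hi⟩ := ((Finset.eventually_all U).2 fun u hu' =>
    (((key u).2 Ω).1.norm.pow 2).eventually (eventually_le_nhds (est u hu'))).exists
  refine ⟨t i, v' i, h i, hv' i, fun u hu' => ?_⟩
  rw [hΩ, map_mul, map_star, inner_star_mul_zf]
  exact hi u hu'

end Ulam
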