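import Pool.Agent.P.MP_3be8c7_an.QFB
import Pool.Agent.P.MP_3be8c7_an.QLB
import Pool.Agent.P.MP_3be8c7_an.QDK
import Pool.Agent.P.MP_3be8c7_an.QSTG
import Pool.Agent.P.MP_3be8c7_an.QRPA

open scoped ComplexOrder InnerProductSpace
open Filter Topology
open ContinuousLinearMap (adjoint)

noncomputable section

namespace Ulam

universe u v w

theorem near_rep {γ : ℝ} (hγ : 0 < γ) : ∃ ε : ℝ, 0 < ε ∧
    ∀ (D : Type u) [CStarAlgebra D] [PartialOrder D] [StarOrderedRing D], STRF D →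
    ∀ (H : Type v) [NormedAddCommGroup H] [InnerProductSpace ℂ H] [CompleteSpace H]
      (φ : D → (H →L[ℂ] H)), EpsHom φ ε → ‖φ 1 - 1‖ ≤ ε →
    ∃ ψ : D →⋆ₐ[ℂ] (H →L[ℂ] H), ∀ a, ‖a‖ ≤ 1 → ‖φ a - ψ a‖ ≤ γ := by
  obtain ⟨δ, hδ, hfin⟩ := finalb.{u, v} (γ := γ / 2) (by positivity)
  set g : ℝ := min (min (δ / 5) (γ / 2)) 1 with hg
  have hg0 : 0 < g := by positivity
  have hg1 : g ≤ δ / 5 := (min_le_left _ _).trans (min_le_left _ _)
  have hg2 : g ≤ γ / 2 := (min_le_left _ _).trans (min_le_right _ _)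
  have hg3 : g ≤ 1 := min_le_right _ _
  obtain ⟨ε, hε, hlin⟩ := linb.{u, v} hg0
  refine ⟨min ε g, by positivity, fun D _ _ _ hD H _ _ _ φ hφ h1 => ?_⟩
  obtain ⟨L, hL, hLφ⟩ := hlin D (rp_all D) (strg_of_strf hD) H φ (hφ.mono (min_le_left _ _))
  have hφ' := hφ.mono (min_le_right ε g)
  have h1' : ‖φ 1 - 1‖ ≤ g := h1.trans (min_le_right _ _)
  have hone : ‖(1 : D)‖ ≤ 1 := by
    rcases subsingleton_or_nontrivial D with h | h
    · simp [Subsingleton.elim (1 : D) 0]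
    · simp
  obtain ⟨ψ, hψ⟩ := hfin D (dk_of_strf hD) H L hL
    (by
      calc ‖L 1 - 1‖ = ‖(L 1 - φ 1) + (φ 1 - 1)‖ := by congr 1; abel
        _ ≤ g + g := (norm_add_le _ _).trans (add_le_add (hLφ 1 hone) h1')
        _ ≤ δ := by linarith)
    (fun a b ha hb => by
      have hab : ‖a * b‖ ≤ 1 := (norm_mul_le _ _).trans (mul_le_one₀ ha (norm_nonneg _) hb)
      have e1 := hLφ _ hab
      have e2 := hφ'.mul a b ha hb
      have e3 := hLφ a ha
      have e4 := hLφ b hb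
      have n1 := hφ.ball a ha
      have n2 : ‖L b‖ ≤ 2 := by
        calc ‖L b‖ = ‖(L b - φ b) + φ b‖ := by congr 1; abel
          _ ≤ g + 1 := (norm_add_le _ _).trans (add_le_add e4 (hφ.ball b hb))
          _ ≤ 2 := by linarith
      have e5 : ‖φ a * (φ b - L b)‖ ≤ g := by
        refine (norm_mul_le _ _).trans ?_
        rw [norm_sub_rev]
        calc _ ≤ 1 * g := mul_le_mul n1 e4 (norm_nonneg _) zero_le_one
          _ = g := one_mul g
      have e6 : ‖(φ a - L a) * L b‖ ≤ g * 2 := by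
        refine (norm_mul_le _ _).trans ?_
        rw [norm_sub_rev]
        exact mul_le_mul e3 n2 (norm_nonneg _) hg0.le
      calc ‖L (a * b) - L a * L b‖ = ‖(L (a * b) - φ (a * b)) + (φ (a * b) - φ a * φ b) +
            φ a * (φ b - L b) + (φ a - L a) * L b‖ := by congr 1; noncomm_ring
        _ ≤ g + g + g + g * 2 := (norm_add_le _ _).trans (add_le_add ((norm_add_le _ _).trans
            (add_le_add ((norm_add_le _ _).trans (add_le_add e1 e2)) e5)) e6)
        _ ≤ δ := by linarith)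
  refine ⟨ψ, fun a ha => ?_⟩
  calc ‖φ a - ψ a‖ = ‖(L a - ψ a) - (L a - φ a)‖ := by congr 1; abel
    _ ≤ γ / 2 + g := (norm_sub_le _ _).trans (add_le_add (hψ a ha) (hLφ a ha))
    _ ≤ γ := by linarith

end Ulam
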