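import Pool.Agent.P.MP_3be8c7_an.QMONO
import Pool.Agent.P.MP_3be8c7_an.QFIX
import Pool.Agent.P.MP_3be8c7_an.VB

open scoped ComplexOrder InnerProductSpace
open Filter Topology
open ContinuousLinearMap (adjoint)

noncomputable section

namespace Ulam

universe u v w

variable {H : Type v} [NormedAddCommGroup H] [InnerProductSpace ℂ H] [CompleteSpace H]

section Aux

variable {F : Type*} [Group F] {κ : F →* (H →L[ℂ] H)} {C : Set (H →L[ℂ] H)}

/-- Conjugation by the representation. -/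
def ad_qprop (κ : F →* (H →L[ℂ] H)) (X : H →L[ℂ] H) (f : F) : H →L[ℂ] H := κ f * X * κ f⁻¹

theorem ad_nonneg_qprop (hκ : URep κ) {X : H →L[ℂ] H} (h : 0 ≤ X) (f : F) :
    0 ≤ ad_qprop κ X f := by
  rw [ad_qprop, ← hκ f]
  exact star_right_conjugate_nonneg h _

omit [CompleteSpace H] in
theorem ad_comm_qprop (hCκ : ∀ f, ∀ c ∈ C, κ f * c * κ f⁻¹ ∈ C) {X : H →L[ℂ] H}
    (h : ∀ c ∈ C, Commute c X) (f : F) : ∀ c ∈ C, Commute c (ad_qprop κ X f) := fun c hc => by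
  have h1 := (h _ (hCκ f⁻¹ c hc)).eq
  have h2 : κ f * κ f⁻¹ = 1 := by rw [← map_mul, mul_inv_cancel, map_one]
  rw [inv_inv] at h1
  calc c * (κ f * X * κ f⁻¹) = κ f * κ f⁻¹ * c * (κ f * X * κ f⁻¹) := by rw [h2, one_mul]
    _ = κ f * (κ f⁻¹ * c * κ f * X) * κ f⁻¹ := by simp only [mul_assoc]
    _ = κ f * X * κ f⁻¹ * c * (κ f * κ f⁻¹) := by rw [h1]; simp only [mul_assoc]
    _ = κ f * X * κ f⁻¹ * c := by rw [h2, mul_one]

omit [CompleteSpace H] in
theorem ad_shift_qprop (X : H →L[ℂ] H) (h f : F) :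
    κ h * ad_qprop κ X f = ad_qprop κ X (h * f) * κ h := by
  simp only [ad_qprop, mul_assoc]
  rw [← map_mul κ (h * f)⁻¹, mul_inv_rev, inv_mul_cancel_right, map_mul, mul_assoc]

theorem ad_conj_qprop (hκ : URep κ) (X : H →L[ℂ] H) {Z : H →L[ℂ] H} (hZ : ∀ f, Commute (κ f) Z)
    (f : F) : ad_qprop κ (star Z * X * Z) f = star Z * ad_qprop κ X f * Z := by
  have h1 : κ f * star Z = star Z * κ f := by
    have := (hZ f⁻¹).star_star
    rw [hκ, inv_inv] at this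
    exact this.eq
  simp only [ad_qprop, mul_assoc]
  rw [← (hZ f⁻¹).eq, ← mul_assoc, h1, mul_assoc]

theorem cs_qprop {T : H →L[ℂ] H} (h : 0 ≤ T) (x y : H) :
    ‖⟪x, T y⟫_ℂ‖ ^ 2 ≤ (⟪x, T x⟫_ℂ).re * (⟪y, T y⟫_ℂ).re ∧ 0 ≤ (⟪x, T x⟫_ℂ).re := by
  obtain ⟨b, rfl⟩ := CStarAlgebra.nonneg_iff_eq_star_mul_self.1 h
  have h0 : ∀ x y, ⟪x, (star b * b) y⟫_ℂ = ⟪b x, b y⟫_ℂ := fun x y => by
    rw [mul_apply_eq_comp, ContinuousLinearMap.star_eq_adjoint,
      ContinuousLinearMap.adjoint_inner_right]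
  have h1 : ∀ z, (⟪z, (star b * b) z⟫_ℂ).re = ‖b z‖ ^ 2 := fun z => by
    rw [h0]
    exact inner_self_eq_norm_sq (𝕜 := ℂ) _
  rw [h1, h1, h0, ← mul_pow]
  exact ⟨pow_le_pow_left₀ (norm_nonneg _) (norm_inner_le_norm _ _) 2, sq_nonneg _⟩

theorem sand_qprop {ρ T X : H →L[ℂ] H} (h0 : 0 ≤ ρ) (h1 : ρ ≤ T) (hX : IsSelfAdjoint X)
    (hT : X * T = 1) : ρ * X * ρ ≤ ρ := by
  have e : star (X * ρ) = ρ * X := by rw [star_mul, hX.star_eq, h0.isSelfAdjoint.star_eq]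
  have a1 := star_left_conjugate_le_conjugate h1 (X * ρ)
  have a2 := star_left_conjugate_nonneg h0 (1 - X * ρ)
  rw [star_sub, star_one, e] at a2
  rw [e, mul_assoc ρ X T, hT, mul_one] at a1
  have a3 := add_nonneg a2 (sub_nonneg.2 a1)
  rw [← sub_nonneg]
  refine a3.trans_eq ?_
  noncomm_ring

theorem rho_qprop (hκ : URep κ) (hC : ∀ c ∈ C, star c ∈ C)
    (hCκ : ∀ f, ∀ c ∈ C, κ f * c * κ f⁻¹ ∈ C) {E : H →L[ℂ] H} (hE : IsStarProjection E)
    (hEC : ∀ c ∈ C, Commute c E) (S : Set H)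
    (hS : ∀ ζ ∈ S, Summable fun f => ‖E (κ f⁻¹ ζ)‖ ^ 2)
    (hS' : ∀ η : H, (∀ c ∈ C, ∀ ζ ∈ S, ⟪c ζ, η⟫_ℂ = 0) → η = 0) :
    ∃ ρ : H →L[ℂ] H, 0 ≤ ρ ∧ (∀ c ∈ C, Commute c ρ) ∧ (∀ f, Commute (κ f) ρ) ∧
      (∀ s : Finset F, ρ * (∑ f ∈ s, ad_qprop κ E f) * ρ ≤ 1) ∧ (∀ η, ρ η = 0 → η = 0) ∧
      ∀ η, (∀ f, ad_qprop κ E f η = 0) → ρ η = η := by
  classical
  obtain ⟨X, hX⟩ : ∃ X : Finset F → (H →L[ℂ] H), ∀ s, X s = 1 + ∑ f ∈ s, ad_qprop κ E f :=
    ⟨_, fun _ => rfl⟩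
  have hΓ : ∀ s : Finset F, 0 ≤ ∑ f ∈ s, ad_qprop κ E f := fun s =>
    Finset.sum_nonneg fun f _ => ad_nonneg_qprop hκ hE.nonneg f
  have hp : ∀ s, IsStrictlyPositive (X s) := fun s => by
    rw [hX]
    exact isStrictlyPositive_one.add_nonneg (hΓ s)
  obtain ⟨T, hT⟩ : ∃ T : Finset F → (H →L[ℂ] H), ∀ s, T s = Ring.inverse (X s) := ⟨_, fun _ => rfl⟩
  have t1 : ∀ s, X s * T s = 1 := fun s => by rw [hT, Ring.mul_inverse_cancel _ (hp s).isUnit]
  have t2 : ∀ s, T s * X s = 1 := fun s => by rw [hT, Ring.inverse_mul_cancel _ (hp s).isUnit]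
  have t3 : ∀ s, 0 ≤ T s := fun s => by
    have := star_left_conjugate_nonneg (hp s).nonneg (T s)
    have e : star (T s) * X s = 1 := by
      rw [← (hp s).nonneg.isSelfAdjoint.star_eq, ← star_mul, t1, star_one]
    rwa [e, one_mul] at this
  have t4 : Antitone T := fun s s' h => by
    rw [hT, hT]
    refine CStarAlgebra.ringInverse_le_ringInverse ?_ (hp s)
    rw [hX, hX]
    exact add_le_add_right (Finset.sum_le_sum_of_subset_of_nonneg h fun f _ _ =>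
      ad_nonneg_qprop hκ hE.nonneg f) _
  have t5 : ∀ (c : H →L[ℂ] H) s s', c * X s = X s' * c → c * T s = T s' * c := fun c s s' h => by
    calc c * T s = T s' * (X s' * c) * T s := by rw [← mul_assoc, t2, one_mul]
      _ = T s' * c := by rw [← h, mul_assoc, mul_assoc, t1, mul_one]
  obtain ⟨ρ, r0, r1, r2⟩ := anti_lim T t3 t4
  have rC : ∀ c ∈ C, Commute c ρ := fun c hc =>
    (WL.of_sot r2).commute (Eventually.of_forall fun s => t5 c s s (by
      rw [hX]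
      exact ((Commute.one_right c).add_right
        (Commute.sum_right _ _ _ fun f _ => ad_comm_qprop hCκ hEC f c hc)).eq))
  refine ⟨ρ, r0, rC, fun h => ?_, fun s => ?_, fun η hη => ?_, fun η hη => ?_⟩
  · ext ζ
    have l1 := (r2 (κ h ζ)).comp (tendsto_finset_image_atTop_atTop (j := fun f => h * f)
      (i := fun f => h⁻¹ * f) fun f => mul_inv_cancel_left h f)
    refine tendsto_nhds_unique (((κ h).continuous.tendsto _).comp (r2 ζ)) (l1.congr fun s => ?_)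
    refine (DFunLike.congr_fun (t5 (κ h) s (s.image fun f => h * f) ?_) ζ).symm
    rw [hX, hX, Finset.sum_image fun a _ b _ e => mul_left_cancel e, mul_add, add_mul, mul_one,
      one_mul, Finset.mul_sum, Finset.sum_mul]
    simp only [ad_shift_qprop]
  · have a1 := sand_qprop r0 (r1 s) (hp s).nonneg.isSelfAdjoint (t1 s)
    have a2 : T ∅ = 1 := by rw [hT, hX, Finset.sum_empty, add_zero, Ring.inverse_one]
    refine le_trans ?_ (a1.trans (a2 ▸ r1 ∅))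
    refine r0.isSelfAdjoint.conjugate_le_conjugate ?_
    rw [hX]
    exact le_add_of_nonneg_left zero_le_one
  · have key : ∀ η, ρ η = 0 → ∀ ζ ∈ S, ⟪η, ζ⟫_ℂ = 0 := fun η hη ζ hζ => by
      have b1 : ∀ s, (⟪X s ζ, ζ⟫_ℂ).re ≤ ‖ζ‖ ^ 2 + ∑' f, ‖E (κ f⁻¹ ζ)‖ ^ 2 := fun s => by
        rw [hX, add_apply, inner_add_left, Complex.add_re, sum_apply, sum_inner, Complex.re_sum]
        refine add_le_add (le_of_eq (inner_self_eq_norm_sq (𝕜 := ℂ) ζ)) (le_of_eq_of_le ?_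
          ((hS ζ hζ).sum_le_tsum s fun _ _ => sq_nonneg _))
        refine Finset.sum_congr rfl fun f _ => ?_
        have e : ad_qprop κ E f = star (E * κ f⁻¹) * (E * κ f⁻¹) := by
          rw [star_mul, hκ, inv_inv, hE.isSelfAdjoint.star_eq, mul_assoc, ← mul_assoc E,
            hE.isIdempotentElem.eq, ad_qprop, mul_assoc]
        rw [e, mul_apply_eq_comp, ContinuousLinearMap.star_eq_adjoint,
          ContinuousLinearMap.adjoint_inner_left]
        exact inner_self_eq_norm_sq (𝕜 := ℂ) _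
      have b2 : ∀ s, ‖⟪η, ζ⟫_ℂ‖ ^ 2 ≤
          (⟪η, T s η⟫_ℂ).re * (‖ζ‖ ^ 2 + ∑' f, ‖E (κ f⁻¹ ζ)‖ ^ 2) := fun s => by
        obtain ⟨c1, c2⟩ := cs_qprop (t3 s) η (X s ζ)
        have e : T s (X s ζ) = ζ := DFunLike.congr_fun (t2 s) ζ
        rw [e] at c1
        exact c1.trans (mul_le_mul_of_nonneg_left (b1 s) c2)
      have b3 := ((Complex.continuous_re.tendsto _).comp (WL.of_sot r2 η η)).mul_const
        (‖ζ‖ ^ 2 + ∑' f, ‖E (κ f⁻¹ ζ)‖ ^ 2)
      have b4 := ge_of_tendsto' b3 b2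
      rw [hη, inner_zero_right, Complex.zero_re, zero_mul] at b4
      exact norm_eq_zero.1 (pow_eq_zero_iff two_ne_zero |>.1 (le_antisymm b4 (sq_nonneg _)))
    refine hS' η fun c hc ζ hζ => ?_
    have e : ρ (star c η) = 0 := by
      have := DFunLike.congr_fun (rC _ (hC c hc)).eq η
      rw [mul_apply_eq_comp, mul_apply_eq_comp, hη, map_zero] at this
      exact this.symm
    have := key _ e ζ hζ
    rwa [ContinuousLinearMap.star_eq_adjoint, ContinuousLinearMap.adjoint_inner_left,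
      inner_eq_zero_symm] at this
  · refine tendsto_nhds_unique (r2 η) (tendsto_const_nhds.congr fun s => ?_)
    have e : X s η = η := by
      rw [hX, add_apply, sum_apply, Finset.sum_eq_zero fun f _ => hη f, add_zero]
      rfl
    have := DFunLike.congr_fun (t2 s) η
    rw [mul_apply_eq_comp, e] at this
    exact this.symm

/-- Admissible operators. -/
def Adm_qprop (κ : F →* (H →L[ℂ] H)) (C : Set (H →L[ℂ] H)) (Q : H →L[ℂ] H) : Prop :=
  0 ≤ Q ∧ (∀ c ∈ C, Commute c Q) ∧ ∀ s : Finset F, ∑ f ∈ s, ad_qprop κ Q f ≤ 1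

theorem max_qprop (κ : F →* (H →L[ℂ] H)) (C : Set (H →L[ℂ] H)) :
    ∃ Q, Maximal (Adm_qprop κ C) Q := by
  classical
  have h0 : Adm_qprop κ C 0 :=
    ⟨le_rfl, fun c _ => Commute.zero_right c, fun s => by simp [ad_qprop]⟩
  refine (zorn_le_nonempty₀ {Q | Adm_qprop κ C Q} (fun c hc hch y hy => ?_) 0 h0).imp
    fun _ h => h.2
  let := hch.linearOrder
  have : Nonempty c := ⟨⟨y, hy⟩⟩
  obtain ⟨ρ, -, r1, r2⟩ := anti_lim (fun a : c => 1 - a.1)
    (fun a => sub_nonneg.2 (by simpa [ad_qprop] using (hc a.2).2.2 {1}))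
    fun a b h => sub_le_sub_left (show a.1 ≤ b.1 from h) _
  have r3 : ∀ ζ, Tendsto (fun a : c => a.1 ζ) atTop (𝓝 ((1 - ρ) ζ)) := fun ζ => by
    simpa using (r2 ζ).const_sub ζ
  have r4 : ∀ z ∈ c, z ≤ 1 - ρ := fun z hz => le_sub_comm.1 (r1 ⟨z, hz⟩)
  refine ⟨1 - ρ, ⟨(hc hy).1.trans (r4 y hy), fun x hx => (WL.of_sot r3).commute
    (Eventually.of_forall fun a => (hc a.2).2.1 x hx), fun s => ?_⟩, r4⟩
  refine sub_nonneg.1 (WL.nonneg (l := atTop) (T := fun a : c => 1 - ∑ f ∈ s, ad_qprop κ a.1 f)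
    ((WL.const 1).sub (WL.of_sot fun ζ => ?_))
    (Eventually.of_forall fun a => sub_nonneg.2 ((hc a.2).2.2 s)))
  simp only [sum_apply]
  exact tendsto_finsetSum _ fun f _ => ((κ f).continuous.tendsto _).comp (r3 (κ f⁻¹ ζ))

end Aux

/-- A cut-off operator for a square integrable representation. -/
theorem exists_cutoff {F : Type*} [Group F] (κ : F →* (H →L[ℂ] H)) (hκ : URep κ)
    (C : Set (H →L[ℂ] H)) (hC : ∀ c ∈ C, star c ∈ C) (hCκ : ∀ f, ∀ c ∈ C, κ f * c * κ f⁻¹ ∈ C)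
    {E : H →L[ℂ] H} (hE : IsStarProjection E) (hEC : ∀ c ∈ C, Commute c E)
    (P : Set (H →L[ℂ] H)) (hP1 : ∀ a ∈ P, ‖a‖ ≤ 1) (hP2 : ∀ a ∈ P, ∀ c ∈ C, Commute c a)
    (hP3 : ∀ a ∈ P, ∀ f, Commute (κ f) a)
    (hP4 : ∀ η : H, (∀ a ∈ P, E (star a η) = 0) → η = 0)
    (S : Set H) (hS : ∀ ζ ∈ S, Summable fun f => ‖E (κ f⁻¹ ζ)‖ ^ 2)
    (hS' : ∀ η : H, (∀ c ∈ C, ∀ ζ ∈ S, ⟪c ζ, η⟫_ℂ = 0) → η = 0) :
    ∃ Q : H →L[ℂ] H, 0 ≤ Q ∧ (∀ c ∈ C, Commute c Q) ∧
      ∀ ζ, HasSum (fun f => (κ f * Q * κ f⁻¹) ζ) ζ := by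
  obtain ⟨ρ, r0, rC, rκ, r1, r2, r3⟩ := rho_qprop hκ hC hCκ hE hEC S hS hS'
  obtain ⟨Q, ⟨q0, qC, q1⟩, qm⟩ := max_qprop κ C
  have q2 := ad_nonneg_qprop hκ q0
  obtain ⟨G, g0, g1, g2⟩ := mono_sum (ad_qprop κ Q) q2 (C := 1) fun s =>
    (CStarAlgebra.norm_le_one_iff_of_nonneg _ (Finset.sum_nonneg fun f _ => q2 f)).2 (q1 s)
  have g3 : 0 ≤ 1 - G := sub_nonneg.2 ((CStarAlgebra.norm_le_one_iff_of_nonneg _ g0).1 g1)
  have g4 : ∀ s : Finset F, ∑ f ∈ s, ad_qprop κ Q f ≤ G := fun s => by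
    refine sub_nonneg.1 (WL.nonneg (l := atTop)
      (T := fun t : Finset F => ∑ f ∈ t, ad_qprop κ Q f - ∑ f ∈ s, ad_qprop κ Q f)
      ((WL.of_sot fun ζ => ?_).sub (WL.const _)) ((eventually_ge_atTop s).mono fun t ht =>
        sub_nonneg.2 (Finset.sum_le_sum_of_subset_of_nonneg ht fun f _ _ => q2 f)))
    simp only [sum_apply]
    exact g2 ζ
  have gC : ∀ c ∈ C, Commute c G := fun c hc => by
    ext ζ
    refine ((g2 ζ).mapL c).unique ?_
    have e : ∀ f, c (ad_qprop κ Q f ζ) = ad_qprop κ Q f (c ζ) := fun f =>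
      DFunLike.congr_fun (ad_comm_qprop hCκ qC f c hc).eq ζ
    simp only [e]
    exact g2 (c ζ)
  have gκ : ∀ h, Commute (κ h) G := fun h => by
    ext ζ
    refine ((g2 ζ).mapL (κ h)).unique ?_
    have e : ∀ f, κ h (ad_qprop κ Q f ζ) = ad_qprop κ Q (h * f) (κ h ζ) := fun f =>
      DFunLike.congr_fun (ad_shift_qprop Q h f) ζ
    simp only [e]
    exact (Equiv.mulLeft h).hasSum_iff.2 (g2 (κ h ζ))
  obtain ⟨y, y0, y1, y2⟩ : ∃ y : H →L[ℂ] H, 0 ≤ y ∧ y * y = 1 - G ∧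
      ∀ c, Commute c G → Commute c y :=
    ⟨CFC.sqrt (1 - G), CFC.sqrt_nonneg _, CFC.sqrt_mul_sqrt_self _ g3, fun c h =>
      (((Commute.one_right c).sub_right h).symm.cfcₙ_nnreal _).symm⟩
  have key : ∀ a ∈ P, ∀ ζ, E (star a (y ζ)) = 0 := fun a ha ζ => by
    have a1 : ∀ c, Commute (star c) a → Commute c (star a) := fun c h => by
      simpa using h.star_star
    have zκ : ∀ f, Commute (κ f) (ρ * star a * y) := fun f =>
      ((rκ f).mul_right (a1 _ (hκ f ▸ hP3 a ha f⁻¹))).mul_right (y2 _ (gκ f))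
    have zC : ∀ c ∈ C, Commute c (ρ * star a * y) := fun c hc =>
      ((rC c hc).mul_right (a1 _ (hP2 a ha _ (hC c hc)))).mul_right (y2 _ (gC c hc))
    have zs : star (ρ * star a * y) = y * a * ρ := by
      rw [star_mul, star_mul, star_star, r0.isSelfAdjoint.star_eq, y0.isSelfAdjoint.star_eq,
        mul_assoc]
    have z1 : ∀ s : Finset F, star (ρ * star a * y) * (∑ f ∈ s, ad_qprop κ E f) *
        (ρ * star a * y) ≤ 1 - G := fun s => by
      have b1 := star_right_conjugate_le_conjugate (r1 s) a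
      have b2 : a * star a ≤ 1 :=
        (CStarAlgebra.norm_le_one_iff_of_nonneg _ (mul_star_self_nonneg a)).1 (by
          rw [CStarRing.norm_self_mul_star]
          exact mul_le_one₀ (hP1 a ha) (norm_nonneg _) (hP1 a ha))
      rw [mul_one] at b1
      have b3 := y0.isSelfAdjoint.conjugate_le_conjugate (b1.trans b2)
      rw [mul_one, y1] at b3
      rw [zs]
      simpa only [mul_assoc] using b3
    have z2 : ρ * star a * y = ρ * (star a * y) := mul_assoc _ _ _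
    generalize ρ * star a * y = Z at zκ zC z1 z2
    have z3 := star_left_conjugate_nonneg hE.nonneg Z
    have z4 := qm (y := Q + star Z * E * Z) ⟨add_nonneg q0 z3, fun c hc => (qC c hc).add_right
      (((by simpa using (zC _ (hC c hc)).star_star : Commute c (star Z)).mul_right
        (hEC c hc)).mul_right (zC c hc)), fun s => by
      have e : ∀ f, ad_qprop κ (Q + star Z * E * Z) f =
          ad_qprop κ Q f + star Z * ad_qprop κ E f * Z := fun f => by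
        rw [← ad_conj_qprop hκ E zκ, ad_qprop, ad_qprop, ad_qprop, mul_add, add_mul]
      simp only [e]
      rw [Finset.sum_add_distrib, ← Finset.sum_mul, ← Finset.mul_sum]
      exact (add_le_add (g4 s) (z1 s)).trans_eq (add_sub_cancel _ _)⟩ (le_add_of_nonneg_right z3)
    have z5 : E * Z = 0 := by
      rw [← CStarRing.star_mul_self_eq_zero_iff, star_mul, hE.isSelfAdjoint.star_eq, mul_assoc,
        ← mul_assoc E, hE.isIdempotentElem.eq, ← mul_assoc]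
      exact le_antisymm (add_le_iff_nonpos_right _ |>.1 z4) z3
    have z6 : ρ (Z ζ) = Z ζ := r3 _ fun f => by
      have : ad_qprop κ E f * Z = 0 := by
        rw [ad_qprop, mul_assoc, (zκ f⁻¹).eq, mul_assoc, ← mul_assoc E, z5, zero_mul, mul_zero]
      exact DFunLike.congr_fun this ζ
    have z7 : Z ζ = ρ (star a (y ζ)) := by rw [z2]; rfl
    have z8 : Z ζ = star a (y ζ) := sub_eq_zero.1 (r2 _ (by rw [map_sub, z6, z7, sub_self]))
    rw [← z8]
    exact DFunLike.congr_fun z5 ζ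
  have y3 : y = 0 := by
    ext ζ
    exact hP4 _ fun a ha => key a ha ζ
  rw [y3, mul_zero, eq_comm, sub_eq_zero] at y1
  refine ⟨Q, q0, qC, fun ζ => ?_⟩
  have := g2 ζ
  rwa [← y1] at this

end Ulam
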