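import Pool.Agent.P.MP_3be8c7_an.QID2
import Pool.Agent.P.MP_3be8c7_an.QEMB
import Pool.Agent.P.MP_3be8c7_an.QL2B
import Pool.Agent.P.MP_3be8c7_an.VB

open scoped ComplexOrder InnerProductSpace
open Filter Topology
open ContinuousLinearMap (adjoint)

noncomputable section

namespace Ulam

universe u v w

variable {A : Type u} [NonUnitalCStarAlgebra A] [PartialOrder A] [StarOrderedRing A]
variable {H : Type u} [NormedAddCommGroup H] [InnerProductSpace ℂ H] [CompleteSpace H]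

section Aux

variable {K : Type v} [NormedAddCommGroup K] [InnerProductSpace ℂ K] [CompleteSpace K]
variable {K' : Type w} [NormedAddCommGroup K'] [InnerProductSpace ℂ K'] [CompleteSpace K']

theorem adj_itw_qrho {u : K →L[ℂ] K} {w : K' →L[ℂ] K'} {y : K' →L[ℂ] K}
    (hu : u ∈ unitary (K →L[ℂ] K)) (hw : w ∈ unitary (K' →L[ℂ] K')) (h : u ∘L y = y ∘L w) :
    adjoint y ∘L u = w ∘L adjoint y := by
  have h1 := congrArg adjoint h
  rw [ContinuousLinearMap.adjoint_comp, ContinuousLinearMap.adjoint_comp] at h1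
  ext ζ
  have h2 : adjoint u (u ζ) = ζ := DFunLike.congr_fun hu.1 ζ
  have h3 : ∀ η, w (adjoint w η) = η := fun η => DFunLike.congr_fun hw.2 η
  have h4 : adjoint y (adjoint u (u ζ)) = adjoint w (adjoint y (u ζ)) :=
    DFunLike.congr_fun h1 (u ζ)
  rw [h2] at h4
  simp only [ContinuousLinearMap.comp_apply]
  rw [h4, h3]

theorem normsq_qrho {I : Type*} {V : I → (K →L[ℂ] K')} {ζ η : K}
    (h : HasSum (fun i => adjoint (V i) (V i ζ)) η) :
    HasSum (fun i => ‖V i ζ‖ ^ 2) (RCLike.re ⟪ζ, η⟫_ℂ) := by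
  have h1 := (RCLike.reCLM (K := ℂ)).hasSum ((innerSL ℂ ζ).hasSum h)
  simpa only [innerSL_apply_apply, ContinuousLinearMap.adjoint_inner_right, RCLike.reCLM_apply,
    inner_self_eq_norm_sq] using h1

theorem qy_qrho {y : K' →L[ℂ] K} (h : IsStarProjection (y ∘L adjoint y)) (ξ : K') :
    (1 - y ∘L adjoint y) (y ξ) = 0 := by
  have h1 : ∀ ζ, adjoint y ((1 - y ∘L adjoint y) ζ) = 0 := fun ζ => by
    have h2 : y (adjoint y ((1 - y ∘L adjoint y) ζ)) = 0 :=
      DFunLike.congr_fun h.mul_one_sub_self ζ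
    rw [← inner_self_eq_zero (𝕜 := ℂ), ContinuousLinearMap.adjoint_inner_left, h2,
      inner_zero_right]
  have h3 : adjoint (1 - y ∘L adjoint y) = 1 - y ∘L adjoint y := h.one_sub.isSelfAdjoint
  rw [← inner_self_eq_zero (𝕜 := ℂ), ← ContinuousLinearMap.adjoint_inner_right, h3,
    ← ContinuousLinearMap.adjoint_inner_right, h1, inner_zero_right]

/-- Compression by an isometry. -/
def conj_qrho {A : Type*} [NonUnitalCStarAlgebra A] (σ : A →⋆ₙₐ[ℂ] (K →L[ℂ] K))
    (W : K →L[ℂ] K') (hW : ∀ ζ, adjoint W (W ζ) = ζ) : A →⋆ₙₐ[ℂ] (K' →L[ℂ] K') where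
  toFun x := W ∘L σ x ∘L adjoint W
  map_smul' c x := by
    ext ζ
    simp
  map_zero' := by simp
  map_add' x y := by
    ext ζ
    simp
  map_mul' x y := by
    ext ζ
    simp [hW]
  map_star' x := by
    rw [map_star, ContinuousLinearMap.star_eq_adjoint, ContinuousLinearMap.star_eq_adjoint,
      ContinuousLinearMap.adjoint_comp, ContinuousLinearMap.adjoint_comp,
      ContinuousLinearMap.adjoint_adjoint, ContinuousLinearMap.comp_assoc]

end Aux

theorem exists_rho (D : NonUnitalStarSubalgebra ℂ A) [IsClosed (D : Set A)] (hD : IsHereditary D)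
    (π : D →⋆ₙₐ[ℂ] (H →L[ℂ] H)) :
    ∃ (I : Type u) (K : Type u) (_ : NormedAddCommGroup K) (_ : InnerProductSpace ℂ K)
      (_ : CompleteSpace K) (ε : I → (H →L[ℂ] K)) (i₀ : I) (ρ : A →⋆ₙₐ[ℂ] (K →L[ℂ] K)),
      IsL2 ε ∧ (∀ x T, (∀ d, Commute T (π d)) → ∀ i j, Commute T (ent ε (ρ x) i j)) ∧
      ∀ d : D, ρ d = ε i₀ ∘L π d ∘L adjoint (ε i₀) := by
  obtain ⟨K, _, _, _, σ, t, α, h1, h2, h3, h4⟩ := idr1 D hD π
  obtain ⟨y, y1, y2, y3, y4⟩ := idr2 D hD π σ t h1 h2 h3
  let X := {w : H →L[ℂ] H // w ∈ unitary (H →L[ℂ] H) ∧ ∀ d, Commute w (π d)}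
  have hα : ∀ x : X, α x.1 ∈ unitary (K →L[ℂ] K) := fun x => (h4 x.1 x.2.1 x.2.2).1
  have hy : ∀ x : X, α x.1 ∘L y = y ∘L x.1 := fun x =>
    y4 x.1 x.2.1 x.2.2 _ (h4 x.1 x.2.1 x.2.2).2.2
  have hy' : ∀ x : X, adjoint y ∘L α x.1 = x.1 ∘L adjoint y := fun x =>
    adj_itw_qrho (hα x) x.2.1 (hy x)
  obtain ⟨I, V0, v1, v2⟩ := emb (fun x : X => α x.1) (fun x : X => x.1) hα (fun x => x.2.1)
    (fun ζ h => h2 ζ fun a ha => h (t a) fun x => (h4 x.1 x.2.1 x.2.2).2.2 a ha) y1.one_sub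
    fun x => (Commute.one_left _).sub_left (by
      change (y ∘L adjoint y) ∘L α x.1 = α x.1 ∘L y ∘L adjoint y
      rw [ContinuousLinearMap.comp_assoc, hy', ← ContinuousLinearMap.comp_assoc, ← hy,
        ContinuousLinearMap.comp_assoc])
  let V : Unit ⊕ I → (K →L[ℂ] H) := Sum.elim (fun _ => adjoint y) V0
  have hV : ∀ i (x : X), V i ∘L α x.1 = x.1 ∘L V i := by
    rintro (i | i) x
    exacts [hy' x, v1 i x]
  have hS : ∀ ζ, HasSum (fun i => adjoint (V i) (V i ζ)) ζ := fun ζ => by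
    have a1 : HasSum ((fun i => adjoint (V i) (V i ζ)) ∘ Sum.inl) (y (adjoint y ζ)) := by
      simpa [V] using hasSum_unique ((fun i => adjoint (V i) (V i ζ)) ∘ Sum.inl)
    simpa using a1.sum (v2 ζ)
  obtain ⟨L, _, _, _, ε, hε⟩ := exists_l2 (Unit ⊕ I) H
  obtain ⟨W, -, hW⟩ := hε.col V zero_le_one fun s ζ => by
    have a1 := normsq_qrho (hS ζ)
    rw [inner_self_eq_norm_sq] at a1
    rw [one_mul]
    exact sum_le_hasSum s (fun i _ => sq_nonneg _) a1
  have hW' : ∀ i, adjoint W ∘L ε i = adjoint (V i) := fun i => by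
    rw [← hW i, ContinuousLinearMap.adjoint_comp, ContinuousLinearMap.adjoint_adjoint]
  have hWW : ∀ ζ, adjoint W (W ζ) = ζ := fun ζ => by
    refine ((adjoint W).hasSum (hε.total (W ζ))).unique ?_
    have a1 : ∀ i, adjoint W (ε i (adjoint (ε i) (W ζ))) = adjoint (V i) (V i ζ) := fun i => by
      rw [← hW' i, ← hW i]
      rfl
    simpa only [a1] using hS ζ
  have he : ∀ x i j, ent ε (conj_qrho σ W hWW x) i j = V i ∘L σ x ∘L adjoint (V j) :=
    fun x i j => by
      rw [← hW' j, ← hW i]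
      rfl
  refine ⟨Unit ⊕ I, L, inferInstance, inferInstance, inferInstance, ε, Sum.inl (),
    conj_qrho σ W hWW, hε, fun x T hT i j => ?_, fun d => hε.ext_ent fun i j => ?_⟩
  · refine (vn_commute_of_unitary (vnC (Set.range π)) (fun w hw hw' => ?_) T ?_).symm
    · let z : X := ⟨w, hw', fun d => ((mem_vnC.1 hw) _ ⟨d, rfl⟩).1.symm⟩
      have a1 : V i ∘L α w = w ∘L V i := hV i z
      have a2 : adjoint (V j) ∘L w = α w ∘L adjoint (V j) :=
        adj_itw_qrho hw' (hα z) (hV j z).symm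
      have a3 : α w ∘L σ x = σ x ∘L α w := (h4 w hw' z.2.2).2.1 x
      rw [he]
      change (V i ∘L σ x ∘L adjoint (V j)) ∘L w = w ∘L V i ∘L σ x ∘L adjoint (V j)
      rw [ContinuousLinearMap.comp_assoc, ContinuousLinearMap.comp_assoc, a2,
        ← ContinuousLinearMap.comp_assoc (σ x), ← a3, ← ContinuousLinearMap.comp_assoc w, ← a1,
        ContinuousLinearMap.comp_assoc, ContinuousLinearMap.comp_assoc]
    · refine mem_vnC.2 ?_
      rintro _ ⟨d, rfl⟩
      exact ⟨(hT d).symm, by simpa only [map_star] using (hT (star d)).symm⟩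
  · have a1 : ∀ i (d : D), V i ∘L y ∘L π d = adjoint (ε i) ∘L ε (Sum.inl ()) ∘L π d := by
      rintro (i | i) d
      · rw [← ContinuousLinearMap.comp_assoc (adjoint (ε _)), hε.self]
        exact y3 d
      · rw [← ContinuousLinearMap.comp_assoc (adjoint (ε _)), hε.ne _ _ (by simp)]
        ext ξ
        have a2 := normsq_qrho (v2 (y (π d ξ)))
        rw [qy_qrho y1, inner_zero_right, map_zero] at a2
        have a3 := le_hasSum a2 i fun _ _ => sq_nonneg _
        simpa [V] using a3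
    have a2 : π d ∘L adjoint y ∘L adjoint (V j) = π d ∘L adjoint (ε (Sum.inl ())) ∘L ε j := by
      have a3 := congrArg adjoint (a1 j (star d))
      simpa only [ContinuousLinearMap.adjoint_comp, map_star, ContinuousLinearMap.star_eq_adjoint,
        ContinuousLinearMap.adjoint_adjoint, ContinuousLinearMap.comp_assoc] using a3
    rw [he, y2, ent]
    simp only [ContinuousLinearMap.comp_assoc]
    rw [a2, ← ContinuousLinearMap.comp_assoc y, ← ContinuousLinearMap.comp_assoc (V i), a1]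
    simp only [ContinuousLinearMap.comp_assoc]

end Ulam
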