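import Pool.Agent.P.MP_3be8c7_an.QMO
import Pool.Agent.P.MP_3be8c7_an.QMONO
import Pool.Agent.P.MP_3be8c7_an.VB

open scoped ComplexOrder InnerProductSpace
open Filter Topology
open ContinuousLinearMap (adjoint)

noncomputable section

namespace Ulam

universe u v w

variable {H : Type v} [NormedAddCommGroup H] [InnerProductSpace ℂ H] [CompleteSpace H]

/-- Minimax for finitely many constraints. -/
theorem fin_qrnl {X W Z : Type*} [AddCommGroup X] [Module ℝ X] [AddCommGroup W] [Module ℝ W]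
    {E : Set X} (hE : Convex ℝ E) (hne : E.Nonempty) (g : W →ₗ[ℝ] X →ₗ[ℝ] ℝ) (y : Z → W)
    (c : Z → ℝ) (hconv : ∀ z z' (t : ℝ), 0 ≤ t → t ≤ 1 →
      ∃ z'', y z'' = t • y z + (1 - t) • y z' ∧ t * c z + (1 - t) * c z' ≤ c z'')
    (h : ∀ z (δ : ℝ), 0 < δ → ∃ T ∈ E, c z - δ ≤ g (y z) T) (F : Finset Z) {δ : ℝ} (hδ : 0 < δ) :
    ∃ T ∈ E, ∀ z ∈ F, c z - δ ≤ g (y z) T := by
  classical
  by_contra hn
  have hn' : ∀ T ∈ E, ∃ z : F, g (y z) T < c z - δ := fun T hT => by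
    by_contra h2
    exact hn ⟨T, hT, fun z hz => not_lt.1 fun h3 => h2 ⟨⟨z, hz⟩, h3⟩⟩
  obtain ⟨T0, hT0⟩ := hne
  have : Nonempty F := ⟨(hn' T0 hT0).choose⟩
  have hle : ∀ (x : F → ℝ) (z : F), x z ≤ ⨆ z, x z := fun x z =>
    le_ciSup (Finite.bddAbove_range x) z
  obtain ⟨f, f1, f2⟩ := mo (E := F → ℝ) (fun x => ⨆ z, x z)
    (fun x x' => ciSup_le fun z => add_le_add (hle x z) (hle x' z))
    (fun a x ha => (Real.mul_iSup_of_nonneg ha.le x).symm)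
    ((fun T => fun z : F => c z - g (y z) T) '' E) (by
      rintro _ ⟨T, hT, rfl⟩ _ ⟨T', hT', rfl⟩ a b ha hb hab
      refine ⟨a • T + b • T', hE hT hT' ha hb hab, funext fun z => ?_⟩
      simp only [map_add, map_smul, smul_eq_mul, Pi.add_apply, Pi.smul_apply]
      linear_combination (-c z) * hab) ⟨_, T0, hT0, rfl⟩ (c := δ) (by
      rintro _ ⟨T, hT, rfl⟩
      obtain ⟨z, hz⟩ := hn' T hT
      exact le_trans (by linarith) (hle _ z))
  set lam : F → ℝ := fun z => f (Pi.single z 1) with hlam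
  have hf : ∀ x : F → ℝ, f x = ∑ z, lam z * x z := fun x => by
    conv_lhs => rw [pi_eq_sum_univ' x, map_sum]
    refine Finset.sum_congr rfl fun z _ => ?_
    rw [map_smul, smul_eq_mul, mul_comm]
  have l0 : ∀ z, 0 ≤ lam z := fun z => by
    have h1 := f1 (-Pi.single z 1)
    have h2 : (⨆ z' : F, (-Pi.single z (1 : ℝ) : F → ℝ) z') ≤ 0 := ciSup_le fun z' => by
      rw [Pi.neg_apply, neg_nonpos]
      rw [Pi.single_apply]
      split_ifs <;> norm_num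
    rw [map_neg] at h1
    linarith
  have l1 : ∑ z, lam z = 1 := by
    have h1 := f1 fun _ => 1
    have h2 := f1 fun _ => -1
    rw [hf, ciSup_const] at h1 h2
    simp only [mul_one, mul_neg, Finset.sum_neg_distrib] at h1 h2
    linarith
  have hS : Convex ℝ {p : W × ℝ | ∃ z, p.1 = y z ∧ p.2 ≤ c z} := by
    rintro ⟨w, s⟩ ⟨z, rfl, hz⟩ ⟨w', s'⟩ ⟨z', rfl, hz'⟩ a b ha hb hab
    obtain rfl : b = 1 - a := by linarith
    obtain ⟨z2, e1, e2⟩ := hconv z z' a ha (by linarith)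
    refine ⟨z2, e1.symm, le_trans ?_ e2⟩
    exact add_le_add (mul_le_mul_of_nonneg_left hz ha) (mul_le_mul_of_nonneg_left hz' hb)
  obtain ⟨z, e1, e2⟩ := hS.sum_mem (t := Finset.univ) (w := lam) (z := fun z : F => (y z, c z))
    (fun z _ => l0 z) l1 fun z _ => ⟨z, rfl, le_rfl⟩
  obtain ⟨T, hT, h3⟩ := h z (δ / 2) (half_pos hδ)
  have h4 := f2 _ ⟨T, hT, rfl⟩
  rw [hf] at h4
  rw [Prod.fst_sum] at e1
  rw [Prod.snd_sum] at e2
  rw [← e1, map_sum, LinearMap.sum_apply] at h3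
  simp only [Prod.smul_fst, Prod.smul_snd, map_smul, LinearMap.smul_apply, smul_eq_mul, mul_sub,
    Finset.sum_sub_distrib] at h3 h4 e2
  linarith

/-- The pairing. -/
def pair_qrnl {ι : Type*} [Fintype ι] (ξ : ι → H) : (ι → H) →ₗ[ℝ] (H →L[ℂ] H) →ₗ[ℝ] ℝ :=
  LinearMap.mk₂ ℝ (fun w T => (∑ i, ⟪w i, T (ξ i)⟫_ℂ).re)
    (fun w w' T => by
      simp only [Pi.add_apply, inner_add_left, Finset.sum_add_distrib, Complex.add_re])
    (fun a w T => by
      have e : ∀ i, ⟪(a • w) i, T (ξ i)⟫_ℂ = (a : ℂ) * ⟪w i, T (ξ i)⟫_ℂ := fun i => by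
        rw [Pi.smul_apply, ← Complex.coe_smul, inner_smul_left, Complex.conj_ofReal]
      simp only [e, ← Finset.mul_sum, Complex.re_ofReal_mul, smul_eq_mul])
    (fun w T T' => by
      simp only [add_apply, inner_add_right, Finset.sum_add_distrib, Complex.add_re])
    (fun a w T => by
      have e : ∀ i, ⟪w i, (a • T) (ξ i)⟫_ℂ = (a : ℂ) * ⟪w i, T (ξ i)⟫_ℂ := fun i => by
        rw [smul_apply, ← Complex.coe_smul, inner_smul_right]
      simp only [e, ← Finset.mul_sum, Complex.re_ofReal_mul, smul_eq_mul])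

/-- Minimax for the order interval of a von Neumann algebra. -/
theorem rnl (N : VonNeumannAlgebra H) {ι : Type*} [Fintype ι] (ξ : ι → H) {V : ℝ} (hV : 0 ≤ V)
    {Z : Type*} [Nonempty Z] (y : Z → ι → H) (c : Z → ℝ)
    (hconv : ∀ z z' (t : ℝ), 0 ≤ t → t ≤ 1 →
      ∃ z'', y z'' = t • y z + (1 - t) • y z' ∧ t * c z + (1 - t) * c z' ≤ c z'')
    (h : ∀ z (δ : ℝ), 0 < δ → ∃ T ∈ N, 0 ≤ T ∧ T ≤ V • (1 : H →L[ℂ] H) ∧
      c z - δ ≤ (∑ i, ⟪y z i, T (ξ i)⟫_ℂ).re) :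
    ∃ T ∈ N, 0 ≤ T ∧ T ≤ V • (1 : H →L[ℂ] H) ∧ ∀ z, c z ≤ (∑ i, ⟪y z i, T (ξ i)⟫_ℂ).re := by
  classical
  have hE : Convex ℝ {T : H →L[ℂ] H | T ∈ N ∧ 0 ≤ T ∧ T ≤ V • (1 : H →L[ℂ] H)} := by
    intro T hT T' hT' a b ha hb hab
    refine ⟨vn_convex N hT.1 hT'.1 ha hb hab,
      add_nonneg (smul_nonneg ha hT.2.1) (smul_nonneg hb hT'.2.1), ?_⟩
    calc a • T + b • T' ≤ a • V • (1 : H →L[ℂ] H) + b • V • (1 : H →L[ℂ] H) :=
          add_le_add (smul_le_smul_of_nonneg_left hT.2.2 ha)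
            (smul_le_smul_of_nonneg_left hT'.2.2 hb)
      _ = _ := by rw [← add_smul, hab, one_smul]
  have key := fun p : Finset Z × ℕ => fin_qrnl hE
    ⟨0, zero_mem N, le_rfl, smul_nonneg hV zero_le_one⟩ (pair_qrnl ξ) y c hconv
    (fun z δ hδ => by
      obtain ⟨T, h1, h2, h3, h4⟩ := h z δ hδ
      exact ⟨T, ⟨h1, h2, h3⟩, h4⟩) p.1 (Nat.one_div_pos_of_nat (n := p.2))
  choose T hT hT' using key
  set l : Ultrafilter (Finset Z × ℕ) := Ultrafilter.of atTop with hl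
  have hle : (l : Filter (Finset Z × ℕ)) ≤ atTop := Ultrafilter.of_le _
  obtain ⟨S, -, hS⟩ := ulim l T (C := ‖V • (1 : H →L[ℂ] H)‖)
    (Eventually.of_forall fun p => CStarAlgebra.norm_le_norm_of_nonneg_of_le (hT p).2.1 (hT p).2.2)
  refine ⟨S, hS.mem N (Eventually.of_forall fun p => (hT p).1),
    hS.nonneg (Eventually.of_forall fun p => (hT p).2.1), sub_nonneg.1
      (((WL.const _).sub hS).nonneg (Eventually.of_forall fun p => sub_nonneg.2 (hT p).2.2)),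
    fun z => ?_⟩
  have t1 : Tendsto (fun p => (∑ i, ⟪y z i, T p (ξ i)⟫_ℂ).re) l
      (𝓝 (∑ i, ⟪y z i, S (ξ i)⟫_ℂ).re) :=
    (Complex.continuous_re.tendsto _).comp (tendsto_finsetSum _ fun i _ => hS (ξ i) (y z i))
  have t2 : Tendsto (fun p : Finset Z × ℕ => c z - 1 / ((p.2 : ℝ) + 1)) l (𝓝 (c z - 0)) :=
    (tendsto_const_nhds.sub (tendsto_one_div_add_atTop_nhds_zero_nat.comp
      (tendsto_atTop_atTop.2 fun n => ⟨(∅, n), fun p hp => (Prod.le_def.1 hp).2⟩))).mono_left hle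
  rw [sub_zero] at t2
  refine le_of_tendsto_of_tendsto t2 t1 (hle ?_)
  filter_upwards [eventually_ge_atTop (({z}, 0) : Finset Z × ℕ)] with p hp
  exact hT' p z ((Prod.le_def.1 hp).1 (Finset.mem_singleton_self z))

end Ulam
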