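import Pool.Agent.P.MP_3be8c7_an.QD
import Pool.Agent.P.MP_3be8c7_an.AVG
import Pool.Agent.P.MP_3be8c7_an.BUB
import Pool.Agent.P.MP_3be8c7_an.OZB
import Pool.Agent.P.MP_3be8c7_an.VB
import Pool.Agent.P.MP_3be8c7_an.RAND

open scoped ComplexOrder InnerProductSpace
open Filter Topology
open ContinuousLinearMap (adjoint)

noncomputable section

namespace Ulam

universe u v w

variable {H : Type v} [NormedAddCommGroup H] [InnerProductSpace ℂ H] [CompleteSpace H]

theorem sign_qrow {I : Type} [Fintype I] [DecidableEq I] (i j : I) :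
    av (fun s : I → Bool => (if s i then (1 : ℂ) else -1) * (if s j then (1 : ℂ) else -1)) =
      if i = j then 1 else 0 := by
  by_cases hij : i = j
  · subst hij
    rw [if_pos rfl]
    refine Eq.trans (congrArg av (funext fun s => ?_)) (av_const (ι := I → Bool) (1 : ℂ))
    cases s i <;> simp
  · rw [if_neg hij]
    have hinv : Function.Involutive fun s : I → Bool => Function.update s i (!s i) := fun s => by
      simp
    have h1 := av_equiv hinv.toPerm
      fun s : I → Bool => (if s i then (1 : ℂ) else -1) * (if s j then (1 : ℂ) else -1)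
    have h2 : (fun s : I → Bool => (if hinv.toPerm _ s i then (1 : ℂ) else -1) *
        (if hinv.toPerm _ s j then (1 : ℂ) else -1)) = fun s : I → Bool =>
        (-1 : ℂ) • ((if s i then (1 : ℂ) else -1) * (if s j then (1 : ℂ) else -1)) := by
      funext s
      simp only [Function.Involutive.coe_toPerm, Function.update_self,
        Function.update_of_ne (Ne.symm hij)]
      cases s i <;> cases s j <;> simp
    rw [h2, av_smul, smul_eq_mul] at h1
    linear_combination (-1 / 2 : ℂ) * h1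

theorem row_qrow {I : Type} [Fintype I] [DecidableEq I] (w : I → (H →L[ℂ] H)) {q : H →L[ℂ] H}
    (hq : IsStarProjection q) (hww : ∀ j k, star (w j) * w k = if j = k then q else 0)
    (ξ : I → H) : ‖∑ j, w j (ξ j)‖ ≤ √(∑ j, ‖ξ j‖ ^ 2) := by
  refine Real.le_sqrt_of_sq_le ?_
  have h1 : ∀ j k, ⟪w j (ξ j), w k (ξ k)⟫_ℂ = if j = k then ⟪ξ j, q (ξ j)⟫_ℂ else 0 := by
    intro j k
    rw [← ContinuousLinearMap.adjoint_inner_right, ← ContinuousLinearMap.star_eq_adjoint,
      ← mul_apply_eq_comp, hww]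
    split_ifs with e
    · rw [e]
    · simp
  rw [← inner_self_eq_norm_sq (𝕜 := ℂ), sum_inner, map_sum]
  refine Finset.sum_le_sum fun j _ => ?_
  rw [inner_sum]
  simp only [h1, Finset.sum_ite_eq, Finset.mem_univ, if_true]
  refine (re_inner_le_norm _ _).trans ?_
  rw [sq]
  exact mul_le_mul_of_nonneg_left (proj_norm_apply_le hq _) (norm_nonneg _)

theorem diag_qrow (N : VonNeumannAlgebra H) (T : H →L[ℂ] H) {ν : ℝ} (hν : 0 ≤ ν)
    (h : ∀ y ∈ N, ‖T * y - y * T‖ ≤ ν * ‖y‖) {I : Type} [Fintype I] [DecidableEq I]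
    (e : I → (H →L[ℂ] H)) (he : ∀ j, e j ∈ N) (hp : ∀ j, IsStarProjection (e j))
    (ho : ∀ i j, i ≠ j → e i * e j = 0) :
    ‖T * ∑ i, e i - ∑ i, e i * T * e i‖ ≤ ν := by
  set U : (I → Bool) → (H →L[ℂ] H) := fun s => ∑ i, (if s i then (1 : ℂ) else -1) • e i with hU
  have hee : ∀ i j, e i * e j = if i = j then e i else 0 := fun i j => by
    split_ifs with a
    · rw [← a, (hp i).isIdempotentElem.eq]
    · exact ho i j a
  have h1 : ∀ s, U s * U s = ∑ i, e i := fun s => by
    simp only [hU, Finset.sum_mul, Finset.mul_sum, smul_mul_assoc, mul_smul_comm, hee, smul_ite,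
      smul_zero, Finset.sum_ite_eq', Finset.mem_univ, if_true, smul_smul]
    refine Finset.sum_congr rfl fun i _ => ?_
    cases s i <;> simp
  have h2 : ∀ s, star (U s) = U s := fun s => by
    simp only [hU, star_sum, star_smul, fun i => (hp i).isSelfAdjoint.star_eq]
    refine Finset.sum_congr rfl fun i _ => ?_
    cases s i <;> simp
  have h3 : ∀ s, ‖U s‖ ≤ 1 := fun s => pi_norm_le (by
    rw [h2, h1]; exact isStarProjection_sum _ e hp ho)
  have h4 : ∀ s, U s ∈ N := fun s => sum_mem fun i _ => vn_smul_mem N _ (he i)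
  have h5 : av (fun s => U s * T * U s) = ∑ i, e i * T * e i := by
    simp only [hU, Finset.sum_mul, Finset.mul_sum, smul_mul_assoc, mul_smul_comm,
      Finset.smul_sum, smul_smul, av_sum, av_smul_const_rand, sign_qrow]
    simp only [ite_smul, one_smul, zero_smul, Finset.sum_ite_eq, Finset.mem_univ, if_true]
  have h6 : T * ∑ i, e i - ∑ i, e i * T * e i = av fun s => (T * U s - U s * T) * U s := by
    simp only [sub_mul, mul_assoc T, h1, av_sub, av_const, h5]
  rw [h6]
  refine norm_av_le_of_le _ hν fun s => (norm_mul_le _ _).trans ?_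
  have a1 := (h _ (h4 s)).trans (mul_le_of_le_one_right hν (h3 s))
  exact (mul_le_mul a1 (h3 s) (norm_nonneg _) hν).trans_eq (mul_one _)

theorem row_bound (N : VonNeumannAlgebra H) (T : H →L[ℂ] H) {ν : ℝ} (hν : 0 ≤ ν)
    (h : ∀ y ∈ N, ‖T * y - y * T‖ ≤ ν * ‖y‖) {I : Type} [Fintype I] [DecidableEq I]
    (w : I → (H →L[ℂ] H)) (hw : ∀ j, w j ∈ N) {q : H →L[ℂ] H} (hq : IsStarProjection q)
    (hww : ∀ j k, star (w j) * w k = if j = k then q else 0) (ζ : I → H) :
    ‖∑ j, (T * w j - w j * T) (ζ j)‖ ≤ 10 * ν * √(∑ j, ‖ζ j‖ ^ 2) := by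
  have hp : ∀ j, IsStarProjection (star (w j) * w j) := fun j => by rw [hww, if_pos rfl]; exact hq
  have hew : ∀ i j, w i * star (w i) * w j = if i = j then w j else 0 := fun i j => by
    split_ifs with a
    · rw [a, mul_assoc, pi_mul (hp j)]
    · rw [mul_assoc, hww, if_neg a, mul_zero]
  have hA := diag_qrow N T hν h (fun i => w i * star (w i))
    (fun i => mul_mem (hw i) (star_mem (hw i))) (fun i => pi_star (hp i)) fun i j a => by
      rw [← mul_assoc, hew, if_neg a, zero_mul]
  set A := T * ∑ i, w i * star (w i) - ∑ i, w i * star (w i) * T * (w i * star (w i)) with hAd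
  have hB : ∀ j, ‖star (w j) * (T * w j - w j * T)‖ ≤ ν := fun j => by
    have a1 := (h _ (hw j)).trans (mul_le_of_le_one_right hν (pi_norm_le (hp j)))
    refine (norm_mul_le _ _).trans ?_
    rw [norm_star]
    exact (mul_le_mul (pi_norm_le (hp j)) a1 (norm_nonneg _) zero_le_one).trans_eq (one_mul _)
  have hid : ∀ j, T * w j - w j * T = A * w j + w j * (star (w j) * (T * w j - w j * T)) := by
    intro j
    have b1 : (∑ i, w i * star (w i)) * w j = w j := by
      simp only [Finset.sum_mul, hew, Finset.sum_ite_eq', Finset.mem_univ, if_true]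
    have b2 : (∑ i, w i * star (w i) * T * (w i * star (w i))) * w j =
        w j * star (w j) * T * w j := by
      simp only [Finset.sum_mul, mul_assoc _ (w _ * star (w _)) (w j), hew, mul_ite, mul_zero,
        Finset.sum_ite_eq', Finset.mem_univ, if_true]
    have b3 := hew j j
    rw [if_pos rfl] at b3
    rw [hAd, sub_mul, mul_assoc T, b1, b2, ← mul_assoc (w j), mul_sub (w j * star (w j)),
      ← mul_assoc, ← mul_assoc, b3]
    abel
  have hsum : ∑ j, (T * w j - w j * T) (ζ j) =
      A (∑ j, w j (ζ j)) + ∑ j, w j ((star (w j) * (T * w j - w j * T)) (ζ j)) := by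
    rw [map_sum, ← Finset.sum_add_distrib]
    refine Finset.sum_congr rfl fun j _ => ?_
    exact (congrArg (fun X : H →L[ℂ] H => X (ζ j)) (hid j)).trans rfl
  have c1 : ‖A (∑ j, w j (ζ j))‖ ≤ ν * √(∑ j, ‖ζ j‖ ^ 2) :=
    (A.le_opNorm _).trans (mul_le_mul hA (row_qrow w hq hww ζ) (norm_nonneg _) hν)
  have c2 : ‖∑ j, w j ((star (w j) * (T * w j - w j * T)) (ζ j))‖ ≤ ν * √(∑ j, ‖ζ j‖ ^ 2) := by
    refine (row_qrow w hq hww _).trans ?_
    rw [← Real.sqrt_sq hν, ← Real.sqrt_mul (sq_nonneg ν), Finset.mul_sum]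
    refine Real.sqrt_le_sqrt (Finset.sum_le_sum fun j _ => ?_)
    rw [← mul_pow]
    exact pow_le_pow_left₀ (norm_nonneg _) ((ContinuousLinearMap.le_opNorm _ _).trans
      (mul_le_mul_of_nonneg_right (hB j) (norm_nonneg _))) 2
  have c3 : 0 ≤ ν * √(∑ j, ‖ζ j‖ ^ 2) := mul_nonneg hν (Real.sqrt_nonneg _)
  rw [hsum]
  refine (norm_add_le _ _).trans ?_
  linarith

end Ulam
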