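import Pool.Agent.P.MP_3be8c7_an.QCOC
import Pool.Agent.P.MP_3be8c7_an.QFIX
import Pool.Agent.P.MP_3be8c7_an.VB

open scoped ComplexOrder InnerProductSpace
open Filter Topology
open ContinuousLinearMap (adjoint)

noncomputable section

namespace Ulam

universe u v w

variable {H : Type v} [NormedAddCommGroup H] [InnerProductSpace ℂ H] [CompleteSpace H]
variable {K : Type w} [NormedAddCommGroup K] [InnerProductSpace ℂ K] [CompleteSpace K]
variable {ι R : Type} [DecidableEq ι] [Fintype R] [Nonempty R] {G : Type*} [Group G] {s : R → G}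
  {ω : FreeGroup ι → (FreeGroup ι × ι → R) → G}

theorem comm_qtw {E : Type} [DecidableEq E] (b : Bern E R H K) {S T : (E → R) → (H →L[ℂ] H)}
    (hS : Loc S) (hT : Loc T) (h : ∀ x, Commute (S x) (T x)) : Commute (b.M S) (b.M T) := by
  change _ = _
  rw [← b.mul _ _ hS hT, ← b.mul _ _ hT hS]
  exact congrArg b.M (funext h)

theorem Bern.isAmp {E : Type} [DecidableEq E] (b : Bern E R H K) : IsAmp b.C := by
  refine fun ζ h => b.total ζ fun t ht => ?_
  have h1 := h (Star.star (b.M fun x => t x • (1 : H →L[ℂ] H)) ∘L b.ι) fun T => by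
    have h2 := (comm_qtw b (Loc.const (Star.star T)) (ht.comp (· • (1 : H →L[ℂ] H)))
      fun x => (Commute.one_right _).smul_right _).star_star
    rw [b.const, ← map_star, star_star] at h2
    rw [← ContinuousLinearMap.comp_assoc, ← ContinuousLinearMap.mul_def, h2.eq,
      ContinuousLinearMap.mul_def, ContinuousLinearMap.comp_assoc, b.itw T,
      ContinuousLinearMap.comp_assoc]
  rwa [ContinuousLinearMap.adjoint_comp, ContinuousLinearMap.star_eq_adjoint,
    ContinuousLinearMap.adjoint_adjoint] at h1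

theorem Bern.commute_w {E : Type} [DecidableEq E] (b : Bern E R H K) (γ : Equiv.Perm E)
    (T : H →L[ℂ] H) : Commute (b.w γ) (b.C T) := by
  rw [← b.const]
  exact b.cov γ _ (Loc.const T)

theorem Bern.commute_M {E : Type} [DecidableEq E] (b : Bern E R H K) {S T : (E → R) → (H →L[ℂ] H)}
    (hS : Loc S) (hT : Loc T) (h : ∀ x, Commute (S x) (T x)) : Commute (b.M S) (b.M T) := by
  exact comm_qtw b hS hT h

omit [DecidableEq ι] [Fintype R] [Nonempty R] in
theorem tw_qtw (hω : IsCoc s ω) (κ : FreeGroup ι →* (K →L[ℂ] K)) (hκ : URep κ)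
    (Φ : ((FreeGroup ι × ι → R) → G) → (K →L[ℂ] K)) (h1 : Φ (fun _ => 1) = 1)
    (hm : ∀ y y', Loc y → Loc y' → Φ (fun x => y x * y' x) = Φ y * Φ y')
    (hs : ∀ y, Loc y → star (Φ y) * Φ y = 1)
    (hc : ∀ f y, Loc y → κ f * Φ y = Φ (fun x => y (x ∘ lft f)) * κ f) :
    ∃ ψ : FreeGroup ι →* (K →L[ℂ] K), URep ψ ∧ ∀ f, ψ f = Φ (ω f) * κ f := by
  let ψ : FreeGroup ι →* (K →L[ℂ] K) :=
    { toFun := fun f => Φ (ω f) * κ f
      map_one' := by rw [funext hω.one, h1, map_one, one_mul]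
      map_mul' := fun f f' => by
        rw [funext (hω.mul f f'), hm _ _ (hω.loc f) ((hω.loc f').perm _), map_mul, mul_assoc,
          mul_assoc, ← mul_assoc (κ f), hc f _ (hω.loc f'), mul_assoc] }
  refine ⟨ψ, fun f => ?_, fun _ => rfl⟩
  have h2 : star (ψ f) * ψ f = 1 := by
    change star (Φ (ω f) * κ f) * (Φ (ω f) * κ f) = 1
    rw [star_mul, mul_assoc, ← mul_assoc _ (Φ _), hs _ (hω.loc f), one_mul, (hκ.mem f).1]
  rw [← mul_one (star (ψ f)), ← map_one ψ, ← mul_inv_cancel f, map_mul, ← mul_assoc, h2, one_mul]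

section scalar

variable {E : Type} [DecidableEq E] (b : Bern E R H K) {t t' : (E → R) → ℂ} {V : Type*}
  {y : (E → R) → V}

/-- Multiplication by a scalar function. -/
def N_qtw (t : (E → R) → ℂ) : K →L[ℂ] K := b.M fun x => t x • (1 : H →L[ℂ] H)

theorem Nmul_qtw (h : Loc t) (h' : Loc t') :
    N_qtw b t * N_qtw b t' = N_qtw b fun x => t x * t' x := by
  rw [N_qtw, N_qtw, ← b.mul _ _ (h.comp (· • (1 : H →L[ℂ] H))) (h'.comp (· • (1 : H →L[ℂ] H)))]
  exact congrArg b.M (funext fun x => by simp [smul_smul, mul_comm])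

theorem Ncomm_qtw (h : Loc t) (h' : Loc t') : Commute (N_qtw b t) (N_qtw b t') := by
  change _ = _
  simp only [Nmul_qtw b h h', Nmul_qtw b h' h, mul_comm]

theorem Nzero_qtw : N_qtw b (fun _ => 0) = 0 := by rw [N_qtw, b.const, zero_smul, map_zero]

theorem None_qtw : N_qtw b (fun _ => 1) = 1 := by rw [N_qtw, b.const, one_smul, map_one]

theorem Nsum_qtw {I : Type*} (s : Finset I) (t : I → (E → R) → ℂ) (h : ∀ i, Loc (t i)) :
    (Loc fun x => ∑ i ∈ s, t i x) ∧ N_qtw b (fun x => ∑ i ∈ s, t i x) = ∑ i ∈ s, N_qtw b (t i) := by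
  classical
  induction s using Finset.induction_on with
  | empty => exact ⟨Loc.const 0, Nzero_qtw b⟩
  | insert i s hi ih =>
    simp only [Finset.sum_insert hi]
    refine ⟨(h i).map₂ ih.1 (· + ·), ?_⟩
    rw [← ih.2, N_qtw, N_qtw, N_qtw, ← b.add _ _ ((h i).comp (· • (1 : H →L[ℂ] H)))
      (ih.1.comp (· • (1 : H →L[ℂ] H)))]
    exact congrArg b.M (funext fun x => add_smul _ _ _)

open Classical in
/-- The projection on a level set. -/
def z_qtw (y : (E → R) → V) (g : V) : K →L[ℂ] K := N_qtw b fun x => if y x = g then 1 else 0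

omit [Fintype R] [Nonempty R] [DecidableEq E] in
open Classical in
theorem loc_qtw (h : Loc y) (g : V) : Loc fun x => if y x = g then (1 : ℂ) else 0 :=
  h.comp fun v => if v = g then (1 : ℂ) else 0

theorem ite_qtw {p : Prop} {_ : Decidable p} (h : (if p then (1 : ℂ) else 0) ≠ 0) : p :=
  by_contra fun h1 => h (if_neg h1)

theorem proj_qtw (h : Loc y) (g : V) : IsStarProjection (z_qtw b y g) := by
  classical
  refine ⟨?_, ?_⟩
  · rw [IsIdempotentElem, z_qtw, Nmul_qtw b (loc_qtw h g) (loc_qtw h g)]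
    congr 1
    funext x
    split_ifs <;> simp
  · rw [IsSelfAdjoint, z_qtw, N_qtw, ← b.star _ ((loc_qtw h g).comp (· • (1 : H →L[ℂ] H)))]
    congr 1
    funext x
    by_cases h1 : y x = g <;> simp [h1]

theorem sum_qtw (h : Loc y) : ∑ g ∈ h.finite_range.toFinset, z_qtw b y g = 1 := by
  classical
  rw [← None_qtw b]
  refine (Nsum_qtw b _ _ fun g => loc_qtw h g).2.symm.trans (congrArg _ (funext fun x => ?_))
  simp

theorem ext_qtw (h : Loc y) {X X' : K →L[ℂ] K} (e : ∀ g, X * z_qtw b y g = X' * z_qtw b y g) :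
    X = X' := by
  rw [← mul_one X, ← mul_one X', ← sum_qtw b h, Finset.mul_sum, Finset.mul_sum]
  exact Finset.sum_congr rfl fun g _ => e g

end scalar

theorem exists_tw (b : Bern (FreeGroup ι × ι) R H K) (hω : IsCoc s ω) (c : G →* (H →L[ℂ] H))
    (hc : URep c) : ∃ μ : FreeGroup ι →* (K →L[ℂ] K), URep μ ∧
      ∀ f, μ f = b.M (fun x => c (ω f x)) * b.w (lft f) := by
  refine tw_qtw hω (b.w.comp lft) (fun f => by
    rw [MonoidHom.comp_apply, MonoidHom.comp_apply, map_inv, b.urep])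
    (fun y => b.M fun x => c (y x)) ?_ (fun y y' h h' => ?_) (fun y h => ?_)
    fun f y h => b.cov _ _ (h.comp c)
  · simp only [map_one, b.const]
  · rw [← b.mul _ _ (h.comp c) (h'.comp c)]
    simp only [map_mul]
    rfl
  · rw [← b.star _ (h.comp c), ← b.mul (star fun x => c (y x)) _ (h.comp fun g => star (c g)) (h.comp c),
      ← map_one b.C,
      ← b.const]
    exact congrArg b.M (funext fun x => (hc.mem (y x)).1)

theorem exists_tw' (b : Bern (FreeGroup ι × ι) R H K) (hω : IsCoc s ω)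
    (κ : FreeGroup ι →* (K →L[ℂ] K)) (hκ : URep κ)
    (hcov : ∀ f (t : (FreeGroup ι × ι → R) → ℂ), Loc t →
      κ f * b.M (fun x => t x • (1 : H →L[ℂ] H)) =
        b.M (fun x => t (x ∘ lft f) • (1 : H →L[ℂ] H)) * κ f)
    (Ψ : G →* (K →L[ℂ] K)) (hΨ : URep Ψ) (hΨκ : ∀ g f, Commute (Ψ g) (κ f))
    (hΨM : ∀ g (t : (FreeGroup ι × ι → R) → ℂ), Loc t →
      Commute (Ψ g) (b.M fun x => t x • (1 : H →L[ℂ] H)))
    (l : G → (H →L[ℂ] H)) {γ : ℝ} (hγ : 0 ≤ γ) (hl : ∀ g, ‖Ψ g - b.C (l g)‖ ≤ γ) :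
    ∃ ψ : FreeGroup ι →* (K →L[ℂ] K), URep ψ ∧
      (∀ f, ‖ψ f - b.M (fun x => l (ω f x)) * κ f‖ ≤ γ) ∧
      ∀ T, (∀ f, Commute T (κ f)) → (∀ g, Commute T (Ψ g)) →
        (∀ t : (FreeGroup ι × ι → R) → ℂ, Loc t →
          Commute T (b.M fun x => t x • (1 : H →L[ℂ] H))) → ∀ f, Commute T (ψ f) := by
  classical
  let Φ : ((FreeGroup ι × ι → R) → G) → (K →L[ℂ] K) := fun y =>
    if h : Loc y then ∑ g ∈ h.finite_range.toFinset, Ψ g * z_qtw b y g else 0
  have hc : ∀ y T, (∀ g, Commute T (Ψ g)) → (∀ t, Loc t → Commute T (N_qtw b t)) →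
      Commute T (Φ y) := fun y T h1 h2 => by
    simp only [Φ]
    split_ifs with h
    · exact Commute.sum_right _ _ _ fun g _ => (h1 g).mul_right (h2 _ (loc_qtw h g))
    · exact Commute.zero_right T
  have hN : ∀ y t, Loc t → Commute (N_qtw b t) (Φ y) := fun y t ht =>
    hc y _ (fun g => (hΨM g t ht).symm) fun t' ht' => Ncomm_qtw b ht ht'
  have key : ∀ y g t, Loc y → Loc t → (∀ x, t x ≠ 0 → y x = g) →
      Φ y * N_qtw b t = Ψ g * N_qtw b t := fun y g t hy ht h => by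
    simp only [Φ, dif_pos hy, Finset.sum_mul, mul_assoc, z_qtw]
    rw [Finset.sum_eq_single g (fun g' _ hg => ?_) fun hg => ?_, Nmul_qtw b (loc_qtw hy g) ht]
    · congr 2
      funext x
      by_cases h1 : t x = 0 <;> simp [h1, h x]
    · rw [Nmul_qtw b (loc_qtw hy g') ht, ← mul_zero (Ψ g'), ← Nzero_qtw b]
      congr 2
      funext x
      by_cases h1 : t x = 0 <;> simp [h1, h x, hg.symm]
    · rw [show t = fun _ => 0 from funext fun x => by_contra fun h1 =>
        hg (hy.finite_range.mem_toFinset.2 ⟨x, h x h1⟩), Nzero_qtw, mul_zero, mul_zero]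
  have kz : ∀ y g, Loc y → Φ y * z_qtw b y g = Ψ g * z_qtw b y g := fun y g hy =>
    key y g _ hy (loc_qtw hy g) fun x h => ite_qtw h
  obtain ⟨ψ, h1, h2⟩ := tw_qtw hω κ hκ Φ (by
      have := key (fun _ => 1) 1 (fun _ => 1) (Loc.const _) (Loc.const _) fun _ _ => rfl
      rwa [None_qtw, mul_one, mul_one, map_one] at this)
    (fun y y' h h' => ext_qtw b (h.map₂ h' Prod.mk) fun p => by
      have ht := loc_qtw (h.map₂ h' Prod.mk) p
      rw [z_qtw, key _ (p.1 * p.2) _ (h.map₂ h' (· * ·)) ht fun x hx => by rw [← ite_qtw hx],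
        mul_assoc, key y' p.2 _ h' ht fun x hx => by rw [← ite_qtw hx]]
      rw [N_qtw, (hΨM p.2 _ ht).eq, ← mul_assoc, ← N_qtw,
        key y p.1 _ h ht fun x hx => by rw [← ite_qtw hx], map_mul, mul_assoc, mul_assoc, N_qtw,
        (hΨM p.2 _ ht).eq])
    (fun y h => ext_qtw b h fun g => by
      have e1 : Ψ g * z_qtw b y g = z_qtw b y g * Ψ g := (hΨM g _ (loc_qtw h g)).eq
      have e2 : z_qtw b y g * Φ y = Φ y * z_qtw b y g := (hN y _ (loc_qtw h g)).eq
      have e3 := (proj_qtw b h g).isSelfAdjoint.star_eq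
      have e4 : star (Φ y) * z_qtw b y g = z_qtw b y g * star (Ψ g) := by
        rw [← e3, ← star_mul, ← star_mul, e2, kz y g h]
      rw [mul_assoc, kz y g h, e1, ← mul_assoc, e4, mul_assoc, (hΨ.mem g).1, one_mul, mul_one])
    fun f y h => ext_qtw b h fun g => by
      have e1 : κ f * z_qtw b y g = z_qtw b (fun x => y (x ∘ lft f)) g * κ f :=
        hcov f _ (loc_qtw h g)
      rw [mul_assoc, kz y g h, ← mul_assoc, ← (hΨκ g f).eq, mul_assoc, mul_assoc, e1, ← mul_assoc,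
        ← mul_assoc, kz _ g (h.perm _)]
  refine ⟨ψ, h1, fun f => ?_, fun T a1 a2 a3 f => by
    rw [h2]; exact (hc _ T a2 a3).mul_right (a1 f)⟩
  have hy := hω.loc f
  rw [h2, ← sub_mul]
  refine (norm_mul_le _ _).trans ((mul_le_of_le_one_right (norm_nonneg _) (hκ.norm_le f)).trans ?_)
  have e1 : ∀ g, Commute (z_qtw b (ω f) g) (Φ (ω f) - b.M fun x => l (ω f x)) := fun g =>
    (hN _ _ (loc_qtw hy g)).sub_right (comm_qtw b ((loc_qtw hy g).comp (· • (1 : H →L[ℂ] H)))
      (hy.comp l) fun x => (Commute.one_left _).smul_left _)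
  refine norm_le_of_partition (fun g : hy.finite_range.toFinset => z_qtw b (ω f) g)
    (fun g => proj_qtw b hy g) (fun g g' h => ?_) _ (by
      rw [Finset.sum_coe_sort _ (z_qtw b (ω f)), sum_qtw b hy, one_mul]) (fun g => e1 g) hγ
    fun g => ?_
  · rw [z_qtw, z_qtw, Nmul_qtw b (loc_qtw hy _) (loc_qtw hy _), ← Nzero_qtw b]
    congr 1
    funext x
    by_cases h1 : ω f x = g <;> simp [h1, h]
  · have e2 : (b.M fun x => l (ω f x)) * z_qtw b (ω f) g = b.C (l g) * z_qtw b (ω f) g := by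
      have h3 := (loc_qtw hy (g : G)).comp (· • (1 : H →L[ℂ] H))
      rw [← b.const, z_qtw, N_qtw, ← b.mul _ _ (hy.comp l) h3, ← b.mul _ _ (Loc.const _) h3]
      congr 1
      funext x
      by_cases h1 : ω f x = g <;> simp [h1]
    rw [(e1 g).eq, sub_mul, kz _ _ hy, e2, ← sub_mul]
    exact (norm_mul_le _ _).trans ((mul_le_of_le_one_right (norm_nonneg _)
      (proj_qtw b hy _).norm_le).trans (hl g))

end Ulam
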