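import Pool.Agent.P.MP_3be8c7_an.QPROP
import Pool.Agent.P.MP_3be8c7_an.QINV
import Pool.Agent.P.MP_3be8c7_an.QTW
import Pool.Agent.P.MP_3be8c7_an.QESB
import Pool.Agent.P.MP_3be8c7_an.QL2B

open scoped ComplexOrder InnerProductSpace
open Filter Topology
open ContinuousLinearMap (adjoint)

noncomputable section

namespace Ulam

universe u v w

variable {H : Type v} [NormedAddCommGroup H] [InnerProductSpace ℂ H] [CompleteSpace H]
variable {H₁ : Type v} [NormedAddCommGroup H₁] [InnerProductSpace ℂ H₁] [CompleteSpace H₁]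
variable {K : Type v} [NormedAddCommGroup K] [InnerProductSpace ℂ K] [CompleteSpace K]

theorem total_qs1 (g : GD H) {Θ : (H →L[ℂ] H) →⋆ₐ[ℂ] (K →L[ℂ] K)} (h : IsAmp Θ) (η : K)
    (hη : ∀ a ∈ g.N, ‖a‖ ≤ 1 → Θ g.e (star (Θ a) η) = 0) : η = 0 := by
  refine h η fun y hy => g.cyc _ fun x hx => ?_
  have e : ∀ T ζ, adjoint y (Θ T ζ) = T (adjoint y ζ) := fun T ζ => congr($(hy.adj T) ζ)
  have hp : 0 < ‖x‖ + 1 := by positivity
  have h1 := congrArg (adjoint y) (hη (((‖x‖ + 1)⁻¹ : ℝ) • x) (g.N.toStarSubalgebra.smul_mem hx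
    (((‖x‖ + 1)⁻¹ : ℝ) : ℂ)) (by
      rw [norm_smul, Real.norm_of_nonneg (inv_pos.2 hp).le, inv_mul_le_iff₀ hp]
      linarith))
  rw [← map_star, e, e, map_zero, star_smul, star_trivial, smul_apply,
    ContinuousLinearMap.map_smul_of_tower, smul_eq_zero_iff_right (inv_pos.2 hp).ne'] at h1
  rw [← ContinuousLinearMap.adjoint_inner_right, ← g.e_xi,
    ← ContinuousLinearMap.adjoint_inner_right, ← ContinuousLinearMap.star_eq_adjoint g.e,
    g.fix.proj.isSelfAdjoint.star_eq, ← ContinuousLinearMap.star_eq_adjoint x, h1, inner_zero_right]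

theorem norm_sq_qs1 {E u : K →L[ℂ] K} (hE : IsStarProjection E) (y : H →L[ℂ] K) (z : H) :
    ‖E (star u (y z))‖ ^ 2 ≤ ‖adjoint y ∘L (u * E * star u) ∘L y‖ * ‖z‖ ^ 2 := by
  have e : adjoint y ∘L (u * E * star u) ∘L y =
      adjoint ((E * star u) ∘L y) ∘L (E * star u) ∘L y := by
    rw [ContinuousLinearMap.adjoint_comp, ← ContinuousLinearMap.star_eq_adjoint (E * star u),
      star_mul, star_star, hE.isSelfAdjoint.star_eq]
    conv_lhs => rw [← hE.isIdempotentElem.eq]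
    rfl
  rw [e, ContinuousLinearMap.norm_adjoint_comp_self, ← sq, ← mul_pow]
  exact pow_le_pow_left₀ (norm_nonneg _) (((E * star u) ∘L y).le_opNorm z) 2

theorem conj_qs1 {F A : Type*} [Group F] [Monoid A] (κ : F →* A) {c Q : A} (f : F)
    (h : Commute (κ f⁻¹ * c * κ f⁻¹⁻¹) Q) : Commute c (κ f * Q * κ f⁻¹) := by
  have e1 : κ f * κ f⁻¹ = 1 := by rw [← map_mul, mul_inv_cancel, map_one]
  rw [inv_inv] at h
  calc c * (κ f * Q * κ f⁻¹) = κ f * (κ f⁻¹ * c * κ f * Q) * κ f⁻¹ := by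
        simp only [← mul_assoc, e1, one_mul]
    _ = κ f * Q * κ f⁻¹ * c := by
        rw [h.eq]
        simp only [mul_assoc, e1, mul_one]

theorem stage1 (g : GD H) {R : Type} [Fintype R] [Nonempty R] (s : R → g.G) (hs : Sym s) {η : ℝ}
    (hη0 : 0 ≤ η) (hη : GapW (fun ρ => g.l (s ρ)) η) {n : ℕ} (hn : 4 * n * η < 1)
    {Θ : (H →L[ℂ] H) →⋆ₐ[ℂ] (H₁ →L[ℂ] H₁)} {θ : ℝ} (hθ : θ < 1 / 2) (md : Model n θ Θ)
    (b : Bern (FG n × (Fin n ⊕ Fin n)) R H₁ K) {ω : FG n → (FG n × (Fin n ⊕ Fin n) → R) → g.G}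
    (hω : IsCoc s ω) (κ : FG n →* (K →L[ℂ] K)) (hκ : URep κ)
    (hκ' : ∀ f, κ f = b.M (fun x => Θ (g.rr (ω f x))) * b.w (lft f)) :
    ∃ p, IsStarProjection p ∧ ‖p - b.C md.e‖ ≤ 2 * θ ∧ (∀ f, Commute (κ f * b.C (md.m f)) p) ∧
      (∀ t : (FG n × (Fin n ⊕ Fin n) → R) → ℂ, Loc t →
        Commute (b.M fun x => t x • (1 : H₁ →L[ℂ] H₁)) p) ∧
      ∀ a ∈ g.PS, Commute (b.C (Θ (g.j a))) p := by
  have hΘ : IsAmp (b.C.comp Θ) := md.amp.comp b.isAmp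
  have hL : ∀ f, Loc fun x => Θ (g.rr (ω f x)) := fun f => (hω.loc f).comp fun y => Θ (g.rr y)
  have hLt : ∀ {t : (FG n × (Fin n ⊕ Fin n) → R) → ℂ}, Loc t →
      Loc fun x => t x • (1 : H₁ →L[ℂ] H₁) := fun ht => ht.comp fun c => c • 1
  have cM : ∀ {t : (FG n × (Fin n ⊕ Fin n) → R) → ℂ}, Loc t → ∀ T,
      Commute (b.M fun x => t x • (1 : H₁ →L[ℂ] H₁)) (b.C T) := fun ht T => by
    rw [← b.const]
    exact b.commute_M (hLt ht) (Loc.const T) fun x => (Commute.one_left T).smul_left _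
  have cκ : ∀ T, (∀ x, Commute (Θ (g.rr x)) T) → ∀ f, Commute (κ f) (b.C T) := fun T hT f => by
    rw [hκ']
    refine Commute.mul_left ?_ (b.commute_w _ T)
    rw [← b.const]
    exact b.commute_M (hL f) (Loc.const T) fun x => hT _
  have cov : ∀ f S, Loc S → κ f * b.M S * κ f⁻¹ =
      b.M fun x => Θ (g.rr (ω f x)) * S (x ∘ lft f) * star (Θ (g.rr (ω f x))) := fun f S hS => by
    have e1 : b.w (lft f) * star (b.w (lft f)) = 1 := (b.urep.mem _).2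
    have e2 := b.mul _ _ ((hL f).map₂ (hS.perm (lft f)) (· * ·)) ((hL f).comp star)
    have e3 := b.mul _ _ (hL f) (hS.perm (lft f))
    have e4 := b.star _ (hL f)
    rw [← hκ f, hκ', star_mul, mul_assoc _ (b.w _), b.cov _ _ hS, ← e4]
    refine Eq.trans ?_ (e2.trans (congrArg (· * _) e3)).symm
    simp only [mul_assoc]
    rw [← mul_assoc (b.w _), e1, one_mul]
    rfl
  let D : Set (H₁ →L[ℂ] H₁) := {T | (∀ x, Commute (Θ (g.rr x)) T) ∧ Commute T (Θ g.e) ∧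
    ∀ a ∈ g.N, Commute T (Θ a)}
  have hD : ∀ T, (∀ a, Commute T (Θ a)) → T ∈ D := fun T h =>
    ⟨fun x => (h _).symm, h _, fun a _ => h a⟩
  have hDj : ∀ a ∈ g.PS, Θ (g.j a) ∈ D := fun a ha =>
    ⟨fun x => (g.commute_rr ha x).symm.map Θ, (g.commute_right ha).map Θ,
      fun a' ha' => (g.isJ.commute g.cyc ha.1 ha').map Θ⟩
  let C : Set (K →L[ℂ] K) := {c | (∃ t : (FG n × (Fin n ⊕ Fin n) → R) → ℂ, Loc t ∧
    c = b.M fun x => t x • (1 : H₁ →L[ℂ] H₁)) ∨ ∃ T ∈ D, c = b.C T}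
  have hC : ∀ c ∈ C, star c ∈ C := by
    rintro _ (⟨t, ht, rfl⟩ | ⟨T, ⟨h1, h2, h3⟩, rfl⟩)
    · refine .inl ⟨fun x => star (t x), ht.comp star, ?_⟩
      rw [← b.star _ (hLt ht)]
      exact congrArg b.M (funext fun x => by simp)
    · refine .inr ⟨star T, ⟨fun x => ?_, ?_, fun a ha => ?_⟩, (map_star _ _).symm⟩
      · simpa only [← map_star, g.rrep x⁻¹, inv_inv] using (h1 x⁻¹).star_star
      · simpa only [← map_star, g.fix.proj.isSelfAdjoint.star_eq] using h2.star_star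
      · simpa only [← map_star, star_star] using (h3 _ (star_mem ha)).star_star
  have hCκ : ∀ f, ∀ c ∈ C, κ f * c * κ f⁻¹ ∈ C := by
    rintro f _ (⟨t, ht, rfl⟩ | ⟨T, hT, rfl⟩)
    · refine .inl ⟨fun x => t (x ∘ lft f), ht.perm _, ?_⟩
      rw [cov f _ (hLt ht)]
      refine congrArg b.M (funext fun x => ?_)
      rw [mul_smul_comm, mul_one, smul_mul_assoc, ← map_star, ← map_mul, (g.rrep.mem _).2, map_one]
    · refine .inr ⟨T, hT, ?_⟩
      rw [(cκ T hT.1 f).eq, mul_assoc, ← map_mul, mul_inv_cancel, map_one, mul_one]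
  have hE : IsStarProjection (b.C (Θ g.e)) := (g.fix.amp hΘ).proj
  refine (exists_cutoff κ hκ C hC hCκ hE ?_ {p | ∃ a ∈ g.N, ‖a‖ ≤ 1 ∧ p = b.C (Θ a)} ?_ ?_ ?_ ?_
    (Set.range b.ι) ?_ ?_).elim fun Q ⟨q0, q1, q2⟩ => ?_
  rotate_right
  · have he : IsStarProjection (b.C md.e) :=
      ⟨by rw [IsIdempotentElem, ← map_mul, md.ep.isIdempotentElem.eq],
        by rw [IsSelfAdjoint, ← map_star, md.ep.isSelfAdjoint.star_eq]⟩
    obtain ⟨p, p1, p2, p3, p4⟩ := exists_inv κ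
      ((b.C : (H₁ →L[ℂ] H₁) →* (K →L[ℂ] K)).comp md.m) hκ
      (fun f => (map_star b.C _).symm.trans (congrArg b.C (md.urep f)))
      (fun f f' => cκ _ (hD _ (md.mc f')).1 f) q0 q2
      (fun f => (q1 _ (.inr ⟨_, hD _ (md.mc f), rfl⟩)).symm) he
      (q1 _ (.inr ⟨_, hD _ md.ec, rfl⟩)).symm (cκ _ (hD _ md.ec).1) hθ fun f => by
        refine le_trans (le_of_eq ?_) ((NonUnitalStarAlgHom.norm_apply_le b.C _).trans (md.me f))
        rw [map_sub, map_mul, map_mul]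
        rfl
    exact ⟨p, p1, p2, p3, fun t ht => p4 _ (fun f => cM ht _) (cM ht _)
      fun f => conj_qs1 κ f (q1 _ (hCκ _ _ (.inl ⟨t, ht, rfl⟩))), fun a ha => p4 _
        (fun f => (md.mc f _).symm.map b.C) ((md.ec _).symm.map b.C)
        fun f => conj_qs1 κ f (q1 _ (hCκ _ _ (.inr ⟨_, hDj a ha, rfl⟩)))⟩
  · rintro _ (⟨t, ht, rfl⟩ | ⟨T, hT, rfl⟩)
    exacts [cM ht _, hT.2.1.map b.C]
  · rintro _ ⟨a, -, ha, rfl⟩
    exact (NonUnitalStarAlgHom.norm_apply_le (b.C.comp Θ) a).trans ha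
  · rintro _ ⟨a, ha, -, rfl⟩ _ (⟨t, ht, rfl⟩ | ⟨T, hT, rfl⟩)
    exacts [cM ht _, (hT.2.2 a ha).map b.C]
  · rintro _ ⟨a, ha, -, rfl⟩
    exact cκ _ fun x => g.rr_eq x ▸ (g.isJ.commute g.cyc (g.lmem x) ha).map Θ
  · exact fun ζ h => total_qs1 g hΘ ζ fun a ha ha' => h _ ⟨a, ha, ha', rfl⟩
  · rintro _ ⟨z, rfl⟩
    refine Summable.of_nonneg_of_le (fun f => sq_nonneg _) (fun f => ?_)
      ((summable_pow_norm (ι := Fin n ⊕ Fin n) hη0 (by simp; linarith)).mul_right (‖z‖ ^ 2))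
    rw [← hκ f]
    refine (norm_sq_qs1 hE b.ι z).trans (mul_le_mul_of_nonneg_right ?_ (sq_nonneg _))
    rw [hκ f, ← b.const, cov f _ (Loc.const _),
      b.exp _ ((hω.loc f).comp fun y => Θ (g.rr y) * Θ g.e * star (Θ (g.rr y))),
      hω.ex_eq hs f fun y => Θ (g.rr y) * Θ g.e * star (Θ (g.rr y))]
    simp only [← map_star, ← map_mul]
    rw [← map_av' Θ]
    refine (NonUnitalStarAlgHom.norm_apply_le Θ _).trans
      (g.esb (wrd s) (pow_nonneg hη0 _) fun ζ ζ' => ?_)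
    simpa only [map_wrd] using hη f.norm ζ ζ'
  · refine fun ζ h => b.total ζ fun t ht => ext_inner_left ℂ fun z => ?_
    rw [ContinuousLinearMap.adjoint_inner_right, ← ContinuousLinearMap.adjoint_inner_left,
      inner_zero_right]
    exact h _ (hC _ (.inl ⟨t, ht, rfl⟩)) _ ⟨z, rfl⟩

end Ulam
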