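import Pool.Agent.P.MP_3be8c7_an.QL2B
import Pool.Agent.P.MP_3be8c7_an.QFG

open scoped ComplexOrder InnerProductSpace
open Filter Topology
open ContinuousLinearMap (adjoint)

noncomputable section

namespace Ulam

universe u v w

variable {H : Type v} [NormedAddCommGroup H] [InnerProductSpace ℂ H] [CompleteSpace H]
variable {K : Type w} [NormedAddCommGroup K] [InnerProductSpace ℂ K] [CompleteSpace K]
variable {ι : Type} [DecidableEq ι] {ε : FreeGroup ι → (H →L[ℂ] K)} {u : H →L[ℂ] H}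

/-- The columns of the deformed generator. -/
structure Col_qsig (ε : FreeGroup ι → (H →L[ℂ] K)) (u : H →L[ℂ] H) (x : FreeGroup ι)
    (V : K →L[ℂ] K) : Prop where
  root : ∀ ξ, V (ε 1 ξ) = (4 / 5 : ℂ) • ε x ξ + (3 / 5 : ℂ) • ε 1 (u ξ)
  back : ∀ ξ, V (ε x⁻¹ ξ) = (4 / 5 : ℂ) • ε 1 ξ - (3 / 5 : ℂ) • ε x (star u ξ)
  other : ∀ y, y ≠ 1 → y ≠ x⁻¹ → ∀ ξ, V (ε y ξ) = ε (x * y) ξ

theorem IsL2.ite_qsig (h : IsL2 ε) (y z : FreeGroup ι) (ξ : H) :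
    adjoint (ε y) (ε z ξ) = if y = z then ξ else 0 := by
  split_ifs with e
  · rw [e, h.self_ql2]
  · exact h.ne_ql2 e _

theorem IsL2.ext_qsig (h : IsL2 ε) {K' : Type*} [NormedAddCommGroup K'] [InnerProductSpace ℂ K']
    [CompleteSpace K'] {T T' : K →L[ℂ] K'} (x : FreeGroup ι) (h1 : ∀ ξ, T (ε 1 ξ) = T' (ε 1 ξ))
    (h2 : ∀ ξ, T (ε x ξ) = T' (ε x ξ))
    (h3 : ∀ y, y ≠ 1 → y ≠ x → ∀ ξ, T (ε y ξ) = T' (ε y ξ)) : T = T' := by
  refine h.ext_right fun y => ContinuousLinearMap.ext fun ξ => ?_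
  by_cases e1 : y = 1
  · exact e1 ▸ h1 ξ
  by_cases e2 : y = x
  · exact e2 ▸ h2 ξ
  exact h3 y e1 e2 ξ

variable {x : FreeGroup ι} {V W : K →L[ℂ] K}

theorem Col_qsig.row (c : Col_qsig ε u x V) (h : IsL2 ε) (hx : x ≠ 1) :
    adjoint (ε 1) ∘L V = (4 / 5 : ℂ) • adjoint (ε x⁻¹) + (3 / 5 : ℂ) • (u ∘L adjoint (ε 1)) ∧
    adjoint (ε x) ∘L V = (4 / 5 : ℂ) • adjoint (ε 1) - (3 / 5 : ℂ) • (star u ∘L adjoint (ε x⁻¹)) ∧
    ∀ y, y ≠ 1 → y ≠ x → adjoint (ε y) ∘L V = adjoint (ε (x⁻¹ * y)) := by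
  have hx' : x⁻¹ ≠ 1 := inv_ne_one.2 hx
  refine ⟨h.ext_qsig x⁻¹ (fun ξ => ?_) (fun ξ => ?_) fun z z1 z2 ξ => ?_,
    h.ext_qsig x⁻¹ (fun ξ => ?_) (fun ξ => ?_) fun z z1 z2 ξ => ?_,
    fun y y1 y2 => h.ext_qsig x⁻¹ (fun ξ => ?_) (fun ξ => ?_) fun z z1 z2 ξ => ?_⟩
  · simp [c.root, h.ite_qsig, hx.symm, hx']
  · simp [c.back, h.ite_qsig, hx.symm, hx'.symm]
  · have : (1 : FreeGroup ι) ≠ x * z := fun e => z2 (eq_inv_of_mul_eq_one_right e.symm)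
    simp [c.other z z1 z2, h.ite_qsig, this, z1.symm, z2.symm]
  · simp [c.root, h.ite_qsig, hx, hx']
  · simp [c.back, h.ite_qsig, hx, hx'.symm]
  · simp [c.other z z1 z2, h.ite_qsig, z1, z1.symm, z2.symm]
  · have : x⁻¹ * y ≠ 1 := fun e => y2 (inv_mul_eq_one.1 e).symm
    simp [c.root, h.ite_qsig, y1, y2, this]
  · simp [c.back, h.ite_qsig, y1, y2]
  · simp [c.other z z1 z2, h.ite_qsig, inv_mul_eq_iff_eq_mul]

theorem Col_qsig.adj (c : Col_qsig ε u x V) (h : IsL2 ε) (hx : x ≠ 1) :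
    Col_qsig ε (star u) x⁻¹ (star V) := by
  obtain ⟨r1, r2, r3⟩ := c.row h hx
  have s4 : (starRingEnd ℂ) (4 / 5) = 4 / 5 := by rw [map_div₀, map_ofNat, map_ofNat]
  have s3 : (starRingEnd ℂ) (3 / 5) = 3 / 5 := by rw [map_div₀, map_ofNat, map_ofNat]
  refine ⟨fun ξ => ?_, fun ξ => ?_, fun y y1 y2 ξ => ?_⟩
  · have := congrArg adjoint r1
    simp only [map_add, map_smulₛₗ, ContinuousLinearMap.adjoint_comp,
      ContinuousLinearMap.adjoint_adjoint, s4, s3] at this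
    exact congr($this ξ)
  · have := congrArg adjoint r2
    simp only [map_sub, map_smulₛₗ, ContinuousLinearMap.adjoint_comp,
      ContinuousLinearMap.adjoint_adjoint, s4, s3] at this
    rw [inv_inv]
    exact congr($this ξ)
  · have := congrArg adjoint (r3 y y1 (by simpa using y2))
    simp only [ContinuousLinearMap.adjoint_comp, ContinuousLinearMap.adjoint_adjoint] at this
    exact congr($this ξ)

theorem Col_qsig.mul (c : Col_qsig ε u x V) (c' : Col_qsig ε (star u) x⁻¹ W) (h : IsL2 ε)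
    (hu : u ∈ unitary (H →L[ℂ] H)) : V * W = 1 := by
  have e1 : ∀ ξ, u (star u ξ) = ξ := fun ξ => congr($(hu.2) ξ)
  have e2 : ∀ ξ, star u (u ξ) = ξ := fun ξ => congr($(hu.1) ξ)
  have e3 := c'.back
  rw [inv_inv, star_star] at e3
  refine h.ext_qsig x (fun ξ => ?_) (fun ξ => ?_) fun z z1 z2 ξ => ?_
  · simp only [mul_apply_eq_comp, c'.root, map_add, map_smul, c.root, c.back, e1,
      one_apply_eq_self]
    module
  · simp only [mul_apply_eq_comp, e3, map_sub, map_smul, c.root, c.back, e2,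
      one_apply_eq_self]
    module
  · rw [mul_apply_eq_comp, c'.other z z1 (by simpa using z2),
      c.other _ (fun e => z2 (inv_mul_eq_one.1 e).symm) (by simpa using z1), mul_inv_cancel_left,
      one_apply_eq_self]

theorem IsL2.col_qsig (h : IsL2 ε) (u : H →L[ℂ] H) (hx : x ≠ 1) : ∃ V, Col_qsig ε u x V := by
  obtain ⟨L, -, hL, -⟩ := h.diag h (Equiv.mulLeft x) (fun _ => 1) (norm_nonneg _) fun _ => le_rfl
  have e : ∀ y ξ, L (ε y ξ) = ε (x * y) ξ := fun y ξ => congr($(hL y) ξ)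
  have hx' : x⁻¹ ≠ 1 := inv_ne_one.2 hx
  refine ⟨L - (1 / 5 : ℂ) • (ε x ∘L adjoint (ε 1) + ε 1 ∘L adjoint (ε x⁻¹)) +
    (3 / 5 : ℂ) • (ε 1 ∘L u ∘L adjoint (ε 1) - ε x ∘L star u ∘L adjoint (ε x⁻¹)),
    fun ξ => ?_, fun ξ => ?_, fun y y1 y2 ξ => ?_⟩
  · simp only [add_apply, sub_apply,
      smul_apply, ContinuousLinearMap.comp_apply, e, h.ite_qsig, if_true,
      if_neg hx', map_zero, mul_one]
    module
  · simp only [add_apply, sub_apply,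
      smul_apply, ContinuousLinearMap.comp_apply, e, h.ite_qsig, if_true,
      if_neg hx'.symm, map_zero, mul_inv_cancel]
    module
  · simp [e, h.ite_qsig, y1.symm, y2.symm]

theorem exists_sig (h : IsL2 ε) (hu : u ∈ unitary (H →L[ℂ] H)) : ∃ σ, IsSig ε u σ := by
  choose V hV using fun i : ι => h.col_qsig u (FreeGroup.of_ne_one i)
  have hU : ∀ i, V i ∈ unitary (K →L[ℂ] K) := fun i => by
    have c' := (hV i).adj h (FreeGroup.of_ne_one i)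
    exact ⟨c'.mul (by simpa using hV i) h (Unitary.star_mem hu), (hV i).mul c' h hu⟩
  let τ : FreeGroup ι →* unitary (K →L[ℂ] K) := FreeGroup.lift fun i => ⟨V i, hU i⟩
  have e : ∀ i, ((unitary (K →L[ℂ] K)).subtype.comp τ) (FreeGroup.of i) = V i := fun i => by
    simp [τ]
  refine ⟨(unitary (K →L[ℂ] K)).subtype.comp τ, fun g => ?_, fun i => ?_, fun i => ?_,
    fun i y y1 y2 => ?_⟩
  · simp only [MonoidHom.comp_apply, map_inv]
    rfl
  · rw [e]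
    exact ContinuousLinearMap.ext (hV i).root
  · rw [e]
    exact ContinuousLinearMap.ext (hV i).back
  · rw [e]
    exact ContinuousLinearMap.ext ((hV i).other y y1 y2)

/-- Coordinates of the action of a letter. -/
theorem IsSig.letter {σ : FreeGroup ι →* (K →L[ℂ] K)} (hσ : IsSig ε u σ) (h : IsL2 ε)
    (hu : u ∈ unitary (H →L[ℂ] H)) {a : FreeGroup ι} (ha : Letter a) :
    ∃ w : H →L[ℂ] H, (w = u ∨ w = star u) ∧
      (∀ ζ, adjoint (ε 1) (σ a ζ) =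
        (4 / 5 : ℂ) • adjoint (ε a⁻¹) ζ + (3 / 5 : ℂ) • w (adjoint (ε 1) ζ)) ∧
      (∀ ζ, adjoint (ε a) (σ a ζ) =
        (4 / 5 : ℂ) • adjoint (ε 1) ζ - (3 / 5 : ℂ) • star w (adjoint (ε a⁻¹) ζ)) ∧
      ∀ y, y ≠ 1 → y ≠ a → ∀ ζ, adjoint (ε y) (σ a ζ) = adjoint (ε (a⁻¹ * y)) ζ := by
  have c : ∀ i, Col_qsig ε u (FreeGroup.of i) (σ (FreeGroup.of i)) := fun i =>
    ⟨fun ξ => congr($(hσ.root i) ξ), fun ξ => congr($(hσ.back i) ξ),
      fun y y1 y2 ξ => congr($(hσ.other i y y1 y2) ξ)⟩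
  obtain ⟨w, hw, c', a1⟩ : ∃ w : H →L[ℂ] H, (w = u ∨ w = star u) ∧ Col_qsig ε w a (σ a) ∧
      a ≠ 1 := by
    obtain ⟨i, rfl | rfl⟩ := ha
    · exact ⟨u, Or.inl rfl, c i, FreeGroup.of_ne_one i⟩
    · exact ⟨star u, Or.inr rfl, hσ.urep _ ▸ (c i).adj h (FreeGroup.of_ne_one i),
        inv_ne_one.2 (FreeGroup.of_ne_one i)⟩
  obtain ⟨r1, r2, r3⟩ := c'.row h a1
  exact ⟨w, hw, fun ζ => congr($r1 ζ), fun ζ => congr($r2 ζ),
    fun y y1 y2 ζ => congr($(r3 y y1 y2) ζ)⟩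

end Ulam
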