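import Pool.Agent.P.MP_3be8c7_an.QD
import Pool.Agent.P.MP_3be8c7_an.WNRS
import Pool.Agent.P.MP_3be8c7_an.ZF

open scoped ComplexOrder InnerProductSpace
open Filter Topology
open ContinuousLinearMap (adjoint)

noncomputable section

namespace Ulam

universe u v w

variable {D : Type u} [CStarAlgebra D] [PartialOrder D] [StarOrderedRing D]
variable {H : Type v} [NormedAddCommGroup H] [InnerProductSpace ℂ H] [CompleteSpace H]

theorem SData.exists_wnr (s : SData D D) :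
    ∃ (I : Type) (_ : Fintype I) (_ : DecidableEq I) (θ : D →ₗ[ℂ] Matrix I I ℂ) (b : I → D),
      IsCCP θ ∧ ‖∑ k, star (b k) * b k‖ ≤ 1 ∧ ‖∑ k, b k * star (b k)‖ ≤ 9 ∧
      ∀ a, tmap b (θ a) = s.ev a := by
  classical
  have h1 : ‖hpsi s.v 1‖ ≤ 1 := s.oz.norm_hpsi_le (contr_of_unitary (by simp))
  refine ⟨s.I × (s.I × s.κ), inferInstance, inferInstance, ampl s.θ Prod.fst Prod.snd,
    fun p => tr_wnrs s.τ s.v p.1 p.2.1 * s.c p.2.2, s.ccp.ampl _ _ fun p q e => e, ?_, ?_,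
    fun a => tmap_wnrs s.oz s.c (s.blk a)⟩
  · have hb : Blk s.τ (1 : Matrix s.I s.I ℂ) := fun j k e =>
      Matrix.one_apply_ne fun e' => e (e' ▸ rfl)
    have e : (1 : Matrix (s.I × (s.I × s.κ)) (s.I × (s.I × s.κ)) ℂ) =
        Matrix.of fun p q => if p.2 = q.2 then (1 : Matrix s.I s.I ℂ) p.1 q.1 else 0 := by
      ext p q
      simp only [Matrix.one_apply, Matrix.of_apply, Prod.ext_iff (x := p) (y := q)]
      by_cases e1 : p.1 = q.1 <;> by_cases e2 : p.2 = q.2 <;> simp [e1, e2]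
    have h2 : √‖∑ i, star (s.c i) * s.c i‖ ≤ 1 := Real.sqrt_le_one.2 s.col
    rw [← tmap_one, e, tmap_wnrs s.oz s.c hb]
    exact (norm_sum_sandwich_le _ _ _).trans
      (mul_le_one₀ (mul_le_one₀ h1 (Real.sqrt_nonneg _) h2) (Real.sqrt_nonneg _) h2)
  · have e1 : ∑ p : s.I × (s.I × s.κ), tr_wnrs s.τ s.v p.1 p.2.1 * s.c p.2.2 *
        star (tr_wnrs s.τ s.v p.1 p.2.1 * s.c p.2.2) =
        ∑ p : s.I × s.I, star (tr_wnrs s.τ s.v p.2 p.1) * (∑ i, s.c i * star (s.c i)) *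
          tr_wnrs s.τ s.v p.2 p.1 := by
      simp only [Fintype.sum_prod_type, star_mul, star_tr_wnrs, Finset.mul_sum, Finset.sum_mul,
        mul_assoc]
    have e2 : ∑ p : s.I × s.I, star (tr_wnrs s.τ s.v p.2 p.1) * tr_wnrs s.τ s.v p.2 p.1 =
        hpsi s.v 1 := by
      rw [Fintype.sum_prod_type_right, s.oz.hpsi_eq]
      refine Finset.sum_congr rfl fun k _ => ?_
      rw [sum_tr_wnrs s.oz rfl]
      simp [Matrix.one_apply]
    have h2 : √‖hpsi s.v 1‖ ≤ 1 := Real.sqrt_le_one.2 h1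
    rw [e1]
    refine (norm_sum_sandwich_le _ _ _).trans ?_
    rw [e2]
    exact (mul_le_of_le_one_right (by positivity) h2).trans
      ((mul_le_of_le_one_right (norm_nonneg _) h2).trans s.row)

theorem vfun_qstz (π : D →⋆ₐ[ℂ] (H →L[ℂ] H)) {ι : Type*} [Fintype ι] (ξ : ι → H) (y : D) :
    vfun π ξ (star y * y) = ((∑ i, ‖π y (ξ i)‖ ^ 2 : ℝ) : ℂ) := by
  rw [vfun_apply, Complex.ofReal_sum]
  refine Finset.sum_congr rfl fun i _ => ?_
  rw [map_mul, map_star]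
  change ⟪ξ i, adjoint (π y) (π y (ξ i))⟫_ℂ = _
  rw [ContinuousLinearMap.adjoint_inner_right, inner_self_eq_norm_sq_to_K]
  norm_cast

theorem strz (hD : STRF D) (π : D →⋆ₐ[ℂ] (H →L[ℂ] H)) (N : VonNeumannAlgebra H)
    (hπ : ∀ a, π a ∈ N) {z : H →L[ℂ] H}
    (hz : ∀ (Ω : H) (η : ℝ), 0 < η → ∃ (m : ℕ) (ξ : Fin m → H) (C : ℝ), (∀ i, TrVec N (ξ i)) ∧
      0 ≤ C ∧ ∀ y ∈ N, ‖y (z Ω)‖ ≤ η * ‖y‖ + C * ∑ i, ‖y (ξ i)‖)
    (G : Finset H) (U : Finset D) (hU : ∀ u ∈ U, u ∈ unitary D) {η : ℝ} (hη : 0 < η) :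
    ∃ s : SData D D, ∀ u ∈ U, ∀ ζ ∈ G, ‖π (u - s.ev u) (z ζ)‖ ≤ η := by
  choose m ξ C hξ hC hd using fun Ω => hz Ω (η / 4) (by positivity)
  let ξ' : (Σ ζ : G, Fin (m ζ)) → H := fun p => ξ p.1 p.2
  have htr : IsTr (vfun π ξ') := fun x => by
    have h := vfun_qstz π ξ' (star x)
    rw [star_star] at h
    rw [h, vfun_qstz, map_star]
    exact congrArg _ (Finset.sum_congr rfl fun p _ => by rw [hξ _ _ _ (hπ x)])
  set B : ℝ := ∑ ζ ∈ G, C ζ * m ζ with hB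
  have hB1 : ∀ ζ ∈ G, 0 ≤ C ζ * m ζ := fun ζ _ => mul_nonneg (hC ζ) (Nat.cast_nonneg _)
  have hB0 : 0 ≤ B := Finset.sum_nonneg hB1
  set t : ℝ := η / 2 / (B + 1) with ht
  have ht0 : 0 < t := by positivity
  obtain ⟨s, hs⟩ := hD _ htr U hU (t ^ 2) (by positivity)
  refine ⟨s, fun u hu ζ hζ => ?_⟩
  have hu1 : ‖u‖ ≤ 1 := by
    rcases subsingleton_or_nontrivial D with h | h
    · simp [Subsingleton.elim u 0]
    · exact (CStarRing.norm_of_mem_unitary (hU u hu)).le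
  have h0 := hs u hu
  rw [vfun_qstz, Complex.ofReal_re] at h0
  have h1 : ∀ i, ‖π (u - s.ev u) (ξ ζ i)‖ ≤ t := fun i =>
    (pow_le_pow_iff_left₀ (norm_nonneg _) ht0.le two_ne_zero).1 (le_trans
      (Finset.single_le_sum (f := fun p => ‖π (u - s.ev u) (ξ' p)‖ ^ 2) (fun _ _ => sq_nonneg _)
        (Finset.mem_univ ⟨⟨ζ, hζ⟩, i⟩)) h0)
  have h2 : ∑ i, ‖π (u - s.ev u) (ξ ζ i)‖ ≤ m ζ * t := by
    simpa using Finset.sum_le_card_nsmul Finset.univ _ t fun i _ => h1 i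
  have h3 : C ζ * m ζ ≤ B + 1 := (Finset.single_le_sum hB1 hζ).trans (by linarith)
  have h4 : (B + 1) * t = η / 2 := by rw [ht]; field_simp
  have h5 : ‖π (u - s.ev u)‖ ≤ 2 := (NonUnitalStarAlgHom.norm_apply_le π _).trans (by
    linarith [norm_sub_le u (s.ev u), s.norm_ev_le hu1])
  have h6 := mul_le_mul_of_nonneg_left h2 (hC ζ)
  have h7 := mul_le_mul_of_nonneg_right h3 ht0.le
  have h8 := mul_le_mul_of_nonneg_left h5 (show 0 ≤ η / 4 by positivity)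
  have h9 := hd ζ _ (hπ (u - s.ev u))
  rw [mul_assoc] at h7
  linarith

end Ulam
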