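import Pool.Agent.P.MP_3be8c7_an.QL2B
import Pool.Agent.P.MP_3be8c7_an.QMB
import Pool.Agent.P.MP_3be8c7_an.KQ
import Pool.Agent.P.MP_3be8c7_an.BUB
import Pool.Agent.P.MP_3be8c7_an.AV

open scoped ComplexOrder InnerProductSpace
open Filter Topology
open ContinuousLinearMap (adjoint)

noncomputable section

namespace Ulam

universe u v w

/-- The linear map on matrices given by a kernel. -/
def Rm {J B : Type*} [Fintype J] [AddCommMonoid B] [Module ℂ B] (r : J → J → B)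
    (x : Matrix J J ℂ) : B := ∑ j, ∑ k, x j k • r j k

section Aux

variable {H : Type v} [NormedAddCommGroup H] [InnerProductSpace ℂ H] [CompleteSpace H]
variable {K : Type w} [NormedAddCommGroup K] [InnerProductSpace ℂ K] [CompleteSpace K]
variable {J : Type} [Fintype J] [DecidableEq J]

omit [DecidableEq J] in
theorem Rm_lin_qta {B : Type*} [AddCommMonoid B] [Module ℂ B] (r : J → J → B) (c : Fin 4 → ℂ)
    (w : Fin 4 → Matrix J J ℂ) : Rm r (∑ i, c i • w i) = ∑ i, c i • Rm r (w i) := by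
  simp only [Rm, Matrix.sum_apply, Matrix.smul_apply, Finset.sum_smul, Finset.smul_sum, smul_smul,
    smul_eq_mul]
  rw [Finset.sum_comm (s := (Finset.univ : Finset (Fin 4)))]
  exact Finset.sum_congr rfl fun j _ => Finset.sum_comm

omit [CompleteSpace H] in
theorem q_vec_qta {Φ : H →L[ℂ] H} (hΦ : ‖Φ‖ ≤ 1) (u u' : H) :
    (⟪u', Φ u'⟫_ℂ).re - ‖u - u'‖ * (‖u‖ + ‖u'‖) ≤ (⟪u, Φ u⟫_ℂ).re := by
  have h0 : ∀ a b : H, -(‖a‖ * ‖b‖) ≤ (⟪a, Φ b⟫_ℂ).re := fun a b => by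
    refine le_trans (neg_le_neg ?_) (neg_le_of_abs_le (Complex.abs_re_le_norm _))
    exact (norm_inner_le_norm _ _).trans (mul_le_mul_of_nonneg_left
      ((Φ.le_opNorm b).trans (mul_le_of_le_one_left (norm_nonneg _) hΦ)) (norm_nonneg _))
  have h1 := h0 (u - u') u
  have h2 := h0 u' (u - u')
  rw [inner_sub_left, Complex.sub_re] at h1
  rw [map_sub, inner_sub_right, Complex.sub_re] at h2
  linarith

omit [CompleteSpace H] in
theorem q_op_qta {S T : H →L[ℂ] H} {c : ℝ} (h : ‖S - T‖ ≤ c) (u : H) :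
    (⟪u, T u⟫_ℂ).re - c * ‖u‖ ^ 2 ≤ (⟪u, S u⟫_ℂ).re := by
  have h1 := neg_le_of_abs_le ((Complex.abs_re_le_norm ⟪u, (S - T) u⟫_ℂ).trans
    ((norm_inner_le_norm _ _).trans (mul_le_mul_of_nonneg_left
      (((S - T).le_opNorm u).trans (mul_le_mul_of_nonneg_right h (norm_nonneg _)))
        (norm_nonneg _))))
  rw [sub_apply, inner_sub_right, Complex.sub_re] at h1
  linarith

theorem signs_qta (a : J → J → ℝ) :
    ∃ d : J → ℝ, (∀ j, d j = 1 ∨ d j = -1) ∧ ∑ j, ∑ k, d j * d k * a j k ≤ ∑ j, a j j := by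
  let s : Bool → ℝ := fun b => if b then 1 else -1
  have hs : ∀ b, s (!b) = -s b := fun b => by cases b <;> simp [s]
  have h1 : ∀ j k, j ≠ k → ∑ d : J → Bool, s (d j) * s (d k) = 0 := fun j k h => by
    have h2 : Function.Involutive fun d : J → Bool => Function.update d j (!d j) := fun d => by
      simp
    have h3 := Equiv.sum_comp h2.toPerm fun d : J → Bool => s (d j) * s (d k)
    simp only [Function.Involutive.coe_toPerm, Function.update_self, Function.update_of_ne h.symm,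
      hs, neg_mul, Finset.sum_neg_distrib] at h3
    linarith
  have h2 : ∑ d : J → Bool, ∑ j, ∑ k, s (d j) * s (d k) * a j k ≤ ∑ _d : J → Bool, ∑ j, a j j := by
    rw [Finset.sum_comm, Finset.sum_comm (f := fun _ j => a j j)]
    refine Finset.sum_le_sum fun j _ => le_of_eq ?_
    rw [Finset.sum_comm, Finset.sum_eq_single j (fun k _ hk => by
      rw [← Finset.sum_mul, h1 j k hk.symm, zero_mul]) (by simp)]
    refine Finset.sum_congr rfl fun d _ => ?_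
    cases d j <;> simp [s]
  obtain ⟨d, -, hd⟩ := Finset.exists_le_of_sum_le Finset.univ_nonempty h2
  exact ⟨fun j => s (d j), fun j => by
    show s (d j) = 1 ∨ s (d j) = -1
    cases d j <;> simp [s], hd⟩

omit [DecidableEq J] in
theorem gram_qta {r : J → J → (H →L[ℂ] H)} (h : KerPos r) :
    ∃ (K : Type v) (_ : NormedAddCommGroup K) (_ : InnerProductSpace ℂ K) (_ : CompleteSpace K)
      (V : J → (H →L[ℂ] K)), ∀ j k, adjoint (V j) ∘L V k = r j k := by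
  obtain ⟨K, _, _, _, ε, hε⟩ := exists_l2 J H
  obtain ⟨X, hX⟩ := hε.exists_of_matrix r
  have hs : IsSelfAdjoint X := hε.ext_ent fun i j => by rw [← ent_star, hX, hX, h.star_eq]
  have h0 : 0 ≤ X := by
    refine (ContinuousLinearMap.nonneg_iff_isPositive _).2
      ((ContinuousLinearMap.isPositive_iff' _).2 ⟨hs, fun ζ => ?_⟩)
    have e1 : ∑ i, ε i (adjoint (ε i) ζ) = ζ := (hasSum_fintype _).unique (hε.total ζ)
    have h1 := h fun i => adjoint (ε i) ζ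
    simp only [← hX] at h1
    rw [ent_inner_qmb, e1] at h1
    exact h1.trans_eq (hs.isSymmetric ζ ζ).symm
  obtain ⟨c, hc⟩ := CStarAlgebra.nonneg_iff_eq_star_mul_self.1 h0
  refine ⟨K, inferInstance, inferInstance, inferInstance, fun j => c ∘L ε j, fun j k => ?_⟩
  rw [← hX, hc, ContinuousLinearMap.adjoint_comp]
  rfl

/-- The representation of the matrix algebra on a Hilbert sum. -/
def piq (ε : J → (H →L[ℂ] K)) (x : Matrix J J ℂ) : K →L[ℂ] K :=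
  Rm (fun j k => ε j ∘L adjoint (ε k)) x

variable {ε : J → (H →L[ℂ] K)}

omit [DecidableEq J] in
theorem adj_sum_qta (h : IsL2 ε) (y : J → H) (k : J) : adjoint (ε k) (∑ l, ε l (y l)) = y k := by
  rw [map_sum, Finset.sum_eq_single k (fun l _ hl => h.ne_ql2 hl.symm _) (by simp), h.self_ql2]

omit [DecidableEq J] in
theorem piq_apply (x : Matrix J J ℂ) (ζ : K) :
    piq ε x ζ = ∑ j, ε j (∑ k, x j k • adjoint (ε k) ζ) := by
  simp [piq, Rm]

omit [DecidableEq J] in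
theorem piq_sum (h : IsL2 ε) (x : Matrix J J ℂ) (y : J → H) :
    piq ε x (∑ l, ε l (y l)) = ∑ j, ε j (∑ k, x j k • y k) := by
  simp only [piq_apply, adj_sum_qta h]

theorem piq_norm (h : IsL2 ε) {x : Matrix J J ℂ} (hx : Contr x) (ζ : K) : ‖piq ε x ζ‖ ≤ ‖ζ‖ := by
  refine (sq_le_sq₀ (norm_nonneg _) (norm_nonneg _)).1 ?_
  rw [piq_apply, h.norm_sum_sq]
  exact (hx.sum_norm_sq_le _).trans (h.sum_le _ ζ)

omit [DecidableEq J] in
theorem piq_adj (x : Matrix J J ℂ) : adjoint (piq ε x) = piq ε (star x) := by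
  rw [← ContinuousLinearMap.star_eq_adjoint, piq, piq, Rm, Rm, star_sum, Finset.sum_comm]
  refine Finset.sum_congr rfl fun j _ => ?_
  rw [star_sum]
  refine Finset.sum_congr rfl fun k _ => ?_
  rw [star_smul, Matrix.star_apply, ContinuousLinearMap.star_eq_adjoint,
    ContinuousLinearMap.adjoint_comp, ContinuousLinearMap.adjoint_adjoint]

theorem piq_one (h : IsL2 ε) (ζ : K) : piq ε 1 ζ = ζ := by
  simp only [piq_apply, Matrix.one_apply, ite_smul, one_smul, zero_smul, Finset.sum_ite_eq,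
    Finset.mem_univ, if_true]
  exact (hasSum_fintype _).unique (h.total ζ)

theorem piq_mul (h : IsL2 ε) (x y : Matrix J J ℂ) (ζ : K) :
    piq ε x (piq ε y ζ) = piq ε (x * y) ζ := by
  rw [piq_apply y, piq_sum h, piq_apply]
  refine Finset.sum_congr rfl fun j _ => congrArg _ ?_
  simp only [Matrix.mul_apply, Finset.smul_sum, Finset.sum_smul, smul_smul]
  exact Finset.sum_comm

theorem core_qta {H' : Type*} [NormedAddCommGroup H'] [InnerProductSpace ℂ H'] [CompleteSpace H']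
    {ε : J → (H' →L[ℂ] K)} (h : IsL2 ε) (W : H →L[ℂ] K) {r : J → J → (H →L[ℂ] H)}
    (hR : ∀ x ξ, adjoint W (piq ε x (W ξ)) = Rm r x ξ) {Φ : H →L[ℂ] H} {t : ℝ} (ht : 0 ≤ t)
    (ht1 : t ≤ 1) (hB : ‖Rm r 1‖ ≤ 2) (hΦ : ‖Φ‖ ≤ 1)
    (hw : ∀ w : Matrix J J ℂ, star w * w = 1 → ‖Rm r (star w) * Rm r w - Rm r 1 * Rm r 1‖ ≤ t ∧
      ‖Rm r 1 * Rm r w - Rm r w * Rm r 1‖ ≤ t)
    (h1 : ‖Rm r 1 * Φ - Φ‖ ≤ t) (h2 : ‖Φ * Rm r 1 - Φ‖ ≤ t) :
    ‖W‖ ≤ 2 ∧ ∀ x : Matrix J J ℂ, Contr x → ∀ ζ,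
      (⟪adjoint W ζ, (Rm r (star x) * Φ * Rm r x) (adjoint W ζ)⟫_ℂ).re - 44 * √t * ‖ζ‖ ^ 2 ≤
        (⟪adjoint W (piq ε x ζ), Φ (adjoint W (piq ε x ζ))⟫_ℂ).re := by
  have hB1 : ∀ ξ, adjoint W (W ξ) = Rm r 1 ξ := fun ξ => by rw [← hR, piq_one h]
  have hW2 : ‖W‖ * ‖W‖ ≤ 2 := by
    rw [← ContinuousLinearMap.norm_adjoint_comp_self,
      show adjoint W ∘L W = Rm r 1 from ContinuousLinearMap.ext hB1]
    exact hB
  have hW : ‖W‖ ≤ 2 := by nlinarith [norm_nonneg W]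
  have hW' : ∀ ζ, ‖adjoint W ζ‖ ≤ ‖W‖ * ‖ζ‖ := fun ζ => by
    simpa using (adjoint W).le_opNorm ζ
  have hRn : ∀ x, Contr x → ‖Rm r x‖ ≤ 2 := fun x hx =>
    ContinuousLinearMap.opNorm_le_bound _ zero_le_two fun ξ => by
      rw [← hR]
      calc _ ≤ ‖W‖ * (‖W‖ * ‖ξ‖) := (hW' _).trans (mul_le_mul_of_nonneg_left
            ((piq_norm h hx _).trans (W.le_opNorm ξ)) (norm_nonneg _))
        _ ≤ _ := by rw [← mul_assoc]; gcongr
  have hRs : ∀ x, adjoint (Rm r x) = Rm r (star x) := fun x => by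
    rw [show Rm r x = adjoint W ∘L piq ε x ∘L W from (ContinuousLinearMap.ext (hR x)).symm,
      ContinuousLinearMap.adjoint_comp, ContinuousLinearMap.adjoint_comp,
      ContinuousLinearMap.adjoint_adjoint, piq_adj]
    exact ContinuousLinearMap.ext (hR _)
  have hBs : adjoint (Rm r 1) = Rm r 1 := by rw [hRs, star_one]
  let Z : Matrix J J ℂ → (K →L[ℂ] H) := fun x =>
    Rm r 1 ∘L adjoint W ∘L piq ε x - Rm r x ∘L adjoint W
  have hs := Real.sqrt_nonneg t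
  have hZu : ∀ w : Matrix J J ℂ, star w * w = 1 → ‖Z w‖ ≤ 2 * √t := fun w h3 => by
    have h4 : w * star w = 1 := mul_eq_one_comm.1 h3
    obtain ⟨h5, h6⟩ := hw (star w) (by rw [star_star, h4])
    rw [star_star] at h5
    have h7 : Z w ∘L adjoint (Z w) = Rm r w * (Rm r 1 * Rm r (star w) - Rm r (star w) * Rm r 1) -
        Rm r 1 * (Rm r w * Rm r (star w) - Rm r 1 * Rm r 1) := by
      ext ξ
      simp only [Z, map_sub, ContinuousLinearMap.adjoint_comp, ContinuousLinearMap.adjoint_adjoint,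
        piq_adj, hRs, star_one, ContinuousLinearMap.comp_apply, sub_apply,
        ContinuousLinearMap.mul_apply, piq_mul h, h4, piq_one h, hR, hB1]
      abel
    have h8 := ContinuousLinearMap.norm_adjoint_comp_self (adjoint (Z w))
    rw [ContinuousLinearMap.adjoint_adjoint, h7, LinearIsometryEquiv.norm_map] at h8
    have h9 := (norm_sub_le _ _).trans (add_le_add ((norm_mul_le _ _).trans (mul_le_mul
      (hRn w (contr_of_unitary h3)) h6 (norm_nonneg _) zero_le_two))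
      ((norm_mul_le _ _).trans (mul_le_mul hB h5 (norm_nonneg _) zero_le_two)))
    rw [h8] at h9
    refine (sq_le_sq₀ (norm_nonneg _) (by positivity)).1 ?_
    rw [mul_pow, Real.sq_sqrt ht]
    linarith
  refine ⟨hW, fun x hx ζ => ?_⟩
  have hZ : ‖Z x‖ ≤ 4 * √t := by
    obtain ⟨w, c, rfl, hc⟩ := exists_four (τ := fun _ : J => ()) (fun _ _ h => (h rfl).elim) hx
    have h3 : Z (∑ i, c i • (w i).mat) = ∑ i, c i • Z (w i).mat := by
      ext ζ
      simp only [Z, piq, Rm_lin_qta, sub_apply, ContinuousLinearMap.comp_apply,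
        sum_apply, smul_apply, map_sum, map_smul, smul_sub,
        Finset.sum_sub_distrib]
    rw [h3]
    refine (norm_sum_le _ _).trans ((Finset.sum_le_sum fun i _ => (norm_smul_le _ _).trans
      (mul_le_mul (hc i) (hZu _ (w i).star_mul_self) (norm_nonneg _) (by norm_num))).trans ?_)
    simp only [Finset.sum_const, Finset.card_univ, Fintype.card_fin, nsmul_eq_mul]
    linarith
  have hz := norm_nonneg ζ
  have h3 : ‖Rm r 1 * Φ * Rm r 1 - Φ‖ ≤ 3 * t := by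
    have e : Rm r 1 * Φ * Rm r 1 - Φ = Rm r 1 * (Φ * Rm r 1 - Φ) + (Rm r 1 * Φ - Φ) := by
      noncomm_ring
    have h4 := (norm_add_le _ _).trans (add_le_add ((norm_mul_le _ _).trans
      (mul_le_mul hB h2 (norm_nonneg _) zero_le_two)) h1)
    rw [e]
    linarith
  set u := adjoint W (piq ε x ζ) with hu
  set u' := Rm r x (adjoint W ζ) with hu'
  have hun : ‖u‖ ≤ 2 * ‖ζ‖ :=
    (hW' _).trans (mul_le_mul hW (piq_norm h hx ζ) (norm_nonneg _) zero_le_two)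
  have hun' : ‖u'‖ ≤ 2 * (2 * ‖ζ‖) := ((Rm r x).le_opNorm _).trans (mul_le_mul (hRn x hx)
    ((hW' _).trans (mul_le_mul_of_nonneg_right hW hz)) (norm_nonneg _) zero_le_two)
  have hBu : ‖Rm r 1 u‖ ≤ 2 * (2 * ‖ζ‖) :=
    ((Rm r 1).le_opNorm _).trans (mul_le_mul hB hun (norm_nonneg _) zero_le_two)
  have h4 := q_op_qta (S := Φ) (T := Rm r 1 * Φ * Rm r 1) ((norm_sub_rev _ _).trans_le h3) u
  have h5 := q_vec_qta hΦ (Rm r 1 u) u'
  have h6 : ‖Rm r 1 u - u'‖ ≤ 4 * √t * ‖ζ‖ :=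
    ((Z x).le_opNorm ζ).trans (mul_le_mul_of_nonneg_right hZ hz)
  have e1 : ⟪u, (Rm r 1 * Φ * Rm r 1) u⟫_ℂ = ⟪Rm r 1 u, Φ (Rm r 1 u)⟫_ℂ := by
    rw [← ContinuousLinearMap.adjoint_inner_right (Rm r 1), hBs]; rfl
  have e2 : ⟪adjoint W ζ, (Rm r (star x) * Φ * Rm r x) (adjoint W ζ)⟫_ℂ = ⟪u', Φ u'⟫_ℂ := by
    rw [hu', ← ContinuousLinearMap.adjoint_inner_right (Rm r x), hRs]; rfl
  have h7 : ‖Rm r 1 u - u'‖ * (‖Rm r 1 u‖ + ‖u'‖) ≤ 4 * √t * ‖ζ‖ * (8 * ‖ζ‖) :=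
    mul_le_mul h6 (by linarith) (by positivity) (by positivity)
  have h8 : t ≤ √t := Real.le_sqrt_of_sq_le (by nlinarith)
  have h9 : t * ‖u‖ ^ 2 ≤ √t * (2 * ‖ζ‖) ^ 2 := by gcongr
  rw [e1] at h4
  rw [e2]
  linarith

end Aux

theorem testa : ∃ C : ℝ, 0 < C ∧
    ∀ (H : Type v) [NormedAddCommGroup H] [InnerProductSpace ℂ H] [CompleteSpace H]
      (J : Type) [Fintype J] [DecidableEq J] (r : J → J → (H →L[ℂ] H)) (Φ Y : H →L[ℂ] H)
      (Φ' : J → (H →L[ℂ] H)) (p : Matrix J J ℂ) (j₀ : J) (t : ℝ), 0 ≤ t → t ≤ 1 → KerPos r →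
      ‖Rm r 1‖ ≤ 2 → ‖Φ‖ ≤ 1 → Contr p →
      (∀ w : Matrix J J ℂ, star w * w = 1 → ‖Rm r (star w) * Rm r w - Rm r 1 * Rm r 1‖ ≤ t ∧
        ‖Rm r 1 * Rm r w - Rm r w * Rm r 1‖ ≤ t) →
      ‖Rm r 1 * Φ - Φ‖ ≤ t → ‖Φ * Rm r 1 - Φ‖ ≤ t →
      (∀ d : J → ℂ, (∀ j, d j = 1 ∨ d j = -1) →
        ‖Rm r (Matrix.diagonal d) * Φ * Rm r (Matrix.diagonal d) - Φ‖ ≤ t) →
      ‖Rm r (star p) * Φ * Rm r p - Y‖ ≤ t → (∀ ζ, -(t * ‖ζ‖ ^ 2) ≤ (⟪ζ, Y ζ⟫_ℂ).re) →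
      (∀ j, ‖r j₀ j * Φ * r j j₀ - Φ' j‖ ≤ t) →
      ∀ γ : J → H, -(C * √t * ∑ j, ‖γ j‖ ^ 2) ≤
        (∑ j, ⟪∑ k, p j k • γ k, Φ' j (∑ k, p j k • γ k)⟫_ℂ).re := by
  refine ⟨401, by norm_num, ?_⟩
  intro H _ _ _ J _ _ r Φ Y Φ' p j₀ t ht ht1 hr hB hΦ hp hw h1 h2 hd hY hY0 hΦ' γ
  obtain ⟨K, _, _, _, V, hV⟩ := gram_qta hr
  obtain ⟨K₂, _, _, _, ε, hε⟩ := exists_l2 J K
  have hV' : ∀ j k ξ, adjoint (V j) (V k ξ) = r j k ξ := fun j k ξ => congr($(hV j k) ξ)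
  let W : H →L[ℂ] K₂ := ∑ j, ε j ∘L V j
  have hW1 : ∀ ξ, W ξ = ∑ j, ε j (V j ξ) := fun ξ => by simp [W]
  have hW2 : ∀ y : J → K, adjoint W (∑ j, ε j (y j)) = ∑ j, adjoint (V j) (y j) := fun y => by
    simp only [W, map_sum (adjoint : (H →L[ℂ] K₂) ≃ₗᵢ⋆[ℂ] _), ContinuousLinearMap.adjoint_comp,
      sum_apply, ContinuousLinearMap.comp_apply, adj_sum_qta hε]
  obtain ⟨hW, hc⟩ := core_qta hε W (r := r) (fun x ξ => by
    rw [hW1, piq_sum hε, hW2]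
    simp [Rm, hV']) ht ht1 hB hΦ hw h1 h2
  have hW' : ∀ ζ, ‖adjoint W ζ‖ ^ 2 ≤ 4 * ‖ζ‖ ^ 2 := fun ζ => by
    have h3 := (adjoint W).le_opNorm ζ
    rw [LinearIsometryEquiv.norm_map] at h3
    calc _ ≤ (2 * ‖ζ‖) ^ 2 := by gcongr; exact h3.trans (by gcongr)
      _ = _ := by ring
  set g : J → H := fun j => ∑ k, p j k • γ k with hg
  set G := ∑ j, ‖γ j‖ ^ 2 with hG
  let Ω : K₂ := ∑ j, ε j (V j₀ (γ j))
  have hΩ : ‖Ω‖ ^ 2 ≤ 4 * G := by
    rw [hε.norm_sum_sq, hG, Finset.mul_sum]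
    refine Finset.sum_le_sum fun j _ => ?_
    have h3 : ‖V j₀ (γ j)‖ ^ 2 ≤ ‖W (γ j)‖ ^ 2 := by
      rw [hW1, hε.norm_sum_sq]
      exact Finset.single_le_sum (f := fun k => ‖V k (γ j)‖ ^ 2) (fun _ _ => sq_nonneg _)
        (Finset.mem_univ j₀)
    calc _ ≤ (2 * ‖γ j‖) ^ 2 := h3.trans (by gcongr; exact (W.le_opNorm _).trans (by gcongr))
      _ = _ := by ring
  have hη : piq ε p Ω = ∑ j, ε j (V j₀ (g j)) := by
    rw [piq_sum hε]
    simp only [hg, map_sum, map_smul]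
  have hηn : ‖piq ε p Ω‖ ^ 2 ≤ 4 * G :=
    (pow_le_pow_left₀ (norm_nonneg _) (piq_norm hε hp Ω) 2).trans hΩ
  obtain ⟨d, hd1, hd2⟩ := signs_qta fun j k => (⟪r j j₀ (g j), Φ (r k j₀ (g k))⟫_ℂ).re
  have hst : star (Matrix.diagonal fun j => (d j : ℂ)) = Matrix.diagonal fun j => (d j : ℂ) := by
    rw [Matrix.star_eq_conjTranspose, Matrix.diagonal_conjTranspose]
    congr 1
    ext j
    simp
  have hun : Contr (Matrix.diagonal fun j => (d j : ℂ)) := contr_of_unitary (by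
    rw [hst, Matrix.diagonal_mul_diagonal, ← Matrix.diagonal_one]
    congr 1
    ext j
    rcases hd1 j with h | h <;> simp [h])
  have a1 := hc _ hun (piq ε p Ω)
  have a2 := hc _ hp Ω
  have a3 := q_op_qta (hd (fun j => (d j : ℂ)) fun j => by
    rcases hd1 j with h | h <;> simp [h]) (adjoint W (piq ε p Ω))
  have a4 := q_op_qta hY (adjoint W Ω)
  have a5 := hY0 (adjoint W Ω)
  have e1 : adjoint W (piq ε (Matrix.diagonal fun j => (d j : ℂ)) (piq ε p Ω)) =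
      ∑ j, (d j : ℂ) • r j j₀ (g j) := by
    rw [hη, piq_sum hε, hW2]
    simp [Matrix.diagonal_apply, hV']
  have e2 : (⟪∑ j, (d j : ℂ) • r j j₀ (g j), Φ (∑ j, (d j : ℂ) • r j j₀ (g j))⟫_ℂ).re =
      ∑ j, ∑ k, d j * d k * (⟪r j j₀ (g j), Φ (r k j₀ (g k))⟫_ℂ).re := by
    rw [sum_inner, Complex.re_sum]
    refine Finset.sum_congr rfl fun j _ => ?_
    rw [map_sum Φ, inner_sum, Complex.re_sum]
    refine Finset.sum_congr rfl fun k _ => ?_
    rw [map_smul, inner_smul_left, inner_smul_right, Complex.conj_ofReal, Complex.re_ofReal_mul,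
      Complex.re_ofReal_mul, mul_assoc]
  rw [hst, e1, e2] at a1
  have a6 : ∑ j, (⟪r j j₀ (g j), Φ (r j j₀ (g j))⟫_ℂ).re - t * ∑ j, ‖g j‖ ^ 2 ≤
      (∑ j, ⟪g j, Φ' j (g j)⟫_ℂ).re := by
    rw [Complex.re_sum, Finset.mul_sum, ← Finset.sum_sub_distrib]
    refine Finset.sum_le_sum fun j _ => le_trans (le_of_eq ?_)
      (q_op_qta ((norm_sub_rev _ _).trans_le (hΦ' j)) (g j))
    rw [← ContinuousLinearMap.adjoint_inner_right, ← ContinuousLinearMap.star_eq_adjoint,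
      hr.star_eq]
    rfl
  have h8 : t ≤ √t := Real.le_sqrt_of_sq_le (by nlinarith)
  have hs := Real.sqrt_nonneg t
  have hG0 : 0 ≤ G := Finset.sum_nonneg fun _ _ => sq_nonneg _
  have b1 : t * ∑ j, ‖g j‖ ^ 2 ≤ √t * G :=
    mul_le_mul h8 (hp.sum_norm_sq_le γ) (Finset.sum_nonneg fun _ _ => sq_nonneg _) hs
  have b2 : t * ‖adjoint W Ω‖ ^ 2 ≤ √t * (16 * G) :=
    mul_le_mul h8 ((hW' _).trans (by linarith)) (sq_nonneg _) hs
  have b3 : t * ‖adjoint W (piq ε p Ω)‖ ^ 2 ≤ √t * (16 * G) :=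
    mul_le_mul h8 ((hW' _).trans (by linarith)) (sq_nonneg _) hs
  have b4 := mul_le_mul_of_nonneg_left hΩ hs
  have b5 := mul_le_mul_of_nonneg_left hηn hs
  linarith

end Ulam
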