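import Pool.Agent.P.MP_3be8c7_an.QTA
import Pool.Agent.P.MP_3be8c7_an.OZLIN
import Pool.Agent.P.MP_3be8c7_an.APX
import Pool.Agent.P.MP_3be8c7_an.OZB

open scoped ComplexOrder InnerProductSpace
open Filter Topology
open ContinuousLinearMap (adjoint)

noncomputable section

namespace Ulam

universe u v w

section
variable {R : Type w} [CStarAlgebra R] [PartialOrder R] [StarOrderedRing R]
variable {J : Type*} [Fintype J]

theorem col_mul_qtb (c b : J → R) (hc : ∀ j, ‖c j‖ ≤ 1) (hb : ‖∑ j, star (b j) * b j‖ ≤ 1) :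
    ‖∑ j, star (c j * b j) * (c j * b j)‖ ≤ 1 := by
  refine le_trans (CStarAlgebra.norm_le_norm_of_nonneg_of_le
    (Finset.sum_nonneg fun j _ => star_mul_self_nonneg _) (Finset.sum_le_sum fun j _ => ?_)) hb
  have h1 : star (c j) * c j ≤ 1 := by
    rw [← CStarAlgebra.norm_le_one_iff_of_nonneg _ (star_mul_self_nonneg _),
      CStarRing.norm_star_mul_self]
    exact mul_le_one₀ (hc j) (norm_nonneg _) (hc j)
  have h2 := star_left_conjugate_le_conjugate h1 (b j)
  rw [mul_one] at h2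
  refine le_trans (le_of_eq ?_) h2
  simp only [star_mul, mul_assoc]

theorem norm_X_qtb (x d : J → R) (hx : ∀ j, ‖x j‖ ≤ 1) (hd : ‖∑ j, star (d j) * d j‖ ≤ 1) :
    ‖∑ j, star (d j) * x j * d j‖ ≤ 1 := by
  have h1 := (CStarAlgebra.norm_le_norm_of_nonneg_of_le (star_mul_self_nonneg _)
    (col_cs d (fun j => x j * d j) hd)).trans (col_mul_qtb x d hx hd)
  rw [CStarRing.norm_star_mul_self] at h1
  simp only [mul_assoc]
  nlinarith [norm_nonneg (∑ j, star (d j) * (x j * d j))]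

omit [PartialOrder R] [StarOrderedRing R] in
theorem sand_qtb (x d : J → R) (a b : R) :
    star a * (∑ j, star (d j) * x j * d j) * b = ∑ j, star (d j * a) * x j * (d j * b) := by
  simp only [Finset.mul_sum, Finset.sum_mul, star_mul, mul_assoc]

variable [DecidableEq J] {v : J → R} {h : R}

omit [PartialOrder R] [StarOrderedRing R] [Fintype J] [DecidableEq J] in
theorem unit_qtb (o : OZH v h) (j : J) : h * (star (v j) * v j) = h := by
  have := congrArg star (o.unit j)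
  rwa [star_mul, star_mul, star_star, o.sa.star_eq] at this

omit [PartialOrder R] [StarOrderedRing R] in
theorem d_hpsi_qtb (o : OZH v h) (y : Matrix J J ℂ) (j : J) :
    h * star (v j) * hpsi v y = ∑ k, y j k • (h * star (v k)) := by
  have h1 : star (v j) * psi v 1 = star (v j) * v j * star (v j) := by
    rw [o.oz.star_mul_psi_ozb]
    simp [Matrix.one_apply]
  rw [hpsi, mul_assoc, ← mul_assoc (star (v j)), h1, ← mul_assoc, ← mul_assoc, unit_qtb o,
    mul_assoc, o.oz.star_mul_psi_ozb, Finset.mul_sum]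
  refine Finset.sum_congr rfl fun k _ => ?_
  rw [mul_smul_comm, ← mul_assoc, unit_qtb o]

omit [PartialOrder R] [StarOrderedRing R] in
theorem star_hpsi_qtb (o : OZH v h) (y : Matrix J J ℂ) : star (hpsi v y) = hpsi v (star y) := by
  rw [hpsi, star_mul, star_psi, star_psi, star_one, hpsi]
  exact (o.oz.commute (x := star y) fun _ _ hn => (hn rfl).elim).eq.symm

end

theorem contr_single_qtb {J : Type*} [Fintype J] [DecidableEq J] (j k : J) :
    Contr (Matrix.single j k (1 : ℂ)) := by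
  unfold Contr
  rw [Matrix.star_eq_conjTranspose, Matrix.conjTranspose_single, Matrix.single_mul_single_same,
    star_one, mul_one, ← Matrix.diagonal_single, ← Matrix.diagonal_one, Matrix.diagonal_sub]
  refine Matrix.PosSemidef.diagonal fun i => ?_
  by_cases e : i = k
  · simp [e]
  · simp [e]

theorem rm_single_qtb {J B : Type*} [Fintype J] [DecidableEq J] [AddCommMonoid B] [Module ℂ B]
    (r : J → J → B) (j k : J) : Rm r (Matrix.single j k 1) = r j k := by
  simp [Rm, Matrix.single_apply, ite_and]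

theorem ap_mul_qtb {A B : Type*} [NonUnitalCStarAlgebra A] [NonUnitalCStarAlgebra B] {φ : A → B}
    {δ s s' : ℝ} (hφ : EpsHom φ δ) {a b : A} {S T : B} (ha : ‖a‖ ≤ 1) (hb : ‖b‖ ≤ 1)
    (h1 : ‖φ a - S‖ ≤ s) (h2 : ‖φ b - T‖ ≤ s') (h3 : s' ≤ 1) :
    ‖φ (a * b) - S * T‖ ≤ δ + 2 * s + s' := by
  have e : φ (a * b) - S * T = (φ (a * b) - φ a * φ b) + (φ a - S) * T + φ a * (φ b - T) := by
    noncomm_ring
  have hT : ‖T‖ ≤ 2 := by
    have := norm_le_norm_add_norm_sub (φ b) T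
    linarith [hφ.ball b hb]
  have h4 : ‖(φ a - S) * T‖ ≤ 2 * s := (norm_mul_le _ _).trans
    ((mul_le_mul h1 hT (norm_nonneg _) ((norm_nonneg _).trans h1)).trans_eq (mul_comm _ _))
  have h5 : ‖φ a * (φ b - T)‖ ≤ s' := (norm_mul_le _ _).trans
    ((mul_le_of_le_one_left (norm_nonneg _) (hφ.ball a ha)).trans h2)
  rw [e]
  exact norm_add₃_le.trans (add_le_add (add_le_add (hφ.mul a b ha hb) h4) h5)

section
variable {H : Type v} [NormedAddCommGroup H] [InnerProductSpace ℂ H] [CompleteSpace H]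

omit [CompleteSpace H] in
theorem re_ge_qtb {S T : H →L[ℂ] H} {s : ℝ} (h : ‖S - T‖ ≤ s) (ζ : H) :
    (⟪ζ, T ζ⟫_ℂ).re - s * ‖ζ‖ ^ 2 ≤ (⟪ζ, S ζ⟫_ℂ).re := by
  have h1 : ‖⟪ζ, (S - T) ζ⟫_ℂ‖ ≤ s * ‖ζ‖ ^ 2 := (norm_inner_le_norm _ _).trans (by
    have := ((S - T).le_opNorm ζ).trans (mul_le_mul_of_nonneg_right h (norm_nonneg ζ))
    nlinarith [norm_nonneg ζ])
  have h2 := (abs_le.1 ((Complex.abs_re_le_norm _).trans h1)).1
  rw [ContinuousLinearMap.sub_apply, inner_sub_right, Complex.sub_re] at h2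
  linarith

theorem pos_qtb {D : Type u} [CStarAlgebra D] [PartialOrder D] [StarOrderedRing D]
    {φ : D → (H →L[ℂ] H)} {δ : ℝ} (hφ : EpsHom φ δ) {y : D} (hy : ‖y‖ ≤ 1) (h0 : 0 ≤ y + star y)
    (ζ : H) : -(6 * δ * ‖ζ‖ ^ 2) ≤ (⟪ζ, φ y ζ⟫_ℂ).re := by
  have hs : ‖star y‖ ≤ 1 := by rwa [norm_star]
  obtain ⟨z, hz⟩ := CStarAlgebra.nonneg_iff_eq_star_mul_self.1
    (smul_nonneg (show (0 : ℝ) ≤ 2⁻¹ by norm_num) h0)
  have hz1 : ‖z‖ ≤ 1 := by
    have h1 : ‖star z * z‖ ≤ 1 := by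
      rw [← hz, norm_smul, norm_inv, Real.norm_two]
      linarith [norm_add_le y (star y)]
    rw [CStarRing.norm_star_mul_self] at h1
    nlinarith [norm_nonneg z]
  have h1 := hφ.mid y (star y) hy hs
  have h2 := hφ.star_mul z z hz1 hz1
  have h3 := hφ.star y hy
  rw [hz] at h1
  have h4 : ‖(2 : ℝ)⁻¹ • (φ y + star (φ y)) - (2 : ℝ)⁻¹ • (φ y + φ (star y))‖ ≤ δ := by
    rw [← smul_sub, add_sub_add_left_eq_sub, norm_smul, norm_inv, Real.norm_two, norm_sub_rev]
    linarith [hφ.nonneg]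
  have h5 : ‖(2 : ℝ)⁻¹ • (φ y + star (φ y)) - star (φ z) * φ z‖ ≤ 6 * δ := by
    have a := norm_sub_le_norm_sub_add_norm_sub ((2 : ℝ)⁻¹ • (φ y + star (φ y)))
      ((2 : ℝ)⁻¹ • (φ y + φ (star y))) (φ (star z * z))
    have b := norm_sub_le_norm_sub_add_norm_sub ((2 : ℝ)⁻¹ • (φ y + star (φ y)))
      (φ (star z * z)) (star (φ z) * φ z)
    rw [norm_sub_rev] at h1
    linarith
  have h6 := re_ge_qtb h5 ζ
  have h7 : 0 ≤ (⟪ζ, (star (φ z) * φ z) ζ⟫_ℂ).re := by
    rw [ContinuousLinearMap.mul_apply, ContinuousLinearMap.star_eq_adjoint,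
      ContinuousLinearMap.adjoint_inner_right]
    exact inner_self_nonneg (𝕜 := ℂ)
  have h8 : (⟪ζ, ((2 : ℝ)⁻¹ • (φ y + star (φ y))) ζ⟫_ℂ).re = (⟪ζ, φ y ζ⟫_ℂ).re := by
    rw [← Complex.coe_smul, ContinuousLinearMap.smul_apply, inner_smul_right,
      Complex.re_ofReal_mul, ContinuousLinearMap.add_apply, inner_add_right, Complex.add_re,
      ContinuousLinearMap.star_eq_adjoint, ContinuousLinearMap.adjoint_inner_right,
      ← inner_conj_symm (φ y ζ) ζ, Complex.conj_re]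
    ring
  linarith

end

theorem testb {γ : ℝ} (hγ : 0 < γ) : ∃ ε : ℝ, 0 < ε ∧
    ∀ (D : Type u) [CStarAlgebra D] [PartialOrder D] [StarOrderedRing D]
      (H : Type v) [NormedAddCommGroup H] [InnerProductSpace ℂ H] [CompleteSpace H]
      (φ : D → (H →L[ℂ] H)), EpsHom φ ε →
    ∀ (J : Type) [Fintype J] [DecidableEq J] [Nonempty J] (v : J → D) (h : D), OZH v h →
    ∀ (x : J → D), (∀ j, ‖x j‖ ≤ 1) → ∀ p : Matrix J J ℂ, Contr p →
      (∀ d : J → D, 0 ≤ (∑ j, star (∑ k, p j k • d k) * x j * ∑ k, p j k • d k) +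
        star (∑ j, star (∑ k, p j k • d k) * x j * ∑ k, p j k • d k)) →
    ∀ ζ : J → H, -(γ * ∑ j, ‖ζ j‖ ^ 2) ≤
      (∑ j, ⟪∑ k, p j k • ζ k, φ (h * x j * h) (∑ k, p j k • ζ k)⟫_ℂ).re := by
  obtain ⟨C, hC, hA⟩ := testa.{v}
  set s : ℝ := min 1 (γ / (C + 1)) with hs
  have s0 : 0 < s := lt_min one_pos (by positivity)
  have s1 : s ≤ 1 := min_le_left _ _
  have s2 : (C + 1) * s ≤ γ := by
    have : s ≤ γ / (C + 1) := min_le_right _ _
    rwa [le_div_iff₀' (by positivity)] at this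
  set δ : ℝ := s ^ 2 / 20 with hδ
  have δ0 : 0 < δ := by positivity
  have t1 : s ^ 2 ≤ s := by nlinarith
  have δ1 : δ ≤ 1 / 20 := by linarith
  obtain ⟨ε, hε, hO⟩ := ozlin.{u, v} δ0
  refine ⟨min ε δ, lt_min hε δ0, fun D _ _ _ H _ _ _ φ hφ0 J _ _ _ v h o x hx p hp hpos ζ => ?_⟩
  have hφ := hφ0.mono (min_le_right _ _)
  obtain ⟨r, -, hr, hR0⟩ := hO D H (vnC ∅) φ (hφ0.mono (min_le_left _ _))
    (fun a => mem_vnC.2 fun _ hs => hs.elim) J Unit (fun _ => ()) v o.oz
  have bk : ∀ y : Matrix J J ℂ, Blk (fun _ => ()) y := fun _ _ _ hn => (hn rfl).elim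
  have hR : ∀ {y : Matrix J J ℂ}, Contr y → ‖φ (hpsi v y) - Rm r y‖ ≤ δ := fun hy =>
    hR0 _ (bk _) hy
  have n1 : ∀ {y : Matrix J J ℂ}, Contr y → ‖hpsi v y‖ ≤ 1 := fun hy => o.oz.norm_hpsi_le hy
  have c1 : Contr (1 : Matrix J J ℂ) := contr_of_unitary (by simp)
  obtain ⟨j₀⟩ := ‹Nonempty J›
  set d : J → D := fun j => h * star (v j) with hd
  have hdc : ‖∑ j, star (d j) * d j‖ ≤ 1 := col_mul_qtb (fun _ => h) (fun j => star (v j))
    (fun _ => o.norm_le) (by simpa only [star_star] using o.oz.norm_sum_le)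
  set X : D := ∑ j, star (d j) * x j * d j with hX
  have hX1 : ‖X‖ ≤ 1 := norm_X_qtb x d hx hdc
  have hdh : ∀ y j, d j * hpsi v y = ∑ k, y j k • d k := fun y j => d_hpsi_qtb o y j
  have hd1 : ∀ j, d j * hpsi v 1 = d j := fun j => by simp [hdh, Matrix.one_apply]
  have hsw : ∀ y y', hpsi v (star y) * X * hpsi v y' =
      ∑ j, star (∑ k, y j k • d k) * x j * ∑ k, y' j k • d k := fun y y' => by
    rw [← star_hpsi_qtb o, hX, sand_qtb]
    simp only [hdh]
  have hl : hpsi v 1 * X = X := by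
    have := sand_qtb x d (hpsi v 1) 1
    simp only [hd1, mul_one, star_hpsi_qtb o, star_one] at this
    exact this
  have hr' : X * hpsi v 1 = X := by
    have := sand_qtb x d 1 (hpsi v 1)
    simp only [hd1, mul_one, star_one, one_mul] at this
    exact this
  have z0 : ‖φ X - φ X‖ ≤ 0 := by simp
  have a2 : ∀ {y y' : Matrix J J ℂ}, Contr y → Contr y' →
      ‖Rm r y * Rm r y' - φ (hpsi v y * hpsi v y')‖ ≤ 4 * δ := fun hy hy' => by
    have := ap_mul_qtb hφ (n1 hy) (n1 hy') (hR hy) (hR hy') (by linarith)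
    rw [norm_sub_rev]
    linarith
  have a3 : ∀ {y y' : Matrix J J ℂ}, Contr y → Contr y' →
      ‖Rm r y * φ X * Rm r y' - φ (hpsi v y * X * hpsi v y')‖ ≤ s ^ 2 := fun hy hy' => by
    have h1 := ap_mul_qtb hφ (n1 hy) hX1 (hR hy) z0 zero_le_one
    have h2 := ap_mul_qtb hφ ((norm_mul_le _ _).trans (mul_le_one₀ (n1 hy) (norm_nonneg _) hX1))
      (n1 hy') h1 (hR hy') (by linarith)
    rw [norm_sub_rev]
    linarith
  have key := hA H J r (φ X) (φ (hpsi v (star p) * X * hpsi v p))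
    (fun j => φ (v j₀ * (h * x j * h) * star (v j₀))) p j₀ (s ^ 2) (by positivity) (by linarith) hr
    (by
      have := norm_le_norm_add_norm_sub (φ (hpsi v 1)) (Rm r 1)
      linarith [hφ.ball _ (n1 c1), hR c1])
    (hφ.ball _ hX1) hp
    (fun w hw => by
      have cw := contr_of_unitary hw
      have h1 := a2 cw.star cw
      have h2 := a2 c1 cw
      have h3 := a2 cw c1
      rw [o.oz.hpsi_mul (bk _), hw] at h1
      rw [← (o.oz.commute_hpsi (bk w)).eq] at h3
      exact ⟨(tri_ozlin h1 (a2 c1 c1)).trans (by linarith), (tri_ozlin h2 h3).trans (by linarith)⟩)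
    (by
      have := ap_mul_qtb hφ (n1 c1) hX1 (hR c1) z0 zero_le_one
      rw [hl, norm_sub_rev] at this
      linarith)
    (by
      have := ap_mul_qtb hφ hX1 (n1 c1) z0 (hR c1) (by linarith)
      rw [hr', norm_sub_rev] at this
      linarith)
    (fun e he => by
      have h1 : star (Matrix.diagonal e) = Matrix.diagonal e := by
        rw [Matrix.star_eq_conjTranspose, Matrix.diagonal_conjTranspose]
        congr 1
        funext j
        rcases he j with a | a <;> simp [a]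
      have h2 : Contr (Matrix.diagonal e) := contr_of_unitary (by
        rw [h1, Matrix.diagonal_mul_diagonal, ← Matrix.diagonal_one]
        congr 1
        funext j
        rcases he j with a | a <;> simp [a])
      have h3 := hsw (Matrix.diagonal e) (Matrix.diagonal e)
      have h4 : ∑ j, star (∑ k, Matrix.diagonal e j k • d k) * x j *
          ∑ k, Matrix.diagonal e j k • d k = X := Finset.sum_congr rfl fun j _ => by
        rcases he j with a | a <;> simp [Matrix.diagonal_apply, a]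
      rw [h1, h4] at h3
      have h5 := a3 h2 h2
      rwa [h3] at h5)
    (a3 hp.star hp)
    (fun η => by
      have h1 : ‖hpsi v (star p) * X * hpsi v p‖ ≤ 1 := (norm_mul_le _ _).trans (mul_le_one₀
        ((norm_mul_le _ _).trans (mul_le_one₀ (n1 hp.star) (norm_nonneg _) hX1)) (norm_nonneg _)
        (n1 hp))
      refine le_trans ?_ (pos_qtb hφ h1 (by rw [hsw]; exact hpos d) η)
      exact neg_le_neg (mul_le_mul_of_nonneg_right (by linarith) (sq_nonneg _)))
    (fun j => by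
      have h1 := a3 (contr_single_qtb j₀ j) (contr_single_qtb j j₀)
      have h2 := hsw (Matrix.single j j₀ 1) (Matrix.single j j₀ 1)
      have h3 : ∑ i, star (∑ k, Matrix.single j j₀ (1 : ℂ) i k • d k) * x i *
          ∑ k, Matrix.single j j₀ (1 : ℂ) i k • d k = v j₀ * (h * x j * h) * star (v j₀) := by
        rw [Finset.sum_eq_single j (fun i _ hi => by simp [Matrix.single_apply, hi.symm]) (by simp)]
        simp [Matrix.single_apply, hd, o.sa.star_eq, mul_assoc]
      rw [h3, Matrix.star_eq_conjTranspose, Matrix.conjTranspose_single, star_one] at h2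
      rwa [h2, rm_single_qtb, rm_single_qtb] at h1)
    fun j => φ (v j₀) (ζ j)
  have hv := o.oz.norm_le j₀
  have b1 : ∀ j, ‖φ (h * x j * h) - star (φ (v j₀)) * φ (v j₀ * (h * x j * h) * star (v j₀)) *
      φ (v j₀)‖ ≤ 3 * δ := fun j => by
    have h1 : ‖h * x j * h‖ ≤ 1 := (norm_mul_le _ _).trans (mul_le_one₀
      ((norm_mul_le _ _).trans (mul_le_one₀ o.norm_le (norm_nonneg _) (hx j))) (norm_nonneg _)
      o.norm_le)
    have h2 := hφ.sandwich (v j₀) (v j₀ * (h * x j * h) * star (v j₀)) hv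
      ((norm_mul_le _ _).trans (mul_le_one₀ ((norm_mul_le _ _).trans
        (mul_le_one₀ hv (norm_nonneg _) h1)) (norm_nonneg _) (by rwa [norm_star])))
    have h3 : star (v j₀) * (v j₀ * (h * x j * h) * star (v j₀)) * v j₀ =
        star (v j₀) * v j₀ * h * x j * (h * (star (v j₀) * v j₀)) := by simp only [mul_assoc]
    rwa [h3, o.unit, unit_qtb o] at h2
  have b2 : ∀ j, (⟪∑ k, p j k • φ (v j₀) (ζ k), φ (v j₀ * (h * x j * h) * star (v j₀))
      (∑ k, p j k • φ (v j₀) (ζ k))⟫_ℂ).re - 3 * δ * ‖∑ k, p j k • ζ k‖ ^ 2 ≤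
      (⟪∑ k, p j k • ζ k, φ (h * x j * h) (∑ k, p j k • ζ k)⟫_ℂ).re := fun j => by
    have h1 := re_ge_qtb (b1 j) (∑ k, p j k • ζ k)
    rw [ContinuousLinearMap.mul_apply, ContinuousLinearMap.mul_apply,
      ContinuousLinearMap.star_eq_adjoint, ContinuousLinearMap.adjoint_inner_right,
      map_sum (φ (v j₀))] at h1
    simpa only [map_smul] using h1
  have b3 := Finset.sum_le_sum fun j (_ : j ∈ Finset.univ) => b2 j
  rw [Finset.sum_sub_distrib, ← Finset.mul_sum, ← Complex.re_sum, ← Complex.re_sum] at b3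
  have b4 := mul_le_mul_of_nonneg_left (hp.sum_norm_sq_le ζ) (show 0 ≤ 3 * δ by positivity)
  have b5 : ∑ j, ‖φ (v j₀) (ζ j)‖ ^ 2 ≤ ∑ j, ‖ζ j‖ ^ 2 := Finset.sum_le_sum fun j _ =>
    pow_le_pow_left₀ (norm_nonneg _) (((φ (v j₀)).le_opNorm _).trans
      (mul_le_of_le_one_left (norm_nonneg _) (hφ.ball _ hv))) 2
  rw [Real.sqrt_sq s0.le] at key
  have b6 := mul_le_mul_of_nonneg_left b5 (show 0 ≤ C * s by positivity)
  have b7 := mul_le_mul_of_nonneg_right (show C * s + 3 * δ ≤ γ by linarith)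
    (Finset.sum_nonneg fun j (_ : j ∈ Finset.univ) => sq_nonneg ‖ζ j‖)
  linarith

end Ulam
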