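import Pool.Agent.P.MP_3be8c7_an.QD

open scoped ComplexOrder InnerProductSpace
open Filter Topology
open ContinuousLinearMap (adjoint)

noncomputable section

namespace Ulam

universe u v w

section

variable {B : Type*} [NormedRing B] [NormedAlgebra ℂ B] [CompleteSpace B] {τ : B →L[ℂ] ℂ}

/-- The trace of the logarithmic derivative of `p` at `t` is `l`. -/
def LD_qtrl (τ : B →L[ℂ] ℂ) (p : ℂ → B) (t l : ℂ) : Prop :=
  ∃ (u : Bˣ) (q : B), p t = u ∧ HasDerivAt p q t ∧ τ (↑u⁻¹ * q) = l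

omit [CompleteSpace B] in
theorem mul_qtrl (hτ : ∀ a b, τ (a * b) = τ (b * a)) {p q : ℂ → B} {t l m : ℂ}
    (hp : LD_qtrl τ p t l) (hq : LD_qtrl τ q t m) : LD_qtrl τ (fun s => p s * q s) t (l + m) := by
  obtain ⟨u, a, h1, h2, rfl⟩ := hp
  obtain ⟨v, b, h3, h4, rfl⟩ := hq
  refine ⟨u * v, _, congrArg₂ _ h1 h3, h2.mul h4, ?_⟩
  rw [h1, h3, mul_inv_rev, Units.val_mul, mul_add, map_add, mul_assoc, hτ, mul_assoc, mul_assoc,
    Units.mul_inv, mul_one, mul_assoc, Units.inv_mul_cancel_left]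

omit [CompleteSpace B] in
theorem const_qtrl (u : Bˣ) (t : ℂ) : LD_qtrl τ (fun _ => u) t 0 :=
  ⟨u, 0, rfl, hasDerivAt_const _ _, by simp⟩

theorem inv_qtrl (hτ : ∀ a b, τ (a * b) = τ (b * a)) {p : ℂ → B} {t l : ℂ}
    (hp : LD_qtrl τ p t l) : LD_qtrl τ (fun s => Ring.inverse (p s)) t (-l) := by
  obtain ⟨u, a, h1, h2, rfl⟩ := hp
  refine ⟨u⁻¹, _, (congrArg _ h1).trans (Ring.inverse_unit u),
    (h1 ▸ hasFDerivAt_ringInverse (𝕜 := ℂ) u).comp_hasDerivAt t h2, ?_⟩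
  simp [mul_assoc, hτ a]

theorem lin_qtrl (hτ : ∀ a b, τ (a * b) = τ (b * a)) (V : Bˣ) {x : B} {t : ℂ} (h : ‖t • x‖ < 1) :
    ∃ l, LD_qtrl τ (fun s => 1 + s • x) t l ∧ LD_qtrl τ (fun s => 1 + s • (↑V⁻¹ * x * V)) t l := by
  have h1 : LD_qtrl τ (fun s => 1 + s • x) t _ := ⟨Units.oneSub (-(t • x)) (by rwa [norm_neg]), _,
    by simp, ((hasDerivAt_id t).smul_const x).const_add 1, rfl⟩
  refine ⟨_, h1, ?_⟩
  simpa [mul_add, add_mul] using mul_qtrl hτ (mul_qtrl hτ (const_qtrl V⁻¹ t) h1) (const_qtrl V t)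

theorem const_of_qtrl (hτ : ∀ a b, τ (a * b) = τ (b * a)) {k : ℂ → B} (h0 : k 0 = 1)
    (hk : ∀ t ∈ Metric.ball (0 : ℂ) 2, LD_qtrl τ k t 0 ∧ ‖1 - k t‖ ≤ 3 / 5) :
    ∑' m : ℕ, τ ((1 - k 1) ^ (m + 1)) / (m + 1) = 0 := by
  choose! u q h1 h2 h3 using fun t ht => (hk t ht).1
  have h4 : ∀ (m : ℕ), ∀ t ∈ Metric.ball (0 : ℂ) 2, HasDerivAt
      (fun t => τ ((1 - k t) ^ (m + 1)) / (m + 1)) (-τ ((1 - k t) ^ m * q t)) t := fun m t ht => by
    refine ((τ.hasFDerivAt.comp_hasDerivAt t (((h2 t ht).const_sub 1).fun_pow' (m + 1))).div_const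
      _).congr_deriv ?_
    rw [map_sum, Finset.sum_congr rfl (g := fun _ => -τ ((1 - k t) ^ m * q t)) fun i hi => ?_,
      Finset.sum_const, Finset.card_range, nsmul_eq_mul, Nat.cast_succ,
      mul_div_cancel_left₀ _ (Nat.cast_add_one_ne_zero m)]
    rw [hτ, ← mul_assoc, ← pow_add, Nat.pred_succ,
      Nat.add_sub_cancel' (Nat.lt_succ_iff.1 (Finset.mem_range.1 hi)), mul_neg, map_neg]
  have h5 : Summable fun m : ℕ => ‖τ‖ * (3 / 5) ^ (m + 1) :=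
    ((summable_nat_add_iff 1).2 (summable_geometric_of_lt_one (by norm_num) (by norm_num))).mul_left _
  have h6 := fun m t ht => (h4 m t ht).differentiableAt.differentiableWithinAt
    (s := Metric.ball (0 : ℂ) 2)
  have h7 : ∀ (m : ℕ), ∀ t ∈ Metric.ball (0 : ℂ) 2,
      ‖τ ((1 - k t) ^ (m + 1)) / (m + 1)‖ ≤ ‖τ‖ * (3 / 5) ^ (m + 1) := fun m t ht => by
    rw [norm_div, ← Nat.cast_succ, Complex.norm_natCast]
    exact (div_le_self (norm_nonneg _) (by simp)).trans (τ.le_of_opNorm_le_of_le le_rfl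
      ((norm_pow_le' _ m.succ_pos).trans (pow_le_pow_left₀ (norm_nonneg _) (hk t ht).2 _)))
  refine (Metric.isOpen_ball.is_const_of_deriv_eq_zero (convex_ball _ _).isPreconnected
    (Complex.differentiableOn_tsum_of_summable_norm h5 h6 Metric.isOpen_ball h7) (fun t ht => ?_)
    (by simp) (Metric.mem_ball_self two_pos)).trans (by simp [h0])
  refine (Complex.hasSum_deriv_of_summable_norm h5 h6 Metric.isOpen_ball h7 ht).unique ?_
  have := (τ.hasSum ((hasSum_geom_series_inverse _ ((hk t ht).2.trans_lt (by norm_num))).mul_right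
    (q t))).neg
  rw [sub_sub_cancel, h1 t ht, Ring.inverse_unit, h3 t ht, neg_zero, ← h1 t ht] at this
  simp only [(h4 _ t ht).deriv]
  exact this

omit [CompleteSpace B] in
theorem bd_qtrl {x y : B} (hx : ‖x‖ ≤ 1 / 20) (hy : ‖y‖ ≤ 1 / 20) {t : ℂ}
    (ht : t ∈ Metric.ball (0 : ℂ) 2) :
    ‖t • x‖ < 1 ∧ ‖1 - (1 + t • x) * (1 + t • y)‖ ≤ 21 / 100 := by
  have h : ∀ x : B, ‖x‖ ≤ 1 / 20 → ‖t • x‖ ≤ 1 / 10 := fun x hx => (norm_smul_le t x).trans
    ((mul_le_mul (mem_ball_zero_iff.1 ht).le hx (norm_nonneg _) zero_le_two).trans (by norm_num))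
  refine ⟨(h x hx).trans_lt (by norm_num), ?_⟩
  rw [norm_sub_rev, show (1 + t • x) * (1 + t • y) - 1 = t • x + t • y + t • x * t • y by
    rw [add_mul, mul_add, mul_add, one_mul, one_mul, mul_one]; abel]
  have := (norm_mul_le _ _).trans (mul_le_mul (h x hx) (h y hy) (norm_nonneg _) (by norm_num))
  linarith [norm_add₃_le (a := t • x) (b := t • y) (c := t • x * t • y), h x hx, h y hy]

end

/-- Multiplicativity of the trace of the logarithm. -/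
theorem trl {B : Type*} [NormedRing B] [NormedAlgebra ℂ B] [CompleteSpace B] (τ : B →L[ℂ] ℂ)
    (hτ : ∀ a b, τ (a * b) = τ (b * a)) (U V : Bˣ) (x y r : B) (c : ℂ) (hx : ‖x‖ ≤ 1 / 20)
    (hy : ‖y‖ ≤ 1 / 20) (hx' : ‖(↑V⁻¹ : B) * x * V‖ ≤ 1 / 20) (hy' : ‖(↑U⁻¹ : B) * y * U‖ ≤ 1 / 20)
    (hr : r * r = r)
    (h : (1 + (↑V⁻¹ : B) * x * V) * (1 + y) = (1 - c • r) * ((1 + (↑U⁻¹ : B) * y * U) * (1 + x))) :
    c * τ r = 0 := by
  have hk : ∀ t ∈ Metric.ball (0 : ℂ) 2, LD_qtrl τ (fun s => (1 + s • (↑V⁻¹ * x * V)) *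
      (1 + s • y) * Ring.inverse ((1 + s • (↑U⁻¹ * y * U)) * (1 + s • x))) t 0 ∧
      ‖1 - (1 + t • (↑V⁻¹ * x * V)) * (1 + t • y) *
        Ring.inverse ((1 + t • (↑U⁻¹ * y * U)) * (1 + t • x))‖ ≤ 3 / 5 := fun t ht => by
    obtain ⟨a, a1, a2⟩ := lin_qtrl hτ V (bd_qtrl hx hy ht).1
    obtain ⟨b, b1, b2⟩ := lin_qtrl hτ U (bd_qtrl hy hx ht).1
    have h0 := mul_qtrl hτ (mul_qtrl hτ a2 b1) (inv_qtrl hτ (mul_qtrl hτ b2 a1))
    rw [add_comm b, add_neg_cancel] at h0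
    refine ⟨h0, ?_⟩
    obtain ⟨w, -, hw, -⟩ := mul_qtrl hτ b2 a1
    beta_reduce at hw
    have h1 := (bd_qtrl hx' hy ht).2
    have h2 := (bd_qtrl hy' hx ht).2
    simp only [hw, Ring.inverse_unit] at h2 ⊢
    generalize (1 + t • (↑V⁻¹ * x * V)) * (1 + t • y) = g at h1 ⊢
    have h3 : 1 - g * ↑w⁻¹ = (1 - g) - (1 - w) + (1 - g * ↑w⁻¹) * (1 - w) := by
      rw [mul_sub, sub_mul _ _ (w : B), Units.inv_mul_cancel_right]
      noncomm_ring
    have h4 := (congrArg norm h3).trans_le ((norm_add_le _ _).trans (add_le_add (norm_sub_le _ _)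
      ((norm_mul_le _ _).trans (mul_le_mul_of_nonneg_left h2 (norm_nonneg _)))))
    linarith
  have h1 : (1 : ℂ) ∈ Metric.ball (0 : ℂ) 2 := by simp
  have h2 := const_of_qtrl hτ (by simp) hk
  have h3 := (hk 1 h1).2
  have h4 := (bd_qtrl hy' hx h1).2
  simp only [one_smul] at h2 h3 h4
  rw [h, Ring.mul_inverse_cancel_right _ _ (by
    simpa using (Units.oneSub _ (h4.trans_lt (by norm_num))).isUnit), sub_sub_cancel] at h2 h3
  rcases eq_or_ne r 0 with rfl | h0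
  · simp
  have h5 : ‖c‖ < 1 := by
    have := le_mul_iff_one_le_right (norm_pos_iff.2 h0) |>.1
      ((congrArg norm hr).symm.trans_le (norm_mul_le r r))
    rw [norm_smul] at h3
    nlinarith [norm_nonneg c]
  simp only [smul_pow, IsIdempotentElem.pow_succ_eq _ hr, map_smul, smul_eq_mul, mul_div_right_comm]
    at h2
  rw [((Complex.hasSum_taylorSeries_neg_log' h5).mul_right _).tsum_eq, mul_eq_zero, neg_eq_zero]
    at h2
  refine mul_eq_zero.2 (h2.imp_left fun h6 => ?_)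
  have := Complex.exp_log (x := 1 - c) (sub_ne_zero.2 fun h => by simp [← h] at h5)
  rwa [h6, Complex.exp_zero, eq_comm, sub_eq_self] at this

end Ulam
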