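import Pool.Agent.P.MP_3be8c7_an.QMAIN

open scoped ComplexOrder InnerProductSpace
open Filter Topology

noncomputable section

namespace Ulam

universe u v w

/-- Every `ε`-star-homomorphism on a hereditary subalgebra of an algebra with modulus `f` is
`γ`-close to a star-homomorphism. -/
def NearQ (f : ℝ → ℝ) (γ ε : ℝ) : Prop :=
  ∀ (A : Type u) [NonUnitalCStarAlgebra A] [PartialOrder A] [StarOrderedRing A],
    StableWith.{u, u} f A → ∀ (D : NonUnitalStarSubalgebra ℂ A) [IsClosed (D : Set A)],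
    IsHereditary D →
    ∀ (H : Type u) [NormedAddCommGroup H] [InnerProductSpace ℂ H] [CompleteSpace H]
      (M : VonNeumannAlgebra H) (φ : D → (H →L[ℂ] H)), (∀ a, φ a ∈ M) → EpsHom φ ε →
    ∃ ψ : D →⋆ₙₐ[ℂ] (H →L[ℂ] H), (∀ a, ψ a ∈ M) ∧ ∀ a, ‖a‖ ≤ 1 → ‖φ a - ψ a‖ ≤ γ

variable {f : ℝ → ℝ}

theorem NearQ.mono {γ γ' ε ε' : ℝ} (h : NearQ.{u} f γ ε) (hγ : γ ≤ γ') (hε : ε' ≤ ε) :
    NearQ.{u} f γ' ε' := fun A _ _ _ hA D _ hD H _ _ _ M φ hM hφ => by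
  obtain ⟨ψ, h1, h2⟩ := h A hA D hD H M φ hM (hφ.mono hε)
  exact ⟨ψ, h1, fun a ha => (h2 a ha).trans hγ⟩

theorem nearQ_one (ε : ℝ) : NearQ.{u} f 1 ε := fun A _ _ _ _ D _ _ H _ _ _ M φ _ hφ =>
  ⟨0, fun _ => zero_mem M, fun a ha => by simpa using hφ.ball a ha⟩

theorem nearQ_zero : NearQ.{u} f 0 0 := fun A _ _ _ _ D _ _ H _ _ _ M φ hM hφ => by
  obtain ⟨ψ, h1, h2⟩ := zero_case hφ (M : Set (H →L[ℂ] H)) (fun c x hx => vn_smul_mem M c hx) hM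
  exact ⟨ψ, h1, fun a ha => by simp [h2 a ha]⟩

theorem small_quni (hf : Tendsto f (𝓝[≥] 0) (𝓝 0)) {γ : ℝ} (hγ : 0 < γ) :
    ∃ δ : ℝ, 0 < δ ∧ f (10 * δ) + 2 * δ ≤ γ := by
  have t1 : Tendsto (fun δ : ℝ => 10 * δ) (𝓝[>] 0) (𝓝[≥] 0) := by
    refine tendsto_nhdsWithin_iff.2 ⟨?_, ?_⟩
    · have : Tendsto (fun δ : ℝ => 10 * δ) (𝓝 0) (𝓝 (10 * 0)) := tendsto_id.const_mul 10
      rw [mul_zero] at this
      exact this.mono_left nhdsWithin_le_nhds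
    · filter_upwards [self_mem_nhdsWithin] with δ hδ
      exact Set.mem_Ici.2 (mul_nonneg (by norm_num) (Set.mem_Ioi.1 hδ).le)
  have t2 : Tendsto (fun δ : ℝ => f (10 * δ) + 2 * δ) (𝓝[>] 0) (𝓝 (0 + 2 * 0)) :=
    (hf.comp t1).add ((tendsto_id.const_mul 2).mono_left nhdsWithin_le_nhds)
  rw [mul_zero, add_zero] at t2
  obtain ⟨δ, d1, d2⟩ := ((t2.eventually_le_const hγ).and self_mem_nhdsWithin).exists
  exact ⟨δ, d2, d1⟩

theorem dist_quni {D : Type u} [CStarAlgebra D]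
    {H : Type v} [NormedAddCommGroup H] [InnerProductSpace ℂ H] [CompleteSpace H]
    (π : D →⋆ₐ[ℂ] (H →L[ℂ] H)) (M : VonNeumannAlgebra H) (φ : D → (H →L[ℂ] H))
    (hM : ∀ a, φ a ∈ M) {γ : ℝ} (h : ∀ a, ‖a‖ ≤ 1 → ‖φ a - π a‖ ≤ γ) (a : D) :
    ∃ m ∈ M, ‖π a - m‖ ≤ γ * ‖a‖ := by
  rcases eq_or_ne a 0 with rfl | ha
  · exact ⟨0, zero_mem M, by simp⟩
  have h0 : (‖a‖ : ℂ) ≠ 0 := by simpa using ha
  have h1 := h ((‖a‖ : ℂ)⁻¹ • a) (by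
    rw [norm_smul, norm_inv, Complex.norm_real, norm_norm]
    exact inv_mul_le_one_of_le₀ le_rfl (norm_nonneg a))
  refine ⟨(‖a‖ : ℂ) • φ ((‖a‖ : ℂ)⁻¹ • a), vn_smul_mem M _ (hM _), ?_⟩
  have h2 : π a - (‖a‖ : ℂ) • φ ((‖a‖ : ℂ)⁻¹ • a) =
      (‖a‖ : ℂ) • (π ((‖a‖ : ℂ)⁻¹ • a) - φ ((‖a‖ : ℂ)⁻¹ • a)) := by
    rw [smul_sub, map_smul, smul_smul, mul_inv_cancel₀ h0, one_smul]
  rw [h2, norm_smul, Complex.norm_real, norm_norm, norm_sub_rev, mul_comm]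
  exact mul_le_mul_of_nonneg_right h1 (norm_nonneg a)

theorem nearQ_small (hf : Tendsto f (𝓝[≥] 0) (𝓝 0)) {γ : ℝ} (hγ : 0 < γ) :
    ∃ ε : ℝ, 0 < ε ∧ NearQ.{u} f γ ε := by
  obtain ⟨δ, hδ, hfδ⟩ := small_quni hf (γ := min (1 / 2) (γ / 12)) (by positivity)
  obtain ⟨g, hg, hg1, hg2⟩ : ∃ g : ℝ, 0 < g ∧ 4 * 40 * g ≤ δ ∧ g ≤ γ / 3 :=
    ⟨min (δ / 160) (γ / 3), by positivity, by linarith [min_le_left (δ / 160) (γ / 3)],
      min_le_right _ _⟩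
  obtain ⟨ε₁, hε₁, h₁⟩ := near_rep.{u, u} hg
  obtain ⟨ε, hε, h₂⟩ := unit_ext.{u, u} (γ := min ε₁ (γ / 3)) (by positivity)
  refine ⟨ε, hε, fun A _ _ _ hA D _ hD H _ _ _ M φ hM hφ => ?_⟩
  obtain ⟨φ', hφ', hM', h1, hc⟩ := h₂ D H M φ hφ hM
  letI := CStarAlgebra.spectralOrder (Unitization ℂ D)
  haveI := CStarAlgebra.spectralOrderedRing (Unitization ℂ D)
  have hS : STRF (Unitization ℂ D) := strf_of_indp (indp_of_stable hf hA D hD)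
  obtain ⟨π, hπ⟩ := h₁ (Unitization ℂ D) hS H φ' (hφ'.mono (min_le_left _ _))
    (h1.trans (min_le_left _ _))
  have hN := nearInc_of_dk (by norm_num) (dk_of_strf hS) π M hg.le (dist_quni π M φ' hM' hπ)
  obtain ⟨ψ, k1, k2⟩ := ind hA D hD (Unitization.starLift.symm π) M hδ.le
    (fun I K _ _ _ e he ρ hρ => by
      obtain ⟨ρ', l1, l2⟩ := hN I K e he ρ fun T hT => hρ T (by
        rintro _ ⟨d, rfl⟩
        exact hT _ ⟨d, rfl⟩)
      exact ⟨ρ', l1, l2.trans (mul_le_mul_of_nonneg_right hg1 (norm_nonneg _))⟩)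
    (hfδ.trans (min_le_left _ _))
  refine ⟨ψ, k1, fun a ha => ?_⟩
  have e1 := hπ (a : Unitization ℂ D) (by rwa [Unitization.norm_inr])
  have e2 := (hc a ha).trans (min_le_right _ _)
  have e3 := k2 a
  rw [Unitization.starLift_symm_apply_apply] at e3
  have e4 : 4 * (f (10 * δ) + 2 * δ) * ‖a‖ ≤ γ / 3 :=
    calc 4 * (f (10 * δ) + 2 * δ) * ‖a‖ ≤ 4 * (γ / 12) * ‖a‖ := by
          gcongr
          exact hfδ.trans (min_le_right _ _)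
      _ ≤ 4 * (γ / 12) * 1 := by gcongr
      _ = γ / 3 := by ring
  calc ‖φ a - ψ a‖ = ‖(φ' (a : Unitization ℂ D) - π a) + (π a - ψ a) -
        (φ' (a : Unitization ℂ D) - φ a)‖ := by congr 1; abel
    _ ≤ g + γ / 3 + γ / 3 := (norm_sub_le _ _).trans
        (add_le_add ((norm_add_le _ _).trans (add_le_add e1 (e3.trans e4))) e2)
    _ ≤ γ := by linarith

theorem exists_modulusQ (hf : Tendsto f (𝓝[≥] 0) (𝓝 0)) :
    ∃ g : ℝ → ℝ, Tendsto g (𝓝[≥] 0) (𝓝 0) ∧ ∀ ε, 0 ≤ ε → NearQ.{u} f (g ε) ε := by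
  let S : ℝ → Set ℝ := fun ε => {γ | 0 ≤ γ ∧ NearQ.{u} f γ ε}
  have hne : ∀ ε, (S ε).Nonempty := fun ε => ⟨1, zero_le_one, nearQ_one ε⟩
  have hbd : ∀ ε, BddBelow (S ε) := fun ε => ⟨0, fun _ h => h.1⟩
  have h0 : ∀ ε, 0 ≤ sInf (S ε) := fun ε => le_csInf (hne ε) fun _ h => h.1
  refine ⟨fun ε => sInf (S ε) + ε, ?_, fun ε hε => ?_⟩
  · rw [Metric.tendsto_nhdsWithin_nhds]
    intro γ hγ
    obtain ⟨ε₀, hε₀, h⟩ := nearQ_small.{u} hf (γ := γ / 2) (by positivity)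
    refine ⟨min ε₀ (γ / 2), by positivity, fun ε hε hd => ?_⟩
    have hε' : 0 ≤ ε := hε
    rw [Real.dist_eq, sub_zero, abs_of_nonneg hε'] at hd
    have h1 : sInf (S ε) ≤ γ / 2 :=
      csInf_le (hbd ε) ⟨by positivity, h.mono le_rfl (hd.le.trans (min_le_left _ _))⟩
    have h2 : ε < γ / 2 := hd.trans_le (min_le_right _ _)
    rw [Real.dist_eq, sub_zero, abs_of_nonneg (add_nonneg (h0 ε) hε')]
    linarith
  · rcases hε.eq_or_lt with rfl | hε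
    · exact nearQ_zero.mono (by simpa using h0 0) le_rfl
    · obtain ⟨γ, hγ, hlt⟩ := exists_lt_of_csInf_lt (hne ε) (lt_add_of_pos_right _ hε)
      exact hγ.2.mono hlt.le le_rfl

theorem stable_unif₀ (f : ℝ → ℝ) (hf : Tendsto f (𝓝[≥] 0) (𝓝 0)) :
    ∃ g : ℝ → ℝ, Tendsto g (𝓝[≥] 0) (𝓝 0) ∧
    ∀ (A : Type u) [NonUnitalCStarAlgebra A] [PartialOrder A] [StarOrderedRing A],
      StableWith.{u, u} f A →
    ∀ (D : NonUnitalStarSubalgebra ℂ A) [IsClosed (D : Set A)], IsHereditary D →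
      StableWith.{u, u} g D := by
  obtain ⟨g, hg, h⟩ := exists_modulusQ.{u} hf
  exact ⟨g, hg, fun A _ _ _ hA D _ hD H _ _ _ M ε hε φ hM hφ => h ε hε A hA D hD H M φ hM hφ⟩

/-- Ulam stability passes to hereditary subalgebras, with a modulus depending only on the modulus
of the ambient algebra. -/
theorem stable_of_hereditary (f : ℝ → ℝ) (hf : Tendsto f (𝓝[>] 0) (𝓝 0)) :
    ∃ g : ℝ → ℝ, Tendsto g (𝓝[≥] 0) (𝓝 0) ∧
    ∀ (A : Type u) [NonUnitalCStarAlgebra A] [PartialOrder A] [StarOrderedRing A],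
      StableWith.{u, u} f A →
    ∀ (D : NonUnitalStarSubalgebra ℂ A) [IsClosed (D : Set A)], IsHereditary D →
      StableWith.{u, u} g D := by
  have hf' : Tendsto (Function.update f 0 0) (𝓝[≥] 0) (𝓝 0) := by
    rw [← nhdsGT_sup_nhdsWithin_singleton, tendsto_sup]
    refine ⟨hf.congr' ?_, ?_⟩
    · filter_upwards [self_mem_nhdsWithin] with t ht
      exact (Function.update_of_ne (ne_of_gt ht) _ _).symm
    · rw [nhdsWithin_singleton, tendsto_pure_left]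
      intro s hs
      simpa using mem_of_mem_nhds hs
  obtain ⟨g, hg, h⟩ := stable_unif₀.{u} _ hf'
  refine ⟨g, hg, fun A _ _ _ hA => h A fun H _ _ _ M ε hε φ hM hφ => ?_⟩
  rcases hε.eq_or_lt with rfl | hε'
  · simpa using nearD_zero H M φ hM hφ
  · rw [Function.update_of_ne hε'.ne']
    exact hA H M ε hε φ hM hφ

end Ulam
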