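import Pool.Agent.P.MP_3be8c7_an.LYAP

open scoped ComplexOrder InnerProductSpace
open Filter Topology

noncomputable section

namespace Ulam

universe u v w

/-- The contraction constant of the repacking. -/
def c0 (C : ℝ) : ℝ := (48 * C + 1) / (48 * C + 2)

theorem half_le_c0 {C : ℝ} (hC : 0 < C) : 1 / 2 ≤ c0 C := by
  rw [c0, le_div_iff₀ (by positivity)]; linarith

theorem c0_lt_one {C : ℝ} (hC : 0 < C) : c0 C < 1 := by
  rw [c0, div_lt_one (by positivity)]; linarith

section
variable {I : Type} [Fintype I]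

/-- The real part of the trace. -/
def tL_rep0 : Matrix I I ℂ →ₗ[ℝ] ℝ := Complex.reLm ∘ₗ Matrix.traceLinearMap I ℝ ℂ

theorem tL_eq_rep0 (M : Matrix I I ℂ) : M.trace.re = tL_rep0 M := rfl

theorem comm_rep0 (A B : Matrix I I ℂ) : tL_rep0 (A * B) = tL_rep0 (B * A) := by
  rw [← tL_eq_rep0, ← tL_eq_rep0, Matrix.trace_mul_comm]

theorem nonneg_rep0 {A : Matrix I I ℂ} (hA : A.PosSemidef) : 0 ≤ tL_rep0 A :=
  (Complex.nonneg_iff.1 hA.trace_nonneg).1

theorem fro_rep0 (M : Matrix I I ℂ) : tL_rep0 (star M * M) = ∑ j, ∑ k, ‖M j k‖ ^ 2 := by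
  rw [← tL_eq_rep0, Finset.sum_comm]
  simp only [Matrix.trace, Matrix.diag, Matrix.mul_apply, Complex.re_sum, Matrix.star_apply]
  refine Finset.sum_congr rfl fun j _ => Finset.sum_congr rfl fun k _ => ?_
  rw [Complex.star_def, Complex.conj_mul']
  norm_cast

theorem fro_nonneg_rep0 (M : Matrix I I ℂ) : 0 ≤ tL_rep0 (star M * M) := by
  rw [fro_rep0]
  positivity

theorem par_rep0 (U V : Matrix I I ℂ) : tL_rep0 (star (U + V) * (U + V)) ≤
    2 * tL_rep0 (star U * U) + 2 * tL_rep0 (star V * V) := by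
  have h := fro_nonneg_rep0 (U - V)
  simp only [star_add, star_sub, add_mul, mul_add, sub_mul, mul_sub, map_add, map_sub] at h ⊢
  linarith

variable [DecidableEq I]

open scoped MatrixOrder in
theorem sqrt_rep0 {A : Matrix I I ℂ} (hA : A.PosSemidef) :
    ∃ B : Matrix I I ℂ, B.PosSemidef ∧ B * B = A :=
  ⟨CFC.sqrt A, Matrix.nonneg_iff_posSemidef.1 (CFC.sqrt_nonneg A), CFC.sqrt_mul_sqrt_self A hA.nonneg⟩

theorem mul_nonneg_rep0 {A B : Matrix I I ℂ} (hA : A.PosSemidef) (hB : B.PosSemidef) :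
    0 ≤ tL_rep0 (A * B) := by
  obtain ⟨D, hD, rfl⟩ := sqrt_rep0 hB
  have h := nonneg_rep0 (hA.conjTranspose_mul_mul_same D)
  rw [hD.1.eq, mul_assoc, comm_rep0, mul_assoc] at h
  exact h

/-- The bound for one end of an edge in the second option. -/
theorem two_rep0 {A B x : Matrix I I ℂ} (hA : star A = A) (hB : star B = B) (hx : Contr x) :
    tL_rep0 (A * A * (star x * x)) ≤
      2 * tL_rep0 (B * B * (star x * x)) + 2 * tL_rep0 ((A - B) * (A - B)) := by
  have h1 := par_rep0 (x * B) (x * (A - B))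
  have h2 := nonneg_rep0 (Matrix.PosSemidef.conjTranspose_mul_mul_same hx (A - B))
  have e : ∀ D : Matrix I I ℂ, star D = D →
      tL_rep0 (star (x * D) * (x * D)) = tL_rep0 (D * D * (star x * x)) := fun D hD => by
    rw [star_mul, hD, mul_assoc D, comm_rep0, ← mul_assoc (star x), mul_assoc _ D D, comm_rep0]
  have hAB : star (A - B) = A - B := by rw [star_sub, hA, hB]
  rw [← mul_add, add_sub_cancel, e A hA, e B hB, e _ hAB] at h1
  rw [← Matrix.star_eq_conjTranspose, hAB, mul_assoc, comm_rep0, mul_assoc, comm_rep0, mul_sub,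
    mul_one, map_sub] at h2
  linarith

/-- The bound for an edge in the first option. -/
theorem one_rep0 {A B x T₁ T₂ S : Matrix I I ℂ} (hA : A.PosSemidef) (hB : B.PosSemidef)
    (hx : Contr x) (h₁ : T₁.PosSemidef) (h₂ : T₂.PosSemidef) (hS : S.PosSemidef) {r : ℝ}
    (hr : 0 ≤ r) (eA : A * A = T₁ + r • S) (eB : B * B = T₂ + r • S) :
    ∃ a : Matrix I I ℂ, tL_rep0 (A * A * (star a * a)) +
      tL_rep0 (B * B * (star (x - a) * (x - a))) ≤ (tL_rep0 T₁ + tL_rep0 T₂) / 4 -
        tL_rep0 ((A - B) * (A - B)) / 6 + r / 2 * tL_rep0 (star x * x * S) := by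
  obtain ⟨X, hX, -, h3, h4⟩ := lyap hA hB
  rw [tL_eq_rep0, tL_eq_rep0] at h3 h4
  have sX : star X = X := hX.eq
  set U : Matrix I I ℂ := (1 / 2 : ℝ) • 1 - (1 / 3 : ℝ) • X with hU
  set V : Matrix I I ℂ := (1 / 2 : ℝ) • 1 + (1 / 3 : ℝ) • X with hV
  have sU : star U = U := by rw [hU, star_sub, star_smul, star_smul, star_one, sX]; simp
  have sV : star V = V := by rw [hV, star_add, star_smul, star_smul, star_one, sX]; simp
  have eV : x - x * U = x * V := by
    rw [hU, hV, mul_sub, mul_add, mul_smul_comm, mul_smul_comm, mul_one]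
    module
  have e : ∀ D W : Matrix I I ℂ, star W = W → tL_rep0 (D * (star (x * W) * (x * W))) =
      tL_rep0 (W * D * W) - tL_rep0 ((1 - star x * x) * (W * D * W)) := fun D W hW => by
    rw [sub_mul, one_mul, map_sub, sub_sub_cancel, star_mul, hW, comm_rep0, mul_assoc W,
      mul_assoc W, comm_rep0]
    simp only [mul_assoc]
  have p : ∀ D W : Matrix I I ℂ, D.PosSemidef → star W = W →
      0 ≤ tL_rep0 ((1 - star x * x) * (W * D * W)) := fun D W hD hW => by
    have h := hD.conjTranspose_mul_mul_same W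
    rw [← Matrix.star_eq_conjTranspose, hW] at h
    exact mul_nonneg_rep0 hx h
  refine ⟨x * U, ?_⟩
  rw [eV, e _ U sU, e _ V sV]
  have q1 : U * (A * A) * U + V * (B * B) * V = (1 / 4 : ℝ) • (A * A + B * B) -
      (1 / 6 : ℝ) • (X * (A * A - B * B) + (A * A - B * B) * X) +
      (1 / 9 : ℝ) • (X * (A * A + B * B) * X) := by
    rw [hU, hV]
    simp only [mul_add, add_mul, mul_sub, sub_mul, mul_smul_comm, smul_mul_assoc, mul_one, one_mul]
    module
  have q2 : U * (A * A) * U + V * (B * B) * V = U * T₁ * U + V * T₂ * V + (r / 2) • S +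
      (2 * r / 9) • (X * S * X) := by
    rw [eA, eB]
    have : U * S * U + V * S * V = (1 / 2 : ℝ) • S + (2 / 9 : ℝ) • (X * S * X) := by
      rw [hU, hV]
      simp only [mul_add, add_mul, mul_sub, sub_mul, mul_smul_comm, smul_mul_assoc, mul_one,
        one_mul]
      module
    simp only [mul_add, add_mul, mul_smul_comm, smul_mul_assoc]
    linear_combination (norm := module) r • this
  have q3 := congrArg tL_rep0 q1
  have q4 := congrArg (fun M => tL_rep0 ((1 - star x * x) * M)) q2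
  have q5 : tL_rep0 (A * A + B * B) = tL_rep0 T₁ + tL_rep0 T₂ + 2 * r * tL_rep0 S := by
    rw [eA, eB]
    simp only [map_add, map_smul, smul_eq_mul]
    ring
  have q6 : tL_rep0 ((1 - star x * x) * S) = tL_rep0 S - tL_rep0 (star x * x * S) := by
    rw [sub_mul, one_mul, map_sub]
  rw [map_add, map_add, map_sub, map_smul, map_smul, map_smul, map_add _ (X * _),
    comm_rep0 (A * A - B * B) X, h3, q5] at q3
  simp only [mul_add, mul_smul_comm, map_add, map_smul, smul_eq_mul, q6] at q3 q4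
  have p1 := p T₁ U h₁ sU
  have p2 := p T₂ V h₂ sV
  have p3 := mul_nonneg hr (p S X hS sX)
  simp only [mul_add, add_mul, map_add] at h4 q3
  linarith

end

section
variable {L : Type} [Fintype L] {σ : Fin 4 → Equiv.Perm L} {I : Type} [Fintype I]

theorem sum_av_rep0 [Nonempty L] (A : L → Matrix I I ℂ) :
    ∑ l, A l = (Fintype.card L : ℝ) • av A := by
  rw [av, smul_smul, mul_inv_cancel₀ (by exact_mod_cast Fintype.card_ne_zero), one_smul]

theorem poinc_rep0 [Nonempty L] {C : ℝ} (hσ : Poinc σ C) (A : L → Matrix I I ℂ)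
    (hA : ∀ l, star (A l) = A l) (hB : star (av A) = av A) :
    ∑ l, tL_rep0 ((A l - av A) * (A l - av A)) ≤
      C * ∑ l, ∑ s, tL_rep0 ((A l - A (σ s l)) * (A l - A (σ s l))) := by
  have e : ∀ D E : Matrix I I ℂ, star D = D → star E = E →
      tL_rep0 ((D - E) * (D - E)) = ∑ j, ∑ k, ‖D j k - E j k‖ ^ 2 := fun D E hD hE => by
    have h := fro_rep0 (D - E)
    rw [star_sub, hD, hE] at h
    exact h
  simp only [e _ _ (hA _) hB, e _ _ (hA _) (hA _)]
  have h : ∀ j k, ∑ l, ‖A l j k - av A j k‖ ^ 2 ≤ C * ∑ l, ∑ s, ‖A l j k - A (σ s l) j k‖ ^ 2 :=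
    fun j k => by
      have h1 := hσ (fun l => A l j k - av A j k) (by
        have h2 := congrFun (congrFun (sum_av_rep0 A) j) k
        rw [Matrix.sum_apply] at h2
        rw [Finset.sum_sub_distrib, h2]
        simp)
      rw [Finset.sum_comm (s := Finset.univ (α := Fin 4))] at h1
      simpa using h1
  calc _ = ∑ j, ∑ k, ∑ l, ‖A l j k - av A j k‖ ^ 2 := by
        rw [Finset.sum_comm]
        exact Finset.sum_congr rfl fun j _ => Finset.sum_comm
    _ ≤ ∑ j, ∑ k, C * ∑ l, ∑ s, ‖A l j k - A (σ s l) j k‖ ^ 2 :=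
        Finset.sum_le_sum fun j _ => Finset.sum_le_sum fun k _ => h j k
    _ = _ := by
        simp only [← Finset.mul_sum]
        congr 1
        have h3 : ∀ g : I → I → L → Fin 4 → ℝ,
            ∑ j, ∑ k, ∑ l, ∑ s, g j k l s = ∑ l, ∑ s, ∑ j, ∑ k, g j k l s := fun g => by
          rw [← Fintype.sum_prod_type' fun j k => ∑ l, ∑ s, g j k l s, Finset.sum_comm]
          refine Finset.sum_congr rfl fun l _ => ?_
          rw [Finset.sum_comm]
          exact Finset.sum_congr rfl fun s _ => Fintype.sum_prod_type' fun j k => g j k l s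
        exact h3 _

theorem var_rep0 [Nonempty L] (A : L → Matrix I I ℂ)
    (hA : ∀ l, star (A l) = A l) (hB : star (av A) = av A) :
    Fintype.card L * tL_rep0 (av A * av A) ≤ ∑ l, tL_rep0 (A l * A l) := by
  have h : 0 ≤ ∑ l, tL_rep0 ((A l - av A) * (A l - av A)) := Finset.sum_nonneg fun l _ => by
    have h := fro_nonneg_rep0 (A l - av A)
    rwa [star_sub, hA, hB] at h
  simp only [mul_sub, sub_mul, map_sub, Finset.sum_sub_distrib, comm_rep0 (av A) (A _)] at h
  rw [← map_sum _ (fun l => A l * av A), ← Finset.sum_mul, sum_av_rep0, smul_mul_assoc,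
    map_smul] at h
  simp only [Finset.sum_const, Finset.card_univ, nsmul_eq_mul, smul_eq_mul] at h
  linarith

theorem cost_rep0 (a b : L × Fin 4 → Matrix I I ℂ) (T A : L → Matrix I I ℂ) (S : Matrix I I ℂ)
    (h : ∀ l, A l = T l + (Fintype.card L : ℝ)⁻¹ • S) :
    ∑ l, (T l * vsum σ a b l).trace.re + (S * av (vsum σ a b)).trace.re =
      ∑ l, ∑ s, (tL_rep0 (A l * (star (a (l, s)) * a (l, s))) +
        tL_rep0 (A (σ s l) * (star (b (l, s)) * b (l, s)))) := by
  have h1 : ∑ l, (T l * vsum σ a b l).trace.re + (S * av (vsum σ a b)).trace.re =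
      ∑ l, tL_rep0 (A l * vsum σ a b l) := by
    simp only [tL_eq_rep0, h, av, add_mul, mul_smul_comm, smul_mul_assoc, Finset.mul_sum, map_add,
      map_smul, map_sum, Finset.sum_add_distrib, smul_eq_mul]
  rw [h1]
  simp only [vsum, mul_add, Finset.mul_sum, map_add, map_sum, Finset.sum_add_distrib]
  congr 1
  rw [Finset.sum_comm, Finset.sum_comm (s := Finset.univ (α := L))]
  refine Finset.sum_congr rfl fun s _ => ?_
  rw [← Equiv.sum_comp (σ s)]
  simp only [Equiv.symm_apply_apply]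

theorem edge_rep0 (f : L → ℝ) : ∑ l, ∑ s, f (σ s l) = 4 * ∑ l, f l := by
  rw [Finset.sum_comm]
  simp only [Equiv.sum_comp]
  simp

end

theorem rep0 {L : Type} [Fintype L] [Nonempty L] {σ : Fin 4 → Equiv.Perm L} {C : ℝ} (hC : 0 < C)
    (hσ : Poinc σ C) {I : Type} [Fintype I] [DecidableEq I] (x : L × Fin 4 → Matrix I I ℂ)
    (hx : ∀ e, Contr (x e)) {η : ℝ} (h0 : 0 ≤ η) (h4 : η ≤ 1 / 4)
    (hη : (η • (1 : Matrix I I ℂ) - av fun e => star (x e) * x e).PosSemidef)
    (T : L → Matrix I I ℂ) (hT : ∀ l, (T l).PosSemidef) (S : Matrix I I ℂ) (hS : S.PosSemidef) :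
    ∃ a : L × Fin 4 → Matrix I I ℂ,
      ∑ l, (T l * vsum σ a (x - a) l).trace.re + (S * av (vsum σ a (x - a))).trace.re ≤
        2 * c0 C * ∑ l, (T l).trace.re + 4 * η * S.trace.re := by
  have hN : (0 : ℝ) < Fintype.card L := by exact_mod_cast Fintype.card_pos
  set r : ℝ := (Fintype.card L : ℝ)⁻¹ with hr
  have hr0 : 0 ≤ r := by positivity
  have hrN : r * Fintype.card L = 1 := inv_mul_cancel₀ hN.ne'
  choose A hA eA using fun l => sqrt_rep0 ((hT l).add (hS.smul hr0))
  have sA : ∀ l, star (A l) = A l := fun l => (hA l).1.eq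
  have sB : star (av A) = av A := by
    rw [av, star_smul, star_sum]
    simp only [sA, star_trivial]
  have hBB : (av A * av A).PosSemidef := by
    have h := Matrix.posSemidef_conjTranspose_mul_self (av A)
    rwa [← Matrix.star_eq_conjTranspose, sB] at h
  have hP : ∀ D : Matrix I I ℂ, D.PosSemidef →
      ∑ l, ∑ s, tL_rep0 (star (x (l, s)) * x (l, s) * D) ≤
        4 * Fintype.card L * η * tL_rep0 D := fun D hD => by
    have h := mul_nonneg_rep0 hη hD
    rw [sub_mul, map_sub, smul_mul_assoc, one_mul, map_smul, av, smul_mul_assoc, map_smul,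
      Finset.sum_mul, map_sum, Fintype.sum_prod_type, Fintype.card_prod, Fintype.card_fin,
      smul_eq_mul, smul_eq_mul, sub_nonneg, inv_mul_le_iff₀ (by positivity)] at h
    push_cast at h
    linarith
  have hG : ∑ l, tL_rep0 (A l * A l) = ∑ l, tL_rep0 (T l) + tL_rep0 S := by
    simp only [eA, map_add, map_smul, Finset.sum_add_distrib, Finset.sum_const, Finset.card_univ,
      nsmul_eq_mul, smul_eq_mul]
    rw [← mul_assoc, mul_comm _ r, hrN, one_mul]
  have hW := poinc_rep0 hσ A sA sB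
  have hV := var_rep0 A sA sB
  choose a ha using fun e : L × Fin 4 =>
    one_rep0 (hA e.1) (hA (σ e.2 e.1)) (hx e) (hT _) (hT _) hS hr0 (eA _) (eA _)
  have c1 := cost_rep0 (σ := σ) a (x - a) T (fun l => A l * A l) S eA
  have c2 := cost_rep0 (σ := σ) ((1 / 2 : ℝ) • x) (x - (1 / 2 : ℝ) • x) T (fun l => A l * A l) S eA
  have b1 := Finset.sum_le_sum (s := Finset.univ) fun l _ =>
    Finset.sum_le_sum (s := Finset.univ) fun s _ => ha (l, s)
  have b2 : ∀ l s, tL_rep0 (A l * A l *
      (star (((1 / 2 : ℝ) • x) (l, s)) * ((1 / 2 : ℝ) • x) (l, s))) +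
      tL_rep0 (A (σ s l) * A (σ s l) *
        (star ((x - (1 / 2 : ℝ) • x) (l, s)) * (x - (1 / 2 : ℝ) • x) (l, s))) ≤
      tL_rep0 (star (x (l, s)) * x (l, s) * (av A * av A)) +
        tL_rep0 ((A l - av A) * (A l - av A)) / 2 +
        tL_rep0 ((A (σ s l) - av A) * (A (σ s l) - av A)) / 2 := fun l s => by
    have e : x - (1 / 2 : ℝ) • x = (1 / 2 : ℝ) • x := by module
    have h1 := two_rep0 (sA l) sB (hx (l, s))
    have h2 := two_rep0 (sA (σ s l)) sB (hx (l, s))
    rw [e, comm_rep0 _ (av A * av A)]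
    simp only [Pi.smul_apply, star_smul, star_trivial, mul_smul_comm, smul_mul_assoc, map_smul,
      smul_eq_mul]
    linarith
  have b3 := Finset.sum_le_sum (s := Finset.univ) fun l _ =>
    Finset.sum_le_sum (s := Finset.univ) fun s _ => b2 l s
  rw [← c2] at b3
  simp only [← Pi.sub_apply] at b1
  rw [← c1] at b1
  have e1 := edge_rep0 (σ := σ) fun l => tL_rep0 (T l)
  have e2 := edge_rep0 (σ := σ) fun l => tL_rep0 ((A l - av A) * (A l - av A))
  simp only [Finset.sum_add_distrib, Finset.sum_sub_distrib, ← Finset.sum_div, ← Finset.mul_sum,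
    e1, e2, Finset.sum_const, Finset.card_univ, Fintype.card_fin, nsmul_eq_mul,
    Nat.cast_ofNat] at b1 b3
  have p1 := hP S hS
  have p2 := hP _ hBB
  have g0 : 0 ≤ ∑ l, tL_rep0 (T l) := Finset.sum_nonneg fun l _ => nonneg_rep0 (hT l)
  have s0 := nonneg_rep0 hS
  simp only [tL_eq_rep0 S, tL_eq_rep0 (T _)]
  set G := ∑ l, tL_rep0 (T l)
  set s := tL_rep0 S
  have p3 : r / 2 * ∑ l, ∑ s, tL_rep0 (star (x (l, s)) * x (l, s) * S) ≤ 2 * η * s := by
    refine (mul_le_mul_of_nonneg_left p1 (by positivity)).trans (le_of_eq ?_)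
    linear_combination 2 * η * s * hrN
  have p4 : 4 * Fintype.card L * η * tL_rep0 (av A * av A) ≤ 4 * η * (G + s) := by
    rw [← hG]
    nlinarith
  have hc : (24 * C + 1) * (2 * c0 C) = 48 * C + 1 := by
    rw [c0]
    field_simp
    ring
  by_contra hn
  simp only [not_exists, not_le] at hn
  have n1 := mul_lt_mul_of_pos_left ((hn a).trans_le b1) (show 0 < 24 * C by positivity)
  have n2 := (hn _).trans_le b3
  have n3 : (24 * C + 1) * (2 * c0 C * G) = (48 * C + 1) * G := by rw [← mul_assoc, hc]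
  have n4 := mul_le_mul_of_nonneg_left p3 hC.le
  have n5 := mul_nonneg hC.le (mul_nonneg h0 s0)
  have n6 := mul_le_mul_of_nonneg_right h4 g0
  nlinarith

end Ulam
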