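import Pool.Agent.P.MP_3be8c7_an.BUB

open scoped ComplexOrder InnerProductSpace
open Filter Topology

noncomputable section

namespace Ulam

universe u v w

set_option linter.unusedSectionVars false

theorem near_one {R : Type*} [NormedRing R] [NormedAlgebra ℂ R] {u p : R} (hup : u * p = u)
    {C : ℝ} (hC : ∀ m : ℕ, ‖u ^ (m + 1)‖ ≤ C) (h : ∀ m : ℕ, ‖u ^ (m + 1) - p‖ ≤ 1 / 2)
    (hp : p * p = p) (hpu : p * u = u) : u = p := by
  have key : ∀ m : ℕ, ‖(m : ℂ) • (u - p) - (u ^ (m + 1) - u)‖ ≤ m * (‖u - p‖ / 2) := by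
    intro m
    induction m with
    | zero => simp
    | succ m ih =>
      have e1 : p * u ^ (m + 1) = u ^ (m + 1) := by rw [pow_succ', ← mul_assoc, hpu]
      have e2 : ((m + 1 : ℕ) : ℂ) • (u - p) - (u ^ (m + 1 + 1) - u) =
          ((m : ℂ) • (u - p) - (u ^ (m + 1) - u)) + (u - p) * (p - u ^ (m + 1)) := by
        rw [sub_mul, mul_sub, mul_sub, hup, hp, e1, ← pow_succ']
        push_cast
        module
      rw [e2]
      refine (norm_add_le _ _).trans ?_
      have e3 := norm_mul_le (u - p) (p - u ^ (m + 1))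
      rw [norm_sub_rev p] at e3
      have e4 := mul_le_mul_of_nonneg_left (h m) (norm_nonneg (u - p))
      push_cast
      linarith
  by_contra hne
  have h0 : 0 < ‖u - p‖ := norm_pos_iff.2 (sub_ne_zero.2 hne)
  obtain ⟨m, hm⟩ := exists_nat_gt (4 * C / ‖u - p‖)
  rw [div_lt_iff₀ h0] at hm
  have e1 := norm_add_le ((m : ℂ) • (u - p) - (u ^ (m + 1) - u)) (u ^ (m + 1) - u)
  rw [sub_add_cancel, norm_smul, Complex.norm_natCast] at e1
  have e2 := norm_sub_le (u ^ (m + 1)) u
  have e3 := hC 0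
  rw [zero_add, pow_one] at e3
  linarith [key m, hC m]

variable {F R : Type*} [Ring F] [StarRing F] [Algebra ℂ F] [StarModule ℂ F] [CStarAlgebra R]

/-- The hypotheses on the representation, for a map defined on the whole algebra. -/
structure Rg_rig1 (s : F → R) : Prop where
  mul : ∀ x ∈ unitary F, ∀ y ∈ unitary F, s (x * y) = s x * s y
  st : ∀ x ∈ unitary F, s (star x) = star (s x)
  rel : ∀ (a b c d : ℂ), ∀ x ∈ unitary F, ∀ y ∈ unitary F, ∀ z ∈ unitary F, ∀ w ∈ unitary F,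
    ‖a‖ + ‖b‖ + ‖c‖ + ‖d‖ ≤ 2 → a • x + b • y + c • z + d • w = 0 →
    ‖a • s x + b • s y + c • s z + d • s w‖ ≤ 1 / 2

/-- The symmetry of a projection. -/
def sy_rig1 (e : F) : F := 1 - (2 : ℂ) • e

/-- The image of a projection. -/
def pj_rig1 (s : F → R) (e : F) : R := (2⁻¹ : ℂ) • (s 1 - s (sy_rig1 e))

theorem sy_star_rig1 {e : F} (he : IsStarProjection e) : star (sy_rig1 e) = sy_rig1 e := by
  simp [sy_rig1, he.isSelfAdjoint.star_eq]

theorem sy_sq_rig1 {e : F} (he : IsStarProjection e) : sy_rig1 e * sy_rig1 e = 1 := by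
  simp only [sy_rig1, mul_sub, sub_mul, mul_one, one_mul, smul_mul_assoc, mul_smul_comm,
    he.isIdempotentElem.eq]
  module

theorem sy_mem_rig1 {e : F} (he : IsStarProjection e) : sy_rig1 e ∈ unitary F := by
  rw [Unitary.mem_iff, sy_star_rig1 he]
  exact ⟨sy_sq_rig1 he, sy_sq_rig1 he⟩

theorem cc_rig1 {l : ℂ} (hl : ‖l‖ = 1) : star l * l = 1 := by
  rw [Complex.star_def, Complex.conj_mul', hl]
  simp

theorem sm_mem_rig1 {l : ℂ} (hl : ‖l‖ = 1) {x : F} (hx : x ∈ unitary F) : l • x ∈ unitary F := by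
  rw [Unitary.mem_iff] at hx ⊢
  simp only [star_smul, smul_mul_assoc, mul_smul_comm, hx.1, hx.2, smul_smul]
  rw [cc_rig1 hl, mul_comm, cc_rig1 hl]
  simp

namespace Rg_rig1

variable {s : F → R} (h : Rg_rig1 s)
include h

theorem one_mul' {x : F} (hx : x ∈ unitary F) : s 1 * s x = s x := by
  rw [← h.mul _ (one_mem _) _ hx, one_mul]

theorem mul_one' {x : F} (hx : x ∈ unitary F) : s x * s 1 = s x := by
  rw [← h.mul _ hx _ (one_mem _), mul_one]

theorem star_one' : star (s 1) = s 1 := by rw [← h.st _ (one_mem _), star_one]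

theorem norm_le {x : F} (hx : x ∈ unitary F) : ‖s x‖ ≤ 1 := by
  have h1 : IsStarProjection (s 1) :=
    isStarProjection_iff'.2 ⟨h.one_mul' (one_mem _), h.star_one'⟩
  have h2 := CStarRing.norm_star_mul_self (x := s x)
  rw [← h.st _ hx, ← h.mul _ (Unitary.star_mem hx) _ hx, Unitary.star_mul_self_of_mem hx] at h2
  have h3 := h1.norm_le
  nlinarith [norm_nonneg (s x)]

theorem pow {x : F} (hx : x ∈ unitary F) (m : ℕ) : s x ^ (m + 1) = s (x ^ (m + 1)) := by
  induction m with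
  | zero => simp
  | succ m ih => rw [pow_succ, ih, pow_succ x (m + 1), h.mul _ (pow_mem hx _) _ hx]

theorem scal {l : ℂ} (hl : ‖l‖ = 1) {x : F} (hx : x ∈ unitary F) : s (l • x) = l • s x := by
  have h1 : l • (1 : F) ∈ unitary F := sm_mem_rig1 hl (one_mem _)
  have hn : ∀ m : ℕ, ‖star l ^ m‖ = 1 := fun m => by simp [hl]
  have h2 : star l • s (l • 1) = s 1 := by
    refine near_one (C := 1) (by rw [smul_mul_assoc, h.mul_one' h1]) (fun m => ?_) (fun m => ?_)
      (h.one_mul' (one_mem _)) (by rw [mul_smul_comm, h.one_mul' h1])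
    · rw [smul_pow, h.pow h1, norm_smul, hn, one_mul]
      exact h.norm_le (pow_mem h1 _)
    · have := h.rel (star l ^ (m + 1)) (-1) 0 0 _ (pow_mem h1 (m + 1)) _ (one_mem _) _ (one_mem _)
        _ (one_mem _) (by rw [hn]; norm_num)
        (by rw [← smul_pow, smul_smul, cc_rig1 hl]; simp)
      rw [smul_pow, h.pow h1]
      simpa [sub_eq_add_neg] using this
  have h3 : s (l • 1) = l • s 1 := by
    rw [← h2, smul_smul, mul_comm, cc_rig1 hl, one_smul]
  rw [← one_mul x, ← smul_mul_assoc, h.mul _ h1 _ hx, h3, one_mul, smul_mul_assoc, h.one_mul' hx]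

theorem tt {e : F} (he : IsStarProjection e) : s (sy_rig1 e) * s (sy_rig1 e) = s 1 := by
  rw [← h.mul _ (sy_mem_rig1 he) _ (sy_mem_rig1 he), sy_sq_rig1 he]

theorem t_pj {e : F} (he : IsStarProjection e) :
    s (sy_rig1 e) * pj_rig1 s e = -pj_rig1 s e := by
  rw [pj_rig1, mul_smul_comm, mul_sub, h.tt he, h.mul_one' (sy_mem_rig1 he)]
  module

theorem pj_t {e : F} (he : IsStarProjection e) :
    pj_rig1 s e * s (sy_rig1 e) = -pj_rig1 s e := by
  rw [pj_rig1, smul_mul_assoc, sub_mul, h.tt he, h.one_mul' (sy_mem_rig1 he)]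
  module

theorem one_pj {e : F} (he : IsStarProjection e) : s 1 * pj_rig1 s e = pj_rig1 s e := by
  rw [pj_rig1, mul_smul_comm, mul_sub, h.one_mul' (one_mem _), h.one_mul' (sy_mem_rig1 he)]

theorem pj_one {e : F} (he : IsStarProjection e) : pj_rig1 s e * s 1 = pj_rig1 s e := by
  rw [pj_rig1, smul_mul_assoc, sub_mul, h.one_mul' (one_mem _), h.mul_one' (sy_mem_rig1 he)]

theorem pj_pj {e : F} (he : IsStarProjection e) : pj_rig1 s e * pj_rig1 s e = pj_rig1 s e := by
  nth_rewrite 1 [pj_rig1]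
  rw [smul_mul_assoc, sub_mul, h.one_pj he, h.t_pj he]
  module

theorem proj {e : F} (he : IsStarProjection e) : IsStarProjection (pj_rig1 s e) := by
  refine isStarProjection_iff'.2 ⟨h.pj_pj he, ?_⟩
  rw [pj_rig1, star_smul, star_sub, h.star_one', ← h.st _ (sy_mem_rig1 he), sy_star_rig1 he]
  simp

theorem mul_pj {w e : F} (hw : w ∈ unitary F) (he : IsStarProjection e) :
    s w * pj_rig1 s e = (2⁻¹ : ℂ) • (s w - s (w * sy_rig1 e)) := by
  rw [pj_rig1, mul_smul_comm, mul_sub, h.mul_one' hw, h.mul _ hw _ (sy_mem_rig1 he)]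

theorem pj_mul {w e : F} (hw : w ∈ unitary F) (he : IsStarProjection e) :
    pj_rig1 s e * s w = (2⁻¹ : ℂ) • (s w - s (sy_rig1 e * w)) := by
  rw [pj_rig1, smul_mul_assoc, sub_mul, h.one_mul' hw, h.mul _ (sy_mem_rig1 he) _ hw]

theorem stab1 {w e : F} (hw : w ∈ unitary F) (he : IsStarProjection e) (hwe : w * e = e) :
    s w * pj_rig1 s e = pj_rig1 s e := by
  have h1 : e * w = e := by
    have := congrArg star hwe
    rw [star_mul, he.isSelfAdjoint.star_eq] at this
    nth_rewrite 1 [← this]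
    rw [mul_assoc, Unitary.star_mul_self_of_mem hw, mul_one]
  have h2 : Commute (s w) (pj_rig1 s e) := by
    rw [Commute, SemiconjBy, h.mul_pj hw he, h.pj_mul hw he]
    simp [sy_rig1, mul_sub, sub_mul, h1, hwe]
  have h3 : ∀ m : ℕ, (s w * pj_rig1 s e) ^ (m + 1) = s (w ^ (m + 1)) * pj_rig1 s e := fun m => by
    rw [h2.mul_pow, (h.proj he).pow_succ_eq, h.pow hw]
  have h4 : ∀ m : ℕ, w ^ m * e = e := fun m => by
    induction m with
    | zero => simp
    | succ m ih => rw [pow_succ, mul_assoc, hwe, ih]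
  refine near_one (C := 1) (by rw [mul_assoc, h.pj_pj he]) (fun m => ?_) (fun m => ?_)
    (h.pj_pj he) (by rw [← mul_assoc, ← h2.eq, mul_assoc, h.pj_pj he])
  · rw [h3]
    exact (norm_mul_le _ _).trans
      (mul_le_one₀ (h.norm_le (pow_mem hw _)) (norm_nonneg _) (h.proj he).norm_le)
  · have := h.rel 2⁻¹ (-2⁻¹) (-2⁻¹) 2⁻¹ _ (pow_mem hw (m + 1)) _
      (mul_mem (pow_mem hw (m + 1)) (sy_mem_rig1 he)) _ (one_mem _) _ (sy_mem_rig1 he)
      (by norm_num) (by rw [sy_rig1, mul_sub, mul_smul_comm, h4, mul_one]; module)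
    rw [h3, h.mul_pj (pow_mem hw _) he, pj_rig1]
    refine le_trans (le_of_eq (congrArg _ ?_)) this
    module

theorem stab {w e : F} {l : ℂ} (hl : ‖l‖ = 1) (hw : w ∈ unitary F) (he : IsStarProjection e)
    (hwe : w * e = l • e) : s w * pj_rig1 s e = l • pj_rig1 s e := by
  have hl' : ‖star l‖ = 1 := by simp [hl]
  have := h.stab1 (sm_mem_rig1 hl' hw) he
    (by rw [smul_mul_assoc, hwe, smul_smul, cc_rig1 hl, one_smul])
  rw [h.scal hl' hw, smul_mul_assoc] at this
  nth_rewrite 2 [← this]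
  rw [smul_smul, mul_comm, cc_rig1 hl, one_smul]

theorem orth {e f : F} (he : IsStarProjection e) (hf : IsStarProjection f) (hef : e * f = 0) :
    pj_rig1 s e * pj_rig1 s f = 0 := by
  nth_rewrite 1 [pj_rig1]
  rw [smul_mul_assoc, sub_mul, h.one_pj hf,
    h.stab1 (sy_mem_rig1 he) hf (by simp [sy_rig1, sub_mul, hef]), sub_self, smul_zero]

theorem add {e f : F} (he : IsStarProjection e) (hf : IsStarProjection f) (hef : e * f = 0) :
    pj_rig1 s (e + f) = pj_rig1 s e + pj_rig1 s f := by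
  have h1 : sy_rig1 (e + f) = sy_rig1 e * sy_rig1 f := by
    simp only [sy_rig1, mul_sub, sub_mul, mul_one, one_mul, smul_mul_assoc, mul_smul_comm, hef]
    module
  have h2 := h.orth he hf hef
  simp only [pj_rig1, mul_sub, sub_mul, smul_mul_assoc, mul_smul_comm, h.one_mul' (one_mem _),
    h.one_mul' (sy_mem_rig1 hf), h.mul_one' (sy_mem_rig1 he)] at h2
  rw [pj_rig1, pj_rig1, pj_rig1, h1, h.mul _ (sy_mem_rig1 he) _ (sy_mem_rig1 hf)]
  linear_combination (norm := module) (-2 : ℂ) • h2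

theorem conj {w e : F} (hw : w ∈ unitary F) (he : IsStarProjection e) :
    s w * pj_rig1 s e = pj_rig1 s (w * e * star w) * s w := by
  have h1 : IsStarProjection (w * e * star w) := by
    refine isStarProjection_iff'.2 ⟨?_, by simp [he.isSelfAdjoint.star_eq, mul_assoc]⟩
    calc _ = w * e * (star w * w) * e * star w := by simp only [mul_assoc]
      _ = _ := by
        rw [Unitary.star_mul_self_of_mem hw, mul_one, mul_assoc w e, he.isIdempotentElem.eq]
  rw [h.mul_pj hw he, h.pj_mul hw h1]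
  simp [sy_rig1, mul_sub, sub_mul, mul_assoc, Unitary.star_mul_self_of_mem hw]

theorem rot {g J : F} {c t : ℝ} (hct : c ^ 2 + t ^ 2 = 1) (hg : IsStarProjection g)
    (hJ : star J = -J) (h1 : g * J = J) (h2 : J * g = J) (h3 : J * J = -g) {X : F}
    (hX : X = (c : ℂ) • g + (t : ℂ) • J + (1 - g)) :
    X ∈ unitary F ∧ star X = (c : ℂ) • g - (t : ℂ) • J + (1 - g) ∧
      (s X + s (star X)) * pj_rig1 s g = (2 * c : ℂ) • pj_rig1 s g := by
  have hc : (c : ℂ) ^ 2 + (t : ℂ) ^ 2 = 1 := by exact_mod_cast hct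
  have g1 := hg.isIdempotentElem.eq
  have hs : star X = (c : ℂ) • g - (t : ℂ) • J + (1 - g) := by
    simp [hX, hJ, hg.isSelfAdjoint.star_eq, sub_eq_add_neg]
  have hu : X ∈ unitary F := by
    rw [Unitary.mem_iff, hs, hX]
    simp only [mul_add, add_mul, mul_sub, sub_mul, mul_one, one_mul, smul_mul_assoc,
      mul_smul_comm, g1, h1, h2, h3]
    constructor <;> linear_combination (norm := module) hc • g
  have hq : ∀ a : ℂ, star a = -a → a ^ 2 = -1 → ∀ q : F, q = (2⁻¹ : ℂ) • (g - a • J) →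
      IsStarProjection q ∧
        (s X + s (star X)) * pj_rig1 s q = (2 * c : ℂ) • pj_rig1 s q := by
    intro a a1 a2 q hq
    have q1 : IsStarProjection q := by
      refine isStarProjection_iff'.2 ⟨?_, ?_⟩
      · simp only [hq, mul_sub, sub_mul, smul_mul_assoc, mul_smul_comm, g1, h1, h2, h3]
        linear_combination (norm := module) (-4⁻¹ : ℂ) • a2 • g
      · simp [hq, hJ, a1, hg.isSelfAdjoint.star_eq]
    have n1 : ∀ r : ℝ, r ^ 2 = t ^ 2 → ‖(c : ℂ) + r * a‖ = 1 := fun r hr => by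
      have e1 : (r : ℂ) ^ 2 = (t : ℂ) ^ 2 := by exact_mod_cast hr
      have e2 : star ((c : ℂ) + r * a) * ((c : ℂ) + r * a) = 1 := by
        rw [star_add, star_mul', a1, Complex.star_def, Complex.conj_ofReal, Complex.conj_ofReal]
        linear_combination hc + e1 - (r : ℂ) ^ 2 * a2
      have e3 := CStarRing.norm_star_mul_self (x := (c : ℂ) + r * a)
      rw [e2, norm_one] at e3
      nlinarith [norm_nonneg ((c : ℂ) + r * a)]
    refine ⟨q1, ?_⟩
    rw [add_mul, h.stab (n1 t rfl) hu q1, h.stab (n1 (-t) (by ring)) (Unitary.star_mem hu) q1]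
    · push_cast
      module
    · rw [hs]
      simp only [hq, add_mul, mul_sub, sub_mul, one_mul, smul_mul_assoc, mul_smul_comm, g1, h1,
        h2, h3]
      push_cast
      linear_combination (norm := module) (-2⁻¹ * t : ℂ) • a2 • J
    · rw [hX]
      simp only [hq, add_mul, mul_sub, sub_mul, one_mul, smul_mul_assoc, mul_smul_comm, g1, h1,
        h2, h3]
      linear_combination (norm := module) (2⁻¹ * t : ℂ) • a2 • J
  obtain ⟨p1, p2⟩ := hq Complex.I (by simp) (by simp) _ rfl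
  obtain ⟨m1, m2⟩ := hq (-Complex.I) (by simp) (by simp) _ rfl
  have h4 := h.add p1 m1 (by
    simp only [mul_sub, sub_mul, smul_mul_assoc, mul_smul_comm, g1, h1, h2, h3]
    linear_combination (norm := module) (4⁻¹ : ℂ) • Complex.I_sq • g)
  rw [show (2⁻¹ : ℂ) • (g - Complex.I • J) + (2⁻¹ : ℂ) • (g - -Complex.I • J) = g by module] at h4
  exact ⟨hu, hs, by rw [h4, mul_add, p2, m2, smul_add]⟩

theorem real (hF : ∀ z : F, star z * z = 0 → z = 0) {w e : F} {c : ℝ} (hw : w ∈ unitary F)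
    (he : IsStarProjection e) (hc : c ^ 2 ≤ 1) (hwe : e * w * e = (c : ℂ) • e) :
    pj_rig1 s e * s w * pj_rig1 s e = (c : ℂ) • pj_rig1 s e := by
  have e1 := he.isIdempotentElem.eq
  have e2 := he.isSelfAdjoint.star_eq
  obtain ⟨t, hct⟩ : ∃ t : ℝ, c ^ 2 + t ^ 2 = 1 :=
    ⟨√(1 - c ^ 2), by rw [Real.sq_sqrt (by linarith)]; ring⟩
  have hc' : (c : ℂ) ^ 2 + (t : ℂ) ^ 2 = 1 := by exact_mod_cast hct
  obtain ⟨z, hz⟩ : ∃ z, z = w * e - (c : ℂ) • e := ⟨_, rfl⟩
  have z1 : e * z = 0 := by rw [hz, mul_sub, ← mul_assoc, hwe, mul_smul_comm, e1, sub_self]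
  have z2 : z * e = z := by rw [hz, sub_mul, mul_assoc, smul_mul_assoc, e1]
  have z3 : star z * z = ((t : ℂ) ^ 2) • e := by
    have a1 : e * star w * e = (c : ℂ) • e := by
      simpa [e2, mul_assoc] using congrArg star hwe
    have a2 : e * star w * (w * e) = e := by
      rw [mul_assoc, ← mul_assoc _ w, Unitary.star_mul_self_of_mem hw, one_mul, e1]
    rw [hz, star_sub, star_mul, star_smul, e2, Complex.star_def, Complex.conj_ofReal]
    simp only [mul_sub, sub_mul, smul_mul_assoc, mul_smul_comm, a1, a2, e1, ← mul_assoc e w, hwe]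
    linear_combination (norm := module) (-1 : ℂ) • hc' • e
  by_cases ht : t = 0
  · have a1 : z = 0 := hF z (by simp [z3, ht])
    have a2 : ‖(c : ℂ)‖ = 1 := by
      rw [Complex.norm_real, Real.norm_eq_abs, ← sq_eq_sq₀ (abs_nonneg _) zero_le_one, sq_abs]
      simpa [ht] using hct
    rw [mul_assoc, h.stab a2 hw he (sub_eq_zero.1 (hz ▸ a1)), mul_smul_comm, h.pj_pj he]
  have ht' : (t : ℂ) ≠ 0 := by exact_mod_cast ht
  obtain ⟨y, hy⟩ : ∃ y, y = (t : ℂ)⁻¹ • z := ⟨_, rfl⟩
  have y1 : e * y = 0 := by rw [hy, mul_smul_comm, z1, smul_zero]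
  have y2 : y * e = y := by rw [hy, smul_mul_assoc, z2]
  have y3 : star y * y = e := by
    rw [hy, star_smul, smul_mul_assoc, mul_smul_comm, z3, smul_smul, smul_smul, star_inv₀,
      Complex.star_def, Complex.conj_ofReal, show (t : ℂ)⁻¹ * (t : ℂ)⁻¹ * (t : ℂ) ^ 2 = 1 by
        field_simp, one_smul]
  have y4 : star y * e = 0 := by simpa [e2] using congrArg star y1
  have y5 : e * star y = star y := by simpa [e2] using congrArg star y2
  have y6 : y * y = 0 := by rw [← y2, mul_assoc, ← mul_assoc e, y1, zero_mul, mul_zero]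
  have y7 : star y * star y = 0 := by simpa using congrArg star y6
  have y8 : y * star y * y = y := by rw [mul_assoc, y3, y2]
  have y9 : star y * (y * star y) = star y := by rw [← mul_assoc, y3, y5]
  have hf : IsStarProjection (y * star y) :=
    isStarProjection_iff'.2 ⟨by rw [← mul_assoc, y8], by simp⟩
  have ef : e * (y * star y) = 0 := by rw [← mul_assoc, y1, zero_mul]
  have fe : y * star y * e = 0 := by rw [mul_assoc, y4, mul_zero]
  obtain ⟨r1, r2, r3⟩ := h.rot (g := e + y * star y) (J := y - star y) hct (he.add hf ef)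
    (by simp) (by rw [add_mul, mul_sub, mul_sub, y1, y5, y8, mul_assoc, y7, mul_zero]; abel)
    (by rw [mul_add, sub_mul, sub_mul, y2, y4, y9, ← mul_assoc, y6, zero_mul]; abel)
    (by rw [mul_sub, sub_mul, sub_mul, y6, y3, y7]; abel) rfl
  generalize hX : (c : ℂ) • (e + y * star y) + (t : ℂ) • (y - star y) + (1 - (e + y * star y)) = X
    at r1 r2 r3
  have a1 : X * e = w * e := by
    simp only [← hX, add_mul, sub_mul, smul_mul_assoc, one_mul, e1, fe, y2, y4]
    rw [hy, hz, sub_zero, smul_smul, mul_inv_cancel₀ ht']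
    module
  have a2 : s w * pj_rig1 s e = s X * pj_rig1 s e := by
    have b1 := h.stab1 (mul_mem (Unitary.star_mem r1) hw) he
      (by rw [mul_assoc, ← a1, ← mul_assoc, Unitary.star_mul_self_of_mem r1, one_mul])
    nth_rewrite 2 [← b1]
    rw [← mul_assoc, ← h.mul _ r1 _ (mul_mem (Unitary.star_mem r1) hw), ← mul_assoc,
      Unitary.mul_star_self_of_mem r1, one_mul]
  have a3 : star X = sy_rig1 e * X * sy_rig1 e := by
    rw [r2]
    simp only [← hX, sy_rig1, add_mul, mul_add, sub_mul, mul_sub, smul_mul_assoc, mul_smul_comm,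
      one_mul, mul_one, e1, fe, ef, y1, y2, y4, y5, zero_mul]
    module
  have a4 : pj_rig1 s e * s (star X) * pj_rig1 s e = pj_rig1 s e * s X * pj_rig1 s e := by
    have b1 := sy_mem_rig1 he
    rw [a3, h.mul _ (mul_mem b1 r1) _ b1, h.mul _ b1 _ r1, mul_assoc, mul_assoc, h.t_pj he,
      ← mul_assoc, ← mul_assoc, h.pj_t he]
    simp
  have a5 : pj_rig1 s (e + y * star y) * pj_rig1 s e = pj_rig1 s e := by
    rw [h.add he hf ef, add_mul, h.orth hf he fe, h.pj_pj he, add_zero]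
  have a6 := congrArg (fun x => pj_rig1 s e * x * pj_rig1 s e) r3
  simp only [mul_assoc, a5, smul_mul_assoc, mul_smul_comm, h.pj_pj he, add_mul, mul_add] at a6 a4
  rw [mul_assoc, a2]
  linear_combination (norm := module) (2⁻¹ : ℂ) • a6 - (2⁻¹ : ℂ) • a4

end Rg_rig1

theorem rig1 (hF : ∀ z : F, star z * z = 0 → z = 0) (σ : unitary F → R)
    (hmul : ∀ w w', σ (w * w') = σ w * σ w') (hstar : ∀ w, σ (star w) = star (σ w))
    (hrel : Rel4 σ (1 / 2)) :
    ∃ P : F → R, (∀ e, IsStarProjection e → IsStarProjection (P e)) ∧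
      (∀ T, (∀ w, Commute T (σ w)) → ∀ e, Commute T (P e)) ∧ P 1 = σ 1 ∧
      (∀ e f, IsStarProjection e → IsStarProjection f → e * f = 0 →
        P e * P f = 0 ∧ P (e + f) = P e + P f) ∧
      (∀ (w : unitary F) (e : F), IsStarProjection e → σ w * P e = P ((w : F) * e * star (w : F)) * σ w) ∧
      ∀ (w : unitary F) (e : F) (c : ℂ), IsStarProjection e → ‖c‖ ≤ 1 → e * (w : F) * e = c • e →
        P e * σ w * P e = c • P e := by
  classical
  let s : F → R := fun x => if hx : x ∈ unitary F then σ ⟨x, hx⟩ else 0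
  have hs : ∀ x (hx : x ∈ unitary F), s x = σ ⟨x, hx⟩ := fun x hx => dif_pos hx
  have hw : ∀ w : unitary F, σ w = s w := fun w => (hs w w.2).symm
  have h : Rg_rig1 s := by
    refine ⟨fun x hx y hy => ?_, fun x hx => ?_, fun a b c d x hx y hy z hz w hw' h1 h2 => ?_⟩
    · rw [hs x hx, hs y hy, ← hmul, hw]
      rfl
    · rw [hs x hx, ← hstar, hw]
      rfl
    · have := hrel ![a, b, c, d] ![⟨x, hx⟩, ⟨y, hy⟩, ⟨z, hz⟩, ⟨w, hw'⟩]
        (by simpa [Fin.sum_univ_four] using h1) (by simpa [Fin.sum_univ_four] using h2)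
      simpa [Fin.sum_univ_four, hw] using this
  refine ⟨pj_rig1 s, fun e he => h.proj he, fun T hT e => ?_, ?_,
    fun e f he hf hef => ⟨h.orth he hf hef, h.add he hf hef⟩,
    fun w e he => by rw [hw, h.conj w.2 he], fun w e c he hc hwe => ?_⟩
  · have h1 : ∀ x, Commute T (s x) := fun x => by
      by_cases hx : x ∈ unitary F
      · rw [hs x hx]
        exact hT _
      · simp [s, hx]
    exact ((h1 _).sub_right (h1 _)).smul_right _
  · have h1 := h.scal (l := -1) (by simp) (one_mem _)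
    rw [pj_rig1, show sy_rig1 (1 : F) = (-1 : ℂ) • 1 by rw [sy_rig1]; module, h1, hw,
      OneMemClass.coe_one]
    module
  · obtain ⟨l, hl, h1⟩ : ∃ l : ℂ, ‖l‖ = 1 ∧ c = ‖c‖ * l :=
      ⟨_, Complex.norm_exp_ofReal_mul_I _, (Complex.norm_mul_exp_arg_mul_I c).symm⟩
    have hl' : ‖star l‖ = 1 := by simp [hl]
    have h2 := h.real hF (c := ‖c‖) (sm_mem_rig1 hl' w.2) he (by nlinarith [norm_nonneg c]) (by
      rw [mul_smul_comm, smul_mul_assoc, hwe, smul_smul]
      congr 1
      linear_combination star l * h1 + ‖c‖ * cc_rig1 hl)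
    rw [h.scal hl' w.2, mul_smul_comm, smul_mul_assoc] at h2
    rw [hw, h1, mul_comm _ l, ← smul_smul, ← h2, smul_smul, mul_comm l, cc_rig1 hl, one_smul]

end Ulam
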