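import Pool.Agent.P.MP_3be8c7_an.RIG1

open scoped ComplexOrder InnerProductSpace
open Filter Topology

noncomputable section

namespace Ulam

universe u v w

/-- Diagonal matrix unit. -/
def e_rig2 {I Λ : Type*} [Fintype I] [DecidableEq I] (τ : I → Λ) (j : I) : blkAlg τ :=
  ⟨Matrix.single j j 1, fun a b h => by
    by_cases ha : j = a
    · by_cases hb : j = b
      · exact absurd (by rw [← ha, ← hb]) h
      · simp [hb]
    · simp [ha]⟩

section
variable {I Λ : Type*} [Fintype I] [DecidableEq I] {τ : I → Λ}

theorem e_val_rig2 (j : I) : (e_rig2 τ j : Matrix I I ℂ) = Matrix.single j j 1 := rfl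

theorem e_proj_rig2 (j : I) : IsStarProjection (e_rig2 τ j) := by
  refine ⟨Subtype.ext ?_, Subtype.ext ?_⟩
  · change Matrix.single j j (1 : ℂ) * Matrix.single j j 1 = Matrix.single j j 1
    simp
  · change star (Matrix.single j j (1 : ℂ)) = Matrix.single j j 1
    simp [Matrix.star_eq_conjTranspose]

theorem e_orth_rig2 {j k : I} (h : j ≠ k) : e_rig2 τ j * e_rig2 τ k = 0 := by
  refine Subtype.ext ?_
  change Matrix.single j j (1 : ℂ) * Matrix.single k k 1 = 0
  simp [h]

theorem e_sum_rig2 : ∑ j, e_rig2 τ j = 1 := by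
  refine Subtype.ext ?_
  rw [AddSubmonoidClass.coe_finsetSum]
  simp only [e_val_rig2]
  exact Matrix.sum_single_one

theorem e_corner_rig2 (w : BU τ) (k : I) :
    e_rig2 τ k * (w : blkAlg τ) * e_rig2 τ k = w.mat k k • e_rig2 τ k := by
  refine Subtype.ext ?_
  change Matrix.single k k (1 : ℂ) * w.mat * Matrix.single k k 1 = w.mat k k • Matrix.single k k 1
  simp

theorem exists_swap_rig2 (j k : I) : ∃ w : BU τ, τ j = τ k →
    w.mat = Matrix.of fun a b => if b = Equiv.swap j k a then (1 : ℂ) else 0 := by
  by_cases h : τ j = τ k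
  · obtain ⟨w, hw⟩ := BU.exists_mk (τ := τ)
      (x := Matrix.of fun a b => if b = Equiv.swap j k a then (1 : ℂ) else 0)
      (fun a b hab => by
        have : b ≠ Equiv.swap j k a := by
          rintro rfl
          apply hab
          rw [Equiv.swap_apply_def]
          split_ifs with h1 h2
          · rw [h1, h]
          · rw [h2, h]
          · rfl
        simp [this])
      (by
        ext a b
        simp only [Matrix.mul_apply, Matrix.star_apply, Matrix.of_apply, Matrix.one_apply]
        rw [Finset.sum_eq_single (Equiv.swap j k a)]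
        · simp [eq_comm]
        · intro c _ hc
          have : a ≠ Equiv.swap j k c := by
            rintro rfl
            simp at hc
          simp [this]
        · simp)
    exact ⟨w, fun _ => hw⟩
  · exact ⟨1, fun h' => absurd h' h⟩

end

theorem rig2 {I Λ R : Type*} [Fintype I] [DecidableEq I] {τ : I → Λ} [CStarAlgebra R]
    (σ : BU τ → R) (hmul : ∀ w w', σ (w * w') = σ w * σ w') (hstar : ∀ w, σ (star w) = star (σ w))
    (hrel : Rel4 σ (1 / 2)) :
    ∃ E V : I → I → R, (∀ T, (∀ w, Commute T (σ w)) → ∀ j k, Commute T (E j k)) ∧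
      (∀ j k, E j k = ∑ l, star (V l j) * V l k) ∧ ∀ w, σ w = ∑ j, ∑ k, w.mat j k • E j k := by
  classical
  obtain ⟨P, hP, hT, h1, hadd, hconj, hcorner⟩ := rig1 (F := blkAlg τ)
    (fun z hz => Subtype.ext (Matrix.conjTranspose_mul_self_eq_zero.1 (congrArg Subtype.val hz)))
    σ hmul hstar hrel
  set e := e_rig2 τ with he
  have hp : ∀ j, IsStarProjection (P (e j)) := fun j => hP _ (e_proj_rig2 j)
  have hP0 : P 0 = 0 := by
    have := (hadd 0 0 (.zero _) (.zero _) (by simp)).2
    simpa using this
  have hsum : ∀ s : Finset I, IsStarProjection (∑ j ∈ s, e j) ∧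
      P (∑ j ∈ s, e j) = ∑ j ∈ s, P (e j) := by
    intro s
    induction s using Finset.induction_on with
    | empty => simpa using hP0
    | insert a s ha ih =>
      have ho : e a * ∑ j ∈ s, e j = 0 := by
        rw [Finset.mul_sum]
        exact Finset.sum_eq_zero fun j hj => e_orth_rig2 fun h => ha (h ▸ hj)
      rw [Finset.sum_insert ha, Finset.sum_insert ha]
      exact ⟨(e_proj_rig2 a).add ih.1 ho, by rw [(hadd _ _ (e_proj_rig2 a) ih.1 ho).2, ih.2]⟩
  have hone : ∑ j, P (e j) = σ 1 := by rw [← (hsum Finset.univ).2, he, e_sum_rig2, h1]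
  have hPo : ∀ j k, j ≠ k → P (e j) * P (e k) = 0 := fun j k h =>
    (hadd _ _ (e_proj_rig2 j) (e_proj_rig2 k) (e_orth_rig2 h)).1
  have hP1 : ∀ j, P (e j) * σ 1 = P (e j) := fun j => by
    rw [← hone, Finset.mul_sum, Finset.sum_eq_single j, (hp j).isIdempotentElem.eq]
    · exact fun k _ hk => hPo j k (Ne.symm hk)
    · simp
  choose π hπ using exists_swap_rig2 (τ := τ)
  have hπmul : ∀ j k, τ j = τ k → ∀ (x : Matrix I I ℂ) a b,
      ((π j k).mat * x) a b = x (Equiv.swap j k a) b := fun j k h x a b => by
    simp [hπ j k h, Matrix.mul_apply]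
  have hπstar : ∀ j k, τ j = τ k → star (π j k) = π j k := fun j k h => by
    refine Subtype.ext (Subtype.ext ?_)
    change star (π j k).mat = (π j k).mat
    ext a b
    simp only [hπ j k h, Matrix.star_apply, Matrix.of_apply]
    by_cases hab : b = Equiv.swap j k a
    · subst hab; simp
    · have : a ≠ Equiv.swap j k b := by rintro rfl; simp at hab
      simp [hab, this]
  have hππ : ∀ j k, τ j = τ k → π j k * π j k = 1 := fun j k h => by
    nth_rewrite 1 [← hπstar j k h]
    exact Unitary.star_mul_self _
  have hπe : ∀ j k, τ j = τ k → σ (π j k) * P (e k) = P (e j) * σ (π j k) := fun j k h => by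
    rw [hconj _ _ (e_proj_rig2 k)]
    congr 2
    have h2 : (π j k : blkAlg τ) * e_rig2 τ k = e_rig2 τ j * (π j k : blkAlg τ) := by
      refine Subtype.ext ?_
      change (π j k).mat * Matrix.single k k 1 = Matrix.single j j 1 * (π j k).mat
      ext a b
      rw [hπmul j k h]
      by_cases ha : j = a
      · subst ha
        simp [hπ j k h, Matrix.single_apply, eq_comm]
      · have : k ≠ Equiv.swap j k a := by
          intro hh
          apply ha
          have := congrArg (Equiv.swap j k) hh
          simpa using this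
        simp [ha, this, Matrix.mul_apply, Matrix.single_apply]
    rw [h2, mul_assoc, Unitary.mul_star_self_of_mem (π j k).2, mul_one]
  let E : I → I → R := fun j k => if τ j = τ k then σ (π j k) * P (e k) else 0
  have hform : ∀ (w : BU τ) j k, P (e j) * σ w * P (e k) = w.mat j k • E j k := by
    intro w j k
    by_cases h : τ j = τ k
    · have h2 := hcorner (π j k * w) (e k) ((π j k * w).mat k k) (e_proj_rig2 k)
        ((π j k * w).contr.norm_apply_le k k) (e_corner_rig2 _ k)
      have h3 : σ w = σ (π j k) * σ (π j k * w) := by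
        rw [← hmul, ← mul_assoc, hππ j k h, one_mul]
      rw [BU.mat_mul, hπmul j k h, Equiv.swap_apply_right] at h2
      simp only [E, if_pos h]
      rw [h3, ← mul_assoc, ← hπe j k h, mul_assoc, mul_assoc, ← mul_assoc (P (e k)), h2,
        mul_smul_comm]
    · set s := Finset.univ.filter fun l => τ l = τ k
      set f := ∑ l ∈ s, e l with hf
      have hfv : (f : Matrix I I ℂ) = Matrix.diagonal fun l => if τ l = τ k then 1 else 0 := by
        rw [hf, AddSubmonoidClass.coe_finsetSum]
        ext a b
        simp only [he, e_val_rig2, Matrix.sum_apply, Matrix.single_apply, Matrix.diagonal_apply, s]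
        by_cases hab : a = b
        · subst hab
          simp [Finset.sum_ite_eq']
        · rw [if_neg hab]
          refine Finset.sum_eq_zero fun l _ => if_neg ?_
          rintro ⟨rfl, rfl⟩
          exact hab rfl
      have hc : (w : blkAlg τ) * f = f * (w : blkAlg τ) := by
        refine Subtype.ext ?_
        change w.mat * (f : Matrix I I ℂ) = (f : Matrix I I ℂ) * w.mat
        rw [hfv]
        ext a b
        rw [Matrix.mul_diagonal, Matrix.diagonal_mul]
        by_cases hab : τ a = τ b
        · rw [hab, mul_comm]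
        · simp [w.blk a b hab]
      have h2 := hconj w f (hsum s).1
      rw [hc, mul_assoc, Unitary.mul_star_self_of_mem w.2, mul_one, (hsum s).2] at h2
      have h3 : (∑ l ∈ s, P (e l)) * P (e k) = P (e k) := by
        rw [Finset.sum_mul, Finset.sum_eq_single k, (hp k).isIdempotentElem.eq]
        · exact fun l _ hl => hPo l k hl
        · simp [s]
      have h4 : P (e j) * ∑ l ∈ s, P (e l) = 0 := by
        rw [Finset.mul_sum]
        refine Finset.sum_eq_zero fun l hl => hPo j l ?_
        rintro rfl
        exact h (by simpa [s] using hl)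
      simp only [E, if_neg h, smul_zero]
      rw [← h3, mul_assoc, ← mul_assoc (σ w), h2, ← mul_assoc, ← mul_assoc, h4, zero_mul, zero_mul]
  have hE : ∀ j k, τ j = τ k → E j k = P (e j) * σ (π j k) * P (e k) := fun j k h => by
    rw [hform, hπ j k h]
    simp
  have hEstar : ∀ j k, star (E j k) = E k j := fun j k => by
    by_cases h : τ j = τ k
    · rw [hE j k h, star_mul, star_mul, (hp j).isSelfAdjoint.star_eq, (hp k).isSelfAdjoint.star_eq,
        ← hstar, hπstar j k h, ← mul_assoc, hform, hπ j k h]
      simp
    · simp [E, h, Ne.symm h]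
  have hEmul : ∀ j k l, τ j = τ k → τ k = τ l → E j k * E k l = E j l := fun j k l h h' => by
    have h2 : E j k * E k l = P (e j) * σ (π j k * π k l) * P (e l) := by
      rw [hE j k h]
      simp only [E, if_pos h']
      rw [hmul, mul_assoc _ (P (e k)), ← mul_assoc (P (e k)), ← hπe k l h', mul_assoc (σ (π k l)),
        (hp l).isIdempotentElem.eq]
      simp only [mul_assoc]
    rw [h2, hform, BU.mat_mul, hπmul j k h, hπ k l h']
    simp
  let n : I → ℕ := fun l => (Finset.univ.filter fun a => τ a = τ l).card
  have hn : ∀ l, 0 < n l := fun l => Finset.card_pos.2 ⟨l, by simp⟩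
  refine ⟨E, fun l k => ((√(n l))⁻¹ : ℝ) • E l k, fun T hT' j k => ?_, fun j k => ?_, fun w => ?_⟩
  · simp only [E]
    split_ifs
    · exact (hT' _).mul_right (hT T hT' _)
    · exact Commute.zero_right _
  · have h2 : ∀ l, star (((√(n l))⁻¹ : ℝ) • E l j) * (((√(n l))⁻¹ : ℝ) • E l k) =
        if τ l = τ j then ((n j : ℝ)⁻¹ • E j k) else 0 := fun l => by
      rw [star_smul, star_trivial, hEstar, smul_mul_smul_comm, ← mul_inv,
        Real.mul_self_sqrt (Nat.cast_nonneg _)]
      split_ifs with hl
      · have : n l = n j := by simp [n, hl]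
        rw [this]
        by_cases hk : τ l = τ k
        · rw [hEmul j l k hl.symm hk]
        · have : τ j ≠ τ k := hl ▸ hk
          simp [E, hk, this]
      · simp [E, Ne.symm hl]
    simp only [h2]
    rw [← Finset.sum_filter, Finset.sum_const, ← Nat.cast_smul_eq_nsmul ℝ, smul_smul,
      mul_inv_cancel₀ (by exact_mod_cast (hn j).ne'), one_smul]
  · simp only [← hform]
    simp only [← Finset.mul_sum, ← Finset.sum_mul, hone]
    rw [← hmul, ← hmul, one_mul, mul_one]

end Ulam
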