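import Pool.Agent.P.MP_3be8c7_an.UNIV
import Pool.Agent.P.MP_3be8c7_an.BIC
import Pool.Agent.P.MP_3be8c7_an.KAP
import Pool.Agent.P.MP_3be8c7_an.ZF
import Pool.Agent.P.MP_3be8c7_an.FIN
import Pool.Agent.P.MP_3be8c7_an.INF
import Pool.Agent.P.MP_3be8c7_an.SUM
import Pool.Agent.P.MP_3be8c7_an.TRANS

open scoped ComplexOrder InnerProductSpace
open Filter Topology

noncomputable section

namespace Ulam

universe u v w

variable {D : Type u} [CStarAlgebra D] [PartialOrder D] [StarOrderedRing D]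

theorem str_of_nuc (hD : Nuc D) : STR D := by
  intro ρ U hU η hη
  obtain ⟨H, _, _, _, π, hu⟩ := univ_rep D
  obtain ⟨N, hπ, hS⟩ := bic π
  have hK : KDense π N := kap hS
  obtain ⟨Ω, hΩ⟩ := hu ρ
  obtain ⟨z, hz, hzt, hdom⟩ := exists_zf N
  have hU1 : ∀ u ∈ U, ‖u‖ ≤ 1 := fun u hu' => by
    rcases subsingleton_or_nontrivial D with h | h
    · simp [Subsingleton.elim u 0]
    · exact (CStarRing.norm_of_mem_unitary (hU u hu')).le
  have g1 : Good π N U (z Ω) (η / 4) := by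
    set t : ℝ := √(η / 4) / 4 with ht
    have ht0 : 0 < t := by positivity
    obtain ⟨m, ξ, C, hξ, hC, hd⟩ := hdom Ω t ht0
    obtain ⟨ξ₀, hξ₀⟩ := hu (vfun π ξ)
    have he : ∀ a, ⟪ξ₀, π a ξ₀⟫_ℂ = ∑ i, ⟪ξ i, π a (ξ i)⟫_ℂ := fun a => by
      rw [← hξ₀ a, vfun_apply]
    have hn := fun y (hy : y ∈ N) => norm_sq_eq_of_kdense hK he hy
    have htr : TrVec N ξ₀ := fun x hx => by
      have h1 := hn x hx
      have h2 := hn (star x) (star_mem hx)
      have h3 : ∑ i, ‖x (ξ i)‖ ^ 2 = ∑ i, ‖star x (ξ i)‖ ^ 2 :=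
        Finset.sum_congr rfl fun i _ => by rw [hξ i x hx]
      exact (pow_left_inj₀ (norm_nonneg _) (norm_nonneg _) two_ne_zero).1 (by rw [h1, h2, h3])
    set s : ℝ := 2 * t / (C * m + 1) with hs
    have hs0 : 0 < s := by positivity
    refine (good_fin hD π N hπ htr U hU (e := s ^ 2) (by positivity)).dom hπ hU1 ?_
    intro y hy hy2 hye
    have h1 : ∀ i, ‖y (ξ i)‖ ≤ s := fun i => by
      have : ‖y (ξ i)‖ ^ 2 ≤ s ^ 2 := by
        refine le_trans ?_ hye
        rw [hn y hy]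
        exact Finset.single_le_sum (f := fun i => ‖y (ξ i)‖ ^ 2) (fun _ _ => sq_nonneg _)
          (Finset.mem_univ i)
      exact (pow_le_pow_iff_left₀ (norm_nonneg _) hs0.le two_ne_zero).1 this
    have h2 : ∑ i, ‖y (ξ i)‖ ≤ m * s := by
      simpa using Finset.sum_le_card_nsmul Finset.univ _ s fun i _ => h1 i
    have h3 : C * (m * s) ≤ 2 * t := by
      have : C * (m * s) = 2 * t * (C * m / (C * m + 1)) := by rw [hs]; ring
      rw [this]
      refine mul_le_of_le_one_right (by positivity) ?_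
      rw [div_le_one (by positivity)]; linarith
    have h4 : ‖y (z Ω)‖ ≤ √(η / 4) := by
      have := hd y hy
      have h5 : t * ‖y‖ ≤ t * 2 := mul_le_mul_of_nonneg_left hy2 ht0.le
      have h6 : C * ∑ i, ‖y (ξ i)‖ ≤ C * (m * s) := mul_le_mul_of_nonneg_left h2 hC
      linarith
    calc ‖y (z Ω)‖ ^ 2 ≤ √(η / 4) ^ 2 := pow_le_pow_left₀ (norm_nonneg _) h4 2
      _ = η / 4 := Real.sq_sqrt (by positivity)
  have g2 : Good π N U ((1 - z) Ω) (η / 4) := by
    refine good_inf hD π N hπ _ (fun ι _ b => disj_of_orth hK hu hz hzt _ fun i => ?_) U hU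
      (by positivity)
    have h1 : z * π (b i) * (1 - z) = 0 := by
      rw [(hz.2.2 _ (hπ (b i))).eq, mul_assoc, mul_sub, mul_one, hz.1.isIdempotentElem.eq, sub_self,
        mul_zero]
    simpa using congrArg (fun T : H →L[ℂ] H => T Ω) h1
  obtain ⟨s, hs⟩ := transfer hK (good_two hπ hz Ω g1 g2) (e' := η) (by linarith)
  refine ⟨s, fun u hu' => ?_⟩
  have h1 := hs u hu'
  rw [hΩ, map_mul, map_star, ContinuousLinearMap.mul_apply, ContinuousLinearMap.star_eq_adjoint,
    ContinuousLinearMap.adjoint_inner_right, inner_self_eq_norm_sq_to_K]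
  norm_cast

end Ulam
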